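import Mathlib

set_option autoImplicit false

namespace Pool.Agent.H28.VecMat

open Set Submodule Module

variable {α V : Type*} (F : Type*) [Field F] [AddCommGroup V] [Module F V]

theorem finrank_span_of_indep {φ : α → V} {I : Set α} (hfin : I.Finite)
    (hI : LinearIndepOn F φ I) : finrank F (span F (φ '' I)) = I.ncard := by
  classical
  have : Fintype I := hfin.fintype
  have h := finrank_span_eq_card (R := F) (b := fun i : I => φ i) hI
  rw [← Set.image_eq_range] at h
  rw [h, Set.ncard_eq_toFinset_card' I, Set.toFinset_card]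

theorem aug {φ : α → V} {I J : Set α} (hIf : I.Finite) (hJf : J.Finite)
    (hI : LinearIndepOn F φ I) (hJ : LinearIndepOn F φ J) (h : I.ncard < J.ncard) :
    ∃ e ∈ J, e ∉ I ∧ LinearIndepOn F φ (insert e I) := by
  by_contra hcon
  push Not at hcon
  have hle : span F (φ '' J) ≤ span F (φ '' I) := by
    rw [span_le]
    rintro _ ⟨e, he, rfl⟩
    by_cases heI : e ∈ I
    · exact subset_span ⟨e, heI, rfl⟩
    · by_contra hn
      exact hcon e he heI ((linearIndepOn_insert heI).2 ⟨hI, hn⟩)
  have : FiniteDimensional F (span F (φ '' I)) := FiniteDimensional.span_of_finite F (hIf.image φ)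
  have := Submodule.finrank_mono hle
  rw [finrank_span_of_indep F hIf hI, finrank_span_of_indep F hJf hJ] at this
  omega

/-- The vector matroid of the family `φ` on the finite ground set `E`. -/
noncomputable def vecOn (φ : α → V) (E : Set α) (hE : E.Finite) : Matroid α :=
  (IndepMatroid.ofFinite hE (fun I => LinearIndepOn F φ I ∧ I ⊆ E)
    ⟨linearIndepOn_empty F φ, empty_subset _⟩
    (fun _ _ hJ hIJ => ⟨hJ.1.mono hIJ, hIJ.trans hJ.2⟩)
    (fun I J hI hJ h => by
      obtain ⟨e, heJ, heI, he⟩ := aug F (hE.subset hI.2) (hE.subset hJ.2) hI.1 hJ.1 h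
      exact ⟨e, heJ, heI, he, insert_subset (hJ.2 heJ) hI.2⟩)
    (fun _ hI => hI.2)).matroid

@[simp] theorem vecOn_E (φ : α → V) (E : Set α) (hE : E.Finite) : (vecOn F φ E hE).E = E := rfl

@[simp] theorem vecOn_indep (φ : α → V) (E : Set α) (hE : E.Finite) (I : Set α) :
    (vecOn F φ E hE).Indep I ↔ LinearIndepOn F φ I ∧ I ⊆ E := Iff.rfl

/-- The vector matroid of a finite family of vectors. -/
noncomputable def vec [Finite α] (φ : α → V) : Matroid α := vecOn F φ univ finite_univ

@[simp] theorem vec_E [Finite α] (φ : α → V) : (vec F φ).E = univ := rfl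

@[simp] theorem vec_indep [Finite α] (φ : α → V) (I : Set α) :
    (vec F φ).Indep I ↔ LinearIndepOn F φ I := by simp [vec]

section Rep

variable {F} {M : Matroid α} {φ : α → V}

/-- rank in a represented finite matroid -/
theorem mem_closure_iff_of_rep (hrep : ∀ I, M.Indep I ↔ LinearIndepOn F φ I ∧ I ⊆ M.E)
    {X : Set α} (hX : X ⊆ M.E) {e : α} :
    e ∈ M.closure X ↔ φ e ∈ span F (φ '' X) ∧ e ∈ M.E := by
  obtain ⟨I, hI⟩ := M.exists_isBasis X hX
  have key : ∀ f, f ∈ M.closure I ↔ φ f ∈ span F (φ '' I) ∧ f ∈ M.E := by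
    intro f
    by_cases hf : f ∈ I
    · exact ⟨fun _ => ⟨subset_span ⟨f, hf, rfl⟩, hI.indep.subset_ground hf⟩,
        fun _ => M.subset_closure I hI.indep.subset_ground hf⟩
    · rw [hI.indep.mem_closure_iff_of_notMem hf, Matroid.dep_iff, hrep, linearIndepOn_insert hf]
      have h1 := ((hrep I).1 hI.indep)
      simp only [insert_subset_iff, h1.1, h1.2, and_true, true_and]
      tauto
  have hspan : span F (φ '' X) = span F (φ '' I) := by
    apply le_antisymm
    · rw [span_le]
      rintro _ ⟨x, hx, rfl⟩
      exact ((key x).1 (hI.subset_closure hx)).1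
    · exact span_mono (image_mono hI.subset)
  rw [← hI.closure_eq_closure, key, hspan]

theorem eRk_eq_of_rep (hrep : ∀ I, M.Indep I ↔ LinearIndepOn F φ I ∧ I ⊆ M.E)
    {X : Set α} (hX : X ⊆ M.E) (hfin : X.Finite) :
    M.eRk X = (finrank F (span F (φ '' X)) : ℕ∞) := by
  obtain ⟨I, hI⟩ := M.exists_isBasis X hX
  have hspan : span F (φ '' X) = span F (φ '' I) := by
    apply le_antisymm
    · rw [span_le]
      rintro _ ⟨x, hx, rfl⟩
      exact ((mem_closure_iff_of_rep hrep hI.indep.subset_ground).1 (hI.subset_closure hx)).1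
    · exact span_mono (image_mono hI.subset)
  have hIf := hfin.subset hI.subset
  rw [hI.eRk_eq_encard, hspan, finrank_span_of_indep F hIf ((hrep I).1 hI.indep).1,
    hIf.cast_ncard_eq]

end Rep

/-- If every `r` distinct members of the family form a nonsingular matrix, the independent sets
are the sets with at most `r` elements. -/
theorem indep_iff_ncard_le {r : ℕ} [Finite α] (hr : r ≤ Nat.card α) (φ : α → (Fin r → F))
    (h : ∀ e : Fin r → α, Function.Injective e → (Matrix.of (fun i => φ (e i))).det ≠ 0)
    (I : Set α) : LinearIndepOn F φ I ↔ I.ncard ≤ r := by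
  constructor
  · intro hI
    rw [← finrank_span_of_indep F (toFinite I) hI]
    have := Submodule.finrank_le (span F (φ '' I))
    simpa using this
  · intro hI
    obtain ⟨J, hIJ, -, hJ⟩ := Set.exists_subsuperset_card_eq (subset_univ I) hI
      (by rw [Set.ncard_univ]; exact hr)
    refine LinearIndepOn.mono ?_ hIJ
    have : Fintype J := (toFinite J).fintype
    have hc : Fintype.card J = r := by
      rw [← hJ, Set.ncard_eq_toFinset_card' J, Set.toFinset_card]
    let q := (Fintype.equivFinOfCardEq hc).symm
    have hdet := h (fun i => (q i : α)) (Subtype.val_injective.comp q.injective)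
    have hli : LinearIndependent F (fun i => φ (q i)) :=
      Matrix.linearIndependent_rows_of_det_ne_zero hdet
    have := hli.comp q.symm q.symm.injective
    simpa [Function.comp_def, LinearIndepOn] using this

end Pool.Agent.H28.VecMat
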