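import Mathlib

set_option autoImplicit false
set_option linter.unusedSectionVars false

/-! The edge version of Menger's theorem for finite simple graphs, and the odd cut lemma. -/

namespace Pool.Agent.H28.EdgeMenger

open Finset

variable {V : Type*} [Fintype V] [DecidableEq V]

theorem grow (Q : Finset V → V → Prop) (R : V → V → Prop) (s : V) (h0 : Q {s} s)
    (hmono : ∀ Y z y, Q Y y → Q (insert z Y) y)
    (hstep : ∀ Y y z, y ∈ Y → z ∉ Y → R y z → Q Y y → Q (insert z Y) z) :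
    ∃ Y : Finset V, s ∈ Y ∧ (∀ y ∈ Y, Q Y y) ∧ ∀ y ∈ Y, ∀ z, z ∉ Y → ¬ R y z := by
  classical
  obtain ⟨Y, hY, hmax⟩ := Finset.exists_max_image
    (Finset.univ.filter fun Y : Finset V => s ∈ Y ∧ ∀ y ∈ Y, Q Y y) Finset.card
    ⟨{s}, by simpa using h0⟩
  rw [Finset.mem_filter] at hY
  refine ⟨Y, hY.2.1, hY.2.2, fun y hy z hz hR => ?_⟩
  have := hmax (insert z Y) (by
    rw [Finset.mem_filter]
    refine ⟨Finset.mem_univ _, Finset.mem_insert_of_mem hY.2.1, fun x hx => ?_⟩
    rcases Finset.mem_insert.1 hx with rfl | hx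
    · exact hstep Y y x hy hz hR (hY.2.2 y hy)
    · exact hmono Y z x (hY.2.2 x hx))
  rw [Finset.card_insert_of_notMem hz] at this
  omega

/-- Feasible unit capacity flows. -/
structure Feas (G : SimpleGraph V) (f : V → V → ℤ) : Prop where
  anti : ∀ a b, f a b = - f b a
  le_one : ∀ a b, f a b ≤ 1
  adj : ∀ a b, f a b ≠ 0 → G.Adj a b

/-- net outflow -/
def dv (f : V → V → ℤ) (a : V) : ℤ := ∑ b, f a b

/-- Kronecker delta -/
def dl (y a : V) : ℤ := if a = y then 1 else 0

/-- the unit flow along the pair `y z` -/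
def un (y z a b : V) : ℤ := dl y a * dl z b - dl z a * dl y b

theorem dv_un (f : V → V → ℤ) (c : ℤ) (y z a : V) :
    dv (fun a b => f a b + c * un y z a b) a = dv f a + c * (dl y a - dl z a) := by
  simp only [dv, un, dl, Finset.sum_add_distrib, ← Finset.mul_sum, Finset.sum_sub_distrib]
  simp

theorem un_self {y z : V} (h : y ≠ z) : un y z y z = 1 := by simp [un, dl, h]

theorem un_self' {y z : V} (h : y ≠ z) : un y z z y = -1 := by simp [un, dl, h, h.symm]

theorem un_other {y z a b : V} (h1 : ¬ (a = y ∧ b = z)) (h2 : ¬ (a = z ∧ b = y)) :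
    un y z a b = 0 := by
  simp only [un, dl]
  split_ifs <;> simp_all

theorem un_anti (y z a b : V) : un y z a b = - un y z b a := by simp only [un]; ring

variable {G : SimpleGraph V}

theorem Feas.step {f : V → V → ℤ} (hf : Feas G f) {y z : V} (h : G.Adj y z) (c : ℤ)
    (h1 : f y z + c ≤ 1) (h2 : -1 ≤ f y z + c) :
    Feas G (fun a b => f a b + c * un y z a b) := by
  refine ⟨fun a b => ?_, fun a b => ?_, fun a b hab => ?_⟩
  · rw [hf.anti a b, un_anti y z a b]; ring
  · by_cases e1 : a = y ∧ b = z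
    · obtain ⟨rfl, rfl⟩ := e1
      rw [un_self h.ne]; linarith
    by_cases e2 : a = z ∧ b = y
    · obtain ⟨rfl, rfl⟩ := e2
      rw [un_self' h.ne, hf.anti]; linarith
    rw [un_other e1 e2]
    simpa using hf.le_one a b
  · by_cases e1 : a = y ∧ b = z
    · obtain ⟨rfl, rfl⟩ := e1
      exact h
    by_cases e2 : a = z ∧ b = y
    · obtain ⟨rfl, rfl⟩ := e2
      exact h.symm
    rw [un_other e1 e2] at hab
    exact hf.adj a b (by simpa using hab)

theorem sum_dv {f : V → V → ℤ} (hf : Feas G f) (Y : Finset V) :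
    ∑ a ∈ Y, dv f a = ∑ a ∈ Y, ∑ b ∈ Yᶜ, f a b := by
  have h0 : ∑ a ∈ Y, ∑ b ∈ Y, f a b = 0 := by
    have : ∑ a ∈ Y, ∑ b ∈ Y, f a b = - ∑ a ∈ Y, ∑ b ∈ Y, f a b := by
      conv_lhs => rw [Finset.sum_comm]
      rw [← Finset.sum_neg_distrib]
      refine Finset.sum_congr rfl fun a _ => ?_
      rw [← Finset.sum_neg_distrib]
      exact Finset.sum_congr rfl fun b _ => hf.anti b a
    linarith
  have : ∀ a, dv f a = ∑ b ∈ Y, f a b + ∑ b ∈ Yᶜ, f a b := fun a =>
    (Finset.sum_add_sum_compl Y _).symm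
  simp only [this, Finset.sum_add_distrib, h0, zero_add]

theorem sum_dl {s t : V} {Y : Finset V} (hs : s ∈ Y) (ht : t ∉ Y) (m : ℤ) :
    ∑ a ∈ Y, m * (dl s a - dl t a) = m := by
  simp [← Finset.mul_sum, Finset.sum_sub_distrib, dl, hs, ht]

/-- number of edges leaving `Y` -/
def cut (G : SimpleGraph V) [DecidableRel G.Adj] (Y : Finset V) : ℕ :=
  ∑ a, ∑ b, if a ∈ Y ∧ b ∉ Y ∧ G.Adj a b then 1 else 0

variable [DecidableRel G.Adj]

theorem cut_eq (Y : Finset V) :
    (cut G Y : ℤ) = ∑ a ∈ Y, ∑ b ∈ Yᶜ, if G.Adj a b then 1 else 0 := by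
  unfold cut
  push_cast
  rw [← Finset.sum_add_sum_compl Y]
  have h2 : ∑ a ∈ Yᶜ, ∑ b, (if a ∈ Y ∧ b ∉ Y ∧ G.Adj a b then (1 : ℤ) else 0) = 0 := by
    refine Finset.sum_eq_zero fun a ha => Finset.sum_eq_zero fun b _ => ?_
    simp [Finset.mem_compl.1 ha]
  rw [h2, add_zero]
  refine Finset.sum_congr rfl fun a ha => ?_
  rw [← Finset.sum_add_sum_compl Y]
  have h3 : ∑ b ∈ Y, (if a ∈ Y ∧ b ∉ Y ∧ G.Adj a b then (1 : ℤ) else 0) = 0 := by
    refine Finset.sum_eq_zero fun b hb => ?_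
    simp [hb]
  rw [h3, zero_add]
  refine Finset.sum_congr rfl fun b hb => ?_
  simp [ha, Finset.mem_compl.1 hb]

theorem augment {s t : V} {f : V → V → ℤ} (hf : Feas G f) (m : ℤ)
    (hd : ∀ a, dv f a = m * (dl s a - dl t a)) :
    (∃ g, Feas G g ∧ ∀ a, dv g a = (m + 1) * (dl s a - dl t a)) ∨
      ∃ Y : Finset V, s ∈ Y ∧ t ∉ Y ∧ (cut G Y : ℤ) = m := by
  obtain ⟨Y, hs, hQ, hR⟩ := grow
    (fun Y y => ∃ g, Feas G g ∧ (∀ a, dv g a = dv f a + (dl s a - dl y a)) ∧
      ∀ a b, ¬ (a ∈ Y ∧ b ∈ Y) → g a b = f a b)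
    (fun y z => G.Adj y z ∧ f y z ≤ 0) s ⟨f, hf, by simp, by simp⟩
    (by
      rintro Y z y ⟨g, hg, h1, h2⟩
      exact ⟨g, hg, h1, fun a b h => h2 a b fun h' =>
        h ⟨Finset.mem_insert_of_mem h'.1, Finset.mem_insert_of_mem h'.2⟩⟩)
    (by
      rintro Y y z hy hz ⟨hadj, hle⟩ ⟨g, hg, h1, h2⟩
      have hyz : g y z = f y z := h2 y z fun h => hz h.2
      have hge : -1 ≤ f y z := by have := hf.le_one z y; rw [hf.anti] at this; linarith
      refine ⟨_, hg.step hadj 1 (by linarith) (by linarith), fun a => ?_, fun a b h => ?_⟩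
      · rw [dv_un, h1]; ring
      · have e1 : ¬ (a = y ∧ b = z) := by
          rintro ⟨rfl, rfl⟩
          exact h ⟨Finset.mem_insert_of_mem hy, Finset.mem_insert_self _ _⟩
        have e2 : ¬ (a = z ∧ b = y) := by
          rintro ⟨rfl, rfl⟩
          exact h ⟨Finset.mem_insert_self _ _, Finset.mem_insert_of_mem hy⟩
        rw [un_other e1 e2, h2 a b fun h' =>
          h ⟨Finset.mem_insert_of_mem h'.1, Finset.mem_insert_of_mem h'.2⟩]
        simp)
  by_cases ht : t ∈ Y
  · left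
    obtain ⟨g, hg, h1, -⟩ := hQ t ht
    exact ⟨g, hg, fun a => by rw [h1, hd]; ring⟩
  · right
    refine ⟨Y, hs, ht, ?_⟩
    have h1 := sum_dv hf Y
    simp only [hd] at h1
    rw [sum_dl hs ht] at h1
    rw [cut_eq, h1]
    refine Finset.sum_congr rfl fun a ha => Finset.sum_congr rfl fun b hb => ?_
    have hb' := Finset.mem_compl.1 hb
    split_ifs with hadj
    · have h2 := hR a ha b hb'
      have h3 := hf.le_one a b
      rw [not_and, not_le] at h2
      have := h2 hadj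
      omega
    · by_contra hne
      exact hadj (hf.adj a b (Ne.symm hne))

theorem decompose {s t : V} (m : ℕ) : ∀ f : V → V → ℤ, Feas G f →
    (∀ a, dv f a = m * (dl s a - dl t a)) →
    ∃ p : Fin m → G.Walk s t, (∀ i, (p i).IsPath) ∧
      Pairwise (fun i j => List.Disjoint (p i).edges (p j).edges) ∧
      ∀ i a b, s(a, b) ∈ (p i).edges → f a b ≠ 0 := by
  induction m with
  | zero => intro f _ _; exact ⟨Fin.elim0, fun i => i.elim0, fun i => i.elim0, fun i => i.elim0⟩
  | succ m ih =>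
    intro f hf hd
    obtain ⟨Y, hs, hQ, hR⟩ := grow
      (fun Y y => ∃ (w : G.Walk s y) (g : V → V → ℤ), Feas G g ∧
        (∀ a, dv g a = dv f a - (dl s a - dl y a)) ∧
        (∀ a b, ¬ (a ∈ Y ∧ b ∈ Y) → g a b = f a b) ∧ (∀ a b, g a b ≠ 0 → f a b ≠ 0) ∧
        ∀ a b, s(a, b) ∈ w.edges → f a b ≠ 0 ∧ g a b = 0)
      (fun y z => f y z = 1) s ⟨SimpleGraph.Walk.nil, f, hf, by simp, by simp, by simp, by simp⟩
      (by
        rintro Y z y ⟨w, g, hg, h1, h2, h3⟩
        exact ⟨w, g, hg, h1, fun a b h => h2 a b fun h' =>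
          h ⟨Finset.mem_insert_of_mem h'.1, Finset.mem_insert_of_mem h'.2⟩, h3⟩)
      (by
        rintro Y y z hy hz hone ⟨w, g, hg, h1, h2, h3, h4⟩
        have hyz : g y z = f y z := h2 y z fun h => hz h.2
        have hadj : G.Adj y z := hf.adj y z (by omega)
        have k1 : g y z + -1 * un y z y z = 0 := by rw [un_self hadj.ne]; omega
        have k2 : g z y + -1 * un y z z y = 0 := by rw [un_self' hadj.ne, hg.anti]; omega
        refine ⟨w.concat hadj, _, hg.step hadj (-1) (by omega) (by omega), fun a => ?_,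
          fun a b h => ?_, fun a b h => ?_, fun a b h => ?_⟩
        · rw [dv_un, h1]; ring
        · have e1 : ¬ (a = y ∧ b = z) := by
            rintro ⟨rfl, rfl⟩
            exact h ⟨Finset.mem_insert_of_mem hy, Finset.mem_insert_self _ _⟩
          have e2 : ¬ (a = z ∧ b = y) := by
            rintro ⟨rfl, rfl⟩
            exact h ⟨Finset.mem_insert_self _ _, Finset.mem_insert_of_mem hy⟩
          rw [un_other e1 e2, h2 a b fun h' =>
            h ⟨Finset.mem_insert_of_mem h'.1, Finset.mem_insert_of_mem h'.2⟩]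
          simp
        · by_cases e1 : a = y ∧ b = z
          · obtain ⟨rfl, rfl⟩ := e1
            exact absurd k1 h
          by_cases e2 : a = z ∧ b = y
          · obtain ⟨rfl, rfl⟩ := e2
            exact absurd k2 h
          rw [un_other e1 e2] at h
          exact h3 a b (by simpa using h)
        · by_cases e1 : a = y ∧ b = z
          · obtain ⟨rfl, rfl⟩ := e1
            exact ⟨by omega, k1⟩
          by_cases e2 : a = z ∧ b = y
          · obtain ⟨rfl, rfl⟩ := e2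
            exact ⟨by rw [hf.anti]; omega, k2⟩
          rw [un_other e1 e2]
          rw [SimpleGraph.Walk.edges_concat, List.concat_eq_append, List.mem_append,
            List.mem_singleton, Sym2.eq_iff] at h
          rcases h with h | h | h
          · simpa using h4 a b h
          · exact absurd h e1
          · exact absurd h e2)
    have ht : t ∈ Y := by
      by_contra ht
      have h1 := sum_dv hf Y
      simp only [hd] at h1
      rw [sum_dl hs ht] at h1
      have h2 : ∑ a ∈ Y, ∑ b ∈ Yᶜ, f a b ≤ 0 := by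
        refine Finset.sum_nonpos fun a ha => Finset.sum_nonpos fun b hb => ?_
        have h3 := hR a ha b (Finset.mem_compl.1 hb)
        have h4 := hf.le_one a b
        omega
      push_cast at h1
      omega
    obtain ⟨w, g, hg, h1, -, h3, h4⟩ := hQ t ht
    obtain ⟨p, hp1, hp2, hp3⟩ := ih g hg (fun a => by rw [h1, hd]; push_cast; ring)
    have hw : ∀ i, List.Disjoint w.bypass.edges (p i).edges := by
      intro i e he1 he2
      induction e using Sym2.ind with
      | h a b => exact hp3 i a b he2 (h4 a b (w.edges_bypass_subset_edges he1)).2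
    refine ⟨Fin.cons w.bypass p, fun i => ?_, fun i j hij => ?_, fun i a b h => ?_⟩
    · refine Fin.cases ?_ (fun i => ?_) i
      · exact w.bypass_isPath
      · exact hp1 i
    · revert hij
      refine Fin.cases ?_ (fun i => ?_) i <;> refine Fin.cases ?_ (fun j => ?_) j
      · exact fun h => absurd rfl h
      · exact fun _ => hw j
      · exact fun _ => (hw i).symm
      · exact fun h => hp2 (i := i) (j := j) fun h' => h (congrArg Fin.succ h')
    · revert h
      refine Fin.cases ?_ (fun i => ?_) i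
      · exact fun h => (h4 a b (w.edges_bypass_subset_edges h)).1
      · exact fun h => h3 a b (hp3 i a b h)

/-- Menger's theorem, edge version. -/
theorem menger {s t : V} (k : ℕ)
    (h : ¬ ∃ p : Fin (k + 1) → G.Walk s t, (∀ i, (p i).IsPath) ∧
      Pairwise (fun i j => List.Disjoint (p i).edges (p j).edges)) :
    ∃ Y : Finset V, s ∈ Y ∧ t ∉ Y ∧ cut G Y ≤ k := by
  have key : ∀ m : ℕ, (∃ g, Feas G g ∧ ∀ a, dv g a = (m : ℤ) * (dl s a - dl t a)) ∨
      ∃ Y : Finset V, s ∈ Y ∧ t ∉ Y ∧ cut G Y < m := by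
    intro m
    induction m with
    | zero => exact Or.inl ⟨fun _ _ => 0, ⟨by simp, by simp, by simp⟩, by simp [dv]⟩
    | succ m ih =>
      rcases ih with ⟨g, hg, hd⟩ | ⟨Y, h1, h2, h3⟩
      · rcases augment hg m hd with ⟨g', hg', hd'⟩ | ⟨Y, h1, h2, h3⟩
        · exact Or.inl ⟨g', hg', by push_cast; exact hd'⟩
        · exact Or.inr ⟨Y, h1, h2, by omega⟩
      · exact Or.inr ⟨Y, h1, h2, by omega⟩
  rcases key (k + 1) with ⟨g, hg, hd⟩ | ⟨Y, h1, h2, h3⟩
  · obtain ⟨p, hp1, hp2, -⟩ := decompose (k + 1) g hg hd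
    exact absurd ⟨p, hp1, hp2⟩ h
  · exact ⟨Y, h1, h2, by omega⟩

theorem cut_compl (Y : Finset V) : cut G Yᶜ = cut G Y := by
  unfold cut
  rw [Finset.sum_comm]
  refine Finset.sum_congr rfl fun a _ => Finset.sum_congr rfl fun b _ => ?_
  simp only [Finset.mem_compl, not_not, G.adj_comm b a]
  congr 1
  exact propext (by tauto)

theorem cut_submod (Y Z : Finset V) : cut G (Y ∩ Z) + cut G (Y ∪ Z) ≤ cut G Y + cut G Z := by
  unfold cut
  simp only [← Finset.sum_add_distrib]
  refine Finset.sum_le_sum fun a _ => Finset.sum_le_sum fun b _ => ?_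
  by_cases h1 : a ∈ Y <;> by_cases h2 : a ∈ Z <;> by_cases h3 : b ∈ Y <;> by_cases h4 : b ∈ Z <;>
    by_cases h5 : G.Adj a b <;> simp [h1, h2, h3, h4, h5]

/-- If any two vertices are separated by a cut of size at most `k`, every nonempty even set is
split oddly by a cut of size at most `k`. -/
theorem odd_cut (k : ℕ) (h : ∀ s t : V, s ≠ t → ∃ Y : Finset V, s ∈ Y ∧ t ∉ Y ∧ cut G Y ≤ k) :
    ∀ (n : ℕ) (T : Finset V), T.card = n → T.Nonempty → Even T.card →
      ∃ Y : Finset V, Odd (Y ∩ T).card ∧ cut G Y ≤ k := by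
  intro n
  induction n using Nat.strong_induction_on with
  | _ n ih =>
  intro T hT hne hev
  have h2 : 1 < T.card := by
    have := hne.card_pos
    obtain ⟨r, hr⟩ := hev
    omega
  obtain ⟨s, hs, t, ht, hst⟩ := Finset.one_lt_card.1 h2
  obtain ⟨Y0, hY0s, hY0t, hY0⟩ := h s t hst
  obtain ⟨Y, hY, hmin⟩ := Finset.exists_min_image
    (Finset.univ.filter fun Y : Finset V => (∃ a ∈ T, a ∈ Y) ∧ ∃ b ∈ T, b ∉ Y) (cut G)
    ⟨Y0, by simp only [Finset.mem_filter, Finset.mem_univ, true_and]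
            exact ⟨⟨s, hs, hY0s⟩, t, ht, hY0t⟩⟩
  simp only [Finset.mem_filter, Finset.mem_univ, true_and] at hY hmin
  obtain ⟨⟨a, haT, haY⟩, b, hbT, hbY⟩ := hY
  have hYk : cut G Y ≤ k := (hmin Y0 ⟨⟨s, hs, hY0s⟩, t, ht, hY0t⟩).trans hY0
  rcases Nat.even_or_odd (Y ∩ T).card with hpar | hpar
  swap
  · exact ⟨Y, hpar, hYk⟩
  have hlt : (Y ∩ T).card < n := by
    rw [← hT]
    exact Finset.card_lt_card ⟨Finset.inter_subset_right, fun hh =>
      hbY (Finset.mem_inter.1 (hh hbT)).1⟩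
  obtain ⟨Z0, hZ0, hZ0k⟩ := ih _ hlt (Y ∩ T) rfl ⟨a, Finset.mem_inter.2 ⟨haY, haT⟩⟩ hpar
  obtain ⟨Z, hZ, hZk, hbZ⟩ : ∃ Z : Finset V, Odd (Z ∩ (Y ∩ T)).card ∧ cut G Z ≤ k ∧ b ∉ Z := by
    by_cases hb : b ∈ Z0
    · refine ⟨Z0ᶜ, ?_, by rwa [cut_compl], by simpa using hb⟩
      have h3 : (Z0ᶜ ∩ (Y ∩ T)).card + (Z0 ∩ (Y ∩ T)).card = (Y ∩ T).card := by
        rw [← Finset.card_sdiff_add_card_inter (Y ∩ T) Z0, Finset.inter_comm (Y ∩ T) Z0]
        congr 2
        ext x
        simp only [Finset.mem_inter, Finset.mem_compl, Finset.mem_sdiff]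
        tauto
      obtain ⟨r, hr⟩ := hpar
      obtain ⟨r', hr'⟩ := hZ0
      exact ⟨r - r' - 1, by omega⟩
    · exact ⟨Z0, hZ0, hZ0k, hb⟩
  refine ⟨Z ∩ Y, by rwa [Finset.inter_assoc], ?_⟩
  have h4 := cut_submod (G := G) Z Y
  have h5 := hmin (Z ∪ Y) ⟨⟨a, haT, Finset.mem_union_right _ haY⟩, b, hbT, by simp [hbZ, hbY]⟩
  omega

end Pool.Agent.H28.EdgeMenger
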