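import Pool.Agent.H28.Paving

set_option autoImplicit false

namespace Pool.Agent.H28.Abz

open Set

/-- The free elementary lift. -/
noncomputable def lift {α : Type} [Finite α] [Inhabited α] (N : Matroid α) : Matroid α :=
  (IndepMatroid.ofFinite (E := univ) finite_univ (fun I => ∃ e, N.Indep (I \ {e}))
    ⟨default, by simp⟩
    (fun _ _ ⟨e, he⟩ h => ⟨e, he.subset (sdiff_subset_sdiff_left h)⟩)
    (fun I J ⟨e, he⟩ ⟨f, hf⟩ hlt => by
      by_cases hI : N.Indep I
      · obtain ⟨x, hx, hxI⟩ := exists_mem_notMem_of_ncard_lt_ncard hlt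
        exact ⟨x, hx, hxI, x, hI.subset (by simp)⟩
      · have heI : e ∈ I := by
          by_contra h
          exact hI (by rwa [sdiff_singleton_eq_self h] at he)
        have h1 := ncard_sdiff_singleton_add_one heI
        have h2 := ncard_le_ncard_sdiff_add_ncard J {f}
        rw [ncard_singleton] at h2
        obtain ⟨x, hx, h⟩ := he.augment hf (by
          rw [← (toFinite _).cast_ncard_eq, ← (toFinite _).cast_ncard_eq, Nat.cast_lt]
          omega)
        have hxe : x ≠ e := by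
          rintro rfl
          exact hI (by rwa [insert_sdiff_singleton, insert_eq_of_mem heI] at h)
        exact ⟨x, hx.1.1, fun h => hx.2 ⟨h, hxe⟩, e, by
          rwa [insert_sdiff_of_notMem _ (by simpa using hxe)]⟩)
    (fun _ _ => subset_univ _)).matroid

theorem lift_indep {α : Type} [Finite α] [Inhabited α] (N : Matroid α) (I : Set α) :
    (lift N).Indep I ↔ ∃ e, N.Indep (I \ {e}) := Iff.rfl

/-- A transversal of the three perfect matchings of `K4`. -/
def tv (p s0 s1 : Bool) : Finset (Fin 3 × Bool) :=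
  Finset.univ.filter fun x => x.2 = ![s0, s1, xor p (xor s0 s1)] x.1

def tri : Finset (Finset (Fin 3 × Bool)) := Finset.univ.image fun s : Bool × Bool => tv true s.1 s.2

theorem htri : ∀ A ∈ tri, ∀ B ∈ tri, A ≠ B → (A ∩ B).card + 2 ≤ 3 := by
  have : ∀ s t : Bool × Bool, s ≠ t → (tv true s.1 s.2 ∩ tv true t.1 t.2).card + 2 ≤ 3 := by decide
  intro A hA B hB hAB
  obtain ⟨s, -, rfl⟩ := Finset.mem_image.1 hA
  obtain ⟨t, -, rfl⟩ := Finset.mem_image.1 hB
  exact this s t fun h => hAB (by rw [h])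

/-- The cycle matroid of `K4`. -/
noncomputable def K4 : Matroid (Fin 3 × Bool) := Paving.pav 3 tri (by norm_num) htri

theorem K4_star (s0 s1 : Bool) : K4.Indep (tv false s0 s1) := by
  rw [K4, Paving.pav_indep, ncard_coe_finset]
  refine ⟨by revert s0 s1; decide, fun _ A hA => ?_⟩
  obtain ⟨s, -, rfl⟩ := Finset.mem_image.1 hA
  rw [Finset.coe_subset]
  revert s0 s1 s
  decide

theorem K4_tri (s0 s1 : Bool) : ¬ K4.Indep (tv true s0 s1) := by
  rw [K4, Paving.pav_indep, ncard_coe_finset]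
  exact fun h => h.2 (by clear h; revert s0 s1; decide) _
    (Finset.mem_image.2 ⟨(s0, s1), Finset.mem_univ _, rfl⟩) Subset.rfl

abbrev SS : Type := Fin 5 × Fin 3 × Bool

noncomputable def N1 : Matroid SS := Matroid.sum' fun _ : Fin 5 => K4

noncomputable def N2 : Matroid SS := (Matroid.freeOn univ).comap fun x => (x.1, x.2.1)

noncomputable def MM : Matroid (SS × Fin 2) :=
  (Matroid.sum' ![lift N1, lift N2]).mapEquiv (Equiv.prodComm _ _)

theorem MM_indep (I : Set (SS × Fin 2)) : MM.Indep I ↔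
    (lift N1).Indep {x | (x, 0) ∈ I} ∧ (lift N2).Indep {x | (x, 1) ∈ I} := by
  have : ∀ i, Prod.mk i ⁻¹' ((Equiv.prodComm (Fin 2) SS).symm '' I) = {x | (x, i) ∈ I} := by
    intro i
    rw [Equiv.image_symm_eq_preimage]
    rfl
  rw [MM, Matroid.mapEquiv_indep_iff, Matroid.sum'_indep_iff, Fin.forall_fin_two, this, this]
  rfl

theorem MM_E : MM.E = univ := by
  have : (Matroid.sum' ![lift N1, lift N2]).E = univ := by
    ext ⟨i, x⟩
    fin_cases i <;> simp <;> trivial
  rw [MM, Matroid.mapEquiv_ground_eq, this, image_univ]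
  exact (Equiv.surjective _).range_eq

theorem MM_circ (C : Set (SS × Fin 2)) (hC : MM.IsCircuit C) (e : SS) :
    ¬ ((e, 0) ∈ C ∧ (e, 1) ∈ C) := by
  rintro ⟨h0, h1⟩
  have a0 := ((MM_indep _).1 (hC.sdiff_singleton_indep h0)).2
  have a1 := ((MM_indep _).1 (hC.sdiff_singleton_indep h1)).1
  refine hC.not_indep ((MM_indep _).2 ⟨?_, ?_⟩)
  · convert a1 using 2
    simp
  · convert a0 using 2
    simp

theorem MM_rk (X : Finset SS) :
    MM.eRk ((X : Set SS) ×ˢ (univ : Set (Fin 2))) = ((2 * X.card : ℕ) : ℕ∞) ↔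
      (lift N1).Indep X ∧ (lift N2).Indep X := by
  have h1 : ((X : Set SS) ×ˢ (univ : Set (Fin 2))).encard = ((2 * X.card : ℕ) : ℕ∞) := by
    rw [← Finset.coe_univ, ← Finset.coe_product, encard_coe_eq_coe_finsetCard, Finset.card_product,
      mul_comm]
    simp
  rw [← h1, ← Matroid.indep_iff_eRk_eq_encard_of_finite (toFinite _), MM_indep]
  simp

def st (q : Fin 5 × Fin 3 × Bool × Bool) : Finset SS :=
  Finset.univ.filter fun x => x.2 ∈ tv false q.2.2.1 q.2.2.2 ∨ (x.1 = q.1 ∧ x.2.1 = q.2.1)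

theorem st_indep (q : Fin 5 × Fin 3 × Bool × Bool) :
    (lift N1).Indep (st q) ∧ (lift N2).Indep (st q) := by
  obtain ⟨e, he⟩ : ∃ e, ∀ x ∈ st q, x ≠ e → x.2 ∈ tv false q.2.2.1 q.2.2.2 := by
    refine ⟨(q.1, q.2.1, !(![q.2.2.1, q.2.2.2, xor q.2.2.1 q.2.2.2] q.2.1)), ?_⟩
    rintro ⟨i, j, b⟩ hx hne
    simp only [st, tv, Finset.mem_filter, Finset.mem_univ, true_and, Bool.false_xor] at hx ⊢
    rcases hx with hx | ⟨rfl, rfl⟩
    · exact hx
    · by_contra h
      exact hne (by rw [Bool.eq_not.2 h])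
  refine ⟨⟨e, ?_⟩, ⟨e, ?_⟩⟩
  · rw [N1, Matroid.sum'_indep_iff]
    exact fun i => (K4_star q.2.2.1 q.2.2.2).subset fun x hx => he (i, x) hx.1 hx.2
  · rw [N2, Matroid.comap_indep_iff]
    refine ⟨by simp, fun x hx y hy h => ?_⟩
    have h1 := he x hx.1 hx.2
    have h2 := he y hy.1 hy.2
    simp only [tv, Finset.mem_filter, Finset.mem_univ, true_and, Prod.mk.injEq] at h1 h2 h
    exact Prod.ext h.1 (Prod.ext h.2 (by rw [h1, h2, h.2]))

theorem st_cnt : ∀ e : SS, (Finset.univ.filter fun q => e ∈ st q).card = 32 := by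
  decide +kernel

theorem no_two (A B : Set SS) (h : ∀ e, e ∈ A ∨ e ∈ B) (a1 : (lift N1).Indep A)
    (a2 : (lift N2).Indep A) (b1 : (lift N1).Indep B) (b2 : (lift N2).Indep B) : False := by
  classical
  obtain ⟨e1, a1⟩ := a1
  obtain ⟨e2, a2⟩ := a2
  obtain ⟨e3, b1⟩ := b1
  obtain ⟨e4, b2⟩ := b2
  obtain ⟨i, h1, h2, h3, h4⟩ : ∃ i : Fin 5, i ≠ e1.1 ∧ i ≠ e2.1 ∧ i ≠ e3.1 ∧ i ≠ e4.1 := by
    generalize e1.1 = a
    generalize e2.1 = b
    generalize e3.1 = c
    generalize e4.1 = d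
    revert a b c d
    decide
  have p : ∀ (A : Set SS) (e : SS), i ≠ e.1 → N2.Indep (A \ {e}) → ∀ j b, (i, j, b) ∈ A →
      (i, j, !b) ∉ A := by
    intro A e he hA j b h1 h2
    rw [N2, Matroid.comap_indep_iff] at hA
    have := hA.2 ⟨h1, fun h => he (congrArg Prod.fst h)⟩ ⟨h2, fun h => he (congrArg Prod.fst h)⟩ rfl
    simp at this
  have t : ∀ (A : Set SS) (e : SS), i ≠ e.1 → N1.Indep (A \ {e}) → ∀ s0 s1,
      ¬ ∀ x ∈ tv true s0 s1, (i, x) ∈ A := by
    intro A e he hA s0 s1 h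
    rw [N1, Matroid.sum'_indep_iff] at hA
    exact K4_tri s0 s1 ((hA i).subset fun x hx => ⟨h x hx, fun h => he (congrArg Prod.fst h)⟩)
  let s : Fin 3 → Bool := fun j => decide ((i, j, true) ∈ A)
  have hA : ∀ j, (i, j, s j) ∈ A ∧ (i, j, !s j) ∈ B := by
    intro j
    by_cases hj : (i, j, true) ∈ A
    · simp only [s, hj, decide_true, true_and]
      exact (h _).resolve_left (p A e2 h2 a2 j true hj)
    · simp only [s, hj, decide_false, Bool.not_false]
      have := (h _).resolve_left hj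
      exact ⟨(h _).resolve_right (p B e4 h4 b2 j true this), this⟩
  have key : ∀ s : Fin 3 → Bool, (∀ x ∈ tv true (s 0) (s 1), x.2 = s x.1) ∨
      ∀ x ∈ tv true (!s 0) (!s 1), x.2 = !s x.1 := by decide
  rcases key s with k | k
  · refine t A e1 h1 a1 (s 0) (s 1) fun x hx => ?_
    have := (hA x.1).1
    rwa [← k x hx] at this
  · refine t B e3 h3 b1 (!s 0) (!s 1) fun x hx => ?_
    have := (hA x.1).2
    rwa [← k x hx] at this

end Pool.Agent.H28.Abz
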