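import Mathlib

set_option autoImplicit false

namespace Pool.Agent.H28.Anti

open Set

/-- `M` has a minor isomorphic to `N`. -/
def HasMinor {α β : Type} (M : Matroid α) (N : Matroid β) : Prop :=
  ∃ M' : Matroid α, M'.IsMinor M ∧ ∃ f : β → α, BijOn f N.E M'.E ∧
    ∀ I ⊆ N.E, (N.Indep I ↔ M'.Indep (f '' I))

/-- The uniform matroid `U_{r,n}` on `Fin n`. -/
noncomputable def unif (r n : ℕ) : Matroid (Fin n) :=
  (IndepMatroid.ofFinite (E := univ) finite_univ (fun I => I.ncard ≤ r) (by simp)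
    (fun _ J hJ hIJ => (ncard_le_ncard hIJ (toFinite J)).trans hJ)
    (fun I J _ hJ h => by
      obtain ⟨e, he, heI⟩ : ∃ e ∈ J, e ∉ I := by
        by_contra hn
        push Not at hn
        have := ncard_le_ncard (show J ⊆ I from hn) (toFinite I)
        omega
      exact ⟨e, he, heI, by rw [ncard_insert_of_notMem heI (toFinite I)]; omega⟩)
    (fun _ _ => subset_univ _)).matroid

/-- `M` has a `j`-separation `(X, E \ X)`: `|X|, |E \ X| ≥ j` and
`r(X) + r(E \ X) - r(M) ≤ j - 1`. -/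
def HasSep {α : Type} (M : Matroid α) (j : ℕ) : Prop :=
  ∃ X ⊆ M.E, (j : ℕ∞) ≤ X.encard ∧ (j : ℕ∞) ≤ (M.E \ X).encard ∧
    M.eRk X + M.eRk (M.E \ X) + 1 ≤ M.eRank + j

/-- The Tutte connectivity of `M` is the positive integer `k`. -/
def TutteConn {α : Type} (M : Matroid α) (k : ℕ) : Prop :=
  IsLeast {j : ℕ | 1 ≤ j ∧ HasSep M j} k

end Pool.Agent.H28.Anti
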