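import Mathlib

set_option autoImplicit false

namespace Pool.Agent.H28.Inter

open Set

variable {α : Type*}

/-- Abstract matroid rank functions. -/
structure IsRk (r : Set α → ℕ) : Prop where
  mono : ∀ X Y, X ⊆ Y → r X ≤ r Y
  submod : ∀ X Y, r (X ∩ Y) + r (X ∪ Y) ≤ r X + r Y
  unit : ∀ e X, r (insert e X) ≤ r X + 1

theorem IsRk.submod' {r : Set α → ℕ} (h : IsRk r) {X Y U V : Set α} (hU : U ⊆ X ∩ Y)
    (hV : V ⊆ X ∪ Y) : r U + r V ≤ r X + r Y :=
  (add_le_add (h.mono _ _ hU) (h.mono _ _ hV)).trans (h.submod X Y)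

/-- Edmonds' matroid intersection theorem for rank functions, with a contracted set. -/
theorem inter_aux {r s : Set α → ℕ} (hr : IsRk r) (hs : IsRk s) (E : Set α) (hE : E.Finite) :
    ∀ (C : Set α) (k : ℕ), (∀ A ⊆ E, k + r C + s C ≤ r (A ∪ C) + s ((E \ A) ∪ C)) →
      ∃ I ⊆ E, I.ncard = k ∧ r (I ∪ C) = r C + k ∧ s (I ∪ C) = s C + k := by
  induction E, hE using Set.Finite.induction_on with
  | empty =>
    intro C k h
    have := h ∅ Subset.rfl
    simp only [empty_union, sdiff_self] at this
    exact ⟨∅, Subset.rfl, by simp; omega, by simp; omega, by simp; omega⟩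
  | @insert e E he hE ih =>
    intro C k h
    by_cases h1 : ∀ A ⊆ E, k + r C + s C ≤ r (A ∪ C) + s ((E \ A) ∪ C)
    · obtain ⟨I, hI, h'⟩ := ih C k h1
      exact ⟨I, hI.trans (subset_insert _ _), h'⟩
    push Not at h1
    obtain ⟨A, hA, hlt⟩ := h1
    have hk : 0 < k := by
      have := hr.mono C (A ∪ C) subset_union_right
      have := hs.mono C ((E \ A) ∪ C) subset_union_right
      omega
    have hre : r (insert e C) = r C + 1 := by
      have a1 := h (insert e A) (insert_subset_insert hA)
      have a2 : s ((insert e E \ insert e A) ∪ C) ≤ s ((E \ A) ∪ C) := hs.mono _ _ (by grind)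
      have a3 : r C + r (insert e A ∪ C) ≤ r (A ∪ C) + r (insert e C) :=
        hr.submod' (by grind) (by grind)
      have := hr.unit e C
      omega
    have hse : s (insert e C) = s C + 1 := by
      have a1 := h A (hA.trans (subset_insert _ _))
      have a3 : s C + s ((insert e E \ A) ∪ C) ≤ s ((E \ A) ∪ C) + s (insert e C) :=
        hs.submod' (by grind) (by grind)
      have := hs.unit e C
      omega
    obtain ⟨I, hI, hc, h1, h2⟩ := ih (insert e C) (k - 1) (by
      intro A' hA'
      have a1 := h (insert e (A ∪ A')) (insert_subset_insert (union_subset hA hA'))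
      have a2 := h (A ∩ A') ((inter_subset_left.trans hA).trans (subset_insert _ _))
      have a3 : r (A ∩ A' ∪ C) + r (insert e (A ∪ A') ∪ C) ≤ r (A ∪ C) + r (A' ∪ insert e C) :=
        hr.submod' (by grind) (by grind)
      have a4 : s ((insert e E \ insert e (A ∪ A')) ∪ C) + s ((insert e E \ (A ∩ A')) ∪ C) ≤
          s ((E \ A) ∪ C) + s ((E \ A') ∪ insert e C) :=
        hs.submod' (by grind) (by grind)
      omega)
    have heI : e ∉ I := fun h => he (hI h)
    refine ⟨insert e I, insert_subset_insert hI, ?_, ?_, ?_⟩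
    · rw [ncard_insert_of_notMem heI (hE.subset hI)]; omega
    · rw [show insert e I ∪ C = I ∪ insert e C by grind]; omega
    · rw [show insert e I ∪ C = I ∪ insert e C by grind]; omega

/-- The natural-number rank in a matroid on a finite type. -/
noncomputable def rk (M : Matroid α) (X : Set α) : ℕ := (M.eRk X).toNat

variable [Finite α] (M : Matroid α)

theorem cast_rk (X : Set α) : (rk M X : ℕ∞) = M.eRk X :=
  ENat.natCast_toNat (ne_top_of_le_ne_top (toFinite X).encard_lt_top.ne (M.eRk_le_encard X))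

theorem isRk : IsRk (rk M) where
  mono X Y h := by
    have := M.eRk_mono h
    rw [← cast_rk, ← cast_rk] at this
    exact_mod_cast this
  submod X Y := by
    have := M.eRk_inter_add_eRk_union_le X Y
    simp only [← cast_rk] at this
    exact_mod_cast this
  unit e X := by
    have := M.eRk_insert_le_add_one e X
    simp only [← cast_rk] at this
    exact_mod_cast this

omit [Finite α] in
theorem rk_empty : rk M ∅ = 0 := by simp [rk]

variable {M}

theorem indep_iff_rk {I : Set α} : M.Indep I ↔ rk M I = I.ncard := by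
  rw [Matroid.indep_iff_eRk_eq_encard_of_finite (toFinite I), ← cast_rk,
    ← (toFinite I).cast_ncard_eq, Nat.cast_inj]

theorem ncard_le_rk {I X : Set α} (hI : M.Indep I) (h : I ⊆ X) : I.ncard ≤ rk M X := by
  rw [← indep_iff_rk.1 hI]; exact (isRk M).mono _ _ h

theorem isBasis'_of_le {I X : Set α} (hI : M.Indep I) (h : I ⊆ X) (hle : rk M X ≤ I.ncard) :
    M.IsBasis' I X := by
  refine hI.isBasis'_of_eRk_ge (toFinite I) h ?_
  rw [← cast_rk, ← cast_rk, indep_iff_rk.1 hI]
  exact_mod_cast hle

/-- Edmonds' matroid intersection theorem. -/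
theorem inter (M N : Matroid α) (E : Set α) :
    ∃ I ⊆ E, ∃ A ⊆ E, M.Indep I ∧ N.Indep I ∧ I.ncard = rk M A + rk N (E \ A) := by
  classical
  obtain ⟨A, hA, hmin⟩ := exists_min_image {A | A ⊆ E} (fun A => rk M A + rk N (E \ A))
    (toFinite _) ⟨∅, empty_subset _⟩
  obtain ⟨I, hI, hc, h1, h2⟩ := inter_aux (isRk M) (isRk N) E (toFinite E) ∅
    (rk M A + rk N (E \ A)) (fun B hB => by simpa [rk_empty] using hmin B hB)
  simp only [union_empty, rk_empty, zero_add] at h1 h2
  exact ⟨I, hI, A, hA, indep_iff_rk.2 (by rw [h1, hc]), indep_iff_rk.2 (by rw [h2, hc]), hc⟩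

end Pool.Agent.H28.Inter
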