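import Mathlib
import Pool.Agent.H28.VecMat
import Pool.Agent.H28.Inter

set_option autoImplicit false

namespace Pool.Agent.H28.Lift

open Set

abbrev F := ZMod 2

theorem F_cases (x : F) : x = 0 ∨ x = 1 := by revert x; decide
theorem F_ne {x : F} : x ≠ 0 ↔ x = 1 := by revert x; decide
theorem F_add_self (x : F) : x + x = 0 := by revert x; decide

variable {α V : Type*} [Fintype α] [AddCommGroup V] [Module F V]

theorem add_eq_zero {z w : α → F} : z + w = 0 ↔ z = w := by
  constructor
  · intro h
    funext e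
    have := congrFun h e
    simp only [Pi.add_apply, Pi.zero_apply] at this
    revert this
    generalize z e = a
    generalize w e = b
    revert a b
    decide
  · rintro rfl
    funext e
    exact F_add_self _

/-- `z` is a cycle of the binary matroid of `v` with support in `I`. -/
def Cyc (v : α → V) (I : Set α) (z : α → F) : Prop :=
  (∀ e, z e ≠ 0 → e ∈ I) ∧ ∑ e, z e • v e = 0

variable {v : α → V} {I J : Set α} {z w : α → F}

theorem Cyc.zero : Cyc v I 0 := ⟨by simp, by simp⟩

theorem Cyc.mono (h : Cyc v I z) (hIJ : I ⊆ J) : Cyc v J z := ⟨fun e he => hIJ (h.1 e he), h.2⟩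

theorem Cyc.of_supp (h : Cyc v I z) (hJ : ∀ e, z e ≠ 0 → e ∈ J) : Cyc v J z := ⟨hJ, h.2⟩

theorem Cyc.add (h : Cyc v I z) (h' : Cyc v I w) : Cyc v I (z + w) := by
  refine ⟨fun e he => ?_, ?_⟩
  · by_contra hn
    have h1 : z e = 0 := by by_contra h1; exact hn (h.1 e h1)
    have h2 : w e = 0 := by by_contra h2; exact hn (h'.1 e h2)
    simp [h1, h2] at he
  · simp only [Pi.add_apply, add_smul, Finset.sum_add_distrib, h.2, h'.2, add_zero]

theorem Cyc.smul (h : Cyc v I z) (c : F) : Cyc v I (c • z) := by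
  obtain rfl | rfl := F_cases c
  · rw [zero_smul]; exact Cyc.zero
  · rw [one_smul]; exact h

theorem Cyc.sum {ι : Type*} (s : Finset ι) (f : ι → α → F) (h : ∀ i ∈ s, Cyc v I (f i)) :
    Cyc v I (∑ i ∈ s, f i) := by
  classical
  induction s using Finset.induction_on with
  | empty => simpa using Cyc.zero
  | insert a s ha ih =>
    rw [Finset.sum_insert ha]
    exact (h a (by simp)).add (ih fun i hi => h i (by simp [hi]))

theorem Cyc.erase {e : α} (h : Cyc v (insert e I) z) (he : z e = 0) : Cyc v I z :=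
  h.of_supp fun x hx => (h.1 x hx).resolve_left fun hxe => hx (hxe ▸ he)

theorem Cyc.eq_zero_of_notMem (h : Cyc v I z) {e : α} (he : e ∉ I) : z e = 0 := by
  by_contra hn; exact he (h.1 e hn)

/-- No nonzero cycle. -/
def NI (v : α → V) (I : Set α) : Prop := ∀ z, Cyc v I z → z = 0

theorem NI.mono (h : NI v J) (hIJ : I ⊆ J) : NI v I := fun z hz => h z (hz.mono hIJ)

theorem ni_iff : NI v I ↔ LinearIndepOn F v I := by
  classical
  rw [linearIndepOn_iff]
  constructor
  · intro h l hl h0
    have := h l ⟨fun e he => hl (by simpa using he), by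
      rw [Finsupp.linearCombination_apply, Finsupp.sum_fintype _ _ (by simp)] at h0
      exact h0⟩
    exact DFunLike.coe_injective this
  · intro h z hz
    have := h (Finsupp.equivFunOnFinite.symm z) (fun e he => hz.1 e (by simpa using he)) (by
      rw [Finsupp.linearCombination_apply, Finsupp.sum_fintype _ _ (by simp)]
      simpa using hz.2)
    funext e
    simpa using DFunLike.congr_fun this e

theorem NI.aug (hI : NI v I) (hJ : NI v J) (h : I.ncard < J.ncard) :
    ∃ e ∈ J, e ∉ I ∧ NI v (insert e I) := by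
  obtain ⟨e, h1, h2, h3⟩ := VecMat.aug F (toFinite I) (toFinite J) (ni_iff.1 hI) (ni_iff.1 hJ) h
  exact ⟨e, h1, h2, ni_iff.2 h3⟩

theorem NI.ncard_le [Module.Finite F V] (hI : NI v I) : I.ncard ≤ Module.finrank F V := by
  rw [← VecMat.finrank_span_of_indep F (toFinite I) (ni_iff.1 hI)]
  exact Submodule.finrank_le _

/-- Independence in the lift: at most one nonzero cycle, and it is not balanced. -/
def LI (v : α → V) (K : Submodule F (α → F)) (I : Set α) : Prop :=
  (∀ z, Cyc v I z → z ∈ K → z = 0) ∧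
    ∀ z w, Cyc v I z → Cyc v I w → z ≠ 0 → w ≠ 0 → z = w

variable {K : Submodule F (α → F)}

theorem NI.li (h : NI v I) : LI v K I :=
  ⟨fun z hz _ => h z hz, fun z _ hz _ h0 _ => (h0 (h z hz)).elim⟩

theorem LI.mono (h : LI v K J) (hIJ : I ⊆ J) : LI v K I :=
  ⟨fun z hz => h.1 z (hz.mono hIJ), fun z w hz hw => h.2 z w (hz.mono hIJ) (hw.mono hIJ)⟩

theorem LI.insert_of (h : LI v K I) {e : α} (he : ∀ z, Cyc v (insert e I) z → z e = 0) :
    LI v K (insert e I) :=
  ⟨fun z hz => h.1 z (hz.erase (he z hz)),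
    fun z w hz hw => h.2 z w (hz.erase (he z hz)) (hw.erase (he w hw))⟩

theorem LI.exists_of_not (h : LI v K I) {e : α} (he : ¬ LI v K (insert e I)) :
    ∃ z, Cyc v (insert e I) z ∧ z e = 1 := by
  by_contra hn
  push Not at hn
  exact he (h.insert_of fun z hz => by by_contra h0; exact hn z hz (F_ne.1 h0))

theorem LI.sdiff (h : LI v K I) {x : α} (hz : Cyc v I z) (hx : z x = 1) : NI v (I \ {x}) := by
  intro w hw
  by_contra h0
  have := h.2 z w hz (hw.mono sdiff_subset) (fun h => by simp [h] at hx) h0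
  rw [this, hw.eq_zero_of_notMem (by simp)] at hx
  exact zero_ne_one hx

theorem exists_one (hz : z ≠ 0) : ∃ x, z x = 1 := by
  by_contra hn
  push Not at hn
  exact hz (funext fun x => (F_cases (z x)).resolve_right (hn x))

theorem NI.unique {e : α} (h : NI v I) (hz : Cyc v (insert e I) z) (hw : Cyc v (insert e I) w)
    (hz0 : z ≠ 0) (hw0 : w ≠ 0) : z = w := by
  have h1 : z e = 1 := F_ne.1 fun h0 => hz0 (h z (hz.erase h0))
  have h2 : w e = 1 := F_ne.1 fun h0 => hw0 (h w (hw.erase h0))
  exact add_eq_zero.1 (h _ ((hz.add hw).erase (by simp [h1, h2, F_add_self])))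

theorem LI.exists_ni (h : LI v K I) : ∃ I' ⊆ I, NI v I' ∧ I.ncard ≤ I'.ncard + 1 := by
  by_cases hI : NI v I
  · exact ⟨I, Subset.rfl, hI, by omega⟩
  · simp only [NI, not_forall] at hI
    obtain ⟨z, hz, h0⟩ := hI
    obtain ⟨x, hx⟩ := exists_one h0
    refine ⟨_, sdiff_subset, h.sdiff hz hx, ?_⟩
    rw [ncard_sdiff_singleton_add_one (hz.1 x (by simp [hx])) (toFinite _)]

theorem LI.aug (hI : LI v K I) (hJ : LI v K J) (h : I.ncard < J.ncard) :
    ∃ e ∈ J, e ∉ I ∧ LI v K (insert e I) := by
  classical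
  by_contra hcon
  push Not at hcon
  have key : ∀ e, e ∈ J ∧ e ∉ I → ∃ z, Cyc v (insert e I) z ∧ z e = 1 :=
    fun e he => hI.exists_of_not (hcon e he.1 he.2)
  choose! D hD hD1 using key
  by_cases hN : NI v I
  · have hJN : ¬ NI v J := by
      intro hJN
      obtain ⟨e, h1, h2, h3⟩ := hN.aug hJN h
      exact hcon e h1 h2 h3.li
    simp only [NI, not_forall] at hJN
    obtain ⟨z, hz, h0⟩ := hJN
    refine h0 (hJ.1 z hz ?_)
    have hK : ∀ e, e ∈ J ∧ e ∉ I → D e ∈ K := by
      intro e he
      by_contra hn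
      refine hcon e he.1 he.2 ⟨fun w hw hwK => ?_, fun _ _ h1 h2 => hN.unique h1 h2⟩
      by_contra hw0
      rw [hN.unique hw (hD e he) hw0 (fun h => by simpa [h] using hD1 e he)] at hwK
      exact hn hwK
    set s := Finset.univ.filter fun e => e ∈ J ∧ e ∉ I with hs
    have hc : Cyc v univ (z + ∑ e ∈ s, z e • D e) :=
      (hz.mono (subset_univ _)).add (Cyc.sum _ _ fun e he =>
        ((hD e (by simpa [hs] using he)).mono (subset_univ _)).smul _)
    have h1 : z + ∑ e ∈ s, z e • D e = 0 := by
      refine hN _ (hc.of_supp fun x hx => ?_)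
      by_contra hxI
      apply hx
      have hval : ∀ e ∈ s, e ≠ x → (z e • D e) x = 0 := fun e he hne => by
        rw [Pi.smul_apply, (hD e (by simpa [hs] using he)).eq_zero_of_notMem
          (by simp [hne.symm, hxI]), smul_zero]
      rw [Pi.add_apply, Finset.sum_apply]
      by_cases hxJ : x ∈ J
      · rw [Finset.sum_eq_single_of_mem x (by simp [hs, hxJ, hxI]) hval, Pi.smul_apply,
          hD1 x ⟨hxJ, hxI⟩, smul_eq_mul, mul_one, F_add_self]
      · rw [hz.eq_zero_of_notMem hxJ, zero_add]
        refine Finset.sum_eq_zero fun e he => hval e he ?_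
        rintro rfl
        exact hxJ (by simpa [hs] using he : e ∈ J ∧ e ∉ I).1
    rw [add_eq_zero.1 h1]
    exact K.sum_mem fun e he => K.smul_mem _ (hK e (by simpa [hs] using he))
  · simp only [NI, not_forall] at hN
    obtain ⟨U, hU, h0⟩ := hN
    obtain ⟨x, hx⟩ := exists_one h0
    have hxI : x ∈ I := hU.1 x (by simp [hx])
    have hI' := hI.sdiff hU hx
    obtain ⟨J', hJ', hJN, hc⟩ := hJ.exists_ni
    have hcI := ncard_sdiff_singleton_add_one hxI (toFinite _)
    obtain ⟨e, h1, h2, h3⟩ := hI'.aug hJN (by omega)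
    by_cases heI : e ∈ I
    · have : e = x := by by_contra hn; exact h2 ⟨heI, hn⟩
      subst this
      exact h0 (h3 U (hU.mono (by grind)))
    · have he : e ∈ J ∧ e ∉ I := ⟨hJ' h1, heI⟩
      have hc2 : Cyc v (insert e I) (D e + D e x • U) :=
        (hD e he).add ((hU.mono (subset_insert _ _)).smul _)
      have := h3 _ (hc2.of_supp fun y hy => by
        obtain rfl | hyI := hc2.1 y hy
        · exact mem_insert _ _
        · refine Or.inr ⟨hyI, ?_⟩
          rintro rfl
          simp [hx, F_add_self] at hy)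
      have h4 := congrFun this e
      simp [hD1 e he, hU.eq_zero_of_notMem heI] at h4

/-- The lift of the binary matroid of `v` whose balanced cycles are those in `K`. -/
noncomputable def lift (v : α → V) (K : Submodule F (α → F)) : Matroid α :=
  (IndepMatroid.ofFinite (E := univ) finite_univ (LI v K)
    (NI.li fun z hz => funext fun e => hz.eq_zero_of_notMem (notMem_empty e))
    (fun _ _ hJ hIJ => hJ.mono hIJ) (fun _ _ hI hJ h => hI.aug hJ h)
    (fun _ _ => subset_univ _)).matroid

@[simp] theorem lift_E : (lift v K).E = univ := rfl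

@[simp] theorem lift_indep : (lift v K).Indep I ↔ LI v K I := Iff.rfl

theorem rk_le [Module.Finite F V] (X : Set α) :
    Inter.rk (lift v K) X ≤ Module.finrank F V + 1 := by
  obtain ⟨I, hI⟩ := (lift v K).exists_isBasis' X
  have h1 := hI.encard_eq_eRk
  rw [← Inter.cast_rk, ← (toFinite I).cast_ncard_eq, Nat.cast_inj] at h1
  obtain ⟨I', -, h2, h3⟩ := (lift_indep.1 hI.indep).exists_ni
  have := h2.ncard_le
  omega

end Pool.Agent.H28.Lift
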