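import Mathlib
import Pool.Agent.H28.Lift
import Pool.Agent.H28.AntiDefs

set_option autoImplicit false

namespace Pool.Agent.H28.Anti

open Set Pool.Agent.H28.Lift

theorem HasMinor.emb {α β : Type} {M : Matroid α} {N : Matroid β} (h : HasMinor M N) :
    ∃ (f : β → α) (C : Set α), InjOn f N.E ∧ MapsTo f N.E (M.E \ C) ∧
      ∀ X ⊆ N.E, (N.Indep X ↔ M.Indep (f '' X ∪ C)) := by
  obtain ⟨M', ⟨C, D, rfl⟩, f, hf, hI⟩ := h
  obtain ⟨I, hIC⟩ := M.exists_isBasis' C
  have hm : ∀ x ∈ N.E, f x ∈ (M.E \ C) \ D := fun x hx => hf.mapsTo hx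
  refine ⟨f, I, hf.injOn, fun x hx => ⟨(hm x hx).1.1, fun h => (hm x hx).1.2 (hIC.subset h)⟩,
    fun X hX => ?_⟩
  rw [hI X hX, Matroid.delete_indep_iff, hIC.contract_indep_iff]
  have h1 : Disjoint (f '' X) D := by
    rw [disjoint_left]; rintro _ ⟨x, hx, rfl⟩; exact (hm x (hX hx)).2
  have h2 : Disjoint C (f '' X) := by
    rw [disjoint_right]; rintro _ ⟨x, hx, rfl⟩; exact (hm x (hX hx)).1.2
  tauto

/-- A four-point line and `m` distinct circuits skew to it covering each element evenly. -/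
def Psi {β : Type} (Ind : Set β → Prop) (E : Set β) (m : ℕ) : Prop :=
  ∃ a b c d : β, ∃ B : Fin m → Set β, a ∈ E ∧ b ∈ E ∧ c ∈ E ∧ d ∈ E ∧ c ≠ d ∧
    (∀ x ∈ ({a, b, c, d} : Set β), ∀ y ∈ ({a, b, c, d} : Set β), Ind {x, y}) ∧
    ¬ Ind {c, a, b} ∧ ¬ Ind {d, a, b} ∧ (∀ i, B i ⊆ E) ∧ (∀ i, a ∉ B i) ∧ (∀ i, b ∉ B i) ∧
    (∀ i, (B i).Nonempty) ∧ (∀ i, ¬ Ind (B i)) ∧
    (∀ i, ∀ x ∈ B i, Ind (insert a (insert b (B i \ {x})))) ∧ Function.Injective B ∧
    ∀ e, Even {i | e ∈ B i}.ncard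

theorem Psi.map {β γ : Type} {Ind : Set β → Prop} {E : Set β} {Ind' : Set γ → Prop} {E' : Set γ}
    {m : ℕ} (h : Psi Ind E m) (f : β → γ) (hf : InjOn f E) (hm : MapsTo f E E')
    (hI : ∀ X ⊆ E, (Ind X ↔ Ind' (f '' X))) : Psi Ind' E' m := by
  obtain ⟨a, b, c, d, B, ha, hb, hc, hd, hcd, h1, h2, h3, h4, h5, h6, h7, h8, h9, h10, h11⟩ := h
  have hmem : ∀ i, ∀ x ∈ E, f x ∈ f '' B i ↔ x ∈ B i := fun i x hx => hf.mem_image_iff (h4 i) hx
  refine ⟨f a, f b, f c, f d, fun i => f '' B i, hm ha, hm hb, hm hc, hm hd,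
    fun h => hcd (hf hc hd h), ?_, ?_, ?_, fun i => (image_mono (h4 i)).trans hm.image_subset,
    fun i h => h5 i ((hmem i a ha).1 h), fun i h => h6 i ((hmem i b hb).1 h),
    fun i => (h7 i).image f, fun i h => h8 i ((hI _ (h4 i)).2 h), ?_, ?_, fun e => ?_⟩
  · have key : ∀ x ∈ ({f a, f b, f c, f d} : Set γ), ∃ x' ∈ ({a, b, c, d} : Set β),
        x' ∈ E ∧ f x' = x := by
      rintro x (rfl | rfl | rfl | rfl) <;> grind
    intro x hx y hy
    obtain ⟨x', hx', hxE, rfl⟩ := key x hx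
    obtain ⟨y', hy', hyE, rfl⟩ := key y hy
    rw [← image_pair, ← hI _ (by grind)]
    exact h1 _ hx' _ hy'
  · intro h
    refine h2 ((hI _ (by grind)).2 ?_)
    simpa [image_insert_eq] using h
  · intro h
    refine h3 ((hI _ (by grind)).2 ?_)
    simpa [image_insert_eq] using h
  · rintro i _ ⟨x, hx, rfl⟩
    have := (hI _ (by have := h4 i; grind)).1 (h9 i x hx)
    rw [image_insert_eq, image_insert_eq,
      (hf.mono (h4 i)).image_sdiff_subset (singleton_subset_iff.2 hx), image_singleton] at this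
    exact this
  · intro i j hij
    exact h10 ((hf.image_eq_image_iff (h4 i) (h4 j)).1 hij)
  · by_cases he : ∃ x ∈ E, f x = e
    · obtain ⟨x, hx, rfl⟩ := he
      simp only [hmem _ x hx]
      exact h11 x
    · have : {i | e ∈ f '' B i} = ∅ := by
        rw [eq_empty_iff_forall_notMem]
        rintro i ⟨x, hx, rfl⟩
        exact he ⟨x, h4 i hx, rfl⟩
      rw [this]; simp

/-- The configuration `Psi` appears in a contraction of `M`. -/
def Phi {α : Type} (M : Matroid α) (m : ℕ) : Prop :=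
  ∃ C ⊆ M.E, Psi (fun X => M.Indep (X ∪ C)) (M.E \ C) m

theorem Phi.of_minor {α β : Type} {M : Matroid α} {N : Matroid β} {m : ℕ} (h : HasMinor M N)
    (hN : Phi N m) : ∃ C, Psi (fun X => M.Indep (X ∪ C)) (M.E \ C) m := by
  obtain ⟨f, C', hf, hm, hI⟩ := h.emb
  obtain ⟨C, hC, hP⟩ := hN
  refine ⟨f '' C ∪ C', hP.map f (hf.mono sdiff_subset) (fun x hx => ⟨(hm hx.1).1, ?_⟩)
    fun X hX => ?_⟩
  · rintro (h | h)
    · exact hx.2 ((hf.mem_image_iff hC hx.1).1 h)
    · exact (hm hx.1).2 h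
  · rw [hI _ (union_subset (hX.trans sdiff_subset) hC), image_union, union_assoc]

variable {α V : Type} [Fintype α] [AddCommGroup V] [Module F V] {v : α → V}
  {K : Submodule F (α → F)}

theorem pattern {C : Set α} {a b c : α} {D : α → F} (hD : Cyc v ({c, a, b} ∪ C) D) (hc : D c = 1)
    (ha : a ∉ C) (hb : b ∉ C)
    (h1 : ∀ z, Cyc v ({c, a} ∪ C) z → z c = 0) (h2 : ∀ z, Cyc v ({c, b} ∪ C) z → z c = 0) :
    D a = 1 ∧ D b = 1 := by
  constructor
  · refine F_ne.1 fun h0 => ?_
    have := h2 D (hD.of_supp fun e he => by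
      have := hD.1 e he
      have : e ≠ a := by rintro rfl; exact he h0
      grind)
    simp [this] at hc
  · refine F_ne.1 fun h0 => ?_
    have := h1 D (hD.of_supp fun e he => by
      have := hD.1 e he
      have : e ≠ b := by rintro rfl; exact he h0
      grind)
    simp [this] at hc

theorem cyc_add_pattern {C : Set α} {a b c d : α} {D D' : α → F}
    (hD : Cyc v ({c, a, b} ∪ C) D) (hD' : Cyc v ({d, a, b} ∪ C) D') (h : D a = 1 ∧ D b = 1)
    (h' : D' a = 1 ∧ D' b = 1) : Cyc v ({c, d} ∪ C) (D + D') := by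
  have h1 : Cyc v ({c, d, a, b} ∪ C) (D + D') := (hD.mono (by grind)).add (hD'.mono (by grind))
  refine h1.of_supp fun e he => ?_
  have h2 := h1.1 e he
  have : e ≠ a := by rintro rfl; simp [h.1, h'.1, F_add_self] at he
  have : e ≠ b := by rintro rfl; simp [h.2, h'.2, F_add_self] at he
  grind

theorem exists_unbal {C : Set α} {a b c d : α} (ha : a ∉ C) (hb : b ∉ C) (hc : c ∉ C)
    (hd : d ∉ C) (hcd : c ≠ d)
    (h1 : ∀ x ∈ ({a, b, c, d} : Set α), ∀ y ∈ ({a, b, c, d} : Set α), LI v K ({x, y} ∪ C))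
    (h2 : ¬ LI v K ({c, a, b} ∪ C)) (h3 : ¬ LI v K ({d, a, b} ∪ C)) :
    ∃ U, Cyc v ({a, b} ∪ C) U ∧ U ≠ 0 ∧ ¬ Cyc v C U := by
  have hab := h1 a (by simp) b (by simp)
  have hca : c ≠ a := by rintro rfl; exact h2 (by simpa using hab)
  have hcb : c ≠ b := by rintro rfl; exact h2 (hab.mono (by grind))
  obtain ⟨D, hD, hDc⟩ := hab.exists_of_not (e := c) (by rwa [← insert_union])
  obtain ⟨D', hD', hDd⟩ := hab.exists_of_not (e := d) (by rwa [← insert_union])
  rw [← insert_union] at hD hD'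
  have hcD' : D' c = 0 := hD'.eq_zero_of_notMem (by grind)
  have hne : (D + D') c = 1 := by simp [hDc, hcD']
  by_contra hn
  push Not at hn
  by_cases hN : NI v ({a, b} ∪ C)
  · have hK : ∀ (c : α) (D : α → F), Cyc v ({c, a, b} ∪ C) D → D c = 1 →
        ¬ LI v K ({c, a, b} ∪ C) → D ∈ K := by
      intro c D hD hDc h2
      rw [insert_union] at hD h2
      by_contra hn
      refine h2 ⟨fun w hw hwK => ?_, fun _ _ h1 h2 => hN.unique h1 h2⟩
      by_contra hw0
      rw [hN.unique hw hD hw0 (fun h => by simp [h] at hDc)] at hwK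
      exact hn hwK
    have hpat : ∀ (c : α) (D : α → F), c ∈ ({a, b, c, d} : Set α) →
        LI v K ({c, a} ∪ C) → LI v K ({c, b} ∪ C) → Cyc v ({c, a, b} ∪ C) D → D c = 1 →
        D ∈ K → D a = 1 ∧ D b = 1 := by
      intro c D _ l1 l2 hD hDc hDK
      constructor
      · refine F_ne.1 fun h0 => ?_
        have := l2.1 D (hD.of_supp fun e he => by
          have := hD.1 e he
          have : e ≠ a := by rintro rfl; exact he h0
          grind) hDK
        simp [this] at hDc
      · refine F_ne.1 fun h0 => ?_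
        have := l1.1 D (hD.of_supp fun e he => by
          have := hD.1 e he
          have : e ≠ b := by rintro rfl; exact he h0
          grind) hDK
        simp [this] at hDc
    have k1 := hK c D hD hDc h2
    have k2 := hK d D' hD' hDd h3
    have := (h1 c (by simp) d (by simp)).1 _ (cyc_add_pattern hD hD'
      (hpat c D (by simp) (h1 c (by simp) a (by simp)) (h1 c (by simp) b (by simp)) hD hDc k1)
      (hpat d D' (by simp) (h1 d (by simp) a (by simp)) (h1 d (by simp) b (by simp)) hD' hDd k2))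
      (K.add_mem k1 k2)
    rw [this] at hne
    simp at hne
  · simp only [NI, not_forall] at hN
    obtain ⟨U, hU, hU0⟩ := hN
    have hUC := hn U hU hU0
    have hz : ∀ x ∈ ({a, b, c, d} : Set α), ∀ y ∈ ({a, b, c, d} : Set α), x ∉ C →
        ∀ z, Cyc v ({x, y} ∪ C) z → z x = 0 := by
      intro x hx y hy hxC z hz
      by_cases h0 : z = 0
      · simp [h0]
      · rw [(h1 x hx y hy).2 z U hz (hUC.mono subset_union_right) h0 hU0]
        exact hUC.eq_zero_of_notMem hxC
    have := hz c (by simp) d (by simp) hc _ (cyc_add_pattern hD hD'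
      (pattern hD hDc ha hb (hz c (by simp) a (by simp) hc) (hz c (by simp) b (by simp) hc))
      (pattern hD' hDd ha hb (hz d (by simp) a (by simp) hd) (hz d (by simp) b (by simp) hd)))
    simp [this] at hne

theorem Psi.analyse {C S : Set α} {m : ℕ} {Ind : Set α → Prop}
    (hInd : ∀ X ⊆ S \ C, (Ind X ↔ LI v K (X ∪ C))) (h : Psi Ind (S \ C) m) :
    ∃ D : Fin m → α → F, Function.Injective D ∧ ∑ i, D i = 0 ∧ ∀ i, D i ∈ K ∧ D i ≠ 0 ∧
      ∀ z, Cyc v {e | D i e ≠ 0} z → z ≠ 0 → z = D i := by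
  classical
  obtain ⟨a, b, c, d, B, ha, hb, hc, hd, hcd, h1, h2, h3, h4, h5, h6, h7, h8, h9, h10, h11⟩ := h
  have h4s : ({a, b, c, d} : Set α) ⊆ S \ C :=
    insert_subset ha (insert_subset hb (insert_subset hc (singleton_subset_iff.2 hd)))
  obtain ⟨U, hU, hU0, hUC⟩ := exists_unbal (v := v) (K := K) ha.2 hb.2 hc.2 hd.2 hcd
    (fun x hx y hy => (hInd _ (insert_subset (h4s hx) (singleton_subset_iff.2 (h4s hy)))).1
      (h1 x hx y hy))
    (fun h => h2 ((hInd _ (insert_subset hc (insert_subset ha (singleton_subset_iff.2 hb)))).2 h))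
    (fun h => h3 ((hInd _ (insert_subset hd (insert_subset ha (singleton_subset_iff.2 hb)))).2 h))
  have hN : ∀ i, ∀ x ∈ B i, NI v ((B i \ {x}) ∪ C) := by
    intro i x hx z hz
    by_contra h0
    have hl := (hInd _ (insert_subset ha (insert_subset hb (sdiff_subset.trans (h4 i))))).1
      (h9 i x hx)
    have := hl.2 z U (hz.mono (by grind)) (hU.mono (by grind)) h0 hU0
    subst this
    refine hUC (hz.of_supp fun e he => ?_)
    have := hz.1 e he
    have := hU.1 e he
    have := h5 i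
    have := h6 i
    grind
  have huniq : ∀ i z w, Cyc v (B i ∪ C) z → Cyc v (B i ∪ C) w → z ≠ 0 → w ≠ 0 → z = w := by
    intro i z w hz hw
    obtain ⟨x, hx⟩ := h7 i
    exact (hN i x hx).unique (e := x) (hz.mono (by grind)) (hw.mono (by grind))
  have hex : ∀ i, ∃ D, Cyc v (B i ∪ C) D ∧ D ∈ K ∧ D ≠ 0 := by
    intro i
    by_contra hn
    push Not at hn
    exact h8 i ((hInd _ (h4 i)).2 ⟨hn, huniq i⟩)
  choose D hD hDK hD0 using hex
  have hval : ∀ i, ∀ e ∉ C, D i e = if e ∈ B i then 1 else 0 := by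
    intro i e he
    split_ifs with h
    · refine F_ne.1 fun h0 => hD0 i (hN i e h _ ((hD i).of_supp fun y hy => ?_))
      have := (hD i).1 y hy
      have : y ≠ e := by rintro rfl; exact hy h0
      grind
    · exact (hD i).eq_zero_of_notMem (by grind)
  refine ⟨D, fun i j hij => h10 ?_, ?_, fun i => ⟨hDK i, hD0 i, fun z hz h0 =>
    huniq i _ _ (hz.mono fun e he => (hD i).1 e he) (hD i) h0 (hD0 i)⟩⟩
  · ext e
    by_cases he : e ∈ C
    · exact ⟨fun h => ((h4 i h).2 he).elim, fun h => ((h4 j h).2 he).elim⟩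
    · have e1 := hval i e he
      rw [hij, hval j e he] at e1
      by_cases hi : e ∈ B i <;> by_cases hj : e ∈ B j <;> simp_all
  · rcases Nat.eq_zero_or_pos m with rfl | hm
    · simp
    obtain ⟨x, hx⟩ := h7 ⟨0, hm⟩
    have hc : Cyc v univ (∑ i, D i) := Cyc.sum _ _ fun i _ => (hD i).mono (subset_univ _)
    refine hN ⟨0, hm⟩ x hx _ (hc.of_supp fun e he => Or.inr ?_)
    by_contra heC
    apply he
    rw [Finset.sum_apply]
    simp only [hval _ e heC, Finset.sum_boole]
    have := h11 e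
    rw [ncard_eq_toFinset_card', toFinset_ofPred] at this
    exact (ZMod.natCast_eq_zero_iff_even).2 this

theorem no_unif (S : Set α) : ¬ HasMinor ((lift v K).restrict S) (unif 3 20) := by
  classical
  intro h
  obtain ⟨f, C, hf, hm, hI⟩ := h.emb
  have hinj : Function.Injective f := injOn_univ.1 hf
  have hfC : ∀ t, f t ∉ C := fun t => (hm (mem_univ t)).2
  have hI1 : ∀ X : Set (Fin 20), X.ncard ≤ 3 → LI v K (f '' X ∪ C) := fun X hX =>
    (Matroid.restrict_indep_iff.1 ((hI X (subset_univ _)).1 hX)).1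
  have hCS : C ⊆ S := by
    simpa using (Matroid.restrict_indep_iff.1 ((hI ∅ (subset_univ _)).1
      (show (∅ : Set (Fin 20)).ncard ≤ 3 by simp))).2
  have hI2 : ∀ X : Set (Fin 20), LI v K (f '' X ∪ C) → X.ncard ≤ 3 := fun X hX =>
    (hI X (subset_univ _)).2 (Matroid.restrict_indep_iff.2 ⟨hX, union_subset (by
      rintro _ ⟨t, -, rfl⟩; exact (hm (mem_univ t)).1) hCS⟩)
  obtain ⟨X, hX, hmax⟩ := exists_max_image
    {X : Set (Fin 20) | ∀ z, Cyc v (f '' X ∪ C) z → Cyc v C z} ncard (toFinite _)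
    ⟨∅, fun z hz => by simpa using hz⟩
  have hC : LI v K C := by simpa using hI1 ∅ (by simp)
  have hX3 : X.ncard ≤ 3 := hI2 X ⟨fun z hz => hC.1 z (hX z hz),
    fun z w hz hw => hC.2 z w (hX z hz) (hX w hw)⟩
  have key : ∀ t, t ∉ X → ∃ D, Cyc v (insert (f t) (f '' X ∪ C)) D ∧ D (f t) = 1 := by
    intro t ht
    by_contra hn
    push Not at hn
    have := hmax (insert t X) fun z hz => by
      rw [image_insert_eq, insert_union] at hz
      exact hX z (hz.erase ((F_cases _).resolve_right (hn z hz)))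
    rw [ncard_insert_of_notMem ht (toFinite _)] at this
    omega
  choose! D hD hD1 using key
  obtain ⟨y, -, hy⟩ := Finset.exists_lt_card_fiber_of_mul_lt_card_of_maps_to
    (s := Xᶜ.toFinset) (t := X.toFinset.powerset) (n := 2)
    (f := fun t => X.toFinset.filter fun x => D t (f x) = 1)
    (fun t _ => Finset.mem_powerset.2 (Finset.filter_subset _ _)) (by
      rw [Finset.card_powerset, ← ncard_eq_toFinset_card', ← ncard_eq_toFinset_card']
      have h1 := ncard_add_ncard_compl X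
      rw [Nat.card_eq_fintype_card, Fintype.card_fin] at h1
      have : 2 ^ X.ncard ≤ 2 ^ 3 := Nat.pow_le_pow_right (by norm_num) hX3
      omega)
  obtain ⟨a, b, c, ha, hb, hc, hab, hac, hbc⟩ := Finset.two_lt_card_iff.1 hy
  simp only [Finset.mem_filter, mem_toFinset, mem_compl_iff] at ha hb hc
  have hcyc : ∀ s t, (s ∉ X ∧ (X.toFinset.filter fun x => D s (f x) = 1) = y) →
      (t ∉ X ∧ (X.toFinset.filter fun x => D t (f x) = 1) = y) →
      Cyc v (f '' {s, t} ∪ C) (D s + D t) := by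
    intro s t hs ht
    have h1 : Cyc v (insert (f s) (insert (f t) (f '' X ∪ C))) (D s + D t) :=
      ((hD s hs.1).mono (by grind)).add ((hD t ht.1).mono (by grind))
    refine h1.of_supp fun e he => ?_
    rw [image_pair]
    obtain rfl | rfl | ⟨x, hx, rfl⟩ | h := h1.1 e he
    · simp
    · simp
    · exfalso
      have h2 := Finset.ext_iff.1 (hs.2.trans ht.2.symm) x
      simp only [Finset.mem_filter, mem_toFinset, hx, true_and] at h2
      apply he
      rw [Pi.add_apply]
      revert h2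
      generalize D s (f x) = p
      generalize D t (f x) = q
      revert p q
      decide
    · exact Or.inr h
  have hzero : ∀ s t, s ∉ X → t ∉ X → s ≠ t → D s (f t) = 0 := fun s t hs ht hst =>
    (hD s hs).eq_zero_of_notMem (by
      rintro (h | ⟨x, hx, h⟩ | h)
      · exact hst (hinj h).symm
      · exact ht (hinj h ▸ hx)
      · exact hfC t h)
  have hl := hI1 {a, b, c} (ncard_insert_le _ _ |>.trans (by rw [ncard_pair hbc]))
  have e1 : (D a + D b) (f b) = 1 := by simp [hzero a b ha.1 hb.1 hab, hD1 b hb.1]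
  have e2 : (D a + D c) (f c) = 1 := by simp [hzero a c ha.1 hc.1 hac, hD1 c hc.1]
  have := hl.2 _ _ ((hcyc a b ha hb).mono (union_subset_union_left _ (image_mono (by grind))))
    ((hcyc a c ha hc).mono (union_subset_union_left _ (image_mono (by grind))))
    (fun h => by rw [h] at e1; simp at e1) (fun h => by rw [h] at e2; simp at e2)
  rw [this] at e1
  simp [hzero a b ha.1 hb.1 hab, hzero c b hc.1 hb.1 hbc.symm] at e1

end Pool.Agent.H28.Anti
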