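import Mathlib
import Pool.Agent.H28.Lift

set_option autoImplicit false

namespace Pool.Agent.H28.Anti

open Finset Pool.Agent.H28.Lift

variable {α : Type} [DecidableEq α] {R : ℕ}

/-- Nonempty subsets of `S` with at most `g` elements have nonzero sum. -/
def Girth (v : α → Fin R → F) (g : ℕ) (S : Finset α) : Prop :=
  ∀ T ⊆ S, T.Nonempty → T.card ≤ g → ∑ e ∈ T, v e ≠ 0

theorem exists_forb (v : α → Fin R → F) (S : Finset α) (i : ℕ) :
    ∃ A : Finset (Fin R → F), A.card ≤ (S.card + 1) ^ i ∧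
      ∀ T ⊆ S, T.card ≤ i → ∑ e ∈ T, v e ∈ A := by
  induction i with
  | zero =>
    refine ⟨{0}, by simp, fun T _ hT => ?_⟩
    rw [Nat.le_zero, card_eq_zero] at hT
    simp [hT]
  | succ i ih =>
    obtain ⟨A, hA, h⟩ := ih
    refine ⟨A ∪ image₂ (fun e a => v e + a) S A, ?_, fun T hT hc => ?_⟩
    · refine (card_union_le _ _).trans ?_
      have := card_image₂_le (fun e a => v e + a) S A
      rw [pow_succ]
      nlinarith
    · obtain rfl | ⟨e, he⟩ := T.eq_empty_or_nonempty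
      · exact mem_union_left _ (h ∅ (empty_subset _) (by simp))
      · rw [← add_sum_erase _ _ he]
        exact mem_union_right _ (mem_image₂_of_mem (hT he)
          (h _ ((erase_subset _ _).trans hT) (by rw [card_erase_of_mem he]; omega)))

theorem quarter (f g : Module.Dual F (Fin R → F)) (hf : f ≠ 0) (hg : g ≠ 0) :
    2 ^ R ≤ 4 * (univ.filter fun x => f x = 1 ∧ g x = 1).card := by
  obtain ⟨x0, h1, h2⟩ : ∃ x, f x = 1 ∧ g x = 1 := by
    obtain ⟨a, ha⟩ : ∃ a, f a = 1 := by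
      by_contra hn; push Not at hn
      exact hf (LinearMap.ext fun x => (F_cases _).resolve_right (hn x))
    obtain ⟨b, hb⟩ : ∃ a, g a = 1 := by
      by_contra hn; push Not at hn
      exact hg (LinearMap.ext fun x => (F_cases _).resolve_right (hn x))
    obtain h3 | h3 := F_cases (g a)
    · obtain h4 | h4 := F_cases (f b)
      · exact ⟨a + b, by simp [ha, h4], by simp [h3, hb]⟩
      · exact ⟨b, h4, hb⟩
    · exact ⟨a, ha, h3⟩
  have := card_le_mul_card_image_of_maps_to (s := (univ : Finset (Fin R → F)))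
    (t := (univ : Finset (F × F))) (f := fun x => (f x, g x)) (fun _ _ => mem_univ _)
    (univ.filter fun x => f x = 1 ∧ g x = 1).card (fun p _ => by
      obtain h | ⟨y, hy⟩ := (univ.filter fun x => (f x, g x) = p).eq_empty_or_nonempty
      · rw [h]; simp
      · refine card_le_card_of_injOn (fun x => x + y + x0) (fun x hx => ?_)
          (fun x _ x' _ h => by simpa using h)
        simp only [coe_filter, mem_univ, true_and, Set.mem_ofPred_eq, mem_filter] at hx hy ⊢
        have e := hx.trans hy.symm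
        simp only [Prod.mk.injEq] at e
        simp [e.1, e.2, F_add_self, h1, h2])
  simp only [card_univ, Fintype.card_pi, ZMod.card, prod_const, Fintype.card_fin,
    Fintype.card_prod] at this
  omega

instance : Finite (Module.Dual F (Fin R → F)) :=
  Finite.of_injective _ (DFunLike.coe_injective (F := Module.Dual F (Fin R → F)))

open Classical in
/-- The pairs of nonzero functionals whose kernels cover `S`. -/
noncomputable def surv (v : α → Fin R → F) (S : Finset α) :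
    Finset (Module.Dual F (Fin R → F) × Module.Dual F (Fin R → F)) :=
  haveI : Fintype (Module.Dual F (Fin R → F)) := Fintype.ofFinite _
  univ.filter fun p => p.1 ≠ 0 ∧ p.2 ≠ 0 ∧ ∀ e ∈ S, ¬ (p.1 (v e) = 1 ∧ p.2 (v e) = 1)

theorem mem_surv {v : α → Fin R → F} {S : Finset α}
    {p : Module.Dual F (Fin R → F) × Module.Dual F (Fin R → F)} :
    p ∈ surv v S ↔ p.1 ≠ 0 ∧ p.2 ≠ 0 ∧ ∀ e ∈ S, ¬ (p.1 (v e) = 1 ∧ p.2 (v e) = 1) := by
  simp [surv]

theorem card_surv (v : α → Fin R → F) (S : Finset α) : (surv v S).card ≤ 4 ^ R := by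
  haveI : Fintype (Module.Dual F (Fin R → F)) := Fintype.ofFinite _
  refine (card_le_univ _).trans ?_
  rw [Fintype.card_prod, Module.card_eq_pow_finrank (K := F), Subspace.dual_finrank_eq]
  simp [← mul_pow]

theorem step (v : α → Fin R → F) (σ : (Fin R → F) → α) (hσ : ∀ x, v (σ x) = x) (g : ℕ)
    (S : Finset α) (hS : Girth v g S) (hc : 8 * (S.card + 1) ^ g ≤ 2 ^ R) :
    ∃ e, Girth v g (insert e S) ∧ 8 * (surv v (insert e S)).card ≤ 7 * (surv v S).card := by
  classical
  obtain ⟨A, hA, hT⟩ := exists_forb v S g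
  have hcard : (univ : Finset (Fin R → F)).card = 2 ^ R := by simp
  have h1 : ∀ p ∈ surv v S, 2 ^ R ≤ 8 * (Aᶜ.filter fun x => p.1 x = 1 ∧ p.2 x = 1).card := by
    intro p hp
    have := quarter p.1 p.2 (mem_surv.1 hp).1 (mem_surv.1 hp).2.1
    have h2 : (univ.filter fun x => p.1 x = 1 ∧ p.2 x = 1).card ≤
        (Aᶜ.filter fun x => p.1 x = 1 ∧ p.2 x = 1).card + A.card := by
      refine le_trans (card_le_card fun x hx => ?_) (card_union_le _ _)
      by_cases hxA : x ∈ A <;> simp_all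
    omega
  have h2 : ∑ x ∈ Aᶜ, ((surv v S).filter fun p => p.1 x = 1 ∧ p.2 x = 1).card =
      ∑ p ∈ surv v S, (Aᶜ.filter fun x => p.1 x = 1 ∧ p.2 x = 1).card := by
    simp only [card_filter]
    exact sum_comm
  have hne : Aᶜ.Nonempty := by
    rw [← card_pos, card_compl, ← card_univ, hcard]
    have : 0 < (S.card + 1) ^ g := by positivity
    omega
  obtain ⟨x, hx, hle⟩ : ∃ x ∈ Aᶜ, (surv v S).card ≤
      8 * ((surv v S).filter fun p => p.1 x = 1 ∧ p.2 x = 1).card := by
    refine exists_le_of_sum_le hne ?_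
    rw [← mul_sum, h2, mul_sum, sum_const, smul_eq_mul]
    refine le_trans ?_ (sum_le_sum h1)
    rw [sum_const, smul_eq_mul, mul_comm]
    exact Nat.mul_le_mul_left _ ((card_le_univ _).trans (by simp))
  refine ⟨σ x, fun T hT' hne hc h0 => ?_, ?_⟩
  · by_cases hxT : σ x ∈ T
    · rw [← add_sum_erase _ _ hxT, hσ, Lift.add_eq_zero] at h0
      refine mem_compl.1 hx ?_
      rw [h0]
      exact hT _ (subset_insert_iff.1 hT') ((card_erase_le).trans hc)
    · exact hS T ((subset_insert_iff_of_notMem hxT).1 hT') hne hc h0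
  · have h3 := card_filter_add_card_filter_not (s := surv v S) (fun p => p.1 x = 1 ∧ p.2 x = 1)
    have h4 : (surv v (insert (σ x) S)).card ≤
        ((surv v S).filter fun p => ¬ (p.1 x = 1 ∧ p.2 x = 1)).card := by
      refine card_le_card fun p hp => ?_
      rw [mem_surv] at hp
      rw [mem_filter, mem_surv]
      refine ⟨⟨hp.1, hp.2.1, fun e he => hp.2.2 e (mem_insert_of_mem he)⟩, ?_⟩
      simpa [hσ] using hp.2.2 (σ x) (mem_insert_self _ _)
    omega

theorem steps (v : α → Fin R → F) (σ : (Fin R → F) → α) (hσ : ∀ x, v (σ x) = x) (g : ℕ)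
    (S₀ : Finset α) (hS : Girth v g S₀) (t : ℕ) (hc : 8 * (S₀.card + t + 1) ^ g ≤ 2 ^ R) :
    ∃ S, S₀ ⊆ S ∧ S.card ≤ S₀.card + t ∧ Girth v g S ∧
      8 ^ t * (surv v S).card ≤ 7 ^ t * 4 ^ R := by
  induction t with
  | zero => exact ⟨S₀, Subset.rfl, le_rfl, hS, by simpa using card_surv v S₀⟩
  | succ t ih =>
    obtain ⟨S, h1, h2, h3, h4⟩ := ih (le_trans (by gcongr; omega) hc)
    obtain ⟨e, h5, h6⟩ := step v σ hσ g S h3 (le_trans (by gcongr; omega) hc)
    refine ⟨insert e S, h1.trans (subset_insert _ _), (card_insert_le _ _).trans (by omega), h5, ?_⟩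
    calc 8 ^ (t + 1) * (surv v (insert e S)).card
        = 8 ^ t * (8 * (surv v (insert e S)).card) := by ring
      _ ≤ 8 ^ t * (7 * (surv v S).card) := Nat.mul_le_mul_left _ h6
      _ = 7 * (8 ^ t * (surv v S).card) := by ring
      _ ≤ 7 * (7 ^ t * 4 ^ R) := Nat.mul_le_mul_left _ h4
      _ = 7 ^ (t + 1) * 4 ^ R := by ring

theorem exists_R (s g : ℕ) : ∃ R, s ≤ R ∧ 0 < R ∧ 8 * (s + 11 * R + 1) ^ g ≤ 2 ^ R := by
  have h := tendsto_pow_const_div_const_pow_of_one_lt g (r := 2) one_lt_two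
  have h2 := h.eventually (gt_mem_nhds (show (0 : ℝ) < 1 / (8 * 13 ^ g) by positivity))
  obtain ⟨R, h3, h4⟩ := (h2.and (Filter.eventually_ge_atTop (s + 1))).exists
  refine ⟨R, by omega, by omega, ?_⟩
  rw [div_lt_div_iff₀ (by positivity) (by positivity), one_mul] at h3
  have h5 : R ^ g * (8 * 13 ^ g) < 2 ^ R := by exact_mod_cast h3
  have h6 : (s + 11 * R + 1) ^ g ≤ (13 * R) ^ g := Nat.pow_le_pow_left (by omega) _
  rw [mul_pow] at h6
  nlinarith

theorem exists_round (v : α → Fin R → F) (σ : (Fin R → F) → α) (hσ : ∀ x, v (σ x) = x) (g : ℕ)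
    (S₀ : Finset α) (hS : Girth v g S₀) (hR : 0 < R)
    (hc : 8 * (S₀.card + 11 * R + 1) ^ g ≤ 2 ^ R) :
    ∃ S, S₀ ⊆ S ∧ Girth v g S ∧ ∀ f f' : Module.Dual F (Fin R → F), f ≠ 0 → f' ≠ 0 →
      ∃ e ∈ S, f (v e) = 1 ∧ f' (v e) = 1 := by
  obtain ⟨S, h1, -, h3, h4⟩ := steps v σ hσ g S₀ hS (11 * R) hc
  refine ⟨S, h1, h3, fun f f' hf hf' => ?_⟩
  by_contra hn
  have hm : (f, f') ∈ surv v S := mem_surv.2 ⟨hf, hf', fun e he h => hn ⟨e, he, h⟩⟩
  have h5 := card_pos.2 ⟨_, hm⟩
  rw [pow_mul, pow_mul, ← mul_pow] at h4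
  have h6 : (7 ^ 11 * 4) ^ R < (8 ^ 11) ^ R := Nat.pow_lt_pow_left (by norm_num) hR.ne'
  exact absurd (lt_of_le_of_lt ((Nat.le_mul_of_pos_right _ h5).trans h4) h6) (lt_irrefl _)

end Pool.Agent.H28.Anti
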