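import Mathlib
import Pool.Agent.H28.Anti1
import Pool.Agent.H28.Anti2

set_option autoImplicit false

namespace Pool.Agent.H28.Anti

open Set Pool.Agent.H28.Lift Pool.Agent.H28.Inter

/-- Separations in terms of a natural-number rank function. -/
def Sep {α : Type} (r : Set α → ℕ) (S : Set α) (j : ℕ) : Prop :=
  ∃ X ⊆ S, j ≤ X.ncard ∧ j ≤ (S \ X).ncard ∧ r X + r (S \ X) + 1 ≤ r S + j

theorem hasSep_iff {α : Type} [Finite α] (M : Matroid α) (S : Set α) (j : ℕ) :
    HasSep (M.restrict S) j ↔ Sep (rk M) S j := by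
  refine exists_congr fun X => and_congr_right fun hX => ?_
  have hX' : X ⊆ S := hX
  rw [Matroid.restrict_ground_eq, Matroid.eRank_restrict, M.restrict_eRk_eq hX',
    M.restrict_eRk_eq sdiff_subset, ← cast_rk, ← cast_rk, ← cast_rk, ← (toFinite X).cast_ncard_eq,
    ← (toFinite (S \ X)).cast_ncard_eq]
  norm_cast

theorem Sep.insert {α : Type} [Finite α] {r : Set α → ℕ} (hr : IsRk r) {S : Set α} {e : α}
    (he : e ∉ S) {j : ℕ} (h : Sep r S j) (hS : 2 * j < S.ncard) : Sep r (insert e S) (j + 1) := by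
  obtain ⟨X, hX, h1, h2, h3⟩ := h
  have hc := ncard_sdiff_add_ncard_of_subset hX (toFinite S)
  have hm := hr.mono S (Insert.insert e S) (subset_insert _ _)
  by_cases h : j + 1 ≤ (S \ X).ncard
  · have e1 : Insert.insert e S \ Insert.insert e X = S \ X := by grind
    refine ⟨Insert.insert e X, insert_subset_insert hX, ?_, by rwa [e1], ?_⟩
    · rw [ncard_insert_of_notMem (fun h => he (hX h)) (toFinite _)]; omega
    · have := hr.unit e X
      rw [e1]; omega
  · have e1 : Insert.insert e S \ X = Insert.insert e (S \ X) := by grind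
    refine ⟨X, hX.trans (subset_insert _ _), by omega, ?_, ?_⟩
    · rw [e1, ncard_insert_of_notMem (fun h => he h.1) (toFinite _)]; omega
    · have := hr.unit e (S \ X)
      rw [e1]; omega

theorem chain {α : Type} [Finite α] {r : Set α → ℕ} (hr : IsRk r) {E S : Set α} (hES : E ⊆ S)
    {k : ℕ} (hk : 1 ≤ k) (hE : Sep r E 1) (hc : 2 * k < E.ncard)
    (hS : ∀ j, 1 ≤ j → j ≤ k → ¬ Sep r S j) :
    ∃ T, E ⊆ T ∧ T ⊆ S ∧ IsLeast {j | 1 ≤ j ∧ Sep r T j} k := by
  obtain ⟨T, ⟨h1, h2, h3⟩, hmin⟩ := exists_min_image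
    {T | E ⊆ T ∧ T ⊆ S ∧ ∀ j, 1 ≤ j → j ≤ k → ¬ Sep r T j} ncard (toFinite _)
    ⟨S, hES, Subset.rfl, hS⟩
  obtain ⟨e, heT, heE⟩ : ∃ e ∈ T, e ∉ E := by
    by_contra hn
    push Not at hn
    exact h3 1 le_rfl hk (Subset.antisymm h1 hn ▸ hE)
  have hE' : E ⊆ T \ {e} := subset_sdiff_singleton h1 heE
  have hlow : ∀ j, 1 ≤ j → Sep r (T \ {e}) j → k ≤ j := by
    intro j hj hs
    by_contra hn
    have := hs.insert hr (e := e) (by simp)
      (lt_of_lt_of_le (by omega) (ncard_le_ncard hE' (toFinite _)))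
    rw [insert_sdiff_singleton, insert_eq_of_mem heT] at this
    exact h3 (j + 1) (by omega) (by omega) this
  refine ⟨T \ {e}, hE', sdiff_subset.trans h2, ⟨hk, ?_⟩, fun j hj => hlow j hj.1 hj.2⟩
  by_contra hn
  have := hmin (T \ {e}) ⟨hE', sdiff_subset.trans h2, fun j h1 h2 hs =>
    hn (le_antisymm h2 (hlow j h1 hs) ▸ hs)⟩
  have := ncard_sdiff_singleton_add_one heT (toFinite T)
  omega

variable {α : Type} [Fintype α] [DecidableEq α] {R : ℕ} {v : α → Fin R → F}
  {K : Submodule F (α → F)}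

theorem Girth.ni {g : ℕ} {S : Finset α} (h : Girth v g S) {X : Set α} (hX : X ⊆ S)
    (hc : X.ncard ≤ g) : NI v X := by
  intro z hz
  by_contra h0
  obtain ⟨x, hx⟩ := exists_one h0
  have hT : ((Finset.univ.filter fun e => z e = 1 : Finset α) : Set α) ⊆ X :=
    fun e he => hz.1 e (F_ne.2 (by simpa using he))
  refine h (Finset.univ.filter fun e => z e = 1) (Finset.coe_subset.1 (hT.trans hX))
    ⟨x, by simpa using hx⟩ ?_ ?_
  · rw [← ncard_coe_finset]
    exact (ncard_le_ncard hT (toFinite _)).trans hc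
  · rw [← hz.2, Finset.sum_filter]
    refine Finset.sum_congr rfl fun e _ => ?_
    obtain h | h := F_cases (z e) <;> simp [h]

omit [DecidableEq α] in
theorem girth_of_ni {g : ℕ} {S : Finset α} (h : ∀ X : Set α, X ⊆ S → X.ncard ≤ g → NI v X) :
    Girth v g S := by
  classical
  intro T hT ⟨x, hx⟩ hc h0
  have := h T hT (by rwa [ncard_coe_finset]) (fun e => if e ∈ T then 1 else 0)
    ⟨fun e he => by simpa using he, by simpa [ite_smul, Finset.sum_ite_mem] using h0⟩
  simpa [hx] using congrFun this x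

omit [DecidableEq α] in
theorem basis_or_dual (X : Set α) : (∃ B ⊆ X, NI v B ∧ B.ncard = R) ∨
    ∃ f : Module.Dual F (Fin R → F), f ≠ 0 ∧ ∀ e ∈ X, f (v e) = 0 := by
  by_cases h : Submodule.span F (v '' X) = ⊤
  · obtain ⟨B, hB⟩ := (VecMat.vec F v).exists_isBasis' X
    refine Or.inl ⟨B, hB.subset, ni_iff.2 ((VecMat.vec_indep F v B).1 hB.indep), ?_⟩
    have h1 := VecMat.eRk_eq_of_rep (M := VecMat.vec F v) (F := F) (φ := v) (by simp)
      (subset_univ X) (toFinite X)
    rw [← hB.encard_eq_eRk, h, finrank_top, Module.finrank_fin_fun,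
      ← (toFinite B).cast_ncard_eq] at h1
    exact_mod_cast h1
  · obtain ⟨f, hf, hle⟩ := Submodule.exists_le_ker_of_lt_top _ (lt_top_iff_ne_top.2 h)
    exact Or.inr ⟨f, hf, fun e he => hle (Submodule.subset_span ⟨e, he, rfl⟩)⟩

omit [DecidableEq α] in
theorem rk_ge {Y B W : Set α} (hB : B ⊆ Y) (hN : NI v B) (hc : B.ncard = R) (hW : W ⊆ Y)
    (h1 : LI v K W) (h2 : ¬ NI v W) : R + 1 ≤ rk (lift v K) Y := by
  obtain ⟨J, hJ, hWJ⟩ := (lift_indep.2 h1).subset_isBasis'_of_subset hW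
  have hJl : LI v K J := hJ.indep
  have h3 := hJ.encard_eq_eRk
  rw [← cast_rk, ← (toFinite J).cast_ncard_eq, Nat.cast_inj] at h3
  simp only [NI, not_forall] at h2
  obtain ⟨U, hU, h0⟩ := h2
  replace hU := hU.mono hWJ
  obtain ⟨x, hx⟩ := exists_one h0
  have hxJ : x ∈ J := hU.1 x (by simp [hx])
  have hcJ := ncard_sdiff_singleton_add_one hxJ (toFinite _)
  by_contra hn
  obtain ⟨e, h4, h5, h6⟩ := (hJl.sdiff hU hx).aug hN (by omega)
  have heJ : e ∉ J := by
    intro heJ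
    have : e = x := by by_contra hn; exact h5 ⟨heJ, hn⟩
    subst this
    exact h0 (h6 U (hU.mono (by grind)))
  have hl : LI v K (insert e J) := hJl.insert_of fun z hz => by
    have hc2 : Cyc v (insert e J) (z + z x • U) := hz.add ((hU.mono (subset_insert _ _)).smul _)
    have := h6 _ (hc2.of_supp fun y hy => by
      obtain rfl | hyI := hc2.1 y hy
      · exact mem_insert _ _
      · refine Or.inr ⟨hyI, ?_⟩
        rintro rfl
        simp [hx, F_add_self] at hy)
    simpa [hU.eq_zero_of_notMem heJ] using congrFun this e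
  have := ncard_le_rk (lift_indep.2 hl) (insert_subset (hB h4) hJ.subset)
  rw [ncard_insert_of_notMem heJ (toFinite _)] at this
  omega

theorem not_sep {k : ℕ} {S : Finset α} (hg : Girth v (k + 1) S)
    (hround : ∀ f f' : Module.Dual F (Fin R → F), f ≠ 0 → f' ≠ 0 →
      ∃ e ∈ S, f (v e) = 1 ∧ f' (v e) = 1)
    (hunb : ∀ X : Set α, X.ncard ≤ k → ∃ W ⊆ ↑S \ X, LI v K W ∧ ¬ NI v W)
    (j : ℕ) (hj : j ≤ k) : ¬ Sep (rk (lift v K)) S j := by
  have key : ∀ X Y : Set α, X ⊆ S → (S : Set α) \ X = Y → j ≤ X.ncard →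
      (∃ B ⊆ Y, NI v B ∧ B.ncard = R) →
      rk (lift v K) S + j ≤ rk (lift v K) X + rk (lift v K) Y := by
    rintro X Y hX hY hjX ⟨B, hB, hN, hc⟩
    have h1 := rk_le (v := v) (K := K) S
    rw [Module.finrank_fin_fun] at h1
    have h2 : ∀ i, i ≤ k + 1 → i ≤ X.ncard → i ≤ rk (lift v K) X := by
      intro i hi hiX
      obtain ⟨I, hI, rfl⟩ := exists_subset_card_eq hiX
      exact ncard_le_rk (lift_indep.2 (hg.ni (hI.trans hX) hi).li) hI
    by_cases h : j + 1 ≤ X.ncard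
    · have := h2 (j + 1) (by omega) h
      have := ncard_le_rk (lift_indep (K := K).2 hN.li) hB
      omega
    · obtain ⟨W, hW, h3, h4⟩ := hunb X (by omega)
      have := rk_ge hB hN hc (hY ▸ hW) h3 h4
      have := h2 j (by omega) hjX
      omega
  rintro ⟨X, hX, h1, h2, h3⟩
  obtain h4 | ⟨f, hf, h4⟩ := basis_or_dual (v := v) X
  · have := key (S \ X) X sdiff_subset (sdiff_sdiff_cancel_left hX) h2 h4
    omega
  obtain h5 | ⟨f', hf', h5⟩ := basis_or_dual (v := v) (S \ X)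
  · have := key X _ hX rfl h1 h5
    omega
  obtain ⟨e, he, h6, h7⟩ := hround f f' hf hf'
  by_cases heX : e ∈ X
  · simp [h4 e heX] at h6
  · simp [h5 e ⟨he, heX⟩] at h7

theorem exists_vec {E : Type} [Fintype E] (Z : Submodule F (E → F)) {R : ℕ}
    (hR : Fintype.card E ≤ R) :
    ∃ v : E → Fin R → F, ∀ z : E → F, ∑ e, z e • v e = 0 ↔ z ∈ Z := by
  classical
  have h : Module.finrank F ((E → F) ⧸ Z) ≤ Module.finrank F (Fin R → F) := by
    rw [Module.finrank_fin_fun]
    exact (Submodule.finrank_quotient_le Z).trans (by simpa using hR)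
  obtain ⟨ι, hι⟩ := finrank_le_iff_exists_linearMap.1 h
  refine ⟨fun e => ι (Z.mkQ (Pi.single e 1)), fun z => ?_⟩
  have : ∑ e, z e • ι (Z.mkQ (Pi.single e 1)) = ι (Z.mkQ z) := by
    simp only [← map_smul, ← map_sum]
    congr 2
    ext e
    simp [Finset.sum_apply, Pi.single_apply]
  rw [this, map_eq_zero_iff _ hι, Submodule.mkQ_apply, Submodule.Quotient.mk_eq_zero]

end Pool.Agent.H28.Anti
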