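import Mathlib
import Pool.Agent.H28.Anti3

set_option autoImplicit false
set_option linter.unusedSectionVars false

namespace Pool.Agent.H28.Anti

open Set Pool.Agent.H28.Lift Pool.Agent.H28.Inter

abbrev E0 (n p L : ℕ) := ((Fin n × Fin n) ⊕ Fin p) × Fin (L + 1)
abbrev A (n p L R : ℕ) := E0 n p L ⊕ (Fin R → F)

variable {n p L R : ℕ}

abbrev eg (i j : Fin n) (t : Fin (L + 1)) : A n p L R := .inl (.inl (i, j), t)
abbrev pa (q : Fin p) (t : Fin (L + 1)) : A n p L R := .inl (.inr q, t)

def Z0 (n p L : ℕ) : Submodule F (E0 n p L → F) where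
  carrier := {z | (∀ x t, z (x, t) = z (x, 0)) ∧ (∀ i j, z (.inl (i, j), 0) = z (.inl (j, i), 0)) ∧
    (∀ i, z (.inl (i, i), 0) = 0) ∧
    (∀ i j, ∑ l, z (.inl (i, l), 0) = ∑ l, z (.inl (j, l), 0)) ∧ ∑ q, z (.inr q, 0) = 0}
  zero_mem' := by simp
  add_mem' := by
    rintro z w ⟨h1, h2, h3, h4, h5⟩ ⟨g1, g2, g3, g4, g5⟩
    refine ⟨fun x t => ?_, fun i j => ?_, fun i => ?_, fun i j => ?_, ?_⟩
    · rw [Pi.add_apply, Pi.add_apply, h1, g1]
    · rw [Pi.add_apply, Pi.add_apply, h2, g2]
    · rw [Pi.add_apply, h3, g3, add_zero]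
    · simp only [Pi.add_apply, Finset.sum_add_distrib, h4 i j, g4 i j]
    · simp only [Pi.add_apply, Finset.sum_add_distrib, h5, g5, add_zero]
  smul_mem' := by
    intro c z hz
    obtain rfl | rfl := F_cases c
    · simp
    · simpa using hz

def gr (w : Fin n → Fin n → F) : A n p L R → F :=
  Sum.elim (fun e => Sum.elim (fun ij => w ij.1 ij.2) (fun _ => 0) e.1) fun _ => 0

def path (y : Fin p → F) : A n p L R → F :=
  Sum.elim (fun e => Sum.elim (fun _ => 0) y e.1) fun _ => 0

def cut : (Fin n → F) →ₗ[F] (A n p L R → F) where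
  toFun s := gr fun i j => s i + s j
  map_add' s s' := by
    funext e
    rcases e with ⟨⟨i, j⟩ | q, t⟩ | x <;> simp [gr]
    ring
  map_smul' c s := by
    funext e
    rcases e with ⟨⟨i, j⟩ | q, t⟩ | x <;> simp [gr]
    ring

@[simp] theorem gr_eg (w : Fin n → Fin n → F) (i j : Fin n) (t : Fin (L + 1)) :
    gr (p := p) (R := R) w (eg i j t) = w i j := rfl
@[simp] theorem gr_pa (w : Fin n → Fin n → F) (q : Fin p) (t : Fin (L + 1)) :
    gr (R := R) w (pa q t) = 0 := rfl
@[simp] theorem gr_inr (w : Fin n → Fin n → F) (x : Fin R → F) :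
    gr (p := p) (L := L) w (.inr x) = 0 := rfl
@[simp] theorem path_eg (y : Fin p → F) (i j : Fin n) (t : Fin (L + 1)) :
    path (R := R) y (eg i j t) = 0 := rfl
@[simp] theorem path_pa (y : Fin p → F) (q : Fin p) (t : Fin (L + 1)) :
    path (n := n) (R := R) y (pa q t) = y q := rfl
@[simp] theorem path_inr (y : Fin p → F) (x : Fin R → F) :
    path (n := n) (L := L) y (.inr x) = 0 := rfl
@[simp] theorem cut_eg (s : Fin n → F) (i j : Fin n) (t : Fin (L + 1)) :
    cut (p := p) (R := R) s (eg i j t) = s i + s j := rfl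
@[simp] theorem cut_pa (s : Fin n → F) (q : Fin p) (t : Fin (L + 1)) :
    cut (R := R) s (pa q t) = 0 := rfl
@[simp] theorem cut_inr (s : Fin n → F) (x : Fin R → F) :
    cut (p := p) (L := L) s (.inr x) = 0 := rfl

abbrev KK (n p L R : ℕ) : Submodule F (A n p L R → F) := LinearMap.range cut

/-- The vectors realize the cycle space `Z0` on the gadget. -/
def Real (v : A n p L R → Fin R → F) : Prop :=
  ∀ z : A n p L R → F, (∀ x, z (.inr x) = 0) →
    (∑ e, z e • v e = 0 ↔ (fun e => z (.inl e)) ∈ Z0 n p L)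

theorem exists_real (hR : Fintype.card (E0 n p L) ≤ R) :
    ∃ v : A n p L R → Fin R → F, Real v ∧ ∀ x, v (.inr x) = x := by
  obtain ⟨v, hv⟩ := exists_vec (Z0 n p L) hR
  refine ⟨Sum.elim v id, fun z hz => ?_, fun _ => rfl⟩
  rw [Fintype.sum_sum_type, ← hv]
  simp [hz]

variable {v : A n p L R → Fin R → F} {W : Set (A n p L R)} {z : A n p L R → F}

theorem Real.inr (hW : W ⊆ range Sum.inl) (hz : Cyc v W z) (x : Fin R → F) : z (.inr x) = 0 :=
  hz.eq_zero_of_notMem fun h => by simpa using hW h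

theorem Real.good (hv : Real v) (hW : W ⊆ range Sum.inl) (hz : Cyc v W z) :
    (fun e => z (.inl e)) ∈ Z0 n p L := (hv z (Real.inr hW hz)).1 hz.2

theorem Real.cyc_path (hv : Real v) {y : Fin p → F} (hy : ∑ q, y q = 0)
    (hW : ∀ q t, y q ≠ 0 → pa q t ∈ W) : Cyc v W (path y) := by
  refine ⟨?_, (hv _ fun _ => rfl).2 ⟨?_, fun _ _ => rfl, fun _ => rfl, fun _ _ => rfl, hy⟩⟩
  · rintro (⟨⟨i, j⟩ | q, t⟩ | x) h
    · exact (h rfl).elim
    · exact hW q t h
    · exact (h rfl).elim
  · rintro (⟨i, j⟩ | q) t <;> rfl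

theorem Real.cyc_gr (hv : Real v) {w : Fin n → Fin n → F} (h1 : ∀ i j, w i j = w j i)
    (h2 : ∀ i, w i i = 0) (h3 : ∀ i j, ∑ l, w i l = ∑ l, w j l)
    (hW : ∀ i j t, w i j ≠ 0 → eg i j t ∈ W) : Cyc v W (gr w) := by
  refine ⟨?_, (hv _ fun _ => rfl).2 ⟨?_, h1, h2, h3, by simp⟩⟩
  · rintro (⟨⟨i, j⟩ | q, t⟩ | x) h
    · exact hW i j t h
    · exact (h rfl).elim
    · exact (h rfl).elim
  · rintro (⟨i, j⟩ | q) t <;> rfl

theorem Real.cyc_cut (hv : Real v) (hn : Even n) (s : Fin n → F) :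
    Cyc v {e | cut s e ≠ 0} (cut s) := by
  refine hv.cyc_gr (w := fun i j => s i + s j) (W := {e | cut s e ≠ 0})
    (fun i j => add_comm _ _) (fun i => F_add_self _) (fun i j => ?_) fun i j t h => h
  simp [Finset.sum_add_distrib, (ZMod.natCast_eq_zero_iff_even).2 hn]

theorem Real.li_two (hv : Real v) (hW : W ⊆ range Sum.inl)
    (h1 : ∀ z, Cyc v W z → ∀ i j, z (eg i j 0) = 0) (x y : Fin p)
    (h2 : ∀ q, pa q 0 ∈ W → q = x ∨ q = y) : LI v (KK n p L R) W := by
  have key : ∀ z, Cyc v W z → z = path fun q => if (q = x ∨ q = y) ∧ x ≠ y then z (pa x 0) else 0 := by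
    intro z hz
    obtain ⟨g1, -, -, -, g5⟩ := hv.good hW hz
    have h3 : ∀ q, q ≠ x → q ≠ y → z (pa q 0) = 0 := fun q hx hy =>
      hz.eq_zero_of_notMem fun h => (h2 q h).elim hx hy
    funext e
    rcases e with ⟨⟨i, j⟩ | q, t⟩ | u
    · exact (g1 _ t).trans (h1 z hz i j)
    · refine (g1 _ t).trans ?_
      show z (pa q 0) = _
      rw [path_pa]
      by_cases hxy : x = y
      · subst hxy
        rw [if_neg (by simp)]
        by_cases hq : q = x
        · subst hq
          rwa [Finset.sum_eq_single q (fun b _ hb => h3 b hb hb) (by simp)] at g5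
        · exact h3 q hq hq
      · rw [Finset.sum_eq_add x y hxy (fun c _ hc => h3 c hc.1 hc.2) (by simp) (by simp)] at g5
        split_ifs with h
        · obtain rfl | rfl := h.1
          · rfl
          · revert g5
            generalize z (pa x 0) = a
            generalize z (pa q 0) = b
            revert a b
            decide
        · exact h3 q (by tauto) (by tauto)
    · exact Real.inr hW hz u
  have key2 : ∀ z, Cyc v W z → z ≠ 0 → z (pa x 0) = 1 := by
    intro z hz h0
    refine F_ne.1 fun h => h0 ?_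
    rw [key z hz, h]
    funext e
    rcases e with ⟨⟨i, j⟩ | q, t⟩ | u <;> simp
  refine ⟨fun z hz ⟨s, hs⟩ => ?_, fun z w hz hw h0 h0' => ?_⟩
  · by_contra h0
    have := key2 z hz h0
    rw [← hs] at this
    simp at this
  · rw [key z hz, key w hw, key2 z hz h0, key2 w hw h0']

theorem Real.star (hv : Real v) (hW : W ⊆ range Sum.inl) (hz : Cyc v W z) (j : Fin n)
    (h1 : ∀ i l, eg i l 0 ∈ W → i = j ∨ l = j) (i₀ : Fin n) (hi : i₀ ≠ j)
    (h0 : z (eg i₀ j 0) = 0) (i l : Fin n) : z (eg i l 0) = 0 := by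
  obtain ⟨-, g2, g3, g4, -⟩ := hv.good hW hz
  have h3 : ∀ i l, i ≠ j → l ≠ j → z (eg i l 0) = 0 := fun i l hx hy =>
    hz.eq_zero_of_notMem fun h => (h1 i l h).elim hx hy
  have h4 : ∀ i, z (eg i j 0) = 0 := by
    intro i
    by_cases hij : i = j
    · subst hij; exact g3 i
    have := g4 i i₀
    rw [Finset.sum_eq_single j (fun b _ hb => h3 i b hij hb) (by simp),
      Finset.sum_eq_single j (fun b _ hb => h3 i₀ b hi hb) (by simp)] at this
    exact this.trans h0
  by_cases hl : l = j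
  · subst hl; exact h4 i
  by_cases hi : i = j
  · subst hi; exact (g2 i l).trans (h4 l)
  exact h3 i l hi hl

theorem exists_ne (hn : 5 ≤ n) (i j k l : Fin n) : ∃ u, u ≠ i ∧ u ≠ j ∧ u ≠ k ∧ u ≠ l := by
  obtain ⟨u, -, hu⟩ := Finset.exists_mem_notMem_of_card_lt_card
    (s := ({i, j, k, l} : Finset (Fin n))) (t := Finset.univ)
    (lt_of_le_of_lt Finset.card_le_four (by simp; omega))
  exact ⟨u, by simpa [not_or] using hu⟩

theorem Real.minimal (hv : Real v) (hn : 5 ≤ n) {D : A n p L R → F} (hK : D ∈ KK n p L R)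
    (h0 : D ≠ 0) (hmin : ∀ z, Cyc v {e | D e ≠ 0} z → z ≠ 0 → z = D) :
    ∃ j, D = cut (Pi.single j 1) := by
  obtain ⟨s, rfl⟩ := hK
  have hcut : ∀ s s' : Fin n → F, (∀ i j, s i + s j = s' i + s' j) →
      cut (p := p) (L := L) (R := R) s = cut s' := fun s s' h =>
    congrArg gr (funext fun i => funext fun j => h i j)
  by_cases h1 : ∀ i j, s i = 1 → s j = 1 → i = j
  · obtain ⟨i, hi⟩ := exists_one (z := s) (by rintro rfl; simp at h0)
    refine ⟨i, congrArg _ (funext fun u => ?_)⟩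
    by_cases hu : u = i
    · simp [hu, hi]
    · rw [Pi.single_eq_of_ne hu]
      exact (F_cases _).resolve_right fun h => hu (h1 _ _ h hi)
  by_cases h2 : ∀ i j, s i = 0 → s j = 0 → i = j
  · obtain ⟨i, hi⟩ : ∃ i, s i = 0 := by
      by_contra hn
      push Not at hn
      exact h0 ((hcut s 0 fun i j => by simp [F_ne.1 (hn i), F_ne.1 (hn j), F_add_self]).trans
        (map_zero _))
    have h3 : ∀ u, s u = (Pi.single i 1 : Fin n → F) u + 1 := by
      intro u
      by_cases hu : u = i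
      · simp [hu, hi, F_add_self]
      · rw [Pi.single_eq_of_ne hu, zero_add]
        exact F_ne.1 fun h => hu (h2 _ _ h hi)
    refine ⟨i, hcut _ _ fun a b => ?_⟩
    rw [h3 a, h3 b]
    generalize (Pi.single i 1 : Fin n → F) a = x
    generalize (Pi.single i 1 : Fin n → F) b = y
    revert x y
    decide
  exfalso
  push Not at h1 h2
  obtain ⟨i, j, hi, hj, hij⟩ := h1
  obtain ⟨k, l, hk, hl, hkl⟩ := h2
  set P : Fin n → F := Pi.single i 1 + Pi.single j 1 with hP
  set Q : Fin n → F := Pi.single k 1 + Pi.single l 1 with hQ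
  have hPs : ∀ a, P a ≠ 0 → s a = 1 := by
    intro a ha
    by_cases h : a = i
    · rw [h, hi]
    by_cases h' : a = j
    · rw [h', hj]
    simp [hP, h, h'] at ha
  have hQs : ∀ a, Q a ≠ 0 → s a = 0 := by
    intro a ha
    by_cases h : a = k
    · rw [h, hk]
    by_cases h' : a = l
    · rw [h', hl]
    simp [hQ, h, h'] at ha
  have hsP : ∑ a, P a = 0 := by simp [hP, Finset.sum_add_distrib, F_add_self]
  have hsQ : ∑ a, Q a = 0 := by simp [hQ, Finset.sum_add_distrib, F_add_self]
  have hc : Cyc v {e | cut s e ≠ 0} (gr fun a b => P a * Q b + Q a * P b) := by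
    refine hv.cyc_gr (fun a b => by ring) (fun a => by rw [mul_comm, F_add_self]) (fun a b => ?_)
      fun a b t h => ?_
    · simp [Finset.sum_add_distrib, ← Finset.mul_sum, hsP, hsQ]
    · show s a + s b ≠ 0
      by_cases h1 : P a * Q b = 0
      · rw [h1, zero_add] at h
        rw [hQs a (left_ne_zero_of_mul h), hPs b (right_ne_zero_of_mul h)]; simp
      · rw [hPs a (left_ne_zero_of_mul h1), hQs b (right_ne_zero_of_mul h1)]; simp
  have hPi : P i = 1 := by simp [hP, hij]
  have hQk : Q k = 1 := by simp [hQ, hkl]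
  have hQi : Q i = 0 := by by_contra h; simp [hQs i h] at hi
  have := hmin _ hc fun h => by
    have := congrFun h (eg i k 0)
    simp [hPi, hQk, hQi] at this
  obtain ⟨u, h1, h2, h3, h4⟩ := exists_ne hn i j k l
  have hPu : P u = 0 := by simp [hP, h1, h2]
  have hQu : Q u = 0 := by simp [hQ, h3, h4]
  have e1 := congrFun this (eg u i 0)
  have e2 := congrFun this (eg u k 0)
  simp only [gr_eg, cut_eg, hPu, hQu, zero_mul, add_zero, hi, hk] at e1 e2
  rw [← e2] at e1
  simp at e1

theorem Real.eq_of_psi (hv : Real v) (hn : 5 ≤ n) {T C : Set (A n p L R)} {m : ℕ} (hm : 0 < m)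
    (h : Psi (fun X => ((lift v (KK n p L R)).restrict T).Indep (X ∪ C)) (T \ C) m) : m = n := by
  have hC : C ⊆ T := by
    obtain ⟨a, b, c, d, B, -, -, -, -, -, h1, -⟩ := h
    exact subset_union_right.trans
      (Matroid.restrict_indep_iff.1 (h1 a (by simp) a (by simp))).2
  obtain ⟨D, hinj, hsum, hD⟩ := h.analyse (v := v) (K := KK n p L R) (fun X hX => by
    rw [Matroid.restrict_indep_iff, lift_indep,
      and_iff_left (union_subset (hX.trans sdiff_subset) hC)])
  choose j hj using fun i => hv.minimal hn (hD i).1 (hD i).2.1 (hD i).2.2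
  have hji : Function.Injective j := fun a b hab => hinj (by rw [hj, hj, hab])
  simp only [hj, ← map_sum] at hsum
  have hsurj : Function.Surjective j := by
    intro u
    by_contra hu
    push Not at hu
    have := congrFun hsum (eg u (j ⟨0, hm⟩) 0)
    rw [cut_eg, Finset.sum_apply, Finset.sum_apply,
      Finset.sum_eq_zero (fun i _ => Pi.single_eq_of_ne (hu i).symm _),
      Finset.sum_eq_single ⟨0, hm⟩
        (fun i _ hi => Pi.single_eq_of_ne (fun h => hi (hji h).symm) _) (by simp)] at this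
    simp at this
  simpa using Fintype.card_of_bijective ⟨hji, hsurj⟩

end Pool.Agent.H28.Anti
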