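import Mathlib
import Pool.Agent.H28.Anti4

set_option autoImplicit false
set_option linter.unusedSectionVars false

namespace Pool.Agent.H28.Anti

open Set Pool.Agent.H28.Lift Pool.Agent.H28.Inter

variable {n p L R : ℕ} {v : A n p L R → Fin R → F}

theorem Real.cyc_pair (hv : Real v) {x y : Fin p} {W : Set (A n p L R)}
    (hx : ∀ t, pa x t ∈ W) (hy : ∀ t, pa y t ∈ W) :
    Cyc v W (path (Pi.single x 1 + Pi.single y 1)) := by
  refine hv.cyc_path (by simp [Finset.sum_add_distrib, F_add_self]) fun q t h => ?_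
  by_cases h1 : q = x
  · rw [h1]; exact hx t
  by_cases h2 : q = y
  · rw [h2]; exact hy t
  simp [h1, h2] at h

theorem Real.phi (hv : Real v) (hn : 5 ≤ n) (hn2 : Even n) (hp : 4 ≤ p) {T : Set (A n p L R)}
    (hT : range Sum.inl ⊆ T) : Phi ((lift v (KK n p L R)).restrict T) n := by
  set C : Set (A n p L R) := {e | ∃ q t, t ≠ 0 ∧ e = pa q t} with hC
  have hCi : C ⊆ range Sum.inl := by rintro _ ⟨q, t, -, rfl⟩; exact mem_range_self _
  have hC0 : ∀ q, pa q 0 ∉ C := by rintro q ⟨q', t, ht, h⟩; simp [ht.symm] at h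
  have hCe : ∀ i j t, eg i j t ∉ C := by rintro i j t ⟨q', t, ht, h⟩; simp at h
  have hmem : ∀ q t (X : Set (A n p L R)), pa q 0 ∈ X → pa q t ∈ X ∪ C := by
    intro q t X h
    by_cases ht : t = 0
    · exact Or.inl (ht ▸ h)
    · exact Or.inr ⟨q, t, ht, rfl⟩
  have hI : ∀ X ⊆ range Sum.inl, ((lift v (KK n p L R)).restrict T).Indep (X ∪ C) ↔
      LI v (KK n p L R) (X ∪ C) := fun X hX => by
    rw [Matroid.restrict_indep_iff, lift_indep, and_iff_left ((union_subset hX hCi).trans hT)]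
  have hE : ∀ q, pa q 0 ∈ T \ C := fun q => ⟨hT (mem_range_self _), hC0 q⟩
  have h3 : ∀ c a b : Fin p, c ≠ a → c ≠ b → a ≠ b →
      ¬ ((lift v (KK n p L R)).restrict T).Indep ({pa c 0, pa a 0, pa b 0} ∪ C) := by
    intro c a b hca hcb hab h
    rw [hI _ (by rintro _ (rfl | rfl | rfl) <;> exact mem_range_self _)] at h
    have := h.2 _ _ (hv.cyc_pair (x := c) (y := a) (fun t => hmem _ _ _ (by simp))
      (fun t => hmem _ _ _ (by simp))) (hv.cyc_pair (x := c) (y := b)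
      (fun t => hmem _ _ _ (by simp)) (fun t => hmem _ _ _ (by simp)))
      (fun h => by simpa [hca] using congrFun h (pa c 0))
      (fun h => by simpa [hcb] using congrFun h (pa c 0))
    simpa [hca.symm, hab] using congrFun this (pa a 0)
  set B : Fin n → Set (A n p L R) := fun j => {e | cut (Pi.single j 1) e ≠ 0} with hB
  have hBi : ∀ j, B j ⊆ range Sum.inl := by
    rintro j (e | x) h
    · exact mem_range_self _
    · exact (h rfl).elim
  have hBe : ∀ j i l t, eg i l t ∈ B j ↔ (i = j ∨ l = j) ∧ i ≠ l := by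
    intro j i l t
    simp only [hB, mem_ofPred_eq, cut_eg]
    by_cases h1 : i = j <;> by_cases h2 : l = j
    · simp [h1, h2, F_add_self]
    · simp [h1, h2, Ne.symm h2]
    · simp [h1, h2]
    · simp [h1, h2]
  have hBp : ∀ j q t, pa q t ∉ B j := fun j q t h => h rfl
  refine ⟨C, hCi.trans hT, pa ⟨0, by omega⟩ 0, pa ⟨1, by omega⟩ 0, pa ⟨2, by omega⟩ 0,
    pa ⟨3, by omega⟩ 0, B, hE _, hE _, hE _, hE _, by simp, ?_, h3 _ _ _ (by simp) (by simp) (by simp),
    h3 _ _ _ (by simp) (by simp) (by simp), fun j e he => ⟨hT (hBi j he), ?_⟩, fun j => hBp j _ _,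
    fun j => hBp j _ _, fun j => ?_, fun j h => ?_, fun j x hx => ?_, fun j j' h => ?_, ?_⟩
  · have key : ∀ x ∈ ({pa ⟨0, by omega⟩ 0, pa ⟨1, by omega⟩ 0, pa ⟨2, by omega⟩ 0,
        pa ⟨3, by omega⟩ 0} : Set (A n p L R)), ∃ q, x = pa q 0 := by
      rintro _ (rfl | rfl | rfl | rfl) <;> exact ⟨_, rfl⟩
    intro x hx y hy
    obtain ⟨x, rfl⟩ := key x hx
    obtain ⟨y, rfl⟩ := key y hy
    have hs : ({pa x 0, pa y 0} : Set (A n p L R)) ⊆ range Sum.inl := by
      rintro _ (rfl | rfl) <;> exact mem_range_self _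
    refine (hI _ hs).2 (hv.li_two (union_subset hs hCi) (fun z hz i j =>
      hz.eq_zero_of_notMem (by simp [hCe])) x y fun q h => by simpa [hC0] using h)
  · rintro ⟨q, t, -, rfl⟩
    exact hBp j q t he
  · obtain ⟨u, hu, -⟩ := exists_ne hn j j j j
    exact ⟨eg u j 0, (hBe _ _ _ _).2 ⟨Or.inr rfl, hu⟩⟩
  · obtain ⟨u, hu, -⟩ := exists_ne hn j j j j
    have := ((hI _ (hBi j)).1 h).1 _ ((hv.cyc_cut hn2 _).mono subset_union_left) ⟨_, rfl⟩
    simpa [hu] using congrFun this (eg u j 0)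
  · have hs : insert (pa ⟨0, by omega⟩ 0) (insert (pa ⟨1, by omega⟩ 0) (B j \ {x})) ⊆
        range Sum.inl := insert_subset (mem_range_self _) (insert_subset (mem_range_self _)
          (sdiff_subset.trans (hBi j)))
    refine (hI _ hs).2 (hv.li_two (union_subset hs hCi) (fun z hz => ?_) ⟨0, by omega⟩
      ⟨1, by omega⟩ fun q h => by simpa [hC0, hBp] using h)
    obtain ⟨g1, g2, -⟩ := hv.good (union_subset hs hCi) hz
    have h1 : ∀ i l, eg i l 0 ∈ insert (pa ⟨0, by omega⟩ 0) (insert (pa ⟨1, by omega⟩ 0)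
        (B j \ {x})) ∪ C → i = j ∨ l = j := fun i l h => by
      simp only [mem_union, mem_insert_iff, hCe, or_false] at h
      obtain h | h | h := h
      · simp at h
      · simp at h
      · exact ((hBe _ _ _ _).1 h.1).1
    rcases x with ⟨⟨i, l⟩ | q, t⟩ | x
    · have hz0 : z (eg i l 0) = 0 :=
        (g1 _ t).symm.trans (hz.eq_zero_of_notMem (e := eg i l t) (by simp [hCe]))
      obtain ⟨rfl | rfl, hil⟩ := (hBe _ _ _ _).1 hx
      · exact hv.star (union_subset hs hCi) hz i h1 l hil.symm ((g2 l i).trans hz0)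
      · exact hv.star (union_subset hs hCi) hz l h1 i hil hz0
    · exact (hBp j q t hx).elim
    · exact (hx rfl).elim
  · obtain ⟨u, hu, hu', -⟩ := exists_ne hn j j' j j
    have : eg u j 0 ∈ B j' := h ▸ (hBe _ _ _ _).2 ⟨Or.inr rfl, hu⟩
    exact ((hBe _ _ _ _).1 this).1.resolve_left hu'
  · rintro (⟨⟨i, l⟩ | q, t⟩ | x)
    · by_cases hil : i = l
      · have : {j | eg i l t ∈ B j} = ∅ := by ext j; simp [hBe, hil]
        rw [this]; simp
      · have : {j | eg i l t ∈ B j} = {i, l} := by ext j; simp [hBe, hil, eq_comm]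
        rw [this, ncard_pair hil]; simp
    · have : {j | pa q t ∈ B j} = ∅ := by ext j; simp [hBp]
      rw [this]; simp
    · have : {j | Sum.inr x ∈ B j} = ∅ := by ext j; simp [hB]
      rw [this]; simp

theorem Real.unb (hv : Real v) {k : ℕ} (hp : k + 2 ≤ p) {S : Set (A n p L R)}
    (hS : range Sum.inl ⊆ S) (X : Set (A n p L R)) (hX : X.ncard ≤ k) :
    ∃ W ⊆ S \ X, LI v (KK n p L R) W ∧ ¬ NI v W := by
  let φ : A n p L R → Fin p :=
    Sum.elim (fun e => Sum.elim (fun _ => ⟨0, by omega⟩) id e.1) fun _ => ⟨0, by omega⟩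
  have h1 := ncard_add_ncard_compl (φ '' X)
  have h2 := ncard_image_le (f := φ) (toFinite X)
  rw [Nat.card_eq_fintype_card, Fintype.card_fin] at h1
  obtain ⟨x, y, hx, hy, hxy⟩ := (one_lt_ncard_iff (toFinite (φ '' X)ᶜ)).1 (by omega)
  have hs : {e | ∃ t, e = pa x t ∨ e = pa y t} ⊆ (range Sum.inl : Set (A n p L R)) := by
    rintro _ ⟨t, rfl | rfl⟩ <;> exact mem_range_self _
  refine ⟨_, fun e he => ⟨hS (hs he), ?_⟩, hv.li_two hs
    (fun z hz i j => hz.eq_zero_of_notMem (by simp)) x y fun q h => ?_, fun h => ?_⟩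
  · obtain ⟨t, rfl | rfl⟩ := he
    · exact fun h => hx ⟨_, h, rfl⟩
    · exact fun h => hy ⟨_, h, rfl⟩
  · obtain ⟨t, h | h⟩ := h <;> simp_all
  · have := h _ (hv.cyc_pair (x := x) (y := y) (fun t => ⟨t, Or.inl rfl⟩)
      fun t => ⟨t, Or.inr rfl⟩)
    simpa [hxy] using congrFun this (pa x 0)

theorem Real.girth (hv : Real v) (X : Set (A n p L R)) (hX : X ⊆ range Sum.inl)
    (hc : X.ncard ≤ L) : NI v X := by
  intro z hz
  by_contra h0
  obtain ⟨⟨x, t⟩ | u, hx⟩ := exists_one h0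
  · obtain ⟨g1, -⟩ := hv.good hX hz
    have h1 : range (fun t : Fin (L + 1) => (Sum.inl (x, t) : A n p L R)) ⊆ X := by
      rintro _ ⟨t', rfl⟩
      exact hz.1 _ (F_ne.2 ((g1 x t').trans ((g1 x t).symm.trans hx)))
    have h2 := ncard_le_ncard h1 (toFinite _)
    rw [ncard_range_of_injective (fun a b h => by simpa using h)] at h2
    simp at h2
    omega
  · simp [Real.inr hX hz u] at hx

theorem Real.sep_one (hv : Real v) (hn : 0 < n) (hp : 0 < p) :
    Sep (rk (lift v (KK n p L R))) (range Sum.inl) 1 := by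
  set o : A n p L R := eg ⟨0, hn⟩ ⟨0, hn⟩ 0 with ho
  refine ⟨{o}, singleton_subset_iff.2 (mem_range_self _), by simp, ?_, ?_⟩
  · exact (ncard_pos (toFinite _)).2 ⟨pa ⟨0, hp⟩ 0, mem_range_self _, by simp [ho]⟩
  · obtain ⟨I, hI⟩ := (lift v (KK n p L R)).exists_isBasis' (range Sum.inl \ {o})
    have h1 := hI.encard_eq_eRk
    rw [← cast_rk, ← (toFinite I).cast_ncard_eq, Nat.cast_inj] at h1
    have hs : insert o I ⊆ range Sum.inl :=
      insert_subset (mem_range_self _) (hI.subset.trans sdiff_subset)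
    have h2 := ncard_le_rk (lift_indep.2 ((lift_indep.1 hI.indep).insert_of
      fun z hz => (hv.good hs hz).2.2.1 _)) hs
    rw [ncard_insert_of_notMem (fun h => (hI.subset h).2 rfl) (toFinite _)] at h2
    have h3 := (isRk (lift v (KK n p L R))).unit o ∅
    rw [rk_empty, insert_empty_eq] at h3
    omega

theorem exists_member (k : ℕ) : ∃ (α : Type) (M : Matroid α), M.Finite ∧ TutteConn M (k + 1) ∧
    Phi M (2 * k + 6) ∧
    (∀ m C, 0 < m → Psi (fun X => M.Indep (X ∪ C)) (M.E \ C) m → m = 2 * k + 6) ∧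
    ¬ HasMinor M (unif 3 20) := by
  classical
  obtain ⟨R, h1, h2, h3⟩ := exists_R (Fintype.card (E0 (2 * k + 6) (k + 4) (2 * k + 2))) (k + 2)
  obtain ⟨v, hv, hσ⟩ := exists_real h1
  have hS₀ : ((Finset.univ.map Function.Embedding.inl : Finset (A (2 * k + 6) (k + 4) (2 * k + 2) R)) :
      Set (A (2 * k + 6) (k + 4) (2 * k + 2) R)) = range Sum.inl := by
    ext e; simp
  obtain ⟨S, h4, h5, h6⟩ := exists_round v Sum.inr hσ (k + 2)
    (Finset.univ.map Function.Embedding.inl)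
    (girth_of_ni fun X hX hc => hv.girth X (hS₀ ▸ hX) (by omega)) h2 (by simpa using h3)
  have h7 : range Sum.inl ⊆ (S : Set (A (2 * k + 6) (k + 4) (2 * k + 2) R)) :=
    hS₀ ▸ Finset.coe_subset.2 h4
  obtain ⟨T, h8, -, h9⟩ := chain (isRk (lift v (KK _ _ _ _))) h7 (k := k + 1) (by omega)
    (hv.sep_one (by omega) (by omega)) (by
      rw [ncard_range_of_injective Sum.inl_injective]
      simp only [Nat.card_eq_fintype_card, Fintype.card_prod, Fintype.card_sum, Fintype.card_fin]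
      nlinarith [Nat.zero_le ((2 * k + 6) * (2 * k + 6) * (2 * k + 2 + 1)), Nat.zero_le (k * k)])
    (fun j _ hj => not_sep h5 h6 (hv.unb (by omega) h7) j hj)
  refine ⟨_, (lift v (KK _ _ _ _)).restrict T, ⟨toFinite _⟩, ?_,
    hv.phi (by omega) ⟨k + 3, by omega⟩ (by omega) h8,
    fun m C hm h => hv.eq_of_psi (by omega) hm h, no_unif T⟩
  simpa only [TutteConn, hasSep_iff] using h9

theorem main : ∃ (α : ℕ → Type) (M : ∀ i, Matroid (α i)), (∀ i, (M i).Finite) ∧
    (∀ i j, i ≠ j → ¬ HasMinor (M i) (M j)) ∧ (∀ k, 1 ≤ k → ∃ i, TutteConn (M i) k) ∧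
    ∀ i, ¬ HasMinor (M i) (unif 3 20) := by
  choose α M h1 h2 h3 h4 h5 using exists_member
  refine ⟨α, M, h1, fun i j hij h => ?_, fun k hk => ⟨k - 1, ?_⟩, h5⟩
  · obtain ⟨C, hC⟩ := Phi.of_minor h (h3 j)
    have := h4 i _ C (by omega) hC
    omega
  · have := h2 (k - 1)
    rwa [Nat.sub_add_cancel hk] at this

end Pool.Agent.H28.Anti
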