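import Mathlib

set_option autoImplicit false

/-! Deletion-contraction evaluation of rank generating sums of binary vector families. -/

namespace Pool.Agent.H28.BinRank

open Submodule Module

/-- the binary vector coded by a natural number -/
def vec (m : ℕ) (n : ℕ) : Fin m → ZMod 2 := fun i => if n.testBit i then 1 else 0

theorem vec_xor (m a b : ℕ) : vec m (a ^^^ b) = vec m a + vec m b := by
  funext i
  simp only [vec, Nat.testBit_xor, Pi.add_apply]
  cases a.testBit i <;> cases b.testBit i <;> decide

theorem vec_zero (m : ℕ) : vec m 0 = 0 := by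
  funext i
  simp [vec]

def red (x y : ℕ) : ℕ := if y.testBit x.log2 then y ^^^ x else y

theorem red_lt {m x y : ℕ} (hx : x < 2 ^ m) (hy : y < 2 ^ m) : red x y < 2 ^ m := by
  unfold red
  split_ifs
  · exact Nat.xor_lt_two_pow hy hx
  · exact hy

theorem finrank_insert {K V : Type*} [Field K] [AddCommGroup V] [Module K V] [FiniteDimensional K V]
    (f : V →ₗ[K] K) (v : V) (hv : f v = 1) (A : Set V) :
    finrank K (span K (insert v A)) =
      finrank K (span K ((LinearMap.id - f.smulRight v : V →ₗ[K] V) '' A)) + 1 := by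
  set π : V →ₗ[K] V := LinearMap.id - f.smulRight v with hπ
  have hv0 : v ≠ 0 := by
    rintro rfl
    simp at hv
  have hsup : span K (insert v A) = span K (π '' A) ⊔ span K {v} := by
    apply le_antisymm
    · rw [span_le]
      rintro a (rfl | ha)
      · exact mem_sup_right (mem_span_singleton_self _)
      · have : a = π a + f a • v := by simp [hπ]
        rw [SetLike.mem_coe, this]
        exact add_mem (mem_sup_left (subset_span ⟨a, ha, rfl⟩))
          (mem_sup_right (smul_mem _ _ (mem_span_singleton_self _)))
    · refine sup_le (span_le.2 ?_) (span_mono (by simp))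
      rintro _ ⟨a, ha, rfl⟩
      exact sub_mem (subset_span (Or.inr ha)) (smul_mem _ _ (subset_span (Or.inl rfl)))
  have hn : v ∉ span K (π '' A) := by
    intro h
    have : span K (π '' A) ≤ LinearMap.ker f := by
      rw [span_le]
      rintro _ ⟨a, -, rfl⟩
      simp [hπ, hv]
    have := this h
    rw [LinearMap.mem_ker, hv] at this
    exact one_ne_zero this
  have h1 := Submodule.finrank_sup_add_finrank_inf_eq (span K (π '' A)) (span K {v})
  rw [disjoint_iff.1 ((Submodule.disjoint_span_singleton' hv0).2 hn), finrank_bot,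
    finrank_span_singleton hv0] at h1
  rw [hsup]
  omega

theorem finrank_red {ι : Type*} {m x : ℕ} (hx : x < 2 ^ m) (hx0 : x ≠ 0) (c : ι → ℕ) (X : Set ι) :
    finrank (ZMod 2) (span (ZMod 2) (insert (vec m x) ((fun i => vec m (c i)) '' X))) =
      finrank (ZMod 2) (span (ZMod 2) ((fun i => vec m (red x (c i))) '' X)) + 1 := by
  have hl : x.log2 < m := (Nat.log2_lt hx0).2 hx
  have hb : x.testBit x.log2 = true := Nat.testBit_log2 hx0
  rw [finrank_insert (LinearMap.proj (⟨x.log2, hl⟩ : Fin m)) (vec m x) (by simp [vec, hb]),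
    Set.image_image]
  refine congrArg (fun h : ι → Fin m → ZMod 2 => finrank (ZMod 2) (span (ZMod 2) (h '' X)) + 1) ?_
  funext i
  simp only [LinearMap.sub_apply, LinearMap.id_apply, LinearMap.smulRight_apply,
    LinearMap.proj_apply, red]
  split_ifs with h
  · rw [vec_xor]
    simp only [vec, h, if_true, one_smul]
    funext t
    exact CharTwo.sub_eq_add _ _
  · simp [vec, h]

/-- `a - b` on coefficient lists -/
def psub : List ℤ → List ℤ → List ℤ
  | [], b => b.map (fun t => -t)
  | a, [] => a
  | s :: a, t :: b => (s - t) :: psub a b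

/-- evaluation of a coefficient list -/
def ev {R : Type*} [CommRing R] : List ℤ → (ℕ → R) → R
  | [], _ => 0
  | s :: a, g => s * g 0 + ev a (fun k => g (k + 1))

theorem ev_neg {R : Type*} [CommRing R] (b : List ℤ) : ∀ g : ℕ → R,
    ev (b.map (fun t => -t)) g = - ev b g := by
  induction b with
  | nil => simp [ev]
  | cons t b ih => intro g; simp [ev, ih]; ring

theorem ev_psub {R : Type*} [CommRing R] (a : List ℤ) : ∀ (b : List ℤ) (g : ℕ → R),
    ev (psub a b) g = ev a g - ev b g := by
  induction a with
  | nil => intro b g; simp [psub, ev_neg, ev]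
  | cons s a ih =>
    intro b g
    cases b with
    | nil => simp [psub, ev]
    | cons t b => simp only [psub, ev, ih]; push_cast; ring

/-- signed counts of subfamilies by rank -/
def cf : ℕ → List ℕ → List ℤ
  | _, [] => [1]
  | 0, _ => []
  | n + 1, x :: l => if (x :: l).any (· == 0) then [] else
      psub (cf n l) (0 :: cf n (l.map (red x)))

theorem sum_zero {ι R : Type*} [DecidableEq ι] [CommRing R] {m : ℕ} (c : ι → ℕ) (g : ℕ → R)
    (T : Finset ι) {j : ι} (hj : j ∈ T) (h0 : c j = 0) :
    ∑ X ∈ T.powerset, (-1 : R) ^ X.card *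
      g (finrank (ZMod 2) (span (ZMod 2) ((fun i => vec m (c i)) '' (X : Set ι)))) = 0 := by
  rw [← Finset.insert_erase hj, Finset.sum_powerset_insert (Finset.notMem_erase _ _),
    ← Finset.sum_add_distrib]
  refine Finset.sum_eq_zero fun X hX => ?_
  have hjX : j ∉ X := fun h => Finset.notMem_erase _ _ (Finset.mem_powerset.1 hX h)
  rw [Finset.card_insert_of_notMem hjX, Finset.coe_insert, Set.image_insert_eq, h0, vec_zero,
    span_insert_zero]
  ring

theorem sum_eq_cf {ι R : Type*} [DecidableEq ι] [CommRing R] {m : ℕ} (I : List ι) (hI : I.Nodup) :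
    ∀ (n : ℕ) (c : ι → ℕ) (g : ℕ → R), I.length ≤ n → (∀ i, c i < 2 ^ m) →
    ∑ X ∈ I.toFinset.powerset, (-1 : R) ^ X.card *
      g (finrank (ZMod 2) (span (ZMod 2) ((fun i => vec m (c i)) '' (X : Set ι)))) =
        ev (cf n (I.map c)) g := by
  induction I with
  | nil =>
    intro n c g _ _
    have : span (ZMod 2) ((fun i => vec m (c i)) '' ((∅ : Finset ι) : Set ι)) = ⊥ := by simp
    simp only [List.toFinset_nil, Finset.powerset_empty, Finset.sum_singleton]
    rw [this, finrank_bot]
    cases n <;> simp [cf, ev]
  | cons j I ih =>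
    intro n c g hn hc
    obtain ⟨n, rfl⟩ : ∃ k, n = k + 1 := ⟨n - 1, by simp at hn; omega⟩
    rw [List.nodup_cons] at hI
    rw [List.map_cons, cf]
    split_ifs with h
    · rw [← List.map_cons, List.any_map, List.any_eq_true] at h
      obtain ⟨i, hi, h0⟩ := h
      rw [sum_zero c g _ (List.mem_toFinset.2 hi) (by simpa using h0), ev]
    · have hj0 : c j ≠ 0 := fun h0 => h (by simp [h0])
      have hjI : j ∉ I.toFinset := by simpa using hI.1
      have hn' : I.length ≤ n := by simpa using hn
      rw [List.toFinset_cons, Finset.sum_powerset_insert hjI, ev_psub, ← ih hI.2 n c g hn' hc,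
        List.map_map, ev]
      simp only [Int.cast_zero, zero_mul, zero_add]
      rw [← ih hI.2 n (red (c j) ∘ c) _ hn' (fun i => red_lt (hc j) (hc i)), sub_eq_add_neg,
        ← Finset.sum_neg_distrib]
      congr 1
      refine Finset.sum_congr rfl fun X hX => ?_
      have hjX : j ∉ X := fun h => hjI (Finset.mem_powerset.1 hX h)
      rw [Finset.card_insert_of_notMem hjX, Finset.coe_insert, Set.image_insert_eq,
        finrank_red (hc j) hj0]
      simp only [Function.comp]
      ring

end Pool.Agent.H28.BinRank
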