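import Mathlib

set_option autoImplicit false

/-! Maximal ergodic lemma, pointwise ergodic theorem, integrability of the maximal function. -/

namespace Pool.Agent.H28.Birk

open MeasureTheory Filter Topology Set
open scoped ENNReal

variable {X : Type*} {T : X → X} {φ : X → ℝ}

/-- `max (0, S_1, ..., S_n)`. -/
noncomputable def M (T : X → X) (φ : X → ℝ) : ℕ → X → ℝ
  | 0 => fun _ => 0
  | n + 1 => fun x => max 0 (φ x + M T φ n (T x))

lemma M_nonneg (n : ℕ) (x : X) : 0 ≤ M T φ n x := by cases n <;> simp [M]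

lemma M_mono (n : ℕ) (x : X) : M T φ n x ≤ M T φ (n + 1) x := by
  induction n generalizing x with
  | zero => exact M_nonneg _ _
  | succ n ih => exact max_le_max le_rfl (by linarith [ih (T x)])

lemma S_le (n : ℕ) (x : X) : birkhoffSum T φ n x ≤ M T φ n x := by
  induction n generalizing x with
  | zero => simp [M]
  | succ n ih => rw [birkhoffSum_succ']; exact le_max_of_le_right (by linarith [ih (T x)])

variable [MeasurableSpace X] {μ : Measure X}

lemma M_meas (hT : Measurable T) (h : Measurable φ) (n : ℕ) : Measurable (M T φ n) := by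
  induction n with
  | zero => exact measurable_const
  | succ n ih => exact measurable_const.max (h.add (ih.comp hT))

lemma M_int (hT : MeasurePreserving T μ μ) (h : Integrable φ μ) (n : ℕ) : Integrable (M T φ n) μ := by
  induction n with
  | zero => exact integrable_zero _ _ _
  | succ n ih => exact (integrable_zero _ _ _).sup (h.add (hT.integrable_comp_of_integrable ih))

lemma E_meas (hT : Measurable T) (h : Measurable φ) : MeasurableSet (⋃ n, {x | 0 < M T φ n x}) :=
  .iUnion fun n => measurableSet_lt measurable_const (M_meas hT h n)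

lemma garsia (hT : MeasurePreserving T μ μ) (hm : Measurable φ) (hi : Integrable φ μ) :
    0 ≤ ∫ x in ⋃ n, {x | 0 < M T φ n x}, φ x ∂μ := by
  have hs : ∀ n, MeasurableSet {x | 0 < M T φ n x} := fun n =>
    measurableSet_lt measurable_const (M_meas hT.measurable hm n)
  refine ge_of_tendsto' (tendsto_setIntegral_of_monotone hs
    (monotone_nat_of_le_succ fun n x hx => lt_of_lt_of_le hx (M_mono n x)) hi.integrableOn) fun n => ?_
  rcases n with _ | n
  · simp [M]
  have h1 := M_int hT hi n
  have h2 := M_int hT hi (n + 1)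
  have h3 : ∫ x, M T φ n (T x) ∂μ = ∫ x, M T φ n x ∂μ := by
    rw [← integral_map hT.measurable.aemeasurable (M_meas hT.measurable hm n).aestronglyMeasurable,
      hT.map_eq]
  have h4 := integral_mono h1 h2 (M_mono n)
  have h5 := integral_sub h2 (hT.integrable_comp_of_integrable h1)
  rw [← integral_indicator (hs _)]
  refine le_trans ?_ (integral_mono (h2.sub (hT.integrable_comp_of_integrable h1)) (hi.indicator (hs _))
    fun x => ?_)
  · simp only [Function.comp_apply, Pi.sub_apply] at h5 ⊢
    linarith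
  · have := M_nonneg (T := T) (φ := φ) n (T x)
    by_cases h : 0 < M T φ (n + 1) x
    · rw [indicator_of_mem (by exact h)]
      simp only [M, lt_max_iff, lt_irrefl, false_or, Pi.sub_apply, Function.comp_apply] at h ⊢
      rw [max_eq_right h.le]; linarith
    · rw [indicator_of_notMem (by exact h)]
      simp only [Pi.sub_apply, Function.comp_apply]
      linarith [not_lt.1 h]

variable [IsFiniteMeasure μ]

lemma up (hT : MeasurePreserving T μ μ) (hm : Measurable φ) (hi : Integrable φ μ)
    (h0 : ∀ A, MeasurableSet A → T ⁻¹' A = A → ∫ x in A, φ x ∂μ = 0) {ε : ℝ} (hε : 0 < ε) :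
    ∀ᵐ x ∂μ, ∃ C, ∀ n : ℕ, birkhoffSum T φ n x ≤ C + n * ε := by
  set ψ : X → ℝ := fun x => φ x - ε
  have hψ : Measurable ψ := hm.sub_const ε
  have hψi : Integrable ψ μ := hi.sub (integrable_const ε)
  set A := {x | BddAbove (range fun n => M T ψ n x)}ᶜ
  have hA : MeasurableSet A := (measurableSet_bddAbove_range (M_meas hT.measurable hψ)).compl
  have hA' : T ⁻¹' A = A := by
    ext x
    refine not_congr ⟨fun ⟨C, h⟩ => ⟨max 0 (ψ x + C), forall_mem_range.2 fun n => ?_⟩,
      fun ⟨C, h⟩ => ⟨C - ψ x, forall_mem_range.2 fun n => ?_⟩⟩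
    · exact (M_mono n x).trans (max_le_max le_rfl (by linarith [h (mem_range_self n)]))
    · linarith [(le_max_right _ _).trans (h (mem_range_self (n + 1)))]
  have h1 := hT.restrict_preimage hA
  rw [hA'] at h1
  have h2 := garsia h1 hψ hψi.integrableOn
  rw [Measure.restrict_restrict (E_meas hT.measurable hψ), inter_eq_right.2, integral_sub hi.integrableOn
    (integrable_const ε), h0 A hA hA'] at h2
  · have h3 : μ.real A = 0 := by
      simp only [integral_const, smul_eq_mul, measureReal_restrict_apply_univ] at h2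
      nlinarith [measureReal_nonneg (μ := μ) (s := A)]
    rw [measureReal_eq_zero_iff] at h3
    filter_upwards [measure_eq_zero_iff_ae_notMem.1 h3] with x hx
    obtain ⟨C, h⟩ := not_not.1 hx
    refine ⟨C, fun n => ?_⟩
    have := (S_le n x).trans (h (mem_range_self n))
    simp only [birkhoffSum, ψ, Finset.sum_sub_distrib, Finset.sum_const, Finset.card_range,
      nsmul_eq_mul] at this ⊢
    linarith
  · intro x hx
    by_contra h
    simp only [mem_iUnion, mem_ofPred_eq, not_exists, not_lt] at h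
    exact hx ⟨0, forall_mem_range.2 h⟩

lemma zero (hT : MeasurePreserving T μ μ) (hm : Measurable φ) (hi : Integrable φ μ)
    (h0 : ∀ A, MeasurableSet A → T ⁻¹' A = A → ∫ x in A, φ x ∂μ = 0) :
    ∀ᵐ x ∂μ, Tendsto (fun n => birkhoffAverage ℝ T φ n x) atTop (𝓝 0) := by
  have h1 := fun k : ℕ => up hT hm hi h0 (Nat.one_div_pos_of_nat (n := k))
  have h2 := fun k : ℕ => up (φ := -φ) hT hm.neg hi.neg
    (fun A a b => by simp [integral_neg, h0 A a b]) (Nat.one_div_pos_of_nat (n := k))
  filter_upwards [ae_all_iff.2 h1, ae_all_iff.2 h2] with x h1 h2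
  rw [Metric.tendsto_nhds]
  intro ε hε
  obtain ⟨k, hk⟩ := exists_nat_one_div_lt (half_pos hε)
  obtain ⟨C, h1⟩ := h1 k
  obtain ⟨D, h2⟩ := h2 k
  filter_upwards [(tendsto_const_div_atTop_nhds_zero_nat (max C D)).eventually (gt_mem_nhds (half_pos hε)),
    eventually_gt_atTop 0] with n h3 h4
  have h5 : (0 : ℝ) < n := by exact_mod_cast h4
  have h6 := h1 n
  have h7 := h2 n
  rw [birkhoffSum_neg] at h7
  rw [div_lt_iff₀ h5] at h3
  rw [Real.dist_eq, sub_zero, birkhoffAverage, smul_eq_mul, abs_mul, abs_inv, abs_of_pos h5,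
    inv_mul_lt_iff₀ h5, abs_lt]
  constructor <;> nlinarith [le_max_left C D, le_max_right C D]

/-- The pointwise ergodic theorem. -/
lemma birkhoff (hT : MeasurePreserving T μ μ) (hm : Measurable φ) (hi : Integrable φ μ) :
    ∀ᵐ x ∂μ, Tendsto (fun n => birkhoffAverage ℝ T φ n x) atTop
      (𝓝 (μ[φ | MeasurableSpace.invariants T] x)) := by
  have hle := MeasurableSpace.invariants_le T
  have hg : Measurable[MeasurableSpace.invariants T] μ[φ | MeasurableSpace.invariants T] :=
    stronglyMeasurable_condExp.measurable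
  have h1 := zero (φ := φ - μ[φ | MeasurableSpace.invariants T]) hT (hm.sub (hg.mono hle le_rfl))
    (hi.sub integrable_condExp) fun A a b => by
      simp only [Pi.sub_apply]
      rw [integral_sub hi.integrableOn integrable_condExp.integrableOn,
        setIntegral_condExp hle hi ⟨a, b⟩, sub_self]
  filter_upwards [h1] with x hx
  rw [← tendsto_sub_nhds_zero_iff]
  refine hx.congr' ((eventually_ne_atTop 0).mono fun n hn => ?_)
  rw [birkhoffAverage_sub, Pi.sub_apply, Pi.sub_apply, birkhoffAverage_of_comp_eq ℝ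
    (MeasurableSpace.comp_eq_of_measurable_invariants hg) (by exact_mod_cast hn)]

lemma weak (hT : MeasurePreserving T μ μ) (hm : Measurable φ) {p : ℝ} (hp : 1 ≤ p)
    (hi : Integrable (fun x => |φ x| ^ p) μ) {t : ℝ} (ht : 0 < t) :
    μ {x | 2 * t < ⨆ k, |birkhoffAverage ℝ T φ k x|} ≤
      ENNReal.ofReal ((∫ x, |φ x| ^ p ∂μ) * t ^ (-p)) := by
  set ψ : X → ℝ := fun x => |φ x| ^ p - t ^ p
  have hψ : Measurable ψ := by fun_prop
  have h1 := garsia hT hψ (hi.sub (integrable_const _))
  have h2 := Real.rpow_pos_of_pos ht p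
  rw [integral_sub hi.integrableOn (integrable_const _)] at h1
  have h3 := setIntegral_le_integral (s := ⋃ n, {x | 0 < M T ψ n x}) hi
    (.of_forall fun x => Real.rpow_nonneg (abs_nonneg _) _)
  simp only [integral_const, smul_eq_mul, measureReal_restrict_apply_univ] at h1
  refine (measure_mono (t := ⋃ n, {x | 0 < M T ψ n x}) fun x hx => ?_).trans ?_
  · obtain ⟨k, hk⟩ := exists_lt_of_lt_ciSup (show 2 * t < ⨆ k, |birkhoffAverage ℝ T φ k x| from hx)
    refine mem_iUnion.2 ⟨k, lt_of_lt_of_le ?_ (S_le k x)⟩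
    rcases k.eq_zero_or_pos with rfl | h4
    · simp at hk; linarith
    have h5 : (0 : ℝ) < k := by exact_mod_cast h4
    rw [birkhoffAverage, smul_eq_mul, abs_mul, abs_inv, abs_of_pos h5, lt_inv_mul_iff₀ h5] at hk
    have h6 : ∀ y, t ^ p * |φ y| ≤ t * ψ y + 2 * t * t ^ p := fun y => by
      have h7 := Real.rpow_nonneg (abs_nonneg (φ y)) p
      rcases le_total |φ y| t with h | h
      · simp only [ψ]; nlinarith
      · have h8 := Real.rpow_le_rpow ht.le h (sub_nonneg.2 hp)
        have h9 := ht.trans_le h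
        rw [Real.rpow_sub_one ht.ne', Real.rpow_sub_one h9.ne', div_le_div_iff₀ ht h9] at h8
        simp only [ψ]; nlinarith
    have h7 := Finset.sum_le_sum fun j (_ : j ∈ Finset.range k) => h6 (T^[j] x)
    have h8 := Finset.abs_sum_le_sum_abs (fun j => φ (T^[j] x)) (Finset.range k)
    simp only [Finset.sum_add_distrib, ← Finset.mul_sum, Finset.sum_const, Finset.card_range,
      nsmul_eq_mul] at h7
    unfold birkhoffSum at hk ⊢
    refine pos_of_mul_pos_left (b := t) ?_ ht.le
    nlinarith
  · rw [← ofReal_measureReal]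
    refine ENNReal.ofReal_le_ofReal ?_
    rw [Real.rpow_neg ht.le, ← div_eq_mul_inv, le_div_iff₀ h2]
    linarith

omit [IsFiniteMeasure μ] in
lemma A_meas (hT : Measurable T) (hm : Measurable φ) (k : ℕ) : Measurable (birkhoffAverage ℝ T φ k) :=
  (Finset.measurable_sum _ fun j _ => hm.comp (hT.iterate j)).const_smul ((k : ℝ)⁻¹)

lemma max_int (hT : MeasurePreserving T μ μ) (hm : Measurable φ) {p : ℝ} (hp : 1 < p)
    (hi : Integrable (fun x => |φ x| ^ p) μ) :
    Integrable (fun x => ⨆ k, |birkhoffAverage ℝ T φ k x|) μ := by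
  have h1 : Measurable fun x => ⨆ k, |birkhoffAverage ℝ T φ k x| :=
    .iSup fun k => (A_meas hT.measurable hm k).abs
  have h2 : 0 ≤ᵐ[μ] fun x => ⨆ k, |birkhoffAverage ℝ T φ k x| :=
    .of_forall fun x => Real.iSup_nonneg fun _ => abs_nonneg _
  refine ⟨h1.aestronglyMeasurable, (hasFiniteIntegral_iff_ofReal h2).2 ?_⟩
  rw [lintegral_eq_lintegral_meas_lt μ h2 h1.aemeasurable, ← Ioc_union_Ioi_eq_Ioi zero_le_one]
  refine (lintegral_union_le _ _ _).trans_lt (ENNReal.add_lt_top.2 ⟨setLIntegral_lt_top_of_le_nnreal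
    (by simp) ⟨measureUnivNNReal μ, fun t _ => by simpa using measure_mono (subset_univ _)⟩, ?_⟩)
  have h3 := ((integrableOn_Ioi_rpow_of_lt (neg_lt_neg hp) zero_lt_one).const_mul
    ((∫ x, |φ x| ^ p ∂μ) / 2 ^ (-p))).lintegral_lt_top
  refine (setLIntegral_mono' measurableSet_Ioi fun t ht => ?_).trans_lt h3
  have h4 : (0 : ℝ) < t := zero_lt_one.trans ht
  have := weak hT hm hp.le hi (half_pos h4)
  rw [mul_div_cancel₀ _ two_ne_zero, Real.div_rpow h4.le zero_le_two] at this
  refine this.trans_eq ?_
  congr 1; ring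

end Pool.Agent.H28.Birk
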