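import Mathlib
import Pool.Agent.H28.Inter

set_option autoImplicit false

namespace Pool.Agent.H28.Borsuk

open Set Pool.Agent.H28.Inter

variable {α : Type*}

theorem core {N : Matroid α} {A B : Set α} {a : α} (ha : N.Indep {a}) (haA : a ∈ A)
    (hB : N.IsBase B) (hBA : N.IsBasis' (B ∩ A) A) :
    ∃ c ∈ B ∩ A, c = a ∨ (a ∉ B ∧ N.IsBase (insert a B \ {c})) := by
  by_cases haB : a ∈ B
  · exact ⟨a, ⟨haB, haA⟩, Or.inl rfl⟩
  have haE : a ∈ N.E := ha.subset_ground rfl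
  have hcl : a ∈ N.closure (B ∩ A) := hBA.isBasis_inter_ground.subset_closure ⟨haA, haE⟩
  have hC := hBA.indep.fundCircuit_isCircuit hcl (fun h => haB h.1)
  have hsub := N.fundCircuit_subset_insert a (B ∩ A)
  have heq := hC.eq_fundCircuit_of_subset hB.indep
    (hsub.trans (insert_subset_insert inter_subset_left))
  obtain ⟨c, hc, hca⟩ : ∃ c ∈ N.fundCircuit a (B ∩ A), c ≠ a := by
    by_contra hn
    push Not at hn
    exact hC.not_indep (ha.subset hn)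
  have hcB : c ∈ B ∩ A := (hsub hc).resolve_left hca
  refine ⟨c, hcB, Or.inr ⟨haB, hB.exchange_isBase_of_indep' hcB.1 haB ?_⟩⟩
  rw [heq] at hc
  exact (hB.indep.mem_fundCircuit_iff (by rwa [hB.closure_eq]) haB).1 hc

theorem colour [Finite α] (N : Matroid α) (A : Set α) (hpos : 0 < rk N A) :
    ∃ a ∈ N.E, ∃ g : Set α → α,
      (∀ B, g B = a ∨ ∃ B', N.IsBase B' ∧ g B ∈ B' ∧ a ∉ B' ∧ N.IsBase (insert a B' \ {g B})) ∧
      ∀ B₁ B₂, N.IsBase B₁ → N.IsBase B₂ → rk N A ≤ ((B₁ \ B₂) ∩ A).ncard →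
        rk N A ≤ ((B₂ \ B₁) ∩ A).ncard → g B₁ ≠ g B₂ := by
  obtain ⟨I, hI⟩ := N.exists_isBasis' A
  obtain ⟨a, haI⟩ : I.Nonempty := by
    rw [nonempty_iff_ne_empty]
    rintro rfl
    have := hI.encard_eq_eRk
    rw [← cast_rk, encard_empty] at this
    have h2 : rk N A = 0 := by exact_mod_cast this.symm
    omega
  have ha : N.Indep {a} := hI.indep.subset (singleton_subset_iff.2 haI)
  have key : ∀ B, ∃ c, (c = a ∨ ∃ B', N.IsBase B' ∧ c ∈ B' ∧ a ∉ B' ∧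
      N.IsBase (insert a B' \ {c})) ∧ (N.IsBase B → rk N A ≤ (B ∩ A).ncard → c ∈ B ∩ A) := by
    intro B
    by_cases h : N.IsBase B ∧ rk N A ≤ (B ∩ A).ncard
    · obtain ⟨c, hc, hc'⟩ := core ha (hI.subset haI) h.1
        (isBasis'_of_le (h.1.indep.subset inter_subset_left) inter_subset_right h.2)
      exact ⟨c, hc'.imp id fun h' => ⟨B, h.1, hc.1, h'⟩, fun _ _ => hc⟩
    · exact ⟨a, Or.inl rfl, fun h1 h2 => (h ⟨h1, h2⟩).elim⟩
  choose g hg hg' using key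
  refine ⟨a, ha.subset_ground rfl, g, hg, fun B₁ B₂ h₁ h₂ l₁ l₂ heq => ?_⟩
  have s₁ : (B₁ \ B₂) ∩ A ⊆ B₁ ∩ A := inter_subset_inter_left _ sdiff_subset
  have s₂ : (B₂ \ B₁) ∩ A ⊆ B₂ ∩ A := inter_subset_inter_left _ sdiff_subset
  have m₁ := hg' B₁ h₁ (l₁.trans (ncard_le_ncard s₁ (toFinite _)))
  have m₂ := hg' B₂ h₂ (l₂.trans (ncard_le_ncard s₂ (toFinite _)))
  have e₁ : (B₁ \ B₂) ∩ A = B₁ ∩ A := eq_of_subset_of_ncard_le s₁
    ((ncard_le_rk (h₁.indep.subset inter_subset_left) inter_subset_right).trans l₁) (toFinite _)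
  rw [← e₁, heq] at m₁
  exact m₁.1.2 m₂.1

theorem card_le {n : ℕ} (W : Submodule ℝ (Fin n → ℝ)) (a : Fin n) :
    ∃ j : Fin n → Fin (Module.finrank ℝ W + 1),
      InjOn j {x | (Pi.single a 1 - Pi.single x 1 : Fin n → ℝ) ∈ W} := by
  classical
  set K : Set (Fin n) := {x | (Pi.single a 1 - Pi.single x 1 : Fin n → ℝ) ∈ W} with hK
  have hli : LinearIndependent ℝ fun x : ↥(K \ {a}) =>
      (⟨Pi.single a 1 - Pi.single x.1 1, x.2.1⟩ : W) := by
    refine LinearIndependent.of_comp W.subtype ?_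
    rw [Fintype.linearIndependent_iff]
    intro c hc x
    have h1 := congrFun hc x.1
    have hxa : x.1 ≠ a := x.2.2
    simp only [Function.comp, Submodule.subtype_apply, Finset.sum_apply, Pi.smul_apply,
      Pi.sub_apply, Pi.single_eq_of_ne hxa, smul_eq_mul, Pi.zero_apply] at h1
    rw [Finset.sum_eq_single x] at h1
    · simpa using h1
    · intro y _ hy
      rw [Pi.single_eq_of_ne (fun h => hy (Subtype.ext h).symm)]; simp
    · simp
  have h1 := hli.fintype_card_le_finrank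
  have h2 : K.ncard ≤ Module.finrank ℝ W + 1 := by
    rw [← Nat.card_eq_fintype_card, Nat.card_coe_set_eq] at h1
    have : K ⊆ insert a (K \ {a}) := by grind
    exact (ncard_le_ncard this (toFinite _)).trans ((ncard_insert_le _ _).trans (by omega))
  have h3 : Fintype.card K ≤ Fintype.card (Fin (Module.finrank ℝ W + 1)) := by
    rwa [Fintype.card_fin, ← Nat.card_eq_fintype_card, Nat.card_coe_set_eq]
  obtain ⟨e⟩ := Function.Embedding.nonempty_of_card_le h3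
  refine ⟨fun x => if h : x ∈ K then e ⟨x, h⟩ else 0, fun x hx y hy hxy => ?_⟩
  simp only [dif_pos hx, dif_pos hy] at hxy
  exact congrArg Subtype.val (e.injective hxy)

theorem ncard_symmDiff [Finite α] {M : Matroid α} {B₁ B₂ : Set α} (h₁ : M.IsBase B₁)
    (h₂ : M.IsBase B₂) : (symmDiff B₁ B₂).ncard = 2 * (B₁ \ B₂).ncard := by
  rw [Set.symmDiff_def, ncard_union_eq disjoint_sdiff_sdiff (toFinite _) (toFinite _),
    h₂.ncard_sdiff_comm h₁]
  omega

theorem split [Finite α] {M : Matroid α} {B₁ B₂ : Set α} (h₁ : M.IsBase B₁)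
    (h₂ : M.IsBase B₂) (A : Set α) :
    (B₁ \ B₂).ncard = ((B₁ \ B₂) ∩ A).ncard + ((B₁ \ B₂) ∩ (M.E \ A)).ncard ∧
      ((B₁ \ B₂) ∩ A).ncard ≤ rk M A ∧ ((B₁ \ B₂) ∩ (M.E \ A)).ncard ≤ rk M✶ (M.E \ A) := by
  have hE := h₁.subset_ground
  refine ⟨?_, ncard_le_rk (h₁.indep.subset (by grind)) inter_subset_right,
    ncard_le_rk (h₂.compl_isBase_dual.indep.subset (by grind)) inter_subset_right⟩
  rw [← ncard_union_eq (by rw [disjoint_left]; grind) (toFinite _) (toFinite _)]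
  congr 1
  grind

theorem main {n : ℕ} (M : Matroid (Fin n)) (W : Submodule ℝ (Fin n → ℝ))
    (hW : ∀ B B', M.IsBase B → M.IsBase B' →
      B.indicator (fun _ => (1 : ℝ)) - B'.indicator (fun _ => (1 : ℝ)) ∈ W)
    (h2 : ∃ B₁ B₂ : Set (Fin n), M.IsBase B₁ ∧ M.IsBase B₂ ∧ B₁ ≠ B₂) :
    ∃ f : Set (Fin n) → Fin (Module.finrank ℝ W + 1),
      ∀ B₁ B₂ : Set (Fin n), M.IsBase B₁ → M.IsBase B₂ → f B₁ = f B₂ →
        ∃ C₁ C₂ : Set (Fin n), M.IsBase C₁ ∧ M.IsBase C₂ ∧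
          (symmDiff B₁ B₂).ncard < (symmDiff C₁ C₂).ncard := by
  classical
  obtain ⟨I, -, A, -, hI, hI', hc⟩ := inter M M✶ M.E
  obtain ⟨C₁, hC₁, hIC₁⟩ := hI.exists_isBase_superset
  obtain ⟨C₂, hC₂, hIC₂⟩ := Matroid.Coindep.exists_isBase_subset_compl (M := M) hI'
  have hd : I.ncard ≤ (C₁ \ C₂).ncard := ncard_le_ncard (by grind) (toFinite _)
  have hpos : 0 < rk M A + rk M✶ (M.E \ A) := by
    obtain ⟨B₁, B₂, h₁, h₂, hne⟩ := h2
    obtain ⟨e1, e2, e3⟩ := split h₁ h₂ A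
    have : 0 < (B₁ \ B₂).ncard := by
      rw [ncard_pos (toFinite _), nonempty_iff_ne_empty]
      intro h
      exact hne (h₁.eq_of_subset_isBase h₂ (sdiff_eq_empty.1 h))
    omega
  suffices h : ∃ a : Fin n, ∃ g : Set (Fin n) → Fin n,
      (∀ B, (Pi.single a 1 - Pi.single (g B) 1 : Fin n → ℝ) ∈ W) ∧
      ∀ B₁ B₂, M.IsBase B₁ → M.IsBase B₂ → I.ncard ≤ (B₁ \ B₂).ncard → g B₁ ≠ g B₂ by
    obtain ⟨a, g, hg, hg'⟩ := h
    obtain ⟨j, hj⟩ := card_le W a
    refine ⟨fun B => j (g B), fun B₁ B₂ h₁ h₂ heq => ⟨C₁, C₂, hC₁, hC₂, ?_⟩⟩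
    rw [ncard_symmDiff h₁ h₂, ncard_symmDiff hC₁ hC₂]
    by_contra hn
    exact hg' B₁ B₂ h₁ h₂ (by omega) (hj (hg _) (hg _) heq)
  by_cases hA : 0 < rk M A
  · obtain ⟨a, -, g, hg, hg'⟩ := colour M A hA
    refine ⟨a, g, fun B => ?_, fun B₁ B₂ h₁ h₂ hle => ?_⟩
    · obtain h | ⟨B', hB', hgB, haB, hB''⟩ := hg B
      · rw [h, sub_self]; exact W.zero_mem
      · convert hW _ _ hB'' hB' using 1
        ext x
        have hne : g B ≠ a := fun h => haB (h ▸ hgB)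
        by_cases hxa : x = a
        · subst hxa; simp [haB, hne.symm]
        · by_cases hxg : x = g B
          · subst hxg; simp [hgB, hne]
          · by_cases hxB : x ∈ B' <;> simp [hxa, hxg, hxB]
    · obtain ⟨e1, e2, e3⟩ := split h₁ h₂ A
      obtain ⟨f1, f2, f3⟩ := split h₂ h₁ A
      have := h₁.ncard_sdiff_comm h₂
      exact hg' B₁ B₂ h₁ h₂ (by omega) (by omega)
  · obtain ⟨a, haE, g, hg, hg'⟩ := colour M✶ (M.E \ A) (by omega)
    refine ⟨a, fun B => g (M.E \ B), fun B => ?_, fun B₁ B₂ h₁ h₂ hle => ?_⟩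
    · obtain h | ⟨B', hB', hgB, haB, hB''⟩ := hg (M.E \ B)
      · beta_reduce
        rw [h, sub_self]; exact W.zero_mem
      · convert hW _ _ hB'.compl_isBase_of_dual hB''.compl_isBase_of_dual using 1
        ext x
        have hne : g (M.E \ B) ≠ a := fun h => haB (h ▸ hgB)
        have haE' : a ∈ M.E := haE
        have hgE : g (M.E \ B) ∈ M.E := hB'.subset_ground hgB
        by_cases hxa : x = a
        · subst hxa; simp [haB, hne.symm, haE']
        · by_cases hxg : x = g (M.E \ B)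
          · rw [hxg]; simp [hgB, hne, hgE]
          · by_cases hxB : x ∈ B' <;> by_cases hxE : x ∈ M.E <;>
              simp [hxa, hxg, hxB, hxE]
    · obtain ⟨e1, e2, e3⟩ := split h₁ h₂ A
      obtain ⟨f1, f2, f3⟩ := split h₂ h₁ A
      have := h₁.ncard_sdiff_comm h₂
      have hE₁ := h₁.subset_ground
      have hE₂ := h₂.subset_ground
      refine hg' _ _ h₁.compl_isBase_dual h₂.compl_isBase_dual ?_ ?_
      · rw [show (M.E \ B₁) \ (M.E \ B₂) = B₂ \ B₁ by grind]; omega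
      · rw [show (M.E \ B₂) \ (M.E \ B₁) = B₁ \ B₂ by grind]; omega

end Pool.Agent.H28.Borsuk
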