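import Mathlib

/-! Abstract part of the contractibility of the unit group of the continuous ring. -/

namespace Pool.Agent.H28.Contr

open Filter Topology

structure Sys (R : Type) [Ring R] [MetricSpace R] where
  D : ℕ → Subring R
  mono : Monotone D
  dense : ∀ x : R, ∀ ε > 0, ∃ n, ∃ y ∈ D n, dist x y < ε
  left : ∀ a x y : R, dist (a * x) (a * y) ≤ dist x y
  right : ∀ a x y : R, dist (x * a) (y * a) ≤ dist x y
  trans : ∀ x y : R, dist x y = dist (x - y) 0
  one : dist (1 : R) 0 ≤ 1
  p : ℕ → R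
  p_idem : ∀ k, p k * p k = p k
  p_mem : ∀ k, p k ∈ D (k + 1)
  p_comm : ∀ k, ∀ y ∈ D k, Commute y (p k)
  half1 : ∀ k, ∀ y ∈ D k, dist (y * p k) 0 ≤ dist y 0 / 2
  half2 : ∀ k, ∀ y ∈ D k, dist (y * (1 - p k)) 0 ≤ dist y 0 / 2
  s : ℕ → R
  s_sq : ∀ k, s k * s k = 1
  s_mem : ∀ k, s k ∈ D (k + 2)
  s_comm : ∀ k, ∀ y ∈ D k, Commute y (s k)
  s_p : ∀ k, s k * p k * s k = p (k + 1)

variable {R : Type} [Ring R] [MetricSpace R]

/-- dyadic chain of idempotents -/
def G (q : ℕ → R) : ℕ → ℕ → R
  | 0, j => if j = 0 then 0 else 1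
  | n + 1, j => if j % 2 = 0 then G q n (j / 2)
      else G q n (j / 2) + (G q n (j / 2 + 1) - G q n (j / 2)) * q n

omit [MetricSpace R] in
lemma G_even (q : ℕ → R) (n j : ℕ) : G q (n + 1) (2 * j) = G q n j := by
  simp [G]

omit [MetricSpace R] in
lemma G_odd (q : ℕ → R) (n j : ℕ) :
    G q (n + 1) (2 * j + 1) = G q n j + (G q n (j + 1) - G q n j) * q n := by
  have h1 : (2 * j + 1) % 2 = 1 := by omega
  have h2 : (2 * j + 1) / 2 = j := by omega
  simp [G, h1, h2]

omit [MetricSpace R] in
lemma G_zero (q : ℕ → R) (n : ℕ) : G q n 0 = 0 := by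
  induction n with
  | zero => simp [G]
  | succ n ih => have := G_even q n 0; simp only [mul_zero] at this; rw [this, ih]

omit [MetricSpace R] in
lemma G_top (q : ℕ → R) (n : ℕ) : G q n (2 ^ n) = 1 := by
  induction n with
  | zero => simp [G]
  | succ n ih => rw [pow_succ, mul_comm, G_even, ih]

omit [MetricSpace R] in
lemma G_mem (q : ℕ → R) (S : Subring R) (n : ℕ) (h : ∀ i < n, q i ∈ S) (j : ℕ) : G q n j ∈ S := by
  induction n generalizing j with
  | zero => unfold G; split_ifs <;> simp
  | succ n ih =>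
    have ih' := ih (fun i hi => h i (by omega))
    unfold G; split_ifs
    · exact ih' _
    · exact S.add_mem (ih' _) (S.mul_mem (S.sub_mem (ih' _) (ih' _)) (h n (by omega)))

omit [MetricSpace R] in
lemma G_comm (q : ℕ → R) (y : R) (h : ∀ i, Commute y (q i)) (n j : ℕ) : Commute y (G q n j) := by
  have := G_mem q (Subring.centralizer {y}) n (fun i _ => by
    rw [Subring.mem_centralizer_iff]; intro g hg; rw [Set.mem_singleton_iff.1 hg]; exact h i) j
  rw [Subring.mem_centralizer_iff] at this
  exact this y rfl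

lemma G_inv (S : Sys R) (a : ℕ → ℕ) (ha : StrictMono a) (n : ℕ) : ∀ j,
    G (fun i => S.p (a i)) n j * G (fun i => S.p (a i)) n j = G (fun i => S.p (a i)) n j ∧
    G (fun i => S.p (a i)) n j * G (fun i => S.p (a i)) n (j + 1) = G (fun i => S.p (a i)) n j ∧
    G (fun i => S.p (a i)) n (j + 1) * G (fun i => S.p (a i)) n j = G (fun i => S.p (a i)) n j ∧
    dist (G (fun i => S.p (a i)) n (j + 1)) (G (fun i => S.p (a i)) n j) ≤ 1 / 2 ^ n := by
  set q : ℕ → R := fun i => S.p (a i) with hq
  induction n with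
  | zero =>
    intro j
    by_cases hj : j = 0
    · subst hj; simpa [G] using S.one
    · simp [G, hj]
  | succ n ih =>
    intro j
    have hmem : ∀ j, G q n j ∈ S.D (a n) := fun j =>
      G_mem q _ n (fun i hi => S.mono (by have := ha hi; omega) (S.p_mem (a i))) j
    have hqq : q n * q n = q n := S.p_idem _
    have key : ∀ j, let e := G q n j; let f := G q n (j + 1); let m := e + (f - e) * q n
        m * m = m ∧ e * m = e ∧ m * e = e ∧ m * f = m ∧ f * m = m ∧
          dist m e ≤ 1 / 2 ^ (n + 1) ∧ dist f m ≤ 1 / 2 ^ (n + 1) := by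
      intro j e f m
      obtain ⟨h1, h2, h3, h4⟩ := ih j
      have h5 := (ih (j + 1)).1
      have ce : e * q n = q n * e := S.p_comm _ _ (hmem j)
      have cf : f * q n = q n * f := S.p_comm _ _ (hmem (j + 1))
      change e * e = e at h1
      change e * f = e at h2
      change f * e = e at h3
      change f * f = f at h5
      change dist f e ≤ _ at h4
      have em : e * m = e := by
        simp only [m, mul_add, ← mul_assoc, mul_sub, h1, h2]; simp
      have me : m * e = e := by
        simp only [m, add_mul, mul_assoc, ← ce, h1]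
        rw [← mul_assoc, sub_mul, h1, h3]; simp
      have fm : f * m = m := by
        simp only [m, mul_add, ← mul_assoc, mul_sub, h3, h5]
      have mf : m * f = m := by
        simp only [m, add_mul, mul_assoc, ← cf, h2]
        rw [← mul_assoc, sub_mul, h2, h5]
      have hd : f - e ∈ S.D (a n) := Subring.sub_mem _ (hmem _) (hmem _)
      rw [S.trans] at h4
      refine ⟨?_, em, me, mf, fm, ?_, ?_⟩
      · calc m * m = m * e + (m * f - m * e) * q n := by
              conv_lhs => rw [show m * m = m * (e + (f - e) * q n) from rfl]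
              rw [mul_add, ← mul_assoc, mul_sub]
          _ = m := by
              rw [me, mf]
              simp only [m]
              rw [add_sub_cancel_left, mul_assoc, hqq]
      · rw [S.trans]
        have := S.half1 (a n) _ hd
        simp only [m, add_sub_cancel_left]
        calc _ ≤ _ := this
          _ ≤ (1 / 2 ^ n) / 2 := by linarith
          _ = _ := by rw [pow_succ]; field_simp
      · rw [S.trans]
        have := S.half2 (a n) _ hd
        have e1 : f - m = (f - e) * (1 - S.p (a n)) := by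
          simp only [m, hq]; noncomm_ring
        rw [e1]
        calc _ ≤ _ := this
          _ ≤ (1 / 2 ^ n) / 2 := by linarith
          _ = _ := by rw [pow_succ]; field_simp
    rcases Nat.even_or_odd' j with ⟨i, rfl | rfl⟩
    · rw [G_even, G_odd]
      obtain ⟨k1, k2, k3, k4, k5, k6, k7⟩ := key i
      exact ⟨(ih i).1, k2, k3, k6⟩
    · rw [show 2 * i + 1 + 1 = 2 * (i + 1) by ring, G_even, G_odd]
      obtain ⟨k1, k2, k3, k4, k5, k6, k7⟩ := key i
      exact ⟨k1, k4, k5, k7⟩

lemma G_dist (S : Sys R) (a : ℕ → ℕ) (ha : StrictMono a) (n j d : ℕ) :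
    dist (G (fun i => S.p (a i)) n (j + d)) (G (fun i => S.p (a i)) n j) ≤ d / 2 ^ n := by
  induction d with
  | zero => simp
  | succ d ih =>
    have := (G_inv S a ha n (j + d)).2.2.2
    calc _ ≤ dist (G (fun i => S.p (a i)) n (j + d + 1)) (G (fun i => S.p (a i)) n (j + d)) +
          dist (G (fun i => S.p (a i)) n (j + d)) (G (fun i => S.p (a i)) n j) := dist_triangle _ _ _
      _ ≤ 1 / 2 ^ n + d / 2 ^ n := add_le_add this ih
      _ = _ := by push_cast; ring

lemma G_dist' (S : Sys R) (a : ℕ → ℕ) (ha : StrictMono a) (n j k : ℕ) :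
    dist (G (fun i => S.p (a i)) n j) (G (fun i => S.p (a i)) n k) ≤ |(j : ℝ) - k| / 2 ^ n := by
  rcases le_total j k with h | h
  · obtain ⟨d, rfl⟩ := Nat.exists_eq_add_of_le h
    rw [dist_comm]
    have := G_dist S a ha n j d
    simpa using this
  · obtain ⟨d, rfl⟩ := Nat.exists_eq_add_of_le h
    have := G_dist S a ha n k d
    simpa using this

theorem path [CompleteSpace R] [IsTopologicalRing R] (S : Sys R) (a : ℕ → ℕ) (ha : StrictMono a) :
    ∃ E : unitInterval → R, Continuous E ∧ E 0 = 0 ∧ E 1 = 1 ∧ (∀ t, E t * E t = E t) ∧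
      ∀ y, (∀ j, Commute y (S.p (a j))) → ∀ t, Commute y (E t) := by
  set q : ℕ → R := fun i => S.p (a i) with hq
  let En : unitInterval → ℕ → R := fun t n => G q n ⌊2 ^ n * (t : ℝ)⌋₊
  have hc : ∀ t, CauchySeq (En t) := by
    intro t
    refine cauchySeq_of_le_geometric (1 / 2) 1 (by norm_num) (fun n => ?_)
    have ht : (0 : ℝ) ≤ t := t.2.1
    have h0 : (0 : ℝ) ≤ 2 ^ n * (t : ℝ) := by positivity
    have h1 : (0 : ℝ) ≤ 2 ^ (n + 1) * (t : ℝ) := by positivity
    have := G_dist' S a ha (n + 1) (2 * ⌊2 ^ n * (t : ℝ)⌋₊) ⌊2 ^ (n + 1) * (t : ℝ)⌋₊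
    rw [G_even] at this
    refine this.trans ?_
    have a1 := Nat.floor_le h0
    have a2 := Nat.lt_floor_add_one (2 ^ n * (t : ℝ))
    have a3 := Nat.floor_le h1
    have a4 := Nat.lt_floor_add_one (2 ^ (n + 1) * (t : ℝ))
    have : |((2 * ⌊2 ^ n * (t : ℝ)⌋₊ : ℕ) : ℝ) - ⌊2 ^ (n + 1) * (t : ℝ)⌋₊| ≤ 2 := by
      rw [pow_succ] at a3 a4 ⊢
      push_cast
      rw [abs_le]; constructor <;> nlinarith
    calc _ ≤ (2 : ℝ) / 2 ^ (n + 1) := by gcongr
      _ = _ := by rw [pow_succ, one_div, inv_pow]; field_simp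
  choose E hE using fun t => cauchySeq_tendsto_of_complete (hc t)
  refine ⟨E, ?_, ?_, ?_, ?_, ?_⟩
  · refine LipschitzWith.continuous (K := 1) (LipschitzWith.of_dist_le_mul fun t u => ?_)
    have h1 : Tendsto (fun n => dist (En t n) (En u n)) atTop (𝓝 (dist (E t) (E u))) :=
      (hE t).dist (hE u)
    have h2 : Tendsto (fun n : ℕ => dist t u + (1 / 2 : ℝ) ^ n) atTop (𝓝 (dist t u + 0)) :=
      tendsto_const_nhds.add (tendsto_pow_atTop_nhds_zero_of_lt_one (by norm_num) (by norm_num))
    have := le_of_tendsto_of_tendsto' h1 h2 (fun n => by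
      refine (G_dist' S a ha n _ _).trans ?_
      have ht : (0 : ℝ) ≤ t := t.2.1
      have hu : (0 : ℝ) ≤ u := u.2.1
      have h0 : (0 : ℝ) ≤ 2 ^ n * (t : ℝ) := by positivity
      have h1 : (0 : ℝ) ≤ 2 ^ n * (u : ℝ) := by positivity
      have a1 := Nat.floor_le h0
      have a2 := Nat.lt_floor_add_one (2 ^ n * (t : ℝ))
      have a3 := Nat.floor_le h1
      have a4 := Nat.lt_floor_add_one (2 ^ n * (u : ℝ))
      have b1 : (t : ℝ) - u ≤ dist t u := by rw [Subtype.dist_eq, Real.dist_eq]; exact le_abs_self _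
      have b2 : (u : ℝ) - t ≤ dist t u := by
        rw [dist_comm, Subtype.dist_eq, Real.dist_eq]; exact le_abs_self _
      have hp : (0 : ℝ) < 2 ^ n := by positivity
      have : |(⌊2 ^ n * (t : ℝ)⌋₊ : ℝ) - ⌊2 ^ n * (u : ℝ)⌋₊| ≤ 2 ^ n * dist t u + 1 := by
        rw [abs_le]; constructor <;> nlinarith
      calc _ ≤ (2 ^ n * dist t u + 1) / 2 ^ n := by gcongr
        _ = _ := by rw [one_div, inv_pow]; field_simp)
    simpa using this
  · have : En 0 = fun _ => 0 := by funext n; simp [En, G_zero]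
    have h := hE 0
    rw [this] at h
    exact tendsto_nhds_unique h tendsto_const_nhds
  · have : En 1 = fun _ => 1 := by
      funext n
      have : ⌊(2 : ℝ) ^ n⌋₊ = 2 ^ n := by exact_mod_cast Nat.floor_natCast (R := ℝ) (2 ^ n)
      simp [En, this, G_top]
    have h := hE 1
    rw [this] at h
    exact tendsto_nhds_unique h tendsto_const_nhds
  · intro t
    have h := (hE t).mul (hE t)
    have : (fun n => En t n * En t n) = En t := by
      funext n; exact (G_inv S a ha n _).1
    rw [this] at h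
    exact tendsto_nhds_unique h (hE t)
  · intro y hy t
    have h1 := (hE t).const_mul y
    have h2 := (hE t).mul_const y
    have : (fun n => y * En t n) = fun n => En t n * y := by
      funext n; exact G_comm q y hy n _
    rw [this] at h1
    exact tendsto_nhds_unique h1 h2

end Pool.Agent.H28.Contr
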