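import Mathlib
import Pool.Agent.H28.Contr1

namespace Pool.Agent.H28.Contr

open Filter Topology

variable {R : Type} [Ring R] [MetricSpace R]

def cyc (S : Sys R) (k : ℕ) : ℕ → R
  | 0 => 1
  | m + 1 => cyc S k m * S.s (k + m)

def cyc' (S : Sys R) (k : ℕ) : ℕ → R
  | 0 => 1
  | m + 1 => S.s (k + m) * cyc' S k m

lemma cyc_mul (S : Sys R) (k m : ℕ) : cyc S k m * cyc' S k m = 1 ∧ cyc' S k m * cyc S k m = 1 := by
  induction m with
  | zero => simp [cyc, cyc']
  | succ m ih =>
    constructor
    · simp only [cyc, cyc']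
      rw [mul_assoc, ← mul_assoc (S.s _), S.s_sq, one_mul, ih.1]
    · simp only [cyc, cyc']
      rw [mul_assoc, ← mul_assoc (cyc' _ _ _), ih.2, one_mul, S.s_sq]

lemma cyc_mem (S : Sys R) (k m : ℕ) : cyc S k m ∈ S.D (k + m + 1) ∧ cyc' S k m ∈ S.D (k + m + 1) := by
  induction m with
  | zero => simp [cyc, cyc']
  | succ m ih =>
    have h : S.D (k + m + 1) ≤ S.D (k + (m + 1) + 1) := S.mono (by omega)
    exact ⟨Subring.mul_mem _ (h ih.1) (S.s_mem _), Subring.mul_mem _ (S.s_mem _) (h ih.2)⟩

lemma cyc_comm (S : Sys R) (k m : ℕ) (y : R) (hy : y ∈ S.D k) :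
    Commute y (cyc S k m) ∧ Commute y (cyc' S k m) := by
  induction m with
  | zero => simp [cyc, cyc']
  | succ m ih =>
    have h := S.s_comm (k + m) y (S.mono (by omega) hy)
    exact ⟨ih.1.mul_right h, h.mul_right ih.2⟩

lemma cyc_p (S : Sys R) (k m : ℕ) : ∀ i,
    (k ≤ i → i < k + m → cyc S k m * S.p i * cyc' S k m = S.p (i + 1)) ∧
    (k + m < i → cyc S k m * S.p i * cyc' S k m = S.p i) := by
  induction m with
  | zero => intro i; simp only [cyc, cyc']; constructor
            · intro h1 h2; omega
            · intro _; simp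
  | succ m ih =>
    intro i
    have e : cyc S k (m + 1) * S.p i * cyc' S k (m + 1) =
        cyc S k m * (S.s (k + m) * S.p i * S.s (k + m)) * cyc' S k m := by
      simp only [cyc, cyc', mul_assoc]
    rw [e]
    constructor
    · intro h1 h2
      by_cases h : i = k + m
      · subst h
        rw [S.s_p]
        exact (ih _).2 (by omega)
      · have c := S.s_comm (k + m) (S.p i) (S.mono (by omega) (S.p_mem i))
        rw [← c.eq, mul_assoc (S.p i), S.s_sq, mul_one]
        exact (ih _).1 h1 (by omega)
    · intro h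
      have c := S.p_comm i (S.s (k + m)) (S.mono (by omega) (S.s_mem _))
      rw [c.eq, mul_assoc (S.p i), S.s_sq, mul_one]
      exact (ih _).2 (by omega)

omit [MetricSpace R] in
lemma interp {v v' e : R} (h : v * v' = 1) (he : e * e = e) (c : Commute v' e) :
    (v * e + (1 - e)) * (v' * e + (1 - e)) = 1 := by
  have h1 : e * (v' * e) = v' * e := by rw [← mul_assoc, ← c.eq, mul_assoc, he]
  have h2 : v * e * (v' * e) = e := by rw [mul_assoc, h1, ← mul_assoc, h, one_mul]
  simp only [add_mul, mul_add, sub_mul, mul_sub, one_mul, mul_one, h2, h1, mul_assoc v e e, he]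
  abel

def prodU (u : ℕ → R) : ℕ → R
  | 0 => 1
  | n + 1 => prodU u n * u n

def prodD (u : ℕ → R) : ℕ → R
  | 0 => 1
  | n + 1 => u n * prodD u n

theorem endo [CompleteSpace R] [IsTopologicalRing R] (S : Sys R) :
    ∃ θ : unitInterval × R → R, Continuous θ ∧ (∀ x, θ (0, x) = x) ∧
      (∀ t x y, θ (t, x * y) = θ (t, x) * θ (t, y)) ∧ (∀ t, θ (t, 1) = 1) ∧
      ∀ x j, Commute (θ (1, x)) (S.p (2 * j)) := by
  have hE := fun k : ℕ => path S (fun j => 2 * k + 2 + j) (fun a b h => by simpa using h)
  choose E Ec E0 E1 Ei Ecomm using hE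
  have EcD : ∀ k t, ∀ y ∈ S.D (2 * k + 2), Commute y (E k t) := fun k t y hy =>
    Ecomm k y (fun j => S.p_comm _ y (S.mono (by omega) hy)) t
  let u : unitInterval → ℕ → R := fun t k => cyc' S k (k + 1) * E k t + (1 - E k t)
  let u' : unitInterval → ℕ → R := fun t k => cyc S k (k + 1) * E k t + (1 - E k t)
  have m1 : ∀ k, cyc S k (k + 1) ∈ S.D (2 * k + 2) := fun k =>
    S.mono (by omega) (cyc_mem S k (k + 1)).1
  have m2 : ∀ k, cyc' S k (k + 1) ∈ S.D (2 * k + 2) := fun k =>
    S.mono (by omega) (cyc_mem S k (k + 1)).2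
  have uu' : ∀ t k, u t k * u' t k = 1 := fun t k =>
    interp (cyc_mul S k _).2 (Ei k t) (EcD k t _ (m1 k))
  have u'u : ∀ t k, u' t k * u t k = 1 := fun t k =>
    interp (cyc_mul S k _).1 (Ei k t) (EcD k t _ (m2 k))
  have ucomm : ∀ t k, ∀ y ∈ S.D k, Commute y (u t k) := by
    intro t k y hy
    have h1 := EcD k t y (S.mono (by omega) hy)
    exact ((cyc_comm S k _ y hy).2.mul_right h1).add_right ((Commute.one_right y).sub_right h1)
  have W'W : ∀ t n, prodD (u' t) n * prodU (u t) n = 1 := by
    intro t n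
    induction n with
    | zero => simp [prodU, prodD]
    | succ n ih =>
      simp only [prodU, prodD]
      rw [mul_assoc, ← mul_assoc (prodD _ _), ih, one_mul, u'u]
  have WW' : ∀ t n, prodU (u t) n * prodD (u' t) n = 1 := by
    intro t n
    induction n with
    | zero => simp [prodU, prodD]
    | succ n ih =>
      simp only [prodU, prodD]
      rw [mul_assoc, ← mul_assoc (u t n), uu', one_mul, ih]
  let H : ℕ → unitInterval × R → R := fun n z => prodU (u z.1) n * z.2 * prodD (u' z.1) n
  have Hstab : ∀ n t, ∀ y ∈ S.D n, ∀ N, n ≤ N → H N (t, y) = H n (t, y) := by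
    intro n t y hy N hN
    induction N, hN using Nat.le_induction with
    | base => rfl
    | succ N hN ih =>
      rw [← ih]
      simp only [H, prodU, prodD]
      have c := ucomm t N y (S.mono hN hy)
      rw [mul_assoc (prodU _ _), ← c.eq, mul_assoc, mul_assoc, mul_assoc, ← mul_assoc (u t N), uu',
        one_mul]
  have Hlip : ∀ n t x y, dist (H n (t, x)) (H n (t, y)) ≤ dist x y := fun n t x y =>
    (S.right _ _ _).trans (S.left _ _ _)
  have Hc : ∀ n, Continuous (H n) := by
    intro n
    have c1 : ∀ k, Continuous fun t => u t k := fun k =>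
      (continuous_const.mul (Ec k)).add (continuous_const.sub (Ec k))
    have c2 : ∀ k, Continuous fun t => u' t k := fun k =>
      (continuous_const.mul (Ec k)).add (continuous_const.sub (Ec k))
    have c3 : Continuous fun t => prodU (u t) n := by
      induction n with
      | zero => exact continuous_const
      | succ n ih => exact ih.mul (c1 n)
    have c4 : Continuous fun t => prodD (u' t) n := by
      clear c3
      induction n with
      | zero => exact continuous_const
      | succ n ih => exact (c2 n).mul ih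
    exact ((c3.comp continuous_fst).mul continuous_snd).mul (c4.comp continuous_fst)
  have hc : ∀ z : unitInterval × R, CauchySeq (fun n => H n z) := by
    rintro ⟨t, x⟩
    rw [Metric.cauchySeq_iff']
    intro ε hε
    obtain ⟨n, y, hy, hxy⟩ := S.dense x (ε / 2) (by linarith)
    refine ⟨n, fun N hN => ?_⟩
    have h1 := Hlip N t x y
    have h2 := Hlip n t y x
    rw [Hstab n t y hy N hN] at h1
    rw [dist_comm y x] at h2
    linarith [dist_triangle (H N (t, x)) (H n (t, y)) (H n (t, x))]
  choose θ hθ using fun z => cauchySeq_tendsto_of_complete (hc z)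
  have θD : ∀ n t, ∀ y ∈ S.D n, θ (t, y) = H n (t, y) := by
    intro n t y hy
    refine tendsto_nhds_unique (hθ (t, y)) ?_
    refine tendsto_const_nhds.congr' ?_
    filter_upwards [eventually_ge_atTop n] with N hN
    exact (Hstab n t y hy N hN).symm
  have θlip : ∀ t x y, dist (θ (t, x)) (θ (t, y)) ≤ dist x y := fun t x y =>
    le_of_tendsto' ((hθ (t, x)).dist (hθ (t, y))) (fun n => Hlip n t x y)
  have θc : Continuous θ := by
    rw [Metric.continuous_iff']
    rintro ⟨t, x⟩ ε hε
    obtain ⟨n, y, hy, hxy⟩ := S.dense x (ε / 4) (by linarith)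
    have c1 : Continuous fun z : unitInterval × R => H n (z.1, y) :=
      (Hc n).comp (continuous_fst.prodMk continuous_const)
    have e1 := (Metric.continuous_iff'.1 c1) (t, x) (ε / 4) (by linarith)
    have e2 := (Metric.continuous_iff'.1 (continuous_snd (X := unitInterval) (Y := R))) (t, x) (ε / 4)
      (by linarith)
    filter_upwards [e1, e2] with z h1 h2
    obtain ⟨t', x'⟩ := z
    simp only at h1 h2
    rw [← θD n _ y hy, ← θD n _ y hy] at h1
    have a1 := θlip t' x' y
    have a2 := θlip t y x
    rw [dist_comm y x] at a2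
    linarith [dist_triangle4 (θ (t', x')) (θ (t', y)) (θ (t, y)) (θ (t, x)), dist_triangle x' x y]
  refine ⟨θ, θc, ?_, ?_, ?_, ?_⟩
  · intro x
    refine tendsto_nhds_unique (hθ (0, x)) ?_
    have h1 : ∀ n, prodU (u 0) n = 1 := by
      intro n; induction n with
      | zero => rfl
      | succ n ih => rw [prodU, ih]; simp [u, E0]
    have h2 : ∀ n, prodD (u' 0) n = 1 := by
      intro n; induction n with
      | zero => rfl
      | succ n ih => rw [prodD, ih]; simp [u', E0]
    simp only [H, h1, h2, one_mul, mul_one]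
    exact tendsto_const_nhds
  · intro t x y
    refine tendsto_nhds_unique (hθ (t, x * y)) ?_
    refine ((hθ (t, x)).mul (hθ (t, y))).congr (fun n => ?_)
    simp only [H, mul_assoc]
    rw [← mul_assoc (prodD _ _), W'W, one_mul]
  · intro t
    rw [θD 0 t 1 (Subring.one_mem _)]
    simp [H, prodU, prodD]
  · intro x j
    have hp : ∀ n, prodD (u' 1) n * S.p (2 * j) * prodU (u 1) n =
        S.p (if j ≤ n then j + n else 2 * j) := by
      intro n
      induction n with
      | zero =>
        simp only [prodU, prodD, one_mul, mul_one]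
        congr 1; split_ifs <;> omega
      | succ n ih =>
        have : prodD (u' 1) (n + 1) * S.p (2 * j) * prodU (u 1) (n + 1) =
            cyc S n (n + 1) * (prodD (u' 1) n * S.p (2 * j) * prodU (u 1) n) * cyc' S n (n + 1) := by
          simp [prodU, prodD, u, u', E1, mul_assoc]
        rw [this, ih]
        by_cases h : j ≤ n
        · rw [if_pos h, if_pos (by omega)]
          exact (cyc_p S n (n + 1) _).1 (by omega) (by omega)
        · rw [if_neg h, (cyc_p S n (n + 1) _).2 (by omega)]
          congr 1; split_ifs <;> omega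
    have hD : ∀ n, ∀ y ∈ S.D n, Commute (θ (1, y)) (S.p (2 * j)) := by
      intro n y hy
      rw [θD n 1 y hy]
      have c := S.p_comm (if j ≤ n then j + n else 2 * j) y
        (S.mono (by split_ifs <;> omega) hy)
      rw [← hp] at c
      have e : S.p (2 * j) =
          prodU (u 1) n * (prodD (u' 1) n * S.p (2 * j) * prodU (u 1) n) * prodD (u' 1) n := by
        rw [← mul_assoc, ← mul_assoc, WW', one_mul, mul_assoc, WW', mul_one]
      rw [e]
      generalize prodD (u' 1) n * S.p (2 * j) * prodU (u 1) n = z at c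
      simp only [H, Commute, SemiconjBy, mul_assoc]
      rw [← mul_assoc (prodD _ _), W'W, one_mul, ← mul_assoc (prodD _ _), W'W, one_mul,
        ← mul_assoc y, c.eq, mul_assoc]
    have hcl : IsClosed {x : R | θ (1, x) * S.p (2 * j) = S.p (2 * j) * θ (1, x)} := by
      have : Continuous fun x : R => θ (1, x) := θc.comp (continuous_const.prodMk continuous_id)
      exact isClosed_eq (this.mul continuous_const) (continuous_const.mul this)
    have : x ∈ closure {x : R | θ (1, x) * S.p (2 * j) = S.p (2 * j) * θ (1, x)} := by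
      rw [Metric.mem_closure_iff]
      intro ε hε
      obtain ⟨n, y, hy, hxy⟩ := S.dense x ε hε
      exact ⟨y, hD n y hy, hxy⟩
    rw [hcl.closure_eq] at this
    exact this

theorem contractible [CompleteSpace R] [IsTopologicalRing R] (S : Sys R) :
    ContractibleSpace {x : R // IsUnit x} := by
  obtain ⟨θ, θc, θ0, θm, θ1, θp⟩ := endo S
  obtain ⟨E, Ec, E0, E1, Ei, Ecomm⟩ := path S (fun j => 2 * j) (fun a b h => by simpa using h)
  have hu : ∀ t (x : R), IsUnit x → IsUnit (θ (t, x)) := by
    rintro t _ ⟨x, rfl⟩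
    exact ⟨⟨θ (t, x), θ (t, (x⁻¹ : Rˣ)), by rw [← θm]; simp [θ1], by rw [← θm]; simp [θ1]⟩, rfl⟩
  have hv : ∀ t (x : R), IsUnit x → IsUnit (θ (1, x) * E t + (1 - E t)) := by
    rintro t _ ⟨x, rfl⟩
    exact ⟨⟨_, θ (1, (x⁻¹ : Rˣ)) * E t + (1 - E t),
      interp (by rw [← θm]; simp [θ1]) (Ei t) (Ecomm _ (θp _) t),
      interp (by rw [← θm]; simp [θ1]) (Ei t) (Ecomm _ (θp _) t)⟩, rfl⟩
  have c1 : Continuous fun x : {x : R // IsUnit x} => θ (1, x.1) :=
    θc.comp (continuous_const.prodMk continuous_subtype_val)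
  let σ : C({x : R // IsUnit x}, {x : R // IsUnit x}) :=
    ⟨fun x => ⟨θ (1, x.1), hu 1 _ x.2⟩, c1.subtype_mk _⟩
  have h1 : (ContinuousMap.id _).Homotopic σ :=
    ⟨{ toFun := fun z => ⟨θ (z.1, z.2.1), hu _ _ z.2.2⟩
       continuous_toFun := (θc.comp (continuous_fst.prodMk
         (continuous_subtype_val.comp continuous_snd))).subtype_mk _
       map_zero_left := fun x => Subtype.ext (θ0 _)
       map_one_left := fun x => rfl }⟩
  have h2 : (ContinuousMap.const _ (⟨1, isUnit_one⟩ : {x : R // IsUnit x})).Homotopic σ :=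
    ⟨{ toFun := fun z => ⟨θ (1, z.2.1) * E z.1 + (1 - E z.1), hv _ _ z.2.2⟩
       continuous_toFun := (((c1.comp continuous_snd).mul (Ec.comp continuous_fst)).add
         (continuous_const.sub (Ec.comp continuous_fst))).subtype_mk _
       map_zero_left := fun x => Subtype.ext (by simp [E0])
       map_one_left := fun x => Subtype.ext (by simp [E1, σ]) }⟩
  rw [contractible_iff_id_nullhomotopic]
  exact ⟨_, h1.trans h2.symm⟩

end Pool.Agent.H28.Contr
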