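import Mathlib
import Pool.Agent.H28.Contr2

namespace Pool.Agent.H28.Contr

open Filter Topology Matrix

/-- the matrix algebra `M_{2^n}(F)` -/
abbrev Mat (F : Type) (n : ℕ) : Type := Matrix (Fin (2 ^ n)) (Fin (2 ^ n)) F

/-- the first `2^n` indices and the last `2^n` indices of `Fin (2^(n+1))` -/
def halves (n : ℕ) : Fin (2 ^ n) ⊕ Fin (2 ^ n) ≃ Fin (2 ^ (n + 1)) :=
  finSumFinEquiv.trans (finCongr (by rw [pow_succ]; ring))

/-- the doubling map `x ↦ diag(x,x)` -/
def dbl {F : Type} [Field F] {n : ℕ} (x : Mat F n) : Mat F (n + 1) :=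
  reindex (halves n) (halves n) (fromBlocks x 0 0 x)

/-- `R`, with the maps `ι n : M_{2^n}(F) → R`, is the metric completion of the union of the
`M_{2^n}(F)` along the doubling maps, for the normalized rank metric. -/
structure IsCompletion (F : Type) [Field F] (R : Type) [Ring R] [MetricSpace R]
    (ι : ∀ n, Mat F n →+* R) : Prop where
  complete : CompleteSpace R
  topRing : IsTopologicalRing R
  compat : ∀ n (x : Mat F n), ι (n + 1) (dbl x) = ι n x
  isometry : ∀ n (x y : Mat F n), dist (ι n x) (ι n y) = ((x - y).rank : ℝ) / 2 ^ n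
  dense : Dense (⋃ n, Set.range (ι n))

variable {F : Type} [Field F]

noncomputable def J1 {R : Type} [Ring R] (ι : ∀ n, Mat F n →+* R) (n : ℕ) :
    Matrix (Fin (2 ^ n) ⊕ Fin (2 ^ n)) (Fin (2 ^ n) ⊕ Fin (2 ^ n)) F →+* R :=
  (ι (n + 1)).comp (reindexAlgEquiv F F (halves n)).toRingEquiv.toRingHom

noncomputable def J2 {R : Type} [Ring R] (ι : ∀ n, Mat F n →+* R) (n : ℕ) :
    Matrix ((Fin (2 ^ n) ⊕ Fin (2 ^ n)) ⊕ (Fin (2 ^ n) ⊕ Fin (2 ^ n)))
      ((Fin (2 ^ n) ⊕ Fin (2 ^ n)) ⊕ (Fin (2 ^ n) ⊕ Fin (2 ^ n))) F →+* R :=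
  (J1 ι (n + 1)).comp (reindexAlgEquiv F F ((halves n).sumCongr (halves n))).toRingEquiv.toRingHom

lemma rank_blk1 {I : Type} [Fintype I] [DecidableEq I] (y : Matrix I I F) :
    (fromBlocks y 0 0 (0 : Matrix I I F)).rank ≤ y.rank := by
  have : fromBlocks y 0 0 (0 : Matrix I I F) =
      fromRows (1 : Matrix I I F) (0 : Matrix I I F) * y * fromCols (1 : Matrix I I F) 0 := by
    rw [fromRows_mul, fromRows_mul_fromCols]; simp
  rw [this]
  exact (rank_mul_le_left _ _).trans (rank_mul_le_right _ _)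

lemma rank_blk2 {I : Type} [Fintype I] [DecidableEq I] (y : Matrix I I F) :
    (fromBlocks (0 : Matrix I I F) 0 0 y).rank ≤ y.rank := by
  have : fromBlocks (0 : Matrix I I F) 0 0 y =
      fromRows (0 : Matrix I I F) (1 : Matrix I I F) * y * fromCols (0 : Matrix I I F) 1 := by
    rw [fromRows_mul, fromRows_mul_fromCols]; simp
  rw [this]
  exact (rank_mul_le_left _ _).trans (rank_mul_le_right _ _)

theorem contractible_of {R : Type} [Ring R] [MetricSpace R] (ι : ∀ n, Mat F n →+* R)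
    (h : IsCompletion F R ι) : ContractibleSpace {x : R // IsUnit x} := by
  haveI := h.complete
  haveI := h.topRing
  have mono : Monotone fun n => (ι n).range := by
    refine monotone_nat_of_le_succ (fun n => ?_)
    rintro _ ⟨x, rfl⟩
    exact ⟨dbl x, h.compat n x⟩
  let e : (Σ n, Mat F n) → R := fun z => ι z.1 z.2
  have he : DenseRange e := by
    refine h.dense.mono ?_
    intro x hx
    obtain ⟨n, y, rfl⟩ := Set.mem_iUnion.1 hx
    exact ⟨⟨n, y⟩, rfl⟩
  have ind : ∀ P : R → R → R → Prop, IsClosed {z : R × R × R | P z.1 z.2.1 z.2.2} →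
      (∀ n a x y, P (ι n a) (ι n x) (ι n y)) → ∀ a x y, P a x y := by
    intro P hP H a x y
    refine he.induction_on₃ hP (fun a x y => ?_) a x y
    obtain ⟨a', ha⟩ := mono (show a.1 ≤ a.1 + x.1 + y.1 by omega) ⟨a.2, rfl⟩
    obtain ⟨x', hx⟩ := mono (show x.1 ≤ a.1 + x.1 + y.1 by omega) ⟨x.2, rfl⟩
    obtain ⟨y', hy⟩ := mono (show y.1 ≤ a.1 + x.1 + y.1 by omega) ⟨y.2, rfl⟩
    simp only [e, ← ha, ← hx, ← hy]
    exact H _ _ _ _
  have J1d : ∀ n x, J1 ι n (fromBlocks x 0 0 x) = ι n x := fun n x => h.compat n x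
  have J2d : ∀ n y z, J2 ι n (fromBlocks y 0 0 z) =
      J1 ι (n + 1) (fromBlocks (reindex (halves n) (halves n) y) 0 0
        (reindex (halves n) (halves n) z)) := by
    intro n y z
    simp only [J2, RingHom.comp_apply]
    congr 1
    ext i j
    rcases i with i | i <;> rcases j with j | j <;> simp
  have J2d' : ∀ n y, J2 ι n (fromBlocks y 0 0 y) = J1 ι n y := by
    intro n y
    rw [J2d, J1d]; rfl
  have J1n : ∀ n y, dist (J1 ι n y) 0 = (y.rank : ℝ) / 2 ^ (n + 1) := by
    intro n y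
    have := h.isometry (n + 1) (reindex (halves n) (halves n) y) 0
    rw [map_zero, sub_zero, rank_reindex] at this
    exact this
  have ιn : ∀ n y, dist (ι n y) 0 = (y.rank : ℝ) / 2 ^ n := by
    intro n y
    have := h.isometry n y 0
    rwa [map_zero, sub_zero] at this
  let P : ∀ n : ℕ, Matrix (Fin (2 ^ n) ⊕ Fin (2 ^ n)) (Fin (2 ^ n) ⊕ Fin (2 ^ n)) F :=
    fun n => fromBlocks 1 0 0 0
  let T : ∀ n : ℕ, Matrix ((Fin (2 ^ n) ⊕ Fin (2 ^ n)) ⊕ (Fin (2 ^ n) ⊕ Fin (2 ^ n)))
      ((Fin (2 ^ n) ⊕ Fin (2 ^ n)) ⊕ (Fin (2 ^ n) ⊕ Fin (2 ^ n))) F :=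
    fun n => fromBlocks (fromBlocks 1 0 0 0) (fromBlocks 0 0 1 0) (fromBlocks 0 1 0 0)
      (fromBlocks 0 0 0 1)
  refine contractible
    { D := fun n => (ι n).range
      mono := mono
      dense := ?_
      left := ind (fun a x y => dist (a * x) (a * y) ≤ dist x y) (isClosed_le (by fun_prop) (by fun_prop)) ?_
      right := ind (fun a x y => dist (x * a) (y * a) ≤ dist x y) (isClosed_le (by fun_prop) (by fun_prop)) ?_
      trans := ind (fun _ x y => dist x y = dist (x - y) 0) (isClosed_eq (by fun_prop) (by fun_prop)) ?_ 0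
      one := ?_
      p := fun n => J1 ι n (P n)
      p_idem := ?_
      p_mem := fun n => ⟨_, rfl⟩
      p_comm := ?_
      half1 := ?_
      half2 := ?_
      s := fun n => J2 ι n (T n)
      s_sq := ?_
      s_mem := fun n => ⟨_, rfl⟩
      s_comm := ?_
      s_p := ?_ }
  · intro x ε hε
    obtain ⟨z, hz⟩ := Metric.denseRange_iff.1 he x ε hε
    exact ⟨z.1, _, ⟨z.2, rfl⟩, hz⟩
  · intro n a x y
    rw [← map_mul, ← map_mul, h.isometry, h.isometry, ← mul_sub]
    gcongr
    exact rank_mul_le_right _ _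
  · intro n a x y
    rw [← map_mul, ← map_mul, h.isometry, h.isometry, ← sub_mul]
    gcongr
    exact rank_mul_le_left _ _
  · intro n a x y
    rw [← map_sub, ιn, h.isometry]
  · rw [← map_one (ι 0), ιn]; simp
  · intro n
    rw [← map_mul]; congr 1
    simp [P, fromBlocks_multiply]
  · rintro n _ ⟨y, rfl⟩
    rw [← J1d]
    refine Commute.map ?_ _
    simp [P, Commute, SemiconjBy, fromBlocks_multiply]
  · rintro n _ ⟨y, rfl⟩
    rw [ιn, ← J1d, ← map_mul, J1n]
    have : fromBlocks y 0 0 y * P n = fromBlocks y 0 0 0 := by simp [P, fromBlocks_multiply]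
    rw [this, pow_succ, div_div]
    gcongr
    exact rank_blk1 y
  · rintro n _ ⟨y, rfl⟩
    rw [ιn, ← J1d, ← map_one (J1 ι n), ← map_sub, ← map_mul, J1n]
    have : fromBlocks y 0 0 y * (1 - P n) = fromBlocks 0 0 0 y := by
      rw [mul_sub, mul_one]
      simp only [P, fromBlocks_multiply]
      ext i j
      rcases i with i | i <;> rcases j with j | j <;> simp
    rw [this, pow_succ, div_div]
    gcongr
    exact rank_blk2 y
  · intro n
    rw [← map_mul, ← map_one (J2 ι n)]; congr 1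
    simp only [T, fromBlocks_multiply, fromBlocks_add]
    simp [fromBlocks_one]
  · rintro n _ ⟨y, rfl⟩
    rw [← J1d, ← J2d']
    refine Commute.map ?_ _
    simp only [T, Commute, SemiconjBy, fromBlocks_multiply]
    simp
  · intro n
    have e1 : J1 ι (n + 1) (P (n + 1)) = J2 ι n (fromBlocks 1 0 0 0) := by
      rw [J2d]; simp [P]
    rw [e1, ← J2d', ← map_mul, ← map_mul]; congr 1
    simp only [T, P, fromBlocks_multiply]
    simp [fromBlocks_multiply, fromBlocks_add, fromBlocks_one]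

end Pool.Agent.H28.Contr
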