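import Mathlib
import Pool.Agent.H28.Contr3

namespace Pool.Agent.H28.Contr

open Filter Topology Matrix

variable {F : Type} [Field F]

lemma rank_add_le' {I : Type} [Fintype I] (x y : Matrix I I F) : (x + y).rank ≤ x.rank + y.rank := by
  unfold Matrix.rank
  rw [mulVecLin_add]
  refine le_trans (Submodule.finrank_mono ?_) (Submodule.finrank_add_le_finrank_add_finrank _ _)
  rintro _ ⟨v, rfl⟩
  exact Submodule.add_mem_sup ⟨v, rfl⟩ ⟨v, rfl⟩

lemma rank_blk {I : Type} [Fintype I] [DecidableEq I] (x : Matrix I I F) :
    (fromBlocks x 0 0 x).rank = 2 * x.rank := by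
  classical
  obtain ⟨L, L', D, hM⟩ := Matrix.Pivot.exists_list_transvec_mul_diagonal_mul_list_transvec x
  set A := (L.map TransvectionStruct.toMatrix).prod
  set B := (L'.map TransvectionStruct.toMatrix).prod
  have hA : A.det = 1 := TransvectionStruct.det_toMatrix_prod L
  have hB : B.det = 1 := TransvectionStruct.det_toMatrix_prod L'
  have h1 : x.rank = (diagonal D).rank := by
    rw [hM, rank_mul_eq_left_of_isUnit_det _ _ (by simp [hB]),
      rank_mul_eq_right_of_isUnit_det _ _ (by simp [hA])]
  have h2 : fromBlocks x 0 0 x = fromBlocks A 0 0 A * diagonal (Sum.elim D D) * fromBlocks B 0 0 B := by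
    rw [← fromBlocks_diagonal, fromBlocks_multiply, fromBlocks_multiply]
    simp [← hM]
  rw [h2, rank_mul_eq_left_of_isUnit_det _ _ (by simp [hB]),
      rank_mul_eq_right_of_isUnit_det _ _ (by simp [hA]), h1, rank_diagonal, rank_diagonal,
      Fintype.card_congr (Equiv.subtypeSum), Fintype.card_sum, two_mul]
  rfl

noncomputable def dblHom (F : Type) [Field F] (n : ℕ) : Mat F n →+* Mat F (n + 1) where
  toFun := dbl
  map_one' := by simp [dbl]
  map_zero' := by simp [dbl]
  map_mul' := fun x y => by
    simp only [dbl, reindex_apply, submatrix_mul_equiv, fromBlocks_multiply]; simp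
  map_add' := fun x y => by
    ext i j
    simp only [dbl, reindex_apply, submatrix_apply, Matrix.add_apply]
    rcases (halves n).symm i with i | i <;> rcases (halves n).symm j with j | j <;> simp

noncomputable def up (F : Type) [Field F] (i j : ℕ) (h : i ≤ j) : Mat F i →+* Mat F j :=
  Nat.leRec (motive := fun j _ => Mat F i →+* Mat F j) (RingHom.id _)
    (fun k _ f => (dblHom F k).comp f) h

lemma up_self (i : ℕ) : up F i i le_rfl = RingHom.id _ := by
  unfold up; rw [Nat.leRec_self]

lemma up_succ (i j : ℕ) (h : i ≤ j) (h' : i ≤ j + 1) :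
    up F i (j + 1) h' = (dblHom F j).comp (up F i j h) := by
  unfold up; rw [Nat.leRec_succ _ _ h]

instance : DirectedSystem (Mat F) (up F · · ·) where
  map_self := fun i x => by rw [up_self]; rfl
  map_map := fun k j i hij hjk x => by
    induction k, hjk using Nat.le_induction with
    | base => rw [up_self]; rfl
    | succ k hk ih =>
      rw [up_succ j k hk, up_succ i k (hij.trans hk)]
      simp only [RingHom.comp_apply, ih]

lemma rank_up (i j : ℕ) (h : i ≤ j) (x : Mat F i) :
    (x.rank : ℝ) / 2 ^ i = ((up F i j h x).rank : ℝ) / 2 ^ j := by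
  induction j, h using Nat.le_induction with
  | base => rw [up_self]; rfl
  | succ k hk ih =>
    rw [up_succ i k hk, ih]
    have : (dblHom F k (up F i k hk x)).rank = 2 * (up F i k hk x).rank := by
      change (dbl _).rank = _
      rw [dbl, rank_reindex, rank_blk]
    simp only [RingHom.comp_apply, this, pow_succ]
    push_cast
    field_simp

def U (F : Type) [Field F] : Type := DirectLimit (Mat F) (up F)

noncomputable instance : Ring (U F) := inferInstanceAs (Ring (DirectLimit (Mat F) (up F)))

noncomputable def of (F : Type) [Field F] (n : ℕ) : Mat F n →+* U F :=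
  DirectLimit.Ring.of (Mat F) (up F) n

noncomputable def nrm (z : U F) : ℝ :=
  DirectLimit.lift (up F) (fun n (x : Mat F n) => (x.rank : ℝ) / 2 ^ n) rank_up z

lemma nrm_of (n : ℕ) (x : Mat F n) : nrm (of F n x) = (x.rank : ℝ) / 2 ^ n := rfl

lemma ex2 (z w : U F) : ∃ n x y, z = of F n x ∧ w = of F n y := DirectLimit.exists_eq_mk₂ _ z w

noncomputable def gnorm (F : Type) [Field F] : AddGroupNorm (U F) where
  toFun := nrm
  map_zero' := by rw [← map_zero (of F 0), nrm_of]; simp
  add_le' := fun z w => by
    obtain ⟨n, x, y, rfl, rfl⟩ := ex2 z w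
    rw [← map_add, nrm_of, nrm_of, nrm_of, ← add_div]
    gcongr
    exact_mod_cast rank_add_le' x y
  neg' := fun z => by
    obtain ⟨n, x, y, rfl, -⟩ := ex2 z z
    rw [← map_neg, nrm_of, nrm_of, ← neg_one_smul F x,
      rank_smul_of_mem_nonZeroDivisors _ (by simp)]
  eq_zero_of_map_eq_zero' := fun z hz => by
    obtain ⟨n, x, y, rfl, -⟩ := ex2 z z
    rw [nrm_of, div_eq_zero_iff] at hz
    have h0 : x.rank = 0 := by
      rcases hz with h | h
      · exact_mod_cast h
      · exact absurd h (by positivity)
    have : x = 0 := by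
      unfold Matrix.rank at h0
      rw [Submodule.finrank_eq_zero, LinearMap.range_eq_bot] at h0
      ext i j
      have := congrFun (LinearMap.congr_fun h0 (Pi.single j 1)) i
      simpa using this
    rw [this, map_zero]

noncomputable instance : NormedAddCommGroup (U F) := (gnorm F).toNormedAddCommGroup

lemma norm_of (n : ℕ) (x : Mat F n) : ‖of F n x‖ = (x.rank : ℝ) / 2 ^ n := rfl

lemma norm_mul1 (z w : U F) : ‖z * w‖ ≤ ‖z‖ := by
  obtain ⟨n, x, y, rfl, rfl⟩ := ex2 z w
  rw [← map_mul, norm_of, norm_of]
  gcongr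
  exact rank_mul_le_left _ _

lemma norm_mul2 (z w : U F) : ‖z * w‖ ≤ ‖w‖ := by
  obtain ⟨n, x, y, rfl, rfl⟩ := ex2 z w
  rw [← map_mul, norm_of, norm_of]
  gcongr
  exact rank_mul_le_right _ _

instance : IsTopologicalRing (U F) where
  continuous_mul := by
    refine LipschitzWith.continuous (K := 2) (LipschitzWith.of_dist_le_mul ?_)
    rintro ⟨a, b⟩ ⟨c, d⟩
    simp only [dist_eq_norm, Prod.mk_sub_mk, Prod.norm_mk]
    have : a * b - c * d = (a - c) * b + c * (b - d) := by noncomm_ring
    rw [this]
    have h1 := norm_mul1 (a - c) b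
    have h2 := norm_mul2 c (b - d)
    have := norm_add_le ((a - c) * b) (c * (b - d))
    have := le_max_left ‖a - c‖ ‖b - d‖
    have := le_max_right ‖a - c‖ ‖b - d‖
    push_cast
    linarith

theorem exists_completion (F : Type) [Field F] :
    ∃ (R : Type) (_ : Ring R) (_ : MetricSpace R) (ι : ∀ n, Mat F n →+* R), IsCompletion F R ι := by
  refine ⟨UniformSpace.Completion (U F), inferInstance, inferInstance,
    fun n => UniformSpace.Completion.coeRingHom.comp (of F n), inferInstance, inferInstance, ?_, ?_, ?_⟩
  · intro n x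
    simp only [RingHom.comp_apply]
    congr 1
    have := DirectLimit.Ring.of_f (G := Mat F) (f := up F) (Nat.le_succ n) x
    rw [up_succ n n le_rfl, up_self] at this
    exact this
  · intro n x y
    change dist ((of F n x : U F) : UniformSpace.Completion (U F)) ((of F n y : U F) : _) = _
    rw [UniformSpace.Completion.dist_eq, dist_eq_norm, ← map_sub, norm_of]
  · refine (UniformSpace.Completion.denseRange_coe (α := U F)).mono ?_
    rintro _ ⟨z, rfl⟩
    obtain ⟨n, x, y, rfl, -⟩ := ex2 z z
    exact Set.mem_iUnion.2 ⟨n, x, rfl⟩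

end Pool.Agent.H28.Contr
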