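import Mathlib

set_option autoImplicit false

/-! Definitions for the critical problem: characteristic polynomial, critical exponent,
modular flats, normal matroids. All matroids live on a finite type. -/

namespace Pool.Agent.H28.TangDefs

open scoped Classical

variable {α : Type} [Fintype α]

/-- The characteristic polynomial `p(M; x) = ∑_{X ⊆ E} (-1)^|X| x^(r(E) - r(X))` at an integer. -/
noncomputable def charPoly (M : Matroid α) (x : ℤ) : ℤ :=
  ∑ X ∈ Finset.univ.filter (fun X : Finset α => (↑X : Set α) ⊆ M.E),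
    (-1 : ℤ) ^ X.card * x ^ ((M.eRk M.E).toNat - (M.eRk (↑X : Set α)).toNat)

/-- `c(M; q) ≤ k`: some `j ≤ k` has `p(M; q^j) > 0`. -/
def CritLE (q k : ℕ) (M : Matroid α) : Prop := ∃ j ≤ k, 0 < charPoly M ((q : ℤ) ^ j)

/-- `v` represents `M` over `F`: a subset of the ground set is independent iff its vectors are
linearly independent (as a family). -/
def Represents (F : Type) [Field F] {β : Type} (M : Matroid β) {n : ℕ} (v : β → Fin n → F) : Prop :=
  ∀ I ⊆ M.E, (M.Indep I ↔ LinearIndependent F (fun x : I => v x))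

/-- `M` is representable over `F`. -/
def Representable (F : Type) [Field F] {β : Type} (M : Matroid β) : Prop :=
  ∃ (n : ℕ) (v : β → Fin n → F), Represents F M v

/-- No loops and no parallel pairs. -/
def IsSimple {β : Type} (M : Matroid β) : Prop := ∀ e ∈ M.E, ∀ f ∈ M.E, M.Indep {e, f}

/-- `X` is a modular flat: `r(X) + r(Y) = r(X ∪ Y) + r(X ∩ Y)` for every flat `Y`. -/
def IsModularFlat {β : Type} (M : Matroid β) (X : Set β) : Prop :=
  M.IsFlat X ∧ ∀ Y : Set β, M.IsFlat Y → M.eRk X + M.eRk Y = M.eRk (X ∪ Y) + M.eRk (X ∩ Y)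

/-- `H` is a modular flat of rank `r(M) - 1`. -/
def IsModularHyperplane {β : Type} (M : Matroid β) (H : Set β) : Prop :=
  IsModularFlat M H ∧ M.eRk H + 1 = M.eRk M.E

/-- There are modular flats `X_0 ⊆ X_1 ⊆ ⋯ ⊆ X_r` with `r(X_i) = i`, `r` the rank of `M`. -/
def Supersolvable {β : Type} (M : Matroid β) : Prop :=
  ∃ X : ℕ → Set β, (∀ i : ℕ, (i : ℕ∞) ≤ M.eRk M.E → IsModularFlat M (X i) ∧ M.eRk (X i) = i) ∧
    ∀ i : ℕ, ((i + 1 : ℕ) : ℕ∞) ≤ M.eRk M.E → X i ⊆ X (i + 1)

/-- `M` is isomorphic to the simplification of a quotient `Q` of the cycle matroid `K` of the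
complete graph on `N` vertices: `S` contains no loop or parallel pair of `Q` and meets every
parallel class of non-loops, and `g` is an isomorphism from `M` onto the restriction `Q | S`. -/
def IsSimplifiedQuotientOfComplete {β : Type} (N : ℕ) (M : Matroid β) : Prop :=
  ∃ K Q : Matroid (Sym2 (Fin N)),
    K.E = {e | ¬ e.IsDiag} ∧
    (∀ I ⊆ K.E, (K.Indep I ↔ (SimpleGraph.fromEdgeSet I).IsAcyclic)) ∧
    Q.E = K.E ∧ (∀ X, Q.IsFlat X → K.IsFlat X) ∧
    ∃ S ⊆ Q.E, (∀ e ∈ S, ∀ f ∈ S, Q.Indep {e, f}) ∧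
      (∀ e ∈ Q.E, Q.Indep {e} → ∃ f ∈ S, e = f ∨ ¬ Q.Indep {e, f}) ∧
      ∃ g : β → Sym2 (Fin N),
        Set.InjOn g M.E ∧ g '' M.E = S ∧ ∀ I ⊆ M.E, (M.Indep I ↔ Q.Indep (g '' I))

end Pool.Agent.H28.TangDefs
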