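import Pool.Agent.H28.VecMat
import Pool.Agent.H28.TangDefs

set_option autoImplicit false
set_option linter.unusedSectionVars false

/-! The Crapo-Rota theorem, representations of minors, graphic representations. -/

namespace Pool.Agent.H28.Crit

open Set Submodule Module Pool.Agent.H28.VecMat Pool.Agent.H28.TangDefs
open scoped Matroid

section general

variable {α V : Type*} (F : Type*) [Field F] [AddCommGroup V] [Module F V]

/-- representation by vectors in an arbitrary space -/
def Rep (M : Matroid α) (φ : α → V) : Prop := ∀ I, M.Indep I ↔ LinearIndepOn F φ I ∧ I ⊆ M.E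

variable {F} {M : Matroid α} {φ : α → V}

theorem rep_vecOn (φ : α → V) (E : Set α) (hE : E.Finite) : Rep F (vecOn F φ E hE) φ :=
  fun _ => Iff.rfl

theorem Rep.mem_closure (h : Rep F M φ) {X : Set α} (hX : X ⊆ M.E) {e : α} :
    e ∈ M.closure X ↔ φ e ∈ span F (φ '' X) ∧ e ∈ M.E := mem_closure_iff_of_rep h hX

theorem Rep.eRk (h : Rep F M φ) {X : Set α} (hX : X ⊆ M.E) (hfin : X.Finite) :
    M.eRk X = (finrank F (span F (φ '' X)) : ℕ∞) := eRk_eq_of_rep h hX hfin

theorem Rep.isFlat_iff (h : Rep F M φ) {X : Set α} :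
    M.IsFlat X ↔ X ⊆ M.E ∧ ∀ e ∈ M.E, φ e ∈ span F (φ '' X) → e ∈ X := by
  constructor
  · intro hX
    refine ⟨hX.subset_ground, fun e he hs => ?_⟩
    rw [← hX.closure]
    exact (h.mem_closure hX.subset_ground).2 ⟨hs, he⟩
  · rintro ⟨h1, h2⟩
    rw [Matroid.isFlat_iff_closure_eq]
    refine Subset.antisymm (fun e he => ?_) (M.subset_closure X h1)
    rw [h.mem_closure h1] at he
    exact h2 e he.2 he.1

theorem Rep.isFlat_preimage (h : Rep F M φ) (W : Submodule F V) :
    M.IsFlat {e | e ∈ M.E ∧ φ e ∈ W} := by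
  rw [h.isFlat_iff]
  refine ⟨fun e he => he.1, fun e he hs => ⟨he, ?_⟩⟩
  refine (span_le.2 ?_ : span F _ ≤ W) hs
  rintro _ ⟨x, hx, rfl⟩
  exact hx.2

theorem Rep.delete (h : Rep F M φ) (D : Set α) : Rep F (M ＼ D) φ := by
  intro I
  rw [Matroid.delete_indep_iff, h, Matroid.delete_ground, subset_sdiff, and_assoc]

theorem Rep.contract (h : Rep F M φ) (hE : M.E.Finite) {C : Set α} (hC : C ⊆ M.E) :
    Rep F (M ／ C) ((span F (φ '' C)).mkQ ∘ φ) := by
  have hfin : (M.E \ C).Finite := hE.subset sdiff_subset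
  have : M ／ C = vecOn F ((span F (φ '' C)).mkQ ∘ φ) (M.E \ C) hfin := by
    refine Matroid.ext_closure fun X => ?_
    rw [← Matroid.closure_inter_ground, ← (vecOn F _ _ hfin).closure_inter_ground,
      Matroid.contract_closure_eq]
    simp only [Matroid.contract_ground, vecOn_E]
    ext e
    rw [(rep_vecOn _ _ hfin).mem_closure (by simp), mem_sdiff,
      h.mem_closure (union_subset (inter_subset_right.trans sdiff_subset) hC), image_union,
      span_union, image_comp, ← Submodule.map_span, vecOn_E, mem_sdiff, Function.comp_apply,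
      ← Submodule.mem_comap, Submodule.comap_map_mkQ, sup_comm]
    tauto
  rw [this]
  exact rep_vecOn _ _ _

theorem Rep.ne_zero_of_indep (h : Rep F M φ) {e : α} (he : M.Indep {e}) : φ e ≠ 0 :=
  ((h _).1 he).1.ne_zero rfl

theorem Rep.pair_indep_iff (h : Rep F M φ) {e f : α} (hef : e ≠ f) (he : e ∈ M.E) (hf : f ∈ M.E) :
    M.Indep {e, f} ↔ φ f ≠ 0 ∧ ∀ c : F, c • φ f ≠ φ e := by
  rw [h, linearIndepOn_insert (by simpa using hef), linearIndepOn_singleton_iff, image_singleton,
    mem_span_singleton]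
  simp [insert_subset_iff, he, hf]

end general

section crapo

variable {α : Type} [Fintype α] {V : Type*} {F : Type} [Field F] [Fintype F] [AddCommGroup V]
  [Module F V] [FiniteDimensional F V] {M : Matroid α} {φ : α → V}

theorem rep_of_represents {n : ℕ} {v : α → Fin n → F} (h : Represents F M v) : Rep F M v :=
  fun I => ⟨fun hI => ⟨(h I hI.subset_ground).1 hI, hI.subset_ground⟩,
    fun hI => (h I hI.2).2 hI.1⟩

theorem represents_of_rep {n : ℕ} {v : α → Fin n → F} (h : Rep F M v) : Represents F M v :=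
  fun I hI => ⟨fun hh => ((h I).1 hh).1, fun hh => (h I).2 ⟨hh, hI⟩⟩

theorem count (h : Rep F M φ) (j : ℕ) :
    (Nat.card {L : Fin j → Dual F V // ∀ e ∈ M.E, ∃ i, L i (φ e) ≠ 0} : ℤ) =
      ((Fintype.card F : ℤ) ^ j) ^ (finrank F V - finrank F (span F (φ '' M.E))) *
        charPoly M ((Fintype.card F : ℤ) ^ j) := by
  classical
  have : Finite (Dual F V) := Module.finite_of_finite F
  have : Fintype (Dual F V) := Fintype.ofFinite _
  let E : Finset α := Finset.univ.filter (· ∈ M.E)
  have h1 : (Nat.card {L : Fin j → Dual F V // ∀ e ∈ M.E, ∃ i, L i (φ e) ≠ 0} : ℤ) =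
      ∑ L : Fin j → Dual F V, ∏ e ∈ E, (1 + - (if ∀ i, L i (φ e) = 0 then (1 : ℤ) else 0)) := by
    rw [Nat.card_eq_fintype_card, Fintype.card_subtype, Finset.card_filter]
    push_cast
    refine Finset.sum_congr rfl fun c _ => ?_
    split_ifs with h
    · symm
      refine Finset.prod_eq_one fun e he => ?_
      obtain ⟨i, hi⟩ := h e (Finset.mem_filter.1 he).2
      rw [if_neg fun hh => hi (hh i)]; simp
    · symm
      push Not at h
      obtain ⟨e, he, he'⟩ := h
      refine Finset.prod_eq_zero (i := e) (by simpa [E] using he) ?_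
      rw [if_pos he']; simp
  have hpow : E.powerset = Finset.univ.filter (fun X : Finset α => (↑X : Set α) ⊆ M.E) := by
    ext X
    simp [E, Finset.subset_iff, Set.subset_def]
  rw [h1]
  simp only [Finset.prod_one_add]
  rw [Finset.sum_comm, charPoly, Finset.mul_sum, hpow]
  refine Finset.sum_congr (by congr) fun X hX => ?_
  have hXE : (X : Set α) ⊆ M.E := (Finset.mem_filter.1 hX).2
  simp only [Finset.prod_neg, ← Finset.mul_sum]
  rw [mul_left_comm]
  congr 1
  set A := (span F (φ '' (X : Set α))).dualAnnihilator with hA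
  have hmem : ∀ u : Dual F V, u ∈ A ↔ ∀ e ∈ X, u (φ e) = 0 := by
    intro u
    rw [hA, Submodule.mem_dualAnnihilator]
    constructor
    · exact fun h e he => h _ (subset_span ⟨e, he, rfl⟩)
    · intro h w hw
      have : span F (φ '' (X : Set α)) ≤ LinearMap.ker u := by
        rw [span_le]
        rintro _ ⟨e, he, rfl⟩
        exact h e he
      exact this hw
  have h2 : ∀ c : Fin j → Dual F V, ∏ e ∈ X, (if ∀ i, c i (φ e) = 0 then (1 : ℤ) else 0) =
      ∏ i, if c i ∈ A then (1 : ℤ) else 0 := by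
    intro c
    rw [Finset.prod_ite_zero, Finset.prod_ite_zero]
    simp only [Finset.prod_const_one, Finset.mem_univ, true_imp_iff, hmem]
    congr 1
    exact propext ⟨fun h i e he => h e he i, fun h e he i => h i e he⟩
  simp only [h2]
  rw [← Fintype.piFinset_univ, ← Finset.prod_univ_sum (fun _ => Finset.univ)
    (fun (_ : Fin j) (u : Dual F V) => if u ∈ A then (1 : ℤ) else 0)]
  have h3 : ∑ u : Dual F V, (if u ∈ A then (1 : ℤ) else 0) =
      (Fintype.card F : ℤ) ^ finrank F A := by
    rw [Finset.sum_boole, ← Fintype.card_subtype, Module.card_eq_pow_finrank (K := F)]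
    simp
  have h4 := Subspace.finrank_add_finrank_dualAnnihilator_eq (span F (φ '' (X : Set α)))
  rw [← hA] at h4
  have h5 : finrank F (span F (φ '' (X : Set α))) ≤ finrank F (span F (φ '' M.E)) :=
    Submodule.finrank_mono (span_mono (image_mono hXE))
  have h6 := Submodule.finrank_le (span F (φ '' M.E))
  rw [h3, Finset.prod_const, Finset.card_univ, Fintype.card_fin, ← pow_mul, h.eRk hXE (toFinite _),
    h.eRk Subset.rfl (toFinite _), ENat.toNat_natCast, ENat.toNat_natCast, ← pow_add, ← pow_mul, mul_comm]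
  congr 2
  omega

theorem charPoly_pos_iff (h : Rep F M φ) (j : ℕ) :
    0 < charPoly M ((Fintype.card F : ℤ) ^ j) ↔
      ∃ L : Fin j → Dual F V, ∀ e ∈ M.E, ∃ i, L i (φ e) ≠ 0 := by
  have : Finite (Dual F V) := Module.finite_of_finite F
  have hq : (0 : ℤ) < ((Fintype.card F : ℤ) ^ j) ^ (finrank F V - finrank F (span F (φ '' M.E))) := by
    have : 0 < Fintype.card F := Fintype.card_pos
    positivity
  rw [← mul_pos_iff_of_pos_left hq, ← count h j, Nat.cast_pos, Nat.card_pos_iff, nonempty_subtype]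
  exact and_iff_left inferInstance

theorem critLE_iff (h : Rep F M φ) (k : ℕ) :
    CritLE (Fintype.card F) k M ↔ ∃ L : Fin k → Dual F V, ∀ e ∈ M.E, ∃ i, L i (φ e) ≠ 0 := by
  constructor
  · rintro ⟨j, hj, hpos⟩
    obtain ⟨L, hL⟩ := (charPoly_pos_iff h j).1 hpos
    refine ⟨fun i => if hi : i.1 < j then L ⟨i.1, hi⟩ else 0, fun e he => ?_⟩
    obtain ⟨i, hi⟩ := hL e he
    exact ⟨⟨i.1, by omega⟩, by simpa using hi⟩
  · intro hL
    exact ⟨k, le_rfl, (charPoly_pos_iff h k).2 hL⟩

theorem critLE_minor_iff (h : Rep F M φ) (k : ℕ) {C : Set α} (hC : C ⊆ M.E) (D : Set α) :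
    CritLE (Fintype.card F) k (M ／ C ＼ D) ↔ ∃ L : Fin k → Dual F V,
      (∀ i, ∀ c ∈ C, L i (φ c) = 0) ∧ ∀ e ∈ M.E, e ∉ C → e ∉ D → ∃ i, L i (φ e) ≠ 0 := by
  rw [critLE_iff ((h.contract (toFinite _) hC).delete D)]
  constructor
  · rintro ⟨L, hL⟩
    refine ⟨fun i => (L i).comp (span F (φ '' C)).mkQ, fun i c hc => ?_, fun e he h1 h2 => ?_⟩
    · have : (span F (φ '' C)).mkQ (φ c) = 0 :=
        (Submodule.Quotient.mk_eq_zero _).2 (subset_span ⟨c, hc, rfl⟩)
      rw [LinearMap.comp_apply, this, map_zero]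
    · exact hL e ⟨⟨he, h1⟩, h2⟩
  · rintro ⟨L, h1, h2⟩
    refine ⟨fun i => (span F (φ '' C)).liftQ (L i) ?_, fun e he => ?_⟩
    · rw [span_le]
      rintro _ ⟨c, hc, rfl⟩
      exact h1 i c hc
    · exact h2 e he.1.1 he.1.2 he.2

theorem critLE_contract_iff (h : Rep F M φ) (k : ℕ) {C : Set α} (hC : C ⊆ M.E) :
    CritLE (Fintype.card F) k (M ／ C) ↔ ∃ L : Fin k → Dual F V,
      (∀ i, ∀ c ∈ C, L i (φ c) = 0) ∧ ∀ e ∈ M.E, e ∉ C → ∃ i, L i (φ e) ≠ 0 := by
  have := critLE_minor_iff h k hC ∅
  simpa using this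

/-- If every nonempty flat has a tangent then every loopless proper minor has small critical
exponent. -/
theorem critLE_of_tangents (h : Rep F M φ) (hs : IsSimple M) (k : ℕ)
    (ht : ∀ C ⊆ M.E, C.Nonempty → ∃ L : Fin k → Dual F V, (∀ i, ∀ c ∈ C, L i (φ c) = 0) ∧
      ∀ e ∈ M.E, φ e ∉ span F (φ '' C) → ∃ i, L i (φ e) ≠ 0)
    {C D : Set α} (hC : C ⊆ M.E) (hD : D ⊆ M.E) (hne : (C ∪ D).Nonempty)
    (hl : ∀ e ∈ (M ／ C ＼ D).E, (M ／ C ＼ D).Indep {e}) :
    CritLE (Fintype.card F) k (M ／ C ＼ D) := by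
  rw [critLE_minor_iff h k hC]
  rcases C.eq_empty_or_nonempty with rfl | hCne
  · obtain ⟨d, hd⟩ : D.Nonempty := by simpa using hne
    obtain ⟨L, -, hL⟩ := ht {d} (by simpa using hD hd) (singleton_nonempty d)
    refine ⟨L, by simp, fun e he _ heD => hL e he ?_⟩
    have hed : e ≠ d := fun hh => heD (hh ▸ hd)
    rw [image_singleton, mem_span_singleton]
    rintro ⟨c, hc⟩
    exact ((h.pair_indep_iff hed he (hD hd)).1 (hs e he d (hD hd))).2 c hc
  · obtain ⟨L, hL1, hL⟩ := ht C hC hCne
    refine ⟨L, hL1, fun e he h1 h2 => hL e he fun hsp => ?_⟩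
    have := ((h.contract (toFinite _) hC).delete D).ne_zero_of_indep (hl e ⟨⟨he, h1⟩, h2⟩)
    exact this ((Submodule.Quotient.mk_eq_zero _).2 hsp)

theorem critLE_of_tangents' (h : Rep F M φ) (hs : IsSimple M) (k : ℕ)
    (ht : ∀ C ⊆ M.E, C.Nonempty → ∃ L : Fin k → Dual F V, (∀ i, ∀ c ∈ C, L i (φ c) = 0) ∧
      ∀ e ∈ M.E, φ e ∉ span F (φ '' C) → ∃ i, L i (φ e) ≠ 0)
    {N : Matroid α} (hN : N <m M) (hl : ∀ e ∈ N.E, N.Indep {e}) :
    CritLE (Fintype.card F) k N := by
  obtain ⟨C, D, hC, hD, -, rfl⟩ := hN.isMinor.exists_eq_contract_delete_disjoint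
  refine critLE_of_tangents h hs k ht hC hD ?_ hl
  rw [Set.nonempty_iff_ne_empty]
  intro hh
  rw [union_empty_iff] at hh
  apply hN.ne
  simp [hh.1, hh.2]

end crapo

section graphic

variable {F : Type} [Field F] {V : Type*} [AddCommGroup V] [Module F V] {N : ℕ}

/-- the direction of an edge of the complete graph under a placement of the vertices -/
def dir (p : Fin N → V) (e : Sym2 (Fin N)) : V := p e.inf - p e.sup

theorem dir_mk (p : Fin N → V) (i j : Fin N) :
    dir p s(i, j) = p i - p j ∨ dir p s(i, j) = - (p i - p j) := by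
  rcases le_total i j with h | h
  · left; simp [dir, h]
  · right; simp [dir, h]

theorem dir_mem_iff (p : Fin N → V) (i j : Fin N) (W : Submodule F V) :
    dir p s(i, j) ∈ W ↔ p i - p j ∈ W := by
  rcases dir_mk p i j with h | h <;> rw [h]
  exact W.neg_mem_iff

theorem reachable_iff (J : Set (Sym2 (Fin N))) (u v : Fin N) :
    (SimpleGraph.fromEdgeSet J).Reachable u v ↔
      (Pi.single u 1 - Pi.single v 1 : Fin N → F) ∈
        span F (dir (fun i => (Pi.single i 1 : Fin N → F)) '' J) := by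
  classical
  constructor
  · rintro ⟨w⟩
    induction w with
    | nil => simp
    | @cons a b c hab w ih =>
      have h1 := (dir_mem_iff (F := F) (fun i => (Pi.single i 1 : Fin N → F)) a b _).1
        (subset_span (mem_image_of_mem (dir fun i => (Pi.single i 1 : Fin N → F))
          ((SimpleGraph.fromEdgeSet_adj _).1 hab).1))
      have := Submodule.add_mem _ h1 ih
      simpa using this
  · intro h
    by_contra hn
    let f : (Fin N → F) →ₗ[F] F :=
      ∑ w ∈ Finset.univ.filter (fun w => (SimpleGraph.fromEdgeSet J).Reachable u w), LinearMap.proj w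
    have hf : ∀ i, f (Pi.single i 1) =
        if (SimpleGraph.fromEdgeSet J).Reachable u i then 1 else 0 := by
      intro i
      simp [f, LinearMap.sum_apply, Pi.single_apply]
    have hle : span F (dir (fun i => (Pi.single i 1 : Fin N → F)) '' J) ≤ LinearMap.ker f := by
      rw [span_le]
      rintro _ ⟨e, he, rfl⟩
      induction e using Sym2.ind with
      | h a b =>
        rw [SetLike.mem_coe, dir_mem_iff, LinearMap.mem_ker, map_sub, hf, hf, sub_eq_zero]
        by_cases hab : a = b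
        · rw [hab]
        · have hadj : (SimpleGraph.fromEdgeSet J).Adj a b :=
            (SimpleGraph.fromEdgeSet_adj _).2 ⟨he, hab⟩
          congr 1
          exact propext ⟨fun h => h.trans hadj.reachable, fun h => h.trans hadj.symm.reachable⟩
    have := hle h
    rw [LinearMap.mem_ker, map_sub, hf, hf, if_pos (SimpleGraph.Reachable.refl u), if_neg hn] at this
    simp at this

theorem acyclic_iff (I : Set (Sym2 (Fin N))) (hI : I ⊆ {e | ¬ e.IsDiag}) :
    LinearIndepOn F (dir (fun i => (Pi.single i 1 : Fin N → F))) I ↔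
      (SimpleGraph.fromEdgeSet I).IsAcyclic := by
  rw [linearIndepOn_iff_notMem_span, SimpleGraph.isAcyclic_iff_forall_adj_isBridge]
  have key : ∀ u v : Fin N, (SimpleGraph.fromEdgeSet I).IsBridge s(u, v) ↔
      dir (fun i => (Pi.single i 1 : Fin N → F)) s(u, v) ∉
        span F (dir (fun i => (Pi.single i 1 : Fin N → F)) '' (I \ {s(u, v)})) := by
    intro u v
    rw [SimpleGraph.isBridge_iff, dir_mem_iff, ← reachable_iff]
    have : (SimpleGraph.fromEdgeSet I).deleteEdges {s(u, v)} =
        SimpleGraph.fromEdgeSet (I \ {s(u, v)}) := by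
      ext a b
      simp only [SimpleGraph.deleteEdges_adj, SimpleGraph.fromEdgeSet_adj, mem_sdiff]
      tauto
    rw [this]
  constructor
  · intro h u v huv
    exact (key u v).2 (h _ ((SimpleGraph.fromEdgeSet_adj _).1 huv).1)
  · intro h e he
    induction e using Sym2.ind with
    | h u v =>
      exact (key u v).1 (h ((SimpleGraph.fromEdgeSet_adj _).2 ⟨he, by simpa using hI he⟩))

/-- A simple represented matroid whose points are exactly the directions determined by `N` points
is the simplification of a quotient of the cycle matroid of the complete graph. -/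
theorem normal_of_points {α : Type} {M : Matroid α} {φ : α → V} (h : Rep F M φ) (hs : IsSimple M)
    (p : Fin N → V) (h1 : ∀ e ∈ M.E, ∃ i j, i ≠ j ∧ ∃ c : F, c ≠ 0 ∧ p i - p j = c • φ e)
    (h2 : ∀ i j, p i = p j ∨ ∃ e ∈ M.E, ∃ c : F, p i - p j = c • φ e) (hN : 0 < N) :
    IsSimplifiedQuotientOfComplete N M := by
  classical
  have hfin : {e : Sym2 (Fin N) | ¬ e.IsDiag}.Finite := toFinite _
  have hg : ∀ e, ∃ g : Sym2 (Fin N), ∃ c : Fˣ, e ∈ M.E → ¬ g.IsDiag ∧ dir p g = c • φ e := by
    intro e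
    by_cases he : e ∈ M.E
    · obtain ⟨i, j, hij, c, hc, hp⟩ := h1 e he
      rcases dir_mk p i j with h3 | h3
      · exact ⟨s(i, j), Units.mk0 c hc, fun _ => ⟨by simpa using hij, by rw [h3, hp]; rfl⟩⟩
      · exact ⟨s(i, j), - Units.mk0 c hc, fun _ => ⟨by simpa using hij, by
          rw [h3, hp]; simp [Units.smul_def]⟩⟩
    · exact ⟨s(⟨0, hN⟩, ⟨0, hN⟩), 1, fun hh => absurd hh he⟩
  choose g c hgc using hg
  have hinj : InjOn g M.E := by
    intro e he f hf hef
    by_contra hne
    have h3 := ((h.pair_indep_iff hne he hf).1 (hs e he f hf)).2 ((c e)⁻¹ * c f : Fˣ)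
    apply h3
    have h4 := (hgc e he).2
    rw [hef, (hgc f hf).2] at h4
    rw [← Units.smul_def, mul_smul, h4, inv_smul_smul]
  have hQ := rep_vecOn (F := F) (dir p) _ hfin
  have hiso : ∀ I ⊆ M.E, (M.Indep I ↔ (vecOn F (dir p) _ hfin).Indep (g '' I)) := by
    intro I hI
    rw [h, vecOn_indep, and_iff_left hI, and_iff_left (by
      rintro _ ⟨e, he, rfl⟩; exact (hgc e (hI he)).1)]
    have e1 : LinearIndepOn F (dir p) (g '' I) ↔ LinearIndepOn F (dir p ∘ g) I :=
      ⟨fun hh => hh.comp_of_image (hinj.mono hI), fun hh => hh.image_of_comp _ _⟩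
    rw [e1]
    have e2 : (fun x : I => (dir p ∘ g) x) = (fun x : I => c x) • fun x : I => φ x := by
      funext x
      exact (hgc x (hI x.2)).2
    unfold LinearIndepOn
    rw [e2, LinearIndependent.units_smul_iff]
  refine ⟨vecOn F (dir (fun i => (Pi.single i 1 : Fin N → F))) _ hfin, vecOn F (dir p) _ hfin, rfl,
    fun I hI => ?_, rfl, fun X hX => ?_, g '' M.E, ?_, ?_, ?_, g, hinj, rfl, hiso⟩
  · rw [vecOn_E] at hI
    rw [vecOn_indep, and_iff_left hI, acyclic_iff I hI]
  · rw [hQ.isFlat_iff] at hX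
    rw [(rep_vecOn _ _ hfin).isFlat_iff]
    refine ⟨hX.1, fun e he hsp => hX.2 e he ?_⟩
    let T : (Fin N → F) →ₗ[F] V := Fintype.linearCombination F p
    have hT : ∀ e, T (dir (fun i => (Pi.single i 1 : Fin N → F)) e) = dir p e := by
      intro e
      simp [dir, T]
    have := Submodule.mem_map_of_mem (f := T) hsp
    rw [Submodule.map_span, ← image_comp, hT] at this
    simpa [Function.comp_def, hT] using this
  · rintro _ ⟨e, he, rfl⟩
    exact (hgc e he).1
  · rintro _ ⟨e, he, rfl⟩ _ ⟨f, hf, rfl⟩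
    rw [← image_pair, ← hiso _ (by simp [insert_subset_iff, he, hf])]
    exact hs e he f hf
  · intro e he hind
    have hne := hQ.ne_zero_of_indep hind
    induction e using Sym2.ind with
    | h i j =>
      rcases h2 i j with h3 | ⟨x, hx, d, hd⟩
      · exfalso
        rcases dir_mk p i j with h4 | h4 <;> simp [h4, h3] at hne
      · refine ⟨g x, ⟨x, hx, rfl⟩, ?_⟩
        by_cases heq : s(i, j) = g x
        · exact Or.inl heq
        · right
          rw [hQ.pair_indep_iff heq he (hgc x hx).1, (hgc x hx).2]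
          rintro ⟨-, h5⟩
          rcases dir_mk p i j with h4 | h4
          · apply h5 (d * ((c x)⁻¹ : Fˣ))
            rw [h4, hd, mul_smul, ← Units.smul_def, inv_smul_smul]
          · apply h5 (-d * ((c x)⁻¹ : Fˣ))
            rw [h4, hd, mul_smul, ← Units.smul_def, inv_smul_smul, neg_smul]

end graphic

end Pool.Agent.H28.Crit
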