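import Mathlib

set_option autoImplicit false

namespace Pool.Agent.H28.Crpq

/-- semipaths; the letter `(a, true)` is `a`, the letter `(a, false)` is its inverse -/
def Semi {S V : Type} (E : V → S → V → Prop) : V → List (S × Bool) → V → Prop
  | u, [], v => u = v
  | u, p :: l, v => ∃ w, (if p.2 = true then E u p.1 w else E w p.1 u) ∧ Semi E w l v

def Sat {S V : Type} (E : V → S → V → Prop) (R : RegularExpression (S × Bool)) (u v : V) : Prop :=
  ∃ l ∈ R.matches', Semi E u l v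

structure CQ (S : Type) (k : ℕ) where
  n : ℕ
  free : Fin k → Fin n
  atoms : List (Fin n × RegularExpression (S × Bool) × Fin n)

def CQ.Ans {S : Type} {k : ℕ} (Q : CQ S k) {V : Type} (E : V → S → V → Prop) (a : Fin k → V) : Prop :=
  ∃ h : Fin Q.n → V, (∀ i, h (Q.free i) = a i) ∧ ∀ t ∈ Q.atoms, Sat E t.2.1 (h t.1) (h t.2.2)

def CQ.graph {S : Type} {k : ℕ} (Q : CQ S k) : SimpleGraph (Fin Q.n) :=
  SimpleGraph.fromRel fun u v => ∃ R, (u, R, v) ∈ Q.atoms

def CQ.Acyclic {S : Type} {k : ℕ} (Q : CQ S k) : Prop := Q.graph.IsAcyclic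

/-- the query `Q` is equivalent to the union of the queries in `L` -/
def CQ.EquivU {S : Type} {k : ℕ} (Q : CQ S k) (L : List (CQ S k)) : Prop :=
  ∀ (V : Type) [Finite V] (E : V → S → V → Prop) (a : Fin k → V), Q.Ans E a ↔ ∃ P ∈ L, P.Ans E a

section
variable {W : Type} [DecidableEq W] {G : SimpleGraph W}

def Sep (G : SimpleGraph W) (m u v : W) : Prop := ∀ p : G.Walk u v, m ∈ p.support

omit [DecidableEq W] in
theorem Sep.symm {m u v : W} (h : Sep G m u v) : Sep G m v u := fun p => by simpa using h p.reverse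

theorem sep_of_path (hG : G.IsAcyclic) {m u v : W} (p : G.Walk u v) (hp : p.IsPath)
    (hm : m ∈ p.support) : Sep G m u v := fun q => by
  have := (hG.subsingleton_path u v).elim ⟨p, hp⟩ ⟨q.bypass, q.bypass_isPath⟩
  rw [Subtype.mk.injEq] at this
  exact q.support_bypass_subset_support (this ▸ hm)

theorem median (hG : G.IsAcyclic) (x y z : W) : ∃ m, Sep G m x y ∧ Sep G m x z ∧ Sep G m y z := by
  by_cases h : G.Reachable x y
  swap
  · exact ⟨z, fun p => (h ⟨p⟩).elim, fun p => p.end_mem_support, fun p => p.end_mem_support⟩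
  obtain ⟨p, hp⟩ := h.exists_isPath
  clear h
  induction p with
  | nil => exact ⟨_, fun p => p.start_mem_support, fun p => p.start_mem_support,
      fun p => p.start_mem_support⟩
  | @cons x x' y h p ih =>
    by_cases hs : Sep G x y z
    · exact ⟨x, fun p => p.start_mem_support, fun p => p.start_mem_support, hs⟩
    simp only [Sep, not_forall] at hs
    obtain ⟨w, hw⟩ := hs
    have hp' := (SimpleGraph.Walk.cons_isPath_iff _ _).1 hp
    obtain ⟨m, a1, a2, a3⟩ := ih hp'.1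
    refine ⟨m, sep_of_path hG _ hp (by simp [a1 p]),
      sep_of_path hG (.cons h (p.append w).bypass) ?_ (by simp [a2 _]), a3⟩
    refine (SimpleGraph.Walk.cons_isPath_iff _ _).2 ⟨SimpleGraph.Walk.bypass_isPath _, fun k => ?_⟩
    have := (p.append w).support_bypass_subset_support k
    rw [SimpleGraph.Walk.mem_support_append_iff] at this
    tauto

end

theorem mix {S V : Type} {k : ℕ} (Q : CQ S k) (E : V → S → V → Prop) (m x : Fin Q.n)
    (h₁ h₂ : Fin Q.n → V) (e : h₁ m = h₂ m)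
    (a1 : ∀ t ∈ Q.atoms, Sat E t.2.1 (h₁ t.1) (h₁ t.2.2))
    (a2 : ∀ t ∈ Q.atoms, Sat E t.2.1 (h₂ t.1) (h₂ t.2.2)) :
    ∃ h : Fin Q.n → V, h x = h₁ x ∧ (∀ y, Sep Q.graph m x y → h y = h₂ y) ∧
      ∀ t ∈ Q.atoms, Sat E t.2.1 (h t.1) (h t.2.2) := by
  classical
  refine ⟨fun v => if Sep Q.graph m x v then h₂ v else h₁ v, ?_, fun y hy => if_pos hy, ?_⟩
  · simp only
    split_ifs with h
    · have : m = x := by simpa using h .nil
      rw [← this, e]
    · rfl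
  · rintro ⟨u, R, v⟩ ht
    have key : ∀ u v, Q.graph.Adj u v → Sep Q.graph m x v → ¬ Sep Q.graph m x u → v = m := by
      intro u v h h1 h2
      simp only [Sep, not_forall] at h2
      obtain ⟨w, hw⟩ := h2
      have := h1 (w.concat h)
      simp only [SimpleGraph.Walk.support_concat, List.mem_append, List.mem_singleton] at this
      exact (this.resolve_left hw).symm
    have adj : u ≠ v → Q.graph.Adj u v := fun h => ⟨h, .inl ⟨R, ht⟩⟩
    simp only
    split_ifs with h1 h2 h2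
    · exact a2 _ ht
    · have := key v u (adj (by rintro rfl; exact h2 h1)).symm h1 h2
      rw [this, ← e, ← this]; exact a1 _ ht
    · have := key u v (adj (by rintro rfl; exact h1 h2)) h2 h1
      rw [this, ← e, ← this]; exact a1 _ ht
    · exact a1 _ ht

section
variable {S V : Type} {E : V → S → V → Prop}

theorem Semi.append {l l' : List (S × Bool)} : ∀ {u v w : V}, Semi E u l v → Semi E v l' w →
    Semi E u (l ++ l') w := by
  induction l with
  | nil => intro u v w h h'; cases h; exact h'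
  | cons p l ih => rintro u v w ⟨x, h1, h2⟩ h'; exact ⟨x, h1, ih h2 h'⟩

theorem Semi.split {l l' : List (S × Bool)} : ∀ {u w : V}, Semi E u (l ++ l') w →
    ∃ v, Semi E u l v ∧ Semi E v l' w := by
  induction l with
  | nil => intro u w h; exact ⟨u, rfl, h⟩
  | cons p l ih =>
    rintro u w ⟨x, h1, h2⟩
    obtain ⟨v, a, b⟩ := ih h2
    exact ⟨v, ⟨x, h1, a⟩, b⟩

theorem Semi.rev {l : List (S × Bool)} : ∀ {u v : V}, Semi E u l v → ∃ l', Semi E v l' u := by
  induction l with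
  | nil => intro u v h; exact ⟨[], h.symm⟩
  | cons p l ih =>
    rintro u v ⟨x, h1, h2⟩
    obtain ⟨l', h⟩ := ih h2
    refine ⟨l' ++ [(p.1, !p.2)], h.append ⟨u, ?_, rfl⟩⟩
    revert h1; cases p.2 <;> simp

theorem sat_char (p : S × Bool) (u v : V) :
    Sat E (.char p) u v ↔ if p.2 = true then E u p.1 v else E v p.1 u := by
  constructor
  · rintro ⟨l, hl, h⟩
    have : l = [p] := hl
    subst this
    obtain ⟨w, h, rfl⟩ := h
    exact h
  · exact fun h => ⟨[p], rfl, v, h, rfl⟩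

theorem sat_plus (R R' : RegularExpression (S × Bool)) (u v : V) :
    Sat E (R + R') u v ↔ Sat E R u v ∨ Sat E R' u v := by
  simp only [Sat, RegularExpression.matches'_add, Language.mem_add, or_and_right, exists_or]

theorem sat_mul (R R' : RegularExpression (S × Bool)) (u v : V) :
    Sat E (R * R') u v ↔ ∃ w, Sat E R u w ∧ Sat E R' w v := by
  simp only [Sat, RegularExpression.matches'_mul, Language.mem_mul]
  constructor
  · rintro ⟨_, ⟨a, ha, b, hb, rfl⟩, h⟩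
    obtain ⟨w, h1, h2⟩ := h.split
    exact ⟨w, ⟨a, ha, h1⟩, b, hb, h2⟩
  · rintro ⟨w, ⟨a, ha, h1⟩, b, hb, h2⟩
    exact ⟨_, ⟨a, ha, b, hb, rfl⟩, h1.append h2⟩

end

abbrev RE := RegularExpression (Fin 5 × Bool)

def ch (a : Fin 5) : RE := .char (a, true)
def ci (a : Fin 5) : RE := .char (a, false)
def any : RE := ch 0 + ch 1 + ch 2 + ch 3 + ch 4 + ci 0 + ci 1 + ci 2 + ci 3 + ci 4
def R1 : RE := ch 0 + ch 3 * any.star
def R3 : RE := ch 2 + any.star * ci 4

theorem any_star (l : List (Fin 5 × Bool)) : l ∈ any.star.matches' := by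
  rw [RegularExpression.matches'_star, Language.mem_kstar]
  refine ⟨l.map fun p => [p], by simp [← List.flatMap_def], ?_⟩
  intro y hy
  obtain ⟨⟨a, b⟩, -, rfl⟩ := List.mem_map.1 hy
  rw [← RegularExpression.rmatch_iff_matches']
  clear hy
  revert a b
  decide

abbrev Q0 : CQ (Fin 5) 3 := ⟨4, ![0, 1, 2], [(0, R1, 1), (1, ch 1, 2), (2, R3, 0), (0, ch 3 + ch 4, 3)]⟩
abbrev Q1 : CQ (Fin 5) 3 := ⟨4, ![0, 1, 2], [(1, ch 1, 2), (2, R3, 0), (0, ch 3, 3)]⟩
abbrev Q2 : CQ (Fin 5) 3 := ⟨4, ![0, 1, 2], [(0, R1, 1), (1, ch 1, 2), (0, ch 4, 3)]⟩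

theorem equivU : Q0.EquivU [Q1, Q2] := by
  intro V _ E a
  simp only [List.mem_cons, List.not_mem_nil, or_false, exists_eq_or_imp, exists_eq_left, CQ.Ans,
    Q0, Q1, Q2, forall_eq_or_imp, forall_eq, sat_plus _ (ch 4)]
  constructor
  · rintro ⟨h, e, a1, a2, a3, a4 | a4⟩
    · exact .inl ⟨h, e, a2, a3, a4⟩
    · exact .inr ⟨h, e, a1, a2, a4⟩
  · rintro (⟨h, e, a2, a3, a4⟩ | ⟨h, e, a1, a2, a4⟩)
    · refine ⟨h, e, (sat_plus _ _ _ _).2 (.inr ((sat_mul _ _ _ _).2 ⟨_, a4, ?_⟩)), a2, a3, .inl a4⟩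
      obtain ⟨_, -, b2⟩ := a2
      obtain ⟨_, -, b3⟩ := a3
      obtain ⟨_, -, b4⟩ := a4
      obtain ⟨_, c2⟩ := b2.rev
      obtain ⟨_, c3⟩ := b3.rev
      obtain ⟨_, c4⟩ := b4.rev
      exact ⟨_, any_star _, c4.append (c3.append c2)⟩
    · refine ⟨h, e, a1, a2, (sat_plus _ _ _ _).2 (.inr ((sat_mul _ _ _ _).2 ⟨h 3, ?_, ?_⟩)), .inr a4⟩
      · obtain ⟨_, -, b1⟩ := a1
        obtain ⟨_, -, b2⟩ := a2
        obtain ⟨_, -, b4⟩ := a4
        obtain ⟨_, c1⟩ := b1.rev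
        obtain ⟨_, c2⟩ := b2.rev
        exact ⟨_, any_star _, c2.append (c1.append b4)⟩
      · exact (sat_char (4, false) _ _).2 ((sat_char (4, true) _ _).1 a4)

theorem acyc_of (Q : CQ (Fin 5) 3) (f : Fin Q.n → Fin Q.n → Bool)
    (h : ∀ u v, (∃ R, (u, R, v) ∈ Q.atoms) → f u v = true)
    (h' : (SimpleGraph.fromRel fun u v => f u v = true).IsAcyclic) : Q.Acyclic :=
  SimpleGraph.IsAcyclic.anti (G := Q.graph) (G' := SimpleGraph.fromRel fun u v => f u v = true)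
    (fun u v e => And.intro e.1 (e.2.imp (h u v) (h v u))) h'

theorem tree4 (f : Fin 4 → Fin 4 → Bool)
    (h1 : (SimpleGraph.fromRel fun u v => f u v = true).Connected)
    (h2 : (SimpleGraph.fromRel fun u v => f u v = true).edgeFinset.card = 3) :
    (SimpleGraph.fromRel fun u v => f u v = true).IsAcyclic := by
  refine (SimpleGraph.isTree_iff_connected_and_card.2 ⟨h1, ?_⟩).isAcyclic
  rw [Nat.card_eq_fintype_card, ← SimpleGraph.edgeFinset_card, h2]; simp

theorem acyc1 : Q1.Acyclic := by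
  refine acyc_of Q1 (fun u v : Fin 4 => decide ((u, v) ∈ [((1 : Fin 4), (2 : Fin 4)), (2, 0), (0, 3)]))
    ?_ (tree4 _ (by decide) (by decide))
  rintro u v ⟨R, h⟩
  simp only [Q1, List.mem_cons, Prod.mk.injEq, List.not_mem_nil, or_false] at h
  rcases h with ⟨rfl, -, rfl⟩ | ⟨rfl, -, rfl⟩ | ⟨rfl, -, rfl⟩ <;> rfl

theorem acyc2 : Q2.Acyclic := by
  refine acyc_of Q2 (fun u v : Fin 4 => decide ((u, v) ∈ [((0 : Fin 4), (1 : Fin 4)), (1, 2), (0, 3)]))
    ?_ (tree4 _ (by decide) (by decide))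
  rintro u v ⟨R, h⟩
  simp only [Q2, List.mem_cons, Prod.mk.injEq, List.not_mem_nil, or_false] at h
  rcases h with ⟨rfl, -, rfl⟩ | ⟨rfl, -, rfl⟩ | ⟨rfl, -, rfl⟩ <;> rfl

def E0 (u : Fin 10) (s : Fin 5) (v : Fin 10) : Prop :=
  (s = 0 ∧ v.val < 6 ∧ u.val = 8 + v.val % 2) ∨
  (s = 1 ∧ u.val < 6 ∧ (v = u ∨ v.val = (u.val + 1) % 6)) ∨
  (s = 2 ∧ u.val < 6 ∧ v.val = 6 + u.val % 2) ∨
  (s = 3 ∧ u = v ∧ (u = 6 ∨ u = 7)) ∨ (s = 4 ∧ u = v ∧ (u = 8 ∨ u = 9))

instance (u : Fin 10) (s : Fin 5) (v : Fin 10) : Decidable (E0 u s v) := by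
  unfold E0; infer_instance

def N0 (x y z : Fin 10) : Prop := (E0 x 0 y ∨ ∃ t, E0 x 3 t) ∧ E0 y 1 z ∧ (E0 z 2 x ∨ ∃ t, E0 x 4 t)

instance (x y z : Fin 10) : Decidable (N0 x y z) := by unfold N0; infer_instance

def tx : Fin 12 → Fin 10 := ![6, 7, 6, 7, 6, 7, 8, 9, 8, 9, 8, 9]
def ty : Fin 12 → Fin 10 := ![0, 1, 2, 3, 4, 5, 0, 1, 2, 3, 4, 5]
def tz : Fin 12 → Fin 10 := ![0, 1, 2, 3, 4, 5, 1, 2, 3, 4, 5, 0]

theorem upper (a : Fin 3 → Fin 10) (h : Q0.Ans E0 a) : N0 (a 0) (a 1) (a 2) := by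
  obtain ⟨h, e, k⟩ := h
  simp only [Q0, List.mem_cons, List.not_mem_nil, or_false, forall_eq_or_imp, forall_eq, R1, R3,
    sat_plus, sat_mul, ch, ci, sat_char] at k
  rw [← e 0, ← e 1, ← e 2]
  exact ⟨k.1.imp id fun ⟨w, h, _⟩ => ⟨w, h⟩, k.2.1, k.2.2.1.imp id fun ⟨w, _, h⟩ => ⟨w, h⟩⟩

theorem lower (i : Fin 12) : Q0.Ans E0 ![tx i, ty i, tz i] := by
  rw [equivU]
  have : ∀ i, (E0 (ty i) 1 (tz i) ∧ E0 (tz i) 2 (tx i) ∧ E0 (tx i) 3 (tx i)) ∨
      (E0 (tx i) 0 (ty i) ∧ E0 (ty i) 1 (tz i) ∧ E0 (tx i) 4 (tx i)) := by decide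
  rcases this i with h | h
  · refine ⟨Q1, by simp, ![tx i, ty i, tz i, tx i], fun j => by fin_cases j <;> rfl, ?_⟩
    simp only [Q1, List.mem_cons, List.not_mem_nil, or_false, forall_eq_or_imp, forall_eq, R3,
      sat_plus, ch, sat_char]
    exact ⟨h.1, .inl h.2.1, h.2.2⟩
  · refine ⟨Q2, by simp, ![tx i, ty i, tz i, tx i], fun j => by fin_cases j <;> rfl, ?_⟩
    simp only [Q2, List.mem_cons, List.not_mem_nil, or_false, forall_eq_or_imp, forall_eq, R1,
      sat_plus, ch, sat_char]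
    exact ⟨.inl h.1, h.2.1, h.2.2⟩

theorem not_single (P : CQ (Fin 5) 3) (hP : P.Acyclic) : ¬ Q0.EquivU [P] := by
  intro he
  have he' : ∀ a, Q0.Ans E0 a ↔ P.Ans E0 a := fun a => by simpa using he _ E0 a
  obtain ⟨m, s1, s2, s3⟩ := median hP (P.free 0) (P.free 1) (P.free 2)
  choose h h1 h2 using fun i => (he' _).1 (lower i)
  obtain ⟨i, j, hne, e⟩ := Fintype.exists_ne_map_eq_of_card_lt (fun i => h i m) (by simp)
  have key : ∀ i j, h i m = h j m → N0 (tx i) (ty j) (tz j) ∧ N0 (tx j) (ty i) (tz j) := by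
    intro i j e
    constructor
    · obtain ⟨g, g1, g2, g3⟩ := mix P E0 m (P.free 0) _ _ e (h2 i) (h2 j)
      have := upper _ ((he' _).2 ⟨g, fun _ => rfl, g3⟩)
      simp only [g1, g2 _ s1, g2 _ s2, h1] at this
      exact this
    · obtain ⟨g, g1, g2, g3⟩ := mix P E0 m (P.free 1) _ _ e (h2 i) (h2 j)
      have := upper _ ((he' _).2 ⟨g, fun _ => rfl, g3⟩)
      simp only [g1, g2 _ s1.symm, g2 _ s3, h1] at this
      exact this
  have : ∀ i j : Fin 12, N0 (tx i) (ty j) (tz j) → N0 (tx j) (ty i) (tz j) →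
      N0 (tx j) (ty i) (tz i) → N0 (tx i) (ty j) (tz i) → i = j := by decide
  exact hne (this i j (key i j e).1 (key i j e).2 (key j i e.symm).1 (key j i e.symm).2)

end Pool.Agent.H28.Crpq
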