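import Mathlib

set_option autoImplicit false

namespace Pool.Agent.H28.Ear

def Dg (n : ℕ) (p : ℕ × ℕ) : Prop := 1 ≤ p.1 ∧ p.1 + 2 ≤ p.2 ∧ p.2 ≤ n ∧ ¬ (p.1 = 1 ∧ p.2 = n)

def Cr (p q : ℕ × ℕ) : Prop := p.1 < q.1 ∧ q.1 < p.2 ∧ p.2 < q.2

def Tri (n : ℕ) (T : Finset (ℕ × ℕ)) : Prop :=
  (∀ p ∈ T, Dg n p) ∧ (∀ p ∈ T, ∀ q ∈ T, ¬ Cr p q) ∧ T.card = n - 3

lemma card_le {n : ℕ} (hn : 3 ≤ n) {T : Finset (ℕ × ℕ)} (h1 : ∀ p ∈ T, Dg n p)
    (h2 : ∀ p ∈ T, ∀ q ∈ T, ¬ Cr p q) : T.card ≤ n - 3 := by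
  classical
  have h0 : (1, n) ∉ T := fun h => (h1 _ h).2.2.2 ⟨rfl, rfl⟩
  set S := insert (1, n) T with hS
  have s1 : ∀ p ∈ S, 1 ≤ p.1 ∧ p.1 + 2 ≤ p.2 ∧ p.2 ≤ n := by
    intro p hp
    rcases Finset.mem_insert.1 hp with rfl | hp
    · simp [hn]
    · have := h1 p hp
      unfold Dg at this
      omega
  have s2 : ∀ p ∈ S, ∀ q ∈ S, ¬ Cr p q := by
    intro p hp q hq hc
    have a := s1 p hp
    have b := s1 q hq
    rcases Finset.mem_insert.1 hp with rfl | hp
    · unfold Cr at hc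
      simp only at hc
      omega
    rcases Finset.mem_insert.1 hq with rfl | hq
    · unfold Cr at hc
      simp only at hc
      omega
    exact h2 p hp q hq hc
  let φ : ℕ × ℕ → ℕ := fun p => Nat.findGreatest (fun k => k = p.1 + 1 ∨ (p.1, k) ∈ S) (p.2 - 1)
  have f1 : ∀ p ∈ S, ∀ k, k < p.2 → (k = p.1 + 1 ∨ (p.1, k) ∈ S) → k ≤ φ p :=
    fun p _ k a b => Nat.le_findGreatest (by omega) b
  have f2 : ∀ p ∈ S, φ p < p.2 := fun p hp => by
    have := s1 p hp
    have : φ p ≤ p.2 - 1 := Nat.findGreatest_le _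
    omega
  have f3 : ∀ p ∈ S, φ p = p.1 + 1 ∨ (p.1, φ p) ∈ S := fun p hp =>
    Nat.findGreatest_spec (P := fun k => k = p.1 + 1 ∨ (p.1, k) ∈ S) (m := p.1 + 1)
      (by have := s1 p hp; omega) (Or.inl rfl)
  have f4 : ∀ p ∈ S, p.1 + 1 ≤ φ p := fun p hp =>
    f1 p hp _ (by have := s1 p hp; omega) (Or.inl rfl)
  have key : ∀ p ∈ S, ∀ q ∈ S, φ p = φ q → ¬ (p.1 < q.1 ∨ (p.1 = q.1 ∧ p.2 < q.2)) := by
    rintro p hp q hq e (h | ⟨h, h'⟩)
    · have a := f4 q hq
      have b := f2 q hq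
      rcases f3 p hp with c | c
      · omega
      · exact s2 _ c q hq ⟨h, by simp only; omega, by simp only; omega⟩
    · have a := f1 q hq p.2 h' (Or.inr (h ▸ hp))
      have b := f2 p hp
      omega
  have := Finset.card_le_card_of_injOn φ (s := S) (t := Finset.Ico 2 n)
    (fun p hp => by
      have a := s1 p hp
      have b := f2 p hp
      have c := f4 p hp
      simp only [Finset.coe_Ico, Set.mem_Ico]
      omega)
    (fun p hp q hq e => by
      have a := key p hp q hq e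
      have b := key q hq p hp e.symm
      exact Prod.ext (by omega) (by omega))
  rw [hS, Finset.card_insert_of_notMem h0, Nat.card_Ico] at this
  omega

def ear (n a : ℕ) : ℕ × ℕ := if a = 1 then (2, n) else if a = n then (1, n - 1) else (a - 1, a + 1)

variable {n : ℕ} {T T' : Finset (ℕ × ℕ)}

lemma ear_or (hn : 5 ≤ n) (h : Tri n T) {v : ℕ} (h1 : 1 ≤ v) (h2 : v ≤ n) :
    ear n v ∈ T ∨ ∃ z, (v, z) ∈ T ∨ (z, v) ∈ T := by
  classical
  by_contra hc
  push Not at hc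
  have key : ∀ q ∈ T, ¬ Cr (ear n v) q ∧ ¬ Cr q (ear n v) := by
    intro q hq
    have a := h.1 q hq
    have b : q.1 ≠ v := fun e => (hc.2 q.2).1 (e ▸ hq)
    have c : q.2 ≠ v := fun e => (hc.2 q.1).2 (e ▸ hq)
    unfold Dg at a
    unfold Cr ear
    split_ifs <;> simp only <;> omega
  have := card_le (n := n) (T := insert (ear n v) T) (by omega)
    (fun p hp => by
      rcases Finset.mem_insert.1 hp with rfl | hp
      · unfold Dg ear
        split_ifs <;> simp only <;> omega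
      · exact h.1 p hp)
    (fun p hp q hq => by
      rcases Finset.mem_insert.1 hp with rfl | hp' <;> rcases Finset.mem_insert.1 hq with rfl | hq'
      · exact fun e => lt_irrefl _ e.1
      · exact (key q hq').1
      · exact (key p hp').2
      · exact h.2.1 p hp' q hq')
  rw [Finset.card_insert_of_notMem hc.1, h.2.2] at this
  omega

lemma inside (hn : 5 ≤ n) (h : Tri n T) (l : ℕ) : ∀ x y, y - x = l → (x, y) ∈ T →
    ∃ a, x < a ∧ a < y ∧ ear n a ∈ T := by
  induction l using Nat.strong_induction_on with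
  | _ l ih =>
  intro x y e hp
  have a := h.1 _ hp
  unfold Dg at a
  simp only at a
  rcases ear_or hn h (v := x + 1) (by omega) (by omega) with b | ⟨z, b | b⟩
  · exact ⟨x + 1, by omega, by omega, b⟩
  · have c := h.1 _ b
    have d := h.2.1 _ hp _ b
    unfold Dg at c
    unfold Cr at d
    simp only at c d
    obtain ⟨a, h1, h2, h3⟩ := ih (z - (x + 1)) (by omega) _ _ rfl b
    exact ⟨a, by omega, by omega, h3⟩
  · have c := h.1 _ b
    have d := h.2.1 _ b _ hp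
    unfold Dg at c
    unfold Cr at d
    simp only at c d
    omega

lemma outside (hn : 5 ≤ n) (h : Tri n T) (l : ℕ) : ∀ x y, n - (y - x) = l → (x, y) ∈ T →
    ∃ a, 1 ≤ a ∧ a ≤ n ∧ (a < x ∨ y < a) ∧ ear n a ∈ T := by
  induction l using Nat.strong_induction_on with
  | _ l ih =>
  intro x y e hp
  have a := h.1 _ hp
  unfold Dg at a
  simp only at a
  by_cases hy : y < n
  · rcases ear_or hn h (v := y + 1) (by omega) (by omega) with b | ⟨z, b | b⟩
    · exact ⟨y + 1, by omega, by omega, by omega, b⟩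
    · have c := h.1 _ b
      unfold Dg at c
      simp only at c
      obtain ⟨a, h1, h2, h3⟩ := inside hn h _ _ _ rfl b
      exact ⟨a, by omega, by omega, by omega, h3⟩
    · have c := h.1 _ b
      have d := h.2.1 _ hp _ b
      unfold Dg at c
      unfold Cr at d
      simp only at c d
      obtain ⟨a, h1, h2, h3, h4⟩ := ih (n - (y + 1 - z)) (by omega) _ _ rfl b
      exact ⟨a, by omega, by omega, by omega, h4⟩
  · rcases ear_or hn h (v := x - 1) (by omega) (by omega) with b | ⟨z, b | b⟩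
    · exact ⟨x - 1, by omega, by omega, by omega, b⟩
    · have c := h.1 _ b
      have d := h.2.1 _ b _ hp
      unfold Dg at c
      unfold Cr at d
      simp only at c d
      obtain ⟨a, h1, h2, h3, h4⟩ := ih (n - (z - (x - 1))) (by omega) _ _ rfl b
      exact ⟨a, by omega, by omega, by omega, h4⟩
    · have c := h.1 _ b
      unfold Dg at c
      simp only at c
      obtain ⟨a, h1, h2, h3⟩ := inside hn h _ _ _ rfl b
      exact ⟨a, by omega, by omega, by omega, h3⟩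

lemma fix {X Y : ℕ → Prop} {R S : ℕ → ℕ → Prop} (k : ℕ → ℕ)
    (inj : ∀ x x', X x → X x' → k x = k x' → x = x') (hR : ∀ y, Y y → ∃ x, X x ∧ R x y)
    (hS : ∀ x, X x → ∃ y, Y y ∧ S x y)
    (mR : ∀ x y x' y', X x → X x' → Y y → Y y' → R x y → R x' y' → y < y' → k x' ≤ k x)
    (mS : ∀ x y x' y', X x → X x' → Y y → Y y' → S x y → S x' y' → y < y' → k x' ≤ k x)
    (m : ℕ) (hm : Y m) (hm' : ∀ y, Y y → y ≤ m) : ∃ x y, R x y ∧ S x y := by
  have key : ∀ y, ∀ x y', Y y → X x → R x y → Y y' → S x y' → y' ≤ y → ∃ x y, R x y ∧ S x y := by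
    intro y
    induction y using Nat.strong_induction_on with
    | _ y ih =>
    intro x y' a b c d e f
    rcases f.eq_or_lt with rfl | f
    · exact ⟨x, _, c, e⟩
    obtain ⟨x', g, i⟩ := hR y' d
    obtain ⟨y'', j, l⟩ := hS x' g
    rcases (mR _ _ _ _ g b d a i c f).eq_or_lt with o | o
    · exact ⟨x', y', i, inj _ _ b g o ▸ e⟩
    · refine ih y' f x' y'' d g i j l (not_lt.1 fun u => ?_)
      have := mS _ _ _ _ b g d j e l u
      omega
  obtain ⟨x, a, b⟩ := hR m hm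
  obtain ⟨y, c, d⟩ := hS x a
  exact key m x y hm a b c d (hm' y c)

/-- the ears are exactly at `a < b` -/
def Two (n : ℕ) (T : Finset (ℕ × ℕ)) (a b : ℕ) : Prop :=
  a + 2 ≤ b ∧ ∀ v, 1 ≤ v → v ≤ n → ear n v ∈ T → v = a ∨ v = b

lemma two_adj (hn : 5 ≤ n) (h : Tri n T) {a b : ℕ} (h2 : Two n T a b) {v : ℕ} (h3 : 1 ≤ v)
    (h4 : v ≤ n) (h5 : v ≠ a) (h6 : v ≠ b) : ∃ z, (1 ≤ z ∧ z ≤ n ∧ z ≠ a ∧ z ≠ b ∧
      ((a < v ∧ v < b) ↔ ¬ (a < z ∧ z < b))) ∧ ((z, v) ∈ T ∨ (v, z) ∈ T) := by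
  have key : ∀ x y, (x, y) ∈ T → 1 ≤ x ∧ y ≤ n ∧
      ((x < a ∧ a < y ∧ y < b) ∨ (a < x ∧ x < b ∧ b < y)) := by
    intro x y hp
    have c := h.1 _ hp
    unfold Dg at c
    simp only at c
    obtain ⟨e, e1, e2, e3⟩ := inside hn h _ _ _ rfl hp
    obtain ⟨f, f1, f2, f3, f4⟩ := outside hn h _ _ _ rfl hp
    have := h2.2 e (by omega) (by omega) e3
    have := h2.2 f f1 f2 f4
    have := h2.1
    omega
  rcases ear_or hn h h3 h4 with c | ⟨z, c | c⟩
  · have := h2.2 v h3 h4 c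
    omega
  · have := key _ _ c
    exact ⟨z, by omega, Or.inr c⟩
  · have := key _ _ c
    exact ⟨z, by omega, Or.inl c⟩

lemma mono (h : Tri n T) {c d x y x' y' : ℕ} (h1 : x < c ∨ d < x) (h2 : x' < c ∨ d < x')
    (h3 : c < y) (h4 : y' < d) (a : (x, y) ∈ T ∨ (y, x) ∈ T) (b : (x', y') ∈ T ∨ (y', x') ∈ T)
    (l : y < y') : (if x' < c then x' + n else x') ≤ if x < c then x + n else x := by
  rcases a with a | a <;> rcases b with b | b
  all_goals
    have e1 := h.1 _ a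
    have e2 := h.1 _ b
    have e3 := h.2.1 _ a _ b
    have e4 := h.2.1 _ b _ a
    unfold Dg at e1 e2
    unfold Cr at e3 e4
    simp only at e1 e2 e3 e4
    split_ifs <;> omega

lemma meet (hn : 5 ≤ n) (h : Tri n T) (h' : Tri n T') {a b c d : ℕ} (h2 : Two n T a b)
    (h2' : Two n T' c d) (h0 : d ≤ n) (hc : b < c ∨ (a < c ∧ d < b)) : ¬ Disjoint T T' := by
  have e1 := h2.1
  have e2 := h2'.1
  obtain ⟨x, y, u, w⟩ := fix
    (X := fun x => 1 ≤ x ∧ x ≤ n ∧ x ≠ a ∧ x ≠ b ∧ ((a < c ∧ c < b) ↔ ¬ (a < x ∧ x < b)))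
    (Y := fun y => c < y ∧ y < d) (R := fun x y => (x, y) ∈ T ∨ (y, x) ∈ T)
    (S := fun x y => (x, y) ∈ T' ∨ (y, x) ∈ T') (fun x => if x < c then x + n else x)
    (fun x x' _ _ e => by split_ifs at e <;> omega)
    (fun y hy => by
      obtain ⟨z, p, q⟩ := two_adj hn h h2 (v := y) (by omega) (by omega) (by omega) (by omega)
      exact ⟨z, by omega, q⟩)
    (fun x hx => by
      obtain ⟨z, p, q⟩ := two_adj hn h' h2' (v := x) (by omega) (by omega) (by omega) (by omega)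
      exact ⟨z, by omega, q.symm⟩)
    (fun x y x' y' p q r s => mono h (d := d) (by omega) (by omega) r.1 s.2)
    (fun x y x' y' p q r s => mono h' (d := d) (by omega) (by omega) r.1 s.2)
    (d - 1) (by omega) (fun y hy => by omega)
  rw [Finset.not_disjoint_iff]
  rcases u with u | u <;> rcases w with w | w
  · exact ⟨_, u, w⟩
  · have := (h.1 _ u).2.1
    have := (h'.1 _ w).2.1
    simp only at *
    omega
  · have := (h.1 _ u).2.1
    have := (h'.1 _ w).2.1
    simp only at *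
    omega
  · exact ⟨_, u, w⟩

end Pool.Agent.H28.Ear
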