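import Pool.Agent.H28.Ear1

set_option autoImplicit false

namespace Pool.Agent.H28.Ear

def L1 : List (List ℕ) := [[2,5],[0,6],[1,6],[2,6],[0,2,6],[3,6],[0,3,6],[1,3,6],[2,4,6],[2,7],
  [0,2,7],[3,7],[0,3,7],[1,3,7],[2,4,7],[0,5,7],[1,5,7],[2,5,7],[3,5,7]]

def good (A : List ℕ) : Bool := decide (2 ≤ A.length) && A.all fun i => !A.contains (i + 1)

def nc : List ℕ → List ℕ → Bool
  | [a, b], [c, d] => decide (b < c) || (decide (a < c) && decide (d < b))
  | _, _ => false

def ok (A B : List ℕ) : Bool := (A.all fun i => !B.contains i) && !nc A B && !nc B A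

def SS : List (List ℕ) := (List.range 8).sublists.filter good

lemma fin : (SS.all fun A => SS.all fun B => !(ok A B) || L1.contains A != L1.contains B ||
    SS.all fun C => !(ok A C) || !(ok B C) || L1.contains B != L1.contains C) = true := by
  decide +kernel

variable {n : ℕ} {T T' : Finset (ℕ × ℕ)}

def es (n : ℕ) (T : Finset (ℕ × ℕ)) : List ℕ := (List.range 8).filter fun i => ear n (i + 2) ∈ T

def Win (n : ℕ) (T : Finset (ℕ × ℕ)) : Prop :=
  ∀ a, 1 ≤ a → a ≤ n → ear n a ∈ T → 2 ≤ a ∧ a ≤ 9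

lemma mem_es {i : ℕ} : i ∈ es n T ↔ i < 8 ∧ ear n (i + 2) ∈ T := by simp [es]

lemma es_mem (hn : 10 ≤ n) (h : Tri n T) (w : Win n T) : es n T ∈ SS := by
  refine List.mem_filter.2 ⟨List.mem_sublists.2 List.filter_sublist, ?_⟩
  simp only [good, Bool.and_eq_true, decide_eq_true_eq, List.all_eq_true, Bool.not_eq_true',
    List.contains_eq_mem, decide_eq_false_iff_not]
  constructor
  · obtain ⟨⟨x, y⟩, hp⟩ : T.Nonempty := Finset.card_pos.1 (by rw [h.2.2]; omega)
    have c := h.1 _ hp
    unfold Dg at c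
    simp only at c
    obtain ⟨e, e1, e2, e3⟩ := inside (by omega) h _ _ _ rfl hp
    obtain ⟨f, f1, f2, f3, f4⟩ := outside (by omega) h _ _ _ rfl hp
    have a := w e (by omega) (by omega) e3
    have b := w f f1 f2 f4
    have m1 : e - 2 ∈ es n T := mem_es.2 ⟨by omega, by rwa [Nat.sub_add_cancel a.1]⟩
    have m2 : f - 2 ∈ es n T := mem_es.2 ⟨by omega, by rwa [Nat.sub_add_cancel b.1]⟩
    have : ({e - 2, f - 2} : Finset ℕ) ⊆ (es n T).toFinset := by
      intro z hz
      simp only [Finset.mem_insert, Finset.mem_singleton] at hz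
      rcases hz with rfl | rfl <;> simpa
    have := (Finset.card_le_card this).trans (List.toFinset_card_le _)
    rwa [Finset.card_pair (by omega)] at this
  · intro i a b
    have c := (mem_es.1 b).1
    refine h.2.1 _ (mem_es.1 a).2 _ (mem_es.1 b).2 ?_
    unfold Cr ear
    split_ifs <;> simp only <;> omega

lemma two_of (hn : 10 ≤ n) (h : Tri n T) (w : Win n T) {a b : ℕ} (e : es n T = [a, b]) :
    Two n T (a + 2) (b + 2) ∧ b < 8 := by
  have m1 : a ∈ es n T := by simp [e]
  have m2 : b ∈ es n T := by simp [e]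
  have s : (es n T).Pairwise (· < ·) := List.Pairwise.filter _ List.pairwise_lt_range
  rw [e] at s
  have s : a < b := by simpa using s
  have g := (List.mem_filter.1 (es_mem hn h w)).2
  rw [e] at g
  simp [good] at g
  refine ⟨⟨by omega, fun v h1 h2 h3 => ?_⟩, (mem_es.1 m2).1⟩
  have c := w v h1 h2 h3
  have : v - 2 ∈ es n T := mem_es.2 ⟨by omega, by rwa [Nat.sub_add_cancel c.1]⟩
  rw [e] at this
  simp at this
  omega

lemma nc_false (hn : 10 ≤ n) (h : Tri n T) (h' : Tri n T') (w : Win n T) (w' : Win n T')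
    (d : Disjoint T T') : nc (es n T) (es n T') = false := by
  by_contra e
  unfold nc at e
  split at e
  · rename_i a b c d' e1 e2
    have p := two_of hn h w e1
    have q := two_of hn h' w' e2
    simp at e
    exact meet (by omega) h h' p.1 q.1 (by omega) (by omega) d
  · exact e rfl

lemma ok_of (hn : 10 ≤ n) (h : Tri n T) (h' : Tri n T') (w : Win n T) (w' : Win n T')
    (d : Disjoint T T') : ok (es n T) (es n T') = true := by
  simp only [ok, nc_false hn h h' w w' d, nc_false hn h' h w' w d.symm, Bool.not_false,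
    Bool.and_true, List.all_eq_true, Bool.not_eq_true', List.contains_eq_mem,
    decide_eq_false_iff_not]
  exact fun i a b => Finset.disjoint_left.1 d (mem_es.1 a).2 (mem_es.1 b).2

theorem main (m : ℕ) (hm : 5 ≤ m) : ∃ c : Finset (ℕ × ℕ) → Fin (m - 2), ∀ A B C, Tri (2 * m) A →
    Tri (2 * m) B → Tri (2 * m) C → Disjoint A B → Disjoint A C → Disjoint B C →
      ¬ (c A = c B ∧ c B = c C) := by
  classical
  have : ∀ T : Finset (ℕ × ℕ), ∃ k : Fin (m - 2), (Win (2 * m) T ∧
      k.1 = if L1.contains (es (2 * m) T) then 1 else 0) ∨ ∃ a, ear (2 * m) a ∈ T ∧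
        (a = 1 ∨ 10 ≤ a) ∧ k.1 = (a - 9) / 2 + 2 := by
    intro T
    by_cases w : Win (2 * m) T
    · exact ⟨⟨if L1.contains (es (2 * m) T) then 1 else 0, by split_ifs <;> omega⟩,
        Or.inl ⟨w, rfl⟩⟩
    · unfold Win at w
      push Not at w
      obtain ⟨a, h1, h2, h3, h4⟩ := w
      exact ⟨⟨(a - 9) / 2 + 2, by omega⟩, Or.inr ⟨a, h3, by omega, rfl⟩⟩
  choose c hc using this
  refine ⟨c, fun A B C hA hB hC d1 d2 d3 ⟨e1, e2⟩ => ?_⟩
  have e1 := congrArg Fin.val e1
  have e2 := congrArg Fin.val e2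
  rcases hc A with ⟨wA, kA⟩ | ⟨a, pA, qA, kA⟩ <;> rcases hc B with ⟨wB, kB⟩ | ⟨b, pB, qB, kB⟩ <;>
    rcases hc C with ⟨wC, kC⟩ | ⟨c', pC, qC, kC⟩
  · have hn : 10 ≤ 2 * m := by omega
    have f := List.all_eq_true.1 (List.all_eq_true.1 fin _ (es_mem hn hA wA)) _ (es_mem hn hB wB)
    have g1 : L1.contains (es (2 * m) A) = L1.contains (es (2 * m) B) := by
      rw [kA, kB] at e1
      split_ifs at e1 <;> simp_all
    have g2 : L1.contains (es (2 * m) B) = L1.contains (es (2 * m) C) := by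
      rw [kB, kC] at e2
      split_ifs at e2 <;> simp_all
    rw [ok_of hn hA hB wA wB d1, g1, bne_self_eq_false] at f
    have f := List.all_eq_true.1 f _ (es_mem hn hC wC)
    rw [ok_of hn hA hC wA wC d2, ok_of hn hB hC wB wC d3, g2, bne_self_eq_false] at f
    exact absurd f (by decide)
  any_goals (split_ifs at * <;> omega)
  have : a = b ∨ a = c' ∨ b = c' := by omega
  rcases this with rfl | rfl | rfl
  · exact Finset.disjoint_left.1 d1 pA pB
  · exact Finset.disjoint_left.1 d2 pA pC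
  · exact Finset.disjoint_left.1 d3 pB pC

end Pool.Agent.H28.Ear
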