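import Mathlib

/-! Inverse branches of scaled Chebyshev maps. -/

namespace Pool.Agent.H28.Equi

open Real

noncomputable def ang (N : ℕ) (y : ℝ) : ℝ := arccos (y / N ^ 2)

noncomputable def phi (N : ℕ) (j : ZMod N) (y : ℝ) : ℝ := cos ((2 * π * j.val + ang N y) / N)

variable {N : ℕ} {y y' : ℝ}

lemma div_bd (hN : 2 ≤ N) (hy : |y| ≤ 1) : |y / N ^ 2| ≤ 1 / 2 := by
  have : (2 : ℝ) ≤ N := by exact_mod_cast hN
  rw [abs_div, abs_of_pos (by positivity : (0 : ℝ) < N ^ 2), div_le_iff₀ (by positivity)]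
  nlinarith

lemma one_le_arccos {z : ℝ} (hz : |z| ≤ 1 / 2) : 1 ≤ arccos z := by
  by_contra h
  have h1 := abs_le.1 hz
  have h2 := cos_lt_cos_of_nonneg_of_le_pi (arccos_nonneg z) (by linarith [pi_gt_three]) (not_le.1 h)
  rw [cos_arccos (by linarith) (by linarith)] at h2
  have := @one_sub_sq_div_two_le_cos 1
  linarith

lemma ang_mem (hN : 2 ≤ N) (hy : |y| ≤ 1) : 1 ≤ ang N y ∧ ang N y ≤ π - 1 := by
  refine ⟨one_le_arccos (div_bd hN hy), ?_⟩
  have := one_le_arccos (z := -(y / N ^ 2)) (by rw [abs_neg]; exact div_bd hN hy)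
  rw [arccos_neg] at this
  unfold ang; linarith

lemma cos_ang (hN : 2 ≤ N) (hy : |y| ≤ 1) : cos (ang N y) = y / N ^ 2 := by
  have h1 := abs_le.1 (div_bd hN hy)
  exact cos_arccos (by linarith) (by linarith)

lemma sin_lb {u δ : ℝ} (h : ∀ m : ℤ, δ ≤ |u - m * π|) : 2 / π * δ ≤ |sin u| := by
  have h1 := abs_sub_round (u / π)
  have h2 : |u - round (u / π) * π| ≤ π / 2 := by
    have : u - round (u / π) * π = (u / π - round (u / π)) * π := by field_simp
    rw [this, abs_mul, abs_of_pos pi_pos]; nlinarith [pi_pos]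
  have h3 := mul_abs_le_abs_sin h2
  rw [sin_sub_int_mul_pi, abs_mul, abs_zpow, abs_neg, abs_one, one_zpow, one_mul] at h3
  exact (mul_le_mul_of_nonneg_left (h _) (by positivity)).trans h3

lemma sin_lb' (hN : 2 ≤ N) {p : ℤ} {s δ : ℝ} (h : ∀ m : ℤ, δ ≤ |π * (p - m * N : ℤ) + s|) :
    2 / π * (δ / N) ≤ |sin ((π * p + s) / N)| := by
  have : (0 : ℝ) < N := by exact_mod_cast (by omega : 0 < N)
  refine sin_lb fun m => ?_
  have e : (π * p + s) / N - m * π = (π * (p - m * N : ℤ) + s) / N := by push_cast; field_simp; ring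
  rw [e, abs_div, abs_of_pos this]
  exact div_le_div_of_nonneg_right (h m) this.le

lemma phi_sub (i j : ZMod N) (y y' : ℝ) : |phi N i y - phi N j y'| =
    2 * |sin ((π * ((i.val + j.val : ℤ) : ℝ) + (ang N y + ang N y') / 2) / N)| *
      |sin ((π * ((i.val - j.val : ℤ) : ℝ) + (ang N y - ang N y') / 2) / N)| := by
  rw [phi, phi, cos_sub_cos, abs_mul, abs_mul, abs_neg, abs_two]
  refine congrArg₂ _ (congrArg _ (congrArg _ (congrArg _ ?_))) (congrArg _ (congrArg _ ?_)) <;>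
    push_cast <;> ring

lemma int_lb1 (q : ℤ) {s : ℝ} (h1 : 1 ≤ s) (h2 : s ≤ π - 1) : 1 ≤ |π * q + s| := by
  rcases le_or_gt 0 q with h | h
  · have : (0 : ℝ) ≤ q := by exact_mod_cast h
    exact le_abs.2 (Or.inl (by nlinarith [pi_pos]))
  · have : (q : ℝ) ≤ -1 := by exact_mod_cast (by omega : q ≤ -1)
    exact le_abs.2 (Or.inr (by nlinarith [pi_pos]))

lemma int_lb2 {q : ℤ} {Q : ℕ} (hq : (Q : ℤ) < |q|) {s t : ℝ} (h1 : |s| ≤ t) :
    π * (Q + 1) - t ≤ |π * q + s| := by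
  have h2 : (Q : ℝ) + 1 ≤ |(q : ℝ)| := by exact_mod_cast hq
  have h3 := abs_sub_abs_le_abs_sub (π * q) (-s)
  rw [abs_mul, abs_of_pos pi_pos, abs_neg, sub_neg_eq_add] at h3
  nlinarith [pi_pos]

lemma sum_lb (hN : 2 ≤ N) (hy : |y| ≤ 1) (hy' : |y'| ≤ 1) (p : ℤ) :
    2 / π * (1 / N) ≤ |sin ((π * p + (ang N y + ang N y') / 2) / N)| :=
  sin_lb' hN fun m => int_lb1 _ (by linarith [(ang_mem hN hy).1, (ang_mem hN hy').1])
    (by linarith [(ang_mem hN hy).2, (ang_mem hN hy').2])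

lemma ang_diff (hN : 2 ≤ N) (hy : |y| ≤ 1) (hy' : |y'| ≤ 1) :
    |(ang N y - ang N y') / 2| ≤ π / 2 - 1 :=
  abs_le.2 ⟨by linarith [(ang_mem hN hy).1, (ang_mem hN hy').2],
    by linarith [(ang_mem hN hy).2, (ang_mem hN hy').1]⟩

lemma phi_gap (hN : 2 ≤ N) (hy : |y| ≤ 1) (hy' : |y'| ≤ 1) {i j : ZMod N} (hij : i ≠ j) :
    1 / (2 * N ^ 2) ≤ |phi N i y - phi N j y'| := by
  haveI : NeZero N := ⟨by omega⟩
  have hN' : (0 : ℝ) < N := by exact_mod_cast (by omega : 0 < N)
  have h1 := sum_lb hN hy hy' (i.val + j.val)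
  have h2 := sin_lb' hN (p := i.val - j.val) (s := (ang N y - ang N y') / 2) (δ := 1) fun m => by
    have : ((0 : ℕ) : ℤ) < |(i.val : ℤ) - j.val - m * N| := by
      refine abs_pos.2 fun e => hij ?_
      have := congrArg (Int.cast : ℤ → ZMod N) e
      simpa [sub_eq_zero] using this
    have := int_lb2 this (ang_diff hN hy hy')
    simp only [Nat.cast_zero] at this
    linarith [pi_pos]
  rw [phi_sub]
  have h3 : 1 / 2 * (1 / N : ℝ) ≤ 2 / π * (1 / N) := by
    refine mul_le_mul_of_nonneg_right ?_ (by positivity)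
    rw [div_le_div_iff₀ (by norm_num) pi_pos]; linarith [pi_le_four]
  calc (1 : ℝ) / (2 * N ^ 2) = 2 * (1 / 2 * (1 / N)) * (1 / 2 * (1 / N)) := by field_simp
    _ ≤ _ := by gcongr <;> linarith

lemma phi_far (hN : 2 ≤ N) (hy : |y| ≤ 1) (hy' : |y'| ≤ 1) {i j : ZMod N} (Q : ℕ)
    (h : ∀ q : ℤ, |q| ≤ Q → (q : ZMod N) ≠ i - j ∧ (q : ZMod N) ≠ i + j) :
    8 * (Q / N) ^ 2 ≤ |phi N i y - phi N j y'| := by
  haveI : NeZero N := ⟨by omega⟩
  have hN' : (0 : ℝ) < N := by exact_mod_cast (by omega : 0 < N)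
  have h1 := sin_lb' hN (p := i.val + j.val) (s := (ang N y + ang N y') / 2) (δ := π * Q) fun m => by
    have : (Q : ℤ) < |(i.val : ℤ) + j.val - m * N| := by
      by_contra hc
      exact (h _ (not_lt.1 hc)).2 (by simp)
    have := int_lb2 this (s := (ang N y + ang N y') / 2) (t := π) (abs_le.2
      ⟨by linarith [(ang_mem hN hy).1, (ang_mem hN hy').1, pi_pos],
       by linarith [(ang_mem hN hy).2, (ang_mem hN hy').2]⟩)
    linarith
  have h2 := sin_lb' hN (p := i.val - j.val) (s := (ang N y - ang N y') / 2) (δ := π * Q) fun m => by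
    have : (Q : ℤ) < |(i.val : ℤ) - j.val - m * N| := by
      by_contra hc
      exact (h _ (not_lt.1 hc)).1 (by simp)
    have := int_lb2 this (t := π) ((ang_diff hN hy hy').trans (by linarith [pi_pos]))
    linarith
  rw [phi_sub]
  have e : 2 / π * (π * Q / N) = 2 * (Q / N) := by field_simp
  rw [e] at h1 h2
  calc (8 : ℝ) * (Q / N) ^ 2 = 2 * (2 * (Q / N)) * (2 * (Q / N)) := by ring
    _ ≤ _ := by gcongr

lemma phi_lower (hN : 2 ≤ N) (hy : |y| ≤ 1) (hy' : |y'| ≤ 1) (i : ZMod N) :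
    |y - y'| / (4 * N ^ 4) ≤ |phi N i y - phi N i y'| := by
  have hN2 : (2 : ℝ) ≤ N := by exact_mod_cast hN
  have h1 := sum_lb hN hy hy' (i.val + i.val)
  have h4 := ang_diff hN hy hy'
  have h2 := mul_abs_le_abs_sin (x := (ang N y - ang N y') / 2 / N) (by
    rw [abs_div, abs_of_pos (by positivity : (0 : ℝ) < N), div_le_iff₀ (by positivity)]
    nlinarith [pi_pos])
  have h5 := abs_cos_sub_cos_le (ang N y) (ang N y')
  rw [cos_ang hN hy, cos_ang hN hy', ← sub_div, abs_div,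
    abs_of_pos (by positivity : (0 : ℝ) < N ^ 2)] at h5
  rw [abs_div, abs_div, abs_of_pos (by positivity : (0 : ℝ) < N), abs_two] at h2
  rw [phi_sub, sub_self, Int.cast_zero, mul_zero, zero_add]
  have h3 : 1 / 2 ≤ 2 / π := by
    rw [div_le_div_iff₀ (by norm_num) pi_pos]; linarith [pi_le_four]
  calc |y - y'| / (4 * N ^ 4) = 2 * (1 / 2 * (1 / N)) * (1 / 2 * (|y - y'| / N ^ 2 / 2 / N)) * 1 := by
        field_simp; ring
    _ ≤ 2 * (2 / π * (1 / N)) * (2 / π * (|ang N y - ang N y'| / 2 / N)) * 1 := by gcongr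
    _ ≤ _ := by rw [mul_one]; gcongr

lemma phi_upper (hN : 2 ≤ N) (hy : |y| ≤ 1) (hy' : |y'| ≤ 1) (i : ZMod N) :
    |phi N i y - phi N i y'| ≤ 4 / N ^ 3 * |y - y'| := by
  have hN2 : (2 : ℝ) ≤ N := by exact_mod_cast hN
  have h1 : |y - y'| / N ^ 2 =
      2 * |sin ((ang N y + ang N y') / 2)| * |sin ((ang N y - ang N y') / 2)| := by
    rw [← abs_of_pos (by positivity : (0 : ℝ) < N ^ 2), ← abs_div, sub_div, ← cos_ang hN hy,
      ← cos_ang hN hy', cos_sub_cos, abs_mul, abs_mul]; simp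
  have h2 := sin_lb (u := (ang N y + ang N y') / 2) (δ := 1) fun m => by
    have := int_lb1 (-m) (s := (ang N y + ang N y') / 2)
      (by linarith [(ang_mem hN hy).1, (ang_mem hN hy').1])
      (by linarith [(ang_mem hN hy).2, (ang_mem hN hy').2])
    convert this using 2; push_cast; ring
  have h4 := mul_abs_le_abs_sin ((ang_diff hN hy hy').trans (by linarith))
  have h3 : 1 / 2 ≤ 2 / π := by
    rw [div_le_div_iff₀ (by norm_num) pi_pos]; linarith [pi_le_four]
  have h5 : |ang N y - ang N y'| / 4 ≤ |y - y'| / N ^ 2 := by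
    rw [h1]
    calc _ = 2 * (1 / 2 * 1) * (1 / 2 * |(ang N y - ang N y') / 2|) := by
          rw [abs_div, abs_two]; ring
      _ ≤ 2 * (2 / π * 1) * (2 / π * |(ang N y - ang N y') / 2|) := by gcongr
      _ ≤ _ := by gcongr
  refine (abs_cos_sub_cos_le _ _).trans ?_
  rw [← sub_div, add_sub_add_left_eq_sub, abs_div, abs_of_pos (by positivity : (0 : ℝ) < N)]
  calc _ = 4 / N * (|ang N y - ang N y'| / 4) := by ring
    _ ≤ 4 / N * (|y - y'| / N ^ 2) := by gcongr
    _ = _ := by field_simp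

lemma norm_pair (t θ : ℝ) : ‖Complex.exp (t * Complex.I) - Complex.exp (θ * Complex.I)‖ *
    ‖Complex.exp (t * Complex.I) - Complex.exp ((-θ : ℝ) * Complex.I)‖ = 2 * |cos t - cos θ| := by
  have : (Complex.exp (t * Complex.I) - Complex.exp (θ * Complex.I)) *
      (Complex.exp (t * Complex.I) - Complex.exp ((-θ : ℝ) * Complex.I)) =
      Complex.exp (t * Complex.I) * ((2 * (cos t - cos θ) : ℝ) : ℂ) := by
    push_cast
    rw [Complex.exp_mul_I, Complex.exp_mul_I, Complex.exp_mul_I, Complex.cos_neg, Complex.sin_neg]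
    have h1 := Complex.sin_sq_add_cos_sq (t : ℂ)
    have h2 := Complex.sin_sq_add_cos_sq (θ : ℂ)
    have h3 := Complex.I_sq
    linear_combination (h2 - h1) + (Complex.sin t ^ 2 - Complex.sin θ ^ 2) * h3
  rw [← norm_mul, this, norm_mul, Complex.norm_exp_ofReal_mul_I, one_mul, Complex.norm_real,
    Real.norm_eq_abs, abs_mul, abs_two]

lemma prod_root (hN : 2 ≤ N) (t a : ℝ) :
    ∏ j ∈ Finset.range N, ‖Complex.exp (t * Complex.I) -
      Complex.exp (((2 * π * j + a) / N : ℝ) * Complex.I)‖ =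
    ‖Complex.exp ((N * t : ℝ) * Complex.I) - Complex.exp (a * Complex.I)‖ := by
  have hN0 : (N : ℂ) ≠ 0 := by exact_mod_cast (by omega : N ≠ 0)
  have h := X_pow_sub_C_eq_prod (Complex.isPrimitiveRoot_exp N (by omega)) (by omega : 0 < N)
    (α := Complex.exp ((a / N) * Complex.I)) (a := Complex.exp (a * Complex.I))
    (by rw [← Complex.exp_nat_mul]; congr 1; field_simp)
  have h' := congrArg (Polynomial.eval (Complex.exp (t * Complex.I))) h
  simp only [Polynomial.eval_sub, Polynomial.eval_pow, Polynomial.eval_X, Polynomial.eval_C,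
    Polynomial.eval_prod] at h'
  rw [← norm_prod, ← Complex.exp_nat_mul] at *
  congr 1
  rw [show ((N * t : ℝ) : ℂ) * Complex.I = N * (t * Complex.I) by push_cast; ring, h']
  refine Finset.prod_congr rfl fun j _ => ?_
  rw [← Complex.exp_nat_mul, ← Complex.exp_add]
  congr 2; push_cast; field_simp

lemma prod_cos (hN : 2 ≤ N) (t a : ℝ) :
    2 ^ N * ∏ j ∈ Finset.range N, |cos t - cos ((2 * π * j + a) / N)| =
      2 * |cos (N * t) - cos a| := by
  have h1 := prod_root hN t a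
  have h2 := prod_root hN (-t) a
  have cj : ∀ s u : ℝ, ‖Complex.exp ((-s : ℝ) * Complex.I) - Complex.exp (u * Complex.I)‖ =
      ‖Complex.exp (s * Complex.I) - Complex.exp ((-u : ℝ) * Complex.I)‖ := by
    intro s u
    rw [← Complex.norm_conj, map_sub, ← Complex.exp_conj, ← Complex.exp_conj]
    simp
  rw [show (N : ℝ) * -t = -(N * t) by ring, cj] at h2
  simp only [cj] at h2
  rw [← norm_pair, ← h1, ← h2, ← Finset.prod_mul_distrib]
  simp only [norm_pair]
  rw [Finset.prod_mul_distrib]; simp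

lemma prod_phi (hN : 2 ≤ N) [NeZero N] (hy : |y| ≤ 1) (hy' : |y'| ≤ 1) (i : ZMod N) :
    ∏ j : ZMod N, |phi N i y' - phi N j y| = 2 * |y' - y| / (2 ^ N * N ^ 2) := by
  have hN' : (0 : ℝ) < N := by exact_mod_cast (by omega : 0 < N)
  have h := prod_cos hN ((2 * π * i.val + ang N y') / N) (ang N y)
  rw [mul_div_cancel₀ _ hN'.ne', show 2 * π * i.val + ang N y' = ang N y' + i.val * (2 * π) by ring,
    cos_add_nat_mul_two_pi, cos_ang hN hy, cos_ang hN hy', ← sub_div, abs_div,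
    abs_of_pos (by positivity : (0 : ℝ) < N ^ 2)] at h
  have e : ∏ j : ZMod N, |phi N i y' - phi N j y| = ∏ j ∈ Finset.range N,
      |cos ((ang N y' + i.val * (2 * π)) / N) - cos ((2 * π * j + ang N y) / N)| := by
    refine Finset.prod_bij (fun j _ => j.val) (fun j _ => Finset.mem_range.2 (ZMod.val_lt j))
      (fun a _ b _ h => ZMod.val_injective N h)
      (fun b hb => ⟨b, Finset.mem_univ _, ZMod.val_cast_of_lt (Finset.mem_range.1 hb)⟩) fun j _ => ?_
    rw [phi, phi]; congr 4; ring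
  rw [e, eq_div_iff (by positivity)]
  field_simp at h ⊢
  linarith

lemma phi_abs (j : ZMod N) (y : ℝ) : |phi N j y| ≤ 1 := abs_cos_le_one _

lemma phi_cont (j : ZMod N) : Continuous (phi N j) := by
  unfold phi ang; fun_prop

end Pool.Agent.H28.Equi
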