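import Mathlib

/-! Positive definiteness of the logarithmic kernel on a bounded interval. -/

namespace Pool.Agent.H28.Equi

open MeasureTheory Set ENNReal

noncomputable def En (κ : ℝ → ℝ → ℝ≥0∞) (μ ν : Measure ℝ) : ℝ≥0∞ := ∫⁻ x, ∫⁻ y, κ x y ∂ν ∂μ

def PD (κ : ℝ → ℝ → ℝ≥0∞) : Prop :=
  ∀ (μ ν : Measure ℝ) [IsProbabilityMeasure μ] [IsProbabilityMeasure ν],
    En κ μ ν + En κ μ ν ≤ En κ μ μ + En κ ν ν

lemma two_mul_le' {a b : ℝ≥0∞} (ha : a ≠ ⊤) (hb : b ≠ ⊤) : a * b + a * b ≤ a * a + b * b := by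
  lift a to NNReal using ha
  lift b to NNReal using hb
  norm_cast
  rw [← NNReal.coe_le_coe]
  push_cast
  nlinarith [sq_nonneg ((a : ℝ) - b)]

lemma pd_ind {A : Set ℝ} (hA : MeasurableSet A) :
    PD fun x y => A.indicator 1 x * A.indicator 1 y := by
  have : ∀ μ ν : Measure ℝ, En (fun x y => A.indicator 1 x * A.indicator 1 y) μ ν = μ A * ν A := by
    intro μ ν
    have hm : Measurable (A.indicator (1 : ℝ → ℝ≥0∞)) := measurable_one.indicator hA
    simp only [En, lintegral_const_mul _ hm, lintegral_mul_const _ hm, lintegral_indicator_one hA]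
  intro μ ν _ _
  simp only [this]
  exact two_mul_le' (measure_ne_top _ _) (measure_ne_top _ _)

lemma en_mix (Θ : Measure ℝ) [SFinite Θ] (g : ℝ → ℝ → ℝ → ℝ≥0∞)
    (hg : Measurable fun p : (ℝ × ℝ) × ℝ => g p.1.1 p.1.2 p.2) (μ ν : Measure ℝ) [SFinite μ]
    [SFinite ν] : En (fun x y => ∫⁻ t, g t x y ∂Θ) μ ν = ∫⁻ t, En (g t) μ ν ∂Θ ∧
      Measurable fun t => En (g t) μ ν := by
  have h1 : Measurable fun p : ℝ × ℝ => ∫⁻ y, g p.1 p.2 y ∂ν := hg.lintegral_prod_right'
  refine ⟨?_, h1.lintegral_prod_right'⟩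
  unfold En
  rw [lintegral_lintegral_swap (f := fun t x => ∫⁻ y, g t x y ∂ν) h1.aemeasurable]
  refine lintegral_congr fun x => ?_
  exact (lintegral_lintegral_swap (f := fun t y => g t x y) (hg.comp
    (show Measurable fun p : ℝ × ℝ => ((p.1, x), p.2) by fun_prop)).aemeasurable).symm

lemma pd_mix (Θ : Measure ℝ) [SFinite Θ] (g : ℝ → ℝ → ℝ → ℝ≥0∞)
    (hg : Measurable fun p : (ℝ × ℝ) × ℝ => g p.1.1 p.1.2 p.2) (h : ∀ t, PD (g t)) :
    PD fun x y => ∫⁻ t, g t x y ∂Θ := by
  intro μ ν _ _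
  rw [(en_mix Θ g hg μ ν).1, (en_mix Θ g hg μ μ).1, (en_mix Θ g hg ν ν).1,
    ← lintegral_add_left (en_mix Θ g hg μ ν).2, ← lintegral_add_left (en_mix Θ g hg μ μ).2]
  exact lintegral_mono fun t => h t μ ν

lemma pd_tri (s : ℝ) : PD fun x y => ENNReal.ofReal (s - |x - y|) := by
  have := pd_mix volume (fun a x y => (Icc a (a + s)).indicator 1 x * (Icc a (a + s)).indicator 1 y)
    (by
      simp only [indicator, mem_Icc, Pi.one_apply]
      refine (Measurable.ite ?_ measurable_const measurable_const).mul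
        (Measurable.ite ?_ measurable_const measurable_const) <;>
      measurability)
    fun a => pd_ind measurableSet_Icc
  convert this using 3 with x y
  have e : ∀ a, (Icc a (a + s)).indicator (1 : ℝ → ℝ≥0∞) x * (Icc a (a + s)).indicator 1 y =
      (Icc (max x y - s) (min x y)).indicator 1 a := by
    intro a
    simp only [indicator, mem_Icc, Pi.one_apply, sub_le_iff_le_add, max_le_iff, le_min_iff]
    split_ifs <;> simp_all
  simp only [e]
  rw [lintegral_indicator_one measurableSet_Icc, Real.volume_Icc]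
  congr 1
  rcases le_total x y with h | h
  · rw [abs_of_nonpos (by linarith), max_eq_right h, min_eq_left h]; ring
  · rw [abs_of_nonneg (by linarith), max_eq_left h, min_eq_right h]; ring

noncomputable def wt : Measure ℝ :=
  (volume.restrict (Ioc 0 3)).withDensity (fun s => ENNReal.ofReal (1 / s ^ 2)) +
    ENNReal.ofReal (1 / 3) • Measure.dirac 3

instance wt_sfinite : SFinite wt := by unfold wt; infer_instance

noncomputable def Lk (x y : ℝ) : ℝ≥0∞ :=
  if x = y then ⊤ else ENNReal.ofReal (Real.log 3 - Real.log (dist x y))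

lemma int_tri {u : ℝ} (h0 : 0 < u) (h3 : u ≤ 3) :
    ∫⁻ s, ENNReal.ofReal (s - u) ∂wt = ENNReal.ofReal (Real.log 3 - Real.log u) := by
  have hl : Real.log (u / 3) ≤ u / 3 - 1 := Real.log_le_sub_one_of_pos (by positivity)
  rw [Real.log_div h0.ne' (by norm_num)] at hl
  rw [wt, lintegral_add_measure, lintegral_smul_measure, lintegral_dirac,
    lintegral_withDensity_eq_lintegral_mul _ (by fun_prop) (by fun_prop)]
  have h1 : ∫⁻ s in Ioc 0 3, ((fun s : ℝ => ENNReal.ofReal (1 / s ^ 2)) *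
      fun s => ENNReal.ofReal (s - u)) s = ENNReal.ofReal (Real.log 3 - Real.log u + u / 3 - 1) := by
    rw [← Ioc_union_Ioc_eq_Ioc h0.le h3, lintegral_union measurableSet_Ioc (Ioc_disjoint_Ioc_of_le le_rfl),
      setLIntegral_congr_fun (s := Ioc u 3) (g := fun s => ENNReal.ofReal (1 / s ^ 2 * (s - u)))
        measurableSet_Ioc
        fun s hs => by simp only [Pi.mul_apply]; rw [ENNReal.ofReal_mul (by positivity)],
      setLIntegral_congr_fun (s := Ioc 0 u) (g := fun _ => 0) measurableSet_Ioc fun s hs => by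
        simp [ENNReal.ofReal_of_nonpos (sub_nonpos.2 hs.2)]]
    have hc : ContinuousOn (fun s : ℝ => 1 / s ^ 2 * (s - u)) (uIcc u 3) := by
      refine ContinuousOn.mul (continuousOn_const.div (by fun_prop) fun s hs => ?_) (by fun_prop)
      rw [uIcc_of_le h3] at hs
      have := h0.trans_le hs.1
      positivity
    rw [lintegral_zero, zero_add, ← ofReal_integral_eq_lintegral_ofReal
      ((intervalIntegrable_iff_integrableOn_Ioc_of_le h3).1 hc.intervalIntegrable)
      ((ae_restrict_iff' measurableSet_Ioc).2 (Filter.Eventually.of_forall fun s hs =>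
        mul_nonneg (by positivity) (sub_nonneg.2 hs.1.le))),
      ← intervalIntegral.integral_of_le h3,
      intervalIntegral.integral_eq_sub_of_hasDerivAt (f := fun s => Real.log s + u * s⁻¹)
        (fun s hs => ?_) hc.intervalIntegrable]
    · congr 1; field_simp; ring
    · rw [uIcc_of_le h3] at hs
      have := h0.trans_le hs.1
      refine ((Real.hasDerivAt_log this.ne').fun_add ((hasDerivAt_inv this.ne').const_mul u)).congr_deriv ?_
      field_simp; ring
  rw [h1, smul_eq_mul, ← ENNReal.ofReal_mul (by norm_num),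
    ← ENNReal.ofReal_add (by linarith) (by nlinarith)]
  congr 1; ring

lemma Lk_eq {x y : ℝ} (h : |x - y| ≤ 3) : Lk x y = ∫⁻ s, ENNReal.ofReal (s - |x - y|) ∂wt := by
  unfold Lk
  split_ifs with e
  · subst e
    symm
    refine ENNReal.eq_top_of_forall_nnreal_le fun r => ?_
    have h1 : Real.exp (-r) ≤ 1 := Real.exp_le_one_iff.2 (by simp)
    have := int_tri (u := 3 * Real.exp (-r)) (by positivity) (by linarith)
    rw [Real.log_mul (by norm_num) (by positivity), Real.log_exp] at this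
    calc (r : ℝ≥0∞) = ENNReal.ofReal (Real.log 3 - (Real.log 3 + -r)) := by simp
      _ ≤ _ := by
        rw [← this]
        refine lintegral_mono fun s => ENNReal.ofReal_le_ofReal ?_
        have := Real.exp_pos (-r)
        simp only [sub_self, abs_zero]; linarith
  · rw [int_tri (abs_pos.2 (sub_ne_zero.2 e)) h, Real.dist_eq]

lemma energy_min {K : Set ℝ} (hK : K ⊆ Icc (-1) 1) (μ ν : Measure ℝ) [IsProbabilityMeasure μ]
    [IsProbabilityMeasure ν] (hμ : μ Kᶜ = 0) (hν : ν Kᶜ = 0) {c : ℝ≥0∞} (hc : c ≠ ⊤)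
    (h : ∀ x ∈ K, ∫⁻ y, Lk x y ∂μ = c) : En Lk μ μ = c ∧ En Lk μ μ ≤ En Lk ν ν := by
  have ae : ∀ α : Measure ℝ, α Kᶜ = 0 → ∀ᵐ x ∂α, x ∈ K := fun α hα => hα
  have h1 : ∀ (α : Measure ℝ) [IsProbabilityMeasure α], α Kᶜ = 0 → En Lk α μ = c := by
    intro α _ hα
    rw [En, lintegral_congr_ae (g := fun _ => c) ((ae α hα).mono h)]
    simp
  have h2 : ∀ α β : Measure ℝ, α Kᶜ = 0 → β Kᶜ = 0 → En Lk α β =
      En (fun x y => ∫⁻ s, ENNReal.ofReal (s - |x - y|) ∂wt) α β := by
    intro α β hα hβ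
    refine lintegral_congr_ae ((ae α hα).mono fun x hx' => ?_)
    refine lintegral_congr_ae ((ae β hβ).mono fun y hy' => Lk_eq ?_)
    have := hK hx'
    have := hK hy'
    simp only [mem_Icc] at *
    exact abs_le.2 ⟨by linarith, by linarith⟩
  have h3 := pd_mix wt (fun s x y => ENNReal.ofReal (s - |x - y|)) (by fun_prop) pd_tri ν μ
  rw [← h2 _ _ hν hμ, ← h2 _ _ hν hν, ← h2 _ _ hμ hμ, h1 ν hν, h1 μ hμ] at h3
  exact ⟨h1 μ hμ, (h1 μ hμ).le.trans ((ENNReal.add_le_add_iff_right hc).1 h3)⟩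

end Pool.Agent.H28.Equi
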