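import Mathlib
import Pool.Agent.H28.Equi1

namespace Pool.Agent.H28.Equi

open Real Filter Topology MeasureTheory

def PP : ℕ → ℕ
  | 0 => 1
  | n + 1 => PP n * (16 * (17 * PP n))

def NN (n : ℕ) : ℕ := 17 * PP n

lemma PP_pos (n : ℕ) : 1 ≤ PP n := by
  induction n with
  | zero => exact le_rfl
  | succ n ih => exact Nat.mul_pos ih (by omega)

lemma NN2 (n : ℕ) : 2 ≤ NN n := by have := PP_pos n; unfold NN; omega

lemma NN2' (n : ℕ) : (2 : ℝ) ≤ NN n := by exact_mod_cast NN2 n

instance nn_neZero (n : ℕ) : NeZero (NN n) := ⟨by have := NN2 n; omega⟩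

abbrev Om := ∀ i, ZMod (NN i)

instance omMeas : MeasurableSpace Om := borel Om

instance omBorel : BorelSpace Om := ⟨rfl⟩

noncomputable def Phi : ℕ → ℕ → Om → ℝ
  | 0, _, _ => 0
  | n + 1, k, η => phi (NN k) (η k) (Phi n (k + 1) η)

lemma Phi_abs (n k : ℕ) (η : Om) : |Phi n k η| ≤ 1 := by
  cases n with
  | zero => simp [Phi]
  | succ n => exact phi_abs _ _

lemma half (k : ℕ) : (4 : ℝ) / NN k ^ 3 ≤ 1 / 2 := by
  have := NN2' k
  rw [div_le_div_iff₀ (by positivity) (by norm_num)]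
  nlinarith [pow_le_pow_left₀ (by norm_num) this 3]

lemma abs_two' {x y : ℝ} (hx : |x| ≤ 1) (hy : |y| ≤ 1) : |x - y| ≤ 2 :=
  (abs_sub _ _).trans (by linarith)

lemma Phi_cauchy (η : Om) (n : ℕ) : ∀ k, dist (Phi n k η) (Phi (n + 1) k η) ≤ 2 * (1 / 2) ^ n := by
  induction n with
  | zero => intro k; simpa [Real.dist_eq] using abs_two' (Phi_abs 0 k η) (Phi_abs 1 k η)
  | succ n ih =>
    intro k
    refine (phi_upper (NN2 k) (Phi_abs n (k + 1) η) (Phi_abs (n + 1) (k + 1) η) (η k)).trans ?_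
    calc _ ≤ 1 / 2 * (2 * (1 / 2) ^ n : ℝ) := mul_le_mul (half k) (ih _) (abs_nonneg _) (by norm_num)
      _ = _ := by ring

noncomputable def pr (k : ℕ) (η : Om) : ℝ := limUnder atTop fun n => Phi n k η

lemma pr_tendsto (k : ℕ) (η : Om) : Tendsto (fun n => Phi n k η) atTop (𝓝 (pr k η)) :=
  (cauchySeq_of_le_geometric (1 / 2) 2 (by norm_num) fun n => Phi_cauchy η n k).tendsto_limUnder

lemma pr_eq (k : ℕ) (η : Om) : pr k η = phi (NN k) (η k) (pr (k + 1) η) :=
  tendsto_nhds_unique ((tendsto_add_atTop_iff_nat 1).2 (pr_tendsto k η))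
    (((phi_cont (η k)).tendsto _).comp (pr_tendsto (k + 1) η))

lemma pr_abs (k : ℕ) (η : Om) : |pr k η| ≤ 1 := pr_eq k η ▸ phi_abs _ _

lemma pr_congr {k : ℕ} {η η' : Om} (h : ∀ i, k ≤ i → η i = η' i) : pr k η = pr k η' := by
  have : ∀ n k, (∀ i, k ≤ i → η i = η' i) → Phi n k η = Phi n k η' := by
    intro n
    induction n with
    | zero => intro _ _; rfl
    | succ n ih => intro k h; rw [Phi, Phi, h k le_rfl, ih _ fun i hi => h i (by omega)]
  unfold pr
  simp only [this _ k h]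

lemma pr_upper (η η' : Om) (n : ℕ) : ∀ k, (∀ i, k ≤ i → i < k + n → η i = η' i) →
    |pr k η - pr k η'| ≤ (∏ l ∈ Finset.Ico k (k + n), (4 : ℝ) / NN l ^ 3) * 2 := by
  induction n with
  | zero => intro k _; simpa using abs_two' (pr_abs _ _) (pr_abs _ _)
  | succ n ih =>
    intro k h
    rw [pr_eq k η, pr_eq k η', ← h k le_rfl (by omega), Finset.prod_eq_prod_Ico_succ_bot (by omega),
      mul_assoc, show k + (n + 1) = k + 1 + n by omega]
    exact (phi_upper (NN2 k) (pr_abs _ _) (pr_abs _ _) _).trans (mul_le_mul_of_nonneg_left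
      (ih _ fun i h1 h2 => h i (by omega) (by omega)) (by positivity))

lemma a_le (k : ℕ) : (1 : ℝ) / (4 * NN k ^ 4) ≤ 1 / (2 * NN k ^ 2) ∧ (1 : ℝ) / (2 * NN k ^ 2) ≤ 1 := by
  have := NN2' k
  have h2 : (1 : ℝ) ≤ NN k ^ 2 := by nlinarith
  constructor
  · exact one_div_le_one_div_of_le (by positivity) (by nlinarith)
  · rw [div_le_one (by positivity)]; linarith

lemma pr_lower (η η' : Om) (n : ℕ) : ∀ k, (∃ i, k ≤ i ∧ i ≤ k + n ∧ η i ≠ η' i) →
    (∏ l ∈ Finset.Ico k (k + n), (1 : ℝ) / (4 * NN l ^ 4)) * (1 / (2 * NN (k + n) ^ 2)) ≤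
      |pr k η - pr k η'| := by
  induction n with
  | zero =>
    rintro k ⟨i, h1, h2, h⟩
    obtain rfl : i = k := by omega
    rw [pr_eq i η, pr_eq i η']
    simpa using phi_gap (NN2 i) (pr_abs _ _) (pr_abs _ _) h
  | succ n ih =>
    rintro k ⟨i, h1, h2, h⟩
    rw [pr_eq k η, pr_eq k η', Finset.prod_eq_prod_Ico_succ_bot (by omega), mul_assoc,
      show k + (n + 1) = k + 1 + n by omega]
    by_cases e : η k = η' k
    · rw [← e]
      refine le_trans ?_ (phi_lower (NN2 k) (pr_abs _ _) (pr_abs _ _) _)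
      rw [div_eq_inv_mul |_|, one_div]
      refine mul_le_mul_of_nonneg_left (ih _ ⟨i, ?_, by omega, h⟩) (by positivity)
      by_contra hc
      obtain rfl : i = k := by omega
      exact h e
    · refine le_trans ?_ (phi_gap (NN2 k) (pr_abs _ _) (pr_abs _ _) e)
      refine (mul_le_of_le_one_right (by positivity) (mul_le_one₀ (Finset.prod_le_one
        (fun l _ => by positivity) fun l _ => (a_le l).1.trans (a_le l).2) (by positivity)
        (a_le _).2)).trans (a_le k).1

lemma prod_half (k n : ℕ) : (∏ l ∈ Finset.Ico k (k + n), (4 : ℝ) / NN l ^ 3) ≤ (1 / 2) ^ n := by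
  refine (Finset.prod_le_prod (fun l _ => by positivity) fun l _ => half l).trans ?_
  simp

lemma pr_cont (k : ℕ) : Continuous (pr k) := by
  refine continuous_iff_continuousAt.2 fun η => Metric.tendsto_nhds.2 fun ε hε => ?_
  obtain ⟨n, hn⟩ := exists_pow_lt_of_lt_one (half_pos hε) (by norm_num : (1 / 2 : ℝ) < 1)
  have : ∀ᶠ η' in 𝓝 η, ∀ i ∈ Finset.range (k + n), η' i = η i :=
    (eventually_all_finset _).2 fun i _ => (continuous_apply i).continuousAt.eventually
      ((isOpen_discrete {η i}).mem_nhds rfl)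
  filter_upwards [this] with η' h
  have h1 := pr_upper η' η n k fun i _ hi => h i (Finset.mem_range.2 hi)
  have h2 := prod_half k n
  rw [Real.dist_eq]; linarith

lemma sep (n : ℕ) : (∏ l ∈ Finset.Ico 0 (0 + (n + 1)), (4 : ℝ) / NN l ^ 3) * 2 <
    (∏ l ∈ Finset.Ico 0 (0 + n), (1 : ℝ) / (4 * NN l ^ 4)) * (1 / (2 * NN (0 + n) ^ 2)) := by
  have h : ∀ n, (∏ l ∈ Finset.range n, (4 : ℝ) / NN l ^ 3) =
      PP n * ∏ l ∈ Finset.range n, (1 : ℝ) / (4 * NN l ^ 4) := by
    intro n
    induction n with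
    | zero => simp [PP]
    | succ n ih =>
      have := NN2' n
      rw [Finset.prod_range_succ, Finset.prod_range_succ, ih, PP, ← NN]
      push_cast; field_simp; ring
  simp only [zero_add, Nat.Ico_zero_eq_range]
  rw [Finset.prod_range_succ, h]
  have h1 : 0 < ∏ l ∈ Finset.range n, (1 : ℝ) / (4 * NN l ^ 4) :=
    Finset.prod_pos fun l _ => by have := NN2' l; positivity
  have h2 : (1 : ℝ) ≤ PP n := by exact_mod_cast PP_pos n
  have h3 : (NN n : ℝ) = 17 * PP n := by simp [NN]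
  rw [mul_comm (PP n : ℝ), mul_assoc, mul_assoc]
  refine mul_lt_mul_of_pos_left ?_ h1
  rw [h3]; field_simp; norm_num

noncomputable def Pm : Measure Om := Measure.addHaarMeasure ⊤

instance pm_prob : IsProbabilityMeasure Pm :=
  ⟨by simpa [Pm] using Measure.addHaarMeasure_self (K₀ := (⊤ : TopologicalSpace.PositiveCompacts Om))⟩

instance pm_inv : Pm.IsAddLeftInvariant := by unfold Pm; infer_instance

lemma avg (k : ℕ) {g : ℝ → ENNReal} (hg : Measurable g) :
    (NN k : ENNReal) * ∫⁻ η, g (pr k η) ∂Pm =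
      ∫⁻ η, ∑ j : ZMod (NN k), g (phi (NN k) j (pr (k + 1) η)) ∂Pm := by
  have h1 : ∀ j : ZMod (NN k), ∫⁻ η, g (pr k η) ∂Pm =
      ∫⁻ η, g (phi (NN k) (j + η k) (pr (k + 1) η)) ∂Pm := by
    intro j
    rw [← lintegral_add_left_eq_self (fun η => g (pr k η)) (Pi.single k j)]
    refine lintegral_congr fun η => ?_
    rw [pr_eq, pr_congr (η' := η) fun i hi => by simp [Pi.single_eq_of_ne (show i ≠ k by omega)]]
    simp
  have h2 : ∀ j : ZMod (NN k), Measurable fun η : Om => g (phi (NN k) (j + η k) (pr (k + 1) η)) := by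
    intro j
    refine hg.comp (Continuous.measurable ?_)
    have : Continuous fun p : ZMod (NN k) × ℝ => phi (NN k) (j + p.1) p.2 :=
      continuous_prod_of_discrete_left.2 fun a => phi_cont (j + a)
    have h4 : Continuous fun η : Om => η k := continuous_apply k
    have h3 : Continuous fun η : Om => (η k, pr (k + 1) η) := h4.prodMk (pr_cont (k + 1))
    exact Continuous.comp (g := fun p : ZMod (NN k) × ℝ => phi (NN k) (j + p.1) p.2)
      (f := fun η : Om => (η k, pr (k + 1) η)) this h3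
  calc _ = ∑ j : ZMod (NN k), ∫⁻ η, g (pr k η) ∂Pm := by simp [ZMod.card]
    _ = ∫⁻ η, ∑ j : ZMod (NN k), g (phi (NN k) (j + η k) (pr (k + 1) η)) ∂Pm := by
        rw [lintegral_finsetSum _ fun j _ => h2 j]; exact Finset.sum_congr rfl fun j _ => h1 j
    _ = _ := lintegral_congr fun η =>
        by simpa [add_comm] using (Equiv.sum_comp (Equiv.addRight (η k))
          fun j => g (phi (NN k) j (pr (k + 1) η)))

lemma avg_set (k : ℕ) {S : Set ℝ} (hS : MeasurableSet S) :
    (NN k : ℝ) * Pm.real (pr k ⁻¹' S) =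
      ∑ j : ZMod (NN k), Pm.real (pr (k + 1) ⁻¹' (phi (NN k) j ⁻¹' S)) := by
  have h := avg k (g := S.indicator 1) (measurable_one.indicator hS)
  have e : ∀ {f : Om → ℝ}, Continuous f → ∫⁻ η, S.indicator 1 (f η) ∂Pm = Pm (f ⁻¹' S) :=
    fun hf => lintegral_indicator_one (hf.measurable hS)
  have hc : ∀ j : ZMod (NN k), Continuous fun η => phi (NN k) j (pr (k + 1) η) :=
    fun j => (phi_cont j).comp (pr_cont _)
  rw [lintegral_finsetSum (f := fun j η => S.indicator 1 (phi (NN k) j (pr (k + 1) η))) _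
    fun j _ => (measurable_one.indicator hS).comp (hc j).measurable, e (pr_cont k),
    Finset.sum_congr rfl fun j _ => e (hc j)] at h
  have h' := congrArg ENNReal.toReal h
  rw [ENNReal.toReal_mul, ENNReal.toReal_sum fun j _ => measure_ne_top _ _] at h'
  exact h'

lemma fro (n : ℕ) : ∀ (k : ℕ) (S : Set ℝ) (ρ : ℝ), MeasurableSet S → 0 < ρ →
    (∀ x ∈ S, ∀ y ∈ S, |x| ≤ 1 → |y| ≤ 1 → |x - y| ≤ ρ ^ 6) →
    Pm.real (pr k ⁻¹' S) ≤ 15 * ρ + (1 / 2) ^ n := by
  classical
  induction n with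
  | zero => intro k S ρ _ _ _; have := measureReal_le_one (μ := Pm) (s := pr k ⁻¹' S); linarith
  | succ n ih =>
    intro k S ρ hS hρ h
    have hN := NN2' k
    have hp : (0 : ℝ) < (1 / 2) ^ (n + 1) := by positivity
    by_cases h1 : 1 ≤ ρ
    · have := measureReal_le_one (μ := Pm) (s := pr k ⁻¹' S); linarith
    refine le_of_mul_le_mul_left ?_ (show (0 : ℝ) < NN k by linarith)
    rw [avg_set k hS]
    set H := Finset.univ.filter fun j : ZMod (NN k) => ∃ y, |y| ≤ 1 ∧ phi (NN k) j y ∈ S with hH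
    rw [← Finset.sum_subset (Finset.subset_univ H) fun j _ hj => by
      have : pr (k + 1) ⁻¹' (phi (NN k) j ⁻¹' S) = ∅ := Set.eq_empty_of_forall_notMem fun η hη =>
        hj (Finset.mem_filter.2 ⟨Finset.mem_univ _, _, pr_abs _ η, hη⟩)
      simp [this]]
    rcases H.eq_empty_or_nonempty with e | ⟨j, hj⟩
    · rw [e, Finset.sum_empty]; positivity
    obtain ⟨y, y1, y2⟩ := (Finset.mem_filter.1 hj).2
    by_cases h2 : ρ ^ 6 < 1 / (2 * NN k ^ 2)
    · have : H = {j} := Finset.eq_singleton_iff_unique_mem.2 ⟨hj, fun i hi => by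
        obtain ⟨z, z1, z2⟩ := (Finset.mem_filter.1 hi).2
        by_contra hc
        exact absurd ((phi_gap (NN2 k) z1 y1 hc).trans (h _ z2 _ y2 (phi_abs _ _) (phi_abs _ _)))
          (not_le.2 h2)⟩
      rw [this, Finset.sum_singleton]
      refine (ih (k + 1) _ (ρ * NN k) ((phi_cont j).measurable hS) (by positivity)
        fun a ha b hb a1 b1 => ?_).trans ?_
      · have := (phi_lower (NN2 k) a1 b1 j).trans (h _ ha _ hb (phi_abs _ _) (phi_abs _ _))
        rw [div_le_iff₀ (by positivity)] at this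
        refine this.trans ?_
        rw [mul_pow, show (NN k : ℝ) ^ 6 = NN k ^ 2 * NN k ^ 4 by ring]
        gcongr; nlinarith
      · rw [pow_succ] at *; nlinarith
    · set Q := ⌊NN k * ρ ^ 3⌋₊ + 1 with hQ
      have q1 : NN k * ρ ^ 3 < Q := by rw [hQ]; push_cast; exact Nat.lt_floor_add_one _
      have q2 : (Q : ℝ) ≤ NN k * ρ ^ 3 + 1 := by
        rw [hQ]; push_cast; linarith [Nat.floor_le (show 0 ≤ NN k * ρ ^ 3 by positivity)]
      have q3 : 2 / 3 ≤ NN k * ρ ^ 3 := by
        rw [not_lt, div_le_iff₀ (by positivity)] at h2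
        by_contra hc
        have : (NN k * ρ ^ 3) ^ 2 ≤ (2 / 3) ^ 2 := pow_le_pow_left₀ (by positivity) (not_le.1 hc).le 2
        nlinarith
      have hs : H ⊆ ((Finset.Icc (-Q : ℤ) Q).image fun q : ℤ => (q : ZMod (NN k)) + j) ∪
          (Finset.Icc (-Q : ℤ) Q).image fun q : ℤ => (q : ZMod (NN k)) - j := by
        intro i hi
        obtain ⟨z, z1, z2⟩ := (Finset.mem_filter.1 hi).2
        by_contra hc
        simp only [Finset.mem_union, Finset.mem_image, Finset.mem_Icc, not_or, not_exists,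
          not_and] at hc
        have := (phi_far (NN2 k) z1 y1 (i := i) (j := j) Q fun q hq =>
          ⟨fun e => hc.1 q (abs_le.1 hq) (by rw [e]; ring),
            fun e => hc.2 q (abs_le.1 hq) (by rw [e]; ring)⟩).trans
          (h _ z2 _ y2 (phi_abs _ _) (phi_abs _ _))
        have h3 : ρ ^ 3 < Q / NN k := by rw [lt_div_iff₀ (by linarith)]; linarith
        have h4 : 0 < ρ ^ 3 := by positivity
        nlinarith
      have hc : H.card ≤ 4 * Q + 2 := by
        refine (Finset.card_le_card hs).trans ((Finset.card_union_le _ _).trans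
          ((add_le_add Finset.card_image_le Finset.card_image_le).trans ?_))
        simp; omega
      have hc' : (H.card : ℝ) ≤ 4 * Q + 2 := by exact_mod_cast hc
      have h5 : ρ ^ 3 ≤ ρ := pow_le_of_le_one hρ.le (not_le.1 h1).le (by norm_num)
      refine (Finset.sum_le_card_nsmul _ _ 1 fun i _ => measureReal_le_one).trans ?_
      rw [nsmul_eq_mul]
      nlinarith

lemma frost (k : ℕ) {S : Set ℝ} {ρ : ℝ} (hS : MeasurableSet S) (hρ : 0 < ρ)
    (h : ∀ x ∈ S, ∀ y ∈ S, |x - y| ≤ ρ ^ 6) : Pm (pr k ⁻¹' S) ≤ ENNReal.ofReal (15 * ρ) := by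
  have : Pm.real (pr k ⁻¹' S) ≤ 15 * ρ := by
    refine le_of_forall_pos_le_add fun ε hε => ?_
    obtain ⟨n, hn⟩ := exists_pow_lt_of_lt_one hε (by norm_num : (1 / 2 : ℝ) < 1)
    linarith [fro n k S ρ hS hρ fun x hx y hy _ _ => h x hx y hy]
  rw [← ofReal_measureReal]
  exact ENNReal.ofReal_le_ofReal this

end Pool.Agent.H28.Equi
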