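import Mathlib
import Pool.Agent.H28.Equi2
import Pool.Agent.H28.Equi3

namespace Pool.Agent.H28.Equi

open Filter Topology MeasureTheory Set
open scoped ENNReal NNReal

lemma Lk_meas (x : ℝ) : Measurable (Lk x) := by
  unfold Lk
  exact Measurable.ite (measurableSet_eq_fun measurable_const measurable_id) measurable_const
    (by fun_prop)

lemma log_nn {x y : ℝ} (hx : |x| ≤ 1) (hy : |y| ≤ 1) (h : x ≠ y) :
    0 ≤ Real.log 3 - Real.log (dist x y) :=
  sub_nonneg.2 (Real.log_le_log (dist_pos.2 h) ((abs_two' hx hy).trans (by norm_num)))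

noncomputable def cc (N : ℕ) : ℝ := (N - 1) * Real.log 3 - Real.log (2 / (2 ^ N * N ^ 2))

lemma sum_Lk {N : ℕ} (hN : 2 ≤ N) [NeZero N] {y y' : ℝ} (hy : |y| ≤ 1) (hy' : |y'| ≤ 1) (i : ZMod N) :
    ∑ j : ZMod N, Lk (phi N i y') (phi N j y) = Lk y' y + ENNReal.ofReal (cc N) := by
  have hN2 : (2 : ℝ) ≤ N := by exact_mod_cast hN
  by_cases e : y' = y
  · subst e
    rw [show Lk y' y' = ⊤ by simp [Lk], top_add]
    exact ENNReal.sum_eq_top.2 ⟨i, Finset.mem_univ _, by simp [Lk]⟩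
  have hp := prod_phi hN hy hy' i
  have h0 : 0 < |y' - y| := abs_pos.2 (sub_ne_zero.2 e)
  have hne : ∀ j, |phi N i y' - phi N j y| ≠ 0 := fun j =>
    Finset.prod_ne_zero_iff.1 (by rw [hp]; positivity) j (Finset.mem_univ _)
  have hne' : ∀ j, phi N i y' ≠ phi N j y := fun j h => hne j (by simp [h])
  have hc : 0 ≤ cc N := by
    have h1 : (2 : ℝ) ^ 1 ≤ 2 ^ N := pow_le_pow_right₀ (by norm_num) (by omega)
    have : Real.log (2 / (2 ^ N * N ^ 2)) ≤ 0 := Real.log_nonpos (by positivity)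
      ((div_le_one (by positivity)).2 (by nlinarith))
    have := Real.log_nonneg (show (1 : ℝ) ≤ 3 by norm_num)
    unfold cc; nlinarith
  simp only [Lk, if_neg (hne' _), if_neg e]
  rw [← ENNReal.ofReal_sum_of_nonneg fun j _ => log_nn (phi_abs _ _) (phi_abs _ _) (hne' j),
    ← ENNReal.ofReal_add (log_nn hy' hy e) hc]
  congr 1
  simp only [Real.dist_eq, Finset.sum_sub_distrib]
  rw [← Real.log_prod fun j _ => hne j, hp, cc, mul_comm 2, mul_div_assoc,
    Real.log_mul h0.ne' (by positivity)]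
  simp [ZMod.card]; ring

noncomputable def VV (k : ℕ) (x : ℝ) : ℝ≥0∞ := ∫⁻ η, Lk x (pr k η) ∂Pm

lemma VV_rec (k : ℕ) (ω : Om) :
    (NN k : ℝ≥0∞) * VV k (pr k ω) = VV (k + 1) (pr (k + 1) ω) + ENNReal.ofReal (cc (NN k)) := by
  rw [VV, avg k (Lk_meas _), pr_eq k ω]
  simp only [sum_Lk (NN2 k) (pr_abs _ _) (pr_abs _ _)]
  rw [lintegral_add_right _ measurable_const]
  simp [VV]

lemma VV_bd : ∃ B : ℝ≥0∞, B ≠ ⊤ ∧ ∀ k x, VV k x ≤ B := by
  refine ⟨∑' n : ℕ, ENNReal.ofReal (180 * Real.exp (-1) ^ n), ?_, fun k x => ?_⟩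
  · rw [← ENNReal.ofReal_tsum_of_nonneg (fun n => by positivity)
      ((summable_geometric_of_lt_one (by positivity) (by simp)).mul_left _)]
    exact ENNReal.ofReal_ne_top
  let S : ℕ → Set ℝ := fun n => Metric.closedBall x (3 * Real.exp (-(6 * n)))
  have h1 : ∀ y, Lk x y ≤ ∑' n : ℕ, 6 * (S n).indicator 1 y := by
    intro y
    unfold Lk
    split_ifs with e
    · have : ∀ n, (S n).indicator (1 : ℝ → ℝ≥0∞) y = 1 := fun n =>
        indicator_of_mem (by rw [← e]; exact Metric.mem_closedBall_self (by positivity)) _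
      simp only [this]
      exact (ENNReal.tsum_const_eq_top_of_ne_zero (by simp)).ge
    · set t := Real.log 3 - Real.log (dist x y) with ht
      rcases le_or_gt t 0 with h | h
      · simp [ENNReal.ofReal_of_nonpos h]
      refine le_trans ?_ (ENNReal.sum_le_tsum (Finset.range (⌊t / 6⌋₊ + 1)))
      have : ∀ n ∈ Finset.range (⌊t / 6⌋₊ + 1), 6 * (S n).indicator (1 : ℝ → ℝ≥0∞) y = 6 := by
        intro n hn
        rw [indicator_of_mem, Pi.one_apply, mul_one]
        have h2 : (n : ℝ) ≤ t / 6 :=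
          (Nat.le_floor_iff (by positivity)).1 (Nat.lt_succ_iff.1 (Finset.mem_range.1 hn))
        rw [Metric.mem_closedBall', ← Real.exp_log (dist_pos.2 e), ← Real.exp_log (show (0 : ℝ) < 3 by
          norm_num), ← Real.exp_add]
        exact Real.exp_le_exp.2 (by linarith)
      rw [Finset.sum_congr rfl this, Finset.sum_const, Finset.card_range, nsmul_eq_mul]
      have h3 := Nat.lt_floor_add_one (t / 6)
      calc _ ≤ ENNReal.ofReal (((⌊t / 6⌋₊ + 1 : ℕ) : ℝ) * 6) :=
            ENNReal.ofReal_le_ofReal (by push_cast; linarith)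
        _ = _ := by rw [ENNReal.ofReal_mul (by positivity), ENNReal.ofReal_natCast]; simp
  have hm : ∀ n, Measurable fun η => (S n).indicator (1 : ℝ → ℝ≥0∞) (pr k η) := fun n =>
    (measurable_one.indicator Metric.isClosed_closedBall.measurableSet).comp (pr_cont k).measurable
  refine (lintegral_mono fun η => h1 _).trans ?_
  rw [lintegral_tsum fun n => ((hm n).const_mul 6).aemeasurable]
  refine ENNReal.tsum_le_tsum fun n => ?_
  rw [lintegral_const_mul _ (hm n)]
  have h2 : ∫⁻ η, (S n).indicator 1 (pr k η) ∂Pm = Pm (pr k ⁻¹' S n) :=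
    lintegral_indicator_one ((pr_cont k).measurable Metric.isClosed_closedBall.measurableSet)
  have h3 := frost k (S := S n) (ρ := 2 * Real.exp (-1) ^ n)
    Metric.isClosed_closedBall.measurableSet (by positivity) fun a ha b hb => by
      have := dist_triangle_right a b x
      rw [Metric.mem_closedBall] at ha hb
      rw [mul_pow, ← pow_mul, ← Real.exp_nat_mul, ← Real.dist_eq,
        show ((n * 6 : ℕ) : ℝ) * -1 = -(6 * n) by push_cast; ring]
      linarith [Real.exp_pos (-(6 * n : ℝ))]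
  rw [h2, show (180 : ℝ) * Real.exp (-1) ^ n = 6 * (15 * (2 * Real.exp (-1) ^ n)) by ring,
    ENNReal.ofReal_mul (by norm_num)]
  simpa using mul_le_mul_right h3 6

lemma VV_const : ∃ c : ℝ≥0∞, c ≠ ⊤ ∧ ∀ ω, VV 0 (pr 0 ω) = c := by
  obtain ⟨B, hB, h⟩ := VV_bd
  have h1 : ∀ n : ℕ, ∀ k ω ω', VV k (pr k ω) ≤ VV k (pr k ω') + B * 2⁻¹ ^ n := by
    intro n
    induction n with
    | zero => intro k ω ω'; simpa using (h _ _).trans le_add_self
    | succ n ih =>
      intro k ω ω'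
      have h2 : (2 : ℝ≥0∞) ≤ NN k := by exact_mod_cast NN2 k
      refine (ENNReal.mul_le_mul_iff_right (a := NN k) (by simpa using NeZero.ne _) (by simp)).1 ?_
      rw [mul_add, VV_rec, VV_rec, add_right_comm]
      refine add_le_add_left ((ih _ ω ω').trans (add_le_add_right ?_ _)) _
      calc B * 2⁻¹ ^ n = 2 * (B * 2⁻¹ ^ (n + 1)) := by
            rw [pow_succ, mul_left_comm, mul_left_comm 2, ENNReal.mul_inv_cancel (by simp) (by simp),
              mul_one]
        _ ≤ _ := by gcongr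
  have h2 : ∀ ω ω', VV 0 (pr 0 ω) ≤ VV 0 (pr 0 ω') := by
    intro ω ω'
    have : Tendsto (fun n : ℕ => VV 0 (pr 0 ω') + B * 2⁻¹ ^ n) atTop (𝓝 (VV 0 (pr 0 ω') + B * 0)) :=
      tendsto_const_nhds.add (ENNReal.Tendsto.const_mul
        (ENNReal.tendsto_pow_atTop_nhds_zero_of_lt_one (by simp)) (Or.inr hB))
    simpa using ge_of_tendsto' this fun n => h1 n 0 ω ω'
  exact ⟨VV 0 (pr 0 0), ne_top_of_le_ne_top hB (h _ _), fun ω => le_antisymm (h2 _ _) (h2 _ _)⟩

lemma cyl (n : ℕ) {E : Set Om} (hE : MeasurableSet E) (h : ∀ η ∈ E, ∀ η' ∈ E, ∀ i < n, η i = η' i) :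
    Pm E ≤ (Fintype.card (∀ i : Fin n, ZMod (NN i)) : ℝ≥0∞)⁻¹ := by
  let ex : (∀ i : Fin n, ZMod (NN i)) → Om := fun w i => if h : i < n then w ⟨i, h⟩ else 0
  have h1 := measure_iUnion (μ := Pm) (f := fun w => (fun η => ex w + η) ⁻¹' E)
    (fun w w' hw => Set.disjoint_left.2 fun η a b => hw (funext fun i => by
      simpa [ex] using h _ a _ b i i.2)) fun w => (continuous_const.add continuous_id).measurable hE
  simp only [measure_preimage_add, tsum_fintype, Finset.sum_const, Finset.card_univ,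
    nsmul_eq_mul] at h1
  rw [ENNReal.le_inv_iff_mul_le, mul_comm, ← h1]
  exact prob_le_one

noncomputable def mu : Measure ℝ := Pm.map (pr 0)

instance mu_prob : IsProbabilityMeasure mu :=
  Measure.isProbabilityMeasure_map (pr_cont 0).measurable.aemeasurable

lemma mu_Icc (x : ℝ) {ρ r : ℝ} (hρ : 0 < ρ) (h : r ≤ ρ ^ 6) :
    mu (Icc x (x + r)) ≤ ENNReal.ofReal (15 * ρ) := by
  rw [mu, Measure.map_apply (pr_cont 0).measurable measurableSet_Icc]
  exact frost 0 measurableSet_Icc hρ fun a ha b hb =>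
    abs_le.2 ⟨by linarith [ha.1, hb.2], by linarith [ha.2, hb.1]⟩

noncomputable def hh (r : ℝ≥0) : ℝ≥0 := (⨆ x : ℝ, mu (Icc x (x + r))).toNNReal

lemma hh_coe (r : ℝ≥0) : (hh r : ℝ≥0∞) = ⨆ x : ℝ, mu (Icc x (x + r)) :=
  ENNReal.coe_toNNReal (ne_top_of_le_ne_top ENNReal.one_ne_top (iSup_le fun _ => prob_le_one))

lemma hh_mono : Monotone hh := fun r r' h => by
  rw [← ENNReal.coe_le_coe, hh_coe, hh_coe]
  exact iSup_mono fun x => measure_mono (Icc_subset_Icc_right (by simpa using h))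

lemma hh_le {r r' : ℝ≥0} {ρ : ℝ} (hρ : 0 < ρ) (h : (r' : ℝ) ≤ r + ρ ^ 6) :
    (hh r' : ℝ) ≤ hh r + 15 * ρ := by
  have : (hh r' : ℝ≥0∞) ≤ hh r + ENNReal.ofReal (15 * ρ) := by
    rw [hh_coe, hh_coe]
    refine iSup_le fun x => ((measure_mono (t := Icc x (x + r) ∪ Icc (x + r) (x + r + ρ ^ 6)) ?_).trans
      (measure_union_le _ _)).trans (add_le_add (le_iSup (fun x => mu (Icc x (x + r))) x)
      (mu_Icc _ hρ le_rfl))
    exact (Icc_subset_Icc_right (by linarith)).trans Icc_subset_Icc_union_Icc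
  have h2 := ENNReal.toReal_mono (by finiteness) this
  rwa [ENNReal.toReal_add (by simp) (by finiteness), ENNReal.toReal_ofReal (by positivity)] at h2

lemma hh_zero : hh 0 = 0 := by
  rw [← ENNReal.coe_eq_zero, hh_coe, ENNReal.iSup_eq_zero]
  refine fun x => le_antisymm (ENNReal.le_of_forall_pos_le_add fun ε hε _ => ?_) zero_le
  have := mu_Icc x (ρ := ε / 15) (r := (0 : ℝ≥0)) (by positivity) (by simp; positivity)
  rwa [mul_div_cancel₀ _ (by norm_num), ENNReal.ofReal_coe_nnreal, ← zero_add (ε : ℝ≥0∞)] at this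

lemma hh_cont : Continuous hh := by
  refine Metric.continuous_iff.2 fun r ε hε => ⟨(ε / 16) ^ 6, by positivity, fun r' h => ?_⟩
  rw [NNReal.dist_eq, abs_lt] at *
  have h1 := hh_le (r := r) (r' := r') (ρ := ε / 16) (by positivity) (by linarith)
  have h2 := hh_le (r := r') (r' := r) (ρ := ε / 16) (by positivity) (by linarith)
  constructor <;> linarith

lemma mu_le (s : Set ℝ) (hs : Metric.ediam s ≤ 1) : mu s ≤ hh (Metric.ediam s).toNNReal := by
  have hb : Bornology.IsBounded s :=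
    Metric.isBounded_iff_ediam_ne_top.2 (ne_top_of_le_ne_top ENNReal.one_ne_top hs)
  rw [hh_coe]
  refine (measure_mono (hb.subset_Icc_sInf_sSup)).trans (le_iSup_of_le (sInf s) ?_)
  rw [show ((Metric.ediam s).toNNReal : ℝ) = Metric.diam s from rfl, Real.diam_eq hb]
  simp

lemma mu_K : mu (range (pr 0))ᶜ = 0 := by
  rw [mu, Measure.map_apply (pr_cont 0).measurable
    (isCompact_range (pr_cont 0)).measurableSet.compl]
  simp

lemma mk_le : Measure.mkMetric (fun r : ℝ≥0∞ => ((hh r.toNNReal : ℝ≥0) : ℝ≥0∞)) (range (pr 0)) ≤ 1 := by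
  let t : ∀ n : ℕ, (∀ i : Fin (n + 1), ZMod (NN i)) → Set ℝ :=
    fun n w => pr 0 '' {η | ∀ i : Fin (n + 1), η i = w i}
  let b : ℕ → ℝ := fun n => (∏ l ∈ Finset.Ico 0 (0 + (n + 1)), (4 : ℝ) / NN l ^ 3) * 2
  have hb : ∀ n, 0 ≤ b n := fun n => mul_nonneg (Finset.prod_nonneg fun _ _ => by positivity) zero_le_two
  have ht : ∀ n w, Metric.ediam (t n w) ≤ ENNReal.ofReal (b n) := by
    intro n w
    refine Metric.ediam_le_of_forall_dist_le ?_
    rintro _ ⟨η, h1, rfl⟩ _ ⟨η', h2, rfl⟩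
    exact pr_upper η η' (n + 1) 0 fun i _ hi => (h1 ⟨i, by omega⟩).trans (h2 ⟨i, by omega⟩).symm
  refine (Measure.mkMetric_le_liminf_sum _ (l := atTop) (fun n => ENNReal.ofReal (b n)) ?_ t
    (Eventually.of_forall ht) (Eventually.of_forall fun n => ?_) _).trans
    (liminf_le_of_frequently_le' (Frequently.of_forall fun n => ?_))
  · rw [← ENNReal.ofReal_zero]
    refine ENNReal.tendsto_ofReal (squeeze_zero hb (g := fun n => (1 / 2) ^ n) (fun n => ?_)
      (tendsto_pow_atTop_nhds_zero_of_lt_one (by norm_num) (by norm_num)))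
    have := prod_half 0 (n + 1)
    rw [pow_succ] at this
    simp only [b]; linarith
  · rintro _ ⟨η, rfl⟩
    exact mem_iUnion.2 ⟨fun i => η i, η, fun _ => rfl, rfl⟩
  · refine (Finset.sum_le_card_nsmul _ _ (Fintype.card (∀ i : Fin (n + 1), ZMod (NN i)) : ℝ≥0∞)⁻¹
      fun w _ => ?_).trans ?_
    · rw [hh_coe]
      refine iSup_le fun x => ?_
      rw [mu, Measure.map_apply (pr_cont 0).measurable measurableSet_Icc]
      refine cyl _ ((pr_cont 0).measurable measurableSet_Icc) fun η h1 η' h2 i hi => ?_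
      by_contra hc
      have h3 := (sep n).trans_le (pr_lower η η' n 0 ⟨i, by omega, by omega, hc⟩)
      have h4 : ((Metric.ediam (t n w)).toNNReal : ℝ) ≤ b n :=
        ENNReal.toReal_le_of_le_ofReal (hb n) (ht n w)
      exact absurd h3 (not_lt.2 (abs_le.2 ⟨by linarith [h1.1, h2.2], by linarith [h1.2, h2.1]⟩))
    · rw [nsmul_eq_mul, Finset.card_univ]
      exact ENNReal.mul_inv_le_one _

lemma dim_pos : dimH (range (pr 0)) ≠ 0 := by
  have h1 : (30 : ℝ≥0∞)⁻¹ • mu ≤ Measure.hausdorffMeasure ((1 / 6 : ℝ≥0) : ℝ) := by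
    refine Measure.le_hausdorffMeasure _ _ 1 one_pos fun s hs => ?_
    have h2 := mu_le s hs
    have h3 : Metric.ediam s ≠ ⊤ := ne_top_of_le_ne_top ENNReal.one_ne_top hs
    generalize Metric.ediam s = d at *
    lift d to ℝ≥0 using h3
    rw [Measure.smul_apply, smul_eq_mul, ENNReal.inv_mul_le_iff (by simp) (by simp)]
    refine h2.trans ?_
    rcases eq_or_lt_of_le (zero_le : 0 ≤ d) with rfl | hd
    · simp [hh_zero]
    have h4 := hh_le (r := 0) (r' := d) (ρ := (d : ℝ) ^ (1 / 6 : ℝ)) (by positivity) (by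
      rw [← Real.rpow_natCast, ← Real.rpow_mul (NNReal.coe_nonneg d)]; simp)
    rw [hh_zero] at h4
    rw [ENNReal.toNNReal_coe, ← ENNReal.coe_rpow_of_nonneg _ (by positivity)]
    norm_cast
    rw [← NNReal.coe_le_coe]
    push_cast at *
    have : 0 ≤ (d : ℝ) ^ (1 / 6 : ℝ) := by positivity
    linarith
  intro h
  have h2 := hausdorffMeasure_of_dimH_lt (d := 1 / 6) (h.trans_lt (by simp))
  have h3 := (h1 _).trans h2.le
  have h4 := (prob_compl_eq_zero_iff (isCompact_range (pr_cont 0)).measurableSet).1 mu_K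
  simp [h4] at h3

lemma mu_eq : mu = (Measure.mkMetric fun r : ℝ≥0∞ => ((hh r.toNNReal : ℝ≥0) : ℝ≥0∞)).restrict
    (range (pr 0)) := by
  refine Measure.eq_of_le_of_measure_univ_eq ?_ (le_antisymm ?_ ?_)
  · rw [← Measure.restrict_eq_self_of_ae_mem (μ := mu) mu_K]
    exact Measure.restrict_mono subset_rfl (Measure.le_mkMetric _ _ 1 one_pos mu_le)
  · rw [Measure.restrict_apply_univ, measure_univ,
      ← (prob_compl_eq_zero_iff (isCompact_range (pr_cont 0)).measurableSet).1 mu_K]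
    exact Measure.le_mkMetric _ _ 1 one_pos mu_le _
  · rw [Measure.restrict_apply_univ, measure_univ]; exact mk_le

end Pool.Agent.H28.Equi
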