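import Mathlib

namespace Pool.Agent.H28.Eu

open Module Finset LinearMap

structure Cube (K W : Type) [Field K] [AddCommGroup W] [Module K W] where
  Z : Finset ℕ → Submodule K W
  θ : ℕ → End K W
  ω : ℕ → End K W
  tt : ∀ i j u, θ i (θ j u) = θ j (θ i u)
  tw : ∀ i j u, i ≠ j → θ i (ω j u) = ω j (θ i u)
  ww : ∀ i j u, ω i (ω j u) = ω j (ω i u)
  tZ : ∀ i S u, i ∉ S → u ∈ Z S → θ i u ∈ Z (insert i S)
  wZ : ∀ i S u, i ∉ S → u ∈ Z S → ω i u ∈ Z (insert i S)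

variable {K W : Type} [Field K] [AddCommGroup W] [Module K W] (C : Cube K W)

namespace Cube

def Th (U S : Finset ℕ) : Submodule K W := C.Z S ⊔ ⨆ i ∈ U, range (C.θ i)

lemma th_empty (S : Finset ℕ) : C.Th ∅ S = C.Z S := by simp [Th]

lemma th_insert (i : ℕ) (U S : Finset ℕ) : C.Th (insert i U) S = C.Th U S ⊔ range (C.θ i) := by
  rw [Th, Th, Finset.iSup_insert, sup_comm (range (C.θ i)), sup_assoc]

lemma mem_ins {i : ℕ} {U S : Finset ℕ} {u : W} :
    u ∈ C.Th (insert i U) S ↔ ∃ x, u - C.θ i x ∈ C.Th U S := by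
  rw [th_insert, Submodule.mem_sup]
  exact ⟨fun ⟨y, hy, _, ⟨x, rfl⟩, e⟩ => ⟨x, by simpa [← e] using hy⟩,
    fun ⟨x, hx⟩ => ⟨_, hx, _, ⟨x, rfl⟩, by simp⟩⟩

variable {C}

lemma th_mono {U U' S : Finset ℕ} (h : U ⊆ U') {u : W} (hu : u ∈ C.Th U S) : u ∈ C.Th U' S :=
  (sup_le_sup_left (biSup_mono fun _ hi => h hi) _ : C.Th U S ≤ C.Th U' S) hu

lemma z_th (U : Finset ℕ) {S : Finset ℕ} {u : W} (hu : u ∈ C.Z S) : u ∈ C.Th U S :=
  Submodule.mem_sup_left hu

lemma t_mem {i : ℕ} {U : Finset ℕ} (h : i ∈ U) (S : Finset ℕ) (u : W) : C.θ i u ∈ C.Th U S :=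
  Submodule.mem_sup_right (Submodule.mem_iSup_of_mem i (Submodule.mem_iSup_of_mem h ⟨u, rfl⟩))

lemma map_th {W' : Type} [AddCommGroup W'] [Module K W'] {C' : Cube K W'} (f : W →ₗ[K] W')
    {U S U' S' : Finset ℕ} (h1 : ∀ u ∈ C.Z S, f u ∈ C'.Th U' S')
    (h2 : ∀ i ∈ U, ∀ u, f (C.θ i u) ∈ C'.Th U' S') {u : W} (hu : u ∈ C.Th U S) :
    f u ∈ C'.Th U' S' :=
  (sup_le h1 (iSup₂_le fun i hi _ ⟨x, e⟩ => e ▸ h2 i hi x) :
    C.Th U S ≤ (C'.Th U' S').comap f) hu

lemma t_th {i : ℕ} {U S U' S' : Finset ℕ} {u : W} (hu : u ∈ C.Th U S) (h1 : i ∉ S)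
    (h2 : U ⊆ U') (h3 : insert i S = S') : C.θ i u ∈ C.Th U' S' :=
  map_th _ (fun _ h => z_th _ (h3 ▸ C.tZ _ _ _ h1 h))
    (fun _ hj x => by rw [C.tt]; exact t_mem (h2 hj) _ _) hu

lemma w_th {i : ℕ} {U S U' S' : Finset ℕ} {u : W} (hu : u ∈ C.Th U S) (h1 : i ∉ S) (h0 : i ∉ U)
    (h2 : U ⊆ U') (h3 : insert i S = S') : C.ω i u ∈ C.Th U' S' :=
  map_th _ (fun _ h => z_th _ (h3 ▸ C.wZ _ _ _ h1 h))
    (fun j hj x => by rw [← C.tw _ _ _ (by grind)]; exact t_mem (h2 hj) _ _) hu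

variable (C)

def P (U : Finset ℕ) (i : ℕ) (S : Finset ℕ) : Prop :=
  ∀ u, C.θ i u ∈ C.Th U (insert i S) → u ∈ C.Th U S

def Full (r : ℕ) : Prop := ∀ U S i, U ⊆ S → i ∉ S → (∀ l ∈ S, l ≤ r) → i ≤ r → C.P U i S

variable {C}

lemma swap {U S : Finset ℕ} {a b : ℕ} (h1 : C.P (insert a U) b (insert a (S.erase b)))
    (h2 : C.P U a S) (hb : b ∈ S) (hab : a ≠ b) : C.P (insert b U) a S := by
  intro m hm
  rw [mem_ins] at hm ⊢
  obtain ⟨x, hx⟩ := hm
  have e : insert b (insert a (S.erase b)) = insert a S := by grind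
  obtain ⟨y, hy⟩ := (C.mem_ins).1 (h1 x (by
    rw [e]
    simpa using sub_mem (t_mem (Finset.mem_insert_self a _) _ m)
      (th_mono (Finset.subset_insert a _) hx)))
  refine ⟨y, h2 _ ?_⟩
  have := add_mem hx (t_th (i := b) hy (by grind) subset_rfl e)
  rw [map_sub, C.tt] at this
  simpa using this

lemma unq {U S : Finset ℕ} {a i : ℕ} (h1 : C.P (insert a U) i S)
    (h2 : C.P U a (insert i (S.erase a))) (h3 : C.P U i (S.erase a)) (ha : a ∈ S) (hi : i ∉ S) :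
    C.P U i S := by
  intro m hm
  obtain ⟨x, hx⟩ := (C.mem_ins).1 (h1 m (th_mono (Finset.subset_insert _ _) hm))
  have e : insert a (insert i (S.erase a)) = insert i S := by grind
  have h8 := h3 x (h2 _ (by
    rw [e, C.tt]
    simpa using sub_mem hm (t_th (i := i) hx hi subset_rfl rfl)))
  simpa using add_mem hx (t_th (i := a) h8 (by simp) subset_rfl (Finset.insert_erase ha))

theorem full (r : ℕ)
    (h : ∀ S i, i ∉ S → (∀ l ∈ S, l ≤ r) → i ≤ r → C.P (S.filter (· < i)) i S) : C.Full r := by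
  have key : ∀ t a, a + t = r + 1 → ∀ U S i, U ⊆ S → i ∉ S → (∀ l ∈ S, l ≤ r) → i ≤ r → a ≤ i →
      (∀ l ∈ S, l < a → l ∈ U) → C.P U i S := by
    intro t
    induction t with
    | zero => intros; omega
    | succ t ih =>
      intro a ha
      replace ih := ih (a + 1) (by omega)
      have k1 : ∀ S, a ∉ S → (∀ l ∈ S, l ≤ r) → ∀ V : Finset ℕ, V ⊆ S → (∀ l ∈ V, a < l) →
          C.P (V ∪ S.filter (· < a)) a S := by
        intro S h1 h2 V
        induction V using Finset.induction_on with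
        | empty => exact fun _ _ => by simpa using h S a h1 h2 (by omega)
        | insert b V hb iv =>
          intro h3 h4
          have hb2 : b ∈ S := h3 (by simp)
          have hb3 : a < b := h4 b (by simp)
          rw [Finset.insert_union]
          refine swap (ih _ _ _ ?_ ?_ ?_ (h2 b hb2) hb3 fun l c d => ?_) (iv ?_ ?_) hb2 hb3.ne <;>
            clear h ih iv <;> simp only [Finset.subset_iff, Finset.mem_insert, Finset.mem_union,
              Finset.mem_filter, Finset.mem_erase] at * <;> grind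
      have k2 : ∀ U S, U ⊆ S → a ∉ S → (∀ l ∈ S, l ≤ r) → (∀ l ∈ S, l < a → l ∈ U) →
          C.P U a S := fun U S h1 h2 h3 h4 => by
        have := k1 S h2 h3 (U.filter (a < ·)) ((Finset.filter_subset _ _).trans h1) (by simp)
        rwa [show U.filter (a < ·) ∪ S.filter (· < a) = U by clear h ih k1 this; grind] at this
      intro U S i h1 h2 h3 h4 h5 h6
      rcases h5.eq_or_lt with rfl | h5
      · exact k2 U S h1 h2 h3 h6
      by_cases h7 : a ∈ S → a ∈ U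
      · exact ih U S i h1 h2 h3 h4 h5 (by clear h ih k1 k2; grind)
      refine unq (a := a) (ih _ _ _ ?_ h2 h3 h4 h5 ?_) (k2 _ _ ?_ ?_ ?_ ?_)
        (ih _ _ _ ?_ ?_ ?_ h4 h5 ?_) ?_ h2 <;> clear h ih k1 k2 <;> grind
  exact fun U S i a b c d => key (r + 1) 0 (by omega) U S i a b c d (by omega) (by omega)

variable (C)

def Q (b : ℕ) : Cube K W where
  Z S := C.Th {b} (insert b S) ⊔ range (C.ω b)
  θ := C.θ
  ω := C.ω
  tt := C.tt
  tw := C.tw
  ww := C.ww
  tZ i S u h1 hu := by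
    rcases eq_or_ne i b with rfl | h
    · exact Submodule.mem_sup_left (t_mem (by simp) _ _)
    obtain ⟨y, hy, _, ⟨x, rfl⟩, rfl⟩ := Submodule.mem_sup.1 hu
    rw [map_add, C.tw _ _ _ h]
    exact Submodule.add_mem_sup (t_th hy (by grind) subset_rfl (by grind)) ⟨_, rfl⟩
  wZ i S u h1 hu := by
    rcases eq_or_ne i b with rfl | h
    · exact Submodule.mem_sup_right ⟨_, rfl⟩
    obtain ⟨y, hy, _, ⟨x, rfl⟩, rfl⟩ := Submodule.mem_sup.1 hu
    rw [map_add, C.ww]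
    exact Submodule.add_mem_sup (w_th hy (by grind) (by grind) subset_rfl (by grind)) ⟨_, rfl⟩

lemma mem_q {b : ℕ} {U S : Finset ℕ} {u : W} :
    u ∈ (C.Q b).Th U S ↔ ∃ x, u - C.ω b x ∈ C.Th (insert b U) (insert b S) := by
  have : (C.Q b).Th U S = C.Th (insert b U) (insert b S) ⊔ range (C.ω b) := by
    simp only [Th, Q, Finset.iSup_insert, Finset.iSup_singleton]
    ac_rfl
  rw [this, Submodule.mem_sup]
  exact ⟨fun ⟨y, hy, _, ⟨x, rfl⟩, e⟩ => ⟨x, by simpa [← e] using hy⟩,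
    fun ⟨x, hx⟩ => ⟨_, hx, _, ⟨x, rfl⟩, by simp⟩⟩

def Iso (s : ℕ) : Prop := ∀ S : Finset ℕ, s + 1 ∈ S → (∀ l ∈ S, l ≤ s + 1) →
  (∀ m, C.ω (s + 2) m ∈ C.Th {s + 2} (insert (s + 2) S) → m ∈ C.Z S) ∧
    ∀ m, ∃ x, m - C.ω (s + 2) x ∈ C.Th {s + 2} (insert (s + 2) S)

variable {C}

lemma inj {s : ℕ} (hF : C.Full (s + 2)) (hI : C.Iso s) {U S : Finset ℕ} (h1 : U ⊆ S)
    (h2 : s + 1 ∉ U) (h3 : ∀ l ∈ S, l ≤ s + 1) {m : W}
    (hm : C.ω (s + 2) m ∈ C.Th (insert (s + 2) U) (insert (s + 2) S)) : m ∈ C.Th U S := by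
  have key : ∀ S : Finset ℕ, s + 1 ∈ S → (∀ l ∈ S, l ≤ s + 1) → ∀ U ⊆ S, s + 1 ∉ U → ∀ m,
      C.ω (s + 2) m ∈ C.Th (insert (s + 2) U) (insert (s + 2) S) → m ∈ C.Th U S := by
    intro S a b U
    induction U using Finset.induction_on with
    | empty => exact fun _ _ m hm => z_th _ ((hI S a b).1 m hm)
    | insert i U hi ih =>
      intro c d m hm
      rw [Finset.insert_comm, mem_ins] at hm
      obtain ⟨x, hx⟩ := hm
      obtain ⟨y, hy⟩ := (hI (S.erase i) (by grind) (by grind)).2 x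
      have hi2 : i ∈ S := c (by simp)
      have hi3 := b i hi2
      refine (C.mem_ins).2 ⟨y, ih (by grind) (by grind) _ ?_⟩
      have := add_mem hx (t_th (i := i) hy (by grind) (by simp) (by grind))
      rw [map_sub, C.tw _ _ _ (by omega)] at this
      simpa using this
  by_cases h : s + 1 ∈ S
  · exact key S h h3 U h1 h2 m hm
  refine hF U S (s + 1) h1 h (by grind) (by omega) m
    (key _ (by simp) (by grind) U (by grind) h2 _ ?_)
  rw [← C.tw _ _ _ (by omega)]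
  exact t_th hm (by grind) subset_rfl (by grind)

theorem full_q {s : ℕ} (hF : C.Full (s + 2)) (hI : C.Iso s) : (C.Q (s + 2)).Full s := by
  intro U S i h1 h2 h3 h4 m hm
  obtain ⟨x, hx⟩ := (C.mem_q).1 hm
  change C.θ i m - _ ∈ _ at hx
  obtain ⟨y, hy⟩ := (C.mem_ins).1 (inj hF hI (U := insert i U) (S := insert i S) (by grind)
    (by grind) (by grind) (m := x) (by
      simpa using sub_mem (t_mem (i := i) (by simp) _ m) (th_mono (U' := insert (s + 2) (insert i U))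
        (by grind) hx)))
  refine (C.mem_q).2 ⟨y, hF _ _ i (by grind) (by grind) (by grind) (by omega) _ ?_⟩
  have := add_mem hx (w_th (i := s + 2) hy (by grind) (by grind) (by simp) rfl)
  rw [map_sub, ← C.tw _ _ _ (by omega), Finset.insert_comm] at this
  simpa using this

end Cube

end Pool.Agent.H28.Eu
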