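import Pool.Agent.H28.Eu1

namespace Pool.Agent.H28.Eu

open Module Finset LinearMap

variable {K W : Type} [Field K] [AddCommGroup W] [Module K W] (C : Cube K W)

namespace Cube

def D (u : Finset ℕ → W) (S : Finset ℕ) : W := ∑ i ∈ S, C.ω i (u (S.erase i))

def Ex (r : ℕ) (j : ℤ) : Prop := ∀ u : Finset ℕ → W,
  (∀ S : Finset ℕ, (∀ l ∈ S, 1 ≤ l ∧ l ≤ r) → (S.card : ℤ) = j + 1 → C.D u S ∈ C.Th S S) →
    ∃ w, ∀ S : Finset ℕ, (∀ l ∈ S, 1 ≤ l ∧ l ≤ r) → (S.card : ℤ) = j → u S + C.D w S ∈ C.Th S S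

variable {C}

lemma d_insert {b : ℕ} {S : Finset ℕ} (h : b ∉ S) (u : Finset ℕ → W) :
    C.D u (insert b S) = C.ω b (u S) + C.D (fun T => u (insert b T)) S := by
  rw [D, Finset.sum_insert h, Finset.erase_insert h]
  exact congrArg _ (Finset.sum_congr rfl fun i hi => by
    rw [Finset.erase_insert_of_ne (by grind)])

lemma d_congr {u w : Finset ℕ → W} {S : Finset ℕ} (h : ∀ T ⊆ S, u T = w T) : C.D u S = C.D w S :=
  Finset.sum_congr rfl fun i _ => by rw [h _ (Finset.erase_subset _ _)]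

lemma d_add (u w : Finset ℕ → W) (S : Finset ℕ) :
    C.D (fun T => u T + w T) S = C.D u S + C.D w S := by simp [D, Finset.sum_add_distrib]

lemma d_w (b : ℕ) (u : Finset ℕ → W) (S : Finset ℕ) :
    C.D (fun T => C.ω b (u T)) S = C.ω b (C.D u S) := by simp [D, C.ww b]

lemma d_t {b : ℕ} {S : Finset ℕ} (h : b ∉ S) (u : Finset ℕ → W) :
    C.D (fun T => C.θ b (u T)) S = C.θ b (C.D u S) := by
  rw [D, D, map_sum]
  exact Finset.sum_congr rfl fun i hi => (C.tw _ _ _ (by grind)).symm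

lemma d_d (h2 : ∀ x : W, x + x = 0) (S : Finset ℕ) (u : Finset ℕ → W) : C.D (C.D u) S = 0 := by
  induction S using Finset.induction_on generalizing u with
  | empty => simp [D]
  | insert b S hb ih =>
    rw [d_insert hb, d_congr (w := fun T => C.ω b (u T) + C.D (fun T => u (insert b T)) T)
      fun T hT => d_insert (fun h => hb (hT h)) u, d_add, ih, d_w, add_zero, h2]

lemma d_mem {x : Finset ℕ → W} {f g : Finset ℕ → Finset ℕ} {S U : Finset ℕ} {s : ℕ} {j : ℤ}
    (h : ∀ T : Finset ℕ, (∀ l ∈ T, 1 ≤ l ∧ l ≤ s) → (T.card : ℤ) = j → x T ∈ C.Th (f T) (g T))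
    (hS : ∀ l ∈ S, 1 ≤ l ∧ l ≤ s) (hc : (S.card : ℤ) = j + 1)
    (h3 : ∀ i ∈ S, i ∉ g (S.erase i) ∧ i ∉ f (S.erase i) ∧ f (S.erase i) ⊆ U ∧
      insert i (g (S.erase i)) = g S) : C.D x S ∈ C.Th U (g S) :=
  Submodule.sum_mem _ fun i hi => w_th (h _ (fun l hl => hS l (Finset.mem_of_mem_erase hl)) (by
    have := Finset.card_erase_add_one hi
    omega)) (h3 i hi).1 (h3 i hi).2.1 (h3 i hi).2.2.1 (h3 i hi).2.2.2

lemma mem2 (h2 : ∀ x : W, x + x = 0) {p : Submodule K W} {x y : W} (h : y ∈ p) (z : W)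
    (e : y = x + (z + z)) : x ∈ p := by rwa [e, h2, add_zero] at h

theorem ex_step (h2 : ∀ x : W, x + x = 0) {s : ℕ} (hF : C.Full (s + 2)) (hI : C.Iso s) {j : ℤ}
    (hE : (C.Q (s + 2)).Ex s j) : C.Ex (s + 2) (j + 1) := by
  intro u hu
  have sb : ∀ x y : W, x - y = x + y := fun x y => by
    rw [sub_eq_add_neg, neg_eq_of_add_eq_zero_left (h2 y)]
  replace hE : ∀ u : Finset ℕ → W, (∀ S : Finset ℕ, (∀ l ∈ S, 1 ≤ l ∧ l ≤ s) →
      (S.card : ℤ) = j + 1 → ∃ x, C.D u S + C.ω (s + 2) x ∈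
        C.Th (insert (s + 2) S) (insert (s + 2) S)) → ∃ w x : Finset ℕ → W, ∀ S : Finset ℕ,
      (∀ l ∈ S, 1 ≤ l ∧ l ≤ s) → (S.card : ℤ) = j → u S + C.D w S + C.ω (s + 2) (x S) ∈
        C.Th (insert (s + 2) S) (insert (s + 2) S) := fun u h => by
    obtain ⟨w, hw⟩ := hE u fun S a b => (C.mem_q).2 (by simp only [sb]; exact h S a b)
    choose! x hx using fun S a b => (C.mem_q).1 (hw S a b)
    exact ⟨w, x, by simp only [sb] at hx; exact hx⟩
  have sj : ∀ u : Finset ℕ → W, ∃ v : Finset ℕ → W, ∀ j : ℤ, ∀ S : Finset ℕ,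
      (∀ l ∈ S, 1 ≤ l ∧ l ≤ s) → (S.card : ℤ) = j → u S + C.ω (s + 2) (v S) ∈
        C.Th {s + 2} (insert (s + 1) (insert (s + 2) S)) := fun u => by
    choose! v hv using fun S (a : ∀ l ∈ S, 1 ≤ l ∧ l ≤ s) =>
      (hI (insert (s + 1) S) (by simp) (by grind)).2 (u S)
    exact ⟨v, fun _ S a _ => by simpa only [sb, Finset.insert_comm (s + 2)] using hv S a⟩
  have na : ∀ S : Finset ℕ, (∀ l ∈ S, 1 ≤ l ∧ l ≤ s) → s + 1 ∉ S ∧ s + 2 ∉ S ∧
      s + 1 ∉ insert (s + 2) S := fun S h => by grind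
  let ub := fun S => u (insert (s + 2) S)
  let ua := fun S => u (insert (s + 1) S)
  let uab := fun S => u (insert (s + 1) (insert (s + 2) S))
  have H2 : ∀ S : Finset ℕ, (∀ l ∈ S, 1 ≤ l ∧ l ≤ s) → (S.card : ℤ) = j + 1 →
      C.ω (s + 2) (u S) + C.D ub S ∈ C.Th (insert (s + 2) S) (insert (s + 2) S) := fun S a b => by
    rw [← d_insert (na S a).2.1]
    exact hu _ (by grind) (by rw [Finset.card_insert_of_notMem (na S a).2.1]; omega)
  have H3 : ∀ S : Finset ℕ, (∀ l ∈ S, 1 ≤ l ∧ l ≤ s) → (S.card : ℤ) = j + 1 →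
      C.ω (s + 1) (u S) + C.D ua S ∈ C.Th (insert (s + 1) S) (insert (s + 1) S) := fun S a b => by
    rw [← d_insert (na S a).1]
    exact hu _ (by grind) (by rw [Finset.card_insert_of_notMem (na S a).1]; omega)
  have H4 : ∀ S : Finset ℕ, (∀ l ∈ S, 1 ≤ l ∧ l ≤ s) → (S.card : ℤ) = j →
      C.ω (s + 1) (ub S) + (C.ω (s + 2) (ua S) + C.D uab S) ∈
        C.Th (insert (s + 1) (insert (s + 2) S)) (insert (s + 1) (insert (s + 2) S)) :=
    fun S a b => by
    rw [← d_insert (na S a).2.1 ua, ← d_insert (na S a).2.2]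
    exact hu _ (by grind) (by
      rw [Finset.card_insert_of_notMem (na S a).2.2, Finset.card_insert_of_notMem (na S a).2.1]
      omega)
  clear hu
  obtain ⟨w1, w0, A1⟩ := hE ub fun S a b => ⟨u S, by rw [add_comm (C.D ub S)]; exact H2 S a b⟩
  have A2 : ∀ S : Finset ℕ, (∀ l ∈ S, 1 ≤ l ∧ l ≤ s) → (S.card : ℤ) = j + 1 →
      u S + C.D w0 S ∈ C.Th S S := fun S a b => by
    have := d_mem (U := insert (s + 2) S) A1 a b (by clear * - a; grind)
    rw [d_add, d_add, d_d h2, d_w] at this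
    exact inj hF hI subset_rfl (na S a).1 (by clear * - a; grind)
      (mem2 h2 (add_mem this (H2 S a b)) (C.D ub S) (by rw [map_add]; abel))
  obtain ⟨v, B1⟩ := sj fun S => uab S + C.ω (s + 1) (w1 S)
  let z := fun S => ua S + C.ω (s + 1) (w0 S) + C.D v S
  have B3 : ∀ S : Finset ℕ, (∀ l ∈ S, 1 ≤ l ∧ l ≤ s) → (S.card : ℤ) = j → ∃ h,
      C.ω (s + 2) (z S) + C.θ (s + 1) h ∈
        C.Th (insert (s + 2) S) (insert (s + 1) (insert (s + 2) S)) := fun S a b => by
    have e1 := d_mem (U := insert (s + 1) (insert (s + 2) S)) (B1 (j - 1)) a (by omega)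
      (by clear * - a; grind)
    rw [d_add, d_add, d_w, d_w] at e1
    have e2 := w_th (A1 S a b) (na S a).2.2 (na S a).2.2 (Finset.subset_insert (s + 1) _) rfl
    simpa only [sb] using (C.mem_ins).1 (mem2 h2 (x := C.ω (s + 2) (z S))
      (add_mem (add_mem e1 e2) (H4 S a b))
      (C.D uab S + C.ω (s + 1) (C.D w1 S) + C.ω (s + 1) (ub S))
      (by simp only [z, map_add, C.ww (s + 2) (s + 1)]; abel))
  choose! h B3 using B3
  obtain ⟨g, ψ, B5⟩ := hE h fun S a b => by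
    have e1 := w_th (A2 S a b) (na S a).1 (na S a).1 (Finset.subset_insert (s + 1) _) rfl
    obtain ⟨φ, e2⟩ := (C.mem_ins).1 (mem2 h2 (x := C.D z S) (add_mem e1 (H3 S a b))
      (C.ω (s + 1) (u S)) (by simp only [z, d_add, d_w, d_d h2, map_add]; abel))
    have e3 := w_th (i := s + 2) (S' := insert (s + 1) (insert (s + 2) S)) e2
      (by clear * - a; grind) (na S a).2.1 (Finset.subset_insert (s + 2) _) (Finset.insert_comm _ _ _)
    have e4 := d_mem (U := insert (s + 2) S) B3 a b (by clear * - a; grind)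
    rw [d_add, d_w, d_t (na S a).1] at e4
    refine ⟨φ, hF _ _ (s + 1) subset_rfl (na S a).2.2 (by clear * - a; grind) (by omega) _
      (mem2 h2 (add_mem e3 e4) (C.ω (s + 2) (C.D z S)) ?_)⟩
    rw [sb, map_add, map_add, C.tw _ _ _ (by omega)]
    abel
  obtain ⟨g', B6⟩ := sj fun S => C.θ (s + 1) (g S)
  have B7 : ∀ S : Finset ℕ, (∀ l ∈ S, 1 ≤ l ∧ l ≤ s) → (S.card : ℤ) = j →
      z S + C.D g' S ∈ C.Th (insert (s + 1) S) (insert (s + 1) S) := fun S a b => by
    have e1 := d_mem (U := insert (s + 2) S) (B6 (j - 1)) a (by omega) (by clear * - a; grind)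
    rw [d_add, d_w, d_t (na S a).1] at e1
    have e2 := t_th (B5 S a b) (na S a).2.2 subset_rfl rfl
    refine (C.mem_ins).2 ⟨ψ S, inj hF hI (Finset.subset_insert _ _) (na S a).1
      (by clear * - a; grind) ?_⟩
    rw [Finset.insert_comm (s + 2) (s + 1)]
    refine mem2 h2 (add_mem (add_mem e1 e2) (B3 S a b))
      (C.θ (s + 1) (C.D g S) + C.θ (s + 1) (h S)) ?_
    simp only [sb, map_add, C.tw (s + 1) (s + 2) _ (by omega)]
    abel
  let w : Finset ℕ → W := fun S => if s + 1 ∈ S then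
    (if s + 2 ∈ S then 0 else v (S.erase (s + 1)) + g' (S.erase (s + 1)))
    else if s + 2 ∈ S then w1 (S.erase (s + 2)) else w0 S
  have e : ∀ S : Finset ℕ, (∀ l ∈ S, 1 ≤ l ∧ l ≤ s) → ∀ T ⊆ S, w T = w0 T ∧
      w (insert (s + 2) T) = w1 T ∧ w (insert (s + 1) T) = v T + g' T ∧
      w (insert (s + 1) (insert (s + 2) T)) = 0 := fun S a T b => by
    obtain ⟨c, d, -⟩ := na T fun l hl => a l (b hl)
    simp [w, c, d]
  refine ⟨w, fun S a b => ?_⟩
  obtain ⟨T, c, rfl | rfl | rfl | rfl⟩ : ∃ T : Finset ℕ, (∀ l ∈ T, 1 ≤ l ∧ l ≤ s) ∧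
      (S = T ∨ S = insert (s + 2) T ∨ S = insert (s + 1) T ∨
        S = insert (s + 1) (insert (s + 2) T)) := by
    refine ⟨S.filter (· ≤ s), by clear * - a; grind, ?_⟩
    clear * - a
    by_cases h1 : s + 1 ∈ S <;> by_cases h2 : s + 2 ∈ S
    · right; right; right; grind
    · right; right; left; grind
    · right; left; grind
    · left; grind
  · rw [d_congr fun T h => (e _ c T h).1]
    exact A2 _ c b
  · rw [Finset.card_insert_of_notMem (na T c).2.1] at b
    rw [d_insert (na T c).2.1, d_congr fun T h => (e _ c T h).2.1, (e _ c T subset_rfl).1]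
    convert A1 T c (by omega) using 1
    abel
  · rw [Finset.card_insert_of_notMem (na T c).1] at b
    rw [d_insert (na T c).1, d_congr fun T h => (e _ c T h).2.2.1, (e _ c T subset_rfl).1, d_add]
    convert B7 T c (by omega) using 1
    simp only [z, ua]
    abel
  · rw [d_insert (na T c).2.2, d_insert (na T c).2.1, d_congr fun T h => (e _ c T h).2.2.2,
      (e _ c T subset_rfl).2.1, (e _ c T subset_rfl).2.2.1]
    refine mem2 h2 (add_mem (th_mono (by simp) (add_mem (B1 _ T c rfl) (B6 _ T c rfl)))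
      (t_mem (i := s + 1) (by simp) _ (g T))) (C.θ (s + 1) (g T)) ?_
    simp only [D, map_zero, Finset.sum_const_zero, map_add, uab]
    abel

theorem transfer {W' : Type} [AddCommGroup W'] [Module K W'] {C' : Cube K W'} (g : W →ₗ[K] W')
    {s : ℕ} (h1 : ∀ S : Finset ℕ, (∀ l ∈ S, l ≤ s) → ∀ u, g u ∈ C'.Z S ↔ u ∈ C.Z S)
    (h2 : ∀ i ≤ s, ∀ u, g (C.θ i u) = C'.θ i (g u)) (h3 : ∀ i ≤ s, ∀ u, g (C.ω i u) = C'.ω i (g u))
    (h4 : ∀ v, ∃ u, ∀ S : Finset ℕ, (∀ l ∈ S, l ≤ s) → v - g u ∈ C'.Z S) :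
    (C.Full s → C'.Full s) ∧ ∀ j, C'.Ex s j → C.Ex s j := by
  have k : ∀ S : Finset ℕ, (∀ l ∈ S, l ≤ s) → ∀ U ⊆ S, ∀ u, g u ∈ C'.Th U S ↔ u ∈ C.Th U S := by
    intro S a U
    induction U using Finset.induction_on with
    | empty => exact fun _ u => by rw [th_empty, th_empty, h1 S a]
    | insert i U hi ih =>
      intro b u
      have c : i ∈ S := b (by simp)
      simp only [mem_ins, ← ih ((Finset.subset_insert _ _).trans b), map_sub, h2 i (a i c)]
      refine ⟨fun ⟨x, hx⟩ => ?_, fun ⟨x, hx⟩ => ⟨_, hx⟩⟩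
      obtain ⟨y, hy⟩ := h4 x
      refine ⟨y, ?_⟩
      simpa using add_mem hx (t_th (i := i) (z_th ∅ (hy (S.erase i) (by grind))) (by simp) (by simp)
        (Finset.insert_erase c))
  have kd : ∀ S : Finset ℕ, (∀ l ∈ S, l ≤ s) → ∀ u, g (C.D u S) = C'.D (fun T => g (u T)) S :=
    fun S a u => by
      rw [D, D, map_sum]
      exact Finset.sum_congr rfl fun i hi => h3 i (a i hi) _
  refine ⟨fun hF U S i a b c d m hm => ?_, fun j hE u hu => ?_⟩
  · obtain ⟨y, hy⟩ := h4 m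
    have e := z_th U (hy S c)
    have := (k S c U a y).2 (hF U S i a b c d y ((k (insert i S) (by grind) U (by grind) _).1 (by
      simpa [h2 i d] using sub_mem hm (t_th e b subset_rfl rfl))))
    simpa using add_mem e this
  · obtain ⟨w, hw⟩ := hE (fun T => g (u T)) fun S a b => by
      rw [← kd S fun l hl => (a l hl).2, k S (fun l hl => (a l hl).2) S subset_rfl]
      exact hu S a b
    choose y hy using h4
    refine ⟨fun T => y (w T), fun S a b => ?_⟩
    rw [← k S (fun l hl => (a l hl).2) S subset_rfl, map_add, kd S fun l hl => (a l hl).2]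
    have := d_mem (C := C') (x := fun T => w T - g (y (w T))) (f := fun _ => ∅) (g := fun T => T) (U := S)
      (j := j - 1) (fun T c _ => z_th _ (hy _ T fun l hl => (c l hl).2)) a (by omega) (by grind)
    have e := d_add (C := C') (fun T => w T - g (y (w T))) (fun T => g (y (w T))) S
    simp only [sub_add_cancel] at e
    have := sub_mem (hw S a b) this
    rw [show C'.D w S = _ from e] at this
    convert this using 1
    abel

end Cube

end Pool.Agent.H28.Eu
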