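import Pool.Agent.H28.Eu2

namespace Pool.Agent.H28.Eu

open Module Finset Classical _root_.Pool.Agent.H28.Eu.Cube

variable {K P V : Type} [Field K] [PartialOrder P] [AddCommGroup V] [Module K V] (rk : P → ℕ)
  (c : P → K)

def Ty (σ : Finset P) (S : Finset ℕ) : Prop := IsChain (· ≤ ·) (σ : Set P) ∧ σ.image rk = S

noncomputable def om (i : ℕ) : End K (Finset P → V) where
  toFun u σ := (∑ z ∈ σ with rk z = i, c z) • u (σ.filter (rk · ≠ i))
  map_add' x y := by
    funext σ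
    simp
  map_smul' a x := by
    funext σ
    simp [smul_comm a]

lemma ty_filter {σ : Finset P} {S : Finset ℕ} {i : ℕ} (h : Ty rk σ (insert i S)) (hi : i ∉ S) :
    Ty rk (σ.filter (rk · ≠ i)) S := by
  refine ⟨h.1.mono (Finset.coe_subset.2 (Finset.filter_subset _ _)), ?_⟩
  rw [← Finset.filter_image (p := (· ≠ i)), h.2]
  grind

noncomputable def cube (N : P → Submodule K V) : Cube K (Finset P → V) where
  Z S := ⨅ σ, ⨅ (_ : Ty rk σ S), ⨅ x, ⨅ (_ : ∀ z ∈ σ, z ≤ x), (N x).comap (LinearMap.proj σ)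
  θ i := LinearMap.funLeft K V fun σ => σ.filter (rk · ≠ i)
  ω := om rk c
  tt i j u := by
    funext σ
    simp only [LinearMap.funLeft_apply]
    rw [Finset.filter_comm]
  tw i j u h := by
    funext σ
    simp only [LinearMap.funLeft_apply, om, LinearMap.coe_mk, AddHom.coe_mk]
    rw [Finset.filter_comm (rk · ≠ j), Finset.filter_filter]
    congr 2
    grind
  ww i j u := by
    rcases eq_or_ne i j with rfl | h
    · rfl
    funext σ
    simp only [om, LinearMap.coe_mk, AddHom.coe_mk]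
    rw [Finset.filter_comm (rk · ≠ j), smul_comm, Finset.filter_filter, Finset.filter_filter (rk · ≠ j)]
    congr 3 <;> grind
  tZ i S u hi hu := by
    simp only [Submodule.mem_iInf, Submodule.mem_comap, LinearMap.proj_apply] at hu ⊢
    exact fun σ a x b => hu _ (ty_filter rk a hi) x fun z hz => b z (Finset.mem_filter.1 hz).1
  wZ i S u hi hu := by
    simp only [Submodule.mem_iInf, Submodule.mem_comap, LinearMap.proj_apply] at hu ⊢
    exact fun σ a x b => Submodule.smul_mem _ _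
      (hu _ (ty_filter rk a hi) x fun z hz => b z (Finset.mem_filter.1 hz).1)

variable {rk c} {N : P → Submodule K V}

lemma mem_z {S : Finset ℕ} {u : Finset P → V} : u ∈ (cube rk c N).Z S ↔
    ∀ σ, Ty rk σ S → ∀ x, (∀ z ∈ σ, z ≤ x) → u σ ∈ N x := by
  simp [cube, Submodule.mem_iInf]

lemma t_apply (i : ℕ) (u : Finset P → V) (σ : Finset P) :
    (cube rk c N).θ i u σ = u (σ.filter (rk · ≠ i)) := rfl

lemma w_apply (i : ℕ) (u : Finset P → V) (σ : Finset P) :
    (cube rk c N).ω i u σ = (∑ z ∈ σ with rk z = i, c z) • u (σ.filter (rk · ≠ i)) := rfl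

lemma Ty.mem {σ : Finset P} {S : Finset ℕ} (h : Ty rk σ S) {z : P} (hz : z ∈ σ) : rk z ∈ S :=
  h.2 ▸ Finset.mem_image_of_mem rk hz

lemma Ty.ex {σ : Finset P} {S : Finset ℕ} (h : Ty rk σ S) {i : ℕ} (hi : i ∈ S) :
    ∃ z ∈ σ, rk z = i := Finset.mem_image.1 (h.2 ▸ hi)

lemma Ty.le (hr : StrictMono rk) {σ : Finset P} {S : Finset ℕ} (h : Ty rk σ S) {z y : P}
    (hz : z ∈ σ) (hy : y ∈ σ) (e : rk z ≤ rk y) : z ≤ y := by
  rcases h.1.total hz hy with a | a
  · exact a
  · rcases a.eq_or_lt with a | a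
    · exact a.ge
    · exact absurd (hr a) (by omega)

lemma Ty.ins {σ : Finset P} {S : Finset ℕ} (h : Ty rk σ S) {y : P} (hy : ∀ z ∈ σ, z ≤ y) :
    Ty rk (insert y σ) (insert (rk y) S) :=
  ⟨by rw [Finset.coe_insert]; exact h.1.insert fun z a _ => Or.inr (hy z a), by
    rw [Finset.image_insert, h.2]⟩

omit [PartialOrder P] in
lemma fil_ins {σ : Finset P} {y : P} (h : ∀ z ∈ σ, rk z ≠ rk y) :
    (insert y σ).filter (rk · ≠ rk y) = σ ∧ (insert y σ).filter (rk · = rk y) = {y} := by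
  grind

lemma ty_ins (hr : StrictMono rk) {S : Finset ℕ} {r : ℕ} (hS : ∀ l ∈ S, l < r) {ρ : Finset P}
    (h : Ty rk ρ (insert r S)) :
    ∃ σ y, ρ = insert y σ ∧ Ty rk σ S ∧ rk y = r ∧ ∀ z ∈ σ, z < y := by
  obtain ⟨y, a, rfl⟩ := h.ex (Finset.mem_insert_self _ _)
  have b : ∀ z ∈ ρ, z ≤ y := fun z hz => h.le hr hz a (by have := h.mem hz; grind)
  refine ⟨_, y, ?_, ty_filter rk h (by grind), rfl, fun z hz => ?_⟩
  · ext z
    by_cases e : z ∈ ρ ∧ rk z = rk y
    · simp [(b z e.1).antisymm (h.le hr a e.1 e.2.ge), a]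
    · grind
  · rw [Finset.mem_filter] at hz
    exact (b z hz.1).lt_of_ne (by grind)

lemma mem_zi (hr : StrictMono rk) (hN : Monotone N) {S : Finset ℕ} {r : ℕ} (hS : ∀ l ∈ S, l < r)
    {u : Finset P → V} : u ∈ (cube rk c N).Z (insert r S) ↔ ∀ σ, Ty rk σ S → ∀ y, rk y = r →
      (∀ z ∈ σ, z < y) → u (insert y σ) ∈ N y := by
  rw [mem_z]
  refine ⟨fun h σ a y b d => h _ (b ▸ a.ins fun z hz => (d z hz).le) y (by grind), fun h ρ a x b => ?_⟩
  obtain ⟨σ, y, rfl, d, e, f⟩ := ty_ins hr hS a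
  exact hN (b y (by simp)) (h σ d y e f)

lemma tw_ins (hr : StrictMono rk) {σ : Finset P} {y : P} (h : ∀ z ∈ σ, z < y) (u : Finset P → V) :
    (cube rk c N).θ (rk y) u (insert y σ) = u σ ∧
      (cube rk c N).ω (rk y) u (insert y σ) = c y • u σ := by
  have := fil_ins (rk := rk) (σ := σ) (y := y) fun z hz => (hr (h z hz)).ne
  rw [t_apply, w_apply, this.1, this.2]
  simp

variable (rk c N) in
def Nx (r : ℕ) (x : P) : Submodule K (P → V) where
  carrier := {g | ∃ φ φ', ∀ y, x < y → rk y = r → g y - c y • φ' - φ ∈ N y}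
  add_mem' := fun ⟨a, b, h⟩ ⟨a', b', h'⟩ => ⟨a + a', b + b', fun y d e => by
    convert add_mem (h y d e) (h' y d e) using 1
    simp only [Pi.add_apply, smul_add]
    abel⟩
  zero_mem' := ⟨0, 0, by simp⟩
  smul_mem' := fun t _ ⟨a, b, h⟩ => ⟨t • a, t • b, fun y d e => by
    convert Submodule.smul_mem _ t (h y d e) using 1
    simp [smul_sub, smul_comm t]⟩

lemma nx_mono (r : ℕ) : Monotone (Nx rk c N r) :=
  fun _ _ h _ ⟨a, b, e⟩ => ⟨a, b, fun y d => e y (h.trans_lt d)⟩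

lemma mem_q0 (hr : StrictMono rk) (hN : Monotone N) {S : Finset ℕ} {r : ℕ} (hS : ∀ l ∈ S, l < r)
    {u x : Finset P → V} : u - (cube rk c N).ω r x ∈ (cube rk c N).Th {r} (insert r S) ↔
    ∃ a : Finset P → V, ∀ σ, Ty rk σ S → ∀ y, rk y = r → (∀ z ∈ σ, z < y) →
      u (insert y σ) - c y • x σ - a σ ∈ N y := by
  rw [← Finset.insert_empty, mem_ins, th_empty]
  refine exists_congr fun a => (mem_zi hr hN hS).trans (forall₅_congr fun σ _ y e h => ?_)
  subst e
  rw [Pi.sub_apply, Pi.sub_apply, (tw_ins hr h _).1, (tw_ins hr h _).2]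

theorem iso (hr : StrictMono rk) (hN : Monotone N) {s : ℕ}
    (h1 : ∀ e, rk e = s + 1 → ∀ φ φ', (∀ y, e < y → rk y = s + 2 → c y • φ' + φ ∈ N y) → φ' ∈ N e)
    (h2 : ∀ e, rk e = s + 1 → Nx rk c N (s + 2) e = ⊤) : (cube rk c N).Iso s := by
  intro S a b
  have b' : ∀ l ∈ S, l < s + 2 := fun l hl => Nat.lt_succ_of_le (b l hl)
  have tp : ∀ σ, Ty rk σ S → ∃ e ∈ σ, rk e = s + 1 ∧ ∀ z ∈ σ, z ≤ e := fun σ h => by
    obtain ⟨e, d, f⟩ := h.ex a
    exact ⟨e, d, f, fun z hz => h.le hr hz d (f ▸ b _ (h.mem hz))⟩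
  refine ⟨fun m hm => mem_z.2 fun σ d x f => ?_, fun m => ?_⟩
  · obtain ⟨t, ht⟩ := (mem_q0 (u := 0) (x := m) hr hN b').1 (by simpa using hm)
    obtain ⟨e, g1, g2, g3⟩ := tp σ d
    refine hN (f e g1) (h1 e g2 (t σ) _ fun y p q => ?_)
    have := neg_mem (ht σ d y q fun z hz => (g3 z hz).trans_lt p)
    simpa [add_comm] using this
  · have : ∀ σ, Ty rk σ S → ∃ φ φ', ∀ y, rk y = s + 2 → (∀ z ∈ σ, z < y) →
        m (insert y σ) - c y • φ' - φ ∈ N y := fun σ d => by
      obtain ⟨e, g1, g2, -⟩ := tp σ d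
      obtain ⟨φ, φ', h⟩ : (fun y => m (insert y σ)) ∈ Nx rk c N (s + 2) e := by simp [h2 e g2]
      exact ⟨φ, φ', fun y p q => h y (q e g1) p⟩
    choose! φ φ' h using this
    exact ⟨φ', (mem_q0 hr hN b').2 ⟨φ, h⟩⟩

variable (rk K) in
noncomputable def gl (r : ℕ) : (Finset P → V) →ₗ[K] (Finset P → P → V) where
  toFun u σ y := if rk y = r then u (insert y (σ.filter (rk · < r))) else 0
  map_add' x y := by
    funext σ z
    simp only [Pi.add_apply]
    split_ifs <;> simp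
  map_smul' a x := by
    funext σ z
    simp

theorem trans [OrderBot P] (hr : StrictMono rk) (h0 : rk ⊥ = 0) (hN : Monotone N) (s : ℕ) :
    (((cube rk c N).Q (s + 2)).Full s → (cube rk c (Nx rk c N (s + 2))).Full s) ∧
    ∀ j, (cube rk c (Nx rk c N (s + 2))).Ex s j → ((cube rk c N).Q (s + 2)).Ex s j := by
  have ga : ∀ S : Finset ℕ, (∀ l ∈ S, l ≤ s) → ∀ σ, Ty rk σ S → ∀ y, rk y = s + 2 →
      ∀ u : Finset P → V, gl K rk (s + 2) u σ y = u (insert y σ) := fun S a σ b y d u => by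
    simp only [gl, LinearMap.coe_mk, AddHom.coe_mk, if_pos d]
    rw [Finset.filter_true_of_mem fun z hz => by have := a _ (b.mem hz); omega]
  refine transfer (gl K rk (s + 2)) (fun S a u => ?_) (fun i a u => ?_) (fun i a u => ?_) fun v => ?_
  · rw [← th_empty ((cube rk c N).Q _), mem_q, Finset.insert_empty]
    simp only [mem_q0 hr hN (show ∀ l ∈ S, l < s + 2 by grind), mem_z]
    refine ⟨fun h => ?_, fun ⟨x, t, h⟩ σ b z d => ⟨t σ, x σ, fun y e f => ?_⟩⟩
    · have : ∀ σ, Ty rk σ S → ∃ φ φ', ∀ y, rk y = s + 2 → (∀ z ∈ σ, z < y) →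
          u (insert y σ) - c y • φ' - φ ∈ N y := fun σ b => by
        obtain ⟨t, t1, t2⟩ : ∃ t, (∀ z ∈ σ, z ≤ t) ∧ ∀ y, rk y = s + 2 → (∀ z ∈ σ, z < y) → t < y := by
          rcases σ.eq_empty_or_nonempty with rfl | hσ
          · exact ⟨⊥, by simp, fun y e _ => bot_lt_iff_ne_bot.2 (by grind)⟩
          · obtain ⟨t, t1, t2⟩ := σ.exists_max_image rk hσ
            exact ⟨t, fun z hz => b.le hr hz t1 (t2 z hz), fun y _ e => e t t1⟩
        obtain ⟨φ, φ', e⟩ := h σ b t t1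
        exact ⟨φ, φ', fun y p q => ga S a σ b y p u ▸ e y (t2 y p q) p⟩
      choose! φ φ' h using this
      exact ⟨φ', φ, h⟩
    · rw [ga S a σ b y f]
      exact h σ b y f fun w hw => (d w hw).trans_lt e
  · funext σ y
    simp only [gl, Q, LinearMap.coe_mk, AddHom.coe_mk, t_apply]
    split_ifs with h
    · congr 1
      grind
    · rfl
  · funext σ y
    simp only [gl, Q, LinearMap.coe_mk, AddHom.coe_mk, w_apply, Pi.smul_apply]
    split_ifs with h
    · congr 2 <;> grind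
    · simp
  · refine ⟨fun ρ => ∑ y ∈ ρ with rk y = s + 2, v (ρ.filter (rk · ≠ s + 2)) y, fun S a =>
      mem_z.2 fun σ b x _ => ⟨0, 0, fun y _ e => ?_⟩⟩
    have := fil_ins (rk := rk) (σ := σ) (y := y) fun z hz => by have := a _ (b.mem hz); omega
    rw [e] at this
    simp [ga S a σ b y e, this.1, this.2]

lemma ty_one (hr : StrictMono rk) {σ : Finset P} {i : ℕ} : Ty rk σ {i} ↔ ∃ x, σ = {x} ∧ rk x = i := by
  refine ⟨fun h => ?_, fun ⟨x, a, b⟩ => ⟨by simp [a], by simp [a, b]⟩⟩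
  obtain ⟨τ, y, a, b, d, -⟩ := ty_ins (S := ∅) hr (by simp) h
  exact ⟨y, by rw [a, Finset.image_eq_empty.1 b.2]; rfl, d⟩

theorem loc1 (hr : StrictMono rk) (hN : Monotone N) {r : ℕ} (hF : (cube rk c N).Full r) {x : P}
    {i : ℕ} (h1 : rk x < i) (h2 : i ≤ r) {φ : V} (h : ∀ y, x < y → rk y = i → φ ∈ N y) : φ ∈ N x := by
  have := hF ∅ {rk x} i (by simp) (by grind) (by grind) h2 (Pi.single {x} φ) (z_th _
    ((mem_zi hr hN (by simpa)).2 fun σ a y b d => by
      subst b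
      rw [(tw_ins hr d _).1]
      by_cases e : σ = {x}
      · simpa [e] using h y (d x (by simp [e])) rfl
      · simp [e]))
  rw [th_empty, mem_z] at this
  simpa using this {x} ((ty_one hr).2 ⟨x, rfl, rfl⟩) x (by simp)

theorem loc3 (hr : StrictMono rk) (hN : Monotone N) {s : ℕ} (hF : (cube rk c N).Full (s + 2))
    {v : P} (hv : rk v = s) {h a : P → V} (e : ∀ e y, v < e → e < y → rk e = s + 1 → rk y = s + 2 →
      h e - a y ∈ N y) : ∃ φ, ∀ e, v < e → rk e = s + 1 → h e - φ ∈ N e := by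
  have := hF {s + 1} (insert (s + 1) {s}) (s + 2) (by simp) (by grind) (by grind) le_rfl
    (fun σ => if v ∈ σ then ∑ e ∈ σ with rk e = s + 1, h e else 0) (by
      rw [← Finset.insert_empty, mem_ins, th_empty]
      refine ⟨fun σ => if v ∈ σ then ∑ y ∈ σ with rk y = s + 2, a y else 0,
        (mem_zi hr hN (by grind)).2 fun σ b y d f => ?_⟩
      obtain ⟨τ, z, rfl, g1, g2, g3⟩ := ty_ins hr (by simp) b
      obtain ⟨w, rfl, g4⟩ := (ty_one hr).1 g1
      rw [Pi.sub_apply, t_apply, t_apply,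
        show (insert y (insert z {w}) : Finset P).filter (rk · ≠ s + 2) = {z, w} by grind,
        show (insert y (insert z {w}) : Finset P).filter (rk · ≠ s + 1) = {y, w} by grind,
        show ({z, w} : Finset P).filter (rk · = s + 1) = {z} by grind,
        show ({y, w} : Finset P).filter (rk · = s + 2) = {y} by grind]
      by_cases g5 : v = w
      · simpa [g5] using e z y (g5 ▸ g3 w (by simp)) (f z (by simp)) g2 d
      · rw [if_neg (by grind), if_neg (by grind)]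
        simp)
  rw [← Finset.insert_empty, mem_ins, th_empty] at this
  obtain ⟨x, hx⟩ := this
  refine ⟨x {v}, fun z b d => ?_⟩
  have := (mem_zi hr hN (by simp)).1 hx {v} ((ty_one hr).2 ⟨v, rfl, hv⟩) z d (by simpa)
  rw [Pi.sub_apply, t_apply, show (insert z {v} : Finset P).filter (rk · ≠ s + 1) = {v} by grind,
    show (insert z {v} : Finset P).filter (rk · = s + 1) = {z} by grind] at this
  simpa using this

end Pool.Agent.H28.Eu
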