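import Pool.Agent.H28.Eu3

namespace Pool.Agent.H28.Eu

open Module Finset Classical _root_.Pool.Agent.H28.Eu.Cube

variable {K P V : Type} [Field K] [PartialOrder P] [Fintype P] [AddCommGroup V] [Module K V]
  {rk : P → ℕ} {c : P → K} {N : P → Submodule K V}

lemma sw {M : Type} [AddCommMonoid M] (x : P) (i j : ℕ) (F : P → P → M) :
    ∑ v with x < v ∧ rk v = i, ∑ e with v < e ∧ rk e = j, F v e =
      ∑ e with x < e ∧ rk e = j, ∑ v with x < v ∧ v < e ∧ rk v = i, F v e :=
  Finset.sum_comm' fun v e => by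
    simp only [Finset.mem_filter, Finset.mem_univ, true_and]
    exact ⟨fun h => ⟨⟨h.1.1, h.2.1, h.1.2⟩, h.1.1.trans h.2.1, h.2.2⟩,
      fun h => ⟨⟨h.1.1, h.1.2.2⟩, h.1.2.1, h.2.2⟩⟩

lemma split {x : P} {s : ℕ} (hx : rk x ≤ s) (G : P → ℤ) :
    ∑ z with x ≤ z ∧ rk z ≤ s + 1, G z =
      ∑ z with x ≤ z ∧ rk z ≤ s, G z + ∑ z with x < z ∧ rk z = s + 1, G z := by
  rw [← Finset.sum_union (by simp only [Finset.disjoint_filter]; omega), ← Finset.filter_or]
  refine Finset.sum_congr (Finset.filter_congr fun z _ => ⟨fun h => ?_, fun h => ?_⟩) fun _ _ => rfl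
  · rcases h.2.eq_or_lt with e | e
    · exact Or.inr ⟨h.1.lt_of_ne (by grind), e⟩
    · exact Or.inl ⟨h.1, by omega⟩
  · rcases h with h | h
    · exact ⟨h.1, by omega⟩
    · exact ⟨h.1.le, h.2.le⟩

lemma one_sum {M : Type} [AddCommMonoid M] (hr : StrictMono rk) (x : P) (G : P → M) {p : P → Prop}
    [DecidablePred p] (h : ∀ z, p z ↔ x ≤ z ∧ rk z ≤ rk x) : ∑ z with p z, G z = G x := by
  rw [show Finset.univ.filter p = {x} from ?_, Finset.sum_singleton]
  ext z
  simp only [Finset.mem_filter, Finset.mem_univ, true_and, Finset.mem_singleton, h]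
  exact ⟨fun a => (a.1.eq_or_lt.resolve_right fun b => absurd (hr b) (by omega)).symm,
    fun a => by simp [a]⟩

variable (rk) in
def Eul : Prop := ∀ x y : P, x < y → ∑ z with x ≤ z ∧ z ≤ y, (-1 : ℤ) ^ rk z = 0

lemma diamond (hr : StrictMono rk) (hE : Eul rk) {x y : P} {i : ℕ} (h : x < y) (h1 : rk x + 1 = i)
    (h2 : rk y = i + 1) :
    ∃ a b, a ≠ b ∧ (Finset.univ.filter fun v => x < v ∧ v < y ∧ rk v = i) = {a, b} := by
  have := hE x y h
  have e : (Finset.univ.filter fun z => x ≤ z ∧ z ≤ y) =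
      insert x (insert y (Finset.univ.filter fun v => x < v ∧ v < y ∧ rk v = i)) := by
    ext z
    simp only [Finset.mem_filter, Finset.mem_univ, true_and, Finset.mem_insert]
    refine ⟨fun ⟨a, b⟩ => ?_, ?_⟩
    · rcases a.eq_or_lt with a | a
      · exact Or.inl a.symm
      rcases b.eq_or_lt with b | b
      · exact Or.inr (Or.inl b)
      have := hr a
      have := hr b
      exact Or.inr (Or.inr ⟨a, b, by omega⟩)
    · rintro (rfl | rfl | a)
      exacts [⟨le_rfl, h.le⟩, ⟨h.le, le_rfl⟩, ⟨a.1.le, a.2.1.le⟩]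
  rw [e, Finset.sum_insert (by simp [h.ne]), Finset.sum_insert (by simp),
    Finset.sum_congr rfl (g := fun _ => (-1 : ℤ) ^ i) (fun z hz => by simp_all), Finset.sum_const,
    h2, ← h1] at this
  rw [← Finset.card_eq_two, ← h1]
  have e2 : (-1 : ℤ) ^ rk x ≠ 0 := by simp
  refine Nat.cast_injective (R := ℤ) (mul_right_cancel₀ e2 ?_)
  simp only [nsmul_eq_mul, pow_succ] at this
  push_cast
  linarith

lemma dc (hr : StrictMono rk) (hE : Eul rk) (h2 : ∀ a : K, a + a = 0) {x : P} {i : ℕ}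
    (h1 : rk x + 1 = i) (F : P → K) :
    ∑ v with x < v ∧ rk v = i, ∑ e with v < e ∧ rk e = i + 1, F e = 0 := by
  rw [sw]
  refine Finset.sum_eq_zero fun e he => ?_
  rw [Finset.mem_filter] at he
  obtain ⟨a, b, d, f⟩ := diamond hr hE he.2.1 h1 he.2.2
  rw [f, Finset.sum_pair d, h2]

noncomputable def dq (p : Submodule K V) : ℕ := finrank K (V ⧸ p)

lemma dim_nx [FiniteDimensional K V] {r : ℕ} {x : P}
    (h : ∀ φ φ', (∀ y, x < y → rk y = r → c y • φ' + φ ∈ N y) ↔ φ ∈ N x ∧ φ' ∈ N x) :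
    dq (Nx rk c N r x) + 2 * dq (N x) = ∑ y with x < y ∧ rk y = r, dq (N y) := by
  let p : P → Submodule K V := fun y => if x < y ∧ rk y = r then N y else ⊤
  let A := Submodule.pi Set.univ p
  have mA : ∀ g, g ∈ A ↔ ∀ y, x < y → rk y = r → g y ∈ N y := fun g => by
    simp only [A, p, Submodule.mem_pi, Set.mem_univ, true_imp_iff]
    refine forall_congr' fun y => ?_
    split_ifs with e
    · simp [e.1, e.2]
    · simpa using fun a b => (e ⟨a, b⟩).elim
  let Δ : V × V →ₗ[K] (P → V) := LinearMap.pi fun y => c y • LinearMap.snd K V V + LinearMap.fst K V V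
  have h1 : finrank K ((P → V) ⧸ A) = ∑ y with x < y ∧ rk y = r, dq (N y) := by
    rw [(Submodule.quotientPi p).finrank_eq, Module.finrank_pi_fintype, Finset.sum_filter]
    refine Finset.sum_congr rfl fun y _ => ?_
    change dq (p y) = _
    simp only [p]
    split_ifs with e
    · rfl
    · exact Module.finrank_zero_of_subsingleton
  have h2 : LinearMap.ker (A.mkQ ∘ₗ Δ) = (N x).prod (N x) := by
    ext ⟨a, b⟩
    simp [mA, Δ, h]
  have h3 : (Nx rk c N r x).map A.mkQ = LinearMap.range (A.mkQ ∘ₗ Δ) := by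
    ext g
    refine ⟨fun ⟨f, ⟨a, b, e⟩, d⟩ => ⟨(a, b), d ▸ ?_⟩, fun ⟨⟨a, b⟩, d⟩ => ⟨Δ (a, b), ⟨a, b, ?_⟩, d⟩⟩
    · refine ((Submodule.Quotient.eq A).2 ((mA _).2 fun y p q => ?_)).symm
      simpa [Δ, sub_sub] using e y p q
    · simp [Δ]
  have h4 := (Submodule.quotientQuotientEquivQuotient A (Nx rk c N r x)
    fun g hg => ⟨0, 0, by simpa using (mA g).1 hg⟩).finrank_eq
  have h5 := Submodule.finrank_quotient_add_finrank ((Nx rk c N r x).map A.mkQ)
  have h6 := (A.mkQ ∘ₗ Δ).finrank_range_add_finrank_ker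
  have h7 := ((N x).mkQ.prodMap (N x).mkQ).finrank_range_add_finrank_ker
  rw [LinearMap.range_prodMap, LinearMap.ker_prodMap, Submodule.range_mkQ, Submodule.ker_mkQ,
    Submodule.prod_top, finrank_top, Module.finrank_prod (M := V ⧸ N x)] at h7
  rw [h2, ← h3] at h6
  rw [h4, h1] at h5
  unfold dq at *
  omega

variable (rk c) (Dr : P → K →+ K)

structure Inv (r : ℕ) (N : P → Submodule K V) (B : P → V →ₗ[K] V →ₗ[K] K) : Prop where
  mono : Monotone N
  full : (cube rk c N).Full r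
  sym : ∀ y a b, B y a b = B y b a
  ker : ∀ y, rk y = r → ∀ a ∈ N y, ∀ b, B y a b = 0
  der : ∀ y, rk y = r → ∀ a x, rk x ≤ r → Dr x (B y a a) = 0
  ani : ∀ y, rk y = r → ∀ a, B y a a = 0 → a ∈ N y
  iso : ∀ e, rk e + 1 = r → ∀ a b, ∑ y with e < y ∧ rk y = r, B y a b = 0
  eul : ∀ x, rk x ≤ r → ∑ y with x ≤ y ∧ rk y ≤ r, (-1 : ℤ) ^ (r + rk y) * dq (N y) = dq (N x)

structure Der : Prop where
  two : ∀ a : K, a + a = 0
  lei : ∀ x a b, Dr x (a * b) = a * Dr x b + b * Dr x a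
  dc : ∀ x y, Dr x (c y) = if x = y then 1 else 0

variable {rk c Dr}

omit [PartialOrder P] [Fintype P] in
lemma Der.ani (hD : Der c Dr) {Y : Finset P} {b : P → K} (h : ∀ x ∈ Y, ∀ y ∈ Y, Dr x (b y) = 0)
    (e : ∑ y ∈ Y, c y * b y = 0) : ∀ y ∈ Y, b y = 0 := fun x hx => by
  have := congrArg (Dr x) e
  rw [map_sum, map_zero, Finset.sum_congr rfl fun y hy => by rw [hD.lei, h x hx y hy, hD.dc]] at this
  simpa [hx] using this

theorem step [OrderBot P] [FiniteDimensional K V] (hr : StrictMono rk) (h0 : rk ⊥ = 0)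
    (hE : Eul rk) (hD : Der c Dr) {s : ℕ} {B : P → V →ₗ[K] V →ₗ[K] K}
    (h : Inv rk c Dr (s + 2) N B) :
    (cube rk c N).Iso s ∧ ∃ B', Inv rk c Dr s (Nx rk c N (s + 2)) B' := by
  have L1 : ∀ e, rk e = s + 1 → ∀ φ φ', (∀ y, e < y → rk y = s + 2 → c y • φ' + φ ∈ N y) →
      φ' ∈ N e := fun e he φ φ' a => by
    have e1 : ∑ y with e < y ∧ rk y = s + 2, c y * B y φ' φ' = 0 := by
      refine (add_zero _).symm.trans ((congrArg _ (h.iso e (by omega) φ φ').symm).trans ?_)
      rw [← Finset.sum_add_distrib]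
      refine Finset.sum_eq_zero fun y hy => ?_
      rw [Finset.mem_filter] at hy
      simpa using h.ker y hy.2.2 _ (a y hy.2.1 hy.2.2) φ'
    refine loc1 hr h.mono h.full (i := s + 2) (by omega) le_rfl fun y p q => h.ani y q _
      (hD.ani (fun x hx y hy => ?_) e1 y (by simp [p, q]))
    rw [Finset.mem_filter] at hx hy
    exact h.der y hy.2.2 _ x hx.2.2.le
  have L2 : ∀ x, rk x ≤ s + 1 → ∀ φ φ', (∀ y, x < y → rk y = s + 2 → c y • φ' + φ ∈ N y) ↔
      φ ∈ N x ∧ φ' ∈ N x := fun x hx φ φ' => by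
    refine ⟨fun a => ?_, fun a y p _ => h.mono p.le (add_mem (Submodule.smul_mem _ _ a.2) a.1)⟩
    have b : φ' ∈ N x := by
      rcases hx.eq_or_lt with e | e
      · exact L1 x e φ φ' a
      · exact loc1 hr h.mono h.full e (by omega) fun e p q => L1 e q φ φ' fun y f => a y (p.trans f)
    exact ⟨loc1 hr h.mono h.full (i := s + 2) (by omega) le_rfl fun y p q => by
      simpa using sub_mem (a y p q) (h.mono p.le (Submodule.smul_mem _ (c y) b)), b⟩
  have d1 : ∀ x, rk x ≤ s + 1 → (dq (Nx rk c N (s + 2) x) : ℤ) =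
      ∑ y with x < y ∧ rk y = s + 2, (dq (N y) : ℤ) - 2 * dq (N x) := fun x hx => by
    rw [← Nat.cast_sum, ← dim_nx (L2 x hx)]
    push_cast
    ring
  have sg : ∀ (x : P) (i : ℕ) (G : P → ℤ), ∑ y with x < y ∧ rk y = i, (-1 : ℤ) ^ (s + 2 + rk y) * G y =
      (-1) ^ (s + i) * ∑ y with x < y ∧ rk y = i, G y := fun x i G => by
    rw [Finset.mul_sum]
    exact Finset.sum_congr rfl fun y hy => by rw [(Finset.mem_filter.1 hy).2.2]; ring
  have s1 : (-1 : ℤ) ^ (s + (s + 1)) = -1 := Odd.neg_one_pow ⟨s, by ring⟩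
  have s2 : (-1 : ℤ) ^ (s + (s + 2)) = 1 := Even.neg_one_pow ⟨s + 1, by ring⟩
  have d2 : ∀ e, rk e = s + 1 → ∑ y with e < y ∧ rk y = s + 2, (dq (N y) : ℤ) = 2 * dq (N e) :=
    fun e he => by
    have := h.eul e (by omega)
    rw [split he.le, one_sum hr e _ (by simp [he]), sg, s2, he,
      Odd.neg_one_pow ⟨s + 1, by ring⟩] at this
    linarith
  have L3 : ∀ e, rk e = s + 1 → Nx rk c N (s + 2) e = ⊤ := fun e he => by
    have := d1 e he.le
    rw [d2 e he, sub_self, Nat.cast_eq_zero] at this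
    exact Submodule.Quotient.subsingleton_iff.1 (Module.finrank_zero_iff.1 this)
  have hI := iso hr h.mono L1 L3
  refine ⟨hI, ?_⟩
  have ex : ∀ e, ∃ g : (P → V) →ₗ[K] V, rk e = s + 1 → ∀ f, ∃ φ, ∀ y, e < y → rk y = s + 2 →
      f y - c y • g f - φ ∈ N y := fun e => by
    by_cases he : rk e = s + 1
    swap
    · exact ⟨0, fun a => (he a).elim⟩
    let b := Module.finBasis K (P → V)
    choose φ φ' e2 using fun i => (L3 e he ▸ Submodule.mem_top : b i ∈ Nx rk c N (s + 2) e)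
    refine ⟨b.constr K φ', fun _ f => ⟨b.constr K φ f, fun y p q => ?_⟩⟩
    have : ∀ f, f ∈ (N y).comap (LinearMap.proj y - c y • b.constr K φ' - b.constr K φ) :=
      Submodule.eq_top_iff'.1 (top_le_iff.1 ?_)
    · simpa using this f
    · rw [← b.span_eq, Submodule.span_le]
      rintro _ ⟨i, rfl⟩
      simpa using e2 i y p q
  choose g hg using ex
  choose! φ hg using hg
  let B' : P → (P → V) →ₗ[K] (P → V) →ₗ[K] K := fun v => ∑ e with v < e ∧ rk e = s + 1,
    ∑ y with e < y ∧ rk y = s + 2, c y • (B y).compl₁₂ (g e) (g e)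
  have eB : ∀ v f f', B' v f f' = ∑ e with v < e ∧ rk e = s + 1,
      ∑ y with e < y ∧ rk y = s + 2, c y * B y (g e f) (g e f') := fun v f f' => by
    simp [B', LinearMap.sum_apply]
  refine ⟨B', nx_mono _, (trans hr h0 h.mono s).1 (full_q h.full hI), fun v a b => ?_,
    fun v hv f ⟨a, b, hf⟩ f' => ?_, fun v hv f x hx => ?_, fun v hv f e1 => ?_,
    fun x hx f f' => ?_, fun x hx => ?_⟩
  · simp only [eB, h.sym _ (g _ a)]
  · rw [eB, ← dc hr hE hD.two (i := s + 1) (x := v) (by omega) fun y => B y b (f' y)]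
    refine Finset.sum_congr rfl fun e he => ?_
    obtain ⟨-, p, q⟩ := Finset.mem_filter.1 he
    have e1 : g e f - b ∈ N e := L1 e q (φ e f - a) _ fun y p1 q1 => by
      convert sub_mem (hf y (p.trans p1) q1) (hg e q f y p1 q1) using 1
      rw [smul_sub]
      abel
    refine (add_zero _).symm.trans ((congrArg _ (h.iso e (by omega) b (φ e f')).symm).trans ?_)
    rw [← Finset.sum_add_distrib]
    refine Finset.sum_congr rfl fun y hy => ?_
    obtain ⟨-, p1, q1⟩ := Finset.mem_filter.1 hy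
    have e2 := h.ker y q1 _ (h.mono p1.le e1) (g e f')
    have e3 := h.ker y q1 _ (hg e q f' y p1 q1) b
    rw [h.sym] at e3
    simp only [map_sub, map_smul, LinearMap.sub_apply, smul_eq_mul] at e2 e3
    linear_combination c y * e2 - e3
  · rw [eB, map_sum]
    refine Finset.sum_eq_zero fun e _ => ?_
    rw [map_sum]
    refine Finset.sum_eq_zero fun y hy => ?_
    obtain ⟨-, -, q1⟩ := Finset.mem_filter.1 hy
    rw [hD.lei, h.der y q1 _ x (by omega), hD.dc, if_neg (by grind)]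
    simp
  · rw [eB, sw] at e1
    simp only [← Finset.mul_sum] at e1
    have e2 := hD.ani (fun x hx y hy => by
      rw [map_sum]
      exact Finset.sum_eq_zero fun e _ => h.der y (Finset.mem_filter.1 hy).2.2 _ x
        (Finset.mem_filter.1 hx).2.2.le) e1
    have e3 : ∀ y, ∃ a, ∀ e, v < e → e < y → rk e = s + 1 → rk y = s + 2 → g e f - a ∈ N y := by
      intro y
      by_cases hy : v < y ∧ rk y = s + 2
      swap
      · exact ⟨0, fun e a b _ d => (hy ⟨a.trans b, d⟩).elim⟩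
      obtain ⟨a, b, d, e4⟩ := diamond hr hE hy.1 (i := s + 1) (by omega) hy.2
      have e5 := e2 y (by simp [hy])
      rw [e4, Finset.sum_pair d] at e5
      refine ⟨g a f, fun e p q t u => ?_⟩
      rcases Finset.mem_insert.1 (e4 ▸ (by simp [p, q, t]) : e ∈ ({a, b} : Finset P)) with rfl | e6
      · simp
      rw [Finset.mem_singleton.1 e6]
      refine h.ani y u _ ?_
      simp only [map_sub, LinearMap.sub_apply, h.sym y (g a f) (g b f)]
      linear_combination e5 - hD.two (B y (g b f) (g a f))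
    choose a e3 using e3
    obtain ⟨b, hb⟩ := loc3 hr h.mono h.full hv (h := fun e => g e f) fun e y => e3 y e
    have e4 : ∀ e y, v < e → e < y → rk e = s + 1 → rk y = s + 2 →
        φ e f - (f y - c y • b) ∈ N y := fun e y p q t u => by
      convert neg_mem (add_mem (hg e t f y q u)
        (Submodule.smul_mem _ (c y) (h.mono q.le (hb e p t)))) using 1
      rw [smul_sub]
      abel
    obtain ⟨d, hd⟩ := loc3 hr h.mono h.full hv (h := fun e => φ e f) e4
    refine ⟨d, b, fun y p q => ?_⟩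
    obtain ⟨e, _, _, e5⟩ := diamond hr hE p (i := s + 1) (by omega) q
    obtain ⟨-, p1, p2, p3⟩ := Finset.mem_filter.1 (e5 ▸ Finset.mem_insert_self e _)
    convert sub_mem (h.mono p2.le (hd e p1 p3)) (e4 e y p1 p2 p3 q) using 1
    abel
  · simp only [eB]
    exact dc hr hE hD.two hx _
  · have e1 := h.eul x (by omega)
    let a : P → ℤ := fun z => ∑ y with z ≤ y ∧ rk y = s + 2, (dq (N y) : ℤ)
    have ea : ∀ z, rk z ≤ s + 1 → a z = ∑ y with z < y ∧ rk y = s + 2, (dq (N y) : ℤ) :=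
      fun z hz => Finset.sum_congr (Finset.filter_congr fun y _ =>
        ⟨fun t => ⟨t.1.lt_of_ne (by grind), t.2⟩, fun t => ⟨t.1.le, t.2⟩⟩) fun _ _ => rfl
    have e2 : ∑ z with x ≤ z ∧ rk z ≤ s + 2, (-1 : ℤ) ^ (s + 2 + rk z) * a z = 0 := by
      simp only [a, Finset.mul_sum]
      rw [Finset.sum_comm' (t' := Finset.univ.filter fun y => x < y ∧ rk y = s + 2)
        (s' := fun y => Finset.univ.filter fun z => x ≤ z ∧ z ≤ y) fun z y => ?_]
      · refine Finset.sum_eq_zero fun y hy => ?_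
        simp only [pow_add, ← Finset.sum_mul, ← Finset.mul_sum]
        rw [hE x y (Finset.mem_filter.1 hy).2.1]
        simp
      · simp only [Finset.mem_filter, Finset.mem_univ, true_and]
        exact ⟨fun t => ⟨⟨t.1.1, t.2.1⟩, (t.1.1.trans t.2.1).lt_of_ne (by grind), t.2.2⟩,
          fun t => ⟨⟨t.1.1, t.2.2 ▸ hr.monotone t.1.2⟩, t.1.2, t.2.2⟩⟩
    rw [split (by omega), split hx, sg, sg, s1, s2] at e1 e2
    have e3 : ∑ e with x < e ∧ rk e = s + 1, a e =
        2 * ∑ e with x < e ∧ rk e = s + 1, (dq (N e) : ℤ) := by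
      rw [Finset.mul_sum]
      refine Finset.sum_congr rfl fun e he => ?_
      rw [ea e (Finset.mem_filter.1 he).2.2.le, d2 e (Finset.mem_filter.1 he).2.2]
    have e4 : ∑ y with x < y ∧ rk y = s + 2, a y =
        ∑ y with x < y ∧ rk y = s + 2, (dq (N y) : ℤ) := by
      refine Finset.sum_congr rfl fun y hy => one_sum hr y _ fun z => ?_
      have := (Finset.mem_filter.1 hy).2.2
      exact ⟨fun t => ⟨t.1, by omega⟩, fun t => ⟨t.1, by have := hr.monotone t.1; omega⟩⟩
    rw [e3, e4] at e2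
    rw [d1 x (by omega), Finset.sum_congr rfl (g := fun z => (-1 : ℤ) ^ (s + 2 + rk z) * a z -
      2 * ((-1 : ℤ) ^ (s + 2 + rk z) * dq (N z))) fun z hz => by
        have := (Finset.mem_filter.1 hz).2.2
        rw [d1 z (by omega), ea z (by omega)]
        ring, Finset.sum_sub_distrib, ← Finset.mul_sum]
    linarith

theorem main [OrderBot P] (hr : StrictMono rk) (h0 : rk ⊥ = 0) (hE : Eul rk) (hD : Der c Dr)
    (t : ℕ) : ∀ (V : Type) [AddCommGroup V] [Module K V] [FiniteDimensional K V]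
      (N : P → Submodule K V) (B : P → V →ₗ[K] V →ₗ[K] K), Inv rk c Dr (2 * t) N B →
      ∀ j : ℤ, j < t → (cube rk c N).Ex (2 * t) j := by
  induction t with
  | zero => exact fun V _ _ _ N B _ j hj u _ => ⟨0, fun S _ b => by omega⟩
  | succ t ih =>
    intro V _ _ _ N B h j hj
    obtain ⟨hI, B', h'⟩ := step hr h0 hE hD h
    have := ex_step (fun x => by rw [← one_smul K x, ← add_smul, hD.two, zero_smul]) h.full hI
      ((trans hr h0 h.mono _).2 (j - 1) (ih _ _ _ h' _ (by omega)))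
    rwa [sub_add_cancel] at this

end Pool.Agent.H28.Eu
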