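import Pool.Agent.H28.Eu4

namespace Pool.Agent.H28.Eu

open Module Finset Classical _root_.Pool.Agent.H28.Eu.Cube MvPolynomial

variable {K k P : Type} [Field K] [Field k] [Algebra K k] [Fintype P]
  {rk : P → ℕ} {c : P → K}

noncomputable def ind (σ : Finset P) : P →₀ ℕ :=
  Finsupp.equivFunOnFinite.symm fun x => if x ∈ σ then 1 else 0

lemma ind_apply (σ : Finset P) (x : P) : ind σ x = if x ∈ σ then 1 else 0 := rfl

lemma ind_supp (σ : Finset P) : (ind σ).support = σ := by
  ext x
  simp [ind_apply]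

lemma ind_inj {σ τ : Finset P} : ind σ = ind τ ↔ σ = τ :=
  ⟨fun h => by rw [← ind_supp σ, h, ind_supp], congrArg _⟩

lemma ind_sub {σ : Finset P} (x : P) : ind σ - Finsupp.single x 1 = ind (σ.erase x) := by
  ext y
  simp only [Finsupp.tsub_apply, ind_apply, Finsupp.single_apply, Finset.mem_erase]
  grind

lemma ind_ins {σ : Finset P} {x : P} (h : x ∉ σ) :
    Finsupp.single x 1 + ind σ = ind (insert x σ) := by
  ext y
  simp only [Finsupp.add_apply, ind_apply, Finsupp.single_apply, Finset.mem_insert]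
  grind

lemma ind_deg (σ : Finset P) : (ind σ).degree = σ.card := by
  rw [Finsupp.degree_eq_sum]
  simp [ind_apply]

variable (K) in
noncomputable def Ps : MvPolynomial P k →ₗ[K] (Finset P → k) :=
  LinearMap.pi fun σ => (lcoeff k (ind σ)).restrictScalars K

lemma ps_apply (q : MvPolynomial P k) (σ : Finset P) : Ps K q σ = coeff (ind σ) q := rfl

lemma ps_lin (a : P → k) (q : MvPolynomial P k) (σ : Finset P) :
    Ps K ((∑ x, C (a x) * X x) * q) σ = ∑ x ∈ σ, a x * Ps K q (σ.erase x) := by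
  simp only [ps_apply, Finset.sum_mul, coeff_sum, mul_assoc, coeff_C_mul, coeff_X_mul', ind_supp,
    ind_sub]
  simp

variable (k rk) in
noncomputable def th (i : ℕ) : MvPolynomial P k := ∑ x, if rk x = i then X x else 0

omit [Fintype P] in
lemma mem_of_mon {A : Ideal (MvPolynomial P k)} {q : MvPolynomial P k}
    (h : ∀ d, coeff d q ≠ 0 → monomial d 1 ∈ A) : q ∈ A := by
  rw [q.as_sum]
  refine A.sum_mem fun d hd => ?_
  rw [← mul_one (coeff d q), ← C_mul_monomial]
  exact A.mul_mem_left _ (h d (mem_support_iff.1 hd))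

omit [Fintype P] in
lemma mon_mem {A : Ideal (MvPolynomial P k)} {x y : P} (h : X x * X y ∈ A) {d : P →₀ ℕ}
    (e : Finsupp.single x 1 + Finsupp.single y 1 ≤ d) : monomial d (1 : k) ∈ A := by
  obtain ⟨t, rfl⟩ := exists_add_of_le e
  rw [← mul_one (1 : k), ← monomial_mul, ← mul_one (1 : k), ← monomial_mul, mul_one]
  exact A.mul_mem_right _ h

variable [PartialOrder P]

variable (k P) in
noncomputable def II : Ideal (MvPolynomial P k) :=
  Ideal.span {f : MvPolynomial P k | ∃ x y : P, ¬ x ≤ y ∧ ¬ y ≤ x ∧ f = X x * X y}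

omit [Fintype P] in
lemma mon_ii {d : P →₀ ℕ} (h : ¬ IsChain (· ≤ ·) (d.support : Set P)) :
    monomial d (1 : k) ∈ II k P := by
  simp only [IsChain, Set.Pairwise, not_forall, not_or] at h
  obtain ⟨x, a, y, b, e, f, g⟩ := h
  refine mon_mem (x := x) (y := y) (Ideal.subset_span (by exact ⟨x, y, f, g, rfl⟩)) fun z => ?_
  simp only [Finset.mem_coe, Finsupp.mem_support_iff] at a b
  simp only [Finsupp.add_apply, Finsupp.single_apply]
  grind

omit [Fintype P] in
lemma Ty.er (hr : StrictMono rk) {σ : Finset P} {S : Finset ℕ} (h : Ty rk σ S) {x : P} (hx : x ∈ σ) :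
    σ.filter (rk · ≠ rk x) = σ.erase x ∧ σ.filter (rk · = rk x) = {x} := by
  have : ∀ z ∈ σ, rk z = rk x → z = x := fun z a b =>
    (h.le hr a hx b.le).antisymm (h.le hr hx a b.ge)
  grind

variable (rk c k) in
noncomputable abbrev Ck : Cube K (Finset P → k) := cube rk c fun _ => (⊥ : Submodule K k)

lemma ps_th (hr : StrictMono rk) {σ : Finset P} {S : Finset ℕ} (h : Ty rk σ S) (i : ℕ)
    (q : MvPolynomial P k) :
    Ps K (th k rk i * q) σ = if i ∈ S then Ps K q (σ.filter (rk · ≠ i)) else 0 := by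
  rw [show th k rk i = ∑ x, C (if rk x = i then 1 else 0) * X x from
    Finset.sum_congr rfl fun x _ => by split_ifs <;> simp, ps_lin]
  simp only [ite_mul, one_mul, zero_mul, ← Finset.sum_filter]
  split_ifs with e
  · obtain ⟨x, a, rfl⟩ := h.ex e
    rw [(h.er hr a).1, (h.er hr a).2, Finset.sum_singleton]
  · rw [Finset.filter_false_of_mem fun x a (b : rk x = i) => e (b ▸ h.mem a), Finset.sum_empty]

lemma ps_om (hr : StrictMono rk) {σ : Finset P} {S : Finset ℕ} (h : Ty rk σ S)
    (q : MvPolynomial P k) : Ps K ((∑ x, C (algebraMap K k (c x)) * X x) * q) σ =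
      (Ck k rk c).D (fun _ => Ps K q) S σ := by
  rw [ps_lin, D, Finset.sum_apply, ← h.2, Finset.sum_image fun x a y b e =>
    (h.le hr a b e.le).antisymm (h.le hr b a e.ge)]
  refine Finset.sum_congr rfl fun x a => ?_
  rw [w_apply, (h.er hr a).1, (h.er hr a).2, Finset.sum_singleton, Algebra.smul_def]

omit [Fintype P] in
lemma mem_z0 [OrderTop P] {V : Type} [AddCommGroup V] [Module K V] {S : Finset ℕ}
    {u : Finset P → V} : u ∈ (cube rk c fun _ => (⊥ : Submodule K V)).Z S ↔
      ∀ σ, Ty rk σ S → u σ = 0 :=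
  mem_z.trans (forall₂_congr fun _ _ => ⟨fun h => h ⊤ fun _ _ => le_top, fun h _ _ => h⟩)

lemma ps_mem [OrderTop P] (hr : StrictMono rk) {G : Set ℕ} {U S : Finset ℕ} (h : ∀ i ∈ G, i ∈ S → i ∈ U)
    {q : MvPolynomial P k} (hq : q ∈ II k P ⊔ Ideal.span (th k rk '' G)) :
    Ps K q ∈ (Ck k rk c).Th U S := by
  rw [II, ← Ideal.span_union] at hq
  suffices ∀ r, Ps K (q * r) ∈ (Ck k rk c).Th U S by simpa using this 1
  induction hq using Submodule.span_induction with
  | mem g hg =>
    intro r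
    rcases hg with ⟨x, y, a, b, rfl⟩ | ⟨i, a, rfl⟩
    · refine z_th _ (mem_z0.2 fun σ e => ?_)
      rw [ps_apply, mul_assoc, coeff_X_mul', coeff_X_mul', ind_sub, ind_supp, ind_supp]
      split_ifs with p q
      · exact ((e.1.total p (Finset.mem_of_mem_erase q)).elim a b).elim
      all_goals rfl
    · by_cases e : i ∈ S
      · have : Ps K (th k rk i * r) - (Ck k rk c).θ i (Ps K r) ∈ (Ck k rk c).Z S :=
          mem_z0.2 fun σ f => by rw [Pi.sub_apply, ps_th hr f, if_pos e, t_apply, sub_self]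
        simpa using add_mem (z_th U this) (t_mem (h i a e) S (Ps K r))
      · exact z_th _ (mem_z0.2 fun σ f => by rw [ps_th hr f, if_neg e])
  | zero => simp
  | add x y _ _ a b => exact fun r => by simpa [add_mul] using add_mem (a r) (b r)
  | smul t x _ a => exact fun r => by simpa [mul_assoc, mul_left_comm t] using a (t * r)

variable (K rk) in
noncomputable def Ph (S : Finset ℕ) : (Finset P → k) →ₗ[K] MvPolynomial P k :=
  ∑ σ with Ty rk σ S, (monomial (ind σ)).restrictScalars K ∘ₗ LinearMap.proj σ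

lemma ph_apply (S : Finset ℕ) (u : Finset P → k) :
    Ph K rk S u = ∑ σ with Ty rk σ S, monomial (ind σ) (u σ) := by simp [Ph, LinearMap.sum_apply]

lemma ps_ph (S : Finset ℕ) (u : Finset P → k) (σ : Finset P) :
    Ps K (Ph K rk S u) σ = if Ty rk σ S then u σ else 0 := by
  simp [ps_apply, ph_apply, coeff_sum, coeff_monomial, ind_inj]

lemma ph_ne {S : Finset ℕ} {u : Finset P → k} {d : P →₀ ℕ} (h : coeff d (Ph K rk S u) ≠ 0) :
    ∃ σ, Ty rk σ S ∧ ind σ = d := by
  rw [ph_apply, coeff_sum] at h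
  obtain ⟨σ, a, b⟩ := Finset.exists_ne_zero_of_sum_ne_zero h
  exact ⟨σ, (Finset.mem_filter.1 a).2, by_contra fun e => b (by simp [coeff_monomial, e])⟩

lemma th_ph (hr : StrictMono rk) {S : Finset ℕ} {i : ℕ} (hi : i ∉ S) (a : Finset P → k) :
    th k rk i * Ph K rk S a - Ph K rk (insert i S) ((Ck k rk c).θ i a) ∈ II k P := by
  refine mem_of_mon fun d hd => mon_ii fun e => hd ?_
  obtain ⟨σ, rfl⟩ : ∃ σ, ind σ = d := by
    by_contra f
    refine hd ?_
    rw [coeff_sub, by_contra fun g => f ((ph_ne g).imp fun _ t => t.2), sub_zero, th, Finset.sum_mul,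
      coeff_sum]
    refine Finset.sum_eq_zero fun x _ => ?_
    split_ifs with p
    swap
    · simp
    rw [coeff_X_mul']
    split_ifs with q
    swap
    · rfl
    by_contra g
    obtain ⟨σ, t1, t2⟩ := ph_ne g
    refine f ⟨insert x σ, ?_⟩
    rw [← ind_ins fun t => hi (p ▸ t1.mem t), t2, add_tsub_cancel_of_le]
    simpa [Finsupp.single_le_iff, Nat.one_le_iff_ne_zero] using q
  have f : Ty rk σ (σ.image rk) := ⟨ind_supp σ ▸ e, rfl⟩
  rw [← ps_apply (K := K), map_sub, Pi.sub_apply, ps_th hr f, ps_ph, ps_ph, t_apply]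
  by_cases g : Ty rk σ (insert i S)
  · rw [if_pos g, if_pos (ty_filter rk g hi), if_pos (by simp [g.2]), sub_self]
  rw [if_neg g, sub_zero]
  split_ifs with p q
  · refine (g ⟨f.1, ?_⟩).elim
    rw [← q.2, ← Finset.filter_image (p := (· ≠ i))]
    grind
  all_goals rfl

lemma ph_mem [OrderTop P] (hr : StrictMono rk) {A : Ideal (MvPolynomial P k)} (h1 : II k P ≤ A) {U S : Finset ℕ}
    (h2 : ∀ i ∈ U, i ∈ S ∧ th k rk i ∈ A) {u : Finset P → k} (hu : u ∈ (Ck k rk c).Th U S) :
    Ph K rk S u ∈ A := by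
  refine (sup_le (fun v hv => ?_) (iSup₂_le fun i hi _ ⟨x, e⟩ => ?_) :
    (Ck k rk c).Th U S ≤ (A.restrictScalars K).comap (Ph K rk S)) hu
  · change Ph K rk S v ∈ A
    rw [ph_apply, Finset.sum_eq_zero fun σ a => by
      rw [mem_z0.1 hv σ (Finset.mem_filter.1 a).2, map_zero]]
    exact zero_mem _
  · have := h1 (th_ph (c := c) hr (Finset.notMem_erase i S) x)
    rw [Finset.insert_erase (h2 i hi).1, e] at this
    simpa using sub_mem (A.mul_mem_right (Ph K rk (S.erase i) x) (h2 i hi).2) this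

omit [Fintype P] in
lemma cl_th {V V' : Type} [AddCommGroup V] [Module K V] [AddCommGroup V'] [Module K V']
    (f : V →ₗ[K] V') {U S : Finset ℕ} {u : Finset P → V}
    (h : u ∈ (cube rk c fun _ => (⊥ : Submodule K V)).Th U S) :
    f.compLeft _ u ∈ (cube rk c fun _ => (⊥ : Submodule K V')).Th U S :=
  map_th _ (fun v hv => z_th _ (mem_z.2 fun σ a x b => by
    simp [(Submodule.mem_bot K).1 (mem_z.1 hv σ a x b)])) (fun _ hi v => t_mem hi S (f.compLeft _ v)) h

omit [Fintype P] in
lemma cl_d {V V' : Type} [AddCommGroup V] [Module K V] [AddCommGroup V'] [Module K V']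
    (f : V →ₗ[K] V') (S : Finset ℕ) (u : Finset ℕ → Finset P → V) :
    f.compLeft _ ((cube rk c fun _ => (⊥ : Submodule K V)).D u S) =
      (cube rk c fun _ => (⊥ : Submodule K V')).D (fun T => f.compLeft _ (u T)) S := by
  funext σ
  simp [D, w_apply]

theorem full0 [OrderTop P] (hr : StrictMono rk) {r : ℕ} (h : ∀ i ≤ r, ∀ p, th k rk i * p ∈
      II k P ⊔ Ideal.span (th k rk '' Set.Iio i) → p ∈ II k P ⊔ Ideal.span (th k rk '' Set.Iio i)) :
    (Ck K rk c).Full r := by
  have h1 : (Ck k rk c).Full r := full r fun S i a _ b u hu => by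
    have e1 := ph_mem hr (A := II k P ⊔ Ideal.span (th k rk '' Set.Iio i)) le_sup_left
      (fun l hl => ⟨by grind, Ideal.mem_sup_right (Ideal.subset_span ⟨l, by grind, rfl⟩)⟩) hu
    have e2 := ps_mem (K := K) (c := c) hr (U := S.filter (· < i)) (S := S) (by grind)
      (h i b (Ph K rk S u) (by simpa using add_mem (Ideal.mem_sup_left (th_ph (c := c) hr a u)) e1))
    have e3 : u - Ps K (Ph K rk S u) ∈ (Ck k rk c).Z S := mem_z0.2 fun σ f => by simp [ps_ph, f]
    simpa using add_mem (z_th _ e3) e2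
  obtain ⟨g, hg⟩ := (Algebra.linearMap K k).exists_leftInverse_of_injective
    (LinearMap.ker_eq_bot.2 (algebraMap K k).injective)
  intro U S i a b d e u hu
  convert cl_th g (h1 U S i a b d e ((Algebra.linearMap K k).compLeft _ u)
    (cl_th (Algebra.linearMap K k) hu))
  funext σ
  exact (LinearMap.congr_fun hg _).symm

theorem asc {r : ℕ} {j : ℤ} (h : (Ck K rk c).Ex r j) (u : Finset P → k)
    (hu : ∀ S : Finset ℕ, (∀ l ∈ S, 1 ≤ l ∧ l ≤ r) → (S.card : ℤ) = j + 1 →
      (Ck k rk c).D (fun _ => u) S ∈ (Ck k rk c).Th S S) : ∃ w, ∀ S : Finset ℕ,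
      (∀ l ∈ S, 1 ≤ l ∧ l ≤ r) → (S.card : ℤ) = j → u + (Ck k rk c).D w S ∈ (Ck k rk c).Th S S := by
  let b := Basis.ofVectorSpace K k
  choose w hw using fun t => h (fun _ => (b.coord t).compLeft _ u) fun S a d =>
    cl_d (c := c) (rk := rk) (b.coord t) S (fun _ => u) ▸ cl_th _ (hu S a d)
  let T := Finset.univ.biUnion fun σ => (b.repr (u σ)).support
  refine ⟨fun S => ∑ t ∈ T, (LinearMap.toSpanSingleton K k (b t)).compLeft _ (w t S), fun S a d => ?_⟩
  convert Submodule.sum_mem _ fun t (_ : t ∈ T) =>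
    cl_th (LinearMap.toSpanSingleton K k (b t)) (hw t S a d)
  simp only [map_add, cl_d, Finset.sum_add_distrib]
  congr 1
  · funext σ
    rw [Finset.sum_apply]
    conv_lhs => rw [← b.linearCombination_repr (u σ), Finsupp.linearCombination_apply,
      Finsupp.sum_of_support_subset _ (Finset.subset_biUnion_of_mem
        (fun σ => (b.repr (u σ)).support) (Finset.mem_univ σ)) _ (by simp)]
    rfl
  · simp only [D, map_sum]
    exact Finset.sum_comm

theorem mem_j [BoundedOrder P] (hr : StrictMono rk) {n i : ℕ} (h0 : rk ⊥ = 0) (h1 : rk ⊤ = n + 1)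
    {A : Ideal (MvPolynomial P k)} (a1 : II k P ≤ A) (a2 : ∀ l ≤ n + 1, th k rk l ∈ A)
    {q : MvPolynomial P k} (hq : q.IsHomogeneous i)
    (h : ∀ S : Finset ℕ, (∀ l ∈ S, 1 ≤ l ∧ l ≤ n) → S.card = i → Ps K q ∈ (Ck k rk c).Th S S) :
    q ∈ A := by
  have e1 : ∑ S ∈ (Finset.Icc 1 n).powersetCard i, Ph K rk S (Ps K q) ∈ A :=
    A.sum_mem fun S a => by
      rw [Finset.mem_powersetCard] at a
      have b : ∀ l ∈ S, 1 ≤ l ∧ l ≤ n := fun l hl => Finset.mem_Icc.1 (a.1 hl)
      exact ph_mem hr a1 (fun l hl => ⟨hl, a2 l (by have := b l hl; omega)⟩) (h S b a.2)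
  have e2 : ∀ x : P, X x * X x ∈ A := fun x => by
    have := A.mul_mem_left (X x) (a2 (rk x) (h1 ▸ hr.monotone le_top))
    rw [th, Finset.mul_sum, ← Finset.add_sum_erase _ _ (Finset.mem_univ x), if_pos rfl] at this
    refine (A.add_mem_iff_left (A.sum_mem fun y hy => ?_)).1 this
    split_ifs with e
    · have := Finset.ne_of_mem_erase hy
      exact a1 (Ideal.subset_span ⟨x, y, fun t => (hr (t.lt_of_ne this.symm)).ne' e,
        fun t => (hr (t.lt_of_ne this)).ne e, rfl⟩)
    · simp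
  have e3 : ∀ x : P, rk x = 0 ∨ rk x = n + 1 → X x ∈ A := fun x hx => by
    have := a2 (rk x) (by omega)
    rwa [th, Finset.sum_eq_single x (fun y _ e => if_neg fun t => e ?_) (by simp), if_pos rfl] at this
    rcases hx with hx | hx
    · rw [by_contra fun u => (hr (bot_lt_iff_ne_bot.2 u : ⊥ < x)).ne (h0.trans hx.symm),
        by_contra fun u => (hr (bot_lt_iff_ne_bot.2 u : ⊥ < y)).ne (by omega)]
    · rw [by_contra fun u => (hr (lt_top_iff_ne_top.2 u : x < ⊤)).ne (hx.trans h1.symm),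
        by_contra fun u => (hr (lt_top_iff_ne_top.2 u : y < ⊤)).ne (by omega)]
  refine (A.add_mem_iff_left (neg_mem e1)).1 (mem_of_mon fun d hd => by_contra fun e => hd ?_)
  have f1 : IsChain (· ≤ ·) (d.support : Set P) := by_contra fun t => e (a1 (mon_ii t))
  obtain ⟨σ, rfl⟩ : ∃ σ, ind σ = d := ⟨d.support, Finsupp.ext fun x => by
    have : d x < 2 := by_contra fun t => e (mon_mem (e2 x) (by
      rw [← Finsupp.single_add, Finsupp.single_le_iff]
      omega))
    simp only [ind_apply, Finsupp.mem_support_iff]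
    grind⟩
  rw [ind_supp] at f1
  rw [← ps_apply (K := K), map_add, map_neg, map_sum, Pi.add_apply, Pi.neg_apply, Finset.sum_apply]
  simp only [ps_ph, show ∀ S, Ty rk σ S ↔ σ.image rk = S from fun S => and_iff_right f1,
    Finset.sum_ite_eq]
  split_ifs with f2
  · simp
  rw [neg_zero, add_zero]
  refine hq.coeff_eq_zero fun f3 => f2 (Finset.mem_powersetCard.2 ⟨fun l hl => ?_, ?_⟩)
  · obtain ⟨x, hx, rfl⟩ := Finset.mem_image.1 hl
    have := hr.monotone (le_top : x ≤ ⊤)
    refine by_contra fun t => e ?_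
    rw [← Finset.insert_erase hx, ← ind_ins (Finset.notMem_erase _ _), ← mul_one (1 : k),
      ← monomial_mul]
    exact A.mul_mem_right _ (e3 x (by grind))
  · have f : Ty rk σ (σ.image rk) := ⟨f1, rfl⟩
    rw [Finset.card_image_of_injOn fun x a y b e => (f.le hr a b e.le).antisymm (f.le hr b a e.ge),
      ← ind_deg, f3]

theorem fin [BoundedOrder P] (hr : StrictMono rk) {m : ℕ} (h0 : rk ⊥ = 0) (h1 : rk ⊤ = 2 * m + 1)
    (hE : Eul rk) {Dr : P → K →+ K} (hD : Der c Dr) (h : ∀ i ≤ 2 * m, ∀ p, th k rk i * p ∈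
      II k P ⊔ Ideal.span (th k rk '' Set.Iio i) → p ∈ II k P ⊔ Ideal.span (th k rk '' Set.Iio i))
    {i : ℕ} (hi : i < m) {p : MvPolynomial P k} (hp : p.IsHomogeneous i)
    (e : (∑ x, C (algebraMap K k (c x)) * X x) * p ∈
      II k P ⊔ Ideal.span (th k rk '' Set.Iio (2 * m + 2))) :
    ∃ q : MvPolynomial P k, q.IsHomogeneous (i - 1) ∧ (i = 0 → q = 0) ∧
      p - (∑ x, C (algebraMap K k (c x)) * X x) * q ∈
        II k P ⊔ Ideal.span (th k rk '' Set.Iio (2 * m + 2)) := by
  have lt : ∀ y : P, rk y ≤ 2 * m ↔ y < ⊤ := fun y => ⟨fun a => lt_top_iff_ne_top.2 (by grind),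
    fun a => by have := hr a; omega⟩
  have hI : Inv rk c Dr (2 * m) (fun _ => (⊥ : Submodule K K)) fun _ => LinearMap.mul K K := by
    refine ⟨monotone_const, full0 hr h, fun _ => mul_comm,
      fun _ _ a (e : a = 0) b => by rw [e, map_zero, LinearMap.zero_apply], fun _ _ a x _ => ?_,
      fun _ _ a e => mul_self_eq_zero.1 e, fun e he a b => ?_, fun x hx => ?_⟩
    · simp [hD.lei, hD.two]
    · obtain ⟨u, v, d, f⟩ := diamond hr hE ((lt e).1 (by omega)) he h1
      rw [Finset.filter_congr (q := fun v => e < v ∧ v < ⊤ ∧ rk v = 2 * m) fun y _ => by grind, f,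
        Finset.sum_pair d, hD.two]
    · have := hE x ⊤ ((lt x).1 hx)
      have d : dq (⊥ : Submodule K K) = 1 := by simp [dq, (Submodule.quotEquivOfEqBot _ rfl).finrank_eq]
      rw [Finset.filter_congr (q := fun z => x ≤ z ∧ rk z ≤ 2 * m + 1) fun y _ =>
        and_congr_right fun _ => iff_of_true le_top (h1 ▸ hr.monotone le_top), split hx, Finset.filter_congr (p := fun z => x < z ∧ _)
        (q := fun z => ⊤ ≤ z ∧ rk z ≤ rk ⊤) fun y _ => ?_, one_sum hr ⊤ _ fun _ => Iff.rfl, h1] at this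
      · simp only [d, pow_add, pow_mul] at this ⊢
        norm_num at this ⊢
        linarith
      · have := lt y
        have := (lt x).1 hx
        have : y < ⊤ ∨ y = ⊤ := le_top.lt_or_eq
        grind
  obtain ⟨w, hw⟩ := asc (main hr h0 hE hD m K _ _ hI i (by omega)) (Ps K p) fun S _ _ => by
    have : (Ck k rk c).D (fun _ => Ps K p) S - Ps K (_ * p) ∈ (Ck k rk c).Z S :=
      mem_z0.2 fun σ f => by rw [Pi.sub_apply, ps_om hr f, sub_self]
    simpa using add_mem (z_th S this) (ps_mem hr (fun _ _ a => a) e)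
  let T := (Finset.Icc 1 (2 * m)).powerset.filter (·.card + 1 = i)
  have hq : (-∑ S ∈ T, Ph K rk S (w S)).IsHomogeneous (i - 1) := by
    refine (IsHomogeneous.sum _ _ _ fun S a => ?_).neg
    rw [ph_apply]
    refine IsHomogeneous.sum _ _ _ fun σ b => isHomogeneous_monomial _ ?_
    have f := (Finset.mem_filter.1 b).2
    have := Finset.card_image_of_injOn (f := rk) (s := σ) fun x a y b e =>
      (f.le hr a b e.le).antisymm (f.le hr b a e.ge)
    rw [ind_deg, ← this, f.2, ← (Finset.mem_filter.1 a).2]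
    rfl
  have h0' : i = 0 → -∑ S ∈ T, Ph K rk S (w S) = 0 := fun a => by simp [T, a]
  refine ⟨_, hq, h0', mem_j (c := c) (i := i) hr h0 h1 le_sup_left
    (fun l hl => Ideal.mem_sup_right (Ideal.subset_span (by exact ⟨l, by grind, rfl⟩))) (hp.sub ?_)
    fun S a b => ?_⟩
  · rcases i.eq_zero_or_pos with f | f
    · rw [h0' f, mul_zero]
      exact isHomogeneous_zero _ _ _
    · have := (IsHomogeneous.sum Finset.univ (fun x => C (algebraMap K k (c x)) * X x) 1
        fun x _ => (isHomogeneous_X _ x).C_mul _).mul hq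
      rwa [show 1 + (i - 1) = i by omega] at this
  · have e1 := d_mem (C := Ck k rk c) (x := fun S => Ps K (∑ S ∈ T, Ph K rk S (w S)) - w S)
      (f := fun _ => ∅) (g := fun T => T) (U := S) (j := i - 1) (fun S a b => z_th _ (mem_z0.2
        fun σ f => by
          rw [Pi.sub_apply, map_sum, Finset.sum_apply]
          simp only [ps_ph, show ∀ S', Ty rk σ S' ↔ S = S' from fun S => by rw [← f.2]; exact and_iff_right f.1,
            Finset.sum_ite_eq]
          rw [if_pos (by simp [T, Finset.subset_iff]; exact ⟨a, by omega⟩), sub_self])) a (by omega) (by grind)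
    have e2 := d_add (C := Ck k rk c) (fun S => Ps K (∑ S ∈ T, Ph K rk S (w S)) - w S) w S
    simp only [sub_add_cancel] at e2
    have e3 : Ps K (_ * ∑ S ∈ T, Ph K rk S (w S)) - (Ck k rk c).D (fun _ => Ps K _) S ∈
      (Ck k rk c).Z S := mem_z0.2 fun σ f => by rw [Pi.sub_apply, ps_om hr f, sub_self]
    rw [e2] at e3
    convert add_mem (add_mem (hw S a (by omega)) e1) (z_th S e3) using 1
    rw [mul_neg, map_sub, map_neg]
    abel

theorem der (P : Type) [Fintype P] : ∃ Dr, Der (fun x : P =>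
    algebraMap (MvPolynomial P (ZMod 2)) (FractionRing (MvPolynomial P (ZMod 2))) (X x)) Dr := by
  let R := MvPolynomial P (ZMod 2)
  let F := FractionRing R
  let φ : P → R →+* TrivSqZeroExt F F := fun x => eval₂Hom
    ((TrivSqZeroExt.inlHom F F).comp ((algebraMap R F).comp C))
    fun y => TrivSqZeroExt.inl (algebraMap R F (X y)) + TrivSqZeroExt.inr (if x = y then 1 else 0)
  have e1 : ∀ x, (TrivSqZeroExt.fstHom F F F).toRingHom.comp (φ x) = algebraMap R F := fun x =>
    ringHom_ext (by simp [φ]) (by simp [φ])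
  have e2 : ∀ x, ∀ y : nonZeroDivisors R, IsUnit (φ x y) := fun x y => by
    rw [TrivSqZeroExt.isUnit_iff_isUnit_fst]
    rw [show (φ x y).fst = _ from RingHom.congr_fun (e1 x) y]
    exact IsLocalization.map_units F y
  let ψ := fun x => IsLocalization.lift (S := F) (e2 x)
  have e3 : ∀ x a, (ψ x a).fst = a := fun x => RingHom.congr_fun (IsLocalization.ringHom_ext
    (nonZeroDivisors R) (j := (TrivSqZeroExt.fstHom F F F).toRingHom.comp (ψ x)) (k := RingHom.id F)
    (by rw [RingHom.comp_assoc, IsLocalization.lift_comp, e1]; rfl))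
  refine ⟨fun x => (TrivSqZeroExt.sndHom F F).toAddMonoidHom.comp (ψ x).toAddMonoidHom,
    fun a => ?_, fun x a b => ?_, fun x y => ?_⟩
  · rw [← two_mul, show (2 : F) = algebraMap R F (C 2) by simp [map_ofNat], show (2 : ZMod 2) = 0 from rfl]
    simp
  · simp [e3, mul_comm]
  · change (ψ x (algebraMap R F (X y))).snd = _
    rw [IsLocalization.lift_eq]
    refine (congrArg _ (eval₂Hom_X' _ _ y)).trans ?_
    simp

end Pool.Agent.H28.Eu
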