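import Pool.Agent.H28.Explicit

set_option autoImplicit false

/-! A normal tangential 1-block over `GF(5)` with ten points, rank three and no modular line. -/

namespace Pool.Agent.H28.Ex5

open Set Submodule Module Pool.Agent.H28.VecMat Pool.Agent.H28.TangDefs Pool.Agent.H28.Crit
  Pool.Agent.H28.Explicit
open scoped Matroid

instance : Fact (Nat.Prime 5) := ⟨by norm_num⟩

/-- ten points of the projective plane of order five -/
def phi : Fin 10 → Fin 3 → ZMod 5 :=
  ![![0, 0, 1], ![0, 1, 0], ![0, 1, 1], ![0, 1, 4], ![1, 0, 0], ![1, 0, 1], ![1, 0, 4], ![1, 4, 0],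
    ![1, 4, 1], ![1, 4, 4]]

/-- six affine points whose directions are the ten points -/
def pt : Fin 6 → Fin 3 → ZMod 5 :=
  ![![0, 0, 0], ![1, 0, 0], ![0, 1, 0], ![0, 0, 1], ![0, 1, 1], ![1, 0, 1]]

def dot (x y z : ZMod 5) (e : Fin 10) : ZMod 5 := x * phi e 0 + y * phi e 1 + z * phi e 2

theorem d0 : ∀ e, phi e ≠ 0 := by decide +kernel

theorem d1 : ∀ e f, e ≠ f → ∀ c : ZMod 5, c • phi f ≠ phi e := by decide +kernel

theorem d2 : ∀ x y z, ∃ e, dot x y z e = 0 := by decide +kernel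

theorem d3 : ∀ a, ∃ x y z, dot x y z a = 0 ∧ ∀ e, dot x y z e = 0 → e = a := by decide +kernel

theorem d4 : ∀ x y z, (x = 0 ∧ y = 0 ∧ z = 0) ∨ ∃ c d, c ≠ d ∧ ∀ e, dot x y z e = 0 →
    ∀ s t : ZMod 5, s • phi c + t • phi d ≠ phi e := by decide +kernel

theorem d5 : ∀ e, ∃ i j, i ≠ j ∧ ∃ c : ZMod 5, c ≠ 0 ∧ pt i - pt j = c • phi e := by decide +kernel

theorem d6 : ∀ i j, pt i = pt j ∨ ∃ e, ∃ c : ZMod 5, pt i - pt j = c • phi e := by decide +kernel

/-- the matroid -/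
noncomputable def M : Matroid (Fin 10) := vec (ZMod 5) phi

theorem rep : Rep (ZMod 5) M phi := rep_vec phi

theorem simple : IsSimple M := simple_of rep (fun e _ => d0 e) fun e _ f _ => d1 e f

theorem dot_eq (L : Fin 3 → ZMod 5) (e : Fin 10) : dotL L (phi e) = dot (L 0) (L 1) (L 2) e := by
  rw [dotL_apply, Fin.sum_univ_three]; rfl

theorem block : ¬ CritLE (Fintype.card (ZMod 5)) 1 M :=
  not_critLE_one rep fun L => by
    obtain ⟨e, he⟩ := d2 (L 0) (L 1) (L 2)
    exact ⟨e, trivial, by rw [← dotL_apply, dot_eq, he]⟩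

theorem tangents : ∀ C ⊆ M.E, C.Nonempty → ∃ L : Fin 1 → Dual (ZMod 5) (Fin 3 → ZMod 5),
    (∀ i, ∀ c ∈ C, L i (phi c) = 0) ∧
      ∀ e ∈ M.E, phi e ∉ span (ZMod 5) (phi '' C) → ∃ i, L i (phi e) ≠ 0 := by
  refine tangents_of_small rep simple fun I _ hne hI => ?_
  have h1 := (Set.ncard_pos (toFinite I)).2 hne
  rw [Module.finrank_fin_fun] at hI
  obtain ⟨a, rfl⟩ := Set.ncard_eq_one.1 (by omega : I.ncard = 1)
  obtain ⟨x, y, z, h2, h3⟩ := d3 a
  refine ⟨dotL ![x, y, z], ?_, fun e _ he => ?_⟩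
  · rintro c rfl
    rw [dot_eq]; exact h2
  · rw [dot_eq] at he
    exact subset_span ⟨e, h3 e he, rfl⟩

theorem no_modular (H : Set (Fin 10)) : ¬ IsModularHyperplane M H := by
  intro hH
  obtain ⟨f, hf0, hf⟩ := modularHyperplane_elim rep simple hH
  obtain ⟨L, rfl⟩ := exists_dotL f
  rcases d4 (L 0) (L 1) (L 2) with ⟨h0, h1, h2⟩ | ⟨c, d, hcd, h⟩
  · apply hf0
    have : L = 0 := by
      funext i
      fin_cases i <;> assumption
    rw [this]
    exact map_zero _
  · obtain ⟨e, -, he, s, t, hst⟩ := hf c trivial d trivial hcd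
    exact h e (by rwa [dot_eq] at he) s t hst

theorem normal : IsSimplifiedQuotientOfComplete 6 M :=
  normal_of_points rep simple pt (fun e _ => d5 e)
    (fun i j => (d6 i j).imp id fun ⟨e, he⟩ => ⟨e, trivial, he⟩) (by norm_num)

theorem rank_pos : (1 : ℕ∞) ≤ M.eRk M.E := by
  have h : M.Indep {0} := by simpa using simple 0 trivial 0 trivial
  have := h.encard_le_eRk_of_subset (X := M.E) (subset_univ _)
  simpa using this

end Pool.Agent.H28.Ex5
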