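import Pool.Agent.H28.Explicit

set_option autoImplicit false

/-! A tangential 1-block over `GF(7)` of rank four with a modular hyperplane and no modular line. -/

namespace Pool.Agent.H28.Ex7a

open Set Submodule Module Pool.Agent.H28.VecMat Pool.Agent.H28.TangDefs Pool.Agent.H28.Crit
  Pool.Agent.H28.Explicit
open scoped Matroid

instance : Fact (Nat.Prime 7) := ⟨by norm_num⟩

/-- seven affine points and their twelve directions -/
def phi : Fin 19 → Fin 4 → ZMod 7 :=
  ![![1, 0, 0, 0], ![1, 1, 0, 0], ![1, 2, 6, 6], ![1, 3, 6, 6], ![1, 4, 2, 4], ![1, 5, 3, 3], ![1, 6, 1, 2], ![0, 1, 0, 0], ![0, 1, 1, 6], ![0, 1, 2, 2], ![0, 1, 3, 1], ![0, 1, 3, 3], ![0, 1, 3, 5], ![0, 1, 3, 6], ![0, 1, 4, 1], ![0, 1, 4, 6], ![0, 1, 5, 6], ![0, 1, 6, 5], ![0, 1, 6, 6]]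

def dot (L : Fin 4 → ZMod 7) (e : Fin 19) : ZMod 7 :=
  L 0 * phi e 0 + L 1 * phi e 1 + L 2 * phi e 2 + L 3 * phi e 3

/-- table of tangent planes -/
def big : ℕ := 111964825999569112207131768374400370274806661602745936685053696646301448010630377242448975387413309408429301066652852943649706828018476447991558605253157678530598858211756321887245068876441931763407200894573538154504608244763352613474046524105138176218694742640045592996607203935165227403908198365902788249194481176676946192600687465219536206316542098456806561269531941273446045410182760955124342207867838228458369029129023363231622030870263115952023360715220528062490281990089472095464966027246927536944842496534069553640540562903542563076440862623327613907218371381463908363889369618843944381590967981753373218433712636359376680923796103375687093516656453915058892958698904060207543994897987316393994574475426293809616055003636594507189255706574894069554439104776000297547327067252315687200237807350742348822641960357031528733043365730783949499454055134811285624091837761180576877799711299464748499910298776051516671132321911598071211068590811837186022857575647786194295257884227477112044212813248001514830233500548879184735413303739732787033567818521328228525673885597447192112139235947914027245091196607543744401171852060452805424698748541178261529337240349765134360481643112017833351598279881934787231996545619236478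

def tab (a b : Fin 19) (i : Fin 4) : ZMod 7 := (big / 2401 ^ (19 * a.1 + b.1) / 7 ^ i.1 % 7 : ℕ)

def hy : Fin 5 → Fin 4 → ZMod 7 := ![![1, 1, 4, 6], ![0, 1, 3, 4], ![1, 1, 1, 0], ![0, 0, 1, 1], ![0, 1, 0, 4]]

def tri : Fin 5 → Fin 3 → Fin 19 := ![![2, 9, 13], ![0, 8, 10], ![4, 17, 18], ![0, 1, 8], ![0, 6, 12]]

theorem d0 : ∀ e, phi e ≠ 0 := by decide +kernel

theorem d1 : ∀ e f, e ≠ f → ∀ c : ZMod 7, c • phi f ≠ phi e := by decide +kernel

theorem d2 : ∀ x y z w, ∃ e, dot ![x, y, z, w] e = 0 := by decide +kernel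

theorem d3 : ∀ a b, dot (tab a b) a = 0 ∧ dot (tab a b) b = 0 ∧ ∀ e, dot (tab a b) e = 0 →
    ∃ s t : ZMod 7, s • phi a + t • phi b = phi e := by decide +kernel

theorem d4 : ∀ e f, phi e 0 ≠ 0 → phi f 0 ≠ 0 → e ≠ f →
    ∃ x, phi x 0 = 0 ∧ ∃ s t : ZMod 7, s • phi e + t • phi f = phi x := by decide +kernel

theorem d5 : ∀ a b, a ≠ b → ∃ i, ∀ e, dot (hy i) e = 0 →
    ∀ s t : ZMod 7, s • phi a + t • phi b ≠ phi e := by decide +kernel

theorem d6 : ∀ i, (∀ j, dot (hy i) (tri i j) = 0) ∧ tri i 1 ≠ tri i 2 ∧ tri i 0 ≠ tri i 1 ∧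
    tri i 0 ≠ tri i 2 ∧
    ∀ s t : ZMod 7, s • phi (tri i 1) + t • phi (tri i 2) ≠ phi (tri i 0) := by decide +kernel

/-- the matroid -/
noncomputable def M : Matroid (Fin 19) := vec (ZMod 7) phi

theorem rep : Rep (ZMod 7) M phi := rep_vec phi

theorem simple : IsSimple M := simple_of rep (fun e _ => d0 e) fun e _ f _ => d1 e f

theorem dot_eq (L : Fin 4 → ZMod 7) (e : Fin 19) : dotL L (phi e) = dot L e := by
  rw [dotL_apply, Fin.sum_univ_four]; rfl

theorem block : ¬ CritLE (Fintype.card (ZMod 7)) 1 M :=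
  not_critLE_one rep fun L => by
    obtain ⟨e, he⟩ := d2 (L 0) (L 1) (L 2) (L 3)
    exact ⟨e, trivial, by rw [← dotL_apply, dot_eq]; exact he⟩

theorem tangents : ∀ C ⊆ M.E, C.Nonempty → ∃ L : Fin 1 → Dual (ZMod 7) (Fin 4 → ZMod 7),
    (∀ i, ∀ c ∈ C, L i (phi c) = 0) ∧
      ∀ e ∈ M.E, phi e ∉ span (ZMod 7) (phi '' C) → ∃ i, L i (phi e) ≠ 0 := by
  refine tangents_of_small rep simple fun I _ hne hI => ?_
  rw [Module.finrank_fin_fun] at hI
  obtain ⟨a, b, rfl⟩ := exists_pair (toFinite I) hne (by omega)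
  obtain ⟨h1, h2, h3⟩ := d3 a b
  refine ⟨dotL (tab a b), ?_, fun e _ he => ?_⟩
  · rintro c (rfl | rfl) <;> rwa [dot_eq]
  · rw [dot_eq] at he
    rw [image_pair, mem_span_pair]
    exact h3 e he

theorem modular : ∃ H, IsModularHyperplane M H :=
  ⟨_, modularHyperplane_intro rep (fun e _ => d0 e) (LinearMap.proj 0) ⟨0, trivial, by decide⟩
    fun e _ f _ h1 h2 h3 => by
      obtain ⟨x, hx⟩ := d4 e f h1 h2 h3
      exact ⟨x, trivial, hx⟩⟩

theorem rank_hy (i : Fin 5) : 3 ≤ M.eRk {e | e ∈ M.E ∧ phi e ∈ LinearMap.ker (dotL (hy i))} := by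
  obtain ⟨h1, h2, h3, h4, h5⟩ := d6 i
  have hn : tri i 0 ∉ ({tri i 1, tri i 2} : Set (Fin 19)) := by simp [h3, h4]
  have hind : M.Indep {tri i 0, tri i 1, tri i 2} := by
    rw [rep, linearIndepOn_insert hn, image_pair, mem_span_pair]
    exact ⟨⟨((rep _).1 (simple _ trivial _ trivial)).1, fun ⟨s, t, h⟩ => h5 s t h⟩, subset_univ _⟩
  have := hind.encard_le_eRk_of_subset
    (X := {e | e ∈ M.E ∧ phi e ∈ LinearMap.ker (dotL (hy i))}) (by
      rintro e (rfl | rfl | rfl) <;> exact ⟨trivial, by rw [LinearMap.mem_ker, dot_eq]; exact h1 _⟩)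
  rwa [encard_insert_of_notMem hn, encard_pair h2] at this

theorem not_supersolvable : ¬ Supersolvable M := by
  rintro ⟨X, hX, -⟩
  have h3 : (3 : ℕ∞) ≤ M.eRk M.E := (rank_hy 0).trans (M.eRk_mono fun e he => he.1)
  obtain ⟨hmod, hrk⟩ := hX 2 (le_trans (by norm_num) h3)
  obtain ⟨I, hI⟩ := M.exists_isBasis (X 2) (subset_univ _)
  have h4 := hI.eRk_eq_encard
  rw [hrk] at h4
  obtain ⟨a, b, hab, rfl⟩ := Set.encard_eq_two.1 h4.symm
  obtain ⟨i, hi⟩ := d5 a b hab
  have h5 := modular_disjoint hmod (rep.isFlat_preimage (LinearMap.ker (dotL (hy i)))) (by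
    rw [eq_empty_iff_forall_notMem]
    rintro e ⟨he1, -, he2⟩
    have h6 := ((rep.mem_closure (subset_univ _)).1 (hI.subset_closure he1)).1
    rw [image_pair, mem_span_pair] at h6
    obtain ⟨s, t, hst⟩ := h6
    exact hi e (by rwa [LinearMap.mem_ker, dot_eq] at he2) s t hst)
  have h7 := eRk_le rep (subset_refl M.E)
  rw [Module.finrank_fin_fun] at h7
  have h8 := (add_le_add (le_refl (M.eRk (X 2))) (rank_hy i)).trans (h5.trans h7)
  rw [hrk] at h8
  norm_cast at h8

end Pool.Agent.H28.Ex7a
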