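import Pool.Agent.H28.Explicit

set_option autoImplicit false

/-! A minimal 1-block over `GF(7)` of rank five with a modular hyperplane that is not tangential. -/

namespace Pool.Agent.H28.Ex7b

open Set Submodule Module Pool.Agent.H28.VecMat Pool.Agent.H28.TangDefs Pool.Agent.H28.Crit
  Pool.Agent.H28.Explicit
open scoped Matroid

instance : Fact (Nat.Prime 7) := ⟨by norm_num⟩

/-- seven affine points and their nineteen directions -/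
def phi : Fin 26 → Fin 5 → ZMod 7 :=
  ![![1, 0, 0, 0, 0], ![1, 1, 0, 0, 0], ![1, 2, 1, 6, 2], ![1, 3, 0, 5, 0], ![1, 4, 2, 2, 6], ![1, 5, 0, 0, 0], ![1, 6, 6, 4, 2], ![0, 1, 0, 0, 0], ![0, 1, 0, 1, 0], ![0, 1, 0, 4, 0], ![0, 1, 0, 6, 0], ![0, 1, 1, 3, 5], ![0, 1, 1, 6, 2], ![0, 1, 2, 1, 5], ![0, 1, 2, 2, 3], ![0, 1, 2, 4, 6], ![0, 1, 2, 5, 4], ![0, 1, 3, 3, 0], ![0, 1, 3, 3, 2], ![0, 1, 4, 3, 1], ![0, 1, 4, 4, 5], ![0, 1, 4, 5, 2], ![0, 1, 4, 5, 6], ![0, 1, 5, 5, 1], ![0, 1, 6, 4, 2], ![0, 1, 6, 6, 5]]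

def dot (L : Fin 5 → ZMod 7) (e : Fin 26) : ZMod 7 :=
  L 0 * phi e 0 + L 1 * phi e 1 + L 2 * phi e 2 + L 3 * phi e 3 + L 4 * phi e 4

def tan : Fin 26 → Fin 5 → ZMod 7 :=
  ![![0, 1, 0, 0, 0], ![1, 6, 0, 0, 0], ![1, 3, 0, 0, 0], ![1, 1, 3, 2, 3], ![1, 3, 3, 0, 5], ![1, 4, 0, 0, 0], ![1, 1, 0, 0, 0], ![1, 0, 0, 1, 6], ![1, 3, 1, 4, 3], ![1, 3, 3, 1, 2], ![1, 2, 4, 2, 1], ![1, 3, 1, 0, 2], ![1, 2, 0, 6, 2], ![1, 1, 2, 3, 4], ![1, 1, 2, 4, 5], ![1, 1, 1, 0, 3], ![1, 1, 2, 4, 6], ![1, 1, 6, 3, 6], ![1, 2, 1, 6, 6], ![1, 1, 0, 4, 1], ![1, 1, 2, 4, 2], ![1, 3, 2, 0, 5], ![1, 2, 1, 1, 4], ![1, 1, 1, 4, 2], ![1, 3, 2, 6, 5], ![1, 1, 5, 0, 5]]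

def pt : Fin 8 → Fin 5 → ZMod 7 :=
  ![![0, 0, 0, 0, 0], ![1, 0, 0, 0, 0], ![1, 1, 0, 0, 0], ![1, 2, 1, 6, 2], ![1, 3, 0, 5, 0], ![1, 4, 2, 2, 6], ![1, 5, 0, 0, 0], ![1, 6, 6, 4, 2]]

def co : Fin 5 → Fin 5 → ZMod 7 := ![![1, 0, 0, 0, 0], ![0, 1, 0, 0, 0], ![0, 5, 2, 6, 1], ![0, 6, 1, 0, 0], ![0, 5, 6, 6, 4]]

theorem d0 : ∀ e, phi e ≠ 0 := by decide +kernel

theorem d1 : ∀ e f, e ≠ f → ∀ c : ZMod 7, c • phi f ≠ phi e := by decide +kernel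

theorem d2 : ∀ i j, i ≠ j → ∃ e, ∃ c : ZMod 7, c ≠ 0 ∧ pt i - pt j = c • phi e := by decide +kernel

theorem d3 : ∀ a e, dot (tan a) e = 0 → e = a := by decide +kernel

theorem d4 : ∀ e f, phi e 0 ≠ 0 → phi f 0 ≠ 0 → e ≠ f →
    ∃ x, phi x 0 = 0 ∧ ∃ s t : ZMod 7, s • phi e + t • phi f = phi x := by decide +kernel

theorem d5 : ∀ x y z w, dot ![0, x, y, z, w] 8 = 0 → dot ![0, x, y, z, w] 11 = 0 →
    ∃ e, e ≠ 8 ∧ e ≠ 11 ∧ phi e 0 = 0 ∧ dot ![0, x, y, z, w] e = 0 := by decide +kernel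

theorem d6 : ∀ e, ∀ s t : ZMod 7, s • phi 8 + t • phi 11 = phi e → e = 8 ∨ e = 11 := by
  decide +kernel

theorem d7 : ∀ i : Fin 5, (Pi.single i 1 : Fin 5 → ZMod 7) =
    co i 0 • phi 0 + co i 1 • phi 7 + co i 2 • phi 8 + co i 3 • phi 11 + co i 4 • phi 13 := by
  decide +kernel

/-- the matroid -/
noncomputable def M : Matroid (Fin 26) := vec (ZMod 7) phi

theorem rep : Rep (ZMod 7) M phi := rep_vec phi

theorem simple : IsSimple M := simple_of rep (fun e _ => d0 e) fun e _ f _ => d1 e f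

theorem dot_eq (L : Fin 5 → ZMod 7) (e : Fin 26) : dotL L (phi e) = dot L e := by
  rw [dotL_apply, Fin.sum_univ_five]; rfl

theorem block : ¬ CritLE (Fintype.card (ZMod 7)) 1 M := by
  rw [critLE_iff rep]
  rintro ⟨L, hL⟩
  obtain ⟨i, j, hij, h⟩ := Fintype.exists_ne_map_eq_of_card_lt (fun i => L 0 (pt i)) (by simp)
  obtain ⟨e, c, hc, he⟩ := d2 i j hij
  obtain ⟨t, ht⟩ := hL e trivial
  obtain rfl : t = 0 := Subsingleton.elim _ _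
  rw [← sub_eq_zero, ← map_sub, he, map_smul, smul_eq_mul, mul_eq_zero] at h
  exact ht (h.resolve_left hc)

theorem minimal (x : Fin 26) : CritLE (Fintype.card (ZMod 7)) 1 (M ＼ {x}) := by
  rw [critLE_iff (rep.delete _)]
  exact ⟨fun _ => dotL (tan x), fun e he => ⟨0, fun h => he.2 (d3 x e (by rwa [dot_eq] at h))⟩⟩

theorem modular : ∃ H, IsModularHyperplane M H :=
  ⟨_, modularHyperplane_intro rep (fun e _ => d0 e) (LinearMap.proj 0) ⟨0, trivial, by decide⟩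
    fun e _ f _ h1 h2 h3 => by
      obtain ⟨x, hx⟩ := d4 e f h1 h2 h3
      exact ⟨x, trivial, hx⟩⟩

theorem spanning : span (ZMod 7) (phi '' M.E) = ⊤ := by
  rw [eq_top_iff, ← (Pi.basisFun (ZMod 7) (Fin 5)).span_eq, span_le]
  rintro _ ⟨i, rfl⟩
  rw [Pi.basisFun_apply, d7]
  have h : ∀ (c : ZMod 7) e, c • phi e ∈ span (ZMod 7) (phi '' M.E) := fun c e =>
    smul_mem _ _ (subset_span ⟨e, trivial, rfl⟩)
  exact add_mem (add_mem (add_mem (add_mem (h _ _) (h _ _)) (h _ _)) (h _ _)) (h _ _)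

theorem rank : M.eRk M.E = 5 := by
  rw [rep.eRk (subset_refl _) (toFinite _), spanning, finrank_top, Module.finrank_fin_fun]
  rfl

theorem flatY : M.IsFlat {8, 11} := by
  rw [rep.isFlat_iff]
  refine ⟨subset_univ _, fun e _ he => ?_⟩
  rw [image_pair, mem_span_pair] at he
  obtain ⟨s, t, h⟩ := he
  exact d6 e s t h

theorem rankY : M.eRk {8, 11} = 2 := by
  rw [(simple 8 trivial 11 trivial).eRk_eq_encard, encard_pair (by decide)]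

theorem notY : ¬ CritLE (Fintype.card (ZMod 7)) 1 (M ／ {8, 11}) := by
  rw [critLE_contract_iff rep 1 (subset_univ _)]
  rintro ⟨f, h1, h2⟩
  obtain ⟨L, hL⟩ := exists_dotL (f 0)
  have key : ∀ e, phi e 0 = 0 → f 0 (phi e) = dot ![0, L 1, L 2, L 3, L 4] e := by
    intro e he
    rw [hL, dot_eq]
    simp [dot, he]
  obtain ⟨e, h8, h11, he0, he⟩ := d5 (L 1) (L 2) (L 3) (L 4)
    (by rw [← key 8 rfl]; exact h1 0 8 (by simp)) (by rw [← key 11 rfl]; exact h1 0 11 (by simp))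
  obtain ⟨t, ht⟩ := h2 e trivial (by simp [h8, h11])
  obtain rfl : t = 0 := Subsingleton.elim _ _
  exact ht (by rw [key e he0, he])

end Pool.Agent.H28.Ex7b
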