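import Pool.Agent.H28.Crit

set_option autoImplicit false
set_option linter.unusedSectionVars false

/-! Criteria for checking blocks, tangents and modularity on explicit point sets. -/

namespace Pool.Agent.H28.Explicit

open Set Submodule Module Pool.Agent.H28.VecMat Pool.Agent.H28.TangDefs Pool.Agent.H28.Crit
open scoped Matroid

variable {α : Type} [Fintype α] {F : Type} [Field F] [Fintype F] {M : Matroid α}

section coords

variable {n : ℕ} {φ : α → Fin n → F}

/-- the functional given by a coordinate vector -/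
def dotL (L : Fin n → F) : Dual F (Fin n → F) := dotProductBilin F F L

theorem dotL_apply (L v : Fin n → F) : dotL L v = ∑ i, L i * v i := rfl

theorem exists_dotL (f : Dual F (Fin n → F)) : ∃ L : Fin n → F, f = dotL L := by
  refine ⟨fun i => f (Pi.single i 1), (Pi.basisFun F (Fin n)).ext fun i => ?_⟩
  simp [dotL_apply, Pi.single_apply]

theorem not_critLE_one (h : Rep F M φ)
    (hb : ∀ L : Fin n → F, ∃ e ∈ M.E, ∑ i, L i * φ e i = 0) : ¬ CritLE (Fintype.card F) 1 M := by
  rw [critLE_iff h]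
  rintro ⟨f, hf⟩
  obtain ⟨L, hL⟩ := exists_dotL (f 0)
  obtain ⟨e, he, h0⟩ := hb L
  obtain ⟨i, hi⟩ := hf e he
  obtain rfl : i = 0 := Subsingleton.elim _ _
  rw [hL] at hi
  exact hi h0

end coords

variable {V : Type*} [AddCommGroup V] [Module F V] [FiniteDimensional F V] {φ : α → V}

theorem span_basis (h : Rep F M φ) {I X : Set α} (hI : M.IsBasis I X) :
    span F (φ '' X) = span F (φ '' I) := by
  apply le_antisymm
  · rw [span_le]
    rintro _ ⟨x, hx, rfl⟩
    exact ((h.mem_closure hI.indep.subset_ground).1 (hI.subset_closure hx)).1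
  · exact span_mono (image_mono hI.subset)

theorem tangents_of_small (h : Rep F M φ) (hs : IsSimple M)
    (ht : ∀ I ⊆ M.E, I.Nonempty → I.ncard + 2 ≤ finrank F V → ∃ L : Dual F V,
      (∀ c ∈ I, L (φ c) = 0) ∧ ∀ e ∈ M.E, L (φ e) = 0 → φ e ∈ span F (φ '' I)) :
    ∀ C ⊆ M.E, C.Nonempty → ∃ L : Fin 1 → Dual F V, (∀ i, ∀ c ∈ C, L i (φ c) = 0) ∧
      ∀ e ∈ M.E, φ e ∉ span F (φ '' C) → ∃ i, L i (φ e) ≠ 0 := by
  intro C hC ⟨c0, hc0⟩
  obtain ⟨I, hI⟩ := M.exists_isBasis C hC
  have hsp := span_basis h hI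
  suffices H : ∃ L : Dual F V, span F (φ '' I) ≤ LinearMap.ker L ∧
      ∀ e ∈ M.E, φ e ∉ span F (φ '' I) → L (φ e) ≠ 0 by
    obtain ⟨L, h1, h2⟩ := H
    rw [← hsp] at h1 h2
    exact ⟨fun _ => L, fun _ c hc => h1 (subset_span ⟨c, hc, rfl⟩), fun e he hn => ⟨0, h2 e he hn⟩⟩
  by_cases hsm : I.ncard + 2 ≤ finrank F V
  · have hne : I.Nonempty := by
      by_contra hcon
      rw [not_nonempty_iff_eq_empty] at hcon
      have h1 : φ c0 ∈ span F (φ '' C) := subset_span ⟨c0, hc0, rfl⟩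
      rw [hsp, hcon] at h1
      exact h.ne_zero_of_indep (by simpa using hs c0 (hC hc0) c0 (hC hc0)) (by simpa using h1)
    obtain ⟨L, h1, h2⟩ := ht I hI.indep.subset_ground hne hsm
    refine ⟨L, ?_, fun e he hn h0 => hn (h2 e he h0)⟩
    rw [span_le]
    rintro _ ⟨c, hc, rfl⟩
    exact h1 c hc
  · have hdim := finrank_span_of_indep F (toFinite I) ((h I).1 hI.indep).1
    by_cases htop : ∃ v, v ∉ span F (φ '' I)
    · obtain ⟨v, hv⟩ := htop
      obtain ⟨L, hLv, hle⟩ := Submodule.exists_le_ker_of_notMem hv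
      have hlt : LinearMap.ker L < ⊤ := by
        rw [lt_top_iff_ne_top]
        intro hh
        exact hLv (by rw [← LinearMap.mem_ker, hh]; trivial)
      have h3 := Submodule.finrank_lt_finrank_of_lt hlt
      rw [finrank_top] at h3
      have heq : span F (φ '' I) = LinearMap.ker L :=
        Submodule.eq_of_le_of_finrank_le hle (by omega)
      exact ⟨L, hle, fun e _ hn h0 => hn (heq ▸ h0)⟩
    · push Not at htop
      exact ⟨0, by simp, fun e _ hn => absurd (htop _) hn⟩

theorem simple_of (h : Rep F M φ) (h0 : ∀ e ∈ M.E, φ e ≠ 0)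
    (h1 : ∀ e ∈ M.E, ∀ f ∈ M.E, e ≠ f → ∀ c : F, c • φ f ≠ φ e) : IsSimple M := by
  intro e he f hf
  by_cases hef : e = f
  · subst hef
    rw [pair_eq_singleton, h, linearIndepOn_singleton_iff]
    exact ⟨h0 e he, by simpa using he⟩
  · exact (h.pair_indep_iff hef he hf).2 ⟨h0 f hf, h1 e he f hf hef⟩

theorem eRk_le (h : Rep F M φ) {X : Set α} (hX : X ⊆ M.E) : M.eRk X ≤ finrank F V := by
  rw [h.eRk hX (toFinite _)]
  exact_mod_cast Submodule.finrank_le _

theorem modular_disjoint {X Y : Set α} (hX : IsModularFlat M X) (hY : M.IsFlat Y)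
    (hd : X ∩ Y = ∅) : M.eRk X + M.eRk Y ≤ M.eRk M.E := by
  rw [hX.2 Y hY, hd, Matroid.eRk_empty, add_zero]
  exact M.eRk_mono (union_subset hX.1.subset_ground hY.subset_ground)

/-- A modular hyperplane lies in the kernel of a nonzero functional and meets every line. -/
theorem modularHyperplane_elim (h : Rep F M φ) (hs : IsSimple M) {H : Set α}
    (hH : IsModularHyperplane M H) : ∃ L : Dual F V, L ≠ 0 ∧ ∀ c ∈ M.E, ∀ d ∈ M.E, c ≠ d →
      ∃ e ∈ M.E, L (φ e) = 0 ∧ ∃ s t : F, s • φ c + t • φ d = φ e := by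
  obtain ⟨hmod, hrk⟩ := hH
  have hHE := hmod.1.subset_ground
  have h1 := eRk_le h (subset_refl M.E)
  have h2 := h.eRk hHE (toFinite _)
  obtain ⟨v, hv⟩ : ∃ v, v ∉ span F (φ '' H) := by
    by_contra hcon
    push Not at hcon
    have : span F (φ '' H) = ⊤ := eq_top_iff.2 fun v _ => hcon v
    rw [← hrk, h2, this, finrank_top] at h1
    norm_cast at h1
    omega
  obtain ⟨L, hLv, hle⟩ := Submodule.exists_le_ker_of_notMem hv
  refine ⟨L, fun h0 => hLv (by simp [h0]), fun c hc d hd hcd => ?_⟩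
  have hpair : ({c, d} : Set α) ⊆ M.E := by simp [insert_subset_iff, hc, hd]
  obtain ⟨x, hxH, hx⟩ : (H ∩ M.closure {c, d}).Nonempty := by
    by_contra hcon
    rw [not_nonempty_iff_eq_empty] at hcon
    have h3 := modular_disjoint hmod (M.isFlat_closure {c, d}) hcon
    rw [Matroid.eRk_closure_eq, (hs c hc d hd).eRk_eq_encard, encard_pair hcd, ← hrk, h2] at h3
    norm_cast at h3
    omega
  rw [h.mem_closure hpair, image_pair, mem_span_pair] at hx
  exact ⟨x, hx.2, hle (subset_span ⟨x, hxH, rfl⟩), hx.1⟩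

theorem finrank_sup_one {W : Submodule F V} {v : V} (hv : v ∉ W) :
    finrank F (W ⊔ span F {v} : Submodule F V) = finrank F W + 1 := by
  have h0 : v ≠ 0 := fun h => hv (h ▸ W.zero_mem)
  have h1 := Submodule.finrank_sup_add_finrank_inf_eq W (span F {v})
  have h2 : W ⊓ span F {v} = ⊥ := disjoint_iff.1 ((Submodule.disjoint_span_singleton' h0).2 hv)
  rw [h2, finrank_bot, finrank_span_singleton h0] at h1
  omega

/-- If the zero set of `z` meets the line through any two points outside it, it is a modular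
hyperplane. -/
theorem modularHyperplane_intro (h : Rep F M φ) (h0 : ∀ e ∈ M.E, φ e ≠ 0) (z : Dual F V)
    (hex : ∃ e ∈ M.E, z (φ e) ≠ 0)
    (hline : ∀ e ∈ M.E, ∀ f ∈ M.E, z (φ e) ≠ 0 → z (φ f) ≠ 0 → e ≠ f →
      ∃ x ∈ M.E, z (φ x) = 0 ∧ ∃ s t : F, s • φ e + t • φ f = φ x) :
    IsModularHyperplane M {e | e ∈ M.E ∧ φ e ∈ LinearMap.ker z} := by
  set H := {e | e ∈ M.E ∧ φ e ∈ LinearMap.ker z} with hH
  have hHE : H ⊆ M.E := fun e he => he.1
  have key : ∀ Y, M.IsFlat Y → (∃ y ∈ Y, y ∉ H) → M.eRk (H ∩ Y) + 1 = M.eRk Y := by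
    rintro Y hY ⟨y0, hy0, hy0H⟩
    have hYE := hY.subset_ground
    have hz0 : z (φ y0) ≠ 0 := fun hh => hy0H ⟨hYE hy0, hh⟩
    have hle : span F (φ '' (H ∩ Y)) ≤ LinearMap.ker z := by
      rw [span_le]
      rintro _ ⟨x, hx, rfl⟩
      exact hx.1.2
    have hsp : span F (φ '' Y) = span F (φ '' (H ∩ Y)) ⊔ span F {φ y0} := by
      apply le_antisymm
      · rw [span_le]
        rintro _ ⟨y, hy, rfl⟩
        by_cases hyH : y ∈ H
        · exact mem_sup_left (subset_span ⟨y, ⟨hyH, hy⟩, rfl⟩)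
        by_cases hyy : y = y0
        · exact hyy ▸ mem_sup_right (mem_span_singleton_self _)
        obtain ⟨x, hx, hzx, s, t, hst⟩ := hline y (hYE hy) y0 (hYE hy0)
          (fun hh => hyH ⟨hYE hy, hh⟩) hz0 hyy
        have hxY : x ∈ Y := (h.isFlat_iff.1 hY).2 x hx (hst ▸ add_mem
          (smul_mem _ _ (subset_span ⟨y, hy, rfl⟩)) (smul_mem _ _ (subset_span ⟨y0, hy0, rfl⟩)))
        have hs0 : s ≠ 0 := by
          rintro rfl
          rw [zero_smul, zero_add] at hst
          rw [← hst, map_smul, smul_eq_mul, mul_eq_zero] at hzx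
          rw [hzx.resolve_right hz0, zero_smul] at hst
          exact h0 x hx hst.symm
        have : φ y = s⁻¹ • (φ x - t • φ y0) := by
          rw [← hst, add_sub_cancel_right, inv_smul_smul₀ hs0]
        rw [SetLike.mem_coe, this]
        exact smul_mem _ _ (sub_mem (mem_sup_left (subset_span ⟨x, ⟨⟨hx, hzx⟩, hxY⟩, rfl⟩))
          (smul_mem _ _ (mem_sup_right (mem_span_singleton_self _))))
      · exact sup_le (span_mono (image_mono inter_subset_right))
          (span_mono (by simpa using ⟨y0, hy0, rfl⟩))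
    rw [h.eRk hYE (toFinite _), h.eRk (inter_subset_left.trans hHE) (toFinite _), hsp,
      finrank_sup_one fun hh => hz0 (hle hh)]
    rfl
  have hrk : M.eRk H + 1 = M.eRk M.E := by
    obtain ⟨e, he, hze⟩ := hex
    have := key M.E M.ground_isFlat ⟨e, he, fun hh => hze hh.2⟩
    rwa [inter_eq_self_of_subset_left hHE] at this
  have hflat : M.IsFlat H := h.isFlat_preimage _
  refine ⟨⟨hflat, fun Y hY => ?_⟩, hrk⟩
  by_cases hYH : Y ⊆ H
  · rw [union_eq_self_of_subset_right hYH, inter_eq_self_of_subset_right hYH]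
  · rw [not_subset] at hYH
    obtain ⟨y, hy, hyH⟩ := hYH
    have h1 : M.eRk (H ∪ Y) = M.eRk H + 1 := by
      apply le_antisymm
      · rw [hrk]; exact M.eRk_mono (union_subset hHE hY.subset_ground)
      · rw [← Matroid.eRk_insert_eq_add_one (e := y) ⟨hY.subset_ground hy, by rwa [hflat.closure]⟩]
        exact M.eRk_mono (insert_subset (Or.inr hy) subset_union_left)
    rw [h1, ← key Y hY ⟨y, hy, hyH⟩, add_assoc, add_comm 1]

theorem exists_pair {β : Type*} {I : Set β} (hf : I.Finite) (hne : I.Nonempty) (h2 : I.ncard ≤ 2) :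
    ∃ a b, I = {a, b} := by
  have := (Set.ncard_pos hf).2 hne
  rcases (by omega : I.ncard = 1 ∨ I.ncard = 2) with h | h
  · obtain ⟨a, rfl⟩ := Set.ncard_eq_one.1 h
    exact ⟨a, a, by simp⟩
  · obtain ⟨a, b, -, rfl⟩ := Set.ncard_eq_two.1 h
    exact ⟨a, b, rfl⟩

theorem rep_vec {β : Type} [Finite β] (ψ : β → V) : Rep F (vec F ψ) ψ := rep_vecOn _ _ _

end Pool.Agent.H28.Explicit
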