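import Mathlib

/-! Colourings of digraphs. -/

namespace Pool.Agent.H28.GS

open Classical

def Col {Ω : Type} (R : Ω → Ω → Prop) (c : ℕ) : Prop :=
  ∃ f : Ω → Fin c, ∀ a b, R a b → f a ≠ f b

variable {Ω : Type} {R R₁ R₂ : Ω → Ω → Prop}

lemma Col.of_fintype {α : Type} [Fintype α] (f : Ω → α) (h : ∀ a b, R a b → f a ≠ f b) :
    Col R (Fintype.card α) :=
  ⟨fun a => Fintype.equivFin α (f a), fun a b hab e => h a b hab ((Fintype.equivFin α).injective e)⟩

lemma Col.mono {c : ℕ} (h : Col R₁ c) (hR : ∀ a b, R a b → R₁ a b) : Col R c :=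
  let ⟨f, hf⟩ := h; ⟨f, fun a b hab => hf a b (hR a b hab)⟩

lemma Col.le {c d : ℕ} (h : Col R c) (hc : c ≤ d) : Col R d :=
  let ⟨f, hf⟩ := h
  ⟨fun a => Fin.castLE hc (f a), fun a b hab e => hf a b hab (Fin.castLE_injective hc e)⟩

lemma Col.union {c d : ℕ} (h₁ : Col R₁ c) (h₂ : Col R₂ d) (h : ∀ a b, R a b → R₁ a b ∨ R₂ a b) :
    Col R (c * d) := by
  obtain ⟨f, hf⟩ := h₁
  obtain ⟨g, hg⟩ := h₂
  have := Col.of_fintype (R := R) (fun a => (f a, g a)) (fun a b hab e => by
    rcases h a b hab with h | h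
    · exact hf a b h (congrArg Prod.fst e)
    · exact hg a b h (congrArg Prod.snd e))
  simpa using this

lemma Col.iUnion {n c : ℕ} (Q : Fin n → Ω → Ω → Prop) (hQ : ∀ i, Col (Q i) c)
    (h : ∀ a b, R a b → ∃ i, Q i a b) : Col R (c ^ n) := by
  choose f hf using hQ
  have := Col.of_fintype (R := R) (fun a i => f i a) (fun a b hab e => by
    obtain ⟨i, hi⟩ := h a b hab
    exact hf i a b hi (congrFun e i))
  simpa using this

lemma Col.select {L : Type} [Nonempty L] {n c : ℕ} (A : Ω → Finset L) (Q : Ω → L → Ω → Prop)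
    (hA : ∀ a b, R a b → (A a).card ≤ n ∧ ∃ g ∈ A a, Q a g b)
    (h : ∀ g : Ω → L, Col (fun a b => R a b ∧ g a ∈ A a ∧ Q a (g a) b) c) : Col R (c ^ n) := by
  have : ∀ a, ∃ e : Fin n → L, (A a).card ≤ n → ∀ g ∈ A a, ∃ i, e i = g := by
    intro a
    by_cases ha : (A a).card ≤ n
    · refine ⟨fun i => if h : i.1 < (A a).card then ((A a).equivFin.symm ⟨i, h⟩).1
        else Classical.arbitrary L, fun _ g hg => ?_⟩
      refine ⟨⟨((A a).equivFin ⟨g, hg⟩).1, lt_of_lt_of_le (Fin.is_lt _) ha⟩, ?_⟩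
      simp
    · exact ⟨fun _ => Classical.arbitrary L, fun h => absurd h ha⟩
  choose e he using this
  refine Col.iUnion (fun i a b => R a b ∧ e a i ∈ A a ∧ Q a (e a i) b) (fun i => h _) ?_
  intro a b hab
  obtain ⟨h1, g, hg, h2⟩ := hA a b hab
  obtain ⟨i, rfl⟩ := he a h1 g hg
  exact ⟨i, hab, hg, h2⟩

lemma Col.line {c : ℕ}
    (h : Col (fun e e' : {e : Ω × Ω // R e.1 e.2} => e'.1.1 = e.1.2) c) : Col R (2 ^ c) := by
  obtain ⟨f, hf⟩ := h
  have := Col.of_fintype (R := R)
    (fun a => (Finset.univ.filter fun i : Fin c => ∃ e, f e = i ∧ e.1.1 = a)) (fun a b hab e => by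
      have h1 : f ⟨(a, b), hab⟩ ∈ Finset.univ.filter fun i : Fin c => ∃ e, f e = i ∧ e.1.1 = a := by
        simp only [Finset.mem_filter, Finset.mem_univ, true_and]
        exact ⟨_, rfl, rfl⟩
      rw [e] at h1
      simp only [Finset.mem_filter, Finset.mem_univ, true_and] at h1
      obtain ⟨e', h1, h2⟩ := h1
      exact hf _ e' h2 h1.symm)
  simpa using this

def Has (R : Ω → Ω → Prop) : ℕ → Ω → Prop
  | 0, _ => True
  | m + 1, a => ∃ b, R a b ∧ Has R m b

lemma Has.path {m : ℕ} {a : Ω} (h : Has R m a) :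
    ∃ P : ℕ → Ω, P 0 = a ∧ ∀ i < m, R (P i) (P (i + 1)) := by
  induction m generalizing a with
  | zero => exact ⟨fun _ => a, rfl, by simp⟩
  | succ m ih =>
    obtain ⟨b, hab, hb⟩ := h
    obtain ⟨P, h0, hP⟩ := ih hb
    refine ⟨fun i => Nat.casesOn i a P, rfl, fun i hi => ?_⟩
    cases i with
    | zero => simpa [h0] using hab
    | succ i => exact hP i (by omega)

lemma Col.nopath (n : ℕ) (h : ∀ P : ℕ → Ω, ¬ ∀ i < n, R (P i) (P (i + 1))) : Col R (n + 1) := by
  have h1 : ∀ a, ¬ Has R n a := fun a ha => let ⟨P, _, hP⟩ := ha.path; h P hP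
  have h2 : ∀ a, ∃ m, ¬ Has R m a := fun a => ⟨n, h1 a⟩
  refine ⟨fun a => ⟨Nat.find (h2 a), Nat.lt_succ_of_le (Nat.find_min' _ (h1 a))⟩, fun a b hab e => ?_⟩
  have e' : Nat.find (h2 a) = Nat.find (h2 b) := congrArg Fin.val e
  have h3 := Nat.find_spec (h2 a)
  cases hm : Nat.find (h2 a) with
  | zero => rw [hm] at h3; exact h3 trivial
  | succ m =>
    rw [hm] at h3
    have : Has R m b := by
      by_contra hb
      have := Nat.find_min' (h2 b) hb
      omega
    exact h3 ⟨b, hab, this⟩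

lemma Col.func (μ : Ω → Cardinal.{0}) (hμ : ∀ a b, R a b → μ b < μ a)
    (h : ∀ a b b', R a b → R a b' → b = b') : Col R 2 := by
  have wf : WellFounded fun b a => R a b :=
    Subrelation.wf (fun {b a} hab => hμ a b hab) (InvImage.wf μ wellFounded_lt)
  let f : Ω → Bool := wf.fix fun a rec =>
    if h : ∃ b, R a b then !(rec h.choose h.choose_spec) else true
  have hf : ∀ a, f a = if h : ∃ b, R a b then !(f h.choose) else true := fun a => wf.fix_eq _ a
  have := Col.of_fintype (R := R) f (fun a b hab => by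
    have h1 : ∃ b, R a b := ⟨b, hab⟩
    rw [hf a, dif_pos h1, h a _ b h1.choose_spec hab]
    simp)
  simpa using this

lemma greedy {X : Type} (Good : X → Prop) (Comp : X → X → Prop) (K : ℕ) :
    (∃ g : Fin K → X, (∀ j, Good (g j)) ∧ ∀ j j', j < j' → Comp (g j') (g j)) ∨
    ∃ s : Finset X, s.card ≤ K ∧ (∀ g ∈ s, Good g) ∧ ∀ g', Good g' → ¬ ∀ g ∈ s, Comp g' g := by
  induction K with
  | zero => exact Or.inl ⟨Fin.elim0, fun j => j.elim0, fun j => j.elim0⟩
  | succ K ih =>
    rcases ih with ⟨g, h1, h2⟩ | ⟨s, h1, h2⟩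
    · by_cases h : ∃ g', Good g' ∧ ∀ j, Comp g' (g j)
      · obtain ⟨g', h3, h4⟩ := h
        refine Or.inl ⟨Fin.snoc g g', fun j => ?_, fun j j' hj => ?_⟩
        · induction j using Fin.lastCases <;> simp [*]
        · induction j' using Fin.lastCases with
          | last =>
            induction j using Fin.lastCases with
            | last => exact absurd hj (lt_irrefl _)
            | cast j => simp [h4]
          | cast j' =>
            induction j using Fin.lastCases with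
            | last => exact absurd hj (not_lt.2 (Fin.le_last _))
            | cast j => simpa using h2 j j' (by simpa using hj)
      · refine Or.inr ⟨Finset.univ.image g, Finset.card_image_le.trans (by simp), by simpa using h1,
          fun g' hg' hc => h ⟨g', hg', by simpa using hc⟩⟩
    · exact Or.inr ⟨s, by omega, h2⟩

lemma step_choice (S : ℕ → Prop) (h D : ℕ) (hh : 1 ≤ h) (h0 : S 0) :
    (D + 2 ≤ ((Finset.range (h ^ (D + 1))).filter S).card) ∨
    ∃ a, 1 ≤ a ∧ a * h ≤ h ^ (D + 1) ∧ S (a - 1) ∧ ∀ t, 1 ≤ t → t < h → ¬ S (a - 1 + a * t) := by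
  by_contra hc
  rw [not_or] at hc
  obtain ⟨hc1, hc2⟩ := hc
  have : ∀ j ≤ D + 1, ∃ a, 1 ≤ a ∧ a ≤ h ^ j ∧ S (a - 1) ∧
      j + 1 ≤ ((Finset.range a).filter S).card := by
    intro j hj
    induction j with
    | zero => exact ⟨1, le_rfl, by simp, h0, Finset.card_pos.2 ⟨0, by simp [h0]⟩⟩
    | succ j ih =>
      obtain ⟨a, a1, a2, a3, a4⟩ := ih (by omega)
      have a5 : a * h ≤ h ^ (j + 1) := by rw [pow_succ]; exact Nat.mul_le_mul_right _ a2
      have a6 : h ^ (j + 1) ≤ h ^ (D + 1) := Nat.pow_le_pow_right hh hj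
      have : ∃ t, 1 ≤ t ∧ t < h ∧ S (a - 1 + a * t) := by
        by_contra hn
        push Not at hn
        exact hc2 ⟨a, a1, a5.trans a6, a3, hn⟩
      obtain ⟨t, t1, t2, t3⟩ := this
      have b1 : a * 1 ≤ a * t := Nat.mul_le_mul_left _ t1
      have b2 : a * (t + 1) ≤ a * h := Nat.mul_le_mul_left _ t2
      refine ⟨a + a * t, by omega, by nlinarith, by rwa [show a + a * t - 1 = a - 1 + a * t by omega], ?_⟩
      have : insert (a - 1 + a * t) ((Finset.range a).filter S) ⊆
          (Finset.range (a + a * t)).filter S := by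
        intro x hx
        simp only [Finset.mem_insert, Finset.mem_filter, Finset.mem_range] at hx ⊢
        rcases hx with rfl | hx
        · exact ⟨by omega, t3⟩
        · exact ⟨by omega, hx.2⟩
      have h3 := Finset.card_le_card this
      rw [Finset.card_insert_of_notMem (by simp; omega)] at h3
      omega
  obtain ⟨a, -, a2, -, a4⟩ := this (D + 1) le_rfl
  exact hc1 (a4.trans (Finset.card_le_card (Finset.filter_subset_filter _
    (Finset.range_subset_range.2 a2))))

end Pool.Agent.H28.GS
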