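import Mathlib
import Pool.Agent.H28.GS1

namespace Pool.Agent.H28.GS

open Classical

structure Pol (L : Type) [Lattice L] [OrderBot L] where
  p : L → L
  anti : Antitone p
  invol : ∀ x, p (p x) = x
  rk : L → ℕ
  rk_mono : StrictMono rk
  D : ℕ
  rk_le : ∀ x, rk x ≤ D
  C : Set L
  uniq : ∀ c ∈ C, ∀ c' ∈ C, ∀ x, x ≠ ⊥ → x ≤ c → x ≤ c' → c = c'

variable {L : Type} [Lattice L] [OrderBot L] (P : Pol L)

namespace Pol

def par (x y : L) : Prop := ∃ c ∈ P.C, x ≤ c ∧ y ≤ c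

def adj (x y : L) : Prop := x ≤ P.p y ∧ ¬ P.par x y

variable {P}

lemma le_p {x y : L} (h : x ≤ P.p y) : y ≤ P.p x := by
  have := P.anti h
  rwa [P.invol] at this

lemma par.symm {x y : L} (h : P.par x y) : P.par y x :=
  let ⟨c, h1, h2, h3⟩ := h; ⟨c, h1, h3, h2⟩

lemma par.mono {x y x' y' : L} (h : P.par x y) (hx : x' ≤ x) (hy : y' ≤ y) : P.par x' y' :=
  let ⟨c, h1, h2, h3⟩ := h; ⟨c, h1, hx.trans h2, hy.trans h3⟩

lemma adj.symm {x y : L} (h : P.adj x y) : P.adj y x := ⟨le_p h.1, fun h' => h.2 h'.symm⟩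

lemma le_p_sup {x a b : L} (ha : x ≤ P.p a) (hb : x ≤ P.p b) : x ≤ P.p (a ⊔ b) :=
  le_p (sup_le (le_p ha) (le_p hb))

variable (P)

noncomputable def dir (x : L) : L := if h : ∃ c ∈ P.C, x ≤ c then h.choose else x

noncomputable def lab (x : L) : Cardinal.{0} := embeddingToCardinal (P.dir x)

variable {P}

lemma dir_eq {x c : L} (hx : x ≠ ⊥) (hc : c ∈ P.C) (h : x ≤ c) : P.dir x = c := by
  have h1 : ∃ c ∈ P.C, x ≤ c := ⟨c, hc, h⟩
  rw [dir, dif_pos h1]
  exact P.uniq _ h1.choose_spec.1 _ hc x hx h1.choose_spec.2 h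

lemma lab_par {x y : L} (hx : x ≠ ⊥) (hy : y ≠ ⊥) (h : P.par x y) : P.lab x = P.lab y := by
  obtain ⟨c, h1, h2, h3⟩ := h
  rw [lab, lab, dir_eq hx h1 h2, dir_eq hy h1 h3]

lemma lab_inj {x y : L} (h : P.lab x = P.lab y) : x = y ∨ P.par x y := by
  have h' : P.dir x = P.dir y := embeddingToCardinal.injective h
  unfold dir at h'
  split_ifs at h' with h1 h2 h2
  · exact Or.inr ⟨_, h1.choose_spec.1, h1.choose_spec.2, h' ▸ h2.choose_spec.2⟩
  · exact absurd ⟨y, h' ▸ h1.choose_spec.1, le_rfl⟩ h2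
  · exact absurd ⟨x, h' ▸ h2.choose_spec.1, le_rfl⟩ h1
  · exact Or.inl h'

end Pol

open Pol

/-- weak induced copy of the `K`-ary tree of depth `i` -/
def TrW (V : Set L) (K i : ℕ) (C : ℕ → L → Prop) (f : List (Fin K) → L) : Prop :=
  (∀ w, w.length ≤ i → f w ∈ V) ∧ (∀ w v, w.length = v + 1 → w.length ≤ i → C v (f w)) ∧
  (∀ w j, w.length < i → P.adj (f w) (f (w ++ [j]))) ∧
  ∀ w w', w.length ≤ i → w'.length ≤ i → P.adj (f w) (f w') →
    (∃ j, w' = w ++ [j]) ∨ ∃ j, w = w' ++ [j]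

structure Valid (K h k a : ℕ) (V : Set L) : Prop where
  rk : ∀ x ∈ V, a ≤ P.rk x
  nz : ∀ x ∈ V, x ≠ ⊥
  irr : ∀ x ∈ V, x ≤ P.p x → P.par x x
  tree : ¬ ∃ f, TrW P V K h (fun _ _ => True) f
  clique : ¬ ∃ f : Fin k → L, (∀ i, f i ∈ V) ∧ ∀ i j, i ≠ j → P.adj (f i) (f j)

def Gen (M : ℕ) (V : Set L) (W : L) : Prop :=
  ∀ G : Finset L, G.card ≤ M → (∀ g ∈ G, ¬ W ≤ g) → ∃ x ∈ V, x ≤ W ∧ ∀ g ∈ G, ¬ x ≤ g

variable {P}

lemma lift {ι : Type} [Fintype ι] {M : ℕ} {V : Set L} (hM : 2 * Fintype.card ι ≤ M)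
    (hnz : ∀ x ∈ V, x ≠ ⊥) (W : ι → L) (hW : ∀ i, Gen M V (W i)) :
    ∃ x : ι → L, (∀ i, x i ∈ V ∧ x i ≤ W i) ∧ ∀ i j, i ≠ j →
      (¬ W i ≤ P.p (W j) → ¬ x i ≤ P.p (x j)) ∧ (¬ P.par (W i) (W j) → ¬ P.par (x i) (x j)) := by
  have main : ∀ s : Finset ι, ∃ x : ι → L, (∀ i ∈ s, x i ∈ V) ∧ (∀ i ∉ s, x i = W i) ∧
      (∀ i, x i ≤ W i ∧ x i ≠ ⊥) ∧ ∀ i j, i ≠ j →
      (¬ W i ≤ P.p (W j) → ¬ x i ≤ P.p (x j)) ∧ (¬ P.par (W i) (W j) → ¬ P.par (x i) (x j)) := by
    intro s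
    induction s using Finset.induction_on with
    | empty =>
      refine ⟨W, by simp, by simp, fun i => ⟨le_rfl, ?_⟩, fun i j _ => ⟨id, id⟩⟩
      obtain ⟨x, hx, h1, -⟩ := hW i ∅ (by simp) (by simp)
      exact ne_bot_of_le_ne_bot (hnz x hx) h1
    | insert i s hi ih =>
      obtain ⟨X, a1, a2, a3, a4⟩ := ih
      obtain ⟨y, hy, h1, h2⟩ := hW i (((Finset.univ.image fun j => P.p (X j)) ∪
        (Finset.univ.image fun j => P.dir (X j))).filter fun g => ¬ W i ≤ g)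
        ((Finset.card_filter_le _ _).trans ((Finset.card_union_le _ _).trans (by
          have := Finset.card_image_le (s := (Finset.univ : Finset ι)) (f := fun j => P.p (X j))
          have := Finset.card_image_le (s := (Finset.univ : Finset ι)) (f := fun j => P.dir (X j))
          simp only [Finset.card_univ] at *
          omega))) (fun g hg => (Finset.mem_filter.1 hg).2)
      have k1 : ∀ j, ¬ X i ≤ P.p (X j) → ¬ y ≤ P.p (X j) := fun j hj =>
        h2 _ (by rw [a2 i hi] at hj; simp [hj])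
      have k2 : ∀ j, ¬ P.par (X i) (X j) → ¬ P.par y (X j) := by
        rintro j hj ⟨c, hc, h3, h4⟩
        rw [a2 i hi] at hj
        have e := dir_eq (a3 j).2 hc h4
        refine h2 c ?_ h3
        simp only [Finset.mem_filter, Finset.mem_union, Finset.mem_image, Finset.mem_univ, true_and]
        exact ⟨Or.inr ⟨j, e⟩, fun h => hj ⟨c, hc, h, h4⟩⟩
      refine ⟨Function.update X i y, fun j hj => ?_, fun j hj => ?_, fun j => ?_, fun j j' hj => ?_⟩
      · by_cases e : j = i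
        · subst e; simpa using hy
        · rw [Function.update_of_ne e]; exact a1 j (by simpa [e] using hj)
      · simp only [Finset.mem_insert, not_or] at hj
        rw [Function.update_of_ne hj.1]; exact a2 j hj.2
      · by_cases e : j = i
        · subst e; simpa using ⟨h1, hnz y hy⟩
        · rw [Function.update_of_ne e]; exact a3 j
      · by_cases e : j = i
        · subst e
          rw [Function.update_self, Function.update_of_ne hj.symm]
          exact ⟨fun h => k1 _ ((a4 _ _ hj).1 h), fun h => k2 _ ((a4 _ _ hj).2 h)⟩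
        · by_cases e' : j' = i
          · subst e'
            rw [Function.update_self, Function.update_of_ne e]
            exact ⟨fun h h' => k1 _ (fun h'' => (a4 _ _ hj).1 h (le_p h'')) (le_p h'),
              fun h h' => k2 _ (fun h'' => (a4 _ _ hj).2 h h''.symm) h'.symm⟩
          · rw [Function.update_of_ne e, Function.update_of_ne e']
            exact a4 _ _ hj
  obtain ⟨x, a1, -, a3, a4⟩ := main Finset.univ
  exact ⟨x, fun i => ⟨a1 i (by simp), (a3 i).1⟩, a4⟩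

lemma lift' {ι : Type} [Fintype ι] {M : ℕ} {V : Set L} (hM : 2 * Fintype.card ι ≤ M)
    (hnz : ∀ x ∈ V, x ≠ ⊥) (W : ι → L) (hW : ∀ i, Gen M V (W i)) :
    ∃ x : ι → L, (∀ i, x i ∈ V ∧ x i ≤ W i) ∧ ∀ i j, i ≠ j →
      (P.adj (x i) (x j) ↔ P.adj (W i) (W j)) := by
  obtain ⟨x, h1, h2⟩ := lift (P := P) hM hnz W hW
  refine ⟨x, h1, fun i j hij => ⟨fun h => ⟨?_, fun h' => h.2 (h'.mono (h1 i).2 (h1 j).2)⟩,
    fun h => ⟨(h1 i).2.trans (h.1.trans (P.anti (h1 j).2)), (h2 i j hij).2 h.2⟩⟩⟩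
  by_contra h'
  exact (h2 i j hij).1 h' h.1

noncomputable instance wordsFin (K h : ℕ) : Fintype {w : List (Fin K) // w.length ≤ h} :=
  (List.finite_length_le (Fin K) h).fintype

lemma Valid.next {K h k a M : ℕ} {V : Set L} (hV : Valid P K h k a V)
    (hM1 : 2 * k ≤ M) (hM2 : 2 * Fintype.card {w : List (Fin K) // w.length ≤ h} ≤ M) :
    Valid P K h k (a + 1) {W | Gen M V W ∧ a + 1 ≤ P.rk W} := by
  have cl : ∀ W : Fin k → L, (∀ i, Gen M V (W i)) → ¬ ∀ i j, i ≠ j → P.adj (W i) (W j) := by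
    intro W hW h
    obtain ⟨x, h1, h2⟩ := lift' (P := P) (by simpa using hM1) hV.nz W hW
    exact hV.clique ⟨x, fun i => (h1 i).1, fun i j hij => (h2 i j hij).2 (h i j hij)⟩
  refine ⟨fun x hx => hx.2, fun W hW => ?_, fun W hW h => ?_, ?_, fun ⟨W, h1, h2⟩ =>
    cl W (fun i => (h1 i).1) h2⟩
  · obtain ⟨x, hx, h1, -⟩ := hW.1 ∅ (by simp) (by simp)
    exact ne_bot_of_le_ne_bot (hV.nz x hx) h1
  · by_contra h'
    exact cl (fun _ => W) (fun _ => hW.1) (fun _ _ _ => ⟨h, h'⟩)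
  · rintro ⟨f, f1, -, f3, f4⟩
    obtain ⟨x, h1, h2⟩ := lift' (P := P) hM2 hV.nz
      (fun w : {w : List (Fin K) // w.length ≤ h} => f w.1) (fun w => (f1 w.1 w.2).1)
    refine hV.tree ⟨fun w => if hw : w.length ≤ h then x ⟨w, hw⟩ else ⊥, fun w hw => ?_,
      fun _ _ _ _ => trivial, fun w j hw => ?_, fun w w' hw hw' hadj => ?_⟩
    · simp only [dif_pos hw]; exact (h1 _).1
    · have : (w ++ [j]).length ≤ h := by simpa using hw
      simp only [dif_pos hw.le, dif_pos this]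
      exact (h2 _ _ (by simp)).2 (f3 w j hw)
    · simp only [dif_pos hw, dif_pos hw'] at hadj
      by_cases e : w = w'
      · subst e
        exact absurd (hV.irr _ (h1 _).1 hadj.1) hadj.2
      · exact f4 w w' hw hw' ((h2 _ _ (by simpa using e)).1 hadj)

lemma dirs {K h k a : ℕ} {V : Set L} (hV : Valid P K h k a V) (B : L) (hB : B ≤ P.p B) :
    ∃ A : Finset L, A.card ≤ k ∧ ∀ c ∈ P.C, ∀ x ∈ V, x ≤ B → x ≤ c → c ∈ A := by
  set S := {c | c ∈ P.C ∧ ∃ x ∈ V, x ≤ B ∧ x ≤ c}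
  by_cases h1 : (k : ℕ∞) ≤ S.encard
  · obtain ⟨t, ht, hk⟩ := Set.exists_subset_encard_eq h1
    have hf : t.Finite := Set.finite_of_encard_eq_coe hk
    have hc : hf.toFinset.card = k := by
      rw [hf.encard_eq_coe_toFinset_card] at hk; exact_mod_cast hk
    let e := (Finset.equivFinOfCardEq hc).symm
    have : ∀ i : Fin k, (e i).1 ∈ S := fun i => ht (hf.mem_toFinset.1 (e i).2)
    choose h2 x h3 h4 h5 using this
    refine absurd ⟨x, h3, fun i j hij => ⟨(h4 i).trans (hB.trans (P.anti (h4 j))), ?_⟩⟩ hV.clique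
    rintro ⟨c, hc, h6, h7⟩
    have e1 := P.uniq _ (h2 i) _ hc _ (hV.nz _ (h3 i)) (h5 i) h6
    have e2 := P.uniq _ (h2 j) _ hc _ (hV.nz _ (h3 j)) (h5 j) h7
    exact hij (e.injective (Subtype.ext (e1.trans e2.symm)))
  · have h1' := not_le.1 h1
    have hf : S.Finite := Set.finite_of_encard_le_coe h1'.le
    refine ⟨hf.toFinset, ?_, fun c hc x hx h2 h3 => hf.mem_toFinset.2 ⟨hc, x, hx, h2, h3⟩⟩
    rw [hf.encard_eq_coe_toFinset_card] at h1'
    exact_mod_cast h1'.le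

lemma assemble {V : Set L} {K i : ℕ} {C : ℕ → L → Prop} {x : L} (hx : x ∈ V) (hxx : ¬ P.adj x x)
    (g : Fin K → List (Fin K) → L) (h1 : ∀ j, TrW P V K i (fun v => C (v + 1)) (g j))
    (h2 : ∀ j, C 0 (g j [])) (h3 : ∀ j, P.adj x (g j []))
    (h4 : ∀ j w, w ≠ [] → w.length ≤ i → ¬ P.adj x (g j w))
    (h5 : ∀ j j' w w', j ≠ j' → w.length ≤ i → w'.length ≤ i → ¬ P.adj (g j w) (g j' w')) :
    ∃ f, f [] = x ∧ TrW P V K (i + 1) C f := by
  refine ⟨fun w => List.casesOn w x g, rfl, ?_, ?_, ?_, ?_⟩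
  · rintro (_ | ⟨j, w⟩) hw
    · exact hx
    · exact (h1 j).1 w (by simpa using hw)
  · rintro (_ | ⟨j, w⟩) v hv hw
    · simp at hv
    · cases v with
      | zero =>
        have : w = [] := by simpa using hv
        subst this; exact h2 j
      | succ v => exact (h1 j).2.1 w v (by simpa using hv) (by simpa using hw)
  · rintro (_ | ⟨j, w⟩) j' hw
    · exact h3 j'
    · exact (h1 j).2.2.1 w j' (by simpa using hw)
  · rintro (_ | ⟨j, w⟩) (_ | ⟨j', w'⟩) hw hw' hadj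
    · exact absurd hadj hxx
    · by_cases e : w' = []
      · subst e; exact Or.inl ⟨j', rfl⟩
      · exact absurd hadj (h4 j' w' e (by simpa using hw'))
    · by_cases e : w = []
      · subst e; exact Or.inr ⟨j, rfl⟩
      · exact absurd hadj.symm (h4 j w e (by simpa using hw))
    · by_cases e : j = j'
      · subst e
        rcases (h1 j).2.2.2 w w' (by simpa using hw) (by simpa using hw') hadj with ⟨b, rfl⟩ | ⟨b, rfl⟩
        · exact Or.inl ⟨b, rfl⟩
        · exact Or.inr ⟨b, rfl⟩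
      · exact absurd hadj (h5 j j' w w' e (by simpa using hw) (by simpa using hw'))

end Pool.Agent.H28.GS
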