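import Mathlib
import Pool.Agent.H28.GS2

namespace Pool.Agent.H28.GS

set_option linter.unusedVariables false

open Classical Pol

variable {L : Type} [Lattice L] [OrderBot L] (P : Pol L)

structure Sys (V : Set L) where
  Ω : Type
  R : Ω → Ω → Prop
  π : Ω → L
  F : ℕ → Ω → L
  mem : ∀ a, π a ∈ V
  s1 : ∀ a, π a ≤ F 0 a
  s2 : ∀ a b, R a b → π b ≤ P.p (F 0 a)
  s3 : ∀ s a b, R a b → F (s + 1) a ≤ F s b
  s4 : ∀ a b b', R a b → R a b' → π b = π b' → b = b'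
  s5 : ∀ a b, R a b → P.lab (π b) < P.lab (π a)

variable {P} {V : Set L}

def Sys.sub (S : Sys P V) (R' : S.Ω → S.Ω → Prop) (h : ∀ a b, R' a b → S.R a b) : Sys P V :=
  { S with
    R := R'
    s2 := fun a b hab => S.s2 a b (h a b hab)
    s3 := fun s a b hab => S.s3 s a b (h a b hab)
    s4 := fun a b b' h1 h2 => S.s4 a b b' (h _ _ h1) (h _ _ h2)
    s5 := fun a b hab => S.s5 a b (h a b hab) }

def Sys.line (S : Sys P V) (R' : S.Ω → S.Ω → Prop) (h : ∀ a b, R' a b → S.R a b) : Sys P V where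
  Ω := {e : S.Ω × S.Ω // R' e.1 e.2}
  R e e' := e'.1.1 = e.1.2
  π e := S.π e.1.2
  F s e := S.F s e.1.2
  mem e := S.mem _
  s1 e := S.s1 _
  s2 e e' he := S.s2 _ _ (he ▸ h _ _ e'.2)
  s3 s e e' he := S.s3 s _ _ (he ▸ h _ _ e'.2)
  s4 e e' e'' h1 h2 h3 := Subtype.ext (Prod.ext (h1.trans h2.symm)
    (S.s4 e.1.2 _ _ (h1 ▸ h _ _ e'.2) (h2 ▸ h _ _ e''.2) h3))
  s5 e e' he := S.s5 _ _ (he ▸ h _ _ e'.2)

def Phi (P : Pol L) (N : ℕ) (F : ℕ → L) : ℕ := ∑ s ∈ Finset.range N, P.rk (F s)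

lemma Phi_inc {N s : ℕ} (hs : s < N) (F : ℕ → L) (g : L) (hg : ¬ g ≤ F s) :
    Phi P N F + 1 ≤ Phi P N (fun t => if t = s then F s ⊔ g else F t) := by
  refine Nat.succ_le_of_lt ?_
  unfold Phi
  refine Finset.sum_lt_sum (fun t _ => ?_) ⟨s, Finset.mem_range.2 hs, ?_⟩
  · dsimp only
    split_ifs with h
    · subst h; exact P.rk_mono.monotone le_sup_left
    · exact le_rfl
  · simp only [if_true]
    exact P.rk_mono (left_lt_sup.2 hg)

def IH (P : Pol L) (K h k a N φ c : ℕ) : Prop :=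
  ∀ V, Valid P K h k a V → ∀ S : Sys P V, (∀ x y, S.R x y → φ ≤ Phi P N (S.F · x)) → Col S.R c

variable {K h k a N φ c : ℕ}

lemma inc (H : IH P K h k a N (φ + 1) c) (hV : Valid P K h k a V) (S : Sys P V) (s : ℕ)
    (hs : s < N) (g : S.Ω → L) (R' : S.Ω → S.Ω → Prop)
    (h : ∀ x y, R' x y → S.R x y ∧ φ ≤ Phi P N (S.F · x) ∧ ¬ g x ≤ S.F s x ∧
      (s = 0 → S.π y ≤ P.p (g x)) ∧ ∀ t, s = t + 1 → g x ≤ S.F t y) : Col R' c := by
  have le : ∀ t x, S.F t x ≤ if t = s then S.F s x ⊔ g x else S.F t x := by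
    intro t x
    split_ifs with e
    · subst e; exact le_sup_left
    · exact le_rfl
  refine H V hV
    { Ω := S.Ω, R := R', π := S.π, F := fun t x => if t = s then S.F s x ⊔ g x else S.F t x
      mem := S.mem
      s1 := fun x => (S.s1 x).trans (le 0 x)
      s2 := fun x y hxy => ?_
      s3 := fun t x y hxy => ?_
      s4 := fun a b b' h1 h2 => S.s4 a b b' (h _ _ h1).1 (h _ _ h2).1
      s5 := fun a b hab => S.s5 a b (h a b hab).1 } (fun x y hxy => ?_)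
  · obtain ⟨h1, -, -, h4, -⟩ := h x y hxy
    split_ifs with e
    · subst e; exact le_p_sup (S.s2 x y h1) (h4 rfl)
    · exact S.s2 x y h1
  · obtain ⟨h1, -, -, -, h5⟩ := h x y hxy
    refine le_trans ?_ (le t y)
    split_ifs with e
    · subst e; exact sup_le (S.s3 t x y h1) (h5 t rfl)
    · exact S.s3 t x y h1
  · obtain ⟨-, h2, h3, -⟩ := h x y hxy
    exact (Nat.succ_le_succ h2).trans (Phi_inc hs (S.F · x) (g x) h3)

def Own (P : Pol L) (h N st τ : ℕ) (x : L) (F : ℕ → L) : Prop :=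
  x ≤ F (st - 1) ∧ (∀ t, 1 ≤ t → t < h → ¬ x ≤ F (st - 1 + st * t)) ∧
  (∀ s < N, ∀ t < N, (s ≠ t ∨ τ ≤ s) → ¬ P.p (F t) ≤ F s) ∧
  ∀ s < τ, ∃ c ∈ P.C, P.p (F s) ≤ c

def TB (P : Pol L) (K h k a N φ st τ i r n c : ℕ) : Prop :=
  ∀ V, Valid P K h k a V → ∀ (S : Sys P V) (x : S.Ω → L) (ctx : S.Ω → ℕ → Finset L),
    (∀ u w, S.R u w → φ ≤ Phi P N (S.F · u) ∧ Own P h N st τ (S.π u) (S.F · u) ∧
      x u ∈ V ∧ x u ≤ S.F r u ∧ P.lab (S.π u) ≤ P.lab (x u) ∧ (∀ v, (ctx u v).card ≤ n) ∧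
      (∀ v < i, ∀ g ∈ ctx u v, ¬ g ≤ S.F (r + st * v) u) ∧
      (∀ v, 1 ≤ v → v < i → ¬ x u ≤ S.F (r + st * v) u) ∧
      ¬ ∃ f, f [] = x u ∧ TrW P V K i
        (fun v y => y ≤ P.p (S.F (r + st * v) u) ∧ ∀ g ∈ ctx u v, ¬ y ≤ P.p g) f) →
    Col S.R c

variable {st τ : ℕ}

lemma TB_zero (r n : ℕ) : TB P K h k a N φ st τ 0 r n 1 := by
  intro V hV S x ctx H
  refine ⟨fun _ => 0, fun u w huw => absurd ?_ (H u w huw).2.2.2.2.2.2.2.2⟩
  have hx := (H u w huw).2.2.1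
  refine ⟨fun _ => x u, rfl, fun _ _ => hx, fun w v h1 h2 => by omega, fun w j h => by omega,
    fun _ _ _ _ h => absurd (hV.irr _ hx h.1) h.2⟩

lemma TrW.mono {i : ℕ} {C C' : ℕ → L → Prop} {f : List (Fin K) → L} (h : TrW P V K i C f)
    (hC : ∀ v y, v < i → C v y → C' v y) : TrW P V K i C' f :=
  ⟨h.1, fun w v h1 h2 => hC v _ (by omega) (h.2.1 w v h1 h2), h.2.2⟩

lemma TB_step (H : IH P K h k a N (φ + 1) c) {i r n c' : ℕ} (hN : ∀ v < i, r + 1 + st * v < N)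
    (H' : TB P K h k a N φ st τ i r n c') :
    TB P K h k a N φ st τ i (r + 1) n ((c ^ (n + 1)) ^ i * 2 ^ c') := by
  intro V hV S x ctx hS
  have : Nonempty L := ⟨⊥⟩
  let B : S.Ω → ℕ → Finset L := fun u v => if 1 ≤ v then insert (x u) (ctx u v) else ctx u v
  let Bad : S.Ω → S.Ω → Prop := fun u w => ∃ v : Fin i, ∃ g ∈ B u v, g ≤ S.F (r + st * v) w
  refine Col.union (R₁ := fun u w => S.R u w ∧ Bad u w) (R₂ := fun u w => S.R u w ∧ ¬ Bad u w)
    ?_ ?_ (fun u w h => (Classical.em (Bad u w)).imp (fun h' => ⟨h, h'⟩) (fun h' => ⟨h, h'⟩))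
  · refine Col.iUnion (fun v u w => S.R u w ∧ ∃ g ∈ B u v, g ≤ S.F (r + st * v) w) (fun v => ?_)
      (fun u w ⟨h1, v, h2⟩ => ⟨v, h1, h2⟩)
    refine Col.select (fun u => B u v) (fun u g w => g ≤ S.F (r + st * v) w) (fun u w h => ⟨?_, h.2⟩)
      (fun g => ?_)
    · have := (hS u w h.1).2.2.2.2.2.1 v
      simp only [B]
      split_ifs
      · exact (Finset.card_insert_le _ _).trans (by omega)
      · omega
    · refine inc H hV S (r + 1 + st * v) (hN v v.2) g _ (fun u w ⟨h1, h2, h3⟩ => ?_)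
      obtain ⟨a1, a2, a3, a4, a5, a6, a7, a8, a9⟩ := hS u w h1.1
      refine ⟨h1.1, a1, ?_, fun e => by omega, fun t e => by
        rwa [show t = r + st * v by omega]⟩
      simp only [B] at h2
      split_ifs at h2 with hv
      · rcases Finset.mem_insert.1 h2 with e | h2
        · rw [e]; exact a8 v hv v.2
        · exact a7 v v.2 _ h2
      · exact a7 v v.2 _ h2
  · refine Col.line (H' V hV (S.line (fun u w => S.R u w ∧ ¬ Bad u w) (fun u w h => h.1)) (fun e => x e.1.1) (fun e => ctx e.1.1) ?_)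
    rintro ⟨⟨u, w⟩, huw, hb⟩ ⟨⟨w', z⟩, hwz, -⟩ (rfl : w' = w)
    obtain ⟨a1, a2, a3, a4, a5, a6, a7, a8, a9⟩ := hS u w' huw
    obtain ⟨b1, b2, -⟩ := hS w' z hwz
    refine ⟨b1, b2, a3, a4.trans (S.s3 r u w' huw), (S.s5 u w' huw).le.trans a5, a6,
      fun v hv g hg h => hb ⟨⟨v, hv⟩, g, ?_, h⟩, fun v h1 hv h => hb ⟨⟨v, hv⟩, x u, ?_, h⟩,
      fun ⟨f, f1, f2⟩ => a9 ⟨f, f1, f2.mono fun v y _ hy => ⟨hy.1.trans (P.anti ?_), hy.2⟩⟩⟩
    · simp only [B]; split_ifs <;> simp [hg]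
    · simp [B, h1]
    · rw [show r + 1 + st * v = r + st * v + 1 by ring]
      exact S.s3 _ u w' huw

lemma TB_branch (H : IH P K h k a N (φ + 1) c) {i n c' : ℕ} (hst : 1 ≤ st) (hi : i < h)
    (hN : st * h ≤ N)
    (H' : TB P K h k a N φ st τ i (st - 1)
      (n + K * (List.finite_length_le (Fin K) i).toFinset.card + (i + 1) + 1) c') :
    ∃ c'', TB P K h k a N φ st τ (i + 1) 0 n c'' := by
  set n' := n + K * (List.finite_length_le (Fin K) i).toFinset.card + (i + 1) + 1 with hn'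
  refine ⟨c ^ n' * ((c ^ n') ^ i * 2 ^ c'), fun V hV S x ctx hS => ?_⟩
  have : Nonempty L := ⟨⊥⟩
  have hlt : ∀ t ≤ i, st * t < N := fun t ht =>
    lt_of_lt_of_le (Nat.mul_lt_mul_of_pos_left (by omega) (by omega)) hN
  let E : S.Ω → ℕ → Finset L := fun u v =>
    ((Finset.range (i + 1)).filter fun t => t ≠ v ∨ τ ≤ st * t).image fun t => P.p (S.F (st * t) u)
  let Con : S.Ω → ℕ → L → Prop := fun u v y => y ≤ P.p (S.F (st * v) u) ∧
    (∀ g ∈ ctx u v, ¬ y ≤ P.p g) ∧ (∀ g ∈ E u v, ¬ y ≤ P.p g) ∧ (1 ≤ v → ¬ y ≤ P.p (x u))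
  let Good : S.Ω → (List (Fin K) → L) → Prop := fun u g =>
    (∃ w, S.R u w ∧ g [] = S.π w) ∧ TrW P V K i (fun _ _ => True) g ∧
      ∀ w, w.length ≤ i → Con u w.length (g w)
  let Comp : (List (Fin K) → L) → (List (Fin K) → L) → Prop := fun g' g =>
    ∀ w w', w.length ≤ i → w'.length ≤ i → (w.length ≠ w'.length ∨ τ ≤ st * w'.length) →
      ¬ g' w' ≤ P.p (g w)
  have key : ∀ u, ∃ s : Finset (List (Fin K) → L), (∃ w, S.R u w) → s.card ≤ K ∧
      (∀ g ∈ s, Good u g) ∧ ∀ g', Good u g' → ¬ ∀ g ∈ s, Comp g' g := by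
    intro u
    by_cases hu : ∃ w, S.R u w
    swap
    · exact ⟨∅, fun h => absurd h hu⟩
    obtain ⟨w₀, hw₀⟩ := hu
    obtain ⟨a1, a2, a3, a4, a5, a6, a7, a8, a9⟩ := hS u w₀ hw₀
    rcases greedy (Good u) Comp K with ⟨g, g1, g2⟩ | ⟨s, hs⟩
    swap
    · exact ⟨s, fun _ => hs⟩
    exfalso
    refine a9 (assemble a3 (fun h => h.2 (hV.irr _ a3 h.1)) g (fun j => ?_) (fun j => ?_)
      (fun j => ?_) (fun j w h1 h2 h3 => ?_) ?_)
    · obtain ⟨-, t1, t2⟩ := g1 j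
      refine ⟨t1.1, fun w v h1 h2 => ?_, t1.2.2⟩
      have := t2 w h2
      rw [h1] at this
      exact ⟨by simpa using this.1, this.2.1⟩
    · have := (g1 j).2.2 [] (by simp)
      exact ⟨by simpa using this.1, this.2.1⟩
    · obtain ⟨⟨w, h1, h2⟩, -⟩ := g1 j
      rw [h2]
      refine ⟨a4.trans (le_p (S.s2 u w h1)), fun hp => ?_⟩
      have := lab_par (hV.nz _ a3) (hV.nz _ (S.mem w)) hp
      exact absurd ((S.s5 u w h1).trans_le a5) (by rw [this]; exact lt_irrefl _)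
    · exact ((g1 j).2.2 w h2).2.2.2 (List.length_pos_iff.2 h1) (le_p h3.1)
    · have aux : ∀ j j' w w', j < j' → w.length ≤ i → w'.length ≤ i → ¬ P.adj (g j w) (g j' w') := by
        intro j j' w w' hj h1 h2 hadj
        by_cases e : w.length ≠ w'.length ∨ τ ≤ st * w'.length
        · exact g2 j j' hj w w' h1 h2 e (le_p hadj.1)
        · push Not at e
          obtain ⟨c, hc, h3⟩ := a2.2.2.2 _ e.2
          refine hadj.2 ⟨c, hc, ?_, ((g1 j').2.2 w' h2).1.trans h3⟩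
          have := ((g1 j).2.2 w h1).1
          rw [e.1] at this
          exact this.trans h3
      intro j j' w w' hj h1 h2
      rcases lt_or_gt_of_ne hj with h | h
      · exact aux j j' w w' h h1 h2
      · exact fun h' => aux j' j w' w h h2 h1 h'.symm
  choose s hs using key
  let Z : S.Ω → ℕ → Finset L := fun u v =>
    ((s u ×ˢ (List.finite_length_le (Fin K) i).toFinset).filter
      fun z => z.2.length ≠ v ∨ τ ≤ st * v).image fun z => z.1 z.2
  let X : S.Ω → ℕ → Finset L := fun u v =>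
    ctx u v ∪ Z u v ∪ E u v ∪ (if 1 ≤ v then {x u} else ∅)
  have Xcard : ∀ u w, S.R u w → ∀ v, (X u v).card ≤ n' := by
    intro u w huw v
    have h1 := (hS u w huw).2.2.2.2.2.1 v
    have h2 : (Z u v).card ≤ K * (List.finite_length_le (Fin K) i).toFinset.card :=
      Finset.card_image_le.trans ((Finset.card_filter_le _ _).trans (by
        rw [Finset.card_product]; exact Nat.mul_le_mul_right _ (hs u ⟨w, huw⟩).1))
    have h3 : (E u v).card ≤ i + 1 :=
      Finset.card_image_le.trans ((Finset.card_filter_le _ _).trans (by simp))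
    have h4 : (if 1 ≤ v then ({x u} : Finset L) else ∅).card ≤ 1 := by split_ifs <;> simp
    refine (Finset.card_union_le _ _).trans (add_le_add ((Finset.card_union_le _ _).trans
      (add_le_add ((Finset.card_union_le _ _).trans (add_le_add h1 h2)) h3)) h4)
  have Xadm : ∀ u w, S.R u w → ∀ v ≤ i, ∀ g ∈ X u v, ¬ g ≤ S.F (st * v) u := by
    intro u w huw v hv g hg
    obtain ⟨a1, a2, a3, a4, a5, a6, a7, a8, a9⟩ := hS u w huw
    simp only [X, Finset.mem_union] at hg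
    rcases hg with ((hg | hg) | hg) | hg
    · simpa using a7 v (by omega) g hg
    · simp only [Z, Finset.mem_image, Finset.mem_filter, Finset.mem_product,
        Set.Finite.mem_toFinset, Set.mem_ofPred_eq] at hg
      obtain ⟨⟨f, z⟩, ⟨⟨h1, h2⟩, h3⟩, rfl⟩ := hg
      have := (((hs u ⟨w, huw⟩).2.1 f h1).2.2 z h2).2.2.1 (P.p (S.F (st * v) u)) (by
        simp only [E, Finset.mem_image, Finset.mem_filter, Finset.mem_range]
        exact ⟨v, ⟨by omega, h3.imp_left Ne.symm⟩, rfl⟩)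
      rwa [P.invol] at this
    · simp only [E, Finset.mem_image, Finset.mem_filter, Finset.mem_range] at hg
      obtain ⟨t, ⟨h1, h2⟩, rfl⟩ := hg
      refine a2.2.2.1 _ (hlt v hv) _ (hlt t (by omega)) ?_
      by_cases e : t = v
      · subst e; exact Or.inr (by simpa using h2)
      · exact Or.inl fun e' => e (Nat.eq_of_mul_eq_mul_left hst e').symm
    · split_ifs at hg with h1
      · rw [Finset.mem_singleton.1 hg]; simpa using a8 v h1 (by omega)
      · simp at hg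
  let Bad0 : S.Ω → S.Ω → Prop := fun u w => ∃ g ∈ X u 0, S.π w ≤ P.p g
  let Bad1 : S.Ω → S.Ω → Prop := fun u w =>
    ∃ v : Fin i, ∃ g ∈ X u (v + 1), g ≤ S.F (st - 1 + st * v) w
  refine Col.union (R₁ := fun u w => S.R u w ∧ Bad0 u w) (R₂ := fun u w => S.R u w ∧ ¬ Bad0 u w)
    ?_ (Col.union (R₁ := fun u w => S.R u w ∧ Bad1 u w)
      (R₂ := fun u w => S.R u w ∧ ¬ Bad0 u w ∧ ¬ Bad1 u w) ?_ ?_
      (fun u w h => (Classical.em (Bad1 u w)).imp (fun h' => ⟨h.1, h'⟩) (fun h' => ⟨h.1, h.2, h'⟩)))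
    (fun u w h => (Classical.em (Bad0 u w)).imp (fun h' => ⟨h, h'⟩) (fun h' => ⟨h, h'⟩))
  · refine Col.select (fun u => X u 0) (fun u g w => S.π w ≤ P.p g)
      (fun u w h => ⟨Xcard u w h.1 0, h.2⟩) (fun g => ?_)
    refine inc H hV S 0 (by simpa using hlt 0 (by omega)) g _ (fun u w ⟨h1, h2, h3⟩ => ?_)
    exact ⟨h1.1, (hS u w h1.1).1, by simpa using Xadm u w h1.1 0 (by omega) _ h2, fun _ => h3,
      fun t e => by omega⟩
  · refine Col.iUnion (fun v u w => S.R u w ∧ ∃ g ∈ X u (v + 1), g ≤ S.F (st - 1 + st * v) w)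
      (fun v => ?_) (fun u w ⟨h1, v, h2⟩ => ⟨v, h1, h2⟩)
    refine Col.select (fun u => X u (v + 1)) (fun u g w => g ≤ S.F (st - 1 + st * v) w)
      (fun u w h => ⟨Xcard u w h.1 _, h.2⟩) (fun g => ?_)
    refine inc H hV S (st * (v + 1)) (hlt _ v.2) g _ (fun u w ⟨h1, h2, h3⟩ => ?_)
    have e0 : st * (v + 1) = st - 1 + st * v + 1 := by rw [mul_add, mul_one]; omega
    exact ⟨h1.1, (hS u w h1.1).1, Xadm u w h1.1 _ v.2 _ h2, fun e => by omega,
      fun t e => by rwa [show t = st - 1 + st * v by omega]⟩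
  · refine Col.line (H' V hV (S.line (fun u w => S.R u w ∧ ¬ Bad0 u w ∧ ¬ Bad1 u w)
      (fun u w h => h.1)) (fun e => S.π e.1.2)
      (fun e v => X e.1.1 (v + 1)) ?_)
    rintro ⟨⟨u, w⟩, huw, hb0, hb1⟩ ⟨⟨w', z⟩, hwz, -⟩ (rfl : w' = w)
    obtain ⟨b1, b2, -⟩ := hS w' z hwz
    refine ⟨b1, b2, S.mem _, b2.1, le_rfl, fun v => Xcard u w' huw _,
      fun v hv g hg h => hb1 ⟨⟨v, hv⟩, g, hg, h⟩, fun v h1 hv => b2.2.1 v h1 (by omega), ?_⟩
    rintro ⟨f, f1, f2⟩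
    have hall : ∀ l, l.length ≤ i → f l ≤ P.p (S.F (st * l.length) u) ∧
        ∀ g ∈ X u l.length, ¬ f l ≤ P.p g := by
      intro l hl
      cases hl' : l.length with
      | zero =>
        rw [List.length_eq_zero_iff.1 hl', f1]
        exact ⟨by simpa using S.s2 u w' huw, fun g hg h => hb0 ⟨g, hg, h⟩⟩
      | succ v =>
        have := f2.2.1 l v hl' hl
        refine ⟨this.1.trans (P.anti ?_), this.2⟩
        rw [show st * (v + 1) = st - 1 + st * v + 1 by rw [mul_add, mul_one]; omega]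
        exact S.s3 _ u w' huw
    refine (hs u ⟨w', huw⟩).2.2 f ⟨⟨w', huw, f1⟩, f2.mono fun _ _ _ _ => trivial, fun l hl => ?_⟩
      (fun g hg l l' h1 h2 h3 => (hall l' h2).2 _ ?_)
    · obtain ⟨h1, h2⟩ := hall l hl
      exact ⟨h1, fun g hg => h2 g (by simp [X, hg]), fun g hg => h2 g (by simp [X, hg]),
        fun h3 => h2 _ (by simp [X, h3])⟩
    · simp only [X, Finset.mem_union]
      refine Or.inl (Or.inl (Or.inr ?_))
      simp only [Z, Finset.mem_image, Finset.mem_filter, Finset.mem_product,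
        Set.Finite.mem_toFinset, Set.mem_ofPred_eq]
      exact ⟨(g, l), ⟨⟨hg, h1⟩, h3⟩, rfl⟩

lemma TB_all (H : IH P K h k a N (φ + 1) c) (hst : 1 ≤ st) (hN : st * h ≤ N) :
    ∀ i ≤ h, ∀ r < st, ∀ n, ∃ c', TB P K h k a N φ st τ i r n c' := by
  intro i
  induction i with
  | zero => exact fun _ r _ n => ⟨1, TB_zero r n⟩
  | succ i ih =>
    intro hi r
    induction r with
    | zero =>
      intro _ n
      obtain ⟨c', hc'⟩ := ih (by omega) (st - 1) (by omega) _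
      exact TB_branch H hst (by omega) hN hc'
    | succ r ihr =>
      intro hr n
      obtain ⟨c', hc'⟩ := ihr (by omega) n
      refine ⟨_, TB_step H (fun v hv => ?_) hc'⟩
      have : st * (v + 1) ≤ st * h := Nat.mul_le_mul_left _ (by omega)
      rw [mul_add, mul_one] at this
      omega

end Pool.Agent.H28.GS
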