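import Mathlib
import Pool.Agent.H28.GS3

namespace Pool.Agent.H28.GS

set_option linter.unusedVariables false

open Classical Pol

variable {L : Type} [Lattice L] [OrderBot L] {P : Pol L}

def BT (P : Pol L) (K h k a : ℕ) (Q : Set L → L → (ℕ → L) → Prop) : Prop :=
  ∃ c, ∀ V, Valid P K h k a V → ∀ S : Sys P V,
    (∀ u w, S.R u w → Q V (S.π u) (S.F · u)) → Col S.R c

def Thm (P : Pol L) (K h k a : ℕ) : Prop :=
  ∃ c, ∀ V, Valid P K h k a V → Col (fun x y => x ∈ V ∧ y ∈ V ∧ P.adj x y) c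

variable {K h k a N φ : ℕ}

lemma BT.mono {Q Q' : Set L → L → (ℕ → L) → Prop} (H : BT P K h k a Q)
    (hQ : ∀ V x F, Valid P K h k a V → x ≤ F 0 → Q' V x F → Q V x F) : BT P K h k a Q' :=
  let ⟨c, hc⟩ := H
  ⟨c, fun V hV S hS => hc V hV S fun u w huw => hQ _ _ _ hV (S.s1 u) (hS u w huw)⟩

lemma BT.or {Q Q' : Set L → L → (ℕ → L) → Prop} (H : BT P K h k a Q) (H' : BT P K h k a Q') :
    BT P K h k a (fun V x F => Q V x F ∨ Q' V x F) := by
  obtain ⟨c, hc⟩ := H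
  obtain ⟨c', hc'⟩ := H'
  refine ⟨c * c', fun V hV S hS => Col.union
    (hc V hV (S.sub (fun u w => S.R u w ∧ Q V (S.π u) (S.F · u)) fun _ _ h => h.1) fun _ _ h => h.2)
    (hc' V hV (S.sub (fun u w => S.R u w ∧ Q' V (S.π u) (S.F · u)) fun _ _ h => h.1) fun _ _ h => h.2)
    fun u w huw => (hS u w huw).imp (fun h => ⟨huw, h⟩) (fun h => ⟨huw, h⟩)⟩

lemma BT.ex {ι : Type} (s : Finset ι) (Q : ι → Set L → L → (ℕ → L) → Prop)
    (H : ∀ i ∈ s, BT P K h k a (Q i)) : BT P K h k a (fun V x F => ∃ i ∈ s, Q i V x F) := by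
  induction s using Finset.induction_on with
  | empty => exact ⟨1, fun V _ S hS => ⟨fun _ => 0, fun u w huw => by simpa using hS u w huw⟩⟩
  | insert i s _ ih =>
    refine ((H i (by simp)).or (ih fun j hj => H j (by simp [hj]))).mono fun V x F _ _ h => ?_
    simpa using h

lemma desc {V : Set L} (S : Sys P V) (Pa : ℕ → S.Ω) (n : ℕ) (hP : ∀ i < n, S.R (Pa i) (Pa (i + 1)))
    (s i j : ℕ) (hij : i + j ≤ n) : S.F (s + j) (Pa i) ≤ S.F s (Pa (i + j)) := by
  induction j generalizing s with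
  | zero => exact le_rfl
  | succ j ih =>
    rw [show s + (j + 1) = s + 1 + j by ring]
    exact (ih (s + 1) (by omega)).trans (S.s3 s _ _ (hP (i + j) (by omega)))

lemma desc_lab {V : Set L} (S : Sys P V) (Pa : ℕ → S.Ω) (n : ℕ)
    (hP : ∀ i < n, S.R (Pa i) (Pa (i + 1))) (i j : ℕ) (hij : i < j) (hj : j ≤ n) :
    P.lab (S.π (Pa j)) < P.lab (S.π (Pa i)) := by
  induction j, hij using Nat.le_induction with
  | base => exact S.s5 _ _ (hP i (by omega))
  | succ j hij ih => exact (S.s5 _ _ (hP j (by omega))).trans (ih (by omega))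

lemma H0 : BT P K h k a (fun V x F => P.rk (P.p (F 0)) ≤ a) := by
  refine ⟨2, fun V hV S hS => Col.func (fun u => P.lab (S.π u)) S.s5 fun u w w' h1 h2 => ?_⟩
  have : ∀ w, S.R u w → S.π w = P.p (S.F 0 u) := fun w hw => by
    by_contra hne
    have := P.rk_mono (lt_of_le_of_ne (S.s2 u w hw) hne)
    have : P.rk (P.p (S.F 0 u)) ≤ a := hS u w hw
    have := hV.rk _ (S.mem w)
    omega
  exact S.s4 u w w' h1 h2 (by rw [this w h1, this w' h2])

lemma H1 {c : ℕ} (H : IH P K h k a N (φ + 1) c) (hN : 0 < N) (M : ℕ) :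
    BT P K h k a (fun V x F => φ ≤ Phi P N F ∧ ¬ Gen M V (P.p (F 0))) := by
  have : Nonempty L := ⟨⊥⟩
  refine ⟨c ^ M, fun V hV S hS => ?_⟩
  have : ∀ u, ∃ G : Finset L, (∃ w, S.R u w) → G.card ≤ M ∧ (∀ g ∈ G, ¬ P.p (S.F 0 u) ≤ g) ∧
      ∀ x ∈ V, x ≤ P.p (S.F 0 u) → ∃ g ∈ G, x ≤ g := by
    intro u
    by_cases hu : ∃ w, S.R u w
    · obtain ⟨w, hw⟩ := hu
      have := (hS u w hw).2
      simp only [Gen, not_forall] at this
      obtain ⟨G, h1, h2, h3⟩ := this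
      refine ⟨G, fun _ => ⟨h1, h2, fun x hx hx' => ?_⟩⟩
      by_contra hn
      push Not at hn
      exact h3 ⟨x, hx, hx', hn⟩
    · exact ⟨∅, fun h => absurd h hu⟩
  choose G hG using this
  refine Col.select G (fun u g w => S.π w ≤ g) (fun u w huw => ⟨(hG u ⟨w, huw⟩).1,
    (hG u ⟨w, huw⟩).2.2 _ (S.mem w) (S.s2 u w huw)⟩) fun g => ?_
  refine inc H hV S 0 hN (fun u => P.p (g u)) _ fun u w ⟨h1, h2, h3⟩ => ⟨h1, (hS u w h1).1,
    fun h => (hG u ⟨w, h1⟩).2.1 _ h2 ?_, fun _ => by rwa [P.invol], fun t e => by omega⟩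
  have := P.anti h
  rwa [P.invol] at this

lemma H2 {M : ℕ} (T : Thm P K h k (a + 1)) (hM1 : 2 * k ≤ M)
    (hM2 : 2 * Fintype.card {w : List (Fin K) // w.length ≤ h} ≤ M) (s t : ℕ) (hst : s ≠ t) :
    BT P K h k a (fun V x F => (Gen M V (P.p (F 0)) ∧ a + 1 ≤ P.rk (P.p (F 0))) ∧
      P.p (F t) ≤ F s) := by
  obtain ⟨c, hc⟩ := T
  refine ⟨c * (s + t + 1 + 1), fun V hV S hS => ?_⟩
  obtain ⟨col, hcol⟩ := hc _ (hV.next hM1 hM2)
  refine Col.union (R₁ := fun u w => col (P.p (S.F 0 u)) ≠ col (P.p (S.F 0 w)))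
    (R₂ := fun u w => S.R u w ∧ col (P.p (S.F 0 u)) = col (P.p (S.F 0 w)))
    ⟨_, fun _ _ h => h⟩ (Col.nopath _ fun Pa hP => ?_)
    (fun u w h => (ne_or_eq _ _).imp id (fun h' => ⟨h, h'⟩))
  have hP' : ∀ i < s + t + 1, S.R (Pa i) (Pa (i + 1)) := fun i hi => (hP i hi).1
  have hc0 : ∀ i ≤ s + t + 1, col (P.p (S.F 0 (Pa i))) = col (P.p (S.F 0 (Pa 0))) := by
    intro i hi
    induction i with
    | zero => rfl
    | succ i ih => rw [← (hP i (by omega)).2, ih (by omega)]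
  have d1 := desc S Pa _ hP' 0 0 s (by omega)
  have d2 := desc S Pa _ hP' 0 0 t (by omega)
  simp only [zero_add] at d1 d2
  refine hcol _ _ ⟨(hS _ _ (hP' t (by omega))).1, (hS _ _ (hP' s (by omega))).1, ?_, fun hp => ?_⟩
    (by rw [hc0 t (by omega), hc0 s (by omega)])
  · rw [P.invol]
    exact (P.anti d2).trans ((hS _ _ (hP' 0 (by omega))).2.trans d1)
  · have := lab_par (hV.nz _ (S.mem _)) (hV.nz _ (S.mem _))
      (hp.mono (S.s2 _ _ (hP' t (by omega))) (S.s2 _ _ (hP' s (by omega))))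
    rcases lt_or_gt_of_ne hst with h | h
    · exact (desc_lab S Pa _ hP' (s + 1) (t + 1) (by omega) (by omega)).ne this
    · exact (desc_lab S Pa _ hP' (t + 1) (s + 1) (by omega) (by omega)).ne' this

lemma H3 (s : ℕ) : BT P K h k a (fun V x F => ∀ y ∈ V, ¬ y ≤ P.p (F s)) := by
  refine ⟨s + 1 + 1, fun V hV S hS => Col.nopath _ fun Pa hP => ?_⟩
  have d1 := desc S Pa _ hP 0 0 s (by omega)
  simp only [zero_add] at d1
  exact hS _ _ (hP 0 (by omega)) _ (S.mem _) ((S.s2 _ _ (hP s (by omega))).trans (P.anti d1))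

lemma H4 {c : ℕ} (H : IH P K h k a N (φ + 1) c) (τ : ℕ) (hτ : τ + 1 < N) :
    BT P K h k a (fun V x F => φ ≤ Phi P N F ∧ (∃ c ∈ P.C, P.p (F τ) ≤ c) ∧
      (¬ ∃ c ∈ P.C, P.p (F (τ + 1)) ≤ c) ∧ P.p (F (τ + 1)) ≤ F (τ + 1) ∧
      ∃ y ∈ V, y ≤ P.p (F τ)) := by
  have : Nonempty L := ⟨⊥⟩
  refine ⟨(2 + 1) * c ^ k, fun V hV S hS => ?_⟩
  refine Col.union (R₁ := fun u w => S.R u w ∧ ¬ ∃ z, S.R w z)
    (R₂ := fun u w => S.R u w ∧ ∃ z, S.R w z)
    (Col.nopath _ fun Pa hP => (hP 0 (by omega)).2 ⟨_, (hP 1 (by omega)).1⟩) ?_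
    (fun u w h => (Classical.em _).symm.imp (fun h' => ⟨h, h'⟩) (fun h' => ⟨h, h'⟩))
  have : ∀ u, ∃ A : Finset L, (∃ w, S.R u w) → A.card ≤ k ∧
      ∀ c ∈ P.C, ∀ x ∈ V, x ≤ P.p (S.F (τ + 1) u) → x ≤ c → c ∈ A := by
    intro u
    by_cases hu : ∃ w, S.R u w
    · obtain ⟨w, hw⟩ := hu
      obtain ⟨A, hA⟩ := dirs hV (P.p (S.F (τ + 1) u)) (by rw [P.invol]; exact (hS u w hw).2.2.2.1)
      exact ⟨A, fun _ => hA⟩
    · exact ⟨∅, fun h => absurd h hu⟩
  choose A hA using this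
  refine Col.select A (fun u g w => g ∈ P.C ∧ P.p (S.F τ w) ≤ g) (fun u w ⟨huw, z, hz⟩ =>
    ⟨(hA u ⟨w, huw⟩).1, ?_⟩) fun g => ?_
  · obtain ⟨-, ⟨c, h1, h2⟩, -, -, y, h3, h4⟩ := hS w z hz
    exact ⟨c, (hA u ⟨w, huw⟩).2 c h1 y h3 (h4.trans (P.anti (S.s3 τ u w huw))) (h4.trans h2), h1, h2⟩
  · refine inc H hV S (τ + 1) hτ (fun u => P.p (g u)) _ fun u w ⟨h1, h2, h3, h4⟩ =>
      ⟨h1.1, (hS u w h1.1).1, fun h => (hS u w h1.1).2.2.1 ⟨_, h3, ?_⟩, fun e => by omega,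
        fun t e => ?_⟩
    · have := P.anti h
      rwa [P.invol] at this
    · have := P.anti h4
      rw [P.invol] at this
      rwa [show t = τ by omega]

lemma H5 (τ s : ℕ) (hs : τ ≤ s) :
    BT P K h k a (fun V x F => ¬ P.p (F τ) ≤ F τ ∧ P.p (F s) ≤ F s) := by
  obtain ⟨j, rfl⟩ := Nat.exists_eq_add_of_le hs
  refine ⟨j + 1 + 1, fun V hV S hS => Col.nopath _ fun Pa hP => ?_⟩
  have d1 := desc S Pa _ hP τ 0 j (by omega)
  simp only [zero_add] at d1
  exact (hS _ _ (hP j (by omega))).1 ((P.anti d1).trans ((hS _ _ (hP 0 (by omega))).2.trans d1))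

lemma H6 {c : ℕ} (H : IH P K h k a N (φ + 1) c) (hN : 0 < N) (A : Finset ℕ)
    (hA : P.D + 2 ≤ A.card) :
    BT P K h k a (fun V x F => φ ≤ Phi P N F ∧ ∀ s ∈ A, x ≤ F s ∧ ¬ P.p (F (s + 1)) ≤ F 0) := by
  have : Nonempty L := ⟨⊥⟩
  set m := A.sup id + 1
  refine ⟨c ^ A.card * (m + 1 + 1), fun V hV S hS => ?_⟩
  refine Col.union (R₁ := fun u w => S.R u w ∧ ∃ s ∈ A, S.π w ≤ S.F (s + 1) u)
    (R₂ := fun u w => S.R u w ∧ ¬ ∃ s ∈ A, S.π w ≤ S.F (s + 1) u) ?_
    (Col.nopath _ fun Pa hP => ?_)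
    (fun u w h => (Classical.em _).imp (fun h' => ⟨h, h'⟩) (fun h' => ⟨h, h'⟩))
  · refine Col.select (fun _ => A) (fun u s w => S.π w ≤ S.F (s + 1) u)
      (fun u w h => ⟨le_rfl, h.2⟩) fun g => ?_
    exact inc H hV S 0 hN (fun u => P.p (S.F (g u + 1) u)) _ fun u w ⟨h1, h2, h3⟩ =>
      ⟨h1.1, (hS u w h1.1).1, ((hS u w h1.1).2 _ h2).2, fun _ => by rwa [P.invol],
        fun t e => by omega⟩
  · have key : ∀ i ≤ m, (A.filter fun s => m - i ≤ s).card ≤ P.rk (S.F (m - i) (Pa i)) := by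
      intro i hi
      induction i with
      | zero =>
        rw [Finset.card_eq_zero.2]
        · omega
        · rw [Finset.filter_eq_empty_iff]
          intro s hs
          have := Finset.le_sup (f := id) hs
          simp only [id] at this
          omega
      | succ i ih =>
        have ih' := ih (by omega)
        have e : m - i = m - (i + 1) + 1 := by omega
        have h1 := S.s3 (m - (i + 1)) _ _ (hP i (by omega)).1
        rw [e] at ih'
        by_cases hs : m - (i + 1) ∈ A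
        · have h2 : S.F (m - (i + 1) + 1) (Pa i) < S.F (m - (i + 1)) (Pa (i + 1)) :=
            lt_of_le_of_ne h1 fun e' => (hP i (by omega)).2 ⟨_, hs, by
              rw [e']; exact ((hS _ _ (hP (i + 1) (by omega)).1).2 _ hs).1⟩
          have h3 := P.rk_mono h2
          have h4 : (A.filter fun s => m - (i + 1) ≤ s) ⊆
              insert (m - (i + 1)) (A.filter fun s => m - (i + 1) + 1 ≤ s) := by
            intro s hs
            simp only [Finset.mem_filter, Finset.mem_insert] at hs ⊢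
            by_cases e : s = m - (i + 1)
            · exact Or.inl e
            · exact Or.inr ⟨hs.1, by omega⟩
          have := (Finset.card_le_card h4).trans (Finset.card_insert_le _ _)
          omega
        · have h4 : (A.filter fun s => m - (i + 1) ≤ s) ⊆
              (A.filter fun s => m - (i + 1) + 1 ≤ s) := by
            intro s hs'
            simp only [Finset.mem_filter] at hs' ⊢
            refine ⟨hs'.1, lt_of_le_of_ne hs'.2 fun e => hs (e ▸ hs'.1)⟩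
          exact (Finset.card_le_card h4).trans (ih'.trans (P.rk_mono.monotone h1))
    have := key m le_rfl
    have h2 := P.rk_le (S.F (m - m) (Pa m))
    simp only [Nat.sub_self, zero_le, Finset.filter_true] at this h2
    omega

lemma H7 {c : ℕ} (H : IH P K h k a N (φ + 1) c) (st τ : ℕ) (hst : 1 ≤ st) (hN : st * h ≤ N) :
    BT P K h k a (fun V x F => φ ≤ Phi P N F ∧ Own P h N st τ x F) := by
  obtain ⟨c', hc⟩ := TB_all (τ := τ) H hst hN h le_rfl (st - 1) (by omega) 0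
  refine ⟨c', fun V hV S hS => hc V hV S S.π (fun _ _ => ∅) fun u w huw => ?_⟩
  obtain ⟨h1, h2⟩ := hS u w huw
  exact ⟨h1, h2, S.mem u, h2.1, le_rfl, by simp, by simp, h2.2.1,
    fun ⟨f, _, hf⟩ => hV.tree ⟨f, hf.mono fun _ _ _ _ => trivial⟩⟩

lemma claim_step (hh : 1 ≤ h) (T : Thm P K h k (a + 1)) {c : ℕ}
    (H : IH P K h k a (h ^ (P.D + 1) + 1) (φ + 1) c) :
    ∃ c, IH P K h k a (h ^ (P.D + 1) + 1) φ c := by
  set N := h ^ (P.D + 1) + 1 with hN
  set M := 2 * k + 2 * Fintype.card {w : List (Fin K) // w.length ≤ h}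
  have hN0 : 0 < N := by omega
  have B2 := BT.ex ((Finset.range N ×ˢ Finset.range N).filter fun z => z.1 ≠ z.2) _
    (fun z hz => H2 (M := M) T (by omega) (by omega) z.1 z.2 (Finset.mem_filter.1 hz).2)
  have B3 := BT.ex (P := P) (K := K) (h := h) (k := k) (a := a) (Finset.range N) _ (fun s _ => H3 s)
  have B4 := BT.ex (Finset.range (N - 1)) _
    (fun τ hτ => H4 H τ (by have := Finset.mem_range.1 hτ; omega))
  have B5 := BT.ex (P := P) (K := K) (h := h) (k := k) (a := a)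
    ((Finset.range N ×ˢ Finset.range N).filter fun z => z.1 ≤ z.2) _
    (fun z hz => H5 z.1 z.2 (Finset.mem_filter.1 hz).2)
  have B6 := BT.ex ((Finset.range N).powerset.filter fun A => P.D + 2 ≤ A.card) _
    (fun A hA => H6 H hN0 A (Finset.mem_filter.1 hA).2)
  have B7 := BT.ex ((Finset.range (N + 1) ×ˢ Finset.range (N + 1)).filter
    fun z => 1 ≤ z.1 ∧ z.1 * h ≤ N) _
    (fun z hz => H7 H z.1 z.2 (Finset.mem_filter.1 hz).2.1 (Finset.mem_filter.1 hz).2.2)
  have B := (H0.or ((H1 H hN0 M).or (B2.or (B3.or (B4.or (B5.or (B6.or B7))))))).mono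
    (Q' := fun V x F => φ ≤ Phi P N F) ?_
  · obtain ⟨c', hc'⟩ := B
    exact ⟨c', fun V hV S hS => hc' V hV S hS⟩
  intro V x F hV hx hφ
  by_contra hcon
  simp only [not_or, not_exists, not_and, Finset.mem_filter, Finset.mem_product, Finset.mem_range,
    Finset.mem_powerset, Prod.forall, and_imp] at hcon
  obtain ⟨c0, c1, c2, c3, c4, c5, c6, c7⟩ := hcon
  have g1 : Gen M V (P.p (F 0)) := not_not.1 (c1 hφ)
  have g2 : a + 1 ≤ P.rk (P.p (F 0)) := by omega
  have O1 : ∀ s < N, ∀ t < N, s ≠ t → ¬ P.p (F t) ≤ F s := fun s hs t ht hst =>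
    c2 s t hs ht hst g1 g2
  have ex : ∃ τ, τ = N ∨ ¬ ∃ c ∈ P.C, P.p (F τ) ≤ c := ⟨N, Or.inl rfl⟩
  set τ := Nat.find ex
  have hτN : τ ≤ N := Nat.find_min' ex (Or.inl rfl)
  have dirn : ∀ s < τ, ∃ c ∈ P.C, P.p (F s) ≤ c := fun s hs => by
    have := Nat.find_min ex hs
    rw [not_or, not_not] at this
    exact this.2
  have O2 : ∀ s < N, τ ≤ s → ¬ P.p (F s) ≤ F s := by
    intro s hs hτs h1
    have h2 : ¬ ∃ c ∈ P.C, P.p (F τ) ≤ c := (Nat.find_spec ex).resolve_left (by omega)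
    have h3 : P.p (F τ) ≤ F τ := by
      by_contra h3
      exact c5 τ s (by omega) hs hτs h3 h1
    cases hτ : τ with
    | zero =>
      rw [hτ] at h2 h3
      obtain ⟨c, hc, h4, -⟩ := (hV.next (M := M) (by omega) (by omega)).irr _ ⟨g1, g2⟩
        (by rwa [P.invol])
      exact h2 ⟨c, hc, h4⟩
    | succ σ =>
      rw [hτ] at h2 h3
      have h4 := c3 σ (by omega)
      push Not at h4
      obtain ⟨y, h5, h6⟩ := h4
      exact c4 σ (by omega) hφ (dirn σ (by omega)) (fun c hc h => h2 ⟨c, hc, h⟩) h3 y h5 h6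
  rcases step_choice (fun s => x ≤ F s) h P.D hh hx with h1 | ⟨st, s1, s2, s3, s4⟩
  · refine c6 _ ((Finset.filter_subset _ _).trans (Finset.range_subset_range.2 (by omega))) h1 hφ
      fun s hs => ?_
    rw [Finset.mem_filter, Finset.mem_range] at hs
    exact ⟨hs.2, O1 0 hN0 (s + 1) (by omega) (by omega)⟩
  · have : st * 1 ≤ st * h := Nat.mul_le_mul_left _ hh
    refine c7 st τ (by omega) (by omega) s1 (by omega) hφ ⟨s3, s4, fun s hs t ht hst => ?_, dirn⟩
    by_cases e : s = t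
    · subst e; exact O2 s hs (by simpa using hst)
    · exact O1 s hs t ht e

lemma thm_step (hh : 1 ≤ h) (T : Thm P K h k (a + 1)) : Thm P K h k a := by
  set N := h ^ (P.D + 1) + 1 with hN
  have main : ∀ j, ∃ c, IH P K h k a N (N * P.D + 1 - j) c := by
    intro j
    induction j with
    | zero =>
      refine ⟨1, fun V _ S hS => ⟨fun _ => 0, fun u w huw => ?_⟩⟩
      have h1 := hS u w huw
      have h2 : Phi P N (S.F · u) ≤ N * P.D := by
        have := Finset.sum_le_card_nsmul (Finset.range N) (fun s => P.rk (S.F s u)) P.D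
          fun s _ => P.rk_le _
        simpa [Phi] using this
      omega
    | succ j ih =>
      obtain ⟨c, hc⟩ := ih
      by_cases e : N * P.D + 1 - j = N * P.D + 1 - (j + 1) + 1
      · rw [e] at hc; exact claim_step hh T hc
      · exact ⟨c, by rwa [show N * P.D + 1 - (j + 1) = N * P.D + 1 - j by omega]⟩
  obtain ⟨c, hc⟩ := main (N * P.D + 1)
  refine ⟨c + 1, fun V hV => ?_⟩
  obtain ⟨f, hf⟩ := hc V hV
    { Ω := V, R := fun x y => P.adj x y ∧ P.lab y < P.lab x, π := fun x => x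
      F := fun s x => if s = 0 then x else ⊥
      mem := fun x => x.2
      s1 := fun x => by simp
      s2 := fun x y h => by simpa using le_p h.1.1
      s3 := fun s x y h => by simp
      s4 := fun x y y' _ _ h => Subtype.ext h
      s5 := fun x y h => h.2 } (fun _ _ _ => by simp)
  refine ⟨fun x => if h : x ∈ V then (f ⟨x, h⟩).castSucc else 0, fun x y ⟨hx, hy, hxy⟩ => ?_⟩
  simp only [dif_pos hx, dif_pos hy, ne_eq, Fin.castSucc_inj]
  rcases lt_trichotomy (P.lab x) (P.lab y) with h | h | h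
  · exact fun e => hf ⟨y, hy⟩ ⟨x, hx⟩ ⟨hxy.symm, h⟩ e.symm
  · rcases lab_inj h with rfl | h
    · exact absurd (hV.irr _ hx hxy.1) hxy.2
    · exact absurd h hxy.2
  · exact hf ⟨x, hx⟩ ⟨y, hy⟩ ⟨hxy, h⟩

theorem thm (P : Pol L) (K h k : ℕ) (hh : 1 ≤ h) : Thm P K h k 0 := by
  have : ∀ j, Thm P K h k (P.D + 1 - j) := by
    intro j
    induction j with
    | zero =>
      refine ⟨1, fun V hV => ⟨fun _ => 0, fun x y h => ?_⟩⟩
      have := hV.rk x h.1
      have := P.rk_le x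
      omega
    | succ j ih =>
      by_cases e : P.D + 1 - j = P.D + 1 - (j + 1) + 1
      · rw [e] at ih; exact thm_step hh ih
      · rwa [show P.D + 1 - (j + 1) = P.D + 1 - j by omega]
  simpa using this (P.D + 1)

end Pool.Agent.H28.GS
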