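import Mathlib
import Pool.Agent.H28.GS4

namespace Pool.Agent.H28.GS

open Classical SimpleGraph

lemma forest_words {m : ℕ} (F : SimpleGraph (Fin m)) (hF : F.IsAcyclic) :
    ∃ wd : Fin m → List (Fin m), Function.Injective wd ∧ (∀ v, (wd v).length ≤ m) ∧
      ∀ u v, F.Adj u v ↔ (∃ j, wd v = wd u ++ [j]) ∨ ∃ j, wd u = wd v ++ [j] := by
  let r : Fin m → Fin m := fun v => (F.connectedComponentMk v).out
  have hr : ∀ v, F.Reachable (r v) v := fun v =>
    ConnectedComponent.eq.1 (Quot.out_eq (F.connectedComponentMk v))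
  let pth : ∀ a v : Fin m, F.Reachable a v → F.Path a v := fun a v h => h.some.toPath
  have tr : ∀ a a' v (e : a = a') h h', (pth a v h).1.support = (pth a' v h').1.support := by
    rintro _ _ _ rfl _ _; rfl
  have hl : ∀ v, (pth _ v (hr v)).1.support.getLast? = some v := fun v => by
    rw [List.getLast?_eq_some_getLast (Walk.support_ne_nil _)]; simp
  have key : ∀ u v j, (pth _ v (hr v)).1.support = (pth _ u (hr u)).1.support ++ [j] →
      F.Adj u v := by
    intro u v j e
    have h1 := (pth _ v (hr v)).1.isChain_adj_support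
    have h2 := hl v
    rw [e] at h1 h2
    simp only [List.getLast?_append, List.getLast?_singleton, Option.some_or,
      Option.some.injEq] at h2
    subst h2
    exact (List.isChain_append.1 h1).2.2 u (hl u) j (by simp)
  refine ⟨fun v => (pth _ v (hr v)).1.support, fun u v e => ?_, fun v => ?_, fun u v => ⟨fun h => ?_, ?_⟩⟩
  · have h1 := hl u
    simp only at e
    rw [e, hl v] at h1
    exact (Option.some.inj h1).symm
  · simpa using (pth _ v (hr v)).2.support_nodup.length_le_card
  · have e : r u = r v := by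
      simp only [r]; rw [ConnectedComponent.eq.2 h.reachable]
    have hv : F.Reachable (r u) v := e ▸ hr v
    simp only
    rw [← tr _ _ v e hv (hr v)]
    by_cases hu : u ∈ (pth _ v hv).1.support
    · left
      rw [hF.path_concat (pth _ u (hr u)).2 (pth _ v hv).2 h hu]
      exact ⟨v, by simp⟩
    · right
      have := hF.mem_support_of_ne_mem_support_of_adj_of_isPath (pth _ u (hr u)).2 (pth _ v hv).2 h hu
      rw [hF.path_concat (pth _ v hv).2 (pth _ u (hr u)).2 h.symm this]
      exact ⟨u, by simp⟩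
  · rintro (⟨j, e⟩ | ⟨j, e⟩)
    · exact key u v j e
    · exact (key v u j e).symm

lemma TrW.inj {L : Type} [Lattice L] [OrderBot L] {P : Pol L} {V : Set L} {K i : ℕ}
    {C : ℕ → L → Prop} {f : List (Fin K) → L} (H : TrW P V K i C f) (j : Fin K)
    {w w' : List (Fin K)} (hw : w.length < i) (hw' : w'.length < i) (e : f w = f w') : w = w' := by
  wlog h : w'.length ≤ w.length generalizing w w'
  · exact (this hw' hw e.symm (by omega)).symm
  have h1 := H.2.2.1 w j hw
  rw [e] at h1
  rcases H.2.2.2 _ _ hw'.le (by simp; omega) h1 with ⟨j', h2⟩ | ⟨j', h2⟩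
  · exact (List.append_inj' h2 rfl).1
  · have := congrArg List.length h2
    simp at this; omega

section
variable {U E : Type} [AddCommGroup E] [Module ℝ E] [FiniteDimensional ℝ E]
  {o q : U → U → Prop}

def flipC (osym : ∀ x y, o x y → o y x) (c : Concept U U o) : Concept U U o where
  extent := c.intent
  intent := c.extent
  upperPolar_extent := by
    rw [← c.lowerPolar_intent]; ext x
    exact ⟨fun h y hy => osym _ _ (h hy), fun h y hy => osym _ _ (h hy)⟩
  lowerPolar_intent := by
    rw [← c.upperPolar_extent]; ext x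
    exact ⟨fun h y hy => osym _ _ (h hy), fun h y hy => osym _ _ (h hy)⟩

noncomputable def conPol (osym : ∀ x y, o x y → o y x) (pl : U → E) (H : U → Submodule ℝ E)
    (ho : ∀ x y, o x y ↔ pl x ∈ H y) (qsym : ∀ x y, q x y → q y x)
    (qtr : ∀ x y z, q x y → q y z → q x z) : Pol (Concept U U o) where
  p := flipC osym
  anti := fun _ _ h => Concept.extent_subset_extent_iff.1 (Concept.intent_subset_intent_iff.2 h)
  invol := fun _ => rfl
  rk := fun c => Module.finrank ℝ (Submodule.span ℝ (pl '' c.extent))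
  rk_mono := by
    intro c d hcd
    have h1 : Submodule.span ℝ (pl '' c.extent) ≤ Submodule.span ℝ (pl '' d.extent) :=
      Submodule.span_mono (Set.image_mono (Concept.extent_subset_extent_iff.2 hcd.le))
    refine Submodule.finrank_lt_finrank_of_lt (lt_of_le_of_ne h1 fun e => hcd.not_ge ?_)
    refine Concept.extent_subset_extent_iff.1 fun z hz => ?_
    rw [← c.lowerPolar_intent]
    intro y hy
    have h2 : Submodule.span ℝ (pl '' c.extent) ≤ H y := by
      rw [Submodule.span_le]
      rintro _ ⟨u, hu, rfl⟩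
      exact (ho _ _).1 (Concept.rel_extent_intent hu hy)
    exact (ho _ _).2 (h2 (e ▸ Submodule.subset_span ⟨z, hz, rfl⟩))
  D := Module.finrank ℝ E
  rk_le := fun _ => Submodule.finrank_le _
  C := {c | ∃ x, c.extent = {z | q x z}}
  uniq := by
    rintro c ⟨a, ha⟩ c' ⟨b, hb⟩ x hx h1 h2
    obtain ⟨z, hz⟩ : x.extent.Nonempty := by
      rw [Set.nonempty_iff_ne_empty]
      intro e
      exact hx (le_bot_iff.1 (Concept.extent_subset_extent_iff.1 (e ▸ Set.empty_subset _)))
    have h3 : q a z := by have := Concept.extent_subset_extent_iff.2 h1 hz; rwa [ha] at this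
    have h4 : q b z := by have := Concept.extent_subset_extent_iff.2 h2 hz; rwa [hb] at this
    refine Concept.ext ?_
    rw [ha, hb]; ext w
    exact ⟨fun h => qtr _ _ _ h4 (qtr _ _ _ (qsym _ _ h3) h),
      fun h => qtr _ _ _ h3 (qtr _ _ _ (qsym _ _ h4) h)⟩

theorem gs_rel (osym : ∀ x y, o x y → o y x) (pl : U → E) (H : U → Submodule ℝ E)
    (ho : ∀ x y, o x y ↔ pl x ∈ H y) (qsym : ∀ x y, q x y → q y x)
    (qtr : ∀ x y z, q x y → q y z → q x z) (hoq : ∀ x, o x x → q x x)
    (qcl : ∀ x z, q x x → (∀ y, (∀ u, q x u → o u y) → o z y) → q x z) (hne : ∀ x, ∃ y, ¬ o x y)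
    {m : ℕ} (F : SimpleGraph (Fin m)) (hF : F.IsAcyclic) (k : ℕ) :
    ∃ c, ∀ (n : ℕ) (S : Fin n → U) (G : SimpleGraph (Fin n)),
      (∀ i j, G.Adj i j ↔ o (S i) (S j) ∧ ¬ q (S i) (S j)) →
      ¬ Nonempty (F ↪g G) → G.CliqueFree k → G.Colorable c := by
  set P := conPol osym pl H ho qsym qtr with hP
  have hle : ∀ x y, Concept.ofObject o x ≤ P.p (Concept.ofObject o y) ↔ o x y := by
    intro x y
    rw [Concept.ofObjects_le_iff, Set.singleton_subset_iff]
    change x ∈ upperPolar o {y} ↔ _
    rw [mem_upperPolar_singleton]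
    exact ⟨osym _ _, osym _ _⟩
  have hpar : ∀ x y, P.par (Concept.ofObject o x) (Concept.ofObject o y) ↔ q x y := by
    intro x y
    constructor
    · rintro ⟨c, ⟨a, ha⟩, h1, h2⟩
      rw [Concept.ofObjects_le_iff, Set.singleton_subset_iff, ha] at h1 h2
      exact qtr _ _ _ (qsym _ _ h1) h2
    · intro h
      have hx := qtr _ _ _ h (qsym _ _ h)
      have e : (Concept.ofObjects o {z | q x z}).extent = {z | q x z} := by
        refine Set.Subset.antisymm (fun z hz => qcl x z hx fun y hy => hz hy) ?_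
        exact subset_lowerPolar_upperPolar o _
      refine ⟨Concept.ofObjects o {z | q x z}, ⟨x, e⟩, ?_, ?_⟩ <;>
        rw [Concept.ofObjects_le_iff, Set.singleton_subset_iff, e]
      exacts [hx, h]
  have hadj : ∀ x y, P.adj (Concept.ofObject o x) (Concept.ofObject o y) ↔ o x y ∧ ¬ q x y :=
    fun x y => by rw [Pol.adj, hle, hpar]
  obtain ⟨c, hc⟩ := thm P m (m + 1) k (by omega)
  obtain ⟨wd, w1, w2, w3⟩ := forest_words F hF
  refine ⟨c, fun n S G hG hfree hcl => ?_⟩
  have hV : Valid P m (m + 1) k 0 (Set.range fun i => Concept.ofObject o (S i)) := by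
    refine ⟨fun _ _ => Nat.zero_le _, ?_, ?_, ?_, ?_⟩
    · rintro _ ⟨i, rfl⟩ e
      obtain ⟨y, hy⟩ := hne (S i)
      have : S i ∈ (⊥ : Concept U U o).extent := by
        rw [← Set.singleton_subset_iff, ← Concept.ofObjects_le_iff]; exact e.le
      exact hy (Concept.rel_extent_intent this (Set.mem_univ y))
    · rintro _ ⟨i, rfl⟩ h
      exact (hpar _ _).2 (hoq _ ((hle _ _).1 h))
    · rintro ⟨f, hf⟩
      choose g hg using fun v => hf.1 (wd v) ((w2 v).trans (Nat.le_succ m))
      refine hfree ⟨⟨⟨g, fun u v e => w1 (hf.inj u (Nat.lt_succ_of_le (w2 u))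
        (Nat.lt_succ_of_le (w2 v)) (by rw [← hg u, ← hg v, e]))⟩, fun {u v} => ?_⟩⟩
      simp only [Function.Embedding.coeFn_mk]
      rw [hG, ← hadj, w3]
      simp only at hg
      rw [hg, hg]
      refine ⟨hf.2.2.2 _ _ ((w2 u).trans (Nat.le_succ m)) ((w2 v).trans (Nat.le_succ m)), ?_⟩
      rintro (⟨j, e⟩ | ⟨j, e⟩)
      · rw [e]; exact hf.2.2.1 _ _ (Nat.lt_succ_of_le (w2 u))
      · rw [e]; exact (hf.2.2.1 _ _ (Nat.lt_succ_of_le (w2 v))).symm
    · rintro ⟨f, h1, h2⟩
      choose g hg using h1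
      simp only at hg
      have h3 : ∀ i j, i ≠ j → G.Adj (g i) (g j) := fun i j hij => by
        rw [hG, ← hadj, hg, hg]; exact h2 i j hij
      have h4 : Function.Injective g := fun i j e => by
        by_contra hij; exact (h3 i j hij).ne e
      refine hcl (Finset.univ.map ⟨g, h4⟩) ⟨?_, by simp⟩
      intro a ha b hb hab
      simp only [Finset.coe_map, Finset.coe_univ, Set.image_univ, Set.mem_range] at ha hb
      obtain ⟨i, rfl⟩ := ha
      obtain ⟨j, rfl⟩ := hb
      exact h3 i j fun e => hab (by rw [e])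
  obtain ⟨f, hf⟩ := hc _ hV
  exact ⟨Coloring.mk (fun i => f (Concept.ofObject o (S i))) fun {i j} h =>
    hf _ _ ⟨⟨i, rfl⟩, ⟨j, rfl⟩, (hadj _ _).2 ((hG _ _).1 h)⟩⟩

end

end Pool.Agent.H28.GS
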