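import Mathlib
import Pool.Agent.H28.GS5

namespace Pool.Agent.H28.GS

open Classical SimpleGraph

variable {ι : Type} [Fintype ι]

def det3 (a b c : ι → ℝ) (i j k : ι) : ℝ :=
  a i * (b j * c k - b k * c j) - a j * (b i * c k - b k * c i) + a k * (b i * c j - b j * c i)

abbrev Ln (ι : Type) := {x : (ι → ℝ) × (ι → ℝ) // x.2 ≠ 0}

def cop (x y : Ln ι) : Prop := ∀ i j k, det3 (x.1.1 - y.1.1) x.1.2 y.1.2 i j k = 0

def prl (x y : Ln ι) : Prop := ∀ i j, x.1.2 i * y.1.2 j = x.1.2 j * y.1.2 i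

omit [Fintype ι] in
lemma prl_iff (x y : Ln ι) : prl x y ↔ ∃ t : ℝ, x.1.2 = t • y.1.2 := by
  constructor
  · intro h
    obtain ⟨l, hl⟩ := Function.ne_iff.1 y.2
    have hl : y.1.2 l ≠ 0 := hl
    refine ⟨x.1.2 l / y.1.2 l, funext fun i => ?_⟩
    have := h i l
    simp only [Pi.smul_apply, smul_eq_mul]
    field_simp
    linarith
  · rintro ⟨t, h⟩ i j
    simp only [h, Pi.smul_apply, smul_eq_mul]; ring

omit [Fintype ι] in
lemma prl_cop {x y : Ln ι} (h : prl x y) : cop x y := fun i j k => by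
  simp only [det3]
  rw [h j k, h i k, h i j]; ring

omit [Fintype ι] in
lemma skew (h3 : ∀ i j : ι, ∃ k, k ≠ i ∧ k ≠ j) (z x : Ln ι) (h : ¬ prl z x) :
    ∃ y : Ln ι, y.1.2 = x.1.2 ∧ ¬ cop z y := by
  simp only [prl, not_forall] at h
  obtain ⟨i, j, h⟩ := h
  obtain ⟨k, h1, h2⟩ := h3 i j
  refine ⟨⟨(z.1.1 - Pi.single k 1, x.1.2), x.2⟩, rfl, fun H => h ?_⟩
  have := H i j k
  simp [det3, h1.symm, h2.symm] at this
  linarith

omit [Fintype ι] in
lemma meet_iff {x y : Ln ι} (h : ¬ prl x y) :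
    cop x y ↔ ∃ s t : ℝ, x.1.1 + s • x.1.2 = y.1.1 + t • y.1.2 := by
  constructor
  · intro H
    simp only [prl, not_forall] at h
    obtain ⟨i, j, h⟩ := h
    have h' : x.1.2 i * y.1.2 j - x.1.2 j * y.1.2 i ≠ 0 := sub_ne_zero.2 h
    refine ⟨((x.1.1 j - y.1.1 j) * y.1.2 i - (x.1.1 i - y.1.1 i) * y.1.2 j) /
        (x.1.2 i * y.1.2 j - x.1.2 j * y.1.2 i),
      ((x.1.1 j - y.1.1 j) * x.1.2 i - (x.1.1 i - y.1.1 i) * x.1.2 j) /
        (x.1.2 i * y.1.2 j - x.1.2 j * y.1.2 i), funext fun k => ?_⟩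
    have := H i j k
    simp only [det3, Pi.sub_apply] at this
    simp only [Pi.add_apply, Pi.smul_apply, smul_eq_mul]
    generalize x.1.2 i * y.1.2 j - x.1.2 j * y.1.2 i = D at *
    field_simp
    linear_combination this
  · rintro ⟨s, t, e⟩ i j k
    have e' : x.1.1 - y.1.1 = t • y.1.2 - s • x.1.2 := by
      rw [sub_eq_sub_iff_add_eq_add, e, add_comm]
    rw [e']
    simp only [det3, Pi.sub_apply, Pi.smul_apply, smul_eq_mul]; ring

def plH (y : Ln ι) : Submodule ℝ ((ι → ι → ℝ) × (ι → ℝ)) where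
  carrier := {z | ∀ i j k, (z.1 i j - z.1 j i) * y.1.2 k - (z.1 i k - z.1 k i) * y.1.2 j +
    (z.1 j k - z.1 k j) * y.1.2 i - det3 y.1.1 z.2 y.1.2 i j k = 0}
  add_mem' := fun {a b} ha hb i j k => by
    have h1 := ha i j k
    have h2 := hb i j k
    simp only [det3, Prod.fst_add, Prod.snd_add, Pi.add_apply] at *
    linear_combination h1 + h2
  zero_mem' := fun i j k => by simp [det3]
  smul_mem' := fun r a ha i j k => by
    have h1 := ha i j k
    simp only [det3, Prod.smul_fst, Prod.smul_snd, Pi.smul_apply, smul_eq_mul] at *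
    linear_combination r * h1

theorem gs_lines (h3 : ∀ i j : ι, ∃ k, k ≠ i ∧ k ≠ j)
    {m : ℕ} (F : SimpleGraph (Fin m)) (hF : F.IsAcyclic) (k : ℕ) :
    ∃ c, ∀ (n : ℕ) (S : Fin n → Ln ι) (G : SimpleGraph (Fin n)),
      (∀ i j, G.Adj i j ↔ cop (S i) (S j) ∧ ¬ prl (S i) (S j)) →
      ¬ Nonempty (F ↪g G) → G.CliqueFree k → G.Colorable c := by
  have qsym : ∀ x y : Ln ι, prl x y → prl y x := fun x y h i j => by linarith [h j i]
  have qtr : ∀ x y z : Ln ι, prl x y → prl y z → prl x z := fun x y z h1 h2 => by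
    obtain ⟨s, h1⟩ := (prl_iff _ _).1 h1
    obtain ⟨t, h2⟩ := (prl_iff _ _).1 h2
    exact (prl_iff _ _).2 ⟨s * t, by rw [h1, h2, mul_smul]⟩
  refine gs_rel (o := cop) (q := prl) (fun x y h i j k => ?_) (fun x => (fun i j => x.1.1 i * x.1.2 j, x.1.2)) plH
    (fun x y => forall₃_congr fun i j k => ?_) qsym qtr (fun x _ i j => mul_comm _ _)
    (fun x z _ h => ?_) (fun x => ?_) F hF k
  · have := h i j k
    simp only [det3, Pi.sub_apply] at *
    linear_combination this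
  · simp only [det3, Pi.sub_apply]
    constructor <;> intro h <;> linear_combination h
  · by_contra hc
    obtain ⟨y, h1, h2⟩ := skew h3 z x fun h' => hc (qsym _ _ h')
    refine h2 (h y fun u hu => prl_cop fun i j => ?_)
    rw [h1]; exact qsym _ _ hu i j
  · obtain ⟨i, hi⟩ := Function.ne_iff.1 x.2
    obtain ⟨j, hj, -⟩ := h3 i i
    obtain ⟨y, -, h2⟩ := skew h3 x ⟨(0, Pi.single j 1), fun e => by simpa using congrFun e j⟩
      fun h => hi (by simpa [hj.symm] using h i j)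
    exact ⟨y, h2⟩

end Pool.Agent.H28.GS
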