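import Mathlib

/-! Gammoids through digraph routings. -/

set_option autoImplicit false

namespace Pool.Agent.H28.Gam

/-- A path: a non-empty list of distinct vertices whose consecutive members are joined by arcs. -/
def IsPath (A : Finset (ℕ × ℕ)) (p : List ℕ) : Prop :=
  p ≠ [] ∧ p.Nodup ∧ p.IsChain fun a b => (a, b) ∈ A

/-- There is a routing from `X` to `T` in the digraph with vertex set `V` and arc set `A`. -/
def Routable (V : Finset ℕ) (A : Finset (ℕ × ℕ)) (X T : Finset ℕ) : Prop :=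
  ∃ R : Set (List ℕ), (∀ p ∈ R, IsPath A p ∧ (∀ v ∈ p, v ∈ V) ∧ ∃ t ∈ T, p.getLast? = some t) ∧
    (R.Pairwise List.Disjoint) ∧ ∀ x ∈ X, ∃ p ∈ R, p.head? = some x

/-- `((V, A), T, E)` is a representation of the set system on `E` with independent sets `I`. -/
def IsRep (E : Finset ℕ) (I : Set (Finset ℕ)) (V : Finset ℕ) (A : Finset (ℕ × ℕ))
    (T : Finset ℕ) : Prop :=
  A ⊆ V ×ˢ V ∧ E ⊆ V ∧ T ⊆ V ∧ I = {X | X ⊆ E ∧ Routable V A X T}

/-- A standard representation. -/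
def IsStdRep (E : Finset ℕ) (I : Set (Finset ℕ)) (V : Finset ℕ) (A : Finset (ℕ × ℕ))
    (T : Finset ℕ) : Prop :=
  IsRep E I V A T ∧ T ⊆ E ∧ (∀ a ∈ A, a.1 ∉ T) ∧ ∀ a ∈ A, a.2 ∉ E \ T

/-- Arc-complexity. -/
noncomputable def arcC (E : Finset ℕ) (I : Set (Finset ℕ)) : ℕ :=
  sInf {m | ∃ V A T, IsStdRep E I V A T ∧ A.card = m}

lemma Routable.card_le {V : Finset ℕ} {A : Finset (ℕ × ℕ)} {X T : Finset ℕ}
    (h : Routable V A X T) : X.card ≤ T.card := by
  obtain ⟨R, h1, h2, h3⟩ := h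
  choose! p hp hx using h3
  choose! t ht hl using fun p hp => (h1 p hp).2.2
  refine Finset.card_le_card_of_injOn (fun x => t (p x)) (fun x h => ht _ (hp x h)) fun x a y b e => ?_
  by_contra hne
  have : p x ≠ p y := fun e => hne (Option.some.inj ((hx x a).symm.trans (e ▸ hx y b)))
  exact h2 (hp x a) (hp y b) this (List.mem_of_getLast? (hl _ (hp x a)))
    (List.mem_of_getLast? ((hl _ (hp y b)).trans (congrArg some e.symm)))

lemma Routable.mono {V : Finset ℕ} {A : Finset (ℕ × ℕ)} {X Y T : Finset ℕ}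
    (h : Routable V A X T) (hY : Y ⊆ X) : Routable V A Y T :=
  let ⟨R, h1, h2, h3⟩ := h
  ⟨R, h1, h2, fun x hx => h3 x (hY hx)⟩

end Pool.Agent.H28.Gam
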