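import Pool.Agent.H38.NP.TG

/-!
Gaussian elimination over the field with two elements runs in polynomial time.
A row is a list of variable indices; variable `0` is the constant `1`.
-/

namespace Pool.Agent.H28.Gauss2

open Pool.Agent.H38.NP Finset

def nrm (N : ℕ) (l : List ℕ) : List ℕ := (List.range N).filter fun i => decide (l.count i % 2 = 1)

def step (N : ℕ) (E : List (List ℕ)) (i : ℕ) : List (List ℕ) :=
  E.map fun r => nrm N (r ++ cond (decide (r.count i % 2 = 1))
    ((E.find? fun p => decide (p.count i % 2 = 1)).getD []) [])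

def gauss (N : ℕ) (E : List (List ℕ)) : Bool :=
  ((List.range' 1 (N - 1)).foldl (step N) E).all fun r => decide (r.count 0 % 2 = 0)

def cf (r : List ℕ) (i : ℕ) : ZMod 2 := (r.count i : ZMod 2)

def Val (N : ℕ) (x : ℕ → ZMod 2) (r : List ℕ) : ZMod 2 := ∑ i ∈ range N, cf r i * x i

def Sol (N : ℕ) (E : List (List ℕ)) : Prop := ∃ x : ℕ → ZMod 2, x 0 = 1 ∧ ∀ r ∈ E, Val N x r = 0

theorem cf_one {r i} : cf r i = 1 ↔ r.count i % 2 = 1 := by
  unfold cf
  rw [ZMod.natCast_eq_one_iff_odd, Nat.odd_iff]

theorem cf_zero {r i} : cf r i = 0 ↔ r.count i % 2 = 0 := by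
  unfold cf
  rw [ZMod.natCast_eq_zero_iff_even, Nat.even_iff]

theorem cf_app (r p i) : cf (r ++ p) i = cf r i + cf p i := by simp [cf]

theorem cf_nil (i) : cf [] i = 0 := by simp [cf]

theorem cf_nrm (N l i) : cf (nrm N l) i = if i < N then cf l i else 0 := by
  have hn : (nrm N l).Nodup := List.nodup_range.filter _
  have hm : i ∈ nrm N l ↔ i < N ∧ l.count i % 2 = 1 := by simp [nrm]
  by_cases h : i ∈ nrm N l
  · rw [if_pos (hm.1 h).1, cf_one.2 (hm.1 h).2, cf, List.count_eq_one_of_mem hn h]; simp
  · rw [cf, List.count_eq_zero_of_not_mem h]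
    split_ifs with h1
    · have : l.count i % 2 = 0 := by
        have : ¬ l.count i % 2 = 1 := fun e => h (hm.2 ⟨h1, e⟩)
        omega
      rw [cf_zero.2 this]; simp
    · simp

theorem val_nrm (N x l) : Val N x (nrm N l) = Val N x l :=
  sum_congr rfl fun i hi => by rw [cf_nrm, if_pos (mem_range.1 hi)]

theorem val_app (N x r p) : Val N x (r ++ p) = Val N x r + Val N x p := by
  simp only [Val, cf_app, add_mul, sum_add_distrib]

theorem val_nil (N x) : Val N x [] = 0 := by simp [Val, cf_nil]

theorem val_eq {N x} {r : List ℕ} (h : ∀ i ∈ r, i < N) : Val N x r = (r.map x).sum := by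
  induction r with
  | nil => simp [val_nil]
  | cons a r ih =>
    rw [← List.singleton_append, val_app, ih fun i hi => h i (List.mem_cons_of_mem _ hi)]
    simp only [List.singleton_append, List.map_cons, List.sum_cons]
    congr 1
    rw [Val, sum_eq_single a]
    · simp [cf]
    · intro b _ hb
      simp [cf, hb.symm]
    · intro ha
      exact absurd (mem_range.2 (h a List.mem_cons_self)) ha

theorem val_upd {N i} (hi : i < N) (x : ℕ → ZMod 2) (c r) :
    Val N (Function.update x i (x i + c)) r = Val N x r + cf r i * c := by
  have : ∀ j, cf r j * Function.update x i (x i + c) j =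
      cf r j * x j + if j = i then cf r i * c else 0 := by
    intro j
    by_cases h : j = i
    · subst h; simp [mul_add]
    · simp [h]
  simp only [Val, this, sum_add_distrib, sum_ite_eq', mem_range, hi, if_true]

theorem z2 (a : ZMod 2) : a = 0 ∨ a = 1 := by revert a; decide

theorem sol_step {N i} (h0 : 0 < i) (hi : i < N) (E) : Sol N (step N E i) ↔ Sol N E := by
  constructor
  · rintro ⟨x, hx, h⟩
    simp only [step, List.forall_mem_map, val_nrm, val_app] at h
    rcases e : E.find? fun p => decide (p.count i % 2 = 1) with _ | p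
    · refine ⟨x, hx, fun r hr => ?_⟩
      have := h r hr
      rw [e] at this
      cases hh : decide (r.count i % 2 = 1) <;> simpa [hh, val_nil] using this
    · refine ⟨Function.update x i (x i + Val N x p), by rw [Function.update_of_ne h0.ne, hx],
        fun r hr => ?_⟩
      have := h r hr
      rw [e] at this
      rw [val_upd hi]
      rcases z2 (cf r i) with c | c
      · have c' := cf_zero.1 c
        simpa [c, c', val_nil] using this
      · have c' := cf_one.1 c
        simpa [c, c'] using this
  · rintro ⟨x, hx, h⟩
    refine ⟨x, hx, ?_⟩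
    simp only [step, List.forall_mem_map, val_nrm, val_app]
    intro r hr
    rw [h r hr, zero_add]
    cases decide (r.count i % 2 = 1)
    · exact val_nil _ _
    · rcases e : E.find? fun p => decide (p.count i % 2 = 1) with _ | p
      · rw [e]; exact val_nil _ _
      · rw [e]; exact h p (List.mem_of_find?_eq_some e)

theorem step_keep {N i j E} (h : ∀ r ∈ E, cf r j = 0) : ∀ r ∈ step N E i, cf r j = 0 := by
  simp only [step, List.forall_mem_map, cf_nrm, cf_app]
  intro r hr
  split_ifs
  · rw [h r hr, zero_add]
    cases decide (r.count i % 2 = 1)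
    · exact cf_nil _
    · rcases e : E.find? fun p => decide (p.count i % 2 = 1) with _ | p
      · rw [e]; exact cf_nil _
      · rw [e]; exact h p (List.mem_of_find?_eq_some e)
  · rfl

theorem step_kill {N i E} : ∀ r ∈ step N E i, cf r i = 0 := by
  simp only [step, List.forall_mem_map, cf_nrm, cf_app]
  intro r hr
  split_ifs
  · rcases z2 (cf r i) with c | c
    · have c' := cf_zero.1 c
      simp [c, c', cf_nil]
    · have c' := cf_one.1 c
      rcases e : E.find? fun p => decide (p.count i % 2 = 1) with _ | p
      · have := List.find?_eq_none.1 e r hr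
        simp [c'] at this
      · have := List.find?_some e
        simp only [decide_eq_true_eq] at this
        rw [e]
        simp only [c, c', decide_true, cond_true, Option.getD_some, cf_one.2 this]
        decide
  · rfl

theorem fold_spec (N : ℕ) (L : List ℕ) (hL : ∀ i ∈ L, 0 < i ∧ i < N) (E) :
    (Sol N (L.foldl (step N) E) ↔ Sol N E) ∧
      ∀ j, (j ∈ L ∨ ∀ r ∈ E, cf r j = 0) → ∀ r ∈ L.foldl (step N) E, cf r j = 0 := by
  induction L generalizing E with
  | nil => simp
  | cons i L ih =>
    obtain ⟨h1, h2⟩ := ih (fun j hj => hL j (List.mem_cons_of_mem _ hj)) (step N E i)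
    have := hL i List.mem_cons_self
    refine ⟨h1.trans (sol_step this.1 this.2 E), fun j hj => h2 j ?_⟩
    rcases hj with hj | hj
    · rcases List.mem_cons.1 hj with rfl | hj
      · exact Or.inr step_kill
      · exact Or.inl hj
    · exact Or.inr (step_keep hj)

theorem gauss_iff {N : ℕ} (hN : 0 < N) (E) : gauss N E = true ↔ Sol N E := by
  obtain ⟨h1, h2⟩ := fold_spec N (List.range' 1 (N - 1)) (by
    intro i hi; rw [List.mem_range'_1] at hi; omega) E
  rw [← h1, gauss]
  generalize List.foldl (step N) E (List.range' 1 (N - 1)) = F at h2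
  have e : ∀ x : ℕ → ZMod 2, ∀ r ∈ F, Val N x r = cf r 0 * x 0 := fun x r hr => by
    rw [Val, sum_eq_single 0]
    · intro b hb hb0
      rw [h2 b (Or.inl (by rw [List.mem_range'_1]; have := mem_range.1 hb; omega)) r hr, zero_mul]
    · intro h; exact absurd (mem_range.2 hN) h
  simp only [List.all_eq_true, decide_eq_true_eq, ← cf_zero]
  constructor
  · intro h
    exact ⟨fun _ => 1, rfl, fun r hr => by rw [e _ r hr, h r hr, zero_mul]⟩
  · rintro ⟨x, hx, h⟩ r hr
    have := h r hr
    rwa [e _ r hr, hx, mul_one] at this

theorem gauss_spec {N : ℕ} (hN : 0 < N) {E : List (List ℕ)} (hE : ∀ r ∈ E, ∀ i ∈ r, i < N) :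
    gauss N E = true ↔ ∃ x : ℕ → ZMod 2, x 0 = 1 ∧ ∀ r ∈ E, (r.map x).sum = 0 := by
  rw [gauss_iff hN]
  exact exists_congr fun x => and_congr Iff.rfl
    (forall₂_congr fun r hr => by rw [val_eq (hE r hr)])

theorem pt_gauss {α : Type} [Enc α] {N : α → ℕ} {E : α → List (List ℕ)} (hN : PT N) (hE : PT E) :
    PT fun a => gauss (N a) (E a) := by
  have hs : PT fun p : α × List (List ℕ) × ℕ => step (N p.1) p.2.1 p.2.2 := by
    unfold step nrm; fun_prop
  have hr : PT fun a => List.range (N a) := by fun_prop
  have := PT.foldl (f := fun a => step (N a)) hs (l := fun a => List.range' 1 (N a - 1))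
    (by fun_prop) hE (B := fun a => sz (E a) + (E a).length * (2 * sz (List.range (N a)) + 1))
    (hE.pb.add (hE.length.nat_pb.mul (((PB.const 2).mul hr.pb).add (PB.const 1)))) fun a k => by
      generalize (List.range' 1 (N a - 1)).take k = L
      have : ∀ F : List (List ℕ), F.length = (E a).length →
          sz F ≤ sz (E a) + (E a).length * (2 * sz (List.range (N a)) + 1) →
          sz (L.foldl (step (N a)) F) ≤
            sz (E a) + (E a).length * (2 * sz (List.range (N a)) + 1) := by
        induction L with
        | nil => exact fun F _ h => h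
        | cons i L ih =>
          intro F h1 _
          refine ih (step (N a) F i) (by simp [step, h1]) ?_
          have := sz_le_of_forall (l := step (N a) F i) (B := sz (List.range (N a))) (by
            simp only [step, List.forall_mem_map]
            exact fun r _ => sz_le_of_sublist List.filter_sublist)
          have e : (step (N a) F i).length = (E a).length := by simp [step, h1]
          rw [e] at this
          omega
      exact this _ rfl (Nat.le_add_right _ _)
  unfold gauss
  fun_prop

end Pool.Agent.H28.Gauss2
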