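import Mathlib

set_option autoImplicit false

namespace Pool.Agent.H28.Ing

open Matrix

variable {R : Type} [Ring R]

/-- Scaled Leavitt relations. -/
structure Lv (s t s' t' d : R) : Prop where
  ss : s' * s = d
  tt : t' * t = d
  st : s' * t = 0
  ts : t' * s = 0
  sum : s * s' + t * t' = d
  cen : ∀ x, d * x = x * d

def La (s t s' t' : R) : Matrix (Fin 10) (Fin 10) R :=
  !![1,0,0,0,0,1,0,0,0,0; 0,1,0,0,0,0,1,0,0,0; 0,0,0,0,0,s,t,0,0,1; 0,0,0,0,0,0,0,1,0,0;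
    0,0,0,0,0,0,0,0,1,0; 0,0,0,0,0,0,0,1,0,s'; 0,0,0,0,0,0,0,0,1,t'; 0,0,1,0,0,0,0,0,0,1;
    0,0,0,1,0,0,0,1,0,0; 0,0,0,0,1,0,0,0,1,0]

def Th (s t s' t' d : R) : Matrix (Fin 10) (Fin 10) R :=
  !![d,0,-s',-1,0,1,0,0,0,0; 0,d,-t',0,-1,0,1,0,0,0; 0,0,0,s,t,-s,-t,d,0,0;
    0,0,0,-d,0,0,0,0,d,0; 0,0,0,0,-d,0,0,0,0,d; 0,0,s',1,0,-1,0,0,0,0; 0,0,t',0,1,0,-1,0,0,0;
    0,0,0,d,0,0,0,0,0,0; 0,0,0,0,d,0,0,0,0,0; 0,0,0,-s,-t,s,t,0,0,0]

variable {s t s' t' d : R}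

theorem La_Th (h : Lv s t s' t' d) : La s t s' t' * Th s t s' t' d = diagonal fun _ => d := by
  ext i j
  fin_cases i <;> fin_cases j <;>
    simp [La, Th, Matrix.mul_apply, Fin.sum_univ_succ, h.ss, h.tt, h.st, h.ts, h.sum]

theorem Th_La (h : Lv s t s' t' d) : Th s t s' t' d * La s t s' t' = diagonal fun _ => d := by
  ext i j
  fin_cases i <;> fin_cases j <;>
    simp [La, Th, Matrix.mul_apply, Fin.sum_univ_succ, h.ss, h.tt, h.st, h.ts, h.sum]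
  all_goals
    rw [← h.sum]; abel

theorem La_map {S : Type} [Ring S] (f : R →+* S) (s t s' t' : R) (i j : Fin 10) :
    f (La s t s' t' i j) = La (f s) (f t) (f s') (f t') i j := by
  fin_cases i <;> fin_cases j <;> simp [La]

theorem Th_map {S : Type} [Ring S] (f : R →+* S) (s t s' t' d : R) (i j : Fin 10) :
    f (Th s t s' t' d i j) = Th (f s) (f t) (f s') (f t') (f d) i j := by
  fin_cases i <;> fin_cases j <;> simp [Th]

theorem Lv.map {S : Type} [Ring S] (f : R →+* S) (h : Lv s t s' t' d)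
    (hc : ∀ x, f d * x = x * f d) : Lv (f s) (f t) (f s') (f t') (f d) :=
  ⟨by rw [← map_mul, h.ss], by rw [← map_mul, h.tt], by rw [← map_mul, h.st, map_zero],
    by rw [← map_mul, h.ts, map_zero], by rw [← map_mul, ← map_mul, ← map_add, h.sum], hc⟩

end Pool.Agent.H28.Ing
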