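import Pool.Agent.H28.Ing1

set_option autoImplicit false

namespace Pool.Agent.H28.Ing

open Matrix PowerSeries

section PS

variable {L : Type} [Ring L] {n : ℕ}

/-- Power series of matrices as matrices of power series. -/
noncomputable def toMat :
    PowerSeries (Matrix (Fin n) (Fin n) L) →+* Matrix (Fin n) (Fin n) (PowerSeries L) where
  toFun f := Matrix.of fun i j => PowerSeries.mk fun k => coeff k f i j
  map_one' := by
    ext i j k
    simp only [of_apply, coeff_mk, coeff_one, one_apply]
    split_ifs <;> simp_all [one_apply]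
  map_mul' f g := by
    ext i j k
    simp only [of_apply, coeff_mk, coeff_mul, Matrix.mul_apply, map_sum, Matrix.sum_apply]
    exact Finset.sum_comm
  map_zero' := by
    ext i j k
    simp
  map_add' f g := by
    ext i j k
    simp

theorem isUnit_of_const (B : Matrix (Fin n) (Fin n) (PowerSeries L))
    (h : IsUnit (B.map (constantCoeff (R := L)))) : IsUnit B := by
  have hB : B = toMat (PowerSeries.mk fun k => Matrix.of fun i j => coeff k (B i j)) := by
    ext i j k
    simp [toMat]
  rw [hB]
  apply IsUnit.map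
  rw [PowerSeries.isUnit_iff_constantCoeff]
  convert h using 1
  ext i j
  rw [← coeff_zero_eq_constantCoeff_apply, coeff_mk, Matrix.map_apply,
    ← coeff_zero_eq_constantCoeff_apply, of_apply]

end PS

/-- The coefficient ring. -/
abbrev LL : Type := Module.End ℚ (ℕ → ℚ)

/-- Restriction to one residue class. -/
def dn (r : ℕ) : LL := LinearMap.funLeft ℚ ℚ fun n => 2 * n + r

/-- Extension by zero from one residue class. -/
def up (r : ℕ) : LL where
  toFun f n := if n % 2 = r then f (n / 2) else 0
  map_add' f g := by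
    ext n
    simp only [Pi.add_apply]
    split_ifs <;> simp
  map_smul' c f := by
    ext n
    simp only [Pi.smul_apply, RingHom.id_apply]
    split_ifs <;> simp

theorem dn_up00 : dn 0 * up 0 = 1 := by
  ext f n
  simp [dn, up, LinearMap.funLeft]

theorem dn_up11 : dn 1 * up 1 = 1 := by
  refine LinearMap.ext fun f => funext fun n => ?_
  have h1 : (2 * n + 1) % 2 = 1 := by omega
  have h2 : (2 * n + 1) / 2 = n := by omega
  simp [dn, up, LinearMap.funLeft, h1, h2]

theorem dn_up01 : dn 0 * up 1 = 0 := by
  refine LinearMap.ext fun f => funext fun n => ?_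
  simp [dn, up, LinearMap.funLeft]

theorem dn_up10 : dn 1 * up 0 = 0 := by
  refine LinearMap.ext fun f => funext fun n => ?_
  simp [dn, up, LinearMap.funLeft]

theorem up_dn : up 0 * dn 0 + up 1 * dn 1 = 1 := by
  refine LinearMap.ext fun f => funext fun n => ?_
  rcases Nat.mod_two_eq_zero_or_one n with h | h
  · have h2 : 2 * (n / 2) = n := by omega
    simp [dn, up, LinearMap.funLeft, h, h2]
  · have h2 : 2 * (n / 2) + 1 = n := by omega
    simp [dn, up, LinearMap.funLeft, h, h2]

/-- What the construction needs from the rings. -/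
structure Setup {R0 L R : Type} [Ring R0] [Ring L] [Ring R] (ι : R0 →+* R) (π : R0 →+* L)
    (s t s' t' d : R0) : Prop where
  lv : Lv (ι s) (ι t) (ι s') (ι t') (ι d)
  unit : IsUnit (ι d)
  hs : π s = 0
  ht : π t = 0
  hs' : π s' = 0
  ht' : π t' = 0
  hd : π d = 0
  near : ∀ (n : ℕ) (B : Matrix (Fin n) (Fin n) R0) (C : Matrix (Fin n) (Fin n) ℤ), C.det ≠ 0 →
    B.map π = C.map (Int.castRingHom L) → IsUnit B

theorem XC_mul (a b : LL) : (X * C a) * (X * C b) = (X * X) * C (a * b) := by
  rw [map_mul, mul_assoc, ← mul_assoc (C a), ← (commute_X (C a)).eq.symm]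
  simp only [mul_assoc]

theorem setup : Setup (R := HahnSeries ℤ LL) (HahnSeries.ofPowerSeries ℤ LL) (constantCoeff (R := LL))
    (X * C (up 0)) (X * C (up 1)) (X * C (dn 0)) (X * C (dn 1)) (X * X) := by
  have hX : HahnSeries.ofPowerSeries ℤ LL (X * X) = HahnSeries.single 2 1 := by
    rw [map_mul, HahnSeries.ofPowerSeries_X, HahnSeries.single_mul_single]
    norm_num
  refine ⟨Lv.map _ ⟨?_, ?_, ?_, ?_, ?_, ?_⟩ ?_, ?_, by simp, by simp, by simp, by simp, by simp, ?_⟩
  · rw [XC_mul, dn_up00]; simp
  · rw [XC_mul, dn_up11]; simp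
  · rw [XC_mul, dn_up01]; simp
  · rw [XC_mul, dn_up10]; simp
  · rw [XC_mul, XC_mul, ← mul_add, ← map_add, up_dn]; simp
  · intro x
    exact ((commute_X x).symm.mul_left (commute_X x).symm).eq
  · intro x
    rw [hX]
    ext k
    rw [HahnSeries.coeff_single_mul, HahnSeries.coeff_mul_single]
    simp
  · rw [hX]
    refine ⟨⟨HahnSeries.single 2 1, HahnSeries.single (-2) 1, ?_, ?_⟩, rfl⟩ <;>
      rw [HahnSeries.single_mul_single] <;> simp
  · intro n B C hC hB
    apply isUnit_of_const
    rw [hB]
    have h1 : IsUnit (C.map (Int.castRingHom ℚ)) := by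
      rw [Matrix.isUnit_iff_isUnit_det, isUnit_iff_ne_zero]
      have := (Int.castRingHom ℚ).map_det C
      rw [RingHom.mapMatrix_apply] at this
      rw [← this]
      simpa using hC
    have h2 := h1.map (algebraMap ℚ LL).mapMatrix
    convert h2 using 1
    ext i j
    simp

end Pool.Agent.H28.Ing
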