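import Pool.Agent.H28.Ing2

set_option autoImplicit false

namespace Pool.Agent.H28.Ing

open Matrix

/-- Properties of integer points holding off a hypersurface. -/
def Gen {σ : Type} (P : (σ → ℤ) → Prop) : Prop :=
  ∃ p : MvPolynomial σ ℤ, p ≠ 0 ∧ ∀ g, MvPolynomial.eval g p ≠ 0 → P g

theorem Gen.exists {σ : Type} {P : (σ → ℤ) → Prop} (h : Gen P) : ∃ g, P g := by
  obtain ⟨p, hp, h⟩ := h
  by_contra hn
  push Not at hn
  apply hp
  apply MvPolynomial.funext
  intro g
  by_contra hg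
  exact hn g (h g (by simpa using hg))

theorem Gen.and {σ : Type} {P Q : (σ → ℤ) → Prop} (h : Gen P) (h' : Gen Q) :
    Gen fun g => P g ∧ Q g := by
  obtain ⟨p, hp, h⟩ := h
  obtain ⟨q, hq, h'⟩ := h'
  refine ⟨p * q, mul_ne_zero hp hq, fun g hg => ?_⟩
  rw [map_mul, mul_ne_zero_iff] at hg
  exact ⟨h g hg.1, h' g hg.2⟩

theorem Gen.all {σ ι : Type} [Fintype ι] {P : ι → (σ → ℤ) → Prop} (h : ∀ i, Gen (P i)) :
    Gen fun g => ∀ i, P i g := by
  choose p hp h using h
  refine ⟨∏ i, p i, Finset.prod_ne_zero_iff.2 fun i _ => hp i, fun g hg i => h i g ?_⟩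
  rw [map_prod, Finset.prod_ne_zero_iff] at hg
  exact hg i (Finset.mem_univ i)

theorem Gen.imp {σ : Type} {H : Prop} {P : (σ → ℤ) → Prop} (h : H → Gen P) :
    Gen fun g => H → P g := by
  by_cases hH : H
  · obtain ⟨p, hp, h⟩ := h hH
    exact ⟨p, hp, fun g hg _ => h g hg⟩
  · exact ⟨1, one_ne_zero, fun g _ h => absurd h hH⟩

abbrev EE : Type := Fin 4 × Fin 5

variable {R : Type} [Ring R]

/-- Columns: combinations of the frame of the class of the element. -/
def Mx {m : ℕ} (F : Fin 4 → Fin 5 → Fin m → R) (g : EE × Fin 5 → R) : Matrix (Fin m) EE R :=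
  Matrix.of fun i e => ∑ j, F e.1 j i * g (e, j)

theorem gen_det {m : ℕ} (F : Fin 4 → Fin 5 → Fin m → ℤ) (c : Fin m → EE)
    (hc : Function.Injective c) (σ : Fin m → Fin 5)
    (h : (Matrix.of fun i k => F (c k).1 (σ k) i).det ≠ 0) :
    Gen fun g => ((Mx F g).submatrix id c).det ≠ 0 := by
  classical
  let P : Matrix (Fin m) (Fin m) (MvPolynomial (EE × Fin 5) ℤ) :=
    (Mx (fun a j i => MvPolynomial.C (F a j i)) MvPolynomial.X).submatrix id c
  have hP : ∀ g, MvPolynomial.eval g P.det = ((Mx F g).submatrix id c).det := by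
    intro g
    rw [RingHom.map_det]
    congr 1
    ext i k
    simp [P, Mx]
  refine ⟨P.det, fun h0 => h ?_, fun g hg => by rwa [hP] at hg⟩
  have := hP fun q => if ∃ k, c k = q.1 ∧ σ k = q.2 then 1 else 0
  rw [h0, map_zero] at this
  rw [this]
  congr 1
  ext i k
  simp only [Mx, submatrix_apply, id, of_apply]
  rw [Finset.sum_eq_single (σ k)]
  · rw [if_pos ⟨k, rfl, rfl⟩, mul_one]
  · intro j _ hj
    rw [if_neg, mul_zero]
    rintro ⟨k', h1, h2⟩
    exact hj (by rw [← h2, hc h1])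
  · simp

theorem Setup.isUnit {R0 L : Type} [Ring R0] [Ring L] {ι : R0 →+* R} {π : R0 →+* L}
    {s t s' t' d : R0} (h : Setup ι π s t s' t' d) {m : ℕ} (F : Fin 4 → Fin 5 → Fin m → R0)
    (F0 : Fin 4 → Fin 5 → Fin m → ℤ) (hF : ∀ a j i, π (F a j i) = F0 a j i) (g : EE × Fin 5 → ℤ)
    (c : Fin m → EE) (hd : ((Mx F0 g).submatrix id c).det ≠ 0) :
    IsUnit ((Mx (fun a j i => ι (F a j i)) fun q => (g q : R)).submatrix id c) := by
  have h1 := h.near m ((Mx F fun q => (g q : R0)).submatrix id c) _ hd (by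
    ext i k
    simp [Mx, hF])
  have h2 := h1.map ι.mapMatrix
  convert h2 using 1
  ext i k
  simp [Mx]

def iw : Fin 5 → Fin 10 := ![0, 1, 2, 3, 4]
def ix : Fin 5 → Fin 10 := ![0, 1, 2, 5, 6]
def iz : Fin 5 → Fin 10 := ![5, 6, 7, 8, 9]

/-- The frames of the four classes. -/
def Fr (s t s' t' : R) (a : Fin 4) (j : Fin 5) (i : Fin 10) : R :=
  ![(1 : Matrix (Fin 10) (Fin 10) R) i (iw j), (1 : Matrix (Fin 10) (Fin 10) R) i (ix j),
    La s t s' t' i (iw j), La s t s' t' i (iz j)] a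

/-- The frames in the second chart. -/
def Fq (s t s' t' d : R) (a : Fin 4) (j : Fin 5) (i : Fin 10) : R :=
  ![Th s t s' t' d i (iw j), Th s t s' t' d i (ix j),
    (1 : Matrix (Fin 10) (Fin 10) R) i (iw j), (1 : Matrix (Fin 10) (Fin 10) R) i (iz j)] a

theorem one_map {S : Type} [Ring S] (f : R →+* S) (i j : Fin 10) :
    f ((1 : Matrix (Fin 10) (Fin 10) R) i j) = (1 : Matrix (Fin 10) (Fin 10) S) i j := by
  simp only [one_apply]
  split_ifs <;> simp

theorem Fr_map {S : Type} [Ring S] (f : R →+* S) (s t s' t' : R) (a : Fin 4) (j : Fin 5)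
    (i : Fin 10) : f (Fr s t s' t' a j i) = Fr (f s) (f t) (f s') (f t') a j i := by
  fin_cases a <;> simp only [Fr] <;> simp [one_map, La_map]

theorem Fq_map {S : Type} [Ring S] (f : R →+* S) (s t s' t' d : R) (a : Fin 4) (j : Fin 5)
    (i : Fin 10) : f (Fq s t s' t' d a j i) = Fq (f s) (f t) (f s') (f t') (f d) a j i := by
  fin_cases a <;> simp only [Fq] <;> simp [one_map, Th_map]

theorem La_Fq {s t s' t' d : R} (h : Lv s t s' t' d) (a : Fin 4) (j : Fin 5) (i : Fin 10) :
    ∑ l, La s t s' t' i l * Fq s t s' t' d a j l = Fr s t s' t' a j i * ![d, d, 1, 1] a := by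
  have h1 := fun k => congrFun (congrFun (La_Th h) i) k
  have h2 := fun k => congrFun (congrFun (Matrix.mul_one (La s t s' t')) i) k
  simp only [Matrix.mul_apply] at h1 h2
  fin_cases a
  · simp only [Fq, Fr, Fin.zero_eta, cons_val_zero, h1, diagonal_apply, one_apply]
    split_ifs <;> simp
  · simp only [Fq, Fr, Fin.mk_one, cons_val_one, cons_val_zero, h1, diagonal_apply, one_apply]
    split_ifs <;> simp
  · simpa [Fq, Fr] using h2 (iw j)
  · simpa [Fq, Fr] using h2 (iz j)

def tabB : List ℕ := [0, 0, 0, 0, 0, 5417839335179, 0, 0, 0, 0, 4393839335179, 5956763335179, 0, 0, 0, 8115066957074, 5555066957074, 5427066957074, 0, 0, 8112539195074, 2995066957074, 2867066957074, 5411706957074, 0, 0, 2992539195074, 2739066957074, 2851706957074, 0, 0, 0, 2736539195074, 2723706957074, 0, 0, 0, 0, 0, 0, 1833839335179, 5956747335179, 0, 0, 0, 8115126957074, 5555126957074, 5427126957074, 0, 0, 8112539193074, 435066957074, 307066957074, 5405306957074, 0, 8113278057374, 432539195074,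 179066957074, 291706957074, 5410810957074, 0, 2993278057374, 176539195074, 163706957074, 2850810957074, 0, 0, 2737278057374, 2723742857374, 2722810957074, 0, 0, 0, 0, 0, 8115020517074, 5555020517074, 5427020517074, 0, 0, 8113739193074, 435126957074, 307126957074, 5405366957074, 0, 8113277257374, 432539193074, 51066957074, 285306957074, 5404410957074, 8114422951289, 433278057374, 48539195074, 35706957074, 290810957074, 5410766157074, 2994422951289, 177278057374, 163742857374, 162810957074, 2850766157074, 0, 2738422951289, 2723382951289, 2722779631289, 2722766157074, 0, 0, 0, 0, 8111610393074, 435020517074, 307020517074, 5405260517074, 0, 8112957257374, 433739193074, 51126957074, 285366957074, 5404380517074, 8114102951289, 433277257374, 48539193074, 29306957074, 284410957074, 5404366157074, 434422951289, 49278057374, 35742857374, 34810957074, 290766157074, 0, 178422951289, 163382951289, 162779631289, 162766157074, 0, 0, 0, 0, 0, 0, 0, 0, 0, 0, 431610393074, 51020517074,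 285260517074, 0, 0, 432957257374, 49739193074, 29366957074, 284380517074, 0, 434102951289, 49277257374, 29342857374, 28410957074, 284366157074, 0, 50422951289, 35382951289, 34779631289, 34766157074, 0, 0, 0, 0, 0, 0, 0, 0, 0, 0, 0, 0, 0, 0, 0, 0, 47610393074, 29260517074, 0, 0, 0, 48957257374, 29326857374, 28380517074, 0, 0, 50102951289, 28982951289, 28379631289, 28366157074, 0, 0, 0, 0, 0, 0, 0, 0, 0, 0, 0, 0, 0, 0, 0, 0, 0, 0, 0, 0]
def tabR : List ℕ := [0, 0, 0, 0, 0, 123456789, 0, 0, 0, 0, 123456789, 1234506789, 0, 0, 0, 123456789, 123456789, 123456789, 0, 0, 134567289, 123456789, 123456789, 123456789, 0, 0, 134567289, 123456789, 123456789, 0, 0, 0, 134567289, 123456789, 0, 0, 0, 0, 0, 0, 123456789, 1234506789, 0, 0, 0, 124536789, 124536789, 124536789, 0, 0, 134567289, 123456789, 123456789, 123456789, 0, 146728359, 134567289, 123456789, 123456789, 123456789, 0, 146728359, 134567289, 123456789, 123456789, 0, 0, 146728359, 124678359, 123456789, 0, 0, 0, 0, 0,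 125364789, 125364789, 125364789, 0, 0, 145367289, 124536789, 124536789, 124536789, 0, 146728359, 134567289, 123456789, 123456789, 123456789, 172835946, 146728359, 134567289, 123456789, 123456789, 123456789, 172835946, 146728359, 124678359, 123456789, 123456789, 0, 172835946, 127835946, 123578946, 123456789, 0, 0, 0, 0, 153647289, 125364789, 125364789, 125364789, 0, 164728359, 145367289, 124536789, 124536789, 123564789, 172835946, 146728359, 134567289, 123456789, 123456789, 123456789, 172835946, 146728359, 124678359, 123456789, 123456789, 0, 172835946, 127835946, 123578946, 123456789, 0, 0, 0, 0, 0, 0, 0, 0, 0, 0, 153647289, 125364789, 125364789, 0, 0, 164728359, 145367289, 124536789, 123564789, 0, 172835946, 146728359, 124678359, 123456789, 123456789, 0, 172835946, 127835946, 123578946, 123456789, 0, 0, 0, 0, 0, 0, 0, 0, 0, 0, 0, 0, 0, 0, 0, 0, 153647289, 125364789, 0, 0, 0, 164728359, 126478359, 123564789, 0, 0, 172835946, 127835946, 123578946, 123456789, 0, 0,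 0, 0, 0, 0, 0, 0, 0, 0, 0, 0, 0, 0, 0, 0, 0, 0, 0, 0]

def key (n0 n1 n2 : ℕ) : ℕ := 36 * n0 + 6 * n1 + n2

def wb (q : ℕ) (l : Fin 10) : EE :=
  (Fin.ofNat 4 (tabB.getD q 0 / 20 ^ l.1 % 20 / 5), Fin.ofNat 5 (tabB.getD q 0 / 20 ^ l.1 % 20))

def wr (q : ℕ) (k : Fin 10) : Fin 10 := Fin.ofNat 10 (tabR.getD q 0 / 10 ^ k.1)

def F0 (n : ℕ) : Fin 4 → Fin 5 → Fin 10 → ℤ :=
  if n ≤ 8 then Fr 0 0 0 0 else Fq 0 0 0 0 0

theorem table : ∀ n0 n1 n2 n3 : Fin 6, n0.1 + n1.1 + n2.1 + n3.1 = 10 → n0.1 + n1.1 ≤ 7 →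
    n0.1 + n2.1 ≤ 8 → n0.1 + n3.1 ≤ 8 → n1.1 + n2.1 ≤ 8 → n1.1 + n3.1 ≤ 8 →
    (∀ a : Fin 4, (Finset.univ.filter fun l => (wb (key n0 n1 n2) l).1 = a).card =
      ![n0.1, n1.1, n2.1, n3.1] a) ∧
    ∀ k l : Fin 10, l ≤ k → (F0 (n2.1 + n3.1) (wb (key n0 n1 n2) l).1 (wb (key n0 n1 n2) l).2
      (wr (key n0 n1 n2) k) = 0 ↔ l ≠ k) := by
  decide +kernel

end Pool.Agent.H28.Ing
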