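import Pool.Agent.H28.Ing3

set_option autoImplicit false

namespace Pool.Agent.H28.Ing

open Matrix Finset

/-- Number of elements in a class. -/
def cnt (I : Finset EE) (a : Fin 4) : ℕ := (I.filter fun e => e.1 = a).card

theorem cnt_le (I : Finset EE) (a : Fin 4) : cnt I a ≤ 5 := by
  have : (I.filter fun e => e.1 = a).card ≤ (univ : Finset (Fin 5)).card := by
    apply card_le_card_of_injOn (fun e => e.2) (fun _ _ => by simp)
    intro e he f hf h
    simp only [coe_filter, Set.mem_ofPred_eq] at he hf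
    exact Prod.ext (he.2.trans hf.2.symm) h
  simpa [cnt] using this

theorem card_eq_cnt (I : Finset EE) : I.card = cnt I 0 + cnt I 1 + cnt I 2 + cnt I 3 := by
  rw [card_eq_sum_card_fiberwise (f := fun e : EE => e.1) (t := univ) (fun _ _ => by simp),
    Fin.sum_univ_four]
  rfl

theorem cnt_map {m : ℕ} (b : Fin m ↪ EE) (a : Fin 4) :
    cnt (univ.map b) a = (univ.filter fun l => (b l).1 = a).card := by
  rw [cnt, filter_map, card_map]
  rfl

/-- The independence condition. -/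
def OK (I : Finset EE) : Prop :=
  I.card ≤ 10 ∧ cnt I 0 + cnt I 1 ≤ 7 ∧ cnt I 0 + cnt I 2 ≤ 8 ∧ cnt I 0 + cnt I 3 ≤ 8 ∧
    cnt I 1 + cnt I 2 ≤ 8 ∧ cnt I 1 + cnt I 3 ≤ 8

theorem gen_base (b : Fin 10 ↪ EE) (hb : OK (univ.map b)) :
    Gen fun g => ((Mx (F0 (cnt (univ.map b) 2 + cnt (univ.map b) 3)) g).submatrix id b).det ≠ 0 := by
  have hc := card_eq_cnt (univ.map b)
  rw [card_map, card_univ, Fintype.card_fin] at hc
  obtain ⟨-, h1, h2, h3, h4, h5⟩ := hb
  have hl := fun a => Nat.lt_succ_of_le (cnt_le (univ.map b) a)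
  obtain ⟨t1, t2⟩ := table ⟨_, hl 0⟩ ⟨_, hl 1⟩ ⟨_, hl 2⟩ ⟨_, hl 3⟩ hc.symm h1 h2 h3 h4 h5
  simp only at t1 t2
  generalize key (cnt (univ.map b) 0) (cnt (univ.map b) 1) (cnt (univ.map b) 2) = q at t1 t2
  have hf : ∀ a : Fin 4, Fintype.card {l // (b l).1 = a} = Fintype.card {l // (wb q l).1 = a} := by
    intro a
    rw [Fintype.card_subtype, Fintype.card_subtype, t1 a, ← cnt_map]
    fin_cases a <;> rfl
  let τ : Fin 10 ≃ Fin 10 := Equiv.ofFiberEquiv fun a => Fintype.equivOfCardEq (hf a)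
  have hτ : ∀ l, (wb q (τ l)).1 = (b l).1 := fun l =>
    Equiv.ofFiberEquiv_map (f := fun l => (b l).1) (g := fun l => (wb q l).1) _ l
  generalize F0 (cnt (univ.map b) 2 + cnt (univ.map b) 3) = F at t2
  apply gen_det F b b.injective fun l => (wb q (τ l)).2
  let W : Matrix (Fin 10) (Fin 10) ℤ := Matrix.of fun i l => F (wb q l).1 (wb q l).2 i
  have hW : (Matrix.of fun i k => F (b k).1 (wb q (τ k)).2 i) = W.submatrix id τ := by
    ext i k
    simp [W, hτ]
  have hT : (W.submatrix (wr q) id).det ≠ 0 := by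
    rw [Matrix.det_of_isUpperTriangular, prod_ne_zero_iff]
    · intro k _ h
      exact (t2 k k le_rfl).1 h rfl
    · intro k l h
      exact (t2 k l (le_of_lt h)).2 (ne_of_lt h)
  have hm : W.submatrix (wr q) id = (1 : Matrix (Fin 10) (Fin 10) ℤ).submatrix (wr q) id * W := by
    have := Matrix.submatrix_mul (1 : Matrix (Fin 10) (Fin 10) ℤ) W (wr q) id id
      Function.bijective_id
    simpa using this
  rw [hm, det_mul] at hT
  rw [hW, det_permute']
  refine mul_ne_zero ?_ (right_ne_zero_of_mul hT)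
  simp

variable {R0 L R : Type} [Ring R0] [Ring L] [Ring R] {ι : R0 →+* R} {π : R0 →+* L}
  {s t s' t' d : R0}

/-- The representing matrix. -/
def AA (ι : R0 →+* R) (s t s' t' : R0) (g : EE × Fin 5 → ℤ) : Matrix (Fin 10) EE R :=
  Mx (Fr (ι s) (ι t) (ι s') (ι t')) fun q => (g q : R)

theorem Setup.Fr0 (h : Setup ι π s t s' t' d) (a : Fin 4) (j : Fin 5) (i : Fin 10) :
    π (Fr s t s' t' a j i) = (Fr (0 : ℤ) 0 0 0 a j i : ℤ) := by
  have := Fr_map (Int.castRingHom L) 0 0 0 0 a j i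
  simp only [map_zero, eq_intCast] at this
  rw [this, Fr_map, h.hs, h.ht, h.hs', h.ht']

theorem Setup.Fq0 (h : Setup ι π s t s' t' d) (a : Fin 4) (j : Fin 5) (i : Fin 10) :
    π (Fq s t s' t' d a j i) = (Fq (0 : ℤ) 0 0 0 0 a j i : ℤ) := by
  have := Fq_map (Int.castRingHom L) 0 0 0 0 0 a j i
  simp only [map_zero, eq_intCast] at this
  rw [this, Fq_map, h.hs, h.ht, h.hs', h.ht', h.hd]

theorem isUnit_diag {n : ℕ} (v : Fin n → R) (h : ∀ i, IsUnit (v i)) : IsUnit (diagonal v) := by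
  choose u hu using h
  refine ⟨⟨diagonal v, diagonal fun i => ((u i)⁻¹ : Rˣ), ?_, ?_⟩, rfl⟩ <;>
    rw [diagonal_mul_diagonal, ← diagonal_one] <;> congr 1 <;> ext i <;> simp [← hu]

theorem Setup.base_unit (h : Setup ι π s t s' t' d) (g : EE × Fin 5 → ℤ) (b : Fin 10 → EE) (n : ℕ)
    (hd : ((Mx (F0 n) g).submatrix id b).det ≠ 0) :
    IsUnit ((AA ι s t s' t' g).submatrix id b) := by
  unfold F0 at hd
  split_ifs at hd with hn
  · have := h.isUnit _ _ h.Fr0 g b hd
    simp only [Fr_map] at this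
    exact this
  · have h1 := h.isUnit _ _ h.Fq0 g b hd
    simp only [Fq_map] at h1
    have hD : IsUnit (diagonal fun _ : Fin 10 => ι d) := isUnit_diag _ fun _ => h.unit
    have hLa : IsUnit (La (ι s) (ι t) (ι s') (ι t')) := by
      have e1 := La_Th h.lv
      have e2 := Th_La h.lv
      rw [← e1] at hD
      obtain ⟨y, hy⟩ := hD.exists_right_inv
      rw [e1, ← e2] at hD
      obtain ⟨z, hz⟩ := hD.exists_left_inv
      rw [mul_assoc] at hy
      rw [← mul_assoc] at hz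
      have := left_inv_eq_right_inv hz hy
      exact ⟨⟨_, _, hy, this ▸ hz⟩, rfl⟩
    have h2 := hLa.mul h1
    have hv : IsUnit (diagonal fun k : Fin 10 => ![ι d, ι d, 1, 1] (b k).1) := by
      refine isUnit_diag _ fun k => ?_
      generalize (b k).1 = a
      fin_cases a <;> simp [h.unit]
    rw [← hv.mul_right_iff]
    convert h2 using 1
    ext i k
    rw [mul_diagonal]
    simp only [AA, Mx, submatrix_apply, id, of_apply, Matrix.mul_apply, mul_sum, sum_mul]
    rw [sum_comm]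
    refine sum_congr rfl fun j _ => ?_
    simp only [← mul_assoc]
    rw [← sum_mul, La_Fq h.lv, mul_assoc, mul_assoc, Int.cast_comm]

/-- Vectors in the kernel with small support outside two classes vanish there. -/
def KeyP (A : Matrix (Fin 10) EE R) (a b : Fin 4) (m : ℕ) : Prop :=
  ∀ x : EE → R, A *ᵥ x = 0 → ∀ T : Finset EE, T.card ≤ m → (∀ e ∈ T, e.1 ≠ a ∧ e.1 ≠ b) →
    (∀ e : EE, e.1 ≠ a → e.1 ≠ b → e ∉ T → x e = 0) → ∀ e ∈ T, x e = 0

theorem Setup.key (h : Setup ι π s t s' t' d) (a b : Fin 4) (m : ℕ)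
    (hm : m ≤ (univ.filter fun e : EE => e.1 ≠ a ∧ e.1 ≠ b).card)
    (P : Matrix (Fin m) (Fin 10) R0) (P0 : Matrix (Fin m) (Fin 10) ℤ)
    (hP : ∀ i l, π (P i l) = P0 i l)
    (ha : ∀ j i, ∑ l, P i l * Fr s t s' t' a j l = 0)
    (hb : ∀ j i, ∑ l, P i l * Fr s t s' t' b j l = 0)
    (hs : ∀ c, c ≠ a → c ≠ b → ∀ k, ∃ j, ∀ i, (∑ l, P0 i l * Fr 0 0 0 0 c j l = 0 ↔ i ≠ k)) :
    Gen fun g => KeyP (AA ι s t s' t' g) a b m := by
  have hG : Gen fun g => ∀ c : Fin m ↪ EE, (∀ k, (c k).1 ≠ a ∧ (c k).1 ≠ b) →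
      ((Mx (fun c j i => ∑ l, P0 i l * Fr 0 0 0 0 c j l) g).submatrix id c).det ≠ 0 := by
    refine Gen.all fun c => Gen.imp fun hc => ?_
    choose σ hσ using fun k => hs (c k).1 (hc k).1 (hc k).2 k
    apply gen_det _ c c.injective σ
    rw [Matrix.det_of_isUpperTriangular, prod_ne_zero_iff]
    · intro k _ h
      exact (hσ k k).1 h rfl
    · intro k l h
      exact (hσ l k).2 (ne_of_gt h)
  obtain ⟨p, hp, hG⟩ := hG
  refine ⟨p, hp, fun g hg x hx T hT hT1 hT2 => ?_⟩
  obtain ⟨U, hU1, hU2, hU3⟩ := exists_subsuperset_card_eq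
    (show T ⊆ univ.filter fun e : EE => e.1 ≠ a ∧ e.1 ≠ b from fun e he => by simpa using hT1 e he)
    hT hm
  let c : Fin m ↪ EE := (U.equivFinOfCardEq hU3).symm.toEmbedding.trans (Function.Embedding.subtype _)
  have hcU : univ.map c = U := by
    ext e
    simp only [mem_map, mem_univ, true_and, c]
    constructor
    · rintro ⟨k, rfl⟩
      exact Subtype.property _
    · intro he
      exact ⟨U.equivFinOfCardEq hU3 ⟨e, he⟩, by simp⟩
  have hc : ∀ k, (c k).1 ≠ a ∧ (c k).1 ≠ b := fun k => by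
    have := hU2 (hcU ▸ mem_map_of_mem c (mem_univ k))
    simpa using this
  have hu := h.isUnit (fun c j i => ∑ l, P i l * Fr s t s' t' c j l) _
    (fun c j i => by simp [hP, h.Fr0]) g c (hG g hg c hc)
  set D : Matrix (Fin m) EE R :=
    Mx (fun c j i => ι (∑ l, P i l * Fr s t s' t' c j l)) fun q => (g q : R) with hD
  have hDA : D = P.map ι * AA ι s t s' t' g := by
    ext i e
    simp only [hD, AA, Mx, of_apply, Matrix.mul_apply, map_apply, map_sum, map_mul, Fr_map,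
      mul_sum, sum_mul, mul_assoc]
    exact sum_comm
  have h0 : D *ᵥ x = 0 := by rw [hDA, ← mulVec_mulVec, hx, mulVec_zero]
  have h1 : D.submatrix id c *ᵥ (x ∘ c) = 0 := by
    rw [← h0]
    ext i
    simp only [mulVec, dotProduct, submatrix_apply, id, Function.comp]
    rw [← sum_map univ c fun e => D i e * x e, hcU]
    refine sum_subset (subset_univ _) fun e _ he => ?_
    by_cases h1 : e.1 = a
    · simp only [hD, Mx, of_apply, h1, ha]; simp
    by_cases h2 : e.1 = b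
    · simp only [hD, Mx, of_apply, h2, hb]; simp
    rw [hT2 e h1 h2 fun h => he (hU1 h), mul_zero]
  obtain ⟨y, hy⟩ := hu.exists_left_inv
  have h2 : x ∘ c = 0 := by
    rw [← one_mulVec (x ∘ c), ← hy, ← mulVec_mulVec, h1, mulVec_zero]
  intro e he
  obtain ⟨k, -, rfl⟩ := mem_map.1 (hcU ▸ hU1 he)
  exact congrFun h2 k

end Pool.Agent.H28.Ing
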