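import Pool.Agent.H28.Ing4

set_option autoImplicit false

namespace Pool.Agent.H28.Ing

open Matrix Finset

variable {R0 L R : Type} [Ring R0] [Ring L] [Ring R] {ι : R0 →+* R} {π : R0 →+* L}
  {s t s' t' d : R0}

theorem Setup.key01 (h : Setup ι π s t s' t' d) : Gen fun g => KeyP (AA ι s t s' t' g) 0 1 3 := by
  refine h.key 0 1 3 (by decide)
    !![0,0,0,0,0,0,0,1,0,0; 0,0,0,0,0,0,0,0,1,0; 0,0,0,0,0,0,0,0,0,1]
    !![0,0,0,0,0,0,0,1,0,0; 0,0,0,0,0,0,0,0,1,0; 0,0,0,0,0,0,0,0,0,1] ?_ ?_ ?_ (by decide +kernel)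
  · intro i l
    fin_cases i <;> fin_cases l <;> simp
  · intro j i
    fin_cases i <;> fin_cases j <;> simp [Fr, iw, one_apply]
  · intro j i
    fin_cases i <;> fin_cases j <;> simp [Fr, ix, one_apply]

theorem Setup.key02 (h : Setup ι π s t s' t' d) : Gen fun g => KeyP (AA ι s t s' t' g) 0 2 2 := by
  refine h.key 0 2 2 (by decide)
    !![0,0,0,0,0,1,0,0,0,0; 0,0,0,0,0,0,1,0,0,0]
    !![0,0,0,0,0,1,0,0,0,0; 0,0,0,0,0,0,1,0,0,0] ?_ ?_ ?_ (by decide +kernel)
  · intro i l
    fin_cases i <;> fin_cases l <;> simp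
  · intro j i
    fin_cases i <;> fin_cases j <;> simp [Fr, iw, one_apply]
  · intro j i
    fin_cases i <;> fin_cases j <;> simp [Fr, iw, La, Fin.sum_univ_succ]

theorem Setup.key03 (h : Setup ι π s t s' t' d) : Gen fun g => KeyP (AA ι s t s' t' g) 0 3 2 := by
  refine h.key 0 3 2 (by decide)
    !![0,0,0,0,0,1,0,-s',-1,0; 0,0,0,0,0,0,1,-t',0,-1]
    !![0,0,0,0,0,1,0,0,-1,0; 0,0,0,0,0,0,1,0,0,-1] ?_ ?_ ?_ (by decide +kernel)
  · intro i l
    fin_cases i <;> fin_cases l <;> simp [h.hs', h.ht']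
  · intro j i
    fin_cases i <;> fin_cases j <;> simp [Fr, iw, one_apply]
  · intro j i
    fin_cases i <;> fin_cases j <;> simp [Fr, iz, La, Fin.sum_univ_succ]

theorem Setup.key12 (h : Setup ι π s t s' t' d) : Gen fun g => KeyP (AA ι s t s' t' g) 1 2 2 := by
  refine h.key 1 2 2 (by decide)
    !![0,0,0,1,0,0,0,0,0,0; 0,0,0,0,1,0,0,0,0,0]
    !![0,0,0,1,0,0,0,0,0,0; 0,0,0,0,1,0,0,0,0,0] ?_ ?_ ?_ (by decide +kernel)
  · intro i l
    fin_cases i <;> fin_cases l <;> simp
  · intro j i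
    fin_cases i <;> fin_cases j <;> simp [Fr, ix, one_apply]
  · intro j i
    fin_cases i <;> fin_cases j <;> simp [Fr, iw, La, Fin.sum_univ_succ]

theorem Setup.key13 (h : Setup ι π s t s' t' d) : Gen fun g => KeyP (AA ι s t s' t' g) 1 3 2 := by
  refine h.key 1 3 2 (by decide)
    !![0,0,0,1,0,0,0,0,-1,0; 0,0,0,0,1,0,0,0,0,-1]
    !![0,0,0,1,0,0,0,0,-1,0; 0,0,0,0,1,0,0,0,0,-1] ?_ ?_ ?_ (by decide +kernel)
  · intro i l
    fin_cases i <;> fin_cases l <;> simp
  · intro j i
    fin_cases i <;> fin_cases j <;> simp [Fr, ix, one_apply]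
  · intro j i
    fin_cases i <;> fin_cases j <;> simp [Fr, iz, La, Fin.sum_univ_succ]

/-- The five rank constraints. -/
def Cs : Fin 5 → Fin 4 × Fin 4 × ℕ := ![(0, 1, 3), (0, 2, 2), (0, 3, 2), (1, 2, 2), (1, 3, 2)]

theorem Setup.exists_good (h : Setup ι π s t s' t' d) : ∃ A : Matrix (Fin 10) EE R,
    (∀ b : Fin 10 ↪ EE, OK (univ.map b) → IsUnit (A.submatrix id b)) ∧
    ∀ q, KeyP A (Cs q).1 (Cs q).2.1 (Cs q).2.2 := by
  obtain ⟨g, h0, h1, h2, h3, h4, h5⟩ := ((Gen.all fun b => Gen.imp (gen_base b)).and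
    (h.key01.and (h.key02.and (h.key03.and (h.key12.and h.key13))))).exists
  refine ⟨AA ι s t s' t' g, fun b hb => h.base_unit g b _ (h0 b hb), fun q => ?_⟩
  fin_cases q
  exacts [h1, h2, h3, h4, h5]

theorem OK_iff (I : Finset EE) :
    OK I ↔ I.card ≤ 10 ∧ ∀ q, cnt I (Cs q).1 + cnt I (Cs q).2.1 + (Cs q).2.2 ≤ 10 := by
  simp only [OK, Fin.forall_fin_succ, Cs, cons_val_zero, cons_val_succ, IsEmpty.forall_iff,
    and_true]
  omega

theorem cnt_mono {I J : Finset EE} (h : I ⊆ J) (a : Fin 4) : cnt I a ≤ cnt J a :=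
  card_le_card (filter_subset_filter _ h)

theorem cnt_insert {I : Finset EE} {e : EE} (he : e ∉ I) (a : Fin 4) :
    cnt (insert e I) a = cnt I a + if e.1 = a then 1 else 0 := by
  unfold cnt
  rw [filter_insert]
  split_ifs
  · rw [card_insert_of_notMem (by simp [he])]
  · rfl

theorem OK.mono {I J : Finset EE} (hJ : OK J) (h : I ⊆ J) : OK I := by
  have := card_le_card h
  have := cnt_mono h 0
  have := cnt_mono h 1
  have := cnt_mono h 2
  have := cnt_mono h 3
  unfold OK at *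
  omega

theorem OK.aug {I J : Finset EE} (hI : OK I) (hJ : OK J) (h : I.card < J.card) :
    ∃ e ∈ J, e ∉ I ∧ OK (insert e I) := by
  have key : ∀ a, cnt I a < cnt J a → ∃ e ∈ J, e ∉ I ∧ e.1 = a := by
    intro a ha
    obtain ⟨e, he, he'⟩ := exists_mem_notMem_of_card_lt_card ha
    simp only [mem_filter, not_and] at he he'
    exact ⟨e, he.1, fun h => he' h he.2, he.2⟩
  by_contra hn
  push Not at hn
  have k2 : ∀ a, cnt I a < cnt J a → ¬ ((cnt I 0 + if a = 0 then 1 else 0) +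
      (cnt I 1 + if a = 1 then 1 else 0) ≤ 7 ∧ (cnt I 0 + if a = 0 then 1 else 0) +
      (cnt I 2 + if a = 2 then 1 else 0) ≤ 8 ∧ (cnt I 0 + if a = 0 then 1 else 0) +
      (cnt I 3 + if a = 3 then 1 else 0) ≤ 8 ∧ (cnt I 1 + if a = 1 then 1 else 0) +
      (cnt I 2 + if a = 2 then 1 else 0) ≤ 8 ∧ (cnt I 1 + if a = 1 then 1 else 0) +
      (cnt I 3 + if a = 3 then 1 else 0) ≤ 8) := by
    intro a ha hh
    obtain ⟨e, he, heI, rfl⟩ := key a ha
    apply hn e he heI
    unfold OK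
    simp only [cnt_insert heI, card_insert_of_notMem heI]
    exact ⟨by have := hJ.1; omega, hh⟩
  have a0 := k2 0
  have a1 := k2 1
  have a2 := k2 2
  have a3 := k2 3
  simp only [Fin.reduceEq, if_true, if_false] at a0 a1 a2 a3
  have := card_eq_cnt I
  have := card_eq_cnt J
  have := cnt_le I 2
  have := cnt_le I 3
  have := cnt_le I 0
  have := cnt_le I 1
  have := cnt_le J 0
  have := cnt_le J 1
  have := cnt_le J 2
  have := cnt_le J 3
  unfold OK at hI hJ
  omega

/-- The matroid. -/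
noncomputable def MM : Matroid EE :=
  (IndepMatroid.ofFinset Set.univ OK (by simp [OK, cnt]) (fun _ _ hJ h => hJ.mono h)
    (fun _ _ hI hJ h => hI.aug hJ h) fun _ _ => Set.subset_univ _).matroid

theorem MM_E : MM.E = Set.univ := rfl

theorem MM_indep (I : Finset EE) : MM.Indep I ↔ OK I := by
  simp [MM]

theorem MM_base (I : Finset EE) : MM.IsBase I ↔ OK I ∧ I.card = 10 := by
  have h0 : OK (univ.filter fun e : EE => e.1 = 2 ∨ e.1 = 3) ∧
      (univ.filter fun e : EE => e.1 = 2 ∨ e.1 = 3).card = 10 := by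
    unfold OK
    decide
  constructor
  · intro hB
    have h1 := (MM_indep I).1 hB.indep
    refine ⟨h1, le_antisymm h1.1 ?_⟩
    by_contra hlt
    obtain ⟨e, -, he, h2⟩ := h1.aug h0.1 (by omega)
    have := hB.eq_of_subset_indep ((MM_indep _).2 h2) (by simp)
    exact he (by
      have h3 : e ∈ ((insert e I : Finset EE) : Set EE) := by simp
      rw [← this] at h3
      exact h3)
  · rintro ⟨h1, h2⟩
    refine ((MM_indep I).2 h1).isBase_of_maximal fun J hJ hIJ => ?_
    lift J to Finset EE using Set.toFinite J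
    have := ((MM_indep J).1 hJ).1
    rw [eq_of_subset_of_card_le (coe_subset.1 hIJ) (by omega)]

theorem card_out (I : Finset EE) {a b : Fin 4} (h : a ≠ b) :
    (I.filter fun e => e.1 ≠ a ∧ e.1 ≠ b).card + cnt I a + cnt I b = I.card := by
  induction I using Finset.induction_on with
  | empty => simp [cnt]
  | insert e I he ih =>
    rw [cnt_insert he, cnt_insert he, card_insert_of_notMem he, filter_insert, ← ih]
    by_cases h1 : e.1 = a
    · have h2 : e.1 ≠ b := h1 ▸ h
      simp only [h1, h, ne_eq, not_true, false_and, if_false, if_true]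
      omega
    by_cases h2 : e.1 = b
    · simp only [h2, h.symm, ne_eq, not_true, and_false, if_false, if_true]
      omega
    · rw [if_pos ⟨h1, h2⟩, card_insert_of_notMem (by simp [he]), if_neg h1, if_neg h2]
      omega

theorem Cs_ne : ∀ q, (Cs q).1 ≠ (Cs q).2.1 := by decide

theorem Cs_out : ∀ q, (Cs q).2.2 ≤ 3 ∧
    (univ.filter fun e : EE => e.1 ≠ (Cs q).1 ∧ e.1 ≠ (Cs q).2.1).card = 10 := by decide

theorem exists_ker (A : Matrix (Fin 10) EE R) (b : Fin 10 ↪ EE) (N : Matrix (Fin 10) (Fin 10) R)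
    (h : A.submatrix id b * N = 1) (j : EE) (hj : j ∉ univ.map b) :
    ∃ x : EE → R, A *ᵥ x = 0 ∧ x j = -1 ∧ (∀ k, x (b k) = (N * A) k j) ∧
      ∀ e, e ∉ univ.map b → e ≠ j → x e = 0 := by
  have hj' : ∀ k, b k ≠ j := fun k hk => hj (hk ▸ mem_map_of_mem b (mem_univ k))
  refine ⟨fun e => (∑ k, if b k = e then (N * A) k j else 0) - if e = j then 1 else 0,
    ?_, ?_, ?_, ?_⟩
  · ext i
    have h1 : (A.submatrix id b * (N * A)) i j = A i j := by
      rw [← Matrix.mul_assoc, h, Matrix.one_mul]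
    simp only [mulVec, dotProduct, mul_sub, sum_sub_distrib, mul_sum, mul_ite, mul_zero, mul_one,
      sum_ite_eq', mem_univ, if_true, Pi.zero_apply]
    rw [sum_comm, ← h1, Matrix.mul_apply]
    simp
  · simp [hj']
  · intro k
    simp [hj']
  · intro e he hej
    have : ∀ k, b k ≠ e := fun k hk => he (hk ▸ mem_map_of_mem b (mem_univ k))
    simp [this, hej]

theorem OK_of_unit [Nontrivial R] {A : Matrix (Fin 10) EE R}
    (hK : ∀ q, KeyP A (Cs q).1 (Cs q).2.1 (Cs q).2.2) (b : Fin 10 ↪ EE)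
    (hb : IsUnit (A.submatrix id b)) : OK (univ.map b) := by
  have hc : (univ.map b).card = 10 := by simp
  rw [OK_iff]
  refine ⟨hc.le, fun q => ?_⟩
  by_contra hq
  have h1 := card_out (univ.map b) (Cs_ne q)
  obtain ⟨h2, h3⟩ := Cs_out q
  obtain ⟨j, hj, hj'⟩ := exists_mem_notMem_of_card_lt_card
    (s := (univ.map b).filter fun e => e.1 ≠ (Cs q).1 ∧ e.1 ≠ (Cs q).2.1)
    (t := univ.filter fun e : EE => e.1 ≠ (Cs q).1 ∧ e.1 ≠ (Cs q).2.1) (by omega)
  simp only [mem_filter, mem_univ, true_and] at hj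
  have hjb : j ∉ univ.map b := fun h => hj' (mem_filter.2 ⟨h, hj⟩)
  obtain ⟨N, hN⟩ := hb.exists_right_inv
  obtain ⟨x, hx, hx1, -, hx3⟩ := exists_ker A b N hN j hjb
  have := hK q x hx (insert j ((univ.map b).filter fun e => e.1 ≠ (Cs q).1 ∧ e.1 ≠ (Cs q).2.1))
    (by rw [card_insert_of_notMem hj']; omega)
    (fun e he => by
      rcases mem_insert.1 he with rfl | he
      · exact hj
      · exact (mem_filter.1 he).2)
    (fun e h1 h2 he => hx3 e (fun h => he (mem_insert_of_mem (mem_filter.2 ⟨h, h1, h2⟩)))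
      fun h => he (h ▸ mem_insert_self _ _)) j (mem_insert_self _ _)
  rw [hx1] at this
  simp at this

theorem arith {p1 p2 p3 p4 : Prop} [Decidable p1] [Decidable p2] [Decidable p3] [Decidable p4]
    {A B A' B' m : ℕ} (n1 : ¬ (p3 ∧ p4)) (f1 : A = A' + if p1 then 1 else 0)
    (f2 : B = B' + if p2 then 1 else 0)
    (hq : 10 < (A' + if p3 then 1 else 0) + (B' + if p4 then 1 else 0) + m) (hq' : A + B + m ≤ 10) :
    ¬ p1 ∧ ¬ p2 ∧ (p3 ∨ p4) ∧ A + B + m = 10 := by
  by_cases p1 <;> by_cases p2 <;> by_cases p3 <;> by_cases p4 <;> simp_all <;> omega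

theorem entry [Nontrivial R] {A : Matrix (Fin 10) EE R}
    (hU : ∀ b : Fin 10 ↪ EE, OK (univ.map b) → IsUnit (A.submatrix id b))
    (hK : ∀ q, KeyP A (Cs q).1 (Cs q).2.1 (Cs q).2.2) (b : Fin 10 ↪ EE)
    (N : Matrix (Fin 10) (Fin 10) R) (h1 : N * A.submatrix id b = 1)
    (h2 : A.submatrix id b * N = 1) (i : Fin 10) (j : EE) :
    (N * A) i j = 0 ∨ IsUnit ((N * A) i j) := by
  have hNA : ∀ k l, (N * A) k (b l) = (1 : Matrix (Fin 10) (Fin 10) R) k l := by
    intro k l
    rw [← h1]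
    simp [Matrix.mul_apply]
  by_cases hj : j ∈ univ.map b
  · obtain ⟨k, -, rfl⟩ := mem_map.1 hj
    rw [hNA, one_apply]
    split_ifs <;> simp
  have hj' : ∀ k, b k ≠ j := fun k hk => hj (hk ▸ mem_map_of_mem b (mem_univ k))
  have hb := OK_of_unit hK b ⟨⟨_, _, h2, h1⟩, rfl⟩
  let b' : Fin 10 ↪ EE := ⟨Function.update b i j, by
    intro k l hkl
    by_cases hk : k = i <;> by_cases hl : l = i
    · rw [hk, hl]
    · rw [hk, Function.update_self, Function.update_of_ne hl] at hkl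
      exact absurd hkl.symm (hj' l)
    · rw [hl, Function.update_self, Function.update_of_ne hk] at hkl
      exact absurd hkl (hj' k)
    · rw [Function.update_of_ne hl, Function.update_of_ne hk] at hkl
      exact b.injective hkl⟩
  have hbi : b' i = j := Function.update_self ..
  have hbk : ∀ k, k ≠ i → b' k = b k := fun k hk => Function.update_of_ne hk ..
  by_cases hb' : OK (univ.map b')
  · right
    have hu : IsUnit (N * A.submatrix id b') := IsUnit.mul ⟨⟨_, _, h1, h2⟩, rfl⟩ (hU b' hb')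
    have hU1 : ∀ k l, (N * A.submatrix id b') k l = (N * A) k (b' l) := fun k l => by
      simp [Matrix.mul_apply]
    obtain ⟨⟨U, V, e1, e2⟩, hUV⟩ := hu
    simp only at hUV
    rw [← hUV] at hU1
    have hU2 : ∀ k l, l ≠ i → U k l = (1 : Matrix (Fin 10) (Fin 10) R) k l := fun k l hl => by
      rw [hU1, hbk l hl, hNA]
    have hV : ∀ l, l ≠ i → V i l = 0 := by
      intro l hl
      have := congrFun (congrFun e2 i) l
      rw [Matrix.mul_apply, one_apply_ne hl.symm] at this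
      simp only [hU2 _ l hl] at this
      rwa [← Matrix.mul_apply, Matrix.mul_one] at this
    have a1 := congrFun (congrFun e1 i) i
    have a2 := congrFun (congrFun e2 i) i
    rw [Matrix.mul_apply, one_apply_eq, sum_eq_single i (fun l _ hl => by
      rw [hU2 i l hl, one_apply_ne hl.symm, zero_mul]) (by simp), hU1, hbi] at a1
    rw [Matrix.mul_apply, one_apply_eq, sum_eq_single i (fun l _ hl => by
      rw [hV l hl, zero_mul]) (by simp), hU1, hbi] at a2
    exact ⟨⟨_, _, a1, a2⟩, rfl⟩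
  · left
    have hc : (univ.map b).card = 10 := by simp
    have hc' : (univ.map b').card = 10 := by simp
    have hi : b i ∉ (univ.map b).erase (b i) := notMem_erase _ _
    have hjI : j ∉ (univ.map b).erase (b i) := fun h => hj (mem_of_mem_erase h)
    have e1 : univ.map b = insert (b i) ((univ.map b).erase (b i)) :=
      (insert_erase (mem_map_of_mem b (mem_univ i))).symm
    have e2 : univ.map b' = insert j ((univ.map b).erase (b i)) := by
      apply eq_of_subset_of_card_le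
      · intro e he
        obtain ⟨k, -, rfl⟩ := mem_map.1 he
        by_cases hk : k = i
        · rw [hk, hbi]
          exact mem_insert_self _ _
        · rw [hbk k hk]
          exact mem_insert_of_mem (mem_erase.2 ⟨fun h => hk (b.injective h),
            mem_map_of_mem b (mem_univ k)⟩)
      · rw [card_insert_of_notMem hjI, card_erase_of_mem (mem_map_of_mem b (mem_univ i)), hc, hc']
    rw [OK_iff] at hb hb'
    push Not at hb'
    obtain ⟨q, hq⟩ := hb' hc'.le
    have hq' := hb.2 q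
    have h3 := card_out (univ.map b) (Cs_ne q)
    have hne := Cs_ne q
    have f1 := cnt_insert hi (Cs q).1
    have f2 := cnt_insert hi (Cs q).2.1
    rw [← e1] at f1 f2
    rw [e2, cnt_insert hjI, cnt_insert hjI] at hq
    have g1 : (b i).1 ≠ (Cs q).1 ∧ (b i).1 ≠ (Cs q).2.1 ∧ (j.1 = (Cs q).1 ∨ j.1 = (Cs q).2.1) ∧
        cnt (univ.map b) (Cs q).1 + cnt (univ.map b) (Cs q).2.1 + (Cs q).2.2 = 10 := by
      exact arith (fun h => hne (h.1.symm.trans h.2)) f1 f2 hq hq'
    obtain ⟨x, hx, -, hx2, hx3⟩ := exists_ker A b N h2 j hj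
    rw [← hx2]
    refine hK q x hx ((univ.map b).filter fun e => e.1 ≠ (Cs q).1 ∧ e.1 ≠ (Cs q).2.1)
      (by omega) (fun e he => (mem_filter.1 he).2) (fun e h1 h2 he => hx3 e
        (fun h => he (mem_filter.2 ⟨h, h1, h2⟩)) ?_) _
        (mem_filter.2 ⟨mem_map_of_mem b (mem_univ i), g1.1, g1.2.1⟩)
    rintro rfl
    rcases g1.2.2.1 with h | h
    exacts [h1 h, h2 h]

end Pool.Agent.H28.Ing
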