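import Pool.Agent.H28.Ing5

set_option autoImplicit false

namespace Pool.Agent.H28.Ing

open Matrix Finset

theorem base_iff {R : Type} [Ring R] [Nontrivial R] {A : Matrix (Fin 10) EE R}
    (hU : ∀ b : Fin 10 ↪ EE, OK (univ.map b) → IsUnit (A.submatrix id b))
    (hK : ∀ q, KeyP A (Cs q).1 (Cs q).2.1 (Cs q).2.2) (B : Set EE) :
    MM.IsBase B ↔ ∃ b : Fin 10 ↪ EE, Set.range b = B ∧ IsUnit (A.submatrix id b) := by
  lift B to Finset EE using Set.toFinite B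
  rw [MM_base]
  constructor
  · rintro ⟨h1, h2⟩
    let c : Fin 10 ↪ EE :=
      (B.equivFinOfCardEq h2).symm.toEmbedding.trans (Function.Embedding.subtype _)
    have hc : univ.map c = B := by
      ext e
      simp only [mem_map, mem_univ, true_and, c]
      constructor
      · rintro ⟨k, rfl⟩
        exact Subtype.property _
      · intro he
        exact ⟨B.equivFinOfCardEq h2 ⟨e, he⟩, by simp⟩
    exact ⟨c, by rw [← hc]; simp, hU c (hc ▸ h1)⟩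
  · rintro ⟨b, hb, hu⟩
    have hc : univ.map b = B := by
      apply coe_injective
      rw [← hb]
      simp
    exact ⟨hc ▸ OK_of_unit hK b hu, by rw [← hc]; simp⟩

/-- The four classes. -/
def cl (a : Fin 4) : Set EE := {e | e.1 = a}

theorem rk_ge (I : Finset EE) (hI : OK I) (X : Set EE) (h : ∀ e ∈ I, e ∈ X) :
    (I.card : ℕ∞) ≤ MM.eRk X := by
  have := ((MM_indep I).2 hI).encard_le_eRk_of_subset (X := X) h
  rwa [Set.encard_coe_eq_coe_finsetCard] at this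

theorem rk_le (q : Fin 5) : MM.eRk (cl (Cs q).1 ∪ cl (Cs q).2.1) ≤ (10 - (Cs q).2.2 : ℕ) := by
  rw [Matroid.eRk_le_iff]
  intro I hI h
  lift I to Finset EE using Set.toFinite I
  rw [MM_indep, OK_iff] at h
  have h1 := card_out I (Cs_ne q)
  have h2 := h.2 q
  rw [filter_eq_empty_iff.2 fun e he h => (hI he).elim h.1 h.2, card_empty] at h1
  rw [Set.encard_coe_eq_coe_finsetCard, Nat.cast_le]
  omega

instance (I : Finset EE) : Decidable (OK I) := by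
  unfold OK
  infer_instance

theorem lower : (40 : ℕ∞) ≤ MM.eRk (cl 0) + MM.eRk (cl 1) + MM.eRk (cl 0 ∪ cl 1 ∪ cl 2) +
    MM.eRk (cl 0 ∪ cl 1 ∪ cl 3) + MM.eRk (cl 2 ∪ cl 3) := by
  have h1 := rk_ge (univ.filter fun e => e.1 = 0) (by decide) (cl 0) (by simp [cl])
  have h2 := rk_ge (univ.filter fun e => e.1 = 1) (by decide) (cl 1) (by simp [cl])
  have h3 := rk_ge (univ.filter fun e => (e.1 = 0 ∧ e.2 < 4) ∨ (e.1 = 1 ∧ e.2 < 3) ∨
    (e.1 = 2 ∧ e.2 < 3)) (by decide) (cl 0 ∪ cl 1 ∪ cl 2) (by simp only [cl]; decide)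
  have h4 := rk_ge (univ.filter fun e => (e.1 = 0 ∧ e.2 < 4) ∨ (e.1 = 1 ∧ e.2 < 3) ∨
    (e.1 = 3 ∧ e.2 < 3)) (by decide) (cl 0 ∪ cl 1 ∪ cl 3) (by simp only [cl]; decide)
  have h5 := rk_ge (univ.filter fun e => e.1 = 2 ∨ e.1 = 3) (by decide) (cl 2 ∪ cl 3)
    (by simp only [cl]; decide)
  rw [show (40 : ℕ∞) = (5 : ℕ) + (5 : ℕ) + (10 : ℕ) + (10 : ℕ) + (10 : ℕ) by norm_num]
  gcongr
  exacts [h1, h2, h3, h4, h5]

theorem upper : MM.eRk (cl 0 ∪ cl 1) + MM.eRk (cl 0 ∪ cl 2) + MM.eRk (cl 0 ∪ cl 3) +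
    MM.eRk (cl 1 ∪ cl 2) + MM.eRk (cl 1 ∪ cl 3) ≤ 39 := by
  rw [show (39 : ℕ∞) = (7 : ℕ) + (8 : ℕ) + (8 : ℕ) + (8 : ℕ) + (8 : ℕ) by norm_num]
  gcongr
  exacts [rk_le 0, rk_le 1, rk_le 2, rk_le 3, rk_le 4]

end Pool.Agent.H28.Ing
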