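import Mathlib

namespace Pool.Agent.H28.Kos

open Finset

def BrS (n : ℕ) (l v : ℕ → ℕ) : Set (ℕ → ℕ) :=
  {m | (∀ j < n, l (j + 1) ≤ m j ∧ m j ≤ l j) ∧ (∀ j, n ≤ j → m j = 0) ∧
    ∑ j ∈ range n, m j + v n = ∑ j ∈ range (n + 1), l j}

lemma box_fin (n : ℕ) (h : ℕ → ℕ) :
    {m : ℕ → ℕ | (∀ j < n, m j ≤ h j) ∧ ∀ j, n ≤ j → m j = 0}.Finite := by
  have h1 : (Set.pi Set.univ fun j : Fin n => Set.Iic (h j)).Finite :=
    Set.Finite.pi fun j => Set.finite_Iic _
  refine Set.Finite.of_finite_image (f := fun m (j : Fin n) => m j) (h1.subset ?_) ?_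
  · rintro _ ⟨m, hm, rfl⟩ j _
    exact hm.1 j j.2
  · intro a ha b hb hab
    funext j
    rcases lt_or_ge j n with hj | hj
    · exact congrFun hab ⟨j, hj⟩
    · rw [ha.2 j hj, hb.2 j hj]

lemma BrS_fin (n : ℕ) (l v : ℕ → ℕ) : (BrS n l v).Finite :=
  (box_fin n l).subset fun _ hm => ⟨fun j hj => (hm.1 j hj).2, hm.2.1⟩

noncomputable def Br (n : ℕ) (l v : ℕ → ℕ) : Finset (ℕ → ℕ) := (BrS_fin n l v).toFinset

lemma mem_Br {n : ℕ} {l v m : ℕ → ℕ} : m ∈ Br n l v ↔
    (∀ j < n, l (j + 1) ≤ m j ∧ m j ≤ l j) ∧ (∀ j, n ≤ j → m j = 0) ∧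
    ∑ j ∈ range n, m j + v n = ∑ j ∈ range (n + 1), l j := by
  simp [Br, BrS]

noncomputable def K : ℕ → (ℕ → ℕ) → (ℕ → ℕ) → ℕ
  | 0, _, _ => 1
  | n + 1, l, v => ∑ m ∈ Br n l v, K n m v

def Anti (n : ℕ) (l : ℕ → ℕ) : Prop := ∀ j, j + 1 < n → l (j + 1) ≤ l j

def Dom (n : ℕ) (l v : ℕ → ℕ) : Prop :=
  (∀ i ≤ n, ∑ j ∈ range i, v j ≤ ∑ j ∈ range i, l j) ∧ ∑ j ∈ range n, l j = ∑ j ∈ range n, v j

lemma Anti.le {n : ℕ} {l : ℕ → ℕ} (h : Anti n l) {i j : ℕ} (hij : i ≤ j) (hj : j < n) :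
    l j ≤ l i := by
  induction j, hij using Nat.le_induction with
  | base => exact le_rfl
  | succ j hij ih => exact (h j hj).trans (ih (by omega))

lemma anti_Br {n : ℕ} {l v m : ℕ → ℕ} (h : m ∈ Br n l v) : Anti n m := fun j hj =>
  ((mem_Br.1 h).1 (j + 1) hj).2.trans ((mem_Br.1 h).1 j (by omega)).1

lemma K_congr (n : ℕ) {l l' : ℕ → ℕ} (v : ℕ → ℕ) (h : ∀ j < n, l j = l' j) :
    K n l v = K n l' v := by
  cases n with
  | zero => rfl
  | succ n =>
    have : Br n l v = Br n l' v := by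
      ext m
      rw [mem_Br, mem_Br, Finset.sum_congr rfl fun j hj => h j (mem_range.1 hj)]
      refine and_congr_left fun _ => forall₂_congr fun j hj => ?_
      rw [h j (by omega), h (j + 1) (by omega)]
    simp only [K, this]

lemma dom_of_K : ∀ (n : ℕ) (l v : ℕ → ℕ), K n l v ≠ 0 → Dom n l v
  | 0, _, _, _ => ⟨fun i hi => by simp [Nat.le_zero.1 hi], by simp⟩
  | n + 1, l, v, h => by
    obtain ⟨m, hm, hK⟩ := Finset.exists_ne_zero_of_sum_ne_zero h
    have hd := dom_of_K n m v hK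
    obtain ⟨h1, -, h3⟩ := mem_Br.1 hm
    have he : ∑ j ∈ range (n + 1), l j = ∑ j ∈ range (n + 1), v j := by
      rw [← h3, hd.2, Finset.sum_range_succ]
    refine ⟨fun i hi => ?_, he⟩
    rcases hi.lt_or_eq with hi | rfl
    · exact (hd.1 i (by omega)).trans
        (Finset.sum_le_sum fun j hj => (h1 j (by have := mem_range.1 hj; omega)).2)
    · exact he.ge

def sh (i : ℕ) (l : ℕ → ℕ) : ℕ → ℕ := fun j => l (i + j)

lemma K_fac (i : ℕ) (v : ℕ → ℕ) : ∀ (r : ℕ) (l : ℕ → ℕ), Anti (i + r) l →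
    ∑ j ∈ range i, l j = ∑ j ∈ range i, v j →
    K (i + r) l v = K i l v * K r (sh i l) (sh i v)
  | 0, l, _, _ => by simp [K]
  | r + 1, l, ha, ht => by
    classical
    show ∑ m ∈ Br (i + r) l v, K (i + r) m v = K i l v * ∑ m ∈ Br r (sh i l) (sh i v), K r m (sh i v)
    rw [Finset.mul_sum, ← Finset.sum_filter_of_ne (p := fun m => ∀ j < i, m j = l j)]
    · refine Finset.sum_nbij' (sh i) (fun m j => if j < i then l j else m (j - i)) ?_ ?_ ?_ ?_ ?_
      · intro m hm
        obtain ⟨hm, he⟩ := Finset.mem_filter.1 hm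
        obtain ⟨h1, h2, h3⟩ := mem_Br.1 hm
        refine mem_Br.2 ⟨fun j hj => h1 (i + j) (by omega), fun j hj => h2 (i + j) (by omega), ?_⟩
        rw [add_assoc i r 1, Finset.sum_range_add, Finset.sum_range_add] at h3
        have e : ∑ j ∈ range i, m j = ∑ j ∈ range i, l j :=
          Finset.sum_congr rfl fun j hj => he j (mem_range.1 hj)
        simp only [sh]
        omega
      · intro m hm
        obtain ⟨h1, h2, h3⟩ := mem_Br.1 hm
        refine Finset.mem_filter.2 ⟨mem_Br.2 ⟨fun j hj => ?_, fun j hj => ?_, ?_⟩,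
          fun j hj => if_pos hj⟩
        · split_ifs with h
          · exact ⟨ha j (by omega), le_rfl⟩
          · have := h1 (j - i) (by omega)
            simp only [sh] at this
            rwa [← add_assoc, show i + (j - i) = j by omega] at this
        · rw [if_neg (by omega)]
          exact h2 _ (by omega)
        · rw [add_assoc i r 1, Finset.sum_range_add, Finset.sum_range_add]
          have e : ∑ j ∈ range i, (if j < i then l j else m (j - i)) = ∑ j ∈ range i, l j :=
            Finset.sum_congr rfl fun j hj => if_pos (mem_range.1 hj)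
          simp only [sh] at h3
          have : ∑ x ∈ range r, (if i + x < i then l (i + x) else m (i + x - i)) =
              ∑ x ∈ range r, m x :=
            Finset.sum_congr rfl fun x _ => by rw [if_neg (by omega), Nat.add_sub_cancel_left]
          omega
      · intro m hm
        funext j
        split_ifs with h
        · exact ((Finset.mem_filter.1 hm).2 j h).symm
        · simp only [sh]
          rw [show i + (j - i) = j by omega]
      · intro m _
        funext j
        simp [sh]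
      · intro m hm
        obtain ⟨hm, he⟩ := Finset.mem_filter.1 hm
        rw [K_fac i v r m (anti_Br hm)
          (by rw [← ht]; exact Finset.sum_congr rfl fun j hj => he j (mem_range.1 hj)),
          K_congr i v he]
    · intro m hm hK
      have hd := (dom_of_K _ _ _ hK).1 i (by omega)
      have h1 := (mem_Br.1 hm).1
      have hle : ∀ j ∈ range i, m j ≤ l j := fun j hj =>
        (h1 j (by have := mem_range.1 hj; omega)).2
      have := (Finset.sum_eq_sum_iff_of_le hle).1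
        (le_antisymm (Finset.sum_le_sum hle) (ht ▸ hd))
      exact fun j hj => this j (mem_range.2 hj)

lemma eq_of_off {n : ℕ} {l v a b : ℕ → ℕ} (ha : a ∈ Br n l v) (hb : b ∈ Br n l v) (t : ℕ)
    (h : ∀ j < n, j ≠ t → a j = b j) : a = b := by
  obtain ⟨-, a2, a3⟩ := mem_Br.1 ha
  obtain ⟨-, b2, b3⟩ := mem_Br.1 hb
  funext j
  rcases lt_or_ge j n with hj | hj
  · by_cases hjt : j = t
    · subst hjt
      have e1 := Finset.add_sum_erase (range n) a (mem_range.2 hj)
      have e2 := Finset.add_sum_erase (range n) b (mem_range.2 hj)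
      have e3 : ∑ x ∈ (range n).erase j, a x = ∑ x ∈ (range n).erase j, b x :=
        Finset.sum_congr rfl fun x hx =>
          h x (mem_range.1 (Finset.mem_erase.1 hx).2) (Finset.mem_erase.1 hx).1
      omega
    · exact h j hj hjt
  · rw [a2 j hj, b2 j hj]

lemma K_le_one_of (v : ℕ → ℕ) (P : ℕ → (ℕ → ℕ) → Prop)
    (h1 : ∀ n l m, P (n + 1) l → m ∈ Br n l v → P n m)
    (h2 : ∀ n l a b, P (n + 1) l → a ∈ Br n l v → b ∈ Br n l v → a = b) :
    ∀ n l, P n l → K n l v ≤ 1
  | 0, _, _ => le_rfl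
  | n + 1, l, h => by
    have hc : (Br n l v).card ≤ 1 := Finset.card_le_one.2 fun a ha b hb => h2 n l a b h ha hb
    calc _ ≤ ∑ _m ∈ Br n l v, 1 :=
          Finset.sum_le_sum fun m hm => K_le_one_of v P h1 h2 n m (h1 n l m h hm)
      _ ≤ 1 := by simpa using hc

lemma K_spec1 (n : ℕ) (l v : ℕ → ℕ) (b : ℕ) (h : ∀ j, 1 ≤ j → j < n → l j = b) : K n l v ≤ 1 := by
  have key : ∀ n l m, (∀ j, 1 ≤ j → j < n + 1 → l j = b) → m ∈ Br n l v →
      ∀ j, 1 ≤ j → j < n → m j = b := by
    intro n l m h hm j h1 h2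
    have := (mem_Br.1 hm).1 j h2
    rw [h j h1 (by omega), h (j + 1) (by omega) (by omega)] at this
    omega
  refine K_le_one_of v (fun n l => ∀ j, 1 ≤ j → j < n → l j = b) key ?_ n l h
  intro n l a c h ha hc
  refine eq_of_off ha hc 0 fun j hj h0 => ?_
  rw [key n l a h ha j (by omega) hj, key n l c h hc j (by omega) hj]

lemma K_spec2 (n : ℕ) (l v : ℕ → ℕ) (b : ℕ) (h : ∀ j, j + 1 < n → l j = b) : K n l v ≤ 1 := by
  have key : ∀ n l m, (∀ j, j + 1 < n + 1 → l j = b) → m ∈ Br n l v →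
      ∀ j, j + 1 < n → m j = b := by
    intro n l m h hm j h2
    have := (mem_Br.1 hm).1 j (by omega)
    rw [h j (by omega), h (j + 1) (by omega)] at this
    omega
  refine K_le_one_of v (fun n l => ∀ j, j + 1 < n → l j = b) key ?_ n l h
  intro n l a c h ha hc
  refine eq_of_off ha hc (n - 1) fun j hj h0 => ?_
  rw [key n l a h ha j (by omega), key n l c h hc j (by omega)]

end Pool.Agent.H28.Kos
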