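import Pool.Agent.H28.Kos1

namespace Pool.Agent.H28.Kos

open Finset

lemma path {n : ℕ} {l v : ℕ → ℕ} (ha : Anti (n + 1) l) (hv : Antitone v) (hd : Dom (n + 1) l v)
    (W : ℕ → ℤ) (hW : ∀ j < n, (l (j + 1) : ℤ) ≤ W (j + 1) - W j ∧ W (j + 1) - W j ≤ l j)
    (hW2 : ∀ j ≤ n, ((∑ t ∈ range j, v t : ℕ) : ℤ) ≤ W j) :
    ∃ m ∈ Br n l v, Dom n m v ∧ ∀ j ≤ n, ((∑ t ∈ range j, m t : ℕ) : ℤ) =
      min (min ((∑ t ∈ range j, l t : ℕ) : ℤ)
        (((∑ t ∈ range n, v t : ℕ) : ℤ) - ((∑ t ∈ range n, l (t + 1) : ℕ) : ℤ) +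
          ((∑ t ∈ range j, l (t + 1) : ℕ) : ℤ))) (W j) := by
  set V : ℕ → ℤ := fun j => min (min ((∑ t ∈ range j, l t : ℕ) : ℤ)
        (((∑ t ∈ range n, v t : ℕ) : ℤ) - ((∑ t ∈ range n, l (t + 1) : ℕ) : ℤ) +
          ((∑ t ∈ range j, l (t + 1) : ℕ) : ℤ))) (W j) with hV
  have hinc : ∀ j < n, (l (j + 1) : ℤ) ≤ V (j + 1) - V j ∧ V (j + 1) - V j ≤ l j := by
    intro j hj
    have h1 := hW j hj
    have h2 := ha j (by omega)
    simp only [hV, Finset.sum_range_succ]
    push_cast
    omega
  have hlow : ∀ j ≤ n, ((∑ t ∈ range j, v t : ℕ) : ℤ) ≤ V j := by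
    intro j hj
    have h1 := hd.1 j (by omega)
    have h2 := hd.1 (j + 1) (by omega)
    have h3 := hd.2
    have h4 := hW2 j hj
    have h5 := hv hj
    rw [Finset.sum_range_succ' l, Finset.sum_range_succ v] at h2 h3
    simp only [hV]
    omega
  have h0 : V 0 = 0 := by
    have := hlow 0 (by omega)
    simp only [hV] at this ⊢
    simp only [range_zero, sum_empty] at this ⊢
    omega
  have hn : V n = ((∑ t ∈ range n, v t : ℕ) : ℤ) := by
    have := hlow n le_rfl
    simp only [hV] at this ⊢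
    omega
  let m : ℕ → ℕ := fun j => if j < n then (V (j + 1) - V j).toNat else 0
  have hm : ∀ j < n, (m j : ℤ) = V (j + 1) - V j := by
    intro j hj
    have := hinc j hj
    simp only [m, if_pos hj]
    omega
  have hs : ∀ j ≤ n, ((∑ t ∈ range j, m t : ℕ) : ℤ) = V j := by
    intro j hj
    induction j with
    | zero => simp [h0]
    | succ j ih =>
      rw [Finset.sum_range_succ]
      have := ih (by omega)
      have := hm j (by omega)
      omega
  refine ⟨m, mem_Br.2 ⟨fun j hj => ?_, fun j hj => if_neg (by omega), ?_⟩, ⟨fun j hj => ?_, ?_⟩, hs⟩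
  · have := hinc j hj
    have := hm j hj
    omega
  · have := hs n le_rfl
    have h3 := hd.2
    rw [Finset.sum_range_succ v] at h3
    omega
  · have := hs j hj
    have := hlow j hj
    omega
  · have := hs n le_rfl
    omega

lemma K_pos {v : ℕ → ℕ} (hv : Antitone v) : ∀ (n : ℕ) (l : ℕ → ℕ), Anti n l → Dom n l v →
    1 ≤ K n l v
  | 0, _, _, _ => le_rfl
  | n + 1, l, ha, hd => by
    obtain ⟨m, hm, hmd, -⟩ := path ha hv hd (fun j => ((∑ t ∈ range j, l t : ℕ) : ℤ))
      (fun j hj => by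
        have := ha j (by omega)
        simp only [Finset.sum_range_succ]
        omega)
      (fun j hj => by exact_mod_cast hd.1 j (by omega))
    exact (K_pos hv n m (anti_Br hm) hmd).trans
      (Finset.single_le_sum (f := fun m => K n m v) (fun _ _ => Nat.zero_le _) hm)

def Close (n k C : ℕ) (a b : ℕ → ℕ) : Prop :=
  ∀ j < n, a j ≤ k * b j + C * k ∧ k * b j ≤ a j + C * k

lemma approx {n k C : ℕ} {l v l' m' : ℕ → ℕ} (hk : 1 ≤ k) (ha : Anti (n + 1) l) (hv : Antitone v)
    (hd : Dom (n + 1) l v) (hc : Close (n + 1) k C l' l) (hm : m' ∈ Br n l' fun j => k * v j)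
    (hmd : Dom n m' fun j => k * v j) :
    ∃ m ∈ Br n l v, Dom n m v ∧ Close n k (4 * n * (C + 1)) m' m := by
  obtain ⟨h1, -, -⟩ := mem_Br.1 hm
  let cl : ℕ → ℕ := fun t => max (l (t + 1)) (min (l t) (m' t / k))
  set E : ℕ := (C + 1) * k with hE
  have hE' : E = C * k + k := by rw [hE]; ring
  have hcl : ∀ t < n, k * cl t ≤ m' t + E ∧ m' t ≤ k * cl t + E := by
    intro t ht
    have a1 := h1 t ht
    have a2 := hc t (by omega)
    have a3 := hc (t + 1) (by omega)
    have a4 := Nat.mul_div_le (m' t) k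
    have a5 := Nat.lt_mul_div_succ (m' t) hk
    have a6 := ha t (by omega)
    rw [mul_add, mul_one] at a5
    simp only [cl]
    rcases le_total (l t) (m' t / k) with h | h
    · rw [min_eq_left h, max_eq_right a6]
      have := Nat.mul_le_mul_left k h
      omega
    · rw [min_eq_right h]
      rcases le_total (l (t + 1)) (m' t / k) with h' | h'
      · rw [max_eq_right h']
        omega
      · rw [max_eq_left h']
        have := Nat.mul_le_mul_left k h'
        omega
  have hsum : ∀ (a b : ℕ → ℕ) (j : ℕ), (∀ t < j, a t ≤ b t + E) →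
      ∑ t ∈ range j, a t ≤ ∑ t ∈ range j, b t + j * E := by
    intro a b j h
    calc _ ≤ ∑ t ∈ range j, (b t + E) := Finset.sum_le_sum fun t ht => h t (mem_range.1 ht)
      _ = _ := by simp [Finset.sum_add_distrib]
  have hmul : ∀ (a : ℕ → ℕ) (j : ℕ), ∑ t ∈ range j, k * a t = k * ∑ t ∈ range j, a t :=
    fun a j => (Finset.mul_sum _ _ _).symm
  have hjE : ∀ j ≤ n, j * E ≤ n * E := fun j hj => Nat.mul_le_mul_right E hj
  have hnE : k * (n * (C + 1)) = n * E := by rw [hE]; ring
  have c1 : ∀ j ≤ n, k * ∑ t ∈ range j, cl t ≤ ∑ t ∈ range j, m' t + n * E := fun j hj => by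
    have := hsum (fun t => k * cl t) m' j fun t ht => (hcl t (by omega)).1
    have := hjE j hj
    rw [← hmul]
    omega
  have c2 : ∀ j ≤ n, ∑ t ∈ range j, m' t ≤ k * ∑ t ∈ range j, cl t + n * E := fun j hj => by
    have := hsum m' (fun t => k * cl t) j fun t ht => (hcl t (by omega)).2
    have := hjE j hj
    rw [← hmul]
    omega
  have c3 : ∀ j ≤ n, ∑ t ∈ range j, m' t ≤ k * ∑ t ∈ range j, l t + n * E := fun j hj => by
    have := hsum m' (fun t => k * l t) j fun t ht => by
      have := h1 t (by omega)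
      have := hc t (by omega)
      omega
    have := hjE j hj
    rw [← hmul]
    omega
  have c4 : ∀ j ≤ n, ∑ t ∈ range j, m' t + k * ∑ t ∈ range n, l (t + 1) ≤
      k * ∑ t ∈ range n, v t + k * ∑ t ∈ range j, l (t + 1) + n * E := fun j hj => by
    obtain ⟨d, rfl⟩ := Nat.exists_eq_add_of_le hj
    have := hsum (fun t => k * l (j + t + 1)) (fun t => m' (j + t)) d fun t ht => by
      have := h1 (j + t) (by omega)
      have := hc (j + t + 1) (by omega)
      omega
    have := hjE d (by omega)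
    have h3 := hmd.2
    rw [← hmul, ← hmul, ← hmul, ← h3, Finset.sum_range_add, Finset.sum_range_add]
    omega
  obtain ⟨m, hm, hmd', hs⟩ := path ha hv hd
    (fun j => ((n * (C + 1) + ∑ t ∈ range j, cl t : ℕ) : ℤ))
    (fun j hj => by
      have := ha j (by omega)
      simp only [Finset.sum_range_succ, cl]
      omega)
    (fun j hj => by
      have a1 := hmd.1 j hj
      have a2 := c2 j hj
      rw [hmul] at a1
      have : k * ∑ t ∈ range j, v t ≤ k * (n * (C + 1) + ∑ t ∈ range j, cl t) := by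
        rw [mul_add, hnE]
        omega
      exact_mod_cast Nat.le_of_mul_le_mul_left this hk)
  have c5 : ∀ j ≤ n, k * ∑ t ∈ range j, m t ≤ ∑ t ∈ range j, m' t + 2 * (n * E) ∧
      ∑ t ∈ range j, m' t ≤ k * ∑ t ∈ range j, m t + n * E := by
    intro j hj
    have a0 := hs j hj
    have a1 := c1 j hj
    have a2 := c2 j hj
    have a3 := c3 j hj
    have a4 := c4 j hj
    constructor
    · have : ∑ t ∈ range j, m t ≤ n * (C + 1) + ∑ t ∈ range j, cl t := by omega
      have := Nat.mul_le_mul_left k this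
      rw [mul_add, hnE] at this
      omega
    · have : ∑ t ∈ range j, m t = ∑ t ∈ range j, l t ∨
          ∑ t ∈ range j, m t + ∑ t ∈ range n, l (t + 1) =
            ∑ t ∈ range n, v t + ∑ t ∈ range j, l (t + 1) ∨
          ∑ t ∈ range j, m t = n * (C + 1) + ∑ t ∈ range j, cl t := by omega
      rcases this with h | h | h
      · rw [h]
        exact a3
      · have := congrArg (k * ·) h
        simp only [mul_add] at this
        omega
      · rw [h, mul_add, hnE]
        omega
  refine ⟨m, hm, hmd', fun j hj => ?_⟩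
  have a1 := c5 j (by omega)
  have a2 := c5 (j + 1) (by omega)
  rw [Finset.sum_range_succ, Finset.sum_range_succ, mul_add] at a2
  have : 4 * n * (C + 1) * k = 4 * (n * E) := by rw [hE]; ring
  omega

lemma card_close (n k C : ℕ) (b : ℕ → ℕ) (S : Finset (ℕ → ℕ))
    (h : ∀ a ∈ S, Close n k C a b ∧ ∀ j, n ≤ j → a j = 0) : S.card ≤ (2 * (C * k) + 1) ^ n := by
  have : (2 * (C * k) + 1) ^ n =
      (Fintype.piFinset fun _ : Fin n => range (2 * (C * k) + 1)).card := by simp
  rw [this]
  refine Finset.card_le_card_of_injOn (fun a j => a j + C * k - k * b j) ?_ ?_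
  · intro a ha
    refine Finset.mem_coe.2 (Fintype.mem_piFinset.2 fun j => mem_range.2 ?_)
    have := (h a ha).1 j j.2
    show a j + C * k - k * b j < _
    omega
  · intro a ha c hc hac
    funext j
    rcases lt_or_ge j n with hj | hj
    · have := congrFun hac ⟨j, hj⟩
      have := (h a ha).1 j hj
      have := (h c hc).1 j hj
      simp only at *
      omega
    · rw [(h a ha).2 j hj, (h c hc).2 j hj]

lemma pert (M : ℕ) : ∀ (n C : ℕ), ∃ c D : ℕ, ∀ (k : ℕ) (l v l' : ℕ → ℕ), 1 ≤ k → Anti n l →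
    Antitone v → Dom n l v → K n l v ≤ M → Close n k C l' l →
    K n l' (fun j => k * v j) ≤ c * k ^ D
  | 0, _ => ⟨1, 0, fun _ _ _ _ _ _ _ _ _ _ => by simp [K]⟩
  | n + 1, C => by
    classical
    obtain ⟨c, D, h⟩ := pert M n (4 * n * (C + 1))
    set C' := 4 * n * (C + 1)
    refine ⟨M * (2 * C' + 1) ^ n * c, n + D, fun k l v l' hk ha hv hd hK hc => ?_⟩
    set G := (Br n l v).filter fun m => Dom n m v with hG
    have hGM : G.card ≤ M := by
      calc G.card = ∑ _m ∈ G, 1 := by simp
        _ ≤ ∑ m ∈ G, K n m v := Finset.sum_le_sum fun m hm =>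
            K_pos hv n m (anti_Br (Finset.mem_filter.1 hm).1) (Finset.mem_filter.1 hm).2
        _ ≤ ∑ m ∈ Br n l v, K n m v := Finset.sum_le_sum_of_subset (Finset.filter_subset _ _)
        _ ≤ M := hK
    set S := (Br n l' fun j => k * v j).filter fun m => Dom n m fun j => k * v j with hS
    have e1 : K (n + 1) l' (fun j => k * v j) = ∑ m ∈ S, K n m fun j => k * v j :=
      (Finset.sum_filter_of_ne fun m _ hm => dom_of_K _ _ _ hm).symm
    have hex : ∀ m' ∈ S, ∃ m ∈ G, Close n k C' m' m := by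
      intro m' hm'
      obtain ⟨m, h1, h2, h3⟩ := approx hk ha hv hd hc (Finset.mem_filter.1 hm').1
        (Finset.mem_filter.1 hm').2
      exact ⟨m, Finset.mem_filter.2 ⟨h1, h2⟩, h3⟩
    have hcard : S.card ≤ M * (2 * (C' * k) + 1) ^ n := by
      calc S.card ≤ (G.biUnion fun m => S.filter fun m' => Close n k C' m' m).card := by
            refine Finset.card_le_card fun m' hm' => ?_
            obtain ⟨m, h1, h2⟩ := hex m' hm'
            exact Finset.mem_biUnion.2 ⟨m, h1, Finset.mem_filter.2 ⟨hm', h2⟩⟩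
        _ ≤ G.card * (2 * (C' * k) + 1) ^ n := by
            refine Finset.card_biUnion_le_card_mul _ _ _ fun m _ => card_close n k C' m _ ?_
            intro a ha
            exact ⟨(Finset.mem_filter.1 ha).2,
              (mem_Br.1 (Finset.mem_filter.1 (Finset.mem_filter.1 ha).1).1).2.1⟩
        _ ≤ _ := Nat.mul_le_mul_right _ hGM
    have hp : (2 * (C' * k) + 1) ^ n ≤ (2 * C' + 1) ^ n * k ^ n := by
      rw [← mul_pow]
      exact Nat.pow_le_pow_left (by nlinarith) n
    rw [e1]
    calc _ ≤ S.card • (c * k ^ D) := by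
          refine Finset.sum_le_card_nsmul _ _ _ fun m' hm' => ?_
          obtain ⟨m, h1, h2⟩ := hex m' hm'
          obtain ⟨h3, h4⟩ := Finset.mem_filter.1 h1
          refine h k m v m' hk (anti_Br h3) hv h4 (le_trans ?_ hK) h2
          exact Finset.single_le_sum (f := fun m => K n m v) (fun _ _ => Nat.zero_le _) h3
      _ ≤ M * ((2 * C' + 1) ^ n * k ^ n) * (c * k ^ D) :=
          Nat.mul_le_mul_right _ (hcard.trans (Nat.mul_le_mul_left _ hp))
      _ = _ := by ring

end Pool.Agent.H28.Kos
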