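import Pool.Agent.H28.Kos2

namespace Pool.Agent.H28.Kos

open Finset

def Prim (n : ℕ) (l v : ℕ → ℕ) : Prop :=
  (∀ i, 0 < i → i < n → ∑ j ∈ range i, v j < ∑ j ∈ range i, l j) ∧
    ∑ j ∈ range n, l j = ∑ j ∈ range n, v j

lemma Prim.dom {n : ℕ} {l v : ℕ → ℕ} (h : Prim n l v) : Dom n l v := by
  refine ⟨fun i hi => ?_, h.2⟩
  rcases Nat.eq_zero_or_pos i with rfl | h0
  · simp
  · rcases hi.lt_or_eq with hi | rfl
    · exact (h.1 i h0 hi).le
    · exact h.2.ge

lemma Prim.first {n : ℕ} {l v : ℕ → ℕ} (h : Prim (n + 2) l v) : v 0 < l 0 := by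
  simpa using h.1 1 (by omega) (by omega)

lemma Prim.last {n : ℕ} {l v : ℕ → ℕ} (h : Prim (n + 2) l v) : l (n + 1) < v (n + 1) := by
  have h1 := h.1 (n + 1) (by omega) (by omega)
  have h2 := h.2
  rw [Finset.sum_range_succ l, Finset.sum_range_succ v] at h2
  omega

def Uf (n t : ℕ) (l v : ℕ → ℕ) (j : ℕ) : ℕ :=
  if j < t then l j else if j = t then l t + l (t + 1) - v n else if j < n then l (j + 1) else 0

lemma exists_t {n : ℕ} {l : ℕ → ℕ} {x : ℕ} (h1 : l n < x) (h2 : x ≤ l 0) :
    ∃ t < n, l (t + 1) < x ∧ x ≤ l t := by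
  induction n with
  | zero => omega
  | succ n ih =>
    rcases lt_or_ge (l n) x with h | h
    · obtain ⟨t, ht, h'⟩ := ih h
      exact ⟨t, by omega, h'⟩
    · exact ⟨n, by omega, h1, h⟩

section U
variable {n t : ℕ} {l v : ℕ → ℕ}

lemma U_lo (i : ℕ) (hi : i ≤ t) : ∑ j ∈ range i, Uf n t l v j = ∑ j ∈ range i, l j :=
  Finset.sum_congr rfl fun j hj => if_pos (by have := mem_range.1 hj; omega)

lemma U_hi (h2 : v n ≤ l t) (i : ℕ) (hi : t < i) (hn : i ≤ n) :
    ∑ j ∈ range i, Uf n t l v j + v n = ∑ j ∈ range (i + 1), l j := by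
  induction i, hi using Nat.le_induction with
  | base =>
    rw [Finset.sum_range_succ, U_lo t le_rfl, Finset.sum_range_succ, Finset.sum_range_succ]
    simp only [Uf, lt_irrefl, if_false, if_true]
    omega
  | succ i hi ih =>
    have := ih (by omega)
    rw [Finset.sum_range_succ, Finset.sum_range_succ l (i + 1)]
    have : Uf n t l v i = l (i + 1) := by
      simp only [Uf]
      rw [if_neg (by omega), if_neg (by omega), if_pos (by omega)]
    omega

lemma U_mem (ha : Anti (n + 1) l) (ht : t < n) (h1 : l (t + 1) < v n) (h2 : v n ≤ l t) :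
    Uf n t l v ∈ Br n l v := by
  refine mem_Br.2 ⟨fun j hj => ?_, fun j hj => ?_, U_hi h2 n ht le_rfl⟩
  · have := ha j (by omega)
    simp only [Uf]
    split_ifs with a b
    · omega
    · subst b
      omega
    · omega
  · simp only [Uf]
    rw [if_neg (by omega), if_neg (by omega), if_neg (by omega)]

lemma U_quant (ha : Anti (n + 1) l) (hv : Antitone v) (hp : Prim (n + 1) l v)
    (h1 : l (t + 1) < v n) : ∀ d i, i + d = n → t ≤ i →
    ∑ j ∈ range i, v j + v n + d ≤ ∑ j ∈ range (i + 1), l j
  | 0, i, h, _ => by
    have := hp.2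
    rw [Finset.sum_range_succ v] at this
    obtain rfl : i = n := by omega
    omega
  | d + 1, i, h, ht => by
    have := U_quant ha hv hp h1 d (i + 1) (by omega) (by omega)
    rw [Finset.sum_range_succ l (i + 1), Finset.sum_range_succ v] at this
    have := ha.le (show t + 1 ≤ i + 1 by omega) (by omega)
    have := hv (show i ≤ n by omega)
    omega

lemma U_prim (ha : Anti (n + 1) l) (hv : Antitone v) (hp : Prim (n + 1) l v) (ht : t < n)
    (h1 : l (t + 1) < v n) (h2 : v n ≤ l t) : Prim n (Uf n t l v) v := by
  refine ⟨fun i h0 hi => ?_, ?_⟩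
  · rcases le_or_gt i t with h | h
    · rw [U_lo i h]
      exact hp.1 i h0 (by omega)
    · have := U_hi h2 i h hi.le
      have := U_quant ha hv hp h1 (n - i) i (by omega) h.le
      omega
  · have := U_hi h2 n ht le_rfl
    have h3 := hp.2
    rw [Finset.sum_range_succ v] at h3
    omega

end U

def mv (m : ℕ → ℕ) (a b j : ℕ) : ℕ := if j = a then m j - 1 else if j = b then m j + 1 else m j

lemma mv_sum {m : ℕ → ℕ} {a b : ℕ} (hab : a < b) (h : 0 < m a) (i : ℕ) :
    ∑ j ∈ range i, mv m a b j + (if a < i ∧ i ≤ b then 1 else 0) = ∑ j ∈ range i, m j := by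
  induction i with
  | zero => simp
  | succ i ih =>
    rw [Finset.sum_range_succ, Finset.sum_range_succ]
    have e : mv m a b i = if i = a then m i - 1 else if i = b then m i + 1 else m i := rfl
    have h' : i = a → 0 < m i := fun e => e ▸ h
    split_ifs at ih e ⊢ <;> omega

lemma mv_mem {n a b : ℕ} {l v m : ℕ → ℕ} (hm : m ∈ Br n l v) (hab : a < b) (hb : b < n)
    (h1 : l (a + 1) < m a) (h2 : m b < l b) : mv m a b ∈ Br n l v := by
  obtain ⟨a1, a2, a3⟩ := mem_Br.1 hm
  refine mem_Br.2 ⟨fun j hj => ?_, fun j hj => ?_, ?_⟩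
  · have := a1 j hj
    simp only [mv]
    split_ifs with p q
    · subst p
      omega
    · subst q
      omega
    · exact this
  · simp only [mv]
    rw [if_neg (by omega), if_neg (by omega)]
    exact a2 j hj
  · have := mv_sum hab (show 0 < m a by omega) n
    rw [if_neg (by omega)] at this
    omega

lemma mv_dom {n a b : ℕ} {v m : ℕ → ℕ} (hp : Prim n m v) (hab : a < b) (hb : b < n)
    (h1 : 0 < m a) : Dom n (mv m a b) v := by
  refine ⟨fun i hi => ?_, ?_⟩
  · have := mv_sum hab h1 i
    split_ifs at this with h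
    · have := hp.1 i (by omega) (by omega)
      omega
    · have := hp.dom.1 i hi
      omega
  · have := mv_sum hab h1 n
    rw [if_neg (by omega)] at this
    have := hp.2
    omega

lemma mv_prim {n a : ℕ} {v m : ℕ → ℕ} (hp : Prim n m v) (hb : a + 1 < n) (h1 : 0 < m a)
    (h2 : ∑ j ∈ range (a + 1), v j + 2 ≤ ∑ j ∈ range (a + 1), m j) : Prim n (mv m a (a + 1)) v := by
  refine ⟨fun i h0 hi => ?_, (mv_dom hp (by omega) hb h1).2⟩
  have := mv_sum (show a < a + 1 by omega) h1 i
  split_ifs at this with h
  · obtain rfl : i = a + 1 := by omega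
    omega
  · have := hp.1 i h0 hi
    omega

lemma K_two {n a b : ℕ} {l v m : ℕ → ℕ} (hm : m ∈ Br n l v) (hab : a < b) (hb : b < n)
    (h1 : l (a + 1) < m a) (h2 : m b < l b) :
    K n m v + K n (mv m a b) v ≤ K (n + 1) l v := by
  classical
  have hne : m ≠ mv m a b := fun h => by
    have := congrFun h a
    simp only [mv, if_true] at this
    omega
  rw [← Finset.sum_pair (f := fun m => K n m v) hne]
  refine Finset.sum_le_sum_of_subset ?_
  intro x hx
  rcases Finset.mem_insert.1 hx with rfl | hx
  · exact hm
  · rw [Finset.mem_singleton.1 hx]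
    exact mv_mem hm hab hb h1 h2

def Mid (n : ℕ) (l : ℕ → ℕ) : Prop := ∃ i ≤ n, l n < l i ∧ l i < l 0

lemma exists_ab {n t : ℕ} {l v : ℕ → ℕ} (ha : Anti (n + 1) l) (ht : t < n)
    (h1 : l (t + 1) < v n) (h2 : v n ≤ l t) (h3 : v n < l 0) (hm : Mid n l) :
    ∃ a b, a < b ∧ b < n ∧ l (a + 1) < Uf n t l v a ∧ Uf n t l v b < l b := by
  rcases lt_or_ge (l t) (l 0) with h | h
  · obtain ⟨a, hat, h4, h5⟩ := exists_t (l := l) (n := t) (x := l 0) h le_rfl
    refine ⟨a, t, hat, ht, ?_, ?_⟩
    · simp only [Uf, if_pos hat]
      omega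
    · simp only [Uf, lt_irrefl, if_false, if_true]
      omega
  · obtain ⟨i, hi, h4, h5⟩ := hm
    have hit : t < i := by
      by_contra hc
      have := ha.le (not_lt.1 hc) (by omega)
      omega
    obtain ⟨b, hb, h6, h7⟩ := exists_t (l := l) (n := n) (x := l i) h4 h5.le
    have hbt : t < b := by
      by_contra hc
      have := ha.le (show b + 1 ≤ i by
        by_contra hc'
        have := ha.le (show i ≤ b by omega) (by omega)
        have := ha.le (show b ≤ t by omega) (by omega)
        omega) (by omega)
      omega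
    refine ⟨t, b, hbt, hb, ?_, ?_⟩
    · simp only [Uf, lt_irrefl, if_false, if_true]
      omega
    · simp only [Uf]
      rw [if_neg (by omega), if_neg (by omega), if_pos hb]
      omega

lemma main_c {v : ℕ → ℕ} (hv : Antitone v) : ∀ (r : ℕ) (l : ℕ → ℕ), Anti (r + 3) l →
    Prim (r + 3) l v → l (r + 2) < l 1 → l (r + 1) < l 0 →
    r + 3 ≤ 2 * K (r + 3) l v ∧ (Mid (r + 2) l → r + 4 ≤ 2 * K (r + 3) l v)
  | 0, l, ha, hp, n1, n2 => by
    have f1 := hp.first
    have f2 := hp.last
    have f3 := hv (show 0 ≤ 2 by omega)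
    obtain ⟨t, ht, h1, h2⟩ := exists_t (l := l) (n := 2) (x := v 2) f2 (by omega)
    obtain ⟨a, b, hab, hb, h3, h4⟩ := exists_ab ha ht h1 h2 (by omega) ⟨1, by omega, n1, n2⟩
    have hU := U_mem ha ht h1 h2
    have hP := U_prim ha hv hp ht h1 h2
    have k1 : _ ≤ K 3 l v := K_two hU hab hb h3 h4
    have k2 := K_pos hv _ _ (anti_Br hU) hP.dom
    have k3 := K_pos hv _ _ (anti_Br (mv_mem hU hab hb h3 h4)) (mv_dom hP hab hb (by omega))
    have : 2 ≤ K 3 l v := by omega
    constructor
    · show 3 ≤ 2 * K 3 l v
      omega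
    · intro _
      show 4 ≤ 2 * K 3 l v
      omega
  | r + 1, l, ha, hp, n1, n2 => by
    have f1 := hp.first
    have f2 : l (r + 3) < v (r + 3) := hp.last
    have f3 := hv (show 0 ≤ r + 3 by omega)
    replace n1 : l (r + 3) < l 1 := n1
    replace n2 : l (r + 2) < l 0 := n2
    obtain ⟨t, ht, h1, h2⟩ := exists_t (l := l) (n := r + 3) (x := v (r + 3)) f2 (by omega)
    have hU := U_mem ha ht h1 h2
    have hP := U_prim ha hv hp ht h1 h2
    set U := Uf (r + 3) t l v with hUd
    have aU := anti_Br hU
    have u1 : ∀ j < t, U j = l j := fun j hj => if_pos hj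
    have u2 : U t = l t + l (t + 1) - v (r + 3) := by
      simp only [hUd, Uf, lt_irrefl, if_false, if_true]
    have u3 : ∀ j, t < j → j < r + 3 → U j = l (j + 1) := fun j h h' => by
      simp only [hUd, Uf]
      rw [if_neg (by omega), if_neg (by omega), if_pos h']
    have key : Mid (r + 3) l → r + 5 ≤ 2 * K (r + 4) l v := by
      intro hm
      have k2 := K_pos hv _ _ aU hP.dom
      by_cases s1 : U (r + 2) < U 1
      · by_cases s2 : U (r + 1) < U 0
        · obtain ⟨a, b, hab, hb, h3, h4⟩ := exists_ab ha ht h1 h2 (by omega) hm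
          rw [← hUd] at h3 h4
          have k1 : _ ≤ K (r + 4) l v := K_two hU hab hb h3 h4
          have k3 := K_pos hv _ _ (anti_Br (mv_mem hU hab hb h3 h4)) (mv_dom hP hab hb (by omega))
          have k4 := (main_c hv r U aU hP s1 s2).1
          omega
        · have t0 : t ≠ 0 := by
            rintro rfl
            have := u3 (r + 1) (by omega) (by omega)
            have := ha.le (show 1 ≤ r + 1 + 1 by omega) (by omega)
            simp only [zero_add] at *
            omega
          have e0 := u1 0 (by omega)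
          have t1 : t = r + 2 := by
            rcases lt_trichotomy t (r + 1) with h | h | h
            · have : U (r + 1) = l (r + 2) := u3 (r + 1) h (by omega)
              omega
            · subst h
              have := ha.le (show 0 ≤ r + 1 by omega) (by omega)
              omega
            · omega
          subst t1
          have e1 := u1 (r + 1) (by omega)
          have e2 : U (r + 2) = l (r + 2) + l (r + 3) - v (r + 3) := u2
          have e3 := ha.le (show 0 ≤ r + 1 by omega) (by omega)
          have h3 : l (r + 1 + 1) < U (r + 1) := by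
            show l (r + 2) < _
            omega
          have h4 : U (r + 1 + 1) < l (r + 1 + 1) := by
            show U (r + 2) < l (r + 2)
            omega
          have k1 : _ ≤ K (r + 4) l v := K_two hU (show r + 1 < r + 1 + 1 by omega) (by omega) h3 h4
          have hm2 := mv_mem hU (show r + 1 < r + 1 + 1 by omega) (by omega) h3 h4
          have hp2 : Prim (r + 3) (mv U (r + 1) (r + 1 + 1)) v := by
            refine mv_prim hP (by omega) (by omega) ?_
            calc _ ≤ ∑ j ∈ range (r + 1 + 1), (v j + 1) := by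
                  simp [Finset.sum_add_distrib]
              _ ≤ _ := Finset.sum_le_sum fun j hj => by
                  have hj' := mem_range.1 hj
                  have := aU.le (show j ≤ r + 1 by omega) (by omega)
                  have := hv (Nat.zero_le j)
                  omega
          have g1 : mv U (r + 1) (r + 1 + 1) (r + 2) < v (r + 2) := hp2.last
          have g2 := hv (show 0 ≤ r + 2 by omega)
          have g3 : mv U (r + 1) (r + 1 + 1) (r + 1) = U (r + 1) - 1 := if_pos rfl
          have g4 : mv U (r + 1) (r + 1 + 1) 0 = U 0 := by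
            simp only [mv]
            rw [if_neg (by omega), if_neg (by omega)]
          have g5 := (anti_Br hm2).le (show 1 ≤ r + 1 by omega) (by omega)
          have k4 := (main_c hv r _ (anti_Br hm2) hp2 (by omega) (by omega)).1
          omega
      · have t2 : t < r + 2 := by
          by_contra hc
          obtain rfl : t = r + 2 := by omega
          have := u1 1 (by omega)
          have := ha.le (show 1 ≤ r + 2 by omega) (by omega)
          have e2 : U (r + 2) = l (r + 2) + l (r + 3) - v (r + 3) := u2
          omega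
        have e1 : U (r + 2) = l (r + 3) := u3 (r + 2) t2 (by omega)
        have t1 : t ≤ 1 := by
          by_contra hc
          have := u1 1 (by omega)
          omega
        have q : ∑ j ∈ range 1, v j + v (r + 3) + (r + 2) ≤ ∑ j ∈ range (1 + 1), l j :=
          U_quant ha hv hp h1 (r + 2) 1 (by omega) t1
        simp only [Finset.sum_range_succ, range_zero, sum_empty, zero_add] at q
        have e2 : l 1 < U 0 ∧ v 0 + 2 ≤ U 0 := by
          rcases Nat.eq_zero_or_pos t with rfl | h
          · simp only [zero_add] at *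
            omega
          · obtain rfl : t = 1 := by omega
            have := u1 0 (by omega)
            have := ha.le (show 1 + 1 ≤ r + 3 by omega) (by omega)
            omega
        have h3 : l (0 + 1) < U 0 := e2.1
        have h4 : U (0 + 1) < l (0 + 1) := by
          show U 1 < l 1
          omega
        have k1 : _ ≤ K (r + 4) l v := K_two hU (show 0 < 0 + 1 by omega) (by omega) h3 h4
        have hm2 := mv_mem hU (show 0 < 0 + 1 by omega) (by omega) h3 h4
        have hp2 : Prim (r + 3) (mv U 0 (0 + 1)) v :=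
          mv_prim hP (by omega) (by omega) (by simpa using e2.2)
        have g1 : mv U 0 (0 + 1) 0 = U 0 - 1 := if_pos rfl
        have g2 : mv U 0 (0 + 1) 1 = U 1 + 1 := by simp [mv]
        have g3 : mv U 0 (0 + 1) (r + 2) = U (r + 2) := by
          simp only [mv]
          rw [if_neg (by omega), if_neg (by omega)]
        have g4 := aU.le (show 1 ≤ r + 2 by omega) (by omega)
        have g5 := (anti_Br hm2).le (show 1 ≤ r + 1 by omega) (by omega)
        have k4 := (main_c hv r _ (anti_Br hm2) hp2 (by omega) (by omega)).1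
        omega
    refine ⟨?_, key⟩
    show r + 4 ≤ 2 * K (r + 4) l v
    by_cases hm : Mid (r + 3) l
    · have := key hm
      omega
    · have nm : ∀ i ≤ r + 3, l i ≤ l (r + 3) ∨ l 0 ≤ l i := by
        intro i hi
        by_contra hc
        exact hm ⟨i, hi, by omega, by omega⟩
      have m1 := nm 1 (by omega)
      have m2 := nm (r + 2) (by omega)
      have m3 := nm t (by omega)
      have m4 := nm (t + 1) (by omega)
      have t0 : t ≠ 0 := by
        rintro rfl
        simp only [zero_add] at *
        omega
      have t1 : t ≠ r + 2 := by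
        rintro rfl
        omega
      have e0 := u1 0 (by omega)
      have e1 : U (r + 2) = l (r + 3) := u3 (r + 2) (by omega) (by omega)
      have e2 := ha.le (show t + 1 ≤ r + 3 by omega) (by omega)
      have e3 := ha.le (show 0 ≤ t by omega) (by omega)
      have e4 := aU.le (show 1 ≤ t by omega) (by omega)
      have e5 := aU.le (show t ≤ r + 1 by omega) (by omega)
      have k4 := (main_c hv r U aU hP (by omega) (by omega)).2 ⟨t, by omega, by omega, by omega⟩
      have k1 : K (r + 3) U v ≤ K (r + 4) l v :=
        Finset.single_le_sum (f := fun m => K (r + 3) m v) (fun _ _ => Nat.zero_le _) hU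
      omega

end Pool.Agent.H28.Kos
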