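import Pool.Agent.H28.Kos3

namespace Pool.Agent.H28.Kos

open Finset

lemma bound (M : ℕ) : ∃ c D : ℕ, ∀ (k : ℕ), 1 ≤ k → ∀ (n : ℕ) (l v : ℕ → ℕ), Anti n l →
    Antitone v → K n l v ≤ M →
    K n (fun j => k * l j) (fun j => k * v j) ≤ ((c + 1) * k ^ D) ^ (K n l v - 1) := by
  choose c D h using fun n => pert M n 0
  refine ⟨∑ n ∈ range (2 * M + 1), c n, ∑ n ∈ range (2 * M + 1), D n, fun k hk n => ?_⟩
  set B := (∑ n ∈ range (2 * M + 1), c n + 1) * k ^ ∑ n ∈ range (2 * M + 1), D n with hB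
  have hB1 : 1 ≤ B := Nat.mul_pos (by omega) (Nat.pow_pos hk)
  have hmul : ∀ (a : ℕ → ℕ) (j : ℕ), ∑ t ∈ range j, k * a t = k * ∑ t ∈ range j, a t :=
    fun a j => (Finset.mul_sum _ _ _).symm
  induction n using Nat.strong_induction_on with
  | _ n ih =>
  intro l v ha hv hM
  by_cases h0 : K n (fun j => k * l j) (fun j => k * v j) = 0
  · rw [h0]
    exact Nat.zero_le _
  have hd : Dom n l v := by
    have := dom_of_K _ _ _ h0
    refine ⟨fun i hi => ?_, ?_⟩
    · have := this.1 i hi
      rw [hmul, hmul] at this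
      exact Nat.le_of_mul_le_mul_left this hk
    · have := this.2
      rw [hmul, hmul] at this
      exact Nat.eq_of_mul_eq_mul_left hk this
  have hK := K_pos hv n l ha hd
  by_cases hp : Prim n l v
  · have one : ∀ x, x ≤ 1 → x ≤ B ^ (K n l v - 1) := fun x hx => hx.trans (Nat.one_le_pow _ _ hB1)
    rcases lt_or_ge n 3 with h3 | h3
    · refine one _ (K_spec1 n _ _ (k * l 1) fun j h1 h2 => ?_)
      obtain rfl : j = 1 := by omega
      rfl
    obtain ⟨r, rfl⟩ := Nat.exists_eq_add_of_le' h3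
    by_cases s1 : l (r + 2) < l 1
    · by_cases s2 : l (r + 1) < l 0
      · have k1 := (main_c hv r l ha hp s1 s2).1
        have k2 := h (r + 3) k l v (fun j => k * l j) hk ha hv hd hM fun j _ => by simp
        have hr : r + 3 ∈ range (2 * M + 1) := mem_range.2 (by omega)
        have k3 := Finset.single_le_sum (f := c) (fun _ _ => Nat.zero_le _) hr
        have k4 := Finset.single_le_sum (f := D) (fun _ _ => Nat.zero_le _) hr
        calc _ ≤ _ := k2
          _ ≤ B := Nat.mul_le_mul (by omega) (Nat.pow_le_pow_right hk k4)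
          _ = B ^ 1 := (pow_one B).symm
          _ ≤ _ := Nat.pow_le_pow_right hB1 (by omega)
      · refine one _ (K_spec2 _ _ _ (k * l 0) fun j h1 => ?_)
        have := ha.le (show j ≤ r + 1 by omega) (by omega)
        have := ha.le (Nat.zero_le j) (by omega)
        rw [show l j = l 0 by omega]
    · refine one _ (K_spec1 _ _ _ (k * l 1) fun j h1 h2 => ?_)
      have := ha.le (show j ≤ r + 2 by omega) (by omega)
      have := ha.le h1 (by omega)
      rw [show l j = l 1 by omega]
  · obtain ⟨i, hi0, hin, ht⟩ : ∃ i, 0 < i ∧ i < n ∧ ∑ j ∈ range i, l j = ∑ j ∈ range i, v j := by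
      by_contra hc
      refine hp ⟨fun i h1 h2 => lt_of_le_of_ne (hd.1 i h2.le) fun e => hc ⟨i, h1, h2, e.symm⟩, hd.2⟩
    obtain ⟨r, rfl⟩ := Nat.exists_eq_add_of_le hin.le
    have f1 := K_fac i v r l ha ht
    have f2 := K_fac i (fun j => k * v j) r (fun j => k * l j)
      (fun j hj => Nat.mul_le_mul_left k (ha j hj)) (by rw [hmul, hmul, ht])
    have p1 : 1 ≤ K i l v := Nat.pos_of_ne_zero fun e => by simp [f1, e] at hK
    have p2 : 1 ≤ K r (sh i l) (sh i v) := Nat.pos_of_ne_zero fun e => by simp [f1, e] at hK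
    have q1 := ih i hin l v (fun j hj => ha j (by omega)) hv (by nlinarith)
    have q2 := ih r (by omega) (sh i l) (sh i v) (fun j hj => ha (i + j) (by omega))
      (fun a b hab => hv (by omega)) (by nlinarith)
    rw [f2, f1]
    calc _ ≤ B ^ (K i l v - 1) * B ^ (K r (sh i l) (sh i v) - 1) := Nat.mul_le_mul q1 q2
      _ ≤ _ := by
        rw [← pow_add]
        refine Nat.pow_le_pow_right hB1 ?_
        obtain ⟨a, ea⟩ := Nat.exists_eq_add_of_le' p1
        obtain ⟨b, eb⟩ := Nat.exists_eq_add_of_le' p2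
        rw [ea, eb]
        have : (a + 1) * (b + 1) = a * b + a + b + 1 := by ring
        omega

def Tab (n : ℕ) (l v : ℕ → ℕ) : Set (ℕ × ℕ → ℕ) :=
  {T | (∀ x : ℕ × ℕ, ¬ (x.2 < l x.1) → T x = 0) ∧
    (∀ i j : ℕ, j + 1 < l i → T (i, j) ≤ T (i, j + 1)) ∧
    (∀ i j : ℕ, j < l (i + 1) → T (i, j) < T (i + 1, j)) ∧
    (∀ x : ℕ × ℕ, x.2 < l x.1 → T x < n) ∧
    ∀ c < n, Set.ncard {x : ℕ × ℕ | x.2 < l x.1 ∧ T x = c} = v c}

lemma ncard_strip (N : ℕ) (m l : ℕ → ℕ) (hl : ∀ j, N ≤ j → l j = 0) (hm : ∀ j, m j ≤ l j) :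
    ∑ i ∈ range N, m i + Set.ncard {x : ℕ × ℕ | m x.1 ≤ x.2 ∧ x.2 < l x.1} =
      ∑ i ∈ range N, l i := by
  have e : {x : ℕ × ℕ | m x.1 ≤ x.2 ∧ x.2 < l x.1} =
      ((range N).biUnion fun i => (Ico (m i) (l i)).image (Prod.mk i) : Finset (ℕ × ℕ)) := by
    ext ⟨i, j⟩
    simp only [Set.mem_ofPred_eq, Finset.coe_biUnion, Finset.coe_range, Set.mem_Iio,
      Finset.coe_image, Finset.coe_Ico, Set.mem_iUnion, Set.mem_image, Set.mem_Ico, Prod.mk.injEq]
    constructor
    · rintro ⟨h1, h2⟩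
      refine ⟨i, ?_, j, ⟨h1, h2⟩, rfl, rfl⟩
      by_contra hc
      have := hl i (by omega)
      omega
    · rintro ⟨_, _, _, h, rfl, rfl⟩
      exact h
  rw [e, Set.ncard_coe_finset, Finset.card_biUnion, ← Finset.sum_add_distrib]
  · refine Finset.sum_congr rfl fun i _ => ?_
    rw [Finset.card_image_of_injective _ (Prod.mk_right_injective i), Nat.card_Ico]
    have := hm i
    omega
  · intro a _ b _ hab
    refine Finset.disjoint_left.2 fun x ha hb => hab ?_
    obtain ⟨_, _, rfl⟩ := Finset.mem_image.1 ha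
    obtain ⟨_, _, h⟩ := Finset.mem_image.1 hb
    exact (congrArg Prod.fst h).symm

lemma exists_cut (f : ℕ → ℕ) (L n : ℕ) (h : ∀ j, j + 1 < L → f j ≤ f (j + 1)) :
    ∃ m ≤ L, ∀ j < L, (f j < n ↔ j < m) := by
  induction L with
  | zero => exact ⟨0, le_rfl, fun j hj => by omega⟩
  | succ L ih =>
    obtain ⟨m, hm, h2⟩ := ih fun j hj => h j (by omega)
    by_cases hL : f L < n
    · refine ⟨L + 1, le_rfl, fun j hj => ⟨fun _ => hj, fun _ => lt_of_le_of_lt ?_ hL⟩⟩
      have : ∀ d j, j + d = L → f j ≤ f L := by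
        intro d
        induction d with
        | zero => intro j e; rw [← e]; exact le_rfl
        | succ d ihd => intro j e; exact (h j (by omega)).trans (ihd (j + 1) (by omega))
      exact this (L - j) j (by omega)
    · refine ⟨m, by omega, fun j hj => ?_⟩
      rcases Nat.lt_succ_iff_lt_or_eq.1 hj with hj | rfl
      · exact h2 j hj
      · exact ⟨fun a => absurd a hL, fun a => by omega⟩

def glue (n : ℕ) (l m : ℕ → ℕ) (T : ℕ × ℕ → ℕ) (x : ℕ × ℕ) : ℕ :=
  if x.2 < m x.1 then T x else if x.2 < l x.1 then n else 0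

lemma Br_le {n : ℕ} {l v m : ℕ → ℕ} (hm : m ∈ Br n l v) (j : ℕ) : m j ≤ l j := by
  rcases lt_or_ge j n with h | h
  · exact ((mem_Br.1 hm).1 j h).2
  · rw [(mem_Br.1 hm).2.1 j h]
    exact Nat.zero_le _

lemma glue_mem {n : ℕ} {l v m : ℕ → ℕ} {T : ℕ × ℕ → ℕ} (hl : ∀ j, n + 1 ≤ j → l j = 0)
    (hm : m ∈ Br n l v) (hT : T ∈ Tab n m v) : glue n l m T ∈ Tab (n + 1) l v := by
  obtain ⟨t1, t2, t3, t4, t5⟩ := hT
  have ml := Br_le hm
  obtain ⟨m1, m2, m3⟩ := mem_Br.1 hm
  refine ⟨fun x hx => ?_, fun i j hj => ?_, fun i j hj => ?_, fun x hx => ?_, fun c hc => ?_⟩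
  · have := ml x.1
    simp only [glue]
    rw [if_neg (by omega), if_neg hx]
  · have := t2 i j
    have := t4 (i, j)
    simp only [glue] at *
    split_ifs <;> omega
  · have hi : i < n := by
      by_contra hc
      have := hl (i + 1) (by omega)
      omega
    have := m1 i hi
    have := t3 i j
    have := t4 (i, j)
    simp only [glue] at *
    split_ifs <;> omega
  · have := t4 x
    simp only [glue]
    split_ifs <;> omega
  · rcases Nat.lt_succ_iff_lt_or_eq.1 hc with hc | rfl
    · rw [← t5 c hc]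
      congr 1
      ext x
      have := ml x.1
      simp only [glue, Set.mem_ofPred_eq]
      split_ifs <;> omega
    · have e : {x : ℕ × ℕ | x.2 < l x.1 ∧ glue c l m T x = c} =
          {x : ℕ × ℕ | m x.1 ≤ x.2 ∧ x.2 < l x.1} := by
        ext x
        have := t4 x
        simp only [glue, Set.mem_ofPred_eq]
        split_ifs <;> omega
      have := ncard_strip (c + 1) m l hl ml
      rw [Finset.sum_range_succ m, m2 c le_rfl] at this
      rw [e]
      omega

lemma glue_surj {n : ℕ} {l v : ℕ → ℕ} {T : ℕ × ℕ → ℕ} (ha : Antitone l)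
    (hl : ∀ j, n + 1 ≤ j → l j = 0) (hT : T ∈ Tab (n + 1) l v) :
    ∃ m ∈ Br n l v, ∃ T' ∈ Tab n m v, glue n l m T' = T := by
  obtain ⟨t1, t2, t3, t4, t5⟩ := hT
  choose m ml hm using fun i => exists_cut (fun j => T (i, j)) (l i) n (t2 i)
  have hcol : ∀ i, 0 < l i → i ≤ T (i, 0) := by
    intro i
    induction i with
    | zero => intro _; exact Nat.zero_le _
    | succ i ih =>
      intro h
      have := t3 i 0 h
      have := ih (lt_of_lt_of_le h (ha (Nat.le_succ i)))
      omega
  have m1 : ∀ i, l (i + 1) ≤ m i := by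
    intro i
    by_contra hc
    have a1 := t3 i (m i) (by omega)
    have a2 := t4 (i + 1, m i) (by simpa using hc)
    have a3 := ha (Nat.le_succ i)
    have := (hm i (m i) (by simp only [Nat.succ_eq_add_one] at a3; omega)).1 (by omega)
    omega
  have m2 : ∀ j, n ≤ j → m j = 0 := by
    intro j hj
    by_contra hc
    have := ml j
    have := hcol j (by omega)
    have := (hm j 0 (by omega)).2 (by omega)
    omega
  have hm' : ∀ x : ℕ × ℕ, x.2 < l x.1 → (T x < n ↔ x.2 < m x.1) := fun x hx => hm x.1 x.2 hx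
  refine ⟨m, mem_Br.2 ⟨fun j _ => ⟨m1 j, ml j⟩, m2, ?_⟩,
    fun x => if x.2 < m x.1 then T x else 0, ⟨fun x hx => if_neg hx, fun i j hj => ?_,
      fun i j hj => ?_, fun x hx => ?_, fun c hc => ?_⟩, ?_⟩
  · have e : {x : ℕ × ℕ | x.2 < l x.1 ∧ T x = n} = {x : ℕ × ℕ | m x.1 ≤ x.2 ∧ x.2 < l x.1} := by
      ext x
      have := t4 x
      have := hm' x
      simp only [Set.mem_ofPred_eq]
      omega
    have := ncard_strip (n + 1) m l hl ml
    rw [Finset.sum_range_succ m, m2 n le_rfl, ← e, t5 n (by omega)] at this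
    omega
  · have := ml i
    simp only
    rw [if_pos (by omega), if_pos hj]
    exact t2 i j (by omega)
  · have := ml (i + 1)
    have := m1 i
    simp only
    rw [if_pos (by omega), if_pos hj]
    exact t3 i j (by omega)
  · have := ml x.1
    simp only
    rw [if_pos hx]
    exact (hm' x (by omega)).2 hx
  · rw [← t5 c (by omega)]
    congr 1
    ext x
    have := ml x.1
    have := hm' x
    simp only [Set.mem_ofPred_eq]
    split_ifs <;> omega
  · funext x
    have := t1 x
    have := t4 x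
    have := hm' x
    simp only [glue]
    split_ifs <;> omega

lemma card_Tab (v : ℕ → ℕ) : ∀ (n : ℕ) (l : ℕ → ℕ), Antitone l → (∀ j, n ≤ j → l j = 0) →
    Finite (Tab n l v) ∧ Nat.card (Tab n l v) = K n l v
  | 0, l, _, hl => by
    have e : Tab 0 l v = {0} := by
      have h0 : ∀ j, l j = 0 := fun j => hl j (Nat.zero_le _)
      ext T
      constructor
      · intro h
        funext x
        exact h.1 x (by simp [h0])
      · rintro rfl
        exact ⟨fun _ _ => rfl, by simp, by simp [h0], by simp [h0], by simp⟩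
    rw [e]
    exact ⟨inferInstance, by simp [K]⟩
  | n + 1, l, ha, hl => by
    have ih : ∀ m : Br n l v, Finite (Tab n m.1 v) ∧ Nat.card (Tab n m.1 v) = K n m.1 v := by
      intro m
      refine card_Tab v n m.1 (antitone_nat_of_succ_le fun j => ?_) (mem_Br.1 m.2).2.1
      rcases lt_or_ge (j + 1) n with h | h
      · exact anti_Br m.2 j h
      · rw [(mem_Br.1 m.2).2.1 _ h]
        exact Nat.zero_le _
    haveI := fun m => (ih m).1
    let F : (Σ m : Br n l v, Tab n m.1 v) → Tab (n + 1) l v :=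
      fun p => ⟨glue n l p.1.1 p.2.1, glue_mem hl p.1.2 p.2.2⟩
    have hF : Function.Bijective F := by
      constructor
      · rintro ⟨⟨m, hm⟩, ⟨T, hT⟩⟩ ⟨⟨m', hm'⟩, ⟨T', hT'⟩⟩ h
        have h' : glue n l m T = glue n l m' T' := congrArg Subtype.val h
        have em : m = m' := by
          funext i
          have a1 := Br_le hm i
          have a2 := Br_le hm' i
          have b1 := congrFun h' (i, m i)
          have b2 := congrFun h' (i, m' i)
          have c1 := hT.2.2.2.1 (i, m' i)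
          have c2 := hT'.2.2.2.1 (i, m i)
          simp only [glue] at b1 b2 c1 c2
          split_ifs at b1 b2 <;> omega
        subst em
        have eT : T = T' := by
          funext x
          have b1 := congrFun h' x
          have c1 := hT.1 x
          have c2 := hT'.1 x
          simp only [glue] at b1 c1 c2
          split_ifs at b1 <;> omega
        subst eT
        rfl
      · rintro ⟨T, hT⟩
        obtain ⟨m, hm, T', hT', e⟩ := glue_surj ha hl hT
        exact ⟨⟨⟨m, hm⟩, ⟨T', hT'⟩⟩, Subtype.ext e⟩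
    refine ⟨Finite.of_surjective F hF.2, ?_⟩
    rw [← Nat.card_eq_of_bijective F hF, Nat.card_sigma, Finset.sum_congr rfl fun m _ => (ih m).2]
    exact Finset.sum_coe_sort (Br n l v) fun m => K n m v

lemma fin_poly (c D : ℕ) : {p : Polynomial ℚ | ∀ k : ℕ, 1 ≤ k → ∃ a : ℕ, a ≤ c * k ^ D ∧
    p.eval (k : ℚ) = a}.Finite := by
  have hdeg : ∀ p : Polynomial ℚ, (∀ k : ℕ, 1 ≤ k → ∃ a : ℕ, a ≤ c * k ^ D ∧ p.eval (k : ℚ) = a) →
      p.natDegree ≤ D := by
    intro p hp
    by_contra hc
    have h1 : (Polynomial.X ^ D : Polynomial ℚ).degree < p.degree := by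
      rw [Polynomial.degree_X_pow]
      exact Polynomial.coe_lt_degree.2 (by omega)
    have h2 := (Polynomial.abs_div_tendsto_atTop_atTop_of_degree_gt p _ h1
      (pow_ne_zero _ Polynomial.X_ne_zero)).comp tendsto_natCast_atTop_atTop
    obtain ⟨k, h3, h4⟩ := ((h2.eventually_gt_atTop (c : ℚ)).and (Filter.eventually_ge_atTop 1)).exists
    obtain ⟨a, h5, h6⟩ := hp k h4
    have hk : (0 : ℚ) < (k : ℚ) ^ D := by positivity
    simp only [Function.comp, h6, Polynomial.eval_pow, Polynomial.eval_X] at h3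
    rw [abs_of_nonneg (by positivity), lt_div_iff₀ hk] at h3
    have : (a : ℚ) ≤ c * k ^ D := by exact_mod_cast h5
    linarith
  have h1 : (Set.pi Set.univ fun j : Fin (D + 1) =>
      (fun a : ℕ => (a : ℚ)) '' Set.Iic (c * (j + 1) ^ D)).Finite :=
    Set.Finite.pi fun j => (Set.finite_Iic _).image _
  refine Set.Finite.of_finite_image
    (f := fun p (j : Fin (D + 1)) => p.eval (((j : ℕ) + 1 : ℕ) : ℚ)) (h1.subset ?_) ?_
  · rintro _ ⟨p, hp, rfl⟩ j _
    obtain ⟨a, h5, h6⟩ := hp (j + 1) (by omega)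
    exact ⟨a, h5, h6.symm⟩
  · intro p hp q hq h
    refine Polynomial.eq_of_natDegree_lt_card_of_eval_eq p q
      (f := fun j : Fin (D + 1) => (((j : ℕ) + 1 : ℕ) : ℚ)) ?_ (congrFun h) ?_
    · intro a b hab
      have := Nat.cast_injective (R := ℚ) hab
      exact Fin.ext (by omega)
    · have := hdeg p hp
      have := hdeg q hq
      simp only [Fintype.card_fin]
      omega

end Pool.Agent.H28.Kos
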