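import Pool.Agent.H22.Ramsey

set_option autoImplicit false

namespace Pool.Agent.H28.Mc
open Classical Finset Pool.Agent.H22.Ramsey

variable {V α : Type}

lemma sdr {β : Type} [Nonempty V] (P : Finset β) (t : β → Finset V) (h : ∀ p ∈ P, P.card ≤ (t p).card) :
    ∃ g : β → V, Set.InjOn g P ∧ ∀ p ∈ P, g p ∈ t p := by
  obtain ⟨f, h1, h2⟩ := (all_card_le_biUnion_card_iff_existsInjective' fun p : P => t p).1 (by
    intro s
    rcases s.eq_empty_or_nonempty with rfl | ⟨p, hp⟩
    · simp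
    · calc s.card ≤ P.card := by simpa using s.card_le_univ
        _ ≤ (t p).card := h p p.2
        _ ≤ _ := card_le_card (subset_biUnion_of_mem (fun p : P => t p) hp))
  refine ⟨fun p => if e : p ∈ P then f ⟨p, e⟩ else Classical.arbitrary V, fun p hp q hq e => ?_,
    fun p hp => by simpa [hp] using h2 ⟨p, hp⟩⟩
  simp only [mem_coe] at hp hq
  simpa [hp, hq, h1.eq_iff] using e

/-- `S` contains disjoint copies of `G`, indexed by `ι`, in the relation `R` -/
def PkI (G : SimpleGraph α) (ι : Type) (R : V → V → Prop) (S : Finset V) : Prop :=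
  ∃ f : ι × α → V, Function.Injective f ∧ (∀ p, f p ∈ S) ∧
    ∀ p q : ι × α, p.1 = q.1 → G.Adj p.2 q.2 → R (f p) (f q)

abbrev Pk (G : SimpleGraph α) (n : ℕ) (R : V → V → Prop) (S : Finset V) : Prop := PkI G (Fin n) R S

variable {G : SimpleGraph α} {R : V → V → Prop} {S T : Finset V}

lemma PkI.comp {ι κ : Type} (h : PkI G κ R S) (e : ι → κ) (he : Function.Injective e) :
    PkI G ι R S := by
  obtain ⟨f, a, b, c⟩ := h
  exact ⟨fun p => f (e p.1, p.2), fun p q h => by
    have := a h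
    simp only [Prod.mk.injEq] at this
    exact Prod.ext (he this.1) this.2, fun p => b _, fun p q h g => c _ _ (by simp [h]) g⟩

lemma PkI.mono {ι : Type} (h : PkI G ι R S) (e : S ⊆ T) : PkI G ι R T := by
  obtain ⟨f, a, b, c⟩ := h
  exact ⟨f, a, fun p => e (b p), c⟩

lemma pk_le {n m : ℕ} (h : Pk G n R S) (e : m ≤ n) : Pk G m R S :=
  h.comp (Fin.castLE e) (Fin.castLE_injective e)

lemma pk_zero (G : SimpleGraph α) (R : V → V → Prop) (S : Finset V) : Pk G 0 R S :=
  ⟨fun p => p.1.elim0, fun p => p.1.elim0, fun p => p.1.elim0, fun p => p.1.elim0⟩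

lemma pk_add {n m : ℕ} (h1 : Pk G n R T) (h2 : Pk G m R (S \ T)) (e : T ⊆ S) : Pk G (n + m) R S := by
  obtain ⟨f, a, b, c⟩ := h1
  obtain ⟨g, a', b', c'⟩ := h2
  have : PkI G (Fin n ⊕ Fin m) R S := by
    refine ⟨fun p => p.1.elim (fun i => f (i, p.2)) fun i => g (i, p.2), ?_, ?_, ?_⟩
    · rintro ⟨i | i, x⟩ ⟨j | j, y⟩ h
      · simpa using a h
      · exact ((mem_sdiff.1 (b' (j, y))).2 (by simpa [← show f (i, x) = g (j, y) from h] using b _)).elim
      · exact ((mem_sdiff.1 (b' (i, x))).2 (by simpa [show g (i, x) = f (j, y) from h] using b _)).elim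
      · simpa using a' h
    · rintro ⟨i | i, x⟩
      · exact e (b _)
      · exact (mem_sdiff.1 (b' _)).1
    · rintro ⟨i | i, x⟩ ⟨j | j, y⟩ h g
      · exact c _ _ (by simpa using h) g
      · simp at h
      · simp at h
      · exact c' _ _ (by simpa using h) g
  exact this.comp finSumFinEquiv.symm finSumFinEquiv.symm.injective

variable [Fintype α]

lemma pk_sub {n : ℕ} (h : Pk G n R S) :
    ∃ T ⊆ S, T.card = n * Fintype.card α ∧ Pk G n R T := by
  obtain ⟨f, a, b, c⟩ := h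
  exact ⟨univ.image f, fun x hx => by obtain ⟨p, -, rfl⟩ := mem_image.1 hx; exact b p,
    by rw [card_image_of_injective _ a]; simp, f, a, fun p => by simp, c⟩

variable {c : V → V → Bool}

lemma join [Nonempty V] (hc : ∀ x y, c x y = c y x) {b : Bool} (J : Finset α)
    (hJ : ∀ x ∈ J, ∀ y ∈ J, ¬ G.Adj x y) {A B : Finset V} (hd : Disjoint A B) (hB : Mono c b B)
    (hx : ∀ x ∈ A, ∀ y ∈ B, c x y = b) {L : ℕ} (h1 : L * J.card ≤ A.card)
    (h2 : L * Jᶜ.card ≤ B.card) : Pk G L (fun x y => c x y = b) (A ∪ B) := by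
  obtain ⟨f, f1, f2⟩ := sdr ((univ : Finset (Fin L)) ×ˢ J) (fun _ => A) (by simpa using fun _ _ _ => h1)
  obtain ⟨g, g1, g2⟩ := sdr ((univ : Finset (Fin L)) ×ˢ Jᶜ) (fun _ => B)
    (by simpa using fun _ _ _ => h2)
  simp only [mem_product, mem_univ, true_and, mem_compl] at f2 g2
  have inj : Function.Injective fun p : Fin L × α => if p.2 ∈ J then f p else g p := by
    intro p q e
    by_cases a : p.2 ∈ J <;> by_cases b : q.2 ∈ J <;> simp only [a, b, if_true, if_false] at e
    · exact f1 (by simpa) (by simpa) e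
    · exact (disjoint_left.1 hd (f2 p a) (e ▸ g2 q b)).elim
    · exact (disjoint_left.1 hd (f2 q b) (e ▸ g2 p a)).elim
    · exact g1 (by simpa) (by simpa) e
  refine ⟨_, inj, fun p => ?_, fun p q _ e => ?_⟩
  · split_ifs with a
    · exact mem_union_left _ (f2 p a)
    · exact mem_union_right _ (g2 p a)
  · have ne := inj.ne (a₁ := p) (a₂ := q) fun h => e.ne (by rw [h])
    by_cases a : p.2 ∈ J <;> by_cases b : q.2 ∈ J <;> simp only [a, b, if_true, if_false] at ne ⊢
    · exact (hJ _ a _ b e).elim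
    · exact hx _ (f2 p a) _ (g2 q b)
    · rw [hc]; exact hx _ (f2 q b) _ (g2 p a)
    · exact hB _ (g2 p a) _ (g2 q b) ne

lemma clq [Nonempty V] (hc : ∀ x y, c x y = c y x) {b : Bool} {B : Finset V} (hB : Mono c b B)
    {L : ℕ} (h2 : L * Fintype.card α ≤ B.card) : Pk G L (fun x y => c x y = b) B := by
  simpa using join (G := G) hc ∅ (by simp) (A := ∅) (by simp) hB (by simp) (L := L) (by simp)
    (by simpa using h2)

lemma ramsey' (s t : ℕ) : ∃ r, ∀ (V : Type) (c : V → V → Bool), (∀ x y, c x y = c y x) →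
    ∀ (b : Bool) (S : Finset V), r ≤ S.card →
      (∃ T ⊆ S, T.card = s ∧ Mono c b T) ∨ (∃ T ⊆ S, T.card = t ∧ Mono c (!b) T) := by
  obtain ⟨r, h⟩ := ramsey s t
  obtain ⟨r', h'⟩ := ramsey t s
  refine ⟨r + r', fun V c hc b S hS => ?_⟩
  cases b
  · exact (h' V c hc S (by omega)).symm
  · exact h V c hc S (by omega)

lemma bip (s : ℕ) (c : V → V → Bool) {X Y : Finset V} (hX : 2 * s ≤ X.card)
    (hY : 2 ^ (2 * s) * s < Y.card) : ∃ b, ∃ A ⊆ X, ∃ B ⊆ Y, A.card = s ∧ B.card = s ∧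
      ∀ x ∈ A, ∀ y ∈ B, c x y = b := by
  obtain ⟨X1, a1, a2⟩ := exists_subset_card_eq hX
  obtain ⟨Q, hQ, h⟩ := exists_lt_card_fiber_of_mul_lt_card_of_maps_to (s := Y) (t := X1.powerset)
    (f := fun y => X1.filter fun x => c x y = true) (n := s) (fun y _ => by simp)
    (by rw [card_powerset, a2]; exact hY)
  obtain ⟨B, b1, b2⟩ := exists_subset_card_eq h.le
  have hQ := mem_powerset.1 hQ
  have key : ∀ y ∈ B, ∀ x ∈ X1, (x ∈ Q ↔ c x y = true) := fun y hy x hx => by
    rw [← (mem_filter.1 (b1 hy)).2]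
    simp [hx]
  have b3 := b1.trans (filter_subset _ _)
  by_cases e : s ≤ Q.card
  · obtain ⟨A, c1, c2⟩ := exists_subset_card_eq e
    exact ⟨true, A, c1.trans (hQ.trans a1), B, b3, c2, b2,
      fun x hx y hy => (key y hy x (hQ (c1 hx))).1 (c1 hx)⟩
  · obtain ⟨A, c1, c2⟩ := exists_subset_card_eq (s := X1 \ Q) (n := s)
      (by rw [card_sdiff_of_subset hQ]; omega)
    refine ⟨false, A, c1.trans (sdiff_subset.trans a1), B, b3, c2, b2, fun x hx y hy => ?_⟩
    have := mem_sdiff.1 (c1 hx)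
    simpa using mt (key y hy x this.1).2 this.2

/-- no monochromatic packing -/
def Free (G : SimpleGraph α) (n : ℕ) (c : V → V → Bool) (S : Finset V) : Prop :=
  ∀ b, ¬ Pk G n (fun x y => c x y = b) S

lemma tie (G : SimpleGraph α) (J : Finset α) (hJ : ∀ x ∈ J, ∀ y ∈ J, ¬ G.Adj x y)
    (h1 : 1 ≤ Jᶜ.card) (L : ℕ) : ∃ C, ∀ (V : Type) [Nonempty V] (c : V → V → Bool),
    (∀ x y, c x y = c y x) → ∀ (S : Finset V) (n : ℕ), C ≤ n →
    n * (Fintype.card α + Jᶜ.card) ≤ S.card + 2 → Free G n c S →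
    ∃ T ⊆ S, T.card = L * (Fintype.card α + Jᶜ.card) ∧ (∀ b, Pk G L (fun x y => c x y = b) T) ∧
      ∃ b, ∃ X ⊆ T, X.card = L * Fintype.card α ∧ Mono c b X := by
  set k := Fintype.card α
  set s := L * k
  obtain ⟨r, hr⟩ := ramsey' (2 ^ (2 * s) * s + 2 * s + 2) k
  refine ⟨r + 2, fun V _ c hc S n hn hS hf => ?_⟩
  have big : ∀ b, ∃ T ⊆ S, T.card = 2 ^ (2 * s) * s + 2 * s + 2 ∧ Mono c b T := by
    intro b
    by_contra no
    have : ∀ j, ∀ S' ⊆ S, j * k + r ≤ S'.card → Pk G j (fun x y => c x y = !b) S' := by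
      intro j
      induction j with
      | zero => exact fun S' _ _ => pk_zero _ _ _
      | succ j ih =>
        intro S' h2 h3
        rcases hr V c hc b S' (by omega) with ⟨T, a1, a2⟩ | ⟨T, a1, a2, a3⟩
        · exact (no ⟨T, a1.trans h2, a2⟩).elim
        · rw [add_comm]
          refine pk_add (clq hc a3 (by simp [a2, k])) (ih _ (sdiff_subset.trans h2) ?_) a1
          rw [card_sdiff_of_subset a1, a2]
          rw [add_mul] at h3
          omega
    refine hf _ (this n S Subset.rfl ?_)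
    have := Nat.mul_le_mul_left n h1
    rw [mul_add] at hS
    omega
  have one : ∀ (b : Bool) (X Y : Finset V), Mono c b X → Mono c (!b) Y → (Y ∩ X).card ≤ 1 :=
    fun b X Y a1 a2 => card_le_one.2 fun x hx y hy => by
      by_contra ne
      have := a1 x (mem_inter.1 hx).2 y (mem_inter.1 hy).2 ne
      have := a2 x (mem_inter.1 hx).1 y (mem_inter.1 hy).1 ne
      simp_all
  have hk : J.card ≤ k := card_le_univ _
  have hk' : Jᶜ.card ≤ k := card_le_univ _
  have fin : ∀ (b : Bool) (A B : Finset V), A ⊆ S → B ⊆ S → Disjoint A B → A.card = s → B.card = s →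
      Mono c b A → Mono c (!b) B → (∀ x ∈ A, ∀ y ∈ B, c x y = !b) →
      ∃ T ⊆ S, T.card = L * (k + Jᶜ.card) ∧ (∀ b, Pk G L (fun x y => c x y = b) T) ∧
      ∃ b, ∃ X ⊆ T, X.card = L * k ∧ Mono c b X := by
    intro b A B a1 a2 a3 a4 a5 a6 a7 a8
    obtain ⟨B', b1, b2⟩ := exists_subset_card_eq (s := B) (n := L * Jᶜ.card)
      (a5 ▸ Nat.mul_le_mul_left L hk')
    have d := a3.mono_right b1
    refine ⟨A ∪ B', union_subset a1 (b1.trans a2), by rw [card_union_of_disjoint d, a4, b2, mul_add],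
      fun b' => ?_, b, A, subset_union_left, a4, a6⟩
    by_cases e : b' = b
    · exact e ▸ (clq hc a6 a4.ge).mono subset_union_left
    · obtain rfl : b' = !b := by cases b <;> cases b' <;> simp_all
      exact join hc J hJ d (fun x hx y hy => a7 x (b1 hx) y (b1 hy))
        (fun x hx y hy => a8 x hx y (b1 hy)) (a4 ▸ Nat.mul_le_mul_left L hk) b2.ge
  obtain ⟨X, x1, x2, x3⟩ := big true
  obtain ⟨Y, y1, y2, y3⟩ := big false
  have := one true X Y x3 y3
  have := card_sdiff_add_card_inter Y X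
  obtain ⟨b, A, a1, B, b1, a2, b2, e⟩ := bip s c (X := X) (Y := Y \ X) (by omega) (by omega)
  have d : Disjoint A B := disjoint_left.2 fun x hx hy => (mem_sdiff.1 (b1 hy)).2 (a1 hx)
  have b3 := b1.trans sdiff_subset
  have mA : Mono c true A := fun x hx y hy => x3 x (a1 hx) y (a1 hy)
  have mB : Mono c false B := fun x hx y hy => y3 x (b3 hx) y (b3 hy)
  cases b
  · exact fin true A B (a1.trans x1) (b3.trans y1) d a2 b2 mA mB e
  · exact fin false B A (b3.trans y1) (a1.trans x1) d.symm b2 a2 mB mA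
      fun x hx y hy => (hc x y).trans (e y hy x hx)

end Pool.Agent.H28.Mc
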