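import Pool.Agent.H28.Mc1

set_option autoImplicit false

namespace Pool.Agent.H28.Mc
open Classical Finset Pool.Agent.H22.Ramsey

variable {V α : Type} [Fintype α] {G : SimpleGraph α}

def Arw (G : SimpleGraph α) (n N : ℕ) : Prop :=
  ∀ c : Fin N → Fin N → Bool, (∀ x y : Fin N, c x y = c y x) → ∃ b : Bool,
    ∃ g : Fin n × α → Fin N, Function.Injective g ∧
      ∀ p q : Fin n × α, p.1 = q.1 → G.Adj p.2 q.2 → c (g p) (g q) = b

noncomputable def rr (G : SimpleGraph α) (n : ℕ) : ℕ := sInf {N | Arw G n N}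

lemma arw_rr (G : SimpleGraph α) (n : ℕ) : Arw G n (rr G n) := by
  obtain ⟨r, hr⟩ := ramsey (n * Fintype.card α) (n * Fintype.card α)
  refine Nat.sInf_mem (s := {N | Arw G n N}) ⟨r + 1, fun c hc => ?_⟩
  rcases hr _ c hc univ (by simp) with ⟨T, -, a, b⟩ | ⟨T, -, a, b⟩ <;>
  · obtain ⟨f, f1, -, f2⟩ := clq (G := G) hc b a.ge
    exact ⟨_, f, f1, f2⟩

lemma free_lt {n : ℕ} {c : V → V → Bool} (hc : ∀ x y, c x y = c y x) {S : Finset V}
    (h : Free G n c S) : S.card < rr G n := by
  by_contra e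
  obtain ⟨j⟩ := Function.Embedding.nonempty_of_card_le (α := Fin (rr G n)) (β := S) (by simpa using e)
  obtain ⟨b, g, g1, g2⟩ := arw_rr G n (fun x y => c (j x) (j y)) fun x y => hc _ _
  exact h b ⟨fun p => j (g p), fun p q e => g1 (j.injective (Subtype.ext e)), fun p => (j _).2, g2⟩

omit [Fintype α] in
lemma ex_free {n N : ℕ} (h : N < rr G n) :
    ∃ c : Fin N → Fin N → Bool, (∀ x y, c x y = c y x) ∧ Free G n c univ := by
  have := Nat.notMem_of_lt_sInf h
  simp only [Set.mem_ofPred_eq, Arw, not_forall] at this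
  obtain ⟨c, hc, e⟩ := this
  exact ⟨c, hc, fun b ⟨f, f1, _, f2⟩ => e ⟨b, f, f1, f2⟩⟩

lemma cnt {n : ℕ} (Q : Fin n × α → Prop) [DecidablePred Q] :
    (univ.filter Q).card = ∑ i, (univ.filter fun x => Q (i, x)).card := by
  simp only [card_filter, Fintype.sum_prod_type]

lemma cnt_le {n : ℕ} (Q : Fin n × α → Prop) [DecidablePred Q] (h : ∀ i, ∃ x, ¬ Q (i, x)) :
    (univ.filter Q).card + n ≤ n * Fintype.card α := by
  rw [cnt]
  have : ∑ i : Fin n, ((univ.filter fun x => Q (i, x)).card + 1) ≤ _ :=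
    sum_le_card_nsmul univ _ (Fintype.card α) fun i _ => by
      obtain ⟨x, hx⟩ := h i
      exact card_lt_univ_of_notMem (x := x) (by simpa)
  simpa [sum_add_distrib] using this

lemma lower (hG : ∀ a, ∃ b, G.Adj a b) (J : Finset α)
    (hM : ∀ I : Finset α, (∀ x ∈ I, ∀ y ∈ I, ¬ G.Adj x y) → I.card ≤ J.card) (h1 : 1 ≤ Jᶜ.card)
    {n : ℕ} (hn : 1 ≤ n) : n * (Fintype.card α + Jᶜ.card) ≤ rr G n + 1 := by
  set k := Fintype.card α
  have hk : Jᶜ.card ≤ k := card_le_univ _
  have a1 : 1 ≤ n * k := Nat.mul_pos hn (by omega)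
  have a2 : 1 ≤ n * Jᶜ.card := Nat.mul_pos hn h1
  have := free_lt (G := G) (n := n) (c := fun x y : ℕ => decide (x < n * k - 1 ∧ y < n * k - 1))
    (fun x y => by simp [and_comm]) (S := range (n * k + n * Jᶜ.card - 2)) (by
      rintro (_ | _) ⟨f, f1, f2, f3⟩
      · have b1 : (univ.filter fun p => ¬ f p < n * k - 1).card ≤
            (Ico (n * k - 1) (n * k + n * Jᶜ.card - 2)).card :=
          card_le_card_of_injOn f (fun p hp => by
            have := f2 p
            simp only [coe_filter, mem_univ, true_and, Set.mem_ofPred_eq, mem_range] at hp this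
            simp only [coe_Ico, Set.mem_Ico]
            omega) f1.injOn
        rw [cnt] at b1
        have b2 := card_nsmul_le_sum univ
          (fun i => (univ.filter fun x => ¬ f (i, x) < n * k - 1).card) Jᶜ.card fun i _ => by
            have c1 := hM (univ.filter fun x => f (i, x) < n * k - 1) fun x hx y hy e => by
              have := f3 (i, x) (i, y) rfl e
              simp_all
            have c2 := card_filter_add_card_filter_not (s := univ) fun x => f (i, x) < n * k - 1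
            have c3 := card_add_card_compl J
            rw [card_univ] at c2
            omega
        simp only [card_univ, Fintype.card_fin, smul_eq_mul, Nat.card_Ico] at b1 b2
        omega
      · have b1 : (univ : Finset (Fin n × α)).card ≤ (range (n * k - 1)).card :=
          card_le_card_of_injOn f (fun p _ => by
            obtain ⟨y, hy⟩ := hG p.2
            have := f3 p (p.1, y) rfl hy
            simp_all) f1.injOn
        simp only [card_univ, Fintype.card_prod, Fintype.card_fin, card_range] at b1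
        change n * k ≤ _ at b1
        omega)
  rw [card_range] at this
  rw [mul_add]
  omega

/-- large free colourings contain a removable tie -/
def Tie (G : SimpleGraph α) (w C : ℕ) : Prop :=
  ∀ (V : Type) [Nonempty V] (c : V → V → Bool), (∀ x y, c x y = c y x) → ∀ (S : Finset V) (n : ℕ),
    C ≤ n → n * w ≤ S.card + 2 → Free G n c S →
    ∃ T ⊆ S, T.card = w ∧ ∀ b, Pk G 1 (fun x y => c x y = b) T

omit [Fintype α] in
lemma free_sub {n L : ℕ} {c : V → V → Bool} {S T : Finset V} (h : Free G (L + n) c S) (e : T ⊆ S)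
    (hT : ∀ b, Pk G L (fun x y => c x y = b) T) : Free G n c (S \ T) :=
  fun b h' => h b (pk_add (hT b) h' e)

omit [Fintype α] in
lemma descend [Nonempty V] {w C L n : ℕ} (ht : Tie G w C) {c : V → V → Bool}
    (hc : ∀ x y, c x y = c y x) {T : Finset V} (hT : ∀ b, Pk G L (fun x y => c x y = b) T)
    (hw : T.card = L * w) (hn : L + C ≤ n) (d : ℕ) : ∀ S : Finset V, T ⊆ S → Free G (n + d) c S →
    (n + d) * w ≤ S.card + 2 → ∃ S', T ⊆ S' ∧ Free G n c S' ∧ S'.card + d * w = S.card := by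
  induction d with
  | zero => exact fun S a b _ => ⟨S, a, b, by simp⟩
  | succ d ih =>
    intro S a1 a2 a3
    obtain ⟨u, hu⟩ : ∃ u, n + (d + 1) = L + u := ⟨n + (d + 1) - L, by omega⟩
    have b1 := card_sdiff_add_card_eq_card a1
    obtain ⟨U, u1, u2, u3⟩ := ht V c hc (S \ T) u (by omega)
      (by rw [hu, add_mul] at a3; omega) (free_sub (hu ▸ a2) a1 hT)
    have u4 := u1.trans sdiff_subset
    have b2 := card_sdiff_add_card_eq_card u4
    obtain ⟨S', s1, s2, s3⟩ := ih (S \ U)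
      (subset_sdiff.2 ⟨a1, (disjoint_of_subset_left u1 sdiff_disjoint).symm⟩)
      (free_sub (by rwa [add_comm, add_assoc]) u4 u3)
      (by rw [← add_assoc, add_mul] at a3; omega)
    exact ⟨S', s1, s2, by rw [add_mul]; omega⟩

lemma struc (hG : ∀ a, ∃ b, G.Adj a b) [Nonempty α] : ∃ C n0, ∀ n, n0 ≤ n →
    ∃ (V : Type) (_ : Nonempty V) (c : V → V → Bool), (∀ x y, c x y = c y x) ∧
      ∃ S : Finset V, rr G n ≤ S.card + 1 ∧ Free G n c S ∧
      ∃ b, ∃ X ⊆ S, X.card + C * Fintype.card α = n * Fintype.card α ∧ Mono c b X := by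
  obtain ⟨J, hJ, hM⟩ := exists_max_image
    (univ.filter fun I : Finset α => ∀ x ∈ I, ∀ y ∈ I, ¬ G.Adj x y) card ⟨∅, by simp⟩
  simp only [mem_filter, mem_univ, true_and] at hJ hM
  have h1 : 1 ≤ Jᶜ.card := by
    obtain ⟨x⟩ := ‹Nonempty α›
    obtain ⟨y, e⟩ := hG x
    by_cases a : x ∈ J
    · exact card_pos.2 ⟨y, mem_compl.2 fun b => hJ x a y b e⟩
    · exact card_pos.2 ⟨x, mem_compl.2 a⟩
  have low := fun n => lower hG J hM h1 (n := n)
  have hk : 1 ≤ Fintype.card α := Fintype.card_pos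
  set k := Fintype.card α
  set w := k + Jᶜ.card with hw
  obtain ⟨C, hC⟩ := tie G J hJ h1 1
  have ht : Tie G w C := fun V _ c hc S n a1 a2 a3 => by
    obtain ⟨T, t1, t2, t3, -⟩ := hC V c hc S n a1 a2 a3
    exact ⟨T, t1, by simpa using t2, t3⟩
  have ext : ∀ n, 2 ≤ n → ∃ (V : Type) (_ : Nonempty V) (c : V → V → Bool),
      (∀ x y, c x y = c y x) ∧ ∃ S : Finset V, S.card + 1 = rr G n ∧ Free G n c S := fun n hn => by
    have a1 := low n (by omega)
    have a2 : 2 * 2 ≤ n * w := Nat.mul_le_mul hn (by omega)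
    obtain ⟨c, hc, e⟩ := ex_free (G := G) (n := n) (N := rr G n - 1) (by omega)
    exact ⟨_, ⟨⟨0, by omega⟩⟩, c, hc, univ, by simp; omega, e⟩
  have up : ∀ n d, C + 2 ≤ n → rr G (n + d) ≤ rr G n + d * w := fun n d hn => by
    obtain ⟨V, _, c, hc, S, s1, s2⟩ := ext (n + d) (by omega)
    have := low (n + d) (by omega)
    obtain ⟨S', -, a, b⟩ := descend (L := 0) (T := ∅) ht hc (fun b => pk_zero _ _ _) (by simp)
      (n := n) (by omega) d S (by simp) s2 (by omega)
    have := free_lt hc a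
    omega
  obtain ⟨n0, h0, hm⟩ := (measure fun n => rr G n + 1 - n * w).wf.has_min {n | C + 2 ≤ n}
    ⟨C + 2, le_refl (C + 2)⟩
  simp only [Set.mem_ofPred_eq] at h0 hm
  refine ⟨C, n0, fun n hn => ?_⟩
  obtain ⟨L, rfl⟩ : ∃ L, n = L + C := ⟨n - C, by omega⟩
  obtain ⟨d, hd⟩ := tie G J hJ h1 L
  obtain ⟨V, hV, c, hc, S, s1, s2⟩ := ext (L + C + d) (by omega)
  have a1 := low (L + C + d) (by omega)
  obtain ⟨T, t1, t2, t3, b, X, x1, x2, x3⟩ := hd V c hc S _ (by omega) (a1.trans (by omega)) s2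
  obtain ⟨S', b1, b2, b3⟩ := descend ht hc t3 t2 le_rfl d S t1 s2 (by omega)
  refine ⟨V, hV, c, hc, S', ?_, b2, b, X, x1.trans b1, by rw [x2, add_mul], x3⟩
  have c1 : ¬ (rr G (L + C + d) + 1 - (L + C + d) * w < rr G n0 + 1 - n0 * w) := hm _ (by omega)
  obtain ⟨u, hu⟩ : ∃ u, L + C = n0 + u := ⟨L + C - n0, by omega⟩
  have c2 := up n0 u h0
  have c3 := low n0 (by omega)
  have c4 : (L + C + d) * w = n0 * w + u * w + d * w := by rw [hu]; ring
  rw [← hu] at c2
  omega

end Pool.Agent.H28.Mc
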