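import Pool.Agent.H28.Mc2

set_option autoImplicit false

namespace Pool.Agent.H28.Mc
open Classical Finset Pool.Agent.H22.Ramsey

variable {V α : Type}

lemma glue {β : Type} (Q : β → Prop) (s : Set β) {g f : β → V} {A Z : Finset V} (hd : Disjoint A Z)
    (hg : Set.InjOn g {p | p ∈ s ∧ Q p}) (hf : Set.InjOn f {p | p ∈ s ∧ ¬ Q p})
    (mg : ∀ p ∈ s, Q p → g p ∈ A) (mf : ∀ p ∈ s, ¬ Q p → f p ∈ Z) :
    Set.InjOn (fun p => if Q p then g p else f p) s := by
  intro p hp q hq e
  by_cases a : Q p <;> by_cases b : Q q <;> simp only [a, b, if_true, if_false] at e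
  · exact hg ⟨hp, a⟩ ⟨hq, b⟩ e
  · exact (disjoint_left.1 hd (mg p hp a) (e ▸ mf q hq b)).elim
  · exact (disjoint_left.1 hd (mg q hq b) (e ▸ mf p hp a)).elim
  · exact hf ⟨hp, a⟩ ⟨hq, b⟩ e

variable [Fintype α] {G : SimpleGraph α} {c : V → V → Bool} {b : Bool}

lemma extra [Nonempty V] (hc : ∀ x y, c x y = c y x) {ι : Type} (E : Finset V) :
    ∀ (X : Finset V) (P : Finset (ι × α)), Mono c b X → Disjoint X E →
    (∀ v ∈ E, E.card * Fintype.card α ≤ (X.filter fun x => c v x = b).card) →
    P.card ≤ X.card + E.card → ∃ g : ι × α → V, Set.InjOn g P ∧ (∀ p ∈ P, g p ∈ X ∪ E) ∧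
      ∀ p ∈ P, ∀ q ∈ P, p.1 = q.1 → p ≠ q → c (g p) (g q) = b := by
  induction E using Finset.induction_on with
  | empty =>
    intro X P a1 _ _ a4
    obtain ⟨g, g1, g2⟩ := sdr P (fun _ => X) fun _ _ => by simpa using a4
    exact ⟨g, g1, by simpa using g2, fun p hp q hq _ e => a1 _ (g2 p hp) _ (g2 q hq) (g1.ne hp hq e)⟩
  | insert v E hv ih =>
    intro X P a1 a2 a3 a4
    rcases P.eq_empty_or_nonempty with rfl | ⟨⟨i, x0⟩, h0⟩
    · exact ⟨fun _ => v, by simp, by simp, by simp⟩
    rw [card_insert_of_notMem hv] at a3 a4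
    set Q := P.filter fun p => p.1 = i
    have q1 : 1 ≤ Q.card := card_pos.2 ⟨(i, x0), by simp [Q, h0]⟩
    have q2 : Q.card ≤ Fintype.card α := card_le_card_of_injOn Prod.snd (fun _ _ => mem_univ _)
      fun p hp q hq e => Prod.ext (by simp_all [Q]) e
    have q3 : Q.card + _ = _ := card_filter_add_card_filter_not (s := P) fun p => p.1 = i
    have b0 := a3 v (mem_insert_self _ _)
    rw [add_mul] at a3 b0
    obtain ⟨Y, y1, y2⟩ := exists_subset_card_eq (s := X.filter fun x => c v x = b) (n := Q.card - 1)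
      (by omega)
    have y3 := y1.trans (filter_subset _ _)
    have y4 := card_sdiff_add_card_eq_card y3
    have vX : v ∉ X := fun h => disjoint_left.1 a2 h (mem_insert_self _ _)
    have mT : Mono c b (insert v Y) := mono_insert hc (fun x hx y hy => a1 x (y3 hx) y (y3 hy))
      fun x hx => (mem_filter.1 (y1 hx)).2
    obtain ⟨g, g1, g2⟩ := sdr Q (fun _ => insert v Y) fun _ _ => by
      rw [card_insert_of_notMem fun h => vX (y3 h)]; omega
    obtain ⟨f, f1, f2, f3⟩ := ih (X \ Y) (P.filter fun p => ¬ p.1 = i)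
      (fun x hx y hy => a1 x (mem_sdiff.1 hx).1 y (mem_sdiff.1 hy).1)
      (a2.mono sdiff_subset (subset_insert _ _)) (fun u hu => by
        have c1 := a3 u (mem_insert_of_mem hu)
        have c2 : (X.filter fun x => c u x = b) ⊆ ((X \ Y).filter fun x => c u x = b) ∪ Y :=
          fun x hx => by by_cases x ∈ Y <;> simp_all
        have := (card_le_card c2).trans (card_union_le _ _)
        omega) (by omega)
    simp only [Q, mem_filter, and_imp] at g2 f2 f3
    refine ⟨_, glue (fun p : ι × α => p.1 = i) P (A := insert v Y) (Z := X \ Y ∪ E) ?_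
      (by simpa [Q] using g1) (by simpa using f1) g2 f2, fun p hp => ?_, fun p hp q hq e ne => ?_⟩
    · rw [disjoint_left]
      intro x hx hx'
      rcases mem_insert.1 hx with rfl | hx
      · simp_all
      · have := disjoint_left.1 a2 (y3 hx)
        simp_all
    · split_ifs with a
      · have := g2 p hp a
        rcases mem_insert.1 this with h | h
        · simp [h]
        · simp [y3 h]
      · exact union_subset_union sdiff_subset (subset_insert _ _) (f2 p hp a)
    · by_cases a : p.1 = i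
      · have a' := e ▸ a
        simp only [a, a', if_true]
        exact mT _ (g2 p hp a) _ (g2 q hq a') (g1.ne (by simp [Q, hp, a]) (by simp [Q, hq, a']) ne)
      · have a' := e ▸ a
        simp only [a, a', if_false]
        exact f3 p hp a q hq a' e ne

/-- no packing of colour `b` using `Z` and a clique on the other `N - |Z|` vertices -/
def Rr (G : SimpleGraph α) (n : ℕ) (c : V → V → Bool) (b : Bool) (N : ℕ) (Z : Finset V) : Prop :=
  ∀ (P : Finset (Fin n × α)) (f : Fin n × α → V), Set.InjOn f {p | p ∉ P} → (∀ p ∉ P, f p ∈ Z) →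
    (∀ p q, p.1 = q.1 → G.Adj p.2 q.2 → (p ∈ P → q ∈ P) ∧ (p ∉ P → c (f p) (f q) = b)) →
    N < P.card + Z.card

/-- no packing of the other colour using `Z` and an independent set joined to it -/
def Bb (G : SimpleGraph α) (n : ℕ) (c : V → V → Bool) (b : Bool) (Z : Finset V) : Prop :=
  ∀ (P : Finset (Fin n × α)) (f : Fin n × α → V), Set.InjOn f {p | p ∉ P} → (∀ p ∉ P, f p ∈ Z) →
    ¬ ∀ p q, p.1 = q.1 → G.Adj p.2 q.2 → (p ∈ P → q ∉ P) ∧ (p ∉ P → q ∉ P → c (f p) (f q) = !b)

/-- no component of colour `b` -/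
def NoC (G : SimpleGraph α) (c : V → V → Bool) (b : Bool) (Z : Finset V) : Prop :=
  ∀ (a : α) (g : α → V), Set.InjOn g {x | Relation.ReflTransGen G.Adj a x} →
    (∀ x, Relation.ReflTransGen G.Adj a x → g x ∈ Z) →
    ¬ ∀ x y, Relation.ReflTransGen G.Adj a x → G.Adj x y → c (g x) (g y) = b

lemma card_le' {n : ℕ} (P : Finset (Fin n × α)) (h : ∀ i, ∃ x, (i, x) ∉ P) :
    P.card + n ≤ n * Fintype.card α := by
  simpa using cnt_le (· ∈ P) h

lemma clean [Nonempty V] [Nonempty α] (hG : ∀ a, ∃ b, G.Adj a b) (hc : ∀ x y, c x y = c y x)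
    {n C : ℕ} {S X : Finset V} (hf : Free G n c S) (hX : X ⊆ S) (hm : Mono c b X)
    (h1 : X.card + C * Fintype.card α = n * Fintype.card α)
    (hn : Fintype.card α * (C * Fintype.card α * Fintype.card α) + C * Fintype.card α ≤ n) :
    ∃ Z, Z.card + X.card ≤ S.card ∧ Rr G n c b S.card Z ∧ Bb G n c b Z := by
  set k := Fintype.card α
  set A := S.filter fun v => v ∈ X ∨ C * k * k ≤ (X.filter fun x => c v x = b).card
  have xA : X ⊆ A := fun x hx => mem_filter.2 ⟨hX hx, .inl hx⟩
  have AS : A ⊆ S := filter_subset _ _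
  have a1 := card_sdiff_add_card_eq_card AS
  have a2 := card_sdiff_add_card_eq_card xA
  refine ⟨S \ A, by omega, fun P f f1 f2 f3 => ?_, fun P f f1 f2 f3 => ?_⟩
  · by_contra h
    have b1 : P.card ≤ n * k := by simpa using card_le_univ P
    obtain ⟨E, e1, e2⟩ := exists_subset_card_eq (min_le_left (A \ X).card (C * k))
    obtain ⟨g, g1, g2, g3⟩ := extra hc E X P hm (disjoint_of_subset_right e1 disjoint_sdiff)
      (fun v hv => by
        have := mem_sdiff.1 (e1 hv)
        exact (Nat.mul_le_mul_right k (by omega)).trans ((mem_filter.1 this.1).2.resolve_left this.2))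
      (by omega)
    have g4 : ∀ p ∈ P, g p ∈ A := fun p hp => union_subset xA (e1.trans sdiff_subset) (g2 p hp)
    refine hf b ⟨_, Set.injOn_univ.1 (glue (· ∈ P) Set.univ (A := A) (Z := S \ A) disjoint_sdiff
      (by simpa using g1) (by simpa using f1) (by simpa using g4) (by simpa using f2)),
      fun p => ?_, fun p q e a => ?_⟩
    · split_ifs with a
      · exact AS (g4 p a)
      · exact sdiff_subset (f2 p a)
    · by_cases h : p ∈ P
      · have h' := (f3 p q e a).1 h
        simp only [h, h', if_true]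
        exact g3 p h q h' e fun h => a.ne (by rw [h])
      · have h' := mt (f3 q p e.symm a.symm).1 h
        simp only [h, h', if_false]
        exact (f3 p q e a).2 h
  · have b1 := card_le' P fun i => by
      obtain ⟨x⟩ := ‹Nonempty α›
      obtain ⟨y, e⟩ := hG x
      by_cases h : (i, x) ∈ P
      · exact ⟨y, (f3 (i, x) (i, y) rfl e).1 h⟩
      · exact ⟨x, h⟩
    obtain ⟨g, g1, g2⟩ := sdr P (fun p => X.filter fun x => ∀ y, G.Adj p.2 y → c (f (p.1, y)) x = !b)
      fun p hp => by
        have c1 : X ⊆ (X.filter fun x => ∀ y, G.Adj p.2 y → c (f (p.1, y)) x = !b) ∪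
            (univ.filter (G.Adj p.2)).biUnion fun y => X.filter fun x => c (f (p.1, y)) x = b :=
          fun x hx => by
            by_contra h
            simp only [mem_union, mem_filter, hx, true_and, mem_biUnion, mem_univ, not_or,
              not_forall, not_exists, not_and] at h
            obtain ⟨⟨y, h2, h3⟩, h4⟩ := h
            exact h3 (Bool.eq_not_iff.2 (h4 y h2))
        have c2 := card_biUnion_le_card_mul (univ.filter (G.Adj p.2))
          (fun y => X.filter fun x => c (f (p.1, y)) x = b) (C * k * k) fun y hy => by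
            have := mem_sdiff.1 (f2 _ ((f3 p (p.1, y) rfl (mem_filter.1 hy).2).1 hp))
            by_contra h
            exact this.2 (mem_filter.2 ⟨this.1, .inr (by omega)⟩)
        have c3 := Nat.mul_le_mul_right (C * k * k) (card_le_univ (univ.filter (G.Adj p.2)))
        have := (card_le_card c1).trans (card_union_le _ _)
        change _ ≤ n * k at b1
        change _ ≤ k * _ at c3
        omega
    simp only [mem_filter] at g2
    refine hf (!b) ⟨_, Set.injOn_univ.1 (glue (· ∈ P) Set.univ (A := A) (Z := S \ A) disjoint_sdiff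
      (by simpa using g1) (by simpa using f1) (fun p _ h => xA (g2 p h).1) (by simpa using f2)),
      fun p => ?_, fun p q e a => ?_⟩
    · split_ifs with a
      · exact hX (g2 p a).1
      · exact sdiff_subset (f2 p a)
    · by_cases h : p ∈ P <;> by_cases h' : q ∈ P <;> simp only [h, h', if_true, if_false]
      · exact ((f3 p q e a).1 h h').elim
      · rw [hc]; simpa [e] using (g2 p h).2 _ a
      · simpa [← e] using (g2 q h').2 _ a.symm
      · exact (f3 p q e a).2 h h'

lemma minZ {n N : ℕ} {Z : Finset V} (h : Rr G n c b N Z) (hn : n * Fintype.card α + Z.card ≤ N + n) :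
    ∃ Z' ⊆ Z, Rr G n c b N Z' ∧ NoC G c b Z' := by
  obtain ⟨Y, hY, hm⟩ := exists_min_image (Z.powerset.filter (Rr G n c b N)) card ⟨Z, by simpa⟩
  simp only [mem_filter, mem_powerset, and_imp] at hY hm
  refine ⟨Y, hY.1, hY.2, fun a g g1 g2 g3 => ?_⟩
  set K := univ.filter (Relation.ReflTransGen G.Adj a)
  have k1 : (K.image g).card = K.card := card_image_of_injOn (by simpa [K] using g1)
  have k2 : K.image g ⊆ Y := fun v hv => by
    obtain ⟨x, hx, rfl⟩ := mem_image.1 hv
    exact g2 x (mem_filter.1 hx).2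
  have k3 : 1 ≤ K.card := card_pos.2 ⟨a, by simpa [K] using .refl⟩
  have k4 := card_sdiff_add_card_eq_card k2
  have := mt (hm (Y \ K.image g) (sdiff_subset.trans hY.1)) (by omega)
  simp only [Rr, not_forall] at this
  obtain ⟨P, f, f1, f2, f3, f4⟩ := this
  by_cases e : ∃ i, (i, a) ∈ P
  · obtain ⟨i, e⟩ := e
    have s : {i} ×ˢ K ⊆ P := by
      rintro ⟨j, x⟩ hx
      simp only [K, mem_product, mem_singleton, mem_filter, mem_univ, true_and] at hx
      obtain ⟨rfl, hx⟩ := hx
      induction hx with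
      | refl => exact e
      | @tail y z _ h ih => exact (f3 (j, y) (j, z) rfl h).1 ih
    have s1 := card_sdiff_add_card_eq_card s
    have cl : ∀ p q : Fin n × α, p.1 = q.1 → G.Adj p.2 q.2 → p ∈ {i} ×ˢ K → q ∈ {i} ×ˢ K := by
      simp only [K, mem_product, mem_singleton, mem_filter, mem_univ, true_and]
      exact fun p q a1 a2 a3 => ⟨a1 ▸ a3.1, a3.2.tail a2⟩
    have mk : ∀ p ∈ ({i} : Finset (Fin n)) ×ˢ K, p.1 = i ∧ Relation.ReflTransGen G.Adj a p.2 := by
      simp [K]
    have np : ∀ p, p ∉ P \ {i} ×ˢ K → p ∉ {i} ×ˢ K → p ∉ P := fun p a1 a2 a3 =>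
      a1 (mem_sdiff.2 ⟨a3, a2⟩)
    have := hY.2 (P \ {i} ×ˢ K) _ (glue (· ∈ {i} ×ˢ K) _ (g := fun p => g p.2) (f := f)
      (A := K.image g) (Z := Y \ K.image g) disjoint_sdiff
      (fun p hp q hq e => Prod.ext ((mk p hp.2).1.trans (mk q hq.2).1.symm)
        (g1 (mk p hp.2).2 (mk q hq.2).2 e))
      (fun p hp q hq e => f1 (np p hp.1 hp.2) (np q hq.1 hq.2) e)
      (fun p _ h => mem_image_of_mem g (mem_product.1 h).2) fun p a1 a2 => f2 p (np p a1 a2))
      (fun p hp => by
        split_ifs with h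
        · exact g2 _ (mk p h).2
        · exact sdiff_subset (f2 p (np p hp h)))
      fun p q a1 a2 => ⟨fun h => mem_sdiff.2 ⟨(f3 p q a1 a2).1 (mem_sdiff.1 h).1,
        mt (cl q p a1.symm a2.symm) (mem_sdiff.1 h).2⟩, fun h => by
        by_cases h' : p ∈ {i} ×ˢ K
        · simp only [h', cl p q a1 a2 h', if_true]
          exact g3 _ _ (mk p h').2 a2
        · simp only [h', mt (cl q p a1.symm a2.symm) h', if_false]
          exact (f3 p q a1 a2).2 (np p h h')⟩
    rw [card_product, card_singleton] at s1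
    omega
  · have := card_le' P fun i => ⟨a, fun h => e ⟨i, h⟩⟩
    have := hY.2 P f f1 (fun p hp => sdiff_subset (f2 p hp)) f3
    have := card_le_card hY.1
    omega

lemma emu [Nonempty V] (hc : ∀ x y, c x y = c y x) {n : ℕ} {Z : Finset V} (hB : Bb G n c b Z)
    (hN : NoC G c b Z) (hn : 1 ≤ n) {W : Type} [Fintype W] {F : W → W → Prop}
    (hF : ∀ d : W → W → Bool, (∀ x y, d x y = d y x) →
      ∃ b, Pk G n (fun x y => F x y ∧ d x y = b) univ)
    (t : ℕ) (ht : t ≤ n + Z.card / Fintype.card α) : Pk G t F univ := by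
  induction t with
  | zero => exact pk_zero _ _ _
  | succ t ih =>
    obtain ⟨T, -, t1, t2⟩ := pk_sub (pk_le (ih (by omega))
      (min_le_right (Z.card / Fintype.card α) t))
    obtain ⟨ψ, p1, p2⟩ := sdr T (fun _ => Z) fun _ _ => t1 ▸
      (Nat.mul_le_mul_right _ (min_le_left _ _)).trans (Nat.div_mul_le_self _ _)
    obtain ⟨b', f, f1, -, f3⟩ := hF (fun x y => if x ∈ T ∧ y ∈ T then c (ψ x) (ψ y) else
      if x ∉ T ∧ y ∉ T then b else !b) fun x y => by simp only [and_comm, hc (ψ x)]
    by_cases e : b' = b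
    · subst e
      have out : ∀ p, f p ∉ T := by
        rintro ⟨i, a⟩ h
        have cl : ∀ x y, G.Adj x y → f (i, x) ∈ T → f (i, y) ∈ T := fun x y a1 a2 => by
          by_contra a3
          simpa [a2, a3] using (f3 (i, x) (i, y) rfl a1).2
        have al : ∀ x, Relation.ReflTransGen G.Adj a x → f (i, x) ∈ T := fun x hx => by
          induction hx with
          | refl => exact h
          | tail _ h ih => exact cl _ _ h ih
        exact hN a (fun x => ψ (f (i, x)))
          (fun x hx y hy e => by simpa using f1 (p1 (al x hx) (al y hy) e))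
          (fun x hx => p2 _ (al x hx)) fun x y hx h => by
            simpa [al x hx, al y (hx.tail h)] using (f3 (i, x) (i, y) rfl h).2
      exact pk_le (pk_add t2 ⟨f, f1, fun p => by simp [out], fun p q a1 a2 => (f3 p q a1 a2).1⟩
        (subset_univ _)) (by omega)
    · refine (hB (univ.filter fun p => f p ∉ T) (fun p => ψ (f p)) (fun p hp q hq e =>
        f1 (p1 (by simpa using hp) (by simpa using hq) e)) (fun p hp => p2 _ (by simpa using hp))
        fun p q a1 a2 => ?_).elim
      have := (f3 p q a1 a2).2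
      simp only [mem_filter, mem_univ, true_and, not_not]
      refine ⟨fun h => ?_, fun h h' => ?_⟩
      · by_contra h'
        simp [h, h'] at this
        exact e this.symm
      · simp only [h, h', and_self, if_true] at this
        exact this ▸ Bool.eq_not_iff.2 e

lemma core (hG : ∀ a, ∃ b, G.Adj a b) [Nonempty α] : ∃ n0, ∀ n, n0 ≤ n →
    ∀ (W : Type) [Fintype W] (F : W → W → Prop), (∀ d : W → W → Bool, (∀ x y, d x y = d y x) →
      ∃ b, Pk G n (fun x y => F x y ∧ d x y = b) univ) →
    Pk G (rr G n / Fintype.card α) F univ := by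
  obtain ⟨C, n0, h⟩ := struc hG
  refine ⟨n0 + (Fintype.card α * (C * Fintype.card α * Fintype.card α) + C * Fintype.card α) + 1,
    fun n hn W _ F hF => ?_⟩
  obtain ⟨V, _, c, hc, S, s1, s2, b, X, x1, x2, x3⟩ := h n (by omega)
  obtain ⟨Z, z1, z2, z3⟩ := clean hG hc s2 x1 x3 x2 (by omega)
  obtain ⟨Y, y1, y2, y3⟩ := minZ z2 (by omega)
  refine emu hc (fun P f a1 a2 => z3 P f a1 fun p hp => y1 (a2 p hp)) y3 (by omega) hF _ ?_
  have := y2 univ (fun _ => Classical.arbitrary V) (by simp) (by simp) (by simp)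
  simp only [card_univ, Fintype.card_prod, Fintype.card_fin] at this
  rw [add_comm, ← Nat.add_mul_div_right _ _ Fintype.card_pos]
  exact Nat.div_le_div_right (by omega)

end Pool.Agent.H28.Mc
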