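import Pool.Agent.H28.Mc3

set_option autoImplicit false

namespace Pool.Agent.H28.Mc
open Classical Finset Pool.Agent.H22.Ramsey

variable {V α : Type} [Fintype α] {G : SimpleGraph α}

/-- `G` without its isolated vertices -/
abbrev Red (G : SimpleGraph α) : SimpleGraph {a // ∃ b, G.Adj a b} := G.comap Subtype.val

lemma ext_iso {q : ℕ} {R : V → V → Prop} {S : Finset V} (h : Pk (Red G) q R S)
    (hS : q * Fintype.card α ≤ S.card) : Pk G q R S := by
  obtain ⟨f, f1, f2, f3⟩ := h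
  rcases isEmpty_or_nonempty (Fin q × α) with e | ⟨⟨p0⟩⟩
  · exact ⟨e.elim, e.elim, e.elim, e.elim⟩
  have hq : 0 < q * Fintype.card α := by
    simpa using (Fintype.card_pos_iff (α := Fin q × α)).2 ⟨p0⟩
  obtain ⟨v, -⟩ := card_pos.1 (hq.trans_le hS)
  let s : Finset (Fin q × α) := univ.filter fun p => ∃ b, G.Adj p.2 b
  let f' : Fin q × α → V := fun p => if e : ∃ b, G.Adj p.2 b then f (p.1, ⟨p.2, e⟩) else v
  have a1 : s.image f' ⊆ S := fun x hx => by
    obtain ⟨p, hp, rfl⟩ := mem_image.1 hx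
    simp only [f', (mem_filter.1 hp).2, dif_pos]
    exact f2 _
  obtain ⟨t, t1, t2, t3⟩ := exists_subsuperset_card_eq a1
    (card_image_le.trans (by simpa using card_le_univ s)) hS
  obtain ⟨g, hg⟩ := exists_equiv_extend_of_card_eq (α := Fin q × α) (t := t) (by simp [t3]) t1
    (fun p hp q hq e => by
      simp only [f', (mem_filter.1 hp).2, (mem_filter.1 hq).2, dif_pos] at e
      simpa [Prod.ext_iff] using f1 e)
  refine ⟨fun p => g p, fun p q e => g.injective (Subtype.ext e), fun p => t2 (g p).2,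
    fun p q a b => ?_⟩
  have hp : ∃ b, G.Adj p.2 b := ⟨_, b⟩
  have hq : ∃ b, G.Adj q.2 b := ⟨_, b.symm⟩
  simp only [hg p (by simpa [s] using hp), hg q (by simpa [s] using hq), f', hp, hq, dif_pos]
  exact f3 _ _ a b

theorem main (G : SimpleGraph α) [Nonempty α] : ∃ n0, ∀ n, n0 ≤ n →
    ∀ (m : ℕ) (F : Fin m → Fin m → Prop), (∀ d : Fin m → Fin m → Bool, (∀ x y, d x y = d y x) →
      ∃ b, Pk G n (fun x y => F x y ∧ d x y = b) univ) →
    Pk G (rr G n / Fintype.card α) F univ := by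
  have key : ∃ n0, ∀ n, n0 ≤ n → ∀ (m : ℕ) (F : Fin m → Fin m → Prop),
      (∀ d : Fin m → Fin m → Bool, (∀ x y, d x y = d y x) →
      ∃ b, Pk (Red G) n (fun x y => F x y ∧ d x y = b) univ) →
      Pk (Red G) (rr (Red G) n / Fintype.card α) F univ := by
    rcases isEmpty_or_nonempty {a // ∃ b, G.Adj a b} with e | e
    · exact ⟨0, fun n _ m F _ => ⟨fun p => e.elim p.2, fun p => e.elim p.2, fun p => e.elim p.2,
        fun p => e.elim p.2⟩⟩
    · obtain ⟨n0, h⟩ := core (G := Red G) fun ⟨a, b, h⟩ => ⟨⟨b, a, h.symm⟩, h⟩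
      exact ⟨n0, fun n hn m F hF => pk_le (h n hn _ F hF)
        (Nat.div_le_div_left (Fintype.card_subtype_le _) Fintype.card_pos)⟩
  obtain ⟨n0, h⟩ := key
  refine ⟨n0, fun n hn m F hF => ?_⟩
  by_cases e : rr G n / Fintype.card α ≤ n
  · obtain ⟨b, f, f1, f2, f3⟩ := hF (fun _ _ => true) fun _ _ => rfl
    exact pk_le ⟨f, f1, f2, fun p q a b => (f3 p q a b).1⟩ e
  have a1 : rr G n ≤ m := Nat.sInf_le fun d hd => by
    obtain ⟨b, f, f1, -, f3⟩ := hF d hd
    exact ⟨b, f, f1, fun p q a b => (f3 p q a b).2⟩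
  have a2 : rr G n ≤ max (rr (Red G) n) (n * Fintype.card α) := Nat.sInf_le fun d hd => by
    have := mt (free_lt (G := Red G) (n := n) hd (S := univ)) (by simp)
    simp only [Free, not_forall, not_not] at this
    obtain ⟨b, hb⟩ := this
    obtain ⟨f, f1, -, f3⟩ := ext_iso hb (by simp)
    exact ⟨b, f, f1, f3⟩
  have a3 := Nat.div_mul_le_self (rr G n) (Fintype.card α)
  have a4 := Nat.mul_lt_mul_of_lt_of_le (not_le.1 e) (le_refl (Fintype.card α)) Fintype.card_pos
  refine ext_iso (pk_le (h n hn m F fun d hd => ?_) (Nat.div_le_div_right (by omega)))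
    (by simp; omega)
  obtain ⟨b, f, f1, f2, f3⟩ := hF d hd
  exact ⟨b, fun p => f (p.1, p.2), fun p q e => by simpa [Prod.ext_iff, Subtype.ext_iff] using f1 e,
    fun _ => f2 _, fun p q a b => f3 _ _ a b⟩

end Pool.Agent.H28.Mc
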