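import Mathlib

set_option autoImplicit false

namespace Pool.Agent.H28.Paving

open Set

variable {α : Type*} [Fintype α] [DecidableEq α]

/-- The paving matroid of rank at most `r` whose dependent `r`-sets are the `r`-subsets of the
members of `H`. -/
noncomputable def pav (r : ℕ) (H : Finset (Finset α)) (hr : 0 < r)
    (hH : ∀ A ∈ H, ∀ B ∈ H, A ≠ B → (A ∩ B).card + 2 ≤ r) : Matroid α :=
  (IndepMatroid.ofFinite (E := univ) finite_univ
    (fun I => I.ncard ≤ r ∧ (I.ncard = r → ∀ A ∈ H, ¬ I ⊆ ↑A))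
    ⟨by simp, fun h => by simp at h; omega⟩
    (fun I J hJ hIJ => by
      have hle : I.ncard ≤ J.ncard := ncard_le_ncard hIJ (toFinite J)
      refine ⟨hle.trans hJ.1, fun hI A hA hIA => ?_⟩
      have : I = J := eq_of_subset_of_ncard_le hIJ (by have := hJ.1; omega) (toFinite J)
      exact hJ.2 (by rw [← this]; exact hI) A hA (by rw [← this]; exact hIA))
    (fun I J hI hJ h => by
      by_contra hcon
      push Not at hcon
      have hJr := hJ.1
      have key : ∀ e ∈ J, e ∉ I → I.ncard + 1 = r ∧ ∃ A ∈ H, insert e I ⊆ ↑A := by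
        intro e he heI
        have hc : (insert e I).ncard = I.ncard + 1 := ncard_insert_of_notMem heI (toFinite I)
        have := hcon e he heI (by omega)
        exact ⟨by omega, this.2⟩
      obtain ⟨e, he, heI⟩ : ∃ e ∈ J, e ∉ I := by
        by_contra hn
        push Not at hn
        have := ncard_le_ncard (show J ⊆ I from hn) (toFinite I)
        omega
      obtain ⟨hc, A, hA, hIA⟩ := key e he heI
      refine hJ.2 (by omega) A hA fun x hx => ?_
      by_cases hxI : x ∈ I
      · exact hIA (mem_insert_of_mem _ hxI)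
      · obtain ⟨-, B, hB, hIB⟩ := key x hx hxI
        by_cases hAB : A = B
        · rw [hAB]; exact hIB (mem_insert _ _)
        · exfalso
          have h1 := hH A hA B hB hAB
          have h2 : I ⊆ ↑(A ∩ B) := fun y hy => by
            rw [Finset.coe_inter]
            exact ⟨hIA (mem_insert_of_mem _ hy), hIB (mem_insert_of_mem _ hy)⟩
          have h3 := ncard_le_ncard h2 (toFinite _)
          rw [ncard_coe_finset] at h3
          omega)
    (fun _ _ => subset_univ _)).matroid

variable {r : ℕ} {H : Finset (Finset α)} {hr : 0 < r}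
  {hH : ∀ A ∈ H, ∀ B ∈ H, A ≠ B → (A ∩ B).card + 2 ≤ r}

@[simp] theorem pav_E : (pav r H hr hH).E = univ := rfl

theorem pav_indep (I : Set α) :
    (pav r H hr hH).Indep I ↔ I.ncard ≤ r ∧ (I.ncard = r → ∀ A ∈ H, ¬ I ⊆ ↑A) := Iff.rfl

theorem pav_indep_finset (I : Finset α) :
    (pav r H hr hH).Indep ↑I ↔ I.card ≤ r ∧ (I.card = r → ∀ A ∈ H, ¬ I ⊆ A) := by
  rw [pav_indep, ncard_coe_finset]
  simp only [Finset.coe_subset]

theorem pav_indep_of_lt {I : Set α} (h : I.ncard < r) : (pav r H hr hH).Indep I :=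
  ⟨h.le, fun h' => by omega⟩

instance : (pav r H hr hH).Finite := ⟨finite_univ⟩

/-- In the sparse case the dependent `r`-sets are exactly the members of `H`. -/
theorem pav_indep_sparse (hc : ∀ A ∈ H, A.card = r) (I : Set α) :
    (pav r H hr hH).Indep I ↔ I.ncard ≤ r ∧ ∀ A ∈ H, I ≠ ↑A := by
  rw [pav_indep]
  refine and_congr_right fun hI => ⟨fun h A hA hIA => ?_, fun h hIr A hA hIA => ?_⟩
  · refine h ?_ A hA hIA.subset
    rw [hIA, ncard_coe_finset, hc A hA]
  · refine h A hA (eq_of_subset_of_ncard_le hIA ?_ (toFinite _))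
    rw [ncard_coe_finset, hc A hA, hIr]

/-- If some `r`-set is independent then the bases are the independent `r`-sets. -/
theorem pav_isBase {B0 : Finset α} (h0 : B0.card = r) (h1 : ∀ A ∈ H, ¬ B0 ⊆ A) (B : Set α) :
    (pav r H hr hH).IsBase B ↔ B.ncard = r ∧ ∀ A ∈ H, ¬ B ⊆ ↑A := by
  have hi : (pav r H hr hH).Indep ↑B0 := (pav_indep_finset B0).2 ⟨h0.le, fun _ => h1⟩
  have hb : ∀ B : Set α, (pav r H hr hH).Indep B → B.ncard = r → (pav r H hr hH).IsBase B := by
    intro B hB hc
    obtain ⟨B', hB', hsub⟩ := hB.exists_isBase_superset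
    have := hB'.indep.1
    have : B = B' := eq_of_subset_of_ncard_le hsub (by omega) (toFinite _)
    rw [this]; exact hB'
  constructor
  · intro hB
    have hB0 := hb _ hi (by rw [ncard_coe_finset, h0])
    have hc : B.ncard = r := by
      rw [hB.ncard_eq_ncard_of_isBase hB0, ncard_coe_finset, h0]
    exact ⟨hc, hB.indep.2 hc⟩
  · rintro ⟨hc, h⟩
    exact hb B ⟨hc.le, fun _ => h⟩ hc

end Pool.Agent.H28.Paving
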