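import Mathlib
import Pool.Agent.H28.Paving

set_option autoImplicit false

namespace Pool.Agent.H28.MinorRec

open Set Pool.Agent.H28.Paving

def kM : Fin 7 → ℕ := ![63, 207, 972, 1008, 3132, 3267, 3843]
def gM (i : Fin 7) : Finset (Fin 12) := Finset.univ.filter fun x => (kM i).testBit x
def HM : Finset (Finset (Fin 12)) := Finset.univ.image gM
theorem memM {A : Finset (Fin 12)} : A ∈ HM ↔ ∃ i, gM i = A := by simp [HM]
theorem mem_gM (i : Fin 7) (x : Fin 12) : x ∈ gM i ↔ (kM i).testBit x := by simp [gM]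
def kN : Fin 7 → ℕ := ![783, 243, 252, 972, 3888, 3087, 3267]
def gN (i : Fin 7) : Finset (Fin 12) := Finset.univ.filter fun x => (kN i).testBit x
def HN : Finset (Finset (Fin 12)) := Finset.univ.image gN
theorem memN {A : Finset (Fin 12)} : A ∈ HN ↔ ∃ i, gN i = A := by simp [HN]
theorem mem_gN (i : Fin 7) (x : Fin 12) : x ∈ gN i ↔ (kN i).testBit x := by simp [gN]
def sD : Fin 12 → Fin 12 → Fin 12 := ![ ![0, 1, 4, 5, 8, 9, 2, 3, 6, 7, 10, 11],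
  ![0, 1, 4, 5, 8, 9, 2, 3, 6, 7, 10, 11],
  ![0, 1, 2, 3, 8, 9, 4, 5, 10, 11, 6, 7],
  ![0, 1, 2, 3, 8, 9, 4, 5, 10, 11, 6, 7],
  ![0, 1, 8, 9, 4, 5, 2, 3, 6, 7, 10, 11],
  ![0, 1, 8, 9, 4, 5, 2, 3, 6, 7, 10, 11],
  ![8, 9, 0, 1, 2, 3, 6, 7, 4, 5, 10, 11],
  ![8, 9, 0, 1, 2, 3, 6, 7, 4, 5, 10, 11],
  ![0, 1, 6, 7, 4, 5, 10, 11, 8, 9, 2, 3],
  ![0, 1, 6, 7, 4, 5, 10, 11, 8, 9, 2, 3],
  ![4, 5, 6, 7, 0, 1, 2, 3, 8, 9, 10, 11],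
  ![4, 5, 6, 7, 0, 1, 2, 3, 8, 9, 10, 11] ]
def tD : Fin 12 → Fin 12 → Fin 12 := ![ ![0, 1, 6, 7, 2, 3, 8, 9, 4, 5, 10, 11],
  ![0, 1, 6, 7, 2, 3, 8, 9, 4, 5, 10, 11],
  ![0, 1, 2, 3, 6, 7, 10, 11, 4, 5, 8, 9],
  ![0, 1, 2, 3, 6, 7, 10, 11, 4, 5, 8, 9],
  ![0, 1, 6, 7, 4, 5, 8, 9, 2, 3, 10, 11],
  ![0, 1, 6, 7, 4, 5, 8, 9, 2, 3, 10, 11],
  ![2, 3, 4, 5, 8, 9, 6, 7, 0, 1, 10, 11],
  ![2, 3, 4, 5, 8, 9, 6, 7, 0, 1, 10, 11],
  ![0, 1, 10, 11, 4, 5, 2, 3, 8, 9, 6, 7],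
  ![0, 1, 10, 11, 4, 5, 2, 3, 8, 9, 6, 7],
  ![4, 5, 6, 7, 0, 1, 2, 3, 8, 9, 10, 11],
  ![4, 5, 6, 7, 0, 1, 2, 3, 8, 9, 10, 11] ]
def sL : Fin 12 → Fin 12 → Fin 12 := ![ ![0, 1, 2, 3, 8, 9, 10, 11, 4, 5, 6, 7],
  ![0, 1, 2, 3, 8, 9, 10, 11, 4, 5, 6, 7],
  ![8, 9, 2, 3, 0, 1, 6, 7, 4, 5, 10, 11],
  ![8, 9, 2, 3, 0, 1, 6, 7, 4, 5, 10, 11],
  ![0, 1, 6, 7, 4, 5, 8, 9, 10, 11, 2, 3],
  ![0, 1, 6, 7, 4, 5, 8, 9, 10, 11, 2, 3],
  ![0, 1, 4, 5, 8, 9, 6, 7, 2, 3, 10, 11],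
  ![0, 1, 4, 5, 8, 9, 6, 7, 2, 3, 10, 11],
  ![4, 5, 0, 1, 6, 7, 2, 3, 8, 9, 10, 11],
  ![4, 5, 0, 1, 6, 7, 2, 3, 8, 9, 10, 11],
  ![0, 1, 4, 5, 8, 9, 2, 3, 6, 7, 10, 11],
  ![0, 1, 4, 5, 8, 9, 2, 3, 6, 7, 10, 11] ]
def tL : Fin 12 → Fin 12 → Fin 12 := ![ ![0, 1, 2, 3, 8, 9, 10, 11, 4, 5, 6, 7],
  ![0, 1, 2, 3, 8, 9, 10, 11, 4, 5, 6, 7],
  ![4, 5, 2, 3, 8, 9, 6, 7, 0, 1, 10, 11],
  ![4, 5, 2, 3, 8, 9, 6, 7, 0, 1, 10, 11],
  ![0, 1, 10, 11, 4, 5, 2, 3, 6, 7, 8, 9],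
  ![0, 1, 10, 11, 4, 5, 2, 3, 6, 7, 8, 9],
  ![0, 1, 8, 9, 2, 3, 6, 7, 4, 5, 10, 11],
  ![0, 1, 8, 9, 2, 3, 6, 7, 4, 5, 10, 11],
  ![2, 3, 6, 7, 0, 1, 4, 5, 8, 9, 10, 11],
  ![2, 3, 6, 7, 0, 1, 4, 5, 8, 9, 10, 11],
  ![0, 1, 6, 7, 2, 3, 8, 9, 4, 5, 10, 11],
  ![0, 1, 6, 7, 2, 3, 8, 9, 4, 5, 10, 11] ]

theorem hM : ∀ A ∈ HM, ∀ B ∈ HM, A ≠ B → (A ∩ B).card + 2 ≤ 6 := by
  have : ∀ i j, i ≠ j → (gM i ∩ gM j).card + 2 ≤ 6 := by decide +kernel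
  intro A hA B hB hAB
  obtain ⟨i, rfl⟩ := memM.1 hA
  obtain ⟨j, rfl⟩ := memM.1 hB
  exact this i j fun h => hAB (by rw [h])
theorem hN : ∀ A ∈ HN, ∀ B ∈ HN, A ≠ B → (A ∩ B).card + 2 ≤ 6 := by
  have : ∀ i j, i ≠ j → (gN i ∩ gN j).card + 2 ≤ 6 := by decide +kernel
  intro A hA B hB hAB
  obtain ⟨i, rfl⟩ := memN.1 hA
  obtain ⟨j, rfl⟩ := memN.1 hB
  exact this i j fun h => hAB (by rw [h])
theorem cM : ∀ A ∈ HM, A.card = 6 := by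
  have : ∀ i, (gM i).card = 6 := by decide +kernel
  intro A hA
  obtain ⟨i, rfl⟩ := memM.1 hA
  exact this i
theorem cN : ∀ A ∈ HN, A.card = 6 := by
  have : ∀ i, (gN i).card = 6 := by decide +kernel
  intro A hA
  obtain ⟨i, rfl⟩ := memN.1 hA
  exact this i

noncomputable def MM : Matroid (Fin 12) := pav 6 HM (by norm_num) hM
noncomputable def NN : Matroid (Fin 12) := pav 6 HN (by norm_num) hN

theorem MM_indep (I : Set (Fin 12)) : MM.Indep I ↔ I.ncard ≤ 6 ∧ ∀ A ∈ HM, I ≠ ↑A :=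
  pav_indep_sparse cM I
theorem NN_indep (I : Set (Fin 12)) : NN.Indep I ↔ I.ncard ≤ 6 ∧ ∀ A ∈ HN, I ≠ ↑A :=
  pav_indep_sparse cN I

theorem transfer (s t : Fin 12 → Fin 12) (e : Fin 12) (b : Prop) (hst : ∀ x, t (s x) = x)
    (_hts : ∀ x, s (t x) = x) (hse : s e = e)
    (h1 : ∀ A ∈ HM, (e ∈ A ↔ b) → A.image s ∈ HN)
    (h2 : ∀ A ∈ HN, (e ∈ A ↔ b) → A.image t ∈ HM) (I : Set (Fin 12)) (hI : e ∈ I ↔ b) :
    MM.Indep I ↔ NN.Indep (s '' I) := by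
  have hinj : Function.Injective s := Function.LeftInverse.injective hst
  rw [MM_indep, NN_indep, ncard_image_of_injective _ hinj]
  refine and_congr_right fun _ => ⟨fun h B hB hIB => ?_, fun h A hA hIA => ?_⟩
  · have heB : e ∈ B ↔ b := by
      rw [← hI, ← Finset.mem_coe, ← hIB]
      conv_lhs => rw [← hse]
      exact hinj.mem_set_image
    refine h _ (h2 B hB heB) ?_
    rw [Finset.coe_image, ← hIB, image_image]
    simp [hst]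
  · refine h _ (h1 A hA (by rw [← hI, hIA, Finset.mem_coe])) ?_
    rw [Finset.coe_image, hIA]

theorem bij (s t : Fin 12 → Fin 12) (e : Fin 12) (hst : ∀ x, t (s x) = x)
    (hts : ∀ x, s (t x) = x) (hse : s e = e) : BijOn s (univ \ {e}) (univ \ {e}) := by
  have hinj : Function.Injective s := Function.LeftInverse.injective hst
  refine ⟨fun x hx => ⟨mem_univ _, fun h => hx.2 ?_⟩, hinj.injOn, fun y hy => ⟨t y, ⟨mem_univ _, fun h => hy.2 ?_⟩, hts y⟩⟩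
  · exact hinj (by rw [hse]; exact h)
  · have h' : t y = e := h
    show y = e
    rw [← hts y, h', hse]

theorem img (k k' : ℕ) (s t : Fin 12 → Fin 12) (hts : ∀ x, s (t x) = x)
    (h : ∀ x : Fin 12, k.testBit x = k'.testBit (s x)) :
    (Finset.univ.filter fun x : Fin 12 => k'.testBit x) =
      (Finset.univ.filter fun x : Fin 12 => k.testBit x).image s := by
  ext y
  simp only [Finset.mem_filter, Finset.mem_univ, true_and, Finset.mem_image]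
  constructor
  · intro hy
    exact ⟨t y, by rw [h, hts]; exact hy, hts y⟩
  · rintro ⟨x, hx, rfl⟩
    rw [← h]; exact hx

theorem fD : ∀ e, (∀ x, tD e (sD e x) = x) ∧ (∀ x, sD e (tD e x) = x) ∧ sD e e = e ∧
    (∀ A ∈ HM, e ∉ A → A.image (sD e) ∈ HN) ∧ (∀ A ∈ HN, e ∉ A → A.image (tD e) ∈ HM) := by
  have h1 : ∀ e x, tD e (sD e x) = x := by decide +kernel
  have h2 : ∀ e x, sD e (tD e x) = x := by decide +kernel
  have h3 : ∀ e, sD e e = e := by decide +kernel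
  have h4 : ∀ (e : Fin 12) i, (kM i).testBit e = false →
      ∃ j, ∀ x : Fin 12, (kM i).testBit x = (kN j).testBit (sD e x) := by decide +kernel
  have h5 : ∀ (e : Fin 12) i, (kN i).testBit e = false →
      ∃ j, ∀ x : Fin 12, (kN i).testBit x = (kM j).testBit (tD e x) := by decide +kernel
  refine fun e => ⟨h1 e, h2 e, h3 e, fun A hA he => ?_, fun A hA he => ?_⟩
  · obtain ⟨i, rfl⟩ := memM.1 hA
    obtain ⟨j, hj⟩ := h4 e i (by simpa [mem_gM] using he)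
    exact memN.2 ⟨j, img _ _ _ _ (h2 e) hj⟩
  · obtain ⟨i, rfl⟩ := memN.1 hA
    obtain ⟨j, hj⟩ := h5 e i (by simpa [mem_gN] using he)
    exact memM.2 ⟨j, img _ _ _ _ (h1 e) hj⟩

theorem fL : ∀ e, (∀ x, tL e (sL e x) = x) ∧ (∀ x, sL e (tL e x) = x) ∧ sL e e = e ∧
    (∀ A ∈ HM, e ∈ A → A.image (sL e) ∈ HN) ∧ (∀ A ∈ HN, e ∈ A → A.image (tL e) ∈ HM) := by
  have h1 : ∀ e x, tL e (sL e x) = x := by decide +kernel
  have h2 : ∀ e x, sL e (tL e x) = x := by decide +kernel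
  have h3 : ∀ e, sL e e = e := by decide +kernel
  have h4 : ∀ (e : Fin 12) i, (kM i).testBit e = true →
      ∃ j, ∀ x : Fin 12, (kM i).testBit x = (kN j).testBit (sL e x) := by decide +kernel
  have h5 : ∀ (e : Fin 12) i, (kN i).testBit e = true →
      ∃ j, ∀ x : Fin 12, (kN i).testBit x = (kM j).testBit (tL e x) := by decide +kernel
  refine fun e => ⟨h1 e, h2 e, h3 e, fun A hA he => ?_, fun A hA he => ?_⟩
  · obtain ⟨i, rfl⟩ := memM.1 hA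
    obtain ⟨j, hj⟩ := h4 e i (by simpa [mem_gM] using he)
    exact memN.2 ⟨j, img _ _ _ _ (h2 e) hj⟩
  · obtain ⟨i, rfl⟩ := memN.1 hA
    obtain ⟨j, hj⟩ := h5 e i (by simpa [mem_gN] using he)
    exact memM.2 ⟨j, img _ _ _ _ (h1 e) hj⟩

theorem del (e : Fin 12) : ∃ f : Fin 12 → Fin 12, BijOn f (MM.delete {e}).E (NN.delete {e}).E ∧
    ∀ I ⊆ (MM.delete {e}).E, ((MM.delete {e}).Indep I ↔ (NN.delete {e}).Indep (f '' I)) := by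
  obtain ⟨h1, h2, h3, h4, h5⟩ := fD e
  have hb := bij _ _ e h1 h2 h3
  refine ⟨sD e, hb, fun I hI => ?_⟩
  have hI' : I ⊆ univ \ {e} := hI
  have hI2 : sD e '' I ⊆ univ \ {e} := hb.mapsTo.image_subset.trans' (image_mono hI')
  rw [Matroid.delete_indep_iff, Matroid.delete_indep_iff,
    and_iff_left (subset_sdiff.1 hI').2, and_iff_left (subset_sdiff.1 hI2).2]
  exact transfer _ _ e False h1 h2 h3 (by simpa using h4) (by simpa using h5) I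
    (iff_false_intro fun h => (hI' h).2 rfl)

theorem con (e : Fin 12) : ∃ f : Fin 12 → Fin 12, BijOn f (MM.contract {e}).E (NN.contract {e}).E ∧
    ∀ I ⊆ (MM.contract {e}).E, ((MM.contract {e}).Indep I ↔ (NN.contract {e}).Indep (f '' I)) := by
  obtain ⟨h1, h2, h3, h4, h5⟩ := fL e
  have hb := bij _ _ e h1 h2 h3
  refine ⟨sL e, hb, fun I hI => ?_⟩
  have hI' : I ⊆ univ \ {e} := hI
  have hI2 : sL e '' I ⊆ univ \ {e} := hb.mapsTo.image_subset.trans' (image_mono hI')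
  have iM : MM.Indep {e} := pav_indep_of_lt (by simp)
  have iN : NN.Indep {e} := pav_indep_of_lt (by simp)
  rw [iM.contract_indep_iff, iN.contract_indep_iff,
    and_iff_right (subset_sdiff.1 hI').2, and_iff_right (subset_sdiff.1 hI2).2]
  have := transfer _ _ e True h1 h2 h3 (by simpa using h4) (by simpa using h5) (I ∪ {e})
    (by simp)
  rw [this, image_union, image_singleton, h3]

theorem noClaw : ∀ A ∈ HN, ∀ B ∈ HN, ∀ C ∈ HN, ∀ D ∈ HN, (A ∩ B).card = 4 → (A ∩ C).card = 4 →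
    (A ∩ D).card = 4 → (B ∩ C).card = 2 → (B ∩ D).card = 2 → (C ∩ D).card = 2 → False := by
  have : ∀ a b, (gN a ∩ gN b).card = 4 → ∀ c, (gN a ∩ gN c).card = 4 → (gN b ∩ gN c).card = 2 →
      ∀ d, (gN a ∩ gN d).card = 4 → (gN b ∩ gN d).card = 2 → (gN c ∩ gN d).card ≠ 2 := by
    decide +kernel
  intro A hA B hB C hC D hD h1 h2 h3 h4 h5 h6
  obtain ⟨a, rfl⟩ := memN.1 hA
  obtain ⟨b, rfl⟩ := memN.1 hB
  obtain ⟨c, rfl⟩ := memN.1 hC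
  obtain ⟨d, rfl⟩ := memN.1 hD
  exact this a b h1 c h2 h4 d h3 h5 h6

theorem claw : ∃ A ∈ HM, ∃ B ∈ HM, ∃ C ∈ HM, ∃ D ∈ HM, (A ∩ B).card = 4 ∧ (A ∩ C).card = 4 ∧
    (A ∩ D).card = 4 ∧ (B ∩ C).card = 2 ∧ (B ∩ D).card = 2 ∧ (C ∩ D).card = 2 :=
  ⟨gM 1, memM.2 ⟨1, rfl⟩, gM 0, memM.2 ⟨0, rfl⟩, gM 2, memM.2 ⟨2, rfl⟩, gM 5, memM.2 ⟨5, rfl⟩,
    by decide +kernel⟩

theorem not_iso : ¬ ∃ f : Fin 12 → Fin 12, BijOn f MM.E NN.E ∧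
    ∀ I ⊆ MM.E, (MM.Indep I ↔ NN.Indep (f '' I)) := by
  rintro ⟨f, hf, h⟩
  have hinj : Function.Injective f := injOn_univ.1 hf.injOn
  have hmem : ∀ A ∈ HM, A.image f ∈ HN := by
    intro A hA
    by_contra hn
    have h1 : NN.Indep (f '' ↑A) := by
      rw [NN_indep, ncard_image_of_injective _ hinj, ncard_coe_finset, cM A hA]
      refine ⟨le_rfl, fun B hB hAB => hn ?_⟩
      rw [← Finset.coe_image, Finset.coe_inj] at hAB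
      rw [hAB]; exact hB
    have h2 := (h _ (subset_univ _)).2 h1
    exact ((MM_indep _).1 h2).2 A hA rfl
  have hc : ∀ A B : Finset (Fin 12), (A.image f ∩ B.image f).card = (A ∩ B).card := by
    intro A B
    rw [← Finset.image_inter _ _ hinj, Finset.card_image_of_injective _ hinj]
  obtain ⟨A, hA, B, hB, C, hC, D, hD, h1, h2, h3, h4, h5, h6⟩ := claw
  exact noClaw _ (hmem A hA) _ (hmem B hB) _ (hmem C hC) _ (hmem D hD) (by rw [hc, h1])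
    (by rw [hc, h2]) (by rw [hc, h3]) (by rw [hc, h4]) (by rw [hc, h5]) (by rw [hc, h6])

end Pool.Agent.H28.MinorRec
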