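import Pool.Agent.H28.Crit

set_option autoImplicit false
set_option linter.unusedSectionVars false

/-! A block with tangents at all points and a modular hyperplane is normal. -/

namespace Pool.Agent.H28.ModNormal

open Set Submodule Module Pool.Agent.H28.VecMat Pool.Agent.H28.TangDefs Pool.Agent.H28.Crit
open scoped Matroid

variable {α : Type} [Fintype α] {V : Type*} {F : Type} [Field F] [Fintype F] [AddCommGroup V]
  [Module F V] [FiniteDimensional F V] {M : Matroid α} {φ : α → V}

theorem normal_of_modular (h : Rep F M φ) (hs : IsSimple M) (k : ℕ)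
    (hblock : ¬ CritLE (Fintype.card F) k M)
    (hpt : ∀ e ∈ M.E, ∃ L : Fin k → Dual F V, (∀ i, L i (φ e) = 0) ∧
      ∀ f ∈ M.E, f ≠ e → ∃ i, L i (φ f) ≠ 0)
    {H : Set α} (hH : IsModularHyperplane M H) :
    IsSimplifiedQuotientOfComplete (Fintype.card F ^ k + 1) M := by
  classical
  obtain ⟨⟨hflat, hmod⟩, hrk⟩ := hH
  have hHE := hflat.subset_ground
  have hrk' := hrk
  rw [h.eRk hHE (toFinite _), h.eRk Subset.rfl (toFinite _)] at hrk'
  replace hrk' : finrank F (span F (φ '' H)) + 1 = finrank F (span F (φ '' M.E)) := by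
    exact_mod_cast hrk'
  set W := span F (φ '' H) with hW
  have hnz : ∀ e ∈ M.E, φ e ≠ 0 := fun e he => h.ne_zero_of_indep (by simpa using hs e he e he)
  have hWmem : ∀ e ∈ M.E, φ e ∈ W → e ∈ H := (h.isFlat_iff.1 hflat).2
  obtain ⟨e0, he0, he0H⟩ : ∃ e0 ∈ M.E, e0 ∉ H := by
    by_contra hcon
    push Not at hcon
    have : H = M.E := Subset.antisymm hHE hcon
    rw [hW, this] at hrk'
    omega
  have he0W : φ e0 ∉ W := fun hh => he0H (hWmem e0 he0 hh)
  obtain ⟨z, hz0, hzW⟩ := Submodule.exists_le_ker_of_notMem he0W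
  have hzH : ∀ x ∈ H, z (φ x) = 0 := fun x hx => hzW (subset_span ⟨x, hx, rfl⟩)
  have hsup : W ⊔ span F {φ e0} = span F (φ '' M.E) := by
    apply Submodule.eq_of_le_of_finrank_le
    · exact sup_le (span_mono (image_mono hHE)) (span_mono (by simpa using ⟨e0, he0, rfl⟩))
    · have : W < W ⊔ span F {φ e0} :=
        lt_of_le_of_ne le_sup_left fun hh => he0W (hh ▸ mem_sup_right (mem_span_singleton_self _))
      have := Submodule.finrank_lt_finrank_of_lt this
      omega
  have hz : ∀ e ∈ M.E, e ∉ H → z (φ e) ≠ 0 := by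
    intro e he heH hze
    have : φ e ∈ W ⊔ span F {φ e0} := hsup ▸ subset_span ⟨e, he, rfl⟩
    obtain ⟨w, hw, y, hy, hwy⟩ := Submodule.mem_sup.1 this
    obtain ⟨c, rfl⟩ := Submodule.mem_span_singleton.1 hy
    rw [← hwy, map_add, hzW hw, map_smul, zero_add, smul_eq_mul, mul_eq_zero] at hze
    rw [hze.resolve_right hz0, zero_smul, add_zero] at hwy
    exact heH (hWmem e he (hwy ▸ hw))
  let a : α → V := fun e => (z (φ e))⁻¹ • φ e
  have hza : ∀ e ∈ M.E, e ∉ H → z (a e) = 1 := by
    intro e he heH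
    simp [a, hz e he heH]
  have hdir : ∀ e ∈ M.E, e ∉ H → ∀ f ∈ M.E, f ∉ H → e ≠ f →
      ∃ x ∈ H, ∃ c : F, c ≠ 0 ∧ a e - a f = c • φ x := by
    intro e he heH f hf hfH hef
    have hpair : ({e, f} : Set α) ⊆ M.E := by simp [insert_subset_iff, he, hf]
    have h1 := hmod _ (M.isFlat_closure {e, f})
    rw [Matroid.eRk_closure_eq, (hs e he f hf).eRk_eq_encard, encard_pair hef] at h1
    obtain ⟨x, hxH, hx⟩ : (H ∩ M.closure {e, f}).Nonempty := by
      by_contra hcon
      rw [not_nonempty_iff_eq_empty] at hcon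
      rw [hcon, Matroid.eRk_empty, add_zero] at h1
      have h2 : M.eRk (H ∪ M.closure {e, f}) ≤ M.eRk M.E :=
        M.eRk_mono (union_subset hHE (M.closure_subset_ground _))
      rw [← h1, ← hrk, h.eRk hHE (toFinite _)] at h2
      norm_cast at h2
      omega
    rw [h.mem_closure hpair, image_pair, mem_span_pair] at hx
    obtain ⟨⟨s, t, hst⟩, hxE⟩ := hx
    have h3 := hzH x hxH
    rw [← hst, map_add, map_smul, map_smul, smul_eq_mul, smul_eq_mul] at h3
    have h4 : φ x = (s * z (φ e)) • (a e - a f) := by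
      have h5 : s * z (φ e) = - (t * z (φ f)) := eq_neg_of_add_eq_zero_left h3
      rw [smul_sub, ← hst]
      conv_rhs => rw [sub_eq_add_neg, ← neg_smul]
      congr 1
      · simp [a, smul_smul, hz e he heH]
      · rw [h5]; simp [a, smul_smul, hz f hf hfH]
    have h6 : s * z (φ e) ≠ 0 := by
      intro h0
      rw [h0, zero_smul] at h4
      exact hnz x hxE h4
    exact ⟨x, hxH, (s * z (φ e))⁻¹, inv_ne_zero h6, by rw [h4, inv_smul_smul₀ h6]⟩
  let A := {e : α // e ∈ M.E ∧ e ∉ H}
  have hcard : Fintype.card A = Fintype.card F ^ k := by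
    obtain ⟨L, -, hL⟩ := hpt e0 he0
    let Λ : A → Fin k → F := fun f i => L i (a f)
    have hbij : Function.Bijective Λ := by
      constructor
      · intro f g hfg
        by_contra hne
        obtain ⟨x, hx, c, hc, hxc⟩ := hdir f f.2.1 f.2.2 g g.2.1 g.2.2 fun hh => hne (Subtype.ext hh)
        obtain ⟨i, hi⟩ := hL x (hHE hx) fun hh => he0H (hh ▸ hx)
        have h1 : L i (a f) = L i (a g) := congrFun hfg i
        rw [← sub_eq_zero, ← map_sub, hxc, map_smul, smul_eq_mul, mul_eq_zero] at h1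
        exact hi (h1.resolve_left hc)
      · intro c
        rw [critLE_iff h] at hblock
        push Not at hblock
        obtain ⟨f, hf, hf'⟩ := hblock fun i => L i - c i • z
        have hfH : f ∉ H := by
          intro hfH
          obtain ⟨i, hi⟩ := hL f hf fun hh => he0H (hh ▸ hfH)
          have := hf' i
          simp [hzH f hfH] at this
          exact hi this
        refine ⟨⟨f, hf, hfH⟩, funext fun i => ?_⟩
        have := hf' i
        simp only [LinearMap.sub_apply, LinearMap.smul_apply, smul_eq_mul, sub_eq_zero] at this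
        have h0 := hz f hf hfH
        simp only [Λ, a, map_smul, this, smul_eq_mul]
        field_simp
    rw [Fintype.card_of_bijective hbij]
    simp
  have hclaim : ∀ x ∈ H, ∃ f g : A, f ≠ g ∧ ∃ c : F, c ≠ 0 ∧ a f - a g = c • φ x := by
    intro x hx
    obtain ⟨L, hLx, hL⟩ := hpt x (hHE hx)
    let Λ : A → Fin k → F := fun f i => L i (a f)
    have hninj : ¬ Function.Injective Λ := by
      intro hinj
      have hsurj : Function.Surjective Λ :=
        ((Fintype.bijective_iff_injective_and_card Λ).2 ⟨hinj, by simp [hcard]⟩).2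
      obtain ⟨f, hf⟩ := hsurj 0
      obtain ⟨i, hi⟩ := hL f f.2.1 fun hh => f.2.2 (hh ▸ hx)
      have := congrFun hf i
      simp [Λ, a, hz f f.2.1 f.2.2] at this
      exact hi this
    unfold Function.Injective at hninj
    push Not at hninj
    obtain ⟨f, g, hfg, hne⟩ := hninj
    obtain ⟨y, hy, c, hc, hyc⟩ := hdir f f.2.1 f.2.2 g g.2.1 g.2.2 fun hh => hne (Subtype.ext hh)
    have : y = x := by
      by_contra hyx
      obtain ⟨i, hi⟩ := hL y (hHE hy) hyx
      have h1 : L i (a f) = L i (a g) := congrFun hfg i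
      rw [← sub_eq_zero, ← map_sub, hyc, map_smul, smul_eq_mul, mul_eq_zero] at h1
      exact hi (h1.resolve_left hc)
    exact ⟨f, g, hne, c, hc, this ▸ hyc⟩
  let σ : Fin (Fintype.card F ^ k + 1) ≃ Option A := Fintype.equivOfCardEq (by simp [hcard])
  let p' : Option A → V := fun o => o.elim 0 fun f => a f
  refine normal_of_points h hs (fun i => p' (σ i)) (fun e he => ?_) (fun i j => ?_) (Nat.succ_pos _)
  · by_cases heH : e ∈ H
    · obtain ⟨f, g, hne, c, hc, hfg⟩ := hclaim e heH
      exact ⟨σ.symm (some f), σ.symm (some g), by simpa using hne, c, hc, by simpa [p'] using hfg⟩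
    · exact ⟨σ.symm (some ⟨e, he, heH⟩), σ.symm none, by simp, (z (φ e))⁻¹,
        inv_ne_zero (hz e he heH), by simp [p', a]⟩
  · rcases σ i with _ | f <;> rcases σ j with _ | g
    · exact Or.inl rfl
    · exact Or.inr ⟨g, g.2.1, - (z (φ g))⁻¹, by simp [p', a]⟩
    · exact Or.inr ⟨f, f.2.1, (z (φ f))⁻¹, by simp [p', a]⟩
    · by_cases hfg : f = g
      · exact Or.inl (by rw [hfg])
      · obtain ⟨y, hy, c, -, hyc⟩ := hdir f f.2.1 f.2.2 g g.2.1 g.2.2 fun hh => hfg (Subtype.ext hh)
        exact Or.inr ⟨y, hHE hy, c, hyc⟩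

/-- Tangents at points from the condition on simple proper minors. -/
theorem point_tangent_of_simple_minors (h : Rep F M φ) (hs : IsSimple M) (k : ℕ)
    (hmin : ∀ N : Matroid α, N <m M → IsSimple N → CritLE (Fintype.card F) k N) :
    ∀ e ∈ M.E, ∃ L : Fin k → Dual F V, (∀ i, L i (φ e) = 0) ∧
      ∀ f ∈ M.E, f ≠ e → ∃ i, L i (φ f) ≠ 0 := by
  classical
  intro e he
  have heE : ({e} : Set α) ⊆ M.E := by simpa using he
  have hc := h.contract (toFinite _) heE
  set ψ := (span F (φ '' {e})).mkQ ∘ φ with hψ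
  have hψ0 : ∀ f ∈ M.E, f ≠ e → ψ f ≠ 0 := by
    intro f hf hfe h0
    have h1 : φ f ∈ span F (φ '' {e}) := (Submodule.Quotient.mk_eq_zero _).1 h0
    rw [image_singleton, mem_span_singleton] at h1
    obtain ⟨c, hc⟩ := h1
    exact ((h.pair_indep_iff hfe hf he).1 (hs f hf e he)).2 c hc
  obtain ⟨S, hS, hmax⟩ := Finset.exists_max_image
    (Finset.univ.filter fun S : Finset α => (∀ f ∈ S, f ∈ M.E ∧ f ≠ e) ∧
      ∀ f ∈ S, ∀ g ∈ S, f ≠ g → ∀ c : F, c • ψ g ≠ ψ f) Finset.card ⟨∅, by simp⟩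
  simp only [Finset.mem_filter, Finset.mem_univ, true_and] at hS hmax
  have hNE : (M ／ {e} ＼ (M.E \ S)).E = S := by
    ext x
    simp only [Matroid.delete_ground, Matroid.contract_ground, mem_sdiff, mem_singleton_iff,
      Finset.mem_coe]
    exact ⟨fun hh => by tauto, fun hh => ⟨hS.1 x hh, fun h' => h'.2 hh⟩⟩
  have hN : M ／ {e} ＼ (M.E \ S) <m M := by
    rw [Matroid.isStrictMinor_iff_isMinor_ne]
    refine ⟨M.contract_delete_isMinor _ _, fun hh => ?_⟩
    rw [hh] at hNE
    exact (hS.1 e (by rw [← Finset.mem_coe, ← hNE]; exact he)).2 rfl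
  have hsimp : IsSimple (M ／ {e} ＼ (M.E \ S)) := by
    intro f hf g hg
    have hf' : f ∈ S := by rwa [hNE] at hf
    have hg' : g ∈ S := by rwa [hNE] at hg
    by_cases hfg : f = g
    · subst hfg
      rw [pair_eq_singleton, (hc.delete _) _, linearIndepOn_singleton_iff]
      exact ⟨hψ0 f (hS.1 f hf').1 (hS.1 f hf').2, by simpa using hf⟩
    · rw [(hc.delete _).pair_indep_iff hfg hf hg]
      exact ⟨hψ0 g (hS.1 g hg').1 (hS.1 g hg').2, hS.2 f hf' g hg' hfg⟩
  obtain ⟨L, hL1, hL2⟩ := (critLE_minor_iff h k heE _).1 (hmin _ hN hsimp)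
  refine ⟨L, fun i => hL1 i e rfl, fun f hf hfe => ?_⟩
  by_cases hfS : f ∈ S
  · exact hL2 f hf hfe fun hh => hh.2 hfS
  obtain ⟨g, hg, c, hc0, hcg⟩ : ∃ g ∈ S, ∃ c : F, c ≠ 0 ∧ c • ψ g = ψ f := by
    by_contra hcon
    push Not at hcon
    have h1 : ∀ g ∈ S, ∀ c : F, c • ψ g ≠ ψ f := by
      intro g hg c hh
      by_cases hc0 : c = 0
      · rw [hc0, zero_smul] at hh
        exact hψ0 f hf hfe hh.symm
      · exact hcon g hg c hc0 hh
    have := hmax (insert f S) ⟨fun x hx => ?_, fun x hx y hy hxy c hh => ?_⟩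
    · rw [Finset.card_insert_of_notMem hfS] at this
      omega
    · rcases Finset.mem_insert.1 hx with rfl | hx
      · exact ⟨hf, hfe⟩
      · exact hS.1 x hx
    · rw [Finset.mem_insert] at hx hy
      rcases hx with rfl | hx <;> rcases hy with rfl | hy
      · exact hxy rfl
      · exact h1 y hy c hh
      · have hc0 : c ≠ 0 := by
          rintro rfl
          rw [zero_smul] at hh
          exact hψ0 x (hS.1 x hx).1 (hS.1 x hx).2 hh.symm
        exact h1 x hx c⁻¹ (by rw [← hh, inv_smul_smul₀ hc0])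
      · exact hS.2 x hx y hy hxy c hh
  obtain ⟨i, hi⟩ := hL2 g (hS.1 g hg).1 (hS.1 g hg).2 fun hh => hh.2 hg
  refine ⟨i, fun h0 => hi ?_⟩
  have h2 : c • φ g - φ f ∈ span F (φ '' {e}) := by
    rw [← Submodule.Quotient.eq]
    exact hcg
  rw [image_singleton, mem_span_singleton] at h2
  obtain ⟨d, hd⟩ := h2
  have h3 := congrArg (L i) hd
  rw [map_smul, hL1 i e rfl, smul_zero, map_sub, map_smul, h0, sub_zero, smul_eq_mul] at h3
  exact (mul_eq_zero.1 h3.symm).resolve_left hc0

end Pool.Agent.H28.ModNormal
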