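import Pool.Agent.H28.Sub3

namespace Pool.Agent.H28.Mon

open Module Classical

section ops
variable (R : Type) [CommRing R] {V : Type} [LinearOrder V] {Y : Type} [AddCommGroup Y] [Module R Y]

def eps (j : V) (T : Finset V) : ℤ := (-1) ^ (T.filter (· < j)).card

lemma eps_sq (j : V) (T : Finset V) : eps j T * eps j T = 1 := by
  rw [eps, ← mul_pow]
  simp

lemma eps_insert {i : V} (j : V) {T : Finset V} (h : i ∉ T) :
    eps j (insert i T) = (if i < j then -1 else 1) * eps j T := by
  unfold eps
  rw [Finset.filter_insert]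
  split_ifs
  · rw [Finset.card_insert_of_notMem (by simp [h]), pow_succ]
    ring
  · simp

def Dn (j : V) : End R (Finset V → Y) where
  toFun c T := if j ∈ T then 0 else eps j T • c (insert j T)
  map_add' x y := by
    funext T
    simp only [Pi.add_apply]
    split_ifs <;> simp
  map_smul' a x := by
    funext T
    simp only [Pi.smul_apply]
    split_ifs <;> simp [smul_comm a]

def Up (j : V) : End R (Finset V → Y) where
  toFun c T := if j ∈ T then eps j (T.erase j) • c (T.erase j) else 0
  map_add' x y := by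
    funext T
    simp only [Pi.add_apply]
    split_ifs <;> simp
  map_smul' a x := by
    funext T
    simp only [Pi.smul_apply]
    split_ifs <;> simp [smul_comm a]

lemma dn_apply (j : V) (c : Finset V → Y) (T : Finset V) :
    Dn R j c T = if j ∈ T then 0 else eps j T • c (insert j T) := rfl

lemma up_apply (j : V) (c : Finset V → Y) (T : Finset V) :
    Up R j c T = if j ∈ T then eps j (T.erase j) • c (T.erase j) else 0 := rfl

lemma dn_sq (i : V) : (Dn R i * Dn R i : End R (Finset V → Y)) = 0 := by
  ext1 c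
  funext T
  simp [dn_apply]

lemma dn_dn (i j : V) : (Dn R i * Dn R j + Dn R j * Dn R i : End R (Finset V → Y)) = 0 := by
  by_cases h : i = j
  · simp [h, dn_sq]
  ext1 c
  funext T
  simp only [LinearMap.add_apply, End.mul_apply, dn_apply, Finset.mem_insert, Pi.add_apply,
    Finset.insert_comm i j, LinearMap.zero_apply, Pi.zero_apply]
  by_cases h1 : i ∈ T
  · simp [h1]
  by_cases h2 : j ∈ T
  · simp [h2]
  simp only [h1, h2, h, Ne.symm h, or_self, if_false, smul_smul, ← add_smul, eps_insert _ h1,
    eps_insert _ h2]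
  rcases lt_or_gt_of_ne h with h3 | h3
  · simp [h3, h3.not_gt, mul_comm]
  · simp [h3, h3.not_gt, mul_comm]

lemma dn_up {i j : V} (h : i ≠ j) :
    (Dn R i * Up R j + Up R j * Dn R i : End R (Finset V → Y)) = 0 := by
  ext1 c
  funext T
  simp only [LinearMap.add_apply, End.mul_apply, dn_apply, up_apply, Finset.mem_insert,
    Finset.mem_erase, Finset.erase_insert_of_ne h, Pi.add_apply, LinearMap.zero_apply,
    Pi.zero_apply]
  by_cases h1 : i ∈ T
  · simp [h1, h]
  by_cases h2 : j ∈ T
  swap
  · simp [h2, h.symm]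
  have e1 := eps_insert i (Finset.notMem_erase j T)
  rw [Finset.insert_erase h2] at e1
  simp only [h1, h2, or_true, if_true, and_false, if_false, smul_smul, ← add_smul, e1,
    eps_insert j (show i ∉ T.erase j by simp [h1])]
  rcases lt_or_gt_of_ne h with h3 | h3
  · simp [h3, h3.not_gt, mul_comm]
  · simp [h3, h3.not_gt, mul_comm]

lemma dn_up_self (i : V) : (Dn R i * Up R i + Up R i * Dn R i : End R (Finset V → Y)) = 1 := by
  ext1 c
  funext T
  simp only [LinearMap.add_apply, End.mul_apply, dn_apply, up_apply, Pi.add_apply, End.one_apply]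
  by_cases h1 : i ∈ T
  · simp [h1, Finset.insert_erase h1, smul_smul, eps_sq]
  · simp [h1, Finset.erase_insert h1, smul_smul, eps_sq]

variable {R} [Fintype V]

def con (φ : V → R) : End R (Finset V → Y) := ∑ j, φ j • Dn R j

def mul (a : V → R) : End R (Finset V → Y) := ∑ j, a j • Up R j

lemma con_apply (φ : V → R) (c : Finset V → Y) (T : Finset V) :
    con φ c T = ∑ j, φ j • if j ∈ T then 0 else eps j T • c (insert j T) := by
  simp [con, LinearMap.sum_apply, Finset.sum_apply, dn_apply]

lemma mul_apply (a : V → R) (c : Finset V → Y) (T : Finset V) :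
    mul a c T = ∑ j, a j • if j ∈ T then eps j (T.erase j) • c (T.erase j) else 0 := by
  simp [mul, LinearMap.sum_apply, Finset.sum_apply, up_apply]

lemma con_con (φ ψ : V → R) (c : Finset V → Y) : con φ (con ψ c) = - con ψ (con φ c) := by
  have : (con φ * con ψ + con ψ * con φ : End R (Finset V → Y)) = 0 := by
    simp only [con, Finset.sum_mul_sum, smul_mul_smul_comm]
    rw [Finset.sum_comm (f := fun i j => (ψ i * φ j) • (Dn R i * Dn R j)), ← Finset.sum_add_distrib]
    refine Finset.sum_eq_zero fun i _ => ?_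
    rw [← Finset.sum_add_distrib]
    refine Finset.sum_eq_zero fun j _ => ?_
    rw [mul_comm (ψ j), ← smul_add, dn_dn, smul_zero]
  exact eq_neg_of_add_eq_zero_left (LinearMap.congr_fun this c)

lemma con_sq (φ : V → R) (c : Finset V → Y) : con φ (con φ c) = 0 := by
  have : (con φ * con φ : End R (Finset V → Y)) = 0 := by
    simp only [con, Finset.sum_mul_sum, smul_mul_smul_comm]
    rw [← Finset.sum_product']
    refine Finset.sum_involution (fun p _ => p.swap) (fun p _ => ?_) (fun p _ h e => h ?_)
      (fun p _ => by simp) (fun p _ => rfl)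
    · simp only [Prod.fst_swap, Prod.snd_swap]
      rw [mul_comm (φ p.2), ← smul_add, dn_dn, smul_zero]
    · have : p.2 = p.1 := congrArg Prod.fst e
      rw [this, dn_sq, smul_zero]
  exact LinearMap.congr_fun this c

lemma con_mul (φ a : V → R) (c : Finset V → Y) :
    con φ (mul a c) = (∑ j, φ j * a j) • c - mul a (con φ c) := by
  have : (con φ * mul a + mul a * con φ : End R (Finset V → Y)) = (∑ j, φ j * a j) • 1 := by
    simp only [con, mul, Finset.sum_mul_sum, smul_mul_smul_comm]
    rw [Finset.sum_comm (f := fun i j => (a i * φ j) • (Up R i * Dn R j)), ← Finset.sum_add_distrib,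
      Finset.sum_smul]
    refine Finset.sum_congr rfl fun i _ => ?_
    rw [← Finset.sum_add_distrib, Finset.sum_eq_single i]
    · rw [mul_comm (a i), ← smul_add, dn_up_self]
    · intro j _ h
      rw [mul_comm (a j), ← smul_add, dn_up R h.symm, smul_zero]
    · simp
  exact eq_sub_of_add_eq (LinearMap.congr_fun this c)

lemma con_ne {φ : V → R} {c : Finset V → Y} {T : Finset V} (h : con φ c T ≠ 0) :
    ∃ j ∉ T, c (insert j T) ≠ 0 := by
  rw [con_apply] at h
  obtain ⟨j, -, hj⟩ := Finset.exists_ne_zero_of_sum_ne_zero h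
  by_cases e : j ∈ T
  · simp [e] at hj
  · exact ⟨j, e, fun h0 => by simp [h0] at hj⟩

lemma mul_ne {a : V → R} {c : Finset V → Y} {T : Finset V} (h : mul a c T ≠ 0) :
    ∃ j ∈ T, c (T.erase j) ≠ 0 := by
  rw [mul_apply] at h
  obtain ⟨j, -, hj⟩ := Finset.exists_ne_zero_of_sum_ne_zero h
  by_cases e : j ∈ T
  · exact ⟨j, e, fun h0 => by simp [h0] at hj⟩
  · simp [e] at hj

variable (R) in
def del : End R (Finset V → Y) := con (1 : V → R)

lemma del_apply (c : Finset V → Y) (T : Finset V) :
    del R c T = ∑ j, if j ∈ T then 0 else eps j T • c (insert j T) := by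
  simp [del, con_apply]

lemma del_del (c : Finset V → Y) : del R (del R c) = 0 := con_sq _ c

lemma del_ne {c : Finset V → Y} {T : Finset V} (h : del R c T ≠ 0) :
    ∃ j ∉ T, c (insert j T) ≠ 0 := con_ne h

lemma del_up (v : V) (c : Finset V → Y) : del R (Up R v c) = c - Up R v (del R c) := by
  have e : (mul (Pi.single v 1 : V → R) : End R (Finset V → Y)) = Up R v := by
    simp [mul, Pi.single_apply]
  have := con_mul (1 : V → R) (Pi.single v 1) c
  rw [e] at this
  simpa [Pi.single_apply, del] using this

lemma del_congr {x y : Finset V → Y} {T : Finset V}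
    (h : ∀ j ∉ T, x (insert j T) = y (insert j T)) : del R x T = del R y T := by
  rw [del_apply, del_apply]
  refine Finset.sum_congr rfl fun j _ => ?_
  split_ifs with e
  · rfl
  · rw [h j e]

lemma map_del {S Z F : Type} [CommRing S] [AddCommGroup Z] [Module S Z] [FunLike F Y Z]
    [AddMonoidHomClass F Y Z] (f : F) (x : Finset V → Y) (T : Finset V) :
    f (del R x T) = del S (fun G => f (x G)) T := by
  rw [del_apply, del_apply, map_sum]
  refine Finset.sum_congr rfl fun j _ => ?_
  split_ifs <;> simp

lemma map_con {S : Type} [CommRing S] (f : R →+* S) (φ : V → R) (x : Finset V → R) :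
    (fun T => f (con φ x T)) = con (fun j => f (φ j)) fun T => f (x T) := by
  funext T
  rw [con_apply, con_apply, map_sum]
  refine Finset.sum_congr rfl fun j _ => ?_
  split_ifs <;> simp

def Cvx (A : Finset V → Prop) : Prop := ∀ G H J, G ⊆ H → H ⊆ J → A G → A J → A H

variable (R) in
noncomputable def prj (A : Finset V → Prop) : End R (Finset V → Y) where
  toFun c T := if A T then c T else 0
  map_add' x y := by
    funext T
    simp only [Pi.add_apply]
    split_ifs <;> simp
  map_smul' a x := by
    funext T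
    simp only [Pi.smul_apply]
    split_ifs <;> simp

variable (R) in
noncomputable def bd (A : Finset V → Prop) : End R (Finset V → Y) := prj R A * del R

omit [Fintype V] [LinearOrder V] in
lemma prj_apply (A : Finset V → Prop) (c : Finset V → Y) (T : Finset V) :
    prj R A c T = if A T then c T else 0 := rfl

lemma bd_apply (A : Finset V → Prop) (c : Finset V → Y) (T : Finset V) :
    bd R A c T = if A T then del R c T else 0 := rfl

lemma map_bd {S Z F : Type} [CommRing S] [AddCommGroup Z] [Module S Z] [FunLike F Y Z]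
    [AddMonoidHomClass F Y Z] (f : F) (A : Finset V → Prop) (x : Finset V → Y) (T : Finset V) :
    f (bd R A x T) = bd S A (fun G => f (x G)) T := by
  rw [bd_apply, bd_apply]
  split_ifs
  · exact map_del f x T
  · simp

def CS (A : Finset V → Prop) (F : Finset V → Submodule R Y) (k : ℤ) :
    Submodule R (Finset V → Y) where
  carrier := {x | ∀ G, x G ∈ F G ∧ (x G ≠ 0 → A G ∧ (G.card : ℤ) = k)}
  add_mem' := by
    intro x y hx hy G
    refine ⟨add_mem (hx G).1 (hy G).1, fun h => ?_⟩
    by_cases e : x G = 0
    · exact (hy G).2 fun e2 => h (by simp [e, e2])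
    · exact (hx G).2 e
  zero_mem' := fun G => ⟨zero_mem _, fun h => (h rfl).elim⟩
  smul_mem' := fun a x hx G => ⟨Submodule.smul_mem _ _ (hx G).1,
    fun h => (hx G).2 fun e => h (by simp [e])⟩

omit [Fintype V] [LinearOrder V] in
lemma mem_cs {A : Finset V → Prop} {F : Finset V → Submodule R Y} {k : ℤ} {x : Finset V → Y} :
    x ∈ CS A F k ↔ ∀ G, x G ∈ F G ∧ (x G ≠ 0 → A G ∧ (G.card : ℤ) = k) := Iff.rfl

omit [Fintype V] [LinearOrder V] in
lemma cs_neg (A : Finset V → Prop) (F : Finset V → Submodule R Y) {k : ℤ} (hk : k < 0) :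
    CS A F k = ⊥ := by
  refine (Submodule.eq_bot_iff _).2 fun x hx => funext fun G => ?_
  by_contra h
  have := ((hx G).2 h).2
  omega

omit [Fintype V] [LinearOrder V] in
lemma cs_mono {A B : Finset V → Prop} {F E : Finset V → Submodule R Y} {k : ℤ} {x : Finset V → Y}
    (hx : x ∈ CS A F k) (h1 : ∀ G, A G → B G) (h2 : ∀ G, F G ≤ E G) : x ∈ CS B E k :=
  fun G => ⟨h2 G (hx G).1, fun e => ⟨h1 G ((hx G).2 e).1, ((hx G).2 e).2⟩⟩

omit [Fintype V] [LinearOrder V] in
lemma prj_mem {A B : Finset V → Prop} {F : Finset V → Submodule R Y} {k : ℤ} {x : Finset V → Y}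
    (hx : x ∈ CS A F k) : prj R B x ∈ CS B F k := by
  intro G
  rw [prj_apply]
  split_ifs with h
  · exact ⟨(hx G).1, fun e => ⟨h, ((hx G).2 e).2⟩⟩
  · exact ⟨zero_mem _, fun e => (e rfl).elim⟩

lemma del_val {c : Finset V → Y} {T : Finset V} {P : Submodule R Y}
    (h : ∀ j ∉ T, c (insert j T) ∈ P) : del R c T ∈ P := by
  rw [del_apply]
  refine Submodule.sum_mem _ fun j _ => ?_
  split_ifs with e
  · exact zero_mem _
  · exact zsmul_mem (h j e) _

lemma bd_mem {A : Finset V → Prop} {F : Finset V → Submodule R Y} (hF : Antitone F) (k : ℤ)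
    (x : Finset V → Y) (hx : x ∈ CS A F (k + 1)) : bd R A x ∈ CS A F k := by
  intro G
  rw [bd_apply]
  split_ifs with h
  · refine ⟨del_val fun j _ => hF (Finset.subset_insert j G) (hx _).1, fun e => ⟨h, ?_⟩⟩
    obtain ⟨j, hj, e2⟩ := del_ne e
    have := ((hx _).2 e2).2
    rw [Finset.card_insert_of_notMem hj] at this
    push_cast at this
    omega
  · exact ⟨zero_mem _, fun e => (e rfl).elim⟩

lemma bd_bd {A : Finset V → Prop} (hA : Cvx A) {F : Finset V → Submodule R Y} (k : ℤ)
    (x : Finset V → Y) (hx : x ∈ CS A F k) : bd R A (bd R A x) = 0 := by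
  funext G
  rw [bd_apply]
  split_ifs with h
  · have : del R (bd R A x) G = del R (del R x) G := by
      refine del_congr fun j _ => ?_
      rw [bd_apply]
      split_ifs with h2
      · rfl
      · by_contra e
        obtain ⟨i, -, e2⟩ := del_ne (Ne.symm e)
        exact h2 (hA _ _ _ (Finset.subset_insert _ _) (Finset.subset_insert _ _) h ((hx _).2 e2).1)
    rw [this, del_del]
  · rfl

lemma bd_down {A : Finset V → Prop} (hA : ∀ G H, G ⊆ H → A H → A G) {F : Finset V → Submodule R Y}
    {k : ℤ} {x : Finset V → Y} (hx : x ∈ CS A F k) : bd R A x = del R x := by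
  funext G
  rw [bd_apply]
  split_ifs with h
  · rfl
  · by_contra e
    obtain ⟨j, -, e2⟩ := del_ne (Ne.symm e)
    exact h (hA _ _ (Finset.subset_insert _ _) ((hx _).2 e2).1)

end ops

end Pool.Agent.H28.Mon
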