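import Pool.Agent.H28.Mon9

namespace Pool.Agent.H28.Mon

open Module Classical Pool.Agent.H43.Orb Metric
open Pool.Agent.H28.Sub (Cost bary bary_mem cost_mono ball_ie)

variable {k : Type} [Field k] {V U : Type} [LinearOrder V] [Fintype V] [LinearOrder U] [Fintype U]

def Ph (Γ : Finset U → Prop) (σ : Finset U → Finset V) (F : Finset V) (A : Set U) : Prop :=
  ∃ G, Γ G ∧ σ G ⊆ F ∧ A ⊆ G

lemma fex_link {Δ : Finset V → Prop} (hΔ : ∀ G H, G ⊆ H → Δ H → Δ G) (F : Finset V) {m : ℤ}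
    (h : FEx k (fun G => Disjoint G F ∧ Δ (G ∪ F)) m) : FEx k (St Δ F) (m + F.card) := by
  have key : ∀ S : Finset V, S ⊆ F →
      FEx k (fun G => S ⊆ G ∧ Disjoint G (F \ S) ∧ Δ (G ∪ F)) (m + S.card) := by
    intro S
    induction S using Finset.induction_on with
    | empty => simpa using h
    | insert a S ha ih =>
      intro hS
      have h1 := hS (Finset.mem_insert_self a S)
      rw [Finset.card_insert_of_notMem ha]
      push_cast
      rw [← add_assoc]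
      refine fex_congr (fun G => ?_) (fex_star (fun A B C e1 e2 a c => ⟨a.1.trans e1,
        c.2.1.mono_left e2, hΔ _ _ (Finset.union_subset_union_left e2) c.2.2⟩) a
        (fun G b e => Finset.disjoint_left.1 b.2.1 e (by simp [h1, ha]))
        (ih ((Finset.subset_insert _ _).trans hS)))
      have e : G.erase a ∪ F = G ∪ F := by
        ext x
        by_cases e : x = a <;> simp [e, h1]
      simp only [e, Finset.subset_erase, Finset.insert_subset_iff, Finset.disjoint_left,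
        Finset.mem_erase, Finset.mem_sdiff, Finset.mem_insert]
      grind
  refine fex_congr (fun G => ⟨fun a => ⟨hΔ _ _ Finset.subset_union_left a.2.2, a.1⟩,
    fun a => ⟨a.2, by simp, ?_⟩⟩) (key F le_rfl)
  rw [Finset.union_eq_left.2 a.2]
  exact a.1

theorem core {Δ : Finset V → Prop} {Γ : Finset U → Prop} {σ : Finset U → Finset V} (d : ℕ)
    (hΔ : ∀ G H, G ⊆ H → Δ H → Δ G) (hΓ : ∀ G H, G ⊆ H → Γ H → Γ G)
    (hσ : ∀ G H, G ⊆ H → Γ H → σ G ⊆ σ H) (mem : ∀ G, Γ G → Δ (σ G)) (h0 : Γ ∅)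
    (h1 : ∀ G, Γ G → (σ G = ∅ ↔ G = ∅)) (hd : ∀ G, Δ G → G.card ≤ d) (hd2 : ∃ G, Δ G ∧ G.card = d)
    (hl : ∀ F : Finset V, F.Nonempty → ∀ m : ℤ, m < d → FEx k (St Δ F) m)
    (hb : ∀ F, Δ F → F.Nonempty → ∃ φ : Rl (Ph Γ σ F) ≃ₜ
      closedBall (0 : EuclideanSpace ℝ (Fin (F.card - 1))) 1, ∀ G, Γ G → σ G ⊆ F →
        ∀ y : Rl (Ph Γ σ F), (∀ j, y.1 j ≠ 0 ↔ j ∈ G) →
          (‖(φ y : EuclideanSpace ℝ (Fin (F.card - 1)))‖ < 1 ↔ σ G = F)) :
    (∀ G, Γ G → G.card ≤ d) ∧ (∃ G, Γ G ∧ G.card = d) ∧ ∀ i ≤ d, hn Δ d i ≤ hn Γ d i := by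
  have s0 : σ ∅ = ∅ := (h1 ∅ h0).2 rfl
  have ne : ∀ G, Γ G → G.Nonempty → (σ G).Nonempty := fun G a b =>
    Finset.nonempty_iff_ne_empty.2 fun e => b.ne_empty ((h1 G a).1 e)
  rcases Nat.eq_zero_or_pos d with rfl | hd0
  · refine ⟨fun G hG => ?_, ⟨∅, h0, rfl⟩, fun i hi => ?_⟩
    · have := hd _ (mem G hG)
      rw [(h1 G hG).1 (Finset.card_eq_zero.1 (by omega))]
      simp
    · obtain rfl : i = 0 := by omega
      simp only [hn, zero_add, Finset.range_one, Finset.sum_singleton, Finset.card_eq_zero]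
      gcongr
      calc _ ≤ ({∅} : Finset (Finset V)).card := Finset.card_le_card fun G => by
            simp only [Finset.mem_filter, Finset.mem_singleton]
            tauto
        _ ≤ _ := Finset.card_pos.2 ⟨∅, by simpa⟩
  obtain ⟨E, hE, hE2⟩ := hd2
  haveI : Nonempty V := ⟨(Finset.card_pos.1 (hE2 ▸ hd0)).choose⟩
  choose! f hf using fun v (h : Γ {v}) => ne _ h (by simp)
  have hΦ : ∀ F A B, A ⊆ B → Ph Γ σ F B → Ph Γ σ F A :=
    fun F A B h ⟨G, a, b, c⟩ => ⟨G, a, b, h.trans c⟩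
  have eΦ : ∀ F (H : Finset U), Ph Γ σ F H ↔ Γ H ∧ σ H ⊆ F := fun F H =>
    ⟨fun ⟨G, a, b, c⟩ => ⟨hΓ _ _ (by exact_mod_cast c) a, (hσ _ _ (by exact_mod_cast c) a).trans b⟩,
      fun h => ⟨H, h.1, h.2, subset_rfl⟩⟩
  have B1 : ∀ E, Δ E → E.Nonempty → ∀ m, FEx k (fun H => Γ H ∧ σ H ⊆ E) m := by
    intro F a hF m
    obtain ⟨φ, -⟩ := hb F a hF
    haveI : Nonempty U := by
      obtain ⟨x, -, h2, -⟩ := φ.symm ⟨0, by simp⟩
      exact ⟨(Finset.exists_ne_zero_of_sum_ne_zero (h2.trans_ne one_ne_zero)).choose⟩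
    exact fex_congr (eΦ F) (fex_ie (hΦ F) (ball_ie (hΦ F) ⟨∅, h0, by simp [s0], by simp⟩ φ) m)
  have sb : ∀ G : Finset U, G.Nonempty → ∀ j, bary G j ≠ 0 ↔ j ∈ G := fun G hG j => by
    simp [bary, hG.ne_empty]
  have B2 : ∀ E, Δ E → ∀ G, G.Nonempty → Γ G → σ G ⊆ E → σ G ≠ E →
      ∀ m, FEx k (fun H => (Γ H ∧ σ H ⊆ E) ∧ ¬ G ⊆ H) m := by
    intro F a G hG b c e m
    obtain ⟨φ, hφ⟩ := hb F a ((ne G b hG).mono c)
    refine fex_congr (fun H => ?_) (fex_ie (cost_mono (hΦ F) G) (cost_bd (hΦ F) hG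
      ((eΦ F G).2 ⟨b, c⟩) φ fun e2 => e ((hφ G b c _ (sb G hG)).1 e2)) m)
    simp only [Cost, eΦ, Finset.coe_subset]
  have B3 : ∀ G, G.Nonempty → Γ G → ∀ m, FEx k (fun H => Γ H ∧ σ H = σ G ∧ ¬ G ⊆ H) m := by
    intro G hG b m
    obtain ⟨φ, hφ⟩ := hb _ (mem G b) (ne G b hG)
    let Ψ : Set U → Prop := fun A => ∃ H, Γ H ∧ σ H ⊂ σ G ∧ A ⊆ H
    have eΨ : ∀ H : Finset U, Ψ H ↔ Γ H ∧ σ H ⊂ σ G := fun H =>
      ⟨fun ⟨J, a, b, c⟩ => ⟨hΓ _ _ (by exact_mod_cast c) a,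
        (hσ _ _ (by exact_mod_cast c) a).trans_ssubset b⟩, fun h => ⟨H, h.1, h.2, subset_rfl⟩⟩
    have hΨ : ∀ A B, A ⊆ B → Ψ B → Ψ A := fun A B h ⟨G, a, b, c⟩ => ⟨G, a, b, h.trans c⟩
    have := cost_rie (hΦ _) hΨ ⟨∅, h0, s0 ▸ (ne G b hG).empty_ssubset, by simp⟩
      (fun A ⟨H, a, b, c⟩ => ⟨H, a, b.subset, c⟩) hG ((eΦ _ G).2 ⟨b, le_rfl⟩)
      (fun e => ((eΨ G).1 e).2.ne rfl) φ fun y => by
        have e : {v | y.1 v ≠ 0} = (Finset.univ.filter fun v => y.1 v ≠ 0 : Finset U) := by simp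
        have h2 := (eΦ _ _).1 (e ▸ y.2.2.2)
        rw [hφ _ h2.1 h2.2 y (by simp), e, eΨ, Finset.ssubset_iff_subset_ne]
        tauto
    refine fex_congr (fun H => ?_) (fex_rel (cost_mono (hΦ _) G) hΨ (fun q z a _ c => this z a c) m)
    simp only [Cost, eΦ, eΨ, Finset.coe_subset, Finset.ssubset_iff_subset_ne]
    constructor
    · tauto
    · rintro ⟨a, b, c⟩
      simp [a, b, c]
  obtain ⟨L, Ψ, s, h⟩ := exists_sd (k := k) hΔ hΓ hσ mem h0 s0 hf B1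
  have dim : ∀ G, Γ G → G.card ≤ d := fun G a => (h.dim B3 a).trans (hd _ (mem G a))
  refine ⟨dim, ?_, alg1 (AlgebraicClosure k) h d hd dim hl fun G hG m hm => ?_⟩
  · have : L (Ψ (Pi.single E 1)) E ≠ 0 := by simp [h.p3 E hE]
    obtain ⟨G, a, -⟩ := lin_ne this
    have := h.p2 E G hE a
    exact ⟨G, this.1, this.2.2.trans hE2⟩
  · by_cases a : Γ G
    · exact h.loc B1 B2 B3 hG a (hl _ (ne G a hG) m hm)
    · exact fex_empty (fun H b => a (hΓ _ _ b.2 b.1)) m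

open Polynomial in
lemma coeff_h (c : ℕ → ℤ) (d i : ℕ) :
    (∑ j ∈ Finset.range (d + 1), C (c j) * X ^ j * (1 - X) ^ (d - j) : ℤ[X]).coeff i =
      if i ≤ d then ∑ m ∈ Finset.range (i + 1), (-1 : ℤ) ^ (i - m) * ((d - m).choose (i - m) : ℕ) * c m
      else 0 := by
  have key : ∀ n j : ℕ, ((1 - X) ^ n : ℤ[X]).coeff j = (-1) ^ j * (n.choose j : ℕ) := by
    intro n
    induction n with
    | zero =>
      intro j
      rcases j with _ | j <;> simp [coeff_one]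
    | succ n ih =>
      intro j
      rw [pow_succ, mul_sub, mul_one, coeff_sub]
      rcases j with _ | j
      · simp [ih]
      · rw [coeff_mul_X, ih, ih, Nat.choose_succ_succ']
        push_cast
        ring
  simp only [finsetSum_coeff, mul_assoc, coeff_C_mul, coeff_X_pow_mul', key]
  split_ifs with h
  · rw [← Finset.sum_subset (Finset.range_subset_range.2 (Nat.succ_le_succ h)) fun j _ hj => by
      rw [if_neg (by simpa [Nat.lt_succ_iff] using hj), mul_zero]]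
    refine Finset.sum_congr rfl fun j hj => ?_
    rw [if_pos (by simpa [Nat.lt_succ_iff] using hj)]
    ring
  · refine Finset.sum_eq_zero fun j hj => ?_
    have := Finset.mem_range.1 hj
    rw [Nat.choose_eq_zero_of_lt (by omega)]
    simp

end Pool.Agent.H28.Mon
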