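import Pool.Agent.H28.Mon10

namespace Pool.Agent.H28.Mon

open Pool.Agent.H43.Orb Set Metric
open Pool.Agent.H28.Sub (Len IE Cost cost_mono ie_true ie_retract al al_cont al_pos al_mem be be_ne
  dl_len)

lemma not_ie (m : ℕ) : ¬ IE (fun A : Set (Fin (m + 1)) => A ≠ univ) m := by
  intro h
  have hl := srt_length (Finset.univ : Finset (Fin (m + 1)))
  rw [Finset.card_univ, Fintype.card_fin] at hl
  obtain ⟨w, hw, e⟩ := h (dl (srt Finset.univ)) (dl_on fun i hi e => by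
    have h1 : ((srt Finset.univ).eraseIdx i).toFinset = (Finset.univ : Finset (Fin (m + 1))) := by
      ext v
      simpa using (e ▸ mem_univ v : v ∈ {v | v ∈ (srt Finset.univ).eraseIdx i})
    have h2 := List.toFinset_card_le ((srt (Finset.univ : Finset (Fin (m + 1)))).eraseIdx i)
    rw [h1, List.length_eraseIdx, if_pos hi, hl, Finset.card_univ, Fintype.card_fin] at h2
    omega) (by simpa [hl] using dl_len (srt (Finset.univ : Finset (Fin (m + 1))))) (d_dl _)
  have h1 := congrArg (NN ℚ) e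
  rw [nn_d, nn_dl, ← sub_eq_zero, ← map_sub] at h1
  have h2 := congrFun h1 (Finset.univ.erase 0)
  have h3 : NN ℚ w Finset.univ = 0 := by
    by_contra e
    exact nn_mem (S := Tup fun A => A ≠ univ) (P := fun T => T ≠ Finset.univ) (fun l hl _ e => hl (by
      rw [← List.coe_toFinset, e, Finset.coe_univ])) hw _ e rfl
  rw [del_apply, Finset.sum_eq_single 0 (fun j _ hj => by simp [hj]) (by simp), if_neg (by simp),
    Finset.insert_erase (by simp), Pi.sub_apply, h3] at h2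
  have h4 := congrArg (eps (0 : Fin (m + 1)) (Finset.univ.erase 0) • ·) h2
  simp only [smul_smul, eps_sq, one_smul, Pi.zero_apply, smul_zero] at h4
  simp [NN, nl_sorted (srt_sorted _), srt_toFinset] at h4

variable {V : Type} [Fintype V] [DecidableEq V]

noncomputable def lam (G : Finset V) (hG : G.Nonempty) (y x : V → ℝ) : ℝ :=
  G.inf' hG fun v => x v / y v

noncomputable def rq (G : Finset V) (hG : G.Nonempty) (y x : V → ℝ) (v : V) : ℝ :=
  (x v - lam G hG y x * y v) / (1 - lam G hG y x)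

variable {Φ : Set V → Prop} {G : Finset V} (hG : G.Nonempty) {y : V → ℝ} (hy : y ∈ Rl Φ)
  (hs : ∀ j, y j ≠ 0 ↔ j ∈ G)

include hy hs

omit [DecidableEq V] in
lemma rq_aux {x : V → ℝ} (hx : x ∈ Rl Φ) : 0 ≤ lam G hG y x ∧ (∀ v, 0 ≤ x v - lam G hG y x * y v) ∧
    ∑ v, (x v - lam G hG y x * y v) = 1 - lam G hG y x ∧ (x ≠ y → 0 < 1 - lam G hG y x) := by
  have h1 : ∀ v, 0 ≤ x v - lam G hG y x * y v := by
    intro v
    by_cases h : v ∈ G
    · have h2 : lam G hG y x ≤ x v / y v := Finset.inf'_le _ h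
      rwa [le_div_iff₀ ((hy.1 v).lt_of_ne' ((hs v).2 h)), ← sub_nonneg] at h2
    · rw [not_not.1 (mt (hs v).1 h)]
      simpa using hx.1 v
  have h2 : ∑ v, (x v - lam G hG y x * y v) = 1 - lam G hG y x := by
    rw [Finset.sum_sub_distrib, ← Finset.mul_sum, hx.2.1, hy.2.1, mul_one]
  refine ⟨Finset.le_inf' _ _ fun v _ => div_nonneg (hx.1 v) (hy.1 v), h1, h2, fun hne => ?_⟩
  refine lt_of_le_of_ne (h2 ▸ Finset.sum_nonneg fun v _ => h1 v) fun e => hne (funext fun v => ?_)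
  have := (Finset.sum_eq_zero_iff_of_nonneg fun v _ => h1 v).1 (h2.trans e.symm) v (Finset.mem_univ v)
  rw [show lam G hG y x = 1 by linarith] at this
  linarith

omit [DecidableEq V] in
lemma rq_zero {x : V → ℝ} (hx : x ∈ Rl Φ) {v : V} (h0 : x v = 0) : rq G hG y x v = 0 := by
  obtain ⟨h1, h2, -⟩ := rq_aux hG hy hs hx
  have := h2 v
  have := mul_nonneg h1 (hy.1 v)
  rw [rq, show x v - lam G hG y x * y v = 0 by linarith, zero_div]

omit [DecidableEq V] in
lemma rq_mem (hΦ : ∀ A B, A ⊆ B → Φ B → Φ A) {x : V → ℝ} (hx : x ∈ Rl Φ) (hne : x ≠ y) :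
    rq G hG y x ∈ Rl (Cost Φ G) := by
  obtain ⟨-, h2, h3, h4⟩ := rq_aux hG hy hs hx
  refine ⟨fun v => div_nonneg (h2 v) (h4 hne).le, ?_,
    hΦ _ {v | x v ≠ 0} (fun v hv h0 => hv (rq_zero hG hy hs hx h0)) hx.2.2, fun h => ?_⟩
  · simp only [rq]
    rw [← Finset.sum_div, h3, div_self (h4 hne).ne']
  · obtain ⟨u, hu, e⟩ := Finset.exists_mem_eq_inf' hG fun v => x v / y v
    apply h hu
    rw [rq, lam, e, div_mul_cancel₀ _ ((hs u).2 hu), sub_self, zero_div]

omit [DecidableEq V] in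
lemma rq_id {x : V → ℝ} (hx : x ∈ Rl (Cost Φ G)) : rq G hG y x = x ∧ x ≠ y := by
  obtain ⟨u, hu, h0⟩ := not_subset.1 hx.2.2.2
  have h1 : x u = 0 := by simpa using h0
  have h2 : lam G hG y x = 0 := le_antisymm ((Finset.inf'_le _ hu).trans (by simp [h1]))
    (rq_aux hG hy hs (rl_mono (fun _ _ h => h.1) hx)).1
  exact ⟨funext fun v => by simp [rq, h2], fun e => (hs u).2 hu (e ▸ h1)⟩

omit [DecidableEq V] in
lemma rq_cont {X : Type} [TopologicalSpace X] (f : X → Rl Φ) (fc : Continuous f)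
    (f1 : ∀ x, (f x).1 ≠ y) : Continuous fun x => rq G hG y (f x).1 := by
  have c1 : Continuous fun x => (f x).1 := continuous_subtype_val.comp fc
  have c2 : Continuous fun x => lam G hG y (f x).1 :=
    Continuous.finset_inf'_apply hG fun v _ => ((continuous_apply v).comp c1).div_const _
  exact continuous_pi fun v => Continuous.div (((continuous_apply v).comp c1).sub
    (c2.mul continuous_const)) (continuous_const.sub c2)
    fun x => ((rq_aux hG hy hs (f x).2).2.2.2 (f1 x)).ne'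

include hG in
lemma cost_bd' {E : Type} [NormedAddCommGroup E] [NormedSpace ℝ E] (hΦ : ∀ A B, A ⊆ B → Φ B → Φ A)
    (φ : Rl Φ ≃ₜ closedBall (0 : E) 1) (p1 : ¬ ‖(φ ⟨y, hy⟩ : E)‖ < 1) (q : ℕ) :
    IE (Cost Φ G) q := by
  haveI : Nonempty V := ⟨hG.choose⟩
  have hm : ∀ (t : unitInterval) (e : closedBall (0 : E) 1),
      (t : ℝ) • (e : E) ∈ closedBall (0 : E) 1 := by
    intro t e
    have := mem_closedBall_zero_iff.1 e.2
    rw [mem_closedBall_zero_iff, norm_smul, Real.norm_eq_abs, abs_of_nonneg t.2.1]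
    exact mul_le_one₀ t.2.2 (norm_nonneg _) this
  let inc : Rl (Cost Φ G) → Rl Φ := fun x => ⟨x.1, rl_mono (fun _ _ h => h.1) x.2⟩
  let f : unitInterval × Rl (Cost Φ G) → Rl Φ := fun x => φ.symm ⟨_, hm x.1 (φ (inc x.2))⟩
  have fc : Continuous f := φ.symm.continuous.comp (Continuous.subtype_mk (by fun_prop) _)
  have f1 : ∀ x, (f x).1 ≠ y := by
    intro x e
    have e2 := congrArg Subtype.val (φ.symm_apply_eq.1 (Subtype.ext e : f x = ⟨y, hy⟩))
    have h1 := congrArg norm e2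
    have h2 := mem_closedBall_zero_iff.1 (φ (inc x.2)).2
    simp only [norm_smul, Real.norm_eq_abs, abs_of_nonneg x.1.2.1] at h1
    have h3 : (x.1 : ℝ) = 1 := by
      have := x.1.2.1
      have := x.1.2.2
      nlinarith
    simp only [h3, one_smul] at e2
    exact (rq_id hG hy hs x.2.2).2 (congrArg Subtype.val (φ.injective (Subtype.ext e2)))
  have z1 : (φ.symm ⟨0, by simp⟩).1 ≠ y := fun e => p1 (by
    rw [← φ.symm_apply_eq.1 (Subtype.ext e : _ = (⟨y, hy⟩ : Rl Φ))]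
    simp)
  have m0 : (fun _ => 1 : Unit → ℝ) ∈ Rl fun _ : Set Unit => True := ⟨by simp, by simp, trivial⟩
  refine ie_retract (cost_mono hΦ G) ⟨hΦ _ _ (empty_subset _) hy.2.2, fun h => ?_⟩
    (fun _ _ _ _ => trivial) trivial (ContinuousMap.const _ ⟨_, m0⟩)
    (ContinuousMap.const _ ⟨_, rq_mem hG hy hs hΦ (φ.symm ⟨0, by simp⟩).2 z1⟩)
    ⟨⟨⟨fun x => ⟨_, rq_mem hG hy hs hΦ (f x).2 (f1 x)⟩, (rq_cont hG hy hs f fc f1).subtype_mk _⟩,
      fun x => Subtype.ext ?_, fun x => Subtype.ext ?_⟩⟩ (ie_true () q)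
  · exact h (show hG.choose ∈ (G : Set V) from hG.choose_spec)
  · simp [f]
  · refine Eq.trans ?_ (rq_id hG hy hs x.2).1
    simp [f, inc]

include hG in
lemma cost_int {m : ℕ} (hΦ : ∀ A B, A ⊆ B → Φ B → Φ A)
    (φ : Rl Φ ≃ₜ closedBall (0 : EuclideanSpace ℝ (Fin m)) 1)
    (p1 : ‖(φ ⟨y, hy⟩ : EuclideanSpace ℝ (Fin m))‖ < 1) : ¬ IE (Cost Φ G) m := by
  intro h
  haveI : Nonempty V := ⟨hG.choose⟩
  set p : EuclideanSpace ℝ (Fin m) := (φ ⟨y, hy⟩).1 with hp
  let B := Rl fun A : Set (Fin (m + 1)) => A ≠ univ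
  have R : ∀ {X : Type} [TopologicalSpace X] (g : X → Rl Φ) (_ : Continuous g)
      (g1 : ∀ x, (g x).1 ≠ y), ∃ F : C(X, B), ∀ x, (F x).1 =
        fun j => al ((φ (g x)).1 - p) j / ∑ j, al ((φ (g x)).1 - p) j := by
    intro X _ g gc g1
    have f2 : ∀ x, (φ (g x) : EuclideanSpace ℝ (Fin m)) - p ≠ 0 := fun x e =>
      g1 x (congrArg Subtype.val (φ.injective (Subtype.ext (sub_eq_zero.1 e))))
    have fc : Continuous fun x => (φ (g x) : EuclideanSpace ℝ (Fin m)) - p := by fun_prop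
    exact ⟨⟨fun x => ⟨_, al_mem (f2 x)⟩, Continuous.subtype_mk (continuous_pi fun j =>
      ((al_cont j).comp fc).div (continuous_finsetSum _ fun j _ => (al_cont j).comp fc)
        fun x => (al_pos (f2 x)).ne') _⟩, fun _ => rfl⟩
  have bc : Continuous fun x : B => be x.1 :=
    (PiLp.continuous_toLp 2 _).comp (continuous_pi fun i =>
      ((continuous_apply _).comp continuous_subtype_val).sub
        ((continuous_apply _).comp continuous_subtype_val))
  have ps : ∀ x : B, 0 < (1 - ‖p‖) / ‖be x.1‖ := fun x =>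
    div_pos (sub_pos.2 p1) (norm_pos_iff.2 (be_ne x.2))
  have nb : ∀ x : B, p + ((1 - ‖p‖) / ‖be x.1‖) • be x.1 ∈
      closedBall (0 : EuclideanSpace ℝ (Fin m)) 1 := by
    intro x
    refine mem_closedBall_zero_iff.2 ((norm_add_le _ _).trans ?_)
    rw [norm_smul, Real.norm_eq_abs, abs_of_pos (ps x),
      div_mul_cancel₀ _ (norm_pos_iff.2 (be_ne x.2)).ne']
    linarith
  let z : B → Rl Φ := fun x => φ.symm ⟨_, nb x⟩
  have zc : Continuous z := φ.symm.continuous.comp (Continuous.subtype_mk (continuous_const.add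
    ((continuous_const.div bc.norm fun x => norm_ne_zero_iff.2 (be_ne x.2)).smul bc)) _)
  have z1 : ∀ x, (z x).1 ≠ y := by
    intro x e
    have e2 := congrArg Subtype.val (φ.symm_apply_eq.1 (Subtype.ext e : z x = ⟨y, hy⟩))
    simp only [← hp, add_eq_left, smul_eq_zero] at e2
    exact e2.elim (ps x).ne' (be_ne x.2)
  have rm := fun x => rq_mem hG hy hs hΦ (z x).2 (z1 x)
  obtain ⟨b, hb⟩ := R (fun x : Rl (Cost Φ G) => ⟨x.1, rl_mono (fun _ _ h => h.1) x.2⟩)
    (continuous_subtype_val.subtype_mk _) fun x => (rq_id hG hy hs x.2).2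
  have sm : ∀ x : unitInterval × B,
      (1 - (x.1 : ℝ)) • rq G hG y (z x.2).1 + (x.1 : ℝ) • (z x.2).1 ∈ Rl Φ := by
    intro x
    refine ⟨fun v => add_nonneg (mul_nonneg (sub_nonneg.2 x.1.2.2) ((rm x.2).1 v))
      (mul_nonneg x.1.2.1 ((z x.2).2.1 v)), ?_,
      hΦ _ {v | (z x.2).1 v ≠ 0} (fun v hv h0 => hv ?_) (z x.2).2.2.2⟩
    · simp [Finset.sum_add_distrib, ← Finset.mul_sum, (rm x.2).2.1, (z x.2).2.2.1]
    · simp [h0, rq_zero hG hy hs (z x.2).2 h0]
  have c0 : Continuous fun x : unitInterval × B => (x.1 : ℝ) := by fun_prop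
  obtain ⟨H, hH⟩ := R (fun x => ⟨_, sm x⟩) (Continuous.subtype_mk (Continuous.add
    ((continuous_const.sub c0).smul ((rq_cont hG hy hs z zc z1).comp continuous_snd))
    (c0.smul (continuous_subtype_val.comp (zc.comp continuous_snd)))) _) fun x e => by
      obtain ⟨u, hu, h0⟩ := not_subset.1 (rm x.2).2.2.2
      have h1 : rq G hG y (z x.2).1 u = 0 := by simpa using h0
      have h2 := (rq_aux hG hy hs (z x.2).2).2.2.2 (z1 x.2)
      have h3 := congrFun e u
      simp only [Pi.add_apply, Pi.smul_apply, h1, smul_eq_mul, mul_zero, zero_add] at h3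
      rw [rq, div_eq_zero_iff, or_iff_left h2.ne', sub_eq_zero] at h1
      have h4 : 0 < y u := (hy.1 u).lt_of_ne' ((hs u).2 hu)
      have h5 := x.1.2.2
      have h6 := mul_nonneg (sub_nonneg.2 h5) ((z x.2).2.1 u)
      nlinarith
  refine not_ie m (ie_retract (F := fun A : Set (Fin (m + 1)) => A ≠ univ) (fun A B hAB hB e => hB (univ_subset_iff.1 (e ▸ hAB))) empty_ne_univ
    (cost_mono hΦ G) ⟨hΦ _ _ (empty_subset _) hy.2.2, fun h => ?_⟩
    ⟨fun x => ⟨_, rm x⟩, (rq_cont hG hy hs z zc z1).subtype_mk _⟩ b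
    ⟨⟨H, fun x => Subtype.ext ?_, fun x => Subtype.ext ?_⟩⟩ h)
  · exact h (show hG.choose ∈ (G : Set V) from hG.choose_spec)
  · refine (hH (0, x)).trans (Eq.trans ?_ (hb _).symm)
    simp
  · refine (hH (1, x)).trans ?_
    have e : ∀ j, al (((1 - ‖p‖) / ‖be x.1‖) • be x.1) j = (1 - ‖p‖) / ‖be x.1‖ * x.1 j := by
      have e1 : ∀ j, (Fin.cons 0 (((1 - ‖p‖) / ‖be x.1‖) • be x.1).1 : Fin (m + 1) → ℝ) j =
          (1 - ‖p‖) / ‖be x.1‖ * (x.1 j - x.1 0) := by
        intro j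
        refine Fin.cases (by simp) (fun i => ?_) j
        simp [be]
      obtain ⟨u, hu⟩ := (ne_univ_iff_exists_notMem _).1 x.2.2.2
      have hu : x.1 u = 0 := by simpa using hu
      intro j
      rw [al, le_antisymm (Finset.inf'_le _ (Finset.mem_univ u)) (Finset.le_inf' _ _ fun v _ => by
        rw [e1, e1, hu]
        have := mul_nonneg (ps x).le (x.2.1 v)
        linarith), e1, e1, hu]
      ring
    funext j
    simp only [Set.Icc.coe_one, sub_self, zero_smul, one_smul, zero_add, Subtype.coe_eta, z,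
      Homeomorph.apply_symm_apply, add_sub_cancel_left, e, ← Finset.mul_sum, x.2.2.1, mul_one]
    exact mul_div_cancel_left₀ _ (ps x).ne'

include hG in
theorem strong {m : ℕ} (hΦ : ∀ A B, A ⊆ B → Φ B → Φ A)
    (φ : Rl Φ ≃ₜ closedBall (0 : EuclideanSpace ℝ (Fin m)) 1)
    (p1 : ‖(φ ⟨y, hy⟩ : EuclideanSpace ℝ (Fin m))‖ < 1) (x : Rl Φ) (hx : ∀ j, x.1 j ≠ 0 ↔ j ∈ G) :
    ‖(φ x : EuclideanSpace ℝ (Fin m))‖ < 1 :=
  by_contra fun e => cost_int hG hy hs hΦ φ p1 (cost_bd' hG x.2 hx hΦ φ e m)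

end Pool.Agent.H28.Mon
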