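import Pool.Agent.H28.Mon11

namespace Pool.Agent.H28.Mon

open Module Classical ExteriorAlgebra
open Pool.Agent.H28.Sub (Ex SES)

variable {K : Type} [Field K] {V : Type} [LinearOrder V] [Fintype V] {E : Type} [AddCommGroup E]
  [Module K E]

noncomputable def ct (φ : Dual K E) : End K (ExteriorAlgebra K E) :=
  (CliffordAlgebra.contractRight (Q := (0 : QuadraticForm K E))).flip φ

lemma ct_mul (φ : Dual K E) (a : E) (b : ExteriorAlgebra K E) :
    ct φ (b * ι K a) = φ a • b - ct φ b * ι K a := CliffordAlgebra.contractRight_mul_ι φ a b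

lemma mul_deg' {e : ℕ} {x : ExteriorAlgebra K E} (hx : x ∈ ⋀[K]^e E) (a : E) :
    x * ι K a ∈ ⋀[K]^(e + 1) E := by
  rw [exteriorPower, pow_succ]
  exact Submodule.mul_mem_mul hx (LinearMap.mem_range_self _ a)

lemma ct_deg (φ : Dual K E) {e : ℕ} {x : ExteriorAlgebra K E} (hx : x ∈ ⋀[K]^e E) :
    ct φ x ∈ ⋀[K]^(e - 1) E ∧ (e = 0 → ct φ x = 0) := by
  induction hx using Submodule.pow_induction_on_right' with
  | algebraMap r =>
    have : ct φ (algebraMap K (ExteriorAlgebra K E) r) = 0 :=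
      CliffordAlgebra.contractRight_algebraMap _ φ r
    simp [this]
  | add x y i hx hy a b => exact ⟨map_add (ct φ) x y ▸ add_mem a.1 b.1, fun e => by simp [a.2 e, b.2 e]⟩
  | mul_mem i x hx a m hm =>
    obtain ⟨m, rfl⟩ := hm
    refine ⟨?_, by simp⟩
    rw [ct_mul]
    refine sub_mem (Submodule.smul_mem _ _ hx) ?_
    rcases i with _ | i
    · simp [a.2 rfl]
    · exact mul_deg' a.1 m

def GJ (q : V → E) (e : ℕ) (J : Finset V) : Submodule K (ExteriorAlgebra K E) :=
  ⋀[K]^e E ⊓ ⨅ a ∈ J, LinearMap.ker (LinearMap.mulRight K (ι K (q a)))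

omit [LinearOrder V] [Fintype V] in
lemma mem_gj {q : V → E} {e : ℕ} {J : Finset V} {x : ExteriorAlgebra K E} :
    x ∈ GJ (K := K) q e J ↔ x ∈ ⋀[K]^e E ∧ ∀ a ∈ J, x * ι K (q a) = 0 := by
  simp only [GJ, Submodule.mem_inf, Submodule.mem_iInf, LinearMap.mem_ker, LinearMap.mulRight_apply]

omit [LinearOrder V] [Fintype V] in
lemma gj_mono (q : V → E) (e : ℕ) {J J' : Finset V} (h : J ⊆ J') :
    GJ (K := K) q e J' ≤ GJ q e J :=
  fun _ hx => mem_gj.2 ⟨(mem_gj.1 hx).1, fun a ha => (mem_gj.1 hx).2 a (h ha)⟩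

variable (K) in
def IndE (q : V → E) (G : Finset V) : Prop :=
  ∀ v ∈ G, ∃ φ : Dual K E, ∀ w ∈ G, φ (q w) = if w = v then 1 else 0

lemma ι_swap (a b : E) : ι K a * ι K b = - (ι K b * ι K a) :=
  eq_neg_of_add_eq_zero_left (ι_add_mul_swap a b)

variable {Δ : Finset V → Prop} {q : V → E}

lemma ses2 (hΔ : ∀ G H, G ⊆ H → Δ H → Δ G) (hp : ∀ G, Δ G → IndE K q G) (F W : Finset V) {v : V}
    (hv : v ∉ W) (e : ℕ) :
    SES (bd K (St Δ F)) (bd K (St Δ (insert v F)))
      (prj K (v ∈ ·) ∘ₗ LinearMap.compLeft (LinearMap.mulRight K (ι K (q v))) _)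
      (CS (St Δ F) fun G => GJ q e (G ∩ W)) (CS (St Δ F) fun G => GJ q e (G ∩ insert v W))
      (CS (St Δ (insert v F)) fun G => GJ q (e + 1) (G ∩ insert v W)) := by
  have pa : ∀ (x : Finset V → ExteriorAlgebra K E) (G : Finset V),
      (prj K (v ∈ ·) ∘ₗ LinearMap.compLeft (LinearMap.mulRight K (ι K (q v))) _) x G =
        if v ∈ G then x G * ι K (q v) else 0 := by
    intro x G
    rw [LinearMap.comp_apply, prj_apply]
    split_ifs <;> rfl
  refine ⟨bd_mem fun _ _ h => gj_mono _ _ (Finset.inter_subset_inter_right h),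
    bd_bd (st_cvx hΔ F), fun k x => ⟨fun hx => ?_, fun ⟨hx, e⟩ G => ?_⟩, fun k x hx G => ?_,
    fun k y hy => ?_, fun k x _ => ?_⟩
  · refine ⟨cs_mono hx (fun _ h => h) fun G => gj_mono _ _
      (Finset.inter_subset_inter_left (Finset.subset_insert _ _)), funext fun G => ?_⟩
    rw [pa]
    split_ifs with h
    · exact (mem_gj.1 (hx G).1).2 v (by simp [h])
    · rfl
  · refine ⟨mem_gj.2 ⟨(mem_gj.1 (hx G).1).1, fun a ha => ?_⟩, (hx G).2⟩
    obtain ⟨h1, h2⟩ := Finset.mem_inter.1 ha
    rcases Finset.mem_insert.1 h2 with rfl | h2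
    · have := congrFun e G
      rwa [pa, if_pos h1] at this
    · exact (mem_gj.1 (hx G).1).2 a (Finset.mem_inter.2 ⟨h1, h2⟩)
  · rw [pa]
    split_ifs with h
    · have h0 := mem_gj.1 (hx G).1
      refine ⟨mem_gj.2 ⟨mul_deg' h0.1 _, fun a ha => ?_⟩, fun e => ?_⟩
      · obtain ⟨h1, h2⟩ := Finset.mem_inter.1 ha
        rcases Finset.mem_insert.1 h2 with rfl | h2
        · rw [mul_assoc, ι_sq_zero, mul_zero]
        · rw [mul_assoc, ι_swap, mul_neg, ← mul_assoc, h0.2 a (by simp [h1, h2])]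
          simp
      · have := (hx G).2 fun e2 => e (by rw [e2, zero_mul])
        exact ⟨⟨this.1.1, Finset.insert_subset h this.1.2⟩, this.2⟩
    · exact ⟨zero_mem _, fun e => (e rfl).elim⟩
  · choose! a ha using hp
    refine ⟨fun G => ct (a G v) (y G), fun G => ?_, funext fun G => ?_⟩
    · by_cases e : y G = 0
      · simp [e]
      have hG := (hy G).2 e
      have h := mem_gj.1 (hy G).1
      have hv2 : v ∈ G := hG.1.2 (by simp)
      refine ⟨mem_gj.2 ⟨(ct_deg _ h.1).1, fun b hb => ?_⟩,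
        fun _ => ⟨⟨hG.1.1, (Finset.subset_insert _ _).trans hG.1.2⟩, hG.2⟩⟩
      obtain ⟨h1, h2⟩ := Finset.mem_inter.1 hb
      have := ct_mul (a G v) (q b) (y G)
      rw [ha G hG.1.1 v hv2 b h1, h.2 b (by simp [h1, h2]),
        if_neg (by rintro rfl; exact hv h2)] at this
      simpa using this
    · rw [pa]
      by_cases e : y G = 0
      · simp [e]
      have hG := (hy G).2 e
      have hv2 : v ∈ G := hG.1.2 (by simp)
      have := ct_mul (a G v) (q v) (y G)
      rw [ha G hG.1.1 v hv2 v hv2, (mem_gj.1 (hy G).1).2 v (by simp [hv2]), map_zero, if_pos rfl,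
        one_smul, eq_comm, sub_eq_zero] at this
      rw [if_pos hv2, ← this]
  · funext G
    rw [pa, bd_apply, bd_apply]
    by_cases h : v ∈ G
    · rw [if_pos h]
      by_cases h2 : St Δ F G
      · rw [if_pos h2, if_pos ⟨h2.1, Finset.insert_subset h h2.2⟩]
        refine Eq.trans ?_ (map_del (S := K) (LinearMap.mulRight K (ι K (q v))) x G).symm
        exact del_congr fun j _ => by rw [pa, if_pos (Finset.mem_insert_of_mem h)]; rfl
      · rw [if_neg h2, if_neg fun e => h2 ⟨e.1, (Finset.subset_insert _ _).trans e.2⟩, zero_mul]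
    · rw [if_neg h, if_neg fun e => h (e.2 (Finset.mem_insert_self _ _))]

lemma van2 [FiniteDimensional K E] (hΔ : ∀ G H, G ⊆ H → Δ H → Δ G) (hp : ∀ G, Δ G → IndE K q G)
    (hL : ∀ F : Finset V, ∀ k : ℤ, k < finrank K E → FEx K (St Δ F) k) (W : Finset V) :
    ∀ e : ℕ, ∀ F : Finset V, ∀ k : ℤ, k < e →
      Ex (bd K (St Δ F)) (CS (St Δ F) fun G => GJ (K := K) q e (G ∩ W)) k := by
  have neg : ∀ W : Finset V, ∀ e : ℕ, finrank K E < e → ∀ (F : Finset V) (k : ℤ),
      Ex (bd K (St Δ F)) (CS (St Δ F) fun G => GJ (K := K) q e (G ∩ W)) k := fun W e he F k =>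
    ex_bot (by
      have := exteriorPower.finrank_eq (R := K) (M := E) (n := e)
      rw [Nat.choose_eq_zero_of_lt he, Submodule.finrank_eq_zero] at this
      rw [cs_bot _ fun _ => by rw [GJ, this, bot_inf_eq], bot_inf_eq])
  induction W using Finset.induction_on with
  | empty =>
    intro e F k hk
    rcases lt_or_ge (finrank K E) e with he | he
    · exact neg _ e he F k
    · simpa using ex_val (hL F k (by omega)) (GJ (K := K) q e ∅)
  | insert v W hv ih =>
    intro e
    induction h : finrank K E + 1 - e generalizing e with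
    | zero => exact fun F k _ => neg _ e (by omega) F k
    | succ m ih2 =>
      exact fun F k hk => (ses2 hΔ hp F W hv e).sub (ih e F k hk)
        (ih2 (e + 1) (by omega) _ (k + 1) (by push_cast; omega))

noncomputable def pr (q : V → E) (l : List V) : ExteriorAlgebra K E := (l.map fun v => ι K (q v)).prod

omit [Fintype V] in
lemma pr_erase {l : List V} (h : l.Pairwise (· < ·)) {x : V} (hx : x ∈ l) :
    ι K (q x) * pr q (l.erase x) = eps x (l.toFinset.erase x) • pr (K := K) q l := by
  induction l with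
  | nil => simp at hx
  | cons a l ih =>
    rw [List.pairwise_cons] at h
    have ha : a ∉ l.toFinset := fun e => lt_irrefl _ (h.1 a (by simpa using e))
    rcases List.mem_cons.1 hx with rfl | hx
    · rw [List.erase_cons_head, List.toFinset_cons, Finset.erase_insert ha,
        eps_min (by simpa using h.1), one_smul]
      simp [pr]
    · have h1 := h.1 x hx
      have e : ∀ l, pr (K := K) q (a :: l) = ι K (q a) * pr q l := fun l => by simp [pr]
      rw [List.erase_cons_tail (by simpa using h1.ne), List.toFinset_cons,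
        Finset.erase_insert_of_ne h1.ne, eps_insert _ (by simp [ha]), if_pos h1, e, e, ← mul_assoc,
        ι_swap, neg_mul, mul_assoc, ih h.2 hx, mul_smul_comm, neg_one_mul, neg_smul]

omit [LinearOrder V] [Fintype V] in
lemma pr_kill {l : List V} {x : V} (hx : x ∈ l) : pr q l * ι K (q x) = 0 := by
  induction l using List.reverseRecOn with
  | nil => simp at hx
  | append_singleton l a ih =>
    have e : pr (K := K) q (l ++ [a]) = pr q l * ι K (q a) := by simp [pr]
    rw [e, mul_assoc]
    rcases List.mem_append.1 hx with h | h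
    · rw [ι_swap, mul_neg, ← mul_assoc, ih h]
      simp
    · rw [List.mem_singleton.1 h, ι_sq_zero, mul_zero]

omit [LinearOrder V] [Fintype V] in
lemma pr_deg (l : List V) {e : ℕ} {x : ExteriorAlgebra K E} (hx : x ∈ ⋀[K]^e E) :
    x * pr q l ∈ ⋀[K]^(e + l.length) E := by
  induction l using List.reverseRecOn with
  | nil => simpa [pr]
  | append_singleton l a ih =>
    have e : pr (K := K) q (l ++ [a]) = pr q l * ι K (q a) := by simp [pr]
    rw [e, ← mul_assoc, List.length_append, List.length_singleton, ← add_assoc]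
    exact mul_deg' ih _

omit [Fintype V] in
lemma pr_div {G : Finset V} (hp : IndE K q G) {l : List V} (hl : l.Nodup) (hG : ∀ v ∈ l, v ∈ G)
    (e : ℕ) : ∀ x ∈ ⋀[K]^(e + l.length) E, (∀ v ∈ l, x * ι K (q v) = 0) →
      ∃ P ∈ ⋀[K]^e E, P * pr q l = x := by
  induction l using List.reverseRecOn with
  | nil => exact fun x hx _ => ⟨x, hx, by simp [pr]⟩
  | append_singleton l a ih =>
    intro x hx h
    have e1 : pr (K := K) q (l ++ [a]) = pr q l * ι K (q a) := by simp [pr]
    obtain ⟨φ, hφ⟩ := hp a (hG a (by simp))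
    rw [List.nodup_append] at hl
    rw [List.length_append, List.length_singleton, ← add_assoc] at hx
    obtain ⟨P, hP, e2⟩ := ih hl.1 (fun v hv => hG v (by simp [hv])) _ (ct_deg φ hx).1 fun v hv => by
      have := ct_mul φ (q v) x
      rw [hφ v (hG v (by simp [hv])), h v (by simp [hv]), if_neg (hl.2.2 v hv a (by simp))] at this
      simpa using this
    refine ⟨P, hP, ?_⟩
    have := ct_mul φ (q a) x
    rw [hφ a (hG a (by simp)), h a (by simp), map_zero, if_pos rfl, one_smul, eq_comm,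
      sub_eq_zero] at this
    rw [e1, ← mul_assoc, e2, ← this]

lemma pr_insert {T : Finset V} {x : V} (hx : x ∉ T) :
    ι K (q x) * pr q (srt T) = eps x T • pr (K := K) q (srt (insert x T)) := by
  have := pr_erase (K := K) (q := q) (srt_sorted (insert x T)) (x := x) (by simp)
  rwa [srt_erase, srt_toFinset, Finset.erase_insert hx] at this

lemma fex_trunc {A : Finset V → Prop} {k : ℤ} {d : ℕ} (hk : k < d) (e1 : FEx K A k) :
    FEx K (fun G => A G ∧ G.card ≤ d) k := by
  have h := fam_low (K := K) (A := A) (B := fun G => A G ∧ G.card ≤ d) (C := fun G => d < G.card)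
    (fun G => by simp) (fun G H h h2 _ => h2.trans_le (Finset.card_le_card h)) k
  refine h.1 fun x hx e => ?_
  obtain ⟨y, hy, e2⟩ := e1 x (cs_mono hx (fun _ h => h.1) fun _ => le_rfl) e
  refine ⟨y, fun G => ⟨trivial, fun e => ⟨⟨((hy G).2 e).1, ?_⟩, ((hy G).2 e).2⟩⟩, e2⟩
  have := ((hy G).2 e).2
  omega

theorem ample [FiniteDimensional K E] (hΔ : ∀ G H, G ⊆ H → Δ H → Δ G)
    (hp : ∀ G, Δ G → G.card ≤ finrank K E → IndE K q G)
    (hL : ∀ F : Finset V, ∀ k : ℤ, k < finrank K E → FEx K (St Δ F) k) (r j : ℕ) (hj : j < r)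
    (c : Finset V → ExteriorAlgebra K E) (hc : ∀ G, c G ∈ ⋀[K]^(r - j) E)
    (h : ∀ T, Δ T → T.card + 1 = j →
      (∑ x ∈ Tᶜ with Δ (insert x T), c (insert x T) * ι K (q x)) * pr q (srt T) = 0) :
    ∃ b : Finset V → ExteriorAlgebra K E, (∀ G, b G ∈ ⋀[K]^(r - (j + 1)) E) ∧ ∀ T, Δ T → T.card = j →
      (∑ x ∈ Tᶜ with Δ (insert x T), b (insert x T) * ι K (q x) - c T) * pr q (srt T) = 0 := by
  have dg : ∀ T : Finset V, T.card = j → c T * pr q (srt T) ∈ ⋀[K]^r E := fun T hT => by
    have := pr_deg (q := q) (srt T) (hc T)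
    rwa [srt_length, hT, Nat.sub_add_cancel hj.le] at this
  rcases lt_or_ge (finrank K E) r with hr | hr
  · refine ⟨0, fun _ => zero_mem _, fun T _ hT => ?_⟩
    have := exteriorPower.finrank_eq (R := K) (M := E) (n := r)
    rw [Nat.choose_eq_zero_of_lt hr, Submodule.finrank_eq_zero] at this
    simpa [this] using dg T hT
  let Γ : Finset V → Prop := fun G => Δ G ∧ G.card ≤ finrank K E
  have key : ∀ (b X : Finset V → ExteriorAlgebra K E) (T : Finset V),
      (∀ x ∉ T, X (insert x T) =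
        if Δ (insert x T) then b (insert x T) * pr q (srt (insert x T)) else 0) →
      (∑ x ∈ Tᶜ with Δ (insert x T), b (insert x T) * ι K (q x)) * pr q (srt T) = del K X T := by
    intro b X T hX
    rw [del_apply, Finset.sum_ite, Finset.sum_const_zero, zero_add, Finset.sum_filter,
      Finset.sum_mul]
    refine Finset.sum_congr (by ext; simp) fun x hx => ?_
    have hx : x ∉ T := by simpa using hx
    rw [hX x hx]
    split_ifs
    · rw [mul_assoc, pr_insert hx, mul_smul_comm]
    · simp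
  obtain ⟨Y, hY, e⟩ := van2 (Δ := Γ) (q := q)
    (fun G H a b => ⟨hΔ _ _ a b.1, (Finset.card_le_card a).trans b.2⟩) (fun G a => hp G a.1 a.2)
    (fun F k hk => fex_congr (fun G => by simp only [St, Γ]; tauto) (fex_trunc hk (hL F k hk)))
    Finset.univ r ∅ j (by omega)
    (fun G => if Δ G ∧ G.card = j then c G * pr q (srt G) else 0) (fun G => by
      beta_reduce
      split_ifs with hG
      · exact ⟨mem_gj.2 ⟨dg G hG.2, fun a ha => by
          rw [mul_assoc, pr_kill (by simpa using ha), mul_zero]⟩,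
          fun _ => ⟨⟨⟨hG.1, by omega⟩, by simp⟩, by omega⟩⟩
      · exact ⟨zero_mem _, fun e => (e rfl).elim⟩) (funext fun T => by
      rw [bd_apply]
      split_ifs with hT
      · by_cases h1 : T.card + 1 = j
        · rw [← key c _ T fun x hx => by simp [Finset.card_insert_of_notMem hx, h1]]
          exact h T hT.1.1 h1
        · by_contra e
          obtain ⟨x, hx, e2⟩ := del_ne e
          simp [Finset.card_insert_of_notMem hx, h1] at e2
      · rfl)
  have : ∀ G, ∃ P ∈ ⋀[K]^(r - (j + 1)) E, P * pr q (srt G) = Y G := by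
    intro G
    by_cases e : Y G = 0
    · exact ⟨0, zero_mem _, by simp [e]⟩
    have h1 := (hY G).2 e
    have h2 := mem_gj.1 (hY G).1
    refine pr_div (hp G h1.1.1.1 h1.1.1.2) (srt_nodup G) (by simp) _ _ ?_ (by simpa using h2.2)
    rw [srt_length, show r - (j + 1) + G.card = r by omega]
    exact h2.1
  choose b b1 b2 using this
  refine ⟨b, b1, fun T hT hT2 => ?_⟩
  have h1 := congrFun e T
  rw [bd_apply, if_pos ⟨⟨hT, by omega⟩, by simp⟩, if_pos ⟨hT, hT2⟩] at h1
  rw [sub_mul, key b Y T fun x _ => ?_, h1, sub_self]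
  split_ifs with h2
  · exact (b2 _).symm
  · by_contra e2
    exact h2 ((hY _).2 e2).1.1.1

end Pool.Agent.H28.Mon
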