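import Pool.Agent.H28.Mon12

namespace Pool.Agent.H28.Mon

open Module Classical Pool.Agent.H43.Orb Metric
open Pool.Agent.H28.Sub (Len proj proj_on proj_eq d_proj IE Ex Cost cost_ie ball_ie cost_mono)

variable {K : Type} [Field K] {V : Type} [LinearOrder V] [Fintype V]

omit [Fintype V] [LinearOrder V] in
lemma exists_contr' {F G : Set V → Prop} (hF : ∀ A B, A ⊆ B → F B → F A)
    (hG : ∀ A B, A ⊆ B → G B → G A)
    (k : ℕ) (h : ∀ q < k, ∀ z ∈ On (Tup F), z ∈ On (Len V q) → d z ∈ On (Tup G) →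
      ∃ w ∈ On (Tup F), d w - z ∈ On (Tup G)) :
    ∃ s : List V → Ch V, ∀ l ∈ Tup F, l.length < k → s l ∈ On (Tup F ∩ Len V (l.length + 1)) ∧
      d (s l) + ext s (dl l) - sg l ∈ On (Tup G) ∧ (l ∈ Tup G → s l = 0) := by
  induction k with
  | zero => exact ⟨0, by simp⟩
  | succ k ih =>
    obtain ⟨s, hs⟩ := ih fun q hq => h q (by omega)
    have dm : ∀ l ∈ Tup F, dl l ∈ On (Tup F ∩ {m | m.length + 1 = l.length ∧ ∀ u ∈ m, u ∈ l}) :=
      fun l hl => dl_on fun i hi => ⟨tup_face hF hl fun _ hu => List.mem_of_mem_eraseIdx hu, by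
        simp only [List.length_eraseIdx, hi, if_true]
        omega, fun _ hu => List.mem_of_mem_eraseIdx hu⟩
    have key : ∀ l ∈ Tup F, l.length = k → ∃ w ∈ On (Tup F ∩ Len V (l.length + 1)),
        d w + ext s (dl l) - sg l ∈ On (Tup G) ∧ (l ∈ Tup G → w = 0) := by
      intro l hl hk
      by_cases hl2 : l ∈ Tup G
      · refine ⟨0, zero_mem _, ?_, fun _ => rfl⟩
        rw [lin_eq_on (ext s) 0 (fun m hm => ?_) (dm l hl)]
        · simpa using sg_on hl2
        · have h2 := hm.2.1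
          simpa using (hs m hm.1 (by omega)).2.2 (tup_face hG hl2 hm.2.2)
      have h1 : ext s (dl l) ∈ On (Tup F ∩ Len V k) := by
        refine lin_on _ (fun m hm => ?_) (dm l hl)
        have h2 := hm.2.1
        rw [ext_sg, ← hk, ← h2]
        exact (hs m hm.1 (by omega)).1
      have h2 : d (ext s (dl l)) - dl l ∈ On (Tup G) := by
        have := lin_on (d ∘ₗ ext s + ext s ∘ₗ d - LinearMap.id) (N := On (Tup G)) (fun m hm => by
          have h2 := hm.2.1
          simpa using (hs m hm.1 (by omega)).2.1) (dm l hl)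
        simpa [d_dl] using this
      have h3 : sg l - ext s (dl l) ∈ On (Len V k) :=
        sub_mem (sg_on hk) (on_mono Set.inter_subset_right h1)
      obtain ⟨w, hw, e⟩ := h k (by omega) _ (sub_mem (sg_on hl) (on_mono Set.inter_subset_left h1))
        h3 (by simpa using neg_mem h2)
      refine ⟨proj (k + 1) w, hk ▸ proj_on _ hw, ?_, fun e => (hl2 e).elim⟩
      have := on_mono Set.inter_subset_left (proj_on k e)
      rw [map_sub, proj_eq h3, ← d_proj] at this
      rwa [← sub_sub_eq_add_sub]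
    choose! w w1 w2 using key
    refine ⟨fun l => if l.length = k then w l else s l, fun l hl hk => ?_⟩
    have e : ext (fun l => if l.length = k then w l else s l) (dl l) = ext s (dl l) :=
      lin_eq_on _ _ (fun m hm => by
        have h2 := hm.2.1
        rw [ext_sg, ext_sg, if_neg (by omega)]) (dm l hl)
    rw [e]
    by_cases h1 : l.length = k
    · simp only [if_pos h1]
      exact ⟨w1 l hl h1, w2 l hl h1⟩
    · simp only [if_neg h1]
      exact hs l hl (by omega)

theorem fex_rel' {F G : Set V → Prop} (hF : ∀ A B, A ⊆ B → F B → F A)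
    (hG : ∀ A B, A ⊆ B → G B → G A)
    (k : ℤ) (h : ∀ q : ℕ, q ≤ k → ∀ z ∈ On (Tup F), z ∈ On (Len V q) → d z ∈ On (Tup G) →
      ∃ w ∈ On (Tup F), d w - z ∈ On (Tup G)) :
    FEx K (fun H : Finset V => F H ∧ ¬ G H) k := by
  rcases lt_or_ge k 0 with hk | hk
  · exact fex_neg _ hk
  lift k to ℕ using hk
  obtain ⟨s, hs⟩ := exists_contr' hF hG (k + 1) fun q hq => h q (by omega)
  have hA : ∀ A B : Finset V, A ⊆ B → F B → F A := fun _ _ e => hF _ _ (by exact_mod_cast e)
  have hB : ∀ A B : Finset V, A ⊆ B → G B → G A := fun _ _ e => hG _ _ (by exact_mod_cast e)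
  have tp : ∀ (P : Set V → Prop) (H : Finset V), P H → srt H ∈ Tup P := fun P H e => by
    simpa [Tup] using e
  intro x hx e
  let S := hat K (NN K ∘ₗ ext s)
  have m : S x ∈ C0 K (fun H : Finset V => F H) (k + 1) := by
    rw [← Finset.univ_sum_single x, map_sum]
    refine Submodule.sum_mem _ fun H _ => ?_
    by_cases e : x H = 0
    · simp [e]
    have h1 := (hx H).2 e
    rw [show (Pi.single H (x H) : Finset V → K) = x H • Pi.single H 1 by simp [← Pi.single_smul],
      map_smul, hat_single]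
    refine Submodule.smul_mem _ _ fun T => ⟨trivial, nn_mem (P := fun T => F T ∧ (T.card : ℤ) = k + 1)
      (S := Tup F ∩ Len V ((srt H).length + 1)) (fun l hl e => ⟨by simpa [Tup] using hl.1, ?_⟩)
      (by simpa using (hs _ (tp F H h1.1.1) (by rw [srt_length]; omega)).1) T⟩
    have : l.length = (srt H).length + 1 := hl.2
    rw [srt_length] at this
    omega
  refine ⟨_, prj_mem m, funext fun T => ?_⟩
  rw [bd_apply]
  split_ifs with hT
  · rw [del_congr (y := S x) fun j _ => ?_]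
    · have h1 : (LinearMap.proj T ∘ₗ (del K ∘ₗ S + S ∘ₗ del K - LinearMap.id)) x =
          (0 : (Finset V → K) →ₗ[K] K) x := by
        refine lin_supp (A := fun H => F H ∧ (H.card : ℤ) = k) (fun H hH => ?_)
          fun H e => ⟨((hx H).2 e).1.1, ((hx H).2 e).2⟩
        by_contra e2
        refine hT.2 (nn_mem (K := K) (P := fun T => G T) (fun l hl _ => by simpa [Tup] using hl)
          (hs _ (tp F H hH.1) (by rw [srt_length]; omega)).2.1 T ?_)
        rw [map_sub, map_add, nn_d]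
        simpa [S, hat_single, hat_del, NN, nl_sorted (srt_sorted _), srt_toFinset] using e2
      have h2 : S (del K x) = (0 : (Finset V → K) →ₗ[K] (Finset V → K)) (del K x) := by
        refine lin_supp (A := fun H => (F H ∧ G H) ∧ H.card ≤ k) (fun H hH => ?_) fun H e2 => ?_
        · simp [S, hat_single, (hs _ (tp F H hH.1.1) (by rw [srt_length]; omega)).2.2
            (tp G H hH.1.2)]
        · obtain ⟨j, hj, e3⟩ := del_ne e2
          have h3 := (hx _).2 e3
          have h4 := hA _ _ (Finset.subset_insert _ _) h3.1.1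
          rw [Finset.card_insert_of_notMem hj] at h3
          refine ⟨⟨h4, by_contra fun h5 => e2 ?_⟩, by omega⟩
          have := congrFun e H
          rwa [bd_apply, if_pos ⟨h4, h5⟩] at this
      simpa [h2, sub_eq_zero] using h1
    · rw [prj_apply]
      split_ifs with h1
      · rfl
      · by_contra e2
        exact h1 ⟨((m _).2 (Ne.symm e2)).1, fun h2 => hT.2 (hB _ _ (Finset.subset_insert _ _) h2)⟩
  · by_contra e2
    exact hT ((hx T).2 (Ne.symm e2)).1

theorem fex_ie' {F : Set V → Prop} (hF : ∀ A B, A ⊆ B → F B → F A) (k : ℤ)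
    (h : ∀ q : ℕ, q ≤ k → IE F q) :
    FEx K (fun H : Finset V => F H) k := by
  refine fex_congr (by simp) (fex_rel' (G := fun _ => False) hF (by simp) k fun q hq z a b c => ?_)
  have e : On (Tup fun _ : Set V => False) = ⊥ := Finsupp.supported_empty
  rw [e, Submodule.mem_bot] at c
  obtain ⟨w, hw, e2⟩ := h q hq z a b c
  exact ⟨w, hw, by simp [e2]⟩

theorem ball_st {Δ : Finset V → Prop} (hΔ : ∀ G H, G ⊆ H → Δ H → Δ G) {n : ℕ}
    (φ : Rl (fun A : Set V => ∃ G, Δ G ∧ A ⊆ G) ≃ₜ closedBall (0 : EuclideanSpace ℝ (Fin n)) 1)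
    (F : Finset V) (k : ℤ) (hk : k < n + 1) : FEx K (St Δ F) k := by
  have hΦ : ∀ A B : Set V, A ⊆ B → (∃ G, Δ G ∧ B ⊆ G) → ∃ G, Δ G ∧ A ⊆ G :=
    fun A B h ⟨G, a, c⟩ => ⟨G, a, h.trans c⟩
  have eΦ : ∀ H : Finset V, (∃ G, Δ G ∧ (H : Set V) ⊆ G) ↔ Δ H := fun H =>
    ⟨fun ⟨G, a, c⟩ => hΔ _ _ (by exact_mod_cast c) a, fun h => ⟨H, h, subset_rfl⟩⟩
  obtain ⟨x, -, h2, G, hG, -⟩ := φ.symm ⟨0, by simp⟩
  haveI : Nonempty V :=
    ⟨(Finset.exists_ne_zero_of_sum_ne_zero (h2.trans_ne one_ne_zero)).choose⟩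
  have h1 : ∀ k, FEx K Δ k := fun k =>
    fex_congr eΦ (fex_ie hΦ (ball_ie hΦ ⟨G, hG, by simp⟩ φ) k)
  rcases F.eq_empty_or_nonempty with rfl | hF
  · exact fex_congr (by simp [St]) (h1 k)
  by_cases h : Δ F
  · refine fex_up (fun _ _ _ _ a _ b => hΔ _ _ a b) (B := fun H => Δ H ∧ ¬ F ⊆ H)
      (fun H => by simp only [St]; tauto) (fun _ a => a.1) (fun A B e a b => ⟨b, a.2.trans e⟩)
      (h1 k) (fex_congr (fun H => ?_) (fex_ie' (cost_mono hΦ F) _ fun q hq =>
        cost_ie hΦ hF ((eΦ F).2 h) φ (by omega)))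
    rw [Cost, eΦ, Finset.coe_subset]
  · exact fex_empty (fun H a => h (hΔ _ _ a.2 a.1)) k

lemma fex_int {A : Finset V → Prop} {k : ℤ}
    (h : ∀ x ∈ CS A (fun _ => (⊤ : Submodule ℤ ℤ)) k, bd ℤ A x = 0 →
      ∃ y ∈ CS A (fun _ => (⊤ : Submodule ℤ ℤ)) (k + 1), bd ℤ A y = x) : FEx ℝ A k := by
  refine ex_val (K := ℚ) (fun x hx e => ?_) ⊤
  obtain ⟨⟨N, hN⟩, h1⟩ := IsLocalization.exist_integer_multiples_of_finite (nonZeroDivisors ℤ) x
  choose z hz using h1
  have hN' : (N : ℚ) ≠ 0 := by exact_mod_cast nonZeroDivisors.ne_zero hN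
  have hz' : ∀ G, (z G : ℚ) = N * x G := fun G => by simpa using hz G
  obtain ⟨y, hy, e2⟩ := h z (fun G => ⟨trivial, fun e => (hx G).2 fun e2 => e (by
    have := hz' G
    rw [e2, mul_zero] at this
    exact_mod_cast this)⟩) (funext fun G => by
    have := map_bd (R := ℤ) (S := ℚ) (Int.castAddHom ℚ) A z G
    rw [show (fun G => Int.castAddHom ℚ (z G)) = (N : ℚ) • x from funext hz', map_smul, e] at this
    simpa using this)
  refine ⟨(N : ℚ)⁻¹ • fun G => (y G : ℚ), Submodule.smul_mem _ _ fun G =>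
    ⟨trivial, fun e => (hy G).2 fun e2 => e (by simp [e2])⟩, funext fun G => ?_⟩
  have := map_bd (R := ℤ) (S := ℚ) (Int.castAddHom ℚ) A y G
  rw [e2] at this
  rw [map_smul, Pi.smul_apply]
  refine (congrArg _ this.symm).trans ?_
  simp [hz', hN']

end Pool.Agent.H28.Mon
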