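import Pool.Agent.H28.Mon1

namespace Pool.Agent.H28.Mon

open Module Classical
open Pool.Agent.H28.Sub (Ex SES fr_split euler)

variable {K : Type} [Field K] {V : Type} [LinearOrder V] [Fintype V]

variable (K) in
abbrev C0 (A : Finset V → Prop) (k : ℤ) : Submodule K (Finset V → K) := CS A (fun _ => ⊤) k

variable (K) in
def FEx (A : Finset V → Prop) (k : ℤ) : Prop := Ex (bd K A : End K (Finset V → K)) (C0 K A) k

lemma ex_bot {X : Type} [AddCommGroup X] [Module K X] {D : X →ₗ[K] X} {A : ℤ → Submodule K X}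
    {k : ℤ} (h : A k ⊓ LinearMap.ker D = ⊥) : Ex D A k := by
  intro x hx e
  have : x ∈ A k ⊓ LinearMap.ker D := ⟨hx, e⟩
  rw [h, Submodule.mem_bot] at this
  exact ⟨0, zero_mem _, by simp [this]⟩

lemma fex_neg (A : Finset V → Prop) {k : ℤ} (hk : k < 0) : FEx K A k :=
  ex_bot (by rw [C0, cs_neg _ _ hk, bot_inf_eq])

lemma fex_empty {A : Finset V → Prop} (h : ∀ G, ¬ A G) (k : ℤ) : FEx K A k := by
  intro x hx _
  refine ⟨0, zero_mem _, funext fun G => ?_⟩
  by_contra e
  rw [map_zero] at e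
  exact h G ((hx G).2 (Ne.symm e)).1

lemma fex_congr {A B : Finset V → Prop} (h : ∀ G, A G ↔ B G) {k : ℤ} (e : FEx K A k) :
    FEx K B k := by
  rwa [show B = A from funext fun G => propext (h G).symm]

lemma fam_ses {A B C : Finset V → Prop} (hA : Cvx A) (h1 : ∀ G, B G ↔ A G ∧ ¬ C G)
    (h2 : ∀ G, C G → A G) (h3 : ∀ G H, G ⊆ H → C G → A H → C H) :
    SES (bd K A : End K (Finset V → K)) (bd K C) (prj K C) (C0 K A) (C0 K B) (C0 K C) where
  dA := bd_mem antitone_const
  dd := bd_bd hA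
  hB k x := by
    constructor
    · intro hx
      refine ⟨cs_mono hx (fun G h => ((h1 G).1 h).1) fun _ => le_rfl, funext fun G => ?_⟩
      rw [prj_apply]
      split_ifs with h
      · by_contra e
        exact ((h1 G).1 ((hx G).2 e).1).2 h
      · rfl
    · intro ⟨hx, e0⟩ G
      refine ⟨trivial, fun e => ⟨(h1 G).2 ⟨((hx G).2 e).1, fun h => e ?_⟩, ((hx G).2 e).2⟩⟩
      have := congrFun e0 G
      rwa [prj_apply, if_pos h] at this
  mp k x hx := prj_mem hx
  sj k y hy := by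
    refine ⟨y, cs_mono hy h2 fun _ => le_rfl, funext fun G => ?_⟩
    rw [prj_apply]
    split_ifs with h
    · rfl
    · by_contra e
      exact h ((hy G).2 (Ne.symm e)).1
  cm k x hx := by
    funext G
    rw [bd_apply, prj_apply, bd_apply]
    by_cases h : C G
    · rw [if_pos h, if_pos h, if_pos (h2 _ h)]
      refine del_congr fun j _ => ?_
      rw [prj_apply]
      split_ifs with h4
      · rfl
      · by_contra e
        exact h4 (h3 _ _ (Finset.subset_insert _ _) h ((hx _).2 (Ne.symm e)).1)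
    · rw [if_neg h, if_neg h]

lemma fam_low {A B C : Finset V → Prop} (h1 : ∀ G, B G ↔ A G ∧ ¬ C G)
    (h3 : ∀ G H, G ⊆ H → C G → A H → C H) (k : ℤ) :
    Ex (bd K A : End K (Finset V → K)) (C0 K B) k ↔ FEx K B k := by
  have key : ∀ k, ∀ x ∈ C0 K B k, bd K A x = bd K B x := by
    intro k x hx
    funext G
    rw [bd_apply, bd_apply]
    by_cases h : B G
    · rw [if_pos h, if_pos ((h1 G).1 h).1]
    · rw [if_neg h]
      split_ifs with h4
      · by_contra e
        obtain ⟨j, -, e2⟩ := del_ne e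
        have h5 := (h1 _).1 ((hx _).2 e2).1
        refine h ((h1 G).2 ⟨h4, fun h6 => h5.2 (h3 _ _ (Finset.subset_insert _ _) h6 h5.1)⟩)
      · rfl
  constructor
  · intro h x hx e
    obtain ⟨y, hy, e2⟩ := h x hx (by rw [key _ _ hx, e])
    exact ⟨y, hy, by rw [← key _ _ hy, e2]⟩
  · intro h x hx e
    obtain ⟨y, hy, e2⟩ := h x hx (by rw [← key _ _ hx, e])
    exact ⟨y, hy, by rw [key _ _ hy, e2]⟩

lemma fex_up {A B C : Finset V → Prop} (hA : Cvx A) (h1 : ∀ G, B G ↔ A G ∧ ¬ C G)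
    (h2 : ∀ G, C G → A G) (h3 : ∀ G H, G ⊆ H → C G → A H → C H) {k : ℤ} (e1 : FEx K A k)
    (e2 : FEx K B (k - 1)) : FEx K C k := by
  obtain ⟨k, rfl⟩ : ∃ j, k = j + 1 := ⟨k - 1, by ring⟩
  rw [add_sub_cancel_right] at e2
  exact (fam_ses hA h1 h2 h3).quot e1 ((fam_low h1 h3 k).2 e2)

lemma fex_low {A B C : Finset V → Prop} (hA : Cvx A) (h1 : ∀ G, B G ↔ A G ∧ ¬ C G)
    (h2 : ∀ G, C G → A G) (h3 : ∀ G H, G ⊆ H → C G → A H → C H) {k : ℤ} (e1 : FEx K A k)
    (e2 : FEx K C (k + 1)) : FEx K B k :=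
  (fam_low h1 h3 k).1 ((fam_ses hA h1 h2 h3).sub e1 e2)

lemma fex_mid {A B C : Finset V → Prop} (hA : Cvx A) (h1 : ∀ G, B G ↔ A G ∧ ¬ C G)
    (h2 : ∀ G, C G → A G) (h3 : ∀ G H, G ⊆ H → C G → A H → C H) {k : ℤ} (e1 : FEx K B k)
    (e2 : FEx K C k) : FEx K A k :=
  (fam_ses hA h1 h2 h3).mid ((fam_low h1 h3 k).2 e1) e2

/-- a family closed under adding and removing `a` is acyclic -/
lemma fex_cone {A : Finset V → Prop} (a : V) (h1 : ∀ G, A G → A (insert a G))
    (h2 : ∀ G, A G → A (G.erase a)) (k : ℤ) : FEx K A k := by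
  intro x hx e
  refine ⟨Up K a x, fun G => ⟨trivial, fun e2 => ?_⟩, funext fun G => ?_⟩
  · rw [up_apply] at e2
    split_ifs at e2 with h
    · have := (hx _).2 (right_ne_zero_of_smul e2)
      have h3 := Finset.card_erase_add_one h
      exact ⟨Finset.insert_erase h ▸ h1 _ this.1, by omega⟩
    · exact (e2 rfl).elim
  · rw [bd_apply]
    split_ifs with h
    · have := congrFun e (G.erase a)
      rw [bd_apply, if_pos (h2 G h)] at this
      rw [del_up, Pi.sub_apply, up_apply, this]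
      simp
    · by_contra e2
      exact h ((hx G).2 (Ne.symm e2)).1

/-- passing from the link to the open star -/
lemma fex_star {A : Finset V → Prop} (hA : Cvx A) (a : V) (h1 : ∀ G, A G → a ∉ G) {k : ℤ}
    (e1 : FEx K A k) : FEx K (fun G => a ∈ G ∧ A (G.erase a)) (k + 1) :=
  fex_up (A := fun G => A (G.erase a)) (B := A)
    (fun G H J h2 h3 => hA _ _ _ (Finset.erase_subset_erase _ h2) (Finset.erase_subset_erase _ h3))
    (fun G => by
      by_cases h : a ∈ G
      · exact ⟨fun e => (h1 G e h).elim, fun e => (e.2 ⟨h, e.1⟩).elim⟩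
      · simp [h]) (fun _ h => h.2) (fun G H h2 h3 h4 => ⟨h2 h3.1, h4⟩)
    (fex_cone a (by simp) (by simp) _) (by simpa using e1)

section ext
variable {U W : Type} [Fintype U] [DecidableEq U] [Fintype W] [DecidableEq W]
  (R : Type) [CommRing R] {Y : Type} [AddCommGroup Y] [Module R Y] [Module K Y]
  [SMulCommClass R K Y]

def xt (f : (U → K) →ₗ[K] (W → K)) : (U → Y) →ₗ[R] (W → Y) where
  toFun x T := ∑ G, f (Pi.single G 1) T • x G
  map_add' x y := by
    funext T
    simp [Finset.sum_add_distrib]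
  map_smul' a x := by
    funext T
    simp [Finset.smul_sum, smul_comm a]

variable {R}

omit [Fintype W] [DecidableEq W] in
lemma xt_apply (f : (U → K) →ₗ[K] (W → K)) (x : U → Y) (T : W) :
    xt R f x T = ∑ G, f (Pi.single G 1) T • x G := rfl

omit [Fintype W] [DecidableEq W] in
lemma xt_self (f : (U → K) →ₗ[K] (W → K)) (x : U → K) : xt K f x = f x := by
  funext T
  conv_rhs => rw [← Finset.univ_sum_single x, map_sum, Finset.sum_apply]
  refine Finset.sum_congr rfl fun G _ => ?_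
  rw [show (Pi.single G (x G) : U → K) = x G • Pi.single G 1 by simp [← Pi.single_smul], map_smul]
  simp [mul_comm]

omit [Fintype W] [DecidableEq W] in
lemma map_xt {S Z : Type} [CommRing S] [AddCommGroup Z] [Module S Z] [Module K Z]
    [SMulCommClass S K Z] (g : Y →ₗ[K] Z) (f : (U → K) →ₗ[K] (W → K)) (x : U → Y) (T : W) :
    g (xt R f x T) = xt S f (fun G => g (x G)) T := by
  simp [xt_apply]

omit [Fintype W] [DecidableEq W] in
lemma xt_ne {f : (U → K) →ₗ[K] (W → K)} {x : U → Y} {T : W} (h : xt R f x T ≠ 0) :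
    ∃ G, x G ≠ 0 ∧ f (Pi.single G 1) T ≠ 0 := by
  obtain ⟨G, -, e⟩ := Finset.exists_ne_zero_of_sum_ne_zero h
  exact ⟨G, right_ne_zero_of_smul e, left_ne_zero_of_smul e⟩

omit [Fintype W] [DecidableEq W] in
lemma xt_val [Algebra K R] [IsScalarTower K R Y] {f : (U → K) →ₗ[K] (W → K)} {x : U → Y}
    {P : Submodule R Y} (h : ∀ G, x G ∈ P) (T : W) : xt R f x T ∈ P :=
  Submodule.sum_mem _ fun G _ => Submodule.smul_of_tower_mem _ _ (h G)

end ext

lemma eq_of_dual {Y : Type} [AddCommGroup Y] [Module K Y] {x y : Y}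
    (h : ∀ g : Y →ₗ[K] K, g x = g y) : x = y :=
  sub_eq_zero.1 ((Module.forall_dual_apply_eq_zero_iff K _).1 fun g => by rw [map_sub, h, sub_self])

lemma ex_val {R : Type} [Field R] {Y : Type} [AddCommGroup Y] [Module R Y] [Module K Y]
    [Algebra K R] [IsScalarTower K R Y] [SMulCommClass R K Y] {A : Finset V → Prop} {k : ℤ}
    (h : FEx K A k) (P : Submodule R Y) : Ex (bd R A) (CS A fun _ => P) k := by
  let Z := C0 K A k ⊓ LinearMap.ker (bd K A)
  let f : C0 K A (k + 1) →ₗ[K] (Finset V → K) := bd K A ∘ₗ Submodule.subtype _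
  obtain ⟨g, hg⟩ := f.rangeRestrict.exists_rightInverse_of_surjective f.range_rangeRestrict
  obtain ⟨S, hS⟩ := g.exists_extend
  have key : ∀ x ∈ C0 K A k, bd K A x = 0 → bd K A (S x).1 = x := by
    intro x hx e
    obtain ⟨y, hy, e2⟩ := h x hx e
    have m : x ∈ LinearMap.range f := ⟨⟨y, hy⟩, e2⟩
    have h1 : S x = g ⟨x, m⟩ := LinearMap.congr_fun hS ⟨x, m⟩
    have h2 := congrArg Subtype.val (LinearMap.congr_fun hg ⟨x, m⟩)
    rw [h1]
    exact h2
  intro x hx e
  refine ⟨xt R (Submodule.subtype _ ∘ₗ S) x, fun G => ⟨xt_val (fun G => (hx G).1) G, fun e2 => ?_⟩,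
    funext fun G => eq_of_dual (K := K) fun l => ?_⟩
  · obtain ⟨H, -, e3⟩ := xt_ne e2
    exact ((S _).2 G).2 e3
  · rw [map_bd (S := K)]
    simp only [map_xt (S := K), xt_self]
    refine congrFun (key (fun G => l (x G)) (fun G => ⟨trivial, fun e2 => (hx G).2 fun e3 => e2 ?_⟩)
      (funext fun G => ?_)) G
    · simp [e3]
    · rw [← map_bd (R := R), e]
      simp

end Pool.Agent.H28.Mon
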