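import Pool.Agent.H28.Mon2

namespace Pool.Agent.H28.Mon

open Module Classical
open Pool.Agent.H28.Sub (Ex SES fr_split euler)

section ring
variable {R : Type} [CommRing R] {V : Type} [LinearOrder V] [Fintype V] {d : ℕ}

def FJ (p : V → Fin d → R) (r : ℤ) (J : Finset V) : Submodule R (Finset (Fin d) → R) :=
  CS (fun _ => True) (fun _ => ⊤) r ⊓ ⨅ a ∈ J, LinearMap.ker (con (p a))

omit [LinearOrder V] [Fintype V] in
lemma mem_fj {p : V → Fin d → R} {r : ℤ} {J : Finset V} {x : Finset (Fin d) → R} :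
    x ∈ FJ p r J ↔ (∀ T, x T ≠ 0 → (T.card : ℤ) = r) ∧ ∀ a ∈ J, con (p a) x = 0 := by
  simp only [FJ, Submodule.mem_inf, mem_cs, Submodule.mem_top, true_and, Submodule.mem_iInf,
    LinearMap.mem_ker]

omit [LinearOrder V] [Fintype V] in
lemma fj_mono (p : V → Fin d → R) (r : ℤ) {J J' : Finset V} (h : J ⊆ J') : FJ p r J' ≤ FJ p r J :=
  fun _ hx => mem_fj.2 ⟨(mem_fj.1 hx).1, fun a ha => (mem_fj.1 hx).2 a (h ha)⟩

lemma con_deg {r : ℤ} {x : Finset (Fin d) → R} (φ : Fin d → R)
    (h : ∀ T, x T ≠ 0 → (T.card : ℤ) = r + 1) (T : Finset (Fin d)) (e : con φ x T ≠ 0) :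
    (T.card : ℤ) = r := by
  obtain ⟨j, hj, e2⟩ := con_ne e
  have := h _ e2
  rw [Finset.card_insert_of_notMem hj] at this
  push_cast at this
  omega

lemma mul_deg {r : ℤ} {x : Finset (Fin d) → R} (φ : Fin d → R)
    (h : ∀ T, x T ≠ 0 → (T.card : ℤ) = r) (T : Finset (Fin d)) (e : mul φ x T ≠ 0) :
    (T.card : ℤ) = r + 1 := by
  obtain ⟨j, hj, e2⟩ := mul_ne e
  have := h _ e2
  have := Finset.card_erase_add_one hj
  omega

omit [Fintype V] in
lemma con_fj {p : V → Fin d → R} {r : ℤ} {J : Finset V} {x : Finset (Fin d) → R} (v : V)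
    (hx : x ∈ FJ p (r + 1) J) : con (p v) x ∈ FJ p r (insert v J) := by
  rw [mem_fj] at *
  refine ⟨con_deg _ hx.1, fun a ha => ?_⟩
  rcases Finset.mem_insert.1 ha with rfl | ha
  · exact con_sq _ _
  · rw [con_con, hx.2 a ha]
    simp

omit [LinearOrder V] [Fintype V] in
lemma fj_neg (p : V → Fin d → R) {r : ℤ} (hr : r < 0) (J : Finset V) : FJ p r J = ⊥ := by
  rw [FJ, cs_neg _ _ hr, bot_inf_eq]

omit [LinearOrder V] [Fintype V] in
lemma fj_zero (p : V → Fin d → R) (J : Finset V) : FJ p 0 J = FJ p 0 ∅ := by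
  refine le_antisymm (fj_mono _ _ (by simp)) fun x hx => mem_fj.2 ⟨(mem_fj.1 hx).1, fun a _ => ?_⟩
  funext T
  by_contra e
  have := con_deg (r := -1) (p a) (by simpa using (mem_fj.1 hx).1) T e
  omega

def St (Δ : Finset V → Prop) (F G : Finset V) : Prop := Δ G ∧ F ⊆ G

omit [Fintype V] in
lemma st_cvx {Δ : Finset V → Prop} (hΔ : ∀ G H, G ⊆ H → Δ H → Δ G) (F : Finset V) :
    Cvx (St Δ F) := fun _ _ _ h1 h2 a c => ⟨hΔ _ _ h2 c.1, a.2.trans h1⟩

noncomputable def piV (p : V → Fin d → R) (v : V) : End R (Finset V → Finset (Fin d) → R) :=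
  prj R (v ∈ ·) ∘ₗ LinearMap.compLeft (con (p v)) _

omit [Fintype V] in
lemma piV_apply (p : V → Fin d → R) (v : V) (x : Finset V → Finset (Fin d) → R) (G : Finset V) :
    piV p v x G = if v ∈ G then con (p v) (x G) else 0 := by
  rw [piV, LinearMap.comp_apply, prj_apply]
  split_ifs <;> rfl

lemma bd_piV (Δ : Finset V → Prop) (F : Finset V) (p : V → Fin d → R) (v : V)
    (x : Finset V → Finset (Fin d) → R) :
    bd R (St Δ (insert v F)) (piV p v x) = piV p v (bd R (St Δ F) x) := by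
  funext G
  rw [piV_apply, bd_apply, bd_apply]
  by_cases h : v ∈ G
  · rw [if_pos h]
    by_cases h2 : St Δ F G
    · rw [if_pos h2, if_pos ⟨h2.1, Finset.insert_subset h h2.2⟩, map_del (S := R)]
      exact del_congr fun j _ => by rw [piV_apply, if_pos (Finset.mem_insert_of_mem h)]
    · rw [if_neg h2, if_neg fun e => h2 ⟨e.1, (Finset.subset_insert _ _).trans e.2⟩, map_zero]
  · rw [if_neg h, if_neg fun e => h (e.2 (Finset.mem_insert_self _ _))]

omit [Fintype V] in
lemma piV_mem {Δ : Finset V → Prop} {F : Finset V} {p : V → Fin d → R} (v : V) {r k : ℤ}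
    {J J' : Finset V → Finset V} (hJ : ∀ G, v ∈ G → J' G ⊆ insert v (J G))
    {x : Finset V → Finset (Fin d) → R} (hx : x ∈ CS (St Δ F) (fun G => FJ p (r + 1) (J G)) k) :
    piV p v x ∈ CS (St Δ (insert v F)) (fun G => FJ p r (J' G)) k := by
  intro G
  rw [piV_apply]
  split_ifs with h
  · refine ⟨fj_mono _ _ (hJ G h) (con_fj v (hx G).1), fun e => ?_⟩
    have := (hx G).2 fun e2 => e (by rw [e2, map_zero])
    exact ⟨⟨this.1.1, Finset.insert_subset h this.1.2⟩, this.2⟩
  · exact ⟨zero_mem _, fun e => (e rfl).elim⟩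

def Ind (p : V → Fin d → R) (G : Finset V) : Prop :=
  ∀ v ∈ G, ∃ a : Fin d → R, ∀ w ∈ G, ∑ i, p w i * a i = if w = v then 1 else 0

end ring

variable {K : Type} [Field K] {V : Type} [LinearOrder V] [Fintype V] {d : ℕ}
  {Δ : Finset V → Prop} {p : V → Fin d → K}

lemma ses1 (hΔ : ∀ G H, G ⊆ H → Δ H → Δ G) (hp : ∀ G, Δ G → Ind p G) (F W : Finset V) {v : V}
    (hv : v ∉ W) (r : ℤ) :
    SES (bd K (St Δ F)) (bd K (St Δ (insert v F))) (piV p v)
      (CS (St Δ F) fun G => FJ p (r + 1) (G ∩ W)) (CS (St Δ F) fun G => FJ p (r + 1) (G ∩ insert v W))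
      (CS (St Δ (insert v F)) fun G => FJ p r (G ∩ insert v W)) where
  dA := bd_mem fun _ _ h => fj_mono _ _ (Finset.inter_subset_inter_right h)
  dd := bd_bd (st_cvx hΔ F)
  hB k x := by
    constructor
    · intro hx
      refine ⟨cs_mono hx (fun _ h => h) fun G => fj_mono _ _
        (Finset.inter_subset_inter_left (Finset.subset_insert _ _)), funext fun G => ?_⟩
      rw [piV_apply]
      split_ifs with h
      · exact (mem_fj.1 (hx G).1).2 v (by simp [h])
      · rfl
    · intro ⟨hx, e⟩ G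
      refine ⟨mem_fj.2 ⟨(mem_fj.1 (hx G).1).1, fun a ha => ?_⟩, (hx G).2⟩
      obtain ⟨h1, h2⟩ := Finset.mem_inter.1 ha
      rcases Finset.mem_insert.1 h2 with rfl | h2
      · have := congrFun e G
        rwa [piV_apply, if_pos h1] at this
      · exact (mem_fj.1 (hx G).1).2 a (Finset.mem_inter.2 ⟨h1, h2⟩)
  mp k x hx := piV_mem v (fun G _ a => by simp only [Finset.mem_inter, Finset.mem_insert]; tauto) hx
  sj k y hy := by
    choose! a ha using hp
    refine ⟨fun G => mul (a G v) (y G), fun G => ?_, funext fun G => ?_⟩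
    · by_cases e : y G = 0
      · simp [e]
      have hG := (hy G).2 e
      have h := mem_fj.1 (hy G).1
      have hv2 : v ∈ G := hG.1.2 (by simp)
      refine ⟨mem_fj.2 ⟨mul_deg _ h.1, fun b hb => ?_⟩,
        fun _ => ⟨⟨hG.1.1, (Finset.subset_insert _ _).trans hG.1.2⟩, hG.2⟩⟩
      obtain ⟨h1, h2⟩ := Finset.mem_inter.1 hb
      rw [con_mul, ha G hG.1.1 v hv2 b h1, h.2 b (by simp [h1, h2]), if_neg (by rintro rfl; exact hv h2)]
      simp
    · rw [piV_apply]
      by_cases e : y G = 0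
      · simp [e]
      have hG := (hy G).2 e
      have hv2 : v ∈ G := hG.1.2 (by simp)
      rw [if_pos hv2, con_mul, ha G hG.1.1 v hv2 v hv2, (mem_fj.1 (hy G).1).2 v (by simp [hv2])]
      simp
  cm k x _ := bd_piV _ _ _ _ _

omit [Fintype V] [LinearOrder V] in
lemma cs_bot {Y : Type} [AddCommGroup Y] [Module K Y] (A : Finset V → Prop)
    {F : Finset V → Submodule K Y} (h : ∀ G, F G = ⊥) (k : ℤ) : CS A F k = ⊥ := by
  refine (Submodule.eq_bot_iff _).2 fun x hx => funext fun G => ?_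
  have := (hx G).1
  rwa [h G, Submodule.mem_bot] at this

def LC (Δ : Finset V → Prop) (p : V → Fin d → K) : Prop :=
  ∀ F : Finset V, F.Nonempty → ∀ r k : ℤ, k < d →
    Ex (bd K (St Δ F)) (CS (St Δ F) fun _ => FJ p r ∅) k

lemma van (hΔ : ∀ G H, G ⊆ H → Δ H → Δ G) (hp : ∀ G, Δ G → Ind p G) (hL : LC Δ p) (W : Finset V) :
    ∀ r : ℤ, ∀ F : Finset V, F.Nonempty → ∀ k : ℤ, k + r < d →
      Ex (bd K (St Δ F)) (CS (St Δ F) fun G => FJ p r (G ∩ W)) k := by
  have neg : ∀ W : Finset V, ∀ r : ℤ, r < 0 → ∀ (F : Finset V) (k : ℤ),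
      Ex (bd K (St Δ F)) (CS (St Δ F) fun G => FJ p r (G ∩ W)) k := fun W r hr F k =>
    ex_bot (by rw [cs_bot _ fun _ => fj_neg _ hr _, bot_inf_eq])
  induction W using Finset.induction_on with
  | empty =>
    intro r F hF k hk
    rcases lt_or_ge r 0 with hr | hr
    · exact neg _ r hr F k
    · simpa using hL F hF r k (by omega)
  | insert v W hv ih =>
    have : ∀ m : ℕ, ∀ F : Finset V, F.Nonempty → ∀ k : ℤ, k + (m - 1) < d →
        Ex (bd K (St Δ F)) (CS (St Δ F) fun G => FJ p (m - 1) (G ∩ insert v W)) k := by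
      intro m
      induction m with
      | zero => exact fun F _ k _ => neg _ _ (by simp) F k
      | succ m ih2 =>
        intro F hF k hk
        push_cast at hk
        have := (ses1 hΔ hp F W hv (m - 1)).sub (ih _ F hF k (by omega))
          (ih2 _ (by simp) (k + 1) (by omega))
        rwa [show (m : ℤ) - 1 + 1 = (m + 1 : ℕ) - 1 by push_cast; ring] at this
    intro r F hF k hk
    rcases lt_or_ge r 0 with hr | hr
    · exact neg _ r hr F k
    · lift r to ℕ using hr
      have := this (r + 1) F hF k (by push_cast; omega)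
      rwa [show ((r + 1 : ℕ) : ℤ) - 1 = r by push_cast; ring] at this

omit [LinearOrder V] in
lemma fr_cs {Y : Type} [AddCommGroup Y] [Module K Y] [FiniteDimensional K Y] (A : Finset V → Prop)
    (F : Finset V → Submodule K Y) (k : ℕ) :
    finrank K (CS A F k) = ∑ G with A G ∧ G.card = k, finrank K (F G) := by
  let e : CS A F k ≃ₗ[K] (∀ G : {G // A G ∧ G.card = k}, F G) :=
    { toFun := fun x G => ⟨x.1 G, (x.2 G).1⟩
      map_add' := fun _ _ => rfl
      map_smul' := fun _ _ => rfl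
      invFun := fun y => ⟨fun G => if h : A G ∧ G.card = k then y ⟨G, h⟩ else 0, fun G => by
        by_cases h : A G ∧ G.card = k
        · simp only [dif_pos h]
          exact ⟨(y ⟨G, h⟩).2, fun _ => ⟨h.1, by exact_mod_cast h.2⟩⟩
        · simp [h]⟩
      left_inv := fun x => by
        ext1
        funext G
        by_cases h : A G ∧ G.card = k
        · simp [h]
        · simp only [h, dite_false]
          by_contra e
          have h1 := (x.2 G).2 (Ne.symm e)
          exact h ⟨h1.1, by exact_mod_cast h1.2⟩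
      right_inv := fun y => by
        funext G
        exact Subtype.ext (dif_pos G.2) }
  rw [e.finrank_eq, finrank_pi_fintype]
  exact (Finset.sum_subtype _ (by simp) fun G => finrank K (F G)).symm

omit [Fintype V] in
lemma fr_fj {G : Finset V} (hp : Ind p G) (J : Finset V) (hJ : J ⊆ G) :
    J.card ≤ d ∧ ∀ r : ℕ, finrank K (FJ p r J) = (d - J.card).choose r := by
  induction J using Finset.induction_on with
  | empty =>
    refine ⟨by simp, fun r => ?_⟩
    have : FJ p r ∅ = CS (fun _ => True) (fun _ => ⊤) r := by simp [FJ]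
    rw [this, fr_cs]
    simp
  | insert v J hv ih =>
    obtain ⟨h1, h2⟩ := ih ((Finset.subset_insert _ _).trans hJ)
    obtain ⟨a, ha⟩ := hp v (hJ (by simp))
    have key : ∀ r : ℤ, finrank K (FJ p (r + 1) J) =
        finrank K (FJ p (r + 1) (insert v J)) + finrank K (FJ p r (insert v J)) := by
      intro r
      have e1 : FJ p (r + 1) (insert v J) = FJ p (r + 1) J ⊓ LinearMap.ker (con (p v)) := by
        ext x
        simp only [mem_fj, Finset.forall_mem_insert, Submodule.mem_inf, LinearMap.mem_ker]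
        tauto
      have e2 : FJ p r (insert v J) = (FJ p (r + 1) J).map (con (p v)) := by
        ext y
        refine ⟨fun hy => ⟨mul a y, mem_fj.2 ⟨mul_deg _ (mem_fj.1 hy).1, fun b hb => ?_⟩, ?_⟩,
          fun ⟨x, hx, e⟩ => e ▸ con_fj v hx⟩
        · rw [con_mul, ha b (hJ (by simp [hb])), (mem_fj.1 hy).2 b (by simp [hb]),
            if_neg (by rintro rfl; exact hv hb)]
          simp
        · rw [con_mul, ha v (hJ (by simp)), (mem_fj.1 hy).2 v (by simp)]
          simp
      rw [e1, e2]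
      exact fr_split _ _
    have k0 : finrank K (FJ p (0 : ℕ) (insert v J)) = 1 := by
      have := h2 0
      rw [Nat.cast_zero, fj_zero] at this ⊢
      simpa using this
    have hd : J.card < d := by
      have h3 := key (0 : ℕ)
      have h4 := h2 1
      rw [Nat.choose_one_right, show ((1 : ℕ) : ℤ) = (0 : ℕ) + 1 by simp] at h4
      omega
    rw [Finset.card_insert_of_notMem hv]
    refine ⟨hd, fun r => ?_⟩
    induction r with
    | zero => simpa using k0
    | succ r ih2 =>
      have h3 := key r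
      have h4 := h2 (r + 1)
      rw [show d - J.card = d - (J.card + 1) + 1 by omega, Nat.choose_succ_succ'] at h4
      push_cast at h4 ⊢
      omega

noncomputable def XX (Δ : Finset V → Prop) (p : V → Fin d → K) (W : Finset V) (r i : ℤ) :
    Submodule K (Finset V → Finset (Fin d) → K) :=
  CS (St Δ ∅) (fun _ => FJ p r ∅) (i + 1) ⊓
    (CS (St Δ ∅) (fun G => FJ p r (G ∩ W)) i).comap (bd K (St Δ ∅))

lemma formula (hΔ : ∀ G H, G ⊆ H → Δ H → Δ G) (hp : ∀ G, Δ G → Ind p G) (hL : LC Δ p) (i : ℕ)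
    (r : ℤ) (hr : i + r = d) (W : Finset V) :
    (finrank K (XX Δ p W r i) : ℤ) - ∑ k ∈ Finset.range (i + 1), (-1 : ℤ) ^ (i - k) *
      (finrank K (CS (St Δ ∅) (fun G => FJ p r (G ∩ W)) k) : ℤ) =
    ∑ k ∈ Finset.range (i + 1 + 1), (-1 : ℤ) ^ (i + 1 - k) *
      (finrank K (CS (St Δ ∅) (fun _ => FJ p r ∅) k) : ℤ) := by
  obtain ⟨r, rfl⟩ : ∃ j, r = j + 1 := ⟨r - 1, by ring⟩
  induction W using Finset.induction_on with
  | empty =>
    have : XX Δ p ∅ (r + 1) i = CS (St Δ ∅) (fun _ => FJ p (r + 1) ∅) (i + 1) :=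
      inf_eq_left.2 fun x hx => by simpa using bd_mem antitone_const _ _ hx
    have e : (fun G : Finset V => FJ p (r + 1) (G ∩ ∅)) = fun _ => FJ p (r + 1) ∅ := by
      funext G
      rw [Finset.inter_empty]
    rw [this, Finset.sum_range_succ _ (i + 1), e]
    simp only [Nat.sub_self, pow_zero, one_mul]
    push_cast
    rw [sub_eq_neg_add, ← Finset.sum_neg_distrib]
    congr 1
    refine Finset.sum_congr rfl fun k hk => ?_
    have := Finset.mem_range.1 hk
    rw [show i + 1 - k = i - k + 1 by omega, pow_succ]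
    ring
  | insert v W hv ih =>
    have S := ses1 hΔ hp ∅ W hv r
    have hV := van hΔ hp hL (insert v W) r (insert v ∅) (by simp)
    have E := euler (D := bd K (St Δ (insert v ∅)))
      (A := CS (St Δ (insert v ∅)) fun G => FJ p r (G ∩ insert v W))
      (bd_mem fun _ _ h => fj_mono _ _ (Finset.inter_subset_inter_right h))
      (bd_bd (st_cvx hΔ _)) (cs_neg _ _ (by simp)) i fun k hk => hV k (by omega)
    have h1 := fr_split (piV p v ∘ₗ bd K (St Δ ∅)) (XX Δ p W (r + 1) i)
    have e1 : XX Δ p W (r + 1) i ⊓ LinearMap.ker (piV p v ∘ₗ bd K (St Δ ∅)) =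
        XX Δ p (insert v W) (r + 1) i := by
      ext x
      simp only [XX, Submodule.mem_inf, Submodule.mem_comap, S.hB, LinearMap.mem_ker,
        LinearMap.comp_apply, and_assoc]
    have e2 : (XX Δ p W (r + 1) i).map (piV p v ∘ₗ bd K (St Δ ∅)) =
        CS (St Δ (insert v ∅)) (fun G => FJ p r (G ∩ insert v W)) i ⊓
          LinearMap.ker (bd K (St Δ (insert v ∅))) := by
      ext z
      constructor
      · rintro ⟨x, hx, rfl⟩
        refine ⟨S.mp _ _ hx.2, ?_⟩
        rw [LinearMap.comp_apply, SetLike.mem_coe, LinearMap.mem_ker, bd_piV,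
          bd_bd (st_cvx hΔ _) _ _ hx.1, map_zero]
      · intro hz
        obtain ⟨y, hy, e⟩ := hV i (by omega) z hz.1 hz.2
        obtain ⟨x, hx, rfl⟩ := S.sj _ _ hy
        exact ⟨x, ⟨cs_mono hx (fun _ h => h) fun G => fj_mono _ _ (by simp), S.dA _ _ hx⟩,
          by rw [← e, bd_piV]; rfl⟩
    rw [e1, e2] at h1
    rw [← ih, h1]
    simp only [S.dim]
    push_cast
    simp only [mul_add, Finset.sum_add_distrib, E]
    ring

end Pool.Agent.H28.Mon
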