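import Pool.Agent.H28.Mon3

namespace Pool.Agent.H28.Mon

open Module Classical
open Pool.Agent.H28.Sub (Ex SES fr_split euler)

section
variable {K : Type} [Field K] {V : Type} [LinearOrder V] [Fintype V] {d : ℕ}
  {Δ : Finset V → Prop} {p : V → Fin d → K}

lemma elem (hΔ : ∀ G H, G ⊆ H → Δ H → Δ G) (hp : ∀ G, Δ G → Ind p G) (hL : LC Δ p) (F : Finset V)
    {r i : ℤ} (hr : i + 1 + r = d) {x0 : Finset V → Finset (Fin d) → K}
    (h0 : x0 ∈ CS (St Δ F) (fun _ => FJ p (r + 1) ∅) (i + 1))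
    (hb : ∀ G, ∀ a ∈ G, con (p a) (bd K (St Δ F) x0 G) = 0) (W : Finset V) :
    ∃ x ∈ CS (St Δ F) (fun _ => FJ p (r + 1) ∅) (i + 1), bd K (St Δ F) x = bd K (St Δ F) x0 ∧
      ∀ G, ∀ b ∈ G ∩ W, ∀ c ∈ G ∩ W, con (p c) (con (p b) (x G)) = 0 := by
  induction W using Finset.induction_on with
  | empty => exact ⟨x0, h0, rfl, by simp⟩
  | insert v W hv ih =>
    obtain ⟨x, hx, e0, hW⟩ := ih
    obtain ⟨r, rfl⟩ : ∃ j, r = j + 1 := ⟨r - 1, by ring⟩
    have k1 : ∀ a ∈ W, ∃ u ∈ CS (St Δ (insert a (insert v F))) (fun G => FJ p r (G ∩ insert v W))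
        (i + 1 + 1), bd K (St Δ (insert a (insert v F))) u = piV p a (piV p v x) := by
      intro a ha
      refine van hΔ hp hL (insert v W) r _ (by simp) (i + 1) (by omega) _ (fun G => ?_) ?_
      · have := piV_mem a (J' := fun _ => ∅) (by simp)
          (piV_mem v (J := fun _ => ∅) (J' := fun _ => ∅) (by simp) hx) G
        refine ⟨mem_fj.2 ⟨(mem_fj.1 this.1).1, fun b hb => ?_⟩, this.2⟩
        obtain ⟨h1, h2⟩ := Finset.mem_inter.1 hb
        simp only [piV_apply]
        split_ifs with h3 h4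
        · rcases Finset.mem_insert.1 h2 with rfl | h2
          · rw [con_con, con_sq]
            simp
          · rw [con_con (p a), map_neg, con_con (p b), hW G a (by simp [h3, ha]) b (by simp [h1, h2])]
            simp
        · simp
        · simp
      · rw [bd_piV, bd_piV, e0]
        funext G
        simp only [piV_apply]
        split_ifs with h3 h4
        · rw [hb G v h4]
          simp
        · simp
        · simp
    choose! u u1 u2 using k1
    choose! α hα using hp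
    let y : Finset V → Finset (Fin d) → K := fun G => ∑ a ∈ W, mul (α G v) (mul (α G a) (u a G))
    have hy : y ∈ CS (St Δ F) (fun _ => FJ p (r + 1 + 1) ∅) (i + 1 + 1) := by
      intro G
      refine ⟨Submodule.sum_mem _ fun a ha => mem_fj.2
        ⟨mul_deg _ (mul_deg _ (mem_fj.1 (u1 a ha G).1).1), by simp⟩, fun e => ?_⟩
      obtain ⟨a, ha, e2⟩ := Finset.exists_ne_zero_of_sum_ne_zero e
      have := (u1 a ha G).2 fun e3 => e2 (by simp [e3])
      exact ⟨⟨this.1.1, ((Finset.subset_insert _ _).trans (Finset.subset_insert _ _)).trans this.1.2⟩,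
        this.2⟩
    have key : ∀ G, ∀ b ∈ G ∩ insert v W, ∀ c ∈ G ∩ W, con (p c) (con (p b) (y G)) =
        if b = v then u c G else 0 := by
      intro G b hb c hc
      obtain ⟨c1, c2⟩ := Finset.mem_inter.1 hc
      have : ∀ a ∈ W, con (p c) (con (p b) (mul (α G v) (mul (α G a) (u a G)))) =
          if c = a then (if b = v then u a G else 0) else 0 := by
        intro a ha
        by_cases e : u a G = 0
        · simp [e]
        have h1 := (u1 a ha G).2 e
        have h2 := (mem_fj.1 (u1 a ha G).1).2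
        have h3 := hα G h1.1.1 v (h1.1.2 (by simp))
        have h4 := hα G h1.1.1 a (h1.1.2 (by simp))
        have b1 := (Finset.mem_inter.1 hb).1
        have cv : c ≠ v := by
          rintro rfl
          exact hv c2
        simp only [con_mul, map_sub, map_smul, h3 b b1, h4 b b1, h3 c c1, h4 c c1, h2 b hb,
          h2 c (by simp [c1, c2]), map_zero, sub_zero, cv, if_false, zero_smul, smul_zero]
        split_ifs <;> simp
      simp only [y, map_sum]
      rw [Finset.sum_congr rfl this]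
      simp [c2]
    have fin : ∀ G, ∀ b ∈ G ∩ insert v W, ∀ c ∈ G ∩ W,
        con (p c) (con (p b) ((x - bd K (St Δ F) y) G)) = 0 := by
      intro G b hb c hc
      by_cases hG : St Δ F G
      swap
      · have : x G = 0 := by
          by_contra e
          exact hG ((hx G).2 e).1
        simp [bd_apply, hG, this]
      obtain ⟨b1, b2⟩ := Finset.mem_inter.1 hb
      obtain ⟨c1, c2⟩ := Finset.mem_inter.1 hc
      rw [Pi.sub_apply, map_sub, map_sub, bd_apply, if_pos hG, map_del (S := K), map_del (S := K),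
        del_congr (y := if b = v then u c else 0) fun j _ => by
          rw [key _ b (by simp [b1, b2]) c (by simp [c1, c2])]
          split_ifs <;> rfl]
      split_ifs with h
      · subst h
        have := congrFun (u2 c c2) G
        rw [bd_apply, if_pos ⟨hG.1, Finset.insert_subset c1 (Finset.insert_subset b1 hG.2)⟩,
          piV_apply, piV_apply, if_pos c1, if_pos b1] at this
        rw [this, sub_self]
      · rw [hW G b (by simpa [b1, h] using b2) c hc]
        simp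
    refine ⟨x - bd K (St Δ F) y, sub_mem hx (bd_mem antitone_const _ _ hy), ?_, fun G b hb c hc => ?_⟩
    · rw [map_sub, bd_bd (st_cvx hΔ F) _ _ hy, sub_zero, e0]
    · obtain ⟨c1, c2⟩ := Finset.mem_inter.1 hc
      rcases Finset.mem_insert.1 c2 with rfl | c2
      · obtain ⟨b1, b2⟩ := Finset.mem_inter.1 hb
        rcases Finset.mem_insert.1 b2 with rfl | b2
        · exact con_sq _ _
        · rw [con_con, fin G c hc b (by simp [b1, b2]), neg_zero]
      · exact fin G b hb c (by simp [c1, c2])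

end

section
variable {k : Type} [Field k] {V U : Type} [LinearOrder V] [Fintype V] [LinearOrder U] [Fintype U]

omit [Fintype U] [LinearOrder U] in
lemma lin_supp {Z : Type} [AddCommGroup Z] [Module k Z] {A : Finset V → Prop}
    {f g : (Finset V → k) →ₗ[k] Z} (h : ∀ E, A E → f (Pi.single E 1) = g (Pi.single E 1))
    {x : Finset V → k} (hx : ∀ E, x E ≠ 0 → A E) : f x = g x := by
  rw [← Finset.univ_sum_single x, map_sum, map_sum]
  refine Finset.sum_congr rfl fun E _ => ?_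
  by_cases e : x E = 0
  · simp [e]
  rw [show (Pi.single E (x E) : Finset V → k) = x E • Pi.single E 1 by simp [← Pi.single_smul],
    map_smul, map_smul, h E (hx E e)]

variable {R : Type} [CommRing R] {Y : Type} [AddCommGroup Y] [Module R Y] [Module k Y]
  [SMulCommClass R k Y]

lemma xt_del {A : Finset V → Prop} {f : (Finset V → k) →ₗ[k] (Finset U → k)}
    (h : ∀ E, A E → f (del k (Pi.single E 1)) = del k (f (Pi.single E 1))) {x : Finset V → Y}
    (hx : ∀ E, x E ≠ 0 → A E) : xt R f (del R x) = del R (xt R f x) := by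
  refine funext fun T => eq_of_dual (K := k) fun l => ?_
  rw [map_del (S := k)]
  simp only [map_xt (S := k), xt_self, map_del (S := k)]
  exact congrFun (lin_supp (f := f ∘ₗ del k) (g := del k ∘ₗ f) h
    fun E e => hx E fun e2 => e (by simp [e2])) T

/-- The algebraic data attached to a subdivision. -/
structure Sd (Δ : Finset V → Prop) (Γ : Finset U → Prop) (σ : Finset U → Finset V) (f : U → V)
    (L : (Finset U → k) →ₗ[k] (Finset V → k)) (Ψ : (Finset V → k) →ₗ[k] (Finset U → k))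
    (s : (Finset U → k) →ₗ[k] (Finset U → k)) : Prop where
  hΔ : ∀ G H, G ⊆ H → Δ H → Δ G
  hΓ : ∀ G H, G ⊆ H → Γ H → Γ G
  hσ : ∀ G H, G ⊆ H → Γ H → σ G ⊆ σ H
  mem : ∀ G, Γ G → Δ (σ G)
  lab : ∀ G, Γ G → G.image f ⊆ σ G
  l1 : ∀ x, L (del k x) = del k (L x)
  l2 : ∀ G T, L (Pi.single G 1) T ≠ 0 → T = G.image f ∧ T.card = G.card
  p1 : ∀ E, Δ E → Ψ (del k (Pi.single E 1)) = del k (Ψ (Pi.single E 1))
  p2 : ∀ E G, Δ E → Ψ (Pi.single E 1) G ≠ 0 → Γ G ∧ σ G ⊆ E ∧ G.card = E.card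
  p3 : ∀ E, Δ E → L (Ψ (Pi.single E 1)) = Pi.single E 1
  s1 : ∀ G H, Γ G → s (Pi.single G 1) H ≠ 0 → Γ H ∧ σ H ⊆ σ G ∧ H.card = G.card + 1
  s2 : ∀ G, Γ G → del k (s (Pi.single G 1)) + s (del k (Pi.single G 1)) =
    Pi.single G 1 - Ψ (L (Pi.single G 1))

variable {Δ : Finset V → Prop} {Γ : Finset U → Prop} {σ : Finset U → Finset V} {f : U → V}
  {L : (Finset U → k) →ₗ[k] (Finset V → k)} {Ψ : (Finset V → k) →ₗ[k] (Finset U → k)}
  {s : (Finset U → k) →ₗ[k] (Finset U → k)}

lemma Sd.L_del (h : Sd Δ Γ σ f L Ψ s) (x : Finset U → Y) : xt R L (del R x) = del R (xt R L x) :=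
  xt_del (A := fun _ => True) (fun _ _ => h.l1 _) fun _ _ => trivial

lemma Sd.P_del (h : Sd Δ Γ σ f L Ψ s) {x : Finset V → Y} (hx : ∀ E, x E ≠ 0 → Δ E) :
    xt R Ψ (del R x) = del R (xt R Ψ x) := xt_del h.p1 hx

lemma Sd.LP (h : Sd Δ Γ σ f L Ψ s) {x : Finset V → Y} (hx : ∀ E, x E ≠ 0 → Δ E) :
    xt R L (xt R Ψ x) = x := by
  refine funext fun T => eq_of_dual (K := k) fun l => ?_
  simp only [map_xt (S := k), xt_self]
  exact congrFun (lin_supp (f := L ∘ₗ Ψ) (g := LinearMap.id) h.p3 (x := fun G => l (x G))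
    fun E e => hx E fun e2 => e (by simp [e2])) T

lemma Sd.hom (h : Sd Δ Γ σ f L Ψ s) {x : Finset U → Y} (hx : ∀ E, x E ≠ 0 → Γ E) :
    del R (xt R s x) + xt R s (del R x) = x - xt R Ψ (xt R L x) := by
  refine funext fun T => eq_of_dual (K := k) fun l => ?_
  rw [Pi.add_apply, Pi.sub_apply, map_add, map_sub, map_del (S := k)]
  simp only [map_xt (S := k), xt_self, map_del (S := k)]
  exact congrFun (lin_supp (f := del k ∘ₗ s + s ∘ₗ del k) (g := LinearMap.id - Ψ ∘ₗ L) h.s2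
    (x := fun G => l (x G)) fun E e => hx E fun e2 => e (by simp [e2])) T

lemma Sd.L_ne (h : Sd Δ Γ σ f L Ψ s) {x : Finset U → Y} {T : Finset V} (e : xt R L x T ≠ 0) :
    ∃ G, x G ≠ 0 ∧ T = G.image f ∧ T.card = G.card := by
  obtain ⟨G, a, b⟩ := xt_ne e
  exact ⟨G, a, h.l2 G T b⟩

lemma Sd.P_ne (h : Sd Δ Γ σ f L Ψ s) {x : Finset V → Y} (hx : ∀ E, x E ≠ 0 → Δ E) {G : Finset U}
    (e : xt R Ψ x G ≠ 0) : ∃ E, x E ≠ 0 ∧ Γ G ∧ σ G ⊆ E ∧ G.card = E.card := by
  obtain ⟨E, a, b⟩ := xt_ne e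
  exact ⟨E, a, h.p2 E G (hx E a) b⟩

lemma Sd.s_ne (h : Sd Δ Γ σ f L Ψ s) {x : Finset U → Y} (hx : ∀ E, x E ≠ 0 → Γ E) {H : Finset U}
    (e : xt R s x H ≠ 0) : ∃ G, x G ≠ 0 ∧ Γ H ∧ σ H ⊆ σ G ∧ H.card = G.card + 1 := by
  obtain ⟨E, a, b⟩ := xt_ne e
  exact ⟨E, a, h.s1 E H (hx E a) b⟩

def St' (Γ : Finset U → Prop) (f : U → V) (F : Finset V) (G : Finset U) : Prop :=
  Γ G ∧ F ⊆ G.image f

lemma Sd.cvx (h : Sd Δ Γ σ f L Ψ s) (F : Finset V) : Cvx (St' Γ f F) :=
  fun _ _ _ h1 h2 a c => ⟨h.hΓ _ _ h2 c.1, a.2.trans (Finset.image_subset_image h1)⟩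

lemma Sd.L_prj (h : Sd Δ Γ σ f L Ψ s) (F : Finset V) {x : Finset U → Y} (hx : ∀ E, x E ≠ 0 → Γ E) :
    xt R L (prj R (St' Γ f F) x) = prj R (St Δ F) (xt R L x) := by
  funext T
  rw [prj_apply, xt_apply, xt_apply]
  split_ifs with hT
  · refine Finset.sum_congr rfl fun G _ => ?_
    rw [prj_apply]
    split_ifs with hG
    · rfl
    · by_contra e
      rw [smul_zero] at e
      exact hG ⟨hx G (right_ne_zero_of_smul (Ne.symm e)),
        (h.l2 G T (left_ne_zero_of_smul (Ne.symm e))).1 ▸ hT.2⟩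
  · refine Finset.sum_eq_zero fun G _ => ?_
    rw [prj_apply]
    split_ifs with hG
    · by_contra e
      rw [(h.l2 G T (left_ne_zero_of_smul e)).1] at hT
      exact hT ⟨h.hΔ _ _ (h.lab G hG.1) (h.mem G hG.1), hG.2⟩
    · simp

lemma del_supp {A : Finset V → Prop} (hA : ∀ G H, G ⊆ H → A H → A G) {x : Finset V → Y}
    (hx : ∀ E, x E ≠ 0 → A E) (E : Finset V) (e : del R x E ≠ 0) : A E := by
  obtain ⟨j, -, e2⟩ := del_ne e
  exact hA _ _ (Finset.subset_insert _ _) (hx _ e2)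

lemma Sd.L_bd (h : Sd Δ Γ σ f L Ψ s) (F : Finset V) {x : Finset U → Y} (hx : ∀ E, x E ≠ 0 → Γ E) :
    xt R L (bd R (St' Γ f F) x) = bd R (St Δ F) (xt R L x) := by
  rw [bd, bd, End.mul_apply, End.mul_apply, h.L_prj F (del_supp h.hΓ hx), h.L_del]

end

end Pool.Agent.H28.Mon
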