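import Pool.Agent.H28.Mon4

namespace Pool.Agent.H28.Mon

open Module Classical
open Pool.Agent.H28.Sub (Ex SES fr_split euler)

section cm
variable {R S : Type} [CommRing R] [CommRing S] {U : Type} {d : ℕ}

def cm (g : R →+* S) (x : Finset U → Finset (Fin d) → R) : Finset U → Finset (Fin d) → S :=
  fun G T => g (x G T)

lemma cm_prj (g : R →+* S) (A : Finset U → Prop) (x : Finset U → Finset (Fin d) → R) :
    cm g (prj R A x) = prj S A (cm g x) := by
  funext G T
  simp only [cm, prj_apply]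
  split_ifs <;> simp [cm]

lemma cm_mem (g : R →+* S) {V W : Type} {p : V → Fin d → R} {q : W → Fin d → S} {r m : ℤ}
    {A : Finset U → Prop} {J : Finset U → Finset V} {J' : Finset U → Finset W}
    (h : ∀ G, ∀ w ∈ J' G, ∃ v ∈ J G, q w = fun i => g (p v i))
    {x : Finset U → Finset (Fin d) → R} (hx : x ∈ CS A (fun G => FJ p r (J G)) m) :
    cm g x ∈ CS A (fun G => FJ q r (J' G)) m := by
  intro G
  have h1 := mem_fj.1 (hx G).1
  refine ⟨mem_fj.2 ⟨fun T e => h1.1 T fun e2 => e (by simp [cm, e2]), fun w hw => ?_⟩,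
    fun e => (hx G).2 fun e2 => e (by funext T; simp [cm, e2])⟩
  obtain ⟨v, hv, e⟩ := h G w hw
  rw [e]
  refine (map_con g (p v) (x G)).symm.trans ?_
  funext T
  simp [h1.2 v hv]

variable [LinearOrder U] [Fintype U]

lemma cm_del (g : R →+* S) (x : Finset U → Finset (Fin d) → R) :
    cm g (del R x) = del S (cm g x) :=
  funext fun G => map_del (S := S) (g.toAddMonoidHom.compLeft (Finset (Fin d))) x G

lemma cm_bd (g : R →+* S) (A : Finset U → Prop) (x : Finset U → Finset (Fin d) → R) :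
    cm g (bd R A x) = bd S A (cm g x) :=
  funext fun G => map_bd (S := S) (g.toAddMonoidHom.compLeft (Finset (Fin d))) A x G

lemma cm_xt {k W : Type} [Field k] [Algebra k R] [Algebra k S] (g : R →+* S)
    (hg : ∀ (a : k) (y : R), g (a • y) = a • g y) (f : (Finset U → k) →ₗ[k] (Finset W → k))
    (x : Finset U → Finset (Fin d) → R) : cm g (xt R f x) = xt S f (cm g x) := by
  funext G T
  simp [cm, xt_apply, Finset.sum_apply, hg]

end cm

variable {k : Type} [Field k] {V U : Type} [LinearOrder V] [Fintype V] [LinearOrder U] [Fintype U]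
  {Δ : Finset V → Prop} {Γ : Finset U → Prop} {σ : Finset U → Finset V} {f : U → V}
  {L : (Finset U → k) →ₗ[k] (Finset V → k)} {Ψ : (Finset V → k) →ₗ[k] (Finset U → k)}
  {s : (Finset U → k) →ₗ[k] (Finset U → k)}
  {K O : Type} [Field K] [CommRing O] [Algebra k K] [Algebra K O] [Algebra k O]
  [IsScalarTower k K O] {d : ℕ} {p : V → Fin d → K} {p' : U → Fin d → O} (ρ : O →ₐ[K] K)

lemma rho_smul (a : k) (y : O) : (ρ : O →+* K) (a • y) = a • (ρ : O →+* K) y := by
  rw [← algebraMap_smul K a y, ← algebraMap_smul K a]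
  exact map_smul ρ _ _

lemma liftC (h : Sd Δ Γ σ f L Ψ s) (F : Finset V) {r m : ℤ} {x : Finset V → Finset (Fin d) → K}
    (hx : x ∈ CS (St Δ F) (fun _ => FJ p r ∅) m) (e : bd K (St Δ F) x = 0) :
    ∃ x' ∈ CS (St' Γ f F) (fun _ => FJ p' r ∅) m, bd O (St' Γ f F) x' = 0 ∧
      xt K L (cm (ρ : O →+* K) x') = x := by
  have hy := cm_mem (algebraMap K O) (q := p') (J' := fun _ => ∅) (by simp) hx
  have sy : ∀ E, cm (algebraMap K O) x E ≠ 0 → Δ E := fun E e => ((hy E).2 e).1.1
  have sx : ∀ E, x E ≠ 0 → Δ E := fun E e => ((hx E).2 e).1.1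
  have m1 : xt O Ψ (cm (algebraMap K O) x) ∈ CS Γ (fun _ => FJ p' r ∅) m := fun G =>
    ⟨xt_val (fun E => (hy E).1) G, fun e2 => by
      obtain ⟨E, a, b, -, c⟩ := h.P_ne sy e2
      exact ⟨b, c ▸ ((hy E).2 a).2⟩⟩
  refine ⟨_, prj_mem m1, funext fun G => ?_, ?_⟩
  · rw [bd_apply]
    split_ifs with hG
    · rw [del_congr (y := xt O Ψ (cm (algebraMap K O) x)) fun j _ => ?_, ← h.P_del sy, ← cm_del]
      · by_contra e2
        obtain ⟨E, a, b, c, -⟩ := h.P_ne (cm_del (algebraMap K O) x ▸ del_supp h.hΔ sy) e2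
        have h1 : del K x E ≠ 0 := fun e3 => a (by funext T; simp [cm, e3])
        have h2 := congrFun e E
        rw [bd_apply, if_pos ⟨del_supp h.hΔ sx E h1, hG.2.trans ((h.lab G b).trans c)⟩] at h2
        exact h1 h2
      · rw [prj_apply]
        split_ifs with h1
        · rfl
        · by_contra e2
          exact h1 ⟨((m1 _).2 (Ne.symm e2)).1,
            hG.2.trans (Finset.image_subset_image (Finset.subset_insert _ _))⟩
    · rfl
  · have e1 : cm (ρ : O →+* K) (cm (algebraMap K O) x) = x := by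
      funext G T
      simp [cm]
    rw [cm_prj, cm_xt _ (rho_smul ρ), e1, h.L_prj F fun G e2 => (h.P_ne sx e2).choose_spec.2.1,
      h.LP sx]
    funext G
    rw [prj_apply]
    split_ifs with h1
    · rfl
    · by_contra e2
      exact h1 ((hx G).2 (Ne.symm e2)).1

variable (Δ Γ f L p p') in
def LZ (r : ℤ) : Prop := ∀ F : Finset V, F.Nonempty → ∀ i : ℤ, i + r = d →
  ∀ x ∈ CS (St Δ F) (fun G => FJ p r G) i, bd K (St Δ F) x = 0 →
    ∃ x' ∈ CS (St' Γ f F) (fun G => FJ p' r G) i, bd O (St' Γ f F) x' = 0 ∧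
      xt K L (cm (ρ : O →+* K) x') = x

variable (Δ Γ f L p p') in
def LX (r : ℤ) : Prop := ∀ F : Finset V, ∀ i : ℤ, i + r = d →
  ∀ x ∈ CS (St Δ F) (fun _ => FJ p r ∅) (i + 1), bd K (St Δ F) x ∈ CS (St Δ F) (fun G => FJ p r G) i →
    ∃ x' ∈ CS (St' Γ f F) (fun _ => FJ p' r ∅) (i + 1),
      bd O (St' Γ f F) x' ∈ CS (St' Γ f F) (fun G => FJ p' r G) i ∧ xt K L (cm (ρ : O →+* K) x') = x

lemma lx_step (h : Sd Δ Γ σ f L Ψ s) (hp : ∀ G, Δ G → Ind p G) (hL : LC Δ p)
    (hρ : ∀ v i, ρ (p' v i) = p (f v) i)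
    (hO : ∀ G, Γ G → ∀ j, ∃ a : Fin d → O, ∀ v ∈ G, ∑ i, p' v i * a i = if f v = j then 1 else 0)
    (r : ℕ) (hZ : LZ Δ Γ f L p p' ρ r) : LX Δ Γ f L p p' ρ (r + 1) := by
  intro F i hi x0 h0 hb
  obtain ⟨x, hx, e0, hW⟩ := elem h.hΔ hp hL F (by omega) h0
    (fun G a ha => (mem_fj.1 (hb G).1).2 a ha) Finset.univ
  have k1 : ∀ j, ∃ y ∈ CS (St' Γ f (insert j F)) (fun G => FJ p' r G) (i + 1),
      bd O (St' Γ f (insert j F)) y = 0 ∧ xt K L (cm (ρ : O →+* K) y) = piV p j x := by
    intro j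
    refine hZ _ (by simp) _ (by omega) _ (fun G => ?_) ?_
    · have := piV_mem j (J := fun _ => ∅) (J' := fun _ => ∅) (by simp) hx G
      refine ⟨mem_fj.2 ⟨(mem_fj.1 this.1).1, fun b hb => ?_⟩, this.2⟩
      rw [piV_apply]
      split_ifs with h1
      · exact hW G j (by simp [h1]) b (by simp [hb])
      · simp
    · rw [bd_piV, e0]
      funext G
      rw [piV_apply]
      split_ifs with h1
      · exact (mem_fj.1 (hb G).1).2 j h1
      · rfl
  choose y y1 y2 y3 using k1
  choose! a ha using hO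
  let x' : Finset U → Finset (Fin d) → O := fun G => ∑ j, mul (a G j) (y j G)
  have hx' : x' ∈ CS (St' Γ f F) (fun _ => FJ p' (r + 1) ∅) (i + 1) := by
    intro G
    refine ⟨Submodule.sum_mem _ fun j _ => mem_fj.2
      ⟨mul_deg _ (mem_fj.1 (y1 j G).1).1, by simp⟩, fun e => ?_⟩
    obtain ⟨j, -, e2⟩ := Finset.exists_ne_zero_of_sum_ne_zero e
    have := (y1 j G).2 fun e3 => e2 (by simp [e3])
    exact ⟨⟨this.1.1, (Finset.subset_insert _ _).trans this.1.2⟩, this.2⟩
  have key : ∀ G, ∀ v ∈ G, con (p' v) (x' G) = y (f v) G := by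
    intro G v hv
    have : ∀ j, con (p' v) (mul (a G j) (y j G)) = if f v = j then y j G else 0 := by
      intro j
      by_cases e : y j G = 0
      · simp [e]
      rw [con_mul, ha G ((y1 j G).2 e).1.1 j v hv, (mem_fj.1 (y1 j G).1).2 v hv]
      split_ifs <;> simp
    simp [x', this]
  have m1 := cm_mem (ρ : O →+* K) (q := p) (J' := fun _ => ∅) (by simp) hx'
  have e1 : xt K L (cm (ρ : O →+* K) x') = x := by
    funext T
    by_cases hT : Δ T ∧ (T.card : ℤ) = i + 1
    · have h1 := ((fr_fj (hp T hT.1) T le_rfl).2 (r + 1))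
      rw [Nat.choose_eq_zero_of_lt (by omega), Submodule.finrank_eq_zero] at h1
      have h2 : xt K L (cm (ρ : O →+* K) x') T - x T ∈ FJ p (r + 1 : ℕ) T := by
        have h3 := sub_mem (xt_val (f := L) (fun G => (m1 G).1) T) (hx T).1
        refine mem_fj.2 ⟨(mem_fj.1 h3).1, fun j hj => ?_⟩
        have h4 := congrFun (y3 j) T
        rw [piV_apply, if_pos hj] at h4
        rw [map_sub, ← h4, xt_apply, xt_apply, map_sum, sub_eq_zero]
        refine Finset.sum_congr rfl fun G _ => ?_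
        by_cases e : L (Pi.single G 1) T = 0
        · simp [e]
        rw [(h.l2 G T e).1] at hj
        obtain ⟨v, hv, rfl⟩ := Finset.mem_image.1 hj
        rw [LinearMap.map_smul_of_tower]
        congr 1
        have := map_con (ρ : O →+* K) (p' v) (x' G)
        rw [key G v hv] at this
        refine Eq.trans ?_ this.symm
        congr 2
        funext i
        exact (hρ v i).symm
      rwa [h1, Submodule.mem_bot, sub_eq_zero] at h2
    · have h1 : x T = 0 := by
        by_contra e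
        exact hT ⟨((hx T).2 e).1.1, ((hx T).2 e).2⟩
      rw [h1]
      by_contra e
      obtain ⟨G, a1, a2, a3⟩ := h.L_ne e
      have := (m1 G).2 a1
      exact hT ⟨a2 ▸ h.hΔ _ _ (h.lab G this.1.1) (h.mem G this.1.1), a3 ▸ this.2⟩
  obtain ⟨z, z1, z2, z3⟩ := liftC (p' := p') ρ h F (sub_mem h0 hx) (by rw [map_sub, e0, sub_self])
  refine ⟨x' + z, add_mem hx' z1, fun G => ?_, ?_⟩
  · rw [map_add, z2, add_zero]
    have := bd_mem antitone_const _ _ hx' G
    refine ⟨mem_fj.2 ⟨(mem_fj.1 this.1).1, fun v hv => ?_⟩, this.2⟩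
    rw [bd_apply]
    split_ifs with hG
    · have h1 := congrFun (y2 (f v)) G
      rw [bd_apply, if_pos ⟨hG.1, Finset.insert_subset (Finset.mem_image_of_mem f hv) hG.2⟩] at h1
      rw [map_del (S := O), del_congr (y := y (f v)) fun j _ => key _ v (by simp [hv]), h1]
      rfl
    · simp
  · have : cm (ρ : O →+* K) (x' + z) = cm (ρ : O →+* K) x' + cm (ρ : O →+* K) z := by
      funext G T
      simp [cm]
    rw [this, map_add, e1, z3, add_sub_cancel]

lemma lx_all (h : Sd Δ Γ σ f L Ψ s) (hp : ∀ G, Δ G → Ind p G) (hL : LC Δ p)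
    (hρ : ∀ v i, ρ (p' v i) = p (f v) i)
    (hO : ∀ G, Γ G → ∀ j, ∃ a : Fin d → O, ∀ v ∈ G, ∑ i, p' v i * a i = if f v = j then 1 else 0)
    (r : ℕ) : LX Δ Γ f L p p' ρ r := by
  have key : ∀ r : ℕ, LZ Δ Γ f L p p' ρ r := by
    intro r
    induction r with
    | zero =>
      intro F _ i _ x hx e
      obtain ⟨z, z1, z2⟩ := liftC (p := p) (p' := p') ρ h F
        (cs_mono hx (fun _ h => h) fun G => fj_mono _ _ (Finset.empty_subset _)) e
      exact ⟨z, cs_mono z1 (fun _ h => h) fun G => (fj_zero p' G).ge, z2⟩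
    | succ r ih =>
      intro F hF i hi x hx e
      push_cast at hi hx ⊢
      obtain ⟨y, hy, rfl⟩ := hL F hF _ i (by omega) x
        (cs_mono hx (fun _ h => h) fun G => fj_mono _ _ (Finset.empty_subset _)) e
      obtain ⟨z, z1, z2, z3⟩ := lx_step ρ h hp hL hρ hO r ih F i hi y hy hx
      refine ⟨_, z2, bd_bd (h.cvx F) _ _ z1, ?_⟩
      have m1 := cm_mem (ρ : O →+* K) (q := p) (J' := fun _ => ∅) (by simp) z1
      rw [cm_bd, h.L_bd F fun G e => ((m1 G).2 e).1.1, z3]
  rcases r with _ | r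
  · intro F i hi x hx _
    refine ⟨0, zero_mem _, by simp, funext fun G => ?_⟩
    have : x G = 0 := by
      by_contra e
      have h1 := (hx G).2 e
      have := (fr_fj (hp G h1.1.1) G le_rfl).1
      omega
    rw [this]
    by_contra e
    obtain ⟨H, a, -⟩ := h.L_ne e
    exact a (by funext T; simp [cm])
  · exact_mod_cast lx_step ρ h hp hL hρ hO r (key r)

end Pool.Agent.H28.Mon
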