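import Pool.Agent.H28.Mon5

namespace Pool.Agent.H28.Mon

open Module Classical
open Pool.Agent.H28.Sub (Ex SES fr_split euler)

open Polynomial in
lemma interp {R U : Type} [CommRing R] [Nontrivial R] {d : ℕ} (τ : U → R) (G : Finset U)
    (hG : G.card ≤ d) (c : U → Prop) [DecidablePred c]
    (hu : ∀ v ∈ G, ∀ w ∈ G, c v → ¬ c w → IsUnit (τ w - τ v)) :
    ∃ a : Fin d → R, ∀ v ∈ G, ∑ i : Fin d, τ v ^ (i : ℕ) * a i = if c v then 1 else 0 := by
  let P : R[X] := ∏ w ∈ G with ¬ c w, (X - C (τ w))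
  let Q : R[X] := ∏ w ∈ G with c w, (X - C (τ w))
  obtain ⟨u, w, e⟩ : IsCoprime P Q := IsCoprime.prod_left fun w hw => IsCoprime.prod_right
    fun v hv => isCoprime_X_sub_C_of_isUnit_sub (hu v (Finset.mem_filter.1 hv).1 w
      (Finset.mem_filter.1 hw).1 (Finset.mem_filter.1 hv).2 (Finset.mem_filter.1 hw).2)
  let M : R[X] := ∏ w ∈ G, (X - C (τ w))
  have hM : M.Monic := monic_prod_X_sub_C _ _
  have h1 := degree_modByMonic_lt (u * P) hM
  rw [degree_eq_natDegree hM.ne_zero, natDegree_finsetProd_X_sub_C_eq_card] at h1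
  refine ⟨fun i => ((u * P) %ₘ M).coeff i, fun v hv => ?_⟩
  have h2 : ((u * P) %ₘ M).natDegree < d := by
    have := Finset.card_pos.2 ⟨v, hv⟩
    by_cases e : (u * P) %ₘ M = 0
    · rw [e, natDegree_zero]
      omega
    · exact ((natDegree_lt_iff_degree_lt e).2 h1).trans_le hG
  have h3 : M.eval (τ v) = 0 := by
    rw [eval_prod]
    exact Finset.prod_eq_zero hv (by simp)
  have h4 := congrArg (eval (τ v)) (modByMonic_add_div (u * P) M)
  rw [eval_add, eval_mul, h3, zero_mul, add_zero, eval_eq_sum_range' h2, Finset.sum_range] at h4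
  simp only [mul_comm (τ v ^ _)]
  rw [h4]
  split_ifs with h
  · have h5 : Q.eval (τ v) = 0 := by
      rw [eval_prod]
      exact Finset.prod_eq_zero (i := v) (by simp [hv, h]) (by simp)
    simpa [h5] using congrArg (eval (τ v)) e
  · have h5 : P.eval (τ v) = 0 := by
      rw [eval_prod]
      exact Finset.prod_eq_zero (i := v) (by simp [hv, h]) (by simp)
    simp [h5]

open PowerSeries in
lemma semi {K ι U : Type} [Field K] [Fintype ι] {d : ℕ} (x : ι → Finset U → Finset (Fin d) → K⟦X⟧)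
    (h : LinearIndependent K fun a => cm (constantCoeff (R := K)) (x a)) :
    LinearIndependent (FractionRing K⟦X⟧)
      fun a => cm (algebraMap K⟦X⟧ (FractionRing K⟦X⟧)) (x a) := by
  rw [← LinearIndependent.iff_fractionRing K⟦X⟧, Fintype.linearIndependent_iff] at *
  have key : ∀ n : ℕ, ∀ c : ι → K⟦X⟧, ∑ a, c a • x a = 0 → ∀ a, coeff n (c a) = 0 := by
    have h0 : ∀ c : ι → K⟦X⟧, ∑ a, c a • x a = 0 → ∀ a, constantCoeff (c a) = 0 := by
      intro c e
      refine h (fun a => constantCoeff (c a)) ?_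
      funext G T
      have := congrArg (constantCoeff (R := K)) (congrFun (congrFun e G) T)
      simpa [Finset.sum_apply, cm] using this
    intro n
    induction n with
    | zero => simpa using h0
    | succ n ih =>
      intro c e a
      choose c' hc using fun a => X_dvd_iff.2 (h0 c e a)
      rw [hc, coeff_succ_X_mul]
      refine ih c' ?_ a
      funext G T
      have := congrFun (congrFun e G) T
      simp only [hc, Finset.sum_apply, Pi.smul_apply, smul_eq_mul, mul_assoc, ← Finset.mul_sum,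
        Pi.zero_apply, mul_eq_zero, X_ne_zero, false_or] at this ⊢
      exact this
  intro c e a
  ext n
  refine key n c ?_ a
  funext G T
  apply IsFractionRing.injective K⟦X⟧ (FractionRing K⟦X⟧)
  have := congrFun (congrFun e G) T
  simpa [Finset.sum_apply, cm, Algebra.smul_def] using this

noncomputable def hn {V : Type} [Fintype V] (A : Finset V → Prop) (d i : ℕ) : ℤ :=
  ∑ m ∈ Finset.range (i + 1), (-1 : ℤ) ^ (i - m) * ((d - m).choose (i - m) : ℕ) *
    ((Finset.univ.filter fun G => A G ∧ G.card = m).card : ℤ)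

lemma hn_eq {K V : Type} [Field K] [LinearOrder V] [Fintype V] {d : ℕ} {Δ : Finset V → Prop}
    {p : V → Fin d → K} (hΔ : ∀ G H, G ⊆ H → Δ H → Δ G) (hp : ∀ G, Δ G → Ind p G) (hL : LC Δ p)
    (i r : ℕ) (hr : i + r = d) : hn Δ d i = finrank K (XX Δ p Finset.univ r i) -
      ∑ m ∈ Finset.range (i + 1 + 1), (-1 : ℤ) ^ (i + 1 - m) *
        (((Finset.univ.filter fun G => Δ G ∧ G.card = m).card * d.choose r : ℕ) : ℤ) := by
  have h := formula hΔ hp hL i r (by omega) Finset.univ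
  have e : St Δ ∅ = Δ := by
    funext G
    simp [St]
  have h1 : ∀ m : ℕ, finrank K (CS (St Δ ∅) (fun G => FJ p r (G ∩ Finset.univ)) m) =
      (Finset.univ.filter fun G => Δ G ∧ G.card = m).card * (d - m).choose r := by
    intro m
    rw [fr_cs, e, Finset.sum_congr rfl (g := fun _ => (d - m).choose r), Finset.sum_const,
      smul_eq_mul]
    intro G hG
    have := (Finset.mem_filter.1 hG).2
    rw [(fr_fj (hp G this.1) _ Finset.inter_subset_left).2, Finset.inter_univ, this.2]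
  have h2 : ∀ m : ℕ, finrank K (CS (St Δ ∅) (fun _ => FJ p r ∅) m) =
      (Finset.univ.filter fun G => Δ G ∧ G.card = m).card * d.choose r := by
    intro m
    rw [fr_cs, e, Finset.sum_const, smul_eq_mul, (fr_fj (G := ∅) (by simp [Ind]) _ le_rfl).2]
    simp
  simp only [h1, h2] at h
  rw [← h, sub_sub_cancel, hn]
  refine Finset.sum_congr rfl fun m hm => ?_
  have := Finset.mem_range.1 hm
  rw [← Nat.choose_symm (show i - m ≤ d - m by omega), show d - m - (i - m) = r by omega]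
  push_cast
  ring

variable {k : Type} [Field k] {V U : Type} [LinearOrder V] [Fintype V] [LinearOrder U] [Fintype U]
  {Δ : Finset V → Prop} {Γ : Finset U → Prop} {σ : Finset U → Finset V} {f : U → V}
  {L : (Finset U → k) →ₗ[k] (Finset V → k)} {Ψ : (Finset V → k) →ₗ[k] (Finset U → k)}
  {s : (Finset U → k) →ₗ[k] (Finset U → k)}

lemma ker_dim {K Y : Type} [Field K] [Algebra k K] [AddCommGroup Y] [Module K Y] [Module k Y]
    [IsScalarTower k K Y] [SMulCommClass K k Y] [FiniteDimensional K Y] (h : Sd Δ Γ σ f L Ψ s)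
    (P : Submodule K Y) (i : ℕ) :
    (finrank K ((CS Γ (fun _ => P) i ⊓ LinearMap.ker (xt K L)) ⊓ LinearMap.ker (bd K Γ) :
      Submodule K (Finset U → Y)) : ℤ) = ∑ m ∈ Finset.range (i + 1), (-1 : ℤ) ^ (i - m) *
        (((Finset.univ.filter fun G => Γ G ∧ G.card = m).card * finrank K P : ℕ) -
          ((Finset.univ.filter fun G => Δ G ∧ G.card = m).card * finrank K P : ℕ)) := by
  have mL : ∀ m, ∀ x ∈ CS Γ (fun _ => P) m, xt K L x ∈ CS Δ (fun _ => P) m := fun m x hx T =>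
    ⟨xt_val (fun G => (hx G).1) T, fun e => by
      obtain ⟨G, a, b, c⟩ := h.L_ne e
      have := (hx G).2 a
      exact ⟨b ▸ h.hΔ _ _ (h.lab G this.1) (h.mem G this.1), c ▸ this.2⟩⟩
  have mP : ∀ m, ∀ x ∈ CS Δ (fun _ => P) m, xt K Ψ x ∈ CS Γ (fun _ => P) m := fun m x hx T =>
    ⟨xt_val (fun G => (hx G).1) T, fun e => by
      obtain ⟨G, a, b, -, c⟩ := h.P_ne (fun E e => ((hx E).2 e).1) e
      exact ⟨b, c ▸ ((hx G).2 a).2⟩⟩
  rw [← euler (D := bd K Γ) (A := fun m => CS Γ (fun _ => P) m ⊓ LinearMap.ker (xt K L))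
    (fun m x hx => ⟨bd_mem antitone_const _ _ hx.1, ?_⟩)
    (fun m x hx => bd_bd (fun _ _ _ _ a _ b => h.hΓ _ _ a b) m x hx.1)
    (by rw [cs_neg _ _ (by simp), bot_inf_eq]) i fun m _ x hx e => ?_]
  · refine Finset.sum_congr rfl fun m _ => ?_
    have h1 := fr_split (xt K L) (CS Γ (fun _ => P) m)
    have h2 : (CS Γ (fun _ => P) m).map (xt K L) = CS Δ (fun _ => P) m := by
      ext y
      exact ⟨fun ⟨x, hx, e⟩ => e ▸ mL _ x hx, fun hy => ⟨_, mP _ y hy, h.LP fun E e => ((hy E).2 e).1⟩⟩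
    rw [h2, fr_cs, fr_cs, Finset.sum_const, Finset.sum_const, smul_eq_mul, smul_eq_mul] at h1
    rw [h1]
    push_cast
    ring
  · have : xt K L x = 0 := hx.2
    rw [SetLike.mem_coe, LinearMap.mem_ker, bd_down h.hΓ hx.1, h.L_del, this, map_zero]
  · have e0 : xt K L x = 0 := hx.2
    have sx : ∀ E, x E ≠ 0 → Γ E := fun E e => ((hx.1 E).2 e).1
    rw [bd_down h.hΓ hx.1] at e
    have h1 := h.hom (R := K) sx
    rw [e, e0, map_zero, map_zero, add_zero, sub_zero] at h1
    have m1 : xt K s x ∈ CS Γ (fun _ => P) (m + 1) := fun T =>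
      ⟨xt_val (fun G => (hx.1 G).1) T, fun e => by
        obtain ⟨G, a, b, -, c⟩ := h.s_ne sx e
        have := ((hx.1 G).2 a).2
        exact ⟨b, by omega⟩⟩
    have sL := fun E e => ((mL _ _ m1 E).2 e).1
    have m2 := sub_mem m1 (mP _ _ (mL _ _ m1))
    refine ⟨_, ⟨m2, ?_⟩, ?_⟩
    · rw [SetLike.mem_coe, LinearMap.mem_ker, map_sub, h.LP sL, sub_self]
    · rw [bd_down h.hΓ m2, map_sub, ← h.P_del sL, ← h.L_del, h1, e0, map_zero, sub_zero]

lemma alg0 {K O Q : Type} [Field K] [CommRing O] [Field Q] [Algebra k K] [Algebra K O] [Algebra k O]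
    [IsScalarTower k K O] [Algebra k Q] (g : O →+* Q) (ρ : O →ₐ[K] K) (h : Sd Δ Γ σ f L Ψ s)
    {d : ℕ} {p : V → Fin d → K} {p' : U → Fin d → O} {q : U → Fin d → Q}
    (hp : ∀ G, Δ G → Ind p G) (hq : ∀ G, Γ G → Ind q G) (hρ : ∀ v i, ρ (p' v i) = p (f v) i)
    (hO : ∀ G, Γ G → ∀ j, ∃ a : Fin d → O, ∀ v ∈ G, ∑ i, p' v i * a i = if f v = j then 1 else 0)
    (hg : ∀ v, q v = fun i => g (p' v i))
    (hs : ∀ (n : ℕ) (x : Fin n → Finset U → Finset (Fin d) → O),
      (LinearIndependent K fun a => cm (ρ : O →+* K) (x a)) → LinearIndependent Q fun a => cm g (x a))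
    (h1 : ∀ F : Finset V, F.Nonempty → ∀ m : ℤ, m < d → FEx k (St Δ F) m)
    (h2 : ∀ F : Finset U, F.Nonempty → ∀ m : ℤ, m < d → FEx k (St Γ F) m) (i : ℕ) (hi : i ≤ d) :
    hn Δ d i ≤ hn Γ d i := by
  obtain ⟨r, hr⟩ := Nat.exists_eq_add_of_le hi
  have hL : LC Δ p := fun F hF r m hm => ex_val (h1 F hF m hm) _
  have hL' : LC Γ q := fun F hF r m hm => ex_val (h2 F hF m hm) _
  have LX := lx_all ρ h hp hL hρ hO r ∅ i (by omega)
  have e1 : St' Γ f ∅ = Γ := by
    funext G
    simp [St']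
  have e2 : St Γ ∅ = Γ := by
    funext G
    simp [St]
  rw [e1] at LX
  let R : Submodule K (Finset U → Finset (Fin d) → K) :=
    { carrier := {y | ∃ x ∈ CS Γ (fun _ => FJ p' r ∅) (i + 1),
        bd O Γ x ∈ CS Γ (fun G => FJ p' r G) i ∧ cm (ρ : O →+* K) x = y}
      add_mem' := by
        rintro _ _ ⟨x, a, b, rfl⟩ ⟨y, c, e, rfl⟩
        exact ⟨x + y, add_mem a c, map_add (bd O Γ) x y ▸ add_mem b e, by
          funext G T
          simp [cm]⟩
      zero_mem' := ⟨0, zero_mem _, by simp, by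
        funext G T
        simp [cm]⟩
      smul_mem' := by
        rintro c _ ⟨x, a, b, rfl⟩
        exact ⟨algebraMap K O c • x, Submodule.smul_mem _ _ a,
          map_smul (bd O Γ) _ x ▸ Submodule.smul_mem _ _ b, by
          funext G T
          simp [cm]⟩ }
  have up : finrank K R ≤ finrank Q (XX Γ q Finset.univ r i) := by
    let b := Module.finBasis K R
    choose x x1 x2 x3 using fun a => (b a).2
    have h3 := hs _ x (by
      have := b.linearIndependent.map' R.subtype R.ker_subtype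
      rwa [show (R.subtype ∘ b) = fun a => cm (ρ : O →+* K) (x a) from
        funext fun a => (x3 a).symm] at this)
    have h4 : ∀ a, cm g (x a) ∈ XX Γ q Finset.univ r i := fun a => by
      rw [XX, e2]
      refine ⟨cm_mem _ (by simp) (x1 a), ?_⟩
      rw [SetLike.mem_coe, Submodule.mem_comap, ← cm_bd]
      exact cm_mem _ (fun G w hw => ⟨w, by simpa using hw, hg w⟩) (x2 a)
    simpa using (LinearIndependent.of_comp (XX Γ q Finset.univ r i).subtype
      (v := fun a => ⟨_, h4 a⟩) h3).fintype_card_le_finrank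
  have lo := fr_split (xt K L) R
  have l1 : XX Δ p Finset.univ r i ≤ R.map (xt K L) := fun x hx => by
    obtain ⟨y, a, b, c⟩ := LX x hx.1 (by simpa using hx.2)
    exact ⟨_, ⟨y, a, b, rfl⟩, c⟩
  have l2 : (CS Γ (fun _ => FJ p r ∅) (i + 1 : ℕ) ⊓ LinearMap.ker (xt K L)) ⊓
      LinearMap.ker (bd K Γ) ≤ R ⊓ LinearMap.ker (xt K L) := fun x hx => by
    refine ⟨⟨cm (algebraMap K O) x, cm_mem _ (by simp) hx.1.1, ?_, ?_⟩, hx.1.2⟩
    · have : bd K Γ x = 0 := hx.2
      have e : cm (algebraMap K O) (0 : Finset U → Finset (Fin d) → K) = 0 := by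
        funext G T
        simp [cm]
      rw [← cm_bd, this, e]
      exact zero_mem _
    · funext G T
      simp [cm]
  have l3 := Submodule.finrank_mono l1
  have l4 := Submodule.finrank_mono l2
  have l5 := ker_dim (K := K) h (FJ p r ∅) (i + 1)
  rw [(fr_fj (G := ∅) (by simp [Ind]) _ le_rfl).2] at l5
  simp only [Finset.card_empty, Nat.sub_zero, mul_sub, Finset.sum_sub_distrib] at l5
  rw [hn_eq h.hΔ hp hL i r hr.symm, hn_eq h.hΓ hq hL' i r hr.symm]
  omega

open PowerSeries in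
lemma alg1 (K : Type) [Field K] [Algebra k K] [Infinite K] (h : Sd Δ Γ σ f L Ψ s) (d : ℕ)
    (hd : ∀ G, Δ G → G.card ≤ d) (hd' : ∀ G, Γ G → G.card ≤ d)
    (h1 : ∀ F : Finset V, F.Nonempty → ∀ m : ℤ, m < d → FEx k (St Δ F) m)
    (h2 : ∀ F : Finset U, F.Nonempty → ∀ m : ℤ, m < d → FEx k (St Γ F) m) (i : ℕ) (hi : i ≤ d) :
    hn Δ d i ≤ hn Γ d i := by
  obtain ⟨τ, hτ⟩ : ∃ τ : V → K, Function.Injective τ :=
    ⟨_, (Infinite.natEmbedding K).injective.comp
      (Fin.val_injective.comp (Fintype.equivFin V).injective)⟩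
  obtain ⟨t, t0, ti⟩ : ∃ t : U → K⟦X⟧, (∀ v, constantCoeff (t v) = τ (f v)) ∧
      Function.Injective t := by
    refine ⟨fun v => C (τ (f v)) + X ^ ((Fintype.equivFin U v : ℕ) + 1), by simp, fun v w e => ?_⟩
    have := congrArg (coeff ((Fintype.equivFin U v : ℕ) + 1)) e
    simp only [map_add, coeff_succ_C, coeff_X_pow, if_true, zero_add] at this
    split_ifs at this with h3
    · exact (Fintype.equivFin U).injective (Fin.ext (by omega))
    · simp at this
  obtain ⟨ρ, hρ⟩ : ∃ ρ : K⟦X⟧ →ₐ[K] K, (ρ : K⟦X⟧ →+* K) = constantCoeff (R := K) :=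
    ⟨{ constantCoeff (R := K) with commutes' := fun a => by simp }, rfl⟩
  have hρ' : ∀ y, ρ y = constantCoeff y := fun y => by rw [← hρ]; rfl
  refine alg0 (algebraMap K⟦X⟧ (FractionRing K⟦X⟧)) ρ h (p := fun j i => τ j ^ (i : ℕ))
    (p' := fun j i => t j ^ (i : ℕ))
    (q := fun j i => algebraMap K⟦X⟧ (FractionRing K⟦X⟧) (t j) ^ (i : ℕ))
    (fun G hG v _ => interp τ G (hd G hG) (· = v)
      fun a _ b _ e1 e2 => (sub_ne_zero.2 fun e => e2 ((hτ e).trans e1)).isUnit)
    (fun G hG v _ => interp _ G (hd' G hG) (· = v) fun a _ b _ e1 e2 => (sub_ne_zero.2 fun e => e2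
      ((ti (IsFractionRing.injective K⟦X⟧ _ e)).trans e1)).isUnit)
    (fun v i => by simp [hρ', t0]) (fun G hG j => interp t G (hd' G hG) (f · = j)
      fun a _ b _ e1 e2 => isUnit_iff_constantCoeff.2 (by
        rw [map_sub, t0, t0]
        exact (sub_ne_zero.2 fun e => e2 ((hτ e).trans e1)).isUnit)) (fun v => by simp)
    (fun n x hx => semi x (hρ ▸ hx)) h1 h2 i hi

end Pool.Agent.H28.Mon
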