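import Pool.Agent.H28.Sub2

namespace Pool.Agent.H28.Mon

open Pool.Agent.H43.Orb Set Metric
open Pool.Agent.H28.Sub (Len proj proj_on proj_eq d_proj IE Cost bary bary_mem rr rr_den rr_mem
  rr_id cost_mono via ie_true)

def RIE {α : Type*} (F G : Set α → Prop) : Prop :=
  ∀ z ∈ On (Tup F), d z ∈ On (Tup G) → ∃ w ∈ On (Tup F), d w - z ∈ On (Tup G)

variable {V : Type} [Fintype V]

lemma compare2 [Nonempty V] : ∃ (v : (V → ℝ) → V) (δ : ℝ), 0 < δ ∧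
    (∀ F : Set V → Prop, (∀ A B, A ⊆ B → F B → F A) → F ∅ →
      ∀ c ∈ On (Sm δ (Rl F)), mp v c ∈ On (Tup F)) ∧
    ∀ ε > 0, ∃ sd : Ch V →ₗ[ℤ] Ch (V → ℝ), (∀ c, d (sd c) = sd (d c)) ∧
      ∀ F : Set V → Prop, (∀ A B, A ⊆ B → F B → F A) →
        (∀ c ∈ On (Tup F), sd c ∈ On (Sm ε (Rl F))) ∧
        ∀ z ∈ On (Tup F), d z = 0 → ∃ w ∈ On (Tup F), d w = mp v (sd z) - z := by
  obtain ⟨v, δ, hδ, hv⟩ := exists_vtx (V := V)
  refine ⟨v, δ, hδ, fun F hF h0 c hc => mp_on v (fun l hl => ?_) hc, fun ε hε => ?_⟩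
  · rcases l with _ | ⟨a, l⟩
    · simpa [Tup] using h0
    · refine hF _ _ (fun u hu => ?_) (hl.1 a (by simp)).2.2
      obtain ⟨x, hx, rfl⟩ := List.mem_map.1 hu
      exact hv x a (hl.1 x hx).2.1 (hl.2 x hx a (by simp))
  obtain ⟨sd, s0, s1, s2⟩ := exists_sd (V := V) hε
  refine ⟨sd, s2, fun F hF => ⟨fun c hc => ?_, fun z hz hd => ?_⟩⟩
  · refine lin_on (S := Tup F) _ (fun l hl => on_mono (sm_mono le_rfl ?_) (s1 l)) hc
    exact rl_mono fun A _ hA => hF A {v | v ∈ l} hA hl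
  · refine hom_id hF (mp v ∘ₗ sd) (fun c => by simp [d_mp, s2]) (fun l => ?_) (by simp [s0]) hz hd
    refine mp_on (T := {m | ∀ u ∈ m, u ∈ l}) v (fun m hm u hu => ?_) (s1 l)
    obtain ⟨x, hx, rfl⟩ := List.mem_map.1 hu
    exact (hm.1 x hx).2.2 (hv x x (hm.1 x hx).2.1 (by simpa))

theorem rie_retract [Nonempty V] {F G : Set V → Prop} (hF : ∀ A B, A ⊆ B → F B → F A)
    (hG : ∀ A B, A ⊆ B → G B → G A) (hG0 : G ∅) (hGF : ∀ A, G A → F A) (r : C(Rl F, Rl G))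
    (r1 : C(Rl G, Rl G)) (r2 : C(Rl F, Rl F))
    (e1 : ∀ x : Rl G, (r1 x).1 = (r ⟨x.1, rl_mono (fun A _ => hGF A) x.2⟩).1)
    (e2 : ∀ x, (r2 x).1 = (r x).1) (h1 : r1.Homotopic (ContinuousMap.id _))
    (h2 : r2.Homotopic (ContinuousMap.id _)) : RIE F G := by
  obtain ⟨v, δ, hδ, x1, x2⟩ := compare2 (V := V)
  obtain ⟨r', hr, hr2⟩ := amb (rl_compact hF) r
  obtain ⟨ε0, he0, a0⟩ := hr2 δ hδ
  obtain ⟨ε1, he1, a1⟩ := amb_hom (rl_compact hG) r1 h1 r'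
    (fun x => by rw [e1, ← hr]) hδ
  obtain ⟨ε2, he2, a2⟩ := amb_hom (rl_compact hF) r2 h2 r' (fun x => by rw [e2, hr]) hδ
  obtain ⟨sd, s1, s2⟩ := x2 (min ε0 (min ε1 ε2)) (by positivity)
  let T : Ch V →ₗ[ℤ] Ch V := mp v ∘ₗ mp r' ∘ₗ sd
  have Td : ∀ c, d (T c) = T (d c) := fun c => by simp [T, d_mp, s1]
  have Tm : ∀ c ∈ On (Tup F), T c ∈ On (Tup G) := fun c hc =>
    x1 G hG hG0 _ (a0 _ (on_mono (sm_mono (min_le_left _ _) le_rfl) ((s2 F hF).1 c hc)))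
  have key : ∀ (P : Set V → Prop) (ε : ℝ), (∀ A B, A ⊆ B → P B → P A) → P ∅ →
      min ε0 (min ε1 ε2) ≤ ε → (∀ z ∈ On (Sm ε (Rl P)), d z = 0 →
        ∃ w ∈ On (Sm δ (Rl P)), d w = z - mp r' z) →
      ∀ y ∈ On (Tup P), d y = 0 → ∃ a ∈ On (Tup P), d a = T y - y := by
    intro P ε hP h0 hε h y hy e
    obtain ⟨u, hu, e3⟩ := (s2 P hP).2 y hy e
    obtain ⟨w, hw, e4⟩ := h _ (on_mono (sm_mono hε le_rfl) ((s2 P hP).1 y hy))
      (by rw [s1, e, map_zero])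
    refine ⟨u - mp v w, sub_mem hu (x1 P hP h0 _ hw), ?_⟩
    rw [map_sub, e3, d_mp, e4]
    simp [T]
  have inc : ∀ c ∈ On (Tup G), c ∈ On (Tup F) := fun c hc => on_mono (fun l hl => hGF _ hl) hc
  intro z hz hd
  obtain ⟨a, ha, e3⟩ := key G ε1 hG hG0 ((min_le_right _ _).trans (min_le_left _ _)) a1 _ hd (d_d z)
  have m : z + a - T z ∈ On (Tup F) := sub_mem (add_mem hz (inc _ ha)) (inc _ (Tm z hz))
  obtain ⟨b, hb, e4⟩ := key F ε2 hF (hGF _ hG0) ((min_le_right _ _).trans (min_le_right _ _)) a2 _ m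
    (by rw [map_sub, map_add, e3, Td]; simp)
  refine ⟨-b, neg_mem hb, ?_⟩
  have : d (-b) - z = a - T z - T (z + a - T z) := by
    rw [map_neg, e4]
    abel
  rw [this]
  exact sub_mem (sub_mem ha (Tm z hz)) (Tm _ m)

variable [DecidableEq V] {E : Type} [NormedAddCommGroup E] [NormedSpace ℝ E]

omit [NormedSpace ℝ E] in
lemma toCost {Φ : Set V → Prop} (hΦ : ∀ A B, A ⊆ B → Φ B → Φ A) {G : Finset V} (hG : G.Nonempty)
    (hΦG : Φ G) (φ : Rl Φ ≃ₜ closedBall (0 : E) 1) {X : Type} [TopologicalSpace X] (f : X → E)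
    (fc : Continuous f) (f1 : ∀ x, f x ∈ closedBall (0 : E) 1)
    (f2 : ∀ x, f x ≠ φ ⟨_, bary_mem hG hΦG⟩) :
    ∃ F : C(X, Rl (Cost Φ G)), ∀ x, (F x).1 = rr G hG (φ.symm ⟨f x, f1 x⟩).1 := by
  have hne : ∀ e : closedBall (0 : E) 1, (e : E) ≠ φ ⟨_, bary_mem hG hΦG⟩ →
      (φ.symm e).1 ≠ bary G := by
    intro e he h
    apply he
    have : φ.symm e = ⟨_, bary_mem hG hΦG⟩ := Subtype.ext h
    rw [← this, φ.apply_symm_apply]
  have c1 : Continuous fun x => (φ.symm ⟨f x, f1 x⟩).1 :=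
    continuous_subtype_val.comp (φ.symm.continuous.comp (fc.subtype_mk f1))
  have c2 : Continuous fun x => G.inf' hG (φ.symm ⟨f x, f1 x⟩).1 :=
    Continuous.finset_inf'_apply hG fun v _ => (continuous_apply v).comp c1
  refine ⟨⟨fun x => ⟨_, rr_mem hΦ hG (φ.symm ⟨f x, f1 x⟩).2 (hne _ (f2 x))⟩,
    Continuous.subtype_mk (continuous_pi fun v => ?_) _⟩, fun x => rfl⟩
  refine Continuous.div (((continuous_apply v).comp c1).sub ?_)
    (continuous_const.sub (continuous_const.mul c2))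
    fun x => (rr_den hG (φ.symm ⟨f x, f1 x⟩).2 (hne _ (f2 x))).ne'
  split_ifs
  · exact c2
  · exact continuous_const

lemma cost_bd {Φ : Set V → Prop} (hΦ : ∀ A B, A ⊆ B → Φ B → Φ A) {G : Finset V}
    (hG : G.Nonempty) (hΦG : Φ G) (φ : Rl Φ ≃ₜ closedBall (0 : E) 1)
    (p1 : ¬ ‖(φ ⟨_, bary_mem hG hΦG⟩ : E)‖ < 1) (q : ℕ) : IE (Cost Φ G) q := by
  set p : E := (φ ⟨_, bary_mem hG hΦG⟩).1 with hp
  let f : Rl (Cost Φ G) → E := fun y => (φ ⟨y.1, rl_mono (fun _ _ h => h.1) y.2⟩).1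
  have fc : Continuous f := continuous_subtype_val.comp
    (φ.continuous.comp (continuous_subtype_val.subtype_mk _))
  have f1 : ∀ y, ‖f y‖ ≤ 1 := fun y => mem_closedBall_zero_iff.1 (φ _).2
  have f2 : ∀ y, f y - p ≠ 0 := fun y e =>
    (rr_id hG y.2).2 (congrArg Subtype.val (φ.injective (Subtype.ext (sub_eq_zero.1 e))))
  replace p1 : ‖p‖ = 1 := le_antisymm (mem_closedBall_zero_iff.1 (φ _).2) (not_lt.1 p1)
  have m0 : (fun _ => 1 : Unit → ℝ) ∈ Rl fun _ : Set Unit => True := ⟨by simp, by simp, trivial⟩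
  refine via hΦ hG hΦG φ (Ψ := fun _ : Set Unit => True) (fun _ _ _ _ => trivial) trivial
    (ContinuousMap.const _ ⟨_, m0⟩) (fun _ => 0) continuous_const (fun _ => by simp)
    (fun _ e => ?_) (fun x => (x.1 : ℝ) • f x.2) (by fun_prop) (fun x => ?_) (fun x e => ?_)
    (fun y => by simp) (fun y => by simp [f]) (ie_true () q)
  · rw [← hp] at e
    simp [← e] at p1
  · rw [mem_closedBall_zero_iff, norm_smul, Real.norm_eq_abs, abs_of_nonneg x.1.2.1]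
    exact mul_le_one₀ x.1.2.2 (norm_nonneg _) (f1 _)
  · rw [← hp] at e
    have h1 := congrArg norm e
    rw [norm_smul, Real.norm_eq_abs, abs_of_nonneg x.1.2.1, p1] at h1
    have h2 : (x.1 : ℝ) = 1 := by
      have := f1 x.2
      have := x.1.2.1
      have := x.1.2.2
      nlinarith
    rw [h2, one_smul] at e
    exact f2 _ (sub_eq_zero.2 e)

theorem cost_rie {Φ Ψ : Set V → Prop} (hΦ : ∀ A B, A ⊆ B → Φ B → Φ A)
    (hΨ : ∀ A B, A ⊆ B → Ψ B → Ψ A) (h0 : Ψ ∅) (hΨΦ : ∀ A, Ψ A → Φ A) {G : Finset V}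
    (hG : G.Nonempty) (hΦG : Φ G) (hΨG : ¬ Ψ G) (φ : Rl Φ ≃ₜ closedBall (0 : E) 1)
    (hb : ∀ y : Rl Φ, ‖(φ y : E)‖ < 1 ↔ ¬ Ψ {v | y.1 v ≠ 0}) : RIE (Cost Φ G) Ψ := by
  haveI : Nonempty V := ⟨hG.choose⟩
  have hc : ∀ A, Ψ A → Cost Φ G A := fun A h => ⟨hΨΦ A h, fun e => hΨG (hΨ _ _ e h)⟩
  set p : E := (φ ⟨_, bary_mem hG hΦG⟩).1 with hp
  have p1 : ‖p‖ < 1 := (hb _).2 (by
    have : {v | bary G v ≠ 0} = G := by
      ext v
      simp [bary, hG.ne_empty]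
    rwa [this])
  let f : Rl (Cost Φ G) → E := fun y => (φ ⟨y.1, rl_mono (fun _ _ h => h.1) y.2⟩).1
  have fc : Continuous f := continuous_subtype_val.comp
    (φ.continuous.comp (continuous_subtype_val.subtype_mk _))
  have f1 : ∀ y, ‖f y‖ ≤ 1 := fun y => mem_closedBall_zero_iff.1 (φ _).2
  have f2 : ∀ y, f y - p ≠ 0 := fun y e =>
    (rr_id hG y.2).2 (congrArg Subtype.val (φ.injective (Subtype.ext (sub_eq_zero.1 e))))
  have nz : ∀ e : E, e ≠ 0 → ‖‖e‖⁻¹ • e‖ = 1 := fun e he => norm_smul_inv_norm he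
  have R : ∀ {X : Type} [TopologicalSpace X] (g : X → E) (_ : Continuous g) (g1 : ∀ x, g x ≠ 0),
      ∃ F : C(X, Rl Ψ), ∀ x, (F x).1 =
        (φ.symm ⟨‖g x‖⁻¹ • g x, mem_closedBall_zero_iff.2 (nz _ (g1 x)).le⟩).1 := by
    intro X _ g gc g1
    refine ⟨⟨fun x => ⟨_, (φ.symm _).2.1, (φ.symm _).2.2.1, ?_⟩, Continuous.subtype_mk
      (continuous_subtype_val.comp (φ.symm.continuous.comp (Continuous.subtype_mk
        ((gc.norm.inv₀ fun x => norm_ne_zero_iff.2 (g1 x)).smul gc) _))) _⟩, fun x => rfl⟩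
    by_contra e
    have := (hb _).2 e
    rw [φ.apply_symm_apply] at this
    exact (nz _ (g1 x)).not_lt this
  obtain ⟨r, hr⟩ := R (fun y => f y - p) (fc.sub continuous_const) f2
  let inc : C(Rl Ψ, Rl (Cost Φ G)) := ⟨fun x => ⟨x.1, rl_mono (fun A _ => hc A) x.2⟩,
    continuous_subtype_val.subtype_mk _⟩
  have g1 : ∀ y : Rl Ψ, ‖f (inc y)‖ = 1 := fun y =>
    le_antisymm (f1 _) (not_lt.1 fun e => (hb _).1 e y.2.2.2)
  obtain ⟨H1, hH1⟩ := R (fun x : unitInterval × Rl Ψ => f (inc x.2) - (1 - (x.1 : ℝ)) • p)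
    (by fun_prop) fun x e => by
      have h1 := congrArg norm (sub_eq_zero.1 e)
      rw [g1, norm_smul, Real.norm_eq_abs, abs_of_nonneg (sub_nonneg.2 x.1.2.2)] at h1
      have := x.1.2.1
      have := norm_nonneg p
      nlinarith
  obtain ⟨H2, hH2⟩ := toCost hΦ hG hΦG φ (fun x : unitInterval × Rl (Cost Φ G) =>
      (1 - (x.1 : ℝ)) • (‖f x.2 - p‖⁻¹ • (f x.2 - p)) + (x.1 : ℝ) • f x.2)
    (Continuous.add (Continuous.smul (by fun_prop) (Continuous.smul (Continuous.inv₀ (by fun_prop)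
      fun x => norm_ne_zero_iff.2 (f2 _)) (by fun_prop))) (by fun_prop))
    (fun x => convex_closedBall (0 : E) 1 (mem_closedBall_zero_iff.2 (nz _ (f2 _)).le)
      (mem_closedBall_zero_iff.2 (f1 _)) (sub_nonneg.2 x.1.2.2) x.1.2.1 (sub_add_cancel _ _))
    fun x e => by
      rw [← hp] at e
      have h1 := norm_pos_iff.2 (f2 x.2)
      have h2 := x.1.2.1
      have h3 := sub_nonneg.2 x.1.2.2
      have h4 : ((1 - (x.1 : ℝ)) * ‖f x.2 - p‖⁻¹ + x.1) • (f x.2 - p) = (1 - (x.1 : ℝ)) • p := by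
        rw [add_smul, mul_smul, smul_sub (x.1 : ℝ), ← add_sub_assoc, e]
        module
      have h5 := congrArg norm h4
      rw [norm_smul, norm_smul, Real.norm_eq_abs, Real.norm_eq_abs, abs_of_nonneg h3,
        abs_of_nonneg (by positivity), add_mul, mul_assoc, inv_mul_cancel₀ h1.ne'] at h5
      rcases h2.lt_or_eq with h | h
      · nlinarith [mul_pos h h1]
      · rw [← h] at h5
        linarith
  refine rie_retract (cost_mono hΦ G) hΨ h0 hc r (r.comp inc) (inc.comp r) (fun _ => rfl)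
    (fun _ => rfl) ⟨⟨H1, fun y => Subtype.ext ?_, fun y => Subtype.ext ?_⟩⟩
    ⟨⟨H2, fun y => Subtype.ext ?_, fun y => Subtype.ext ?_⟩⟩
  · show (H1 (0, y)).1 = (r (inc y)).1
    rw [hH1, hr]
    simp
  · show (H1 (1, y)).1 = y.1
    rw [hH1]
    refine congrArg Subtype.val (φ.symm_apply_eq.2 (Subtype.ext ?_) :
      _ = (⟨y.1, rl_mono (fun A _ => hΨΦ A) y.2⟩ : Rl Φ))
    simp only [Set.Icc.coe_one, sub_self, zero_smul, sub_zero, g1, inv_one, one_smul]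
    rfl
  · show (H2 (0, y)).1 = (r y).1
    rw [hH2]
    refine Eq.trans ?_ (rr_id hG (inc (r y)).2).1
    congr 1
    refine Eq.trans ?_ (hr y).symm
    simp
  · show (H2 (1, y)).1 = y.1
    rw [hH2]
    refine Eq.trans ?_ (rr_id hG y.2).1
    simp [f]

end Pool.Agent.H28.Mon
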