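import Pool.Agent.H28.Mon6
import Pool.Agent.H28.Mon7

namespace Pool.Agent.H28.Mon

open Module Classical Pool.Agent.H43.Orb
open Pool.Agent.H28.Sub (Len proj proj_on proj_eq d_proj IE)

variable {K : Type} [Field K] {V : Type} [LinearOrder V] [Fintype V]

variable (K) in
noncomputable def nl (l : List V) : Finset V → K := l.foldr (fun a x => Up K a x) (Pi.single ∅ 1)

variable (K) in
noncomputable def NN : Ch V →ₗ[ℤ] (Finset V → K) := ext (nl K)

omit [Fintype V] in
lemma nn_cons (a : V) (c : Ch V) : NN K (cons a c) = Up K a (NN K c) :=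
  hom_ext (F := NN K ∘ₗ cons a)
    (G := (Up K a : End K (Finset V → K)).toAddMonoidHom.toIntLinearMap ∘ₗ NN K)
    (fun l => by simp [NN, nl]) c

lemma del_empty : del K (Pi.single ∅ 1 : Finset V → K) = 0 := by
  funext T
  by_contra e
  obtain ⟨j, -, e2⟩ := del_ne e
  simp at e2

lemma nn_dl (l : List V) : NN K (dl l) = del K (NN K (sg l)) := by
  induction l with
  | nil => simp [NN, nl, del_empty]
  | cons a l ih => rw [dl_cons, map_sub, nn_cons, ih, ← cons_sg, nn_cons, del_up]

lemma nn_d (c : Ch V) : NN K (d c) = del K (NN K c) :=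
  hom_ext (F := NN K ∘ₗ d)
    (G := (del K : End K (Finset V → K)).toAddMonoidHom.toIntLinearMap ∘ₗ NN K)
    (fun l => by simp [nn_dl]) c

omit [Fintype V] in
lemma nl_ne (l : List V) : ∀ T, nl K l T ≠ 0 → T = l.toFinset ∧ T.card = l.length := by
  induction l with
  | nil =>
    intro T h
    by_cases e : T = ∅
    · simp [e]
    · simp [nl, e] at h
  | cons a l ih =>
    intro T h
    have : nl K (a :: l) T = Up K a (nl K l) T := rfl
    rw [this, up_apply] at h
    by_cases e : a ∈ T
    · rw [if_pos e] at h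
      obtain ⟨h1, h2⟩ := ih _ (right_ne_zero_of_smul h)
      rw [List.toFinset_cons, ← h1, Finset.insert_erase e, List.length_cons, ← h2,
        Finset.card_erase_add_one e]
      exact ⟨rfl, rfl⟩
    · simp [e] at h

omit [Fintype V] in
lemma eps_min {a : V} {T : Finset V} (h : ∀ v ∈ T, a < v) : eps a T = 1 := by
  rw [eps, Finset.filter_eq_empty_iff.2 fun v hv => (h v hv).not_gt]
  simp

omit [Fintype V] in
lemma nl_sorted {l : List V} (h : l.Pairwise (· < ·)) : nl K l = Pi.single l.toFinset 1 := by
  induction l with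
  | nil => rfl
  | cons a l ih =>
    rw [List.pairwise_cons] at h
    funext T
    have : nl K (a :: l) T = Up K a (nl K l) T := rfl
    rw [this, up_apply, ih h.2, List.toFinset_cons]
    have ha : a ∉ l.toFinset := fun e => lt_irrefl _ (h.1 a (by simpa using e))
    by_cases e : T = insert a l.toFinset
    · simp [e, Finset.erase_insert ha, eps_min (a := a) (T := l.toFinset) (by simpa using h.1)]
    · rw [Pi.single_eq_of_ne e]
      split_ifs with e2
      · rw [Pi.single_eq_of_ne fun e3 => e (by rw [← e3, Finset.insert_erase e2]), smul_zero]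
      · rfl

noncomputable def srt (H : Finset V) : List V := Finset.univ.sort.filter (· ∈ H)

lemma srt_sorted (H : Finset V) : (srt H).Pairwise (· < ·) :=
  (Finset.sortedLT_sort _).pairwise.filter _

lemma srt_nodup (H : Finset V) : (srt H).Nodup := (srt_sorted H).imp ne_of_lt

@[simp] lemma mem_srt {H : Finset V} {v : V} : v ∈ srt H ↔ v ∈ H := by simp [srt]

lemma srt_toFinset (H : Finset V) : (srt H).toFinset = H := by
  ext v
  simp

lemma srt_length (H : Finset V) : (srt H).length = H.card := by
  rw [← List.toFinset_card_of_nodup (srt_nodup H), srt_toFinset]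

lemma srt_erase (H : Finset V) (v : V) : (srt H).erase v = srt (H.erase v) := by
  rw [(srt_nodup H).erase_eq_filter, srt, srt, List.filter_filter]
  congr 1
  funext w
  by_cases h : w = v <;> simp [h]

variable {Z : Type} [AddCommGroup Z] [Module K Z]

omit [Fintype V] in
lemma lin_dl {l : List V} (h : l.Pairwise (· < ·)) : ∀ T : Ch V →ₗ[ℤ] Z,
    T (dl l) = ∑ v ∈ l.toFinset, eps v (l.toFinset.erase v) • T (sg (l.erase v)) := by
  induction l with
  | nil => simp
  | cons a l ih =>
    intro T
    rw [List.pairwise_cons] at h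
    have ha : a ∉ l.toFinset := fun e => lt_irrefl _ (h.1 a (by simpa using e))
    have := ih h.2 (T ∘ₗ cons a)
    rw [LinearMap.comp_apply] at this
    rw [dl_cons, map_sub, this, List.toFinset_cons, Finset.sum_insert ha, List.erase_cons_head,
      Finset.erase_insert ha, eps_min (by simpa using h.1), one_smul, sub_eq_add_neg,
      ← Finset.sum_neg_distrib]
    congr 1
    refine Finset.sum_congr rfl fun v hv => ?_
    have h1 : a < v := h.1 v (by simpa using hv)
    rw [List.erase_cons_tail (by simpa using h1.ne), Finset.erase_insert_of_ne h1.ne,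
      eps_insert _ (by simp [ha]), if_pos h1]
    simp

lemma del_single (F : Finset V) : del K (Pi.single F (1 : K) : Finset V → K) =
    ∑ v ∈ F, eps v (F.erase v) • (Pi.single (F.erase v) (1 : K) : Finset V → K) := by
  have := lin_dl (srt_sorted F) (NN K)
  simp only [nn_dl, srt_toFinset, srt_erase] at this
  simpa only [NN, ext_sg, nl_sorted (srt_sorted _), srt_toFinset] using this

variable (K) in
noncomputable def hat (T : Ch V →ₗ[ℤ] Z) : (Finset V → K) →ₗ[K] Z :=
  Fintype.linearCombination K fun H => T (sg (srt H))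

lemma hat_single (T : Ch V →ₗ[ℤ] Z) (H : Finset V) : hat K T (Pi.single H 1) = T (sg (srt H)) := by
  simp [hat]

lemma hat_del (T : Ch V →ₗ[ℤ] Z) (H : Finset V) :
    hat K T (del K (Pi.single H 1)) = T (dl (srt H)) := by
  rw [del_single, map_sum, lin_dl (srt_sorted H)]
  simp only [map_zsmul, hat_single, srt_toFinset, srt_erase]

omit [Fintype V] [LinearOrder V] in
lemma exists_contr {F G : Set V → Prop} (hF : ∀ A B, A ⊆ B → F B → F A)
    (hG : ∀ A B, A ⊆ B → G B → G A)
    (h : ∀ q, ∀ z ∈ On (Tup F), z ∈ On (Len V q) → d z ∈ On (Tup G) →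
      ∃ w ∈ On (Tup F), d w - z ∈ On (Tup G)) (k : ℕ) :
    ∃ s : List V → Ch V, ∀ l ∈ Tup F, l.length < k → s l ∈ On (Tup F ∩ Len V (l.length + 1)) ∧
      d (s l) + ext s (dl l) - sg l ∈ On (Tup G) ∧ (l ∈ Tup G → s l = 0) := by
  induction k with
  | zero => exact ⟨0, by simp⟩
  | succ k ih =>
    obtain ⟨s, hs⟩ := ih
    have dm : ∀ l ∈ Tup F, dl l ∈ On (Tup F ∩ {m | m.length + 1 = l.length ∧ ∀ u ∈ m, u ∈ l}) :=
      fun l hl => dl_on fun i hi => ⟨tup_face hF hl fun _ hu => List.mem_of_mem_eraseIdx hu, by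
        simp only [List.length_eraseIdx, hi, if_true]
        omega, fun _ hu => List.mem_of_mem_eraseIdx hu⟩
    have key : ∀ l ∈ Tup F, l.length = k → ∃ w ∈ On (Tup F ∩ Len V (l.length + 1)),
        d w + ext s (dl l) - sg l ∈ On (Tup G) ∧ (l ∈ Tup G → w = 0) := by
      intro l hl hk
      by_cases hl2 : l ∈ Tup G
      · refine ⟨0, zero_mem _, ?_, fun _ => rfl⟩
        rw [lin_eq_on (ext s) 0 (fun m hm => ?_) (dm l hl)]
        · simpa using sg_on hl2
        · have h2 := hm.2.1
          simpa using (hs m hm.1 (by omega)).2.2 (tup_face hG hl2 hm.2.2)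
      have h1 : ext s (dl l) ∈ On (Tup F ∩ Len V k) := by
        refine lin_on _ (fun m hm => ?_) (dm l hl)
        have h2 := hm.2.1
        rw [ext_sg, ← hk, ← h2]
        exact (hs m hm.1 (by omega)).1
      have h2 : d (ext s (dl l)) - dl l ∈ On (Tup G) := by
        have := lin_on (d ∘ₗ ext s + ext s ∘ₗ d - LinearMap.id) (N := On (Tup G)) (fun m hm => by
          have h2 := hm.2.1
          simpa using (hs m hm.1 (by omega)).2.1) (dm l hl)
        simpa [d_dl] using this
      have h3 : sg l - ext s (dl l) ∈ On (Len V k) :=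
        sub_mem (sg_on hk) (on_mono Set.inter_subset_right h1)
      obtain ⟨w, hw, e⟩ := h k _ (sub_mem (sg_on hl) (on_mono Set.inter_subset_left h1))
        h3 (by simpa using neg_mem h2)
      refine ⟨proj (k + 1) w, hk ▸ proj_on _ hw, ?_, fun e => (hl2 e).elim⟩
      have := on_mono Set.inter_subset_left (proj_on k e)
      rw [map_sub, proj_eq h3, ← d_proj] at this
      rwa [← sub_sub_eq_add_sub]
    choose! w w1 w2 using key
    refine ⟨fun l => if l.length = k then w l else s l, fun l hl hk => ?_⟩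
    have e : ext (fun l => if l.length = k then w l else s l) (dl l) = ext s (dl l) :=
      lin_eq_on _ _ (fun m hm => by
        have h2 := hm.2.1
        rw [ext_sg, ext_sg, if_neg (by omega)]) (dm l hl)
    rw [e]
    by_cases h1 : l.length = k
    · simp only [if_pos h1]
      exact ⟨w1 l hl h1, w2 l hl h1⟩
    · simp only [if_neg h1]
      exact hs l hl (by omega)

omit [Fintype V] in
lemma nn_mem {S : Set (List V)} {P : Finset V → Prop}
    (h : ∀ l ∈ S, l.toFinset.card = l.length → P l.toFinset) {c : Ch V} (hc : c ∈ On S)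
    (T : Finset V) (e : NN K c T ≠ 0) : P T := by
  by_contra hT
  refine e (lin_eq_on ((LinearMap.proj T : (Finset V → K) →ₗ[ℤ] K) ∘ₗ NN K) 0 (fun l hl => ?_) hc)
  by_contra e2
  obtain ⟨h1, h2⟩ := nl_ne (K := K) l T (by simpa [NN] using e2)
  exact hT (h1 ▸ h l hl (h1 ▸ h2))

theorem fex_rel {F G : Set V → Prop} (hF : ∀ A B, A ⊆ B → F B → F A)
    (hG : ∀ A B, A ⊆ B → G B → G A)
    (h : ∀ q, ∀ z ∈ On (Tup F), z ∈ On (Len V q) → d z ∈ On (Tup G) →
      ∃ w ∈ On (Tup F), d w - z ∈ On (Tup G)) (k : ℤ) :
    FEx K (fun H : Finset V => F H ∧ ¬ G H) k := by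
  rcases lt_or_ge k 0 with hk | hk
  · exact fex_neg _ hk
  lift k to ℕ using hk
  obtain ⟨s, hs⟩ := exists_contr hF hG h (k + 1)
  have hA : ∀ A B : Finset V, A ⊆ B → F B → F A := fun _ _ e => hF _ _ (by exact_mod_cast e)
  have hB : ∀ A B : Finset V, A ⊆ B → G B → G A := fun _ _ e => hG _ _ (by exact_mod_cast e)
  have tp : ∀ (P : Set V → Prop) (H : Finset V), P H → srt H ∈ Tup P := fun P H e => by
    simpa [Tup] using e
  intro x hx e
  let S := hat K (NN K ∘ₗ ext s)
  have m : S x ∈ C0 K (fun H : Finset V => F H) (k + 1) := by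
    rw [← Finset.univ_sum_single x, map_sum]
    refine Submodule.sum_mem _ fun H _ => ?_
    by_cases e : x H = 0
    · simp [e]
    have h1 := (hx H).2 e
    rw [show (Pi.single H (x H) : Finset V → K) = x H • Pi.single H 1 by simp [← Pi.single_smul],
      map_smul, hat_single]
    refine Submodule.smul_mem _ _ fun T => ⟨trivial, nn_mem (P := fun T => F T ∧ (T.card : ℤ) = k + 1)
      (S := Tup F ∩ Len V ((srt H).length + 1)) (fun l hl e => ⟨by simpa [Tup] using hl.1, ?_⟩)
      (by simpa using (hs _ (tp F H h1.1.1) (by rw [srt_length]; omega)).1) T⟩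
    have : l.length = (srt H).length + 1 := hl.2
    rw [srt_length] at this
    omega
  refine ⟨_, prj_mem m, funext fun T => ?_⟩
  rw [bd_apply]
  split_ifs with hT
  · rw [del_congr (y := S x) fun j _ => ?_]
    · have h1 : (LinearMap.proj T ∘ₗ (del K ∘ₗ S + S ∘ₗ del K - LinearMap.id)) x =
          (0 : (Finset V → K) →ₗ[K] K) x := by
        refine lin_supp (A := fun H => F H ∧ (H.card : ℤ) = k) (fun H hH => ?_)
          fun H e => ⟨((hx H).2 e).1.1, ((hx H).2 e).2⟩
        by_contra e2
        refine hT.2 (nn_mem (K := K) (P := fun T => G T) (fun l hl _ => by simpa [Tup] using hl)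
          (hs _ (tp F H hH.1) (by rw [srt_length]; omega)).2.1 T ?_)
        rw [map_sub, map_add, nn_d]
        simpa [S, hat_single, hat_del, NN, nl_sorted (srt_sorted _), srt_toFinset] using e2
      have h2 : S (del K x) = (0 : (Finset V → K) →ₗ[K] (Finset V → K)) (del K x) := by
        refine lin_supp (A := fun H => (F H ∧ G H) ∧ H.card ≤ k) (fun H hH => ?_) fun H e2 => ?_
        · simp [S, hat_single, (hs _ (tp F H hH.1.1) (by rw [srt_length]; omega)).2.2
            (tp G H hH.1.2)]
        · obtain ⟨j, hj, e3⟩ := del_ne e2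
          have h3 := (hx _).2 e3
          have h4 := hA _ _ (Finset.subset_insert _ _) h3.1.1
          rw [Finset.card_insert_of_notMem hj] at h3
          refine ⟨⟨h4, by_contra fun h5 => e2 ?_⟩, by omega⟩
          have := congrFun e H
          rwa [bd_apply, if_pos ⟨h4, h5⟩] at this
      simpa [h2, sub_eq_zero] using h1
    · rw [prj_apply]
      split_ifs with h1
      · rfl
      · by_contra e2
        exact h1 ⟨((m _).2 (Ne.symm e2)).1, fun h2 => hT.2 (hB _ _ (Finset.subset_insert _ _) h2)⟩
  · by_contra e2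
    exact hT ((hx T).2 (Ne.symm e2)).1

theorem fex_ie {F : Set V → Prop} (hF : ∀ A B, A ⊆ B → F B → F A) (h : ∀ q, IE F q) (k : ℤ) :
    FEx K (fun H : Finset V => F H) k := by
  refine fex_congr (by simp) (fex_rel (G := fun _ => False) hF (by simp) (fun q z a b c => ?_) k)
  have e : On (Tup fun _ : Set V => False) = ⊥ := Finsupp.supported_empty
  rw [e, Submodule.mem_bot] at c
  obtain ⟨w, hw, e2⟩ := h q z a b c
  exact ⟨w, hw, by simp [e2]⟩

end Pool.Agent.H28.Mon
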