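import Pool.Agent.H28.Mon8

namespace Pool.Agent.H28.Mon

open Module Classical Pool.Agent.H43.Orb

variable {k : Type} [Field k] {V U : Type} [LinearOrder V] [Fintype V] [LinearOrder U] [Fintype U]

lemma del_single_ne {E T : Finset V} (h : del k (Pi.single E (1 : k) : Finset V → k) T ≠ 0) :
    T ⊆ E ∧ T.card + 1 = E.card := by
  obtain ⟨j, hj, e⟩ := del_ne h
  obtain rfl : insert j T = E := by
    by_contra e2
    simp [e2] at e
  exact ⟨Finset.subset_insert _ _, (Finset.card_insert_of_notMem hj).symm⟩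

omit [LinearOrder U] [Fintype U] in
lemma lin_ne {f : (Finset V → k) →ₗ[k] (Finset U → k)} {x : Finset V → k} {T : Finset U}
    (h : f x T ≠ 0) : ∃ G, x G ≠ 0 ∧ f (Pi.single G 1) T ≠ 0 := xt_ne (R := k) (by rwa [xt_self])

lemma carrier {A : Finset V → Prop} (hA : ∀ G H, G ⊆ H → A H → A G)
    {B : Finset V → Finset U → Prop} (hB : ∀ E, ∀ G H, G ⊆ H → B E H → B E G)
    (mono : ∀ E E' G, A E → E' ⊆ E → B E' G → B E G)
    (ac : ∀ E, A E → E.Nonempty → ∀ m, FEx k (B E) m) (c : ℤ) (ε : k)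
    (g : (Finset V → k) →ₗ[k] (Finset U → k))
    (g1 : ∀ E, A E → g (Pi.single E 1) ∈ C0 k (B E) (E.card + c - 1))
    (g2 : ∀ E, A E → del k (g (Pi.single E 1)) + ε • g (del k (Pi.single E 1)) = 0)
    (h0 : Finset U → k) (h1 : h0 ∈ C0 k (B ∅) c) (h2 : del k h0 = g (Pi.single ∅ 1)) :
    ∃ H : (Finset V → k) →ₗ[k] (Finset U → k), H (Pi.single ∅ 1) = h0 ∧ ∀ E, A E →
      H (Pi.single E 1) ∈ C0 k (B E) (E.card + c) ∧
      del k (H (Pi.single E 1)) = g (Pi.single E 1) + ε • H (del k (Pi.single E 1)) := by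
  suffices h : ∀ m : ℕ, ∃ H : (Finset V → k) →ₗ[k] (Finset U → k), H (Pi.single ∅ 1) = h0 ∧
      ∀ E, A E → E.card < m → H (Pi.single E 1) ∈ C0 k (B E) (E.card + c) ∧
      del k (H (Pi.single E 1)) = g (Pi.single E 1) + ε • H (del k (Pi.single E 1)) by
    obtain ⟨H, a, b⟩ := h (Fintype.card V + 1)
    exact ⟨H, a, fun E hE => b E hE (Nat.lt_succ_of_le E.card_le_univ)⟩
  intro m
  induction m with
  | zero => exact ⟨Fintype.linearCombination k fun _ => h0, by simp, by simp⟩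
  | succ m ih =>
    obtain ⟨H, a, b⟩ := ih
    have key : ∀ E, A E → E.card = m → ∃ w ∈ C0 k (B E) (E.card + c),
        del k w = g (Pi.single E 1) + ε • H (del k (Pi.single E 1)) ∧ (E = ∅ → w = h0) := by
      intro E hE hm
      rcases E.eq_empty_or_nonempty with rfl | hne
      · exact ⟨h0, by simpa using h1, by simp [h2, del_empty], fun _ => rfl⟩
      have m1 : g (Pi.single E 1) + ε • H (del k (Pi.single E 1)) ∈ C0 k (B E) (E.card + c - 1) := by
        refine add_mem (g1 E hE) (Submodule.smul_mem _ _ fun T => ⟨trivial, fun e => ?_⟩)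
        obtain ⟨G, e1, e2⟩ := lin_ne e
        obtain ⟨e3, e4⟩ := del_single_ne e1
        have := ((b G (hA _ _ e3 hE) (by omega)).1 T).2 e2
        exact ⟨mono _ _ _ hE e3 this.1, by omega⟩
      obtain ⟨w, hw, e⟩ := ac E hE hne _ _ m1 (by
        have := lin_supp (A := fun G => A G ∧ G.card < m) (f := del k ∘ₗ H)
          (g := g + ε • H ∘ₗ del k) (fun G hG => (b G hG.1 hG.2).2) (x := del k (Pi.single E 1))
          fun G e => ⟨hA _ _ (del_single_ne e).1 hE, by have := (del_single_ne e).2; omega⟩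
        simp only [LinearMap.comp_apply, LinearMap.add_apply, LinearMap.smul_apply, del_del,
          map_zero, smul_zero, add_zero] at this
        rw [bd_down (hB E) m1, map_add, map_smul, this, g2 E hE])
      rw [sub_add_cancel] at hw
      exact ⟨w, hw, by rw [← e, bd_down (hB E) hw], fun e => (hne.ne_empty e).elim⟩
    choose! w w1 w2 w3 using key
    let H' := Fintype.linearCombination k fun E => if A E ∧ E.card = m then w E else H (Pi.single E 1)
    have e1 : ∀ E, H' (Pi.single E 1) = if A E ∧ E.card = m then w E else H (Pi.single E 1) := by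
      simp [H']
    refine ⟨H', ?_, fun E hE hm => ?_⟩
    · rw [e1]
      split_ifs with h
      · exact w3 _ h.1 h.2 rfl
      · exact a
    · rw [e1, lin_supp (A := fun G => G.card < m) (f := H') (g := H)
        (fun G hG => by rw [e1, if_neg fun e => by omega])
        fun G e => by have := (del_single_ne e).2; omega]
      split_ifs with h
      · exact ⟨w1 E hE h.2, w2 E hE h.2⟩
      · exact b E hE (by by_contra e; exact h ⟨hE, by omega⟩)

lemma top_zero {F : Finset V} (hF : F.Nonempty) {w : Finset V → k} (h : ∀ T, w T ≠ 0 → T = F)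
    (e : del k w = 0) : w = 0 := by
  obtain ⟨j, hj⟩ := hF
  have h1 := congrFun e (F.erase j)
  rw [del_apply, Finset.sum_eq_single j] at h1
  · funext T
    by_contra e2
    obtain rfl := h T e2
    rw [if_neg (by simp), Finset.insert_erase hj] at h1
    have := congrArg (eps j (T.erase j) • ·) h1
    simp only [smul_smul, eps_sq, one_smul, Pi.zero_apply, smul_zero] at this
    exact e2 this
  · intro i _ hi
    split_ifs with h2
    · rfl
    · by_contra e2
      have := h _ (right_ne_zero_of_smul e2)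
      have h3 : j ∈ insert i (F.erase j) := this.symm ▸ hj
      simp [hi.symm] at h3
  · simp

variable {Δ : Finset V → Prop} {Γ : Finset U → Prop} {σ : Finset U → Finset V} {f : U → V}

theorem exists_sd (hΔ : ∀ G H, G ⊆ H → Δ H → Δ G) (hΓ : ∀ G H, G ⊆ H → Γ H → Γ G)
    (hσ : ∀ G H, G ⊆ H → Γ H → σ G ⊆ σ H) (mem : ∀ G, Γ G → Δ (σ G)) (h0 : Γ ∅) (h1 : σ ∅ = ∅)
    (hf : ∀ v, Γ {v} → f v ∈ σ {v})
    (hB : ∀ E, Δ E → E.Nonempty → ∀ m, FEx k (fun H => Γ H ∧ σ H ⊆ E) m) :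
    ∃ (L : (Finset U → k) →ₗ[k] (Finset V → k)) (Ψ : (Finset V → k) →ₗ[k] (Finset U → k))
      (s : (Finset U → k) →ₗ[k] (Finset U → k)), Sd Δ Γ σ f L Ψ s := by
  let L : (Finset U → k) →ₗ[k] (Finset V → k) := hat k (NN k ∘ₗ mp f)
  have lab : ∀ G, Γ G → G.image f ⊆ σ G := fun G hG => Finset.image_subset_iff.2 fun v hv =>
    hσ _ _ (by simpa) hG (hf v (hΓ _ _ (by simpa) hG))
  have l1 : ∀ x, L (del k x) = del k (L x) := fun x =>
    lin_supp (A := fun _ => True) (f := L ∘ₗ del k) (g := del k ∘ₗ L) (fun E _ => by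
      simp only [L, LinearMap.comp_apply, hat_del, hat_single]
      rw [← nn_d, d_mp, d_sg]) fun _ _ => trivial
  have l2 : ∀ G T, L (Pi.single G 1) T ≠ 0 → T = G.image f ∧ T.card = G.card := by
    intro G T e
    simp only [L, hat_single, LinearMap.comp_apply, mp_sg, NN, ext_sg] at e
    obtain ⟨h1, h2⟩ := nl_ne _ _ e
    refine ⟨?_, by rw [h2, List.length_map, srt_length]⟩
    rw [h1]
    ext j
    simp
  have l0 : L (Pi.single ∅ 1) = Pi.single ∅ 1 := by simp [L, hat_single, srt, NN, nl]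
  have dn : ∀ E : Finset V, ∀ G H, G ⊆ H → Γ H ∧ σ H ⊆ E → Γ G ∧ σ G ⊆ E :=
    fun E G H e h => ⟨hΓ _ _ e h.1, (hσ _ _ e h.1).trans h.2⟩
  obtain ⟨Ψ, p0, p1⟩ := carrier hΔ (B := fun E H => Γ H ∧ σ H ⊆ E) dn
    (fun _ _ _ _ e h => ⟨h.1, h.2.trans e⟩) hB 0 1 0 (fun _ _ => zero_mem _) (by simp)
    (Pi.single ∅ 1) (fun G => ⟨trivial, fun e => by
      obtain rfl : G = ∅ := by
        by_contra e2
        simp [e2] at e
      simp [h0, h1]⟩) (by simp [del_empty])
  simp only [add_zero, LinearMap.zero_apply, zero_add, one_smul] at p1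
  have p2 : ∀ E G, Δ E → Ψ (Pi.single E 1) G ≠ 0 → Γ G ∧ σ G ⊆ E ∧ G.card = E.card := by
    intro E G hE e
    have := ((p1 E hE).1 G).2 e
    exact ⟨this.1.1, this.1.2, by exact_mod_cast this.2⟩
  have p3 : ∀ E, Δ E → L (Ψ (Pi.single E 1)) = Pi.single E 1 := by
    intro E
    induction E using Finset.strongInduction with
    | H E ih =>
      intro hE
      rcases E.eq_empty_or_nonempty with rfl | hne
      · rw [p0, l0]
      refine sub_eq_zero.1 (top_zero hne (fun T e => ?_) ?_)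
      · by_contra e3
        rw [Pi.sub_apply, Pi.single_eq_of_ne e3, sub_zero] at e
        obtain ⟨G, a, b⟩ := lin_ne e
        obtain ⟨b1, b2⟩ := l2 G T b
        obtain ⟨a1, a2, a3⟩ := p2 E G hE a
        exact e3 (Finset.eq_of_subset_of_card_le (b1 ▸ (lab G a1).trans a2) (by omega))
      · rw [map_sub, ← l1, (p1 E hE).2, sub_eq_zero]
        refine lin_supp (A := fun G => G ⊂ E) (f := L ∘ₗ Ψ) (g := LinearMap.id)
          (fun G hG => ih G hG (hΔ _ _ hG.subset hE)) fun G e => ?_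
        obtain ⟨a, b⟩ := del_single_ne e
        exact a.ssubset_of_ne fun e => by simp [e] at b
  have sL : ∀ G, Γ G → ∀ T, L (Pi.single G 1) T ≠ 0 → Δ T := fun G hG T e =>
    (l2 G T e).1 ▸ hΔ _ _ (lab G hG) (mem G hG)
  obtain ⟨s, -, s1⟩ := carrier hΓ (B := fun G H => Γ H ∧ σ H ⊆ σ G) (fun G => dn _)
    (fun _ _ _ a e h => ⟨h.1, h.2.trans (hσ _ _ e a)⟩) (fun G hG ⟨v, hv⟩ => hB _ (mem G hG)
      ⟨f v, lab G hG (Finset.mem_image_of_mem f hv)⟩) 1 (-1) (LinearMap.id - Ψ ∘ₗ L)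
    (fun G hG H => ⟨trivial, fun e => by
      by_cases e2 : H = G
      · simp [e2, hG]
      · simp only [LinearMap.sub_apply, LinearMap.id_apply, LinearMap.comp_apply, Pi.sub_apply,
          Pi.single_eq_of_ne e2, zero_sub, ne_eq, neg_eq_zero] at e
        obtain ⟨T, a, b⟩ := lin_ne e
        obtain ⟨b1, b2, b3⟩ := p2 T H (sL G hG T a) b
        obtain ⟨a1, a2⟩ := l2 G T a
        exact ⟨⟨b1, b2.trans (a1 ▸ lab G hG)⟩, by omega⟩⟩)
    (fun G hG => by
      have := lin_supp (f := del k ∘ₗ Ψ) (g := Ψ ∘ₗ del k) (fun E hE => (p1 E hE).2) (sL G hG)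
      simp only [LinearMap.comp_apply] at this
      simp [this, l1]) 0 (zero_mem _) (by simp [l0, p0])
  refine ⟨L, Ψ, s, hΔ, hΓ, hσ, mem, lab, l1, l2, fun E hE => (p1 E hE).2.symm, p2, p3,
    fun G H hG e => ?_, fun G hG => ?_⟩
  · have := ((s1 G hG).1 H).2 e
    exact ⟨this.1.1, this.1.2, by exact_mod_cast this.2⟩
  · rw [(s1 G hG).2]
    simp

variable {L : (Finset U → k) →ₗ[k] (Finset V → k)} {Ψ : (Finset V → k) →ₗ[k] (Finset U → k)}
  {s : (Finset U → k) →ₗ[k] (Finset U → k)}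

lemma Sd.pull (h : Sd Δ Γ σ f L Ψ s) {P Q : Finset V → Prop} (hP : ∀ G H, G ⊆ H → P H → P G)
    (hQ : ∀ G H, G ⊆ H → Q H → Q G) (hPΔ : ∀ E, P E → Δ E) {m : ℤ}
    (e0 : FEx k (fun E => P E ∧ ¬ Q E) m) : FEx k (fun H => Γ H ∧ P (σ H) ∧ ¬ Q (σ H)) m := by
  intro x hx e
  have sx : ∀ E, x E ≠ 0 → Γ E := fun E e => ((hx E).2 e).1.1
  have dx : ∀ G, del k x G ≠ 0 → Γ G ∧ P (σ G) ∧ Q (σ G) := by
    intro G e2
    obtain ⟨j, -, e3⟩ := del_ne e2
    have h1 := ((hx _).2 e3).1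
    have h2 := h.hΓ _ _ (Finset.subset_insert j G) h1.1
    have h3 := hP _ _ (h.hσ _ _ (Finset.subset_insert j G) h1.1) h1.2.1
    refine ⟨h2, h3, by_contra fun h4 => e2 ?_⟩
    have := congrFun e G
    rwa [bd_apply, if_pos ⟨h2, h3, h4⟩] at this
  have m1 : xt k L x ∈ C0 k P m := fun T => ⟨trivial, fun e => by
    obtain ⟨G, a, b, c⟩ := h.L_ne e
    have := (hx G).2 a
    exact ⟨b ▸ hP _ _ (h.lab G this.1.1) this.1.2.1, c ▸ this.2⟩⟩
  obtain ⟨μ, hμ, e1⟩ := e0 _ (prj_mem m1) (funext fun T => by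
    rw [bd_apply]
    split_ifs with hT
    · rw [del_congr (y := xt k L x) fun j _ => ?_, ← h.L_del]
      · by_contra e2
        obtain ⟨G, a, b, -⟩ := h.L_ne e2
        exact hT.2 (b ▸ hQ _ _ (h.lab G (dx G a).1) (dx G a).2.2)
      · rw [prj_apply]
        split_ifs with h1
        · rfl
        · by_contra e2
          exact h1 ⟨((m1 _).2 (Ne.symm e2)).1, fun h2 => hT.2 (hQ _ _ (Finset.subset_insert _ _) h2)⟩
    · rfl)
  have sμ : ∀ E, μ E ≠ 0 → P E := fun E e => ((hμ E).2 e).1.1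
  have m2 : xt k Ψ μ + xt k s x ∈ C0 k (fun H => Γ H ∧ P (σ H)) (m + 1) :=
    add_mem (fun T => ⟨trivial, fun e => by
      obtain ⟨E, a, b, c, e⟩ := h.P_ne (fun E e => hPΔ E (sμ E e)) e
      exact ⟨⟨b, hP _ _ c (sμ E a)⟩, e ▸ ((hμ E).2 a).2⟩⟩) fun T => ⟨trivial, fun e => by
      obtain ⟨G, a, b, c, e⟩ := h.s_ne sx e
      have := (hx G).2 a
      exact ⟨⟨b, hP _ _ c this.1.2.1⟩, by omega⟩⟩
  refine ⟨_, prj_mem m2, funext fun H => ?_⟩
  rw [bd_apply]
  split_ifs with hH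
  · rw [del_congr (y := xt k Ψ μ + xt k s x) fun j _ => ?_]
    · have h1 := congrFun (h.hom (R := k) sx) H
      have h2 : xt k s (del k x) H = 0 := by
        by_contra e2
        obtain ⟨G, a, -, c, -⟩ := h.s_ne (fun E e => (dx E e).1) e2
        exact hH.2.2 (hQ _ _ c (dx G a).2.2)
      have h3 : xt k Ψ (del k μ - xt k L x) H = 0 := by
        have sp : ∀ E, (del k μ - xt k L x) E ≠ 0 → P E := fun E e => by
          by_cases e2 : del k μ E = 0
          · exact ((m1 E).2 fun e3 => e (by simp [e2, e3])).1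
          · exact del_supp hP sμ E e2
        by_contra e2
        obtain ⟨E, a, -, c, -⟩ := h.P_ne (fun E e => hPΔ E (sp E e)) e2
        have h4 : P E ∧ ¬ Q E := ⟨sp E a, fun h5 => hH.2.2 (hQ _ _ c h5)⟩
        have := congrFun e1 E
        rw [bd_apply, prj_apply, if_pos h4, if_pos h4] at this
        exact a (by simp [this])
      rw [map_sub, Pi.sub_apply, sub_eq_zero] at h3
      rw [Pi.add_apply, h2, add_zero, Pi.sub_apply] at h1
      rw [map_add, Pi.add_apply, ← h.P_del fun E e => hPΔ E (sμ E e), h1, h3, add_sub_cancel]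
    · rw [prj_apply]
      split_ifs with h1
      · rfl
      · by_contra e2
        have := ((m2 _).2 (Ne.symm e2)).1
        exact h1 ⟨this.1, this.2, fun h2 =>
          hH.2.2 (hQ _ _ (h.hσ _ _ (Finset.subset_insert _ _) this.1) h2)⟩
  · by_contra e2
    exact hH ((hx H).2 (Ne.symm e2)).1

theorem Sd.loc (h : Sd Δ Γ σ f L Ψ s)
    (B1 : ∀ E, Δ E → E.Nonempty → ∀ m, FEx k (fun H => Γ H ∧ σ H ⊆ E) m)
    (B2 : ∀ E, Δ E → ∀ G, G.Nonempty → Γ G → σ G ⊆ E → σ G ≠ E →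
      ∀ m, FEx k (fun H => (Γ H ∧ σ H ⊆ E) ∧ ¬ G ⊆ H) m)
    (B3 : ∀ G, G.Nonempty → Γ G → ∀ m, FEx k (fun H => Γ H ∧ σ H = σ G ∧ ¬ G ⊆ H) m)
    {G : Finset U} (hG : G.Nonempty) (hΓ : Γ G) {m : ℤ} (e0 : FEx k (St Δ (σ G)) m) :
    FEx k (St Γ G) m := by
  let M : (Finset V → Prop) → Finset U → Prop :=
    fun P H => Γ H ∧ P (σ H) ∧ σ G ⊆ σ H ∧ ¬ G ⊆ H
  have cv : ∀ P : Finset V → Prop, (∀ A B, A ⊆ B → P B → P A) → Cvx (M P) :=
    fun P hP A B C h1 h2 a c => ⟨h.hΓ _ _ h2 c.1, hP _ _ (h.hσ _ _ h2 c.1) c.2.1,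
      a.2.2.1.trans (h.hσ _ _ h1 (h.hΓ _ _ h2 c.1)), fun e => c.2.2.2 (e.trans h2)⟩
  have cw : ∀ P : Finset V → Prop, (∀ A B, A ⊆ B → P B → P A) →
      Cvx fun H => Γ H ∧ P (σ H) ∧ ¬ ¬ σ G ⊆ σ H :=
    fun P hP A B C h1 h2 a c => ⟨h.hΓ _ _ h2 c.1, hP _ _ (h.hσ _ _ h2 c.1) c.2.1,
      not_not.2 ((not_not.1 a.2.2).trans (h.hσ _ _ h1 (h.hΓ _ _ h2 c.1)))⟩
  have nd : ∀ A B, A ⊆ B → ¬ σ G ⊆ B → ¬ σ G ⊆ A := fun A B e a b => a (b.trans e)
  have key : ∀ n, ∀ P : Finset V → Prop, (∀ A B, A ⊆ B → P B → P A) → (∀ E, P E → Δ E) →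
      (Finset.univ.filter P).card = n → ∀ m, FEx k (M P) m := by
    intro n
    induction n using Nat.strong_induction_on with
    | h n ih =>
      intro P hP hPΔ hn m
      rcases (Finset.univ.filter P).eq_empty_or_nonempty with h0 | h0
      · exact fex_empty (fun H a => Finset.filter_eq_empty_iff.1 h0 (Finset.mem_univ _) a.2.1) m
      obtain ⟨E, hE, hmax⟩ := Finset.exists_max_image _ Finset.card h0
      simp only [Finset.mem_filter, Finset.mem_univ, true_and] at hE hmax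
      have mx : ∀ A, P A → E ⊆ A → A = E := fun A a b =>
        (Finset.eq_of_subset_of_card_le b (hmax A a)).symm
      have sm : ∀ P' : Finset V → Prop, (∀ A B, A ⊆ B → P' B → P' A) → (∀ A, P' A → P A ∧ A ≠ E) →
          ∀ m, FEx k (M P') m := fun P' a b => ih _ (hn ▸ Finset.card_lt_card
            ⟨fun A => by simpa using fun e => (b A e).1, fun e => by
              simpa using (b E (by simpa using e (show E ∈ _ by simpa))).2⟩) P' a
            (fun A e => hPΔ A (b A e).1) rfl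
      refine fex_mid (cv P hP) (B := M fun A => P A ∧ A ≠ E) (C := M (· = E)) (fun H => ?_)
        (fun H a => ⟨a.1, a.2.1 ▸ hE, a.2.2⟩)
        (fun A B e a b => ⟨b.1, mx _ b.2.1 (a.2.1 ▸ h.hσ _ _ e b.1), b.2.2⟩)
        (sm (fun A => P A ∧ A ≠ E) (fun A B e b => ⟨hP _ _ e b.1, fun e2 => b.2 (mx _ b.1 (e2 ▸ e))⟩) (fun _ a => a) m) ?_
      · simp only [M]
        tauto
      by_cases h1 : σ G ⊆ E
      swap
      · refine fex_empty (fun H a => ?_) m
        exact h1 (a.2.1 ▸ a.2.2.1)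
      by_cases h2 : σ G = E
      · exact fex_congr (fun H => ⟨fun a => ⟨a.1, a.2.1.trans h2, a.2.1.ge, a.2.2⟩,
          fun a => ⟨a.1, a.2.1.trans h2.symm, a.2.2.2⟩⟩) (B3 G hG hΓ m)
      obtain ⟨a, a1, a2⟩ := Finset.exists_of_ssubset (h1.ssubset_of_ne h2)
      have sub : ∀ A B, A ⊆ B → B ⊆ E → A ⊆ E := fun _ _ => Finset.Subset.trans
      have k1 : ∀ m, FEx k (M (· ⊆ E)) m := fun m =>
        fex_low (cw _ sub) (C := fun H => (Γ H ∧ σ H ⊆ E) ∧ G ⊆ H) (fun H => by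
            simp only [M]
            tauto) (fun H b => ⟨b.1.1, b.1.2, not_not.2 (h.hσ _ _ b.2 b.1.1)⟩)
          (fun A B e b c => ⟨⟨c.1, c.2.1⟩, b.2.trans e⟩)
          (h.pull sub nd (fun A e => h.hΔ _ _ e (hPΔ E hE)) (fex_cone a
            (fun A b => ⟨Finset.insert_subset a1 b.1,
              not_not.2 ((not_not.1 b.2).trans (Finset.subset_insert _ _))⟩)
            (fun A b => ⟨(Finset.erase_subset _ _).trans b.1,
              not_not.2 (Finset.subset_erase.2 ⟨not_not.1 b.2, a2⟩)⟩) m))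
          (fex_up (fun A B C _ e _ c => ⟨h.hΓ _ _ e c.1, (h.hσ _ _ e c.1).trans c.2⟩)
            (fun H => by tauto) (fun _ b => b.1) (fun A B e b c => ⟨c, b.2.trans e⟩)
            (B1 E (hPΔ E hE) ⟨a, a1⟩ _) (B2 E (hPΔ E hE) G hG hΓ h1 h2 _))
      refine fex_up (cv _ sub) (B := M fun A => A ⊆ E ∧ A ≠ E) (fun H => ?_)
        (fun H a => ⟨a.1, a.2.1.le, a.2.2⟩)
        (fun A B e a b => ⟨b.1, b.2.1.antisymm (a.2.1 ▸ h.hσ _ _ e b.1), b.2.2⟩) (k1 m)
        (sm (fun A => A ⊆ E ∧ A ≠ E) (fun A B e b => ⟨e.trans b.1, fun e2 => b.2 (b.1.antisymm (e2 ▸ e))⟩)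
          (fun A b => ⟨hP _ _ b.1 hE, b.2⟩) _)
      simp only [M]
      tauto
  refine fex_up (cw Δ h.hΔ) (B := M Δ) (fun H => ?_)
    (fun H a => ⟨a.1, h.mem H a.1, not_not.2 (h.hσ _ _ a.2 a.1)⟩)
    (fun A B e a b => ⟨b.1, a.2.trans e⟩) (h.pull h.hΔ nd (fun _ a => a)
      (fex_congr (by simp [St]) e0)) (key _ Δ h.hΔ (fun _ a => a) rfl _)
  simp only [M, St]
  tauto

theorem Sd.dim (h : Sd Δ Γ σ f L Ψ s)
    (B3 : ∀ G, G.Nonempty → Γ G → ∀ m, FEx k (fun H => Γ H ∧ σ H = σ G ∧ ¬ G ⊆ H) m)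
    {G : Finset U} (hΓ : Γ G) : G.card ≤ (σ G).card := by
  obtain ⟨H, hH, hmax⟩ := Finset.exists_max_image
    (Finset.univ.filter fun H => Γ H ∧ σ H = σ G) Finset.card ⟨G, by simpa⟩
  simp only [Finset.mem_filter, Finset.mem_univ, true_and] at hH hmax
  refine (hmax G ⟨hΓ, rfl⟩).trans (not_lt.1 fun hlt => ?_)
  have h1 := h.pull (P := (· ⊆ σ G)) (Q := fun A => ¬ σ G ⊆ A) (fun _ _ => Finset.Subset.trans)
    (fun A B e a b => a (b.trans e)) (fun A e => h.hΔ _ _ e (h.mem G hΓ)) (m := H.card)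
    (ex_bot ((Submodule.eq_bot_iff _).2 fun x hx => funext fun T => by
      by_contra e
      have := (hx.1 T).2 e
      rw [this.1.1.antisymm (not_not.1 this.1.2)] at this
      omega))
  have h2 := fex_up (C := fun J => (Γ J ∧ σ J = σ G) ∧ H ⊆ J) (fun A B C e1 e2 a c =>
      ⟨h.hΓ _ _ e2 c.1, (h.hσ _ _ e2 c.1).trans c.2.1,
        not_not.2 ((not_not.1 a.2.2).trans (h.hσ _ _ e1 (h.hΓ _ _ e2 c.1)))⟩)
    (fun J => by
      rw [hH.2, not_not, ← Finset.Subset.antisymm_iff]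
      tauto) (fun J a => ⟨a.1.1, a.1.2.le, not_not.2 a.1.2.ge⟩)
    (fun A B e a b => ⟨⟨b.1, b.2.1.antisymm (not_not.1 b.2.2)⟩, a.2.trans e⟩) h1
    (B3 H (Finset.card_pos.1 (by omega)) hH.1 _)
  obtain ⟨y, hy, e⟩ := h2 (Pi.single H 1) (fun T => ⟨trivial, fun e => by
    obtain rfl : T = H := by
      by_contra e2
      simp [e2] at e
    exact ⟨⟨hH, le_rfl⟩, rfl⟩⟩) (funext fun T => by
    rw [bd_apply]
    split_ifs with h3
    · by_contra e
      have := (del_single_ne e).2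
      have := Finset.card_le_card h3.2
      omega
    · rfl)
  have : y = 0 := funext fun T => by
    by_contra e2
    have h3 := (hy T).2 e2
    have := hmax T h3.1.1
    omega
  simpa [this] using congrFun e H

end Pool.Agent.H28.Mon
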