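import Mathlib

set_option autoImplicit false

/-! Binary matroids given by their cycle spaces, and the Penrose polynomial. -/

namespace Pool.Agent.H28.PenroseDefs

/-- A binary matroid on the ground set `Fin n`: a subspace `C` of `GF(2)^n` (the cycles). -/
structure BM where
  n : ℕ
  C : Submodule (ZMod 2) (Fin n → ZMod 2)

/-- The bicycle space of `A`: cycles `c` such that `c ∩ A` is orthogonal to every cycle. -/
def bicycle (M : BM) (A : Finset (Fin M.n)) : Submodule (ZMod 2) (Fin M.n → ZMod 2) where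
  carrier := {c | c ∈ M.C ∧ ∀ d ∈ M.C, ∑ x ∈ A, c x * d x = 0}
  add_mem' := fun {a b} ha hb => ⟨M.C.add_mem ha.1 hb.1, fun d hd => by
    simp [add_mul, Finset.sum_add_distrib, ha.2 d hd, hb.2 d hd]⟩
  zero_mem' := ⟨M.C.zero_mem, by simp⟩
  smul_mem' := fun t {a} ha => ⟨M.C.smul_mem t ha.1, fun d hd => by
    simp [mul_assoc, ← Finset.mul_sum, ha.2 d hd]⟩

/-- The Penrose polynomial `∑_A (-1)^|A| λ^(dim B(A))`. -/
noncomputable def penrose (M : BM) : Polynomial ℤ :=
  ∑ A : Finset (Fin M.n), (-1) ^ A.card * Polynomial.X ^ Module.finrank (ZMod 2) (bicycle M A)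

/-- No partition of the nonempty ground set into two nonempty parts such that the cycles are
exactly the unions of a cycle inside the first part and a cycle inside the second. -/
def Connected (M : BM) : Prop :=
  0 < M.n ∧ ¬ ∃ A : Finset (Fin M.n), A.Nonempty ∧ Aᶜ.Nonempty ∧ ∀ c, c ∈ M.C ↔
    ∃ a ∈ M.C, ∃ b ∈ M.C, (∀ x, x ∉ A → a x = 0) ∧ (∀ x ∈ A, b x = 0) ∧ c = a + b

/-- `(-1)^(r-i) a_i > 0` for all `i ≤ r = dim C`. -/
def Alternating (M : BM) : Prop :=
  ∀ i ≤ Module.finrank (ZMod 2) M.C,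
    0 < (-1) ^ (Module.finrank (ZMod 2) M.C - i) * (penrose M).coeff i

/-- Every element lies in a cycle. -/
def Bridgeless (M : BM) : Prop := ∀ x, ∃ c ∈ M.C, c x ≠ 0

/-- `N` is (a relabelling of) the reduction `M | A`, `A` the range of an injection. -/
def IsReduction (N M : BM) : Prop :=
  ∃ ι : Fin N.n ↪ Fin M.n, ∀ g, g ∈ N.C ↔ ∃ c ∈ M.C, (∀ x, x ∉ Set.range ι → c x = 0) ∧ g = c ∘ ι

/-- `N` is (a relabelling of) the contraction `M · A`, `A` the range of an injection. -/
def IsContraction (N M : BM) : Prop :=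
  ∃ ι : Fin N.n ↪ Fin M.n, ∀ g, g ∈ N.C ↔ ∃ c ∈ M.C, g = c ∘ ι

/-- `N` is obtained from `M` by finitely many reductions and contractions. -/
def IsMinor (N M : BM) : Prop :=
  Relation.ReflTransGen (fun X Y => IsReduction X Y ∨ IsContraction X Y) N M

/-- Bridgeless, not alternating, and every bridgeless proper minor is alternating. -/
def MinimalNonAlternating (M : BM) : Prop :=
  Bridgeless M ∧ ¬ Alternating M ∧ ∀ N, IsMinor N M → N.n < M.n → Bridgeless N → Alternating N

/-- Isomorphism of binary matroids. -/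
def Iso (M N : BM) : Prop := ∃ e : Fin N.n ≃ Fin M.n, ∀ c, c ∈ M.C ↔ c ∘ e ∈ N.C

/-- The dual: the orthogonal complement of the cycle space. -/
def dual (M : BM) : BM := ⟨M.n,
  { carrier := {c | ∀ d ∈ M.C, ∑ x, c x * d x = 0}
    add_mem' := fun {a b} ha hb d hd => by
      simp [add_mul, Finset.sum_add_distrib, ha d hd, hb d hd]
    zero_mem' := by simp
    smul_mem' := fun t {a} ha d hd => by simp [mul_assoc, ← Finset.mul_sum, ha d hd] }⟩

/-- The cycle matroid of a loopless graph whose `i`-th edge joins `s i` and `t i`: the cycles are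
the edge sets in which every vertex has even degree. -/
def cycleMatroid {m k : ℕ} (s t : Fin m → Fin k) : BM := ⟨m,
  { carrier := {c | ∀ v, ∑ x ∈ Finset.univ.filter (fun x => s x = v ∨ t x = v), c x = 0}
    add_mem' := fun {a b} ha hb v => by simp [Finset.sum_add_distrib, ha v, hb v]
    zero_mem' := by simp
    smul_mem' := fun u {a} ha v => by simp [← Finset.mul_sum, ha v] }⟩

/-- The Fano matroid: the cycle space is spanned by the lines `{i, i+1, i+3}` modulo seven. -/
def fano : BM := ⟨7, Submodule.span (ZMod 2)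
  (Set.range fun i : Fin 7 => fun x : Fin 7 => if x = i ∨ x = i + 1 ∨ x = i + 3 then 1 else 0)⟩

/-- The cycle matroid of the Petersen graph (outer cycle, spokes, inner pentagram). -/
def petersen : BM := cycleMatroid
  (![0, 1, 2, 3, 4, 0, 1, 2, 3, 4, 5, 6, 7, 8, 9] : Fin 15 → Fin 10)
  ![1, 2, 3, 4, 0, 5, 6, 7, 8, 9, 7, 8, 9, 5, 6]

/-- The cycle matroid of the complete graph on five vertices. -/
def k5 : BM := cycleMatroid
  (![0, 0, 0, 0, 1, 1, 1, 2, 2, 3] : Fin 10 → Fin 5) ![1, 2, 3, 4, 2, 3, 4, 3, 4, 4]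

end Pool.Agent.H28.PenroseDefs
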