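import Pool.Agent.H28.BinRank
import Pool.Agent.H28.PenroseDefs

set_option autoImplicit false

/-! Kernel evaluation of Penrose polynomials, and a minor closed covering property. -/

namespace Pool.Agent.H28.Penrose

open Submodule Module Pool.Agent.H28.BinRank Pool.Agent.H28.PenroseDefs

/-- rank of a list of binary vectors -/
def rk : ℕ → List ℕ → ℕ
  | _, [] => 0
  | 0, _ => 0
  | n + 1, x :: l => if x = 0 then rk n l else rk n (l.map (red x)) + 1

theorem rk_eq {m : ℕ} (n : ℕ) : ∀ l : List ℕ, l.length ≤ n → (∀ x ∈ l, x < 2 ^ m) →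
    finrank (ZMod 2) (span (ZMod 2) ((fun x => vec m x) '' {x | x ∈ l})) = rk n l := by
  induction n with
  | zero =>
    intro l hl _
    obtain rfl : l = [] := List.length_eq_zero_iff.1 (by omega)
    have : span (ZMod 2) ((fun x => vec m x) '' {x | x ∈ ([] : List ℕ)}) = ⊥ := by simp
    rw [this, finrank_bot, rk]
  | succ n ih =>
    intro l hl hlt
    cases l with
    | nil =>
      have : span (ZMod 2) ((fun x => vec m x) '' {x | x ∈ ([] : List ℕ)}) = ⊥ := by simp
      rw [this, finrank_bot, rk]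
    | cons x l =>
      have h1 : {y | y ∈ x :: l} = insert x {y | y ∈ l} := by ext; simp
      have hl' : l.length ≤ n := by simpa using hl
      rw [h1, Set.image_insert_eq, rk]
      split_ifs with h0
      · rw [h0, vec_zero, span_insert_zero, ih l hl' fun y hy => hlt y (List.mem_cons_of_mem _ hy)]
      · have hx := hlt x List.mem_cons_self
        rw [finrank_red hx h0 (fun y => y), ← ih (l.map (red x)) (by simpa using hl') (by
          intro y hy
          obtain ⟨z, hz, rfl⟩ := List.mem_map.1 hy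
          exact red_lt hx (hlt z (List.mem_cons_of_mem _ hz)))]
        have : (fun y => vec m (red x y)) '' {y | y ∈ l} =
            (fun y => vec m y) '' {y | y ∈ l.map (red x)} := by
          ext v
          simp
        rw [this]

def upd (v : ℕ) : ℕ → List ℕ → List ℕ
  | _, [] => []
  | i, g :: t => (if v.testBit i then g ^^^ v else g) :: upd v (i + 1) t

theorem upd_ofFn (v : ℕ) (r : ℕ) : ∀ (k : ℕ) (G : Fin r → ℕ),
    upd v k (List.ofFn G) = List.ofFn fun i => if v.testBit (k + i) then G i ^^^ v else G i := by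
  induction r with
  | zero => intro k G; simp [upd]
  | succ r ih =>
    intro k G
    rw [List.ofFn_succ, List.ofFn_succ, upd, ih]
    simp [add_assoc, add_comm 1]

def PS (r : ℕ) : List ℕ → List ℕ → List ℤ
  | [], G => List.replicate (rk r G) 0 ++ [1]
  | x :: l, G => psub (PS r l G) (PS r l (upd x 0 G))

theorem ev_single {R : Type*} [CommRing R] (k : ℕ) : ∀ g : ℕ → R,
    ev (List.replicate k 0 ++ [1]) g = g k := by
  induction k with
  | zero => intro g; simp [ev]
  | succ k ih => intro g; simp [List.replicate_succ, ev, ih]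

theorem sum_eq_PS {ι R : Type*} [DecidableEq ι] [CommRing R] {r : ℕ} (c : ι → ℕ)
    (hc : ∀ i, c i < 2 ^ r) (g : ℕ → R) (I : List ι) (hI : I.Nodup) :
    ∀ G : Fin r → ℕ, (∀ i, G i < 2 ^ r) →
    ∑ A ∈ I.toFinset.powerset, (-1 : R) ^ A.card * g (finrank (ZMod 2) (span (ZMod 2)
      (Set.range fun i : Fin r => vec r (G i) + ∑ e ∈ A, vec r (c e) i • vec r (c e)))) =
        ev (PS r (I.map c) (List.ofFn G)) g := by
  induction I with
  | nil =>
    intro G hG
    simp only [List.toFinset_nil, Finset.powerset_empty, Finset.sum_singleton, List.map_nil, PS,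
      ev_single, Finset.card_empty, pow_zero, one_mul]
    rw [← rk_eq (m := r) r _ (by simp) (by simpa using hG)]
    have : (Set.range fun i : Fin r => vec r (G i) +
        ∑ e ∈ (∅ : Finset ι), vec r (c e) i • vec r (c e)) =
        (fun y => vec r y) '' {y | y ∈ List.ofFn G} := by
      ext v
      simp
    rw [this]
  | cons j I ih =>
    intro G hG
    rw [List.nodup_cons] at hI
    have hjI : j ∉ I.toFinset := by simpa using hI.1
    rw [List.toFinset_cons, Finset.sum_powerset_insert hjI, List.map_cons, PS, ev_psub,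
      ← ih hI.2 G hG, upd_ofFn, ← ih hI.2 _ (by
        intro i
        split_ifs
        · exact Nat.xor_lt_two_pow (hG i) (hc j)
        · exact hG i), sub_eq_add_neg, ← Finset.sum_neg_distrib]
    congr 1
    refine Finset.sum_congr rfl fun A hA => ?_
    have hjA : j ∉ A := fun h => hjI (Finset.mem_powerset.1 hA h)
    have : (fun i : Fin r => vec r (G i) + ∑ e ∈ insert j A, vec r (c e) i • vec r (c e)) =
        fun i : Fin r => vec r (if (c j).testBit (0 + i) then G i ^^^ c j else G i) +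
          ∑ e ∈ A, vec r (c e) i • vec r (c e) := by
      funext i
      rw [Finset.sum_insert hjA, zero_add, ← add_assoc]
      congr 1
      split_ifs with h
      · rw [vec_xor]; simp [vec, h]
      · simp [vec, h]
    rw [this, Finset.card_insert_of_notMem hjA]
    ring

/-- the generator map of a family of columns -/
def gen {n : ℕ} (r : ℕ) (c : Fin n → ℕ) : (Fin r → ZMod 2) →ₗ[ZMod 2] (Fin n → ZMod 2) :=
  Matrix.mulVecLin (Matrix.of fun e i => vec r (c e) i)

theorem gen_apply {n : ℕ} (r : ℕ) (c : Fin n → ℕ) (y : Fin r → ZMod 2) (e : Fin n) :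
    gen r c y e = ∑ i, vec r (c e) i * y i := rfl

/-- the binary matroid whose cycle space is the row space of the given columns -/
abbrev mk {n : ℕ} (r : ℕ) (c : Fin n → ℕ) : BM := ⟨n, LinearMap.range (gen r c)⟩

theorem finrank_mk {n r : ℕ} {c : Fin n → ℕ} (h : Function.Injective (gen r c)) :
    finrank (ZMod 2) (mk r c).C = r := by
  rw [LinearMap.finrank_range_of_inj h, Module.finrank_fin_fun]

theorem finrank_bicycle {n r : ℕ} {c : Fin n → ℕ} (h : Function.Injective (gen r c))
    (A : Finset (Fin n)) : finrank (ZMod 2) (bicycle (mk r c) A) = r - finrank (ZMod 2)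
      (span (ZMod 2) (Set.range fun i : Fin r => vec r 0 + ∑ e ∈ A, vec r (c e) i • vec r (c e))) := by
  let G : Matrix (Fin r) (Fin r) (ZMod 2) := fun i => vec r 0 + ∑ e ∈ A, vec r (c e) i • vec r (c e)
  have hG : ∀ y i, G.mulVec y i = ∑ e ∈ A, gen r c y e * vec r (c e) i := by
    intro y i
    simp only [Matrix.mulVec, dotProduct, G, vec_zero, zero_add, Finset.sum_apply, Pi.smul_apply,
      smul_eq_mul, Finset.sum_mul, gen_apply]
    rw [Finset.sum_comm]
    exact Finset.sum_congr rfl fun e _ => Finset.sum_congr rfl fun t _ => by ring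
  have h1 : bicycle (mk r c) A = (LinearMap.ker G.mulVecLin).map (gen r c) := by
    ext x
    constructor
    · rintro ⟨⟨y, rfl⟩, hy⟩
      refine ⟨y, ?_, rfl⟩
      funext i
      have := hy _ ⟨Pi.single i 1, rfl⟩
      rw [Matrix.mulVecLin_apply, hG, Pi.zero_apply, ← this]
      refine Finset.sum_congr rfl fun e _ => ?_
      simp [gen_apply, Pi.single_apply]
    · rintro ⟨y, hy, rfl⟩
      refine ⟨⟨y, rfl⟩, ?_⟩
      rintro _ ⟨z, rfl⟩
      have h2 : ∀ i, ∑ e ∈ A, gen r c y e * vec r (c e) i = 0 := fun i => by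
        rw [← hG]; exact congrFun hy i
      simp only [gen_apply r c z, Finset.mul_sum, ← mul_assoc]
      rw [Finset.sum_comm]
      exact Finset.sum_eq_zero fun i _ => by rw [← Finset.sum_mul, h2, zero_mul]
  have h2 := LinearMap.finrank_range_add_finrank_ker G.mulVecLin
  have h3 := Matrix.rank_eq_finrank_span_row G
  rw [Module.finrank_fin_fun] at h2
  rw [h1, ← (Submodule.equivMapOfInjective _ h _).finrank_eq]
  unfold Matrix.rank at h3
  change _ = r - finrank (ZMod 2) (span (ZMod 2) (Set.range G.row))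
  omega

theorem penrose_mk {n r : ℕ} {c : Fin n → ℕ} (h : Function.Injective (gen r c))
    (hc : ∀ i, c i < 2 ^ r) : penrose (mk r c) =
      ev (PS r (List.ofFn c) (List.ofFn fun _ : Fin r => 0)) (fun k => Polynomial.X ^ (r - k)) := by
  have := sum_eq_PS c hc (fun k => (Polynomial.X : Polynomial ℤ) ^ (r - k)) (List.finRange n)
    (List.nodup_finRange n) (fun _ => 0) (fun _ => by positivity)
  rw [List.toFinset_finRange, Finset.powerset_univ, ← List.ofFn_eq_map] at this
  rw [← this, penrose]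
  exact Finset.sum_congr rfl fun A _ => by rw [finrank_bicycle h]

/-- inside every set, two cycles cover all cycles -/
def Cov (M : BM) : Prop := ∀ A : Set (Fin M.n), ∃ a ∈ M.C, ∃ b ∈ M.C, (∀ x, x ∉ A → a x = 0) ∧
  (∀ x, x ∉ A → b x = 0) ∧ ∀ c ∈ M.C, (∀ x, x ∉ A → c x = 0) → ∀ x, c x ≠ 0 → a x ≠ 0 ∨ b x ≠ 0

theorem Cov.minor {M N : BM} (h : IsMinor N M) (hM : Cov M) : Cov N := by
  induction h using Relation.ReflTransGen.head_induction_on with
  | refl => exact hM
  | @head X Y hXY _ ih =>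
    intro A
    rcases hXY with ⟨ι, hι⟩ | ⟨ι, hι⟩
    · obtain ⟨a, ha, b, hb, h1, h2, h3⟩ := ih (ι '' A)
      refine ⟨a ∘ ι, (hι _).2 ⟨a, ha, fun x hx => h1 x fun hh => hx (Set.image_subset_range _ _ hh),
        rfl⟩, b ∘ ι, (hι _).2 ⟨b, hb, fun x hx => h2 x fun hh => hx (Set.image_subset_range _ _ hh),
        rfl⟩, fun x hx => h1 _ (by simpa using hx), fun x hx => h2 _ (by simpa using hx), ?_⟩
      intro g hg hgA x hx
      obtain ⟨c, hc, hc', rfl⟩ := (hι g).1 hg
      refine h3 c hc (fun y hy => ?_) _ hx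
      by_cases hyr : y ∈ Set.range ι
      · obtain ⟨z, rfl⟩ := hyr
        exact hgA z (by simpa using hy)
      · exact hc' y hyr
    · obtain ⟨a, ha, b, hb, h1, h2, h3⟩ := ih (ι '' Aᶜ)ᶜ
      refine ⟨a ∘ ι, (hι _).2 ⟨a, ha, rfl⟩, b ∘ ι, (hι _).2 ⟨b, hb, rfl⟩,
        fun x hx => h1 _ (by simpa using hx), fun x hx => h2 _ (by simpa using hx), ?_⟩
      intro g hg hgA x hx
      obtain ⟨c, hc, rfl⟩ := (hι g).1 hg
      refine h3 c hc (fun y hy => ?_) _ hx
      obtain ⟨z, hz, rfl⟩ := not_not.1 hy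
      exact hgA z hz

/-- two cycles cover the ground set -/
def Cov2 (M : BM) : Prop := ∃ a ∈ M.C, ∃ b ∈ M.C, ∀ x, a x ≠ 0 ∨ b x ≠ 0

theorem Cov.cov2 {M : BM} (h : Cov M) (hb : Bridgeless M) : Cov2 M := by
  obtain ⟨a, ha, b, hb', -, -, h3⟩ := h Set.univ
  refine ⟨a, ha, b, hb', fun x => ?_⟩
  obtain ⟨c, hc, hx⟩ := hb x
  exact h3 c hc (by simp) x hx

theorem Cov2.iso {M N : BM} (h : Cov2 M) (hi : Iso M N) : Cov2 N := by
  obtain ⟨a, ha, b, hb, h3⟩ := h
  obtain ⟨e, he⟩ := hi
  exact ⟨_, (he a).1 ha, _, (he b).1 hb, fun x => h3 (e x)⟩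

theorem exists_minimal (M : BM) (hb : Bridgeless M) (ha : ¬ Alternating M) :
    ∃ N, IsMinor N M ∧ MinimalNonAlternating N := by
  classical
  have hex : ∃ k, ∃ N, N.n = k ∧ IsMinor N M ∧ Bridgeless N ∧ ¬ Alternating N :=
    ⟨_, M, rfl, Relation.ReflTransGen.refl, hb, ha⟩
  obtain ⟨N, hn, h1, h2, h3⟩ := Nat.find_spec hex
  refine ⟨N, h1, h2, h3, fun X hX hlt hXb => ?_⟩
  by_contra hXa
  exact Nat.find_min hex (hn ▸ hlt) ⟨X, rfl, hX.trans h1, hXb, hXa⟩

def good (Y : List ℕ) : Bool := Y.any fun a => Y.any fun b => Y.all fun c => c ||| (a ||| b) == a ||| b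

def chk : List ℕ → List ℕ → Bool
  | [], Y => good Y
  | e :: l, Y => chk l Y &&
      (Y.all (fun y => !y.testBit e) || chk l (Y.filter fun y => !y.testBit e))

theorem chk_spec (p : ℕ → Bool) (l : List ℕ) : ∀ Y, chk l Y = true →
    good (Y.filter fun y => l.all fun e => !p e || !y.testBit e) = true := by
  induction l with
  | nil => intro Y h; simpa [chk] using h
  | cons e l ih =>
    intro Y h
    rw [chk, Bool.and_eq_true, Bool.or_eq_true] at h
    cases hp : p e with
    | false => simpa [hp] using ih Y h.1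
    | true =>
      rcases h.2 with h2 | h2
      · have := ih Y h.1
        rw [← this]
        congr 1
        refine List.filter_congr fun y hy => ?_
        have := List.all_eq_true.1 h2 y hy
        simp [hp, this]
      · have := ih _ h2
        rw [List.filter_filter] at this
        rw [← this]
        congr 1
        refine List.filter_congr fun y _ => ?_
        simp [hp, Bool.and_comm]

theorem vec_ne {m a : ℕ} {x : Fin m} : vec m a x ≠ 0 ↔ a.testBit x = true := by
  unfold vec
  cases a.testBit x <;> simp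

theorem cov_of_chk {M : BM} (Y : List ℕ) (hY : ∀ c, c ∈ M.C ↔ ∃ y ∈ Y, c = vec M.n y)
    (h : chk (List.range M.n) Y = true) : Cov M := by
  classical
  intro A
  have h1 := chk_spec (fun e => decide (∃ x : Fin M.n, x.1 = e ∧ x ∉ A)) _ Y h
  have key : ∀ y, ((List.range M.n).all fun e =>
      !decide (∃ x : Fin M.n, x.1 = e ∧ x ∉ A) || !y.testBit e) = true ↔
      ∀ x, x ∉ A → vec M.n y x = 0 := by
    intro y
    rw [List.all_eq_true]
    constructor
    · intro hh x hx
      have := hh x.1 (List.mem_range.2 x.2)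
      rw [decide_eq_true ⟨x, rfl, hx⟩] at this
      by_contra hne
      simp [vec_ne.1 hne] at this
    · intro hh e _
      by_cases he : ∃ x : Fin M.n, x.1 = e ∧ x ∉ A
      · obtain ⟨x, rfl, hx⟩ := he
        have h2 : ¬ y.testBit x = true := fun h3 => vec_ne.2 h3 (hh x hx)
        simp [h2]
      · rw [decide_eq_false he]; rfl
  simp only [good, List.any_eq_true, List.all_eq_true (l := List.filter _ _), List.mem_filter, key,
    beq_iff_eq] at h1
  obtain ⟨a, ⟨ha, ha'⟩, b, ⟨hb, hb'⟩, h3⟩ := h1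
  refine ⟨_, (hY _).2 ⟨a, ha, rfl⟩, _, (hY _).2 ⟨b, hb, rfl⟩, ha', hb', fun c hc hcA x hx => ?_⟩
  obtain ⟨y, hy, rfl⟩ := (hY c).1 hc
  have h4 := congrArg (fun t => t.testBit x) (h3 y ⟨hy, hcA⟩)
  simp only [Nat.testBit_or, vec_ne.1 hx, Bool.true_or] at h4
  rw [vec_ne, vec_ne, ← Bool.or_eq_true, ← h4]

theorem vec_surj {r : ℕ} (z : Fin r → ZMod 2) : ∃ k < 2 ^ r, vec r k = z := by
  refine ⟨Nat.ofBits fun i => decide (z i = 1), Nat.ofBits_lt_two_pow _, funext fun i => ?_⟩
  have h : ∀ t : ZMod 2, (if decide (t = 1) = true then 1 else 0) = t := by decide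
  rw [vec, Nat.testBit_ofBits_lt _ _ i.2]
  exact h _

theorem mem_mk {n r : ℕ} {c : Fin n → ℕ} (Y : List ℕ) (hl : Y.length = 2 ^ r)
    (h : ∀ k < 2 ^ r, gen r c (vec r k) = vec n (Y.getD k 0)) (x : Fin n → ZMod 2) :
    x ∈ (mk r c).C ↔ ∃ y ∈ Y, x = vec n y := by
  constructor
  · rintro ⟨z, rfl⟩
    obtain ⟨k, hk, rfl⟩ := vec_surj z
    refine ⟨_, ?_, h k hk⟩
    rw [List.getD_eq_getElem _ _ (hl ▸ hk)]
    exact List.getElem_mem _
  · rintro ⟨y, hy, rfl⟩
    obtain ⟨k, hk, rfl⟩ := List.getElem_of_mem hy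
    exact ⟨vec r k, by rw [h k (hl ▸ hk), List.getD_eq_getElem _ _ hk]⟩

theorem gen_inj {n r : ℕ} {c : Fin n → ℕ} (Y : List ℕ)
    (h : ∀ k < 2 ^ r, gen r c (vec r k) = vec n (Y.getD k 0))
    (h0 : ∀ k < 2 ^ r, vec n (Y.getD k 0) = 0 → k = 0) : Function.Injective (gen r c) := by
  rw [injective_iff_map_eq_zero]
  intro z hz
  obtain ⟨k, hk, rfl⟩ := vec_surj z
  rw [h0 k hk (by rw [← h k hk, hz]), vec_zero]

end Pool.Agent.H28.Penrose
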