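import Pool.Agent.H28.Penrose

set_option autoImplicit false

namespace Pool.Agent.H28.PenroseEx1

open Pool.Agent.H28.BinRank Pool.Agent.H28.PenroseDefs Pool.Agent.H28.Penrose

def col : Fin 11 → ℕ := ![1, 2, 4, 8, 16, 32, 22, 20, 39, 41, 18]

def Y : List ℕ := [0, 769, 1346, 1603, 452, 709, 1158, 1927, 520, 265, 1866, 1099, 972, 205, 1678, 1423, 1232, 2001, 402, 659, 1300, 1557, 86, 855, 1752, 1497, 922, 155, 1820, 1053, 606, 351, 800, 33, 1634, 1379, 740, 485, 1958, 1191, 296, 553, 1130, 1899, 236, 1005, 1454, 1711, 2032, 1265, 690, 435, 1588, 1333, 886, 119, 1528, 1785, 186, 955, 1084, 1853, 382, 639]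

theorem h1 : ∀ k < 2 ^ 6, ∀ e, ∑ i, vec 6 (col e) i * vec 6 k i = vec 11 (Y.getD k 0) e := by
  decide +kernel

theorem h2 : ∀ k < 2 ^ 6, vec 11 (Y.getD k 0) = 0 → k = 0 := by decide +kernel

theorem h3 : PS 6 (List.ofFn col) (List.ofFn fun _ : Fin 6 => 0) =
    [1, -10, 41, -88, 104, -64, 16] := by decide +kernel

theorem h4 : ∀ a < 2 ^ 11, a = 0 ∨ a = 2047 ∨ ∃ y ∈ Y, y &&& a ∉ Y := by decide +kernel

theorem h5 : ∀ y ∈ Y, y < 2 ^ 11 := by decide +kernel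

theorem hgen (k : ℕ) (hk : k < 2 ^ 6) : gen 6 col (vec 6 k) = vec 11 (Y.getD k 0) :=
  funext (h1 k hk)

theorem pen : penrose (mk 6 col) = (Polynomial.X - 1) ^ 2 * (Polynomial.X - 2) ^ 4 := by
  rw [penrose_mk (gen_inj Y hgen h2) (by decide), h3]
  simp only [ev]
  push_cast
  ring

theorem vec_inj {a b : ℕ} (ha : a < 2 ^ 11) (hb : b < 2 ^ 11) (h : vec 11 a = vec 11 b) : a = b := by
  refine Nat.eq_of_testBit_eq fun i => ?_
  by_cases hi : i < 11
  · have := congrFun h ⟨i, hi⟩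
    rw [Bool.eq_iff_iff, ← vec_ne (x := ⟨i, hi⟩), ← vec_ne (x := ⟨i, hi⟩), this]
  · have h1 : 2 ^ 11 ≤ 2 ^ i := Nat.pow_le_pow_right (by norm_num) (by omega)
    rw [Nat.testBit_lt_two_pow (by omega), Nat.testBit_lt_two_pow (by omega)]

theorem conn : Connected (mk 6 col) := by
  refine ⟨by decide, ?_⟩
  rintro ⟨A, ⟨x0, hx0⟩, ⟨x1, hx1⟩, hA⟩
  obtain ⟨a, ha, hav⟩ := vec_surj (fun x : Fin 11 => if x ∈ A then (1 : ZMod 2) else 0)
  have hbit : ∀ x : Fin 11, a.testBit x = true ↔ x ∈ A := fun x => by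
    rw [← vec_ne, hav]; simp
  rcases h4 a ha with rfl | rfl | ⟨y, hy, hya⟩
  · simpa using (hbit x0).2 hx0
  · exact Finset.mem_compl.1 hx1 ((hbit x1).1 ((by decide : ∀ x : Fin 11, Nat.testBit 2047 x = true) x1))
  · obtain ⟨p, hp, q, -, hp', hq', hpq⟩ :=
      (hA (vec 11 y)).1 ((mem_mk Y rfl hgen _).2 ⟨y, hy, rfl⟩)
    obtain ⟨z, hz, rfl⟩ := (mem_mk Y rfl hgen _).1 hp
    apply hya
    rw [vec_inj (lt_of_le_of_lt Nat.and_le_left (h5 y hy)) (h5 z hz) (funext fun x => ?_)]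
    · exact hz
    · have h6 := congrFun hpq x
      by_cases hx : x ∈ A
      · rw [Pi.add_apply, hq' x hx, add_zero] at h6
        rw [← h6]
        simp [vec, (hbit x).2 hx]
      · rw [hp' x hx]
        have : a.testBit x = false := by simpa [← hbit] using hx
        simp [vec, this]

end Pool.Agent.H28.PenroseEx1
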