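import Pool.Agent.H28.PenroseEx2c

set_option autoImplicit false

namespace Pool.Agent.H28.PenroseEx2

open Pool.Agent.H28.BinRank Pool.Agent.H28.PenroseDefs Pool.Agent.H28.Penrose

theorem hgen (k : ℕ) (hk : k < 2 ^ 7) : gen 7 col (vec 7 k) = vec 16 (Y.getD k 0) :=
  funext (h1 k hk)

theorem hlen : Y.length = 2 ^ 7 := by decide +kernel

theorem cov : Cov (mk 7 col) := cov_of_chk Y2 (fun c => by
  rw [mem_mk Y hlen hgen]
  exact ⟨fun ⟨y, hy, h⟩ => ⟨y, h6.1 y hy, h⟩, fun ⟨y, hy, h⟩ => ⟨y, h6.2 y hy, h⟩⟩) h4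

theorem bridgeless : Bridgeless (mk 7 col) := fun x => by
  obtain ⟨y, hy, h⟩ := h5 x
  exact ⟨_, (mem_mk Y hlen hgen _).2 ⟨y, hy, rfl⟩, h⟩

theorem ev_coeff (l : List ℤ) : ∀ g : ℕ → Polynomial ℤ,
    (ev l g).coeff 0 = ev l fun k => (g k).coeff 0 := by
  induction l with
  | nil => simp [ev]
  | cons s a ih => intro g; simp [ev, ih]

theorem ev_congr (r : ℕ) (l : List ℕ) (g g' : ℕ → ℤ) (h : ∀ k ≤ r, g k = g' k) :
    ∀ G : List ℕ, G.length = r → ev (PS r l G) g = ev (PS r l G) g' := by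
  induction l with
  | nil => intro G hG; rw [PS, ev_single, ev_single, h _ (hG ▸ rk_le r G)]
  | cons x l ih =>
    intro G hG
    rw [PS, ev_psub, ev_psub, ih G hG, ih _ (by rw [upd_eq, length_upd', hG])]

theorem nonalt : ¬ Alternating (mk 7 col) := by
  intro h
  have := h 0 (Nat.zero_le _)
  rw [finrank_mk (gen_inj Y hgen h2), penrose_mk (gen_inj Y hgen h2) (by decide), ev_coeff,
    ev_congr 7 _ _ (fun k => if k = 7 then (1 : ℤ) else 0) (fun k hk => by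
      rw [Polynomial.coeff_X_pow]
      congr 1
      exact propext (by omega)) _ (by simp), ev_PS _ _ _ (by simp),
    show (List.ofFn col).map (fun x => (x, x)) = (l0 :: L).flatten by decide,
    show (List.ofFn fun _ : Fin 7 => 0) = [0, 0, 0, 0, 0, 0, 0] by decide,
    ← fast_eq 23 L l0 _ (by simp [ok, L, l0]) (by decide) (by decide) (by decide), h3] at this
  norm_num at this

theorem not_fano : ¬ Cov2 (dual fano) := by
  rintro ⟨a, ha, b, hb, h⟩
  have key : ∀ c : Fin 7 → ZMod 2, c ∈ (dual fano).C → ∀ i : Fin 7,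
      ∑ x, c x * (if x = i ∨ x = i + 1 ∨ x = i + 3 then 1 else 0) = 0 :=
    fun c hc i => hc _ (Submodule.subset_span (R := ZMod 2) (M := Fin 7 → ZMod 2) ⟨i, rfl⟩)
  obtain ⟨k, hk, rfl⟩ := vec_surj (r := 7) a
  obtain ⟨j, hj, rfl⟩ := vec_surj (r := 7) b
  have h1 : ∀ k < 2 ^ 7, (∀ i : Fin 7,
      ∑ x, vec 7 k x * (if x = i ∨ x = i + 1 ∨ x = i + 3 then 1 else 0) = 0) →
      k ∈ ([0, 29, 39, 58, 78, 83, 105, 116] : List ℕ) := by decide +kernel
  have h2 : ∀ k ∈ ([0, 29, 39, 58, 78, 83, 105, 116] : List ℕ), ∀ j ∈ ([0, 29, 39, 58, 78, 83, 105, 116] : List ℕ),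
      ¬ ∀ x : Fin 7, vec 7 k x ≠ 0 ∨ vec 7 j x ≠ 0 := by decide +kernel
  exact h2 k (h1 k hk (key _ ha)) j (h1 j hj (key _ hb)) h

theorem not_k5 : ¬ Cov2 (dual k5) := by
  rintro ⟨a, ha, b, hb, h⟩
  have hT : ∀ t ∈ ([19, 37, 73, 134, 266, 524] : List ℕ), vec 10 t ∈ k5.C := by
    intro t ht v
    revert v t
    decide +kernel
  have key : ∀ c : Fin 10 → ZMod 2, c ∈ (dual k5).C → ∀ t ∈ ([19, 37, 73, 134, 266, 524] : List ℕ),
      ∑ x, c x * vec 10 t x = 0 := fun c hc t ht => hc _ (hT t ht)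
  obtain ⟨k, hk, rfl⟩ := vec_surj (r := 10) a
  obtain ⟨j, hj, rfl⟩ := vec_surj (r := 10) b
  have h1 : ∀ k < 2 ^ 10, (∀ t ∈ ([19, 37, 73, 134, 266, 524] : List ℕ), ∑ x, vec 10 k x * vec 10 t x = 0) →
      k ∈ ([0, 15, 113, 126, 402, 413, 483, 492, 676, 683, 725, 730, 822, 825, 839, 840] : List ℕ) := by decide +kernel
  have h2 : ∀ k ∈ ([0, 15, 113, 126, 402, 413, 483, 492, 676, 683, 725, 730, 822, 825, 839, 840] : List ℕ), ∀ j ∈ ([0, 15, 113, 126, 402, 413, 483, 492, 676, 683, 725, 730, 822, 825, 839, 840] : List ℕ),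
      ¬ ∀ x : Fin 10, vec 10 k x ≠ 0 ∨ vec 10 j x ≠ 0 := by decide +kernel
  exact h2 k (h1 k hk (key _ ha)) j (h1 j hj (key _ hb)) h

theorem not_pet : ¬ Cov2 petersen := by
  rintro ⟨a, ha, b, hb, h⟩
  have key : ∀ c : Fin 15 → ZMod 2, c ∈ petersen.C →
      c 5 = c 0 + c 4 ∧ c 6 = c 0 + c 1 ∧ c 7 = c 1 + c 2 ∧ c 8 = c 2 + c 3 ∧ c 9 = c 3 + c 4 ∧
      c 13 = c 5 + c 10 ∧ c 11 = c 13 + c 8 ∧ c 14 = c 11 + c 6 ∧ c 12 = c 14 + c 9 := by
    intro c hc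
    have e : ∀ x y z : ZMod 2, x + y + z = 0 → x = y + z ∧ y = x + z ∧ z = x + y ∧ x = z + y ∧
      y = z + x ∧ z = y + x := by decide
    have g : ∀ (v : Fin 10) (x y z : Fin 15), Finset.univ.filter (fun i : Fin 15 =>
        (![0, 1, 2, 3, 4, 0, 1, 2, 3, 4, 5, 6, 7, 8, 9] : Fin 15 → Fin 10) i = v ∨
        (![1, 2, 3, 4, 0, 5, 6, 7, 8, 9, 7, 8, 9, 5, 6] : Fin 15 → Fin 10) i = v) = {x, y, z} →
        x ≠ y → x ≠ z → y ≠ z → c x + c y + c z = 0 := by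
      intro v x y z h h1 h2 h3
      have := hc v
      rw [h, Finset.sum_insert (by simp [h1, h2]), Finset.sum_pair h3, ← add_assoc] at this
      exact this
    exact ⟨(e _ _ _ (g 0 5 0 4 (by decide) (by decide) (by decide) (by decide))).1,
      (e _ _ _ (g 1 6 0 1 (by decide) (by decide) (by decide) (by decide))).1,
      (e _ _ _ (g 2 7 1 2 (by decide) (by decide) (by decide) (by decide))).1,
      (e _ _ _ (g 3 8 2 3 (by decide) (by decide) (by decide) (by decide))).1,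
      (e _ _ _ (g 4 9 3 4 (by decide) (by decide) (by decide) (by decide))).1,
      (e _ _ _ (g 5 13 5 10 (by decide) (by decide) (by decide) (by decide))).1,
      (e _ _ _ (g 8 11 13 8 (by decide) (by decide) (by decide) (by decide))).1,
      (e _ _ _ (g 6 14 11 6 (by decide) (by decide) (by decide) (by decide))).1,
      (e _ _ _ (g 9 12 14 9 (by decide) (by decide) (by decide) (by decide))).1⟩
  obtain ⟨a1, a2, a3, a4, a5, a6, a7, a8, a9⟩ := key a ha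
  obtain ⟨b1, b2, b3, b4, b5, b6, b7, b8, b9⟩ := key b hb
  have h0 := h (0 : Fin 15)
  have h1 := h (1 : Fin 15)
  have h2 := h (2 : Fin 15)
  have h3 := h (3 : Fin 15)
  have h4 := h (4 : Fin 15)
  have h5 := h (5 : Fin 15)
  have h6 := h (6 : Fin 15)
  have h7 := h (7 : Fin 15)
  have h8 := h (8 : Fin 15)
  have h9 := h (9 : Fin 15)
  have h10 := h (10 : Fin 15)
  have h11 := h (11 : Fin 15)
  have h12 := h (12 : Fin 15)
  have h13 := h (13 : Fin 15)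
  have h14 := h (14 : Fin 15)
  rw [a9, b9] at h12
  rw [a8, b8] at h12 h14
  rw [a7, b7] at h12 h14 h11
  rw [a6, b6] at h12 h14 h11 h13
  simp only [a1, a2, a3, a4, a5, b1, b2, b3, b4, b5] at h5 h6 h7 h8 h9 h11 h12 h13 h14
  revert h0 h1 h2 h3 h4 h5 h6 h7 h8 h9 h10 h11 h12 h13 h14
  generalize a (0 : Fin 15) = x0, a (1 : Fin 15) = x1, a (2 : Fin 15) = x2, a (3 : Fin 15) = x3,
    a (4 : Fin 15) = x4, a (10 : Fin 15) = x5, b (0 : Fin 15) = y0, b (1 : Fin 15) = y1,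
    b (2 : Fin 15) = y2, b (3 : Fin 15) = y3, b (4 : Fin 15) = y4, b (10 : Fin 15) = y5
  revert x0 y0 x1 y1 x2 y2 x3 y3 x4 y4 x5 y5
  set_option synthInstance.maxSize 4000 in
  decide +kernel

end Pool.Agent.H28.PenroseEx2
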