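import Pool.Agent.H28.PenroseFast

set_option autoImplicit false

namespace Pool.Agent.H28.PenroseEx2

open Pool.Agent.H28.BinRank Pool.Agent.H28.PenroseDefs Pool.Agent.H28.Penrose

def col : Fin 16 → ℕ := ![3, 5, 9, 33, 2, 6, 34, 12, 20, 24, 72, 16, 80, 32, 96, 64]

def Y : List ℕ := [0, 15, 113, 126, 418, 429, 467, 476, 1668, 1675, 1781, 1786, 1830, 1833, 1879, 1880, 6912, 6927, 7025, 7038, 6818, 6829, 6867, 6876, 7556, 7563, 7669, 7674, 7206, 7209, 7255, 7256, 24648, 24647, 24633, 24630, 25066, 25061, 24987, 24980, 26316, 26307, 26301, 26290, 26478, 26465, 26399, 26384, 31560, 31559, 31545, 31542, 31466, 31461, 31387, 31380, 32204, 32195, 32189, 32178, 31854, 31841, 31775, 31760, 54272, 54287, 54385, 54398, 54690, 54701, 54739, 54748, 53892, 53899, 54005, 54010, 54054, 54057, 54103, 54104, 52992, 53007, 53105, 53118, 52898, 52909, 52947, 52956, 51588, 51595, 51701, 51706, 51238, 51241, 51287, 51288, 46152, 46151, 46137, 46134, 46570, 46565, 46491, 46484,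 45772, 45763, 45757, 45746, 45934, 45921, 45855, 45840, 44872, 44871, 44857, 44854, 44778, 44773, 44699, 44692, 43468, 43459, 43453, 43442, 43118, 43105, 43039, 43024]

def Y2 : List ℕ := [32189, 53118, 7038, 7669, 7674, 26301, 26478, 26399, 31559, 31545, 31542, 31466, 31461, 31387, 32204, 32195, 32178, 31854, 31775, 54398, 54701, 54739, 54748, 54005, 54010, 54103, 53007, 53105, 52909, 52947, 52956, 51701, 51706, 46570, 46565, 46491, 45757, 45934, 45855, 44871, 44857, 44854, 44778, 44773, 44699, 43453, 1781, 1786, 1879, 6927, 7025, 6829, 6867, 6876, 7563, 7255, 25066, 25061, 24987, 26316, 26307, 26290, 26465, 31560, 31380, 31841, 54287, 54385, 54690, 53899, 54054, 54057, 54104, 52898, 51595, 51287, 46151, 46137, 46134, 46484, 45772, 45763, 45746, 45921, 44872, 44692, 43468, 43459, 43442, 43118, 43039, 126, 429, 467, 476, 1675, 1830, 1833, 1880, 6818, 7556, 7206, 7209, 7256, 24647, 24633, 24630, 24980, 26384, 31760, 53892, 52992, 51588, 51238, 51241, 51288,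 46152, 45840, 43105, 15, 113, 418, 1668, 6912, 24648, 54272, 43024, 0]

def L : List (List (ℕ × ℕ)) := [[(2, 2), (6, 6), (34, 34)], [(12, 12), (20, 20)], [(24, 24), (72, 72)], [(16, 16), (80, 80)], [(32, 32), (96, 96)], [(64, 64)], []]

def l0 : List (ℕ × ℕ) := [(3, 3), (5, 5), (9, 9), (33, 33)]

theorem h1 : ∀ k < 2 ^ 7, ∀ e, ∑ i, vec 7 (col e) i * vec 7 k i = vec 16 (Y.getD k 0) e := by
  decide +kernel

theorem h2 : ∀ k < 2 ^ 7, vec 16 (Y.getD k 0) = 0 → k = 0 := by decide +kernel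

theorem h5 : ∀ x : Fin 16, ∃ y ∈ Y, vec 16 y x ≠ 0 := by decide +kernel

theorem h6 : (∀ y ∈ Y, y ∈ Y2) ∧ ∀ y ∈ Y2, y ∈ Y := by decide +kernel

end Pool.Agent.H28.PenroseEx2
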