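import Pool.Agent.H28.PenroseEx2b

set_option autoImplicit false

namespace Pool.Agent.H28.PenroseEx2

open Pool.Agent.H28.BinRank Pool.Agent.H28.PenroseDefs Pool.Agent.H28.Penrose

theorem h4 : chk (List.range 16) Y2 = true := by decide +kernel

end Pool.Agent.H28.PenroseEx2
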