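import Pool.Agent.H28.Penrose

set_option autoImplicit false

/-! Faster evaluation of the constant coefficient of a Penrose polynomial. -/

namespace Pool.Agent.H28.Penrose

open Pool.Agent.H28.BinRank

def upd' (v w : ℕ) : List ℕ → List ℕ
  | [] => []
  | g :: t => (bif v % 2 == 1 then g ^^^ w else g) :: upd' (v / 2) w t

theorem upd_eq (w : ℕ) (G : List ℕ) : ∀ k, upd w k G = upd' (w / 2 ^ k) w G := by
  induction G with
  | nil => intro k; rfl
  | cons g t ih =>
    intro k
    rw [upd, upd', ih, Nat.div_div_eq_div_mul, ← pow_succ, Nat.testBit_eq_decide_div_mod_eq]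
    by_cases h : w / 2 ^ k % 2 = 1 <;> simp [h, Bool.cond_eq_ite]

theorem length_upd' (w : ℕ) (G : List ℕ) : ∀ v, (upd' v w G).length = G.length := by
  induction G with
  | nil => intro v; rfl
  | cons g t ih => intro v; simp [upd', ih]

theorem rk_le (n : ℕ) : ∀ G : List ℕ, rk n G ≤ G.length := by
  induction n with
  | zero => intro G; cases G <;> simp [rk]
  | succ n ih =>
    intro G
    cases G with
    | nil => simp [rk]
    | cons x l =>
      have h1 := ih l
      have h2 := ih (l.map (red x))
      rw [List.length_map] at h2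
      rw [rk, List.length_cons]
      split_ifs <;> omega

def sem : List (ℕ × ℕ) → List ℕ → ℤ
  | [], G => if rk G.length G = G.length then 1 else 0
  | p :: l, G => sem l G - sem l (upd' p.1 p.2 G)

theorem ev_PS (r : ℕ) (l : List ℕ) : ∀ G : List ℕ, G.length = r →
    ev (PS r l G) (fun k => if k = r then (1 : ℤ) else 0) = sem (l.map fun x => (x, x)) G := by
  induction l with
  | nil => intro G hG; rw [PS, ev_single, List.map_nil, sem, hG]
  | cons x l ih =>
    intro G hG
    rw [PS, ev_psub, List.map_cons, sem, ih G hG, upd_eq, ih _ (by rw [length_upd', hG])]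
    simp

theorem red_xor (x a b : ℕ) : red x (a ^^^ b) = red x a ^^^ red x b := by
  unfold red
  rw [Nat.testBit_xor]
  cases a.testBit x.log2 <;> cases b.testBit x.log2 <;> simp [Nat.xor_assoc, Nat.xor_comm x]

theorem map_upd' (x w : ℕ) (G : List ℕ) : ∀ v,
    (upd' v w G).map (red x) = upd' v (red x w) (G.map (red x)) := by
  induction G with
  | nil => intro v; rfl
  | cons g t ih =>
    intro v
    rw [upd', List.map_cons, List.map_cons, upd', ih]
    cases (v % 2 == 1) <;> simp [red_xor]

theorem sem_elim (x : ℕ) (l : List (ℕ × ℕ)) (hl : ∀ p ∈ l, p.1 % 2 = 0) : ∀ G : List ℕ,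
    sem l (x :: G) = if x = 0 then 0 else
      sem (l.map fun p => (p.1 / 2, red x p.2)) (G.map (red x)) := by
  induction l with
  | nil =>
    intro G
    have := rk_le G.length G
    simp only [sem, List.length_cons, rk, List.map_nil, List.length_map]
    split_ifs <;> first | rfl | omega
  | cons p l ih =>
    intro G
    have h0 := hl p List.mem_cons_self
    have hl' : ∀ q ∈ l, q.1 % 2 = 0 := fun q hq => hl q (List.mem_cons_of_mem _ hq)
    rw [sem, upd', h0, ih hl', List.map_cons, sem]
    simp only [Nat.zero_ne_one, beq_iff_eq, Bool.cond_eq_ite, if_false]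
    rw [ih hl', map_upd']
    split_ifs <;> simp

def redf (x k y : ℕ) : ℕ := bif (y >>> k) % 2 == 1 then y ^^^ x else y

theorem redf_eq (x : ℕ) : redf x x.log2 = red x := by
  funext y
  rw [redf, red, Nat.testBit_eq_decide_div_mod_eq, Nat.shiftRight_eq_div_pow]
  by_cases h : y / 2 ^ x.log2 % 2 = 1 <;> simp [h, Bool.cond_eq_ite]

/-- the columns come grouped by their lowest bit -/
def fast : List (List (ℕ × ℕ)) → ℕ → List (ℕ × ℕ) → List ℕ → ℤ
  | _, _, _, [] => 1
  | _, 0, _, _ :: _ => 0
  | L, n + 1, p :: l, x :: G =>
      fast L n l (x :: G) - fast L n l ((x ^^^ p.2) :: upd' (p.1 / 2) p.2 G)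
  | [], _ + 1, [], _ :: _ => 0
  | l :: L, n + 1, [], x :: G => bif x == 0 then 0 else
      fast (L.map (List.map fun p => (p.1 / 2, redf x x.log2 p.2))) n
        (l.map fun p => (p.1 / 2, redf x x.log2 p.2)) (G.map (redf x x.log2))

/-- the `i`-th group has lowest bit exactly `i` -/
def ok : ℕ → List (List (ℕ × ℕ)) → Prop
  | _, [] => True
  | k, l :: L => (∀ p ∈ l, p.1 % 2 ^ (k + 1) = 2 ^ k) ∧ ok (k + 1) L

theorem ok_even (L : List (List (ℕ × ℕ))) : ∀ k, ok (k + 1) L → ∀ p ∈ L.flatten, p.1 % 2 = 0 := by
  induction L with
  | nil => simp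
  | cons l L ih =>
    intro k h p hp
    rw [List.flatten_cons, List.mem_append] at hp
    rcases hp with hp | hp
    · have h1 := h.1 p hp
      have h2 : p.1 % 2 ^ (k + 1 + 1) % 2 = p.1 % 2 := Nat.mod_mod_of_dvd _ (by
        rw [pow_succ]; exact Dvd.intro_left _ rfl)
      rw [← h2, h1, pow_succ]
      simp
    · exact ih (k + 1) h.2 p hp

theorem ok_map (f : ℕ → ℕ) (L : List (List (ℕ × ℕ))) : ∀ k, ok (k + 1) L →
    ok k (L.map (List.map fun p => (p.1 / 2, f p.2))) := by
  induction L with
  | nil => intro k _; trivial
  | cons l L ih =>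
    intro k h
    refine ⟨fun p hp => ?_, ih (k + 1) h.2⟩
    obtain ⟨q, hq, rfl⟩ := List.mem_map.1 hp
    have h1 := h.1 q hq
    rw [pow_succ' 2 (k + 1), Nat.mod_mul] at h1
    have h2 : 2 ^ (k + 1) = 2 * 2 ^ k := pow_succ' _ _
    simp only
    omega

theorem fast_eq (n : ℕ) : ∀ (L : List (List (ℕ × ℕ))) (l : List (ℕ × ℕ)) (G : List ℕ),
    ok 0 (l :: L) → L.length = G.length → (∀ l' ∈ (l :: L).getLast?, l' = []) →
    (l :: L).flatten.length + G.length ≤ n → fast L n l G = sem (l :: L).flatten G := by
  induction n with
  | zero =>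
    intro L l G _ _ _ h
    obtain rfl : G = [] := List.length_eq_zero_iff.1 (by omega)
    have : (l :: L).flatten = [] := List.length_eq_zero_iff.1 (by omega)
    rw [this]
    simp [fast, sem, rk]
  | succ n ih =>
    intro L l G hok hlen hlast h
    cases G with
    | nil =>
      obtain rfl : L = [] := List.length_eq_zero_iff.1 hlen
      obtain rfl : l = [] := hlast l rfl
      simp [fast, sem, rk]
    | cons x G =>
      cases L with
      | nil => simp at hlen
      | cons l1 L =>
        cases l with
        | cons p l =>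
          have h1 : p.1 % 2 = 1 := by simpa using hok.1 p List.mem_cons_self
          have hok' : ok 0 (l :: l1 :: L) :=
            ⟨fun q hq => hok.1 q (List.mem_cons_of_mem _ hq), hok.2⟩
          have hl' : (l :: l1 :: L).flatten.length + (G.length + 1) ≤ n := by
            simp at h ⊢; omega
          rw [fast, ih _ _ _ hok' hlen (by simpa using hlast) hl',
            ih _ _ _ hok' (by simpa [length_upd'] using hlen) (by simpa using hlast)
              (by simpa [length_upd'] using hl'), List.flatten_cons (l := p :: l), List.cons_append,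
            sem, upd', h1]
          rfl
        | nil =>
          rw [fast, List.flatten_cons, List.nil_append, sem_elim x _ (ok_even _ 0 hok.2), redf_eq,
            ih _ _ _ (ok_map (red x) (l1 :: L) 0 hok.2) (by simpa using hlen) ?_ ?_,
            List.map_flatten]
          · by_cases hx : x = 0 <;> simp [hx, Bool.cond_eq_ite]
          · intro l' hl'
            rw [← List.map_cons, List.getLast?_map] at hl'
            obtain ⟨a, ha, rfl⟩ := Option.mem_map.1 hl'
            rw [hlast a (by simpa using ha)]
            rfl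
          · rw [← List.map_cons, ← List.map_flatten, List.length_map, List.length_map]
            rw [List.flatten_cons, List.nil_append, List.length_cons] at h
            omega


end Pool.Agent.H28.Penrose
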