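import Mathlib

/-! Counting homomorphisms of bipartite graphs into projective-plane-like targets. -/

namespace Pool.Agent.H28.Plane

open Finset Classical

structure Tg where
  W : Type
  fin : Fintype W
  q : ℕ
  τ : W → Bool
  A : W → W → Prop
  symm : ∀ a b, A a b → A b a
  bip : ∀ a b, A a b → τ a ≠ τ b
  q_pos : 1 ≤ q
  c0l : ∀ b, q ^ 2 ≤ (univ.filter fun w => τ w = b).card
  c0u : ∀ b, (univ.filter fun w => τ w = b).card ≤ 3 * q ^ 2
  c1l : ∀ w, q ≤ (univ.filter fun x => A w x).card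
  c1u : ∀ w, (univ.filter fun x => A w x).card ≤ 3 * q
  c2u : ∀ w₁ w₂ x y, w₁ ≠ w₂ → A w₁ x → A w₂ x → A w₁ y → A w₂ y → x = y
  c2l : ∀ w₁ w₂, τ w₁ = τ w₂ → ∃ x, A w₁ x ∧ A w₂ x

instance (T : Tg) : Fintype T.W := T.fin

variable {V : Type} [Fintype V] (H : SimpleGraph V) (sd : V → Bool)

noncomputable def Ext (T : Tg) (X S : Finset V) (ψ : V → T.W) : Finset (V → T.W) :=
  univ.filter fun φ => (∀ x, x ∉ S → φ x = ψ x) ∧ (∀ x ∈ S, T.τ (φ x) = sd x) ∧
    ∀ x ∈ S, ∀ y ∈ X ∪ S, H.Adj x y → T.A (φ x) (φ y)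

noncomputable def Inj (T : Tg) (X S : Finset V) (ψ : V → T.W) : Finset (V → T.W) :=
  (Ext H sd T X S ψ).filter fun φ => Set.InjOn φ (X ∪ S : Finset V)

def Low (X S : Finset V) (k : ℕ) : Prop :=
  ∀ (T : Tg) (ψ : V → T.W), (∀ x ∈ X, T.τ (ψ x) = sd x) → T.q ^ k ≤ (Ext H sd T X S ψ).card

def Up (X S : Finset V) (k C : ℕ) : Prop :=
  ∀ (T : Tg) (ψ : V → T.W), (Inj H sd T X S ψ).card ≤ C * T.q ^ k

variable {H sd}

lemma mem_Ext {T : Tg} {X S : Finset V} {ψ φ : V → T.W} : φ ∈ Ext H sd T X S ψ ↔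
    (∀ x, x ∉ S → φ x = ψ x) ∧ (∀ x ∈ S, T.τ (φ x) = sd x) ∧
    ∀ x ∈ S, ∀ y ∈ X ∪ S, H.Adj x y → T.A (φ x) (φ y) := by
  simp only [Ext, mem_filter, mem_univ, true_and]

lemma mem_Inj {T : Tg} {X S : Finset V} {ψ φ : V → T.W} : φ ∈ Inj H sd T X S ψ ↔
    φ ∈ Ext H sd T X S ψ ∧ ∀ x ∈ X ∪ S, ∀ y ∈ X ∪ S, φ x = φ y → x = y := by
  simp only [Inj, mem_filter, Set.InjOn, mem_coe]

lemma proj_mem {T : Tg} {X S₁ S₂ : Finset V} (d2 : Disjoint X S₂) {ψ φ : V → T.W}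
    (h : φ ∈ Ext H sd T X (S₁ ∪ S₂) ψ) :
    (fun x => if x ∈ S₁ then φ x else ψ x) ∈ Ext H sd T X S₁ ψ := by
  rw [mem_Ext] at h ⊢
  obtain ⟨h1, h2, h3⟩ := h
  refine ⟨fun x hx => by simp [hx], fun x hx => by simp [hx, h2 x (by simp [hx])], ?_⟩
  intro x hx y hy hxy
  have := h3 x (by simp [hx]) y (by simp only [mem_union] at hy ⊢; tauto) hxy
  by_cases hy1 : y ∈ S₁
  · simpa [hx, hy1] using this
  · have hyX : y ∈ X := by simpa [hy1] using hy
    have : φ y = ψ y := h1 y (by simp [hy1, disjoint_left.1 d2 hyX])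
    simp_all

lemma fiber_mem {T : Tg} {X S₁ S₂ : Finset V} {ψ φ : V → T.W}
    (h : φ ∈ Ext H sd T X (S₁ ∪ S₂) ψ) :
    φ ∈ Ext H sd T (X ∪ S₁) S₂ (fun x => if x ∈ S₁ then φ x else ψ x) := by
  rw [mem_Ext] at h ⊢
  obtain ⟨h1, h2, h3⟩ := h
  refine ⟨fun x hx => ?_, fun x hx => h2 x (by simp [hx]), fun x hx y hy hxy =>
    h3 x (by simp [hx]) y (by simp only [mem_union] at hy ⊢; tauto) hxy⟩
  by_cases h1' : x ∈ S₁
  · simp [h1']
  · simp [h1', h1 x (by simp [h1', hx])]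

lemma fiber_back {T : Tg} {X S₁ S₂ : Finset V} (d : Disjoint S₁ S₂)
    {ψ φ₁ φ : V → T.W}
    (h1 : φ₁ ∈ Ext H sd T X S₁ ψ) (h : φ ∈ Ext H sd T (X ∪ S₁) S₂ φ₁) :
    φ ∈ Ext H sd T X (S₁ ∪ S₂) ψ ∧ (fun x => if x ∈ S₁ then φ x else ψ x) = φ₁ := by
  rw [mem_Ext] at h h1 ⊢
  obtain ⟨a1, a2, a3⟩ := h1
  obtain ⟨b1, b2, b3⟩ := h
  refine ⟨⟨fun x hx => ?_, fun x hx => ?_, fun x hx y hy hxy => ?_⟩, ?_⟩
  · simp only [mem_union, not_or] at hx
    rw [b1 x hx.2, a1 x hx.1]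
  · rcases mem_union.1 hx with hx | hx
    · rw [b1 x (disjoint_left.1 d hx), a2 x hx]
    · exact b2 x hx
  · rcases mem_union.1 hx with hx | hx
    · by_cases hy2 : y ∈ S₂
      · exact T.symm _ _ (b3 y hy2 x (by simp [hx]) hxy.symm)
      · rw [b1 x (disjoint_left.1 d hx), b1 y hy2]
        exact a3 x hx y (by simp only [mem_union] at hy ⊢; tauto) hxy
    · exact b3 x hx y (by simp only [mem_union] at hy ⊢; tauto) hxy
  · funext x
    by_cases hx : x ∈ S₁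
    · simp [hx, b1 x (disjoint_left.1 d hx)]
    · simp [hx, a1 x hx]

lemma Low.comp {X S₁ S₂ : Finset V} {k₁ k₂ : ℕ} (d1 : Disjoint X S₁) (d2 : Disjoint X S₂)
    (d : Disjoint S₁ S₂) (h1 : Low H sd X S₁ k₁) (h2 : Low H sd (X ∪ S₁) S₂ k₂) :
    Low H sd X (S₁ ∪ S₂) (k₁ + k₂) := by
  intro T ψ hψ
  rw [card_eq_sum_card_fiberwise (f := fun φ x => if x ∈ S₁ then φ x else ψ x)
    (t := Ext H sd T X S₁ ψ) (fun φ h => mem_coe.2 (proj_mem (φ := φ) d2 (mem_coe.1 h)))]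
  calc T.q ^ (k₁ + k₂) = T.q ^ k₁ * T.q ^ k₂ := pow_add _ _ _
    _ ≤ (Ext H sd T X S₁ ψ).card * T.q ^ k₂ := Nat.mul_le_mul_right _ (h1 T ψ hψ)
    _ = ∑ _φ ∈ Ext H sd T X S₁ ψ, T.q ^ k₂ := by simp
    _ ≤ _ := by
      refine sum_le_sum fun φ₁ hφ₁ => ?_
      refine (h2 T φ₁ ?_).trans (card_le_card fun φ hφ => ?_)
      · intro x hx
        rw [mem_Ext] at hφ₁
        rcases mem_union.1 hx with hx | hx
        · rw [hφ₁.1 x (disjoint_left.1 d1 hx), hψ x hx]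
        · exact hφ₁.2.1 x hx
      · exact mem_filter.2 (fiber_back d hφ₁ hφ)

lemma Up.comp {X S₁ S₂ : Finset V} {k₁ k₂ C₁ C₂ : ℕ} (d2 : Disjoint X S₂)
    (h1 : Up H sd X S₁ k₁ C₁) (h2 : Up H sd (X ∪ S₁) S₂ k₂ C₂) :
    Up H sd X (S₁ ∪ S₂) (k₁ + k₂) (C₁ * C₂) := by
  intro T ψ
  have := card_le_mul_card_image_of_maps_to (s := Inj H sd T X (S₁ ∪ S₂) ψ)
    (f := fun φ x => if x ∈ S₁ then φ x else ψ x) (t := Inj H sd T X S₁ ψ) ?_
    (C₂ * T.q ^ k₂) ?_
  · calc _ ≤ _ := this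
      _ ≤ C₂ * T.q ^ k₂ * (C₁ * T.q ^ k₁) := Nat.mul_le_mul_left _ (h1 T ψ)
      _ = _ := by ring
  · intro φ hφ
    rw [mem_Inj] at hφ ⊢
    refine ⟨proj_mem d2 hφ.1, fun x hx y hy hxy => ?_⟩
    have e : ∀ z ∈ X ∪ S₁, (if z ∈ S₁ then φ z else ψ z) = φ z := by
      intro z hz
      by_cases h : z ∈ S₁
      · simp [h]
      · have hzX : z ∈ X := by simpa [h] using hz
        simp [h, (mem_Ext.1 hφ.1).1 z (by simp [h, disjoint_left.1 d2 hzX])]
    simp only [e x hx, e y hy] at hxy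
    exact hφ.2 x (by simp only [mem_union] at hx ⊢; tauto) y
      (by simp only [mem_union] at hy ⊢; tauto) hxy
  · intro φ₁ _
    refine (card_le_card fun φ hφ => ?_).trans (h2 T φ₁)
    rw [mem_filter, mem_Inj] at hφ
    rw [mem_Inj, ← hφ.2]
    exact ⟨fiber_mem hφ.1.1, by rw [union_assoc]; exact hφ.1.2⟩

lemma Ext_local {T : Tg} {X X' S : Finset V} (hX : X' ⊆ X)
    (h : ∀ x ∈ S, ∀ y ∈ X, H.Adj x y → y ∈ X') (ψ : V → T.W) :
    Ext H sd T X S ψ = Ext H sd T X' S ψ := by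
  ext φ
  simp only [mem_Ext]
  refine and_congr_right fun _ => and_congr_right fun _ => ⟨fun a x hx y hy hxy => ?_,
    fun a x hx y hy hxy => ?_⟩
  · exact a x hx y (union_subset_union_left hX hy) hxy
  · refine a x hx y ?_ hxy
    rcases mem_union.1 hy with hy | hy
    · exact mem_union_left _ (h x hx y hy hxy)
    · exact mem_union_right _ hy

lemma Low.local {X X' S : Finset V} {k : ℕ} (hX : X' ⊆ X)
    (h : ∀ x ∈ S, ∀ y ∈ X, H.Adj x y → y ∈ X') (h1 : Low H sd X' S k) : Low H sd X S k := by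
  intro T ψ hψ
  rw [Ext_local hX h]
  exact h1 T ψ fun x hx => hψ x (hX hx)

lemma Up.local {X X' S : Finset V} {k C : ℕ} (hX : X' ⊆ X)
    (h : ∀ x ∈ S, ∀ y ∈ X, H.Adj x y → y ∈ X') (h1 : Up H sd X' S k C) : Up H sd X S k C := by
  intro T ψ
  refine (card_le_card fun φ hφ => ?_).trans (h1 T ψ)
  rw [mem_Inj] at hφ ⊢
  rw [← Ext_local hX h]
  exact ⟨hφ.1, fun x hx y hy => hφ.2 x (union_subset_union_left hX hx) y
    (union_subset_union_left hX hy)⟩

lemma Up.mono {X S : Finset V} {k k' C : ℕ} (h1 : Up H sd X S k C) (hk : k ≤ k') :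
    Up H sd X S k' C := fun T ψ =>
  (h1 T ψ).trans (Nat.mul_le_mul_left _ (Nat.pow_le_pow_right T.q_pos hk))

lemma Low.empty (X : Finset V) : Low H sd X ∅ 0 := by
  intro T ψ _
  rw [pow_zero]
  exact card_pos.2 ⟨ψ, by simp [mem_Ext]⟩

lemma Up.empty (X : Finset V) : Up H sd X ∅ 0 1 := by
  intro T ψ
  rw [pow_zero, mul_one, card_le_one]
  intro a ha b hb
  have h1 := (mem_Ext.1 (mem_Inj.1 ha).1).1
  have h2 := (mem_Ext.1 (mem_Inj.1 hb).1).1
  funext x
  rw [h1 x (by simp), h2 x (by simp)]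

/-- single vertex, upper bound -/
lemma Up.single (X : Finset V) (v : V) (hv : v ∉ X) :
    Up H sd X {v} (2 - (X.filter fun y => H.Adj v y).card) 3 := by
  intro T ψ
  have inj : ∀ (s : Finset T.W), (∀ φ ∈ Inj H sd T X {v} ψ, φ v ∈ s) →
      (Inj H sd T X {v} ψ).card ≤ s.card := by
    intro s hs
    refine card_le_card_of_injOn (fun φ => φ v) hs ?_
    intro a ha b hb hab
    have h1 := (mem_Ext.1 (mem_Inj.1 ha).1).1
    have h2 := (mem_Ext.1 (mem_Inj.1 hb).1).1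
    funext x
    by_cases hx : x = v
    · subst hx; exact hab
    · rw [h1 x (by simpa using hx), h2 x (by simpa using hx)]
  have key : ∀ φ ∈ Inj H sd T X {v} ψ, ∀ y ∈ X, H.Adj v y → T.A (ψ y) (φ v) := by
    intro φ hφ y hy hvy
    have h := mem_Ext.1 (mem_Inj.1 hφ).1
    rw [← h.1 y (by simp; rintro rfl; exact hv hy)]
    exact T.symm _ _ (h.2.2 v (by simp) y (by simp [hy]) hvy)
  by_cases h2 : 1 < (X.filter fun y => H.Adj v y).card
  · rw [Nat.sub_eq_zero_of_le h2, pow_zero]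
    obtain ⟨a, ha, b, hb, hab⟩ := one_lt_card.1 h2
    rw [mem_filter] at ha hb
    rcases (Inj H sd T X {v} ψ).eq_empty_or_nonempty with h | ⟨φ₀, h0⟩
    · simp [h]
    · have hne : ψ a ≠ ψ b := by
        have h := mem_Inj.1 h0
        have h' := (mem_Ext.1 h.1).1
        rw [← h' a (by simp; rintro rfl; exact hv ha.1), ← h' b (by simp; rintro rfl; exact hv hb.1)]
        exact fun e => hab (h.2 a (by simp [ha.1]) b (by simp [hb.1]) e)
      refine (inj {φ₀ v} fun φ hφ => ?_).trans (by simp)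
      rw [mem_singleton]
      exact T.c2u _ _ _ _ hne (key φ hφ a ha.1 ha.2) (key φ hφ b hb.1 hb.2)
        (key φ₀ h0 a ha.1 ha.2) (key φ₀ h0 b hb.1 hb.2)
  · by_cases h1 : (X.filter fun y => H.Adj v y).card = 1
    · rw [h1]
      obtain ⟨a, ha⟩ := card_pos.1 (show 0 < (X.filter fun y => H.Adj v y).card by omega)
      rw [mem_filter] at ha
      refine (inj (univ.filter fun x => T.A (ψ a) x) fun φ hφ => ?_).trans
        (by simpa using T.c1u _)
      simpa using key φ hφ a ha.1 ha.2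
    · rw [show (X.filter fun y => H.Adj v y).card = 0 by omega]
      refine (inj (univ.filter fun w => T.τ w = sd v) fun φ hφ => ?_).trans (T.c0u _)
      simpa using (mem_Ext.1 (mem_Inj.1 hφ).1).2.1 v (by simp)

/-- single vertex, lower bound -/
lemma Low.single (hb : ∀ x y, H.Adj x y → sd x ≠ sd y) (X : Finset V) (v : V) (hv : v ∉ X)
    (hd : (X.filter fun y => H.Adj v y).card ≤ 2) :
    Low H sd X {v} (2 - (X.filter fun y => H.Adj v y).card) := by
  intro T ψ hψ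
  have inj : ∀ (s : Finset T.W), (∀ w ∈ s, T.τ w = sd v ∧ ∀ y ∈ X, H.Adj v y → T.A (ψ y) w) →
      s.card ≤ (Ext H sd T X {v} ψ).card := by
    intro s hs
    refine card_le_card_of_injOn (fun w => Function.update ψ v w) ?_ ?_
    · intro w hw
      rw [mem_coe, mem_Ext]
      refine ⟨fun x hx => Function.update_of_ne (by simpa using hx) _ _, fun x hx => ?_,
        fun x hx y hy hxy => ?_⟩
      · rw [mem_singleton.1 hx]; simpa using (hs w hw).1
      · rw [mem_singleton] at hx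
        subst hx
        have hy' : y ∈ X := by simpa [hxy.ne'] using hy
        simp only [Function.update_self, Function.update_of_ne hxy.ne']
        exact T.symm _ _ ((hs w hw).2 y hy' hxy)
    · intro a _ b _ hab
      simpa using congrFun hab v
  have side : ∀ y ∈ X, H.Adj v y → ∀ w, T.A (ψ y) w → T.τ w = sd v := by
    intro y hy hvy w hw
    have h1 := T.bip _ _ hw
    have h2 := hb _ _ hvy
    rw [hψ y hy] at h1
    revert h1 h2
    cases sd y <;> cases sd v <;> cases T.τ w <;> simp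
  rcases Nat.lt_or_ge (X.filter fun y => H.Adj v y).card 2 with h2 | h2
  · by_cases h1 : (X.filter fun y => H.Adj v y).card = 1
    · obtain ⟨a, ha⟩ := card_eq_one.1 h1
      have ha' : a ∈ X.filter fun y => H.Adj v y := by simp [ha]
      rw [mem_filter] at ha'
      rw [h1]
      refine le_trans (by simpa using T.c1l (ψ a)) (inj (univ.filter fun x => T.A (ψ a) x) ?_)
      intro w hw
      have hw' : T.A (ψ a) w := by simpa using hw
      refine ⟨side a ha'.1 ha'.2 w hw', fun y hy hvy => ?_⟩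
      have : y ∈ X.filter fun y => H.Adj v y := mem_filter.2 ⟨hy, hvy⟩
      rw [ha, mem_singleton] at this
      rwa [this]
    · have h0 : (X.filter fun y => H.Adj v y).card = 0 := by omega
      rw [h0]
      refine le_trans (T.c0l (sd v)) (inj _ fun w hw => ⟨by simpa using hw, fun y hy hvy => ?_⟩)
      rw [card_eq_zero] at h0
      have : y ∈ X.filter fun y => H.Adj v y := mem_filter.2 ⟨hy, hvy⟩
      simp [h0] at this
  · have h2' : (X.filter fun y => H.Adj v y).card = 2 := by omega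
    obtain ⟨a, b, -, hab⟩ := card_eq_two.1 h2'
    have ha : a ∈ X.filter fun y => H.Adj v y := by simp [hab]
    have hb' : b ∈ X.filter fun y => H.Adj v y := by simp [hab]
    rw [mem_filter] at ha hb'
    obtain ⟨w, hwa, hwb⟩ := T.c2l (ψ a) (ψ b) (by
      rw [hψ a ha.1, hψ b hb'.1]
      have h1 := hb _ _ ha.2
      have h2 := hb _ _ hb'.2
      revert h1 h2
      cases sd a <;> cases sd v <;> cases sd b <;> simp)
    rw [h2']
    refine le_trans (by simp) (inj {w} fun w' hw' => ?_)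
    rw [mem_singleton.1 hw']
    refine ⟨side a ha.1 ha.2 w hwa, fun y hy hvy => ?_⟩
    have : y ∈ X.filter fun y => H.Adj v y := mem_filter.2 ⟨hy, hvy⟩
    rw [hab, mem_insert, mem_singleton] at this
    rcases this with rfl | rfl <;> assumption

end Pool.Agent.H28.Plane
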