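import Mathlib
import Pool.Agent.H28.Plane1

namespace Pool.Agent.H28.Plane

open Finset Classical

variable {V : Type} [Fintype V] {H : SimpleGraph V} {sd : V → Bool}

lemma Up.order (X : Finset V) (pos : V → ℝ) (S : Finset V) : Disjoint X S →
    Set.InjOn pos S →
    Up H sd X S (∑ v ∈ S, (2 - ((X ∪ S.filter fun u => pos u < pos v).filter
      fun y => H.Adj v y).card)) (3 ^ S.card) := by
  induction S using Finset.induction_on_max_value pos with
  | empty => intro _ _; simpa using Up.empty X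
  | insert a S ha hmax ih =>
    intro hd hinj
    rw [disjoint_insert_right] at hd
    have hlt : ∀ u ∈ S, pos u < pos a := fun u hu => lt_of_le_of_ne (hmax u hu) fun e =>
      ha (by rw [← hinj (by simp [hu]) (by simp) e]; exact hu)
    have h1 := ih hd.2 (hinj.mono (by simp))
    have h2 := Up.single (H := H) (sd := sd) (X ∪ S) a (by simp [hd.1, ha])
    have h3 := Up.comp (by simpa using hd.1) h1 h2
    rw [sum_insert ha, card_insert_of_notMem ha, pow_succ, add_comm, insert_eq, union_comm {a} S]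
    convert h3 using 4
    · rename_i v hv
      congr 3
      ext u
      simp only [mem_filter, mem_union, mem_singleton]
      constructor
      · rintro ⟨h | rfl, h'⟩
        · exact ⟨h, h'⟩
        · exact absurd h' (not_lt.2 (hmax v hv))
      · rintro ⟨h, h'⟩; exact ⟨Or.inl h, h'⟩
    · congr 2
      ext u
      simp only [mem_filter, mem_union, mem_singleton]
      constructor
      · rintro ⟨h | rfl, h'⟩
        · exact h
        · exact absurd h' (lt_irrefl _)
      · intro h; exact ⟨Or.inl h, hlt u h⟩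

lemma Low.star (hb : ∀ x y, H.Adj x y → sd x ≠ sd y) (r : V) (S : Finset V) (hr : r ∉ S) (b : Bool) :
    Low H sd {r} S (S.filter fun v => sd v = b).card := by
  intro T ψ hψ
  have hψr : T.τ (ψ r) = sd r := hψ r (by simp)
  obtain ⟨c, hc1, hc2⟩ : ∃ c, T.τ c ≠ b ∧ ((sd r = b ∧ T.A c (ψ r)) ∨ (sd r ≠ b ∧ c = ψ r)) := by
    by_cases h : sd r = b
    · obtain ⟨x, hx, -⟩ := T.c2l (ψ r) (ψ r) rfl
      refine ⟨x, ?_, Or.inl ⟨h, T.symm _ _ hx⟩⟩
      rw [← h, ← hψr]; exact (T.bip _ _ hx).symm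
    · exact ⟨ψ r, by rwa [hψr], Or.inr ⟨h, rfl⟩⟩
  let t : V → Finset T.W := fun v =>
    if v ∈ S then (if sd v = b then univ.filter (fun x => T.A c x) else {c}) else {ψ v}
  have h1 : Fintype.piFinset t ⊆ Ext H sd T {r} S ψ := by
    intro φ hφ
    rw [Fintype.mem_piFinset] at hφ
    have a1 : ∀ x, x ∉ S → φ x = ψ x := fun x hx => by simpa [t, hx] using hφ x
    have a2 : ∀ x ∈ S, sd x = b → T.A c (φ x) := fun x hx h => by simpa [t, hx, h] using hφ x
    have a3 : ∀ x ∈ S, sd x ≠ b → φ x = c := fun x hx h => by simpa [t, hx, h] using hφ x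
    have a2' : ∀ x ∈ ({r} : Finset V) ∪ S, sd x = b → T.A c (φ x) := by
      intro x hx h
      rcases mem_union.1 hx with hx | hx
      · rw [mem_singleton.1 hx] at h ⊢
        rw [a1 r hr]
        rcases hc2 with h' | h'
        · exact h'.2
        · exact absurd h h'.1
      · exact a2 x hx h
    have a3' : ∀ x ∈ ({r} : Finset V) ∪ S, sd x ≠ b → φ x = c := by
      intro x hx h
      rcases mem_union.1 hx with hx | hx
      · rw [mem_singleton.1 hx] at h ⊢
        rw [a1 r hr]
        rcases hc2 with h' | h'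
        · exact absurd h'.1 h
        · exact h'.2.symm
      · exact a3 x hx h
    rw [mem_Ext]
    refine ⟨a1, fun x hx => ?_, fun x hx y hy hxy => ?_⟩
    · by_cases h : sd x = b
      · have := T.bip _ _ (a2 x hx h)
        rw [h]; revert this hc1
        cases T.τ c <;> cases T.τ (φ x) <;> cases b <;> simp
      · rw [a3 x hx h]; revert h hc1
        cases T.τ c <;> cases sd x <;> cases b <;> simp
    · have hs := hb _ _ hxy
      by_cases h : sd x = b
      · rw [a3' y hy (by rw [← h]; exact hs.symm)]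
        exact T.symm _ _ (a2 x hx h)
      · rw [a3 x hx h]
        refine a2' y hy ?_
        revert h hs
        cases sd y <;> cases sd x <;> cases b <;> simp
  refine le_trans ?_ (card_le_card h1)
  rw [Fintype.card_piFinset]
  calc T.q ^ (S.filter fun v => sd v = b).card
      = ∏ v, (if v ∈ S.filter (fun v => sd v = b) then T.q else 1) := by
        rw [prod_ite_mem, univ_inter, prod_const]
    _ ≤ _ := by
        refine prod_le_prod' fun v _ => ?_
        by_cases h1 : v ∈ S
        · by_cases h2 : sd v = b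
          · simpa [t, h1, h2] using T.c1l c
          · simp [t, h1, h2]
        · simp [t, h1]

/-- st-structure on `T` -/
def St (H : SimpleGraph V) (r t : V) (T : Finset V) (pos : V → ℝ) (u : V) : Prop :=
  Set.InjOn pos T ∧ (∀ v ∈ T, v ≠ r → ∃ y ∈ T, H.Adj v y ∧ pos y < pos v) ∧
    ∀ v ∈ T, v ≠ r → v ≠ t → v ≠ u → ∃ y ∈ T, H.Adj v y ∧ pos v < pos y

omit [Fintype V] in
lemma ear (r t w : V) (D : Finset V) (G : SimpleGraph V)
    (hG : ∀ a b, G.Adj a b → H.Adj a b ∧ b ∈ D) {y₁ y₂ : V} (p : G.Walk y₁ y₂) (hw : H.Adj y₂ w) :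
    p.IsPath → ∀ (T : Finset V) (pos : V → ℝ) (u : V), y₁ ∈ D → w ∈ T → u ∈ T → H.Adj y₁ u →
      pos u < pos w → (∀ z ∈ p.support, z ∉ T) → St H r t T pos u →
      ∃ T' pos', insert y₁ T ⊆ T' ∧ T' ⊆ T ∪ D ∧ St H r t T' pos' r := by
  have step : ∀ (y : V) (T : Finset V) (pos : V → ℝ) (u : V), y ∉ T → w ∈ T → u ∈ T → H.Adj y u →
      pos u < pos w → St H r t T pos u →
      ∃ pos' : V → ℝ, pos' y < pos' w ∧ St H r t (insert y T) pos' y := by
    intro y T pos u hy hwT hu hyu hlt ⟨s1, s2, s3⟩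
    obtain ⟨x, hx, hx'⟩ := (Set.Ioo_infinite hlt).exists_notMem_finset (T.image pos)
    have e : ∀ z ∈ T, Function.update pos y x z = pos z := fun z hz =>
      Function.update_of_ne (by rintro rfl; exact hy hz) _ _
    refine ⟨Function.update pos y x, by rw [e w hwT]; simpa using hx.2, ?_, ?_, ?_⟩
    · rw [coe_insert, Set.injOn_insert (by simpa using hy)]
      refine ⟨fun a ha b hb hab => s1 ha hb (by rwa [e a ha, e b hb] at hab), ?_⟩
      rintro ⟨z, hz, hz'⟩
      rw [e z hz, Function.update_self] at hz'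
      exact hx' (mem_image.2 ⟨z, hz, hz'⟩)
    · intro v hv hvr
      rcases mem_insert.1 hv with rfl | hv
      · exact ⟨u, by simp [hu], hyu, by rw [e u hu]; simpa using hx.1⟩
      · obtain ⟨z, hz, h1, h2⟩ := s2 v hv hvr
        exact ⟨z, by simp [hz], h1, by rwa [e z hz, e v hv]⟩
    · intro v hv hvr hvt hvy
      have hv' : v ∈ T := by simpa [hvy] using hv
      by_cases hvu : v = u
      · subst hvu
        exact ⟨y, by simp, hyu.symm, by rw [e v hv']; simpa using hx.1⟩
      · obtain ⟨z, hz, h1, h2⟩ := s3 v hv' hvr hvt hvu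
        exact ⟨z, by simp [hz], h1, by rwa [e z hz, e v hv']⟩
  induction p with
  | @nil y =>
    intro _ T pos u hD hwT hu hyu hlt hs hSt
    obtain ⟨pos', h1, s1, s2, s3⟩ := step y T pos u (hs y (by simp)) hwT hu hyu hlt hSt
    refine ⟨insert y T, pos', subset_rfl, ?_, s1, s2, fun v hv hvr hvt _ => ?_⟩
    · intro z hz
      rcases mem_insert.1 hz with rfl | hz <;> simp [*]
    · by_cases hvy : v = y
      · subst hvy; exact ⟨w, by simp [hwT], hw, h1⟩
      · exact s3 v hv hvr hvt hvy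
  | @cons y z y₂ hyz p ih =>
    intro hp T pos u hD hwT hu hyu hlt hs hSt
    rw [SimpleGraph.Walk.cons_isPath_iff] at hp
    obtain ⟨pos', h1, hSt'⟩ := step y T pos u (hs y (by simp)) hwT hu hyu hlt hSt
    obtain ⟨T', pos'', a1, a2, a3⟩ := ih hw hp.1 (insert y T) pos' y (hG _ _ hyz).2 (by simp [hwT])
      (by simp) (hG _ _ hyz).1.symm h1 (fun x hx => by
        rw [mem_insert, not_or]
        exact ⟨by rintro rfl; exact hp.2 hx, hs x (by simp [hx])⟩) hSt'
    refine ⟨T', pos'', (subset_insert _ _).trans a1, a2.trans ?_, a3⟩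
    intro x hx
    simp only [mem_union, mem_insert] at hx ⊢
    rcases hx with (rfl | hx) | hx <;> simp [*]

lemma dichotomy (r t : V) (S : Finset V) (ht : t ∈ S) (hrt : H.Adj r t) :
    (∃ pos, St H r t (insert r S) pos r) ∨
    ∃ (C : Finset V) (c : V), C.Nonempty ∧ C ⊆ S ∧ t ∉ C ∧ r ∉ C ∧ c ∈ insert r S ∧ c ∉ C ∧
      ∀ x ∈ C, ∀ y ∈ insert r S, y ∉ C → H.Adj x y → y = c := by
  have main : ∀ (n : ℕ) (T : Finset V) (pos : V → ℝ), (insert r S \ T).card = n → r ∈ T → t ∈ T →
      T ⊆ insert r S → St H r t T pos r →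
      (∃ pos, St H r t (insert r S) pos r) ∨
      ∃ (C : Finset V) (c : V), C.Nonempty ∧ C ⊆ S ∧ t ∉ C ∧ r ∉ C ∧ c ∈ insert r S ∧ c ∉ C ∧
        ∀ x ∈ C, ∀ y ∈ insert r S, y ∉ C → H.Adj x y → y = c := by
    intro n
    induction n using Nat.strong_induction_on with
    | _ n ih =>
    intro T pos hn hr htT hT hSt
    set D := insert r S \ T with hD
    rcases D.eq_empty_or_nonempty with h0 | ⟨x, hx⟩
    · left
      have : T = insert r S := subset_antisymm hT (sdiff_eq_empty_iff_subset.1 h0)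
      exact ⟨pos, this ▸ hSt⟩
    let G : SimpleGraph V :=
      { Adj := fun a b => H.Adj a b ∧ a ∈ D ∧ b ∈ D
        symm := ⟨fun a b h => ⟨h.1.symm, h.2.2, h.2.1⟩⟩
        loopless := ⟨fun a h => h.1.ne rfl⟩ }
    let C := D.filter fun y => G.Reachable x y
    have hCT : ∀ y ∈ C, y ∉ T := fun y hy => (mem_sdiff.1 (mem_filter.1 hy).1).2
    by_cases hatt : ∃ u ∈ T, ∃ w ∈ T, pos u < pos w ∧ (∃ y ∈ C, H.Adj y u) ∧ ∃ y ∈ C, H.Adj y w
    · obtain ⟨u, hu, w, hw, hlt, ⟨y₁, hy₁, h1⟩, ⟨y₂, hy₂, h2⟩⟩ := hatt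
      have hreach : G.Reachable y₁ y₂ := (mem_filter.1 hy₁).2.symm.trans (mem_filter.1 hy₂).2
      obtain ⟨p, hp⟩ := hreach.exists_isPath
      have hsup : ∀ z ∈ p.support, z ∉ T := by
        intro z hz
        have : z ∈ D := by
          rcases (SimpleGraph.Walk.mem_support_iff p).1 hz with rfl | hz'
          · exact (mem_filter.1 hy₁).1
          · by_cases hzy : z = y₁
            · rw [hzy]; exact (mem_filter.1 hy₁).1
            · obtain ⟨q⟩ : G.Reachable z y₁ := (p.takeUntil z hz).reachable.symm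
              cases q with
              | nil => exact absurd rfl hzy
              | cons h _ => exact h.2.1
        exact (mem_sdiff.1 this).2
      obtain ⟨T', pos', a1, a2, a3⟩ := ear r t w D G (fun a b h => ⟨h.1, h.2.2⟩) p h2 hp T pos u
        (mem_filter.1 hy₁).1 hw hu h1 hlt hsup
        ⟨hSt.1, hSt.2.1, fun v hv h1 h2 _ => hSt.2.2 v hv h1 h2 h1⟩
      refine ih _ ?_ T' pos' rfl (a1 (by simp [hr])) (a1 (by simp [htT])) ?_ a3
      · rw [← hn]
        refine card_lt_card ⟨sdiff_subset_sdiff subset_rfl ((subset_insert _ _).trans a1), fun h => ?_⟩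
        exact (mem_sdiff.1 (h (mem_filter.1 hy₁).1)).2 (a1 (by simp))
      · exact a2.trans (union_subset hT sdiff_subset)
    · right
      have out : ∀ z ∈ C, ∀ y ∈ insert r S, y ∉ C → H.Adj z y → y ∈ T := by
        intro z hz y hy hyC hzy
        by_contra hyT
        have hyD : y ∈ D := mem_sdiff.2 ⟨hy, hyT⟩
        exact hyC (mem_filter.2 ⟨hyD, (mem_filter.1 hz).2.trans
          (SimpleGraph.Adj.reachable ⟨hzy, (mem_filter.1 hz).1, hyD⟩)⟩)
      obtain ⟨c, hc, hc'⟩ : ∃ c ∈ T, ∀ u ∈ T, (∃ y ∈ C, H.Adj y u) → u = c := by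
        by_cases h : ∃ c ∈ T, ∃ y ∈ C, H.Adj y c
        · obtain ⟨c, hc, h⟩ := h
          refine ⟨c, hc, fun u hu hu' => ?_⟩
          rcases lt_trichotomy (pos u) (pos c) with h' | h' | h'
          · exact absurd ⟨u, hu, c, hc, h', hu', h⟩ hatt
          · exact hSt.1 hu hc h'
          · exact absurd ⟨c, hc, u, hu, h', h, hu'⟩ hatt
        · exact ⟨r, hr, fun u hu hu' => absurd ⟨u, hu, hu'⟩ h⟩
      refine ⟨C, c, ⟨x, mem_filter.2 ⟨hx, SimpleGraph.Reachable.refl _⟩⟩, fun y hy => ?_,
        fun h => hCT t h htT, fun h => hCT r h hr, hT hc, fun h => hCT c h hc,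
        fun z hz y hy hyC hzy => hc' y (out z hz y hy hyC hzy) ⟨z, hz, hzy⟩⟩
      have := mem_sdiff.1 (mem_filter.1 hy).1
      rcases mem_insert.1 this.1 with rfl | h
      · exact absurd hr this.2
      · exact h
  refine main _ {r, t} (fun v => if v = r then 0 else 1) rfl (by simp) (by simp)
    (by intro x hx; simp only [mem_insert, mem_singleton] at hx ⊢; rcases hx with rfl | rfl <;> simp [ht])
    ⟨?_, ?_, ?_⟩
  · intro a ha b hb hab
    have := hrt.ne'
    simp only [coe_insert, coe_singleton, Set.mem_insert_iff, Set.mem_singleton_iff] at ha hb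
    rcases ha with rfl | rfl <;> rcases hb with rfl | rfl <;> simp_all
  · intro v hv hvr
    have : v = t := by simpa [hvr] using hv
    subst this
    exact ⟨r, by simp, hrt.symm, by simp [hvr]⟩
  · intro v hv h1 h2
    simp [h1, h2] at hv

end Pool.Agent.H28.Plane
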