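import Mathlib
import Pool.Agent.H28.Plane2

namespace Pool.Agent.H28.Plane

open Finset Classical

variable {V : Type} [Fintype V] {H : SimpleGraph V} {sd : V → Bool}

def Good (H : SimpleGraph V) (sd : V → Bool) (X S : Finset V) : Prop :=
  ∃ k C, Low H sd X S k ∧ Up H sd X S k C

lemma Good.comp {X S₁ S₂ : Finset V} (d1 : Disjoint X S₁) (d2 : Disjoint X S₂)
    (d : Disjoint S₁ S₂) (h1 : Good H sd X S₁) (h2 : Good H sd (X ∪ S₁) S₂) :
    Good H sd X (S₁ ∪ S₂) := by
  obtain ⟨k₁, C₁, a1, a2⟩ := h1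
  obtain ⟨k₂, C₂, b1, b2⟩ := h2
  exact ⟨_, _, a1.comp d1 d2 d b1, a2.comp d2 b2⟩

lemma Good.local {X X' S : Finset V} (hX : X' ⊆ X)
    (h : ∀ x ∈ S, ∀ y ∈ X, H.Adj x y → y ∈ X') (h1 : Good H sd X' S) : Good H sd X S := by
  obtain ⟨k, C, a1, a2⟩ := h1
  exact ⟨k, C, a1.local hX h, a2.local hX h⟩

lemma Good.single (hb : ∀ x y, H.Adj x y → sd x ≠ sd y) (X : Finset V) (v : V) (hv : v ∉ X)
    (hd : (X.filter fun y => H.Adj v y).card ≤ 2) : Good H sd X {v} :=
  ⟨_, _, Low.single hb X v hv hd, Up.single X v hv⟩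

lemma base (hb : ∀ x y, H.Adj x y → sd x ≠ sd y) (r t : V) (S : Finset V) (hr : r ∉ S)
    (hrt : H.Adj r t) (pos : V → ℝ) (hSt : St H r t (insert r S) pos r)
    (hdeg : ∀ v ∈ S, 3 ≤ ((insert r S).filter fun y => H.Adj v y).card) : Good H sd {r} S := by
  obtain ⟨s1, s2, s3⟩ := hSt
  have hinj : Set.InjOn pos S := s1.mono (by simp)
  have hinj' : Set.InjOn (fun v => -pos v) S := fun a ha b hb h => hinj ha hb (neg_injective h)
  have u1 := Up.order (H := H) (sd := sd) {r} pos S (by simpa using hr) hinj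
  have u2 := Up.order (H := H) (sd := sd) {r} (fun v => -pos v) S (by simpa using hr) hinj'
  have l1 := Low.star hb r S hr true
  have l2 := Low.star hb r S hr false
  set c₁ := ∑ v ∈ S, (2 - (({r} ∪ S.filter fun u => pos u < pos v).filter
      fun y => H.Adj v y).card) with hc₁
  set c₂ := ∑ v ∈ S, (2 - (({r} ∪ S.filter fun u => -pos u < -pos v).filter
      fun y => H.Adj v y).card) with hc₂
  have hsum : c₁ + c₂ ≤ S.card := by
    rw [hc₁, hc₂, ← sum_add_distrib, card_eq_sum_ones]
    refine sum_le_sum fun v hv => ?_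
    have hvr : v ≠ r := by rintro rfl; exact hr hv
    have p1 : 0 < (({r} ∪ S.filter fun u => pos u < pos v).filter fun y => H.Adj v y).card := by
      obtain ⟨y, hy, h1, h2⟩ := s2 v (by simp [hv]) hvr
      refine card_pos.2 ⟨y, ?_⟩
      rcases mem_insert.1 hy with rfl | hy <;> simp [*]
    have p2 : 0 < (({r} ∪ S.filter fun u => -pos u < -pos v).filter fun y => H.Adj v y).card := by
      by_cases hvt : v = t
      · exact card_pos.2 ⟨r, by simp [hvt, hrt.symm]⟩
      · obtain ⟨y, hy, h1, h2⟩ := s3 v (by simp [hv]) hvr hvt hvr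
        refine card_pos.2 ⟨y, ?_⟩
        rcases mem_insert.1 hy with rfl | hy <;> simp [*]
    have p3 : ((insert r S).filter fun y => H.Adj v y) ⊆
        (({r} ∪ S.filter fun u => pos u < pos v).filter fun y => H.Adj v y) ∪
        (({r} ∪ S.filter fun u => -pos u < -pos v).filter fun y => H.Adj v y) := by
      intro y hy
      rw [mem_filter, mem_insert] at hy
      rcases hy with ⟨rfl | hy, h⟩
      · simp [h]
      · have : pos y ≠ pos v := fun e => h.ne' (hinj hy hv e)
        rcases lt_or_gt_of_ne this with h' | h' <;> simp [*]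
    have p4 := (hdeg v hv).trans ((card_le_card p3).trans (card_union_le _ _))
    omega
  have hs : (S.filter fun v => sd v = true).card + (S.filter fun v => sd v = false).card = S.card := by
    rw [← card_filter_add_card_filter_not (s := S) (fun v => sd v = true)]
    simp
  by_cases h1 : c₁ ≤ c₂
  · by_cases h2 : c₁ ≤ (S.filter fun v => sd v = true).card
    · exact ⟨_, _, l1, u1.mono h2⟩
    · exact ⟨_, _, l2, u1.mono (by omega)⟩
  · by_cases h2 : c₂ ≤ (S.filter fun v => sd v = true).card
    · exact ⟨_, _, l1, u2.mono h2⟩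
    · exact ⟨_, _, l2, u2.mono (by omega)⟩

lemma rooted (hb : ∀ x y, H.Adj x y → sd x ≠ sd y) (n : ℕ) :
    ∀ (S : Finset V) (r : V), S.card = n → r ∉ S → Good H sd {r} S := by
  induction n using Nat.strong_induction_on with
  | _ n ih =>
  intro S r hn hr
  by_cases hlow : ∃ v ∈ S, ((insert r S).filter fun y => H.Adj v y).card ≤ 2
  · obtain ⟨v, hv, hd⟩ := hlow
    have h1 := ih _ (by rw [← hn]; exact card_erase_lt_of_mem hv) (S.erase v) r rfl (by simp [hr])
    have hvr : v ≠ r := by rintro rfl; exact hr hv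
    have h2 := Good.single hb ({r} ∪ S.erase v) v (by simp [hvr]) (le_trans (card_le_card (by
      intro y hy
      simp only [mem_filter, mem_union, mem_singleton, mem_erase, mem_insert] at hy ⊢
      tauto)) hd)
    have := Good.comp (by simp [hr]) (by simpa using hvr.symm) (by simp) h1 h2
    rwa [union_comm, ← insert_eq, insert_erase hv] at this
  push Not at hlow
  by_cases ht : ∃ t ∈ S, H.Adj r t
  · obtain ⟨t, ht, hrt⟩ := ht
    rcases dichotomy r t S ht hrt with ⟨pos, h⟩ | ⟨C, c, h1, h2, h3, h4, h5, h6, h7⟩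
    · exact base hb r t S hr hrt pos h hlow
    · have a1 := ih _ (by
        rw [← hn]
        obtain ⟨x, hx⟩ := h1
        exact card_lt_card ⟨sdiff_subset, fun h => (mem_sdiff.1 (h (h2 hx))).2 hx⟩)
        (S \ C) r rfl (by simp [hr])
      have a2 := ih _ (by
        rw [← hn]
        exact card_lt_card ⟨h2, fun h => h3 (h ht)⟩) C c rfl h6
      have a3 : Good H sd ({r} ∪ S \ C) C := a2.local (by
        intro y hy
        rw [mem_singleton.1 hy]
        simp only [mem_union, mem_singleton, mem_sdiff, mem_insert] at h5 ⊢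
        tauto) (fun x hx y hy hxy => by
          rw [mem_singleton]
          simp only [mem_union, mem_singleton, mem_sdiff] at hy
          refine h7 x hx y (by simp only [mem_insert]; tauto) ?_ hxy
          rcases hy with rfl | hy
          · exact h4
          · exact hy.2)
      have := Good.comp (by simp [hr]) (by simpa using h4) sdiff_disjoint a1 a3
      rwa [sdiff_union_of_subset h2] at this
  · push Not at ht
    rcases S.eq_empty_or_nonempty with rfl | ⟨v, hv⟩
    · exact ⟨_, _, Low.empty _, Up.empty _⟩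
    have hvr : v ≠ r := by rintro rfl; exact hr hv
    have h1 := Good.single hb {r} v (by simpa using hvr) ((card_filter_le _ _).trans (by simp))
    have h2 := ih _ (by rw [← hn]; exact card_erase_lt_of_mem hv) (S.erase v) v rfl (by simp)
    have h3 : Good H sd ({r} ∪ {v}) (S.erase v) := h2.local (by simp) (fun x hx y hy hxy => by
      simp only [mem_union, mem_singleton] at hy ⊢
      rcases hy with rfl | hy
      · exact absurd hxy.symm (ht x (mem_of_mem_erase hx))
      · exact hy)
    have := Good.comp (by simpa using hvr.symm) (by simp [hr]) (by simp) h1 h3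
    rwa [← insert_eq, insert_erase hv] at this

lemma unrooted (hb : ∀ x y, H.Adj x y → sd x ≠ sd y) (S : Finset V) : Good H sd ∅ S := by
  rcases S.eq_empty_or_nonempty with rfl | ⟨v, hv⟩
  · exact ⟨_, _, Low.empty _, Up.empty _⟩
  have h1 := Good.single hb ∅ v (by simp) (by simp)
  have h2 := rooted hb _ (S.erase v) v rfl (by simp)
  have := Good.comp (S₂ := S.erase v) (by simp) (by simp) (by simp) h1 (by simpa using h2)
  rwa [← insert_eq, insert_erase hv] at this

/-- identify `v` with `u` -/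
def merge (H : SimpleGraph V) (u v : V) : SimpleGraph V where
  Adj x y := x ≠ y ∧ (H.Adj x y ∨ (x = u ∧ H.Adj v y) ∨ (y = u ∧ H.Adj x v))
  symm := ⟨fun x y h => ⟨h.1.symm, by
    rcases h.2 with h | h | h
    · exact Or.inl h.symm
    · exact Or.inr (Or.inr ⟨h.1, h.2.symm⟩)
    · exact Or.inr (Or.inl ⟨h.1, h.2.symm⟩)⟩⟩
  loopless := ⟨fun _ h => h.1 rfl⟩

lemma merge_card (hb : ∀ x y, H.Adj x y → sd x ≠ sd y) (T : Tg) (S : Finset V) (u v : V)
    (hu : u ∈ S) (hv : v ∈ S) (huv : u ≠ v) (hs : sd u = sd v) (ψ : V → T.W) :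
    ((Ext H sd T ∅ S ψ).filter fun φ => φ u = φ v).card =
      (Ext (merge H u v) sd T ∅ (S.erase v) ψ).card := by
  refine card_nbij' (fun φ => Function.update φ v (ψ v)) (fun φ => Function.update φ v (φ u))
    ?_ ?_ ?_ ?_
  · intro φ hφ
    rw [mem_coe, mem_filter, mem_Ext] at hφ
    obtain ⟨⟨a1, a2, a3⟩, a4⟩ := hφ
    rw [mem_coe, mem_Ext]
    refine ⟨fun x hx => ?_, fun x hx => ?_, fun x hx y hy hxy => ?_⟩
    · by_cases h : x = v
      · subst h; simp
      · simp only [Function.update_of_ne h]; exact a1 x (by simpa [h] using hx)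
    · rw [mem_erase] at hx
      simp only [Function.update_of_ne hx.1]; exact a2 x hx.2
    · rw [empty_union] at hy
      rw [mem_erase] at hx hy
      simp only [Function.update_of_ne hx.1, Function.update_of_ne hy.1]
      rcases hxy.2 with h | ⟨rfl, h⟩ | ⟨rfl, h⟩
      · exact a3 x hx.2 y (by simp [hy.2]) h
      · rw [a4]; exact a3 v hv y (by simp [hy.2]) h
      · rw [a4]; exact a3 x hx.2 v (by simp [hv]) h
  · intro φ hφ
    rw [mem_coe, mem_Ext] at hφ
    obtain ⟨a1, a2, a3⟩ := hφ
    rw [mem_coe, mem_filter, mem_Ext]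
    have hu' : u ∈ S.erase v := mem_erase.2 ⟨huv, hu⟩
    refine ⟨⟨fun x hx => ?_, fun x hx => ?_, fun x hx y hy hxy => ?_⟩, by simp [huv]⟩
    · have h : x ≠ v := by rintro rfl; exact hx hv
      simp only [Function.update_of_ne h]; exact a1 x (by simp [hx])
    · by_cases h : x = v
      · subst h; simp only [Function.update_self]; rw [← hs]; exact a2 u hu'
      · simp only [Function.update_of_ne h]; exact a2 x (mem_erase.2 ⟨h, hx⟩)
    · rw [empty_union] at hy
      have hsd := hb _ _ hxy
      by_cases h : x = v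
      · subst h
        simp only [Function.update_self, Function.update_of_ne hxy.ne']
        exact a3 u hu' y (by simp [hy, hxy.ne'])
          ⟨by rintro rfl; exact hsd hs.symm, Or.inr (Or.inl ⟨rfl, hxy⟩)⟩
      · by_cases h' : y = v
        · subst h'
          simp only [Function.update_self, Function.update_of_ne h]
          exact a3 x (mem_erase.2 ⟨h, hx⟩) u (by simp [hu, huv])
            ⟨by rintro rfl; exact hsd hs, Or.inr (Or.inr ⟨rfl, hxy⟩)⟩
        · simp only [Function.update_of_ne h, Function.update_of_ne h']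
          exact a3 x (mem_erase.2 ⟨h, hx⟩) y (by simp [hy, h']) ⟨hxy.ne, Or.inl hxy⟩
  · intro φ hφ
    rw [mem_coe, mem_filter] at hφ
    funext x
    by_cases h : x = v
    · subst h; simp [huv, hφ.2]
    · simp [h]
  · intro φ hφ
    rw [mem_coe, mem_Ext] at hφ
    funext x
    by_cases h : x = v
    · subst h; simp [hφ.1 x (by simp)]
    · simp [h]

theorem theta (n : ℕ) : ∀ (H : SimpleGraph V) (S : Finset V), (∀ x y, H.Adj x y → sd x ≠ sd y) →
    S.card = n → ∃ k C : ℕ, ∀ (T : Tg) (ψ : V → T.W),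
      T.q ^ k ≤ (Ext H sd T ∅ S ψ).card ∧ (Ext H sd T ∅ S ψ).card ≤ C * T.q ^ k := by
  induction n using Nat.strong_induction_on with
  | _ n ih =>
  intro H S hb hn
  obtain ⟨k₀, C₀, l0, u0⟩ := unrooted hb S
  let P := (S ×ˢ S).filter fun z => z.1 ≠ z.2 ∧ sd z.1 = sd z.2
  have hP : ∀ z : V × V, ∃ k C : ℕ, z ∈ P → ∀ (T : Tg) (ψ : V → T.W),
      T.q ^ k ≤ ((Ext H sd T ∅ S ψ).filter fun φ => φ z.1 = φ z.2).card ∧
      ((Ext H sd T ∅ S ψ).filter fun φ => φ z.1 = φ z.2).card ≤ C * T.q ^ k := by
    rintro ⟨u, v⟩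
    by_cases h : (u, v) ∈ P
    · have h' := h
      simp only [P, mem_filter, mem_product] at h'
      obtain ⟨k, C, hk⟩ := ih _ (by rw [← hn]; exact card_erase_lt_of_mem h'.1.2) (merge H u v)
        (S.erase v) (by
          rintro x y ⟨-, g | ⟨e, g⟩ | ⟨e, g⟩⟩
          · exact hb _ _ g
          · rw [e, h'.2.2]; exact hb _ _ g
          · rw [e, h'.2.2]; exact hb _ _ g) rfl
      refine ⟨k, C, fun _ T ψ => ?_⟩
      rw [merge_card hb T S u v h'.1.1 h'.1.2 h'.2.1 h'.2.2]
      exact hk T ψ
    · exact ⟨0, 0, fun h' => absurd h' h⟩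
  choose k C hk using hP
  refine ⟨max k₀ (P.sup k), C₀ + ∑ z ∈ P, C z, fun T ψ => ⟨?_, ?_⟩⟩
  · rcases le_total (P.sup k) k₀ with h | h
    · rw [max_eq_left h]; exact l0 T ψ (by simp)
    · rw [max_eq_right h]
      rcases P.eq_empty_or_nonempty with h0 | h0
      · have : k₀ = 0 := by simpa [h0] using h
        simpa [h0, this] using l0 T ψ (by simp)
      · obtain ⟨z, hz, e⟩ := exists_mem_eq_sup P h0 k
        rw [e]
        exact (hk z hz T ψ).1.trans (card_filter_le _ _)
  · have hsub : Ext H sd T ∅ S ψ ⊆ Inj H sd T ∅ S ψ ∪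
        P.biUnion fun z => (Ext H sd T ∅ S ψ).filter fun φ => φ z.1 = φ z.2 := by
      intro φ hφ
      by_cases h : φ ∈ Inj H sd T ∅ S ψ
      · exact mem_union_left _ h
      · rw [mem_Inj] at h
        push Not at h
        obtain ⟨x, hx, y, hy, h1, h2⟩ := h hφ
        rw [empty_union] at hx hy
        refine mem_union_right _ (mem_biUnion.2 ⟨(x, y), ?_, mem_filter.2 ⟨hφ, h1⟩⟩)
        have := (mem_Ext.1 hφ).2.1
        simp only [P, mem_filter, mem_product]
        exact ⟨⟨hx, hy⟩, h2, by rw [← this x hx, ← this y hy, h1]⟩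
    refine (card_le_card hsub).trans ((card_union_le _ _).trans ?_)
    rw [add_mul, sum_mul]
    refine add_le_add ((u0.mono (le_max_left _ _)) T ψ) (card_biUnion_le.trans (sum_le_sum ?_))
    intro z hz
    exact (hk z hz T ψ).2.trans (Nat.mul_le_mul_left _ (Nat.pow_le_pow_right T.q_pos
      ((le_sup hz).trans (le_max_right _ _))))

end Pool.Agent.H28.Plane
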