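import Mathlib
import Pool.Agent.H28.Plane3

namespace Pool.Agent.H28.Plane

open Finset Classical Configuration Filter Topology

/-- number of homomorphisms from the bipartite graph `(V₁, V₂, E)` to the incidence graph of `(P, L)`
mapping `V₁` to points and `V₂` to lines -/
noncomputable def homCount {V₁ V₂ : Type} (E : V₁ → V₂ → Prop) (P L : Type) [Membership P L] : ℕ :=
  Nat.card {fg : (V₁ → P) × (V₂ → L) // ∀ a b, E a b → fg.1 a ∈ fg.2 b}

/-- bipartite homomorphism density -/
noncomputable def tB {V₁ V₂ : Type} (E : V₁ → V₂ → Prop) (P L : Type) [Membership P L] : ℝ :=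
  (homCount E P L : ℝ) / ((Nat.card P : ℝ) ^ Nat.card V₁ * (Nat.card L : ℝ) ^ Nat.card V₂)

section
variable (P L : Type) [Membership P L] [Fintype P] [Fintype L] [ProjectivePlane P L]

def inc : P ⊕ L → P ⊕ L → Prop
  | .inl p, .inr l => p ∈ l
  | .inr l, .inl p => p ∈ l
  | _, _ => False

lemma card_side (b : Bool) : (univ.filter fun w : P ⊕ L => w.isLeft = b).card =
    ProjectivePlane.order P L ^ 2 + ProjectivePlane.order P L + 1 := by
  cases b
  · rw [← ProjectivePlane.card_lines, ← card_univ,
      ← card_map (s := univ) (Function.Embedding.inr (α := P) (β := L))]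
    refine congrArg card ?_; ext w; cases w <;> simp
  · rw [← ProjectivePlane.card_points, ← card_univ,
      ← card_map (s := univ) (Function.Embedding.inl (α := P) (β := L))]
    refine congrArg card ?_; ext w; cases w <;> simp

lemma card_nbr (w : P ⊕ L) : (univ.filter fun x => inc P L w x).card =
    ProjectivePlane.order P L + 1 := by
  cases w with
  | inl p =>
    rw [← ProjectivePlane.lineCount_eq L p, lineCount, Nat.card_eq_fintype_card, Fintype.card_subtype,
      ← card_map (Function.Embedding.inr (α := P) (β := L))]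
    refine congrArg card ?_; ext w; cases w <;> simp [inc]
  | inr l =>
    rw [← ProjectivePlane.pointCount_eq P l, pointCount, Nat.card_eq_fintype_card, Fintype.card_subtype,
      ← card_map (Function.Embedding.inl (α := P) (β := L))]
    refine congrArg card ?_; ext w; cases w <;> simp [inc]

noncomputable def tg : Tg where
  W := P ⊕ L
  fin := inferInstance
  q := ProjectivePlane.order P L
  τ := Sum.isLeft
  A := inc P L
  symm := by rintro (a | a) (b | b) h <;> exact h
  bip := by rintro (a | a) (b | b) h <;> simp_all [inc]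
  q_pos := (ProjectivePlane.one_lt_order P L).le
  c0l := fun b => by
    have := card_side P L b
    convert (by omega : ProjectivePlane.order P L ^ 2 ≤ _).trans this.ge using 1
  c0u := fun b => by
    have := card_side P L b
    have h := ProjectivePlane.one_lt_order P L
    convert this.le.trans (by nlinarith : _ ≤ 3 * ProjectivePlane.order P L ^ 2) using 1
  c1l := fun w => by rw [card_nbr]; omega
  c1u := fun w => by rw [card_nbr]; have := ProjectivePlane.one_lt_order P L; omega
  c2u := by
    rintro (a | a) (b | b) (x | x) (y | y) h h1 h2 h3 h4 <;> simp only [inc] at h1 h2 h3 h4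
    · rcases Nondegenerate.eq_or_eq h1 h2 h3 h4 with e | e
      · exact absurd (congrArg _ e) h
      · rw [e]
    · rcases Nondegenerate.eq_or_eq h1 h3 h2 h4 with e | e
      · rw [e]
      · exact absurd (congrArg _ e) h
  c2l := by
    have ex : ∀ w, ∃ x, inc P L w x := fun w => by
      obtain ⟨x, hx⟩ := card_pos.1 (show 0 < (univ.filter fun x => inc P L w x).card by
        rw [card_nbr]; omega)
      exact ⟨x, by simpa using hx⟩
    intro w₁ w₂ h
    by_cases e : w₁ = w₂
    · subst e; obtain ⟨x, hx⟩ := ex w₁; exact ⟨x, hx, hx⟩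
    · rcases w₁ with a | a <;> rcases w₂ with b | b
      · have : a ≠ b := fun h => e (congrArg _ h)
        exact ⟨.inr (HasLines.mkLine this), HasLines.mkLine_ax this⟩
      · simp at h
      · simp at h
      · have : a ≠ b := fun h => e (congrArg _ h)
        exact ⟨.inl (HasPoints.mkPoint this), HasPoints.mkPoint_ax this⟩

end

def gr {V₁ V₂ : Type} (E : V₁ → V₂ → Prop) : SimpleGraph (V₁ ⊕ V₂) where
  Adj
    | .inl a, .inr b => E a b
    | .inr b, .inl a => E a b
    | _, _ => False
  symm := ⟨by rintro (a | a) (b | b) h <;> exact h⟩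
  loopless := ⟨by rintro (a | a) h <;> exact h⟩

lemma hom_eq {V₁ V₂ : Type} [Fintype V₁] [Fintype V₂] (E : V₁ → V₂ → Prop)
    (P L : Type) [Membership P L] [Fintype P] [Fintype L] [ProjectivePlane P L]
    (ψ : V₁ ⊕ V₂ → (tg P L).W) :
    homCount E P L = (Ext (gr E) Sum.isLeft (tg P L) ∅ univ ψ).card := by
  rw [homCount, Nat.card_eq_fintype_card, Fintype.card_subtype]
  refine card_bij (fun fg _ => Sum.map fg.1 fg.2) ?_ ?_ ?_
  · intro fg h
    rw [mem_filter] at h
    rw [mem_Ext]
    refine ⟨by simp, by rintro (a | a) _ <;> rfl, ?_⟩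
    rintro (a | a) _ (b | b) _ hab
    · exact hab.elim
    · exact h.2 _ _ hab
    · exact h.2 _ _ hab
    · exact hab.elim
  · intro a _ b _ h
    ext x
    · simpa using congrFun h (.inl x)
    · simpa using congrFun h (.inr x)
  · intro φ h
    rw [mem_Ext] at h
    have h1 : ∀ a, ∃ p, φ (.inl a) = .inl p := fun a => Sum.isLeft_iff.1 (h.2.1 (.inl a) (mem_univ _))
    have h2 : ∀ b, ∃ l, φ (.inr b) = .inr l := fun b => Sum.isRight_iff.1 (by
      have := h.2.1 (.inr b) (mem_univ _)
      simpa [tg] using this)
    choose f hf using h1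
    choose g hg using h2
    refine ⟨(f, g), ?_, ?_⟩
    · simp only [mem_filter, mem_univ, true_and]
      intro a b hab
      have := h.2.2 (.inl a) (mem_univ _) (.inr b) (by simp) hab
      rw [hf, hg] at this
      exact this
    · funext x; cases x <;> simp [hf, hg]

lemma hom_edge {V₁ V₂ : Type} [Fintype V₁] [Fintype V₂] (E : V₁ → V₂ → Prop) (a : V₁) (b : V₂)
    (hab : E a b) (P L : Type) [Membership P L] [Fintype P] [Fintype L] [ProjectivePlane P L] :
    homCount E P L * Fintype.card L ≤ (ProjectivePlane.order P L + 1) *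
      (Fintype.card P ^ Fintype.card V₁ * Fintype.card L ^ Fintype.card V₂) := by
  rw [homCount, Nat.card_eq_fintype_card, Fintype.card_subtype]
  have := card_le_mul_card_image_of_maps_to
    (s := univ.filter fun fg : (V₁ → P) × (V₂ → L) => ∀ a b, E a b → fg.1 a ∈ fg.2 b)
    (f := fun fg => (fg.1, fun x : {x // x ≠ b} => fg.2 x)) (t := univ) (by simp)
    (ProjectivePlane.order P L + 1) ?_
  · refine (Nat.mul_le_mul_right _ this).trans (le_of_eq ?_)
    have e : Fintype.card V₂ = Fintype.card {x // x ≠ b} + 1 := by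
      have : 0 < Fintype.card V₂ := Fintype.card_pos_iff.2 ⟨b⟩
      simp; omega
    rw [card_univ, Fintype.card_prod, Fintype.card_fun, Fintype.card_fun]
    conv_rhs => rw [e]
    ring
  · rintro ⟨f, g⟩ -
    rw [← ProjectivePlane.lineCount_eq L (f a), lineCount, Nat.card_eq_fintype_card,
      Fintype.card_subtype]
    refine card_le_card_of_injOn (fun fg => fg.2 b) ?_ ?_
    · intro fg h
      simp only [coe_filter, mem_filter, mem_univ, true_and, Set.mem_ofPred_eq, Prod.mk.injEq] at h ⊢
      rw [← h.2.1]; exact h.1 a b hab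
    · intro x hx y hy h
      simp only [coe_filter, mem_filter, mem_univ, true_and, Set.mem_ofPred_eq, Prod.mk.injEq] at hx hy
      refine Prod.ext (hx.2.1.trans hy.2.1.symm) (funext fun z => ?_)
      by_cases hz : z = b
      · subst hz; exact h
      · exact (congrFun hx.2.2 ⟨z, hz⟩).trans (congrFun hy.2.2 ⟨z, hz⟩).symm

/-- two-sided estimate for the density -/
lemma dens {V₁ V₂ : Type} [Fintype V₁] [Fintype V₂] (E : V₁ → V₂ → Prop) (hE : ∃ a b, E a b) :
    ∃ α K : ℝ, ∀ (P L : Type) [Membership P L] [Fintype P] [Fintype L] [ProjectivePlane P L],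
      |-Real.log (tB E P L) - α * Real.log (ProjectivePlane.order P L)| ≤ K ∧
      Real.log (ProjectivePlane.order P L) ≤ -Real.log (tB E P L) + 1 := by
  obtain ⟨k, C, h⟩ := theta (sd := (Sum.isLeft : V₁ ⊕ V₂ → Bool)) _ (gr E) univ
    (by rintro (a | a) (b | b) h <;> first | exact h.elim | simp) rfl
  obtain ⟨a, b, hab⟩ := hE
  set v := Fintype.card V₁ + Fintype.card V₂
  refine ⟨2 * v - k, Real.log C + v * Real.log 3, fun P L _ _ _ _ => ?_⟩
  set q := ProjectivePlane.order P L with hq
  have hq1 : 1 < q := ProjectivePlane.one_lt_order P L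
  have hP : Fintype.card P = q ^ 2 + q + 1 := ProjectivePlane.card_points P L
  have hL : Fintype.card L = q ^ 2 + q + 1 := ProjectivePlane.card_lines P L
  obtain ⟨p₀⟩ : Nonempty P := Fintype.card_pos_iff.1 (by omega)
  obtain ⟨h1, h2⟩ := h (tg P L) (fun _ => .inl p₀)
  rw [← hom_eq] at h1 h2
  change q ^ k ≤ _ at h1
  change _ ≤ C * q ^ k at h2
  have h3 := hom_edge E a b hab P L
  rw [hP, hL, ← pow_add, ← hq] at h3
  set N := q ^ 2 + q + 1 with hN
  set m := homCount E P L
  have hqR : (1 : ℝ) < q := by exact_mod_cast hq1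
  have hm : (0 : ℝ) < m := by
    have : 0 < q ^ k := by positivity
    exact_mod_cast this.trans_le h1
  have hNR : (N : ℝ) = q ^ 2 + q + 1 := by simp [hN]
  have hN0 : (0 : ℝ) < N := by rw [hNR]; positivity
  have hC : (1 : ℝ) ≤ C := by
    have : 0 < q ^ k := by positivity
    have : 0 < C := Nat.pos_of_mul_pos_right (this.trans_le (h1.trans h2))
    exact_mod_cast this
  have e : -Real.log (tB E P L) = v * Real.log N - Real.log m := by
    rw [tB, Nat.card_eq_fintype_card, Nat.card_eq_fintype_card, Nat.card_eq_fintype_card,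
      Nat.card_eq_fintype_card, hP, hL, ← pow_add, Real.log_div hm.ne' (by positivity), Real.log_pow]
    ring
  have b1 : k * Real.log q ≤ Real.log m := by
    rw [← Real.log_pow]; exact Real.log_le_log (by positivity) (by exact_mod_cast h1)
  have b2 : Real.log m ≤ Real.log C + k * Real.log q := by
    rw [← Real.log_pow, ← Real.log_mul (by positivity) (by positivity)]
    exact Real.log_le_log hm (by exact_mod_cast h2)
  have b3 : 2 * Real.log q ≤ Real.log N := by
    have := Real.log_pow (q : ℝ) 2
    push_cast at this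
    rw [← this]; exact Real.log_le_log (by positivity) (by rw [hNR]; linarith)
  have b4 : Real.log N ≤ Real.log 3 + 2 * Real.log q := by
    have := Real.log_pow (q : ℝ) 2
    push_cast at this
    rw [← this, ← Real.log_mul (by positivity) (by positivity)]
    exact Real.log_le_log hN0 (by rw [hNR]; nlinarith)
  have b5 : 0 ≤ Real.log C := Real.log_nonneg hC
  have b6 : 0 ≤ Real.log 3 := Real.log_nonneg (by norm_num)
  have hv : (0 : ℝ) ≤ v := by positivity
  have b7 : Real.log m + Real.log q ≤ v * Real.log N := by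
    rw [← Real.log_pow, ← Real.log_mul hm.ne' (by positivity)]
    refine Real.log_le_log (by positivity) ?_
    have h3' : (m : ℝ) * N ≤ (q + 1) * N ^ v := by exact_mod_cast h3
    have hNv : (0 : ℝ) < N ^ v := by positivity
    have : (m : ℝ) * q * N ≤ N ^ v * N := by rw [hNR] at h3' hNv ⊢; nlinarith
    exact le_of_mul_le_mul_right this hN0
  rw [e]
  refine ⟨abs_le.2 ⟨by nlinarith, by nlinarith⟩, by linarith⟩

theorem logconv {V₁ V₂ W₁ W₂ : Type} [Fintype V₁] [Fintype V₂] [Fintype W₁] [Fintype W₂]
    (E : V₁ → V₂ → Prop) (F : W₁ → W₂ → Prop) (hE : ∃ a b, E a b) (hF : ∃ a b, F a b) :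
    ∃ c : ℝ, ∀ (P L : ℕ → Type) [∀ n, Membership (P n) (L n)] [∀ n, Fintype (P n)]
      [∀ n, Fintype (L n)] [∀ n, ProjectivePlane (P n) (L n)],
      Tendsto (fun n => ProjectivePlane.order (P n) (L n)) atTop atTop →
      Tendsto (fun n => (-Real.log (tB E (P n) (L n))) / (-Real.log (tB F (P n) (L n))))
        atTop (𝓝 c) := by
  obtain ⟨α, K, h⟩ := dens E hE
  obtain ⟨β, K', h'⟩ := dens F hF
  refine ⟨α / β, fun P L _ _ _ _ hq => ?_⟩
  set x : ℕ → ℝ := fun n => Real.log (ProjectivePlane.order (P n) (L n))
  have hx : Tendsto x atTop atTop :=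
    Real.tendsto_log_atTop.comp (tendsto_natCast_atTop_atTop.comp hq)
  have key : ∀ (y : ℕ → ℝ) (a k : ℝ), (∀ n, |y n - a * x n| ≤ k) →
      Tendsto (fun n => y n / x n) atTop (𝓝 a) := by
    intro y a k hy
    have h1 : Tendsto (fun n => (y n - a * x n) / x n) atTop (𝓝 0) := by
      refine squeeze_zero_norm' (a := fun n => k / x n) ?_ (hx.const_div_atTop k)
      filter_upwards [hx.eventually_gt_atTop 0] with n hn
      rw [norm_div, Real.norm_eq_abs, Real.norm_eq_abs, abs_of_pos hn]
      gcongr
      exact hy n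
    have h2 := h1.add_const a
    rw [zero_add] at h2
    refine h2.congr' ?_
    filter_upwards [hx.eventually_gt_atTop 0] with n hn
    field_simp
    ring
  have k1 := key _ α K fun n => (h (P n) (L n)).1
  have k2 := key _ β K' fun n => (h' (P n) (L n)).1
  have hβ : 1 ≤ β := by
    have k3 := key (fun n => x n - 1) 1 1 (fun n => by simp)
    refine le_of_tendsto_of_tendsto k3 k2 ?_
    filter_upwards [hx.eventually_gt_atTop 0] with n hn
    have := (h' (P n) (L n)).2
    gcongr
    linarith
  refine (k1.div k2 (by linarith)).congr' ?_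
  filter_upwards [hx.eventually_gt_atTop 0] with n hn
  simp only [Pi.div_apply]
  rw [div_div_div_cancel_right₀ hn.ne']

end Pool.Agent.H28.Plane
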