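import Mathlib
import Pool.Agent.H28.Plane4

namespace Pool.Agent.H28.Plane

open Finset Classical

variable {V : Type} [Fintype V] {H : SimpleGraph V} {sd : V → Bool}

noncomputable def Ed (H : SimpleGraph V) (sd : V → Bool) (S : Finset V) : Finset (V × V) :=
  (S ×ˢ S).filter fun p => H.Adj p.1 p.2 ∧ sd p.1 = true

omit [Fintype V] in
lemma mem_Ed {S : Finset V} {p : V × V} :
    p ∈ Ed H sd S ↔ p.1 ∈ S ∧ p.2 ∈ S ∧ H.Adj p.1 p.2 ∧ sd p.1 = true := by
  simp [Ed, and_assoc]

def Col (H : SimpleGraph V) (sd : V → Bool) (X S : Finset V) (k : ℕ) : Prop :=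
  ∃ π : V → V, (∀ x, x ∉ S → π x = x) ∧ (∀ x ∈ S, π x ∈ X ∪ S ∧ sd (π x) = sd x) ∧
    k + ((Ed H sd (X ∪ S)).image (Prod.map π π) \ Ed H sd X).card ≤ 2 * (S.image π ∩ S).card

omit [Fintype V] in
lemma Col.empty (X : Finset V) : Col H sd X ∅ 0 :=
  ⟨id, fun _ _ => rfl, by simp, by simp⟩

omit [Fintype V] in
lemma Col.comp {X S₁ S₂ : Finset V} {k₁ k₂ : ℕ} (_ : Disjoint X S₁) (_ : Disjoint X S₂)
    (d : Disjoint S₁ S₂) (h1 : Col H sd X S₁ k₁) (h2 : Col H sd (X ∪ S₁) S₂ k₂) :
    Col H sd X (S₁ ∪ S₂) (k₁ + k₂) := by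
  obtain ⟨p, a1, a2, a3⟩ := h1
  obtain ⟨p', b1, b2, b3⟩ := h2
  have c1 : ∀ x, sd (p x) = sd x := fun x => by
    by_cases h : x ∈ S₁
    · exact (a2 x h).2
    · rw [a1 x h]
  refine ⟨p ∘ p', fun x hx => ?_, fun x hx => ⟨?_, ?_⟩, ?_⟩
  · rw [mem_union, not_or] at hx
    simp [b1 x hx.2, a1 x hx.1]
  · have : p' x ∈ X ∪ S₁ ∪ S₂ := by
      by_cases h : x ∈ S₂
      · exact (b2 x h).1
      · rw [b1 x h]; simp only [mem_union] at hx ⊢; tauto
    simp only [Function.comp]
    by_cases h : p' x ∈ S₁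
    · have := (a2 _ h).1; simp only [mem_union] at this ⊢; tauto
    · rw [a1 _ h, ← union_assoc]; exact this
  · simp only [Function.comp, c1]
    by_cases h : x ∈ S₂
    · exact (b2 x h).2
    · rw [b1 x h]
  · have e1 : (Ed H sd (X ∪ (S₁ ∪ S₂))).image (Prod.map (p ∘ p') (p ∘ p')) \ Ed H sd X ⊆
        ((Ed H sd (X ∪ S₁)).image (Prod.map p p) \ Ed H sd X) ∪
        ((Ed H sd (X ∪ S₁ ∪ S₂)).image (Prod.map p' p') \ Ed H sd (X ∪ S₁)).image (Prod.map p p) := by
      intro e he
      rw [mem_sdiff, mem_image] at he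
      obtain ⟨⟨f, hf, rfl⟩, hn⟩ := he
      rw [← union_assoc] at hf
      by_cases h : Prod.map p' p' f ∈ Ed H sd (X ∪ S₁)
      · exact mem_union_left _ (mem_sdiff.2 ⟨mem_image.2 ⟨_, h, rfl⟩, hn⟩)
      · exact mem_union_right _ (mem_image.2 ⟨_, mem_sdiff.2 ⟨mem_image_of_mem _ hf, h⟩, rfl⟩)
    have e2 : (S₁.image p ∩ S₁) ∪ (S₂.image p' ∩ S₂) ⊆ (S₁ ∪ S₂).image (p ∘ p') ∩ (S₁ ∪ S₂) := by
      intro x hx
      simp only [mem_union, mem_inter, mem_image, Function.comp] at hx ⊢
      rcases hx with ⟨⟨y, hy, rfl⟩, h⟩ | ⟨⟨y, hy, rfl⟩, h⟩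
      · exact ⟨⟨y, .inl hy, by rw [b1 y (disjoint_left.1 d hy)]⟩, .inl h⟩
      · exact ⟨⟨y, .inr hy, a1 _ (disjoint_right.1 d h)⟩, .inr h⟩
    have f1 := (card_le_card e1).trans ((card_union_le _ _).trans
      (Nat.add_le_add_left card_image_le _))
    have f2 := card_le_card e2
    rw [card_union_of_disjoint (d.mono inter_subset_right inter_subset_right)] at f2
    omega

omit [Fintype V] in
lemma Col.local {X X' S : Finset V} {k : ℕ} (hX : X' ⊆ X)
    (h : ∀ x ∈ S, ∀ y ∈ X, H.Adj x y → y ∈ X') (h1 : Col H sd X' S k) : Col H sd X S k := by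
  obtain ⟨p, a1, a2, a3⟩ := h1
  refine ⟨p, a1, fun x hx => ⟨union_subset_union_left hX (a2 x hx).1, (a2 x hx).2⟩,
    le_trans (Nat.add_le_add_left (card_le_card fun e he => ?_) _) a3⟩
  rw [mem_sdiff, mem_image] at he ⊢
  obtain ⟨⟨⟨x, y⟩, hf, rfl⟩, hn⟩ := he
  rw [mem_Ed] at hf
  simp only [mem_union] at hf
  refine ⟨⟨(x, y), ?_, rfl⟩, fun k => hn ?_⟩
  · by_contra k
    apply hn
    rw [mem_Ed] at k ⊢
    simp only [mem_union] at k
    have hx : x ∉ S := fun hx => k ⟨.inr hx, hf.2.1.imp (fun hy => h x hx y hy hf.2.2.1) id, hf.2.2⟩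
    have hy : y ∉ S := fun hy =>
      k ⟨hf.1.imp (fun hx => h y hy x hx hf.2.2.1.symm) id, .inr hy, hf.2.2⟩
    simp only [Prod.map, a1 x hx, a1 y hy]
    exact ⟨hf.1.resolve_right hx, hf.2.1.resolve_right hy, hf.2.2⟩
  · rw [mem_Ed] at k ⊢
    exact ⟨hX k.1, hX k.2.1, k.2.2⟩

omit [Fintype V] in
lemma Ed_single (hb : ∀ x y, H.Adj x y → sd x ≠ sd y) (X : Finset V) (v : V) (hv : v ∉ X) :
    (Ed H sd (X ∪ {v}) \ Ed H sd X).card = (X.filter fun y => H.Adj v y).card := by
  refine card_nbij' (fun e => if sd v = true then e.2 else e.1)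
    (fun y => if sd v = true then (v, y) else (y, v)) ?_ ?_ ?_ ?_
  all_goals
    first
    | (rintro ⟨x, y⟩ he
       simp only [coe_sdiff, Set.mem_sdiff, mem_coe, mem_Ed, mem_union, mem_singleton, mem_filter] at he ⊢
       obtain ⟨⟨h1, h2, h3, h4⟩, h5⟩ := he
       have := hb _ _ h3
       have := h3.ne
       have := h3.symm
       rcases h1 with h1 | rfl <;> rcases h2 with h2 | rfl <;> simp_all)
    | (intro y hy
       simp only [coe_sdiff, Set.mem_sdiff, mem_coe, mem_Ed, mem_union, mem_singleton, mem_filter] at hy ⊢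
       have := hb _ _ hy.2
       have := hy.2.symm
       split_ifs <;> simp_all)

omit [Fintype V] in
lemma Col.single (hb : ∀ x y, H.Adj x y → sd x ≠ sd y) (X : Finset V) (v : V) (hv : v ∉ X)
    (hd : (X.filter fun y => H.Adj v y).card ≤ 2) :
    Col H sd X {v} (2 - (X.filter fun y => H.Adj v y).card) := by
  refine ⟨id, fun _ _ => rfl, by simp, ?_⟩
  rw [Prod.map_id, image_id, Ed_single hb X v hv]
  simp; omega

omit [Fintype V] in
lemma Col.star (hb : ∀ x y, H.Adj x y → sd x ≠ sd y) (r : V) (S : Finset V) (hr : r ∉ S) (b : Bool) :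
    Col H sd {r} S (S.filter fun v => sd v = b).card := by
  have key : ∀ c ∈ insert r S, sd c ≠ b →
      (S.filter fun v => sd v = b).card + ((insert r S).filter fun v => sd v = b).card ≤
        2 * ((insert c (S.filter fun v => sd v = b)).erase r).card → (c = r ∨ sd r = b) →
      Col H sd {r} S (S.filter fun v => sd v = b).card := by
    intro c hc hcb hle hcr
    let p : V → V := fun x => if x ∈ S ∧ sd x ≠ b then c else x
    have p1 : ∀ x ∈ insert r S, sd x ≠ b → p x = c := by
      intro x hx h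
      rcases mem_insert.1 hx with rfl | hx
      · simp only [p, hr, false_and, if_false]; tauto
      · simp [p, hx, h]
    have p2 : ∀ x, sd x = b → p x = x := fun x h => by simp [p, h]
    refine ⟨p, fun x hx => by simp [p, hx], fun x hx => ?_, le_trans (Nat.add_le_add_left ?_ _)
      (hle.trans (Nat.mul_le_mul_left _ (card_le_card fun x hx => ?_)))⟩
    · by_cases h : sd x = b
      · rw [p2 x h]; exact ⟨mem_union_right _ hx, rfl⟩
      · rw [p1 x (mem_insert_of_mem hx) h]
        exact ⟨hc, by revert h hcb; cases sd x <;> cases sd c <;> cases b <;> simp⟩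
    · refine le_trans (card_le_card (t := ((insert r S).filter fun v => sd v = b).image
        fun x => if b = true then (x, c) else (c, x)) fun e he => ?_) card_image_le
      obtain ⟨⟨x, y⟩, hf, rfl⟩ := mem_image.1 (mem_sdiff.1 he).1
      rw [mem_Ed, ← insert_eq] at hf
      obtain ⟨h1, h2, h3, h4⟩ := hf
      have h5 := hb _ _ h3
      simp only at h1 h2 h4 h5
      cases b
      · have : sd y = false := by simpa [h4] using h5.symm
        exact mem_image.2 ⟨y, mem_filter.2 ⟨h2, this⟩, by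
          simp [p1 x h1 (by simp [h4]), p2 y this]⟩
      · exact mem_image.2 ⟨x, mem_filter.2 ⟨h1, h4⟩, by
          simp [p1 y h2 (by rw [← h4]; exact h5.symm), p2 x h4]⟩
    · simp only [mem_erase, mem_insert, mem_filter, mem_inter, mem_image] at hx hc ⊢
      rcases hx with ⟨h, rfl | h'⟩
      · exact ⟨⟨x, hc.resolve_left h, by simp [p]⟩, hc.resolve_left h⟩
      · exact ⟨⟨x, h'.1, p2 x h'.2⟩, h'.1⟩
  by_cases h : sd r = b
  · by_cases h' : ∃ c ∈ S, sd c ≠ b
    · obtain ⟨c, hc, hcb⟩ := h'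
      refine key c (mem_insert_of_mem hc) hcb ?_ (.inr h)
      rw [erase_eq_of_notMem (by simp [hr]; rintro rfl; exact hr hc), filter_insert, if_pos h,
        card_insert_of_notMem (by simp [hr]), card_insert_of_notMem (by simp [hcb])]
      omega
    · push Not at h'
      refine ⟨id, fun _ _ => rfl, by simp +contextual, ?_⟩
      have : Ed H sd ({r} ∪ S) = ∅ := by
        refine eq_empty_of_forall_notMem fun e he => ?_
        rw [mem_Ed] at he
        have k : ∀ x ∈ {r} ∪ S, sd x = b := by simpa [h] using h'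
        exact hb _ _ he.2.2.1 ((k _ he.1).trans (k _ he.2.1).symm)
      have := card_filter_le S fun v => sd v = b
      simp only [*, image_empty, empty_sdiff, card_empty, image_id, inter_self]
      omega
  · refine key r (by simp) h ?_ (.inl rfl)
    rw [erase_insert (by simp [hr]), filter_insert, if_neg h]
    omega

def Gd (H : SimpleGraph V) (sd : V → Bool) (X S : Finset V) : Prop :=
  ∃ k C, Col H sd X S k ∧ Up H sd X S k C

lemma Gd.comp {X S₁ S₂ : Finset V} (d1 : Disjoint X S₁) (d2 : Disjoint X S₂)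
    (d : Disjoint S₁ S₂) (h1 : Gd H sd X S₁) (h2 : Gd H sd (X ∪ S₁) S₂) :
    Gd H sd X (S₁ ∪ S₂) := by
  obtain ⟨k₁, C₁, a1, a2⟩ := h1
  obtain ⟨k₂, C₂, b1, b2⟩ := h2
  exact ⟨_, _, a1.comp d1 d2 d b1, a2.comp d2 b2⟩

lemma Gd.local {X X' S : Finset V} (hX : X' ⊆ X)
    (h : ∀ x ∈ S, ∀ y ∈ X, H.Adj x y → y ∈ X') (h1 : Gd H sd X' S) : Gd H sd X S := by
  obtain ⟨k, C, a1, a2⟩ := h1
  exact ⟨k, C, a1.local hX h, a2.local hX h⟩

lemma Gd.single (hb : ∀ x y, H.Adj x y → sd x ≠ sd y) (X : Finset V) (v : V) (hv : v ∉ X)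
    (hd : (X.filter fun y => H.Adj v y).card ≤ 2) : Gd H sd X {v} :=
  ⟨_, _, Col.single hb X v hv hd, Up.single X v hv⟩

lemma base' (hb : ∀ x y, H.Adj x y → sd x ≠ sd y) (r t : V) (S : Finset V) (hr : r ∉ S)
    (hrt : H.Adj r t) (pos : V → ℝ) (hSt : St H r t (insert r S) pos r)
    (hdeg : ∀ v ∈ S, 3 ≤ ((insert r S).filter fun y => H.Adj v y).card) : Gd H sd {r} S := by
  obtain ⟨s1, s2, s3⟩ := hSt
  have hinj : Set.InjOn pos S := s1.mono (by simp)
  have hinj' : Set.InjOn (fun v => -pos v) S := fun a ha b hb h => hinj ha hb (neg_injective h)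
  have u1 := Up.order (H := H) (sd := sd) {r} pos S (by simpa using hr) hinj
  have u2 := Up.order (H := H) (sd := sd) {r} (fun v => -pos v) S (by simpa using hr) hinj'
  have l1 := Col.star hb r S hr true
  have l2 := Col.star hb r S hr false
  set c₁ := ∑ v ∈ S, (2 - (({r} ∪ S.filter fun u => pos u < pos v).filter
      fun y => H.Adj v y).card) with hc₁
  set c₂ := ∑ v ∈ S, (2 - (({r} ∪ S.filter fun u => -pos u < -pos v).filter
      fun y => H.Adj v y).card) with hc₂
  have hsum : c₁ + c₂ ≤ S.card := by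
    rw [hc₁, hc₂, ← sum_add_distrib, card_eq_sum_ones]
    refine sum_le_sum fun v hv => ?_
    have hvr : v ≠ r := by rintro rfl; exact hr hv
    have p1 : 0 < (({r} ∪ S.filter fun u => pos u < pos v).filter fun y => H.Adj v y).card := by
      obtain ⟨y, hy, h1, h2⟩ := s2 v (by simp [hv]) hvr
      refine card_pos.2 ⟨y, ?_⟩
      rcases mem_insert.1 hy with rfl | hy <;> simp [*]
    have p2 : 0 < (({r} ∪ S.filter fun u => -pos u < -pos v).filter fun y => H.Adj v y).card := by
      by_cases hvt : v = t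
      · exact card_pos.2 ⟨r, by simp [hvt, hrt.symm]⟩
      · obtain ⟨y, hy, h1, h2⟩ := s3 v (by simp [hv]) hvr hvt hvr
        refine card_pos.2 ⟨y, ?_⟩
        rcases mem_insert.1 hy with rfl | hy <;> simp [*]
    have p3 : ((insert r S).filter fun y => H.Adj v y) ⊆
        (({r} ∪ S.filter fun u => pos u < pos v).filter fun y => H.Adj v y) ∪
        (({r} ∪ S.filter fun u => -pos u < -pos v).filter fun y => H.Adj v y) := by
      intro y hy
      rw [mem_filter, mem_insert] at hy
      rcases hy with ⟨rfl | hy, h⟩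
      · simp [h]
      · have : pos y ≠ pos v := fun e => h.ne' (hinj hy hv e)
        rcases lt_or_gt_of_ne this with h' | h' <;> simp [*]
    have p4 := (hdeg v hv).trans ((card_le_card p3).trans (card_union_le _ _))
    omega
  have hs : (S.filter fun v => sd v = true).card + (S.filter fun v => sd v = false).card = S.card := by
    rw [← card_filter_add_card_filter_not (s := S) (fun v => sd v = true)]
    simp
  by_cases h1 : c₁ ≤ c₂
  · by_cases h2 : c₁ ≤ (S.filter fun v => sd v = true).card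
    · exact ⟨_, _, l1, u1.mono h2⟩
    · exact ⟨_, _, l2, u1.mono (by omega)⟩
  · by_cases h2 : c₂ ≤ (S.filter fun v => sd v = true).card
    · exact ⟨_, _, l1, u2.mono h2⟩
    · exact ⟨_, _, l2, u2.mono (by omega)⟩

lemma rooted' (hb : ∀ x y, H.Adj x y → sd x ≠ sd y) (n : ℕ) :
    ∀ (S : Finset V) (r : V), S.card = n → r ∉ S → Gd H sd {r} S := by
  induction n using Nat.strong_induction_on with
  | _ n ih =>
  intro S r hn hr
  by_cases hlow : ∃ v ∈ S, ((insert r S).filter fun y => H.Adj v y).card ≤ 2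
  · obtain ⟨v, hv, hd⟩ := hlow
    have h1 := ih _ (by rw [← hn]; exact card_erase_lt_of_mem hv) (S.erase v) r rfl (by simp [hr])
    have hvr : v ≠ r := by rintro rfl; exact hr hv
    have h2 := Gd.single hb ({r} ∪ S.erase v) v (by simp [hvr]) (le_trans (card_le_card (by
      intro y hy
      simp only [mem_filter, mem_union, mem_singleton, mem_erase, mem_insert] at hy ⊢
      tauto)) hd)
    have := Gd.comp (by simp [hr]) (by simpa using hvr.symm) (by simp) h1 h2
    rwa [union_comm, ← insert_eq, insert_erase hv] at this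
  push Not at hlow
  by_cases ht : ∃ t ∈ S, H.Adj r t
  · obtain ⟨t, ht, hrt⟩ := ht
    rcases dichotomy r t S ht hrt with ⟨pos, h⟩ | ⟨C, c, h1, h2, h3, h4, h5, h6, h7⟩
    · exact base' hb r t S hr hrt pos h hlow
    · have a1 := ih _ (by
        rw [← hn]
        obtain ⟨x, hx⟩ := h1
        exact card_lt_card ⟨sdiff_subset, fun h => (mem_sdiff.1 (h (h2 hx))).2 hx⟩)
        (S \ C) r rfl (by simp [hr])
      have a2 := ih _ (by
        rw [← hn]
        exact card_lt_card ⟨h2, fun h => h3 (h ht)⟩) C c rfl h6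
      have a3 : Gd H sd ({r} ∪ S \ C) C := a2.local (by
        intro y hy
        rw [mem_singleton.1 hy]
        simp only [mem_union, mem_singleton, mem_sdiff, mem_insert] at h5 ⊢
        tauto) (fun x hx y hy hxy => by
          rw [mem_singleton]
          simp only [mem_union, mem_singleton, mem_sdiff] at hy
          refine h7 x hx y (by simp only [mem_insert]; tauto) ?_ hxy
          rcases hy with rfl | hy
          · exact h4
          · exact hy.2)
      have := Gd.comp (by simp [hr]) (by simpa using h4) sdiff_disjoint a1 a3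
      rwa [sdiff_union_of_subset h2] at this
  · push Not at ht
    rcases S.eq_empty_or_nonempty with rfl | ⟨v, hv⟩
    · exact ⟨_, _, Col.empty _, Up.empty _⟩
    have hvr : v ≠ r := by rintro rfl; exact hr hv
    have h1 := Gd.single hb {r} v (by simpa using hvr) ((card_filter_le _ _).trans (by simp))
    have h2 := ih _ (by rw [← hn]; exact card_erase_lt_of_mem hv) (S.erase v) v rfl (by simp)
    have h3 : Gd H sd ({r} ∪ {v}) (S.erase v) := h2.local (by simp) (fun x hx y hy hxy => by
      simp only [mem_union, mem_singleton] at hy ⊢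
      rcases hy with rfl | hy
      · exact absurd hxy.symm (ht x (mem_of_mem_erase hx))
      · exact hy)
    have := Gd.comp (by simpa using hvr.symm) (by simp [hr]) (by simp) h1 h3
    rwa [← insert_eq, insert_erase hv] at this

lemma unrooted' (hb : ∀ x y, H.Adj x y → sd x ≠ sd y) (S : Finset V) : Gd H sd ∅ S := by
  rcases S.eq_empty_or_nonempty with rfl | ⟨v, hv⟩
  · exact ⟨_, _, Col.empty _, Up.empty _⟩
  have h1 := Gd.single hb ∅ v (by simp) (by simp)
  have h2 := rooted' hb _ (S.erase v) v rfl (by simp)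
  have := Gd.comp (S₂ := S.erase v) (by simp) (by simp) (by simp) h1 (by simpa using h2)
  rwa [← insert_eq, insert_erase hv] at this


omit [Fintype V] in
lemma Col.merge (hb : ∀ x y, H.Adj x y → sd x ≠ sd y) (S : Finset V) (u v : V)
    (hu : u ∈ S) (hv : v ∈ S) (huv : u ≠ v) (hs : sd u = sd v) {k : ℕ}
    (h : Col (merge H u v) sd ∅ (S.erase v) k) : Col H sd ∅ S k := by
  obtain ⟨p, a1, a2, a3⟩ := h
  let m : V → V := fun x => if x = v then u else x
  have m1 : ∀ x ∈ S, m x ∈ S.erase v ∧ sd (m x) = sd x := fun x hx => by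
    by_cases h : x = v <;> simp [m, h, huv, hu, hs, hx]
  refine ⟨p ∘ m, fun x hx => ?_, fun x hx => ?_, le_trans (Nat.add_le_add_left (card_le_card ?_) _)
    (a3.trans (Nat.mul_le_mul_left _ (card_le_card fun x hx => ?_)))⟩
  · have : x ≠ v := by rintro rfl; exact hx hv
    simp [m, this, a1 x (by simp [hx])]
  · have := a2 _ (m1 x hx).1
    exact ⟨by simpa using mem_of_mem_erase (by simpa using this.1), this.2.trans (m1 x hx).2⟩
  · intro e he
    obtain ⟨⟨x, y⟩, hf, rfl⟩ := mem_image.1 (mem_sdiff.1 he).1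
    rw [mem_Ed, empty_union] at hf
    obtain ⟨h1, h2, h3, h4⟩ := hf
    refine mem_sdiff.2 ⟨mem_image.2 ⟨(m x, m y), ?_, rfl⟩, by simp [Ed]⟩
    rw [mem_Ed, empty_union]
    refine ⟨(m1 x h1).1, (m1 y h2).1, ⟨fun e => hb _ _ h3 ?_, ?_⟩, (m1 x h1).2.trans h4⟩
    · rw [← (m1 x h1).2, ← (m1 y h2).2]; exact congrArg sd e
    · simp only at h3
      by_cases hx : x = v
      · subst hx; simp [m, h3.ne', h3]
      · by_cases hy : y = v
        · subst hy; simp [m, hx, h3]
        · simp [m, hx, hy, h3]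
  · simp only [mem_inter, mem_image, mem_erase, Function.comp] at hx ⊢
    obtain ⟨⟨y, hy, rfl⟩, h⟩ := hx
    exact ⟨⟨y, hy.2, by simp [m, hy.1]⟩, h.2⟩

theorem upper (n : ℕ) : ∀ (H : SimpleGraph V) (S : Finset V), (∀ x y, H.Adj x y → sd x ≠ sd y) →
    S.card = n → ∃ k C : ℕ, Col H sd ∅ S k ∧ ∀ (T : Tg) (ψ : V → T.W),
      (Ext H sd T ∅ S ψ).card ≤ C * T.q ^ k := by
  induction n using Nat.strong_induction_on with
  | _ n ih =>
  intro H S hb hn
  obtain ⟨k₀, C₀, l0, u0⟩ := unrooted' hb S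
  let P := (S ×ˢ S).filter fun z => z.1 ≠ z.2 ∧ sd z.1 = sd z.2
  have hP : ∀ z : V × V, ∃ k C : ℕ, z ∈ P → Col H sd ∅ S k ∧ ∀ (T : Tg) (ψ : V → T.W),
      ((Ext H sd T ∅ S ψ).filter fun φ => φ z.1 = φ z.2).card ≤ C * T.q ^ k := by
    rintro ⟨u, v⟩
    by_cases h : (u, v) ∈ P
    · have h' := h
      simp only [P, mem_filter, mem_product] at h'
      obtain ⟨k, C, hc, hk⟩ := ih _ (by rw [← hn]; exact card_erase_lt_of_mem h'.1.2) (merge H u v)
        (S.erase v) (by
          rintro x y ⟨-, g | ⟨e, g⟩ | ⟨e, g⟩⟩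
          · exact hb _ _ g
          · rw [e, h'.2.2]; exact hb _ _ g
          · rw [e, h'.2.2]; exact hb _ _ g) rfl
      refine ⟨k, C, fun _ => ⟨hc.merge hb S u v h'.1.1 h'.1.2 h'.2.1 h'.2.2, fun T ψ => ?_⟩⟩
      rw [merge_card hb T S u v h'.1.1 h'.1.2 h'.2.1 h'.2.2]
      exact hk T ψ
    · exact ⟨0, 0, fun h' => absurd h' h⟩
  choose k C hk using hP
  refine ⟨max k₀ (P.sup k), C₀ + ∑ z ∈ P, C z, ?_, fun T ψ => ?_⟩
  · rcases le_total (P.sup k) k₀ with h | h
    · rw [max_eq_left h]; exact l0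
    · rw [max_eq_right h]
      rcases P.eq_empty_or_nonempty with h0 | h0
      · have : k₀ = 0 := by simpa [h0] using h
        simpa [h0, this] using l0
      · obtain ⟨z, hz, e⟩ := exists_mem_eq_sup P h0 k
        rw [e]
        exact (hk z hz).1
  · have hsub : Ext H sd T ∅ S ψ ⊆ Inj H sd T ∅ S ψ ∪
        P.biUnion fun z => (Ext H sd T ∅ S ψ).filter fun φ => φ z.1 = φ z.2 := by
      intro φ hφ
      by_cases h : φ ∈ Inj H sd T ∅ S ψ
      · exact mem_union_left _ h
      · rw [mem_Inj] at h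
        push Not at h
        obtain ⟨x, hx, y, hy, h1, h2⟩ := h hφ
        rw [empty_union] at hx hy
        refine mem_union_right _ (mem_biUnion.2 ⟨(x, y), ?_, mem_filter.2 ⟨hφ, h1⟩⟩)
        have := (mem_Ext.1 hφ).2.1
        simp only [P, mem_filter, mem_product]
        exact ⟨⟨hx, hy⟩, h2, by rw [← this x hx, ← this y hy, h1]⟩
    refine (card_le_card hsub).trans ((card_union_le _ _).trans ?_)
    rw [add_mul, sum_mul]
    refine add_le_add ((u0.mono (le_max_left _ _)) T ψ) (card_biUnion_le.trans (sum_le_sum ?_))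
    intro z hz
    exact ((hk z hz).2 T ψ).trans (Nat.mul_le_mul_left _ (Nat.pow_le_pow_right T.q_pos
      ((le_sup hz).trans (le_max_right _ _))))

omit [Fintype V] in
lemma Ed_mono {S S' : Finset V} (h : S ⊆ S') : Ed H sd S ⊆ Ed H sd S' := fun e he => by
  rw [mem_Ed] at he ⊢; exact ⟨h he.1, h he.2.1, he.2.2⟩

lemma lowerR (hb : ∀ x y, H.Adj x y → sd x ≠ sd y) (r : V) (n : ℕ) : ∀ S : Finset V, S.card = n →
    r ∉ S → ∃ k, Low H sd {r} S k ∧ 2 * S.card ≤ k + (Ed H sd (insert r S)).card := by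
  induction n using Nat.strong_induction_on with
  | _ n ih =>
  intro S hn hr
  by_cases hlow : ∃ v ∈ S, ((insert r S).filter fun y => H.Adj v y).card ≤ 2
  · obtain ⟨v, hv, hd⟩ := hlow
    obtain ⟨k, h1, h1'⟩ := ih _ (by rw [← hn]; exact card_erase_lt_of_mem hv) (S.erase v) rfl
      (by simp [hr])
    have hvr : v ≠ r := by rintro rfl; exact hr hv
    have hd' : (({r} ∪ S.erase v).filter fun y => H.Adj v y).card ≤ 2 := le_trans (card_le_card (by
      intro y hy
      simp only [mem_filter, mem_union, mem_singleton, mem_erase, mem_insert] at hy ⊢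
      tauto)) hd
    have h2 := Low.single hb ({r} ∪ S.erase v) v (by simp [hvr]) hd'
    have h3 := Low.comp (by simp [hr]) (by simpa using hvr.symm) (by simp) h1 h2
    have e : S.erase v ∪ {v} = S := by rw [union_comm, ← insert_eq, insert_erase hv]
    rw [e] at h3
    refine ⟨_, h3, ?_⟩
    have h4 := Ed_single hb ({r} ∪ S.erase v) v (by simp [hvr])
    rw [card_sdiff_of_subset (Ed_mono subset_union_left), union_assoc, e] at h4
    have h5 := card_le_card (Ed_mono (H := H) (sd := sd)
      (union_subset_union_right (s := {r}) (erase_subset v S)))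
    have h6 := card_erase_add_one hv
    rw [insert_eq] at h1' ⊢
    omega
  push Not at hlow
  have h3 : ∀ b : Bool, 3 * (S.filter fun v => sd v = b).card ≤ (Ed H sd (insert r S)).card := by
    intro b
    rw [card_eq_sum_card_fiberwise (s := Ed H sd (insert r S)) (t := insert r S)
      (f := fun e => if b = true then e.1 else e.2)
      (fun e he => by have := mem_Ed.1 he; simp only [mem_coe]; split_ifs <;> tauto)]
    refine le_trans ?_ (sum_le_sum_of_subset ((filter_subset (fun v => sd v = b) S).trans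
      (subset_insert r S)))
    rw [mul_comm, ← smul_eq_mul]
    refine card_nsmul_le_sum _ _ _ fun v hv => (hlow v (mem_filter.1 hv).1).trans_le' le_rfl |>.trans_le ?_
    refine card_le_card_of_injOn (fun y => if b = true then (v, y) else (y, v)) ?_ ?_
    · intro y hy
      simp only [coe_filter, Set.mem_ofPred_eq, mem_Ed, mem_filter] at hy hv ⊢
      have := hb _ _ hy.2
      have := hy.2.symm
      cases b <;> simp_all
    · intro y _ y' _ h
      cases b <;> simpa using h
  have hs : (S.filter fun v => sd v = true).card + (S.filter fun v => sd v = false).card = S.card := by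
    rw [← card_filter_add_card_filter_not (s := S) (fun v => sd v = true)]
    simp
  have a := h3 true
  have b := h3 false
  rcases le_total (S.filter fun v => sd v = true).card (S.filter fun v => sd v = false).card with h | h
  · exact ⟨_, Low.star hb r S hr false, by omega⟩
  · exact ⟨_, Low.star hb r S hr true, by omega⟩

theorem lower (hb : ∀ x y, H.Adj x y → sd x ≠ sd y) (S : Finset V) :
    ∃ k, Low H sd ∅ S k ∧ 2 * S.card ≤ k + (Ed H sd S).card := by
  rcases S.eq_empty_or_nonempty with rfl | ⟨v, hv⟩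
  · exact ⟨0, Low.empty _, by simp⟩
  have h1 := Low.single hb ∅ v (by simp) (by simp)
  obtain ⟨k, h2, h3⟩ := lowerR hb v _ (S.erase v) rfl (by simp)
  have := Low.comp (S₂ := S.erase v) (by simp) (by simp) (by simp) h1 (by simpa using h2)
  rw [← insert_eq, insert_erase hv] at this
  rw [insert_erase hv] at h3
  have := card_erase_add_one hv
  exact ⟨_, ‹_›, by simp; omega⟩

end Pool.Agent.H28.Plane
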