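import Mathlib
import Pool.Agent.H28.Plane5

namespace Pool.Agent.H28.Plane

open Finset Classical Configuration Filter Topology

/-- finite bipartite graph with labelled classes -/
structure BG where
  A : Type
  B : Type
  fa : Fintype A
  fb : Fintype B
  E : A → B → Prop

instance (G : BG) : Fintype G.A := G.fa
instance (G : BG) : Fintype G.B := G.fb

namespace BG

def HasEdge (G : BG) : Prop := ∃ a b, G.E a b

noncomputable def hom (H G : BG) : ℕ :=
  Nat.card {fg : (H.A → G.A) × (H.B → G.B) // ∀ a b, H.E a b → G.E (fg.1 a) (fg.2 b)}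

noncomputable def dens (H G : BG) : ℝ :=
  (hom H G : ℝ) / ((Nat.card G.A : ℝ) ^ Nat.card H.A * (Nat.card G.B : ℝ) ^ Nat.card H.B)

def K2 : BG := ⟨Unit, Unit, inferInstance, inferInstance, fun _ _ => True⟩

noncomputable def edges (H : BG) : ℕ := Nat.card {p : H.A × H.B // H.E p.1 p.2}

noncomputable def verts (H : BG) : ℕ := Nat.card H.A + Nat.card H.B

noncomputable def hh (H G : BG) : ℝ :=
  if dens K2 G = 1 then edges H else Real.log (dens H G) / Real.log (dens K2 G)

def Collapse (H H' : BG) : Prop :=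
  ∃ (f : H.A → H'.A) (g : H.B → H'.B), Function.Surjective f ∧ Function.Surjective g ∧
    (∀ a b, H.E a b → H'.E (f a) (g b)) ∧ ∀ u v, H'.E u v → ∃ a b, H.E a b ∧ f a = u ∧ g b = v

noncomputable def rr (H : BG) : ℕ :=
  sInf {n | ∃ H', Collapse H H' ∧ n = edges H' + 2 * (verts H - verts H')}

def QL (G : ℕ → BG) : Prop :=
  ∀ H : BG, H.HasEdge → Tendsto (fun n => hh H (G n)) atTop (𝓝 (rr H : ℝ))

noncomputable def adj (G : BG) : Matrix (G.A ⊕ G.B) (G.A ⊕ G.B) ℝ :=
  Matrix.of fun x y => if (gr G.E).Adj x y then 1 else 0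

noncomputable def spec (G : BG) : Multiset ℝ := G.adj.charpoly.roots

lemma coll_refl (H : BG) : Collapse H H :=
  ⟨id, id, Function.surjective_id, Function.surjective_id, fun _ _ h => h,
    fun u v h => ⟨u, v, h, rfl, rfl⟩⟩

lemma rr_mem (H : BG) : ∃ H', Collapse H H' ∧ rr H = edges H' + 2 * (verts H - verts H') :=
  Nat.sInf_mem (s := {n | ∃ H', Collapse H H' ∧ n = edges H' + 2 * (verts H - verts H')})
    ⟨_, H, coll_refl H, rfl⟩

lemma rr_le {H H' : BG} (h : Collapse H H') : rr H ≤ edges H' + 2 * (verts H - verts H') :=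
  Nat.sInf_le ⟨H', h, rfl⟩

lemma verts_le {H H' : BG} (h : Collapse H H') : verts H' ≤ verts H := by
  obtain ⟨f, g, hf, hg, -⟩ := h
  exact add_le_add (Nat.card_le_card_of_surjective f hf) (Nat.card_le_card_of_surjective g hg)

lemma hom_le {H H' : BG} (h : Collapse H H') (G : BG) : hom H' G ≤ hom H G := by
  obtain ⟨f, g, hf, hg, h, -⟩ := h
  refine Nat.card_le_card_of_injective
    (fun x => ⟨(x.1.1 ∘ f, x.1.2 ∘ g), fun a b e => x.2 _ _ (h a b e)⟩) fun x y e => ?_
  simp only [Subtype.mk.injEq, Prod.mk.injEq] at e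
  exact Subtype.ext (Prod.ext (hf.injective_comp_right e.1) (hg.injective_comp_right e.2))

lemma bip (H : BG) : ∀ x y, (gr H.E).Adj x y → x.isLeft ≠ y.isLeft := by
  rintro (a | a) (b | b) h <;> first | exact h.elim | simp

lemma verts_eq (H : BG) : (univ : Finset (H.A ⊕ H.B)).card = verts H := by
  simp [verts]

def pl (P L : Type) [Membership P L] [Fintype P] [Fintype L] : BG :=
  ⟨P, L, inferInstance, inferInstance, fun p l => p ∈ l⟩

lemma up (H : BG) : ∃ k C : ℕ, k + rr H ≤ 2 * verts H ∧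
    ∀ (P L : Type) [Membership P L] [Fintype P] [Fintype L] [ProjectivePlane P L] (_ : P),
      hom H (pl P L) ≤ C * ProjectivePlane.order P L ^ k := by
  obtain ⟨k, C, ⟨p, -, h2, h3⟩, h⟩ := upper (sd := Sum.isLeft) _ (gr H.E) univ H.bip rfl
  refine ⟨k, C, ?_, fun P L _ _ _ _ p₀ => ?_⟩
  · have h1 : ∀ a, ∃ p', p (.inl a) = .inl p' := fun a => Sum.isLeft_iff.1 (h2 (.inl a) (mem_univ _)).2
    have h1' : ∀ b, ∃ l, p (.inr b) = .inr l := fun b => Sum.isRight_iff.1 (by
      simpa using (h2 (.inr b) (mem_univ _)).2)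
    choose f hf using h1
    choose g hg using h1'
    let H' : BG := ⟨univ.image f, univ.image g, inferInstance, inferInstance,
      fun u v => ∃ a b, H.E a b ∧ f a = u ∧ g b = v⟩
    have hc : Collapse H H' := ⟨fun a => ⟨f a, by simp⟩, fun b => ⟨g b, by simp⟩,
      fun ⟨u, hu⟩ => by obtain ⟨a, -, rfl⟩ := mem_image.1 hu; exact ⟨a, rfl⟩,
      fun ⟨u, hu⟩ => by obtain ⟨a, -, rfl⟩ := mem_image.1 hu; exact ⟨a, rfl⟩,
      fun a b e => ⟨a, b, e, rfl, rfl⟩,
      fun u v ⟨a, b, e, e1, e2⟩ => ⟨a, b, e, Subtype.ext e1, Subtype.ext e2⟩⟩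
    have a1 := rr_le hc
    have a2 := verts_le hc
    have a3 : (univ.image p ∩ univ).card ≤ verts H' := by
      have : univ.image p ∩ univ ⊆ (univ.image f).disjSum (univ.image g) := by
        intro x hx
        obtain ⟨y, -, rfl⟩ := mem_image.1 (mem_inter.1 hx).1
        rcases y with y | y
        · rw [hf]; simp
        · rw [hg]; simp
      refine (card_le_card this).trans ?_
      rw [card_disjSum]
      exact le_of_eq (congrArg₂ _ (Nat.card_eq_finsetCard _).symm (Nat.card_eq_finsetCard _).symm)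
    have a4 : edges H' ≤ ((Ed (gr H.E) Sum.isLeft (∅ ∪ univ)).image (Prod.map p p) \
        Ed (gr H.E) Sum.isLeft ∅).card := by
      rw [← Nat.card_eq_finsetCard]
      refine Nat.card_le_card_of_injective (fun x => ⟨(.inl x.1.1.1, .inr x.1.2.1), ?_⟩) ?_
      · obtain ⟨a, b, e, e1, e2⟩ := x.2
        refine mem_sdiff.2 ⟨mem_image.2 ⟨(.inl a, .inr b), ?_, ?_⟩, by simp [Ed]⟩
        · exact mem_Ed.2 ⟨by simp, by simp, e, rfl⟩
        · simp [hf, hg, e1, e2]
      · intro x y e
        simp only [Subtype.mk.injEq, Prod.mk.injEq, Sum.inl.injEq, Sum.inr.injEq] at e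
        exact Subtype.ext (Prod.ext (Subtype.ext e.1) (Subtype.ext e.2))
    have a5 : k + edges H' ≤ 2 * verts H' :=
      le_trans (le_trans (Nat.add_le_add_left a4 k) (by convert h3 using 3 <;> congr <;> exact Subsingleton.elim _ _)) (Nat.mul_le_mul_left 2 a3)
    omega
  · have := h (tg P L) fun _ => .inl p₀
    rwa [← hom_eq] at this

lemma low (H : BG) : ∃ k : ℕ, 2 * verts H ≤ k + rr H ∧
    ∀ (P L : Type) [Membership P L] [Fintype P] [Fintype L] [ProjectivePlane P L] (_ : P),
      ProjectivePlane.order P L ^ k ≤ hom H (pl P L) := by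
  obtain ⟨H', hc, e⟩ := rr_mem H
  obtain ⟨k, h1, h2⟩ := lower (sd := Sum.isLeft) H'.bip univ
  refine ⟨k, ?_, fun P L _ _ _ _ p₀ => le_trans ?_ (hom_le hc _)⟩
  · have a2 := verts_le hc
    have a4 : (Ed (gr H'.E) Sum.isLeft univ).card ≤ edges H' := by
      rw [edges, Nat.card_eq_fintype_card, Fintype.card_subtype]
      refine le_trans (card_le_card (t := (univ.filter fun p : H'.A × H'.B => H'.E p.1 p.2).image
        fun p => (.inl p.1, .inr p.2)) ?_) card_image_le
      rintro ⟨a | a, b | b⟩ h <;> rw [mem_Ed] at h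
      · exact h.2.2.1.elim
      · exact mem_image.2 ⟨(a, b), mem_filter.2 ⟨mem_univ _, h.2.2.1⟩, rfl⟩
      · simp at h
      · simp at h
    rw [verts_eq] at h2
    omega
  · have := h1 (tg P L) (fun _ => .inl p₀) (by simp)
    rwa [← hom_eq] at this

lemma dens_pl (H : BG) : ∃ K : ℝ,
    ∀ (P L : Type) [Membership P L] [Fintype P] [Fintype L] [ProjectivePlane P L],
      0 < dens H (pl P L) ∧
      |-Real.log (dens H (pl P L)) - rr H * Real.log (ProjectivePlane.order P L)| ≤ K := by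
  obtain ⟨k, C, a1, a2⟩ := up H
  obtain ⟨k', b1, b2⟩ := low H
  set v := verts H with hv
  refine ⟨Real.log C + v * Real.log 3, fun P L _ _ _ _ => ?_⟩
  set q := ProjectivePlane.order P L with hq
  have hq1 : 1 < q := ProjectivePlane.one_lt_order P L
  have hP : Fintype.card P = q ^ 2 + q + 1 := ProjectivePlane.card_points P L
  have hL : Fintype.card L = q ^ 2 + q + 1 := ProjectivePlane.card_lines P L
  obtain ⟨p₀⟩ : Nonempty P := Fintype.card_pos_iff.1 (by omega)
  have h1 := b2 P L p₀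
  have h2 := a2 P L p₀
  rw [← hq] at h1 h2
  set N := q ^ 2 + q + 1 with hN
  set m := hom H (pl P L) with hm'
  have hqR : (1 : ℝ) < q := by exact_mod_cast hq1
  have hm : (0 : ℝ) < m := by
    have : 0 < q ^ k' := by positivity
    exact_mod_cast this.trans_le h1
  have hNR : (N : ℝ) = q ^ 2 + q + 1 := by simp [hN]
  have hN0 : (0 : ℝ) < N := by rw [hNR]; positivity
  have hC : (1 : ℝ) ≤ C := by
    have : 0 < q ^ k' := by positivity
    have : 0 < C := Nat.pos_of_mul_pos_right (this.trans_le (h1.trans h2))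
    exact_mod_cast this
  have e0 : dens H (pl P L) = m / N ^ v := by
    have e1 : Nat.card (pl P L).A = N := by rw [← hP, ← Nat.card_eq_fintype_card]; rfl
    have e2 : Nat.card (pl P L).B = N := by rw [← hL, ← Nat.card_eq_fintype_card]; rfl
    rw [dens, e1, e2, ← pow_add]; rfl
  have e : -Real.log (dens H (pl P L)) = v * Real.log N - Real.log m := by
    rw [e0, Real.log_div hm.ne' (by positivity), Real.log_pow]
    ring
  have c1 : k' * Real.log q ≤ Real.log m := by
    rw [← Real.log_pow]; exact Real.log_le_log (by positivity) (by exact_mod_cast h1)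
  have c2 : Real.log m ≤ Real.log C + k * Real.log q := by
    rw [← Real.log_pow, ← Real.log_mul (by positivity) (by positivity)]
    exact Real.log_le_log hm (by exact_mod_cast h2)
  have b3 : 2 * Real.log q ≤ Real.log N := by
    have := Real.log_pow (q : ℝ) 2
    push_cast at this
    rw [← this]; exact Real.log_le_log (by positivity) (by rw [hNR]; linarith)
  have b4 : Real.log N ≤ Real.log 3 + 2 * Real.log q := by
    have := Real.log_pow (q : ℝ) 2
    push_cast at this
    rw [← this, ← Real.log_mul (by positivity) (by positivity)]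
    exact Real.log_le_log hN0 (by rw [hNR]; nlinarith)
  have b5 : 0 ≤ Real.log C := Real.log_nonneg hC
  have b6 : 0 ≤ Real.log 3 := Real.log_nonneg (by norm_num)
  have b7 : 0 ≤ Real.log q := Real.log_nonneg hqR.le
  have hv0 : (0 : ℝ) ≤ v := by positivity
  have a1' : (k : ℝ) + rr H ≤ 2 * v := by exact_mod_cast a1
  have b1' : 2 * (v : ℝ) ≤ k' + rr H := by exact_mod_cast b1
  rw [e]
  exact ⟨by rw [e0]; positivity, abs_le.2 ⟨by nlinarith, by nlinarith⟩⟩

def bl (G : BG) (α β : Type) [Fintype α] [Fintype β] : BG :=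
  ⟨G.A × α, G.B × β, inferInstance, inferInstance, fun a b => G.E a.1 b.1⟩

def iso (G : BG) (Z : Type) [Fintype Z] : BG :=
  ⟨G.A ⊕ Z, G.B, inferInstance, inferInstance, fun a b => ∃ a', a = .inl a' ∧ G.E a' b⟩

lemma dens_bl (H G : BG) (α β : Type) [Fintype α] [Fintype β] [Nonempty α] [Nonempty β] :
    dens H (bl G α β) = dens H G := by
  have e : hom H (bl G α β) = hom H G * (Nat.card α ^ Nat.card H.A * Nat.card β ^ Nat.card H.B) := by
    rw [hom, hom, ← Nat.card_fun, ← Nat.card_fun, ← Nat.card_prod, ← Nat.card_prod]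
    exact Nat.card_congr ⟨fun x => (⟨(fun a => (x.1.1 a).1, fun b => (x.1.2 b).1), x.2⟩,
      fun a => (x.1.1 a).2, fun b => (x.1.2 b).2),
      fun y => ⟨(fun a => (y.1.1.1 a, y.2.1 a), fun b => (y.1.1.2 b, y.2.2 b)), y.1.2⟩,
      fun _ => rfl, fun _ => rfl⟩
  have e1 : Nat.card (bl G α β).A = Nat.card G.A * Nat.card α := Nat.card_prod _ _
  have e2 : Nat.card (bl G α β).B = Nat.card G.B * Nat.card β := Nat.card_prod _ _
  have : (0 : ℝ) < Nat.card α := by exact_mod_cast Nat.card_pos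
  have : (0 : ℝ) < Nat.card β := by exact_mod_cast Nat.card_pos
  rw [dens, dens, e, e1, e2]
  push_cast
  rw [mul_pow, mul_pow, mul_mul_mul_comm, mul_div_mul_right _ _ (by positivity)]

lemma dens_iso (H G : BG) (Z : Type) [Fintype Z] (h : ∀ a, ∃ b, H.E a b) (h1 : Nat.card H.A = 1)
    (h2 : 0 < Nat.card G.A) :
    dens H (iso G Z) = dens H G * (Nat.card G.A / (Nat.card G.A + Nat.card Z)) := by
  have e : hom H G = hom H (iso G Z) := by
    refine Nat.card_eq_of_bijective
      (fun x => ⟨(fun a => .inl (x.1.1 a), x.1.2), fun a b e => ⟨_, rfl, x.2 a b e⟩⟩) ⟨?_, ?_⟩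
    · intro x y e
      simp only [Subtype.mk.injEq, Prod.mk.injEq] at e
      exact Subtype.ext (Prod.ext (funext fun a => Sum.inl.inj (congrFun e.1 a)) e.2)
    · rintro ⟨⟨f, g⟩, hx⟩
      have : ∀ a, ∃ a', f a = .inl a' := fun a => by
        obtain ⟨b, hb⟩ := h a
        obtain ⟨a', e, -⟩ := hx a b hb
        exact ⟨a', e⟩
      choose f' hf using this
      refine ⟨⟨(f', g), fun a b e => ?_⟩, Subtype.ext (Prod.ext (funext fun a => (hf a).symm) rfl)⟩
      obtain ⟨a', e1, e2⟩ := hx a b e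
      rwa [← Sum.inl.inj ((hf a).symm.trans e1)] at e2
  have e1 : Nat.card (iso G Z).A = Nat.card G.A + Nat.card Z := Nat.card_sum
  have e2 : Nat.card (iso G Z).B = Nat.card G.B := rfl
  have : (0 : ℝ) < Nat.card G.A := by exact_mod_cast h2
  rw [dens, dens, ← e, e1, e2, h1]
  push_cast
  rw [div_mul_div_comm, pow_one, pow_one, mul_comm (Nat.card G.A : ℝ), mul_right_comm,
    mul_div_mul_right _ _ this.ne', mul_comm]

lemma lim_ratio (x d₁ d₂ : ℕ → ℝ) (a b k k' c : ℝ) (hx : Tendsto x atTop atTop)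
    (h1 : ∀ n, |-Real.log (d₁ n) - a * x n| ≤ k) (h2 : ∀ n, |-Real.log (d₂ n) - b * x n| ≤ k')
    (hb : b ≠ 0) :
    Tendsto (fun n => if d₂ n = 1 then c else Real.log (d₁ n) / Real.log (d₂ n)) atTop (𝓝 (a / b)) := by
  have key : ∀ (y : ℕ → ℝ) (a k : ℝ), (∀ n, |y n - a * x n| ≤ k) →
      Tendsto (fun n => y n / x n) atTop (𝓝 a) := by
    intro y a k hy
    have h1 : Tendsto (fun n => (y n - a * x n) / x n) atTop (𝓝 0) := by
      refine squeeze_zero_norm' (a := fun n => k / x n) ?_ (hx.const_div_atTop k)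
      filter_upwards [hx.eventually_gt_atTop 0] with n hn
      rw [norm_div, Real.norm_eq_abs, Real.norm_eq_abs, abs_of_pos hn]
      gcongr
      exact hy n
    have h2 := h1.add_const a
    rw [zero_add] at h2
    refine h2.congr' ?_
    filter_upwards [hx.eventually_gt_atTop 0] with n hn
    field_simp
    ring
  have k1 := key _ a k h1
  have k2 := key _ b k' h2
  refine (k1.div k2 hb).congr' ?_
  filter_upwards [hx.eventually_gt_atTop 0, k2.eventually_ne hb] with n hn hn'
  rw [if_neg (fun e => hn' (by simp [e]))]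
  simp only [Pi.div_apply]
  rw [div_div_div_cancel_right₀ hn.ne', neg_div_neg_eq]

lemma edge_pos {H : BG} (h : H.HasEdge) : 1 ≤ edges H := by
  obtain ⟨a, b, h⟩ := h
  haveI : Nonempty {p : H.A × H.B // H.E p.1 p.2} := ⟨⟨(a, b), h⟩⟩
  exact Nat.card_pos

lemma rr_K2 : rr K2 = 1 := by
  refine le_antisymm ((rr_le (coll_refl _)).trans (by simp [edges, K2])) ?_
  obtain ⟨H', ⟨f, g, -, -, h, -⟩, e⟩ := rr_mem K2
  have := edge_pos (H := H') ⟨_, _, h () () trivial⟩
  omega

def P3 : BG := ⟨Unit, Bool, inferInstance, inferInstance, fun _ _ => True⟩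

lemma rr_P3 : 2 ≤ rr P3 := by
  obtain ⟨H', ⟨f, g, hf, hg, h, -⟩, e⟩ := rr_mem P3
  have a1 := edge_pos (H := H') ⟨_, _, h () true trivial⟩
  have a2 : verts P3 = 3 := by simp [verts, P3]
  have a3 : Nat.card H'.A ≤ 1 := by simpa [P3] using Nat.card_le_card_of_surjective f hf
  by_cases hh : g true = g false
  · have : Nat.card H'.B ≤ 1 := by
      have : Function.Surjective fun _ : Unit => g true := fun y => by
        obtain ⟨b, rfl⟩ := hg y
        cases b
        · exact ⟨(), hh⟩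
        · exact ⟨(), rfl⟩
      simpa using Nat.card_le_card_of_surjective _ this
    have : verts H' ≤ 2 := add_le_add a3 this
    omega
  · have : Nontrivial {p : H'.A × H'.B // H'.E p.1 p.2} :=
      ⟨⟨⟨(f (), g true), h () true trivial⟩, ⟨(f (), g false), h () false trivial⟩, fun e => hh (congrArg (fun x => x.1.2) e)⟩⟩
    have : 1 < edges H' := Finite.one_lt_card
    omega

lemma fib {W Z : Type} [Fintype W] [Fintype Z] [DecidableEq W] [DecidableEq Z] (M : Matrix Z Z ℝ)
    (π : W → Z) (c : Z → ℝ) (hc : ∀ z, ∑ w, (if π w = z then (1 : ℝ) else 0) = c z) :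
    Polynomial.X ^ Fintype.card Z * (M.submatrix π π).charpoly = Polynomial.X ^ Fintype.card W *
      (M * Matrix.diagonal c).charpoly := by
  let U : Matrix W Z ℝ := Matrix.of fun w z => if π w = z then 1 else 0
  have e1 : M.submatrix π π = U * (M * U.transpose) := by
    ext x y; simp [U, Matrix.mul_apply]
  have e2 : U.transpose * U = Matrix.diagonal c := by
    ext x y
    by_cases h : x = y
    · subst h; simp [U, Matrix.mul_apply, ← ite_and, ← hc]
    · simp only [U, Matrix.mul_apply, Matrix.diagonal_apply_ne _ h]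
      refine sum_eq_zero fun w _ => ?_
      simp only [Matrix.transpose_apply, Matrix.of_apply, mul_ite, mul_one, mul_zero]
      split_ifs <;> simp_all
  rw [e1, Matrix.charpoly_mul_comm', Matrix.mul_assoc, e2]

lemma cospec (G : BG) (m : ℕ) (hm : 1 ≤ m) (h : Fintype.card G.A = Fintype.card G.B) :
    (bl G Unit (Fin (m * m))).adj.charpoly =
      (iso (bl G (Fin m) (Fin m)) (G.A × Fin ((m - 1) ^ 2))).adj.charpoly := by
  let M : Matrix (Option (G.A ⊕ G.B)) (Option (G.A ⊕ G.B)) ℝ := Matrix.of fun z z' =>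
    if ∃ x y, z = some x ∧ z' = some y ∧ (gr G.E).Adj x y then 1 else 0
  let p₁ : (G.A × Unit) ⊕ (G.B × Fin (m * m)) → Option (G.A ⊕ G.B) :=
    Sum.elim (fun a => some (.inl a.1)) fun b => some (.inr b.1)
  let p₂ : ((G.A × Fin m) ⊕ (G.A × Fin ((m - 1) ^ 2))) ⊕ (G.B × Fin m) → Option (G.A ⊕ G.B) :=
    Sum.elim (Sum.elim (fun a => some (.inl a.1)) fun _ => none) fun b => some (.inr b.1)
  have e1 : (bl G Unit (Fin (m * m))).adj = M.submatrix p₁ p₁ := by
    ext (x | x) (y | y) <;> simp only [adj, Matrix.of_apply] <;> simp [M, p₁, gr, bl]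
  have e2 : (iso (bl G (Fin m) (Fin m)) (G.A × Fin ((m - 1) ^ 2))).adj = M.submatrix p₂ p₂ := by
    ext ((⟨x, i⟩ | x) | x) ((⟨y, j⟩ | y) | y) <;> simp only [adj, Matrix.of_apply] <;>
      simp [M, p₂, gr, bl, iso]
  let c₁ : Option (G.A ⊕ G.B) → ℝ := fun z => z.elim 0 (Sum.elim (fun _ => 1) fun _ => m * m)
  let c₂ : Option (G.A ⊕ G.B) → ℝ := fun z => z.elim (Fintype.card G.A * ((m - 1) ^ 2 : ℕ)) fun _ => m
  have f1 := fib M p₁ c₁ (by
    rintro (_ | x | x) <;>
      simp [p₁, c₁, Fintype.sum_sum_type, Fintype.sum_prod_type_right, -sum_boole])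
  have f2 := fib M p₂ c₂ (by
    rintro (_ | x | x) <;>
      simp [p₂, c₂, Fintype.sum_sum_type, Fintype.sum_prod_type_right, -sum_boole])
  have c : Fintype.card ((G.A × Unit) ⊕ (G.B × Fin (m * m))) =
      Fintype.card (((G.A × Fin m) ⊕ (G.A × Fin ((m - 1) ^ 2))) ⊕ (G.B × Fin m)) := by
    obtain ⟨k, rfl⟩ := Nat.exists_eq_add_of_le' hm
    simp [h]; ring
  let s : Option (G.A ⊕ G.B) → ℝ := fun z => z.elim 1 (Sum.elim (fun _ => m) fun _ => 1)
  let t : Option (G.A ⊕ G.B) → ℝ := fun z => z.elim 1 (Sum.elim (fun _ => 1) fun _ => m)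
  have d1 : M * Matrix.diagonal c₁ = Matrix.diagonal s * (M * Matrix.diagonal t) := by
    ext (_ | x | x) (_ | y | y) <;> simp only [Matrix.mul_diagonal, Matrix.diagonal_mul] <;>
      simp [M, gr, s, t, c₁]
  have d2 : M * Matrix.diagonal c₂ = (M * Matrix.diagonal t) * Matrix.diagonal s := by
    ext (_ | x | x) (_ | y | y) <;> simp only [Matrix.mul_diagonal] <;> simp [M, gr, s, t, c₂]
  rw [d1, Matrix.charpoly_mul_comm, ← d2, c, ← f2] at f1
  have := mul_left_cancel₀ (pow_ne_zero _ Polynomial.X_ne_zero) f1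
  have aux : ∀ {W : Type} (i1 i2 : DecidableEq W) (j1 j2 : Fintype W) (A : Matrix W W ℝ),
      @Matrix.charpoly ℝ _ W i1 j1 A = @Matrix.charpoly ℝ _ W i2 j2 A := by
    intro W i1 i2 j1 j2 A
    rw [Subsingleton.elim i1 i2, Subsingleton.elim j1 j2]
  rw [e1, e2]
  exact (aux _ _ _ _ _).trans (this.trans (aux _ _ _ _ _))

lemma planes : ∃ (P : ℕ → Type) (_ : ∀ n, Membership (P n) (P n)) (_ : ∀ n, Fintype (P n))
    (_ : ∀ n, ProjectivePlane (P n) (P n)),
    Tendsto (fun n => ProjectivePlane.order (P n) (P n)) atTop atTop := by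
  choose p hp hp' using Nat.exists_infinite_primes
  haveI : ∀ n, Fact (p n).Prime := fun n => ⟨hp' n⟩
  refine ⟨fun n => Projectivization (ZMod (p n)) (Fin 3 → ZMod (p n)), inferInstance,
    fun _ => Fintype.ofFinite _, inferInstance, tendsto_atTop_mono (fun n => ?_) tendsto_id⟩
  letI : Fintype (Projectivization (ZMod (p n)) (Fin 3 → ZMod (p n))) := Fintype.ofFinite _
  have h1 := ProjectivePlane.card_points (Projectivization (ZMod (p n)) (Fin 3 → ZMod (p n)))
    (Projectivization (ZMod (p n)) (Fin 3 → ZMod (p n)))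
  have h2 := Projectivization.card_of_finrank (ZMod (p n)) (Fin 3 → ZMod (p n)) (n := 3) (by simp)
  rw [Nat.card_eq_fintype_card, h1] at h2
  simp only [Nat.card_zmod, sum_range_succ, range_zero, sum_empty] at h2
  have := hp n
  simp only [id]
  by_contra hn
  push Not at hn
  nlinarith

theorem main : ∃ G G' : ℕ → BG, (∀ n, (G n).HasEdge ∧ (G' n).HasEdge) ∧
    (∀ n, (G n).adj.charpoly = (G' n).adj.charpoly) ∧ QL G ∧ ¬ QL G' := by
  obtain ⟨P, i1, i2, i3, hq⟩ := planes
  set q := fun n => ProjectivePlane.order (P n) (P n) with hq'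
  have q1 : ∀ n, 1 < q n := fun n => ProjectivePlane.one_lt_order _ _
  haveI : ∀ n, Nonempty (Fin (q n)) := fun n => ⟨⟨0, by have := q1 n; omega⟩⟩
  haveI : ∀ n, Nonempty (Fin (q n * q n)) := fun n => ⟨⟨0, by have := q1 n; positivity⟩⟩
  have hx : Tendsto (fun n => Real.log (q n)) atTop atTop :=
    Real.tendsto_log_atTop.comp (tendsto_natCast_atTop_atTop.comp hq)
  obtain ⟨K, hK⟩ := dens_pl K2
  rw [rr_K2, Nat.cast_one] at hK
  refine ⟨fun n => bl (pl (P n) (P n)) Unit (Fin (q n * q n)), fun n =>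
    iso (bl (pl (P n) (P n)) (Fin (q n)) (Fin (q n))) (P n × Fin ((q n - 1) ^ 2)), fun n => ?_,
    fun n => cospec _ _ (q1 n).le rfl, fun H _ => ?_, fun h => ?_⟩
  · obtain ⟨-, a, -, -, l, -, -, -, -, h, -⟩ := ProjectivePlane.exists_config (P := P n) (L := P n)
    obtain ⟨i⟩ : Nonempty (Fin (q n)) := inferInstance
    obtain ⟨j⟩ : Nonempty (Fin (q n * q n)) := inferInstance
    exact ⟨⟨(a, ()), (l, j), h⟩, ⟨.inl (a, i), (l, i), (a, i), rfl, h⟩⟩
  · obtain ⟨K', hK'⟩ := dens_pl H
    have := lim_ratio _ _ _ _ _ _ _ (edges H) hx (fun n => (hK' (P n) (P n)).2)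
      (fun n => (hK (P n) (P n)).2) one_ne_zero
    simpa only [hh, dens_bl, div_one] using this
  · obtain ⟨K', hK'⟩ := dens_pl P3
    have key : ∀ (H : BG) (a K : ℝ), (∀ a, ∃ b, H.E a b) → Nat.card H.A = 1 → ∀ n,
        (0 < dens H (pl (P n) (P n)) ∧ |-Real.log (dens H (pl (P n) (P n))) - a * Real.log (q n)| ≤ K) →
        |-Real.log (dens H (iso (bl (pl (P n) (P n)) (Fin (q n)) (Fin (q n)))
          (P n × Fin ((q n - 1) ^ 2)))) - (a + 1) * Real.log (q n)| ≤ K + Real.log 2 := by
      intro H a K h1 h2 n ⟨h3, h4⟩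
      have hP : 0 < Nat.card (P n) := by
        rw [Nat.card_eq_fintype_card, ProjectivePlane.card_points (P n) (P n)]; positivity
      have e1 : Nat.card (bl (pl (P n) (P n)) (Fin (q n)) (Fin (q n))).A = Nat.card (P n) * q n :=
        (Nat.card_prod _ _).trans (by simp [pl])
      have q2 : (2 : ℝ) ≤ q n := by exact_mod_cast q1 n
      have hP' : (0 : ℝ) < Nat.card (P n) := by exact_mod_cast hP
      rw [dens_iso _ _ _ h1 h2 (by rw [e1]; have := q1 n; positivity), dens_bl, e1, Nat.card_prod,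
        Nat.card_fin]
      push_cast [(q1 n).le]
      rw [← mul_add, mul_div_mul_left _ _ hP'.ne', Real.log_mul h3.ne' (by positivity), ← inv_div,
        Real.log_inv]
      have b1 : Real.log ((q n + (q n - 1) ^ 2) / q n : ℝ) ≤ Real.log (q n) :=
        Real.log_le_log (by positivity) (by rw [div_le_iff₀ (by positivity)]; nlinarith)
      have b2 : Real.log (q n) ≤ Real.log 2 + Real.log ((q n + (q n - 1) ^ 2) / q n : ℝ) := by
        rw [← Real.log_mul (by positivity) (by positivity)]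
        exact Real.log_le_log (by positivity) (by
          rw [← mul_div_assoc, le_div_iff₀ (by positivity)]; nlinarith)
      have b3 : 0 ≤ Real.log 2 := Real.log_nonneg (by norm_num)
      rw [abs_le] at h4 ⊢
      constructor <;> linarith [h4.1, h4.2]
    have := lim_ratio _ _ _ _ _ _ _ (edges P3) hx
      (fun n => key P3 _ _ (fun _ => ⟨true, trivial⟩) (by simp [P3]) n (hK' (P n) (P n)))
      (fun n => key K2 _ _ (fun _ => ⟨(), trivial⟩) (by simp [K2]) n (hK (P n) (P n))) (by norm_num)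
    have e := tendsto_nhds_unique this (h P3 ⟨(), true, trivial⟩)
    have : (2 : ℝ) ≤ rr P3 := by exact_mod_cast rr_P3
    linarith

end BG

end Pool.Agent.H28.Plane
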