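import Mathlib

set_option autoImplicit false

/-! Separable polyhedral Banach spaces have a countable boundary; Hilbert spaces are not
isomorphically polyhedral. -/

namespace Pool.Agent.H28.PolyB

open Filter Topology Set Metric TopologicalSpace

variable {Z : Type*} [NormedAddCommGroup Z] [NormedSpace ℝ Z]

lemma seg (hZ : ∀ E : Submodule ℝ Z, FiniteDimensional ℝ E →
      ∃ V : Finset Z, (E : Set Z) ∩ closedBall 0 1 = convexHull ℝ V) (x y : Z) :
    ∃ n : ℕ, ‖x + (x + (1 / (n + 1) : ℝ) • y)‖ = ‖x‖ + ‖x + (1 / (n + 1) : ℝ) • y‖ := by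
  classical
  obtain ⟨V, hV⟩ := hZ (Submodule.span ℝ {x, y}) (FiniteDimensional.span_of_finite ℝ (toFinite _))
  set a : ℕ → Z := fun n => x + (1 / (n + 1) : ℝ) • y
  have h1 : ∀ n, ‖a n‖⁻¹ • a n ∈ convexHull ℝ (V : Set Z) := fun n => by
    rw [← hV]
    refine ⟨Submodule.smul_mem _ _ (Submodule.add_mem _ (Submodule.subset_span (by simp))
      (Submodule.smul_mem _ _ (Submodule.subset_span (by simp)))), ?_⟩
    rw [mem_closedBall_zero_iff, norm_smul, norm_inv, norm_norm]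
    exact inv_mul_le_one_of_le₀ le_rfl (norm_nonneg _)
  choose w w0 w1 w2 using fun n => Finset.mem_convexHull'.1 (h1 n)
  obtain ⟨S, -, hS⟩ := (V.powerset.frequently_exists (l := atTop)
    (p := fun S n => V.filter (w n · ≠ 0) = S)).1 (.of_forall fun n => ⟨_, by simp, rfl⟩)
  obtain ⟨n, hn⟩ := hS.exists
  refine ⟨n, ?_⟩
  change ‖x + a n‖ = ‖x‖ + ‖a n‖
  by_cases h0 : a n = 0
  · simp [h0]
  obtain ⟨F, F1, F2⟩ := exists_dual_vector'' ℝ (a n)
  have F3 : ∀ z, F z ≤ ‖z‖ := fun z => (le_abs_self _).trans (F.le_of_opNorm_le F1 z |>.trans_eq (one_mul _))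
  have F4 : ∀ v ∈ V, F v ≤ 1 := fun v hv => (F3 v).trans
    (mem_closedBall_zero_iff.1 (hV.ge (subset_convexHull ℝ _ hv)).2)
  have F5 : ∀ v ∈ V, w n v * F v = w n v := by
    refine (Finset.sum_eq_sum_iff_of_le fun v hv => mul_le_of_le_one_right (w0 n v hv) (F4 v hv)).1 ?_
    have := congrArg F (w2 n)
    simp only [map_sum, map_smul, smul_eq_mul, F2, RCLike.ofReal_real_eq_id, id] at this
    rw [this, w1, inv_mul_cancel₀ (norm_ne_zero_iff.2 h0)]
  have F6 : F x = ‖x‖ := by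
    have ht : Tendsto a atTop (𝓝 x) := by
      simpa only [zero_smul, add_zero] using ((tendsto_one_div_add_atTop_nhds_zero_nat (𝕜 := ℝ)).smul_const y).const_add x
    refine tendsto_nhds_unique_of_frequently_eq ((F.continuous.tendsto x).comp ht) ht.norm
      (hS.mono fun m hm => ?_)
    have h2 : ‖a m‖⁻¹ * F (a m) = 1 := by
      have := congrArg F (w2 m)
      simp only [map_sum, map_smul, smul_eq_mul] at this
      rw [← this, ← w1 m]
      refine Finset.sum_congr rfl fun v hv => ?_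
      by_cases h : w m v = 0
      · simp [h]
      have : v ∈ V.filter (w n · ≠ 0) := by rw [hn, ← hm]; simp [hv, h]
      rw [mul_left_cancel₀ (Finset.mem_filter.1 this).2 ((F5 v hv).trans (mul_one _).symm), mul_one]
    exact ((inv_mul_eq_one₀ (by rintro h; simp [h] at h2)).1 h2).symm
  refine (norm_add_le _ _).antisymm ?_
  have := F3 (x + a n)
  simp only [map_add, F2, F6, RCLike.ofReal_real_eq_id, id] at this
  exact this

variable [CompleteSpace Z]
  (hP : ∀ x y : Z, ∃ n : ℕ, ‖x + (x + (1 / (n + 1) : ℝ) • y)‖ = ‖x‖ + ‖x + (1 / (n + 1) : ℝ) • y‖)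
include hP

lemma loc {U : Set Z} (hU : IsOpen U) (hne : U.Nonempty) :
    ∃ x ∈ U, ∃ F : Z →L[ℝ] ℝ, (∀ z, F z ≤ ‖z‖) ∧ ∀ᶠ z in 𝓝 x, F z = ‖z‖ := by
  obtain ⟨⟨x, y⟩, h1, h2⟩ := (dense_iUnion_interior_of_closed (f := fun n : ℕ => {q : Z × Z |
    ‖q.1 + (q.1 + (1 / (n + 1) : ℝ) • q.2)‖ = ‖q.1‖ + ‖q.1 + (1 / (n + 1) : ℝ) • q.2‖})
    (fun n => isClosed_eq (by fun_prop) (by fun_prop))
    (eq_univ_of_forall fun q => mem_iUnion.2 (hP q.1 q.2))).inter_open_nonempty _
    (hU.prod isOpen_univ) (hne.prod univ_nonempty)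
  obtain ⟨n, h2⟩ := mem_iUnion.1 h2
  set s := x + (x + (1 / (n + 1) : ℝ) • y)
  obtain ⟨F, F1, F2⟩ := exists_dual_vector'' ℝ s
  have F3 : ∀ z, F z ≤ ‖z‖ := fun z => (le_abs_self _).trans (F.le_of_opNorm_le F1 z |>.trans_eq (one_mul _))
  refine ⟨x, h1.1, F, F3, ?_⟩
  have hn : (n + 1 : ℝ) ≠ 0 := by positivity
  have ht : Tendsto (fun z : Z => (z, (n + 1 : ℝ) • (s - z - z))) (𝓝 x) (𝓝 (x, y)) :=
    Continuous.tendsto' (by fun_prop) _ _ (by simp [s, smul_smul, hn])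
  filter_upwards [ht.eventually (mem_interior_iff_mem_nhds.1 h2)] with z hz
  simp only [smul_smul, one_div_mul_cancel hn, one_smul, add_sub_cancel] at hz
  have := F3 (s - z)
  simp only [map_sub, F2, RCLike.ofReal_real_eq_id, id] at this
  linarith [F3 z]

lemma bdry [SeparableSpace Z] : ∃ F : ℕ → Z →L[ℝ] ℝ, (∀ i z, |F i z| ≤ ‖z‖) ∧ ∀ z, ∃ i, F i z = ‖z‖ := by
  refine ⟨fun i => fderiv ℝ (fun z : Z => ‖z‖) (denseSeq Z i), fun i z => ?_, fun x => ?_⟩
  · simpa using ContinuousLinearMap.le_of_opNorm_le _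
      (norm_fderiv_le_of_lipschitz ℝ (x₀ := denseSeq Z i) lipschitzWith_one_norm) z
  obtain ⟨n, y, hy⟩ := nonempty_interior_of_iUnion_of_closed (f := fun n : ℕ => {y : Z |
    ‖x + (x + (1 / (n + 1) : ℝ) • y)‖ = ‖x‖ + ‖x + (1 / (n + 1) : ℝ) • y‖})
    (fun n => isClosed_eq (by fun_prop) (by fun_prop)) (eq_univ_of_forall fun q => mem_iUnion.2 (hP x q))
  have hn : (n + 1 : ℝ) ≠ 0 := by positivity
  obtain ⟨z, h1, F, F1, F2⟩ := loc hP (isOpen_interior.preimage (f := fun z : Z => (n + 1 : ℝ) • (z - x - x))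
    (by fun_prop)) ⟨x + (x + (1 / (n + 1) : ℝ) • y), by simpa [smul_smul, hn] using hy⟩
  have h2 := interior_subset h1
  simp only [mem_ofPred_eq, smul_smul, inv_mul_cancel₀ hn, one_smul, add_sub_cancel] at h2
  obtain ⟨i, hi⟩ := (denseRange_denseSeq Z).mem_nhds F2.eventually_nhds
  refine ⟨i, ?_⟩
  change fderiv ℝ norm (denseSeq Z i) x = ‖x‖
  rw [← EventuallyEq.fderiv_eq (f₁ := F) hi, F.fderiv]
  have := F1 (z - x)
  rw [map_sub, F2.self_of_nhds] at this
  linarith [F1 x]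

lemma hilb {H : Type*} [NormedAddCommGroup H] [InnerProductSpace ℝ H] [CompleteSpace H] [SeparableSpace H]
    (T : H →L[ℝ] Z) (hs : Function.Surjective T) {c : ℝ} (hc : 0 < c) (hT : ∀ y, c * ‖y‖ ≤ ‖T y‖) :
    FiniteDimensional ℝ H := by
  by_contra hH
  have := hs.denseRange.separableSpace T.continuous
  obtain ⟨F, F1, F2⟩ := bdry hP
  set G : H →ₗ[ℝ] ℕ → ℝ := LinearMap.pi fun i => ((F i).comp T).toLinearMap
  set K := G '' {y | ∀ i : ℕ, (1 + 1 / (i + 1) : ℝ) * |F i (T y)| ≤ 1}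
  have h1 : ∀ y, (∀ i : ℕ, (1 + 1 / (i + 1) : ℝ) * |F i (T y)| ≤ 1) → ‖T y‖ < 1 := fun y h => by
    obtain ⟨i, hi⟩ := F2 (T y)
    have := h i
    rw [hi, abs_norm] at this
    by_contra h2
    nlinarith [Nat.one_div_pos_of_nat (α := ℝ) (n := i)]
  have hK : IsCompact K := by
    set u : ℕ → H := fun i => (InnerProductSpace.toDual ℝ H).symm ((F i).comp T)
    have hu : ∀ i y, InnerProductSpace.toDual ℝ H y (u i) = F i (T y) := fun i y => by
      rw [InnerProductSpace.toDual_apply_apply, real_inner_comm, InnerProductSpace.toDual_symm_apply]; rfl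
    have h2 : ∀ i, Continuous fun φ : WeakDual ℝ H => φ (u i) := fun i => WeakDual.eval_continuous _
    have h3 : IsClosed {φ : WeakDual ℝ H | ∀ i : ℕ, (1 + 1 / (i + 1) : ℝ) * |φ (u i)| ≤ 1} := by
      rw [ofPred_forall]
      exact isClosed_iInter fun i => isClosed_le (continuous_const.mul (h2 i).abs) continuous_const
    convert ((WeakDual.isCompact_closedBall (0 : StrongDual ℝ H) c⁻¹).inter_right h3).image
      (continuous_pi h2) using 1
    ext a
    constructor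
    · rintro ⟨y, hy, rfl⟩
      refine ⟨StrongDual.toWeakDual (InnerProductSpace.toDual ℝ H y), ⟨?_, fun i => ?_⟩, funext fun i => hu i y⟩
      · simpa [← one_div, le_div_iff₀' hc] using (hT y).trans (h1 y hy).le
      · exact (congrArg (fun t => _ * |t|) (hu i y)).trans_le (hy i)
    · rintro ⟨φ, ⟨-, h⟩, rfl⟩
      obtain ⟨y, hy⟩ := (InnerProductSpace.toDual ℝ H).surjective φ.toStrongDual
      have : ∀ i, F i (T y) = φ (u i) := fun i => by rw [← hu, hy]; rfl
      exact ⟨y, fun i => by rw [this]; exact h i, funext this⟩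
  obtain ⟨_, ⟨y, hy, rfl⟩, he⟩ := hK.extremePoints_nonempty ⟨_, 0, by simp, rfl⟩
  obtain ⟨r, r1, r2⟩ := exists_between (h1 y hy)
  obtain ⟨N, hN⟩ := eventually_atTop.1 ((((tendsto_one_div_add_atTop_nhds_zero_nat (𝕜 := ℝ)).const_add
    1).mul_const r).eventually (gt_mem_nhds (by simpa using r2)))
  obtain ⟨z, z1, z2⟩ : ∃ z, (LinearMap.pi fun i : Fin N => ((F i).comp T).toLinearMap) z = 0 ∧ z ≠ 0 := by
    by_contra h
    exact hH (.of_injective _ (LinearMap.ker_eq_bot.1 (LinearMap.ker_eq_bot'.2 fun z hz =>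
      by_contra fun h' => h ⟨z, hz, h'⟩)))
  have z3 : 0 < ‖T z‖ := (mul_pos hc (norm_pos_iff.2 z2)).trans_le (hT z)
  set δ := (r - ‖T y‖) / ‖T z‖
  have hδ : 0 < δ := div_pos (sub_pos.2 r1) z3
  have h2 : ∀ s : ℝ, |s| = δ → G (y + s • z) ∈ K := fun s h => ⟨_, fun i => by
    rcases lt_or_ge i N with h3 | h3
    · have : F i (T z) = 0 := congrFun z1 ⟨i, h3⟩
      simpa [this] using hy i
    · refine le_trans (mul_le_mul_of_nonneg_left ((F1 _ _).trans ?_) (by positivity)) (hN i h3).le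
      rw [map_add, map_smul]
      refine (norm_add_le _ _).trans_eq ?_
      rw [norm_smul, Real.norm_eq_abs, h, div_mul_cancel₀ _ z3.ne', add_sub_cancel], rfl⟩
  have h3 := he (h2 δ (abs_of_pos hδ)) (h2 (-δ) (by rw [abs_neg, abs_of_pos hδ]))
    ⟨1 / 2, 1 / 2, by norm_num, by norm_num, by norm_num, by simp only [map_add, map_smul]; module⟩
  obtain ⟨i, hi⟩ := F2 (T z)
  have : F i (T (y + δ • z)) = F i (T y) := congrFun h3 i
  simp [hi, hδ.ne', z3.ne'] at this

end Pool.Agent.H28.PolyB
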