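import Mathlib

set_option autoImplicit false

/-! A polyhedral Banach space with a Cantor set of extreme points: the space. -/

namespace Pool.Agent.H28.PolyC

open Filter Topology Set Metric Finset
open scoped BoundedContinuousFunction

lemma polytope {Z ι : Type*} [NormedAddCommGroup Z] [NormedSpace ℝ Z] (E : Submodule ℝ Z)
    [FiniteDimensional ℝ E] (F : ι → Z →L[ℝ] ℝ) (J : Finset ι) (h1 : ∀ j y, |F j y| ≤ ‖y‖)
    (h2 : ∀ y ∈ E, (∀ j ∈ J, |F j y| ≤ 1) → ‖y‖ ≤ 1) :
    ∃ V : Finset Z, (E : Set Z) ∩ closedBall 0 1 = convexHull ℝ V := by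
  classical
  have hK : IsCompact ((E : Set Z) ∩ closedBall 0 1) := by
    convert (isCompact_closedBall (0 : E) 1).image continuous_subtype_val using 1
    ext y; simp [and_comm]
  have hf : (((E : Set Z) ∩ closedBall 0 1).extremePoints ℝ).Finite := by
    refine Finite.of_injOn (f := fun x => (J.filter (F · x = 1), J.filter (F · x = -1)))
      (fun x _ => ?_) (fun x hx y hy h => ?_) (J.powerset ×ˢ J.powerset).finite_toSet
    · exact mem_coe.2 (mem_product.2 ⟨mem_powerset.2 (filter_subset _ _), mem_powerset.2 (filter_subset _ _)⟩)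
    have h3 : ∀ᶠ δ in 𝓝[>] (0 : ℝ), ∀ j ∈ J, |F j (x + δ • (x - y))| ≤ 1 := by
      refine (eventually_all_finset J).2 fun j hj => ?_
      have k1 := Finset.ext_iff.1 (congrArg Prod.fst h) j
      have k2 := Finset.ext_iff.1 (congrArg Prod.snd h) j
      simp only [mem_filter, hj, true_and] at k1 k2
      rcases ((h1 j x).trans (mem_closedBall_zero_iff.1 hx.1.2)).eq_or_lt with k | k
      · rcases (abs_eq zero_le_one).1 k with k | k
        · simp [k, k1.1 k]
        · simp [k, k2.1 k]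
      · exact (((Continuous.tendsto' (f := fun δ : ℝ => |F j (x + δ • (x - y))|) (by fun_prop) 0 _
          (by simp)).eventually (gt_mem_nhds k)).mono fun _ h => h.le).filter_mono nhdsWithin_le_nhds
    obtain ⟨δ, h4, h5 : 0 < δ⟩ := (h3.and self_mem_nhdsWithin).exists
    have h6 := E.add_mem hx.1.1 (E.smul_mem δ (E.sub_mem hx.1.1 hy.1.1))
    refine (hx.2 hy.1 ⟨h6, mem_closedBall_zero_iff.2 (h2 _ h6 h4)⟩ ⟨δ / (1 + δ), 1 / (1 + δ), by positivity,
      by positivity, by field_simp; ring, ?_⟩).symm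
    match_scalars <;> (field_simp; try ring)
  refine ⟨hf.toFinset, ?_⟩
  rw [hf.coe_toFinset, ← (hf.isClosed_convexHull ℝ).closure_eq,
    closure_convexHull_extremePoints hK (E.convex.inter (convex_closedBall _ _))]

abbrev Nd := Σ n : ℕ, Fin n → Bool

def nd (t : ℕ → Bool) (n : ℕ) : Nd := ⟨n, fun i => t i⟩

def bits (s : Nd) (i : ℕ) : Bool := if h : i < s.1 then s.2 ⟨i, h⟩ else false

lemma nd_bits (s : Nd) : nd (bits s) s.1 = s := by
  obtain ⟨n, f⟩ := s
  simp [nd, bits]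

lemma bits_nd (t : ℕ → Bool) {n i : ℕ} (h : i < n) : bits (nd t n) i = t i := by simp [nd, bits, h]

lemma nd_congr {t τ : ℕ → Bool} {n : ℕ} (h : ∀ i < n, t i = τ i) : nd t n = nd τ n := by
  simp only [nd, Sigma.mk.injEq, heq_eq_eq, true_and]
  exact funext fun i => h i i.2

lemma fin (N : ℕ) : {l : Nd × Bool | l.1.1 < N}.Finite := by
  refine (((Set.finite_Iio N).biUnion fun n _ => Set.finite_range (Sigma.mk n : _ → Nd)).prod
    Set.finite_univ).subset fun l hl => ⟨mem_biUnion hl ⟨_, rfl⟩, trivial⟩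

lemma exL : ∃ l : ℕ → Nd, (∀ k, (l k).1 ≤ k) ∧ Function.Surjective l := by
  obtain ⟨e, he⟩ := exists_surjective_nat Nd
  refine ⟨fun k => if (e k.unpair.1).1 ≤ k then e k.unpair.1 else nd 0 0, fun k => ?_, fun s => ?_⟩
  · dsimp only; split_ifs with h
    exacts [h, Nat.zero_le _]
  · obtain ⟨j, rfl⟩ := he s
    exact ⟨j.pair (e j).1, by simp [Nat.right_le_pair]⟩

noncomputable def L : ℕ → Nd := exL.choose

noncomputable def δ (a b : Bool) : ℝ := if a = b then 0 else 1

noncomputable def d (i : ℕ) : ℝ := (1 / 4) ^ (i + 2)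

noncomputable def w (i n : ℕ) : ℝ := if i + 1 = n then (1 / 2) ^ (i + 2) - d i else d i

noncomputable def u (s : Nd) (t : ℕ → Bool) : ℝ := ∑ i ∈ range s.1, w i s.1 * δ (bits s i) (t i)

lemma δ0 (a b : Bool) : 0 ≤ δ a b ∧ δ a b ≤ 1 := by unfold δ; split_ifs <;> simp

lemma d0 (i : ℕ) : 0 < d i := by unfold d; positivity

lemma d1 {i j : ℕ} (h : i ≤ j) : d j ≤ d i := pow_le_pow_of_le_one (by norm_num) (by norm_num) (by omega)

lemma d2 (i : ℕ) : d i = (1 / 2) ^ (i + 2) * (1 / 2) ^ (i + 2) := by rw [d, ← mul_pow]; norm_num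

lemma w0 (i n : ℕ) : d i ≤ w i n ∧ w i n ≤ (1 / 2) ^ (i + 2) := by
  have h1 : (1 / 2 : ℝ) ^ (i + 2) ≤ (1 / 2) ^ 1 := pow_le_pow_of_le_one (by norm_num) (by norm_num) (by omega)
  have h2 : (0 : ℝ) < (1 / 2) ^ (i + 2) := by positivity
  have := d2 i
  unfold w; split_ifs <;> constructor <;> nlinarith

lemma geo (n : ℕ) : ∑ i ∈ range n, (1 / 2 : ℝ) ^ (i + 1) = 1 - (1 / 2) ^ n := by
  induction n with
  | zero => simp
  | succ n ih => rw [sum_range_succ, ih]; ring

lemma u0 (s : Nd) (t : ℕ → Bool) : 0 ≤ u s t ∧ u s t ≤ 1 / 2 := by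
  refine ⟨sum_nonneg fun i _ => mul_nonneg ((d0 i).le.trans (w0 i _).1) (δ0 _ _).1,
    (sum_le_sum (g := fun i => 1 / 2 * (1 / 2) ^ (i + 1)) fun i _ => ?_).trans ?_⟩
  · nlinarith [w0 i s.1, δ0 (bits s i) (t i), d0 i, pow_succ (1 / 2 : ℝ) (i + 1)]
  · rw [← mul_sum, geo]; linarith [show (0 : ℝ) < (1 / 2) ^ s.1 by positivity]

lemma du (s : Nd) (t τ : ℕ → Bool) : |u s t - u s τ| ≤ ∑ i ∈ range s.1, w i s.1 * δ (t i) (τ i) := by
  rw [u, u, ← sum_sub_distrib]
  refine (abs_sum_le_sum_abs _ _).trans (sum_le_sum fun i _ => ?_)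
  have := (d0 i).le.trans (w0 i s.1).1
  rw [← mul_sub, abs_mul, abs_of_nonneg this]
  gcongr
  cases bits s i <;> cases t i <;> cases τ i <;> simp [δ]

lemma du2 (s : Nd) (t : ℕ → Bool) : d s.1 * |u (L s.1) (bits s) - u (L s.1) t| ≤ u s t := by
  refine (mul_le_mul_of_nonneg_left (du _ _ _) (d0 _).le).trans ?_
  rw [mul_sum]
  refine (sum_le_sum (g := fun i => w i s.1 * δ (bits s i) (t i)) fun i hi => ?_).trans
    (sum_le_sum_of_subset_of_nonneg (range_mono (exL.choose_spec.1 s.1)) fun i _ _ =>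
      mul_nonneg ((d0 i).le.trans (w0 i _).1) (δ0 _ _).1)
  have h1 := (w0 i (L s.1).1).2.trans (pow_le_one₀ (by norm_num) (by norm_num))
  have h2 := (d1 ((mem_range.1 hi).le.trans (exL.choose_spec.1 s.1))).trans (w0 i s.1).1
  rw [← mul_assoc]
  exact mul_le_mul_of_nonneg_right ((mul_le_of_le_one_right (d0 _).le h1).trans h2) (δ0 _ _).1

lemma u_nd (τ t : ℕ → Bool) (n : ℕ) : u (nd τ n) t = ∑ i ∈ range n, w i n * δ (τ i) (t i) :=
  sum_congr rfl fun i hi => by rw [bits_nd τ (mem_range.1 hi)]; rfl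

lemma u_succ (τ t : ℕ → Bool) (n : ℕ) : u (nd τ (n + 1)) t =
    ∑ i ∈ range n, d i * δ (τ i) (t i) + ((1 / 2) ^ (n + 2) - d n) * δ (τ n) (t n) := by
  rw [u_nd, sum_range_succ, w, if_pos rfl]
  congr 1
  exact sum_congr rfl fun i hi => by rw [w, if_neg (by simpa using (mem_range.1 hi).ne)]

lemma u_avg (τ t : ℕ → Bool) (n : ℕ) : ∑ k ∈ range (n + 1), (1 / 2) ^ (k + 1) * u (nd τ k) t =
    (1 - (1 / 2) ^ (n + 1)) * ∑ i ∈ range n, d i * δ (τ i) (t i) := by
  induction n with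
  | zero => simp [u_nd]
  | succ n ih => rw [sum_range_succ, ih, u_succ, sum_range_succ, d2]; ring

noncomputable def a (x : Nd × Bool → ℝ) (s : Nd) : ℝ := (x (s, true) + x (s, false)) / 2

noncomputable def r (x : Nd × Bool → ℝ) (s : Nd) : ℝ :=
  a x s - ∑ k ∈ range s.1, (1 / 2) ^ (k + 1) * a x (nd (bits s) k)

lemma a_le (x : Nd × Bool →ᵇ ℝ) (s : Nd) : |a x s| ≤ ‖x‖ := by
  have h1 := abs_le.1 (x.norm_coe_le_norm (s, true))
  have h2 := abs_le.1 (x.norm_coe_le_norm (s, false))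
  rw [a, abs_le]; constructor <;> linarith

lemma r_le (x : Nd × Bool →ᵇ ℝ) (s : Nd) : |r x s| ≤ 2 * ‖x‖ := by
  refine (abs_sub _ _).trans ((add_le_add (a_le x s) ((abs_sum_le_sum_abs _ _).trans (sum_le_sum
    (g := fun k => (1 / 2) ^ (k + 1) * ‖x‖) fun k _ => ?_))).trans ?_)
  · rw [abs_mul, abs_of_pos (by positivity)]; gcongr; exact a_le _ _
  · rw [← sum_mul, geo]; nlinarith [norm_nonneg x, show (0 : ℝ) < (1 / 2) ^ s.1 by positivity]

lemma r_add (x y : Nd × Bool →ᵇ ℝ) (c : ℝ) (s : Nd) : r ⇑(c • x + y) s = c * r x s + r y s := by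
  have : ∀ s, a ⇑(c • x + y) s = c * a x s + a y s := fun s => by simp [a]; ring
  simp only [r, this, mul_add, sum_add_distrib, mul_left_comm _ c, ← mul_sum]; ring

/-- The space. -/
noncomputable def Y : @Submodule ℝ (Nd × Bool →ᵇ ℝ) _
    NormedAddCommGroup.toAddCommGroup.toAddCommMonoid NormedSpace.toModule where
  carrier := {x | Tendsto (r x) (comap Sigma.fst atTop) (𝓝 0) ∧ ∀ s, x (s, true) - x (s, false) =
    d s.1 * (a x (L s.1) - (1 - u (L s.1) (bits s)) * a x (nd 0 0))}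
  add_mem' {x y} h k := ⟨(by simpa using h.1.add k.1 : Tendsto (fun s => r x s + r y s) _ (𝓝 0)).congr
    fun s => by simpa using (r_add x y 1 s).symm, fun s => by
    have := h.2 s; have := k.2 s; simp only [a, BoundedContinuousFunction.add_apply] at *; linarith⟩
  zero_mem' := ⟨tendsto_const_nhds.congr fun s => by simp [r, a], by simp [a]⟩
  smul_mem' c x h := ⟨by
    refine (by simpa using h.1.const_mul c : Tendsto (fun s => c * r x s) _ (𝓝 0)).congr fun s => ?_
    simpa [r, a] using (r_add x 0 c s).symm, fun s => by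
    have := h.2 s
    simp only [a, BoundedContinuousFunction.coe_smul, smul_eq_mul] at *
    linear_combination c * this⟩

lemma Y_closed : IsClosed (Y : Set (Nd × Bool →ᵇ ℝ)) := by
  refine IsClosed.inter (isClosed_of_closure_subset fun x hx => Metric.tendsto_nhds.2 fun ε hε => ?_) ?_
  · obtain ⟨y, h1, h2⟩ := Metric.mem_closure_iff.1 hx (ε / 4) (by linarith)
    filter_upwards [Metric.tendsto_nhds.1 h1 (ε / 2) (by linarith)] with s hs
    have h3 := r_le ((-1 : ℝ) • y + x) s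
    rw [r_add, neg_one_smul ℝ y, neg_add_eq_sub, ← dist_eq_norm, abs_le] at h3
    rw [Real.dist_eq, sub_zero, abs_lt] at hs ⊢
    constructor <;> linarith
  · change IsClosed {x : Nd × Bool →ᵇ ℝ | ∀ s, _}
    rw [ofPred_forall]
    exact isClosed_iInter fun s => isClosed_eq (by fun_prop) (by unfold a; fun_prop)

noncomputable def pf (t : ℕ → Bool) (l : Nd × Bool) : ℝ :=
  1 - u l.1 t + (if l.2 then 1 else -1) * (d l.1.1 * (u (L l.1.1) (bits l.1) - u (L l.1.1) t)) / 2

lemma pf0 (t : ℕ → Bool) (l : Nd × Bool) : 0 ≤ pf t l ∧ pf t l ≤ 1 - u l.1 t / 2 := by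
  have h1 := du2 l.1 t
  rw [← abs_of_pos (d0 _), ← abs_mul, abs_le] at h1
  have := u0 l.1 t
  unfold pf; split_ifs <;> constructor <;> linarith

lemma pf1 (t : ℕ → Bool) (l : Nd × Bool) : ‖pf t l‖ ≤ 1 := by
  rw [Real.norm_of_nonneg (pf0 t l).1]; linarith [pf0 t l, u0 l.1 t]

lemma a_pf (t : ℕ → Bool) (s : Nd) : a (pf t) s = 1 - u s t := by simp [a, pf]; ring

lemma pf_nd (t : ℕ → Bool) (n : ℕ) (b : Bool) : pf t (nd t n, b) = 1 := by
  have h1 : u (nd t n) t = 0 := by simp [u_nd, δ]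
  have h2 := du2 (nd t n) t
  rw [← abs_of_pos (d0 _), ← abs_mul, h1, abs_nonpos_iff] at h2
  simp only [pf, h1, h2]; simp

/-- The extreme points. -/
noncomputable def p (t : ℕ → Bool) : Y :=
  ⟨.ofNormedAddCommGroupDiscrete (pf t) 1 (pf1 t), by
    refine squeeze_zero_norm' (a := fun s => 2 * (1 / 2) ^ s.1) ?_ ?_
    · filter_upwards [preimage_mem_comap (Ici_mem_atTop 1)] with s hs
      obtain ⟨n, hn⟩ := Nat.exists_eq_add_of_le' (show 1 ≤ s.1 from hs)
      have h1 := u0 s t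
      have h2 := u_succ (bits s) t n
      rw [← hn, nd_bits] at h2
      have h3 : 0 ≤ ∑ i ∈ range n, d i * δ (bits s i) (t i) :=
        sum_nonneg fun i _ => mul_nonneg (d0 i).le (δ0 _ _).1
      have h4 := w0 n (n + 1)
      rw [w, if_pos rfl, pow_succ _ (n + 1)] at h4
      change |r (pf t) s| ≤ _
      simp only [r, a_pf, mul_sub, mul_one, sum_sub_distrib, geo, hn, u_avg, h2, pow_succ _ (n + 1)] at h1 ⊢
      have h5 := δ0 (bits s n) (t n)
      have h6 := d0 n
      have h7 : (0 : ℝ) < (1 / 2) ^ (n + 1) := by positivity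
      generalize (1 / 2 : ℝ) ^ (n + 1) = q at *
      have k1 := mul_nonneg (h6.le.trans h4.1) h5.1
      have k2 := mul_le_of_le_one_right (h6.le.trans h4.1) h5.2
      have k3 := mul_nonneg h7.le h3
      have k4 := mul_le_mul_of_nonneg_left ((le_add_of_nonneg_right k1).trans h1.2) h7.le
      rw [abs_le]; constructor <;> nlinarith
    · simpa [Function.comp_def] using ((tendsto_pow_atTop_nhds_zero_of_lt_one (r := (1 / 2 : ℝ)) (by norm_num)
        (by norm_num)).const_mul 2).comp tendsto_comap,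
    fun s => by
      change pf t _ - pf t _ = d _ * (a (pf t) _ - _ * a (pf t) _)
      simp [a_pf, pf, u_nd]; ring⟩

lemma p_apply (t : ℕ → Bool) (l : Nd × Bool) : (p t).1 l = pf t l := rfl

lemma p_cont : Continuous p := by
  refine continuous_iff_continuousAt.2 fun t => (tendsto_iff_norm_sub_tendsto_zero (f := p)).2 ?_
  have hs : Summable fun i : ℕ => (1 / 2 : ℝ) ^ (i + 2) := (summable_nat_add_iff 2).2 summable_geometric_two
  have hb : ∀ i (τ : ℕ → Bool), ‖(1 / 2 : ℝ) ^ (i + 2) * δ (τ i) (t i)‖ ≤ (1 / 2) ^ (i + 2) := fun i τ => by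
    rw [Real.norm_of_nonneg (mul_nonneg (by positivity) (δ0 _ _).1)]
    exact mul_le_of_le_one_right (by positivity) (δ0 _ _).2
  have hc := continuous_tsum (fun i => continuous_const.mul
    ((continuous_of_discreteTopology (f := fun b => δ b (t i))).comp (continuous_apply i))) hs hb
  refine squeeze_zero (fun τ => norm_nonneg (p τ - p t)) (fun τ => ?_)
    ((continuous_const (y := (2 : ℝ)).mul hc).tendsto' t 0 (by simp [δ]))
  have h1 : ∀ s, |u s τ - u s t| ≤ ∑' i, (1 / 2 : ℝ) ^ (i + 2) * δ (τ i) (t i) := fun s =>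
    (du s τ t).trans ((sum_le_sum fun i _ => mul_le_mul_of_nonneg_right (w0 i _).2 (δ0 _ _).1).trans
      ((hs.of_norm_bounded (hb · τ)).sum_le_tsum _ fun i _ => mul_nonneg (by positivity) (δ0 _ _).1))
  refine (BoundedContinuousFunction.norm_le (mul_nonneg zero_le_two ((abs_nonneg _).trans
    (h1 (nd 0 0))))).2 fun l => ?_
  have h2 := abs_le.1 (h1 l.1)
  have h3 := abs_le.1 (h1 (L l.1.1))
  have h4 := d0 l.1.1
  have h5 : d l.1.1 ≤ 1 := pow_le_one₀ (by norm_num) (by norm_num)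
  change |pf τ l - pf t l| ≤ 2 * ∑' i, (1 / 2 : ℝ) ^ (i + 2) * δ (τ i) (t i)
  rw [abs_le]
  unfold pf; split_ifs <;> constructor <;> nlinarith

lemma p_inj : Function.Injective p := fun t τ h => funext fun i => by
  have h1 := (pf0 τ (nd t (i + 1), true)).2
  rw [← p_apply, ← h, p_apply, pf_nd, u_nd] at h1
  have h2 := single_le_sum (f := fun k => w k (i + 1) * δ (t k) (τ k)) (fun k _ =>
    mul_nonneg ((d0 k).le.trans (w0 k _).1) (δ0 _ _).1) (self_mem_range_succ i)
  by_contra h3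
  simp only [δ, h3, if_false] at h1 h2
  linarith [d0 i, w0 i (i + 1)]

lemma rigid (x : Y) (t : ℕ → Bool) (γ : ℝ) (h : ∀ k b, x.1 (nd t k, b) = γ) : x = γ • p t := by
  have h0 : a x.1 (nd 0 0) = γ := by simp [a, nd_congr (t := 0) (τ := t) (n := 0) (by simp), h]
  have h1 : ∀ s, a x.1 s = γ * (1 - u s t) := fun s => by
    obtain ⟨k, rfl⟩ := exL.choose_spec.2 s
    have h2 := x.2.2 (nd t k)
    have h3 := (p t).2.2 (nd t k)
    simp only [h, h0, p_apply, pf_nd, sub_self, zero_eq_mul, (d0 _).ne', false_or] at h2 h3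
    change a (pf t) (L k) - _ * a (pf t) _ = 0 at h3
    change a x.1 (L k) - _ = 0 at h2
    change a x.1 (L k) = γ * (1 - u (L k) t)
    simp only [a_pf, u_nd, range_zero, sum_empty] at h3
    linear_combination h2 - γ * h3
  ext ⟨s, b⟩
  have h2 := x.2.2 s
  have h3 := h1 s
  rw [h0, h1] at h2
  change _ = γ * pf t _
  unfold a at h3
  cases b <;> simp only [pf, Bool.false_eq_true, if_false, if_true] <;> linarith

end Pool.Agent.H28.PolyC
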