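import Pool.Agent.H28.PolyC

set_option autoImplicit false

/-! The space of `PolyC` is polyhedral. -/

namespace Pool.Agent.H28.PolyC

open Filter Topology Set Metric Finset
open scoped BoundedContinuousFunction

noncomputable def X (x : Nd × Bool → ℝ) (t : ℕ → Bool) : ℝ := ∑' k, (1 / 2) ^ (k + 1) * a x (nd t k)

lemma hsum : HasSum (fun k : ℕ => (1 / 2 : ℝ) ^ (k + 1)) 1 := by
  simpa [pow_succ] using hasSum_geometric_two.mul_right (1 / 2 : ℝ)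

lemma tb (x : Nd × Bool →ᵇ ℝ) (k : ℕ) (t : ℕ → Bool) :
    ‖(1 / 2 : ℝ) ^ (k + 1) * a x (nd t k)‖ ≤ (1 / 2) ^ (k + 1) * ‖x‖ := by
  rw [norm_mul, Real.norm_of_nonneg (by positivity)]; gcongr; exact a_le _ _

lemma X_cont (x : Nd × Bool →ᵇ ℝ) : Continuous (X x) :=
  continuous_tsum (fun k => continuous_const.mul ((continuous_of_discreteTopology
    (f := fun g : Fin k → Bool => a x ⟨k, g⟩)).comp (continuous_pi fun i => continuous_apply (i : ℕ))))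
    (hsum.summable.mul_right _) (tb x)

lemma approx (x : Y) {η : ℝ} (hη : 0 < η) : ∃ N, ∀ n ≥ N, ∀ t b, |x.1 (nd t n, b) - X x.1 t| ≤ η := by
  have h1 := Metric.tendstoUniformly_iff.1 (tendstoUniformly_tsum_nat (hsum.summable.mul_right _) (tb x.1))
    (η / 3) (by linarith)
  have h2 := eventually_comap.1 (Metric.tendsto_nhds.1 x.2.1 (η / 3) (by linarith))
  have h3 : Tendsto (fun n => d n * ‖x.1‖) atTop (𝓝 0) := by
    simpa [d] using ((tendsto_add_atTop_iff_nat 2).2 (tendsto_pow_atTop_nhds_zero_of_lt_one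
      (r := (1 / 4 : ℝ)) (by norm_num) (by norm_num))).mul_const ‖x.1‖
  refine eventually_atTop.1 ?_
  filter_upwards [h1, h2, h3.eventually (gt_mem_nhds (show 0 < η / 3 by linarith))] with n k1 k2 k3 t b
  have k4 := k1 t
  have k5 := k2 (nd t n) rfl
  have k6 := x.2.2 (nd t n)
  have k7 : r x.1 (nd t n) = a x.1 (nd t n) - ∑ k ∈ range n, (1 / 2) ^ (k + 1) * a x.1 (nd t k) :=
    congrArg _ (sum_congr rfl fun k hk => by
      rw [nd_congr (t := bits (nd t n)) fun i hi => bits_nd t (hi.trans (mem_range.1 hk))])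
  have k8 : |a x.1 (L n) - (1 - u (L n) (bits (nd t n))) * a x.1 (nd 0 0)| ≤ 2 * ‖x.1‖ := by
    have := u0 (L n) (bits (nd t n))
    refine (abs_sub _ _).trans ?_
    rw [abs_mul, abs_of_nonneg (show 0 ≤ 1 - u (L n) (bits (nd t n)) by linarith)]
    nlinarith [a_le x.1 (L n), a_le x.1 (nd 0 0), abs_nonneg (a x.1 (nd 0 0))]
  have k9 := mul_le_mul_of_nonneg_left k8 (d0 n).le
  rw [← abs_of_pos (d0 n), ← abs_mul, abs_of_pos (d0 n), abs_le] at k9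
  rw [Real.dist_eq, sub_zero, k7, abs_lt, a] at k5
  rw [Real.dist_eq, abs_lt] at k4
  change _ = d n * (a x.1 (L n) - (1 - u (L n) (bits (nd t n))) * a x.1 (nd 0 0)) at k6
  rw [abs_le, X]
  cases b <;> constructor <;> linarith

lemma avg (x : Y) (t : ℕ → Bool) (h : ∀ k b, x.1 (nd t k, b) ≤ X x.1 t) : x = X x.1 t • p t := by
  have h1 := (hsum.mul_right (X x.1 t)).sub ((hsum.summable.mul_right _).of_norm_bounded (tb x.1 · t)).hasSum
  rw [one_mul, ← X, sub_self, hasSum_zero_iff_of_nonneg fun k => by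
    rw [← mul_sub, a]
    exact mul_nonneg (by positivity) (by linarith [h k true, h k false])] at h1
  refine rigid x t _ fun k b => ?_
  have := congrFun h1 k
  simp only [← mul_sub, Pi.zero_apply, mul_eq_zero, pow_eq_zero_iff', a] at this
  norm_num at this
  cases b <;> linarith [h k true, h k false]

lemma pick (y : Y) (J : Finset (Nd × Bool)) (h : ∀ l, ∃ j ∈ J, |y.1 l| ≤ |y.1 j|) :
    ∃ j ∈ J, ‖y‖ ≤ |y.1 j| := by
  obtain ⟨j, h1, h2⟩ := J.exists_max_image (fun j => |y.1 j|) ⟨_, (h (nd 0 0, true)).choose_spec.1⟩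
  exact ⟨j, h1, (BoundedContinuousFunction.norm_le (abs_nonneg _)).2 fun l =>
    let ⟨i, a, b⟩ := h l; b.trans (h2 i a)⟩

lemma co_le (y : Y) (l : Nd × Bool) : |y.1 l| ≤ ‖y‖ := y.1.norm_coe_le_norm l

lemma near (x : Y) {ε : ℝ} (hε : 0 < ε) : ∀ᶠ y in 𝓝 x, ∀ l, |y.1 l - x.1 l| ≤ ε :=
  mem_of_superset (closedBall_mem_nhds x hε) fun y hy l =>
    (co_le (y - x) l).trans ((mem_closedBall_iff_norm (E := Y)).1 hy)

lemma npos {v : Y} (h : v ≠ 0) : 0 < ‖v‖ := (norm_pos_iff (E := Y)).2 h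

lemma nrm {v : Y} (h : v ≠ 0) : ‖‖v‖⁻¹ • v‖ = 1 := norm_smul_inv_norm (𝕜 := ℝ) (E := Y) h

lemma caseA (x : Y) (hx : ‖x‖ = 1) (h : ∀ t, |X x.1 t| < 1) :
    ∃ J : Finset (Nd × Bool), ∀ᶠ y in 𝓝 x, ∃ j ∈ J, ‖y‖ ≤ |y.1 j| := by
  obtain ⟨t, -, ht⟩ := isCompact_univ.exists_isMaxOn univ_nonempty (X_cont x.1).abs.continuousOn
  have hη : 0 < (1 - |X x.1 t|) / 4 := by linarith [h t]
  obtain ⟨N, hN⟩ := approx x hη
  have h1 : ∀ l : Nd × Bool, N ≤ l.1.1 → |x.1 l| ≤ |X x.1 t| + (1 - |X x.1 t|) / 4 := fun l hl => by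
    have := hN _ hl (bits l.1) l.2
    rw [nd_bits] at this
    linarith [abs_sub_abs_le_abs_sub (x.1 l) (X x.1 (bits l.1)),
      show |X x.1 (bits l.1)| ≤ |X x.1 t| from ht (mem_univ _)]
  obtain ⟨j, hj⟩ : ∃ j, 1 - (1 - |X x.1 t|) / 4 < |x.1 j| := by
    by_contra! k
    have := (BoundedContinuousFunction.norm_le (f := x.1) ((abs_nonneg _).trans (k (nd 0 0, true)))).2 k
    change ‖x‖ ≤ _ at this
    linarith
  refine ⟨(fin N).toFinset, (near x hη).mono fun y hy => pick y _ fun l => ?_⟩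
  rcases lt_or_ge l.1.1 N with k | k
  · exact ⟨l, by simpa using k, le_rfl⟩
  · refine ⟨j, by simpa using not_le.1 fun k => by linarith [h1 j k], ?_⟩
    linarith [h1 l k, abs_sub_abs_le_abs_sub (y.1 l) (x.1 l), abs_sub_abs_le_abs_sub (x.1 j) (y.1 j),
      abs_sub_comm (x.1 j) (y.1 j), hy l, hy j]

lemma cone {E : Set Y} (hE : IsCompact (E ∩ {y | ‖y‖ = 1})) (hs : ∀ c : ℝ, ∀ v ∈ E, c • v ∈ E)
    (t : ℕ → Bool) :
    ∃ (J : Finset (Nd × Bool)) (n : ℕ), (∀ j ∈ J, pf t j = 1) ∧ ∀ v ∈ E, v.1 (nd 0 0, true) = 0 →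
      ∀ l : Nd × Bool, n ≤ l.1.1 → (∀ i < n, bits l.1 i = t i) → v = 0 ∨ ∃ j ∈ J, v.1 l ≤ v.1 j := by
  classical
  obtain ⟨J, n, h1, h2⟩ := (hE.inter_right (isClosed_eq (f := fun v : Y => v.1 (nd 0 0, true)) (g := fun _ => 0)
    (by fun_prop) continuous_const)).induction_on (p := fun S => ∃ (J : Finset (Nd × Bool)) (n : ℕ),
    (∀ j ∈ J, pf t j = 1) ∧ ∀ v ∈ S, ∀ l : Nd × Bool, n ≤ l.1.1 → (∀ i < n, bits l.1 i = t i) →
      ∃ j ∈ J, v.1 l ≤ v.1 j) ⟨∅, 0, by simp, by simp⟩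
    (fun _ _ h ⟨J, n, a, b⟩ => ⟨J, n, a, fun v hv => b v (h hv)⟩)
    (fun _ _ ⟨J, n, a, b⟩ ⟨J', n', a', b'⟩ => ⟨J ∪ J', max n n', fun j hj => (mem_union.1 hj).elim (a j)
      (a' j), fun v hv l c e => hv.elim
      (fun hv => (b v hv l (le_of_max_le_left c) fun i hi => e i (lt_max_of_lt_left hi)).imp fun _ h =>
        ⟨mem_union_left _ h.1, h.2⟩)
      fun hv => (b' v hv l (le_of_max_le_right c) fun i hi => e i (lt_max_of_lt_right hi)).imp fun _ h =>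
        ⟨mem_union_right _ h.1, h.2⟩⟩) (by
    rintro v ⟨⟨-, k1⟩, k2 : v.1 _ = 0⟩
    obtain ⟨k, b, k3⟩ : ∃ k b, X v.1 t < v.1 (nd t k, b) := by
      by_contra! k
      have k4 := avg _ t k
      have k5 : v.1 (nd t 0, true) = _ * pf t _ := congrArg (fun y : Y => y.1 (nd t 0, true)) k4
      rw [pf_nd, mul_one, nd_congr (τ := 0) (by simp), k2] at k5
      rw [← k5, zero_smul] at k4
      simp [k4] at k1
    have hγ : 0 < (v.1 (nd t k, b) - X v.1 t) / 5 := by linarith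
    obtain ⟨N, hN⟩ := approx v hγ
    refine ⟨_, nhdsWithin_le_nhds (near v hγ), {(nd t k, b)}, N, by simpa using pf_nd t k b,
      fun y hy l c e => ⟨_, mem_singleton_self _, ?_⟩⟩
    have k4 := abs_le.1 (hN _ c (bits l.1) l.2)
    have k5 := abs_le.1 (hN _ le_rfl (bits l.1) true)
    rw [nd_bits] at k4
    rw [nd_congr e] at k5
    linarith [abs_le.1 (hN _ le_rfl t true), abs_le.1 (hy l), abs_le.1 (hy (nd t k, b))])
  refine ⟨J, n, h1, fun v hv k l a b => or_iff_not_imp_left.2 fun h0 => ?_⟩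
  have h3 := inv_pos.2 (npos h0)
  obtain ⟨j, c, e⟩ := h2 (‖v‖⁻¹ • v) ⟨⟨hs _ _ hv, nrm h0⟩, by simp [k]⟩ l a b
  exact ⟨j, c, le_of_mul_le_mul_left e h3⟩

lemma caseB {E : Set Y} (hE : IsCompact (E ∩ {y | ‖y‖ = 1})) (hs : ∀ c : ℝ, ∀ v ∈ E, c • v ∈ E)
    (ha : ∀ v ∈ E, ∀ z ∈ E, v - z ∈ E) (t : ℕ → Bool) (ht : p t ∈ E) :
    ∃ J : Finset (Nd × Bool), ∀ᶠ y in 𝓝 (p t), y ∈ E → ∃ j ∈ J, ‖y‖ ≤ |y.1 j| := by
  classical
  obtain ⟨J, n, h1, h2⟩ := cone hE hs t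
  have h3 := d0 n
  have h4 : d n ≤ 1 := pow_le_one₀ (by norm_num) (by norm_num)
  refine ⟨insert (nd 0 0, true) (J ∪ (fin n).toFinset), (near (p t) (show 0 < d n / 8 by linarith)).mono
    fun y hy hE => pick y _ fun l => ?_⟩
  have h5 : pf t (nd 0 0, true) = 1 := pf_nd t 0 true
  have h6 := abs_le.1 (hy (nd 0 0, true))
  have h7 := abs_le.1 (hy l)
  have h8 := pf0 t l
  rw [p_apply] at h6 h7
  rcases lt_or_ge l.1.1 n with k | k
  · exact ⟨l, by simp [k], le_rfl⟩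
  have key : y.1 l ≤ y.1 (nd 0 0, true) → ∃ j ∈ insert (nd 0 0, true) (J ∪ (fin n).toFinset),
      |y.1 l| ≤ |y.1 j| := fun h =>
    ⟨_, mem_insert_self _ _, (abs_le.2 ⟨by linarith, h⟩).trans (le_abs_self _)⟩
  by_cases e : ∀ i < n, bits l.1 i = t i
  · rcases h2 _ (ha _ hE _ (hs (y.1 (nd 0 0, true)) _ ht)) (by simp [p_apply, h5]) l k e with h | ⟨j, a, b⟩
    · have : y.1 l - y.1 (nd 0 0, true) * pf t l = 0 := congrArg (fun v : Y => v.1 l) h
      exact key (by nlinarith [u0 l.1 t])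
    · change y.1 l - y.1 (nd 0 0, true) * pf t l ≤ y.1 j - y.1 (nd 0 0, true) * pf t j at b
      rcases le_total (y.1 l) 0 with h | h
      · exact key (by linarith)
      · refine ⟨j, by simp [a], (abs_of_nonneg h).trans_le (le_trans ?_ (le_abs_self _))⟩
        rw [h1 j a] at b
        nlinarith [u0 l.1 t]
  · push Not at e
    obtain ⟨i, a, b⟩ := e
    have := single_le_sum (f := fun k => w k l.1.1 * δ (bits l.1 k) (t k)) (fun k _ =>
      mul_nonneg ((d0 k).le.trans (w0 k _).1) (δ0 _ _).1) (mem_range.2 (a.trans_le k))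
    simp only [δ, b, if_false] at this
    refine key ?_
    unfold u δ at h8
    linarith [w0 i l.1.1, d1 a.le]

lemma glob {E : Set Y} (hE : IsCompact (E ∩ {y | ‖y‖ = 1})) (hs : ∀ c : ℝ, ∀ v ∈ E, c • v ∈ E)
    (ha : ∀ v ∈ E, ∀ z ∈ E, v - z ∈ E) :
    ∃ J : Finset (Nd × Bool), ∀ y ∈ E, (∀ j ∈ J, |y.1 j| ≤ 1) → ‖y‖ ≤ 1 := by
  classical
  obtain ⟨J, h⟩ := hE.induction_on (p := fun S => ∃ J : Finset (Nd × Bool), ∀ y ∈ S, y ∈ E →
    ∃ j ∈ J, ‖y‖ ≤ |y.1 j|) ⟨∅, by simp⟩ (fun _ _ h ⟨J, b⟩ => ⟨J, fun v hv => b v (h hv)⟩)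
    (fun _ _ ⟨J, b⟩ ⟨J', b'⟩ => ⟨J ∪ J', fun v hv e => hv.elim
      (fun hv => (b v hv e).imp fun _ h => ⟨mem_union_left _ h.1, h.2⟩)
      fun hv => (b' v hv e).imp fun _ h => ⟨mem_union_right _ h.1, h.2⟩⟩) (by
    rintro x ⟨k1, k2 : ‖x‖ = 1⟩
    suffices ∃ J : Finset (Nd × Bool), ∀ᶠ y in 𝓝 x, y ∈ E → ∃ j ∈ J, ‖y‖ ≤ |y.1 j| from
      let ⟨J, h⟩ := this; ⟨_, nhdsWithin_le_nhds h, J, fun _ h => h⟩
    have k3 : ∀ z : Y, ‖z‖ = 1 → ∀ t, 1 ≤ X z.1 t → z = p t := fun z h t k => by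
      have k4 := avg z t fun _ _ => ((le_abs_self _).trans ((co_le z _).trans_eq h)).trans k
      have k5 : z.1 (nd t 0, true) = _ * pf t _ := congrArg (fun y : Y => y.1 (nd t 0, true)) k4
      rw [pf_nd, mul_one] at k5
      rw [k4, k.antisymm' (k5 ▸ (le_abs_self _).trans ((co_le z _).trans_eq h)), one_smul]
    by_cases h : ∀ t, |X x.1 t| < 1
    · exact (caseA x k2 h).imp fun J h => h.mono fun y h _ => h
    push Not at h
    obtain ⟨t, ht⟩ := h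
    rcases le_abs.1 ht with h | h
    · obtain rfl := k3 x k2 t h
      exact caseB hE hs ha t k1
    · have k4 := k3 (-x) (by rwa [norm_neg]) t (h.trans_eq (by simp [X, a, ← tsum_neg]; congr; ext; ring))
      obtain ⟨J, k5⟩ := caseB hE hs ha t (by simpa [k4] using hs (-1) x k1)
      refine ⟨J, ((continuous_neg.tendsto' x _ k4).eventually k5).mono fun y k6 k7 => ?_⟩
      simpa using k6 (by simpa using hs (-1) y k7))
  refine ⟨J, fun y h1 h2 => ?_⟩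
  rcases eq_or_ne y 0 with rfl | h0
  · simp
  have h3 := nrm h0
  obtain ⟨j, a, b⟩ := h _ ⟨hs _ _ h1, h3⟩ (hs _ _ h1)
  have h4 := npos h0
  rw [h3] at b
  change 1 ≤ |‖y‖⁻¹ * y.1 j| at b
  rw [abs_mul, abs_inv, abs_norm, one_le_inv_mul₀ h4] at b
  exact b.trans (h2 j a)

end Pool.Agent.H28.PolyC
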