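import Mathlib

set_option autoImplicit false

namespace Pool.Agent.H28.RT

def arcs : List (ℕ × ℕ) := [(0, 1), (1, 2), (2, 3), (3, 4), (5, 4), (6, 5), (6, 7), (8, 7), (9, 8),
  (9, 10), (11, 10), (11, 12), (12, 13), (13, 14), (14, 15), (8, 16), (17, 16), (18, 17), (18, 19),
  (19, 20), (20, 21)]

def sarcs : List (ℕ × ℕ) := arcs.map Prod.swap

variable {V : Type}

def Poly (E : V → V → Prop) (s : V → V → V → V → V) : Prop :=
  ∀ x₁ x₂ x₃ x₄ y₁ y₂ y₃ y₄, E x₁ y₁ → E x₂ y₂ → E x₃ y₃ → E x₄ y₄ →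
    E (s x₁ x₂ x₃ x₄) (s y₁ y₂ y₃ y₄)

structure Loc (E : V → V → Prop) (φ : ℕ → V) : Prop where
  arc : ∀ p ∈ arcs, E (φ p.1) (φ p.2)
  out : ∀ a < 22, a ≠ 0 → a ≠ 15 → ∀ y, E (φ a) y → ∃ b, (a, b) ∈ arcs ∧ y = φ b
  inn : ∀ a < 22, a ≠ 0 → a ≠ 15 → ∀ y, E y (φ a) → ∃ b, (a, b) ∈ sarcs ∧ y = φ b
  inj : ∀ a < 22, ∀ b < 22, φ a = φ b → a = b

theorem Loc.arc' {E : V → V → Prop} {φ : ℕ → V} (h : Loc E φ) :
    ∀ p ∈ sarcs, E (φ p.2) (φ p.1) := by
  intro p hp
  obtain ⟨q, hq, rfl⟩ := List.mem_map.1 hp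
  exact h.arc q hq

def Good (s : V → V → V → V → V) (φ : ℕ → V) (σ : Bool → Bool → Bool → Bool → Bool)
    (S0 S1 : List ℕ) : Prop :=
  ∀ i1 i2 i3 i4 y1 y2 y3 y4, y1 ∈ cond i1 S1 S0 → y2 ∈ cond i2 S1 S0 → y3 ∈ cond i3 S1 S0 →
    y4 ∈ cond i4 S1 S0 → ∃ z ∈ cond (σ i1 i2 i3 i4) S1 S0, s (φ y1) (φ y2) (φ y3) (φ y4) = φ z

variable {s : V → V → V → V → V} {φ : ℕ → V} {σ : Bool → Bool → Bool → Bool → Bool}

theorem good_c (c : ℕ) (h : s (φ c) (φ c) (φ c) (φ c) = φ c) : Good s φ σ [c] [c] := by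
  intro i1 i2 i3 i4 y1 y2 y3 y4 h1 h2 h3 h4
  simp only [Bool.cond_self, List.mem_singleton] at *
  subst h1 h2 h3 h4
  exact ⟨_, rfl, h⟩

theorem good_step (F : V → V → Prop) (L : List (ℕ × ℕ)) (hs : Poly F s)
    (h1 : ∀ p ∈ L, F (φ p.1) (φ p.2))
    (h2 : ∀ a < 22, a ≠ 0 → a ≠ 15 → ∀ y, F (φ a) y → ∃ b, (a, b) ∈ L ∧ y = φ b)
    {S0 S1 T0 T1 : List ℕ} (g : Good s φ σ S0 S1)
    (h : ∀ i : Bool, (∀ a ∈ cond i S1 S0, a < 22 ∧ a ≠ 0 ∧ a ≠ 15 ∧
        ∀ p ∈ L, p.1 = a → p.2 ∈ cond i T1 T0) ∧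
      ∀ b ∈ cond i T1 T0, ∃ a ∈ cond i S1 S0, (a, b) ∈ L) : Good s φ σ T0 T1 := by
  intro i1 i2 i3 i4 y1 y2 y3 y4 a1 a2 a3 a4
  obtain ⟨x1, b1, c1⟩ := (h i1).2 y1 a1
  obtain ⟨x2, b2, c2⟩ := (h i2).2 y2 a2
  obtain ⟨x3, b3, c3⟩ := (h i3).2 y3 a3
  obtain ⟨x4, b4, c4⟩ := (h i4).2 y4 a4
  obtain ⟨z, hz, e⟩ := g i1 i2 i3 i4 x1 x2 x3 x4 b1 b2 b3 b4
  have := hs _ _ _ _ _ _ _ _ (h1 _ c1) (h1 _ c2) (h1 _ c3) (h1 _ c4)
  simp only [e] at this
  obtain ⟨d1, d2, d3, d4⟩ := (h _).1 z hz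
  obtain ⟨b, hb, eb⟩ := h2 z d1 d2 d3 _ this
  exact ⟨b, d4 _ hb rfl, eb⟩

theorem good_meet (inj : ∀ a < 22, ∀ b < 22, φ a = φ b → a = b)
    {S0 S1 U0 U1 T0 T1 : List ℕ} (g : Good s φ σ S0 S1) (g' : Good s φ σ U0 U1)
    (h : ∀ i : Bool, (∀ a ∈ cond i S1 S0, a < 22 ∧ (a ∈ cond i U1 U0 → a ∈ cond i T1 T0)) ∧
      (∀ a ∈ cond i U1 U0, a < 22) ∧
      ∀ b ∈ cond i T1 T0, b ∈ cond i S1 S0 ∧ b ∈ cond i U1 U0) : Good s φ σ T0 T1 := by
  intro i1 i2 i3 i4 y1 y2 y3 y4 a1 a2 a3 a4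
  obtain ⟨z, hz, e⟩ := g i1 i2 i3 i4 y1 y2 y3 y4 ((h _).2.2 _ a1).1 ((h _).2.2 _ a2).1
    ((h _).2.2 _ a3).1 ((h _).2.2 _ a4).1
  obtain ⟨z', hz', e'⟩ := g' i1 i2 i3 i4 y1 y2 y3 y4 ((h _).2.2 _ a1).2 ((h _).2.2 _ a2).2
    ((h _).2.2 _ a3).2 ((h _).2.2 _ a4).2
  have : z = z' := inj z ((h _).1 z hz).1 z' ((h _).2.1 z' hz') (e.symm.trans e')
  subst this
  exact ⟨z, ((h _).1 z hz).2 hz', e⟩

theorem local_false {E : V → V → Prop} (hs : Poly E s) (hl : Loc E φ)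
    (hid : ∀ c < 16, s (φ c) (φ c) (φ c) (φ c) = φ c)
    (hS : ∀ a r e, s a r e a = s r a r e) : False := by
  classical
  have hs' : Poly (fun x y => E y x) s := fun _ _ _ _ _ _ _ _ a b c d => hs _ _ _ _ _ _ _ _ a b c d
  have hA : Good s φ (fun _ _ _ _ => false) [9, 18] [9, 18] := by
    generalize (fun _ _ _ _ => false : Bool → Bool → Bool → Bool → Bool) = σ
    have g0 : Good s φ σ [8] [8] := good_c 8 (hid 8 (by decide))
    have g1 : Good s φ σ [7, 16] [7, 16] := good_step E arcs hs hl.arc hl.out g0 (by decide)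
    have g2 : Good s φ σ [6, 8, 17] [6, 8, 17] := good_step (fun x y => E y x) sarcs hs' hl.arc' hl.inn g1 (by decide)
    have g3 : Good s φ σ [9, 18] [9, 18] := good_step (fun x y => E y x) sarcs hs' hl.arc' hl.inn g2 (by decide)
    exact g3
  obtain ⟨σ, hσ⟩ : ∃ σ, Good s φ σ [9] [18] := by
    refine ⟨fun i1 i2 i3 i4 => decide (s (φ (cond i1 18 9)) (φ (cond i2 18 9)) (φ (cond i3 18 9))
      (φ (cond i4 18 9)) = φ 18), ?_⟩
    intro i1 i2 i3 i4 y1 y2 y3 y4 a1 a2 a3 a4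
    have k : ∀ (i : Bool) y, y ∈ cond i [18] [9] → y = cond i 18 9 := by
      intro i y h; cases i <;> simpa using h
    have k' : ∀ i : Bool, cond i 18 9 ∈ cond i [9, 18] [9, 18] := by decide
    rw [k _ _ a1, k _ _ a2, k _ _ a3, k _ _ a4]
    obtain ⟨z, hz, e⟩ := hA i1 i2 i3 i4 _ _ _ _ (k' _) (k' _) (k' _) (k' _)
    by_cases h : s (φ (cond i1 18 9)) (φ (cond i2 18 9)) (φ (cond i3 18 9)) (φ (cond i4 18 9)) = φ 18
    · exact ⟨18, by simp [h], h⟩
    · refine ⟨9, by simp [h], ?_⟩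
      simp only [Bool.cond_false, List.mem_cons, List.not_mem_nil, or_false] at hz
      rcases hz with rfl | rfl
      · exact e
      · exact absurd e h
  have g0 : Good s φ σ [8] [8] := good_c 8 (hid 8 (by decide))
  have g1 : Good s φ σ [7, 16] [7, 16] := good_step E arcs hs hl.arc hl.out g0 (by decide)
  have g2 : Good s φ σ [6, 8, 17] [6, 8, 17] := good_step (fun x y => E y x) sarcs hs' hl.arc' hl.inn g1 (by decide)
  have g3 : Good s φ σ [9, 18] [9, 18] := good_step (fun x y => E y x) sarcs hs' hl.arc' hl.inn g2 (by decide)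
  have g4 : Good s φ σ [9] [18] := hσ
  have g5 : Good s φ σ [8, 10] [17, 19] := good_step E arcs hs hl.arc hl.out g4 (by decide)
  have g6 : Good s φ σ [7, 16] [16, 20] := good_step E arcs hs hl.arc hl.out g5 (by decide)
  have g7 : Good s φ σ [6, 8, 17] [8, 17, 19] := good_step (fun x y => E y x) sarcs hs' hl.arc' hl.inn g6 (by decide)
  have g8 : Good s φ σ [5, 7, 16] [7, 16, 20] := good_step E arcs hs hl.arc hl.out g7 (by decide)
  have g9 : Good s φ σ [4] [21] := good_step E arcs hs hl.arc hl.out g8 (by decide)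
  have g10 : Good s φ σ [3, 5] [20] := good_step (fun x y => E y x) sarcs hs' hl.arc' hl.inn g9 (by decide)
  have g11 : Good s φ σ [2, 6] [19] := good_step (fun x y => E y x) sarcs hs' hl.arc' hl.inn g10 (by decide)
  have g12 : Good s φ σ [1] [18] := good_step (fun x y => E y x) sarcs hs' hl.arc' hl.inn g11 (by decide)
  have g13 : Good s φ σ [2] [17, 19] := good_step E arcs hs hl.arc hl.out g12 (by decide)
  have g14 : Good s φ σ [3] [16, 20] := good_step E arcs hs hl.arc hl.out g13 (by decide)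
  have g15 : Good s φ σ [2] [8, 17, 19] := good_step (fun x y => E y x) sarcs hs' hl.arc' hl.inn g14 (by decide)
  have g16 : Good s φ σ [1] [9, 18] := good_step (fun x y => E y x) sarcs hs' hl.arc' hl.inn g15 (by decide)
  have g17 : Good s φ σ [2] [8, 10, 17, 19] := good_step E arcs hs hl.arc hl.out g16 (by decide)
  have g18 : Good s φ σ [1] [9, 11, 18] := good_step (fun x y => E y x) sarcs hs' hl.arc' hl.inn g17 (by decide)
  have g19 : Good s φ σ [2] [8, 10, 12, 17, 19] := good_step E arcs hs hl.arc hl.out g18 (by decide)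
  have g20 : Good s φ σ [3] [7, 13, 16, 20] := good_step E arcs hs hl.arc hl.out g19 (by decide)
  have g21 : Good s φ σ [4] [14, 21] := good_step E arcs hs hl.arc hl.out g20 (by decide)
  have g22 : Good s φ σ [3, 5] [13, 20] := good_step (fun x y => E y x) sarcs hs' hl.arc' hl.inn g21 (by decide)
  have g23 : Good s φ σ [2, 6] [12, 19] := good_step (fun x y => E y x) sarcs hs' hl.arc' hl.inn g22 (by decide)
  have g24 : Good s φ σ [3, 5, 7] [13, 20] := good_step E arcs hs hl.arc hl.out g23 (by decide)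
  have g25 : Good s φ σ [2, 6, 8] [12, 19] := good_step (fun x y => E y x) sarcs hs' hl.arc' hl.inn g24 (by decide)
  have g26 : Good s φ σ [10] [10] := good_c 10 (hid 10 (by decide))
  have g27 : Good s φ σ [9, 11] [9, 11] := good_step (fun x y => E y x) sarcs hs' hl.arc' hl.inn g26 (by decide)
  have g28 : Good s φ σ [8, 10, 12] [8, 10, 12] := good_step E arcs hs hl.arc hl.out g27 (by decide)
  have g29 : Good s φ σ [8] [12] := good_meet hl.inj g25 g28 (by decide)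
  have g30 : Good s φ σ [7, 16] [13] := good_step E arcs hs hl.arc hl.out g29 (by decide)
  have g31 : Good s φ σ [6, 8, 17] [12] := good_step (fun x y => E y x) sarcs hs' hl.arc' hl.inn g30 (by decide)
  have g32 : Good s φ σ [9, 18] [11] := good_step (fun x y => E y x) sarcs hs' hl.arc' hl.inn g31 (by decide)
  have g33 : Good s φ σ [7, 13, 16] [7, 13, 16] := good_step E arcs hs hl.arc hl.out g28 (by decide)
  have g34 : Good s φ σ [6, 8, 12, 17] [6, 8, 12, 17] := good_step (fun x y => E y x) sarcs hs' hl.arc' hl.inn g33 (by decide)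
  have g35 : Good s φ σ [9, 11, 18] [9, 11, 18] := good_step (fun x y => E y x) sarcs hs' hl.arc' hl.inn g34 (by decide)
  have g36 : Good s φ σ [8, 10, 12, 17, 19] [8, 10, 12, 17, 19] := good_step E arcs hs hl.arc hl.out g35 (by decide)
  have g37 : Good s φ σ [7, 13, 16, 20] [7, 13, 16, 20] := good_step E arcs hs hl.arc hl.out g36 (by decide)
  have g38 : Good s φ σ [14, 21] [14, 21] := good_step E arcs hs hl.arc hl.out g37 (by decide)
  have g39 : Good s φ σ [13, 20] [13, 20] := good_step (fun x y => E y x) sarcs hs' hl.arc' hl.inn g38 (by decide)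
  have g40 : Good s φ σ [12, 19] [12, 19] := good_step (fun x y => E y x) sarcs hs' hl.arc' hl.inn g39 (by decide)
  have g41 : Good s φ σ [11, 18] [11, 18] := good_step (fun x y => E y x) sarcs hs' hl.arc' hl.inn g40 (by decide)
  have g42 : Good s φ σ [18] [11] := good_meet hl.inj g32 g41 (by decide)
  have g43 : Good s φ σ [17, 19] [10, 12] := good_step E arcs hs hl.arc hl.out g42 (by decide)
  have g44 : Good s φ σ [18] [9, 11] := good_step (fun x y => E y x) sarcs hs' hl.arc' hl.inn g43 (by decide)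
  have g45 : Good s φ σ [18] [9] := good_meet hl.inj g44 g3 (by decide)
  have g46 : Good s φ σ [9, 11] [18] := good_step (fun x y => E y x) sarcs hs' hl.arc' hl.inn g5 (by decide)
  have g47 : Good s φ σ [8, 10, 12] [17, 19] := good_step E arcs hs hl.arc hl.out g46 (by decide)
  have g48 : Good s φ σ [7, 13, 16] [16, 20] := good_step E arcs hs hl.arc hl.out g47 (by decide)
  have g49 : Good s φ σ [6, 8, 12, 17] [8, 17, 19] := good_step (fun x y => E y x) sarcs hs' hl.arc' hl.inn g48 (by decide)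
  have g50 : Good s φ σ [5, 7, 13, 16] [7, 16, 20] := good_step E arcs hs hl.arc hl.out g49 (by decide)
  have g51 : Good s φ σ [9, 11, 18] [9, 18] := good_step (fun x y => E y x) sarcs hs' hl.arc' hl.inn g49 (by decide)
  have g52 : Good s φ σ [8, 10, 12, 17, 19] [8, 10, 17, 19] := good_step E arcs hs hl.arc hl.out g51 (by decide)
  have g53 : Good s φ σ [7, 13, 16, 20] [7, 16, 20] := good_step E arcs hs hl.arc hl.out g52 (by decide)
  have inj := hl.inj
  -- value of s on {9,18}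
  have val : ∀ i1 i2 i3 i4, s (φ (cond i1 18 9)) (φ (cond i2 18 9)) (φ (cond i3 18 9))
      (φ (cond i4 18 9)) = φ (cond (σ i1 i2 i3 i4) 18 9) := by
    intro i1 i2 i3 i4
    have k' : ∀ i : Bool, cond i 18 9 ∈ cond i [18] [9] := by decide
    obtain ⟨z, hz, e⟩ := hσ i1 i2 i3 i4 _ _ _ _ (k' _) (k' _) (k' _) (k' _)
    rw [e]; congr 1
    revert hz; cases σ i1 i2 i3 i4 <;> simp
  have ci : ∀ i j : Bool, φ (cond i 18 9) = φ (cond j 18 9) → i = j := by
    intro i j h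
    have := inj _ (by cases i <;> decide) _ (by cases j <;> decide) h
    revert this; cases i <;> cases j <;> simp
  have dual : ∀ i1 i2 i3 i4, σ (!i1) (!i2) (!i3) (!i4) = !σ i1 i2 i3 i4 := by
    intro i1 i2 i3 i4
    have k' : ∀ i : Bool, cond (!i) 18 9 ∈ cond i [9] [18] := by decide
    obtain ⟨z, hz, e⟩ := g45 i1 i2 i3 i4 _ _ _ _ (k' _) (k' _) (k' _) (k' _)
    rw [val] at e
    apply ci
    rw [e]; congr 1
    revert hz; cases σ i1 i2 i3 i4 <;> simp
  have sig : ∀ a r e, σ a r e a = σ r a r e := by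
    intro a r e
    apply ci
    rw [← val, ← val, hS]
  have horn : ∀ i1 i2 i3 i4 j1 j2 j3 j4 k1 k2 k3 k4 : Bool, (j1 && k1) ≤ i1 → (j2 && k2) ≤ i2 →
      (j3 && k3) ≤ i3 → (j4 && k4) ≤ i4 → (σ j1 j2 j3 j4 && σ k1 k2 k3 k4) ≤ σ i1 i2 i3 i4 := by
    intro i1 i2 i3 i4 j1 j2 j3 j4 k1 k2 k3 k4 a1 a2 a3 a4
    have w : ∀ i j k : Bool, (j && k) ≤ i → ∃ y ∈ cond i [7, 16, 20] [5, 7, 13, 16],
        y ∈ cond j [7, 16, 20] [7, 13, 16, 20] ∧ y ∈ cond k [13, 20] [3, 5, 7] := by decide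
    have w' : ∀ i j k : Bool, ∀ y ∈ cond i [7, 16, 20] [5, 7, 13, 16],
        y ∈ cond j [7, 16, 20] [7, 13, 16, 20] → y ∈ cond k [13, 20] [3, 5, 7] → (j && k) ≤ i := by
      decide
    have l1 : ∀ i : Bool, ∀ y ∈ cond i [7, 16, 20] [5, 7, 13, 16], y < 22 := by decide
    have l2 : ∀ i : Bool, ∀ y ∈ cond i [7, 16, 20] [7, 13, 16, 20], y < 22 := by decide
    have l3 : ∀ i : Bool, ∀ y ∈ cond i [13, 20] [3, 5, 7], y < 22 := by decide
    obtain ⟨y1, p1, q1, r1⟩ := w _ _ _ a1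
    obtain ⟨y2, p2, q2, r2⟩ := w _ _ _ a2
    obtain ⟨y3, p3, q3, r3⟩ := w _ _ _ a3
    obtain ⟨y4, p4, q4, r4⟩ := w _ _ _ a4
    obtain ⟨z, hz, e⟩ := g50 _ _ _ _ _ _ _ _ p1 p2 p3 p4
    obtain ⟨z', hz', e'⟩ := g53 _ _ _ _ _ _ _ _ q1 q2 q3 q4
    obtain ⟨z'', hz'', e''⟩ := g24 _ _ _ _ _ _ _ _ r1 r2 r3 r4
    have x1 : z = z' := inj _ (l1 _ _ hz) _ (l2 _ _ hz') (e.symm.trans e')
    have x2 : z = z'' := inj _ (l1 _ _ hz) _ (l3 _ _ hz'') (e.symm.trans e'')
    subst x1 x2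
    exact w' _ _ _ z hz hz' hz''
  have f1 := sig false true false
  have f2 := sig false true true
  have f3 := dual false true false true
  have f4 := dual false true false false
  have f5 := horn false true false false false true false true false true true false
    (by decide) (by decide) (by decide) (by decide)
  have f6 := horn false true false true false true false false false true false false
    (by decide) (by decide) (by decide) (by decide)
  simp only [Bool.not_false, Bool.not_true] at f3 f4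
  rw [f3] at f1
  rw [f4] at f2
  rw [f2] at f5
  revert f1 f5 f6
  cases σ false true false false <;> cases σ false true false true <;> decide

end Pool.Agent.H28.RT
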