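import Mathlib

set_option autoImplicit false

namespace Pool.Agent.H28.RT
open Finset Classical

variable {V : Type} [Fintype V] [DecidableEq V]

inductive Rch (p : V → V) (R : Finset V) : V → Prop
  | base {x : V} : x ∈ R → Rch p R x
  | step {x : V} : Rch p R (p x) → Rch p R x

noncomputable def Fo (A R : Finset V) : Finset (V → V) :=
  univ.filter fun p => (∀ x, x ∉ A → p x = x) ∧ ∀ x ∈ A, p x ∈ A ∪ R ∧ Rch p R x

theorem mem_Fo {A R : Finset V} {p : V → V} :
    p ∈ Fo A R ↔ (∀ x, x ∉ A → p x = x) ∧ ∀ x ∈ A, p x ∈ A ∪ R ∧ Rch p R x := by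
  simp [Fo]

/-- number of forests with a non-roots and r roots -/
noncomputable def FF (a r : ℕ) : ℝ := if a = 0 then 1 else r * ((a : ℝ) + r) ^ (a - 1)

theorem FF_nonneg (a r : ℕ) : 0 ≤ FF a r := by
  unfold FF; split_ifs <;> positivity

theorem FF_rec (a r : ℕ) :
    FF a r = ∑ c ∈ range (a + 1), (a.choose c : ℝ) * (r : ℝ) ^ c * FF (a - c) c := by
  rcases a with _ | a
  · simp [FF]
  rw [sum_range_succ']
  have h0 : FF (a + 1 - 0) 0 = 0 := by simp [FF]
  rw [h0, mul_zero, add_zero]
  have : FF (a + 1) r = r * ((r : ℝ) + (a + 1 : ℕ)) ^ a := by simp [FF, add_comm]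
  rw [this, add_pow, mul_sum]
  refine sum_congr rfl fun c hc => ?_
  have hc' : c ≤ a := by simpa [Nat.lt_succ_iff] using hc
  have e1 : a + 1 - (c + 1) = a - c := by omega
  rw [e1]
  have e2 : ((a + 1).choose (c + 1) : ℝ) * (c + 1) = (a + 1) * a.choose c := by
    exact_mod_cast (Nat.add_one_mul_choose_eq a c).symm
  unfold FF
  split_ifs with h
  · have : c = a := by omega
    subst this; simp [pow_succ]; ring
  · obtain ⟨k, hk⟩ : ∃ k, a - c = k + 1 := ⟨a - c - 1, by omega⟩
    have e3 : ((a - c : ℕ) : ℝ) + ((c + 1 : ℕ) : ℝ) = a + 1 := by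
      push_cast [hc']; ring
    rw [e3, hk]
    simp only [Nat.add_sub_cancel]
    push_cast
    linear_combination (-(r : ℝ) ^ (c + 1) * ((a : ℝ) + 1) ^ k) * e2

theorem card_fiber (A R C : Finset V) (hd : Disjoint A R) (hC : C ⊆ A) :
    ((Fo A R).filter fun p => A.filter (fun x => p x ∈ R) = C).card =
      R.card ^ C.card * (Fo (A \ C) C).card := by
  have h1 : (Fintype.piFinset fun x => if x ∈ C then R else {x}).card = R.card ^ C.card := by
    rw [Fintype.card_piFinset]
    simp [apply_ite Finset.card]
  rw [← h1, ← card_product]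
  refine card_nbij' (fun p => (fun x => if x ∈ C then p x else x, fun x => if x ∈ C then x else p x))
    (fun q x => if x ∈ C then q.1 x else q.2 x) ?_ ?_ ?_ ?_
  · intro p hp
    simp only [coe_filter, Set.mem_ofPred_eq, mem_Fo] at hp
    obtain ⟨⟨h1, h2⟩, h3⟩ := hp
    have hC' : ∀ x, x ∈ C ↔ x ∈ A ∧ p x ∈ R := fun x => by rw [← h3]; simp
    simp only [coe_product, Set.mem_prod, mem_coe, Fintype.mem_piFinset, mem_Fo]
    refine ⟨fun x => ?_, fun x hx => ?_, fun x hx => ⟨?_, ?_⟩⟩
    · split_ifs with h
      · exact ((hC' x).1 h).2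
      · simp
    · split_ifs with h
      · rfl
      · exact h1 x (by simpa [h] using hx)
    · rw [mem_sdiff] at hx
      rw [if_neg hx.2, sdiff_union_of_subset hC]
      rcases mem_union.1 (h2 x hx.1).1 with h | h
      · exact h
      · exact absurd ((hC' x).2 ⟨hx.1, h⟩) hx.2
    · have : ∀ y, Rch p R y → y ∈ A → Rch (fun x => if x ∈ C then x else p x) C y := by
        intro y hy
        induction hy with
        | base h => intro h'; exact absurd h (disjoint_left.1 hd h')
        | @step y _ ih =>
          intro h'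
          by_cases hy : y ∈ C
          · exact .base hy
          · refine .step ?_
            simp only [if_neg hy]
            rcases mem_union.1 (h2 y h').1 with h | h
            · exact ih h
            · exact absurd ((hC' y).2 ⟨h', h⟩) hy
      exact this x (h2 x (mem_sdiff.1 hx).1).2 (mem_sdiff.1 hx).1
  · rintro ⟨g, p⟩ hq
    simp only [coe_product, Set.mem_prod, mem_coe, Fintype.mem_piFinset, mem_Fo] at hq
    obtain ⟨h1, h2, h3⟩ := hq
    have h1' : ∀ x ∈ C, g x ∈ R := fun x hx => by simpa [hx] using h1 x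
    rw [sdiff_union_of_subset hC] at h3
    simp only [coe_filter, Set.mem_ofPred_eq, mem_Fo]
    refine ⟨⟨fun x hx => ?_, fun x hx => ⟨?_, ?_⟩⟩, ?_⟩
    · rw [if_neg fun h => hx (hC h)]; exact h2 x (by simp [hx])
    · split_ifs with h
      · exact mem_union_right _ (h1' x h)
      · exact mem_union_left _ (h3 x (by simp [hx, h])).1
    · have b : ∀ y ∈ C, Rch (fun x => if x ∈ C then g x else p x) R y := fun y hy =>
        .step (.base (by simpa [hy] using h1' y hy))
      have : ∀ y, Rch p C y → Rch (fun x => if x ∈ C then g x else p x) R y := by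
        intro y hy
        induction hy with
        | base h => exact b _ h
        | @step y _ ih =>
          by_cases hy : y ∈ C
          · exact b _ hy
          · exact .step (by simpa [hy] using ih)
      by_cases h : x ∈ C
      · exact b x h
      · exact this x (h3 x (by simp [hx, h])).2
    · ext x
      simp only [mem_filter]
      constructor
      · rintro ⟨hx, h⟩
        by_contra hn
        rw [if_neg hn] at h
        exact disjoint_left.1 hd (h3 x (by simp [hx, hn])).1 h
      · intro hx
        exact ⟨hC hx, by simpa [hx] using h1' x hx⟩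
  · intro p _
    funext x
    by_cases h : x ∈ C <;> simp [h]
  · rintro ⟨g, p⟩ hq
    simp only [coe_product, Set.mem_prod, mem_coe, Fintype.mem_piFinset, mem_Fo] at hq
    obtain ⟨h1, h2, -⟩ := hq
    ext x
    · by_cases h : x ∈ C
      · simp [h]
      · have := h1 x; simp [h] at this ⊢; exact this.symm
    · by_cases h : x ∈ C
      · simp [h, h2 x (by simp [h])]
      · simp [h]

theorem Fo_empty (A : Finset V) (h : A.Nonempty) : Fo A ∅ = ∅ := by
  obtain ⟨x, hx⟩ := h
  refine eq_empty_of_forall_notMem fun p hp => ?_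
  have : ∀ y, ¬ Rch p ∅ y := fun y hy => by
    induction hy with
    | base h => simp at h
    | step _ ih => exact ih
  exact this x ((mem_Fo.1 hp).2 x hx).2

theorem card_Fo (n : ℕ) : ∀ A R : Finset V, A.card = n → Disjoint A R →
    ((Fo A R).card : ℝ) = FF A.card R.card := by
  induction n using Nat.strong_induction_on with
  | _ n ih =>
  intro A R hn hd
  rcases A.eq_empty_or_nonempty with rfl | hA
  · have : Fo (∅ : Finset V) R = {id} := by
      ext p; simp [mem_Fo, funext_iff]
    simp [this, FF]
  rw [card_eq_sum_card_fiberwise (f := fun p => A.filter (fun x => p x ∈ R)) (t := A.powerset)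
    (fun p _ => mem_coe.2 (mem_powerset.2 (filter_subset _ _))), FF_rec]
  push_cast
  have : ∀ C ∈ A.powerset, (((Fo A R).filter fun p => A.filter (fun x => p x ∈ R) = C).card : ℝ) =
      (fun c => (R.card : ℝ) ^ c * FF (A.card - c) c) C.card := by
    intro C hC
    rw [mem_powerset] at hC
    rw [card_fiber A R C hd hC]
    push_cast
    congr 1
    rcases C.eq_empty_or_nonempty with rfl | hC'
    · simp [Fo_empty A hA, FF, hA.ne_empty]
    · have e : (A \ C).card = A.card - C.card := card_sdiff_of_subset hC
      rw [ih _ (by have := card_pos.2 hC'; have := card_pos.2 hA; omega) (A \ C) C rfl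
        sdiff_disjoint, e]
  rw [sum_congr rfl this,
    sum_powerset_apply_card (fun c => (R.card : ℝ) ^ c * FF (A.card - c) c)]
  refine sum_congr rfl fun c _ => ?_
  simp [mul_assoc]

theorem FF_sum (N : ℕ) : ∀ r : ℕ,
    ∑ a ∈ range N, FF a r * Real.exp (-a) / a.factorial ≤ Real.exp r := by
  induction N using Nat.strong_induction_on with
  | _ N ih =>
  intro r
  have e1 : ∑ a ∈ range N, FF a r * Real.exp (-a) / a.factorial =
      ∑ c ∈ range N, (r : ℝ) ^ c / c.factorial * Real.exp (-c) *
        ∑ k ∈ range (N - c), FF k c * Real.exp (-k) / k.factorial := by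
    simp_rw [mul_sum]
    rw [← sum_range_diag_flip N (fun c k => (r : ℝ) ^ c / c.factorial * Real.exp (-c) *
        (FF k c * Real.exp (-k) / k.factorial))]
    refine sum_congr rfl fun a _ => ?_
    rw [FF_rec a r, sum_mul, sum_div]
    refine sum_congr rfl fun c hc => ?_
    have hc' : c ≤ a := by simpa [Nat.lt_succ_iff] using hc
    rw [Nat.cast_choose ℝ hc']
    have : Real.exp (-(a : ℝ)) = Real.exp (-c) * Real.exp (-((a - c : ℕ) : ℝ)) := by
      rw [← Real.exp_add]; push_cast [hc']; ring_nf
    rw [this]
    field_simp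
  rw [e1]
  refine le_trans (sum_le_sum fun c hc => ?_) (Real.sum_le_exp_of_nonneg (Nat.cast_nonneg r) N)
  have : ∑ k ∈ range (N - c), FF k c * Real.exp (-k) / k.factorial ≤ Real.exp c := by
    rcases c with _ | c
    · rcases N with _ | N
      · simp
      · simp [sum_range_succ', FF]
    · exact ih _ (by have := mem_range.1 hc; omega) _
  calc _ ≤ (r : ℝ) ^ c / c.factorial * Real.exp (-c) * Real.exp c := by gcongr
    _ = _ := by rw [mul_assoc, ← Real.exp_add]; simp

end Pool.Agent.H28.RT
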