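import Pool.Agent.H28.RT2

set_option autoImplicit false

namespace Pool.Agent.H28.RT
open Finset Classical

variable {V : Type} [Fintype V] [DecidableEq V]

def pr (k : ℕ) : ℕ := if k < 15 then k + 1 else if k = 16 then 8 else k - 1

def be (k : ℕ) : Bool := decide (k ∈ [0, 1, 2, 3, 6, 9, 11, 12, 13, 14, 17, 18])

def Bits (S : Finset V) : Finset (V → Bool) :=
  Fintype.piFinset fun x => if x ∈ S then univ else {false}

theorem mem_Bits {S : Finset V} {b : V → Bool} : b ∈ Bits S ↔ ∀ x, x ∉ S → b x = false := by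
  simp only [Bits, Fintype.mem_piFinset]
  refine forall_congr' fun x => ?_
  by_cases h : x ∈ S <;> simp [h]

theorem card_Bits (S : Finset V) : (Bits S).card = 2 ^ S.card := by
  rw [Bits, Fintype.card_piFinset]
  simp [apply_ite Finset.card]

noncomputable def Data (A R : Finset V) : Finset ((V → V) × (V → Bool)) := Fo A R ×ˢ Bits (A ∪ R)

theorem card_Data (A R : Finset V) (hd : Disjoint A R) :
    ((Data A R).card : ℝ) = FF A.card R.card * 2 ^ (A.card + R.card) := by
  rw [Data, card_product, card_Bits, card_union_of_disjoint hd]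
  push_cast
  rw [card_Fo _ A R rfl hd]

def Pat (q : (V → V) × (V → Bool)) (v : ℕ → V) : Prop :=
  ∃ φ : ℕ → V, (∀ i < 16, φ i = v i) ∧ (∀ a < 22, ∀ b < 22, φ a = φ b → a = b) ∧
    (∀ k, 16 ≤ k → k < 22 → q.1 (φ k) = φ (pr k)) ∧ (∀ k < 22, q.2 (φ k) = be k) ∧
    ∀ x, ∀ k < 22, q.1 x = φ k → ∃ j < 22, x = φ j

def res (S : Finset V) (q : (V → V) × (V → Bool)) : (V → V) × (V → Bool) :=
  (fun x => if x ∈ S then q.1 x else x, fun x => if x ∈ S then q.2 x else false)

theorem pr_lt : ∀ k < 22, 16 ≤ k → pr k < k := by decide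

omit [Fintype V] in
theorem pat_res {S : Finset V} {q : (V → V) × (V → Bool)} {v : ℕ → V}
    (hS : ∀ x, x ∈ S ↔ q.1 x ∈ S) (hv : ∀ i < 16, v i ∈ S) (h : Pat (res S q) v) : Pat q v := by
  obtain ⟨φ, h1, h2, h3, h4, h5⟩ := h
  have hm : ∀ k < 22, φ k ∈ S := by
    intro k hk
    by_cases h : k < 16
    · rw [h1 k h]; exact hv k h
    · by_contra hn
      have := h3 k (by omega) hk
      simp only [res, if_neg hn] at this
      have l := pr_lt k hk (by omega)
      have := h2 k hk _ (by omega) this
      omega
  refine ⟨φ, h1, h2, fun k a b => ?_, fun k a => ?_, fun x k a e => ?_⟩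
  · simpa [res, hm k b] using h3 k a b
  · simpa [res, hm k a] using h4 k a
  · have : x ∈ S := (hS x).2 (e ▸ hm k a)
    exact h5 x k a (by simp [res, this, e])

theorem split_card (A R B : Finset V) (hd : Disjoint A R) (hB : B ⊆ R)
    (P P1 P2 : (V → V) × (V → Bool) → Prop) [DecidablePred P] [DecidablePred P1]
    [DecidablePred P2]
    (hP : ∀ q S, (∀ x, x ∈ S ↔ q.1 x ∈ S) → S ∩ R = B → P q → P1 (res S q) ∧ P2 (res Sᶜ q)) :
    ((Data A R).filter P).card ≤ ∑ D ∈ A.powerset,
      ((Data D B).filter P1).card * ((Data (A \ D) (R \ B)).filter P2).card := by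
  rw [card_eq_sum_card_fiberwise (f := fun q => A.filter (Rch q.1 B)) (t := A.powerset)
    (fun p _ => mem_coe.2 (mem_powerset.2 (filter_subset _ _)))]
  refine sum_le_sum fun D hD => ?_
  rw [mem_powerset] at hD
  rw [← card_product]
  refine card_le_card_of_injOn (fun q => (res (D ∪ B) q, res (D ∪ B)ᶜ q)) ?_ ?_
  · rintro ⟨p, b⟩ hq
    simp only [coe_filter, Set.mem_ofPred_eq, mem_filter, Data, mem_product, mem_Fo,
      mem_Bits] at hq
    obtain ⟨⟨⟨⟨h1, h2⟩, h3⟩, h4⟩, h5⟩ := hq
    have hD' : ∀ x, x ∈ D ↔ x ∈ A ∧ Rch p B x := fun x => by rw [← h5]; simp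
    have fx : ∀ x, Rch p B x → p x = x → x ∈ B := by
      intro x hx
      induction hx with
      | base h => exact fun _ => h
      | @step y _ ih => intro e; rw [e] at ih; exact ih e
    have hS : ∀ x, x ∈ D ∪ B ↔ Rch p B x := by
      intro x
      rw [mem_union, hD']
      constructor
      · rintro (h | h)
        · exact h.2
        · exact .base h
      · intro h
        by_cases hx : x ∈ A
        · exact .inl ⟨hx, h⟩
        · exact .inr (fx x h (h1 x hx))
    have hR : ∀ x ∈ R, p x = x := fun x hx => h1 x fun h => disjoint_left.1 hd h hx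
    have hc : ∀ x, x ∈ D ∪ B ↔ p x ∈ D ∪ B := by
      intro x
      rw [hS, hS]
      refine ⟨fun h => ?_, .step⟩
      cases h with
      | base h => rw [hR x (hB h)]; exact .base h
      | step h => exact h
    have hi : (D ∪ B) ∩ R = B := by
      ext x
      simp only [mem_inter, mem_union]
      exact ⟨fun ⟨h, h'⟩ => h.resolve_left fun k => disjoint_left.1 hd (hD k) h',
        fun h => ⟨.inr h, hB h⟩⟩
    obtain ⟨k1, k2⟩ := hP (p, b) (D ∪ B) hc hi h4
    simp only [coe_product, Set.mem_prod, coe_filter, Set.mem_ofPred_eq, Data, mem_product, mem_Fo,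
      mem_Bits]
    refine ⟨⟨⟨⟨fun x hx => ?_, fun x hx => ⟨?_, ?_⟩⟩, fun x hx => ?_⟩, k1⟩,
      ⟨⟨fun x hx => ?_, fun x hx => ⟨?_, ?_⟩⟩, fun x hx => ?_⟩, k2⟩
    · simp only [res]
      split_ifs with h
      · exact hR x (hB ((mem_union.1 h).resolve_left hx))
      · rfl
    · have : x ∈ D ∪ B := mem_union_left _ hx
      simp only [res, if_pos this]
      exact (hc x).1 this
    · have : ∀ y, Rch p B y → Rch (res (D ∪ B) (p, b)).1 B y := by
        intro y hy
        induction hy with
        | base h => exact .base h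
        | @step y h ih =>
          have : y ∈ D ∪ B := (hS y).2 (.step h)
          exact .step (by simpa only [res, if_pos this] using ih)
      exact this x ((hD' x).1 hx).2
    · simp only [res, if_neg hx]
    · simp only [res]
      split_ifs with h
      · by_cases hx' : x ∈ A
        · exfalso
          simp only [mem_sdiff, mem_compl, mem_union] at hx h
          tauto
        · exact h1 x hx'
      · rfl
    · have hx' : x ∉ D ∪ B := by
        rw [mem_sdiff] at hx
        rw [mem_union]
        rintro (h | h)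
        · exact hx.2 h
        · exact disjoint_left.1 hd hx.1 (hB h)
      simp only [res, mem_compl, if_pos hx']
      have a1 := (h2 x (mem_sdiff.1 hx).1).1
      have a2 : p x ∉ D ∪ B := fun h => hx' ((hc x).2 h)
      simp only [mem_union, mem_sdiff] at a1 a2 ⊢
      tauto
    · have : ∀ y, Rch p R y → y ∉ D ∪ B → Rch (res (D ∪ B)ᶜ (p, b)).1 (R \ B) y := by
        intro y hy
        induction hy with
        | base h => exact fun h' => .base (mem_sdiff.2 ⟨h, fun k => h' (mem_union_right _ k)⟩)
        | @step y h ih =>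
          intro h'
          refine .step ?_
          simp only [res, mem_compl, if_pos h']
          simpa only [res, mem_compl] using ih fun k => h' ((hc y).2 k)
      refine this x (h2 x (mem_sdiff.1 hx).1).2 ?_
      rw [mem_sdiff] at hx
      rw [mem_union]
      rintro (h | h)
      · exact hx.2 h
      · exact disjoint_left.1 hd hx.1 (hB h)
    · simp only [res]
      split_ifs with h
      · refine h3 x ?_
        simp only [mem_union, mem_sdiff, mem_compl] at hx h ⊢
        tauto
      · rfl
  · rintro ⟨p, b⟩ - ⟨p', b'⟩ - h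
    simp only [res, Prod.mk.injEq, funext_iff, mem_compl] at h
    obtain ⟨⟨a1, a2⟩, a3, a4⟩ := h
    ext x
    · by_cases hx : x ∈ D ∪ B
      · simpa only [if_pos hx] using a1 x
      · simpa only [if_pos hx] using a3 x
    · by_cases hx : x ∈ D ∪ B
      · simpa only [if_pos hx] using a2 x
      · simpa only [if_pos hx] using a4 x

theorem exists_pat (D B : Finset V) (hd : Disjoint D B) (hD : D.card = 6) (v : ℕ → V)
    (hv : ∀ a < 16, ∀ b < 16, v a = v b → a = b) (hB : ∀ x, x ∈ B ↔ ∃ i < 16, v i = x) :
    ∃ q ∈ Data D B, Pat q v := by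
  obtain ⟨φ, f1, f2, f3⟩ : ∃ φ : ℕ → V, (∀ i < 16, φ i = v i) ∧
      (∀ a < 22, ∀ b < 22, φ a = φ b → a = b) ∧ ∀ x, x ∈ D ↔ ∃ k, 16 ≤ k ∧ k < 22 ∧ φ k = x := by
    let e : Fin 6 ≃ D := (D.equivFinOfCardEq hD).symm
    have hb : ∀ i < 16, ∀ j, v i ≠ e j := fun i hi j h =>
      disjoint_left.1 hd (e j).2 (h ▸ (hB _).2 ⟨i, hi, rfl⟩)
    refine ⟨fun k => if h : 16 ≤ k ∧ k < 22 then e ⟨k - 16, by omega⟩ else v k,
      fun i hi => by simp only; rw [dif_neg (by omega)], fun a ha b hb' h => ?_, fun x => ?_⟩
    · simp only at h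
      split_ifs at h with k1 k2 k2
      · have := e.injective (Subtype.ext h)
        simp only [Fin.mk.injEq] at this
        omega
      · exact absurd h.symm (hb _ (by omega) _)
      · exact absurd h (hb _ (by omega) _)
      · exact hv a (by omega) b (by omega) h
    · constructor
      · intro hx
        obtain ⟨j, hj⟩ := e.surjective ⟨x, hx⟩
        refine ⟨16 + j, by omega, by omega, ?_⟩
        simp only
        rw [dif_pos (by omega)]
        simp [hj]
      · rintro ⟨k, a, b, rfl⟩
        simp only
        rw [dif_pos ⟨a, b⟩]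
        exact (e _).2
  obtain ⟨ψ, hψ⟩ : ∃ ψ : V → ℕ, ∀ k < 22, ψ (φ k) = k := by
    refine ⟨fun x => if h : ∃ k < 22, φ k = x then h.choose else 0, fun k hk => ?_⟩
    have h : ∃ j < 22, φ j = φ k := ⟨k, hk, rfl⟩
    simp only
    rw [dif_pos h]
    exact f2 _ h.choose_spec.1 _ hk h.choose_spec.2
  have m1 : ∀ k < 16, φ k ∈ B := fun k hk => (hB _).2 ⟨k, hk, (f1 k hk).symm⟩
  have m2 : ∀ k, 16 ≤ k → k < 22 → φ k ∈ D := fun k a b => (f3 _).2 ⟨k, a, b, rfl⟩
  have m3 : ∀ k < 22, φ k ∈ D ∪ B := fun k hk => by
    by_cases h : k < 16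
    · exact mem_union_right _ (m1 k h)
    · exact mem_union_left _ (m2 k (by omega) hk)
  refine ⟨(fun x => if x ∈ D then φ (pr (ψ x)) else x, fun x => if x ∈ D ∪ B then be (ψ x) else false),
    ?_, φ, f1, f2, fun k a b => ?_, fun k a => ?_, fun x k a e => ?_⟩
  · simp only [Data, mem_product, mem_Fo, mem_Bits]
    refine ⟨⟨fun x hx => if_neg hx, fun x hx => ?_⟩, fun x hx => if_neg hx⟩
    obtain ⟨k, a, b, rfl⟩ := (f3 x).1 hx
    refine ⟨?_, ?_⟩
    · rw [if_pos hx, hψ k b]
      exact m3 _ (by have := pr_lt k b a; omega)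
    · have : ∀ k < 22, Rch (fun x => if x ∈ D then φ (pr (ψ x)) else x) B (φ k) := by
        intro k
        induction k using Nat.strong_induction_on with
        | _ k ih =>
        intro hk
        by_cases h : k < 16
        · exact .base (m1 k h)
        · have l := pr_lt k hk (by omega)
          refine .step ?_
          simp only [if_pos (m2 k (by omega) hk), hψ k hk]
          exact ih _ l (by omega)
      exact this k b
  · simp only [if_pos (m2 k a b), hψ k b]
  · simp only [if_pos (m3 k a), hψ k a]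
  · by_cases hx : x ∈ D
    · obtain ⟨j, -, b, rfl⟩ := (f3 x).1 hx
      exact ⟨j, b, rfl⟩
    · simp only [if_neg hx] at e
      exact ⟨k, a, e⟩

noncomputable def rho : ℝ := 1 - Real.exp (-6) / (Nat.factorial 6) / 2 ^ 22 / Real.exp 16

noncomputable def gg (d : ℕ) : ℝ := FF d 16 - if d = 6 then 1 / 2 ^ 22 else 0

theorem gg_nonneg (d : ℕ) : 0 ≤ gg d := by
  unfold gg
  split_ifs with h
  · subst h; norm_num [FF]
  · simpa using FF_nonneg d 16

theorem gg_sum (N : ℕ) :
    ∑ d ∈ range N, gg d * Real.exp (-d) / d.factorial ≤ Real.exp 16 * rho := by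
  calc _ ≤ ∑ d ∈ range (N + 7), gg d * Real.exp (-d) / d.factorial :=
        sum_le_sum_of_subset_of_nonneg (range_subset_range.2 (by omega))
          fun d _ _ => by have := gg_nonneg d; positivity
    _ = ∑ d ∈ range (N + 7), FF d 16 * Real.exp (-d) / d.factorial -
          Real.exp (-6) / (Nat.factorial 6) / 2 ^ 22 := by
        have : Real.exp (-6) / (Nat.factorial 6) / 2 ^ 22 = ∑ d ∈ range (N + 7),
            (if d = 6 then 1 / 2 ^ 22 else 0) * Real.exp (-d) / d.factorial := by
          rw [sum_eq_single 6 (fun b _ hb => by simp [hb]) (fun h => by simp at h)]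
          simp only [if_true]; push_cast; ring
        rw [this, ← sum_sub_distrib]
        refine sum_congr rfl fun d _ => ?_
        unfold gg; ring
    _ ≤ _ := by
        have := FF_sum (N + 7) 16
        have e : Real.exp 16 * rho = Real.exp 16 - Real.exp (-6) / (Nat.factorial 6) / 2 ^ 22 := by
          unfold rho; field_simp
        rw [e]; push_cast at this; linarith

theorem rho_lt : rho < 1 := by
  unfold rho
  have : 0 < Real.exp (-6) / (Nat.factorial 6) / 2 ^ 22 / Real.exp 16 := by positivity
  linarith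

theorem rho_nonneg : 0 ≤ rho := by
  have := gg_sum 0
  simp only [range_zero, sum_empty] at this
  exact nonneg_of_mul_nonneg_right this (Real.exp_pos _) |> fun h => h

theorem card_nopat (D B : Finset V) (hd : Disjoint D B) (v : ℕ → V)
    (hv : ∀ a < 16, ∀ b < 16, v a = v b → a = b) (hB : ∀ x, x ∈ B ↔ ∃ i < 16, v i = x)
    (hc : B.card = 16) :
    (((Data D B).filter fun q => ¬ Pat q v).card : ℝ) ≤ gg D.card * 2 ^ (D.card + 16) := by
  have h := card_Data D B hd
  rw [hc] at h
  unfold gg
  split_ifs with h6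
  · obtain ⟨q, hq, hp⟩ := exists_pat D B hd h6 v hv hB
    have : ((Data D B).filter fun q => ¬ Pat q v).card < (Data D B).card :=
      card_lt_card (filter_ssubset.2 ⟨q, hq, not_not.2 hp⟩)
    have : (((Data D B).filter fun q => ¬ Pat q v).card : ℝ) + 1 ≤ (Data D B).card := by
      exact_mod_cast this
    rw [h, h6] at this
    rw [h6, sub_mul]
    norm_num at this ⊢
    linarith
  · rw [sub_zero, ← h]
    exact_mod_cast card_filter_le _ _

theorem block_bound (v : ℕ → V) (m : ℕ) : ∀ A R : Finset V, Disjoint A R →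
    (∀ a < 16 * m, ∀ b < 16 * m, v a = v b → a = b) → (∀ i < 16 * m, v i ∈ R) →
    (((Data A R).filter fun q => ∀ t < m, ¬ Pat q fun i => v (16 * t + i)).card : ℝ) ≤
      2 ^ (A.card + R.card) * A.card.factorial * Real.exp (A.card + R.card) * rho ^ m := by
  induction m with
  | zero =>
    intro A R hd _ _
    have h1 := FF_sum (A.card + 1) R.card
    have h2 : FF A.card R.card * Real.exp (-A.card) / A.card.factorial ≤ Real.exp R.card :=
      le_trans (single_le_sum (f := fun a => FF a R.card * Real.exp (-a) / a.factorial)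
        (fun a _ => by have := FF_nonneg a R.card; positivity) (self_mem_range_succ _)) h1
    rw [div_le_iff₀ (by positivity), Real.exp_neg, ← div_eq_mul_inv,
      div_le_iff₀ (by positivity)] at h2
    simp only [Nat.not_lt_zero, false_imp_iff, implies_true, filter_true, pow_zero, mul_one]
    rw [card_Data A R hd, Real.exp_add]
    calc _ ≤ Real.exp R.card * A.card.factorial * Real.exp A.card * 2 ^ (A.card + R.card) := by
          gcongr
      _ = _ := by ring
  | succ m ih =>
    intro A R hd hv hR
    set B := (range 16).image fun i => v (16 * m + i) with hBd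
    have hB : ∀ x, x ∈ B ↔ ∃ i < 16, v (16 * m + i) = x := fun x => by simp [hBd]
    have hv' : ∀ a < 16, ∀ b < 16, v (16 * m + a) = v (16 * m + b) → a = b := fun a ha b hb h => by
      have := hv _ (by omega) _ (by omega) h; omega
    have hc : B.card = 16 := by
      rw [hBd, card_image_of_injOn, card_range]
      intro a ha b hb h
      exact hv' a (by simpa using ha) b (by simpa using hb) h
    have hBR : B ⊆ R := fun x hx => by
      obtain ⟨i, hi, rfl⟩ := (hB x).1 hx
      exact hR _ (by omega)
    have hR' : ∀ i < 16 * m, v i ∈ R \ B := fun i hi => by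
      refine mem_sdiff.2 ⟨hR _ (by omega), fun h => ?_⟩
      obtain ⟨j, hj, e⟩ := (hB _).1 h
      have := hv _ (by omega) _ (by omega) e
      omega
    have key := split_card A R B hd hBR (fun q => ∀ t < m + 1, ¬ Pat q fun i => v (16 * t + i))
      (fun q => ¬ Pat q fun i => v (16 * m + i)) (fun q => ∀ t < m, ¬ Pat q fun i => v (16 * t + i))
      (fun q S h1 h2 h3 => ⟨fun h => h3 m (by omega) (pat_res h1 (fun i hi => by
          have : v (16 * m + i) ∈ S ∩ R := h2 ▸ (hB _).2 ⟨i, hi, rfl⟩
          exact (mem_inter.1 this).1) h),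
        fun t ht h => h3 t (by omega) (pat_res (fun x => by simp [h1 x]) (fun i hi => by
          have := mem_sdiff.1 (hR' (16 * t + i) (by omega))
          refine mem_compl.2 fun k => this.2 ?_
          rw [← h2]; exact mem_inter.2 ⟨k, this.1⟩) h)⟩)
    have hr : B.card ≤ R.card := card_le_card hBR
    have cR : (R \ B).card = R.card - 16 := by rw [card_sdiff_of_subset hBR, hc]
    obtain ⟨r, hr'⟩ : ∃ r, R.card = r + 16 := ⟨R.card - 16, by omega⟩
    rw [hr', Nat.add_sub_cancel] at cR
    have key2 : (((Data A R).filter fun q => ∀ t < m + 1, ¬ Pat q fun i => v (16 * t + i)).card : ℝ)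
        ≤ ∑ D ∈ A.powerset, (fun d => gg d * 2 ^ (d + 16) * (2 ^ (A.card - d + r) *
          (A.card - d).factorial * Real.exp ((A.card - d : ℕ) + r) * rho ^ m)) D.card := by
      refine le_trans (Nat.cast_le.2 key) ?_
      push_cast
      refine sum_le_sum fun D hD => ?_
      rw [mem_powerset] at hD
      have i1 := card_nopat D B (hd.mono hD hBR) _ hv' hB hc
      have i2 := ih (A \ D) (R \ B) (hd.mono sdiff_subset sdiff_subset)
        (fun a ha b hb => hv a (by omega) b (by omega)) hR'
      rw [cR, card_sdiff_of_subset hD] at i2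
      have := gg_nonneg D.card
      have i3 := mul_le_mul i1 i2 (Nat.cast_nonneg _) (mul_nonneg this (pow_nonneg zero_le_two _))
      convert i3 using 3
    refine key2.trans ?_
    rw [sum_powerset_apply_card (fun d => gg d * 2 ^ (d + 16) * (2 ^ (A.card - d + r) *
          (A.card - d).factorial * Real.exp ((A.card - d : ℕ) + r) * rho ^ m))]
    have e : ∀ d ∈ range (A.card + 1), A.card.choose d • (gg d * 2 ^ (d + 16) *
        (2 ^ (A.card - d + r) * (A.card - d).factorial * Real.exp ((A.card - d : ℕ) + r) * rho ^ m)) =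
        (2 ^ (A.card + (r + 16)) * A.card.factorial * Real.exp (A.card + r) * rho ^ m) *
          (gg d * Real.exp (-d) / d.factorial) := by
      intro d hd'
      have hd' : d ≤ A.card := by simpa [Nat.lt_succ_iff] using hd'
      obtain ⟨k, hk⟩ := Nat.exists_eq_add_of_le hd'
      rw [nsmul_eq_mul, Nat.cast_choose ℝ hd', hk, Nat.add_sub_cancel_left]
      have : Real.exp (((d + k : ℕ) : ℝ) + r) = Real.exp (k + r) * Real.exp d := by
        rw [← Real.exp_add]; push_cast; ring_nf
      rw [this, Real.exp_neg]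
      field_simp
      ring
    rw [sum_congr rfl e, ← mul_sum, hr']
    have := rho_nonneg
    calc _ ≤ (2 ^ (A.card + (r + 16)) * A.card.factorial * Real.exp (A.card + r) * rho ^ m) *
          (Real.exp 16 * rho) := by gcongr; exact gg_sum _
      _ = _ := by
        have : Real.exp (A.card + ((r + 16 : ℕ) : ℝ)) = Real.exp (A.card + r) * Real.exp 16 := by
          rw [← Real.exp_add]; push_cast; ring_nf
        rw [this]; ring

end Pool.Agent.H28.RT
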