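import Pool.Agent.H28.RT1
import Pool.Agent.H28.RT3

set_option autoImplicit false
set_option linter.dupNamespace false

namespace Pool.Agent.H28.RT
open Finset Classical

variable {V : Type}

def Ori (par : V → V) (b : V → Bool) (x y : V) : Prop :=
  x ≠ y ∧ ((par x = y ∧ b x = true) ∨ (par y = x ∧ b y = false))

noncomputable def oriB (q : (V → V) × (V → Bool)) : V → V → Bool :=
  fun x y => decide (Ori q.1 q.2 x y)

theorem oriB_iff (q : (V → V) × (V → Bool)) (x y : V) : oriB q x y = true ↔ Ori q.1 q.2 x y := by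
  simp [oriB]

structure RT (par : V → V) (w : V) (dep : V → ℕ) : Prop where
  root : par w = w
  d0 : dep w = 0
  ds : ∀ x, x ≠ w → dep x = dep (par x) + 1

def IsT (E : V → V → Bool) : Prop :=
  (∀ a b, ¬ (E a b = true ∧ E b a = true)) ∧ (SimpleGraph.fromRel (fun a b => E a b = true)).IsTree

variable {par : V → V} {w : V} {dep : V → ℕ} {b : V → Bool}

theorem RT.ind (h : RT par w dep) (P : V → Prop) (h0 : P w) (h1 : ∀ x, x ≠ w → P (par x) → P x)
    (x : V) : P x := by
  have : ∀ n x, dep x = n → P x := by
    intro n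
    induction n with
    | zero =>
      intro x hx
      by_cases e : x = w
      · exact e ▸ h0
      · have := h.ds x e; omega
    | succ n ih =>
      intro x hx
      by_cases e : x = w
      · exact e ▸ h0
      · exact h1 x e (ih _ (by have := h.ds x e; omega))
  exact this _ x rfl

theorem RT.ne (h : RT par w dep) {x : V} (hx : x ≠ w) : x ≠ par x := fun e => by
  have := h.ds x hx; rw [← e] at this; omega

theorem RT.dep_of (h : RT par w dep) {x y : V} (e : par x = y) (hne : x ≠ y) :
    dep x = dep y + 1 := by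
  subst e
  exact h.ds x fun e => hne (by rw [e, h.root])

theorem RT.ori_par (h : RT par w dep) (b : V → Bool) {x : V} (hx : x ≠ w) :
    Ori par b x (par x) ∨ Ori par b (par x) x := by
  cases hb : b x
  · exact .inr ⟨(h.ne hx).symm, .inr ⟨rfl, hb⟩⟩
  · exact .inl ⟨h.ne hx, .inl ⟨rfl, hb⟩⟩

theorem RT.adj (h : RT par w dep) {x y : V} (ha : Ori par b x y ∨ Ori par b y x) :
    (par x = y ∧ dep x = dep y + 1) ∨ (par y = x ∧ dep y = dep x + 1) := by
  rcases ha with ⟨n, ⟨e, -⟩ | ⟨e, -⟩⟩ | ⟨n, ⟨e, -⟩ | ⟨e, -⟩⟩
  · exact .inl ⟨e, h.dep_of e n⟩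
  · exact .inr ⟨e, h.dep_of e n.symm⟩
  · exact .inr ⟨e, h.dep_of e n⟩
  · exact .inl ⟨e, h.dep_of e n.symm⟩

theorem RT.dep_iter (h : RT par w dep) (u : V) : ∀ i ≤ dep u, dep (par^[i] u) + i = dep u := by
  intro i
  induction i with
  | zero => simp
  | succ i ih =>
    intro hi
    have := ih (by omega)
    have hne : par^[i] u ≠ w := fun e => by rw [e, h.d0] at this; omega
    have := h.ds _ hne
    rw [Function.iterate_succ_apply']; omega

theorem RT.eq_root (h : RT par w dep) {x : V} (hx : dep x = 0) : x = w := by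
  by_contra e; have := h.ds x e; omega

theorem RT.iter_dep (h : RT par w dep) (u : V) : par^[dep u] u = w :=
  h.eq_root (by have := h.dep_iter u _ le_rfl; omega)

/-- a homomorphism fixing the root does not increase depth -/
theorem RT.hom_dep {par' : V → V} {dep' : V → ℕ} {b' : V → Bool} (h : RT par w dep)
    (h' : RT par' w dep') (ρ : V → V) (hw : ρ w = w)
    (hρ : ∀ x y, Ori par b x y → Ori par' b' (ρ x) (ρ y)) (x : V) : dep' (ρ x) ≤ dep x := by
  refine h.ind (fun x => dep' (ρ x) ≤ dep x) (by simp [hw, h'.d0]) (fun x hx ih => ?_) x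
  have := h.ds x hx
  have := h'.adj (b := b') ((h.ori_par b hx).imp (hρ _ _) (hρ _ _))
  omega

variable [Fintype V] [DecidableEq V]

theorem rep {E : V → V → Bool} (hE : IsT E) (w : V) :
    ∃ par b dep, RT par w dep ∧ E = oriB (par, b) := by
  obtain ⟨ha, ht⟩ := hE
  set G := SimpleGraph.fromRel (fun a b => E a b = true) with hG
  have hc := ht.connected
  have : ∀ x, ∃ y, (x = w → y = w) ∧ (x ≠ w → G.Adj x y ∧ G.dist x w = G.dist y w + 1) := by
    intro x
    by_cases e : x = w
    · exact ⟨w, fun _ => rfl, fun h => absurd e h⟩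
    obtain ⟨p, hp⟩ := hc.exists_walk_length_eq_dist x w
    cases p with
    | nil => exact absurd rfl e
    | @cons _ y _ hxy p =>
      refine ⟨y, fun h => absurd h e, fun _ => ⟨hxy, ?_⟩⟩
      have a1 := SimpleGraph.dist_le p
      have a2 := hc.dist_triangle (u := x) (v := y) (w := w)
      rw [SimpleGraph.dist_eq_one_iff_adj.2 hxy] at a2
      simp only [SimpleGraph.Walk.length_cons] at hp
      omega
  choose par p1 p2 using this
  have hR : RT par w (fun x => G.dist x w) := ⟨p1 w rfl, by simp, fun x hx => (p2 x hx).2⟩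
  have key : ∀ x y, G.Adj x y → par x = y ∨ par y = x := by
    have hs : (univ.erase w).image (fun x => s(x, par x)) = G.edgeFinset := by
      refine eq_of_subset_of_card_le ?_ ?_
      · intro e he
        obtain ⟨x, hx, rfl⟩ := mem_image.1 he
        simpa using (p2 x (mem_erase.1 hx).1).1
      · rw [card_image_of_injOn, card_erase_of_mem (mem_univ _), card_univ]
        · have := ht.card_edgeFinset; omega
        · intro x hx y hy e
          simp only [Sym2.eq_iff] at e
          rcases e with e | ⟨e1, e2⟩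
          · exact e.1
          · have a1 := hR.ds x (mem_erase.1 hx).1
            have a2 := hR.ds y (mem_erase.1 hy).1
            rw [e2] at a1; rw [← e1] at a2
            omega
    intro x y hxy
    have : s(x, y) ∈ G.edgeFinset := by simpa using hxy
    rw [← hs] at this
    obtain ⟨z, -, e⟩ := mem_image.1 this
    simp only [Sym2.eq_iff] at e
    rcases e with ⟨rfl, e⟩ | ⟨rfl, e⟩
    · exact .inl e
    · exact .inr e
  refine ⟨par, fun x => E x (par x), _, hR, ?_⟩
  funext x y
  rw [Bool.eq_iff_iff, oriB_iff]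
  constructor
  · intro h
    have hne : x ≠ y := fun e => ha x x ⟨by rw [← e] at h; exact h, by rw [← e] at h; exact h⟩
    refine ⟨hne, ?_⟩
    rcases key x y (by simp [hG, hne, h]) with e | e
    · exact .inl ⟨e, by simpa [e] using h⟩
    · refine .inr ⟨e, ?_⟩
      simp only [e]
      by_contra k
      exact ha x y ⟨h, by simpa using k⟩
  · rintro ⟨hne, ⟨e, h⟩ | ⟨e, h⟩⟩
    · simp only at e h
      rw [← e]; exact h
    · simp only at e h
      have hy : y ≠ w := fun k => hne (by rw [← e, k, hR.root])
      have := (p2 y hy).1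
      rw [e] at this h
      simp only [hG, SimpleGraph.fromRel_adj, h] at this
      simpa using this.2

omit [Fintype V] in
theorem RT_of_rch (hw : par w = w) (h : ∀ x, Rch par {w} x) : ∃ dep, RT par w dep := by
  have e : ∀ x, ∃ k, par^[k] x = w := fun x => by
    induction h x with
    | base h => exact ⟨0, by simpa using h⟩
    | step _ ih => obtain ⟨k, hk⟩ := ih; exact ⟨k + 1, hk⟩
  refine ⟨fun x => Nat.find (e x), hw, by simp [Nat.find_eq_zero], fun x hx => ?_⟩
  exact Nat.find_comp_succ (e x) (e (par x)) hx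

theorem RT.isT (h : RT par w dep) (b : V → Bool) : IsT (oriB (par, b)) := by
  refine ⟨fun x y ⟨h1, h2⟩ => ?_, ?_⟩
  · rw [oriB_iff] at h1 h2
    obtain ⟨n, ⟨e, f⟩ | ⟨e, f⟩⟩ := h1 <;> obtain ⟨-, ⟨e', f'⟩ | ⟨e', f'⟩⟩ := h2
    · have := h.dep_of e n; have := h.dep_of e' n.symm; omega
    · simp_all
    · simp_all
    · have := h.dep_of e n.symm; have := h.dep_of e' n; omega
  set G := SimpleGraph.fromRel (fun x y => oriB (par, b) x y = true) with hG
  have hc : G.Connected := by
    have hr : ∀ x, G.Reachable x w := by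
      refine h.ind _ (.refl _) fun x hx ih => .trans (SimpleGraph.Adj.reachable ?_) ih
      simp only [hG, SimpleGraph.fromRel_adj, oriB_iff]
      exact ⟨h.ne hx, h.ori_par b hx⟩
    haveI : Nonempty V := ⟨w⟩
    exact ⟨fun x y => (hr x).trans (hr y).symm⟩
  rw [SimpleGraph.isTree_iff_connected_and_card]
  refine ⟨hc, le_antisymm ?_ hc.card_vert_le_card_edgeSet_add_one⟩
  have : G.edgeFinset ⊆ (univ.erase w).image (fun x => s(x, par x)) := by
    intro e he
    induction e using Sym2.ind with
    | _ x y =>
    have : G.Adj x y := by simpa using he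
    simp only [hG, SimpleGraph.fromRel_adj, oriB_iff] at this
    rcases h.adj this.2 with ⟨e, k⟩ | ⟨e, k⟩
    · exact mem_image.2 ⟨x, by simp; rintro rfl; have := h.d0; omega, by rw [e]⟩
    · exact mem_image.2 ⟨y, by simp; rintro rfl; have := h.d0; omega, by rw [e, Sym2.eq_swap]⟩
  have a1 := (card_le_card this).trans card_image_le
  rw [card_erase_of_mem (mem_univ _), card_univ] at a1
  have a2 : 0 < Fintype.card V := Fintype.card_pos_iff.2 ⟨w⟩
  rw [Nat.card_eq_fintype_card (α := V), Nat.card_eq_fintype_card, ← SimpleGraph.edgeFinset_card]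
  omega

theorem total_ge (w : V) : (Fintype.card V : ℝ) ^ (Fintype.card V) * 2 ^ (Fintype.card V) ≤
    2 * (Fintype.card V : ℝ) ^ 2 * (univ.filter fun E : V → V → Bool => IsT E).card := by
  have hF : ∀ p ∈ Fo (univ.erase w) {w}, ∃ dep, RT p w dep := by
    intro p hp
    rw [mem_Fo] at hp
    refine RT_of_rch (hp.1 w (by simp)) fun x => ?_
    by_cases e : x = w
    · exact .base (by simp [e])
    · exact (hp.2 x (by simp [e])).2
  have h1 : (Fo (univ.erase w) {w} ×ˢ Bits (univ.erase w)).card ≤
      (univ.filter fun E : V → V → Bool => IsT E).card := by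
    refine card_le_card_of_injOn oriB ?_ ?_
    · rintro ⟨p, b⟩ hq
      obtain ⟨dep, h⟩ := hF p (mem_product.1 hq).1
      simpa using h.isT b
    · rintro ⟨p, b⟩ hq ⟨p', b'⟩ hq' e
      obtain ⟨dep, h⟩ := hF p (mem_product.1 hq).1
      obtain ⟨dep', h'⟩ := hF p' (mem_product.1 hq').1
      have e' : ∀ x y, Ori p b x y ↔ Ori p' b' x y := fun x y => by
        rw [← oriB_iff (p, b), e, oriB_iff]
      have d1 := h.hom_dep h' id rfl fun x y => (e' x y).1
      have d2 := h'.hom_dep h id rfl fun x y => (e' x y).2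
      have e1 : p = p' := by
        funext x
        by_cases hx : x = w
        · rw [hx, h.root, h'.root]
        rcases h'.adj (b := b') ((h.ori_par b hx).imp (e' _ _).1 (e' _ _).1) with k | k
        · exact k.1.symm
        · have := h.ds x hx; have := d1 (p x); have := d2 x
          simp only [id] at *; omega
      subst e1
      congr 1
      funext x
      by_cases hx : x = w
      · exact (mem_Bits.1 (mem_product.1 hq).2 x (by simp [hx])).trans
          (mem_Bits.1 (mem_product.1 hq').2 x (by simp [hx])).symm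
      have := e' x (p x)
      have k : p (p x) ≠ x := fun k => by
        have := h.dep_of k (h.ne hx).symm; have := h.ds x hx; omega
      simpa [Ori, h.ne hx, k] using this
  rw [card_product, card_Bits] at h1
  have h2 : ((Fo (univ.erase w) {w}).card : ℝ) * 2 ^ (univ.erase w).card ≤
      (univ.filter fun E : V → V → Bool => IsT E).card := by exact_mod_cast h1
  rw [card_Fo _ _ _ rfl (by simp), card_erase_of_mem (mem_univ _), card_univ, card_singleton] at h2
  obtain ⟨m, hm⟩ : ∃ m, Fintype.card V = m + 1 :=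
    ⟨_, (Nat.succ_pred_eq_of_pos (Fintype.card_pos_iff.2 ⟨w⟩)).symm⟩
  rw [hm] at h2 ⊢
  refine le_trans (le_of_eq ?_) (mul_le_mul_of_nonneg_left h2 (by positivity))
  rcases m with _ | m
  · simp [FF]
  · simp [FF]; ring

end Pool.Agent.H28.RT
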