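import Pool.Agent.H28.RT4

set_option autoImplicit false
set_option linter.dupNamespace false

namespace Pool.Agent.H28.RT
open Finset Classical

variable {V : Type} [DecidableEq V] {par : V → V} {w : V} {dep : V → ℕ} {b : V → Bool}

def cut (P : Finset V) (q : (V → V) × (V → Bool)) : (V → V) × (V → Bool) :=
  (fun x => if x ∈ P then x else q.1 x, q.2)

theorem RT.no_pat (h : RT par w dep) {s : V → V → V → V → V} (hs : Poly (Ori par b) s)
    (hS : ∀ a r e, s a r e a = s r a r e) (u : V) (P : Finset V)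
    (hP : ∀ x, x ∈ P ↔ ∃ i ≤ dep u, par^[i] u = x) (hid : ∀ x ∈ P, s x x x x = x)
    (t : ℕ) (ht : 16 * t + 15 ≤ dep u) (v : ℕ → V) (hv : ∀ i < 16, v i = par^[16 * t + i] u) :
    ¬ Pat (cut P (par, b)) v := by
  rintro ⟨φ, f1, f2, f3, f4, f5⟩
  simp only [cut] at f3 f4 f5
  have g1 : ∀ i < 16, φ i = par^[16 * t + i] u := fun i hi => (f1 i hi).trans (hv i hi)
  have m1 : ∀ i < 16, φ i ∈ P := fun i hi => (hP _).2 ⟨_, by omega, (g1 i hi).symm⟩
  have m2 : ∀ k < 22, φ k ∈ P → k < 16 := by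
    intro k hk hm
    by_contra hn
    have := f3 k (by omega) hk
    rw [if_pos hm] at this
    have l := pr_lt k hk (by omega)
    have := f2 k hk _ (by omega) this
    omega
  have pl : ∀ k < 22, pr k < 22 := by decide
  have H1 : ∀ k < 22, k ≠ 15 → par (φ k) = φ (pr k) := by
    intro k hk hk'
    by_cases h16 : k < 16
    · have : pr k = k + 1 := if_pos (by omega)
      rw [this, g1 k h16, g1 _ (by omega), ← add_assoc, Function.iterate_succ_apply']
    · have := f3 k (by omega) hk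
      rwa [if_neg fun hm => h16 (m2 k hk hm)] at this
  have H2 : ∀ a < 22, a ≠ 0 → ∀ y, par y = φ a → y ≠ φ a →
      ∃ k < 22, k ≠ 15 ∧ pr k = a ∧ y = φ k := by
    intro a ha ha0 y e hne
    by_cases hy : y ∈ P
    · obtain ⟨i, hi, rfl⟩ := (hP y).1 hy
      have d1 := h.dep_of e hne
      have d2 := h.dep_iter u i hi
      have hi' : i + 1 ≤ dep u := by omega
      rw [← Function.iterate_succ_apply' par] at e
      have a16 := m2 a ha ((hP _).2 ⟨_, hi', e⟩)
      have d3 := h.dep_iter u (16 * t + a) (by omega)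
      rw [← g1 a a16] at d3
      refine ⟨a - 1, by omega, by omega, ?_, ?_⟩
      · unfold pr; rw [if_pos (by omega)]; omega
      · rw [g1 _ (by omega)]; congr 1; omega
    · obtain ⟨j, hj, rfl⟩ := f5 y a ha (by rw [if_neg hy, e])
      have j16 : ¬ j < 16 := fun k => hy (m1 j k)
      rw [H1 j hj (by omega)] at e
      exact ⟨j, hj, by omega, f2 _ (pl j hj) _ ha e, rfl⟩
  have A1 : ∀ p ∈ arcs, p.1 < 22 ∧ p.2 < 22 ∧ p.1 ≠ p.2 ∧
      ((p.1 ≠ 15 ∧ pr p.1 = p.2 ∧ be p.1 = true) ∨ (p.2 ≠ 15 ∧ pr p.2 = p.1 ∧ be p.2 = false)) := by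
    decide
  have A2 : ∀ k < 22, k ≠ 15 → (be k = true → (k, pr k) ∈ arcs ∧ (pr k, k) ∈ sarcs) ∧
      (be k = false → (pr k, k) ∈ arcs ∧ (k, pr k) ∈ sarcs) := by
    intro k hk
    interval_cases k <;> decide
  refine local_false hs (φ := φ) ⟨fun p hp => ?_, fun a ha a0 a15 y hy => ?_,
    fun a ha a0 a15 y hy => ?_, f2⟩ (fun c hc => hid _ (m1 c hc)) hS
  · obtain ⟨a1, a2, a3, a4⟩ := A1 p hp
    refine ⟨fun e => a3 (f2 _ a1 _ a2 e), ?_⟩
    rcases a4 with ⟨b1, b2, b3⟩ | ⟨b1, b2, b3⟩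
    · exact .inl ⟨by rw [H1 _ a1 b1, b2], by rw [f4 _ a1, b3]⟩
    · exact .inr ⟨by rw [H1 _ a2 b1, b2], by rw [f4 _ a2, b3]⟩
  · obtain ⟨hne, ⟨e, c⟩ | ⟨e, c⟩⟩ := hy
    · rw [f4 a ha] at c
      exact ⟨pr a, ((A2 a ha a15).1 c).1, by rw [← e, H1 a ha a15]⟩
    · obtain ⟨k, hk, k15, rfl, rfl⟩ := H2 a ha a0 y e hne.symm
      rw [f4 k hk] at c
      exact ⟨k, ((A2 k hk k15).2 c).1, rfl⟩
  · obtain ⟨hne, ⟨e, c⟩ | ⟨e, c⟩⟩ := hy
    · obtain ⟨k, hk, k15, rfl, rfl⟩ := H2 a ha a0 y e hne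
      rw [f4 k hk] at c
      exact ⟨k, ((A2 k hk k15).1 c).2, rfl⟩
    · rw [f4 a ha] at c
      exact ⟨pr a, ((A2 a ha a15).2 c).2, by rw [← e, H1 a ha a15]⟩

def ex {d : ℕ} (f : Fin (d + 1) ↪ V) (i : ℕ) : V := if h : i < d + 1 then f ⟨i, h⟩ else f 0

omit [DecidableEq V] in
theorem mem_map_ex {d : ℕ} (f : Fin (d + 1) ↪ V) (x : V) :
    x ∈ univ.map f ↔ ∃ i ≤ d, ex f i = x := by
  simp only [mem_map, mem_univ, true_and]
  constructor
  · rintro ⟨i, rfl⟩
    exact ⟨i, by omega, by rw [ex, dif_pos i.2]⟩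
  · rintro ⟨i, hi, rfl⟩
    exact ⟨⟨i, by omega⟩, by rw [ex, dif_pos]⟩

omit [DecidableEq V] in
theorem ex_inj {d : ℕ} (f : Fin (d + 1) ↪ V) : ∀ a ≤ d, ∀ b ≤ d, ex f a = ex f b → a = b := by
  intro a ha b hb h
  rw [ex, ex, dif_pos (by omega), dif_pos (by omega)] at h
  simpa using f.injective h

variable [Fintype V]

noncomputable def Fib {d : ℕ} (f : Fin (d + 1) ↪ V) : Finset ((V → V) × (V → Bool)) :=
  univ.filter fun q => (∀ i < d, q.1 (ex f i) = ex f (i + 1)) ∧ q.1 (ex f d) = ex f d ∧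
    cut (univ.map f) q ∈ Data (univ.map f)ᶜ (univ.map f)

theorem card_fib {d : ℕ} (f : Fin (d + 1) ↪ V) (Q : (V → V) × (V → Bool) → Prop) [DecidablePred Q] :
    ((Fib f).filter fun q => Q (cut (univ.map f) q)).card ≤
      ((Data (univ.map f)ᶜ (univ.map f)).filter Q).card := by
  refine card_le_card_of_injOn (cut (univ.map f)) ?_ ?_
  · intro q hq
    simp only [Fib, coe_filter, mem_filter, Set.mem_ofPred_eq] at hq ⊢
    exact ⟨hq.1.2.2.2, hq.2⟩
  · rintro ⟨p, b⟩ hq ⟨p', b'⟩ hq' e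
    simp only [Fib, coe_filter, mem_filter, Set.mem_ofPred_eq] at hq hq'
    simp only [cut, Prod.mk.injEq] at e
    refine Prod.ext ?_ e.2
    funext x
    by_cases hx : x ∈ univ.map f
    · obtain ⟨i, hi, rfl⟩ := (mem_map_ex f x).1 hx
      rcases hi.lt_or_eq with k | rfl
      · exact (hq.1.2.1 i k).trans (hq'.1.2.1 i k).symm
      · exact hq.1.2.2.1.trans hq'.1.2.2.1.symm
    · simpa only [if_neg hx] using congrFun e.1 x

theorem RT.cover (h : RT par w dep) (b : V → Bool) (u : V) :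
    ∃ f : Fin (dep u + 1) ↪ V, (∀ i ≤ dep u, ex f i = par^[i] u) ∧ (par, b) ∈ Fib f := by
  let f : Fin (dep u + 1) ↪ V := ⟨fun i => par^[i] u, fun i j e => by
    have a1 := h.dep_iter u i (by omega)
    have a2 := h.dep_iter u j (by omega)
    simp only at e
    rw [e] at a1
    exact Fin.ext (by omega)⟩
  have hf : ∀ i ≤ dep u, ex f i = par^[i] u := fun i hi => by
    rw [ex, dif_pos (by omega)]; rfl
  refine ⟨f, hf, ?_⟩
  simp only [Fib, mem_filter, mem_univ, true_and, Data, mem_product, mem_Fo, mem_Bits]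
  refine ⟨fun i hi => ?_, ?_, ⟨fun x hx => ?_, fun x hx => ⟨by rw [union_comm, union_compl]; exact mem_univ _, ?_⟩⟩,
    fun x hx => absurd (by rw [union_comm, union_compl]; exact mem_univ _) hx⟩
  · rw [hf i hi.le, hf _ hi, Function.iterate_succ_apply']
  · rw [hf _ le_rfl, h.iter_dep, h.root]
  · exact if_pos (by simpa only [mem_compl, not_not] using hx)
  · refine h.ind (fun x => Rch (cut (univ.map f) (par, b)).1 (univ.map f) x) ?_ ?_ x
    · exact .base ((mem_map_ex f w).2 ⟨_, le_rfl, by rw [hf _ le_rfl, h.iter_dep]⟩)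
    · intro x _ ih
      by_cases hx : x ∈ univ.map f
      · exact .base hx
      · exact .step (by simpa only [cut, if_neg hx] using ih)

def Small (h : ℕ) (E : V → V → Bool) : Prop :=
  ∀ L : V → ℤ, (∀ x y, E x y = true → L y = L x + 1) → ∀ u w, L u - L w ≤ h

def Long (k : ℕ) (E : V → V → Bool) : Prop :=
  ∃ d, ∃ f : Fin (d + 1) ↪ V, 16 * k ≤ d ∧ ∃ q ∈ Fib f, E = oriB q ∧
    ∀ t < k, ¬ Pat (cut (univ.map f) q) fun i => ex f (16 * t + i)

omit [DecidableEq V] in
theorem exists_per (e : V → V) (x : V) : ∃ a c, 0 < c ∧ Function.IsPeriodicPt e c (e^[a] x) := by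
  obtain ⟨a, b, hne, h⟩ := Finite.exists_ne_map_eq_of_infinite fun k : ℕ => e^[k] x
  wlog hab : a < b generalizing a b
  · exact this b a hne.symm h.symm (by omega)
  refine ⟨a, b - a, by omega, ?_⟩
  rw [Function.IsPeriodicPt, Function.IsFixedPt, ← Function.iterate_add_apply, Nat.sub_add_cancel hab.le]
  exact h.symm

theorem dichot {E : V → V → Bool} (hE : IsT E) (s : V → V → V → V → V)
    (hS : ∀ a r e, s a r e a = s r a r e) (hs : Poly (fun x y => E x y = true) s) (k : ℕ) :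
    Small (16 * k) E ∨ Long k E := by
  by_contra hn
  rw [not_or] at hn
  obtain ⟨h1, h2⟩ := hn
  simp only [Small, not_forall, not_le] at h1
  obtain ⟨L, hL, u0, w0, h1⟩ := h1
  haveI : Nonempty V := ⟨u0⟩
  obtain ⟨top, ht⟩ := Finite.exists_max L
  obtain ⟨bot, hb⟩ := Finite.exists_min L
  set e : V → V := fun x => s x x x x with he
  have eh : ∀ x y, E x y = true → E (e x) (e y) = true := fun x y h => hs _ _ _ _ _ _ _ _ h h h h
  have ehi : ∀ n x y, E x y = true → E (e^[n] x) (e^[n] y) = true := by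
    intro n
    induction n with
    | zero => exact fun _ _ h => h
    | succ n ih => intro x y h; exact ih _ _ (eh _ _ h)
  have eL : ∀ x, L (e x) = L x := by
    obtain ⟨par, b, dep, hR, rfl⟩ := rep hE u0
    have hc : ∀ x, L (e x) - L x = L (e u0) - L u0 := by
      refine hR.ind _ rfl fun x hx ih => ?_
      rcases hR.ori_par b hx with k | k
      · have k := (oriB_iff (par, b) _ _).2 k
        have := hL _ _ k; have := hL _ _ (eh _ _ k); omega
      · have k := (oriB_iff (par, b) _ _).2 k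
        have := hL _ _ k; have := hL _ _ (eh _ _ k); omega
    intro x
    have := hc x; have := hc top; have := hc bot; have := ht (e top); have := hb (e bot)
    omega
  have eLi : ∀ n x, L (e^[n] x) = L x := by
    intro n
    induction n with
    | zero => exact fun _ => rfl
    | succ n ih => intro x; rw [Function.iterate_succ_apply, ih, eL]
  obtain ⟨a1, c1, p1, q1⟩ := exists_per e top
  obtain ⟨a2, c2, p2, q2⟩ := exists_per e bot
  set u := e^[a1] top
  set w := e^[a2] bot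
  obtain ⟨m, hm⟩ : ∃ m, c1 * c2 = m + 1 := ⟨_, (Nat.succ_pred_eq_of_pos (Nat.mul_pos p1 p2)).symm⟩
  have fu : e^[m + 1] u = u := hm ▸ q1.mul_const c2
  have fw : e^[m + 1] w = w := hm ▸ q2.const_mul c1
  have Lu : L u = L top := eLi _ _
  have Lw : L w = L bot := eLi _ _
  obtain ⟨par, b, dep, hR, rfl⟩ := rep hE w
  simp only [oriB_iff] at hL ehi hs
  have dL : ∀ x, L x - L w ≤ dep x := by
    refine hR.ind _ (by simp) fun x hx ih => ?_
    have := hR.ds x hx
    rcases hR.ori_par b hx with k | k <;> have := hL _ _ k <;> omega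
  have hk : 16 * k ≤ dep u := by
    have := dL u; have := ht u0; have := hb w0
    push_cast at h1; omega
  have hd := hR.hom_dep hR (e^[m + 1]) fw (ehi _)
  have fix : ∀ i ≤ dep u, e^[m + 1] (par^[i] u) = par^[i] u := by
    intro i
    induction i with
    | zero => exact fun _ => fu
    | succ i ih =>
      intro hi
      have d1 := hR.dep_iter u i (by omega)
      have hne : par^[i] u ≠ w := fun e => by rw [e, hR.d0] at d1; omega
      have := hR.adj (b := b) ((hR.ori_par b hne).imp (ehi (m + 1) _ _) (ehi (m + 1) _ _))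
      rw [ih (by omega)] at this
      rw [Function.iterate_succ_apply' par]
      rcases this with k | k
      · exact k.1.symm
      · have := hd (par (par^[i] u)); have := hR.ds _ hne; omega
  obtain ⟨f, hf, hq⟩ := hR.cover b u
  refine h2 ⟨dep u, f, hk, _, hq, rfl, fun t ht => ?_⟩
  have hP : ∀ x, x ∈ univ.map f ↔ ∃ i ≤ dep u, par^[i] u = x := fun x => by
    rw [mem_map_ex]
    exact exists_congr fun i => and_congr_right fun hi => by rw [hf i hi]
  refine hR.no_pat (s := fun x y z t => e^[m] (s x y z t))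
    (fun _ _ _ _ _ _ _ _ a b c d => ehi _ _ _ (hs _ _ _ _ _ _ _ _ a b c d))
    (fun a r e => by rw [hS]) u _ hP (fun x hx => ?_) t (by omega) _ fun i hi => hf _ (by omega)
  obtain ⟨i, hi, rfl⟩ := (hP x).1 hx
  exact fix i hi

end Pool.Agent.H28.RT
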