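import Pool.Agent.H28.RT5

set_option autoImplicit false
set_option linter.dupNamespace false

namespace Pool.Agent.H28.RT
open Finset Classical

variable {V : Type} [DecidableEq V] [Fintype V]

theorem card_long (k : ℕ) : ((univ.filter fun E : V → V → Bool => Long k E).card : ℝ) ≤
    Fintype.card V * ((Fintype.card V).factorial * (2 ^ Fintype.card V *
      Real.exp (Fintype.card V) * rho ^ k)) := by
  set n := Fintype.card V with hn
  have h1 : (univ.filter fun E : V → V → Bool => Long k E) ⊆ (range n).biUnion fun d =>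
      (univ : Finset (Fin (d + 1) ↪ V)).biUnion fun f => ((Fib f).filter fun q =>
        16 * k ≤ d ∧ ∀ t < k, ¬ Pat (cut (univ.map f) q) fun i => ex f (16 * t + i)).image oriB := by
    intro E hE
    obtain ⟨d, f, h1, q, h2, h3, h4⟩ := (mem_filter.1 hE).2
    have := Fintype.card_le_of_embedding f
    rw [Fintype.card_fin] at this
    exact mem_biUnion.2 ⟨d, mem_range.2 (by omega), mem_biUnion.2 ⟨f, mem_univ _,
      mem_image.2 ⟨q, mem_filter.2 ⟨h2, h1, h4⟩, h3.symm⟩⟩⟩
  refine le_trans (Nat.cast_le.2 ((card_le_card h1).trans card_biUnion_le)) ?_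
  push_cast
  refine le_trans (sum_le_card_nsmul _ _ _ fun d hd => ?_) (by rw [card_range, nsmul_eq_mul])
  refine le_trans (Nat.cast_le.2 card_biUnion_le) ?_
  push_cast
  have hd' : d + 1 ≤ n := mem_range.1 hd
  have := rho_nonneg
  refine le_trans (sum_le_card_nsmul _ _ ((n - (d + 1)).factorial * (2 ^ n * Real.exp n * rho ^ k))
    fun f _ => ?_) ?_
  · refine le_trans (Nat.cast_le.2 card_image_le) ?_
    by_cases hk : 16 * k ≤ d
    · have a1 := card_fib f (fun q => ∀ t < k, ¬ Pat q fun i => ex f (16 * t + i))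
      have a2 := block_bound (ex f) k (univ.map f)ᶜ (univ.map f) disjoint_compl_left
        (fun a ha b hb => ex_inj f a (by omega) b (by omega))
        (fun i hi => (mem_map_ex f _).2 ⟨i, by omega, rfl⟩)
      rw [← Nat.cast_add, card_compl_add_card, card_compl, card_map, card_univ,
        Fintype.card_fin] at a2
      simp only [hk, true_and]
      have a3 := (Nat.cast_le (α := ℝ).2 a1).trans (by convert a2)
      exact a3.trans_eq (by rw [← hn]; ring)
    · simp only [hk, false_and, filter_false, card_empty, Nat.cast_zero]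
      positivity
  · rw [card_univ, Fintype.card_embedding_eq, Fintype.card_fin, nsmul_eq_mul, ← mul_assoc,
      ← Nat.cast_mul, mul_comm (Nat.descFactorial _ _), Nat.factorial_mul_descFactorial hd']

def sg (b : Bool) : ℤ := if b then -1 else 1

theorem bits_bound (v : ℕ → V) (d h : ℕ) (hv : ∀ a < d, ∀ b < d, v a = v b → a = b) :
    (univ.filter fun b : V → Bool => |∑ i ∈ range d, sg (b (v i))| ≤ h).card ≤
      (2 * h + 2) * d.choose (d / 2) * 2 ^ (Fintype.card V - d) := by
  set S := (range d).image v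
  have hi : Set.InjOn v (range d) := fun a ha b hb => hv a (by simpa using ha) b (by simpa using hb)
  have hc : S.card = d := by rw [card_image_of_injOn hi, card_range]
  have h1 : (((Ico (d / 2 - h) (d / 2 + h + 2)).biUnion fun t => S.powersetCard t) ×ˢ
      Sᶜ.powerset).card ≤ (2 * h + 2) * d.choose (d / 2) * 2 ^ (Fintype.card V - d) := by
    rw [card_product, card_powerset, card_compl, hc]
    refine Nat.mul_le_mul_right _ (card_biUnion_le.trans ?_)
    refine (sum_le_card_nsmul _ _ (d.choose (d / 2)) fun t _ => ?_).trans ?_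
    · rw [card_powersetCard, hc]; exact Nat.choose_le_middle _ _
    · rw [Nat.card_Ico, smul_eq_mul]; exact Nat.mul_le_mul_right _ (by omega)
  refine le_trans (card_le_card_of_injOn
    (fun b => (S.filter fun x => b x = true, Sᶜ.filter fun x => b x = true)) ?_ ?_) h1
  · intro b hb
    simp only [coe_filter, mem_univ, true_and, Set.mem_ofPred_eq] at hb
    rw [← sum_image (f := fun x => sg (b x)) hi] at hb
    have e : ∑ x ∈ S, sg (b x) = d - 2 * ((S.filter fun x => b x = true).card : ℤ) := by
      have : ∀ x, sg (b x) = 1 - 2 * if b x = true then 1 else 0 := fun x => by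
        unfold sg; split_ifs <;> rfl
      simp only [this, sum_sub_distrib, ← mul_sum, sum_boole]
      simp [hc]
    rw [e, abs_le] at hb
    simp only [coe_product, Set.mem_prod, mem_coe, mem_biUnion, mem_powerset, mem_powersetCard,
      mem_Ico]
    exact ⟨⟨_, by omega, filter_subset _ _, rfl⟩, filter_subset _ _⟩
  · intro b _ b' _ e
    simp only [Prod.mk.injEq, Finset.ext_iff, mem_filter, mem_compl] at e
    funext x
    rw [Bool.eq_iff_iff]
    have := e.1 x
    have := e.2 x
    tauto

theorem choose_mid (d : ℕ) : d.choose (d / 2) ^ 2 * d ≤ 4 ^ d := by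
  have h : ∀ m, m.centralBinom ^ 2 * (2 * m + 1) ≤ 16 ^ m := by
    intro m
    induction m with
    | zero => simp
    | succ m ih =>
      have e := Nat.succ_mul_centralBinom_succ m
      have : (m + 1) ^ 2 * ((m + 1).centralBinom ^ 2 * (2 * (m + 1) + 1)) ≤
          (m + 1) ^ 2 * 16 ^ (m + 1) := by
        calc _ = ((m + 1) * (m + 1).centralBinom) ^ 2 * (2 * m + 3) := by ring
          _ = 4 * ((2 * m + 1) * (2 * m + 3)) * (m.centralBinom ^ 2 * (2 * m + 1)) := by
            rw [e]; ring
          _ ≤ 4 * (4 * (m + 1) ^ 2) * 16 ^ m :=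
            Nat.mul_le_mul (Nat.mul_le_mul_left _ (by nlinarith)) ih
          _ = _ := by ring
      exact Nat.le_of_mul_le_mul_left this (by positivity)
  obtain ⟨m, rfl | rfl⟩ := Nat.even_or_odd' d
  · rw [Nat.mul_div_cancel_left _ two_pos, pow_mul]
    exact le_trans (Nat.mul_le_mul_left _ (by omega)) (h m)
  · have e : (2 * m + 1) / 2 = m := by omega
    have : (2 * m + 1).choose m ≤ 2 * m.centralBinom := by
      rw [← Nat.choose_symm_half, Nat.choose_succ_succ', two_mul m.centralBinom]
      have := Nat.choose_le_centralBinom m m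
      have := Nat.choose_le_centralBinom (m + 1) m
      omega
    rw [e, pow_succ 4, pow_mul]
    calc _ ≤ (2 * m.centralBinom) ^ 2 * (2 * m + 1) := by gcongr
      _ = m.centralBinom ^ 2 * (2 * m + 1) * 4 := by ring
      _ ≤ _ := Nat.mul_le_mul_right _ (h m)

theorem FF_mul (n j : ℕ) (h : j ≤ n) : FF (n - j) j * n = j * (n : ℝ) ^ (n - j) := by
  unfold FF
  split_ifs with e
  · have : n = j := by omega
    simp [this]
  · obtain ⟨k, hk⟩ : ∃ k, n - j = k + 1 := ⟨n - j - 1, by omega⟩
    rw [← Nat.cast_add, Nat.sub_add_cancel h, hk, Nat.add_sub_cancel]; ring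

theorem tele (n : ℕ) :
    ∑ d ∈ range n, (n.descFactorial (d + 1) : ℝ) * FF (n - (d + 1)) (d + 1) ≤ (n : ℝ) ^ n := by
  rcases n.eq_zero_or_pos with rfl | hn
  · simp
  have hn' : (0 : ℝ) < n := by exact_mod_cast hn
  have : ∀ d ∈ range n, (n.descFactorial (d + 1) : ℝ) * FF (n - (d + 1)) (d + 1) =
      (fun j => (n.descFactorial (j + 1) : ℝ) * (n : ℝ) ^ (n - (j + 1))) d -
      (fun j => (n.descFactorial (j + 1) : ℝ) * (n : ℝ) ^ (n - (j + 1))) (d + 1) := by
    intro d hd
    have hd : d + 1 ≤ n := mem_range.1 hd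
    refine mul_right_cancel₀ hn'.ne' ?_
    rw [mul_assoc, FF_mul n _ hd]
    simp only
    rw [Nat.descFactorial_succ n (d + 1)]
    push_cast [hd]
    rcases hd.lt_or_eq with k | k
    · obtain ⟨m, hm⟩ : ∃ m, n - (d + 1) = m + 1 := ⟨n - (d + 1) - 1, by omega⟩
      rw [hm, show n - (d + 1 + 1) = m by omega]; ring
    · subst k; simp
  rw [sum_congr rfl this, sum_range_sub']
  obtain ⟨m, rfl⟩ : ∃ m, n = m + 1 := ⟨n - 1, by omega⟩
  simp [pow_succ']

theorem card_small (k : ℕ) (hk : 0 < k) (hV : 0 < Fintype.card V) :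
    ((univ.filter fun E : V → V → Bool => IsT E ∧ Small (16 * k) E).card : ℝ) *
      (Fintype.card V : ℝ) ^ 2 ≤ (Fintype.card V : ℝ) ^ (Fintype.card V) * 2 ^ (Fintype.card V) *
        ((k : ℝ) ^ 8 / Fintype.card V + 34 / k) := by
  set n := Fintype.card V with hn
  have h1 : (univ.filter fun E : V → V → Bool => IsT E ∧ Small (16 * k) E) ×ˢ (univ : Finset (V × V))
      ⊆ (range n).biUnion fun d => (univ : Finset (Fin (d + 1) ↪ V)).biUnion fun f =>
        ((Fib f).filter fun q => |∑ i ∈ range d, sg (q.2 (ex f i))| ≤ (16 * k : ℕ)).image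
          fun q => (oriB q, ex f 0, ex f d) := by
    rintro ⟨E, u, w⟩ hE
    obtain ⟨hT, hS⟩ := (mem_filter.1 (mem_product.1 hE).1).2
    obtain ⟨par, b, dep, hR, rfl⟩ := rep hT w
    obtain ⟨f, hf, hq⟩ := hR.cover b u
    have := Fintype.card_le_of_embedding f
    rw [Fintype.card_fin] at this
    refine mem_biUnion.2 ⟨dep u, mem_range.2 (by omega), mem_biUnion.2 ⟨f, mem_univ _,
      mem_image.2 ⟨_, mem_filter.2 ⟨hq, ?_⟩, by rw [hf _ le_rfl, hf 0 (by omega), hR.iter_dep]; rfl⟩⟩⟩
    have l1 : ∀ x, x ≠ w → ∑ i ∈ range (dep x), sg (b (par^[i] x)) =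
        ∑ i ∈ range (dep (par x)), sg (b (par^[i] (par x))) + sg (b x) := fun x hx => by
      rw [hR.ds x hx, sum_range_succ']; rfl
    have := hS (fun x => ∑ i ∈ range (dep x), sg (b (par^[i] x))) (fun x y hxy => by
      rw [oriB_iff] at hxy
      obtain ⟨hne, ⟨e, c⟩ | ⟨e, c⟩⟩ := hxy
      · simp only at e c
        have := l1 x fun k => hne (by rw [← e, k, hR.root])
        rw [e, c] at this
        simp only [this]; simp [sg]
      · simp only at e c
        have := l1 y fun k => hne (by rw [← e, k, hR.root])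
        rw [e, c] at this
        simp only [this]; simp [sg])
    have a1 := this u w
    have a2 := this w u
    simp only [hR.d0, range_zero, sum_empty] at a1 a2
    rw [sum_congr rfl fun i hi => by rw [hf i (mem_range.1 hi).le], abs_le]
    constructor <;> simp only <;> omega
  have h2 := (card_le_card h1).trans card_biUnion_le
  rw [card_product, card_univ, Fintype.card_prod, ← hn, ← sq] at h2
  rw [← Nat.cast_pow, ← Nat.cast_mul]
  refine le_trans (Nat.cast_le.2 h2) ?_
  push_cast
  have hn' : (0 : ℝ) < n := by exact_mod_cast hV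
  have hk' : (0 : ℝ) < k := by exact_mod_cast hk
  have h3 : ∀ d ∈ range n, (((univ : Finset (Fin (d + 1) ↪ V)).biUnion fun f =>
        ((Fib f).filter fun q => |∑ i ∈ range d, sg (q.2 (ex f i))| ≤ 16 * (k : ℤ)).image
          fun q => (oriB q, ex f 0, ex f d)).card : ℝ) ≤
      (if d < k ^ 4 then (k : ℝ) ^ 4 * n ^ n / n * 2 ^ n else 0) +
        (n.descFactorial (d + 1) : ℝ) * FF (n - (d + 1)) (d + 1) * (2 ^ n * (34 / k)) := by
    intro d hd
    have hd' : d + 1 ≤ n := mem_range.1 hd
    have F0 := FF_nonneg (n - (d + 1)) (d + 1)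
    obtain ⟨M, M1, M2⟩ : ∃ M : ℝ, (∀ f : Fin (d + 1) ↪ V, ((univ.filter fun b : V → Bool =>
        |∑ i ∈ range d, sg (b (ex f i))| ≤ 16 * (k : ℤ)).card : ℝ) ≤ M) ∧
        (n.descFactorial (d + 1) : ℝ) * FF (n - (d + 1)) (d + 1) * M ≤
        (if d < k ^ 4 then (k : ℝ) ^ 4 * n ^ n / n * 2 ^ n else 0) +
        (n.descFactorial (d + 1) : ℝ) * FF (n - (d + 1)) (d + 1) * (2 ^ n * (34 / k)) := by
      split_ifs with c
      · refine ⟨2 ^ n, fun f => ?_, le_add_of_le_of_nonneg ?_ (by positivity)⟩
        · have := card_filter_le (univ : Finset (V → Bool))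
            fun b => |∑ i ∈ range d, sg (b (ex f i))| ≤ 16 * (k : ℤ)
          rw [card_univ, Fintype.card_fun, Fintype.card_bool] at this
          exact_mod_cast this
        · gcongr
          rw [le_div_iff₀ hn', mul_assoc, FF_mul n _ hd']
          have a1 : (n.descFactorial (d + 1) : ℝ) ≤ n ^ (d + 1) := by
            exact_mod_cast Nat.descFactorial_le_pow n (d + 1)
          have a2 : ((d + 1 : ℕ) : ℝ) ≤ k ^ 4 := by exact_mod_cast c
          calc _ ≤ (n : ℝ) ^ (d + 1) * (k ^ 4 * n ^ (n - (d + 1))) := by gcongr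
            _ = k ^ 4 * (n ^ (d + 1) * n ^ (n - (d + 1))) := by ring
            _ = _ := by rw [← pow_add, Nat.add_sub_cancel' hd']
      · refine ⟨2 ^ n * (34 / k), fun f => ?_, by rw [zero_add]⟩
        have a1 := bits_bound (ex f) d (16 * k) fun a ha b hb => ex_inj f a ha.le b hb.le
        have a2 : d.choose (d / 2) * k ^ 2 ≤ 2 ^ d := by
          refine (Nat.pow_le_pow_iff_left two_ne_zero).1 ?_
          calc _ = d.choose (d / 2) ^ 2 * k ^ 4 := by ring
            _ ≤ d.choose (d / 2) ^ 2 * d := by gcongr; omega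
            _ ≤ 4 ^ d := choose_mid d
            _ = _ := by rw [← pow_mul, mul_comm, pow_mul]; norm_num
        have a3 : (2 * (16 * k) + 2) * d.choose (d / 2) * 2 ^ (n - d) * k ≤ 2 ^ n * 34 := by
          calc _ ≤ (34 * k) * d.choose (d / 2) * 2 ^ (n - d) * k := by gcongr; omega
            _ = 34 * (d.choose (d / 2) * k ^ 2) * 2 ^ (n - d) := by ring
            _ ≤ 34 * 2 ^ d * 2 ^ (n - d) := by gcongr
            _ = _ := by rw [mul_assoc, ← pow_add, Nat.add_sub_cancel' (by omega), mul_comm]
        rw [← mul_div_assoc, le_div_iff₀ hk']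
        push_cast at a1
        exact_mod_cast (Nat.mul_le_mul_right k a1).trans a3
    refine le_trans ?_ M2
    refine le_trans (Nat.cast_le.2 card_biUnion_le) ?_
    push_cast
    refine le_trans (sum_le_card_nsmul _ _ (FF (n - (d + 1)) (d + 1) * M) fun f _ => ?_) ?_
    · refine le_trans (Nat.cast_le.2 card_image_le) ?_
      have a1 := card_fib f (fun q => |∑ i ∈ range d, sg (q.2 (ex f i))| ≤ 16 * (k : ℤ))
      refine le_trans (Nat.cast_le.2 a1) ?_
      have a2 : ((Data (univ.map f)ᶜ (univ.map f)).filter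
          fun q => |∑ i ∈ range d, sg (q.2 (ex f i))| ≤ 16 * (k : ℤ)) ⊆
          Fo (univ.map f)ᶜ (univ.map f) ×ˢ (univ.filter fun b : V → Bool =>
            |∑ i ∈ range d, sg (b (ex f i))| ≤ 16 * (k : ℤ)) := by
        intro q hq
        rw [mem_filter, Data, mem_product] at hq
        exact mem_product.2 ⟨hq.1.1, mem_filter.2 ⟨mem_univ _, hq.2⟩⟩
      refine le_trans (Nat.cast_le.2 (card_le_card a2)) ?_
      rw [card_product, Nat.cast_mul, card_Fo _ _ _ rfl disjoint_compl_left, card_compl, card_map,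
        card_univ, Fintype.card_fin]
      exact mul_le_mul_of_nonneg_left (M1 f) F0
    · rw [card_univ, Fintype.card_embedding_eq, Fintype.card_fin, nsmul_eq_mul, mul_assoc]
  refine (sum_le_sum h3).trans ?_
  rw [sum_add_distrib, ← sum_mul, mul_add, ← sum_filter, sum_const, nsmul_eq_mul]
  have a1 : (((range n).filter fun d => d < k ^ 4).card : ℝ) ≤ k ^ 4 := by
    have : ((range n).filter fun d => d < k ^ 4) ⊆ range (k ^ 4) := fun d hd =>
      mem_range.2 (mem_filter.1 hd).2
    have := card_le_card this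
    rw [card_range] at this
    exact_mod_cast this
  have a2 := tele n
  refine add_le_add ?_ ?_
  · calc _ ≤ (k : ℝ) ^ 4 * ((k : ℝ) ^ 4 * n ^ n / n * 2 ^ n) := by gcongr
      _ = _ := by ring
  · rw [mul_assoc]; gcongr

theorem fact_exp (n : ℕ) (hn : 0 < n) :
    (n.factorial : ℝ) * Real.exp n ≤ Real.exp 1 * n * (n : ℝ) ^ n := by
  induction n, hn using Nat.le_induction with
  | base => simp
  | succ n hn ih =>
    have hn' : (0 : ℝ) < n := by exact_mod_cast hn
    have h1 : Real.exp (1 / (n + 1)) * n ≤ n + 1 := by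
      have := Real.add_one_le_exp (-(1 / (n + 1)) : ℝ)
      rw [Real.exp_neg] at this
      have e : (-(1 / (n + 1)) + 1 : ℝ) = n / (n + 1) := by field_simp; ring
      rw [e, ← one_div, div_le_div_iff₀ (by positivity) (by positivity)] at this
      linarith
    have h2 := pow_le_pow_left₀ (by positivity) h1 (n + 1)
    rw [mul_pow, ← Real.exp_nat_mul] at h2
    have e : ((n + 1 : ℕ) : ℝ) * (1 / (n + 1)) = 1 := by push_cast; field_simp
    rw [e] at h2
    rw [Nat.factorial_succ]
    push_cast
    rw [Real.exp_add]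
    calc _ = (n + 1) * Real.exp 1 * (n.factorial * Real.exp n) := by ring
      _ ≤ (n + 1) * Real.exp 1 * (Real.exp 1 * n * (n : ℝ) ^ n) := by gcongr
      _ = (n + 1) * Real.exp 1 * (Real.exp 1 * (n : ℝ) ^ (n + 1)) := by ring
      _ ≤ (n + 1) * Real.exp 1 * (n + 1) ^ (n + 1) := by gcongr
      _ = _ := by ring

end Pool.Agent.H28.RT
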