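import Mathlib

set_option autoImplicit false

namespace Pool.Agent.H28.Rel

open Finset Classical

/-- A binary two-terminal network: linear functionals on a space, one being the port. -/
structure Net where
  V : Type
  [acg : AddCommGroup V]
  [mod : Module (ZMod 2) V]
  E : Type
  [fin : Fintype E]
  [dec : DecidableEq E]
  ev : E → V →ₗ[ZMod 2] ZMod 2
  p : V →ₗ[ZMod 2] ZMod 2

attribute [instance] Net.acg Net.mod Net.fin Net.dec

namespace Net

def A (N : Net) (S : N.E → Bool) : Prop := ∀ c, (∀ e, S e = true → N.ev e c = 0) → c = 0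

def B (N : Net) (S : N.E → Bool) : Prop :=
  ∀ c, (∀ e, S e = true → N.ev e c = 0) → N.p c = 0 → c = 0

/-- Weight of a subset. -/
noncomputable def wt {E : Type} [Fintype E] (x y : E → ℂ) (S : E → Bool) : ℂ :=
  ∏ e, if S e = true then x e else y e

noncomputable def al (N : Net) (x y : N.E → ℂ) : ℂ := ∑ S, if N.A S then wt x y S else 0

noncomputable def be (N : Net) (x y : N.E → ℂ) : ℂ :=
  ∑ S, if N.B S ∧ ¬ N.A S then wt x y S else 0

variable (M : Net) (N : M.E → Net)

/-- States of the composite network. -/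
def cV : Submodule (ZMod 2) (M.V × ∀ i, (N i).V) where
  carrier := {x | ∀ i, M.ev i x.1 = (N i).p (x.2 i)}
  add_mem' := fun {a b} ha hb i => by simp [ha i, hb i]
  zero_mem' := fun i => by simp
  smul_mem' := fun c a ha i => by simp [ha i]

/-- Substitution of networks for the elements of a network. -/
noncomputable def comp : Net where
  V := cV M N
  E := Σ i, (N i).E
  ev := fun e => ((N e.1).ev e.2).comp ((LinearMap.proj e.1).comp
    ((LinearMap.snd _ _ _).comp (cV M N).subtype))
  p := M.p.comp ((LinearMap.fst _ _ _).comp (cV M N).subtype)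

theorem comp_gen (S : (Σ i, (N i).E) → Bool) (Q : M.V → Prop) (hQ : Q 0) :
    (∀ c : cV M N, (∀ e, S e = true → (N e.1).ev e.2 (c.1.2 e.1) = 0) → Q c.1.1 → c = 0) ↔
      (∀ i, (N i).B fun e => S ⟨i, e⟩) ∧ ∀ φ, (∀ i, decide ((N i).A fun e => S ⟨i, e⟩) = true →
        M.ev i φ = 0) → Q φ → φ = 0 := by
  constructor
  · intro h
    have hB : ∀ i, (N i).B fun e => S ⟨i, e⟩ := by
      intro i c hc hp
      have := h ⟨(0, Pi.single i c), fun j => by
        by_cases hj : j = i
        · subst hj
          simp [hp]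
        · simp [hj]⟩ (by
          rintro ⟨j, e⟩ he
          by_cases hj : j = i
          · subst hj
            simpa using hc e he
          · simp [hj]) hQ
      have h2 := congrFun (congrArg (fun x : cV M N => x.1.2) this) i
      simpa using h2
    refine ⟨hB, fun φ hφ hq => ?_⟩
    have : ∀ i, ∃ c : (N i).V, (∀ e, S ⟨i, e⟩ = true → (N i).ev e c = 0) ∧ M.ev i φ = (N i).p c := by
      intro i
      by_cases hA : (N i).A fun e => S ⟨i, e⟩
      · exact ⟨0, by simp, by simpa using hφ i (by simpa using hA)⟩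
      · unfold A at hA
        push Not at hA
        obtain ⟨c, hc, hc0⟩ := hA
        have h1 : (N i).p c ≠ 0 := fun h => hc0 (hB i c hc h)
        have h2 : (N i).p c = 1 := by
          generalize (N i).p c = a at h1
          revert a
          decide
        exact ⟨M.ev i φ • c, fun e he => by simp [hc e he], by simp [h2]⟩
    choose c hc hc' using this
    have := h ⟨(φ, c), hc'⟩ (fun e he => hc e.1 e.2 he) hq
    exact congrArg (fun x : cV M N => x.1.1) this
  · rintro ⟨hB, h⟩ ⟨⟨φ, c⟩, hc⟩ h1 hq
    have h2 : φ = 0 := h φ (fun i hi => by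
      have h3 : c i = 0 := (of_decide_eq_true hi) (c i) fun e he => h1 ⟨i, e⟩ he
      have := hc i
      simp only [h3, map_zero] at this
      exact this) hq
    subst h2
    have h3 : c = 0 := funext fun i => hB i (c i) (fun e he => h1 ⟨i, e⟩ he) (by
      simpa using (hc i).symm)
    subst h3
    rfl

theorem comp_A (S : (Σ i, (N i).E) → Bool) : (comp M N).A S ↔
    (∀ i, (N i).B fun e => S ⟨i, e⟩) ∧ M.A fun i => decide ((N i).A fun e => S ⟨i, e⟩) := by
  have := comp_gen M N S (fun _ => True) trivial
  simp only [true_imp_iff] at this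
  exact this

theorem comp_B (S : (Σ i, (N i).E) → Bool) : (comp M N).B S ↔
    (∀ i, (N i).B fun e => S ⟨i, e⟩) ∧ M.B fun i => decide ((N i).A fun e => S ⟨i, e⟩) :=
  comp_gen M N S (fun φ => M.p φ = 0) (map_zero _)

theorem A.toB {N : Net} {S : N.E → Bool} (h : N.A S) : N.B S := fun c hc _ => h c hc

theorem comp_sum (P : (M.E → Bool) → Prop) [DecidablePred P] (z w : ℂ) :
    (∑ S : (Σ i, (N i).E) → Bool, if (∀ i, (N i).B fun e => S ⟨i, e⟩) ∧
      P (fun i => decide ((N i).A fun e => S ⟨i, e⟩)) then wt (fun _ => z) (fun _ => w) S else 0) =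
    ∑ J, if P J then wt (fun i => (N i).al (fun _ => z) fun _ => w)
      (fun i => (N i).be (fun _ => z) fun _ => w) J else 0 := by
  have h1 : ∀ J : M.E → Bool, wt (fun i => (N i).al (fun _ => z) fun _ => w)
      (fun i => (N i).be (fun _ => z) fun _ => w) J = ∑ S : ∀ i, (N i).E → Bool, ∏ i,
        if (N i).B (S i) ∧ J i = decide ((N i).A (S i)) then wt (fun _ => z) (fun _ => w) (S i)
        else 0 := by
    intro J
    rw [← Fintype.piFinset_univ, ← prod_univ_sum (fun _ => univ) fun i T =>
      if (N i).B T ∧ J i = decide ((N i).A T) then wt (fun _ => z) (fun _ => w) T else 0]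
    refine prod_congr rfl fun i _ => ?_
    cases hJ : J i
    · simp [be]
    · simp only [if_true, al]
      refine sum_congr rfl fun T _ => if_congr ?_ rfl rfl
      simpa using fun h => h.toB
  have h2 : ∀ J : M.E → Bool, ∀ f : (∀ i, (N i).E → Bool) → ℂ,
      (if P J then ∑ S, f S else 0) = ∑ S, if P J then f S else 0 := by
    intro J f
    split_ifs <;> simp
  simp only [h1, h2]
  rw [sum_comm]
  refine Fintype.sum_equiv (Equiv.piCurry fun i (_ : (N i).E) => Bool) _ _ fun S => ?_
  rw [sum_eq_single fun i => decide ((N i).A fun e => S ⟨i, e⟩)]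
  · by_cases hP : P fun i => decide ((N i).A fun e => S ⟨i, e⟩)
    · rw [if_pos hP]
      by_cases hB : ∀ i, (N i).B fun e => S ⟨i, e⟩
      · rw [if_pos ⟨hB, hP⟩, wt, Fintype.prod_sigma]
        refine prod_congr rfl fun i _ => ?_
        rw [if_pos ⟨hB i, rfl⟩]
        rfl
      · rw [if_neg fun h => hB h.1]
        push Not at hB
        obtain ⟨i, hi⟩ := hB
        exact (prod_eq_zero (mem_univ i) (if_neg fun h => hi h.1)).symm
    · rw [if_neg hP, if_neg fun h => hP h.2]
  · intro J _ hJ
    split_ifs
    · obtain ⟨i, hi⟩ := Function.ne_iff.1 hJ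
      exact prod_eq_zero (mem_univ i) (if_neg fun h => hi h.2)
    · rfl
  · simp

theorem comp_al (z w : ℂ) : (comp M N).al (fun _ => z) (fun _ => w) =
    M.al (fun i => (N i).al (fun _ => z) fun _ => w) fun i => (N i).be (fun _ => z) fun _ => w := by
  rw [al, al, ← comp_sum M N M.A]
  exact sum_congr (by congr) fun S _ => if_congr (comp_A M N S) rfl rfl

theorem comp_be (z w : ℂ) : (comp M N).be (fun _ => z) (fun _ => w) =
    M.be (fun i => (N i).al (fun _ => z) fun _ => w) fun i => (N i).be (fun _ => z) fun _ => w := by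
  rw [be, be, ← comp_sum M N fun J => M.B J ∧ ¬ M.A J]
  refine sum_congr (by congr) fun S _ => if_congr ?_ rfl rfl
  rw [comp_A, comp_B]
  tauto

theorem comp_faithful (hM : M.A fun _ => true) (hN : ∀ i, (N i).A fun _ => true) :
    (comp M N).A fun _ => true := by
  rw [comp_A]
  refine ⟨fun i => (hN i).toB, ?_⟩
  simpa [hN] using hM

end Net

end Pool.Agent.H28.Rel
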