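import Pool.Agent.H28.Rel1
import Pool.Agent.H28.VecMat

set_option autoImplicit false

namespace Pool.Agent.H28.Rel

open Finset Matrix

/-- A functional given by a vector. -/
def dot {r : ℕ} (u : Fin r → ZMod 2) : (Fin r → ZMod 2) →ₗ[ZMod 2] ZMod 2 where
  toFun c := u ⬝ᵥ c
  map_add' := dotProduct_add u
  map_smul' a c := by simp

/-- The network of a binary matrix. -/
def ofMat {r n : ℕ} (col : Fin n → Fin r → ZMod 2) (p : Fin r → ZMod 2) : Net where
  V := Fin r → ZMod 2
  E := Fin n
  ev e := dot (col e)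
  p := dot p

def mA {r n : ℕ} (col : Fin n → Fin r → ZMod 2) (S : Fin n → Bool) : Prop :=
  ∀ c : Fin r → ZMod 2, (∀ e, S e = true → col e ⬝ᵥ c = 0) → c = 0

def mB {r n : ℕ} (col : Fin n → Fin r → ZMod 2) (p : Fin r → ZMod 2) (S : Fin n → Bool) : Prop :=
  ∀ c : Fin r → ZMod 2, (∀ e, S e = true → col e ⬝ᵥ c = 0) → p ⬝ᵥ c = 0 → c = 0

instance {r n : ℕ} (col : Fin n → Fin r → ZMod 2) (S : Fin n → Bool) : Decidable (mA col S) := by
  unfold mA
  infer_instance

instance {r n : ℕ} (col : Fin n → Fin r → ZMod 2) (p : Fin r → ZMod 2) (S : Fin n → Bool) :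
    Decidable (mB col p S) := by
  unfold mB
  infer_instance

theorem ofMat_al {r n : ℕ} (col : Fin n → Fin r → ZMod 2) (p : Fin r → ZMod 2) (x y : Fin n → ℂ) :
    (ofMat col p).al x y = ∑ S ∈ univ.filter (mA col), Net.wt x y S := by
  rw [sum_filter]
  exact sum_congr rfl fun S _ => @if_congr _ _ _ (_) _ _ _ _ _ Iff.rfl rfl rfl

theorem ofMat_be {r n : ℕ} (col : Fin n → Fin r → ZMod 2) (p : Fin r → ZMod 2) (x y : Fin n → ℂ) :
    (ofMat col p).be x y = ∑ S ∈ univ.filter (fun S => mB col p S ∧ ¬ mA col S), Net.wt x y S := by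
  rw [sum_filter]
  exact sum_congr rfl fun S _ => @if_congr _ _ _ (_) _ _ _ _ _ Iff.rfl rfl rfl

/-- The pair of values is realised by a faithful network at `z`. -/
def Q (z a b : ℂ) : Prop := ∃ N : Net, N.A (fun _ => true) ∧
  N.al (fun _ => z) (fun _ => 1 - z) = a ∧ N.be (fun _ => z) (fun _ => 1 - z) = b

theorem Q.comp {z : ℂ} (M : Net) (hM : M.A fun _ => true) (x y : M.E → ℂ)
    (h : ∀ i, Q z (x i) (y i)) : Q z (M.al x y) (M.be x y) := by
  choose N h1 h2 h3 using h
  refine ⟨M.comp N, Net.comp_faithful M N hM h1, ?_, ?_⟩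
  · rw [Net.comp_al]
    simp only [h2, h3]
  · rw [Net.comp_be]
    simp only [h2, h3]

theorem Q.one (z : ℂ) : Q z z (1 - z) := by
  refine ⟨ofMat ![![1]] ![1], show mA _ _ by decide, ?_, ?_⟩
  · rw [ofMat_al, show univ.filter (mA ![![1]]) = {![true]} by decide]
    simp [Net.wt]
  · rw [ofMat_be, show univ.filter (fun S => mB ![![1]] ![1] S ∧ ¬ mA ![![1]] S) = {![false]} by
      decide]
    simp [Net.wt]

theorem Q.par {z a b c d : ℂ} (h : Q z a b) (h' : Q z c d) : Q z (a * c + a * d + b * c) (b * d) := by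
  have := Q.comp (ofMat ![![1], ![1]] ![1]) (show mA _ _ by decide) ![a, c] ![b, d]
    (fun i => by fin_cases i <;> assumption)
  rw [ofMat_al, ofMat_be, show univ.filter (mA ![![1], ![1]]) =
    {![true, true], ![true, false], ![false, true]} by decide,
    show univ.filter (fun S => mB ![![1], ![1]] ![1] S ∧ ¬ mA ![![1], ![1]] S) =
    {![false, false]} by decide, sum_insert (by decide), sum_insert (by decide)] at this
  simpa [Net.wt, add_assoc] using this

theorem Q.ser {z a b c d : ℂ} (h : Q z a b) (h' : Q z c d) : Q z (a * c) (a * d + b * c) := by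
  have := Q.comp (ofMat ![![1, 0], ![0, 1]] ![1, 1]) (show mA _ _ by decide) ![a, c] ![b, d]
    (fun i => by fin_cases i <;> assumption)
  rw [ofMat_al, ofMat_be, show univ.filter (mA ![![1, 0], ![0, 1]]) = {![true, true]} by decide,
    show univ.filter (fun S => mB ![![1, 0], ![0, 1]] ![1, 1] S ∧ ¬ mA ![![1, 0], ![0, 1]] S) =
    {![true, false], ![false, true]} by decide, sum_insert (by decide)] at this
  simpa [Net.wt, add_assoc] using this

def c8 : Fin 7 → Fin 4 → ZMod 2 :=
  ![![1, 0, 0, 0], ![0, 1, 0, 0], ![0, 0, 1, 0], ![0, 1, 1, 1], ![1, 0, 1, 1], ![1, 1, 0, 1],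
    ![0, 0, 0, 1]]

def ky (S : Fin 7 → Bool) : ℕ × Bool :=
  ((univ.filter fun i : Fin 6 => S i.castSucc = true).card, S (Fin.last 6))

theorem sum_ky (s : Finset (Fin 7 → Bool)) (a b c d : ℂ) :
    ∑ S ∈ s, Net.wt ![a, a, a, a, a, a, c] ![b, b, b, b, b, b, d] S =
      ∑ k ∈ range 7, ∑ t : Bool, ((s.filter fun S => ky S = (k, t)).card : ℂ) *
        (a ^ k * b ^ (6 - k) * if t = true then c else d) := by
  rw [← sum_product', ← sum_fiberwise_of_maps_to (g := ky) (t := range 7 ×ˢ univ)]
  · refine sum_congr rfl fun q _ => ?_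
    rw [← nsmul_eq_mul, ← sum_const]
    refine sum_congr rfl fun S hS => ?_
    have hq : ky S = q := (mem_filter.1 hS).2
    rw [← hq, Net.wt, Fin.prod_univ_castSucc]
    congr 1
    have : ∀ i : Fin 6, (if S i.castSucc = true then ![a, a, a, a, a, a, c] i.castSucc else
        ![b, b, b, b, b, b, d] i.castSucc) = if S i.castSucc = true then a else b := by
      intro i
      fin_cases i <;> rfl
    simp only [this]
    rw [prod_ite, prod_const, prod_const]
    congr 2
    have := card_filter_add_card_filter_not (s := univ) fun i : Fin 6 => S i.castSucc = true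
    simp only [card_univ, Fintype.card_fin] at this
    simp only [ky]
    omega
  · intro S _
    have := card_filter_le (univ : Finset (Fin 6)) fun i => S i.castSucc = true
    simp only [card_univ, Fintype.card_fin] at this
    simp only [ky, mem_product, mem_range, mem_univ, and_true]
    omega

theorem cnt8 : ∀ k ∈ range 7, ∀ t : Bool,
    ((univ.filter (mA c8)).filter fun S => ky S = (k, t)).card =
      (if t then [0, 0, 0, 16, 15, 6, 1] else [0, 0, 0, 0, 12, 6, 1]).getD k 0 ∧
    ((univ.filter (fun S => mB c8 ![1, 1, 1, 1] S ∧ ¬ mA c8 S)).filter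
      fun S => ky S = (k, t)).card =
      (if t then [0, 0, 12, 4, 0, 0, 0] else [0, 0, 0, 8, 0, 0, 0]).getD k 0 := by
  decide +kernel

theorem Q.s8 {z a b c d : ℂ} (h : Q z a b) (h' : Q z c d) :
    Q z (16 * a ^ 3 * b ^ 3 * c + 12 * a ^ 4 * b ^ 2 * d + 15 * a ^ 4 * b ^ 2 * c +
      6 * a ^ 5 * b * d + 6 * a ^ 5 * b * c + a ^ 6 * d + a ^ 6 * c)
      (12 * a ^ 2 * b ^ 4 * c + 8 * a ^ 3 * b ^ 3 * d + 4 * a ^ 3 * b ^ 3 * c) := by
  have := Q.comp (ofMat c8 ![1, 1, 1, 1]) (show mA _ _ by decide) ![a, a, a, a, a, a, c]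
    ![b, b, b, b, b, b, d] (fun i => by fin_cases i <;> assumption)
  rw [ofMat_al, ofMat_be, sum_ky, sum_ky] at this
  convert this using 1
  · rw [sum_congr rfl fun k hk => sum_congr rfl fun t _ => by rw [(cnt8 k hk t).1]]
    simp [sum_range_succ]
    ring
  · rw [sum_congr rfl fun k hk => sum_congr rfl fun t _ => by rw [(cnt8 k hk t).2]]
    simp [sum_range_succ]
    ring

theorem Q.pow {z a b : ℂ} (h : Q z a b) (k : ℕ) : Q z (a ^ (k + 1)) ((k + 1) * a ^ k * b) := by
  induction k with
  | zero => simpa using h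
  | succ k ih =>
    convert ih.ser h using 1
    · ring
    · push_cast
      ring

theorem Q.root {z b : ℂ} (h : Q z 0 b) : ∃ (n : ℕ) (M : Matroid (Fin n)), M.E = Set.univ ∧
    (∑ S : Finset (Fin n), (@ite _ (M.Spanning (↑S : Set (Fin n))) (Classical.propDecidable _)
      (z ^ (Finset.card S) * (1 - z) ^ (n - Finset.card S)) 0)) = 0 := by
  obtain ⟨N, hN, h1, -⟩ := h
  let e := (Fintype.equivFin N.E).symm
  refine ⟨_, VecMat.vec (ZMod 2) fun i => N.ev (e i), rfl, ?_⟩
  classical
  refine Eq.trans (Eq.symm ?_) h1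
  rw [Net.al]
  refine Fintype.sum_bijective (fun T : N.E → Bool => univ.filter fun i => T (e i) = true)
    ⟨fun T T' h => ?_, fun S => ⟨fun x => decide (e.symm x ∈ S), by ext i; simp⟩⟩ _ _ fun T => ?_
  · ext x
    have := Finset.ext_iff.1 h (e.symm x)
    simpa using this
  refine @if_congr _ _ _ (Classical.propDecidable _) (Classical.propDecidable _) _ _ _ _ ?_ ?_ rfl
  · rw [Matroid.spanning_iff_ground_subset_closure (by simp)]
    have key := fun x => VecMat.mem_closure_iff_of_rep (F := ZMod 2)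
      (M := VecMat.vec (ZMod 2) fun i => N.ev (e i)) (φ := fun i => N.ev (e i)) (by simp)
      (X := ↑(univ.filter fun i => T (e i) = true)) (by simp) (e := x)
    constructor
    · intro hA x _
      rw [key]
      refine ⟨?_, trivial⟩
      rw [Set.image_eq_range]
      apply mem_span_of_iInf_ker_le_ker
      intro c hc
      simp only [Submodule.mem_iInf, LinearMap.mem_ker] at hc
      rw [hA c fun y hy => by simpa using hc ⟨e.symm y, by simpa using hy⟩]
      exact Submodule.zero_mem _
    · intro hs c hc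
      refine hN c fun y _ => ?_
      have h2 := ((key (e.symm y)).1 (hs trivial)).1
      have h3 : Submodule.span (ZMod 2) ((fun i => N.ev (e i)) ''
          ↑(univ.filter fun i => T (e i) = true)) ≤ LinearMap.ker (LinearMap.applyₗ c) := by
        rw [Submodule.span_le]
        rintro _ ⟨i, hi, rfl⟩
        exact hc _ (by simpa using hi)
      simpa using h3 h2
  · rw [Net.wt, ← e.prod_comp, prod_ite, prod_const, prod_const]
    congr 2
    have := card_filter_add_card_filter_not (s := univ) fun i => T (e i) = true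
    simp only [card_univ, Fintype.card_fin] at this
    omega

end Pool.Agent.H28.Rel
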