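import Pool.Agent.H28.Rel2

set_option autoImplicit false

namespace Pool.Agent.H28.Rel

open Complex Metric Filter Topology

theorem hurwitz (P : ℂ × ℂ → ℂ) (hd : Differentiable ℂ P) (z0 : ℂ) (r : ℝ) (hr : 0 < r)
    (h0 : P (0, z0) = 0) (z1 : ℂ) (h1 : P (0, z1) ≠ 0) :
    ∃ k : ℕ, ∃ z ∈ ball z0 r, P (1 / ((k : ℂ) + 1), z) = 0 := by
  by_contra hn
  push Not at hn
  have hP : ∀ ε, Differentiable ℂ fun z => P (ε, z) := fun ε => hd.comp (by fun_prop)
  have hiso : ∀ᶠ z in 𝓝[≠] z0, P (0, z) ≠ 0 := by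
    rcases ((hP 0).analyticAt z0).eventually_eq_zero_or_eventually_ne_zero with h | h
    · have := AnalyticOnNhd.eq_of_eventuallyEq (f := fun z => P (0, z)) (g := fun _ => 0)
        (fun z _ => (hP 0).analyticAt z) (fun z _ => analyticAt_const) h
      exact absurd (congrFun this z1) h1
    · exact h
  obtain ⟨ρ0, hρ0, hiso⟩ := Metric.eventually_nhds_iff.1 (eventually_nhdsWithin_iff.1 hiso)
  set ρ := min ρ0 r / 2 with hρ
  have hρ1 : 0 < ρ := by positivity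
  have hρ2 : ρ < ρ0 := by have := min_le_left ρ0 r; linarith
  have hρ3 : ρ < r := by have := min_le_right ρ0 r; have := lt_min hρ0 hr; linarith
  obtain ⟨w, hw, hmin⟩ := (isCompact_sphere z0 ρ).exists_isMinOn
    (NormedSpace.sphere_nonempty.2 hρ1.le) (f := fun z => ‖P (0, z)‖)
    (hP 0).continuous.norm.continuousOn
  have hm : 0 < ‖P (0, w)‖ := by
    rw [mem_sphere] at hw
    refine norm_pos_iff.2 (hiso (by linarith) fun h => ?_)
    rw [Set.mem_singleton_iff.1 h, dist_self] at hw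
    linarith
  set m := ‖P (0, w)‖
  have htube : ∀ᶠ ε in 𝓝 (0 : ℂ), ∀ z ∈ closedBall z0 ρ, ‖P (ε, z) - P (0, z)‖ < m / 2 := by
    refine (isCompact_closedBall z0 ρ).eventually_forall_of_forall_eventually fun y _ => ?_
    have hc : Continuous fun x : ℂ × ℂ => ‖P x - P (0, x.2)‖ := by
      have := hd.continuous
      fun_prop
    exact hc.continuousAt.eventually_lt continuousAt_const (by simpa using hm)
  have hlim : Tendsto (fun k : ℕ => 1 / ((k : ℂ) + 1)) atTop (𝓝 0) :=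
    tendsto_one_div_add_atTop_nhds_zero_nat
  obtain ⟨k, hk⟩ := (hlim.eventually htube).exists
  have hsub : closedBall z0 ρ ⊆ ball z0 r := closedBall_subset_ball hρ3
  have hdc : DiffContOnCl ℂ (fun z => (P (1 / ((k : ℂ) + 1), z))⁻¹) (ball z0 ρ) := by
    apply DifferentiableOn.diffContOnCl
    rw [closure_ball z0 hρ1.ne']
    exact (hP _).differentiableOn.inv fun z hz => hn k z (hsub hz)
  have hb := Complex.norm_le_of_forall_mem_frontier_norm_le isBounded_ball hdc (C := (m / 2)⁻¹)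
    (fun z hz => by
      rw [frontier_ball z0 hρ1.ne'] at hz
      have a1 := hk z (sphere_subset_closedBall hz)
      have a2 : m ≤ ‖P (0, z)‖ := hmin hz
      have a3 := norm_sub_norm_le (P (0, z)) (P (1 / ((k : ℂ) + 1), z))
      rw [norm_sub_rev] at a3
      rw [norm_inv]
      exact inv_anti₀ (by positivity) (by linarith)) (subset_closure (mem_ball_self hρ1))
  have a1 := hk z0 (mem_closedBall_self hρ1.le)
  rw [h0, sub_zero] at a1
  rw [norm_inv, inv_le_inv₀ (norm_pos_iff.2 (hn k z0 (mem_ball_self hr))) (by positivity)] at hb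
  linarith

/-- Rescaled realisability. -/
def RR (ε z : ℂ) (X : ℂ × ℂ) : Prop := ∃ l, Q z (l * ε * X.1) (l * X.2)

def par (ε : ℂ) (X Y : ℂ × ℂ) : ℂ × ℂ := (ε * X.1 * Y.1 + X.1 * Y.2 + X.2 * Y.1, X.2 * Y.2)

def s8 (ε : ℂ) (X Y : ℂ × ℂ) : ℂ × ℂ :=
  (16 * X.1 ^ 3 * X.2 ^ 3 * Y.1 + 12 * X.1 ^ 4 * X.2 ^ 2 * Y.2 +
    ε * (15 * X.1 ^ 4 * X.2 ^ 2 * Y.1 + 6 * X.1 ^ 5 * X.2 * Y.2) +
    ε ^ 2 * (6 * X.1 ^ 5 * X.2 * Y.1 + X.1 ^ 6 * Y.2) + ε ^ 3 * X.1 ^ 6 * Y.1,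
  12 * X.1 ^ 2 * X.2 ^ 4 * Y.1 + 8 * X.1 ^ 3 * X.2 ^ 3 * Y.2 + 4 * ε * X.1 ^ 3 * X.2 ^ 3 * Y.1)

theorem RR.par {ε z : ℂ} {X Y : ℂ × ℂ} (h : RR ε z X) (h' : RR ε z Y) : RR ε z (par ε X Y) := by
  obtain ⟨l, h⟩ := h
  obtain ⟨m, h'⟩ := h'
  refine ⟨l * m, ?_⟩
  convert h.par h' using 1 <;> simp only [Rel.par] <;> ring

theorem RR.s8 {ε z : ℂ} {X Y : ℂ × ℂ} (h : RR ε z X) (h' : RR ε z Y) : RR ε z (s8 ε X Y) := by
  obtain ⟨l, h⟩ := h
  obtain ⟨m, h'⟩ := h'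
  refine ⟨l ^ 6 * m * ε ^ 3, ?_⟩
  convert h.s8 h' using 1 <;> simp only [Rel.s8] <;> ring

theorem Q.toRR {z a b : ℂ} (h : Q z a b) (k : ℕ) : RR (1 / ((k : ℂ) + 1)) z (a, b) := by
  refine ⟨(k + 1) * a ^ k, ?_⟩
  convert h.pow k using 1
  have : (k : ℂ) + 1 ≠ 0 := by exact_mod_cast Nat.succ_ne_zero k
  field_simp
  ring

abbrev St : Type := (ℂ × ℂ) × (ℂ × ℂ)

def TT (ε : ℂ) (s : St) : St :=
  (s8 ε (par ε (par ε s.1 s.1) s.1) (par ε s.2 s.2), s8 ε (par ε (par ε s.2 s.2) s.2) (par ε s.1 s.1))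

def ini (z : ℂ) : St := ((z, 1 - z), (z * z + z * (1 - z) + (1 - z) * z, (1 - z) * (1 - z)))

theorem RR_iter (k j : ℕ) (z : ℂ) :
    RR (1 / ((k : ℂ) + 1)) z ((TT (1 / ((k : ℂ) + 1)))^[j] (ini z)).1 ∧
    RR (1 / ((k : ℂ) + 1)) z ((TT (1 / ((k : ℂ) + 1)))^[j] (ini z)).2 := by
  induction j with
  | zero => exact ⟨(Q.one z).toRR k, ((Q.one z).par (Q.one z)).toRR k⟩
  | succ j ih =>
    rw [Function.iterate_succ_apply']
    exact ⟨((ih.1.par ih.1).par ih.1).s8 (ih.2.par ih.2),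
      ((ih.2.par ih.2).par ih.2).s8 (ih.1.par ih.1)⟩

theorem diff_iter (j : ℕ) : Differentiable ℂ fun x : ℂ × ℂ => (TT x.1)^[j] (ini x.2) := by
  induction j with
  | zero =>
    simp only [Function.iterate_zero, id, ini]
    fun_prop
  | succ j ih =>
    simp only [Function.iterate_succ_apply']
    have p : ∀ {f g : ℂ × ℂ → ℂ × ℂ}, Differentiable ℂ f → Differentiable ℂ g →
        Differentiable ℂ fun x => par x.1 (f x) (g x) := fun hf hg => by
      unfold par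
      fun_prop
    have q : ∀ {f g : ℂ × ℂ → ℂ × ℂ}, Differentiable ℂ f → Differentiable ℂ g →
        Differentiable ℂ fun x => s8 x.1 (f x) (g x) := fun hf hg => by
      unfold s8
      fun_prop
    exact (q (p (p ih.fst ih.fst) ih.fst) (p ih.snd ih.snd)).prodMk
      (q (p (p ih.snd ih.snd) ih.snd) (p ih.fst ih.fst))

open ComplexOrder in
theorem pos_iter (j : ℕ) : 0 < ((TT 0)^[j] (ini (1 / 2))).1.1 ∧ 0 < ((TT 0)^[j] (ini (1 / 2))).1.2 ∧
    0 < ((TT 0)^[j] (ini (1 / 2))).2.1 ∧ 0 < ((TT 0)^[j] (ini (1 / 2))).2.2 := by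
  induction j with
  | zero =>
    simp only [Function.iterate_zero, id, ini]
    norm_num
  | succ j ih =>
    rw [Function.iterate_succ_apply']
    generalize (TT 0)^[j] (ini (1 / 2)) = s at ih
    obtain ⟨h1, h2, h3, h4⟩ := ih
    simp only [TT, s8, par, zero_mul, mul_zero, zero_add, add_zero, zero_pow two_ne_zero,
      zero_pow three_ne_zero]
    refine ⟨?_, ?_, ?_, ?_⟩ <;> positivity

theorem TT_zero (s : St) : ∃ l : ℂ,
    (TT 0 s).1.1 * (TT 0 s).2.2 = l * (s.1.1 * s.2.2) * (9 * (s.1.1 * s.2.2) + 8 * (s.1.2 * s.2.1)) ∧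
    (TT 0 s).1.2 * (TT 0 s).2.1 = l * (s.1.2 * s.2.1) * (8 * (s.1.1 * s.2.2) + 9 * (s.1.2 * s.2.1)) := by
  refine ⟨23328 * s.1.1 ^ 2 * s.1.2 ^ 15 * s.2.1 ^ 2 * s.2.2 ^ 15 * (s.1.1 * s.2.2 + s.1.2 * s.2.1),
    ?_, ?_⟩ <;> simp only [TT, s8, par] <;> ring

theorem back (j : ℕ) : ∃ w : ℝ, 0 < w ∧ w ≤ 5 * (17 / 18) ^ j ∧ ∀ s : St,
    s.1.1 * s.2.2 * (1 - I * w) = s.1.2 * s.2.1 * (1 + I * w) →
    ((TT 0)^[j + 1] s).1.1 * ((TT 0)^[j + 1] s).2.2 +
      ((TT 0)^[j + 1] s).1.2 * ((TT 0)^[j + 1] s).2.1 = 0 := by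
  have hmu : ∀ p q w : ℂ, p * (1 - I * w) = q * (1 + I * w) →
      ∃ μ, p = μ * (1 + I * w) ∧ q = μ * (1 - I * w) := fun p q w h =>
    ⟨(p + q) / 2, by linear_combination h / 2, by linear_combination -h / 2⟩
  induction j with
  | zero =>
    refine ⟨√17, by positivity, ?_, fun s hs => ?_⟩
    · rw [pow_zero, mul_one, Real.sqrt_le_iff]
      norm_num
    · obtain ⟨l, h1, h2⟩ := TT_zero s
      obtain ⟨μ, h3, h4⟩ := hmu _ _ _ hs
      have h5 : ((√17 : ℝ) : ℂ) ^ 2 = 17 := by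
        rw [← ofReal_pow, Real.sq_sqrt (by norm_num)]
        norm_num
      simp only [zero_add, Function.iterate_one]
      rw [h1, h2, h3, h4]
      linear_combination (2 * l * μ ^ 2 * ((√17 : ℝ) : ℂ) ^ 2) * I_sq - 2 * l * μ ^ 2 * h5
  | succ j ih =>
    obtain ⟨v, hv, hv', ih⟩ := ih
    obtain ⟨w, hw, hw'⟩ : ∃ w : ℝ, 0 < w ∧ v * (17 - w ^ 2) = 18 * w := by
      have h1 : √(81 + 17 * v ^ 2) ^ 2 = 81 + 17 * v ^ 2 := Real.sq_sqrt (by positivity)
      have h2 : 9 < √(81 + 17 * v ^ 2) := by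
        rw [Real.lt_sqrt (by norm_num)]
        nlinarith
      refine ⟨(√(81 + 17 * v ^ 2) - 9) / v, div_pos (by linarith) hv, ?_⟩
      generalize √(81 + 17 * v ^ 2) = u at h1 h2
      field_simp
      linear_combination -h1
    refine ⟨w, hw, ?_, fun s hs => ?_⟩
    · rw [pow_succ]
      nlinarith [mul_pos hv (pow_pos hw 2)]
    · rw [Function.iterate_succ_apply]
      apply ih
      obtain ⟨l, h1, h2⟩ := TT_zero s
      obtain ⟨μ, h3, h4⟩ := hmu _ _ _ hs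
      have h5 : (v : ℂ) * (17 - w ^ 2) = 18 * w := by exact_mod_cast hw'
      rw [h1, h2, h3, h4]
      linear_combination (-2 * l * μ ^ 2 * I * v * w ^ 2) * I_sq - 2 * l * μ ^ 2 * I * h5

open ComplexOrder in
theorem unbounded (C : ℝ) : ∃ z b : ℂ, C < ‖z‖ ∧ Q z 0 b := by
  obtain ⟨j, hj⟩ := exists_pow_lt_of_lt_one (show (0 : ℝ) < 1 / (10 * (|C| + 1)) by positivity)
    (show (17 / 18 : ℝ) < 1 by norm_num)
  obtain ⟨w, hw, hw', h⟩ := back j
  have hw0 : (w : ℂ) ≠ 0 := by exact_mod_cast hw.ne'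
  set z0 : ℂ := 3 / 2 - I / (2 * w) with hz0
  have hz : C + 1 ≤ ‖z0‖ := by
    have h1 : z0.im = -(1 / (2 * w)) := by
      rw [hz0, show I / (2 * (w : ℂ)) = ((1 / (2 * w) : ℝ) : ℂ) * I by push_cast; ring]
      simp only [sub_im, mul_im, ofReal_re, I_im, ofReal_im, I_re]
      norm_num
    have h2 := abs_im_le_norm z0
    rw [h1, abs_neg, abs_of_pos (by positivity)] at h2
    have h3 : |C| + 1 ≤ 1 / (2 * w) := by
      rw [lt_div_iff₀ (by positivity)] at hj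
      rw [le_div_iff₀ (by positivity)]
      nlinarith [abs_nonneg C]
    linarith [le_abs_self C]
  have hd := diff_iter (j + 1)
  obtain ⟨k, z, hz', h0⟩ := hurwitz (fun x => (par x.1 ((TT x.1)^[j + 1] (ini x.2)).1
    ((TT x.1)^[j + 1] (ini x.2)).2).1) (by unfold par; fun_prop) z0 1 one_pos (by
      have := h (ini z0) (by
        simp only [ini, hz0]
        field_simp
        linear_combination (2 * (3 * w - I) * (w - I) * w) * I_sq)
      simpa [par] using this) (1 / 2) (by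
      obtain ⟨h1, h2, h3, h4⟩ := pos_iter (j + 1)
      simp only [par, zero_mul, zero_add]
      exact (add_pos (mul_pos h1 h4) (mul_pos h2 h3)).ne')
  obtain ⟨l, hl⟩ := (RR_iter k (j + 1) z).1.par (RR_iter k (j + 1) z).2
  simp only at h0
  rw [h0, mul_zero] at hl
  refine ⟨z, _, ?_, hl⟩
  rw [mem_ball, dist_eq_norm] at hz'
  have := norm_sub_norm_le z0 z
  rw [norm_sub_rev z0 z] at this
  linarith

end Pool.Agent.H28.Rel
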