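import Pool.Agent.H28.VecMat

set_option autoImplicit false

namespace Pool.Agent.H28.Relax

open Set Submodule

variable {α V : Type} [Finite α] [AddCommGroup V] [Module (ZMod 2) V]

/-- `H` is a circuit-hyperplane of the binary matroid of `φ`. -/
structure CH (φ : α → V) (H : Set α) : Prop where
  sub : ∀ h ∈ H, ∀ x ∉ H, LinearIndepOn (ZMod 2) φ (insert x (H \ {h}))
  le : ∀ I, LinearIndepOn (ZMod 2) φ I → I.ncard ≤ H.ncard
  ne : H.Nonempty
  out : ∃ x, x ∉ H

variable {φ : α → V} {H : Set α}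

theorem card_ex {h x : α} (hh : h ∈ H) (hx : x ∉ H) :
    (insert x (H \ {h})).ncard = H.ncard := by
  rw [ncard_insert_of_notMem (fun h => hx h.1), ncard_sdiff_singleton_add_one hh]

/-- The relaxation. -/
noncomputable def relax (c : CH φ H) : Matroid α :=
  (IndepMatroid.ofFinite (E := univ) finite_univ (fun I => LinearIndepOn (ZMod 2) φ I ∨ I = H)
    (Or.inl (linearIndepOn_empty _ _))
    (fun I J hJ hIJ => by
      rcases hJ with hJ | rfl
      · exact Or.inl (hJ.mono hIJ)
      · by_cases h : J ⊆ I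
        · exact Or.inr (hIJ.antisymm h)
        · obtain ⟨h, hJ, hI⟩ := not_subset.1 h
          obtain ⟨x, hx⟩ := c.out
          exact Or.inl ((c.sub h hJ x hx).mono fun y hy =>
            Or.inr ⟨hIJ hy, fun e => hI (e ▸ hy)⟩))
    (fun I J hI hJ hlt => by
      have hJl : J.ncard ≤ H.ncard := hJ.elim (c.le J) fun h => h ▸ le_rfl
      rcases hI with hI | rfl
      swap
      · omega
      rcases hJ with hJ | rfl
      · obtain ⟨e, he, heI, h⟩ := VecMat.aug (ZMod 2) (toFinite I) (toFinite J) hI hJ hlt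
        exact ⟨e, he, heI, Or.inl h⟩
      by_cases hIJ : I ⊆ J
      · obtain ⟨e, he, heI⟩ := exists_mem_notMem_of_ncard_lt_ncard hlt
        refine ⟨e, he, heI, ?_⟩
        by_cases h : J ⊆ insert e I
        · exact Or.inr ((insert_subset he hIJ).antisymm h)
        · obtain ⟨h, hJ, hI⟩ := not_subset.1 h
          obtain ⟨x, hx⟩ := c.out
          exact Or.inl ((c.sub h hJ x hx).mono fun y hy =>
            Or.inr ⟨insert_subset he hIJ hy, fun e => hI (e ▸ hy)⟩)
      · obtain ⟨x, hxI, hx⟩ := not_subset.1 hIJ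
        obtain ⟨h, hh⟩ := c.ne
        obtain ⟨e, he, heI, h⟩ := VecMat.aug (ZMod 2) (toFinite I) (toFinite _) hI (c.sub h hh x hx)
          (by rwa [card_ex hh hx])
        exact ⟨e, he.elim (fun h => absurd (h ▸ hxI) heI) And.left, heI, Or.inl h⟩)
    (fun _ _ => subset_univ _)).matroid

theorem relax_E (c : CH φ H) : (relax c).E = univ := rfl

theorem relax_indep (c : CH φ H) (I : Set α) :
    (relax c).Indep I ↔ LinearIndepOn (ZMod 2) φ I ∨ I = H := Iff.rfl

theorem relax_spanning (c : CH φ H) {I X : Set α} (hI : (relax c).Indep I)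
    (hc : H.ncard ≤ I.ncard) (hX : I ⊆ X) : (relax c).Spanning X := by
  refine (hI.isBase_of_maximal fun J hJ hIJ => ?_).spanning_of_superset hX (subset_univ _)
  have hJl : J.ncard ≤ H.ncard := hJ.elim (c.le J) fun h => h ▸ le_rfl
  exact eq_of_subset_of_ncard_le hIJ (by omega)

theorem z2 (a : ZMod 2) (h : a ≠ 0) : a = 1 := by
  revert a
  decide

theorem four {W : Type} [AddCommGroup W] [Module (ZMod 2) W] (S : Set W) (a b c d : W)
    (hc : c ∈ span (ZMod 2) (insert a (insert b S))) (hd : d ∈ span (ZMod 2) (insert a (insert b S)))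
    (hca : c ∉ span (ZMod 2) (insert a S)) (hcb : c ∉ span (ZMod 2) (insert b S))
    (hda : d ∉ span (ZMod 2) (insert a S)) (hdb : d ∉ span (ZMod 2) (insert b S)) :
    c ∈ span (ZMod 2) (insert d S) := by
  have key : ∀ c, c ∈ span (ZMod 2) (insert a (insert b S)) → c ∉ span (ZMod 2) (insert a S) →
      c ∉ span (ZMod 2) (insert b S) → ∃ w ∈ span (ZMod 2) S, c = a + (b + w) := by
    intro c hc hca hcb
    obtain ⟨s, u, hu, rfl⟩ := mem_span_insert.1 hc
    obtain ⟨t, w, hw, rfl⟩ := mem_span_insert.1 hu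
    have hs : s = 1 := z2 s (by
      rintro rfl
      exact hcb (by simpa using hu))
    have ht : t = 1 := z2 t (by
      rintro rfl
      exact hca (mem_span_insert.2 ⟨s, w, hw, by simp⟩))
    exact ⟨w, hw, by simp [hs, ht]⟩
  obtain ⟨w, hw, rfl⟩ := key c hc hca hcb
  obtain ⟨w', hw', rfl⟩ := key d hd hda hdb
  exact mem_span_insert.2 ⟨1, w - w', sub_mem hw hw', by rw [one_smul]; abel⟩

theorem no_U25 (c : CH φ H) : ¬ ∃ N : Matroid α, Matroid.IsMinor N (relax c) ∧
    N.E.ncard = 2 ^ 2 + 1 ∧ ∀ I : Set α, I ⊆ N.E → (N.Indep I ↔ I.ncard ≤ 2) := by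
  rintro ⟨N, ⟨C, D, rfl⟩, hE, hN⟩
  obtain ⟨K, hK⟩ := (relax c).exists_isBasis' C
  set E := ((relax c).contract C).delete D |>.E with hEdef
  have hEK : ∀ x ∈ E, x ∉ K := fun x hx h => hx.1.2 (hK.subset h)
  have h1 : ∀ I ⊆ E, ((relax c).Indep (I ∪ K) ↔ I.ncard ≤ 2) := by
    intro I hI
    rw [← hN I hI, Matroid.delete_indep_iff, hK.contract_indep_iff]
    exact ⟨fun h => ⟨⟨h, disjoint_right.2 fun x hx => (hI hx).1.2⟩,
      disjoint_left.2 fun x hx => (hI hx).2⟩, fun h => h.1.1⟩
  obtain ⟨h, hh⟩ : ∃ h, ∀ I ⊆ E \ {h}, I.Nonempty → I ∪ K ≠ H := by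
    by_cases hHK : H ⊆ K
    · obtain ⟨h, -⟩ := c.ne
      refine ⟨h, fun I hI ⟨x, hx⟩ he => hEK x (hI hx).1 (hHK ?_)⟩
      rw [← he]
      exact Or.inl hx
    · obtain ⟨h, h2, h3⟩ := not_subset.1 hHK
      refine ⟨h, fun I hI _ he => ?_⟩
      rw [← he] at h2
      exact (hI (h2.resolve_right h3)).2 rfl
  have h4 : 3 < (E \ {h}).ncard := by
    have := ncard_le_ncard_sdiff_add_ncard E {h}
    rw [ncard_singleton] at this
    omega
  obtain ⟨a, ha, b, hb, x, hx, y, hy, hab, hax, hay, hbx, hby, hxy⟩ :=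
    (three_lt_ncard (toFinite _)).1 h4
  have pair : ∀ u ∈ E \ {h}, ∀ v ∈ E \ {h}, u ≠ v →
      LinearIndepOn (ZMod 2) φ (insert u (insert v K)) := by
    intro u hu v hv huv
    have := (h1 {u, v} (pair_subset hu.1 hv.1)).2 (ncard_pair huv).le
    rw [relax_indep] at this
    have h5 := this.resolve_right (hh _ (pair_subset hu hv) (insert_nonempty _ _))
    rwa [insert_union, singleton_union] at h5
  have pair' : ∀ u ∈ E \ {h}, ∀ v ∈ E \ {h}, u ≠ v →
      φ u ∉ span (ZMod 2) (insert (φ v) (φ '' K)) := by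
    intro u hu v hv huv
    have := ((linearIndepOn_insert (by simp [huv, hEK u hu.1])).1 (pair u hu v hv huv)).2
    rwa [image_insert_eq] at this
  have tri : ∀ u ∈ E \ {h}, u ≠ a → u ≠ b →
      φ u ∈ span (ZMod 2) (insert (φ a) (insert (φ b) (φ '' K))) := by
    intro u hu hua hub
    by_contra hn
    have := (h1 {u, a, b} (insert_subset hu.1 (pair_subset ha.1 hb.1))).1 (Or.inl (by
      rw [insert_union, insert_union, singleton_union,
        linearIndepOn_insert (by simp [hua, hub, hEK u hu.1])]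
      exact ⟨pair a ha b hb hab, by rwa [image_insert_eq, image_insert_eq]⟩))
    rw [ncard_insert_of_notMem (by simp [hua, hub]), ncard_pair hab] at this
    omega
  exact pair' x hx y hy hxy (four _ _ _ _ _ (tri x hx hax.symm hbx.symm)
    (tri y hy hay.symm hby.symm) (pair' x hx a ha hax.symm) (pair' x hx b hb hbx.symm)
    (pair' y hy a ha hay.symm) (pair' y hy b hb hby.symm))

theorem not_rep (c : CH φ H) {a b : α} (ha : a ∉ H) (hb : b ∉ H) (hab : a ≠ b)
    (hi : LinearIndepOn (ZMod 2) φ {a, b}) {W : Type} [AddCommGroup W] [Module (ZMod 2) W]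
    (v : α → W) (hv : ∀ I, (relax c).Indep I ↔ LinearIndepOn (ZMod 2) v I) : False := by
  classical
  have := Fintype.ofFinite H
  have key : ∀ x ∉ H, v x = ∑ h : H, v h := by
    intro x hx
    have h1 : v x ∈ span (ZMod 2) (v '' H) := by
      by_contra hn
      have h2 := (hv _).2 ((linearIndepOn_insert hx).2 ⟨(hv H).1 (Or.inr rfl), hn⟩)
      have h3 : (insert x H).ncard ≤ H.ncard := h2.elim (c.le _) fun h => h.symm ▸ le_rfl
      rw [ncard_insert_of_notMem hx] at h3
      omega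
    rw [image_eq_range, mem_span_range_iff_exists_fun] at h1
    obtain ⟨s, hs⟩ := h1
    rw [← hs]
    refine Finset.sum_congr rfl fun h _ => ?_
    rw [z2 (s h), one_smul]
    intro h0
    apply ((linearIndepOn_insert (fun h => hx h.1)).1 ((hv _).1 (Or.inl (c.sub h h.2 x hx)))).2
    rw [← hs]
    refine sum_mem fun k _ => ?_
    by_cases hk : k = h
    · simp [hk, h0]
    · exact smul_mem _ _ (subset_span ⟨k, ⟨k.2, fun e => hk (Subtype.ext e)⟩, rfl⟩)
  have h2 := ((hv _).1 (Or.inl hi)).injOn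
  exact hab (h2 (by simp) (by simp) (by rw [key a ha, key b hb]))

section Ex

variable (m : ℕ)

abbrev AA : Type := (Fin m → ZMod 2) ⊕ Option (Fin m)

/-- Affine points together with a circuit spanning the hyperplane at infinity. -/
def ph : AA m → (Fin m → ZMod 2) × ZMod 2
  | .inl y => (y, 1)
  | .inr none => (1, 0)
  | .inr (some i) => (Pi.single i 1, 0)

theorem card_H : (range (Sum.inr : Option (Fin m) → AA m)).ncard = m + 1 := by
  rw [ncard_range_of_injective Sum.inr_injective]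
  simp

theorem ch : CH (ph m) (range Sum.inr) where
  sub := by
    rintro _ ⟨h, rfl⟩ (y | y) hy
    swap
    · exact absurd ⟨y, rfl⟩ hy
    rw [linearIndepOn_iff]
    intro l hl h0
    rw [Finsupp.mem_supported'] at hl
    have h1 : ∀ z, z ≠ y → l (.inl z) = 0 := fun z hz => hl _ (by simpa using hz)
    have h2 : l (.inr h) = 0 := hl _ (by simp)
    rw [Finsupp.linearCombination_apply, Finsupp.sum_fintype _ _ (by simp),
      Fintype.sum_sum_type, Fintype.sum_option, Finset.sum_eq_single y (by simp +contextual [h1])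
        (by simp)] at h0
    have h3 : l (.inl y) = 0 := by simpa [ph, Prod.snd_sum] using congrArg Prod.snd h0
    have h4 : ∀ i, l (.inr none) + l (.inr (some i)) = 0 := fun i => by
      simpa [ph, Prod.fst_sum, h3, Pi.single_apply] using congrFun (congrArg Prod.fst h0) i
    have h5 : l (.inr none) = 0 := by
      rcases h with _ | i
      · exact h2
      · simpa [h2] using h4 i
    ext (z | _ | i)
    · by_cases hz : z = y
      · rw [hz, h3]
        rfl
      · exact h1 z hz
    · exact h5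
    · simpa [h5] using h4 i
  le I hI := by
    rw [card_H, ← VecMat.finrank_span_of_indep (ZMod 2) (toFinite I) hI]
    refine (Submodule.finrank_le _).trans ?_
    simp
  ne := ⟨_, none, rfl⟩
  out := ⟨.inl 0, by simp⟩

set_option synthInstance.maxSize 1000 in
theorem tab : ∀ a b c d e k : ZMod 2, e = 0 ∨ k = 0 → a + e = 0 ∨ c + k = 0 →
    b + e = 0 ∨ d + k = 0 → a + b + e = 0 ∨ c + d + k = 0 → a * d = b * c := by
  decide

theorem round (X Y : Set (AA m)) (h : X ∪ Y = univ) :
    (relax (ch m)).Spanning X ∨ (relax (ch m)).Spanning Y := by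
  by_contra hn
  push Not at hn
  have key : ∀ X : Set (AA m), ¬ (relax (ch m)).Spanning X →
      ∃ f : ((Fin m → ZMod 2) × ZMod 2) →ₗ[ZMod 2] ZMod 2, f ≠ 0 ∧ ∀ x ∈ X, f (ph m x) = 0 := by
    intro X hX
    have h1 : span (ZMod 2) (ph m '' X) < ⊤ := by
      rw [lt_top_iff_ne_top]
      intro h1
      obtain ⟨I, hI⟩ := (VecMat.vec (ZMod 2) (ph m)).exists_isBasis X (subset_univ _)
      have h2 := VecMat.eRk_eq_of_rep (F := ZMod 2) (M := VecMat.vec (ZMod 2) (ph m)) (φ := ph m)
        (by simp) (X := X) (subset_univ _) (toFinite _)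
      rw [h1, ← hI.encard_eq_eRk, ← (toFinite I).cast_ncard_eq, Nat.cast_inj] at h2
      refine hX (relax_spanning _ (Or.inl (by simpa using hI.indep)) ?_ hI.subset)
      rw [card_H, h2]
      simp
    obtain ⟨f, hf, hf'⟩ := Submodule.exists_le_ker_of_lt_top _ h1
    exact ⟨f, hf, fun x hx => hf' (subset_span ⟨x, hx, rfl⟩)⟩
  obtain ⟨f, hf, hf'⟩ := key X hn.1
  obtain ⟨g, hg, hg'⟩ := key Y hn.2
  have h1 : ∀ x, f (ph m x) = 0 ∨ g (ph m x) = 0 := fun x =>
    (h.symm ▸ mem_univ x : x ∈ X ∪ Y).imp (hf' x) (hg' x)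
  have sp : ∀ (f : ((Fin m → ZMod 2) × ZMod 2) →ₗ[ZMod 2] ZMod 2) y,
      f (y, 1) = f (y, 0) + f (0, 1) := fun f y => by
    rw [← map_add]
    simp
  have sp2 : ∀ (f : ((Fin m → ZMod 2) × ZMod 2) →ₗ[ZMod 2] ZMod 2) y z,
      f (y + z, 0) = f (y, 0) + f (z, 0) := fun f y z => by
    rw [← map_add]
    simp
  have h2 : ∀ y, f (y, 0) + f (0, 1) = 0 ∨ g (y, 0) + g (0, 1) = 0 := fun y => by
    rw [← sp, ← sp]
    exact h1 (.inl y)
  have ez : ∀ f : ((Fin m → ZMod 2) × ZMod 2) →ₗ[ZMod 2] ZMod 2, (∀ y, f (y, 0) = 0) →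
      f (0, 1) = 0 → f = 0 := fun f h h' => LinearMap.ext fun ⟨y, t⟩ => by
    by_cases ht : t = 0
    · rw [ht, h]
      rfl
    · rw [z2 t ht, sp, h, h']
      rfl
  have nz : ∀ f g : ((Fin m → ZMod 2) × ZMod 2) →ₗ[ZMod 2] ZMod 2, f ≠ 0 → g ≠ 0 →
      (∀ y, f (y, 0) + f (0, 1) = 0 ∨ g (y, 0) + g (0, 1) = 0) → ∃ y, f (y, 0) ≠ 0 := by
    intro f g hf hg h2
    by_contra hy
    push Not at hy
    have h3 : f (0, 1) ≠ 0 := fun h => hf (ez f hy h)
    have h4 : ∀ y, g (y, 0) + g (0, 1) = 0 := fun y => (h2 y).resolve_left (by simpa [hy] using h3)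
    have h5 : g (0, 1) = 0 := by
      have := h4 0
      rwa [Prod.mk_zero_zero, map_zero, zero_add] at this
    exact hg (ez g (fun y => by simpa [h5] using h4 y) h5)
  obtain ⟨u, hu⟩ := nz f g hf hg h2
  obtain ⟨v, hv⟩ := nz g f hg hf fun y => (h2 y).symm
  have h3 : ∀ u v, f (u, 0) * g (v, 0) = f (v, 0) * g (u, 0) := by
    intro u v
    have a0 := h2 0
    have a1 := h2 u
    have a2 := h2 v
    have a3 := h2 (u + v)
    rw [sp2, sp2] at a3
    simp only [Prod.mk_zero_zero, map_zero, zero_add] at a0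
    revert a0 a1 a2 a3
    generalize f (u, 0) = a
    generalize f (v, 0) = b
    generalize g (u, 0) = c
    generalize g (v, 0) = d
    generalize f (0, 1) = e
    generalize g (0, 1) = k
    intro a1 a2 a3 a0
    exact tab a b c d e k a0 a1 a2 a3
  have h4 : ∀ i, f (Pi.single i 1, 0) = 0 := by
    intro i
    rcases h1 (.inr (some i)) with h | h
    · exact h
    · have := h3 (Pi.single i 1) v
      rw [show g (Pi.single i 1, 0) = 0 from h, mul_zero] at this
      exact (mul_eq_zero.1 this).resolve_right hv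
  apply hu
  have : f.comp (LinearMap.inl _ _ _) = 0 := by
    ext i
    simpa using h4 i
  exact LinearMap.congr_fun this u

open Classical in
theorem pg (hm : 0 < m) : ∃ N : Matroid (AA m), Matroid.IsMinor N (relax (ch m)) ∧
    ∃ g : AA m → Projectivization (ZMod 2) (Fin m → ZMod 2), Set.BijOn g N.E Set.univ ∧
      ∀ I : Set (AA m), N.Indep I ↔
        (I ⊆ N.E ∧ LinearIndependent (ZMod 2) (fun x : I => (g (x : AA m)).rep)) := by
  have h1 : (1 : Fin m → ZMod 2) ≠ 0 := fun h => one_ne_zero (congrFun h ⟨0, hm⟩)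
  have hrep : ∀ (y : Fin m → ZMod 2) (hy : y ≠ 0), (Projectivization.mk (ZMod 2) y hy).rep = y := by
    intro y hy
    obtain ⟨a, ha⟩ := Projectivization.exists_smul_eq_mk_rep (ZMod 2) y hy
    rw [← ha, Units.smul_def, z2 a a.ne_zero, one_smul]
  let g : AA m → Projectivization (ZMod 2) (Fin m → ZMod 2) := fun x =>
    if h : (ph m x).1 = 0 then Projectivization.mk _ 1 h1 else Projectivization.mk _ _ h
  have hE : ∀ x, x ∈ (((relax (ch m)).contract {.inl 0}).delete (range Sum.inr)).E ↔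
      ∃ y, y ≠ 0 ∧ x = .inl y := by
    rintro (y | y) <;> simp [relax_E]
  have hg : ∀ y, y ≠ 0 → (g (.inl y)).rep = y := fun y hy => by
    simp only [g, ph, dif_neg hy, hrep]
  refine ⟨((relax (ch m)).contract {.inl 0}).delete (range Sum.inr), ⟨_, _, rfl⟩, g,
    ⟨mapsTo_univ _ _, fun a ha b hb hab => ?_, fun p _ => ?_⟩, fun I => ?_⟩
  · obtain ⟨y, hy, rfl⟩ := (hE a).1 ha
    obtain ⟨z, hz, rfl⟩ := (hE b).1 hb
    rw [← hg y hy, ← hg z hz, hab]
  · refine ⟨.inl p.rep, (hE _).2 ⟨_, p.rep_nonzero, rfl⟩, ?_⟩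
    simp only [g, ph, dif_neg p.rep_nonzero, Projectivization.mk_rep]
  refine ⟨fun h => ⟨h.subset_ground, ?_⟩, fun h => ?_⟩
  all_goals
    have hI : I ⊆ (((relax (ch m)).contract {.inl 0}).delete (range Sum.inr)).E := by
      first | exact h.subset_ground | exact h.1
    have h0 : Sum.inl 0 ∉ I := fun h => (hI h).1.2 rfl
    have e1 : (fun x : I => (g (x : AA m)).rep) =
        LinearMap.fst (ZMod 2) _ (ZMod 2) ∘ fun x : I => ph m x := by
      ext1 ⟨x, hx⟩
      obtain ⟨y, hy, rfl⟩ := (hE x).1 (hI hx)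
      exact hg y hy
    have e2 : LinearMap.ker (LinearMap.fst (ZMod 2) (Fin m → ZMod 2) (ZMod 2)) =
        span (ZMod 2) {ph m (.inl 0)} := by
      ext ⟨y, t⟩
      simp [ph, mem_span_singleton, eq_comm]
    have e3 : ph m (.inl 0) ≠ 0 := by simp [ph]
    have e4 : (relax (ch m)).IsNonloop (.inl 0) := by
      rw [← Matroid.indep_singleton]
      exact Or.inl (LinearIndepOn.singleton e3)
  · rw [Matroid.delete_indep_iff, e4.contractElem_indep_iff, relax_indep] at h
    have h2 := (linearIndepOn_insert h0).1 (h.1.2.resolve_right fun h => by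
      have : Sum.inl 0 ∈ range (Sum.inr : Option (Fin m) → AA m) := h ▸ mem_insert _ _
      simp at this)
    rw [e1]
    refine LinearIndependent.map h2.1 ?_
    rw [e2, disjoint_span_singleton' e3, ← image_eq_range]
    exact h2.2
  · rw [Matroid.delete_indep_iff, e4.contractElem_indep_iff, relax_indep]
    refine ⟨⟨h0, Or.inl ((linearIndepOn_insert h0).2 ?_)⟩, disjoint_left.2 fun x hx => (hI hx).2⟩
    have h2 := h.2
    rw [e1] at h2
    have h3 := Submodule.range_ker_disjoint h2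
    rw [e2, disjoint_span_singleton' e3, ← image_eq_range] at h3
    exact ⟨h2.of_comp, h3⟩

theorem nonbin (hm : 0 < m) {W : Type} [AddCommGroup W] [Module (ZMod 2) W]
    (v : AA m → W) (hv : ∀ I, (relax (ch m)).Indep I ↔ LinearIndepOn (ZMod 2) v I) : False := by
  have h1 : (1 : Fin m → ZMod 2) ≠ 0 := fun h => one_ne_zero (congrFun h ⟨0, hm⟩)
  refine not_rep (ch m) (a := .inl 1) (b := .inl 0) (by simp) (by simp) (by simpa using h1) ?_ v hv
  rw [linearIndepOn_insert (by simpa using h1)]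
  refine ⟨LinearIndepOn.singleton (by simp [ph]), ?_⟩
  simp [ph, mem_span_singleton, h1.symm]

end Ex

end Pool.Agent.H28.Relax
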