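import Mathlib

set_option autoImplicit false
set_option linter.unusedSectionVars false

/-! A sphere of influence metric in the cut cone for every connected graph. -/

namespace Pool.Agent.H28.SIG

open Finset

variable {V : Type} [Fintype V] [DecidableEq V]

/-- An ordering of the vertices in which every vertex except the first has an earlier neighbour,
with `p v` the earliest neighbour. -/
structure Ord (G : SimpleGraph V) where
  ord : V → ℕ
  root : V
  p : V → V
  inj : Function.Injective ord
  root_le : ∀ v, ord root ≤ ord v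
  adj_p : ∀ v, v ≠ root → G.Adj (p v) v
  p_lt : ∀ v, v ≠ root → ord (p v) < ord v
  p_min : ∀ u v, G.Adj u v → ord (p v) ≤ ord u

theorem exists_ord (G : SimpleGraph V) (hG : G.Connected) : Nonempty (Ord G) := by
  classical
  obtain ⟨root⟩ := hG.nonempty
  let n := Fintype.card V
  let ix : V → ℕ := fun v => (Fintype.equivFin V v : ℕ)
  have hix : ∀ v, ix v < n := fun v => (Fintype.equivFin V v).2
  let ord : V → ℕ := fun v => G.dist root v * n + ix v
  have hlt : ∀ u v, G.dist root u < G.dist root v → ord u < ord v := by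
    intro u v h
    have h1 : (G.dist root u + 1) * n ≤ G.dist root v * n := Nat.mul_le_mul_right _ h
    have := hix u
    simp only [ord]
    rw [add_mul] at h1
    omega
  have hinj : Function.Injective ord := by
    intro u v h
    rcases lt_trichotomy (G.dist root u) (G.dist root v) with h1 | h1 | h1
    · have := hlt u v h1; omega
    · simp only [ord, h1] at h
      exact (Fintype.equivFin V).injective (Fin.ext (by simpa [ix] using h))
    · have := hlt v u h1; omega
  have hp : ∀ v, ∃ w, (v ≠ root → G.Adj w v ∧ ord w < ord v) ∧ ∀ u, G.Adj u v → ord w ≤ ord u := by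
    intro v
    by_cases hne : (Finset.univ.filter fun u => G.Adj u v).Nonempty
    · obtain ⟨w, hw, hmin⟩ := Finset.exists_min_image _ ord hne
      simp only [Finset.mem_filter, Finset.mem_univ, true_and] at hw hmin
      refine ⟨w, fun hv => ⟨hw, ?_⟩, hmin⟩
      obtain ⟨q, hq⟩ := hG.exists_walk_length_eq_dist v root
      cases q with
      | nil => exact absurd rfl hv
      | @cons _ b _ hab q =>
        refine lt_of_le_of_lt (hmin b hab.symm) (hlt _ _ ?_)
        have := SimpleGraph.dist_le q
        rw [SimpleGraph.Walk.length_cons] at hq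
        rw [SimpleGraph.dist_comm, SimpleGraph.dist_comm (u := root)]
        omega
    · refine ⟨v, fun hv => ?_, fun u hu => absurd ⟨u, by simpa using hu⟩ hne⟩
      obtain ⟨q⟩ := hG v root
      cases q with
      | nil => exact absurd rfl hv
      | @cons _ b _ hab q => exact absurd ⟨b, by simpa using hab.symm⟩ hne
  choose p hp1 hp2 using hp
  refine ⟨⟨ord, root, p, hinj, fun v => ?_, fun v hv => (hp1 v hv).1, fun v hv => (hp1 v hv).2,
    fun u v h => hp2 v u h⟩⟩
  by_cases hv : v = root
  · rw [hv]
  · exact (hlt _ _ (by rw [SimpleGraph.dist_self]; exact hG.pos_dist_of_ne (Ne.symm hv))).le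

variable {G : SimpleGraph V} (O : Ord G)

namespace Ord

/-- `i` is an ancestor of `w` -/
def T (i w : V) : Prop := Relation.ReflTransGen (fun a b => b ≠ O.root ∧ O.p b = a) i w

theorem T_refl (i : V) : O.T i i := Relation.ReflTransGen.refl

theorem T_le {i w : V} (h : O.T i w) : O.ord i ≤ O.ord w := by
  induction h with
  | refl => exact le_rfl
  | tail _ h ih => exact ih.trans (h.2 ▸ O.p_lt _ h.1).le

theorem T_p {i v : V} (hv : v ≠ O.root) (hi : i ≠ v) : O.T i v ↔ O.T i (O.p v) := by
  constructor
  · intro h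
    rcases Relation.ReflTransGen.cases_tail h with h | ⟨c, h1, h2⟩
    · exact absurd h.symm hi
    · rw [h2.2]; exact h1
  · exact fun h => h.tail ⟨hv, rfl⟩

def F (i x : V) : Prop := G.Adj i x ∧ O.ord i < O.ord x ∧ i ≠ O.p x

theorem F_lt {i x : V} (h : O.F i x) : O.ord (O.p x) < O.ord i :=
  lt_of_le_of_ne (O.p_min _ _ h.1) fun hh => h.2.2 (O.inj hh).symm

def C (k : V × V) (w : V) : Prop := O.T k.1 w ∨ (O.F k.1 k.2 ∧ O.T k.2 w)

theorem C_le {k : V × V} {w : V} (h : O.C k w) : O.ord k.1 ≤ O.ord w := by
  rcases h with h | h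
  · exact O.T_le h
  · exact h.1.2.1.le.trans (O.T_le h.2)

noncomputable def σ (i : V) : ℝ := (5 * (Fintype.card V : ℝ) ^ 2 + 1) ^ O.ord i

theorem σ_pos (i : V) : 0 < O.σ i := by unfold σ; positivity

theorem σ_mono {i j : V} (h : O.ord j ≤ O.ord i) : O.σ j ≤ O.σ i :=
  pow_le_pow_right₀ (le_add_of_nonneg_left (by positivity)) h

theorem σ_lt {i j : V} (h : O.ord j < O.ord i) :
    (5 * (Fintype.card V : ℝ) ^ 2 + 1) * O.σ j ≤ O.σ i := by
  unfold σ
  rw [← pow_succ']
  exact pow_le_pow_right₀ (le_add_of_nonneg_left (by positivity)) h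

noncomputable def wt (k : V × V) : ℝ := if k.2 = k.1 then 4 * Fintype.card V * O.σ k.1 else O.σ k.1

theorem wt_nonneg (k : V × V) : 0 ≤ O.wt k := by
  have := O.σ_pos k.1
  unfold wt
  split_ifs <;> positivity

open Classical in
noncomputable def X (w : V) (k : V × V) : ℝ := if O.C k w then O.wt k else 0

noncomputable def d (u w : V) : ℝ := ∑ k, |O.X u k - O.X w k|

theorem d_comm (u w : V) : O.d u w = O.d w u := by
  unfold d
  exact Finset.sum_congr rfl fun k _ => abs_sub_comm _ _

theorem d_self (u : V) : O.d u u = 0 := by simp [d]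

theorem d_nonneg (u w : V) : 0 ≤ O.d u w := Finset.sum_nonneg fun _ _ => abs_nonneg _

theorem d_lower {i u w : V} (hu : O.T i u) (hw : ¬ O.T i w) :
    4 * Fintype.card V * O.σ i ≤ O.d u w := by
  have h1 : |O.X u (i, i) - O.X w (i, i)| = 4 * Fintype.card V * O.σ i := by
    have h2 : O.C (i, i) u := Or.inl hu
    have h3 : ¬ O.C (i, i) w := fun h => h.elim hw fun h => hw h.2
    have := O.σ_pos i
    simp only [X, if_pos h2, if_neg h3, sub_zero, wt, if_true]
    exact abs_of_nonneg (by positivity)
  rw [← h1]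
  exact Finset.single_le_sum (f := fun k => |O.X u k - O.X w k|) (fun _ _ => abs_nonneg _)
    (Finset.mem_univ _)

theorem d_upper {i u w : V} (hu : O.ord u < O.ord i) (hw : O.ord w < O.ord i) :
    O.d u w < O.σ i := by
  set n : ℝ := (Fintype.card V : ℝ) with hn
  have hn0 : 0 ≤ n := by positivity
  have hs := O.σ_pos i
  set τ := O.σ i / (5 * n ^ 2 + 1) with hτ
  have hτ0 : 0 < τ := by positivity
  have h1 : ∀ k : V × V, |O.X u k - O.X w k| ≤ (if k.2 = k.1 then 4 * n * τ else 0) + τ := by
    intro k
    by_cases hk : O.ord k.1 < O.ord i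
    · have h2 : O.σ k.1 ≤ τ := by
        rw [hτ, le_div_iff₀ (by positivity), mul_comm]
        exact O.σ_lt hk
      have h3 : |O.X u k - O.X w k| ≤ O.wt k := by
        have := O.wt_nonneg k
        unfold X
        split_ifs <;> simp [abs_of_nonneg this, this]
      refine h3.trans ?_
      unfold wt
      split_ifs
      · nlinarith
      · linarith
    · have h2 : ¬ O.C k u := fun h => by have := O.C_le h; omega
      have h3 : ¬ O.C k w := fun h => by have := O.C_le h; omega
      simp only [X, if_neg h2, if_neg h3, sub_zero, abs_zero]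
      split_ifs <;> positivity
  have h4 : O.d u w ≤ 5 * n ^ 2 * τ := by
    refine (Finset.sum_le_sum fun k _ => h1 k).trans (le_of_eq ?_)
    rw [Finset.sum_add_distrib, Fintype.sum_prod_type]
    simp only [Finset.sum_ite_eq', Finset.mem_univ, if_true, Finset.sum_const, Finset.card_univ,
      nsmul_eq_mul, Fintype.card_prod]
    push_cast
    rw [← hn]
    ring
  have h5 : (5 * n ^ 2 + 1) * τ = O.σ i := by rw [hτ]; field_simp
  nlinarith

open Classical in
noncomputable def s (u v : V) : ℝ := ∑ i, if O.F i v ∧ O.T i u then O.σ i else 0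

theorem s_nonneg (u v : V) : 0 ≤ O.s u v :=
  Finset.sum_nonneg fun i _ => by have := O.σ_pos i; split_ifs <;> positivity

theorem s_le {u v i : V} (h : ∀ j, O.F j v → O.T j u → O.ord j ≤ O.ord i) :
    O.s u v ≤ Fintype.card V * O.σ i := by
  unfold s
  refine (Finset.sum_le_card_nsmul _ _ (O.σ i) fun j _ => ?_).trans (by simp)
  split_ifs with hj
  · exact O.σ_mono (h j hj.1 hj.2)
  · exact (O.σ_pos i).le

theorem le_s {u v : V} (h : O.F u v) : O.σ u ≤ O.s u v := by
  classical
  have := Finset.single_le_sum (f := fun i => if O.F i v ∧ O.T i u then O.σ i else 0)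
    (s := Finset.univ) (fun i _ => by have := O.σ_pos i; split_ifs <;> positivity) (Finset.mem_univ u)
  simp only [h, O.T_refl, and_self, if_true] at this
  unfold s
  convert this

theorem s_cases (u v : V) : O.s u v = 0 ∨
    ∃ i, O.F i v ∧ O.T i u ∧ O.s u v ≤ Fintype.card V * O.σ i := by
  classical
  by_cases hne : (Finset.univ.filter fun i => O.F i v ∧ O.T i u).Nonempty
  · obtain ⟨i, hi, hmax⟩ := Finset.exists_max_image _ O.ord hne
    simp only [Finset.mem_filter, Finset.mem_univ, true_and] at hi hmax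
    exact Or.inr ⟨i, hi.1, hi.2, O.s_le fun j h1 h2 => hmax j ⟨h1, h2⟩⟩
  · left
    refine Finset.sum_eq_zero fun i _ => if_neg fun h => hne ⟨i, by simpa using h⟩

theorem recur {u v : V} (h : O.ord u < O.ord v) :
    O.d u v = O.d (O.p v) v + O.d u (O.p v) - 2 * O.s u v := by
  classical
  have hv : v ≠ O.root := fun hh => by have := O.root_le u; rw [← hh] at this; omega
  have hy := O.p_lt v hv
  have h1 : O.s u v = ∑ k : V × V, if k.2 = v ∧ O.F k.1 v ∧ O.T k.1 u then O.wt k else 0 := by
    rw [Fintype.sum_prod_type]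
    unfold s
    refine Finset.sum_congr rfl fun i _ => ?_
    rw [Finset.sum_eq_single v]
    · by_cases hi : O.F i v ∧ O.T i u
      · have : v ≠ i := fun hh => by have := hi.1.2.1; rw [hh] at this; omega
        simp [hi, wt, this]
      · simp [hi]
    · intro x _ hx
      simp [hx]
    · simp
  rw [h1]
  unfold d
  rw [Finset.mul_sum, ← Finset.sum_add_distrib, ← Finset.sum_sub_distrib]
  refine Finset.sum_congr rfl fun k _ => ?_
  have hw := O.wt_nonneg k
  obtain ⟨i, x⟩ := k
  by_cases hi : i = v
  · subst hi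
    have a1 : O.C (i, x) i := Or.inl (O.T_refl i)
    have a2 : ¬ O.C (i, x) u := fun hh => by have := O.C_le hh; simp only at this; omega
    have a3 : ¬ O.C (i, x) (O.p i) := fun hh => by have := O.C_le hh; simp only at this; omega
    have a4 : ¬ O.F i i := fun hh => by have := hh.2.1; omega
    simp [X, a1, a2, a3, a4]
  by_cases hx : x = v ∧ O.F i v
  · obtain ⟨rfl, hF⟩ := hx
    have a1 : O.C (i, x) x := Or.inr ⟨hF, O.T_refl x⟩
    have a3 : ¬ O.C (i, x) (O.p x) := fun hh => by
      have := O.C_le hh; have := O.F_lt hF; simp only at *; omega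
    have a2 : O.C (i, x) u ↔ O.T i u :=
      ⟨fun hh => hh.elim id fun hh => by have := O.T_le hh.2; simp only at this; omega, Or.inl⟩
    by_cases hT : O.T i u
    · simp [X, a1, a2, a3, hF, hT, abs_of_nonneg hw]; ring
    · simp [X, a1, a2, a3, hF, hT]
  · have a1 : O.C (i, x) v ↔ O.C (i, x) (O.p v) := by
      unfold C
      rw [O.T_p hv hi]
      by_cases hxv : x = v
      · have : ¬ O.F i x := fun hh => hx ⟨hxv, hxv ▸ hh⟩
        simp [this]
      · rw [O.T_p hv hxv]
    have a2 : ¬ (x = v ∧ O.F i v ∧ O.T i u) := fun hh => hx ⟨hh.1, hh.2.1⟩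
    simp [X, a1, a2]

theorem card_pos' (v : V) : (1 : ℝ) ≤ Fintype.card V := by
  have : 0 < Fintype.card V := Fintype.card_pos_iff.2 ⟨v⟩
  exact_mod_cast this

theorem g_nonneg (u v : V) : 2 * O.s u v ≤ O.d u (O.p v) := by
  rcases O.s_cases u v with h | ⟨i, hF, hT, h⟩
  · rw [h, mul_zero]; exact O.d_nonneg _ _
  · have h1 := O.d_lower hT (w := O.p v) fun hh => by have := O.T_le hh; have := O.F_lt hF; omega
    have := O.σ_pos i
    have := card_pos' v
    nlinarith

theorem d_big {u v : V} (h : O.ord u < O.ord v) : O.σ v ≤ O.d u v := by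
  have h1 := O.d_lower (O.T_refl v) (w := u) fun hh => by have := O.T_le hh; omega
  rw [O.d_comm] at h1
  have := O.σ_pos v
  have := card_pos' v
  nlinarith

theorem d_pos {u v : V} (h : u ≠ v) : 0 < O.d u v := by
  rcases lt_or_gt_of_ne (O.inj.ne h) with h1 | h1
  · exact (O.σ_pos v).trans_le (O.d_big h1)
  · rw [O.d_comm]; exact (O.σ_pos u).trans_le (O.d_big h1)

theorem r_min {v : V} (hv : v ≠ O.root) {u : V} (h : u ≠ v) : O.d (O.p v) v ≤ O.d u v := by
  rcases lt_or_gt_of_ne (O.inj.ne h) with h1 | h1
  · rw [O.recur h1]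
    have := O.g_nonneg u v
    linarith
  · rw [O.d_comm u v]
    exact ((O.d_upper ((O.p_lt v hv).trans h1) h1).trans_le (O.d_big h1)).le

theorem main (r : V → ℝ) (hr : ∀ i, IsLeast {t | ∃ j, j ≠ i ∧ t = O.d i j} (r i)) {u v : V}
    (h : O.ord u < O.ord v) :
    (G.Adj u v → O.d u v < r u + r v) ∧ (¬ G.Adj u v → r u + r v ≤ O.d u v) := by
  have hrv : ∀ v, v ≠ O.root → r v = O.d (O.p v) v := by
    intro v hv
    apply le_antisymm
    · exact (hr v).2 ⟨O.p v, (O.adj_p v hv).ne, O.d_comm _ _⟩
    · obtain ⟨j, hj, h1⟩ := (hr v).1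
      rw [h1, O.d_comm v j]
      exact O.r_min hv hj
  have hv : v ≠ O.root := fun hh => by have := O.root_le u; rw [← hh] at this; omega
  rw [O.recur h, hrv v hv]
  constructor
  · intro hadj
    by_cases huy : u = O.p v
    · obtain ⟨j, hj, h1⟩ := (hr u).1
      have h2 := O.d_pos hj.symm
      have h3 := O.s_nonneg u v
      rw [← huy, O.d_self]
      linarith
    · have hF : O.F u v := ⟨hadj, h, huy⟩
      have h1 := O.F_lt hF
      have hu : u ≠ O.root := fun hh => by have := O.root_le (O.p v); rw [← hh] at this; omega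
      have h2 := O.recur h1
      have h3 := O.d_upper h1 (O.p_lt u hu)
      have h4 := O.le_s hF
      have h5 := O.s_nonneg (O.p v) u
      have h6 := O.σ_pos u
      rw [hrv u hu, O.d_comm u (O.p v)]
      linarith
  · intro hadj
    have huy : O.p v ≠ u := fun hh => hadj (hh ▸ O.adj_p v hv)
    rcases O.s_cases u v with h0 | ⟨i, hF, hT, hs⟩
    · have := (hr u).2 ⟨O.p v, huy, rfl⟩
      rw [h0]
      linarith
    · have hiu : i ≠ u := fun hh => hadj (hh ▸ hF.1)
      have h1 := O.F_lt hF
      have h2 := O.T_le hT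
      have hu : u ≠ O.root := fun hh => by have := O.root_le (O.p v); rw [← hh] at this; omega
      have h3 := O.recur (show O.ord (O.p v) < O.ord u by omega)
      have h4 := O.d_lower ((O.T_p hu hiu).1 hT) (w := O.p v) fun hh => by
        have := O.T_le hh; omega
      have h5 : O.s (O.p v) u ≤ Fintype.card V * O.σ i := O.s_le fun j _ hj => by
        have := O.T_le hj; omega
      rw [hrv u hu, O.d_comm u (O.p v)]
      rw [O.d_comm (O.p u)  (O.p v)] at h4
      linarith

end Ord

end Pool.Agent.H28.SIG
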