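import Mathlib
import Pool.Agent.H28.VecMat

set_option autoImplicit false

namespace Pool.Agent.H28.Scramble

open Set Pool.Agent.H28.VecMat

def phi : Fin 16 → Fin 4 → ZMod 2 :=
  ![![0,1,1,0], ![1,0,0,0], ![1,0,0,0], ![1,0,0,0],
    ![1,0,1,0], ![0,1,0,0], ![0,1,0,0], ![0,1,0,0],
    ![1,1,0,0], ![0,0,1,0], ![0,0,1,0], ![0,0,1,0],
    ![0,0,0,1], ![0,0,0,1], ![0,0,0,1], ![0,0,0,1]]

noncomputable def M : Matroid (Fin 16) := vec (ZMod 2) phi

def FF : Fin 4 → Finset (Fin 16) := ![{0,1,2,3}, {4,5,6,7}, {8,9,10,11}, {12,13,14,15}]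
def bb : Fin 4 → Fin 4 → Fin 16 := ![![0,1,9,12], ![4,2,5,13], ![8,6,10,14], ![3,7,11,15]]
def BB : Fin 4 → Finset (Fin 16) := fun i => Finset.univ.image (bb i)

theorem union : ∑ i, (FF i).val = ∑ i, (BB i).val := by decide +kernel

theorem base (i : Fin 4) : M.IsBase (↑(BB i) : Set (Fin 16)) := by
  have hinj : ∀ i, Function.Injective (bb i) := by decide +kernel
  have hli : ∀ i, ∀ g : Fin 4 → ZMod 2, ∑ j, g j • phi (bb i j) = 0 → ∀ j, g j = 0 := by
    decide +kernel
  have h1 : M.Indep (range (bb i)) := by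
    rw [M, vec_indep, linearIndepOn_range_iff (hinj i)]
    exact Fintype.linearIndependent_iff.2 (hli i)
  have e : (↑(BB i) : Set (Fin 16)) = range (bb i) := by simp [BB]
  rw [e]
  obtain ⟨B, hB, hsub⟩ := h1.exists_isBase_superset
  have h2 : B.ncard ≤ 4 := by
    have hB' : LinearIndepOn (ZMod 2) phi B := (vec_indep _ _ _).1 hB.indep
    rw [← finrank_span_of_indep _ (toFinite B) hB']
    exact (Submodule.finrank_le _).trans (by simp)
  have h3 : (range (bb i)).ncard = 4 := by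
    rw [ncard_range_of_injective (hinj i)]; simp
  rwa [eq_of_subset_of_ncard_le hsub (by omega) (toFinite _)]

theorem col (a b c d : Fin 16) (ha : a ∈ FF 0) (hb : b ∈ FF 1) (hc : c ∈ FF 2) (hd : d ∈ FF 3)
    (h : ∀ g : Fin 4 → ZMod 2, ∑ j, g j • phi (![a, b, c, d] j) = 0 → ∀ j, g j = 0) :
    ((if a = 0 then 1 else 0) + (if b = 4 then 1 else 0) + (if c = 8 then 1 else 0) : ZMod 2)
      = 0 := by
  simp only [FF, Matrix.cons_val, Finset.mem_insert, Finset.mem_singleton, Matrix.cons_val_zero,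
    Matrix.cons_val_one] at ha hb hc hd
  revert h
  rcases ha with rfl | rfl | rfl | rfl <;> rcases hb with rfl | rfl | rfl | rfl <;>
    rcases hc with rfl | rfl | rfl | rfl <;> rcases hd with rfl | rfl | rfl | rfl <;>
    decide +kernel

theorem row (s : Fin 4 → Fin 16) (hs : Function.Injective s) (i : Fin 4) (h : ∀ j, s j ∈ FF i)
    (x : Fin 16) (hx : x ∈ FF i) : ∑ j, (if s j = x then 1 else 0 : ZMod 2) = 1 := by
  have hc : ∀ i, (FF i).card = 4 := by decide
  have : Finset.univ.image s = FF i := Finset.eq_of_subset_of_card_le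
    (fun y hy => by obtain ⟨j, -, rfl⟩ := Finset.mem_image.1 hy; exact h j)
    (by rw [Finset.card_image_of_injective _ hs, hc]; simp)
  rw [← this] at hx
  obtain ⟨j, -, rfl⟩ := Finset.mem_image.1 hx
  simp [hs.eq_iff]

theorem no_dec : ¬ ∃ σ : Fin 4 → Fin 4 → Fin 16,
    (∀ i, Function.Injective (σ i) ∧ ∀ j, σ i j ∈ FF i) ∧
    (∀ j, Function.Injective (fun i => σ i j) ∧ M.IsBase (range (fun i => σ i j))) := by
  rintro ⟨σ, h1, h2⟩
  have key : ∀ j, ((if σ 0 j = 0 then 1 else 0) + (if σ 1 j = 4 then 1 else 0) +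
      (if σ 2 j = 8 then 1 else 0) : ZMod 2) = 0 := by
    intro j
    have h3 := (vec_indep _ _ _).1 (h2 j).2.indep
    rw [linearIndepOn_range_iff (h2 j).1, Fintype.linearIndependent_iff] at h3
    refine col _ _ _ (σ 3 j) ((h1 0).2 j) ((h1 1).2 j) ((h1 2).2 j) ((h1 3).2 j) fun g hg =>
      h3 g ?_
    simpa [Fin.sum_univ_four] using hg
  have := Finset.sum_eq_zero (s := Finset.univ) fun j _ => key j
  rw [Finset.sum_add_distrib, Finset.sum_add_distrib,
    row _ (h1 0).1 0 (h1 0).2 0 (by decide), row _ (h1 1).1 1 (h1 1).2 4 (by decide),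
    row _ (h1 2).1 2 (h1 2).2 8 (by decide)] at this
  revert this
  decide

end Pool.Agent.H28.Scramble
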