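import Mathlib

/-!
Splits of tournaments up to switching: inserting one point into a linear order.
-/

namespace Pool.Agent.H28.Semi

open Finset

variable {V : Type} [DecidableEq V]

def lt (r : V → ℕ) (x y : V) : ZMod 2 := if r x < r y then 1 else 0

def le (r : V → ℕ) (x y : V) : ZMod 2 := if r x ≤ r y then 1 else 0

def Split (τ : V → V → ZMod 2) (K A : Finset V) : Prop :=
  ∀ a ∈ A, ∀ a' ∈ A, ∀ x ∈ K, x ∉ A → ∀ y ∈ K, y ∉ A → τ a x + τ a' x + τ a y + τ a' y = 0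

theorem z0 : (2 : ZMod 2) = 0 := rfl

theorem z1 : ∀ a b c d e f : ZMod 2, a + e + c + f = 0 → b + e + d + f = 0 → a + b + c + d = 0 := by
  decide

theorem z3 : ∀ a b c d e f : ZMod 2, a + b + e + f = 0 → c + d + e + f = 0 → a + b + c + d = 0 := by
  decide

theorem Split.union {τ : V → V → ZMod 2} {K B B' : Finset V} (h : Split τ K B) (h' : Split τ K B')
    {p} (hp : p ∈ B) (hp' : p ∈ B') : Split τ K (B ∪ B') := by
  intro a ha a' ha' x hx hxA y hy hyA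
  simp only [mem_union, not_or] at ha ha' hxA hyA
  have : ∀ a, a ∈ B ∨ a ∈ B' → τ a x + τ p x + τ a y + τ p y = 0 := by
    rintro a (ha | ha)
    · exact h a ha p hp x hx hxA.1 y hy hyA.1
    · exact h' a ha p hp' x hx hxA.2 y hy hyA.2
  exact z1 _ _ _ _ _ _ (this a ha) (this a' ha')

theorem Split.inter {τ : V → V → ZMod 2} {K B B' : Finset V} (h : Split τ K B) (h' : Split τ K B')
    {t} (ht : t ∈ K) (h1 : t ∉ B) (h2 : t ∉ B') : Split τ K (B ∩ B') := by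
  intro a ha a' ha' x hx hxA y hy hyA
  simp only [mem_inter, not_and_or] at ha ha' hxA hyA
  have : ∀ x ∈ K, x ∉ B ∨ x ∉ B' → τ a x + τ a' x + τ a t + τ a' t = 0 := by
    rintro x hx (hxA | hxA)
    · exact h a ha.1 a' ha'.1 x hx hxA t ht h1
    · exact h' a ha.2 a' ha'.2 x hx hxA t ht h2
  exact z3 _ _ _ _ _ _ (this x hx hxA) (this y hy hyA)

omit [DecidableEq V] in
theorem Split.mono {τ : V → V → ZMod 2} {K K' B : Finset V} (h : Split τ K B) (hK : K' ⊆ K) :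
    Split τ K' B := fun a ha a' ha' x hx hxA y hy hyA => h a ha a' ha' x (hK hx) hxA y (hK hy) hyA

theorem Split.compl {τ : V → V → ZMod 2} {K B : Finset V} (h : Split τ K B)
    (as : ∀ x ∈ K, ∀ y ∈ K, x ≠ y → τ x y + τ y x = 1) : Split τ K (K \ B) := by
  intro a ha a' ha' x hx hxA y hy hyA
  simp only [mem_sdiff, not_and, not_not] at ha ha' hxA hyA
  have hx' := hxA hx
  have hy' := hyA hy
  have e := h x hx' y hy' a ha.1 ha.2 a' ha'.1 ha'.2
  have e1 := as a ha.1 x hx (by rintro rfl; exact ha.2 hx')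
  have e2 := as a' ha'.1 x hx (by rintro rfl; exact ha'.2 hx')
  have e3 := as a ha.1 y hy (by rintro rfl; exact ha.2 hy')
  have e4 := as a' ha'.1 y hy (by rintro rfl; exact ha'.2 hy')
  revert e e1 e2 e3 e4
  generalize τ a x = p1, τ a' x = p2, τ a y = p3, τ a' y = p4, τ x a = q1, τ x a' = q2,
    τ y a = q3, τ y a' = q4
  revert p1 p2 p3 p4 q1 q2 q3 q4
  decide

theorem ivt (f : ℕ → Prop) {i j : ℕ} (hij : i ≤ j) (hi : f i) (hj : ¬ f j) :
    ∃ k, i ≤ k ∧ k < j ∧ f k ∧ ¬ f (k + 1) := by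
  induction j, hij using Nat.le_induction with
  | base => exact absurd hi hj
  | succ j hij ih =>
    by_cases h : f j
    · exact ⟨j, hij, Nat.lt_succ_self _, h, hj⟩
    · obtain ⟨k, h1, h2, h3⟩ := ih h
      exact ⟨k, h1, by omega, h3⟩

omit [DecidableEq V] in
theorem enum (S : Finset V) (hS : S.Nonempty) (r : V → ℕ) (hr : Set.InjOn r S) :
    ∃ (m : ℕ) (e : ℕ → V), 0 < m ∧ (∀ i, e i ∈ S) ∧ (∀ i, e (i % m) = e i) ∧
      (∀ i < m, ∀ j < m, (r (e i) < r (e j) ↔ i < j)) ∧ ∀ x ∈ S, ∃ i < m, e i = x := by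
  have hm : 0 < (S.image r).card := card_pos.2 (hS.image r)
  have : ∀ i : Fin (S.image r).card, ∃ x ∈ S, r x = (S.image r).orderEmbOfFin rfl i := fun i =>
    mem_image.1 (orderEmbOfFin_mem _ rfl i)
  choose g g1 g2 using this
  refine ⟨(S.image r).card, fun i => g ⟨i % _, Nat.mod_lt _ hm⟩, hm, fun i => g1 _,
    fun i => by simp, fun i hi j hj => ?_, fun x hx => ?_⟩
  · simp only [g2, OrderEmbedding.lt_iff_lt, Fin.mk_lt_mk, Nat.mod_eq_of_lt hi, Nat.mod_eq_of_lt hj]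
  · have : r x ∈ Set.range ((S.image r).orderEmbOfFin rfl) := by
      rw [range_orderEmbOfFin]; exact mem_coe.2 (mem_image_of_mem r hx)
    obtain ⟨i, hi⟩ := this
    refine ⟨i, i.2, hr (g1 _) hx ?_⟩
    rw [g2, ← hi]
    simp [Nat.mod_eq_of_lt i.2]

theorem good {τ : V → V → ZMod 2} {S : Finset V} {v : V} (hv : v ∉ S) {r : V → ℕ}
    (as : ∀ x ∈ S, ∀ y ∈ S, x ≠ y → τ x y + τ y x = 1)
    (hs : ∀ A ⊆ S, Split τ S A → Split (lt r) S A)
    {m : ℕ} {e : ℕ → V} (hm : 0 < m) (e1 : ∀ i, e i ∈ S) (e2 : ∀ i, e (i % m) = e i)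
    (e3 : ∀ i < m, ∀ j < m, (r (e i) < r (e j) ↔ i < j)) (e4 : ∀ x ∈ S, ∃ i < m, e i = x) :
    ∃ i < m, ∀ B ⊆ S, Split τ (insert v S) B → B ≠ S → e i ∉ B ∨ e (i + 1) ∉ B := by
  classical
  by_contra hc
  push Not at hc
  let F : Finset V → Prop := fun B => B ⊆ S ∧ Split τ (insert v S) B ∧ B ≠ S
  let Mx : Finset V → Prop := fun B => F B ∧ ∀ B', F B' → B ⊆ B' → B' = B
  have H : ∀ i, ∃ B, Mx B ∧ e i ∈ B ∧ e (i + 1) ∈ B := by
    intro i
    obtain ⟨B, b1, b2, b3, b4, b5⟩ := hc (i % m) (Nat.mod_lt _ hm)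
    obtain ⟨C, hC, hmax⟩ := exists_max_image (S.powerset.filter fun C => F C ∧ B ⊆ C) card
      ⟨B, by simp only [mem_filter, mem_powerset]; exact ⟨b1, ⟨b1, b2, b3⟩, Subset.rfl⟩⟩
    simp only [mem_filter, mem_powerset] at hC hmax
    refine ⟨C, ⟨hC.2.1, fun B' h1 h2 =>
      (eq_of_subset_of_card_le h2 (hmax B' ⟨h1.1, h1, hC.2.2.trans h2⟩)).symm⟩,
      hC.2.2 (e2 i ▸ b4), hC.2.2 ?_⟩
    rw [← e2 (i + 1), ← Nat.mod_add_mod, e2]
    exact b5
  have U : ∀ B B', Mx B → F B' → ∀ p ∈ B, p ∈ B' → ∀ q ∈ B', q ∉ B → ∀ x ∈ S, x ∉ B' → x ∈ B := by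
    intro B B' h1 h2 p hp hp' q hq hq' x hx hx'
    by_contra hn
    have := h1.2 (B ∪ B') ⟨union_subset h1.1.1 h2.1, h1.1.2.1.union h2.2.1 hp hp', fun h => by
      rw [← h] at hx; simp [hx', hn] at hx⟩ subset_union_left
    exact hq' (this ▸ mem_union_right _ hq)
  have ex : ∀ B, F B → ∃ x ∈ S, x ∉ B := fun B h => by
    by_contra hn
    push Not at hn
    exact h.2.2 (Subset.antisymm h.1 hn)
  have vi := mem_insert_self v S
  have FC : ∀ B0 B1, Mx B0 → Mx B1 → (∀ x ∈ S, x ∉ B0 → x ∈ B1) → ∀ B2, Mx B2 → ∀ c1 ∈ B2, ∀ c2 ∈ B2,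
      c1 ∉ B0 → c2 ∉ B1 → False := by
    intro B0 B1 h0 h1 cov B2 h2 c1 a1 c2 a2 n1 n2
    have s1 := h2.1.1 a1
    have s2 := h2.1.1 a2
    have m1 := cov c1 s1 n1
    have m2 : c2 ∈ B0 := by by_contra hn; exact n2 (cov c2 s2 hn)
    obtain ⟨c3, s3, n3⟩ := ex B2 h2.1
    have m3 := U B0 B2 h0 h2.1 c2 m2 a2 c1 a1 n1 c3 s3 n3
    have m4 := U B1 B2 h1 h2.1 c1 m1 a1 c2 a2 n2 c3 s3 n3
    have q0 := h0.1.2.1 c2 m2 c3 m3 c1 (mem_insert_of_mem s1) n1 v vi fun h => hv (h0.1.1 h)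
    have q1 := h1.1.2.1 c1 m1 c3 m4 c2 (mem_insert_of_mem s2) n2 v vi fun h => hv (h1.1.1 h)
    have q2 := h2.1.2.1 c1 a1 c2 a2 c3 (mem_insert_of_mem s3) n3 v vi fun h => hv (h2.1.1 h)
    have t1 := as c1 s1 c2 s2 (by rintro rfl; exact n1 m2)
    have t2 := as c1 s1 c3 s3 (by rintro rfl; exact n3 a1)
    have t3 := as c2 s2 c3 s3 (by rintro rfl; exact n3 a2)
    have : (1 : ZMod 2) = 0 := by
      linear_combination q0 + q1 + q2 - t1 - t2 - t3 - (τ c1 v + τ c2 v + τ c3 v + 1) * z0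
    exact one_ne_zero this
  have W : ∀ B0 B1, Mx B0 → Mx B1 → (∀ x ∈ S, x ∉ B0 → x ∈ B1) → ∀ i j, i < j → j < m →
      e i ∉ B0 → e j ∉ B1 → False := by
    intro B0 B1 h0 h1 cov i j hij hj n0 n1
    have cov' : ∀ x ∈ S, x ∉ B1 → x ∈ B0 := fun x hx h => by
      by_contra hn; exact h (cov x hx hn)
    obtain ⟨k, k1, k2, k3, k4⟩ := ivt (fun k => e k ∉ B0) hij.le n0 (not_not.2 (cov' _ (e1 _) n1))
    have ei : e (i + m) = e i := by rw [← e2, Nat.add_mod_right, e2]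
    obtain ⟨l, l1, l2, l3, l4⟩ := ivt (fun k => e k ∉ B1) (show j ≤ i + m by omega) n1
      (not_not.2 (ei ▸ cov _ (e1 _) n0))
    simp only [not_not] at k4 l4
    have k5 : e (k + 1) ∈ B1 := by
      by_contra hn
      obtain ⟨B2, b1, b2, b3⟩ := H k
      exact FC B0 B1 h0 h1 cov B2 b1 _ b2 _ b3 k3 hn
    have l5 : e (l + 1) ∈ B0 := by
      by_contra hn
      obtain ⟨B2, b1, b2, b3⟩ := H l
      exact FC B0 B1 h0 h1 cov B2 b1 _ b3 _ b2 hn l3
    have k6 : k + 1 ≠ j := fun h => n1 (h ▸ k5)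
    have l6 : l + 1 ≠ i + m := fun h => n0 (ei ▸ h ▸ l5)
    have sp := hs (B0 ∩ B1) (inter_subset_left.trans h0.1.1)
      ((h0.1.2.1.inter h1.1.2.1 vi (fun h => hv (h0.1.1 h)) fun h => hv (h1.1.1 h)).mono
        (subset_insert _ _))
    have := sp _ (mem_inter.2 ⟨k4, k5⟩) _ (mem_inter.2 ⟨l5, l4⟩) (e i) (e1 _) (by simp [n0])
      (e j) (e1 _) (by simp [n1])
    rw [← e2 (l + 1)] at this
    have hq := Nat.mod_lt (l + 1) hm
    simp only [lt, e3 _ (show k + 1 < m by omega) _ (show i < m by omega),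
      e3 _ (show k + 1 < m by omega) _ hj, e3 _ hq _ (show i < m by omega), e3 _ hq _ hj] at this
    rw [if_neg (by omega), if_pos (show k + 1 < j by omega)] at this
    by_cases hl : l + 1 < m
    · rw [Nat.mod_eq_of_lt hl, if_neg (by omega), if_neg (by omega)] at this
      revert this; decide
    · have : (l + 1) % m = l + 1 - m := by
        rw [Nat.mod_eq_sub_mod (by omega), Nat.mod_eq_of_lt (by omega)]
      rename_i h
      rw [this, if_pos (by omega), if_pos (by omega)] at h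
      revert h; decide
  obtain ⟨B0, h0, a0, -⟩ := H 0
  obtain ⟨x, hx, nx⟩ := ex B0 h0.1
  obtain ⟨j, hj, rfl⟩ := e4 x hx
  obtain ⟨k, -, k2, k3, k4⟩ := ivt (fun k => e k ∈ B0) (Nat.zero_le j) a0 nx
  obtain ⟨B1, h1, a1, a2⟩ := H k
  have cov' := U B0 B1 h0 h1.1 _ k3 a1 _ a2 k4
  have cov : ∀ x ∈ S, x ∉ B0 → x ∈ B1 := fun x hx h => by
    by_contra hn; exact h (cov' x hx hn)
  obtain ⟨y, hy, ny⟩ := ex B1 h1.1
  obtain ⟨i, hi, rfl⟩ := e4 y hy
  rcases lt_trichotomy i (k + 1) with h | h | h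
  · exact W B1 B0 h1 h0 cov' i (k + 1) h (by omega) ny k4
  · exact ny (h ▸ a2)
  · exact W B0 B1 h0 h1 cov (k + 1) i h hi k4 ny

theorem ins {τ : V → V → ZMod 2} {S : Finset V} {v : V} (hv : v ∉ S) {r : V → ℕ}
    (hr : Set.InjOn r S) (as : ∀ x ∈ S, ∀ y ∈ S, x ≠ y → τ x y + τ y x = 1)
    (hs : ∀ A ⊆ S, Split τ S A → Split (lt r) S A) :
    ∃ u, ∀ B ⊆ S, Split τ (insert v S) B → ∀ b ∈ B, ∀ b' ∈ B, ∀ x ∈ S, x ∉ B →
      lt r b x + lt r b' x + le r b u + le r b' u = 0 := by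
  rcases S.eq_empty_or_nonempty with rfl | hS
  · exact ⟨v, by simp⟩
  obtain ⟨m, e, hm, e1, e2, e3, e4⟩ := enum S hS r hr
  obtain ⟨i, hi, h⟩ := good hv as hs hm e1 e2 e3 e4
  refine ⟨e i, fun B hB sp b hb b' hb' x hx nx => ?_⟩
  have sp' := hs B hB (sp.mono (subset_insert _ _))
  rcases h B hB sp (by rintro rfl; exact nx hx) with h | h
  · have : ∀ b ∈ B, le r b (e i) = lt r b (e i) := fun b hb => by
      have : r b ≠ r (e i) := fun q => h (hr (hB hb) (e1 i) q ▸ hb)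
      unfold le lt
      exact if_congr (by omega) rfl rfl
    rw [this b hb, this b' hb']
    exact sp' b hb b' hb' x hx nx _ (e1 i) h
  · have q := sp' b hb b' hb' x hx nx _ (e1 _) h
    by_cases hl : i + 1 < m
    · have : ∀ b ∈ B, le r b (e i) = lt r b (e (i + 1)) := fun b hb => by
        obtain ⟨j, hj, rfl⟩ := e4 b (hB hb)
        have t1 := e3 j hj _ hl
        have t2 := e3 i hi j hj
        unfold le lt
        exact if_congr (by omega) rfl rfl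
      rwa [this b hb, this b' hb']
    · have z : e (i + 1) = e 0 := by
        rw [← e2, show i + 1 = m by omega, Nat.mod_self]
      have : ∀ b ∈ B, le r b (e i) = 1 ∧ lt r b (e (i + 1)) = 0 := fun b hb => by
        obtain ⟨j, hj, rfl⟩ := e4 b (hB hb)
        have t1 := e3 j hj 0 hm
        have t2 := e3 i hi j hj
        rw [z]
        unfold le lt
        exact ⟨if_pos (by omega), if_neg (by omega)⟩
      rw [(this b hb).2, (this b' hb').2] at q
      rw [(this b hb).1, (this b' hb').1]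
      revert q
      generalize lt r b x = p1, lt r b' x = p2
      revert p1 p2
      decide

end Pool.Agent.H28.Semi
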