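import Pool.Agent.H28.Semi1
import Pool.Agent.H20.Chordal

/-!
Chordal graphs: a solution of the diamond equations over the two-element field can be replaced by
one coming from a linear order.
-/

namespace Pool.Agent.H28.Semi

open Finset

variable {V : Type} [DecidableEq V] {G : SimpleGraph V}

def Dia (G : SimpleGraph V) (τ : V → V → ZMod 2) (X : Finset V) : Prop :=
  ∀ a ∈ X, ∀ d ∈ X, ∀ b ∈ X, ∀ c ∈ X, a ≠ d → ¬ G.Adj a d → G.Adj a b → G.Adj a c → G.Adj d b →
    G.Adj d c → G.Adj b c → τ b a + τ c a + τ b d + τ c d = 0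

def Clq (G : SimpleGraph V) (M : Finset V) : Prop := ∀ a ∈ M, ∀ b ∈ M, a ≠ b → G.Adj a b

def MC (G : SimpleGraph V) (X M : Finset V) : Prop :=
  M ⊆ X ∧ Clq G M ∧ ∀ z ∈ X, z ∉ M → ∃ m ∈ M, ¬ G.Adj z m

theorem exMC {X Q : Finset V} (h1 : Q ⊆ X) (h2 : Clq G Q) : ∃ M, MC G X M ∧ Q ⊆ M := by
  classical
  obtain ⟨M, hM, hmax⟩ := exists_max_image (X.powerset.filter fun C => Clq G C ∧ Q ⊆ C) card
    ⟨Q, by simp only [mem_filter, mem_powerset]; exact ⟨h1, h2, Subset.rfl⟩⟩
  simp only [mem_filter, mem_powerset] at hM hmax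
  refine ⟨M, ⟨hM.1, hM.2.1, fun z hz hzM => ?_⟩, hM.2.2⟩
  by_contra hn
  push Not at hn
  have := hmax (insert z M) ⟨insert_subset hz hM.1, ?_, hM.2.2.trans (subset_insert _ _)⟩
  · rw [card_insert_of_notMem hzM] at this; omega
  · intro a ha b hb hab
    rcases mem_insert.1 ha with rfl | ha' <;> rcases mem_insert.1 hb with rfl | hb'
    · exact absurd rfl hab
    · exact hn b hb'
    · exact (hn a ha').symm
    · exact hM.2.1 a ha' b hb' hab

theorem z4 : ∀ a b : ZMod 2, a + a + b + b = 0 := by decide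
theorem z5 : ∀ a b : ZMod 2, a + b + a + b = 0 := by decide
theorem z6 : ∀ a b c d : ZMod 2, a + b + c + d = 0 → c + d + a + b = 0 := by decide

omit [DecidableEq V] in
theorem lt_as {r : V → ℕ} {x y} (h : r x ≠ r y) : lt r x y + lt r y x = 1 := by
  unfold lt
  split_ifs <;> first | omega | decide

theorem main (hG : ∀ X : Finset V, X.Nonempty →
      ∃ r ∈ X, ∀ a ∈ X, ∀ b ∈ X, G.Adj r a → G.Adj r b → a ≠ b → G.Adj a b)
    {τ : V → V → ZMod 2} (as : ∀ x y, G.Adj x y → τ x y + τ y x = 1) (X : Finset V) :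
    Dia G τ X → ∃ r : V → ℕ, Set.InjOn r X ∧ Dia G (lt r) X ∧
      ∀ M, MC G X M → ∀ A ⊆ M, Split τ M A → Split (lt r) M A := by
  classical
  induction X using Finset.strongInduction with
  | H X ih =>
  intro hD
  rcases X.eq_empty_or_nonempty with rfl | hX
  · refine ⟨fun _ => 0, by simp, by simp [Dia], fun M hM A hA _ a ha => ?_⟩
    simpa using hM.1 (hA ha)
  obtain ⟨v, hv, hs⟩ := hG X hX
  have sub : X.erase v ⊆ X := erase_subset _ _
  obtain ⟨r, r1, r2, r3⟩ := ih (X.erase v) (erase_ssubset hv) fun a ha d hd b hb c hc =>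
    hD a (sub ha) d (sub hd) b (sub hb) c (sub hc)
  obtain ⟨S, hS⟩ : ∃ S : Finset V, ∀ x, x ∈ S ↔ x ∈ X ∧ G.Adj v x :=
    ⟨X.filter (G.Adj v), fun x => mem_filter⟩
  have vS : v ∉ S := fun h => ((hS v).1 h).2.ne rfl
  have SX : S ⊆ X.erase v := fun x hx => mem_erase.2 ⟨((hS x).1 hx).2.ne', ((hS x).1 hx).1⟩
  have cS : Clq G S := fun a ha b hb => hs a ((hS a).1 ha).1 b ((hS b).1 hb).1 ((hS a).1 ha).2
    ((hS b).1 hb).2
  have cK : Clq G (insert v S) := by
    intro a ha b hb hab
    rcases mem_insert.1 ha with rfl | ha' <;> rcases mem_insert.1 hb with rfl | hb'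
    · exact absurd rfl hab
    · exact ((hS b).1 hb').2
    · exact ((hS a).1 ha').2.symm
    · exact cS a ha' b hb' hab
  have KX : insert v S ⊆ X := insert_subset hv (SX.trans sub)
  have vi := mem_insert_self v S
  have key : ∃ u, (∀ B ⊆ S, Split τ (insert v S) B → Split (lt r) S B ∧ ∀ b ∈ B, ∀ b' ∈ B, ∀ x ∈ S,
      x ∉ B → lt r b x + lt r b' x + le r b u + le r b' u = 0) ∧
      ∀ d ∈ X.erase v, d ∉ S → ∀ b ∈ S, ∀ c ∈ S, G.Adj d b → G.Adj d c → G.Adj b c →
        le r b u + le r c u + lt r b d + lt r c d = 0 := by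
    by_cases hm : ∀ z ∈ X.erase v, z ∉ S → ∃ m ∈ S, ¬ G.Adj z m
    · have h3 := r3 S ⟨SX, cS, hm⟩
      obtain ⟨u, hu⟩ := ins vS (r1.mono SX) (fun x hx y hy h => as x y (cS x hx y hy h)) h3
      refine ⟨u, fun B hB sp => ⟨h3 B hB (sp.mono (subset_insert _ _)), hu B hB sp⟩,
        fun d hd dS b hb c hc db dc bc => ?_⟩
      obtain ⟨a, ha, na⟩ := hm d hd dS
      have sp : Split τ (insert v S) (S.filter (G.Adj d)) := by
        intro p hp q hq x hx nx y hy ny
        obtain ⟨p1, p2⟩ := mem_filter.1 hp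
        obtain ⟨q1, q2⟩ := mem_filter.1 hq
        by_cases pq : p = q
        · subst pq; exact z4 _ _
        have : ∀ x ∈ insert v S, x ∉ S.filter (G.Adj d) → τ p x + τ q x + τ p d + τ q d = 0 := by
          intro x hx nx
          refine hD x (KX hx) d (sub hd) p (sub (SX p1)) q (sub (SX q1)) ?_ ?_
            (cK x hx p (mem_insert_of_mem p1) (by rintro rfl; exact nx hp))
            (cK x hx q (mem_insert_of_mem q1) (by rintro rfl; exact nx hq)) p2 q2 (cS p p1 q q1 pq)
          · rintro rfl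
            rcases mem_insert.1 hx with h | h
            · exact (mem_erase.1 hd).1 h
            · exact dS h
          · intro h
            rcases mem_insert.1 hx with rfl | h'
            · exact dS ((hS d).2 ⟨sub hd, h⟩)
            · exact nx (mem_filter.2 ⟨h', h.symm⟩)
        exact z3 _ _ _ _ _ _ (this x hx nx) (this y hy ny)
      have e1 := hu _ (filter_subset _ _) sp b (mem_filter.2 ⟨hb, db⟩) c (mem_filter.2 ⟨hc, dc⟩)
        a ha (by simp [na])
      have e2 := r2 a (SX ha) d hd b (SX hb) c (SX hc) (by rintro rfl; exact dS ha)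
        (fun h => na h.symm) (cS a ha b hb (by rintro rfl; exact na db))
        (cS a ha c hc (by rintro rfl; exact na dc)) db dc bc
      exact z3 _ _ _ _ _ _ (z6 _ _ _ _ e1) (z6 _ _ _ _ e2)
    · push Not at hm
      obtain ⟨d0, d1, d2, d3⟩ := hm
      have hle : ∀ b ∈ S, le r b d0 = lt r b d0 := fun b hb => by
        have : r b ≠ r d0 := fun q => d2 (r1 (SX hb) d1 q ▸ hb)
        unfold le lt
        exact if_congr (by omega) rfl rfl
      have L : ∀ M, MC G (X.erase v) M → ∀ p ∈ M, p ∈ S → ∀ q ∈ M, q ∈ S → p ≠ q → ∀ x ∈ M, x ∉ S →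
          τ p x + τ q x + τ p v + τ q v = 0 := by
        intro M hM p p1 p2 q q1 q2 pq x x1 x2
        exact hD x (sub (hM.1 x1)) v hv p (sub (SX p2)) q (sub (SX q2)) (mem_erase.1 (hM.1 x1)).1
          (fun h => x2 ((hS x).2 ⟨sub (hM.1 x1), h.symm⟩))
          (hM.2.1 x x1 p p1 (by rintro rfl; exact x2 p2))
          (hM.2.1 x x1 q q1 (by rintro rfl; exact x2 q2)) ((hS p).1 p2).2 ((hS q).1 q2).2
          (cS p p2 q q2 pq)
      refine ⟨d0, fun B hB sp => ?_, fun d hd dS b hb c hc db dc bc => ?_⟩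
      · obtain ⟨M, hM, sM⟩ := exMC (G := G) (insert_subset d1 SX) (by
          intro a ha b hb hab
          rcases mem_insert.1 ha with rfl | ha' <;> rcases mem_insert.1 hb with rfl | hb'
          · exact absurd rfl hab
          · exact d3 b hb'
          · exact (d3 a ha').symm
          · exact cS a ha' b hb' hab)
        have SM : S ⊆ M := (subset_insert _ _).trans sM
        have sp' := r3 M hM B (hB.trans SM) (by
          intro p hp q hq x hx nx y hy ny
          by_cases pq : p = q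
          · subst pq; exact z4 _ _
          have : ∀ x ∈ M, x ∉ B → τ p x + τ q x + τ p v + τ q v = 0 := by
            intro x hx nx
            by_cases xS : x ∈ S
            · exact sp p hp q hq x (mem_insert_of_mem xS) nx v vi fun h => vS (hB h)
            · exact L M hM p (SM (hB hp)) (hB hp) q (SM (hB hq)) (hB hq) pq x hx xS
          exact z3 _ _ _ _ _ _ (this x hx nx) (this y hy ny))
        refine ⟨sp'.mono SM, fun b hb b' hb' x hx nx => ?_⟩
        rw [hle b (hB hb), hle b' (hB hb')]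
        exact sp' b hb b' hb' x (SM hx) nx d0 (sM (mem_insert_self _ _)) fun h => d2 (hB h)
      · rw [hle b hb, hle c hc]
        by_cases e : d0 = d
        · subst e; exact z5 _ _
        by_cases ad : G.Adj d0 d
        swap
        · exact r2 d0 d1 d hd b (SX hb) c (SX hc) e ad (d3 b hb) (d3 c hc) db dc bc
        obtain ⟨M, hM, sM⟩ := exMC (G := G) (X := X.erase v) (Q := {b, c, d, d0}) (by
          simp only [insert_subset_iff, singleton_subset_iff]
          exact ⟨SX hb, SX hc, hd, d1⟩) (by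
          have := d3 b hb
          have := d3 c hc
          intro x hx y hy hxy
          simp only [mem_insert, mem_singleton] at hx hy
          rcases hx with rfl | rfl | rfl | rfl <;> rcases hy with rfl | rfl | rfl | rfl <;>
            first | exact absurd rfl hxy | assumption | (apply SimpleGraph.Adj.symm; assumption))
        simp only [insert_subset_iff, singleton_subset_iff] at sM
        have sp' := r3 M hM (M ∩ S) inter_subset_left (by
          intro p hp q hq x hx nx y hy ny
          by_cases pq : p = q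
          · subst pq; exact z4 _ _
          simp only [mem_inter, not_and] at hp hq nx ny
          exact z3 _ _ _ _ _ _ (L M hM p hp.1 hp.2 q hq.1 hq.2 pq x hx (nx hx))
            (L M hM p hp.1 hp.2 q hq.1 hq.2 pq y hy (ny hy)))
        exact sp' b (mem_inter.2 ⟨sM.1, hb⟩) c (mem_inter.2 ⟨sM.2.1, hc⟩) d0 sM.2.2.2 (by simp [d2])
          d sM.2.2.1 (by simp [dS])
  obtain ⟨u, k1, k2⟩ := key
  obtain ⟨r', q1, q2⟩ : ∃ r' : V → ℕ, r' v = 2 * r u + 1 ∧ ∀ x, x ≠ v → r' x = 2 * r x :=
    ⟨fun x => if x = v then 2 * r u + 1 else 2 * r x, by simp, fun x h => by simp [h]⟩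
  have t1 : ∀ x y, x ≠ v → y ≠ v → lt r' x y = lt r x y := fun x y hx hy => by
    unfold lt
    rw [q2 x hx, q2 y hy]
    exact if_congr (by omega) rfl rfl
  have t2 : ∀ x, x ≠ v → lt r' x v = le r x u := fun x hx => by
    unfold lt le
    rw [q2 x hx, q1]
    exact if_congr (by omega) rfl rfl
  have inj : Set.InjOn r' X := by
    intro x hx y hy e
    by_cases a : x = v <;> by_cases b : y = v
    · rw [a, b]
    · rw [a, q1, q2 y b] at e; omega
    · rw [b, q1, q2 x a] at e; omega
    · rw [q2 x a, q2 y b] at e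
      exact r1 (mem_coe.2 (mem_erase.2 ⟨a, hx⟩)) (mem_coe.2 (mem_erase.2 ⟨b, hy⟩)) (by omega)
  refine ⟨r', inj, ?_, ?_⟩
  · intro a ha d hd b hb c hc ad nad ab ac db dc bc
    have bv : b ≠ v := by rintro rfl; exact nad (hs a ha d hd ab.symm db.symm ad)
    have cv : c ≠ v := by rintro rfl; exact nad (hs a ha d hd ac.symm dc.symm ad)
    by_cases av : a = v
    · subst av
      rw [t2 b bv, t2 c cv, t1 b d bv ad.symm, t1 c d cv ad.symm]
      exact k2 d (mem_erase.2 ⟨ad.symm, hd⟩) (fun h => nad ((hS d).1 h).2) b ((hS b).2 ⟨hb, ab⟩)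
        c ((hS c).2 ⟨hc, ac⟩) db dc bc
    by_cases dv : d = v
    · subst dv
      rw [t2 b bv, t2 c cv, t1 b a bv ad, t1 c a cv ad]
      exact z6 _ _ _ _ (k2 a (mem_erase.2 ⟨ad, ha⟩) (fun h => nad ((hS a).1 h).2.symm) b
        ((hS b).2 ⟨hb, db⟩) c ((hS c).2 ⟨hc, dc⟩) ab ac bc)
    rw [t1 b a bv av, t1 c a cv av, t1 b d bv dv, t1 c d cv dv]
    exact r2 a (mem_erase.2 ⟨av, ha⟩) d (mem_erase.2 ⟨dv, hd⟩) b (mem_erase.2 ⟨bv, hb⟩) c
      (mem_erase.2 ⟨cv, hc⟩) ad nad ab ac db dc bc
  · intro M hM A hA sp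
    by_cases vM : v ∈ M
    · have e : M = insert v S := by
        refine Subset.antisymm (fun x hx => ?_) fun x hx => ?_
        · by_cases h : x = v
          · exact h ▸ vi
          · exact mem_insert_of_mem ((hS x).2 ⟨hM.1 hx, hM.2.1 v vM x hx (Ne.symm h)⟩)
        · by_contra hn
          obtain ⟨m, m1, m2⟩ := hM.2.2 x (KX hx) hn
          refine m2 (cK x hx m ?_ (by rintro rfl; exact hn m1))
          by_cases h : m = v
          · exact h ▸ vi
          · exact mem_insert_of_mem ((hS m).2 ⟨hM.1 m1, hM.2.1 v vM m m1 (Ne.symm h)⟩)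
      subst e
      have K : ∀ B ⊆ insert v S, v ∉ B → Split τ (insert v S) B → Split (lt r') (insert v S) B := by
        intro B hB vB sp p hp q hq x hx nx y hy ny
        have BS : B ⊆ S := fun z hz => (mem_insert.1 (hB hz)).resolve_left (by rintro rfl; exact vB hz)
        have pv : p ≠ v := by rintro rfl; exact vB hp
        have qv : q ≠ v := by rintro rfl; exact vB hq
        have : ∀ x ∈ insert v S, x ∉ B → lt r' p x + lt r' q x + lt r' p v + lt r' q v = 0 := by
          intro x hx nx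
          rcases mem_insert.1 hx with rfl | hx'
          · exact z5 _ _
          have xv : x ≠ v := by rintro rfl; exact vS hx'
          rw [t1 p x pv xv, t1 q x qv xv, t2 p pv, t2 q qv]
          exact (k1 B BS sp).2 p hp q hq x hx' nx
        exact z3 _ _ _ _ _ _ (this x hx nx) (this y hy ny)
      by_cases vA : v ∈ A
      · have := (K (insert v S \ A) sdiff_subset (by simp [vA])
          (sp.compl fun x hx y hy h => as x y (cK x hx y hy h))).compl
          fun x hx y hy h => lt_as fun e => h (inj (KX hx) (KX hy) e)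
        rwa [Finset.sdiff_sdiff_eq_self hA] at this
      · exact K A hA vA sp
    · have sp' := r3 M ⟨fun x hx => mem_erase.2 ⟨by rintro rfl; exact vM hx, hM.1 hx⟩, hM.2.1,
        fun z hz => hM.2.2 z (sub hz)⟩ A hA sp
      have nv : ∀ x ∈ M, x ≠ v := by rintro x hx rfl; exact vM hx
      intro p hp q hq x hx nx y hy ny
      rw [t1 p x (nv p (hA hp)) (nv x hx), t1 q x (nv q (hA hq)) (nv x hx),
        t1 p y (nv p (hA hp)) (nv y hy), t1 q y (nv q (hA hq)) (nv y hy)]
      exact sp' p hp q hq x hx nx y hy ny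

end Pool.Agent.H28.Semi
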