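import Mathlib

/-! A finitely generated metabelian group that is not virtually nilpotent contains elements
`a`, `t` whose conjugates `t^i a t^-i` commute and satisfy no relation with exponents in
`{-1,0,1}`. -/

namespace Pool.Agent.H28.Ssp

open Polynomial

theorem small_root {z : ℂ} (hz : 2 ≤ ‖z‖) (p : ℤ[X]) (hp : ∀ i, |p.coeff i| ≤ 1)
    (h0 : aeval z p = 0) : p = 0 := by
  by_contra hne
  have geo : ∀ n : ℕ, ∑ i ∈ Finset.range n, ‖z‖ ^ i < ‖z‖ ^ n := by
    intro n
    induction n with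
    | zero => simp
    | succ n ih =>
      rw [Finset.sum_range_succ, pow_succ]
      have : 0 ≤ ‖z‖ ^ n := by positivity
      nlinarith
  rw [aeval_eq_sum_range, Finset.sum_range_succ] at h0
  have hl : |p.coeff p.natDegree| = 1 :=
    le_antisymm (hp _) (Int.one_le_abs (by simpa using hne))
  have h1 : ‖p.coeff p.natDegree • z ^ p.natDegree‖ = ‖z‖ ^ p.natDegree := by
    rw [zsmul_eq_mul, norm_mul, norm_pow, Complex.norm_intCast, ← Int.cast_abs, hl]; simp
  have h2 : ‖∑ i ∈ Finset.range p.natDegree, p.coeff i • z ^ i‖ ≤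
      ∑ i ∈ Finset.range p.natDegree, ‖z‖ ^ i := by
    refine (norm_sum_le _ _).trans (Finset.sum_le_sum fun i _ => ?_)
    rw [zsmul_eq_mul, norm_mul, norm_pow, Complex.norm_intCast, ← Int.cast_abs]
    have : ((|p.coeff i| : ℤ) : ℝ) ≤ 1 := by exact_mod_cast hp i
    exact mul_le_of_le_one_left (by positivity) this
  rw [eq_neg_of_add_eq_zero_left h0, norm_neg, h1] at h2
  exact absurd (geo p.natDegree) (not_lt.2 h2)

open IntermediateField in
theorem field_free {K : Type} [Field K] (x : K) (hx : x ≠ 0) (hr : ∀ k, 0 < k → x ^ k ≠ 1) :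
    ∃ N, 0 < N ∧ ∀ p : ℤ[X], (∀ i, |p.coeff i| ≤ 1) → aeval (x ^ N) p = 0 → p = 0 := by
  by_cases hi : IsIntegral ℤ x
  swap
  · refine ⟨1, one_pos, fun p hp h0 => ?_⟩
    by_contra hne
    rw [pow_one] at h0
    have hl : |p.leadingCoeff| = 1 :=
      le_antisymm (hp _) (Int.one_le_abs (by simpa using hne))
    rcases abs_eq (by norm_num : (0 : ℤ) ≤ 1) |>.1 hl with h | h
    · exact hi ⟨p, h, h0⟩
    · refine hi ⟨-p, by simp [Monic, h], ?_⟩
      rw [← aeval_def, map_neg, h0, neg_zero]
  obtain ⟨l, hl⟩ := CharP.exists K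
  rcases CharP.char_is_prime_or_zero K l with hp | rfl
  · exfalso
    haveI := Fact.mk hp
    letI : Algebra (ZMod l) K := ZMod.algebra K l
    have hi' : IsIntegral (ZMod l) x := hi.tower_top
    haveI := adjoin.finiteDimensional hi'
    haveI : Finite (ZMod l)⟮x⟯ := Module.finite_of_finite (ZMod l)
    letI := Fintype.ofFinite (ZMod l)⟮x⟯
    have h1 := FiniteField.pow_card_sub_one_eq_one (AdjoinSimple.gen (ZMod l) x)
      (fun h => hx (by simpa using congrArg Subtype.val h))
    refine hr (Fintype.card (ZMod l)⟮x⟯ - 1) ?_ (by simpa using congrArg Subtype.val h1)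
    have := Fintype.one_lt_card (α := (ZMod l)⟮x⟯)
    omega
  · haveI : CharZero K := CharP.charP_to_charZero K
    have hi' : IsIntegral ℚ x := hi.tower_top
    haveI := adjoin.finiteDimensional hi'
    haveI : NumberField ℚ⟮x⟯ := {}
    let y := AdjoinSimple.gen ℚ x
    have hy : IsIntegral ℤ y := by
      rw [← isIntegral_algHom_iff (IsScalarTower.toAlgHom ℤ ℚ⟮x⟯ K) Subtype.val_injective]
      exact hi
    have hy0 : y ≠ 0 := fun h => hx (by simpa [y] using congrArg Subtype.val h)
    obtain ⟨φ, hφ⟩ : ∃ φ : ℚ⟮x⟯ →+* ℂ, 1 < ‖φ y‖ := by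
      by_contra hc
      push Not at hc
      obtain ⟨n, h1, h2⟩ := NumberField.Embeddings.pow_eq_one_of_norm_le_one _ ℂ hy0 hy hc
      exact hr n h1 (by simpa [y] using congrArg Subtype.val h2)
    obtain ⟨N, hN⟩ := pow_unbounded_of_one_lt 2 hφ
    refine ⟨N, Nat.pos_of_ne_zero (by rintro rfl; norm_num at hN), fun p hp h0 => ?_⟩
    have h1 : aeval (y ^ N) p = 0 := by
      apply Subtype.val_injective
      have := aeval_algHom_apply (IsScalarTower.toAlgHom ℤ ℚ⟮x⟯ K) (y ^ N) p
      simp only [IsScalarTower.coe_toAlgHom', map_pow] at this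
      exact this.symm.trans h0
    refine small_root (z := φ y ^ N) (by rw [norm_pow]; exact hN.le) p hp ?_
    have := aeval_algHom_apply φ.toIntAlgHom (y ^ N) p
    rw [h1, map_zero] at this
    simpa using this

theorem prime_free (I : Ideal ℤ[X]) (h1 : ∀ p, X * p ∈ I → p ∈ I)
    (h2 : ∀ k m, 0 < k → (X ^ k - 1) ^ m ∉ I) :
    ∃ N, 0 < N ∧ ∀ p : ℤ[X], (∀ i, |p.coeff i| ≤ 1) → aeval (X ^ N : ℤ[X]) p ∈ I → p = 0 := by
  let S : Submonoid ℤ[X] :=
    { carrier := {p | ∃ j k m, 0 < k ∧ p ∣ X ^ j * (X ^ k - 1) ^ m}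
      one_mem' := ⟨0, 1, 0, one_pos, one_dvd _⟩
      mul_mem' := by
        rintro p q ⟨j, k, m, hk, hp⟩ ⟨j', k', m', hk', hq⟩
        refine ⟨j + j', k * k', m + m', by positivity, (mul_dvd_mul hp hq).trans ?_⟩
        rw [pow_add, pow_add, mul_mul_mul_comm]
        refine mul_dvd_mul dvd_rfl (mul_dvd_mul (pow_dvd_pow_of_dvd ?_ _) (pow_dvd_pow_of_dvd ?_ _))
        · simpa [pow_mul] using sub_dvd_pow_sub_pow (X ^ k : ℤ[X]) 1 k'
        · simpa [← pow_mul, mul_comm] using sub_dvd_pow_sub_pow (X ^ k' : ℤ[X]) 1 k }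
  have hd : Disjoint (I : Set ℤ[X]) S := by
    rw [Set.disjoint_left]
    rintro p hp ⟨j, k, m, hk, q, hq⟩
    have h3 : X ^ j * (X ^ k - 1) ^ m ∈ I := hq ▸ I.mul_mem_right q hp
    clear hq
    induction j with
    | zero => exact h2 k m hk (by simpa using h3)
    | succ j ih => exact ih (h1 _ (by rwa [← mul_assoc, ← pow_succ']))
  obtain ⟨P, hP, hIP, hPS⟩ := Ideal.exists_le_prime_disjoint I S hd
  obtain ⟨K, _, f, hf⟩ : ∃ (K : Type) (_ : Field K) (f : ℤ[X] →+* K), ∀ p, f p = 0 ↔ p ∈ P :=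
    ⟨FractionRing (ℤ[X] ⧸ P), inferInstance, (algebraMap _ _).comp (Ideal.Quotient.mk P),
      fun p => by simp [Ideal.Quotient.eq_zero_iff_mem]⟩
  obtain ⟨N, hN, h⟩ := field_free (f X)
    (fun h => Set.disjoint_left.1 hPS ((hf _).1 h) ⟨1, 1, 0, one_pos, by simp⟩)
    (fun k hk h => Set.disjoint_left.1 hPS ((hf (X ^ k - 1)).1 (by simp [h]))
      ⟨0, k, 1, hk, by simp⟩)
  refine ⟨N, hN, fun p hp h0 => h p hp ?_⟩
  have := aeval_algHom_apply f.toIntAlgHom (X ^ N) p
  simp only [map_pow, RingHom.toIntAlgHom_apply] at this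
  rw [this]; exact (hf _).2 (hIP h0)

section grp
open scoped commutatorElement
variable (G : Type) [Group G] [hA : IsMulCommutative (commutator G)]

/-- the derived subgroup, written additively -/
def Mo : Type := Additive (commutator G)

open scoped IsMulCommutative in
instance : AddCommGroup (Mo G) := inferInstanceAs (AddCommGroup (Additive (commutator G)))

abbrev Rg := MonoidAlgebra ℤ (Abelianization G)

variable {G}

def val (a : Mo G) : G := (Additive.toMul (show Additive (commutator G) from a) : commutator G)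

omit hA in
lemma val_inj : Function.Injective (val : Mo G → G) := fun _ _ h => Subtype.ext h
lemma val_add (a b : Mo G) : val (a + b) = val a * val b := rfl
lemma val_zero : val (0 : Mo G) = 1 := rfl
lemma val_neg (a : Mo G) : val (-a) = (val a)⁻¹ := rfl
omit hA in
lemma val_mem (a : Mo G) : val a ∈ commutator G := Subtype.prop _
omit hA in
lemma val_surj {g : G} (h : g ∈ commutator G) : ∃ a : Mo G, val a = g := ⟨Additive.ofMul ⟨g, h⟩, rfl⟩

def cj (g : G) : Module.End ℤ (Mo G) :=
  AddMonoidHom.toIntLinearMap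
    { toFun := fun a => Additive.ofMul (MulAut.conjNormal g
        (Additive.toMul (show Additive (commutator G) from a)))
      map_zero' := val_inj (by change g * 1 * g⁻¹ = 1; simp)
      map_add' := fun a b => val_inj (by
        change g * (val a * val b) * g⁻¹ = g * val a * g⁻¹ * (g * val b * g⁻¹); group) }

lemma val_cj (g : G) (a : Mo G) : val (cj g a) = g * val a * g⁻¹ := rfl

def cjHom : G →* Module.End ℤ (Mo G) where
  toFun := cj
  map_one' := LinearMap.ext fun a => val_inj (by simp [val_cj])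
  map_mul' g h := LinearMap.ext fun a => val_inj (by simp [val_cj, mul_assoc])

def cjAb : Abelianization G →* Module.End ℤ (Mo G) :=
  QuotientGroup.lift (commutator G) cjHom fun g hg => LinearMap.ext fun a => val_inj (by
    have := congrArg Subtype.val (hA.is_comm.comm ⟨g, hg⟩ ⟨val a, val_mem a⟩)
    simp only [Subgroup.coe_mul] at this
    change g * val a * g⁻¹ = val a
    rw [this]; group)

noncomputable instance : Module (Rg G) (Mo G) :=
  Module.compHom _ (MonoidAlgebra.lift ℤ (Module.End ℤ (Mo G)) (Abelianization G) cjAb).toRingHom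

/-- the image of a group element in the group ring of the abelianization -/
noncomputable def ob : G →* Rg G := (MonoidAlgebra.of ℤ _).comp Abelianization.of

lemma val_ob (g : G) (a : Mo G) : val (ob g • a) = g * val a * g⁻¹ := by
  change val ((MonoidAlgebra.lift ℤ (Module.End ℤ (Mo G)) (Abelianization G) cjAb)
    (MonoidAlgebra.of ℤ _ (Abelianization.of g)) a) = _
  rw [MonoidAlgebra.lift_of]; rfl

def sub (N : Submodule (Rg G) (Mo G)) : Subgroup G where
  carrier := {g | ∃ a ∈ N, val a = g}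
  one_mem' := ⟨0, N.zero_mem, rfl⟩
  mul_mem' := by rintro _ _ ⟨a, ha, rfl⟩ ⟨b, hb, rfl⟩; exact ⟨a + b, N.add_mem ha hb, rfl⟩
  inv_mem' := by rintro _ ⟨a, ha, rfl⟩; exact ⟨-a, N.neg_mem ha, rfl⟩

instance (N : Submodule (Rg G) (Mo G)) : (sub N).Normal :=
  ⟨by rintro _ ⟨a, ha, rfl⟩ g; exact ⟨ob g • a, N.smul_mem _ ha, val_ob g a⟩⟩

lemma fin_mo {s : Finset G} (hs : Subgroup.closure (s : Set G) = ⊤) :
    ∃ c : Finset (Mo G), Submodule.span (Rg G) (c : Set (Mo G)) = ⊤ := by
  classical
  let cm : G × G → Mo G := fun p => Additive.ofMul ⟨⁅p.1, p.2⁆,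
    Subgroup.commutator_mem_commutator (Subgroup.mem_top _) (Subgroup.mem_top _)⟩
  refine ⟨(s ×ˢ s).image cm, ?_⟩
  set N := Submodule.span (Rg G) (((s ×ˢ s).image cm : Finset (Mo G)) : Set (Mo G))
  have key : ∀ g h : G, ⁅g, h⁆ ∈ sub N ↔
      Commute (QuotientGroup.mk' (sub N) g) (QuotientGroup.mk' (sub N) h) := fun g h => by
    rw [← commutatorElement_eq_one_iff_commute, ← map_commutatorElement]
    exact (QuotientGroup.eq_one_iff _).symm
  have ext : ∀ u : G ⧸ sub N, (∀ x ∈ s, Commute u (QuotientGroup.mk' (sub N) x)) →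
      ∀ g, Commute u (QuotientGroup.mk' (sub N) g) := fun u hu g => by
    have hg : g ∈ Subgroup.closure (s : Set G) := hs ▸ Subgroup.mem_top g
    induction hg using Subgroup.closure_induction with
    | mem x hx => exact hu x hx
    | one => simp
    | mul x y _ _ h1 h2 => rw [map_mul]; exact h1.mul_right h2
    | inv x _ h1 => rw [map_inv]; exact h1.inv_right
  have all : commutator G ≤ sub N := by
    rw [commutator_def, Subgroup.commutator_le]
    intro g _ h _
    rw [key]
    refine ext _ (fun x hx => (ext _ (fun y hy => ?_) g).symm) h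
    rw [← key]
    exact ⟨cm (x, y), Submodule.subset_span (by simp; exact ⟨x, y, ⟨hx, hy⟩, rfl⟩), rfl⟩
  rw [eq_top_iff]
  intro a _
  obtain ⟨b, hb, e⟩ := all (val_mem a)
  exact val_inj e ▸ hb

lemma virt {s : Finset G} (hs : Subgroup.closure (s : Set G) = ⊤)
    (h : ∀ (t : G) (a : Mo G), ∃ k m, 0 < k ∧ (ob t ^ k - 1) ^ m • a = 0) :
    Group.IsVirtuallyNilpotent G := by
  classical
  obtain ⟨c, hc⟩ := fin_mo hs
  choose k m hk hm using h
  let K := ∏ p ∈ s ×ˢ c, k p.1 p.2
  have hK : 0 < K := Finset.prod_pos fun p _ => hk _ _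
  let J : Ideal (Rg G) := Ideal.span ((s.image fun t => ob t ^ K - 1 : Finset (Rg G)) : Set (Rg G))
  have hJ : J ≤ (Module.annihilator (Rg G) (Mo G)).radical := by
    refine Ideal.span_le.2 ?_
    simp only [Finset.coe_image]
    rintro _ ⟨t, ht, rfl⟩
    refine ⟨c.sup (m t), Module.mem_annihilator.2 fun a => ?_⟩
    have ha : a ∈ Submodule.span (Rg G) (c : Set (Mo G)) := hc ▸ Submodule.mem_top
    induction ha using Submodule.span_induction with
    | mem a ha =>
      obtain ⟨j, hj⟩ : k t a ∣ K :=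
        Finset.dvd_prod_of_mem (fun p : G × Mo G => k p.1 p.2) (a := (t, a))
          (Finset.mem_product.2 ⟨ht, ha⟩)
      obtain ⟨r, hr⟩ : (ob t ^ k t a - 1) ^ m t a ∣ (ob t ^ K - 1) ^ c.sup (m t) := by
        refine (pow_dvd_pow_of_dvd ?_ _).trans (pow_dvd_pow _ (Finset.le_sup (f := m t) ha))
        simpa [hj, pow_mul] using sub_dvd_pow_sub_pow (ob t ^ k t a) 1 j
      simp only
      rw [hr, mul_comm, mul_smul, hm, smul_zero]
    | zero => simp
    | add x y _ _ h1 h2 => rw [smul_add, h1, h2, add_zero]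
    | smul r x _ h1 => rw [smul_comm, h1, smul_zero]
  obtain ⟨n, hn⟩ := Ideal.exists_pow_le_of_le_radical_of_fg hJ ⟨_, rfl⟩
  let f : G →* (Rg G ⧸ J)ˣ := ((Ideal.Quotient.mk J).toMonoidHom.comp ob).toHomUnits
  have hf : ∀ g, g ∈ f.ker ↔ ob g - 1 ∈ J := fun g => by
    rw [MonoidHom.mem_ker, ← Ideal.Quotient.eq, Units.ext_iff]; rfl
  refine ⟨f.ker, ?_, ?_⟩
  · have : ∀ j, f.ker.lowerCentralSeries (j + 1) ≤ sub (J ^ j • ⊤) := by
      intro j
      induction j with
      | zero =>
        intro g hg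
        obtain ⟨a, rfl⟩ := val_surj (Subgroup.commutator_mono le_top le_top hg)
        exact ⟨a, by simp, rfl⟩
      | succ j ih =>
        rw [Subgroup.lowerCentralSeries_succ, Subgroup.commutator_le]
        intro p hp q hq
        obtain ⟨a, ha, rfl⟩ := ih hp
        refine ⟨-((ob q - 1) • a), Submodule.neg_mem _ ?_, ?_⟩
        · rw [pow_succ', Submodule.mul_smul]
          exact Submodule.smul_mem_smul ((hf q).1 hq) ha
        · rw [sub_smul, one_smul, neg_sub, sub_eq_add_neg, val_add, val_neg, val_ob,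
            commutatorElement_def]
          group
    refine Subgroup.isNilpotent_of_lowerCentralSeries_eq_bot (n := n + 1) (eq_bot_iff.2 ?_)
    intro g hg
    obtain ⟨a, ha, rfl⟩ := this n hg
    have : a = 0 := by
      refine Submodule.smul_induction_on ha (fun r hr x _ => ?_) (fun x y h1 h2 => by simp [h1, h2])
      exact Module.mem_annihilator.1 (hn hr) x
    rw [this]; exact Subgroup.one_mem _
  · have hfg : Group.FG G := ⟨⟨s, hs⟩⟩
    have hpow : ∀ g, f g ^ K = 1 := fun g => by
      have hg : g ∈ Subgroup.closure (s : Set G) := hs ▸ Subgroup.mem_top g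
      induction hg using Subgroup.closure_induction with
      | mem x hx =>
        rw [← map_pow, ← MonoidHom.mem_ker, hf, map_pow]
        exact Ideal.subset_span (by simp; exact ⟨x, hx, rfl⟩)
      | one => simp
      | mul x y _ _ h1 h2 => rw [map_mul, Commute.mul_pow (Units.ext (mul_comm _ _)), h1, h2, one_mul]
      | inv x _ h1 => rw [map_inv, inv_pow, h1, inv_one]
    haveI : Finite f.range := by
      refine CommGroup.finite_of_fg_isMulTorsion _ ?_
      rintro ⟨_, g, rfl⟩
      exact isOfFinOrder_iff_pow_eq_one.2 ⟨K, hK, Subtype.ext (hpow g)⟩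
    exact Subgroup.finiteIndex_ker f

theorem exists_free {s : Finset G} (hs : Subgroup.closure (s : Set G) = ⊤)
    (hv : ¬ Group.IsVirtuallyNilpotent G) :
    ∃ (t : G) (Φ : ℤ[X] → G), (∀ p q, Φ (p + q) = Φ p * Φ q) ∧ (∀ p, t * Φ p = Φ (X * p) * t) ∧
      ∀ p : ℤ[X], (∀ i, |p.coeff i| ≤ 1) → Φ p = 1 → p = 0 := by
  have := mt (virt hs) hv
  push Not at this
  obtain ⟨t, a, h⟩ := this
  let I : Ideal ℤ[X] := (Submodule.span (Rg G) {a}).annihilator.comap (aeval (ob t)).toRingHom
  have hI : ∀ p, p ∈ I ↔ aeval (ob t) p • a = 0 := fun p => by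
    simp [I]
  obtain ⟨N, hN, hf⟩ := prime_free I
    (fun p hp => by
      rw [hI] at hp ⊢
      rw [map_mul, aeval_X, mul_smul] at hp
      have := congrArg (fun b => ob t⁻¹ • b) hp
      simpa [← mul_smul, ← mul_assoc, ← map_mul] using this)
    (fun k m hk hp => h k m hk (by simpa using (hI _).1 hp))
  refine ⟨t ^ N, fun p => val (aeval (ob (t ^ N)) p • a), fun p q => by
    simp only [map_add, add_smul, val_add], fun p => by
    simp only [map_mul, aeval_X, mul_smul, val_ob]; group, fun p hp h0 => hf p hp ?_⟩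
  rw [hI]
  apply val_inj
  rw [val_zero, ← h0, ← aeval_algHom_apply]
  simp

end grp

end Pool.Agent.H28.Ssp
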