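import Pool.Agent.H28.Ssp1
import Pool.Agent.Lead.Ham.One3

/-! The subset sum problem of a group, and a reduction from one-in-three satisfiability. -/

namespace Pool.Agent.H28.Ssp

open Polynomial Pool.Agent.Lead.Ham Finset
open Pool.Agent.H38.NP hiding X

/-- words over the generators and their inverses: `(i, true)` is the `i`-th generator and
`(i, false)` its inverse -/
abbrev Word := List (ℕ × Bool)

/-- the group element written by a word, for the list `xs` of generators -/
def ev {G : Type} [Group G] (xs : List G) (u : Word) : G :=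
  (u.map fun l => if l.2 = true then xs.getD l.1 1 else (xs.getD l.1 1)⁻¹).prod

/-- all letters of an instance `(w_1 .. w_k, w)` name generators -/
def Valid {G : Type} (xs : List G) (I : List Word × Word) : Prop :=
  (∀ u ∈ I.1, ∀ l ∈ u, l.1 < xs.length) ∧ ∀ l ∈ I.2, l.1 < xs.length

/-- the subset sum problem: `w = w_1^e_1 ... w_k^e_k` for some `e_i` in `{0,1}` -/
def SSP {G : Type} [Group G] (xs : List G) (I : List Word × Word) : Prop :=
  ∃ ε : ℕ → Bool, ((List.range I.1.length).map fun i =>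
    if ε i = true then ev xs (I.1.getD i []) else 1).prod = ev xs I.2

section red
variable (wa wb wt wu : Word)

def mon (i : ℕ) (b : Bool) : Word :=
  (List.replicate i wt).flatten ++ cond b wa wb ++ (List.replicate i wu).flatten

def Wd (φ : F3) : ℕ := 4 * φ.length + 1

def nv (φ : F3) : ℕ := ((List.range (3 * φ.length)).map fun o => (litAt φ o).1).sum + 1

def xw (φ : F3) (v : ℕ) : Word := (List.range (3 * φ.length)).flatMap fun o =>
  if (litAt φ o).1 = v then mon wa wb wt wu (Wd φ * o + φ.length) (litAt φ o).2 else []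

def yw (φ : F3) (o : ℕ) : Word :=
  mon wa wb wt wu (Wd φ * o + (φ.length - o / 3)) false ++
    mon wa wb wt wu (Wd φ * (3 * φ.length + o / 3) + (φ.length - o / 3)) true ++ wt

def tgt (φ : F3) : Word :=
  ((List.range (3 * φ.length)).flatMap fun o =>
    cond (litAt φ o).2 [] (mon wa wb wt wu (Wd φ * o + φ.length) false)) ++
  ((List.range φ.length).flatMap fun c =>
    mon wa wb wt wu (Wd φ * (3 * φ.length + c) + φ.length) true) ++
  (List.replicate φ.length wt).flatten

def red (φ : F3) : List Word × Word :=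
  ((List.range (nv φ + 3 * φ.length)).map fun i =>
    if i < nv φ then xw wa wb wt wu φ i else yw wa wb wt wu φ (i - nv φ), tgt wa wb wt wu φ)

theorem pt_red : PT (red wa wb wt wu) := by
  unfold red tgt yw xw nv Wd mon; fun_prop

theorem valid_red {G : Type} (xs : List G) (ha : ∀ l ∈ wa, l.1 < xs.length)
    (hb : ∀ l ∈ wb, l.1 < xs.length) (ht : ∀ l ∈ wt, l.1 < xs.length)
    (hu : ∀ l ∈ wu, l.1 < xs.length) (φ : F3) : Valid xs (red wa wb wt wu φ) := by
  have hm : ∀ i b, ∀ l ∈ mon wa wb wt wu i b, l.1 < xs.length := by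
    intro i b l hl
    simp only [mon, List.mem_append, List.mem_flatten, List.mem_replicate] at hl
    rcases hl with (⟨_, ⟨-, rfl⟩, h⟩ | h) | ⟨_, ⟨-, rfl⟩, h⟩
    · exact ht l h
    · cases b
      · exact hb l h
      · exact ha l h
    · exact hu l h
  constructor
  · intro u hu l hl
    simp only [red, List.mem_map] at hu
    obtain ⟨i, -, rfl⟩ := hu
    split_ifs at hl
    · simp only [xw, List.mem_flatMap] at hl
      obtain ⟨o, -, h⟩ := hl
      split_ifs at h
      · exact hm _ _ l h
      · simp at h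
    · simp only [yw, List.mem_append] at hl
      rcases hl with (h | h) | h
      exacts [hm _ _ l h, hm _ _ l h, ht l h]
  · intro l hl
    simp only [red, tgt, List.mem_append, List.mem_flatMap, List.mem_flatten,
      List.mem_replicate] at hl
    rcases hl with (⟨o, -, h⟩ | ⟨c, -, h⟩) | ⟨_, ⟨-, rfl⟩, h⟩
    · cases e : (litAt φ o).2 <;> rw [e] at h
      · exact hm _ _ l h
      · simp at h
    · exact hm _ _ l h
    · exact ht l h

end red

section ok
variable {G : Type} [Group G] (xs : List G)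

lemma ev_nil : ev xs [] = 1 := rfl
lemma ev_append (u v : Word) : ev xs (u ++ v) = ev xs u * ev xs v := by simp [ev]
lemma ev_rep (u : Word) (n : ℕ) : ev xs (List.replicate n u).flatten = ev xs u ^ n := by
  induction n with
  | zero => simp [ev]
  | succ n ih => rw [List.replicate_succ, List.flatten_cons, ev_append, ih, pow_succ']

lemma exists_word (hs : Subgroup.closure {x | x ∈ xs} = ⊤) (g : G) :
    ∃ u : Word, (∀ l ∈ u, l.1 < xs.length) ∧ ev xs u = g := by
  have hg : g ∈ Subgroup.closure {x | x ∈ xs} := hs ▸ Subgroup.mem_top g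
  induction hg using Subgroup.closure_induction'' with
  | mem x hx =>
    obtain ⟨i, hi, rfl⟩ := List.getElem_of_mem hx
    exact ⟨[(i, true)], by simpa using hi, by simp [ev, hi]⟩
  | inv_mem x hx =>
    obtain ⟨i, hi, rfl⟩ := List.getElem_of_mem hx
    exact ⟨[(i, false)], by simpa using hi, by simp [ev, hi]⟩
  | one => exact ⟨[], by simp, rfl⟩
  | mul x y _ _ h1 h2 =>
    obtain ⟨u, hu, rfl⟩ := h1
    obtain ⟨v, hv, rfl⟩ := h2
    exact ⟨u ++ v, fun l hl => (List.mem_append.1 hl).elim (hu l) (hv l), ev_append xs u v⟩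

variable {t : G} {Φ : ℤ[X] → G} (hadd : ∀ p q, Φ (p + q) = Φ p * Φ q)
  (hsh : ∀ p, t * Φ p = Φ (X * p) * t)
  (hfree : ∀ p : ℤ[X], (∀ i, |p.coeff i| ≤ 1) → Φ p = 1 → p = 0)

include hadd in
lemma phi_zero : Φ 0 = 1 := by
  have := hadd 0 0
  rw [add_zero] at this
  exact left_eq_mul.1 this

include hadd in
lemma phi_neg (p) : Φ (-p) = (Φ p)⁻¹ :=
  eq_inv_of_mul_eq_one_left (by rw [← hadd, neg_add_cancel, phi_zero hadd])

include hsh in
lemma phi_pow (n : ℕ) (p) : t ^ n * Φ p = Φ (X ^ n * p) * t ^ n := by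
  induction n with
  | zero => simp
  | succ n ih => rw [pow_succ', mul_assoc, ih, ← mul_assoc, hsh, pow_succ' X, mul_assoc, mul_assoc]

noncomputable def ind (S : Finset ℕ) : ℤ[X] := ∑ n ∈ S, X ^ n

lemma coeff_ind (S : Finset ℕ) (n : ℕ) : (ind S).coeff n = if n ∈ S then 1 else 0 := by
  simp [ind, coeff_X_pow]

include hfree in
lemma free2 {A B : Finset ℕ} (h : Φ (ind A - ind B) = 1) : A = B := by
  have := hfree _ (fun i => by
    rw [coeff_sub, coeff_ind, coeff_ind]; split_ifs <;> simp) h
  ext n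
  have := congrArg (fun p => p.coeff n) this
  simp only [coeff_sub, coeff_ind, coeff_zero] at this
  split_ifs at this with h1 h2 h2 <;> simp_all

include hadd hsh hfree in
lemma phi_eq {p q : ℤ[X]} {i j : ℕ} :
    Φ p * t ^ i = Φ q * t ^ j ↔ i = j ∧ Φ (p - q) = 1 := by
  have key : ∀ (p q : ℤ[X]) (i k : ℕ), Φ p * t ^ i = Φ q * t ^ (k + i) → k = 0 := by
    intro p q i k h
    have h1 : Φ (-q + p) = t ^ k := by
      rw [hadd, phi_neg hadd, inv_mul_eq_iff_eq_mul]
      rw [pow_add, ← mul_assoc] at h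
      exact mul_right_cancel h
    have h2 := phi_pow hsh k 1
    rw [← h1, ← hadd, add_comm, hadd, mul_one] at h2
    have h3 : Φ (ind {k} - ind {0}) = 1 := by
      simp only [ind, sum_singleton, pow_zero]
      rw [sub_eq_add_neg, hadd, phi_neg hadd, ← mul_right_cancel h2, mul_inv_cancel]
    simpa using free2 hfree h3
  constructor
  · intro h
    have hij : i = j := by
      rcases le_total i j with h1 | h1
      · obtain ⟨k, rfl⟩ := Nat.exists_eq_add_of_le' h1
        rw [key p q i k h, zero_add]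
      · obtain ⟨k, rfl⟩ := Nat.exists_eq_add_of_le' h1
        rw [key q p j k h.symm, zero_add]
    subst hij
    exact ⟨rfl, by rw [sub_eq_add_neg, hadd, phi_neg hadd, mul_right_cancel h, mul_inv_cancel]⟩
  · rintro ⟨rfl, h⟩
    rw [sub_eq_add_neg, hadd, phi_neg hadd, mul_inv_eq_one] at h
    rw [h]

include hadd in
lemma ev_flat (f : ℕ → Word) (p : ℕ → ℤ[X]) (h : ∀ o, ev xs (f o) = Φ (p o)) (n : ℕ) :
    ev xs ((List.range n).flatMap f) = Φ (∑ o ∈ range n, p o) := by
  induction n with
  | zero => simp [ev_nil, phi_zero hadd]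
  | succ n ih => simp [List.range_succ, ev_append, ih, h, sum_range_succ, hadd]

include hadd in
lemma prod1 (g : ℕ → G) (p : ℕ → ℤ[X]) (n : ℕ) (h : ∀ o < n, g o = Φ (p o)) :
    ((List.range n).map g).prod = Φ (∑ o ∈ range n, p o) := by
  induction n with
  | zero => simp [phi_zero hadd]
  | succ n ih =>
    simp [List.range_succ, ih fun o ho => h o (by omega), h, sum_range_succ, hadd]

include hadd hsh in
lemma prod2 (δ : ℕ → Bool) (p : ℕ → ℤ[X]) (n : ℕ) :
    ((List.range n).map fun o => if δ o = true then Φ (p o) * t else 1).prod =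
      Φ (∑ o ∈ range n, if δ o = true then X ^ Nat.count (δ · = true) o * p o else 0) *
        t ^ Nat.count (δ · = true) n := by
  induction n with
  | zero => simp [phi_zero hadd]
  | succ n ih =>
    rw [List.range_succ, List.map_append, List.prod_append, ih, sum_range_succ, Nat.count_succ]
    by_cases h : δ n = true
    · simp only [h, if_true, List.map_cons, List.map_nil, List.prod_cons, List.prod_nil, mul_one]
      rw [hadd, mul_assoc, ← mul_assoc (t ^ _), phi_pow hsh, pow_succ]; group
    · simp [h]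

lemma blk {W a b r s : ℕ} (hr : r < W) (hs : s < W) (h : W * a + r = W * b + s) :
    a = b ∧ r = s := by
  have h1 := congrArg (· / W) h
  have h0 : 0 < W := by omega
  simp only [Nat.mul_add_div h0, Nat.div_eq_of_lt hr, Nat.div_eq_of_lt hs] at h1
  obtain rfl : a = b := by omega
  exact ⟨rfl, by omega⟩

lemma count3 (δ : ℕ → Bool) (c : ℕ) : Nat.count (δ · = true) (3 * (c + 1)) =
    Nat.count (δ · = true) (3 * c) + ((δ (3 * c)).toNat + (δ (3 * c + 1)).toNat +
      (δ (3 * c + 2)).toNat) := by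
  rw [show 3 * (c + 1) = 3 * c + 2 + 1 by ring, Nat.count_succ, Nat.count_succ, Nat.count_succ]
  cases δ (3 * c) <;> cases δ (3 * c + 1) <;> cases δ (3 * c + 2) <;> simp

variable {wa wb wt wu : Word} (ea : ev xs wa = Φ 1) (eb : ev xs wb = (Φ 1)⁻¹) (et : ev xs wt = t)
  (eu : ev xs wu = t⁻¹)

include hadd hsh ea eb et eu in
lemma ev_mon (i : ℕ) (b : Bool) :
    ev xs (mon wa wb wt wu i b) = Φ (cond b (X ^ i) (-X ^ i)) := by
  rw [mon, ev_append, ev_append, ev_rep, ev_rep, et, eu, inv_pow, mul_inv_eq_iff_eq_mul]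
  cases b
  · simp only [cond_false]; rw [eb, ← phi_neg hadd, phi_pow hsh]; simp
  · simp only [cond_true]; rw [ea, phi_pow hsh]; simp

/-- the four sets of exponents -/
def s1 (φ : F3) (a : ℕ → Bool) : Finset ℕ :=
  ((range (3 * φ.length)).filter fun o => (a (litAt φ o).1 == (litAt φ o).2) = true).image
    fun o => Wd φ * o + φ.length
def s2 (φ : F3) (δ : ℕ → Bool) : Finset ℕ :=
  ((range (3 * φ.length)).filter fun o => δ o = true).image fun o =>
    Wd φ * (3 * φ.length + o / 3) + (φ.length - o / 3 + Nat.count (δ · = true) o)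
def s3 (φ : F3) (δ : ℕ → Bool) : Finset ℕ :=
  ((range (3 * φ.length)).filter fun o => δ o = true).image fun o =>
    Wd φ * o + (φ.length - o / 3 + Nat.count (δ · = true) o)
def s4 (φ : F3) : Finset ℕ :=
  (range φ.length).image fun c => Wd φ * (3 * φ.length + c) + φ.length

lemma off (φ : F3) (δ : ℕ → Bool) {o : ℕ} (h : o < 3 * φ.length) :
    φ.length - o / 3 + Nat.count (δ · = true) o < Wd φ := by
  have := Nat.count_le (p := (δ · = true)) (n := o)
  unfold Wd; omega

lemma off0 (φ : F3) : φ.length < Wd φ := by unfold Wd; omega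

include hadd hsh hfree ea eb et eu in
lemma prod_iff (φ : F3) (ε : ℕ → Bool) :
    ((List.range (red wa wb wt wu φ).1.length).map fun i =>
      if ε i = true then ev xs ((red wa wb wt wu φ).1.getD i []) else 1).prod =
        ev xs (red wa wb wt wu φ).2 ↔
    Nat.count (fun o => ε (nv φ + o) = true) (3 * φ.length) = φ.length ∧
      s1 φ ε ∪ s2 φ (fun o => ε (nv φ + o)) = s3 φ (fun o => ε (nv φ + o)) ∪ s4 φ := by
  have hm := ev_mon xs hadd hsh ea eb et eu
  set δ : ℕ → Bool := fun o => ε (nv φ + o) with hδ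
  have e1 : ((List.range (nv φ)).map fun i =>
      if ε i = true then ev xs ((red wa wb wt wu φ).1.getD i []) else 1).prod =
      Φ (∑ o ∈ range (3 * φ.length), if ε (litAt φ o).1 = true then
        cond (litAt φ o).2 (X ^ (Wd φ * o + φ.length)) (-X ^ (Wd φ * o + φ.length)) else 0) := by
    rw [prod1 hadd _ (fun v => ∑ o ∈ range (3 * φ.length), if (litAt φ o).1 = v then
      (if ε v = true then cond (litAt φ o).2 (X ^ (Wd φ * o + φ.length))
        (-X ^ (Wd φ * o + φ.length)) else 0) else 0)]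
    · rw [sum_comm]
      refine congrArg Φ (sum_congr rfl fun o ho => ?_)
      rw [sum_ite_eq, if_pos]
      rw [mem_range, nv, Nat.lt_succ_iff]
      exact List.single_le_sum (by simp) _ (List.mem_map.2 ⟨o, by simpa using ho, rfl⟩)
    · intro v hv
      have : (red wa wb wt wu φ).1.getD v [] = xw wa wb wt wu φ v := by
        simp [red, hv, show v < nv φ + 3 * φ.length by omega]
      rw [this]
      by_cases h : ε v = true
      · simp only [h, if_true]
        refine ev_flat xs hadd _ _ (fun o => ?_) _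
        split_ifs
        · exact hm _ _
        · exact (phi_zero hadd).symm
      · simp [h, phi_zero hadd]
  have e2 : ((List.range (3 * φ.length)).map fun o =>
      if ε (nv φ + o) = true then ev xs ((red wa wb wt wu φ).1.getD (nv φ + o) []) else 1) =
      (List.range (3 * φ.length)).map fun o => if δ o = true then
        Φ (-X ^ (Wd φ * o + (φ.length - o / 3)) +
          X ^ (Wd φ * (3 * φ.length + o / 3) + (φ.length - o / 3))) * t else 1 := by
    refine List.map_congr_left fun o ho => ?_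
    have : (red wa wb wt wu φ).1.getD (nv φ + o) [] = yw wa wb wt wu φ o := by
      simp [red, List.mem_range.1 ho]
    rw [this, yw, ev_append, ev_append, hm, hm, et, hadd]; rfl
  have e3 : ev xs (red wa wb wt wu φ).2 = Φ ((∑ o ∈ range (3 * φ.length),
      cond (litAt φ o).2 0 (-X ^ (Wd φ * o + φ.length))) +
        ∑ c ∈ range φ.length, X ^ (Wd φ * (3 * φ.length + c) + φ.length)) * t ^ φ.length := by
    simp only [red, tgt]
    rw [ev_append, ev_append, ev_rep, et, hadd, ev_flat xs hadd _ _ (fun c => hm _ true),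
      ev_flat xs hadd _ (fun o => cond (litAt φ o).2 0 (-X ^ (Wd φ * o + φ.length)))]
    · rfl
    · intro o
      cases (litAt φ o).2
      · exact hm _ false
      · exact (phi_zero hadd).symm
  have hl : (red wa wb wt wu φ).1.length = nv φ + 3 * φ.length := by simp [red]
  rw [hl, List.range_add, List.map_append, List.prod_append, e1, List.map_map]
  simp only [Function.comp_def]
  rw [e2, prod2 hadd hsh, e3, ← mul_assoc, ← hadd, phi_eq hadd hsh hfree]
  refine and_congr_right fun _ => ?_
  have d1 : Disjoint (s1 φ ε) (s2 φ δ) := by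
    simp only [s1, s2, disjoint_left, mem_image, mem_filter, mem_range]
    rintro _ ⟨o, ⟨h1, -⟩, rfl⟩ ⟨o', ⟨h2, -⟩, h3⟩
    have := (blk (off φ δ h2) (off0 φ) h3).1
    omega
  have d2 : Disjoint (s3 φ δ) (s4 φ) := by
    simp only [s3, s4, disjoint_left, mem_image, mem_filter, mem_range]
    rintro _ ⟨o, ⟨h1, -⟩, rfl⟩ ⟨o', h2, h3⟩
    have := (blk (off0 φ) (off φ δ h1) h3).1
    omega
  have key : ∀ p, p = ind (s1 φ ε ∪ s2 φ δ) - ind (s3 φ δ ∪ s4 φ) →
      (Φ p = 1 ↔ s1 φ ε ∪ s2 φ δ = s3 φ δ ∪ s4 φ) := by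
    rintro _ rfl
    exact ⟨free2 hfree, fun h => by rw [h, sub_self, phi_zero hadd]⟩
  refine key _ ?_
  unfold ind
  rw [sum_union d1, sum_union d2, s1, s2, s3, s4, sum_image, sum_image, sum_image, sum_image,
    sum_filter, sum_filter, sum_filter]
  · have : ∀ a b c d e f : ℤ[X], a + b - c = d + e - f → ∀ g, a + b - (c + g) = d + e - (f + g) := by
      intro a b c d e f h g; linear_combination h
    refine this _ _ _ _ _ _ ?_ _
    simp only [← sum_add_distrib, ← sum_sub_distrib]
    refine sum_congr rfl fun o _ => ?_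
    cases ε (litAt φ o).1 <;> cases (litAt φ o).2 <;> cases δ o <;> simp <;> ring
  · intro a _ b _ h
    have := (blk (off0 φ) (off0 φ) h).1
    omega
  · intro a ha b hb h
    simp only [coe_filter, mem_range, Set.mem_ofPred_eq] at ha hb
    exact (blk (off φ δ ha.1) (off φ δ hb.1) h).1
  · intro a ha b hb h
    simp only [coe_filter, mem_range, Set.mem_ofPred_eq] at ha hb
    obtain ⟨h1, h2⟩ := blk (off φ δ ha.1) (off φ δ hb.1) h
    rcases lt_trichotomy a b with h3 | h3 | h3
    · have := Nat.count_strict_mono (p := (δ · = true)) ha.2 h3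
      omega
    · exact h3
    · have := Nat.count_strict_mono (p := (δ · = true)) hb.2 h3
      omega
  · intro a _ b _ h
    exact (blk (off0 φ) (off0 φ) h).1

lemma comb_sound (φ : F3) (a δ : ℕ → Bool)
    (h1 : Nat.count (δ · = true) (3 * φ.length) = φ.length)
    (h2 : s1 φ a ∪ s2 φ δ = s3 φ δ ∪ s4 φ) : One3 φ := by
  have k1 : ∀ o < 3 * φ.length, (a (litAt φ o).1 == (litAt φ o).2) = δ o := by
    intro o ho
    rw [Bool.eq_iff_iff]
    constructor
    · intro h
      have : Wd φ * o + φ.length ∈ s3 φ δ ∪ s4 φ :=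
        h2 ▸ mem_union_left _ (mem_image.2 ⟨o, mem_filter.2 ⟨mem_range.2 ho, h⟩, rfl⟩)
      simp only [s3, s4, mem_union, mem_image, mem_filter, mem_range] at this
      rcases this with ⟨o', ⟨g1, g2⟩, g3⟩ | ⟨c, g1, g2⟩
      · rwa [← (blk (off φ δ g1) (off0 φ) g3).1]
      · have := (blk (off0 φ) (off0 φ) g2).1
        omega
    · intro h
      have : Wd φ * o + (φ.length - o / 3 + Nat.count (δ · = true) o) ∈ s1 φ a ∪ s2 φ δ :=
        h2 ▸ mem_union_left _ (mem_image.2 ⟨o, mem_filter.2 ⟨mem_range.2 ho, h⟩, rfl⟩)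
      simp only [s1, s2, mem_union, mem_image, mem_filter, mem_range] at this
      rcases this with ⟨o', ⟨g1, g2⟩, g3⟩ | ⟨c, ⟨g1, -⟩, g2⟩
      · rwa [← (blk (off0 φ) (off φ δ ho) g3).1]
      · have := (blk (off φ δ g1) (off φ δ ho) g2).1
        omega
  have k2 : ∀ c < φ.length,
      1 ≤ (δ (3 * c)).toNat + (δ (3 * c + 1)).toNat + (δ (3 * c + 2)).toNat := by
    intro c hc
    have : Wd φ * (3 * φ.length + c) + φ.length ∈ s1 φ a ∪ s2 φ δ :=
      h2 ▸ mem_union_right _ (mem_image.2 ⟨c, by simp [hc], rfl⟩)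
    simp only [s1, s2, mem_union, mem_image, mem_filter, mem_range] at this
    rcases this with ⟨o', ⟨g1, g2⟩, g3⟩ | ⟨o, ⟨g1, g3⟩, g2⟩
    · have := (blk (off0 φ) (off0 φ) g3).1
      omega
    · have := (blk (off φ δ g1) (off0 φ) g2).1
      have h : o = 3 * c ∨ o = 3 * c + 1 ∨ o = 3 * c + 2 := by omega
      rcases h with rfl | rfl | rfl <;> simp [g3] <;> omega
  have k3 : ∀ n, Nat.count (δ · = true) (3 * n) = ∑ c ∈ range n,
      ((δ (3 * c)).toNat + (δ (3 * c + 1)).toNat + (δ (3 * c + 2)).toNat) := by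
    intro n
    induction n with
    | zero => simp
    | succ n ih => rw [count3, ih, sum_range_succ]
  have k4 := (sum_eq_sum_iff_of_le (s := range φ.length) (f := fun _ => 1)
    (fun c hc => k2 c (mem_range.1 hc))).1 (by rw [← k3, h1]; simp)
  refine (one3_iff φ).2 ⟨a, fun c hc => ?_⟩
  rw [k1 _ (by omega), k1 _ (by omega), k1 _ (by omega)]
  exact (k4 c (mem_range.2 hc)).symm

lemma comb_complete (φ : F3) (a δ : ℕ → Bool)
    (h1 : ∀ o < 3 * φ.length, δ o = (a (litAt φ o).1 == (litAt φ o).2))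
    (h2 : ∀ c < φ.length, Ex1 (δ (3 * c)) (δ (3 * c + 1)) (δ (3 * c + 2))) :
    Nat.count (δ · = true) (3 * φ.length) = φ.length ∧ s1 φ a ∪ s2 φ δ = s3 φ δ ∪ s4 φ := by
  have k1 : ∀ c ≤ φ.length, Nat.count (δ · = true) (3 * c) = c := by
    intro c
    induction c with
    | zero => simp
    | succ c ih => intro hc; rw [count3, ih (by omega), h2 c (by omega)]
  have k2 : ∀ o < 3 * φ.length, δ o = true →
      φ.length - o / 3 + Nat.count (δ · = true) o = φ.length := by
    intro o ho hd
    have a1 := Nat.count_monotone (δ · = true) (show 3 * (o / 3) ≤ o by omega)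
    have a2 := Nat.count_strict_mono (p := (δ · = true)) hd (show o < 3 * (o / 3 + 1) by omega)
    rw [k1 _ (by omega)] at a1 a2
    omega
  refine ⟨k1 _ le_rfl, ?_⟩
  congr 1
  · unfold s1 s3
    rw [filter_congr (q := fun o => δ o = true) fun o ho => by rw [h1 o (mem_range.1 ho)]]
    refine image_congr fun o ho => ?_
    simp only [coe_filter, mem_range, Set.mem_ofPred_eq] at ho
    rw [k2 o ho.1 ho.2]
  · ext n
    simp only [s2, s4, mem_image, mem_filter, mem_range]
    constructor
    · rintro ⟨o, ⟨g1, g2⟩, rfl⟩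
      exact ⟨o / 3, by omega, by rw [k2 o g1 g2]⟩
    · rintro ⟨c, hc, rfl⟩
      have : ∃ o, o / 3 = c ∧ δ o = true := by
        have := h2 c hc
        by_contra hn
        push Not at hn
        have b0 := hn (3 * c) (by omega)
        have b1 := hn (3 * c + 1) (by omega)
        have b2 := hn (3 * c + 2) (by omega)
        simp_all [Ex1]
      obtain ⟨o, rfl, ho⟩ := this
      exact ⟨o, ⟨by omega, ho⟩, by rw [k2 o (by omega) ho]⟩

end ok

theorem ssp_nph {G : Type} [Group G] [IsMulCommutative (commutator G)] (xs : List G)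
    (hs : Subgroup.closure {x | x ∈ xs} = ⊤) (hv : ¬ Group.IsVirtuallyNilpotent G) :
    NPH (Valid xs) (SSP xs) := by
  classical
  obtain ⟨t, Φ, hadd, hsh, hfree⟩ := exists_free (s := xs.toFinset) (by simpa using hs) hv
  obtain ⟨wa, ha, ea⟩ := exists_word xs hs (Φ 1)
  obtain ⟨wb, hb, eb⟩ := exists_word xs hs (Φ 1)⁻¹
  obtain ⟨wt, ht, et⟩ := exists_word xs hs t
  obtain ⟨wu, hu, eu⟩ := exists_word xs hs t⁻¹
  refine one3_nph.reduce (red wa wb wt wu) (pt_red wa wb wt wu) fun φ _ =>
    ⟨valid_red wa wb wt wu xs ha hb ht hu φ, ?_, ?_⟩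
  · intro h
    obtain ⟨a, h⟩ := (one3_iff φ).1 h
    let ε : ℕ → Bool := fun i => if i < nv φ then a i else
      (a (litAt φ (i - nv φ)).1 == (litAt φ (i - nv φ)).2)
    have e : ∀ o, ε (nv φ + o) = (a (litAt φ o).1 == (litAt φ o).2) := fun o => by simp [ε]
    refine ⟨ε, (prod_iff xs hadd hsh hfree ea eb et eu φ ε).2
      (comb_complete φ ε _ (fun o ho => ?_) fun c hc => ?_)⟩
    · have : (litAt φ o).1 < nv φ := by
        rw [nv, Nat.lt_succ_iff]
        exact List.single_le_sum (by simp) _ (List.mem_map.2 ⟨o, by simpa using ho, rfl⟩)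
      rw [e]; simp [ε, this]
    · simp only [e]; exact h c hc
  · rintro ⟨ε, h⟩
    obtain ⟨h1, h2⟩ := (prod_iff xs hadd hsh hfree ea eb et eu φ ε).1 h
    exact comb_sound φ ε _ h1 h2

end Pool.Agent.H28.Ssp
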