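import Mathlib

/-! Strong standard bases for shift-invariant subgroups of free modules over integer polynomial
rings, with bounded membership certificates. -/

namespace Pool.Agent.H28.Ssp

open Finsupp

abbrev Tm (r : ℕ) := (Fin r → ℕ) × Fin r

variable {r : ℕ}

def ord (τ : Tm r) : ℕ ×ₗ (Lex (Fin r → ℕ) ×ₗ Fin r) := toLex (∑ j, τ.1 j, toLex (toLex τ.1, τ.2))

lemma ord_inj : Function.Injective (ord : Tm r → _) := by
  rintro ⟨v, l⟩ ⟨v', l'⟩ h
  simp only [ord, EmbeddingLike.apply_eq_iff_eq, Prod.mk.injEq] at h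
  exact Prod.ext h.2.1 h.2.2

def mvv (u : Fin r → ℕ) (τ : Tm r) : Tm r := (τ.1 + u, τ.2)

lemma mvv_inj (u : Fin r → ℕ) : Function.Injective (mvv u) := by
  rintro ⟨v, l⟩ ⟨v', l'⟩ h
  simp only [mvv, Prod.mk.injEq, add_left_inj] at h
  exact Prod.ext h.1 h.2

lemma ord_mvv (u : Fin r → ℕ) {τ τ' : Tm r} (h : ord τ ≤ ord τ') :
    ord (mvv u τ) ≤ ord (mvv u τ') := by
  rcases h.eq_or_lt with h | h
  · rw [ord_inj h]
  apply le_of_lt
  simp only [ord, mvv, Prod.Lex.toLex_lt_toLex, Pi.add_apply, Finset.sum_add_distrib,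
    EmbeddingLike.apply_eq_iff_eq, add_lt_add_iff_right, add_left_inj] at h ⊢
  rcases h with h | ⟨h1, ⟨i, h2, h3⟩ | h⟩
  · exact Or.inl h
  · exact Or.inr ⟨h1, Or.inl ⟨i, fun j hj => by simpa using h2 j hj, by simpa using h3⟩⟩
  · exact Or.inr ⟨h1, Or.inr h⟩

lemma deg_le {τ τ' : Tm r} (h : ord τ ≤ ord τ') : ∑ j, τ.1 j ≤ ∑ j, τ'.1 j := by
  simp only [ord, Prod.Lex.toLex_le_toLex] at h
  omega

noncomputable def sh (u : Fin r → ℕ) (f : Tm r →₀ ℤ) : Tm r →₀ ℤ := mapDomain (mvv u) f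

def Lead (f : Tm r →₀ ℤ) (τ : Tm r) : Prop := ∀ τ', f τ' ≠ 0 → ord τ' ≤ ord τ

lemma sh_apply (u : Fin r → ℕ) (f : Tm r →₀ ℤ) (τ : Tm r) : sh u f (mvv u τ) = f τ :=
  mapDomain_apply (mvv_inj u) f τ

lemma sh_cases (u : Fin r → ℕ) (f : Tm r →₀ ℤ) (τ : Tm r) :
    sh u f τ = 0 ∨ ∃ τ0, τ = mvv u τ0 ∧ sh u f τ = f τ0 := by
  by_cases h : τ ∈ Set.range (mvv u)
  · obtain ⟨τ0, rfl⟩ := h
    exact Or.inr ⟨τ0, rfl, sh_apply u f τ0⟩
  · exact Or.inl (mapDomain_of_notMem_range f τ h)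

lemma Lead.sh {f : Tm r →₀ ℤ} {τ : Tm r} (h : Lead f τ) (u : Fin r → ℕ) :
    Lead (sh u f) (mvv u τ) := by
  intro τ' h'
  rcases sh_cases u f τ' with e | ⟨τ0, rfl, e⟩
  · exact absurd e h'
  · exact ord_mvv u (h τ0 (e ▸ h'))

variable (N : AddSubgroup (Tm r →₀ ℤ))

def lci (τ : Tm r) : Ideal ℤ where
  carrier := {c | ∃ f ∈ N, Lead f τ ∧ f τ = c}
  zero_mem' := ⟨0, N.zero_mem, fun _ h => absurd rfl h, rfl⟩
  add_mem' := by
    rintro _ _ ⟨f, hf, h1, rfl⟩ ⟨g, hg, h2, rfl⟩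
    refine ⟨f + g, N.add_mem hf hg, fun τ' h => ?_, rfl⟩
    by_cases e : f τ' = 0
    · exact h2 τ' (by simpa [e] using h)
    · exact h1 τ' e
  smul_mem' := by
    rintro c _ ⟨f, hf, h1, rfl⟩
    exact ⟨c • f, N.zsmul_mem hf c, fun τ' h => h1 τ' (by rintro e; simp [e] at h), rfl⟩

theorem basis (hN : ∀ u, ∀ f ∈ N, sh u f ∈ N) : ∃ (E : Finset (Tm r)) (h : Tm r → Tm r →₀ ℤ),
    (∀ τ, h τ ∈ N ∧ Lead (h τ) τ) ∧ ∀ f ∈ N, ∀ τ, Lead f τ →
      ∃ τ0 ∈ E, ∃ u, τ = mvv u τ0 ∧ h τ0 τ0 ∣ f τ := by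
  have mono : ∀ l v v', v ≤ v' → lci N (v, l) ≤ lci N (v', l) := by
    rintro l v v' hv _ ⟨f, hf, h1, rfl⟩
    obtain ⟨u, rfl⟩ := exists_add_of_le hv
    exact ⟨sh u f, hN u f hf, h1.sh u, sh_apply u f (v, l)⟩
  let Es : Set (Tm r) := {τ | ∀ v < τ.1, lci N (v, τ.2) ≠ lci N τ}
  have fin : Es.Finite := by
    have : ∀ l, {v | (v, l) ∈ Es}.Finite := by
      intro l
      by_contra hinf
      let g := (Set.Infinite.natEmbedding _ hinf)
      obtain ⟨k, hk⟩ := wellQuasiOrdered_le.exists_monotone_subseq (fun n => (g n).1)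
      obtain ⟨n, hn⟩ := monotone_stabilizes_iff_noetherian.2 (inferInstance : IsNoetherian ℤ ℤ)
        ⟨fun n => lci N ((g (k n)).1, l), fun a b hab => mono _ _ _ (hk a b hab)⟩
      refine (g (k (n + 1))).2 (g (k n)).1 (lt_of_le_of_ne (hk _ _ (by omega)) fun e => ?_)
        (hn (n + 1) (by omega))
      have := k.injective (g.injective (Subtype.ext e))
      omega
    refine (Set.finite_iUnion fun l => (this l).image (fun v => (v, l))).subset ?_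
    rintro ⟨v, l⟩ h
    exact Set.mem_iUnion.2 ⟨l, v, h, rfl⟩
  have gen : ∀ τ, ∃ f, (f ∈ N ∧ Lead f τ) ∧ ∀ c ∈ lci N τ, f τ ∣ c := by
    intro τ
    obtain ⟨f, h1, h2, h3⟩ := Submodule.IsPrincipal.generator_mem (lci N τ)
    exact ⟨f, ⟨h1, h2⟩, fun c hc => h3 ▸ (Submodule.IsPrincipal.mem_iff_generator_dvd _).1 hc⟩
  choose h h1 h2 using gen
  refine ⟨fin.toFinset, h, h1, fun f hf τ hτ => ?_⟩
  obtain ⟨v, ⟨g1, g2⟩, g3⟩ := (wellFounded_lt (α := Fin r → ℕ)).has_min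
    {v | v ≤ τ.1 ∧ lci N (v, τ.2) = lci N τ} ⟨τ.1, le_rfl, rfl⟩
  obtain ⟨u, hu⟩ := exists_add_of_le g1
  refine ⟨(v, τ.2), fin.mem_toFinset.2 fun v' hv' e => g3 v' ⟨hv'.le.trans g1, e.trans g2⟩ hv', u,
    Prod.ext hu rfl, h2 _ _ ?_⟩
  rw [g2]; exact ⟨f, hf, hτ, rfl⟩

theorem cert (hN : ∀ u, ∀ f ∈ N, sh u f ∈ N) : ∃ (E : Finset (Tm r)) (h : Tm r → Tm r →₀ ℤ) (C : ℕ),
    (∀ τ, h τ ∈ N) ∧ ∀ f ∈ N, ∀ B n : ℕ, (∀ τ, (f τ).natAbs ≤ B) →
      (∀ τ, f τ ≠ 0 → ∑ j, τ.1 j ≤ n) →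
      ∃ c : List (ℤ × (Fin r → ℕ) × Tm r), c.length ≤ (n + 1) ^ r * r ∧
        (∀ e ∈ c, e.1.natAbs ≤ B * (1 + C) ^ ((n + 1) ^ r * r) ∧ e.2.2 ∈ E ∧ ∀ j, e.2.1 j ≤ n) ∧
        f = (c.map fun e => e.1 • sh e.2.1 (h e.2.2)).sum := by
  classical
  obtain ⟨E, h, h1, h2⟩ := basis N hN
  let C := E.sup fun τ => (h τ).support.sup fun τ' => (h τ τ').natAbs
  have hC : ∀ τ ∈ E, ∀ τ', (h τ τ').natAbs ≤ C := by
    intro τ hτ τ'
    by_cases e : h τ τ' = 0
    · simp [e]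
    · exact (Finset.le_sup (f := fun τ' => (h τ τ').natAbs) (mem_support_iff.2 e)).trans
        (Finset.le_sup (f := fun τ => (h τ).support.sup fun τ' => (h τ τ').natAbs) hτ)
  have key : ∀ (n k : ℕ), ∀ f ∈ N, ∀ (B : ℕ) (D : Finset (Tm r)), (∀ τ, (f τ).natAbs ≤ B) →
      (∀ τ ∈ D, ∀ τ', ord τ' ≤ ord τ → τ' ∈ D) → (∀ τ ∈ D, ∑ j, τ.1 j ≤ n) → D.card ≤ k →
      (∀ τ, f τ ≠ 0 → τ ∈ D) →
      ∃ c : List (ℤ × (Fin r → ℕ) × Tm r), c.length ≤ k ∧
        (∀ e ∈ c, e.1.natAbs ≤ B * (1 + C) ^ k ∧ e.2.2 ∈ E ∧ ∀ j, e.2.1 j ≤ n) ∧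
        f = (c.map fun e => e.1 • sh e.2.1 (h e.2.2)).sum := by
    intro n k
    induction k with
    | zero =>
      intro f _ B D _ _ _ hD hs
      refine ⟨[], le_rfl, by simp, ?_⟩
      ext τ
      by_contra e
      have := Finset.card_pos.2 ⟨τ, hs τ e⟩
      omega
    | succ k ih =>
      intro f hf B D hB hD hn hk hs
      by_cases e : f = 0
      · exact ⟨[], by simp, by simp, e⟩
      obtain ⟨τ, g1, g2⟩ := Finset.exists_max_image f.support ord (support_nonempty_iff.2 e)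
      have hl : Lead f τ := fun τ' h' => g2 τ' (mem_support_iff.2 h')
      have hτ := mem_support_iff.1 g1
      obtain ⟨τ0, hE, u, rfl, a, ha⟩ := h2 f hf τ hl
      have haB : a.natAbs ≤ B :=
        (Nat.le_of_dvd (Int.natAbs_pos.2 hτ) (Int.natAbs_dvd_natAbs.2 (Dvd.intro_left _ ha.symm))).trans
          (hB _)
      obtain ⟨c, c1, c2, c3⟩ := ih (f - a • sh u (h τ0))
        (N.sub_mem hf (N.zsmul_mem (hN _ _ (h1 _).1) _)) (B * (1 + C))
        (D.filter fun τ' => ord τ' < ord (mvv u τ0))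
        (fun τ' => by
          have b1 := hB τ'
          have b2 : (sh u (h τ0) τ').natAbs ≤ C := by
            rcases sh_cases u (h τ0) τ' with e | ⟨τ1, -, e⟩ <;> rw [e]
            · simp
            · exact hC _ hE _
          simp only [coe_sub, coe_smul, Pi.sub_apply, Pi.smul_apply, smul_eq_mul]
          refine (Int.natAbs_sub_le _ _).trans ?_
          rw [Int.natAbs_mul, mul_add, mul_one]
          exact add_le_add b1 (Nat.mul_le_mul haB b2))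
        (fun a ha b hb => by
          rw [Finset.mem_filter] at ha ⊢
          exact ⟨hD a ha.1 b hb, hb.trans_lt ha.2⟩)
        (fun a ha => hn a (Finset.mem_filter.1 ha).1)
        (by
          have : (D.filter fun τ' => ord τ' < ord (mvv u τ0)).card < D.card :=
            Finset.card_lt_card (Finset.filter_ssubset.2 ⟨_, hs _ hτ, lt_irrefl _⟩)
          omega)
        (fun τ' h' => by
          have le : ord τ' ≤ ord (mvv u τ0) := by
            by_cases e : f τ' = 0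
            · exact (h1 τ0).2.sh u τ' (by rintro e'; simp [e, e'] at h')
            · exact hl τ' e
          refine Finset.mem_filter.2 ⟨hD _ (hs _ hτ) _ le, lt_of_le_of_ne le fun e => h' ?_⟩
          rw [ord_inj e]
          simp [sh_apply, ha, mul_comm])
      refine ⟨(a, u, τ0) :: c, by simpa using c1, ?_, by simp [← c3]⟩
      simp only [List.forall_mem_cons]
      refine ⟨⟨haB.trans (Nat.le_mul_of_pos_right _ (by positivity)), hE, fun j => ?_⟩,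
        fun e he => ⟨(c2 e he).1.trans (le_of_eq (by ring)), (c2 e he).2⟩⟩
      refine le_trans ?_ (hn _ (hs _ hτ))
      exact le_trans (by simp [mvv]) (Finset.single_le_sum (f := fun j => (mvv u τ0).1 j)
        (fun _ _ => Nat.zero_le _) (Finset.mem_univ j))
  refine ⟨E, h, C, fun τ => (h1 τ).1, fun f hf B n hB hn => ?_⟩
  let D := ((Fintype.piFinset fun _ : Fin r => Finset.range (n + 1)) ×ˢ
    (Finset.univ : Finset (Fin r))).filter fun τ => ∑ j, τ.1 j ≤ n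
  have hD : ∀ τ, τ ∈ D ↔ ∑ j, τ.1 j ≤ n := by
    intro τ
    simp only [D, Finset.mem_filter, Finset.mem_product, Fintype.mem_piFinset, Finset.mem_range,
      Finset.mem_univ, and_true, and_iff_right_iff_imp]
    intro h j
    exact Nat.lt_succ_of_le ((Finset.single_le_sum (f := fun j => τ.1 j)
      (fun _ _ => Nat.zero_le _) (Finset.mem_univ j)).trans h)
  refine key n _ f hf B D hB (fun τ h τ' h' => (hD _).2 ((deg_le h').trans ((hD _).1 h)))
    (fun τ h => (hD _).1 h) ((Finset.card_filter_le _ _).trans (by simp))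
    fun τ h => (hD _).2 (hn τ h)

end Pool.Agent.H28.Ssp
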