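import Pool.Agent.H28.Ssp2
import Pool.Agent.H28.Ssp3
import Pool.Agent.H38.ER.Big

/-! The subset sum problem of a finitely generated metabelian group is in NP. -/

namespace Pool.Agent.H28.Ssp

open Pool.Agent.H38.NP Pool.Agent.H38.ER Finsupp

instance decBin : Dec Bin := ⟨fun x => ⟨bval x.val⟩, pt_ofBits (PT.bval PT.id'), fun x => by
  simp [raw, enc, bval_bits]⟩

instance decInt : Dec ℤ :=
  ⟨fun x => cond (dec x : Bool × Bin).1 (-((dec x : Bool × Bin).2.val : ℤ))
      ((dec x : Bool × Bin).2.val : ℤ), by
    have h : PT fun x : Bits => ((dec x : Bool × Bin).2.val : ℤ) :=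
      (pt_diff (PT.snd (Dec.pt (α := Bool × Bin))) (PT.const ⟨0⟩)).of_eq fun a => by simp
    exact PT.cond (PT.fst Dec.pt) (pt_zneg h) h, fun z => by
    have : (dec (raw z) : Bool × Bin) = (decide (z < 0), Bin.mk z.natAbs) := Dec.dec_raw _
    rw [this]
    by_cases h : z < 0 <;> simp only [h, decide_true, decide_false, cond_true, cond_false] <;> omega⟩

abbrev Tr := ℤ × List ℕ × ℕ

def code (l : ℕ × Bool) : ℕ := 2 * l.1 + l.2.toNat

def cnt (r : ℕ) (u : Word) : List ℕ :=
  (List.range r).map fun j => u.countP fun l => decide (code l = j)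

def Dw (r : ℕ) (c : ℤ) (u : Word) : List Tr :=
  (List.range u.length).map fun k => (c, cnt r (u.take k), code (u.getD k (0, false)))

def addv (r : ℕ) (s v : List ℕ) : List ℕ := (List.range r).map fun j => v.getD j 0 + s.getD j 0

def shf (r : ℕ) (a : ℤ) (s : List ℕ) (H : List Tr) : List Tr :=
  H.map fun t => (-(a * t.1), addv r s t.2.1, t.2.2)

def pick (I : List Word × Word) (b : List Bool) : Word :=
  (List.range I.1.length).flatMap fun i => cond (b.getD i false) (I.1.getD i []) []

def allT (r : ℕ) (Hs : List (List Tr)) (I : List Word × Word) (w : List Bool × List Tr) :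
    List Tr :=
  Dw r 1 (pick I w.1) ++ Dw r (-1) I.2 ++ w.2.flatMap fun e => shf r e.1 e.2.1 (Hs.getD e.2.2 [])

def chk (L : List Tr) : Bool :=
  L.all fun t => decide (((L.filter fun t' => decide (t'.2 = t.2)).map fun t' => t'.1).sum = 0)

theorem pt_chk : PT chk := by unfold chk; fun_prop

theorem pt_ver (r : ℕ) (Hs : List (List Tr)) :
    PT fun p : (List Word × Word) × List Bool × List Tr => chk (allT r Hs p.1 p.2) := by
  refine pt_chk.comp ?_
  unfold allT pick shf addv Dw cnt code; fun_prop

noncomputable def fs (L : List Tr) : (List ℕ × ℕ) →₀ ℤ := (L.map fun t => single t.2 t.1).sum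

lemma fs_cons (t : Tr) (L : List Tr) : fs (t :: L) = single t.2 t.1 + fs L := by simp [fs]
lemma fs_append (L L' : List Tr) : fs (L ++ L') = fs L + fs L' := by simp [fs]

lemma fs_apply (L : List Tr) (κ) :
    fs L κ = ((L.filter fun t' => decide (t'.2 = κ)).map fun t' => t'.1).sum := by
  induction L with
  | nil => simp [fs]
  | cons t L ih =>
    rw [fs_cons, Finsupp.add_apply, ih, single_apply, List.filter_cons]
    by_cases h : t.2 = κ <;> simp [h]

lemma fs_supp {L : List Tr} {κ} (h : fs L κ ≠ 0) : ∃ t ∈ L, t.2 = κ := by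
  by_contra hc
  push Not at hc
  rw [fs_apply, List.filter_eq_nil_iff.2 (by simpa using hc)] at h
  simp at h

lemma chk_iff (L : List Tr) : chk L = true ↔ fs L = 0 := by
  simp only [chk, List.all_eq_true, decide_eq_true_eq, ← fs_apply]
  refine ⟨fun h => Finsupp.ext fun κ => ?_, fun h t _ => by simp [h]⟩
  by_contra hc
  obtain ⟨t, ht, rfl⟩ := fs_supp hc
  exact hc (h t ht)

lemma fs_bound {L : List Tr} (h : ∀ t ∈ L, t.1.natAbs ≤ 1) (κ) : (fs L κ).natAbs ≤ L.length := by
  induction L with
  | nil => simp [fs]
  | cons t L ih =>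
    rw [fs_cons, Finsupp.add_apply, single_apply, List.length_cons]
    have h1 := h t List.mem_cons_self
    have h2 := ih fun t ht => h t (List.mem_cons_of_mem _ ht)
    split_ifs <;> omega

lemma fs_flat {β : Type} (c : List β) (f : β → List Tr) :
    fs (c.flatMap f) = (c.map fun e => fs (f e)).sum := by
  induction c with
  | nil => simp [fs]
  | cons e c ih => simp [fs_append, ih]

section sem
variable {Q A : Type} [CommGroup Q] [AddCommGroup A] (r : ℕ) (y : ℕ → Q) (γ : ℕ → Q → A)

def monL (v : List ℕ) : Q := ∏ j ∈ Finset.range r, y j ^ v.getD j 0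

noncomputable def valF : ((List ℕ × ℕ) →₀ ℤ) →+ (Q → A) :=
  liftAddHom fun κ => zmultiplesHom (Q → A) fun q => γ κ.2 (q * monL r y κ.1)

lemma valF_single (κ c q) : valF r y γ (single κ c) q = c • γ κ.2 (q * monL r y κ.1) := by
  simp [valF]

lemma monL_addv (s v : List ℕ) : monL r y (addv r s v) = monL r y s * monL r y v := by
  rw [monL, monL, monL, ← Finset.prod_mul_distrib]
  refine Finset.prod_congr rfl fun j hj => ?_
  simp [addv, Finset.mem_range.1 hj, pow_add, mul_comm]

lemma valF_shf (a s H q) :
    valF r y γ (fs (shf r a s H)) q = -a • valF r y γ (fs H) (q * monL r y s) := by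
  induction H with
  | nil => simp [shf, fs]
  | cons t H ih =>
    rw [shf, List.map_cons, fs_cons, fs_cons, map_add, map_add, Pi.add_apply, Pi.add_apply,
      valF_single, valF_single, monL_addv, smul_add, ← ih, smul_smul, mul_assoc, neg_mul]
    rfl

end sem

def io {r : ℕ} (τ : Tm r) : List ℕ × ℕ := (List.ofFn τ.1, τ.2.val)

lemma io_inj {r : ℕ} : Function.Injective (io : Tm r → _) := by
  rintro ⟨v, l⟩ ⟨v', l'⟩ h
  simp only [io, Prod.mk.injEq, List.ofFn_inj] at h
  exact Prod.ext h.1 (Fin.ext h.2)

noncomputable def toL {r : ℕ} (f : Tm r →₀ ℤ) : List Tr := f.support.toList.map fun τ => (f τ, io τ)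

lemma addv_ofFn {r : ℕ} (s v : Fin r → ℕ) :
    addv r (List.ofFn s) (List.ofFn v) = List.ofFn (v + s) := by
  apply List.ext_getElem
  · simp [addv]
  · intro i h1 h2
    have : i < r := by simpa using h2
    simp [addv, this]

lemma fs_shf {r : ℕ} (a : ℤ) (s : Fin r → ℕ) (f : Tm r →₀ ℤ) :
    fs (shf r a (List.ofFn s) (toL f)) = -mapDomain io (a • sh s f) := by
  rw [mapDomain_smul, sh, ← mapDomain_comp, mapDomain, Finsupp.sum, Finset.smul_sum,
    ← Finset.sum_neg_distrib, fs, shf, toL, List.map_map, List.map_map, Finset.sum_map_toList]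
  refine Finset.sum_congr rfl fun τ _ => ?_
  simp [io, addv_ofFn, mvv]

lemma fs_toL {r : ℕ} (f : Tm r →₀ ℤ) : fs (toL f) = mapDomain io f := by
  rw [mapDomain, Finsupp.sum, fs, toL, List.map_map, Finset.sum_map_toList]; rfl

lemma cnt_eq (r : ℕ) (u : Word) :
    cnt r u = List.ofFn fun j : Fin r => u.countP fun l => decide (code l = j) := by
  apply List.ext_getElem <;> simp [cnt]

section grp
variable {G : Type} [Group G]

theorem exists_der [IsMulCommutative (commutator G)] :
    ∃ D : G → Abelianization G → Mo G × ℤ,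
      (∀ g h q, D (g * h) q = D g q + D h (q * Abelianization.of g)) ∧ Function.Injective D := by
  classical
  have hs : ∀ q : Abelianization G, ∃ g, Abelianization.of g = q := fun q =>
    QuotientGroup.induction_on q fun g => ⟨g, rfl⟩
  choose s hs using hs
  have hm : ∀ g q, ∃ a : Mo G, val a = s q * g * (s (q * Abelianization.of g))⁻¹ := fun g q =>
    val_surj (by rw [← Abelianization.ker_of, MonoidHom.mem_ker]; simp [hs])
  choose a ha using hm
  let χ : Abelianization G → ℤ := fun q => if q = 1 then 1 else 0
  have add : ∀ g h q, (a (g * h) q, χ (q * Abelianization.of (g * h)) - χ q) =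
      (a g q, χ (q * Abelianization.of g) - χ q) + (a h (q * Abelianization.of g),
        χ (q * Abelianization.of g * Abelianization.of h) - χ (q * Abelianization.of g)) := by
    intro g h q
    refine Prod.ext (val_inj ?_) (by simp [mul_assoc])
    simp only [Prod.fst_add, val_add, ha, map_mul, mul_assoc]; group
  refine ⟨fun g q => (a g q, χ (q * Abelianization.of g) - χ q), add, fun g h e => ?_⟩
  have e1 := congrArg Prod.snd (congrFun e (Abelianization.of g)⁻¹)
  simp only [χ, inv_mul_cancel, if_true, sub_left_inj] at e1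
  have e2 : Abelianization.of h = Abelianization.of g := by
    by_contra hc
    rw [if_neg (fun h => hc (inv_mul_eq_one.1 h).symm)] at e1
    exact one_ne_zero e1
  have e3 := congrArg (fun p => val p.1) (congrFun e 1)
  simpa [ha, e2] using e3

variable (xs : List G)

def lt (j : ℕ) : G := ev xs [(j / 2, decide (j % 2 = 1))]

lemma lt_code (l : ℕ × Bool) : lt xs (code l) = ev xs [l] := by
  obtain ⟨i, b⟩ := l
  cases b
  · simp [lt, code]
  · simp [lt, code, show (2 * i + 1) / 2 = i by omega]

omit [Group G] in
lemma code_lt {l : ℕ × Bool} (h : l.1 < xs.length) : code l < 2 * xs.length := by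
  have := Bool.toNat_le l.2
  unfold code; omega

lemma mon_cnt (u : Word) (hu : ∀ l ∈ u, l.1 < xs.length) :
    monL (2 * xs.length) (fun j => Abelianization.of (lt xs j)) (cnt (2 * xs.length) u) =
      Abelianization.of (ev xs u) := by
  have : monL (2 * xs.length) (fun j => Abelianization.of (lt xs j)) (cnt (2 * xs.length) u) =
      ∏ j ∈ Finset.range (2 * xs.length),
        Abelianization.of (lt xs j) ^ u.countP fun l => decide (code l = j) :=
    Finset.prod_congr rfl fun j hj => by simp [cnt, Finset.mem_range.1 hj]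
  rw [this]
  clear this
  induction u with
  | nil => simp [ev_nil]
  | cons l u ih =>
    simp only [List.countP_cons, pow_add, Finset.prod_mul_distrib, decide_eq_true_eq]
    rw [ih fun l hl => hu l (List.mem_cons_of_mem _ hl), Finset.prod_pow_boole,
      if_pos (Finset.mem_range.2 (code_lt xs (hu l List.mem_cons_self))), lt_code, mul_comm,
      ← map_mul, ← ev_append]
    rfl

lemma val_Dw {A : Type} [AddCommGroup A] {D : G → Abelianization G → A}
    (hD : ∀ g h q, D (g * h) q = D g q + D h (q * Abelianization.of g)) (c : ℤ) (u : Word)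
    (hu : ∀ l ∈ u, l.1 < xs.length) (q) :
    valF (2 * xs.length) (fun j => Abelianization.of (lt xs j)) (fun j => D (lt xs j))
      (fs (Dw (2 * xs.length) c u)) q = c • D (ev xs u) q := by
  induction u using List.reverseRecOn with
  | nil =>
    have := hD 1 1 q
    simp only [mul_one, map_one, left_eq_add] at this
    simp [Dw, fs, ev_nil, this]
  | append_singleton u l ih =>
    have h1 : ∀ l ∈ u, l.1 < xs.length := fun l hl => hu l (List.mem_append_left _ hl)
    have : Dw (2 * xs.length) c (u ++ [l]) =
        Dw (2 * xs.length) c u ++ [(c, cnt (2 * xs.length) u, code l)] := by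
      simp only [Dw, List.length_append, List.length_singleton, List.range_succ, List.map_append,
        List.map_singleton]
      congr 1
      · refine List.map_congr_left fun k hk => ?_
        have := List.mem_range.1 hk
        rw [List.take_append_of_le_length this.le, List.getD_append _ _ _ _ this]
      · simp
    rw [this, fs_append, map_add, Pi.add_apply, ih h1, fs_cons, ev_append, hD, smul_add]
    simp [fs, valF_single, mon_cnt xs u h1, lt_code]

lemma ev_pick (I : List Word × Word) (b : List Bool) : ev xs (pick I b) =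
    ((List.range I.1.length).map fun i =>
      if b.getD i false = true then ev xs (I.1.getD i []) else 1).prod := by
  unfold pick
  induction List.range I.1.length with
  | nil => rfl
  | cons i l ih =>
    rw [List.flatMap_cons, ev_append, ih, List.map_cons, List.prod_cons]
    cases b.getD i false <;> rfl

omit [Group G] in
lemma valid_pick {I : List Word × Word} (h : Valid xs I) (b : List Bool) :
    ∀ l ∈ pick I b, l.1 < xs.length := by
  intro l hl
  simp only [pick, List.mem_flatMap, List.mem_range] at hl
  obtain ⟨i, hi, hl⟩ := hl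
  cases e : b.getD i false <;> rw [e] at hl
  · simp at hl
  · rw [cond_true, List.getD_eq_getElem _ _ hi] at hl
    exact h.1 _ (List.getElem_mem hi) l hl

def len (I : List Word × Word) : ℕ :=
  ((List.range I.1.length).map fun i => (I.1.getD i []).length).sum + I.2.length

lemma len_pick (I : List Word × Word) (b : List Bool) :
    (pick I b).length + I.2.length ≤ len I := by
  rw [pick, List.length_flatMap, len]
  refine Nat.add_le_add_right (List.sum_le_sum fun i _ => ?_) _
  cases b.getD i false <;> simp

theorem ssp_np [IsMulCommutative (commutator G)] : InNPOn (Valid xs) (SSP xs) := by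
  classical
  obtain ⟨D, hD, hinj⟩ := exists_der (G := G)
  set r := 2 * xs.length with hr
  let V := valF r (fun j => Abelianization.of (lt xs j)) (fun j => D (lt xs j))
  let N : AddSubgroup (Tm r →₀ ℤ) := (V.comp (mapDomain.addMonoidHom io)).ker
  have hN : ∀ f, f ∈ N ↔ V (mapDomain io f) = 0 := fun f => Iff.rfl
  obtain ⟨E, h, C, h1, h2⟩ := cert N fun u f hf => by
    rw [hN] at hf ⊢
    have := fs_shf (-1) u f
    simp only [neg_smul, one_smul, ← mapDomain.addMonoidHom_apply, map_neg, neg_neg] at this
    rw [mapDomain.addMonoidHom_apply] at this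
    rw [← this]
    funext q
    rw [valF_shf, fs_toL, hf]; simp
  let Hs := E.toList.map fun τ => toL (h τ)
  have hH : ∀ j, V (fs (Hs.getD j [])) = 0 := by
    intro j
    by_cases hj : j < Hs.length
    · rw [List.getD_eq_getElem _ _ hj]
      simp only [Hs, List.getElem_map, fs_toL]
      exact h1 _
    · rw [List.getD_eq_default _ _ (by omega)]; simp [fs]
  have hV : ∀ I, Valid xs I → ∀ b, (ev xs (pick I b) = ev xs I.2 ↔
      V (fs (Dw r 1 (pick I b) ++ Dw r (-1) I.2)) = 0) := by
    intro I hI b
    rw [← hinj.eq_iff, funext_iff, funext_iff]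
    refine forall_congr' fun q => ?_
    rw [fs_append, map_add, Pi.add_apply, val_Dw xs hD _ _ (valid_pick xs hI b),
      val_Dw xs hD _ _ hI.2, one_smul, neg_smul, one_smul, ← sub_eq_add_neg, Pi.zero_apply,
      sub_eq_zero]
  let K : List Word × Word → ℕ := fun I => (r * len I + 1) ^ r * r
  refine inNPOn_of_pt (β := List Bool × List Tr) (fun I w => chk (allT r Hs I w)) (pt_ver r Hs)
    (B := fun I => 2 * (I.1.length * 3) + 1 + K I *
      (2 * (2 * (len I + C * K I + 3) + 1 + (2 * (r * (2 * (r * len I) + 1)) + 1 + E.card)) + 1))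
    (PT.nat_pb (by unfold K len; fun_prop)) (fun I hI ⟨ε, hε⟩ => ?_) fun I w hI hw => ?_
  · let b := (List.range I.1.length).map ε
    have hb : ev xs (pick I b) = ev xs I.2 := by
      rw [ev_pick, ← hε]
      congr 1
      refine List.map_congr_left fun i hi => ?_
      simp [b, List.mem_range.1 hi]
    set L := Dw r 1 (pick I b) ++ Dw r (-1) I.2 with hL
    have hk : ∀ t ∈ L, t.1.natAbs ≤ 1 ∧ ∃ τ : Tm r, io τ = t.2 ∧ ∀ j, τ.1 j ≤ len I := by
      have : ∀ c u, (∀ l ∈ u, l.1 < xs.length) → u.length ≤ len I → ∀ t ∈ Dw r c u,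
          t.1 = c ∧ ∃ τ : Tm r, io τ = t.2 ∧ ∀ j, τ.1 j ≤ len I := by
        intro c u hu hl t ht
        obtain ⟨k, hk, rfl⟩ := List.mem_map.1 ht
        have hk := List.mem_range.1 hk
        refine ⟨rfl, (fun j => (u.take k).countP fun l => decide (code l = j),
          ⟨code (u.getD k (0, false)), code_lt xs ?_⟩), by simp [io, cnt_eq], fun j => ?_⟩
        · rw [List.getD_eq_getElem _ _ hk]; exact hu _ (List.getElem_mem hk)
        · exact List.countP_le_length.trans ((List.length_take_le' _ _).trans hl)
      have l1 := len_pick I b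
      intro t ht
      rcases List.mem_append.1 ht with ht | ht
      · obtain ⟨e, g⟩ := this _ _ (valid_pick xs hI b) (by omega) t ht
        exact ⟨by simp [e], g⟩
      · obtain ⟨e, g⟩ := this _ _ hI.2 (by omega) t ht
        exact ⟨by simp [e], g⟩
    let f : Tm r →₀ ℤ := comapDomain io (fs L) io_inj.injOn
    have hf : mapDomain io f = fs L := mapDomain_comapDomain io io_inj _ fun κ hκ => by
      obtain ⟨t, ht, rfl⟩ := fs_supp (mem_support_iff.1 hκ)
      obtain ⟨-, τ, e, -⟩ := hk t ht
      exact ⟨τ, e⟩
    obtain ⟨c, c1, c2, c3⟩ := h2 f (by rw [hN, hf]; exact (hV I hI b).1 hb) (len I) (r * len I)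
      (fun τ => (fs_bound (fun t ht => (hk t ht).1) _).trans (by simpa [hL, Dw] using len_pick I b))
      (fun τ hτ => by
        obtain ⟨t, ht, e⟩ := fs_supp (L := L) (κ := io τ) hτ
        obtain ⟨-, τ', e', g⟩ := hk t ht
        rw [← io_inj (e'.trans e)]
        exact (Finset.sum_le_card_nsmul _ _ _ fun j _ => g j).trans (by simp))
    refine ⟨(b, c.map fun e => (e.1, List.ofFn e.2.1, E.toList.idxOf e.2.2)), ?_, ?_⟩
    · rw [sz_prod]
      have s1 : sz b ≤ I.1.length * 3 := (sz_le_of_forall (B := 1) fun _ _ => le_rfl).trans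
        (by simp [b])
      refine add_le_add (by simpa using s1) ((sz_le_of_forall (B := 2 * (len I + C * K I + 3) + 1 +
        (2 * (r * (2 * (r * len I) + 1)) + 1 + E.card)) fun x hx => ?_).trans
        (Nat.mul_le_mul_right _ (by simpa using c1)))
      obtain ⟨e, he, rfl⟩ := List.mem_map.1 hx
      obtain ⟨g1, g2, g3⟩ := c2 e he
      rw [sz_prod, sz_prod, sz_nat]
      have a1 : sz e.1 ≤ len I + C * K I + 3 := sz_int_le (g1.trans_lt (by
        rw [pow_add, pow_mul 2]
        exact Nat.mul_lt_mul_of_lt_of_le Nat.lt_two_pow_self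
          (Nat.pow_le_pow_left (by have := @Nat.lt_two_pow_self C; omega) _) (by positivity)))
      have a2 : sz (List.ofFn e.2.1) ≤ r * (2 * (r * len I) + 1) :=
        (sz_le_of_forall (B := r * len I) fun x hx => by
          obtain ⟨j, rfl⟩ := List.mem_ofFn.1 hx
          exact (sz_nat _).trans_le (g3 j)).trans (by simp)
      have a3 : E.toList.idxOf e.2.2 ≤ E.card := by
        simpa using List.idxOf_le_length (l := E.toList) (a := e.2.2)
      simp only
      omega
    · rw [chk_iff, allT, fs_append, ← hL, ← hf, fs_flat, List.map_map, c3,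
        ← mapDomain.addMonoidHom_apply, map_list_sum, List.map_map, ← List.sum_map_add]
      refine List.sum_eq_zero fun x hx => ?_
      obtain ⟨e, he, rfl⟩ := List.mem_map.1 hx
      have hi : E.toList.idxOf e.2.2 < E.toList.length :=
        List.idxOf_lt_length_of_mem (Finset.mem_toList.2 (c2 e he).2.1)
      have : Hs.getD (E.toList.idxOf e.2.2) [] = toL (h e.2.2) := by
        rw [List.getD_eq_getElem _ _ (by simpa [Hs] using hi)]
        simp [Hs]
      simp only [Function.comp_apply, this, fs_shf, mapDomain.addMonoidHom_apply, add_neg_cancel]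
  · refine ⟨fun i => w.1.getD i false, ?_⟩
    rw [← ev_pick, hV I hI]
    rw [chk_iff, allT, fs_append] at hw
    have := congrArg V hw
    rw [map_add, map_zero, fs_flat, map_list_sum, List.map_map, List.sum_eq_zero, add_zero] at this
    · exact this
    · intro x hx
      obtain ⟨e, -, rfl⟩ := List.mem_map.1 hx
      funext q
      have := valF_shf r (fun j => Abelianization.of (lt xs j)) (fun j => D (lt xs j)) e.1 e.2.1
        (Hs.getD e.2.2 []) q
      rw [show valF _ _ _ (fs (Hs.getD e.2.2 [])) = 0 from hH _] at this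
      simpa using this

end grp

end Pool.Agent.H28.Ssp
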