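import Mathlib
import Pool.Agent.H28.GS1

/-! Local rank for graphs without long ladders. -/

namespace Pool.Agent.H28.Stab

open Classical

variable {V : Type}

def Sh (Γ : Set (Set V)) : ℕ → Set V → Prop
  | 0, S => S.Nonempty
  | r + 1, S => ∃ B ∈ Γ, Sh Γ r (S ∩ B) ∧ Sh Γ r (S \ B)

lemma Sh.mono {Γ : Set (Set V)} {r : ℕ} {S S' : Set V} (h : Sh Γ r S) (hS : S ⊆ S') :
    Sh Γ r S' := by
  induction r generalizing S S' with
  | zero => exact Set.Nonempty.mono hS h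
  | succ r ih =>
    obtain ⟨B, hB, h1, h2⟩ := h
    exact ⟨B, hB, ih h1 (Set.inter_subset_inter_left _ hS), ih h2 (Set.sdiff_subset_sdiff_left hS)⟩

lemma Sh.nonempty {Γ : Set (Set V)} {r : ℕ} {S : Set V} (h : Sh Γ r S) : S.Nonempty := by
  induction r generalizing S with
  | zero => exact h
  | succ r ih =>
    obtain ⟨B, -, h1, -⟩ := h
    exact (ih h1).mono Set.inter_subset_left

lemma Sh.split {Γ Γ₁ Γ₂ : Set (Set V)} (hΓ : ∀ B ∈ Γ, B ∈ Γ₁ ∨ B ∈ Γ₂) (n : ℕ) :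
    ∀ p q S, p + q = n → Sh Γ n S → Sh Γ₁ p S ∨ Sh Γ₂ q S := by
  induction n with
  | zero =>
    intro p q S e h
    obtain rfl : p = 0 := by omega
    exact Or.inl h
  | succ n ih =>
    intro p q S e h
    rcases p with _ | p
    · exact Or.inl h.nonempty
    rcases q with _ | q
    · exact Or.inr h.nonempty
    obtain ⟨B, hB, h1, h2⟩ := h
    rcases hΓ B hB with hB | hB
    · rcases ih p (q + 1) _ (by omega) h1 with a | a
      · rcases ih p (q + 1) _ (by omega) h2 with b | b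
        · exact Or.inl ⟨B, hB, a, b⟩
        · exact Or.inr (b.mono Set.sdiff_subset)
      · exact Or.inr (a.mono Set.inter_subset_left)
    · rcases ih (p + 1) q _ (by omega) h1 with a | a
      · exact Or.inl (a.mono Set.inter_subset_left)
      · rcases ih (p + 1) q _ (by omega) h2 with b | b
        · exact Or.inl (b.mono Set.sdiff_subset)
        · exact Or.inr ⟨B, hB, a, b⟩

def hb : ℕ → ℕ
  | 0 => 0
  | D + 1 => (hb D + 1) + (hb D + 1)

lemma hodges (D : ℕ) : ∀ (Γ : Set (Set V)) (S : Set V), Sh Γ (hb D) S →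
    ∃ l : List (V × Set V), l.length = D ∧ (∀ p ∈ l, p.1 ∈ S ∧ p.2 ∈ Γ) ∧
      l.Pairwise fun p q => p.1 ∈ q.2 ∧ q.1 ∉ p.2 := by
  induction D with
  | zero => exact fun _ _ _ => ⟨[], rfl, by simp, by simp⟩
  | succ D ih =>
    intro Γ S h
    obtain ⟨a, ha⟩ := h.nonempty
    rcases Sh.split (Γ₁ := {B | B ∈ Γ ∧ a ∈ B}) (Γ₂ := {B | B ∈ Γ ∧ a ∉ B})
      (fun B hB => by by_cases a ∈ B <;> simp [*]) _ _ _ S rfl h with ⟨B, hB, -, h2⟩ | ⟨B, hB, h1, -⟩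
    · obtain ⟨l, l1, l2, l3⟩ := ih _ _ h2
      refine ⟨(a, B) :: l, by simp [l1], ?_, List.pairwise_cons.2 ⟨fun q hq => ?_, l3⟩⟩
      · intro p hp
        rcases List.mem_cons.1 hp with rfl | hp
        · exact ⟨ha, hB.1⟩
        · exact ⟨(l2 p hp).1.1, (l2 p hp).2.1⟩
      · exact ⟨(l2 q hq).2.2, (l2 q hq).1.2⟩
    · obtain ⟨l, l1, l2, l3⟩ := ih _ _ h1
      refine ⟨l ++ [(a, B)], by simp [l1], ?_, List.pairwise_append.2 ⟨l3, by simp, ?_⟩⟩
      · intro p hp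
        rcases List.mem_append.1 hp with hp | hp
        · exact ⟨(l2 p hp).1.1, (l2 p hp).2.1⟩
        · rw [List.mem_singleton.1 hp]; exact ⟨ha, hB.1⟩
      · intro p hp q hq
        rw [List.mem_singleton.1 hq]
        exact ⟨(l2 p hp).1.2, (l2 p hp).2.2⟩

variable (G : SimpleGraph V) (D : ℕ)

def Fam : Set (Set V) := {B | ∀ A : Finset V, A.card ≤ D → ∃ b, ∀ a ∈ A, a ∈ B ↔ G.Adj b a}

def NoLad : Prop :=
  ¬ ∃ l : List (V × V), l.length = D ∧ l.Pairwise fun p q => G.Adj q.2 p.1 ∧ ¬ G.Adj p.2 q.1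

variable {G D}

lemma nb_mem (v : V) : G.neighborSet v ∈ Fam G D := fun _ _ => ⟨v, fun _ _ => Iff.rfl⟩

lemma rank_bound (h : NoLad G D) (S : Set V) : ¬ Sh (Fam G D) (hb D) S := by
  intro hS
  obtain ⟨l, l1, l2, l3⟩ := hodges D _ _ hS
  have : ∀ p : V × Set V, ∃ b, p ∈ l → ∀ q ∈ l, q.1 ∈ p.2 ↔ G.Adj b q.1 := by
    intro p
    by_cases hp : p ∈ l
    · obtain ⟨b, hb⟩ := (l2 p hp).2 (l.map Prod.fst).toFinset
        ((List.toFinset_card_le _).trans (by simp [l1]))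
      exact ⟨b, fun _ q hq => hb _ (List.mem_toFinset.2 (List.mem_map_of_mem hq))⟩
    · exact ⟨p.1, fun h => absurd h hp⟩
  choose b hb using this
  refine h ⟨l.map fun p => (p.1, b p), by simp [l1], List.pairwise_map.2 (l3.imp_of_mem ?_)⟩
  intro p q hp hq hpq
  exact ⟨(hb q hq p hp).1 hpq.1, fun h => hpq.2 ((hb p hp q hq).2 h)⟩

variable (G D)

def Cov (r M : ℕ) (S : Set V) : Prop :=
  ∃ 𝒮 : Finset (Set V), 𝒮.card ≤ M ∧ (∀ A ∈ 𝒮, ¬ Sh (Fam G D) r A) ∧ ∀ c ∈ S, ∃ A ∈ 𝒮, c ∈ A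

def typ (r : ℕ) (L : Set V) : Set (Set V) := {B | B ∈ Fam G D ∧ ¬ Sh (Fam G D) r (L \ B)}

def tau (t : Set (Set V)) : Set V := {v | G.neighborSet v ∈ t}

def exc (r : ℕ) (L B : Set V) : Set V := if B ∈ typ G D r L then L \ B else L ∩ B

variable {G D} {r M : ℕ}

lemma Cov.mono {S S' : Set V} (h : Cov G D r M S) (hS : S' ⊆ S) : Cov G D r M S' :=
  let ⟨a, h1, h2, h3⟩ := h; ⟨a, h1, h2, fun c hc => h3 c (hS hc)⟩

lemma Cov.le {S : Set V} {M' : ℕ} (h : Cov G D r M S) (hM : M ≤ M') : Cov G D r M' S :=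
  let ⟨a, h1, h2, h3⟩ := h; ⟨a, h1.trans hM, h2, h3⟩

lemma Cov.union {S S' : Set V} {M' : ℕ} (h : Cov G D r M S) (h' : Cov G D r M' S') :
    Cov G D r (M + M') (S ∪ S') := by
  obtain ⟨a, h1, h2, h3⟩ := h
  obtain ⟨b, k1, k2, k3⟩ := h'
  refine ⟨a ∪ b, (Finset.card_union_le _ _).trans (by omega), fun A hA => ?_, fun c hc => ?_⟩
  · rcases Finset.mem_union.1 hA with h | h
    exacts [h2 A h, k2 A h]
  · rcases hc with h | h
    · obtain ⟨A, a1, a2⟩ := h3 c h; exact ⟨A, Finset.mem_union_left _ a1, a2⟩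
    · obtain ⟨A, a1, a2⟩ := k3 c h; exact ⟨A, Finset.mem_union_right _ a1, a2⟩

lemma Cov.biUnion {ι : Type} (s : Finset ι) (f : ι → Set V) (h : ∀ i ∈ s, Cov G D r M (f i)) :
    Cov G D r (s.card * M) {c | ∃ i ∈ s, c ∈ f i} := by
  induction s using Finset.induction_on with
  | empty => exact ⟨∅, by simp, by simp, by simp⟩
  | insert i s hi ih =>
    rw [Finset.card_insert_of_notMem hi, add_mul, one_mul]
    refine ((ih fun j hj => h j (Finset.mem_insert_of_mem hj)).union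
      (h i (Finset.mem_insert_self _ _))).mono ?_
    rintro c ⟨j, hj, hc⟩
    rcases Finset.mem_insert.1 hj with rfl | hj
    exacts [Or.inr hc, Or.inl ⟨j, hj, hc⟩]

lemma exc_small {L B : Set V} (hL : ¬ Sh (Fam G D) (r + 1) L) (hB : B ∈ Fam G D) :
    ¬ Sh (Fam G D) r (exc G D r L B) := by
  unfold exc
  split_ifs with h
  · exact h.2
  · intro h'
    exact h ⟨hB, fun h'' => hL ⟨B, hB, h', h''⟩⟩

lemma exc_spec {L B : Set V} {c : V} (hc : c ∈ L) (h : c ∉ exc G D r L B) :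
    c ∈ B ↔ B ∈ typ G D r L := by
  unfold exc at h
  split_ifs at h with h' <;> simp_all

lemma gp {L S : Set V} (hL : ¬ Sh (Fam G D) (r + 1) L) (hS : S ⊆ L) (h : ¬ Cov G D r M S)
    (𝓑 : Finset (Set V)) (h1 : 𝓑.card ≤ M) (h2 : ∀ B ∈ 𝓑, B ∈ Fam G D) :
    ∃ c ∈ S, ∀ B ∈ 𝓑, c ∈ B ↔ B ∈ typ G D r L := by
  by_contra hc
  refine h ⟨𝓑.image (exc G D r L), Finset.card_image_le.trans h1, ?_, fun c hcS => ?_⟩
  · intro A hA
    obtain ⟨B, hB, rfl⟩ := Finset.mem_image.1 hA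
    exact exc_small hL (h2 B hB)
  · by_contra hn
    refine hc ⟨c, hcS, fun B hB => exc_spec (hS hcS) fun h => hn ⟨_, Finset.mem_image_of_mem _ hB, h⟩⟩

lemma col_out {T : Type} [Finite T] (Λ : T → Finset T) (M : ℕ) (h : ∀ t, (Λ t).card ≤ M) :
    GS.Col (fun a b => b ∈ Λ a ∧ a ≠ b) ((2 * 2) ^ M) := by
  cases isEmpty_or_nonempty T with
  | inl _ => exact ⟨isEmptyElim, isEmptyElim⟩
  | inr _ =>
  obtain ⟨n, ⟨e⟩⟩ := Finite.exists_equiv_fin T
  refine GS.Col.select Λ (fun _ g b => g = b) (fun a b hab => ⟨h a, b, hab.1, rfl⟩) fun g => ?_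
  refine GS.Col.union (R₁ := fun a b => g a = b ∧ e b < e a) (R₂ := fun a b => g a = b ∧ e a < e b)
    (GS.Col.func (fun a => ((e a).1 : Cardinal)) (fun a b h => by exact_mod_cast h.2)
      fun a b b' h h' => h.1.symm.trans h'.1)
    (GS.Col.func (fun a => ((e a).rev.1 : Cardinal))
      (fun a b h => by exact_mod_cast Fin.rev_lt_rev.2 h.2) fun a b b' h h' => h.1.symm.trans h'.1) ?_
  rintro a b ⟨⟨-, h1⟩, -, h2⟩
  rcases lt_or_gt_of_ne (e.injective.ne h1) with h | h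
  exacts [Or.inr ⟨h2, h⟩, Or.inl ⟨h2, h⟩]

end Pool.Agent.H28.Stab
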