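import Mathlib
import Pool.Agent.H28.Stab1

namespace Pool.Agent.H28.Stab

open Classical

variable {V : Type} [Fintype V]

structure Ctx (G : SimpleGraph V) (D r m k M : ℕ) where
  X : Set V
  K : V → Finset (Set V)
  card : ∀ v, (K v).card ≤ m
  sub : ∀ v, ∀ L ∈ K v, L ⊆ X
  adj : ∀ v, ∀ L ∈ K v, L ⊆ G.neighborSet v
  rk : ∀ v, ∀ L ∈ K v, ¬ Sh (Fam G D) (r + 1) L
  cov : ∀ v ∈ X, ∀ c ∈ X, G.Adj v c → ∃ L ∈ K v, c ∈ L
  lad : NoLad G D
  cl : G.CliqueFree k
  hD : D + 1 ≤ M
  hk : k + 1 ≤ M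
  hm : 2 * m + 1 ≤ M

variable {G : SimpleGraph V} {D r m k M : ℕ} (C : Ctx G D r m k M)

def Ctx.Th (t : Set (Set V)) : Prop :=
  ∃ L, L ⊆ C.X ∧ ¬ Sh (Fam G D) (r + 1) L ∧ ¬ Cov G D r M L ∧ typ G D r L = t

variable {C}

omit [Fintype V] in
lemma Ctx.Th.tauF {t : Set (Set V)} (h : C.Th t) : tau G t ∈ Fam G D := by
  obtain ⟨L, -, h1, h2, rfl⟩ := h
  intro A hA
  obtain ⟨c, -, hc⟩ := gp h1 subset_rfl h2 (A.image G.neighborSet)
    (Finset.card_image_le.trans (hA.trans (by have := C.hD; omega))) (by simp [nb_mem])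
  exact ⟨c, fun a ha => (hc _ (Finset.mem_image_of_mem _ ha)).symm.trans (G.adj_comm _ _)⟩

lemma Ctx.Th.noloop {t : Set (Set V)} (h : C.Th t) : tau G t ∉ t := by
  intro ht
  have hF := h.tauF
  obtain ⟨L, -, h1, h2, rfl⟩ := h
  have : ∀ j ≤ k, ∃ Q : Finset V, G.IsNClique j Q ∧ ∀ q ∈ Q, q ∈ tau G (typ G D r L) := by
    intro j hj
    induction j with
    | zero => exact ⟨∅, by simp, by simp⟩
    | succ j ih =>
      obtain ⟨Q, hQ, hQ'⟩ := ih (by omega)
      obtain ⟨c, -, hc⟩ := gp h1 subset_rfl h2 (insert (tau G (typ G D r L)) (Q.image G.neighborSet))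
        ((Finset.card_insert_le _ _).trans (by
          have := Finset.card_image_le (s := Q) (f := G.neighborSet)
          have := C.hk; have := hQ.card_eq; omega)) (by simp [nb_mem, hF])
      refine ⟨insert c Q, hQ.insert fun q hq => ?_, ?_⟩
      · exact ((hc _ (Finset.mem_insert_of_mem (Finset.mem_image_of_mem _ hq))).2 (hQ' q hq)).symm
      · intro q hq
        rcases Finset.mem_insert.1 hq with rfl | hq
        · exact (hc _ (Finset.mem_insert_self _ _)).2 ht
        · exact hQ' q hq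
  obtain ⟨Q, hQ, -⟩ := this k le_rfl
  exact C.cl Q hQ

lemma Ctx.Th.symm {t t' : Set (Set V)} (h : C.Th t) (h' : C.Th t') (ht : tau G t' ∈ t) :
    tau G t ∈ t' := by
  by_contra hn
  have hF := h.tauF
  have hF' := h'.tauF
  obtain ⟨L, -, h1, h2, rfl⟩ := h
  obtain ⟨L', -, k1, k2, rfl⟩ := h'
  have : ∀ j ≤ D, ∃ l : List (V × V), l.length = j ∧
      (∀ p ∈ l, p.1 ∈ tau G (typ G D r L') ∧ p.2 ∉ tau G (typ G D r L)) ∧
      l.Pairwise fun p q => G.Adj q.2 p.1 ∧ ¬ G.Adj p.2 q.1 := by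
    intro j hj
    induction j with
    | zero => exact ⟨[], rfl, by simp, by simp⟩
    | succ j ih =>
      obtain ⟨l, l1, l2, l3⟩ := ih (by omega)
      have hc : ∀ (B : Set V) (f : V × V → Set V), (insert B (l.toFinset.image f)).card ≤ M :=
        fun B f => (Finset.card_insert_le _ _).trans (by
          have := Finset.card_image_le (s := l.toFinset) (f := f)
          have := List.toFinset_card_le l
          have := C.hD; omega)
      obtain ⟨a, -, ha⟩ := gp h1 subset_rfl h2 _ (hc (tau G (typ G D r L')) fun p => G.neighborSet p.2)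
        (by
          intro B hB
          rcases Finset.mem_insert.1 hB with rfl | hB
          · exact hF'
          · obtain ⟨p, -, rfl⟩ := Finset.mem_image.1 hB; exact nb_mem _)
      obtain ⟨b, -, hb⟩ := gp k1 subset_rfl k2 _ (hc (tau G (typ G D r L)) fun p => G.neighborSet p.1)
        (by
          intro B hB
          rcases Finset.mem_insert.1 hB with rfl | hB
          · exact hF
          · obtain ⟨p, -, rfl⟩ := Finset.mem_image.1 hB; exact nb_mem _)
      refine ⟨l ++ [(a, b)], by simp [l1], ?_, List.pairwise_append.2 ⟨l3, by simp, ?_⟩⟩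
      · intro p hp
        rcases List.mem_append.1 hp with hp | hp
        · exact l2 p hp
        · rw [List.mem_singleton.1 hp]
          exact ⟨(ha _ (Finset.mem_insert_self _ _)).2 ht,
            fun h => hn ((hb _ (Finset.mem_insert_self _ _)).1 h)⟩
      · intro p hp q hq
        rw [List.mem_singleton.1 hq]
        have hp' := List.mem_toFinset.2 hp
        exact ⟨((hb _ (Finset.mem_insert_of_mem (Finset.mem_image_of_mem _ hp'))).2 (l2 p hp).1).symm,
          fun h => (l2 p hp).2 ((ha _ (Finset.mem_insert_of_mem (Finset.mem_image_of_mem _ hp'))).1 h)⟩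
  obtain ⟨l, l1, -, l3⟩ := this D le_rfl
  exact C.lad ⟨l, l1, l3⟩

lemma Ctx.Th.through {t : Set (Set V)} (h : C.Th t) {x : V} (hx : x ∈ C.X) (ht : x ∈ tau G t) :
    t ∈ (C.K x).image (typ G D r) := by
  by_contra hn
  obtain ⟨L, h0, h1, h2, rfl⟩ := h
  have : ∀ J : Set V, ∃ B, J ∈ C.K x → B ∈ Fam G D ∧ ¬ (B ∈ typ G D r L ↔ B ∈ typ G D r J) := by
    intro J
    by_contra hc
    push Not at hc
    refine hn (Finset.mem_image.2 ⟨J, (hc ∅).1, Set.ext fun B => ?_⟩)
    by_cases hB : B ∈ Fam G D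
    · exact ((hc B).2 hB).symm
    · exact ⟨fun h => absurd h.1 hB, fun h => absurd h.1 hB⟩
  choose β hβ using this
  refine h2 ⟨insert (L \ G.neighborSet x) (((C.K x).image fun J => exc G D r L (β J)) ∪
    (C.K x).image fun J => exc G D r J (β J)), ?_, ?_, fun c hc => ?_⟩
  · have := Finset.card_image_le (s := C.K x) (f := fun J => exc G D r L (β J))
    have := Finset.card_image_le (s := C.K x) (f := fun J => exc G D r J (β J))
    have := C.card x
    have := C.hm
    exact (Finset.card_insert_le _ _).trans ((Nat.succ_le_succ (Finset.card_union_le _ _)).trans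
      (by omega))
  · intro A hA
    rcases Finset.mem_insert.1 hA with rfl | hA
    · exact ht.2
    rcases Finset.mem_union.1 hA with hA | hA <;> obtain ⟨J, hJ, rfl⟩ := Finset.mem_image.1 hA
    · exact exc_small h1 (hβ J hJ).1
    · exact exc_small (C.rk x J hJ) (hβ J hJ).1
  · by_contra hc'
    push Not at hc'
    have a1 : G.Adj x c := by
      by_contra a; exact hc' _ (Finset.mem_insert_self _ _) ⟨hc, a⟩
    obtain ⟨J, hJ, hcJ⟩ := C.cov x hx c (h0 hc) a1
    exact (hβ J hJ).2 ((exc_spec hc (hc' _ (Finset.mem_insert_of_mem (Finset.mem_union_left _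
      (Finset.mem_image_of_mem _ hJ))))).symm.trans (exc_spec hcJ (hc' _ (Finset.mem_insert_of_mem
      (Finset.mem_union_right _ (Finset.mem_image_of_mem _ hJ))))))

noncomputable def Ctx.nbT (C : Ctx G D r m k M) (t : Set (Set V)) : Finset (Set (Set V)) :=
  Finset.univ.filter fun t' => C.Th t' ∧ tau G t' ∈ t

lemma Ctx.Th.few {t : Set (Set V)} (h : C.Th t) : (C.nbT t).card ≤ m := by
  by_contra hc
  obtain ⟨s, hs, hs'⟩ := Finset.exists_subset_card_eq (show m + 1 ≤ (C.nbT t).card by omega)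
  have hs : ∀ t' ∈ s, C.Th t' ∧ tau G t' ∈ t := fun t' ht' => (Finset.mem_filter.1 (hs ht')).2
  obtain ⟨L, h0, h1, h2, rfl⟩ := h
  obtain ⟨y, hy, hy'⟩ := gp h1 subset_rfl h2 (s.image (tau G))
    (Finset.card_image_le.trans (by have := C.hm; omega))
    (fun B hB => by obtain ⟨t', h, rfl⟩ := Finset.mem_image.1 hB; exact (hs t' h).1.tauF)
  have : s ⊆ (C.K y).image (typ G D r) := fun t' ht' => (hs t' ht').1.through (h0 hy)
      ((hy' _ (Finset.mem_image_of_mem _ ht')).2 (hs t' ht').2)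
  have := Finset.card_le_card this
  have := Finset.card_image_le (s := C.K y) (f := typ G D r)
  have := C.card y
  omega

def Ctx.Rich (C : Ctx G D r m k M) : ℕ → Set (Set V) → Prop
  | 0, _ => True
  | i + 1, t => ∀ Λ : Finset (Set (Set V)), Λ.card ≤ M → ∃ L, L ⊆ C.X ∧
      ¬ Sh (Fam G D) (r + 1) L ∧ typ G D r L = t ∧
      ¬ Cov G D r M {c | c ∈ L ∧ ∃ J ∈ C.K c, C.Rich i (typ G D r J) ∧ typ G D r J ∉ Λ}

omit [Fintype V] in
lemma Ctx.Rich.th {i : ℕ} {t : Set (Set V)} (h : C.Rich (i + 1) t) : C.Th t := by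
  obtain ⟨L, h1, h2, h3, h4⟩ := h ∅ (by simp)
  exact ⟨L, h1, h2, fun h => h4 (h.mono fun c hc => hc.1), h3⟩

omit [Fintype V] in
lemma Ctx.mem_tau (C : Ctx G D r m k M) {v : V} {J : Set V} (h : J ∈ C.K v) :
    v ∈ tau G (typ G D r J) :=
  ⟨nb_mem v, fun h' => by
    obtain ⟨c, hc⟩ := h'.nonempty
    exact hc.2 (C.adj v J h hc.1)⟩

end Pool.Agent.H28.Stab
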