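import Mathlib
import Pool.Agent.H28.Stab2

namespace Pool.Agent.H28.Stab

open Classical

variable {V : Type} [Fintype V] {G : SimpleGraph V} {D r m k M : ℕ} {C : Ctx G D r m k M}

lemma embed {n N : ℕ} (hN : 2 * N ≤ M) (hN' : N * (m + m) ≤ M) {v0 : V} (hv : v0 ∈ C.X)
    {J0 : Set V} (hJ : J0 ∈ C.K v0) (hR : C.Rich (n + 1) (typ G D r J0))
    (s : Finset (List (Fin n))) : s.card ≤ N → (∀ w ∈ s, w.length ≤ n) →
    (∀ w j, w ++ [j] ∈ s → w ∈ s) →
    ∃ (f : List (Fin n) → V) (t : List (Fin n) → Set (Set V)),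
      (∀ w ∈ s, f w ∈ C.X ∧ C.Rich (n - w.length + 1) (t w) ∧ f w ∈ tau G (t w)) ∧
      ∀ w ∈ s, ∀ w' ∈ s, (w ≠ w' → f w ∉ tau G (t w')) ∧ tau G (t w) ∉ t w' ∧
        (G.Adj (f w) (f w') ↔ (∃ j, w' = w ++ [j]) ∨ ∃ j, w = w' ++ [j]) := by
  have nself : ∀ (w : List (Fin n)) (v : V),
      G.Adj v v ↔ (∃ j, w = w ++ [j]) ∨ ∃ j, w = w ++ [j] := by simp
  refine Finset.induction_on_max_value List.length s ?_ ?_
  · exact fun _ _ _ => ⟨fun _ => v0, fun _ => ∅, by simp, by simp⟩
  · intro a s ha hmax ih h1 h2 h3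
    rw [Finset.card_insert_of_notMem ha] at h1
    rcases List.eq_nil_or_concat' a with rfl | ⟨w, j, rfl⟩
    · have : s = ∅ := Finset.eq_empty_of_forall_notMem fun x hx =>
        ha (List.length_eq_zero_iff.1 (Nat.le_zero.1 (hmax x hx)) ▸ hx)
      subst this
      refine ⟨fun _ => v0, fun _ => typ G D r J0, ?_, ?_⟩
      · simpa using ⟨hv, hR, C.mem_tau hJ⟩
      · simpa using hR.th.noloop
    have hw : w ∈ s := (Finset.mem_insert.1 (h3 w j (Finset.mem_insert_self _ _))).resolve_left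
      (by simp)
    have hlen : w.length + 1 ≤ n := by simpa using h2 _ (Finset.mem_insert_self _ _)
    obtain ⟨f, t, a1, a2⟩ := ih (by omega) (fun x hx => h2 x (Finset.mem_insert_of_mem hx))
      (fun x i hx => (Finset.mem_insert.1 (h3 x i (Finset.mem_insert_of_mem hx))).resolve_left
        (by rintro rfl; have := hmax _ hx; simp at this))
    obtain ⟨L, b1, b2, b3, b4⟩ := (a1 w hw).2.1
      (s.biUnion fun u => (C.K (f u)).image (typ G D r) ∪ C.nbT (t u))
      ((Finset.card_biUnion_le_card_mul _ _ (m + m) fun u hu => (Finset.card_union_le _ _).trans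
        (add_le_add (Finset.card_image_le.trans (C.card _)) (a1 u hu).2.1.th.few)).trans
        ((Nat.mul_le_mul_right _ (by omega)).trans hN'))
    obtain ⟨c, ⟨c1, J, c2, c3, c4⟩, c5⟩ := gp b2 (fun c hc => hc.1) b4
      ((s.image fun u => G.neighborSet (f u)) ∪ s.image fun u => tau G (t u))
      ((Finset.card_union_le _ _).trans (by
        have := Finset.card_image_le (s := s) (f := fun u => G.neighborSet (f u))
        have := Finset.card_image_le (s := s) (f := fun u => tau G (t u))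
        omega)) (by
        intro B hB
        rcases Finset.mem_union.1 hB with hB | hB <;> obtain ⟨u, hu, rfl⟩ := Finset.mem_image.1 hB
        · exact nb_mem _
        · exact (a1 u hu).2.1.th.tauF)
    rw [b3] at c5
    rw [show n - w.length = n - (w ++ [j]).length + 1 by simp; omega] at c3
    have d1 : ∀ u ∈ s, G.Adj (f u) c ↔ u = w := fun u hu => by
      refine (c5 _ (Finset.mem_union_left _ (Finset.mem_image_of_mem _ hu))).trans ⟨fun h => ?_, ?_⟩
      · by_contra e; exact (a2 u hu w hw).1 e h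
      · rintro rfl; exact (a1 u hu).2.2
    have d2 : ∀ u ∈ s, c ∉ tau G (t u) := fun u hu h =>
      (a2 u hu w hw).2.1 ((c5 _ (Finset.mem_union_right _ (Finset.mem_image_of_mem _ hu))).1 h)
    have d3 : ∀ u ∈ s, f u ∉ tau G (typ G D r J) := fun u hu h =>
      c4 (Finset.mem_biUnion.2 ⟨u, hu, Finset.mem_union_left _ (c3.th.through (a1 u hu).1 h)⟩)
    have d4 : ∀ u ∈ s, tau G (typ G D r J) ∉ t u := fun u hu h =>
      c4 (Finset.mem_biUnion.2 ⟨u, hu, Finset.mem_union_right _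
        (Finset.mem_filter.2 ⟨Finset.mem_univ _, c3.th, h⟩)⟩)
    have d5 : ∀ u ∈ s, u = w ↔ (∃ i, w ++ [j] = u ++ [i]) ∨ ∃ i, u = w ++ [j] ++ [i] := by
      intro u hu
      constructor
      · rintro rfl; exact Or.inl ⟨j, rfl⟩
      · rintro (⟨i, e⟩ | ⟨i, rfl⟩)
        · exact (List.append_inj' e rfl).1.symm
        · have := hmax _ hu; simp at this
    have e1 : ∀ u ∈ s, u ≠ w ++ [j] := fun u hu e => ha (e ▸ hu)
    refine ⟨Function.update f (w ++ [j]) c, Function.update t (w ++ [j]) (typ G D r J), ?_, ?_⟩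
    · intro u hu
      rcases Finset.mem_insert.1 hu with rfl | hu
      · simp only [Function.update_self]
        exact ⟨b1 c1, c3, C.mem_tau c2⟩
      · simp only [Function.update_of_ne (e1 u hu)]
        exact a1 u hu
    · intro u hu u' hu'
      rcases Finset.mem_insert.1 hu with rfl | hu <;> rcases Finset.mem_insert.1 hu' with rfl | hu'
      · simp only [Function.update_self]
        exact ⟨fun h => absurd rfl h, c3.th.noloop, nself _ _⟩
      · simp only [Function.update_self, Function.update_of_ne (e1 u' hu')]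
        exact ⟨fun _ => d2 u' hu', d4 u' hu', by rw [G.adj_comm, d1 u' hu', d5 u' hu', or_comm]⟩
      · simp only [Function.update_self, Function.update_of_ne (e1 u hu)]
        exact ⟨fun _ => d3 u hu, fun h => d4 u hu (c3.th.symm (a1 u hu).2.1.th h),
          by rw [d1 u hu, d5 u hu]⟩
      · simp only [Function.update_of_ne (e1 u hu), Function.update_of_ne (e1 u' hu')]
        exact a2 u hu u' hu'

lemma colour {h : ℕ} (hR : ∀ v ∈ C.X, ∀ J ∈ C.K v, ¬ C.Rich h (typ G D r J)) :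
    ∃ φ : V → Finset (Fin h × Fin ((2 * 2) ^ M)), ∀ v ∈ C.X,
      Cov G D r (m * (M + M)) {c | c ∈ C.X ∧ G.Adj v c ∧ φ c = φ v} := by
  have : ∀ t : Set (Set V), ¬ C.Rich h t → ∃ i : Fin h, C.Rich i t ∧ ¬ C.Rich (i + 1) t := by
    intro t ht
    by_contra hc
    push Not at hc
    have : ∀ i ≤ h, C.Rich i t := fun i hi => by
      induction i with
      | zero => trivial
      | succ i ih => exact hc ⟨i, hi⟩ (ih (by omega))
    exact ht (this h le_rfl)
  choose ρ hρ hρ' using this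
  have : ∀ t : Set (Set V), ∃ Λ : Finset (Set (Set V)), Λ.card ≤ M ∧ ∀ ht : ¬ C.Rich h t,
      ∀ L, L ⊆ C.X → ¬ Sh (Fam G D) (r + 1) L → typ G D r L = t → Cov G D r M
        {c | c ∈ L ∧ ∃ J ∈ C.K c, C.Rich (ρ t ht) (typ G D r J) ∧ typ G D r J ∉ Λ} := by
    intro t
    by_cases ht : C.Rich h t
    · exact ⟨∅, by simp, fun h => absurd ht h⟩
    · have := hρ' t ht
      simp only [Ctx.Rich, not_forall, not_exists, not_and, not_not] at this
      obtain ⟨Λ, h1, h2⟩ := this
      exact ⟨Λ, h1, fun _ => h2⟩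
  choose Λ hΛ hΛ' using this
  obtain ⟨κ, hκ⟩ := col_out Λ M hΛ
  refine ⟨fun v => Finset.univ.filter fun x => ∃ J ∈ C.K v, ∃ ht : ¬ C.Rich h (typ G D r J),
    x = (ρ _ ht, κ (typ G D r J)), fun v hv => ?_⟩
  refine ((Cov.biUnion (M := M + M) (C.K v) (fun L => {c | c ∈ L ∧ c ∈ C.X ∧ ∃ J ∈ C.K c,
    ∃ ht ht', ρ (typ G D r L) ht = ρ (typ G D r J) ht' ∧ κ (typ G D r L) = κ (typ G D r J)})
    fun L hL => ?_).le (Nat.mul_le_mul_right _ (C.card v))).mono ?_
  · have h2 : Cov G D r M (L ∩ tau G (typ G D r L)) := by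
      by_cases hc : Cov G D r M L
      · exact hc.mono Set.inter_subset_left
      · have hT : C.Th (typ G D r L) := ⟨L, C.sub v L hL, C.rk v L hL, hc, rfl⟩
        have := exc_small (C.rk v L hL) hT.tauF
        rw [exc, if_neg hT.noloop] at this
        exact ⟨{_}, by have := C.hD; simp; omega, by simpa using this,
          fun c hc => ⟨_, Finset.mem_singleton_self _, hc⟩⟩
    refine ((hΛ' _ (hR v hv L hL) L (C.sub v L hL) (C.rk v L hL) rfl).union h2).mono ?_
    rintro c ⟨c1, c2, J, c3, ht, ht', c4, c5⟩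
    by_cases e : typ G D r L = typ G D r J
    · exact Or.inr ⟨c1, e ▸ C.mem_tau c3⟩
    · exact Or.inl ⟨c1, J, c3, c4 ▸ hρ _ ht', fun h => hκ _ _ ⟨h, e⟩ c5⟩
  · rintro c ⟨c1, c2, c3⟩
    obtain ⟨L, hL, hc⟩ := C.cov v hv c c1 c2
    have : (ρ _ (hR v hv L hL), κ (typ G D r L)) ∈ Finset.univ.filter fun x =>
        ∃ J ∈ C.K v, ∃ ht : ¬ C.Rich h (typ G D r J), x = (ρ _ ht, κ (typ G D r J)) :=
      Finset.mem_filter.2 ⟨Finset.mem_univ _, L, hL, _, rfl⟩
    simp only at c3
    rw [← c3] at this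
    obtain ⟨J, hJ, ht, e⟩ := (Finset.mem_filter.1 this).2
    exact ⟨L, hL, hc, c1, J, hJ, _, ht, congrArg Prod.fst e, congrArg Prod.snd e⟩

end Pool.Agent.H28.Stab
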