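import Mathlib
import Pool.Agent.H28.Stab3
import Pool.Agent.H28.GS5

namespace Pool.Agent.H28.Stab

open Classical

def NoTree {V : Type} (G : SimpleGraph V) (n : ℕ) : Prop :=
  ¬ ∃ f : List (Fin n) → V, ∀ w w', w.length ≤ n → w'.length ≤ n → (f w = f w' → w = w') ∧
    (G.Adj (f w) (f w') ↔ (∃ j, w' = w ++ [j]) ∨ ∃ j, w = w' ++ [j])

theorem main (D n k r : ℕ) : ∀ m, ∃ c, ∀ (V : Type) [Fintype V] (G : SimpleGraph V),
    NoLad G D → G.CliqueFree k → NoTree G n → ∀ X : Set V,
    (∀ v ∈ X, Cov G D r m {c | c ∈ X ∧ G.Adj v c}) →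
    GS.Col (fun a b => a ∈ X ∧ b ∈ X ∧ G.Adj a b) c := by
  induction r with
  | zero =>
    refine fun m => ⟨1, fun V _ G _ _ _ X h => ⟨fun _ => 0, fun a b hab => ?_⟩⟩
    obtain ⟨S, -, h1, h2⟩ := h a hab.1
    obtain ⟨A, h3, h4⟩ := h2 b hab.2
    exact absurd ⟨b, h4⟩ (h1 A h3)
  | succ r ih =>
    intro m
    set W := (List.finite_length_le (Fin n) n).toFinset with hW
    have hW' : ∀ w, w ∈ W ↔ w.length ≤ n := by simp [hW]
    set M := D + k + 2 * m + 1 + 2 * W.card + W.card * (m + m) with hM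
    obtain ⟨c, hc⟩ := ih (m * (M + M))
    refine ⟨Fintype.card (Finset (Fin (n + 1) × Fin ((2 * 2) ^ M)) × Fin c),
      fun V _ G h1 h2 h3 X h4 => ?_⟩
    choose! S s1 s2 s3 using h4
    let C : Ctx G D r m k M :=
      { X := X
        K := fun v => if v ∈ X then (S v).image (· ∩ {c | c ∈ X ∧ G.Adj v c}) else ∅
        card := fun v => by
          split_ifs with h
          · exact Finset.card_image_le.trans (s1 v h)
          · simp
        sub := fun v L hL => by
          split_ifs at hL with h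
          · obtain ⟨A, -, rfl⟩ := Finset.mem_image.1 hL; exact fun c hc => hc.2.1
          · simp at hL
        adj := fun v L hL => by
          split_ifs at hL with h
          · obtain ⟨A, -, rfl⟩ := Finset.mem_image.1 hL; exact fun c hc => hc.2.2
          · simp at hL
        rk := fun v L hL => by
          split_ifs at hL with h
          · obtain ⟨A, hA, rfl⟩ := Finset.mem_image.1 hL
            exact fun h' => s2 v h A hA (h'.mono Set.inter_subset_left)
          · simp at hL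
        cov := fun v hv c hc h => by
          obtain ⟨A, a1, a2⟩ := s3 v hv c ⟨hc, h⟩
          rw [if_pos hv]
          exact ⟨_, Finset.mem_image_of_mem _ a1, a2, hc, h⟩
        lad := h1
        cl := h2
        hD := by omega
        hk := by omega
        hm := by omega }
    have hR : ∀ v ∈ C.X, ∀ J ∈ C.K v, ¬ C.Rich (n + 1) (typ G D r J) := by
      intro v hv J hJ hR
      obtain ⟨f, t, a1, a2⟩ := embed (N := W.card) (by omega) (by omega) hv hJ hR W le_rfl
        (fun w hw => (hW' w).1 hw) (fun w j hw => by rw [hW'] at hw ⊢; simp at hw; omega)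
      refine h3 ⟨f, fun w w' hw hw' => ⟨fun e => ?_, (a2 w ((hW' w).2 hw) w' ((hW' w').2 hw')).2.2⟩⟩
      by_contra hn
      exact (a2 w ((hW' w).2 hw) w' ((hW' w').2 hw')).1 hn (e ▸ (a1 w' ((hW' w').2 hw')).2.2)
    obtain ⟨φ, hφ⟩ := colour hR
    choose g hg using fun a => hc V G h1 h2 h3 {v | v ∈ X ∧ φ v = a} fun v hv =>
      (hφ v hv.1).mono fun c hc => ⟨hc.1.1, hc.2, hc.1.2.trans hv.2.symm⟩
    refine GS.Col.of_fintype (fun v => (φ v, g (φ v) v)) fun a b hab e => ?_
    have e1 : φ a = φ b := congrArg Prod.fst e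
    have e2 : g (φ a) a = g (φ b) b := congrArg Prod.snd e
    rw [← e1] at e2
    exact hg (φ a) a b ⟨⟨hab.1, rfl⟩, ⟨hab.2.1, e1.symm⟩, hab.2.2⟩ e2

lemma ramsey {α : Type} (R : α → α → Prop) (n : ℕ) : ∀ p q, p + q = n → ∀ l : List α,
    2 ^ n ≤ l.length → (∃ l' : List α, l'.Sublist l ∧ l'.length = p ∧ l'.Pairwise R) ∨
      ∃ l' : List α, l'.Sublist l ∧ l'.length = q ∧ l'.Pairwise fun a b => ¬ R a b := by
  induction n with
  | zero =>
    intro p q e l _
    obtain rfl : p = 0 := by omega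
    exact Or.inl ⟨[], by simp, rfl, by simp⟩
  | succ n ih =>
    intro p q e l hl
    rcases p with _ | p
    · exact Or.inl ⟨[], by simp, rfl, by simp⟩
    rcases q with _ | q
    · exact Or.inr ⟨[], by simp, rfl, by simp⟩
    rcases l with _ | ⟨a, l⟩
    · exact absurd hl (by simp)
    have h1 := l.length_eq_length_filter_add fun b => decide (R a b)
    have h2 : 2 ^ n ≤ (l.filter fun b => decide (R a b)).length ∨
        2 ^ n ≤ (l.filter fun b => !decide (R a b)).length := by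
      rw [List.length_cons, pow_succ] at hl; omega
    rcases h2 with h2 | h2
    · rcases ih p (q + 1) (by omega) _ h2 with ⟨s, s1, s2, s3⟩ | ⟨s, s1, s2, s3⟩
      · refine Or.inl ⟨a :: s, (s1.trans List.filter_sublist).cons_cons a, by simp [s2],
          List.pairwise_cons.2 ⟨fun b hb => ?_, s3⟩⟩
        simpa using (List.mem_filter.1 (s1.subset hb)).2
      · exact Or.inr ⟨s, (s1.trans List.filter_sublist).cons a, s2, s3⟩
    · rcases ih (p + 1) q (by omega) _ h2 with ⟨s, s1, s2, s3⟩ | ⟨s, s1, s2, s3⟩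
      · exact Or.inl ⟨s, (s1.trans List.filter_sublist).cons a, s2, s3⟩
      · refine Or.inr ⟨a :: s, (s1.trans List.filter_sublist).cons_cons a, by simp [s2],
          List.pairwise_cons.2 ⟨fun b hb => ?_, s3⟩⟩
        simpa using (List.mem_filter.1 (s1.subset hb)).2

lemma ramsey_free {α V : Type} {G : SimpleGraph V} {k : ℕ} (h : G.CliqueFree k) (g : α → V) (q : ℕ)
    (l : List α) (hl : 2 ^ (k + q) ≤ l.length) :
    ∃ l' : List α, l'.Sublist l ∧ l'.length = q ∧ l'.Pairwise fun a b => ¬ G.Adj (g a) (g b) := by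
  refine (ramsey (fun a b => G.Adj (g a) (g b)) _ k q rfl l hl).resolve_left ?_
  rintro ⟨s, -, s2, s3⟩
  have h1 : (s.map g).Pairwise G.Adj := List.pairwise_map.2 s3
  have h2 : (s.map g).Nodup := h1.imp fun h => h.ne
  refine h (s.map g).toFinset ⟨?_, by rw [List.toFinset_card_of_nodup h2]; simpa using s2⟩
  intro a ha b hb hab
  haveI : Std.Symm G.Adj := ⟨fun _ _ h => h.symm⟩
  exact h1.forall (List.mem_toFinset.1 ha) (List.mem_toFinset.1 hb) hab

lemma noLad_of {V : Type} {G : SimpleGraph V} {k s : ℕ} (h : G.CliqueFree k)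
    (hs : ¬ ∃ a b : Fin s → V, (∀ i j, G.Adj (a i) (b j) ↔ i ≤ j) ∧ (∀ i j, ¬ G.Adj (a i) (a j)) ∧
      ∀ i j, ¬ G.Adj (b i) (b j)) : NoLad G (2 ^ (k + 2 ^ (k + 2 * s))) := by
  rintro ⟨l, l1, l2⟩
  obtain ⟨l', a1, a2, a3⟩ := ramsey_free h Prod.fst _ l l1.ge
  obtain ⟨u, b1, b2, b3⟩ := ramsey_free h Prod.snd _ l' a2.ge
  have c1 := List.pairwise_iff_getElem.1 (l2.sublist (b1.trans a1))
  have c2 := List.pairwise_iff_getElem.1 (a3.sublist b1)
  have c3 := List.pairwise_iff_getElem.1 b3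
  refine hs ⟨fun i => (u[2 * i.1]'(by omega)).1, fun j => (u[2 * j.1 + 1]'(by omega)).2,
    fun i j => ⟨fun h => ?_, fun h => ?_⟩, fun i j => ?_, fun i j => ?_⟩
  · by_contra hn
    exact (c1 (2 * j.1 + 1) (2 * i.1) _ _ (by omega)).2 h.symm
  · exact (c1 (2 * i.1) (2 * j.1 + 1) _ _ (by omega)).1.symm
  · rcases lt_trichotomy i j with h | rfl | h
    · exact c2 _ _ _ _ (by omega)
    · exact G.irrefl
    · exact fun h' => c2 _ _ _ _ (by omega) h'.symm
  · rcases lt_trichotomy i j with h | rfl | h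
    · exact c3 _ _ _ _ (by omega)
    · exact G.irrefl
    · exact fun h' => c3 _ _ _ _ (by omega) h'.symm

theorem gs_stable {m : ℕ} (F : SimpleGraph (Fin m)) (hF : F.IsAcyclic) (D k : ℕ) :
    ∃ c, ∀ (V : Type) [Fintype V] (G : SimpleGraph V), NoLad G D → G.CliqueFree k →
      IsEmpty (F ↪g G) → G.Colorable c := by
  obtain ⟨c, hc⟩ := main D m k (hb D) 1
  obtain ⟨wd, w1, w2, w3⟩ := GS.forest_words F hF
  refine ⟨c, fun V _ G h1 h2 h3 => ?_⟩
  obtain ⟨f, hf⟩ := hc V G h1 h2 (by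
      rintro ⟨f, hf⟩
      exact h3.false ⟨⟨fun v => f (wd v), fun u v e => w1 ((hf _ _ (w2 u) (w2 v)).1 e)⟩,
        fun {u v} => ((hf _ _ (w2 u) (w2 v)).2).trans (w3 u v).symm⟩) Set.univ
    fun v _ => ⟨{Set.univ}, by simp, by simpa using rank_bound h1 _, by simp⟩
  exact ⟨SimpleGraph.Coloring.mk f fun {a b} h => hf a b ⟨trivial, trivial, h⟩⟩

end Pool.Agent.H28.Stab
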