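import Pool.Agent.H43.Orb6

namespace Pool.Agent.H28.Sub

open Pool.Agent.H43.Orb Set

variable {α β : Type*}

def Len (α : Type*) (q : ℕ) : Set (List α) := {l | l.length = q}

noncomputable def proj (q : ℕ) : Ch α →ₗ[ℤ] Ch α := ext fun l => if l.length = q then sg l else 0

lemma proj_on {S : Set (List α)} (q : ℕ) {c : Ch α} (hc : c ∈ On S) :
    proj q c ∈ On (S ∩ Len α q) := by
  refine lin_on _ (fun l hl => ?_) hc
  simp only [proj, ext_sg]
  split_ifs with h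
  · exact sg_on ⟨hl, h⟩
  · exact Submodule.zero_mem _

lemma proj_eq {q : ℕ} {c : Ch α} (hc : c ∈ On (Len α q)) : proj q c = c :=
  lin_eq_on _ LinearMap.id (fun l hl => by
    have : l.length = q := hl
    simp [proj, this]) hc

lemma proj_ne {q r : ℕ} (h : r ≠ q) {c : Ch α} (hc : c ∈ On (Len α r)) : proj q c = 0 :=
  lin_eq_on _ 0 (fun l hl => by
    have : l.length = r := hl
    simp [proj, this, h]) hc

lemma dl_len (l : List α) : dl l ∈ On (Len α (l.length - 1)) :=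
  dl_on fun i hi => by simp [Len, List.length_eraseIdx, hi]

lemma d_proj (q : ℕ) (c : Ch α) : d (proj (q + 1) c) = proj q (d c) := by
  refine hom_ext (F := d ∘ₗ proj (q + 1)) (G := proj q ∘ₗ d) (fun l => ?_) c
  simp only [LinearMap.comp_apply, d_sg]
  rcases l with _ | ⟨a, l⟩
  · simp [proj]
  · by_cases h : l.length = q
    · subst h
      rw [proj_eq (sg_on (by simp [Len])), d_sg, proj_eq (q := l.length) (dl_len (a :: l))]
    · rw [proj_ne (r := l.length + 1) (by omega) (sg_on (by simp [Len])), map_zero,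
        proj_ne h (dl_len (a :: l))]

lemma mp_len (f : α → β) {q : ℕ} {c : Ch α} (hc : c ∈ On (Len α q)) : mp f c ∈ On (Len β q) :=
  mp_on f (fun l hl => by simpa [Len] using hl) hc

lemma on_inter {S T : Set (List α)} {c : Ch α} (h1 : c ∈ On S) (h2 : c ∈ On T) :
    c ∈ On (S ∩ T) := by
  rw [Finsupp.mem_supported] at *
  exact subset_inter h1 h2

def IE (F : Set α → Prop) (q : ℕ) : Prop :=
  ∀ z ∈ On (Tup F), z ∈ On (Len α q) → d z = 0 → ∃ w ∈ On (Tup F), d w = z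

variable {V : Type} [Fintype V]

lemma exists_sd' {ε : ℝ} (hε : 0 < ε) : ∃ sd : Ch V →ₗ[ℤ] Ch (V → ℝ), sd (sg []) = sg [] ∧
    (∀ l, sd (sg l) ∈ On (Sm ε (Rl fun A => A ⊆ {v | v ∈ l}))) ∧ (∀ c, d (sd c) = sd (d c)) ∧
    ∀ q, ∀ c ∈ On (Len V q), sd c ∈ On (Len _ q) := by
  obtain ⟨sd, s0, s1, s2⟩ := exists_sd (V := V) hε
  refine ⟨ext fun l => proj l.length (sd (sg l)), ?_, fun l => ?_, fun c => ?_, fun q c hc => ?_⟩
  · rw [ext_sg, s0]
    exact proj_eq (sg_on rfl)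
  · rw [ext_sg]
    exact on_mono inter_subset_left (proj_on _ (s1 l))
  · refine hom_ext (F := d ∘ₗ ext fun l => proj l.length (sd (sg l)))
      (G := (ext fun l => proj l.length (sd (sg l))) ∘ₗ d) (fun l => ?_) c
    simp only [LinearMap.comp_apply, d_sg, ext_sg]
    rcases l with _ | ⟨a, l⟩
    · have : proj ([] : List V).length (sg ([] : List (V → ℝ))) = sg [] := proj_eq (sg_on rfl)
      rw [s0, this]
      simp
    · rw [List.length_cons, d_proj, s2, d_sg]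
      exact lin_eq_on (proj l.length ∘ₗ sd) _ (fun m hm => by
        have : m.length = l.length := hm
        simp [this]) (dl_len (a :: l))
  · refine lin_on _ (fun l hl => ?_) hc
    rw [ext_sg, show l.length = q from hl]
    exact on_mono inter_subset_right (proj_on _ (s1 l))

lemma compare' [Nonempty V] {F : Set V → Prop} (hF : ∀ A B, A ⊆ B → F B → F A) (h0 : F ∅) :
    ∃ (v : (V → ℝ) → V) (δ : ℝ), 0 < δ ∧ (∀ c ∈ On (Sm δ (Rl F)), mp v c ∈ On (Tup F)) ∧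
      ∀ ε > 0, ∃ sd : Ch V →ₗ[ℤ] Ch (V → ℝ), (∀ c, d (sd c) = sd (d c)) ∧
        (∀ q, ∀ c ∈ On (Len V q), sd c ∈ On (Len _ q)) ∧
        (∀ c ∈ On (Tup F), sd c ∈ On (Sm ε (Rl F))) ∧
        (∀ z ∈ On (Tup F), d z = 0 → ∃ w ∈ On (Tup F), d w = mp v (sd z) - z) ∧
        ∀ y ∈ On (Sm (min δ ε) (Rl F)), d y = 0 →
          ∃ w ∈ On (Sm ε (Rl F)), d w = sd (mp v y) - y := by
  obtain ⟨v, δ, hδ, hv⟩ := exists_vtx (V := V)
  have k1 : ∀ l ∈ Sm δ (Rl F), ∀ x ∈ l, ∀ y ∈ l, y (v x) ≠ 0 := fun l hl x hx y hy =>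
    hv x y (hl.1 x hx).2.1 (hl.2 x hx y hy)
  refine ⟨v, δ, hδ, fun c hc => mp_on v (fun l hl => ?_) hc, fun ε hε => ?_⟩
  · rcases l with _ | ⟨a, l⟩
    · simpa [Tup] using h0
    · refine hF _ _ (fun u hu => ?_) (hl.1 a (by simp)).2.2
      obtain ⟨x, hx, rfl⟩ := List.mem_map.1 hu
      exact k1 _ hl x hx a (by simp)
  obtain ⟨sd, s0, s1, s2, s3⟩ := exists_sd' (V := V) hε
  refine ⟨sd, s2, s3, fun c hc => ?_, fun z hz hd => ?_, fun y hy hd => ?_⟩
  · refine lin_on (S := Tup F) _ (fun l hl => on_mono (sm_mono le_rfl ?_) (s1 l)) hc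
    exact rl_mono fun A _ hA => hF A {v | v ∈ l} hA hl
  · refine hom_id hF (mp v ∘ₗ sd) (fun c => by simp [d_mp, s2]) (fun l => ?_) (by simp [s0]) hz hd
    refine mp_on (T := {m | ∀ u ∈ m, u ∈ l}) v (fun m hm u hu => ?_) (s1 l)
    obtain ⟨x, hx, rfl⟩ := List.mem_map.1 hu
    exact (hm.1 x hx).2.2 (hv x x (hm.1 x hx).2.1 (by simpa))
  · have m1 : Sm (min δ ε) (Rl F) ⊆ Sm δ (Rl F) := sm_mono (min_le_left _ _) le_rfl
    refine carrier_hom (Sm (min δ ε) (Rl F)) (Sm ε (Rl F))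
      (fun l => Sm ε (Rl fun A => ∃ x ∈ l, A ⊆ {u | x u ≠ 0})) (sd ∘ₗ mp v) LinearMap.id
      (fun l hl i _ => ⟨sm_sub hl fun _ hu => List.mem_of_mem_eraseIdx hu, sm_mono le_rfl
        (rl_mono fun A _ ⟨x, hx, hA⟩ => ⟨x, List.mem_of_mem_eraseIdx hx, hA⟩)⟩)
      (fun l hl hn => ?_) (fun l hl => sm_mono le_rfl (rl_mono fun A _ ⟨x, hx, hA⟩ =>
        hF _ _ hA (hl.1 x hx).2.2)) (fun c => by simp [d_mp, s2]) (fun _ => rfl)
      (fun l hl => ?_) (fun l hl => sg_on ⟨fun x hx => ?_, fun x hx y hy => ?_⟩) (by simp [s0]) hy hd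
    · obtain ⟨a, ha⟩ := List.exists_mem_of_ne_nil l hn
      exact rl_star (fun _ _ h ⟨x, hx, h2⟩ => ⟨x, hx, h.trans h2⟩) (v a)
        ⟨a, ha, by simpa using k1 l (m1 hl) a ha a ha⟩
        (fun A ⟨x, hx, hA⟩ => ⟨x, hx, insert_subset (k1 l (m1 hl) a ha x hx) hA⟩) hε
    · rw [LinearMap.comp_apply, mp_sg]
      refine on_mono (sm_mono le_rfl (rl_mono fun A ⟨u, hu⟩ hA => ?_)) (s1 _)
      obtain ⟨a, ha, -⟩ := List.mem_map.1 (hA hu)
      refine ⟨a, ha, fun w hw => ?_⟩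
      obtain ⟨x, hx, rfl⟩ := List.mem_map.1 (hA hw)
      exact k1 l (m1 hl) x hx a ha
    · exact ⟨(hl.1 x hx).1, (hl.1 x hx).2.1, x, hx, le_rfl⟩
    · exact (hl.2 x hx y hy).trans_le (min_le_right _ _)

theorem ie_retract {U : Type} [Fintype U] [Nonempty U] [Nonempty V] {F : Set V → Prop}
    {G : Set U → Prop} (hF : ∀ A B, A ⊆ B → F B → F A) (hF0 : F ∅)
    (hG : ∀ A B, A ⊆ B → G B → G A) (hG0 : G ∅) (a : C(Rl F, Rl G)) (b : C(Rl G, Rl F))
    (hab : (b.comp a).Homotopic (ContinuousMap.id _)) {q : ℕ} (h : IE G q) : IE F q := by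
  obtain ⟨vX, δX, hδX, x1, x2⟩ := compare' hF hF0
  obtain ⟨vW, δW, hδW, w1, w2⟩ := compare' hG hG0
  obtain ⟨a', ha, ha2⟩ := amb (rl_compact hF) a
  obtain ⟨b', hb, hb2⟩ := amb (rl_compact hG) b
  obtain ⟨ε2, he2, b3⟩ := hb2 δX hδX
  obtain ⟨ε1, he1, a3⟩ := ha2 (min δW ε2) (lt_min hδW he2)
  obtain ⟨ε0, he0, h3⟩ := amb_hom (rl_compact hF) _ hab (b' ∘ a')
    (fun x => by simp [ha, hb]) hδX
  obtain ⟨sX, s1, sl, s2, s3, -⟩ := x2 (min ε1 ε0) (lt_min he1 he0)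
  obtain ⟨sW, t1, -, t2, -, t4⟩ := w2 ε2 he2
  intro z hz hl hd
  have z1 := s2 z hz
  have y1 := a3 _ (on_mono (sm_mono (min_le_left _ _) le_rfl) z1)
  have dz : d (sX z) = 0 := by rw [s1, hd, map_zero]
  have dy : d (mp a' (sX z)) = 0 := by rw [d_mp, dz, map_zero]
  obtain ⟨u2, hu2, e2⟩ := h _ (w1 _ (on_mono (sm_mono (min_le_left _ _) le_rfl) y1))
    (mp_len _ (mp_len _ (sl q z hl))) (by rw [d_mp, dy, map_zero])
  obtain ⟨u3, hu3, e3⟩ := t4 _ y1 dy
  obtain ⟨u5, hu5, e5⟩ := h3 _ (on_mono (sm_mono (min_le_right _ _) le_rfl) z1) dz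
  obtain ⟨u7, hu7, e7⟩ := s3 z hz hd
  refine ⟨mp vX (mp b' (sW u2 - u3) + u5) - u7, Submodule.sub_mem _ (x1 _ (Submodule.add_mem _
    (b3 _ (Submodule.sub_mem _ (t2 _ hu2) hu3)) hu5)) hu7, ?_⟩
  rw [map_sub, d_mp, map_add, d_mp, map_sub, t1, e2, e3, e5, e7, ← mp_mp]
  simp

lemma ie_true (a : α) (q : ℕ) : IE (fun _ : Set α => True) q := fun z hz _ hd =>
  ⟨cons a z, cons_on (T := Tup fun _ : Set α => True) a (fun _ _ => trivial) hz, by rw [d_cons, hd]; simp⟩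

lemma ie_bd (m q : ℕ) (h : q ≠ m) : IE (fun A : Set (Fin (m + 1)) => A ≠ univ) q := by
  have key : ∀ l : List (Fin (m + 1)), {v | v ∈ l} = univ → m + 1 ≤ l.toFinset.card := by
    intro l hl
    have : l.toFinset = Finset.univ := by
      ext v
      simpa using (hl ▸ mem_univ v : v ∈ {v | v ∈ l})
    simp [this]
  intro z hz hl hd
  rcases lt_or_gt_of_ne h with h | h
  · refine ⟨cons 0 z, cons_on 0 (fun l hl e => ?_) hl, by rw [d_cons, hd]; simp⟩
    have h1 := key _ e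
    have h2 := List.toFinset_card_le (0 :: l)
    have h3 : l.length = q := hl
    rw [List.length_cons] at h2
    omega
  · have hF : ∀ A B : Set (Fin (m + 1)), A ⊆ B → B ≠ univ → A ≠ univ :=
      fun A B hAB hB e => hB (univ_subset_iff.1 (e ▸ hAB))
    obtain ⟨N, n0, nC, nd⟩ := carrier_map
      (fun l : List (Fin (m + 1)) => {m | m.Pairwise (· < ·) ∧ ∀ u ∈ m, u ∈ l})
      (fun _ _ _ _ hm => ⟨hm.1, fun u hu => List.mem_of_mem_eraseIdx (hm.2 u hu)⟩) acyc_strict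
      (by simp)
    obtain ⟨w, hw, e⟩ := hom_id hF (ext N) nd
      (fun l => by rw [ext_sg]; exact on_mono (fun _ hm => hm.2) (nC l)) (by simp [n0]) hz hd
    have h3 : proj q (ext N z) = 0 := by
      refine lin_eq_on (proj q ∘ₗ ext N) 0 (fun l hl => ?_) hz
      simp only [LinearMap.comp_apply, ext_sg, LinearMap.zero_apply]
      refine lin_eq_on (proj q) 0 (fun k hk => ?_) (nC l)
      have hn : k.Nodup := hk.1.imp ne_of_lt
      have h4 : k.toFinset ≠ Finset.univ := fun e => hl (by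
        ext v
        have : v ∈ k.toFinset := e ▸ Finset.mem_univ v
        simpa using hk.2 v (List.mem_toFinset.1 this))
      have h5 := Finset.card_lt_card (Finset.ssubset_univ_iff.2 h4)
      rw [List.toFinset_card_of_nodup hn, Finset.card_univ, Fintype.card_fin] at h5
      simp only [proj, ext_sg, LinearMap.zero_apply]
      rw [if_neg (by omega)]
    refine ⟨- proj (q + 1) w, Submodule.neg_mem _ (on_mono inter_subset_left (proj_on _ hw)), ?_⟩
    rw [map_neg, d_proj, e, map_sub, h3, proj_eq hl]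
    simp

end Pool.Agent.H28.Sub
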