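import Pool.Agent.H28.Sub1

namespace Pool.Agent.H28.Sub

open Pool.Agent.H43.Orb Set Metric

variable {V : Type} [Fintype V] [DecidableEq V]

def Cost (Φ : Set V → Prop) (G : Finset V) (A : Set V) : Prop := Φ A ∧ ¬ (G : Set V) ⊆ A

noncomputable def bary (G : Finset V) (v : V) : ℝ := if v ∈ G then 1 / G.card else 0

lemma bary_mem {Φ : Set V → Prop} {G : Finset V} (hG : G.Nonempty) (h : Φ G) : bary G ∈ Rl Φ := by
  have hc : (0 : ℝ) < G.card := by exact_mod_cast hG.card_pos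
  refine ⟨fun v => ?_, ?_, ?_⟩
  · unfold bary
    split_ifs <;> positivity
  · simp [bary, Finset.sum_ite_mem, hc.ne']
  · have : {v | bary G v ≠ 0} = G := by
      ext v
      simp [bary, hG.ne_empty]
    rwa [this]

noncomputable def rr (G : Finset V) (hG : G.Nonempty) (y : V → ℝ) (v : V) : ℝ :=
  (y v - if v ∈ G then G.inf' hG y else 0) / (1 - G.card * G.inf' hG y)

lemma rr_aux {Φ : Set V → Prop} {G : Finset V} (hG : G.Nonempty) {y : V → ℝ} (hy : y ∈ Rl Φ) :
    (∀ v, 0 ≤ y v - if v ∈ G then G.inf' hG y else 0) ∧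
    ∑ v, (y v - if v ∈ G then G.inf' hG y else 0) = 1 - G.card * G.inf' hG y := by
  refine ⟨fun v => ?_, ?_⟩
  · split_ifs with h
    · exact sub_nonneg.2 (Finset.inf'_le _ h)
    · simpa using hy.1 v
  · simp [Finset.sum_sub_distrib, hy.2.1, Finset.sum_ite_mem]

lemma rr_den {Φ : Set V → Prop} {G : Finset V} (hG : G.Nonempty) {y : V → ℝ} (hy : y ∈ Rl Φ)
    (hne : y ≠ bary G) : 0 < 1 - G.card * G.inf' hG y := by
  obtain ⟨h1, h2⟩ := rr_aux hG hy
  have h3 : 0 ≤ 1 - G.card * G.inf' hG y := h2 ▸ Finset.sum_nonneg fun v _ => h1 v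
  refine lt_of_le_of_ne h3 fun e => hne ?_
  have hc : (0 : ℝ) < G.card := by exact_mod_cast hG.card_pos
  have h4 := (Finset.sum_eq_zero_iff_of_nonneg fun v _ => h1 v).1 (h2.trans e.symm)
  have h5 : G.inf' hG y = 1 / G.card := by
    rw [eq_div_iff hc.ne']
    linarith
  funext v
  have := h4 v (Finset.mem_univ v)
  rw [h5] at this
  unfold bary
  linarith

lemma rr_mem {Φ : Set V → Prop} (hΦ : ∀ A B, A ⊆ B → Φ B → Φ A) {G : Finset V} (hG : G.Nonempty)
    {y : V → ℝ} (hy : y ∈ Rl Φ) (hne : y ≠ bary G) : rr G hG y ∈ Rl (Cost Φ G) := by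
  obtain ⟨h1, h2⟩ := rr_aux hG hy
  have h3 := rr_den hG hy hne
  refine ⟨fun v => div_nonneg (h1 v) h3.le, ?_, hΦ _ {v | y v ≠ 0} (fun v hv (h0 : y v = 0) => hv ?_) hy.2.2, fun h => ?_⟩
  · simp only [rr]
    rw [← Finset.sum_div, h2, div_self h3.ne']
  · have := h1 v
    have h4 : 0 ≤ G.inf' hG y := Finset.le_inf' _ _ fun u _ => hy.1 u
    simp only [rr, h0] at this ⊢
    split_ifs at this ⊢
    · rw [show G.inf' hG y = 0 by linarith]
      simp
    · simp
  · obtain ⟨u, hu, e⟩ := Finset.exists_mem_eq_inf' hG y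
    apply h hu
    simp [rr, hu, e]

lemma rr_id {Φ : Set V → Prop} {G : Finset V} (hG : G.Nonempty)
    {y : V → ℝ} (hy : y ∈ Rl (Cost Φ G)) : rr G hG y = y ∧ y ≠ bary G := by
  obtain ⟨u, hu, h0⟩ := not_subset.1 hy.2.2.2
  have h1 : y u = 0 := by simpa using h0
  have h2 : G.inf' hG y = 0 :=
    le_antisymm (h1 ▸ Finset.inf'_le _ hu) (Finset.le_inf' _ _ fun u _ => hy.1 u)
  refine ⟨funext fun v => by simp [rr, h2], fun e => ?_⟩
  have hu' : u ∈ G := hu
  simp [e, bary, hu', hG.ne_empty] at h1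

lemma cost_mono {Φ : Set V → Prop} (hΦ : ∀ A B, A ⊆ B → Φ B → Φ A) (G : Finset V) :
    ∀ A B, A ⊆ B → Cost Φ G B → Cost Φ G A :=
  fun A B h hB => ⟨hΦ A B h hB.1, fun h2 => hB.2 (h2.trans h)⟩

section
variable {E : Type} [NormedAddCommGroup E] [NormedSpace ℝ E]

lemma via {Φ : Set V → Prop} (hΦ : ∀ A B, A ⊆ B → Φ B → Φ A) {G : Finset V} (hG : G.Nonempty)
    (hΦG : Φ G) (φ : Rl Φ ≃ₜ closedBall (0 : E) 1) {U : Type} [Fintype U] [Nonempty U]
    {Ψ : Set U → Prop} (hΨ : ∀ A B, A ⊆ B → Ψ B → Ψ A) (hΨ0 : Ψ ∅)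
    (a : C(Rl (Cost Φ G), Rl Ψ)) (g : Rl Ψ → E) (gc : Continuous g)
    (g1 : ∀ x, g x ∈ closedBall (0 : E) 1) (g2 : ∀ x, g x ≠ φ ⟨_, bary_mem hG hΦG⟩)
    (h : unitInterval × Rl (Cost Φ G) → E) (hc : Continuous h)
    (h1 : ∀ x, h x ∈ closedBall (0 : E) 1) (h2 : ∀ x, h x ≠ φ ⟨_, bary_mem hG hΦG⟩)
    (h3 : ∀ y, h (0, y) = g (a y))
    (h4 : ∀ y, h (1, y) = φ ⟨y.1, rl_mono (fun _ _ h => h.1) y.2⟩) {q : ℕ} (hq : IE Ψ q) :
    IE (Cost Φ G) q := by
  haveI : Nonempty V := ⟨hG.choose⟩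
  have hne : ∀ e : closedBall (0 : E) 1, (e : E) ≠ φ ⟨_, bary_mem hG hΦG⟩ →
      (φ.symm e).1 ≠ bary G := by
    intro e he h
    apply he
    have : φ.symm e = ⟨_, bary_mem hG hΦG⟩ := Subtype.ext h
    rw [← this, φ.apply_symm_apply]
  have R : ∀ {X : Type} [TopologicalSpace X] (f : X → E) (_ : Continuous f)
      (f1 : ∀ x, f x ∈ closedBall (0 : E) 1) (_ : ∀ x, f x ≠ φ ⟨_, bary_mem hG hΦG⟩),
      ∃ F : C(X, Rl (Cost Φ G)), ∀ x, (F x).1 = rr G hG (φ.symm ⟨f x, f1 x⟩).1 := by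
    intro X _ f fc f1 f2
    have c1 : Continuous fun x => (φ.symm ⟨f x, f1 x⟩).1 :=
      continuous_subtype_val.comp (φ.symm.continuous.comp (fc.subtype_mk f1))
    have c2 : Continuous fun x => G.inf' hG (φ.symm ⟨f x, f1 x⟩).1 :=
      Continuous.finset_inf'_apply hG fun v _ => (continuous_apply v).comp c1
    refine ⟨⟨fun x => ⟨_, rr_mem hΦ hG (φ.symm ⟨f x, f1 x⟩).2 (hne _ (f2 x))⟩,
      Continuous.subtype_mk (continuous_pi fun v => ?_) _⟩, fun x => rfl⟩
    refine Continuous.div (((continuous_apply v).comp c1).sub ?_)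
      (continuous_const.sub (continuous_const.mul c2))
      fun x => (rr_den hG (φ.symm ⟨f x, f1 x⟩).2 (hne _ (f2 x))).ne'
    split_ifs
    · exact c2
    · exact continuous_const
  obtain ⟨b, hb⟩ := R g gc g1 g2
  obtain ⟨H, hH⟩ := R h hc h1 h2
  refine ie_retract (cost_mono hΦ G) ⟨hΦ _ _ (empty_subset _) hΦG, fun h => ?_⟩ hΨ hΨ0 a b
    ⟨⟨H, fun y => Subtype.ext ?_, fun y => Subtype.ext ?_⟩⟩ hq
  · obtain ⟨u, hu⟩ := hG
    exact h (show u ∈ (G : Set V) from hu)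
  · show (H (0, y)).1 = (b (a y)).1
    rw [hH, hb]
    congr 3
    exact Subtype.ext (h3 y)
  · show (H (1, y)).1 = y.1
    have : (⟨h (1, y), h1 _⟩ : closedBall (0 : E) 1) = φ ⟨y.1, rl_mono (fun _ _ h => h.1) y.2⟩ :=
      Subtype.ext (h4 y)
    rw [hH, this, φ.symm_apply_apply]
    exact (rr_id hG y.2).1

omit [DecidableEq V] in
lemma ball_ie [Nonempty V] {Φ : Set V → Prop} (hΦ : ∀ A B, A ⊆ B → Φ B → Φ A) (h0 : Φ ∅)
    (φ : Rl Φ ≃ₜ closedBall (0 : E) 1) (q : ℕ) : IE Φ q := by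
  have m0 : (fun _ => 1 : Unit → ℝ) ∈ Rl fun _ : Set Unit => True := ⟨by simp, by simp, trivial⟩
  have hm : ∀ (t : unitInterval) (e : closedBall (0 : E) 1), (t : ℝ) • (e : E) ∈ closedBall (0 : E) 1 := by
    intro t e
    have := mem_closedBall_zero_iff.1 e.2
    rw [mem_closedBall_zero_iff, norm_smul, Real.norm_eq_abs, abs_of_nonneg t.2.1]
    exact mul_le_one₀ t.2.2 (norm_nonneg _) this
  refine ie_retract hΦ h0 (fun _ _ _ _ => trivial) trivial (ContinuousMap.const _ ⟨_, m0⟩)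
    (ContinuousMap.const _ (φ.symm ⟨0, by simp⟩))
    ⟨⟨⟨fun x => φ.symm ⟨(x.1 : ℝ) • (φ x.2 : E), hm _ _⟩, ?_⟩, fun y => ?_, fun y => ?_⟩⟩
    (ie_true () q)
  · exact φ.symm.continuous.comp (Continuous.subtype_mk (by fun_prop) _)
  · simp
  · simp

end

noncomputable def al {m : ℕ} (y : EuclideanSpace ℝ (Fin m)) (j : Fin (m + 1)) : ℝ :=
  (Fin.cons 0 y.1 : Fin (m + 1) → ℝ) j -
    Finset.univ.inf' Finset.univ_nonempty (Fin.cons 0 y.1 : Fin (m + 1) → ℝ)

lemma al_cont {m : ℕ} (j : Fin (m + 1)) : Continuous fun y : EuclideanSpace ℝ (Fin m) => al y j := by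
  have : ∀ j : Fin (m + 1), Continuous fun y : EuclideanSpace ℝ (Fin m) =>
      (Fin.cons 0 y.1 : Fin (m + 1) → ℝ) j := by
    intro j
    refine Fin.cases ?_ (fun i => ?_) j
    · simpa using continuous_const
    · simp only [Fin.cons_succ]
      fun_prop
  exact (this j).sub (Continuous.finset_inf'_apply _ fun j _ => this j)

lemma al_nonneg {m : ℕ} (y : EuclideanSpace ℝ (Fin m)) (j : Fin (m + 1)) : 0 ≤ al y j :=
  sub_nonneg.2 (Finset.inf'_le _ (Finset.mem_univ j))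

lemma al_sub {m : ℕ} (y : EuclideanSpace ℝ (Fin m)) (i : Fin m) : al y i.succ - al y 0 = y i := by
  simp [al]

lemma al_pos {m : ℕ} {y : EuclideanSpace ℝ (Fin m)} (hy : y ≠ 0) : 0 < ∑ j, al y j := by
  refine lt_of_le_of_ne (Finset.sum_nonneg fun j _ => al_nonneg y j) fun e => hy ?_
  have := (Finset.sum_eq_zero_iff_of_nonneg fun j _ => al_nonneg y j).1 e.symm
  ext i
  rw [← al_sub, this _ (Finset.mem_univ _), this _ (Finset.mem_univ _)]
  simp

lemma al_mem {m : ℕ} {y : EuclideanSpace ℝ (Fin m)} (hy : y ≠ 0) :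
    (fun j => al y j / ∑ j, al y j) ∈ Rl fun A : Set (Fin (m + 1)) => A ≠ univ := by
  have := al_pos hy
  refine ⟨fun j => div_nonneg (al_nonneg y j) this.le, ?_, fun e => ?_⟩
  · rw [← Finset.sum_div, div_self this.ne']
  · obtain ⟨u, -, e2⟩ := Finset.exists_mem_eq_inf' Finset.univ_nonempty
      (Fin.cons 0 y.1 : Fin (m + 1) → ℝ)
    have h : u ∈ {v | al y v / ∑ j, al y j ≠ 0} := e ▸ mem_univ u
    apply h
    simp only [al, e2, sub_self, zero_div]

noncomputable def be {m : ℕ} (x : Fin (m + 1) → ℝ) : EuclideanSpace ℝ (Fin m) :=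
  WithLp.toLp 2 fun i => x i.succ - x 0

lemma be_ne {m : ℕ} {x : Fin (m + 1) → ℝ} (hx : x ∈ Rl fun A : Set (Fin (m + 1)) => A ≠ univ) :
    be x ≠ 0 := by
  intro e
  have h1 : ∀ j, x j = x 0 := by
    intro j
    refine Fin.cases rfl (fun i => ?_) j
    have := congrArg (fun y : EuclideanSpace ℝ (Fin m) => y i) e
    simpa [be, sub_eq_zero] using this
  apply hx.2.2
  refine eq_univ_of_forall fun j h0 => ?_
  have h2 := hx.2.1
  have h3 : ∀ k, x k = 0 := fun k => by rw [h1 k, ← h1 j, h0]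
  simp [h3] at h2

theorem cost_ie {m : ℕ} {Φ : Set V → Prop} (hΦ : ∀ A B, A ⊆ B → Φ B → Φ A) {G : Finset V}
    (hG : G.Nonempty) (hΦG : Φ G) (φ : Rl Φ ≃ₜ closedBall (0 : EuclideanSpace ℝ (Fin m)) 1)
    {q : ℕ} (hq : q ≠ m) : IE (Cost Φ G) q := by
  set p : EuclideanSpace ℝ (Fin m) := (φ ⟨_, bary_mem hG hΦG⟩).1 with hp
  let f : Rl (Cost Φ G) → EuclideanSpace ℝ (Fin m) :=
    fun y => (φ ⟨y.1, rl_mono (fun _ _ h => h.1) y.2⟩).1
  have fc : Continuous f := continuous_subtype_val.comp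
    (φ.continuous.comp (continuous_subtype_val.subtype_mk _))
  have f1 : ∀ y, ‖f y‖ ≤ 1 := fun y => mem_closedBall_zero_iff.1 (φ _).2
  have f2 : ∀ y, f y - p ≠ 0 := fun y e =>
    (rr_id hG y.2).2 (congrArg Subtype.val (φ.injective (Subtype.ext (sub_eq_zero.1 e))))
  have p1 : ‖p‖ ≤ 1 := mem_closedBall_zero_iff.1 (φ _).2
  rcases p1.lt_or_eq with p1 | p1
  · have hε : 0 < 1 - ‖p‖ := by linarith
    have nb : ∀ e : EuclideanSpace ℝ (Fin m), e ≠ 0 → ‖p + ((1 - ‖p‖) / ‖e‖) • e‖ ≤ 1 := by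
      intro e he
      have := norm_pos_iff.2 he
      refine (norm_add_le _ _).trans ?_
      rw [norm_smul, Real.norm_eq_abs, abs_of_pos (by positivity), div_mul_cancel₀ _ this.ne']
      linarith
    have bc : Continuous fun x : Rl fun A : Set (Fin (m + 1)) => A ≠ univ => be x.1 :=
      (PiLp.continuous_toLp 2 _).comp (continuous_pi fun i =>
        ((continuous_apply _).comp continuous_subtype_val).sub
          ((continuous_apply _).comp continuous_subtype_val))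
    refine via hΦ hG hΦG φ (Ψ := fun A : Set (Fin (m + 1)) => A ≠ univ)
      (fun A B hAB hB e => hB (univ_subset_iff.1 (e ▸ hAB))) empty_ne_univ
      ⟨fun y => ⟨_, al_mem (f2 y)⟩, Continuous.subtype_mk (continuous_pi fun j => ?_) _⟩
      (fun x => p + ((1 - ‖p‖) / ‖be x.1‖) • be x.1) ?_
      (fun x => mem_closedBall_zero_iff.2 (nb _ (be_ne x.2))) (fun x => ?_)
      (fun x => p + ((1 - (x.1 : ℝ)) * ((1 - ‖p‖) / ‖f x.2 - p‖) + x.1) • (f x.2 - p)) ?_
      (fun x => ?_) (fun x => ?_) (fun y => ?_) (fun y => by simp [f]) (ie_bd m q hq)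
    · exact ((al_cont j).comp (fc.sub continuous_const)).div
        (continuous_finsetSum _ fun j _ => (al_cont j).comp (fc.sub continuous_const))
        fun y => (al_pos (f2 y)).ne'
    · exact continuous_const.add ((continuous_const.div bc.norm
        fun x => norm_ne_zero_iff.2 (be_ne x.2)).smul bc)
    · have := norm_pos_iff.2 (be_ne x.2)
      rw [← hp, ne_eq, add_eq_left, smul_eq_zero, not_or]
      exact ⟨by positivity, be_ne x.2⟩
    · have c1 : Continuous fun x : unitInterval × Rl (Cost Φ G) => f x.2 - p :=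
        (fc.comp continuous_snd).sub continuous_const
      refine continuous_const.add (Continuous.smul (Continuous.add (Continuous.mul (by fun_prop)
        (continuous_const.div c1.norm fun x => norm_ne_zero_iff.2 (f2 _))) (by fun_prop)) c1)
    · have := convex_closedBall (0 : EuclideanSpace ℝ (Fin m)) 1
        (mem_closedBall_zero_iff.2 (nb _ (f2 x.2))) (mem_closedBall_zero_iff.2 (f1 x.2))
        (sub_nonneg.2 x.1.2.2) x.1.2.1 (sub_add_cancel _ _)
      have e : (1 - (x.1 : ℝ)) • (p + ((1 - ‖p‖) / ‖f x.2 - p‖) • (f x.2 - p)) + (x.1 : ℝ) • f x.2 =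
          p + ((1 - (x.1 : ℝ)) * ((1 - ‖p‖) / ‖f x.2 - p‖) + x.1) • (f x.2 - p) := by module
      rwa [e] at this
    · have h1 := norm_pos_iff.2 (f2 x.2)
      have h2 : 0 < (1 - ‖p‖) / ‖f x.2 - p‖ := by positivity
      have h3 := x.1.2.1
      have h4 := sub_nonneg.2 x.1.2.2
      rw [← hp, ne_eq, add_eq_left, smul_eq_zero, not_or]
      refine ⟨ne_of_gt ?_, f2 _⟩
      rcases h3.lt_or_eq with h | h
      · positivity
      · rw [← h]
        simpa using h2
    · have h1 := al_pos (f2 y)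
      have h2 := norm_pos_iff.2 (f2 y)
      have e : be (fun j => al (f y - p) j / ∑ j, al (f y - p) j) =
          (∑ j, al (f y - p) j)⁻¹ • (f y - p) := by
        ext i
        simp only [be, ← sub_div, al_sub]
        simp [div_eq_inv_mul]
      simp only [ContinuousMap.coe_mk, e, norm_smul, smul_smul, Set.Icc.coe_zero, sub_zero, one_mul,
        add_zero, Real.norm_eq_abs, abs_of_pos (inv_pos.2 h1)]
      congr 2
      field_simp
  · have m0 : (fun _ => 1 : Unit → ℝ) ∈ Rl fun _ : Set Unit => True := ⟨by simp, by simp, trivial⟩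
    refine via hΦ hG hΦG φ (Ψ := fun _ : Set Unit => True) (fun _ _ _ _ => trivial) trivial
      (ContinuousMap.const _ ⟨_, m0⟩) (fun _ => 0) continuous_const (fun _ => by simp)
      (fun _ e => ?_) (fun x => (x.1 : ℝ) • f x.2) (by fun_prop) (fun x => ?_) (fun x e => ?_)
      (fun y => by simp) (fun y => by simp [f]) (ie_true () q)
    · rw [← hp] at e
      simp [← e] at p1
    · rw [mem_closedBall_zero_iff, norm_smul, Real.norm_eq_abs, abs_of_nonneg x.1.2.1]
      exact mul_le_one₀ x.1.2.2 (norm_nonneg _) (f1 _)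
    · rw [← hp] at e
      have h1 := congrArg norm e
      rw [norm_smul, Real.norm_eq_abs, abs_of_nonneg x.1.2.1, p1] at h1
      have h2 : (x.1 : ℝ) = 1 := by
        have := f1 x.2
        have := x.1.2.1
        have := x.1.2.2
        nlinarith
      rw [h2, one_smul] at e
      exact f2 _ (sub_eq_zero.2 e)

end Pool.Agent.H28.Sub
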