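import Mathlib

namespace Pool.Agent.H28.Sub

open Module

section ses
variable {K : Type} [Field K] {X Y : Type} [AddCommGroup X] [Module K X] [AddCommGroup Y]
  [Module K Y]

def Ex (D : X →ₗ[K] X) (A : ℤ → Submodule K X) (k : ℤ) : Prop :=
  ∀ x ∈ A k, D x = 0 → ∃ y ∈ A (k + 1), D y = x

structure SES (D : X →ₗ[K] X) (E : Y →ₗ[K] Y) (π : X →ₗ[K] Y) (A B : ℤ → Submodule K X)
    (C : ℤ → Submodule K Y) : Prop where
  dA : ∀ k, ∀ x ∈ A (k + 1), D x ∈ A k
  dd : ∀ k, ∀ x ∈ A k, D (D x) = 0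
  hB : ∀ k x, x ∈ B k ↔ x ∈ A k ∧ π x = 0
  mp : ∀ k, ∀ x ∈ A k, π x ∈ C k
  sj : ∀ k, ∀ y ∈ C k, ∃ x ∈ A k, π x = y
  cm : ∀ k, ∀ x ∈ A k, E (π x) = π (D x)

variable {D : X →ₗ[K] X} {E : Y →ₗ[K] Y} {π : X →ₗ[K] Y} {A B : ℤ → Submodule K X}
  {C : ℤ → Submodule K Y}

lemma SES.quot (h : SES D E π A B C) {k : ℤ} (h1 : Ex D A (k + 1)) (h2 : Ex D B k) :
    Ex E C (k + 1) := by
  intro y hy e
  obtain ⟨x, hx, rfl⟩ := h.sj _ y hy
  obtain ⟨b, hb, e2⟩ := h2 (D x) ((h.hB _ _).2 ⟨h.dA _ _ hx, by rw [← h.cm _ _ hx, e]⟩)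
    (h.dd _ _ hx)
  obtain ⟨hb1, hb2⟩ := (h.hB _ _).1 hb
  obtain ⟨w, hw, e3⟩ := h1 (x - b) (sub_mem hx hb1) (by rw [map_sub, e2, sub_self])
  exact ⟨π w, h.mp _ _ hw, by rw [h.cm _ _ hw, e3, map_sub, hb2, sub_zero]⟩

lemma SES.sub (h : SES D E π A B C) {k : ℤ} (h1 : Ex D A k) (h2 : Ex E C (k + 1)) :
    Ex D B k := by
  intro x hx e
  obtain ⟨hx1, hx2⟩ := (h.hB _ _).1 hx
  obtain ⟨y, hy, rfl⟩ := h1 x hx1 e
  obtain ⟨w', hw', e2⟩ := h2 (π y) (h.mp _ _ hy) (by rw [h.cm _ _ hy, hx2])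
  obtain ⟨w, hw, rfl⟩ := h.sj _ w' hw'
  refine ⟨y - D w, (h.hB _ _).2 ⟨sub_mem hy (h.dA _ _ hw), ?_⟩, ?_⟩
  · rw [map_sub, ← h.cm _ _ hw, e2, sub_self]
  · rw [map_sub, h.dd _ _ hw, sub_zero]

lemma SES.mid (h : SES D E π A B C) {k : ℤ} (h1 : Ex D B k) (h2 : Ex E C k) : Ex D A k := by
  intro x hx e
  obtain ⟨w', hw', e2⟩ := h2 (π x) (h.mp _ _ hx) (by rw [h.cm _ _ hx, e, map_zero])
  obtain ⟨w, hw, rfl⟩ := h.sj _ w' hw'
  obtain ⟨b, hb, e3⟩ := h1 (x - D w) ((h.hB _ _).2 ⟨sub_mem hx (h.dA _ _ hw), by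
    rw [map_sub, ← h.cm _ _ hw, e2, sub_self]⟩) (by rw [map_sub, h.dd _ _ hw, e, sub_zero])
  exact ⟨b + w, add_mem ((h.hB _ _).1 hb).1 hw, by rw [map_add, e3, sub_add_cancel]⟩

lemma fr_split [FiniteDimensional K X] (π : X →ₗ[K] Y) (A : Submodule K X) :
    finrank K A = finrank K (A ⊓ LinearMap.ker π : Submodule K X) + finrank K (A.map π) := by
  have := (π.domRestrict A).finrank_range_add_finrank_ker
  rw [LinearMap.range_domRestrict, LinearMap.ker_domRestrict,
    ← Submodule.finrank_map_subtype_eq, Submodule.map_comap_subtype] at this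
  omega

lemma SES.dim [FiniteDimensional K X] (h : SES D E π A B C) (k : ℤ) :
    finrank K (A k) = finrank K (B k) + finrank K (C k) := by
  have e1 : B k = A k ⊓ LinearMap.ker π := by
    ext x
    rw [h.hB]
    rfl
  have e2 : C k = (A k).map π := by
    ext y
    exact ⟨fun hy => h.sj _ _ hy, fun ⟨x, hx, e⟩ => e ▸ h.mp _ _ hx⟩
  rw [e1, e2]
  exact fr_split π _

lemma euler [FiniteDimensional K X] (dA : ∀ k, ∀ x ∈ A (k + 1), D x ∈ A k)
    (dd : ∀ k, ∀ x ∈ A k, D (D x) = 0) (h0 : A (-1) = ⊥) (i : ℕ)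
    (hx : ∀ k : ℤ, k < i → Ex D A k) :
    ∑ k ∈ Finset.range (i + 1), (-1 : ℤ) ^ (i - k) * (finrank K (A k) : ℤ) =
      finrank K (A i ⊓ LinearMap.ker D : Submodule K X) := by
  have key : ∀ k : ℤ, Ex D A k → finrank K (A (k + 1)) =
      finrank K (A (k + 1) ⊓ LinearMap.ker D : Submodule K X) +
        finrank K (A k ⊓ LinearMap.ker D : Submodule K X) := by
    intro k hk
    have : (A (k + 1)).map D = A k ⊓ LinearMap.ker D := by
      ext y
      exact ⟨fun ⟨x, hx, e⟩ => e ▸ ⟨dA _ _ hx, dd _ _ hx⟩, fun hy => hk y hy.1 hy.2⟩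
    rw [← this]
    exact fr_split D _
  induction i with
  | zero =>
    have := key (-1) (hx _ (by simp))
    rw [h0, bot_inf_eq, finrank_bot] at this
    simpa using this
  | succ i ih =>
    have h1 := key i (hx _ (by simp))
    have h2 := ih fun k hk => hx k (by push_cast; omega)
    rw [Finset.sum_range_succ]
    have : ∑ k ∈ Finset.range (i + 1), (-1 : ℤ) ^ (i + 1 - k) * (finrank K (A k) : ℤ) =
        - ∑ k ∈ Finset.range (i + 1), (-1 : ℤ) ^ (i - k) * (finrank K (A k) : ℤ) := by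
      rw [← Finset.sum_neg_distrib]
      refine Finset.sum_congr rfl fun k hk => ?_
      have := Finset.mem_range.1 hk
      rw [show i + 1 - k = i - k + 1 by omega, pow_succ]
      ring
    rw [this, h2]
    push_cast
    rw [h1]
    push_cast
    simp

end ses

section ops
variable (K : Type) [Field K] {V : Type} [DecidableEq V] {Y : Type} [AddCommGroup Y] [Module K Y]

def Dn (j : V) : End K (Finset V → Y) where
  toFun c T := if j ∈ T then 0 else c (insert j T)
  map_add' x y := by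
    funext T
    simp only [Pi.add_apply]
    split_ifs <;> simp
  map_smul' a x := by
    funext T
    simp only [Pi.smul_apply]
    split_ifs <;> simp

def Up (j : V) : End K (Finset V → Y) where
  toFun c T := if j ∈ T then c (T.erase j) else 0
  map_add' x y := by
    funext T
    simp only [Pi.add_apply]
    split_ifs <;> simp
  map_smul' a x := by
    funext T
    simp only [Pi.smul_apply]
    split_ifs <;> simp

lemma dn_apply (j : V) (c : Finset V → Y) (T : Finset V) :
    Dn K j c T = if j ∈ T then 0 else c (insert j T) := rfl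

lemma up_apply (j : V) (c : Finset V → Y) (T : Finset V) :
    Up K j c T = if j ∈ T then c (T.erase j) else 0 := rfl

lemma dn_dn (i j : V) : (Dn K i * Dn K j : End K (Finset V → Y)) = Dn K j * Dn K i := by
  ext1 c
  funext T
  simp only [End.mul_apply, dn_apply, Finset.mem_insert, Finset.insert_comm i j]
  by_cases h1 : i ∈ T <;> by_cases h2 : j ∈ T <;> by_cases h3 : i = j <;> simp [h1, h2, h3, eq_comm]

lemma dn_sq (i : V) : (Dn K i * Dn K i : End K (Finset V → Y)) = 0 := by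
  ext1 c
  funext T
  simp [dn_apply]

lemma dn_up {i j : V} (h : i ≠ j) : (Dn K i * Up K j : End K (Finset V → Y)) = Up K j * Dn K i := by
  ext1 c
  funext T
  simp only [End.mul_apply, dn_apply, up_apply, Finset.mem_insert, Finset.mem_erase,
    Finset.erase_insert_of_ne h]
  by_cases h1 : i ∈ T <;> by_cases h2 : j ∈ T <;> simp [h1, h2, h, h.symm]

lemma dn_up_self (i : V) : (Dn K i * Up K i + Up K i * Dn K i : End K (Finset V → Y)) = 1 := by
  ext1 c
  funext T
  simp only [LinearMap.add_apply, End.mul_apply, dn_apply, up_apply, Pi.add_apply, End.one_apply]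
  by_cases h1 : i ∈ T
  · simp [h1, Finset.insert_erase h1]
  · simp [h1, Finset.erase_insert h1]

variable {K}

lemma add_self [CharP K 2] (y : Y) : y + y = 0 := by
  rw [← two_smul K y, CharTwo.two_eq_zero, zero_smul]

lemma sub_eq [CharP K 2] (x y : Y) : x - y = x + y := by
  rw [sub_eq_add_neg, neg_eq_of_add_eq_zero_left (add_self (K := K) y)]

variable [Fintype V]

def con (φ : V → K) : End K (Finset V → Y) := ∑ j, φ j • Dn K j

def mul (a : V → K) : End K (Finset V → Y) := ∑ j, a j • Up K j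

lemma con_apply (φ : V → K) (c : Finset V → Y) (T : Finset V) :
    con φ c T = ∑ j, φ j • if j ∈ T then 0 else c (insert j T) := by
  simp [con, LinearMap.sum_apply, Finset.sum_apply, dn_apply]

lemma mul_apply (a : V → K) (c : Finset V → Y) (T : Finset V) :
    mul a c T = ∑ j, a j • if j ∈ T then c (T.erase j) else 0 := by
  simp [mul, LinearMap.sum_apply, Finset.sum_apply, up_apply]

lemma con_con (φ ψ : V → K) : (con φ * con ψ : End K (Finset V → Y)) = con ψ * con φ := by
  simp only [con, Finset.sum_mul_sum, smul_mul_smul_comm]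
  rw [Finset.sum_comm]
  refine Finset.sum_congr rfl fun i _ => Finset.sum_congr rfl fun j _ => ?_
  rw [dn_dn, mul_comm]

lemma con_sq [CharP K 2] (φ : V → K) : (con φ * con φ : End K (Finset V → Y)) = 0 := by
  simp only [con, Finset.sum_mul_sum, smul_mul_smul_comm]
  rw [← Finset.sum_product']
  refine Finset.sum_involution (fun p _ => p.swap) (fun p _ => ?_) (fun p _ h e => h ?_)
    (fun p _ => by simp) (fun p _ => rfl)
  · simp only [Prod.fst_swap, Prod.snd_swap]
    rw [dn_dn K p.2, mul_comm (φ p.2), add_self (K := K)]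
  · have : p.2 = p.1 := congrArg Prod.fst e
    rw [this, dn_sq, smul_zero]

lemma con_mul [CharP K 2] (φ a : V → K) :
    (con φ * mul a + mul a * con φ : End K (Finset V → Y)) = (∑ j, φ j * a j) • 1 := by
  simp only [con, mul, Finset.sum_mul_sum, smul_mul_smul_comm]
  rw [Finset.sum_comm (f := fun i j => (a i * φ j) • (Up K i * Dn K j)), ← Finset.sum_add_distrib,
    Finset.sum_smul]
  refine Finset.sum_congr rfl fun i _ => ?_
  rw [← Finset.sum_add_distrib, Finset.sum_eq_single i]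
  · rw [mul_comm (a i), ← smul_add, dn_up_self]
  · intro j _ h
    rw [dn_up K h.symm, mul_comm (a j), add_self (K := K)]
  · simp

lemma con_mul_apply [CharP K 2] (φ a : V → K) (c : Finset V → Y) :
    con φ (mul a c) = (∑ j, φ j * a j) • c + mul a (con φ c) := by
  have := LinearMap.congr_fun (con_mul (Y := Y) φ a) c
  simp only [LinearMap.add_apply, End.mul_apply, LinearMap.smul_apply, End.one_apply] at this
  rw [← this, add_assoc, add_self (K := K), add_zero]

lemma con_up [CharP K 2] (v : V) (c : Finset V → Y) :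
    con (1 : V → K) (Up K v c) = c + Up K v (con (1 : V → K) c) := by
  have e : (mul (Pi.single v 1 : V → K) : End K (Finset V → Y)) = Up K v := by
    simp [mul, Pi.single_apply]
  have := con_mul_apply (1 : V → K) (Pi.single v 1) c
  rw [e] at this
  simpa [Pi.single_apply] using this

lemma con_ne {φ : V → K} {c : Finset V → Y} {T : Finset V} (h : con φ c T ≠ 0) :
    ∃ j ∉ T, c (insert j T) ≠ 0 := by
  rw [con_apply] at h
  obtain ⟨j, -, hj⟩ := Finset.exists_ne_zero_of_sum_ne_zero h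
  by_cases e : j ∈ T
  · simp [e] at hj
  · exact ⟨j, e, fun h0 => by simp [h0] at hj⟩

lemma mul_ne {a : V → K} {c : Finset V → Y} {T : Finset V} (h : mul a c T ≠ 0) :
    ∃ j ∈ T, a j ≠ 0 ∧ c (T.erase j) ≠ 0 := by
  rw [mul_apply] at h
  obtain ⟨j, -, hj⟩ := Finset.exists_ne_zero_of_sum_ne_zero h
  by_cases e : j ∈ T
  · exact ⟨j, e, fun h0 => by simp [h0] at hj, fun h0 => by simp [h0] at hj⟩
  · simp [e] at hj

end ops

end Pool.Agent.H28.Sub
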