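import Pool.Agent.H28.Sub3

namespace Pool.Agent.H28.Sub

open Module Classical

variable {K : Type} [Field K] {V : Type} [Fintype V] [DecidableEq V] {Y : Type} [AddCommGroup Y]
  [Module K Y]

def Cvx (A : Finset V → Prop) : Prop := ∀ G H J, G ⊆ H → H ⊆ J → A G → A J → A H

variable (K) in
noncomputable def prj (A : Finset V → Prop) : End K (Finset V → Y) where
  toFun c T := if A T then c T else 0
  map_add' x y := by
    funext T
    simp only [Pi.add_apply]
    split_ifs <;> simp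
  map_smul' a x := by
    funext T
    simp only [Pi.smul_apply]
    split_ifs <;> simp

variable (K) in
noncomputable def bd (A : Finset V → Prop) : End K (Finset V → Y) := prj K A * con (1 : V → K)

omit [Fintype V] [DecidableEq V] in
lemma prj_apply (A : Finset V → Prop) (c : Finset V → Y) (T : Finset V) :
    prj K A c T = if A T then c T else 0 := rfl

lemma bd_apply (A : Finset V → Prop) (c : Finset V → Y) (T : Finset V) :
    bd K A c T = if A T then con (1 : V → K) c T else 0 := rfl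

def CS (A : Finset V → Prop) (F : Finset V → Submodule K Y) (k : ℤ) :
    Submodule K (Finset V → Y) where
  carrier := {x | ∀ G, x G ∈ F G ∧ (x G ≠ 0 → A G ∧ (G.card : ℤ) = k)}
  add_mem' := by
    intro x y hx hy G
    refine ⟨add_mem (hx G).1 (hy G).1, fun h => ?_⟩
    by_cases e : x G = 0
    · exact (hy G).2 fun e2 => h (by simp [e, e2])
    · exact (hx G).2 e
  zero_mem' := fun G => ⟨zero_mem _, fun h => (h rfl).elim⟩
  smul_mem' := fun a x hx G => ⟨Submodule.smul_mem _ _ (hx G).1,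
    fun h => (hx G).2 fun e => h (by simp [e])⟩

omit [Fintype V] [DecidableEq V] in
lemma mem_cs {A : Finset V → Prop} {F : Finset V → Submodule K Y} {k : ℤ} {x : Finset V → Y} :
    x ∈ CS A F k ↔ ∀ G, x G ∈ F G ∧ (x G ≠ 0 → A G ∧ (G.card : ℤ) = k) := Iff.rfl

omit [Fintype V] [DecidableEq V] in
lemma cs_neg (A : Finset V → Prop) (F : Finset V → Submodule K Y) {k : ℤ} (hk : k < 0) :
    CS A F k = ⊥ := by
  refine (Submodule.eq_bot_iff _).2 fun x hx => funext fun G => ?_
  by_contra h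
  have := ((hx G).2 h).2
  omega

lemma con_congr {φ : V → K} {x y : Finset V → Y} {T : Finset V}
    (h : ∀ j ∉ T, x (insert j T) = y (insert j T)) : con φ x T = con φ y T := by
  rw [con_apply, con_apply]
  refine Finset.sum_congr rfl fun j _ => ?_
  split_ifs with e
  · rfl
  · rw [h j e]

lemma bd_mem {A : Finset V → Prop} {F : Finset V → Submodule K Y} (hF : Antitone F) (k : ℤ)
    (x : Finset V → Y) (hx : x ∈ CS A F (k + 1)) : bd K A x ∈ CS A F k := by
  intro G
  rw [bd_apply]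
  split_ifs with h
  · refine ⟨?_, fun e => ⟨h, ?_⟩⟩
    · rw [con_apply]
      refine Submodule.sum_mem _ fun j _ => Submodule.smul_mem _ _ ?_
      split_ifs
      · exact zero_mem _
      · exact hF (Finset.subset_insert j G) (hx _).1
    · obtain ⟨j, hj, e2⟩ := con_ne e
      have := ((hx _).2 e2).2
      rw [Finset.card_insert_of_notMem hj] at this
      push_cast at this
      omega
  · exact ⟨zero_mem _, fun e => (e rfl).elim⟩

lemma bd_bd [CharP K 2] {A : Finset V → Prop} (hA : Cvx A) {F : Finset V → Submodule K Y} (k : ℤ)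
    (x : Finset V → Y) (hx : x ∈ CS A F k) : bd K A (bd K A x) = 0 := by
  funext G
  rw [bd_apply]
  split_ifs with h
  · have : con (1 : V → K) (bd K A x) G = con (1 : V → K) (con (1 : V → K) x) G := by
      refine con_congr fun j _ => ?_
      rw [bd_apply]
      split_ifs with h2
      · rfl
      · by_contra e
        obtain ⟨i, -, e2⟩ := con_ne (Ne.symm e)
        exact h2 (hA _ _ _ (Finset.subset_insert _ _) (Finset.subset_insert _ _) h ((hx _).2 e2).1)
    rw [this, ← End.mul_apply, con_sq]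
    rfl
  · rfl

variable (K) in
def FEx (A : Finset V → Prop) (k : ℤ) : Prop :=
  Ex (bd K A : End K (Finset V → K)) (CS A fun _ => ⊤) k

lemma fex_neg (A : Finset V → Prop) {k : ℤ} (hk : k < 0) : FEx K A k := by
  intro x hx _
  rw [cs_neg _ _ hk, Submodule.mem_bot] at hx
  exact ⟨0, zero_mem _, by simp [hx]⟩

lemma fex_empty {A : Finset V → Prop} (h : ∀ G, ¬ A G) (k : ℤ) : FEx K A k := by
  intro x hx _
  refine ⟨0, zero_mem _, funext fun G => ?_⟩
  by_contra e
  rw [map_zero] at e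
  exact h G ((hx G).2 (Ne.symm e)).1

lemma fam_ses [CharP K 2] {A B C : Finset V → Prop} (hA : Cvx A) (h1 : ∀ G, B G ↔ A G ∧ ¬ C G)
    (h2 : ∀ G, C G → A G) (h3 : ∀ G H, G ⊆ H → C G → A H → C H) :
    SES (bd K A : End K (Finset V → K)) (bd K C) (prj K C) (CS A fun _ => ⊤) (CS B fun _ => ⊤)
      (CS C fun _ => ⊤) where
  dA := bd_mem antitone_const
  dd := bd_bd hA
  hB k x := by
    constructor
    · intro hx
      refine ⟨fun G => ⟨trivial, fun e => ⟨((h1 G).1 ((hx G).2 e).1).1, ((hx G).2 e).2⟩⟩,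
        funext fun G => ?_⟩
      rw [prj_apply]
      split_ifs with h
      · by_contra e
        exact ((h1 G).1 ((hx G).2 e).1).2 h
      · rfl
    · intro ⟨hx, e0⟩ G
      refine ⟨trivial, fun e => ⟨(h1 G).2 ⟨((hx G).2 e).1, fun h => e ?_⟩, ((hx G).2 e).2⟩⟩
      have := congrFun e0 G
      rwa [prj_apply, if_pos h] at this
  mp k x hx G := by
    rw [prj_apply]
    split_ifs with h
    · exact ⟨trivial, fun e => ⟨h, ((hx G).2 e).2⟩⟩
    · exact ⟨trivial, fun e => (e rfl).elim⟩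
  sj k y hy := by
    refine ⟨y, fun G => ⟨trivial, fun e => ⟨h2 _ ((hy G).2 e).1, ((hy G).2 e).2⟩⟩,
      funext fun G => ?_⟩
    rw [prj_apply]
    split_ifs with h
    · rfl
    · by_contra e
      exact h ((hy G).2 (Ne.symm e)).1
  cm k x hx := by
    funext G
    rw [bd_apply, prj_apply, bd_apply]
    by_cases h : C G
    · rw [if_pos h, if_pos h, if_pos (h2 _ h)]
      refine con_congr fun j _ => ?_
      rw [prj_apply]
      split_ifs with h4
      · rfl
      · by_contra e
        exact h4 (h3 _ _ (Finset.subset_insert _ _) h ((hx _).2 (Ne.symm e)).1)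
    · rw [if_neg h, if_neg h]

lemma fam_low {A B C : Finset V → Prop} (h1 : ∀ G, B G ↔ A G ∧ ¬ C G)
    (h3 : ∀ G H, G ⊆ H → C G → A H → C H) (k : ℤ) :
    Ex (bd K A : End K (Finset V → K)) (CS B fun _ => ⊤) k ↔ FEx K B k := by
  have key : ∀ k, ∀ x ∈ (CS B (fun _ => ⊤) k : Submodule K (Finset V → K)),
      bd K A x = bd K B x := by
    intro k x hx
    funext G
    rw [bd_apply, bd_apply]
    by_cases h : B G
    · rw [if_pos h, if_pos ((h1 G).1 h).1]
    · rw [if_neg h]
      split_ifs with h4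
      · by_contra e
        obtain ⟨j, -, e2⟩ := con_ne e
        have h5 := (h1 _).1 ((hx _).2 e2).1
        refine h ((h1 G).2 ⟨h4, fun h6 => h5.2 (h3 _ _ (Finset.subset_insert _ _) h6 h5.1)⟩)
      · rfl
  constructor
  · intro h x hx e
    obtain ⟨y, hy, e2⟩ := h x hx (by rw [key _ _ hx, e])
    exact ⟨y, hy, by rw [← key _ _ hy, e2]⟩
  · intro h x hx e
    obtain ⟨y, hy, e2⟩ := h x hx (by rw [← key _ _ hx, e])
    exact ⟨y, hy, by rw [key _ _ hy, e2]⟩

lemma fex_up [CharP K 2] {A B C : Finset V → Prop} (hA : Cvx A) (h1 : ∀ G, B G ↔ A G ∧ ¬ C G)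
    (h2 : ∀ G, C G → A G) (h3 : ∀ G H, G ⊆ H → C G → A H → C H) {k : ℤ} (e1 : FEx K A k)
    (e2 : FEx K B (k - 1)) : FEx K C k := by
  obtain ⟨k, rfl⟩ : ∃ j, k = j + 1 := ⟨k - 1, by ring⟩
  rw [add_sub_cancel_right] at e2
  exact (fam_ses hA h1 h2 h3).quot e1 ((fam_low h1 h3 k).2 e2)

lemma fex_low [CharP K 2] {A B C : Finset V → Prop} (hA : Cvx A) (h1 : ∀ G, B G ↔ A G ∧ ¬ C G)
    (h2 : ∀ G, C G → A G) (h3 : ∀ G H, G ⊆ H → C G → A H → C H) {k : ℤ} (e1 : FEx K A k)
    (e2 : FEx K C (k + 1)) : FEx K B k :=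
  (fam_low h1 h3 k).1 ((fam_ses hA h1 h2 h3).sub e1 e2)

lemma fex_trunc {A : Finset V → Prop} {k : ℤ} {d : ℕ} (hk : k < d) (e1 : FEx K A k) :
    FEx K (fun G => A G ∧ G.card ≤ d) k := by
  have h := fam_low (K := K) (A := A) (B := fun G => A G ∧ G.card ≤ d) (C := fun G => d < G.card)
    (fun G => by simp) (fun G H h h2 _ => h2.trans_le (Finset.card_le_card h)) k
  refine h.1 fun x hx e => ?_
  obtain ⟨y, hy, e2⟩ := e1 x (fun G => ⟨trivial, fun e => ⟨((hx G).2 e).1.1, ((hx G).2 e).2⟩⟩) e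
  refine ⟨y, fun G => ⟨trivial, fun e => ⟨⟨((hy G).2 e).1, ?_⟩, ((hy G).2 e).2⟩⟩, e2⟩
  have := ((hy G).2 e).2
  omega

end Pool.Agent.H28.Sub
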