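import Pool.Agent.H28.Sub4

namespace Pool.Agent.H28.Sub

open Module Classical

variable {K : Type} [Field K] {V : Type} [Fintype V] [DecidableEq V]

def FF (u : ℕ → V → K) (t : ℕ) (r : ℤ) (G : Finset V) : Submodule K (Finset V → K) :=
  CS (Disjoint G) (fun _ => ⊤) r ⊓ ⨅ s : Fin t, LinearMap.ker (con (u s))

lemma mem_ff {u : ℕ → V → K} {t : ℕ} {r : ℤ} {G : Finset V} {x : Finset V → K} :
    x ∈ FF u t r G ↔ (∀ T, x T ≠ 0 → Disjoint G T ∧ (T.card : ℤ) = r) ∧
      ∀ s < t, con (u s) x = 0 := by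
  simp only [FF, Submodule.mem_inf, mem_cs, Submodule.mem_top, true_and, Submodule.mem_iInf,
    LinearMap.mem_ker]
  exact and_congr_right fun _ => ⟨fun h s hs => h ⟨s, hs⟩, fun h s => h s s.2⟩

lemma ff_anti (u : ℕ → V → K) (t : ℕ) (r : ℤ) : Antitone (FF u t r) := by
  intro G H h x hx
  rw [mem_ff] at *
  exact ⟨fun T e => ⟨(hx.1 T e).1.mono_left h, (hx.1 T e).2⟩, hx.2⟩

def Gen (u : ℕ → V → K) (t : ℕ) (G : Finset V) : Prop :=
  ∃ a : V → K, (∀ v ∈ G, a v = 0) ∧ (∀ s < t, ∑ v, u s v * a v = 0) ∧ ∑ v, u t v * a v = 1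

lemma sh_ses [CharP K 2] {A : Finset V → Prop} (hA : Cvx A) {u : ℕ → V → K} {t : ℕ}
    (hg : ∀ G, A G → Gen u t G) (r : ℤ) :
    SES (bd K A) (bd K A) (LinearMap.compLeft (con (u t)) (Finset V)) (CS A (FF u t (r + 1)))
      (CS A (FF u (t + 1) (r + 1))) (CS A (FF u (t + 1) r)) where
  dA := bd_mem (ff_anti _ _ _)
  dd := bd_bd hA
  hB k x := by
    constructor
    · intro hx
      refine ⟨fun G => ⟨?_, (hx G).2⟩, funext fun G => (mem_ff.1 (hx G).1).2 t (by omega)⟩
      have := mem_ff.1 (hx G).1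
      exact mem_ff.2 ⟨this.1, fun s hs => this.2 s (by omega)⟩
    · intro ⟨hx, e0⟩ G
      have := mem_ff.1 (hx G).1
      refine ⟨mem_ff.2 ⟨this.1, fun s hs => ?_⟩, (hx G).2⟩
      rcases Nat.lt_succ_iff_lt_or_eq.1 hs with h | rfl
      · exact this.2 s h
      · exact congrFun e0 G
  mp k x hx G := by
    have h := mem_ff.1 (hx G).1
    show con (u t) (x G) ∈ _ ∧ (con (u t) (x G) ≠ 0 → _)
    refine ⟨mem_ff.2 ⟨fun T e => ?_, fun s hs => ?_⟩, fun e => (hx G).2 fun e2 => e ?_⟩
    · obtain ⟨j, hj, e2⟩ := con_ne e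
      have := h.1 _ e2
      rw [Finset.card_insert_of_notMem hj] at this
      push_cast at this
      exact ⟨this.1.mono_right (Finset.subset_insert _ _), by omega⟩
    · rcases Nat.lt_succ_iff_lt_or_eq.1 hs with h2 | rfl
      · rw [← End.mul_apply, con_con, End.mul_apply, h.2 s h2, map_zero]
      · rw [← End.mul_apply, con_sq]
        rfl
    · rw [e2, map_zero]
  sj k y hy := by
    choose! a a1 a2 a3 using hg
    refine ⟨fun G => mul (a G) (y G), fun G => ?_, funext fun G => ?_⟩
    · by_cases e : y G = 0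
      · simp [e]
      have hG := ((hy G).2 e).1
      have h := mem_ff.1 (hy G).1
      refine ⟨mem_ff.2 ⟨fun T e => ?_, fun s hs => ?_⟩, fun _ => (hy G).2 e⟩
      · obtain ⟨j, hj, e1, e2⟩ := mul_ne e
        have := h.1 _ e2
        rw [← Finset.insert_erase hj, Finset.card_insert_of_notMem (Finset.notMem_erase _ _)]
        push_cast
        exact ⟨Finset.disjoint_insert_right.2 ⟨fun e3 => e1 (a1 G hG j e3), this.1⟩, by omega⟩
      · rw [con_mul_apply, a2 G hG s hs, h.2 s (by omega)]
        simp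
    · show con (u t) (mul (a G) (y G)) = y G
      by_cases e : y G = 0
      · simp [e]
      rw [con_mul_apply, a3 G ((hy G).2 e).1, (mem_ff.1 (hy G).1).2 t (by omega)]
      simp
  cm k x hx := by
    funext G
    show bd K A (fun G => con (u t) (x G)) G = con (u t) (bd K A x G)
    rw [bd_apply, bd_apply]
    split_ifs
    · rw [con_apply, con_apply, map_sum]
      refine Finset.sum_congr rfl fun j _ => ?_
      split_ifs <;> simp
    · simp

lemma bd_slice (A : Finset V → Prop) (T : Finset V) (x : Finset V → Finset V → K)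
    (hx : ∀ G, x G T ≠ 0 → Disjoint G T) (G : Finset V) :
    bd K A x G T = bd K (fun G => A G ∧ Disjoint G T) (fun G => x G T) G := by
  have e : con (1 : V → K) x G T = con (1 : V → K) (fun G => x G T) G := by
    rw [con_apply, con_apply, Finset.sum_apply]
    refine Finset.sum_congr rfl fun j _ => ?_
    split_ifs <;> simp
  rw [bd_apply, bd_apply]
  by_cases h : A G
  · rw [if_pos h, e]
    split_ifs with h2
    · rfl
    · by_contra e2
      obtain ⟨j, -, e3⟩ := con_ne e2
      exact h2 ⟨h, (hx _ e3).mono_left (Finset.subset_insert _ _)⟩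
  · rw [if_neg h, if_neg fun h2 => h h2.1]
    rfl

lemma ex_zero (A : Finset V → Prop) (u : ℕ → V → K) (r k : ℤ) :
    Ex (bd K A) (CS A (FF u 0 r)) k ↔
      ∀ T : Finset V, (T.card : ℤ) = r → FEx K (fun G => A G ∧ Disjoint G T) k := by
  constructor
  · intro h T hT x hx e
    have m : (fun G => Pi.single T (x G) : Finset V → Finset V → K) ∈ CS A (FF u 0 r) k := by
      intro G
      by_cases e2 : x G = 0
      · simp [e2]
      have := (hx G).2 e2
      refine ⟨mem_ff.2 ⟨fun T' e3 => ?_, by simp⟩, fun _ => ⟨this.1.1, this.2⟩⟩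
      obtain rfl : T' = T := by
        by_contra e4
        simp [e4] at e3
      exact ⟨this.1.2, hT⟩
    obtain ⟨y, hy, e2⟩ := h _ m (by
      funext G T'
      rw [bd_slice _ _ _ fun G e => ((mem_ff.1 (m G).1).1 _ e).1]
      by_cases e3 : T' = T
      · subst e3
        simpa using congrFun e G
      · simp only [Pi.single_eq_of_ne e3]
        exact congrFun (map_zero (bd K _)) G)
    refine ⟨fun G => y G T, fun G => ⟨trivial, fun e3 => ?_⟩, funext fun G => ?_⟩
    · have := (hy G).2 fun e4 => e3 (by simp [e4])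
      exact ⟨⟨this.1, ((mem_ff.1 (hy G).1).1 _ e3).1⟩, this.2⟩
    · rw [← bd_slice _ _ _ fun G e => ((mem_ff.1 (hy G).1).1 _ e).1, e2]
      simp
  · intro h x hx e
    have key : ∀ T : Finset V, ∃ y ∈ (CS (fun G => A G ∧ Disjoint G T) (fun _ => ⊤) (k + 1) :
        Submodule K (Finset V → K)), (∀ G, y G ≠ 0 → (T.card : ℤ) = r) ∧
        bd K (fun G => A G ∧ Disjoint G T) y = fun G => x G T := by
      intro T
      by_cases hT : (T.card : ℤ) = r
      · obtain ⟨y, hy, e2⟩ := h T hT (fun G => x G T) (fun G => ⟨trivial, fun e3 => by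
          have := (hx G).2 fun e4 => e3 (by simp [e4])
          exact ⟨⟨this.1, ((mem_ff.1 (hx G).1).1 _ e3).1⟩, this.2⟩⟩)
          (funext fun G => by
            rw [← bd_slice _ _ _ fun G e => ((mem_ff.1 (hx G).1).1 _ e).1, e]
            rfl)
        exact ⟨y, hy, fun _ _ => hT, e2⟩
      · refine ⟨0, zero_mem _, fun _ h => (h rfl).elim, funext fun G => ?_⟩
        by_contra e2
        rw [map_zero] at e2
        exact hT ((mem_ff.1 (hx G).1).1 _ (Ne.symm e2)).2
    choose y y1 y2 y3 using key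
    refine ⟨fun G T => y T G, fun G => ⟨mem_ff.2 ⟨fun T e2 => ⟨((y1 T G).2 e2).1.2, y2 T G e2⟩,
      by simp⟩, fun e2 => ?_⟩, ?_⟩
    · obtain ⟨T, e3⟩ := Function.ne_iff.1 e2
      exact ⟨((y1 T G).2 e3).1.1, ((y1 T G).2 e3).2⟩
    · funext G T
      rw [bd_slice _ _ _ fun G e => ((y1 T G).2 e).1.2]
      exact congrFun (y3 T) G

lemma dim_zero (A : Finset V → Prop) (u : ℕ → V → K) (r k : ℕ) :
    finrank K (CS A (FF u 0 r) k) =
      (Finset.univ.filter fun G => A G ∧ G.card = k).card * (Fintype.card V - k).choose r := by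
  let P : Finset V × Finset V → Prop := fun p =>
    (A p.1 ∧ p.1.card = k) ∧ Disjoint p.1 p.2 ∧ p.2.card = r
  let e : CS A (FF u 0 r) k ≃ₗ[K] ({p // P p} → K) :=
    { toFun := fun x p => x.1 p.1.1 p.1.2
      map_add' := fun _ _ => rfl
      map_smul' := fun _ _ => rfl
      invFun := fun y => ⟨fun G T => if h : P (G, T) then y ⟨_, h⟩ else 0, fun G =>
        ⟨mem_ff.2 ⟨fun T e => by
          by_cases h : P (G, T)
          · exact ⟨h.2.1, by exact_mod_cast h.2.2⟩
          · simp [h] at e, by simp⟩, fun e => by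
          obtain ⟨T, e3⟩ := Function.ne_iff.1 e
          by_cases h : P (G, T)
          · exact ⟨h.1.1, by exact_mod_cast h.1.2⟩
          · simp [h] at e3⟩⟩
      left_inv := fun x => by
        ext G T
        by_cases h : P (G, T)
        · simp [h]
        · simp only [h, dite_false]
          by_contra e
          have h1 := (x.2 G).2 fun e4 => e (by simp [e4])
          have h2 := (mem_ff.1 (x.2 G).1).1 T (Ne.symm e)
          exact h ⟨⟨h1.1, by exact_mod_cast h1.2⟩, h2.1, by exact_mod_cast h2.2⟩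
      right_inv := fun y => by
        funext p
        exact dif_pos p.2 }
  rw [e.finrank_eq, finrank_fintype_fun_eq_card, Fintype.card_subtype, Finset.card_filter,
    Fintype.sum_prod_type, Finset.card_filter, Finset.sum_mul]
  refine Finset.sum_congr rfl fun G _ => ?_
  by_cases h : A G ∧ G.card = k
  · rw [if_pos h, one_mul, ← Finset.card_filter,
      show Fintype.card V - k = Gᶜ.card by rw [Finset.card_compl, h.2],
      ← Finset.card_powersetCard]
    congr 1
    ext T
    simp only [P, h, Finset.mem_filter, Finset.mem_univ, true_and, Finset.mem_powersetCard,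
      Finset.subset_compl_iff_disjoint_left]
  · simp [P, h]

end Pool.Agent.H28.Sub
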