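import Pool.Agent.H28.Sub5

namespace Pool.Agent.H28.Sub

open Module Classical

variable {K : Type} [Field K] {V : Type} [Fintype V] [DecidableEq V]

lemma gen_pow {τ : V → K} (hτ : Function.Injective τ) {t : ℕ} {G : Finset V}
    (h : G.card + t + 1 ≤ Fintype.card V) : Gen (fun s v => τ v ^ s) t G := by
  obtain ⟨P, hP, hc⟩ := Finset.exists_subset_card_eq (s := Gᶜ) (n := t + 1)
    (by rw [Finset.card_compl]; omega)
  have key : ∀ s ≤ t, ∑ v, τ v ^ s * (if v ∈ P then (∏ j ∈ P.erase v, (τ v - τ j))⁻¹ else 0) =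
      if t = s then 1 else 0 := by
    intro s hs
    have := Lagrange.coeff_eq_sum (s := P) (v := τ) hτ.injOn (P := Polynomial.X ^ s)
      (by rw [Polynomial.degree_X_pow, hc]; exact_mod_cast Nat.lt_succ_of_le hs)
    rw [hc, Nat.add_sub_cancel, Polynomial.coeff_X_pow] at this
    rw [this]
    simp [Finset.sum_ite_mem, div_eq_mul_inv]
  refine ⟨fun v => if v ∈ P then (∏ j ∈ P.erase v, (τ v - τ j))⁻¹ else 0, fun v hv => ?_,
    fun s hs => ?_, ?_⟩
  · exact if_neg fun e => Finset.mem_compl.1 (hP e) hv
  · rw [key s hs.le, if_neg hs.ne']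
  · rw [key t le_rfl, if_pos rfl]

omit [Fintype V] in
lemma ff_neg' (A : Finset V → Prop) {F : Finset V → Submodule K (Finset V → K)} (h : ∀ G, F G = ⊥)
    (k : ℤ) : CS A F k = ⊥ := by
  refine (Submodule.eq_bot_iff _).2 fun x hx => funext fun G => ?_
  have := (hx G).1
  rwa [h G, Submodule.mem_bot] at this

lemma ff_neg (A : Finset V → Prop) (u : ℕ → V → K) (t : ℕ) {r : ℤ} (hr : r < 0) (k : ℤ) :
    CS A (FF u t r) k = ⊥ :=
  ff_neg' A (fun G => by rw [FF, cs_neg _ _ hr, bot_inf_eq]) k

lemma ex_bot {X : Type} [AddCommGroup X] [Module K X] {D : X →ₗ[K] X} {A : ℤ → Submodule K X}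
    {k : ℤ} (h : A k ⊓ LinearMap.ker D = ⊥) : Ex D A k := by
  intro x hx e
  have : x ∈ A k ⊓ LinearMap.ker D := ⟨hx, e⟩
  rw [h, Submodule.mem_bot] at this
  exact ⟨0, zero_mem _, by simp [this]⟩

theorem alg_main [CharP K 2] [Infinite K] {A : Finset V → Prop} (hA : Cvx A) (d i : ℕ)
    (hd : ∀ G, A G → G.card ≤ d) (hn : d ≤ Fintype.card V) (hi : i ≤ d)
    (H1 : ∀ (T : Finset V) (k : ℤ), k + T.card < d → FEx K (fun G => A G ∧ Disjoint G T) k)
    (T0 : Finset V) (H2 : ¬ FEx K (fun G => A G ∧ Disjoint G T0) i) :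
    0 < ∑ k ∈ Finset.range (i + 1), (-1 : ℤ) ^ (i - k) * ((d - k).choose (i - k) : ℕ) *
      ((Finset.univ.filter fun G => A G ∧ G.card = k).card : ℤ) := by
  obtain ⟨e, he⟩ := Nat.exists_eq_add_of_le hn
  obtain ⟨τ, hτ⟩ : ∃ τ : V → K, Function.Injective τ :=
    ⟨_, (Infinite.natEmbedding K).injective.comp
      (Fin.val_injective.comp (Fintype.equivFin V).injective)⟩
  set u : ℕ → V → K := fun s v => τ v ^ s
  have S := fun t (ht : t < e) => sh_ses hA (u := u) (t := t)
    fun G hG => gen_pow hτ (by have := hd G hG; omega)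
  have P1 : ∀ t ≤ e, ∀ r k : ℤ, k + r < d → Ex (bd K A) (CS A (FF u t r)) k := by
    intro t
    induction t with
    | zero => exact fun _ r k h => (ex_zero A u r k).2 fun T hT => H1 T k (by omega)
    | succ t ih =>
      intro ht
      have : ∀ m : ℕ, ∀ k : ℤ, k + (m - 1) < d → Ex (bd K A) (CS A (FF u (t + 1) (m - 1))) k := by
        intro m
        induction m with
        | zero => exact fun k _ => ex_bot (by rw [ff_neg _ _ _ (by simp), bot_inf_eq])
        | succ m ih2 =>
          intro k hk
          push_cast at hk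
          have := (S t ht (m - 1)).sub (ih (Nat.le_of_succ_le ht) _ k (by omega)) (ih2 (k + 1) (by omega))
          rwa [show (m : ℤ) - 1 + 1 = (m + 1 : ℕ) - 1 by push_cast; ring] at this
      intro r k h
      rcases lt_or_ge r 0 with hr | hr
      · exact ex_bot (by rw [ff_neg _ _ _ hr, bot_inf_eq])
      · lift r to ℕ using hr
        have := this (r + 1) k (by push_cast; omega)
        rwa [show ((r + 1 : ℕ) : ℤ) - 1 = r by push_cast; ring] at this
  have P2 : ∀ k : ℕ, ∀ t ≤ e, ∀ r : ℕ, finrank K (CS A (FF u t r) k) =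
      (Finset.univ.filter fun G => A G ∧ G.card = k).card * (d + e - k - t).choose r := by
    intro k t
    induction t with
    | zero => exact fun _ r => by rw [dim_zero, he, Nat.sub_zero]
    | succ t ih =>
      intro ht r
      rcases lt_or_ge d k with hk | hk
      · have h0 : (Finset.univ.filter fun G => A G ∧ G.card = k).card = 0 := by
          rw [Finset.card_eq_zero, Finset.filter_eq_empty_iff]
          exact fun G _ h => by have := hd G h.1; omega
        have h1 := (S t ht (r - 1)).dim k
        have h2 := ih (Nat.le_of_succ_le ht) r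
        rw [sub_add_cancel] at h1
        rw [h0, zero_mul] at h2 ⊢
        omega
      induction r with
      | zero =>
        have h1 := (S t ht (-1)).dim k
        have h2 := ih (Nat.le_of_succ_le ht) 0
        rw [ff_neg _ _ _ (show (-1 : ℤ) < 0 by simp), finrank_bot,
          show (-1 : ℤ) + 1 = (0 : ℕ) by simp] at h1
        rw [Nat.choose_zero_right] at h2 ⊢
        omega
      | succ r ih2 =>
        have h1 := (S t ht r).dim k
        have h2 := ih (Nat.le_of_succ_le ht) (r + 1)
        rw [show d + e - k - t = d + e - k - (t + 1) + 1 by omega, Nat.choose_succ_succ',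
          mul_add] at h2
        push_cast at h2 ⊢
        omega
  have E := euler (D := bd K A) (A := CS A (FF u e (d - i : ℕ))) (bd_mem (ff_anti _ _ _))
    (bd_bd hA) (cs_neg _ _ (by simp)) i fun k hk => P1 e le_rfl _ k (by omega)
  have E2 : ∑ k ∈ Finset.range (i + 1), (-1 : ℤ) ^ (i - k) * ((d - k).choose (i - k) : ℕ) *
      ((Finset.univ.filter fun G => A G ∧ G.card = k).card : ℤ) =
      finrank K (CS A (FF u e (d - i : ℕ)) i ⊓ LinearMap.ker (bd K A) :
        Submodule K (Finset V → Finset V → K)) := by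
    rw [← E]
    refine Finset.sum_congr rfl fun k hk => ?_
    have := Finset.mem_range.1 hk
    rw [P2 k e le_rfl, show d + e - k - e = d - k by omega,
      ← Nat.choose_symm (show i - k ≤ d - k by omega), show d - k - (i - k) = d - i by omega]
    push_cast
    ring
  rw [E2]
  by_contra h0
  have h1 := Submodule.finrank_eq_zero.1 (show finrank K (CS A (FF u e (d - i : ℕ)) i ⊓
    LinearMap.ker (bd K A) : Submodule K (Finset V → Finset V → K)) = 0 by omega)
  have P3 : ∀ j ≤ e, ∀ r : ℤ, Ex (bd K A) (CS A (FF u (e - j) r)) i := by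
    intro j
    induction j with
    | zero =>
      intro _ r
      rcases lt_trichotomy r (d - i : ℕ) with hr | rfl | hr
      · exact P1 _ (by omega) _ _ (by omega)
      · exact ex_bot h1
      · lift r to ℕ using (by omega)
        have := P2 i e le_rfl r
        rw [Nat.choose_eq_zero_of_lt (by omega), mul_zero, Submodule.finrank_eq_zero] at this
        exact ex_bot (by rw [Nat.sub_zero, this, bot_inf_eq])
    | succ j ih =>
      intro hj r
      have h2 := ih (by omega)
      rw [show e - j = e - (j + 1) + 1 by omega] at h2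
      have := (S (e - (j + 1)) (by omega) (r - 1)).mid (h2 _) (h2 _)
      rwa [sub_add_cancel] at this
  have := P3 e le_rfl T0.card
  rw [Nat.sub_self] at this
  exact H2 ((ex_zero A u _ _).1 this T0 rfl)

end Pool.Agent.H28.Sub
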