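import Pool.Agent.H28.Sub6
import Pool.Agent.H28.Sub2

namespace Pool.Agent.H28.Sub

open Module Classical Pool.Agent.H43.Orb

variable {K : Type} [Field K] {V : Type} [Fintype V] [DecidableEq V]

variable (K) in
noncomputable def nl (l : List V) : Finset V → K := l.foldr (fun a x => Up K a x) (Pi.single ∅ 1)

variable (K) in
noncomputable def NN : Ch V →ₗ[ℤ] (Finset V → K) := ext (nl K)

omit [Fintype V] in
lemma nn_cons (a : V) (c : Ch V) : NN K (cons a c) = Up K a (NN K c) :=
  hom_ext (F := NN K ∘ₗ cons a)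
    (G := (Up K a : End K (Finset V → K)).toAddMonoidHom.toIntLinearMap ∘ₗ NN K)
    (fun l => by simp [NN, nl]) c

lemma nn_dl [CharP K 2] (l : List V) : NN K (dl l) = con (1 : V → K) (NN K (sg l)) := by
  induction l with
  | nil =>
    funext T
    by_contra e
    rw [dl_nil, map_zero] at e
    obtain ⟨j, -, e2⟩ := con_ne (Ne.symm e)
    simp [NN, nl] at e2
  | cons a l ih =>
    rw [dl_cons, map_sub, nn_cons, ih, ← cons_sg, nn_cons, con_up, sub_eq (K := K)]

lemma nn_d [CharP K 2] (c : Ch V) : NN K (d c) = con (1 : V → K) (NN K c) :=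
  hom_ext (F := NN K ∘ₗ d)
    (G := (con (1 : V → K) : End K (Finset V → K)).toAddMonoidHom.toIntLinearMap ∘ₗ NN K)
    (fun l => by simp [nn_dl]) c

omit [Fintype V] in
lemma nl_ne (l : List V) : ∀ T, nl K l T ≠ 0 → T = l.toFinset ∧ T.card = l.length := by
  induction l with
  | nil =>
    intro T h
    by_cases e : T = ∅
    · simp [e]
    · simp [nl, e] at h
  | cons a l ih =>
    intro T h
    have : nl K (a :: l) T = if a ∈ T then nl K l (T.erase a) else 0 := rfl
    rw [this] at h
    by_cases e : a ∈ T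
    · rw [if_pos e] at h
      obtain ⟨h1, h2⟩ := ih _ h
      rw [List.toFinset_cons, ← h1, Finset.insert_erase e, List.length_cons, ← h2,
        Finset.card_erase_add_one e]
      exact ⟨rfl, rfl⟩
    · simp [e] at h

omit [Fintype V] in
lemma nl_nodup {l : List V} (h : l.Nodup) : nl K l = Pi.single l.toFinset 1 := by
  induction l with
  | nil => rfl
  | cons a l ih =>
    rw [List.nodup_cons] at h
    funext T
    have : nl K (a :: l) T = if a ∈ T then nl K l (T.erase a) else 0 := rfl
    rw [this, ih h.2, List.toFinset_cons]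
    have ha : a ∉ l.toFinset := by simpa using h.1
    by_cases e : T = insert a l.toFinset
    · simp [e, Finset.erase_insert ha]
    · rw [Pi.single_eq_of_ne e]
      split_ifs with e2
      · exact Pi.single_eq_of_ne (fun e3 => e (by rw [← e3, Finset.insert_erase e2])) _
      · rfl

noncomputable def srt (H : Finset V) : List V := Finset.univ.toList.filter (· ∈ H)

lemma srt_nodup (H : Finset V) : (srt H).Nodup := (Finset.nodup_toList _).filter _

@[simp] lemma mem_srt {H : Finset V} {v : V} : v ∈ srt H ↔ v ∈ H := by simp [srt]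

lemma srt_toFinset (H : Finset V) : (srt H).toFinset = H := by
  ext v
  simp

lemma srt_length (H : Finset V) : (srt H).length = H.card := by
  rw [← List.toFinset_card_of_nodup (srt_nodup H), srt_toFinset]

lemma srt_erase (H : Finset V) (v : V) : (srt H).erase v = srt (H.erase v) := by
  rw [(srt_nodup H).erase_eq_filter, srt, srt, List.filter_filter]
  congr 1
  funext w
  by_cases h : w = v <;> simp [h]

variable {Z : Type} [AddCommGroup Z] [Module K Z]

omit [Fintype V] in
lemma lin_dl [CharP K 2] {l : List V} (h : l.Nodup) : ∀ T : Ch V →ₗ[ℤ] Z,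
    T (dl l) = ∑ v ∈ l.toFinset, T (sg (l.erase v)) := by
  induction l with
  | nil => simp
  | cons a l ih =>
    intro T
    rw [List.nodup_cons] at h
    have ha : a ∉ l.toFinset := by simpa using h.1
    have := ih h.2 (T ∘ₗ cons a)
    rw [LinearMap.comp_apply] at this
    rw [dl_cons, map_sub, this, List.toFinset_cons, Finset.sum_insert ha, List.erase_cons_head,
      sub_eq (K := K)]
    congr 1
    refine Finset.sum_congr rfl fun v hv => ?_
    rw [List.erase_cons_tail (by simpa using fun e : a = v => ha (e ▸ hv))]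
    simp

variable (K) in
noncomputable def hat (T : Ch V →ₗ[ℤ] Z) : (Finset V → K) →ₗ[K] Z :=
  Fintype.linearCombination K fun H => T (sg (srt H))

lemma hat_apply (T : Ch V →ₗ[ℤ] Z) (x : Finset V → K) :
    hat K T x = ∑ H, x H • T (sg (srt H)) := Fintype.linearCombination_apply _ _ _

lemma hat_con [CharP K 2] (T : Ch V →ₗ[ℤ] Z) (x : Finset V → K) :
    hat K T (con (1 : V → K) x) = ∑ H, x H • T (dl (srt H)) := by
  simp only [hat_apply, con_apply, lin_dl (K := K) (srt_nodup _), srt_toFinset, srt_erase,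
    Finset.sum_smul, Pi.one_apply, one_smul, Finset.smul_sum]
  rw [Finset.sum_comm]
  have : ∀ H : Finset V, ∑ v ∈ H, x H • T (sg (srt (H.erase v))) =
      ∑ v, if v ∈ H then x H • T (sg (srt (H.erase v))) else 0 := by
    intro H
    simp [Finset.sum_ite_mem]
  simp only [this]
  rw [Finset.sum_comm (f := fun H v => if v ∈ H then x H • T (sg (srt (H.erase v))) else 0)]
  refine Finset.sum_congr rfl fun v _ => ?_
  simp only [ite_smul, zero_smul]
  rw [← Finset.sum_filter, Finset.sum_ite, Finset.sum_const_zero, zero_add]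
  refine Finset.sum_bij' (fun H _ => insert v H) (fun H _ => H.erase v) (fun H _ => by simp)
    (fun H _ => by simp) (fun H h => Finset.erase_insert (by simpa using h))
    (fun H h => Finset.insert_erase (by simpa using h)) fun H h => ?_
  rw [Finset.erase_insert (by simpa using h)]

lemma hat_nn (x : Finset V → K) : ∑ H, x H • NN K (sg (srt H)) = x := by
  simp only [NN, ext_sg, nl_nodup (srt_nodup _), srt_toFinset]
  funext T
  simp [Finset.sum_apply, Pi.single_apply]

omit [Fintype V] [DecidableEq V] in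
lemma exists_contr {Φ : Set V → Prop} (hΦ : ∀ A B, A ⊆ B → Φ B → Φ A) (k : ℕ)
    (h : ∀ q < k, IE Φ q) : ∃ s : List V → Ch V, ∀ l ∈ Tup Φ, l.length < k →
      s l ∈ On (Tup Φ ∩ Len V (l.length + 1)) ∧ d (s l) + ext s (dl l) = sg l := by
  induction k with
  | zero => exact ⟨0, by simp⟩
  | succ k ih =>
    obtain ⟨s, hs⟩ := ih fun q hq => h q (by omega)
    have dm : ∀ l ∈ Tup Φ, dl l ∈ On (Tup Φ ∩ {m | m.length + 1 = l.length}) := fun l hl =>
      dl_on fun i hi => ⟨tup_face hΦ hl fun _ hu => List.mem_of_mem_eraseIdx hu, by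
        simp only [Set.mem_ofPred_eq, List.length_eraseIdx, hi, if_true]
        omega⟩
    have key : ∀ l ∈ Tup Φ, l.length = k → ∃ w ∈ On (Tup Φ ∩ Len V (l.length + 1)),
        d w + ext s (dl l) = sg l := by
      intro l hl hk
      have h1 : ext s (dl l) ∈ On (Tup Φ ∩ Len V k) := by
        refine lin_on _ (fun m hm => ?_) (dm l hl)
        have h2 : m.length + 1 = l.length := hm.2
        rw [ext_sg, ← hk, ← h2]
        exact (hs m hm.1 (by omega)).1
      have h2 : d (ext s (dl l)) = dl l := by
        have := lin_eq_on (d ∘ₗ ext s + ext s ∘ₗ d) LinearMap.id (fun m hm => by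
          have h2 : m.length + 1 = l.length := hm.2
          simpa using (hs m hm.1 (by omega)).2) (dm l hl)
        simpa [d_dl] using this
      have h3 : sg l - ext s (dl l) ∈ On (Len V k) :=
        sub_mem (sg_on hk) (on_mono Set.inter_subset_right h1)
      obtain ⟨w, hw, e⟩ := h k (by omega) _ (sub_mem (sg_on hl) (on_mono Set.inter_subset_left h1))
        h3 (by rw [map_sub, h2, d_sg, sub_self])
      refine ⟨proj (k + 1) w, hk ▸ proj_on _ hw, ?_⟩
      rw [d_proj, e, proj_eq h3, sub_add_cancel]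
    choose! w w1 w2 using key
    refine ⟨fun l => if l.length = k then w l else s l, fun l hl hk => ?_⟩
    have e : ext (fun l => if l.length = k then w l else s l) (dl l) = ext s (dl l) :=
      lin_eq_on _ _ (fun m hm => by
        have h2 : m.length + 1 = l.length := hm.2
        rw [ext_sg, ext_sg, if_neg (by omega)]) (dm l hl)
    rw [e]
    by_cases h1 : l.length = k
    · simp only [if_pos h1]
      exact ⟨w1 l hl h1, w2 l hl h1⟩
    · simp only [if_neg h1]
      exact hs l hl (by omega)

omit [Fintype V] in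
lemma nn_mem {Φ : Set V → Prop} {q : ℕ} {c : Ch V} (hc : c ∈ On (Tup Φ ∩ Len V q)) :
    NN K c ∈ CS (K := K) (fun H : Finset V => Φ H) (fun _ => ⊤) q := by
  refine lin_on (N := (CS (K := K) (fun H : Finset V => Φ H) (fun _ => ⊤) q).restrictScalars ℤ)
    (NN K) (fun l hl => ?_) hc
  refine mem_cs.2 fun G => ⟨trivial, fun e => ?_⟩
  rw [NN, ext_sg] at e
  obtain ⟨h1, h2⟩ := nl_ne l G e
  have h3 : l.length = q := hl.2
  refine ⟨?_, by omega⟩
  rw [h1, List.coe_toFinset]
  exact hl.1

lemma bd_down {A : Finset V → Prop} (hA : ∀ G H, G ⊆ H → A H → A G) {k : ℤ} {x : Finset V → K}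
    (hx : x ∈ CS (K := K) A (fun _ => ⊤) k) : bd K A x = con (1 : V → K) x := by
  funext G
  rw [bd_apply]
  split_ifs with h
  · rfl
  · by_contra e
    obtain ⟨j, -, e2⟩ := con_ne (Ne.symm e)
    exact h (hA _ _ (Finset.subset_insert _ _) ((hx _).2 e2).1)

theorem fex_of_ie [CharP K 2] {Φ : Set V → Prop} (hΦ : ∀ A B, A ⊆ B → Φ B → Φ A) (k : ℤ)
    (h : ∀ q : ℕ, q ≤ k → IE Φ q) : FEx K (fun H : Finset V => Φ H) k := by
  rcases lt_or_ge k 0 with hk | hk
  · exact fex_neg _ hk
  lift k to ℕ using hk
  obtain ⟨s, hs⟩ := exists_contr hΦ (k + 1) fun q hq => h q (by omega)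
  have hA : ∀ G H : Finset V, G ⊆ H → Φ H → Φ G := fun G H e => hΦ _ _ (by exact_mod_cast e)
  intro x hx e
  rw [bd_down hA hx] at e
  have key : ∀ H, x H ≠ 0 → srt H ∈ Tup Φ ∧ (srt H).length = k := by
    intro H e
    have := (hx H).2 e
    refine ⟨?_, by rw [srt_length]; omega⟩
    simpa [Tup] using this.1
  have m : hat K (NN K ∘ₗ ext s) x ∈ CS (K := K) (fun H : Finset V => Φ H) (fun _ => ⊤) (k + 1) := by
    rw [hat_apply]
    refine Submodule.sum_mem _ fun H _ => ?_
    by_cases e : x H = 0
    · simp [e]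
    obtain ⟨h1, h2⟩ := key H e
    have := nn_mem (K := K) (hs _ h1 (by omega)).1
    rw [h2] at this
    exact Submodule.smul_mem _ _ (by simpa using this)
  refine ⟨_, m, ?_⟩
  have h1 := hat_con (NN K ∘ₗ ext s) x
  rw [e, map_zero] at h1
  rw [bd_down hA m, hat_apply, map_sum, ← add_zero (Finset.sum _ _), h1, ← Finset.sum_add_distrib]
  refine Eq.trans (Finset.sum_congr rfl fun H _ => ?_) (hat_nn x)
  by_cases e : x H = 0
  · simp [e]
  obtain ⟨h2, h3⟩ := key H e
  have h4 := congrArg (NN K) (hs _ h2 (by omega)).2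
  rw [map_add, nn_d] at h4
  rw [map_smul, ← smul_add, ← h4]
  simp

end Pool.Agent.H28.Sub
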