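import Pool.Agent.H28.Sub7

namespace Pool.Agent.H28.Sub

open Module Classical Pool.Agent.H43.Orb

variable {K : Type} [Field K] {V J : Type} [Fintype V] [DecidableEq V] [Fintype J] [DecidableEq J]

section
variable {Y : Type} [AddCommGroup Y] [Module K Y]

omit [Fintype V] in
lemma up_up (i j : V) : (Up K i * Up K j : End K (Finset V → Y)) = Up K j * Up K i := by
  ext1 c
  funext T
  simp only [End.mul_apply, up_apply, Finset.mem_erase, Finset.erase_right_comm (a := i)]
  by_cases h1 : i ∈ T <;> by_cases h2 : j ∈ T <;> by_cases h3 : i = j <;> simp [h1, h2, h3, eq_comm]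

omit [Fintype V] in
lemma up_sq (i : V) : (Up K i * Up K i : End K (Finset V → Y)) = 0 := by
  ext1 c
  funext T
  simp [up_apply]

lemma mul_sq [CharP K 2] (φ : V → K) : (mul φ * mul φ : End K (Finset V → Y)) = 0 := by
  simp only [mul, Finset.sum_mul_sum, smul_mul_smul_comm]
  rw [← Finset.sum_product']
  refine Finset.sum_involution (fun p _ => p.swap) (fun p _ => ?_) (fun p _ h e => h ?_)
    (fun p _ => by simp) (fun p _ => rfl)
  · simp only [Prod.fst_swap, Prod.snd_swap]
    rw [up_up p.2, mul_comm (φ p.2), add_self (K := K)]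
  · have : p.2 = p.1 := congrArg Prod.fst e
    rw [this, up_sq, smul_zero]

lemma mul_congr {φ : V → K} {x y : Finset V → Y} {T : Finset V}
    (h : ∀ j ∈ T, x (T.erase j) = y (T.erase j)) : mul φ x T = mul φ y T := by
  rw [mul_apply, mul_apply]
  refine Finset.sum_congr rfl fun j _ => ?_
  split_ifs with e
  · rw [h j e]
  · rfl

lemma map_mul_apply {Z : Type} [AddCommGroup Z] [Module K Z] (f : Y →ₗ[K] Z) (φ : V → K)
    (x : Finset V → Y) (T : Finset V) : f (mul φ x T) = mul φ (fun G => f (x G)) T := by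
  rw [mul_apply, mul_apply, map_sum]
  refine Finset.sum_congr rfl fun j _ => ?_
  split_ifs <;> simp

end

variable (K) in
noncomputable def LL (f : V → J) : (Finset V → K) →ₗ[K] (Finset J → K) := hat K (NN K ∘ₗ mp f)

lemma ll_con [CharP K 2] (f : V → J) (x : Finset V → K) :
    LL K f (con (1 : V → K) x) = con (1 : J → K) (LL K f x) := by
  rw [LL, hat_con, hat_apply, map_sum]
  refine Finset.sum_congr rfl fun H _ => ?_
  rw [map_smul, LinearMap.comp_apply, LinearMap.comp_apply, ← nn_d, d_mp, d_sg]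

omit [Fintype J] in
lemma ll_ne {f : V → J} {x : Finset V → K} {T : Finset J} (h : LL K f x T ≠ 0) :
    ∃ H, x H ≠ 0 ∧ T = H.image f ∧ T.card = H.card := by
  rw [LL, hat_apply, Finset.sum_apply] at h
  obtain ⟨H, -, e⟩ := Finset.exists_ne_zero_of_sum_ne_zero h
  simp only [LinearMap.comp_apply, mp_sg, NN, ext_sg, Pi.smul_apply, smul_eq_mul, ne_eq,
    mul_eq_zero, not_or] at e
  obtain ⟨h1, h2⟩ := nl_ne _ _ e.2
  refine ⟨H, e.1, ?_, by rw [h2, List.length_map, srt_length]⟩
  rw [h1]
  ext j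
  simp

lemma con_single (F : Finset J) :
    con (1 : J → K) (Pi.single F (1 : K) : Finset J → K) =
      mul (1 : J → K) (fun G => (Pi.single G (1 : K) : Finset J → K)) F := by
  funext T
  rw [con_apply, mul_apply, Finset.sum_apply]
  refine Finset.sum_congr rfl fun j _ => ?_
  simp only [Pi.one_apply, one_smul, ite_apply, Pi.single_apply, Pi.zero_apply]
  by_cases h : j ∉ T ∧ insert j T = F
  · obtain ⟨h1, rfl⟩ := h
    simp [h1, Finset.erase_insert h1]
  · have h2 : ¬ (j ∈ F ∧ T = F.erase j) := by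
      rintro ⟨h1, rfl⟩
      exact h ⟨by simp, Finset.insert_erase h1⟩
    grind

lemma top_zero {F : Finset J} (hF : F.Nonempty) {w : Finset J → K} (h : ∀ T, w T ≠ 0 → T = F)
    (e : con (1 : J → K) w = 0) : w = 0 := by
  obtain ⟨j, hj⟩ := hF
  have h1 := congrFun e (F.erase j)
  rw [con_apply, Finset.sum_eq_single j] at h1
  · funext T
    by_contra e2
    obtain rfl := h T e2
    simp [Finset.insert_erase hj] at h1
    exact e2 h1
  · intro i _ hi
    split_ifs with h2
    · simp
    · by_contra e2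
      have := h (insert i (F.erase j)) fun e3 => e2 (by simp [e3])
      have h3 : j ∈ insert i (F.erase j) := this.symm ▸ hj
      simp [hi.symm] at h3
  · simp

variable {Γ : Finset V → Prop} {σ : Finset V → Finset J}

lemma exists_z [CharP K 2] (hΓ : ∀ G H, H ⊆ G → Γ G → Γ H) (hσ : ∀ G H, H ⊆ G → Γ G → σ H ⊆ σ G)
    (h0 : Γ ∅) (h1 : σ ∅ = ∅) {f : V → J} (hf : ∀ v, Γ {v} → f v ∈ σ {v})
    (hB : ∀ F : Finset J, F.Nonempty → ∀ k, FEx K (fun H => Γ H ∧ σ H ⊆ F) k) (m : ℕ) :
    ∃ z : Finset J → Finset V → K, ∀ F, F.card < m →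
      z F ∈ CS (K := K) (fun H => Γ H ∧ σ H ⊆ F) (fun _ => ⊤) F.card ∧
      con (1 : V → K) (z F) = mul (1 : J → K) z F ∧ LL K f (z F) = Pi.single F 1 := by
  induction m with
  | zero => exact ⟨0, by simp⟩
  | succ m ih =>
    obtain ⟨z, hz⟩ := ih
    have key : ∀ F : Finset J, F.card = m → ∃ w ∈ CS (K := K) (fun H => Γ H ∧ σ H ⊆ F)
        (fun _ => ⊤) F.card, con (1 : V → K) w = mul (1 : J → K) z F ∧
        LL K f w = Pi.single F 1 := by
      intro F hF
      rcases F.eq_empty_or_nonempty with rfl | hne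
      · refine ⟨Pi.single ∅ 1, fun G => ⟨trivial, fun e => ?_⟩, funext fun T => ?_, ?_⟩
        · obtain rfl : G = ∅ := by
            by_contra e2
            simp [e2] at e
          simp [h0, h1]
        · simp [con_apply, mul_apply]
        · simp [LL, hat_apply, Pi.single_apply, NN, srt, nl]
      have lt : ∀ j ∈ F, (F.erase j).card < m := fun j hj => hF ▸ Finset.card_erase_lt_of_mem hj
      have hA : ∀ G H, G ⊆ H → Γ H ∧ σ H ⊆ F → Γ G ∧ σ G ⊆ F :=
        fun G H e h => ⟨hΓ _ _ e h.1, (hσ _ _ e h.1).trans h.2⟩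
      have m1 : mul (1 : J → K) z F ∈ CS (K := K) (fun H => Γ H ∧ σ H ⊆ F) (fun _ => ⊤)
          (F.card - 1) := by
        rw [mul_apply]
        refine Submodule.sum_mem _ fun j _ => Submodule.smul_mem _ _ ?_
        split_ifs with hj
        · refine fun G => ⟨trivial, fun e => ?_⟩
          have := ((hz _ (lt j hj)).1 G).2 e
          have h2 := Finset.card_erase_add_one hj
          exact ⟨⟨this.1.1, this.1.2.trans (Finset.erase_subset _ _)⟩, by omega⟩
        · exact zero_mem _
      obtain ⟨w, hw, e⟩ := hB F hne _ _ m1 (by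
        rw [bd_down hA m1, map_mul_apply, mul_congr (y := mul (1 : J → K) z)
          fun j hj => (hz _ (lt j hj)).2.1, ← End.mul_apply, mul_sq]
        rfl)
      rw [sub_add_cancel] at hw
      rw [bd_down hA hw] at e
      refine ⟨w, hw, e, sub_eq_zero.1 (top_zero hne (fun T e2 => ?_) ?_)⟩
      · by_contra e3
        rw [Pi.sub_apply, Pi.single_eq_of_ne e3, sub_zero] at e2
        obtain ⟨H, a1, a2, a3⟩ := ll_ne e2
        have := (hw H).2 a1
        refine e3 (Finset.eq_of_subset_of_card_le ?_ (by omega))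
        rw [a2]
        refine Finset.image_subset_iff.2 fun v hv => ?_
        have h2 := hA {v} H (by simpa) this.1
        exact h2.2 (hf v h2.1)
      · rw [map_sub, ← ll_con, e, map_mul_apply, con_single,
          mul_congr (y := fun G => (Pi.single G (1 : K) : Finset J → K))
            fun j hj => (hz _ (lt j hj)).2.2, sub_self]
    choose! w w1 w2 w3 using key
    refine ⟨fun F => if F.card = m then w F else z F, fun F hF => ?_⟩
    have e : mul (1 : J → K) (fun F => if F.card = m then w F else z F) F = mul (1 : J → K) z F :=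
      mul_congr fun j hj => if_neg (by have := Finset.card_erase_lt_of_mem hj; omega)
    rw [e]
    by_cases h2 : F.card = m
    · simp only [if_pos h2]
      exact ⟨w1 F h2, w2 F h2, w3 F h2⟩
    · simp only [if_neg h2]
      exact hz F (by omega)

theorem sperner [CharP K 2] (hΓ : ∀ G H, H ⊆ G → Γ G → Γ H) (hσ : ∀ G H, H ⊆ G → Γ G → σ H ⊆ σ G)
    (h0 : Γ ∅) (h1 : σ ∅ = ∅) {f : V → J} (hf : ∀ v, Γ {v} → f v ∈ σ {v})
    (hB : ∀ F : Finset J, F.Nonempty → ∀ k, FEx K (fun H => Γ H ∧ σ H ⊆ F) k) (S : Finset J)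
    {C : Finset V → Prop} (c1 : ∀ H, C H → Γ H ∧ S ⊆ σ H ∧ ∀ v ∈ H, σ {v} ⊆ S)
    (c2 : ∀ H, Γ H → S ⊆ σ H → (∀ v ∈ H, σ {v} ⊆ S) → H.card ≤ S.card → C H) :
    ¬ FEx K C S.card := by
  obtain ⟨z, hz⟩ := exists_z (K := K) hΓ hσ h0 h1 hf hB (S.card + 1)
  obtain ⟨z1, z2, z3⟩ := hz S (by omega)
  have zv : ∀ H, z S H ≠ 0 → ∀ v ∈ H, σ {v} ⊆ S := fun H e v hv =>
    (hσ _ _ (by simpa) ((z1 H).2 e).1.1).trans ((z1 H).2 e).1.2
  intro h
  obtain ⟨b, hb, e⟩ := h (prj K C (z S)) (fun G => ⟨trivial, fun e => by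
    rw [prj_apply] at e
    split_ifs at e with h2
    · exact ⟨h2, ((z1 G).2 e).2⟩
    · exact (e rfl).elim⟩) (funext fun H => by
    rw [bd_apply]
    split_ifs with h2
    · rw [con_congr (y := z S) fun j _ => ?_, z2]
      · by_contra e
        rw [mul_apply, Finset.sum_apply] at e
        obtain ⟨j, -, e2⟩ := Finset.exists_ne_zero_of_sum_ne_zero e
        by_cases hj : j ∈ S
        · have := ((hz (S.erase j) (by have := Finset.card_erase_lt_of_mem hj; omega)).1 H).2
            (by simpa [hj] using e2)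
          simpa using this.1.2 ((c1 H h2).2.1 hj)
        · simp [hj] at e2
      · rw [prj_apply]
        split_ifs with h3
        · rfl
        · by_contra e
          have := (z1 _).2 (Ne.symm e)
          exact h3 (c2 _ this.1.1 ((c1 H h2).2.1.trans (hσ _ _ (Finset.subset_insert _ _) this.1.1))
            (zv _ (Ne.symm e)) (by omega))
    · rfl)
  have b0 : LL K f b = 0 := by
    funext T
    by_contra e2
    obtain ⟨H, a1, a2, a3⟩ := ll_ne e2
    have h2 := (hb H).2 a1
    have h3 := c1 H h2.1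
    have : T ⊆ S := a2 ▸ Finset.image_subset_iff.2 fun v hv =>
      h3.2.2 v hv (hf v (hΓ _ _ (by simpa) h3.1))
    have := Finset.card_le_card this
    omega
  obtain ⟨H, a1, a2, a3⟩ := ll_ne (K := K) (f := f) (x := z S - con (1 : V → K) b) (T := S)
    (by rw [map_sub, ll_con, b0, z3]; simp)
  have h2 : Γ H ∧ ∀ v ∈ H, σ {v} ⊆ S := by
    by_cases e2 : z S H = 0
    · obtain ⟨j, -, e3⟩ := con_ne (φ := (1 : V → K)) (c := b) (T := H) fun e3 => a1 (by simp [e2, e3])
      have := c1 _ ((hb _).2 e3).1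
      exact ⟨hΓ _ _ (Finset.subset_insert _ _) this.1,
        fun v hv => this.2.2 v (Finset.mem_insert_of_mem hv)⟩
    · exact ⟨((z1 H).2 e2).1.1, zv H e2⟩
  have h3 : C H := c2 H h2.1 (by
    rw [a2]
    exact Finset.image_subset_iff.2 fun v hv =>
      hσ _ _ (by simpa) h2.1 (hf v (hΓ _ _ (by simpa) h2.1))) h2.2 a3.ge
  have h4 := congrFun e H
  rw [bd_apply, prj_apply, if_pos h3, if_pos h3] at h4
  exact a1 (by simp [h4])

variable (Γ σ) in
def LF (G : Finset V) (S F : Finset J) (T H : Finset V) : Prop :=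
  Γ H ∧ G ⊆ H ∧ S ⊆ σ H ∧ σ H ⊆ F ∧ Disjoint H T

theorem lf_ex [CharP K 2] (hΓ : ∀ G H, H ⊆ G → Γ G → Γ H) (hσ : ∀ G H, H ⊆ G → Γ G → σ H ⊆ σ G)
    (hB : ∀ F : Finset J, F.Nonempty → ∀ k, FEx K (fun H => Γ H ∧ σ H ⊆ F) k)
    (hC : ∀ F : Finset J, F.Nonempty → ∀ G, G.Nonempty → Γ G → σ G ⊆ F → ∀ k : ℤ, k + 1 < F.card →
      FEx K (fun H => (Γ H ∧ σ H ⊆ F) ∧ ¬ G ⊆ H) k)
    (T G : Finset V) (S F : Finset J) (k : ℤ) (hk : k + T.card < F.card) :
    FEx K (LF Γ σ G S F T) k := by
  have cv : ∀ G S F T, Cvx (LF Γ σ G S F T) := fun G S F T A B C h1 h2 a c =>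
    ⟨hΓ _ _ h2 c.1, a.2.1.trans h1, a.2.2.1.trans (hσ _ _ h1 (hΓ _ _ h2 c.1)),
      (hσ _ _ h2 c.1).trans c.2.2.2.1, c.2.2.2.2.mono_left h2⟩
  induction T using Finset.induction_on generalizing G k with
  | insert v T hv ih =>
    rw [Finset.card_insert_of_notMem hv] at hk
    push_cast at hk
    refine fex_low (cv G S F T) (C := LF Γ σ (insert v G) S F T) (fun H => ?_) (fun H => ?_)
      (fun H H' e a b => ⟨b.1, a.2.1.trans e, b.2.2⟩) (ih G k (by omega)) (ih _ _ (by omega))
    · simp only [LF, Finset.disjoint_insert_right, Finset.insert_subset_iff]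
      tauto
    · simp only [LF, Finset.insert_subset_iff]
      tauto
  | empty =>
    simp only [Finset.card_empty, Nat.cast_zero, add_zero] at hk
    induction S using Finset.induction_on generalizing F k with
    | insert s S hs ih =>
      have := Finset.pred_card_le_card_erase (s := F) (a := s)
      refine fex_up (cv G S F ∅) (B := LF Γ σ G S (F.erase s) ∅) (fun H => ?_) (fun H => ?_)
        (fun H H' e a b => ⟨b.1, b.2.1, a.2.2.1.trans (hσ _ _ e b.1), b.2.2.2⟩)
        (ih F k hk) (ih _ _ (by omega))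
      · simp only [LF, Finset.subset_erase, Finset.insert_subset_iff]
        tauto
      · simp only [LF, Finset.insert_subset_iff]
        tauto
    | empty =>
      rcases F.eq_empty_or_nonempty with rfl | hF
      · exact fex_neg _ (by simpa using hk)
      have e : LF Γ σ ∅ ∅ F ∅ = fun H => Γ H ∧ σ H ⊆ F := by
        funext H
        simp [LF]
      rcases G.eq_empty_or_nonempty with rfl | hG
      · exact e ▸ hB F hF k
      by_cases h : Γ G ∧ σ G ⊆ F
      · refine fex_up (e ▸ cv ∅ ∅ F ∅) (fun H => ?_) (fun H a => ⟨a.1, a.2.2.2.1⟩)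
          (fun H H' e a b => ⟨b.1, a.2.1.trans e, by simp, b.2, by simp⟩) (hB F hF k)
          (hC F hF G hG h.1 h.2 _ (by omega))
        simp only [LF, Finset.empty_subset, Finset.disjoint_empty_right]
        tauto
      · exact fex_empty (fun H a => h ⟨hΓ _ _ a.2.1 a.1, (hσ _ _ a.2.1 a.1).trans a.2.2.2.1⟩) k

end Pool.Agent.H28.Sub
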