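import Pool.Agent.H28.Sub8

namespace Pool.Agent.H28.Sub

open Module Pool.Agent.H43.Orb

theorem final :
  ∀ (d n : ℕ) (Γ : Finset (Finset (Fin n))) (σ : Finset (Fin n) → Finset (Fin d)),
    (∀ G ∈ Γ, ∀ H : Finset (Fin n), H ⊆ G → H ∈ Γ) →
    σ ∅ = ∅ →
    (∀ G ∈ Γ, ∀ H : Finset (Fin n), H ⊆ G → σ H ⊆ σ G) →
    (∀ F : Finset (Fin d), F.Nonempty →
      ∃ φ : ↥{x : Fin n → ℝ | (∀ j, 0 ≤ x j) ∧ ∑ j, x j = 1 ∧
              ∃ G ∈ Γ, σ G ⊆ F ∧ ∀ j, x j ≠ 0 → j ∈ G} ≃ₜ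
            ↥(Metric.closedBall (0 : EuclideanSpace ℝ (Fin (F.card - 1))) 1),
        ∀ G ∈ Γ, G.Nonempty → σ G ⊆ F →
          (σ G = F ↔
            ∀ y : ↥{x : Fin n → ℝ | (∀ j, 0 ≤ x j) ∧ ∑ j, x j = 1 ∧
              ∃ G ∈ Γ, σ G ⊆ F ∧ ∀ j, x j ≠ 0 → j ∈ G},
              (∀ j, 0 < (y : Fin n → ℝ) j ↔ j ∈ G) →
                ‖(φ y : EuclideanSpace ℝ (Fin (F.card - 1)))‖ < 1)) →
    ∀ S : Finset (Fin d), 1 ≤ S.card →
      0 < ∑ k ∈ Finset.range (S.card + 1),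
        (-1 : ℤ) ^ (S.card - k) * ((Nat.choose (d - k) (S.card - k) : ℕ) : ℤ) *
          ((Γ.filter (fun G => G.card = k ∧ S ⊆ σ G)).card : ℤ) := by
  intro d n Γ σ hΓ h1 hσ hb S hS
  let K := AlgebraicClosure (ZMod 2)
  let Φ : Finset (Fin d) → Set (Fin n) → Prop := fun F A => ∃ G ∈ Γ, σ G ⊆ F ∧ A ⊆ G
  have hΦ : ∀ F A B, A ⊆ B → Φ F B → Φ F A := fun F A B h ⟨G, a, b, c⟩ => ⟨G, a, b, h.trans c⟩
  have eΦ : ∀ F (H : Finset (Fin n)), Φ F H ↔ H ∈ Γ ∧ σ H ⊆ F := fun F H =>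
    ⟨fun ⟨G, a, b, c⟩ => ⟨hΓ G a H (by exact_mod_cast c), (hσ G a H (by exact_mod_cast c)).trans b⟩,
      fun h => ⟨H, h.1, h.2, subset_rfl⟩⟩
  have pt : ∀ F : Finset (Fin d), F.Nonempty → ∃ v, {v} ∈ Γ ∧ σ {v} ⊆ F := by
    intro F hF
    obtain ⟨φ, -⟩ := hb F hF
    obtain ⟨x, -, h2, G, a, b, c⟩ := φ.symm ⟨0, by simp⟩
    obtain ⟨v, -, hv⟩ := Finset.exists_ne_zero_of_sum_ne_zero (h2.trans_ne one_ne_zero)
    have : {v} ⊆ G := by simpa using c v hv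
    exact ⟨v, hΓ G a _ this, (hσ G a _ this).trans b⟩
  obtain ⟨s, hs⟩ := Finset.card_pos.1 hS
  have ne : ∀ v, {v} ∈ Γ → (σ {v}).Nonempty := by
    intro v hv
    by_contra e
    rw [Finset.not_nonempty_iff_eq_empty] at e
    obtain ⟨φ, hφ⟩ := hb {s} (by simp)
    haveI : IsEmpty (Fin (({s} : Finset (Fin d)).card - 1)) := ⟨fun i => by simpa using i.2⟩
    have := (hφ {v} hv (by simp) (by simp [e])).2 fun y _ => by simp [EuclideanSpace.norm_eq]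
    simp [e] at this
  obtain ⟨v0, hv0, -⟩ := pt S ⟨s, hs⟩
  haveI : Nonempty (Fin n) := ⟨v0⟩
  haveI : Nonempty (Fin d) := ⟨s⟩
  have h0 : ∅ ∈ Γ := hΓ _ hv0 _ (by simp)
  have hn : d ≤ Fintype.card (Fin n) := by
    choose g g1 g2 using fun j : Fin d => pt {j} (by simp)
    have : Function.Injective g := by
      intro i j e
      obtain ⟨u, hu⟩ := ne _ (g1 i)
      rw [← Finset.mem_singleton.1 (g2 i hu), ← Finset.mem_singleton.1 (g2 j (e ▸ hu))]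
    simpa using Fintype.card_le_of_injective g this
  choose! f hf using ne
  have hB : ∀ F : Finset (Fin d), F.Nonempty → ∀ k, FEx K (fun H => H ∈ Γ ∧ σ H ⊆ F) k := by
    intro F hF k
    obtain ⟨φ, -⟩ := hb F hF
    have := fex_of_ie (K := K) (hΦ F) k fun q _ => ball_ie (hΦ F) ⟨∅, h0, by simp [h1], by simp⟩ φ q
    simpa only [eΦ] using this
  have hC : ∀ F : Finset (Fin d), F.Nonempty → ∀ G, G.Nonempty → G ∈ Γ → σ G ⊆ F → ∀ k : ℤ,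
      k + 1 < F.card → FEx K (fun H => (H ∈ Γ ∧ σ H ⊆ F) ∧ ¬ G ⊆ H) k := by
    intro F hF G hG a b k hk
    obtain ⟨φ, -⟩ := hb F hF
    have := fex_of_ie (K := K) (cost_mono (hΦ F) G) k fun q hq =>
      cost_ie (hΦ F) hG ((eΦ F G).2 ⟨a, b⟩) φ (by omega)
    simpa only [Cost, eΦ, Finset.coe_subset] using this
  have hΓ' : ∀ G H, H ⊆ G → G ∈ Γ → H ∈ Γ := fun G H a b => hΓ G b H a
  have hσ' : ∀ G H, H ⊆ G → G ∈ Γ → σ H ⊆ σ G := fun G H a b => hσ G b H a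
  have hd : S.card ≤ d := by simpa using S.card_le_univ
  have main := alg_main (K := K) (A := fun H => (H ∈ Γ ∧ S ⊆ σ H) ∧ H.card ≤ d)
    (fun A B C h1 h2 a c => ⟨⟨hΓ _ c.1.1 _ h2, a.1.2.trans (hσ _ (hΓ _ c.1.1 _ h2) _ h1)⟩,
      (Finset.card_le_card h2).trans c.2⟩) d S.card (fun G h => h.2) hn hd (fun T k hk => by
      have := fex_trunc (d := d) (by omega) (lf_ex (K := K) (Γ := (· ∈ Γ)) hΓ' hσ' hB hC T ∅ S
        Finset.univ k (by simpa using hk))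
      have e : (fun G => LF (· ∈ Γ) σ ∅ S Finset.univ T G ∧ G.card ≤ d) =
          fun G => ((G ∈ Γ ∧ S ⊆ σ G) ∧ G.card ≤ d) ∧ Disjoint G T := by
        funext G
        simp only [LF, Finset.empty_subset, Finset.subset_univ, true_and, eq_iff_iff]
        tauto
      rwa [e] at this) (Finset.univ.filter fun v => ¬ σ {v} ⊆ S)
    (sperner (Γ := (· ∈ Γ)) hΓ' hσ' h0 h1 hf hB S
      (fun H h => ⟨h.1.1.1, h.1.1.2, fun v hv => by
        simpa using Finset.disjoint_left.1 h.2 hv⟩)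
      fun H a b c e => ⟨⟨⟨a, b⟩, e.trans hd⟩, Finset.disjoint_left.2 fun v hv => by
        simpa using c v hv⟩)
  refine main.trans_eq (Finset.sum_congr rfl fun k hk => ?_)
  have := Finset.mem_range.1 hk
  congr 3
  ext G
  simp only [Finset.mem_filter, Finset.mem_univ, true_and]
  exact ⟨fun h => ⟨h.1.1.1, h.2, h.1.1.2⟩, fun h => ⟨⟨⟨h.1, h.2.2⟩, by omega⟩, h.2.1⟩⟩

end Pool.Agent.H28.Sub
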