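import Mathlib

/-! Return-time sets along real functions. -/

set_option autoImplicit false

namespace Pool.Agent.H28.Thick

open Filter Finset

open Classical in
/-- Upper density `limsup |E ∩ {1,…,N}| / N`. -/
noncomputable def upperDensity (E : Set ℕ) : ℝ :=
  limsup (fun N : ℕ => (#{x ∈ Icc 1 N | x ∈ E} : ℝ) / N) atTop

/-- The set of `n ≥ 1` such that `x + ⌊f n⌋ ∈ E` for some `x ∈ E`. -/
def ret (f : ℝ → ℝ) (E : Set ℕ) : Set ℕ :=
  {n | 1 ≤ n ∧ ∃ x ∈ E, ∃ y ∈ E, (y : ℤ) = x + ⌊f n⌋}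

/-- `S` contains arbitrarily long intervals of consecutive integers. -/
def IsThick (S : Set ℕ) : Prop := ∀ L : ℕ, ∃ a : ℕ, ∀ i ≤ L, a + i ∈ S

lemma exists_color {κ : Type} [Fintype κ] (χ : ℕ → κ) :
    ∃ c, 0 < upperDensity {x | 1 ≤ x ∧ χ x = c} := by
  classical
  haveI : Nonempty κ := ⟨χ 0⟩
  have hk : (0 : ℝ) < Fintype.card κ := by exact_mod_cast Fintype.card_pos
  have h1 : ∀ᶠ N : ℕ in atTop, ∃ c, 1 / (Fintype.card κ : ℝ) ≤ (#{x ∈ Icc 1 N | χ x = c} : ℝ) / N := by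
    filter_upwards [eventually_gt_atTop 0] with N hN
    obtain ⟨c, -, h⟩ := exists_le_card_fiber_of_nsmul_le_card_of_maps_to (s := Icc 1 N)
      (t := univ) (f := χ) (b := (N : ℝ) / Fintype.card κ) (fun _ _ => mem_univ _) univ_nonempty
      (by simp; field_simp; rfl)
    exact ⟨c, by rwa [le_div_iff₀ (by positivity), one_div_mul_eq_div]⟩
  obtain ⟨c, h⟩ := frequently_exists.1 h1.frequently
  refine ⟨c, (one_div_pos.2 hk).trans_le (le_limsup_of_frequently_le (h.mono fun N h => h.trans_eq ?_)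
    (isBoundedUnder_of ⟨1, fun N => div_le_one_of_le₀ ?_ (by positivity)⟩))⟩
  · congr 3
    ext x
    simp only [mem_filter, mem_Icc, Set.mem_ofPred_eq]
    tauto
  · exact Nat.cast_le.2 ((@card_filter_le _ _ _ (_)).trans (by simp))

theorem not_thick (α : ℝ) (f : ℝ → ℝ) : ∃ E : Set ℕ, (∀ x ∈ E, 1 ≤ x) ∧ 0 < upperDensity E ∧
    ¬ IsThick (ret f E ∩ ret (fun t => α * f t + t) E) := by
  obtain ⟨q, hq⟩ := exists_nat_gt (2 * (1 + |α|))
  have hq0 : (0 : ℝ) < q := by linarith [abs_nonneg α]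
  haveI : NeZero (4 * q) := ⟨mul_ne_zero four_ne_zero (Nat.cast_pos.1 hq0).ne'⟩
  obtain ⟨c, hc⟩ := exists_color fun x => ((x : ZMod (4 * q)), ((⌊α * x / q⌋ : ℤ) : ZMod 4))
  refine ⟨_, fun x hx => hx.1, hc, fun h => ?_⟩
  obtain ⟨a, ha⟩ := h (4 * q)
  obtain ⟨i, hi, m, hm⟩ : ∃ i ≤ 4 * q, ∃ m : ℕ, a + i = 4 * q * m + 2 * q :=
    ⟨4 * q - (a + 2 * q) % (4 * q), by omega, (a + 2 * q) / (4 * q), by
      have := Nat.mod_lt (a + 2 * q) (NeZero.pos (4 * q))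
      have := Nat.div_add_mod (a + 2 * q) (4 * q)
      omega⟩
  obtain ⟨⟨-, x, hx, y, hy, e⟩, -, x', hx', y', hy', e'⟩ := ha i hi
  rw [hm] at e e'
  obtain ⟨u, hu⟩ := (ZMod.intCast_eq_intCast_iff_dvd_sub _ _ 4).1
    (congrArg Prod.snd (hx.2.trans hy.2.symm))
  obtain ⟨v, hv⟩ := (ZMod.intCast_eq_intCast_iff_dvd_sub x' y' (4 * q)).1
    (by simpa using congrArg Prod.fst (hx'.2.trans hy'.2.symm))
  set t := f ((4 * q * m + 2 * q : ℕ) : ℝ)
  have h1 := Int.floor_le (α * x / q)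
  have h2 := Int.lt_floor_add_one (α * x / q)
  have h3 := Int.floor_le (α * y / q)
  have h4 := Int.lt_floor_add_one (α * y / q)
  rw [le_div_iff₀ hq0] at h1 h3
  rw [div_lt_iff₀ hq0] at h2 h4
  have h5 := Int.floor_le (α * t + (4 * q * m + 2 * q : ℕ))
  have h6 := Int.lt_floor_add_one (α * t + (4 * q * m + 2 * q : ℕ))
  have h7 : |α * (t - ⌊t⌋)| ≤ |α| := by
    rw [abs_mul]
    exact mul_le_of_le_one_right (abs_nonneg _) (abs_le.2 ⟨by linarith [Int.floor_le t],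
      by linarith [Int.lt_floor_add_one t]⟩)
  have e2 : ⌊α * t + (4 * q * m + 2 * q : ℕ)⌋ = 4 * q * v :=
    (eq_sub_of_add_eq' e'.symm).trans (by simpa using hv)
  rw [e2] at h5 h6
  have hu' : ((⌊α * y / q⌋ : ℤ) : ℝ) = ⌊α * x / q⌋ + 4 * u := by
    exact_mod_cast (by push_cast at hu; linarith)
  have e1 : (y : ℝ) = x + ⌊t⌋ := by exact_mod_cast e
  rw [hu', e1] at h3 h4
  push_cast at h5 h6
  rw [abs_le] at h7
  have k1 : (0 : ℝ) < 4 * (v - u - m) := (mul_pos_iff_of_pos_right hq0).1 (by nlinarith)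
  have k2 : (0 : ℝ) < 4 - 4 * (v - u - m) := (mul_pos_iff_of_pos_right hq0).1 (by nlinarith)
  have k3 : (0 : ℤ) < 4 * (v - u - m) := by exact_mod_cast k1
  have k4 : (0 : ℤ) < 4 - 4 * (v - u - m) := by exact_mod_cast k2
  omega

end Pool.Agent.H28.Thick
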