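import Mathlib

set_option autoImplicit false

namespace Pool.Agent.H28.Tw

open Finset

/-- The leg of an element: two legs of size three, then legs of size two. -/
def leg (e : ℕ) : ℕ := if e < 6 then e / 3 else (e - 2) / 2

/-- Transversals of the short legs. -/
def Tr (k : ℕ) (T : Finset ℕ) : Prop := T ⊆ Ico 6 (2 * k + 6) ∧ T.card = k ∧ (T.image leg).card = k

/-- The colours of a transversal. -/
def col (T : Finset ℕ) (c : ℕ) : Prop := (∃ e ∈ T, e % 2 = 0) ∧
  if (T.filter fun e => e % 2 = 1).card % 2 = 1 then c = 2 else c = 0 ∨ (c = 1 ∧ ∀ e ∈ T, e % 2 = 0)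

/-- The circuit-hyperplanes. -/
def HH (k : ℕ) (H : Finset ℕ) : Prop := ∃ T c, Tr k T ∧ col T c ∧ H = insert c (insert (3 + c) T)

/-- Independent sets. -/
def OK (k : ℕ) (I : Finset ℕ) : Prop :=
  I ⊆ range (2 * k + 6) ∧ I.card ≤ k + 2 ∧ I.card ≤ (I.image leg).card + 1 ∧ ¬ HH k I

variable {k : ℕ}

theorem col_lt {T : Finset ℕ} {c : ℕ} (h : col T c) : c < 3 := by
  have := h.2
  split_ifs at this <;> omega

theorem Tr.image {T : Finset ℕ} (h : Tr k T) : T.image leg = Ico 2 (k + 2) := by
  apply eq_of_subset_of_card_le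
  · intro l hl
    obtain ⟨e, he, rfl⟩ := mem_image.1 hl
    have := mem_Ico.1 (h.1 he)
    simp only [leg, mem_Ico]
    split_ifs <;> omega
  · simp [h.2.2]

theorem Tr.ge {T : Finset ℕ} (h : Tr k T) {e : ℕ} (he : e ∈ T) : 6 ≤ e := (mem_Ico.1 (h.1 he)).1

theorem HH.card {H : Finset ℕ} (h : HH k H) : H.card = k + 2 ∧ (H.image leg).card = k + 2 := by
  obtain ⟨T, c, hT, hc, rfl⟩ := h
  have := col_lt hc
  have h1 : 3 + c ∉ T := fun h => by have := hT.ge h; omega
  have h2 : c ∉ insert (3 + c) T := fun h => by
    rcases mem_insert.1 h with h | h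
    · omega
    · have := hT.ge h; omega
  refine ⟨by rw [card_insert_of_notMem h2, card_insert_of_notMem h1, hT.2.1], ?_⟩
  have a1 : leg c = 0 := by unfold leg; split_ifs <;> omega
  have a2 : leg (3 + c) = 1 := by unfold leg; split_ifs <;> omega
  rw [image_insert, image_insert, hT.image, a1, a2, card_insert_of_notMem (by simp),
    card_insert_of_notMem (by simp)]
  simp

theorem HH.uniq {I : Finset ℕ} {e e' : ℕ} (he : e ∉ I) (he' : e' ∉ I) (h : HH k (insert e I))
    (h' : HH k (insert e' I)) : e = e' := by
  by_contra hne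
  obtain ⟨T, c, hT, hc, h⟩ := h
  obtain ⟨T', c', hT', hc', h'⟩ := h'
  have := col_lt hc
  have := col_lt hc'
  have m := fun x => Finset.ext_iff.1 h x
  have m' := fun x => Finset.ext_iff.1 h' x
  simp only [mem_insert] at m m'
  have hcc : c = c' := by
    by_contra hcc
    have a1 := (m c).2 (Or.inl rfl)
    have a2 := (m (3 + c)).2 (Or.inr (Or.inl rfl))
    have a3 : c ∉ I := fun h => by
      rcases (m' c).1 (Or.inr h) with h | h | h
      · omega
      · omega
      · have := hT'.ge h; omega
    have a4 : 3 + c ∉ I := fun h => by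
      rcases (m' (3 + c)).1 (Or.inr h) with h | h | h
      · omega
      · omega
      · have := hT'.ge h; omega
    have := a1.resolve_right a3
    have := a2.resolve_right a4
    omega
  subst hcc
  have heT : e ∈ T := by
    rcases (m e).1 (Or.inl rfl) with h | h | h
    · exact absurd ((m' e).2 (Or.inl h)) (by simp [hne, he])
    · exact absurd ((m' e).2 (Or.inr (Or.inl h))) (by simp [hne, he])
    · exact h
  have heT' : e' ∈ T' := by
    rcases (m' e').1 (Or.inl rfl) with h | h | h
    · exact absurd ((m e').2 (Or.inl h)) (by simp [Ne.symm hne, he'])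
    · exact absurd ((m e').2 (Or.inr (Or.inl h))) (by simp [Ne.symm hne, he'])
    · exact h
  have hS : T.erase e = T'.erase e' := by
    ext x
    simp only [mem_erase]
    constructor
    · rintro ⟨h1, h2⟩
      have h3 := ((m x).2 (Or.inr (Or.inr h2))).resolve_left h1
      have := hT.ge h2
      refine ⟨fun h => he' (h ▸ h3), ?_⟩
      rcases (m' x).1 (Or.inr h3) with h | h | h
      · omega
      · omega
      · exact h
    · rintro ⟨h1, h2⟩
      have h3 := ((m' x).2 (Or.inr (Or.inr h2))).resolve_left h1
      have := hT'.ge h2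
      refine ⟨fun h => he (h ▸ h3), ?_⟩
      rcases (m x).1 (Or.inr h3) with h | h | h
      · omega
      · omega
      · exact h
  have hl : leg e = leg e' := by
    have h1 : leg e ∈ T'.image leg := by
      rw [hT'.image, ← hT.image]
      exact mem_image_of_mem _ heT
    obtain ⟨s, hs, hs'⟩ := mem_image.1 h1
    by_cases hse : s = e'
    · rw [← hs', hse]
    · have h2 : s ∈ T.erase e := hS ▸ mem_erase.2 ⟨hse, hs⟩
      have h3 := card_image_iff.1 (hT.2.2.trans hT.2.1.symm)
      exact absurd (h3 (mem_erase.1 h2).2 heT hs') (mem_erase.1 h2).1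
  have g1 := hT.ge heT
  have g2 := hT'.ge heT'
  unfold leg at hl
  rw [if_neg (by omega), if_neg (by omega)] at hl
  have b1 := hc.2
  have b2 := hc'.2
  rw [← insert_erase heT, filter_insert] at b1
  rw [← insert_erase heT', filter_insert, ← hS] at b2
  have n1 : e ∉ (T.erase e).filter fun e => e % 2 = 1 := by simp
  have n2 : e' ∉ (T.erase e).filter fun e => e % 2 = 1 := by simp [hS]
  by_cases hp : e % 2 = 1
  · rw [if_pos hp, card_insert_of_notMem n1] at b1
    rw [if_neg (show ¬ e' % 2 = 1 by omega)] at b2
    split_ifs at b1 b2 <;> omega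
  · rw [if_neg hp] at b1
    rw [if_pos (show e' % 2 = 1 by omega), card_insert_of_notMem n2] at b2
    split_ifs at b1 b2 <;> omega

theorem OK.mono {I J : Finset ℕ} (hJ : OK k J) (h : I ⊆ J) : OK k I := by
  obtain ⟨h1, h2, h3, h4⟩ := hJ
  have a1 := card_le_card h
  refine ⟨h.trans h1, by omega, ?_, fun hI => h4 ?_⟩
  · have a2 : J.image leg ⊆ I.image leg ∪ (J \ I).image leg := by
      rw [← image_union, union_sdiff_of_subset h]
    have a3 := (card_le_card a2).trans (card_union_le _ _)
    have a4 := card_image_le (s := J \ I) (f := leg)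
    have a5 := card_sdiff_add_card_eq_card h
    omega
  · have := hI.card.1
    rwa [← eq_of_subset_of_card_le h (by omega)]

theorem OK.aug {I J : Finset ℕ} (hI : OK k I) (hJ : OK k J) (h : I.card < J.card) :
    ∃ e ∈ J, e ∉ I ∧ OK k (insert e I) := by
  obtain ⟨h1, h2, h3, h4⟩ := hI
  obtain ⟨g1, g2, g3, g4⟩ := hJ
  by_cases hx : I.card ≤ (I.image leg).card
  · have key : ∀ e ∈ J, e ∉ I → ¬ HH k (insert e I) → OK k (insert e I) := by
      intro e he heI hH
      have := card_le_card (image_subset_image (f := leg) (subset_insert e I))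
      refine ⟨insert_subset (g1 he) h1, ?_, ?_, hH⟩ <;> rw [card_insert_of_notMem heI] <;> omega
    obtain ⟨e, he, heI⟩ := exists_mem_notMem_of_card_lt_card h
    by_cases hH : HH k (insert e I)
    · have : ¬ J ⊆ insert e I := fun hs => g4 (by
        rwa [eq_of_subset_of_card_le hs (by rw [card_insert_of_notMem heI]; omega)])
      obtain ⟨f, hf, hf'⟩ := not_subset.1 this
      rw [mem_insert, not_or] at hf'
      exact ⟨f, hf, hf'.2, key f hf hf'.2 fun hH' => hf'.1 (hH'.uniq hf'.2 heI hH)⟩
    · exact ⟨e, he, heI, key e he heI hH⟩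
  · obtain ⟨l, hl, hlI⟩ := exists_mem_notMem_of_card_lt_card
      (show (I.image leg).card < (J.image leg).card by omega)
    obtain ⟨e, he, rfl⟩ := mem_image.1 hl
    have heI : e ∉ I := fun h => hlI (mem_image_of_mem _ h)
    have a1 : ((insert e I).image leg).card = (I.image leg).card + 1 := by
      rw [image_insert, card_insert_of_notMem hlI]
    have a2 := card_insert_of_notMem heI
    refine ⟨e, he, heI, insert_subset (g1 he) h1, by omega, by omega, fun hH => ?_⟩
    have := hH.card
    omega

/-- The spike with two long legs. -/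
noncomputable def sp (k : ℕ) : Matroid ℕ :=
  (IndepMatroid.ofFinset (range (2 * k + 6) : Finset ℕ) (OK k)
    ⟨by simp, by simp, by simp, fun h => by simpa using h.card.1⟩ (fun _ _ hJ h => hJ.mono h)
    (fun _ _ hI hJ h => hI.aug hJ h) fun _ h => coe_subset.2 h.1).matroid

theorem sp_E : (sp k).E = (range (2 * k + 6) : Finset ℕ) := rfl

theorem sp_indep (I : Finset ℕ) : (sp k).Indep I ↔ OK k I := by
  simp [sp]

theorem Tr.ok_iff {K I : Finset ℕ} (hK : Tr k K) (hI : I ⊆ range (2 * k + 6)) (hd : Disjoint I K) :
    OK k (I ∪ K) ↔ I.card ≤ 2 ∧ I.card ≤ ((I.filter (· < 6)).image leg).card + 1 ∧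
      ∀ c < 3, I = {c, 3 + c} → ¬ col K c := by
  have a1 : (I ∪ K).card = I.card + k := by rw [card_union_of_disjoint hd, hK.2.1]
  have a2 : (I ∪ K).image leg = (I.filter (· < 6)).image leg ∪ Ico 2 (k + 2) := by
    rw [image_union, hK.image]
    ext l
    simp only [mem_union, mem_image, mem_filter, mem_Ico]
    constructor
    · rintro (⟨e, he, rfl⟩ | h)
      · by_cases h6 : e < 6
        · exact Or.inl ⟨e, ⟨he, h6⟩, rfl⟩
        · have := mem_range.1 (hI he)
          right
          unfold leg
          rw [if_neg h6]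
          omega
      · exact Or.inr h
    · rintro (⟨e, he, rfl⟩ | h)
      · exact Or.inl ⟨e, he.1, rfl⟩
      · exact Or.inr h
  have a3 : ((I ∪ K).image leg).card = ((I.filter (· < 6)).image leg).card + k := by
    rw [a2, card_union_of_disjoint, Nat.card_Ico]
    · rfl
    · rw [disjoint_left]
      intro l hl hl'
      obtain ⟨e, he, rfl⟩ := mem_image.1 hl
      have := (mem_filter.1 he).2
      have := mem_Ico.1 hl'
      unfold leg at this
      split_ifs at this
      omega
  have a4 : I ∪ K ⊆ range (2 * k + 6) :=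
    union_subset hI fun e he => mem_range.2 (mem_Ico.1 (hK.1 he)).2
  have a5 : HH k (I ∪ K) ↔ ∃ c < 3, I = {c, 3 + c} ∧ col K c := by
    constructor
    · intro h
      have h0 := h.card.1
      obtain ⟨T, c, hT, hc, h⟩ := h
      have hc3 := col_lt hc
      have m := fun x => Finset.ext_iff.1 h x
      simp only [mem_insert, mem_union] at m
      have hIc : I = {c, 3 + c} := by
        symm
        apply eq_of_subset_of_card_le
        · intro x hx
          simp only [mem_insert, mem_singleton] at hx
          refine ((m x).2 (by tauto)).resolve_right fun h => ?_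
          have := hK.ge h
          omega
        · rw [card_pair (by omega)]
          omega
      have hKT : K = T := by
        apply eq_of_subset_of_card_le _ (by rw [hK.2.1, hT.2.1])
        intro x hx
        have := hK.ge hx
        rcases (m x).1 (Or.inr hx) with h | h | h
        · omega
        · omega
        · exact h
      exact ⟨c, hc3, hIc, hKT ▸ hc⟩
    · rintro ⟨c, -, rfl, hc⟩
      exact ⟨K, c, hK, hc, by simp⟩
  unfold OK
  rw [a1, a3, a5]
  push Not
  simp only [a4, true_and]
  refine and_congr (by omega) (and_congr (by omega) Iff.rfl)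

end Pool.Agent.H28.Tw
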