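import Pool.Agent.H28.Tw1

set_option autoImplicit false

namespace Pool.Agent.H28.Tw

open Finset

variable {k : ℕ}

theorem leg_lt {e : ℕ} (h : e < 2 * k + 6) : leg e < k + 2 := by
  unfold leg
  split_ifs <;> omega

def fib (l : ℕ) : Finset ℕ := if l < 2 then {3 * l, 3 * l + 1, 3 * l + 2} else {2 * l + 2, 2 * l + 3}

theorem mem_fib (e : ℕ) : e ∈ fib (leg e) := by
  unfold fib leg
  split_ifs <;> simp only [mem_insert, mem_singleton] <;> omega

theorem card_fib (l : ℕ) : (fib l).card ≤ if l < 2 then 3 else 2 := by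
  unfold fib
  split_ifs
  · exact card_le_three
  · exact card_le_two

theorem core {κ : Type} [DecidableEq κ] [Inhabited κ] {K G : Finset ℕ} (P : ℕ → κ)
    (hK : K ⊆ range (2 * k + 6)) (hG : G ⊆ range (2 * k + 6)) (hd : Disjoint G K)
    (h2 : ∀ g ∈ G, ∀ g' ∈ G, P g ≠ P g' → OK k ({g, g'} ∪ K))
    (h3 : ∀ T ⊆ G, T.card = 3 → ¬ OK k (T ∪ K)) (h4 : 4 ≤ (G.image P).card)
    (h5 : ∀ c, 6 ≤ (G.filter fun g => P g ≠ c).card) : Tr k K ∧ range 6 ⊆ G := by
  have cu : ∀ S ⊆ G, (S ∪ K).card = S.card + K.card := fun S hS =>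
    card_union_of_disjoint (hd.mono_left hS)
  have su : ∀ S ⊆ G, S ∪ K ⊆ range (2 * k + 6) := fun S hS => union_subset (hS.trans hG) hK
  have lu : ∀ S ⊆ G, ((S ∪ K).image leg).card ≤ k + 2 := fun S hS => by
    have : (S ∪ K).image leg ⊆ range (k + 2) := fun l hl => by
      obtain ⟨e, he, rfl⟩ := mem_image.1 hl
      exact mem_range.2 (leg_lt (mem_range.1 (su S hS he)))
    simpa using card_le_card this
  have iu : ∀ S : Finset ℕ, (∀ g ∈ S, leg g ∉ K.image leg) →
      ((S ∪ K).image leg).card = (S.image leg).card + (K.image leg).card := fun S hS => by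
    rw [image_union, card_union_of_disjoint]
    rw [disjoint_left]
    intro l hl
    obtain ⟨e, he, rfl⟩ := mem_image.1 hl
    exact hS e he
  have hp : ∀ g ∈ G, ∀ g' ∈ G, P g ≠ P g' → K.card ≤ k ∧
      K.card + 1 ≤ (insert (leg g) (insert (leg g') (K.image leg))).card := by
    intro g hg g' hg' h
    obtain ⟨-, a1, a2, -⟩ := h2 g hg g' hg' h
    rw [cu _ (insert_subset hg (singleton_subset_iff.2 hg')),
      card_pair (fun e => h (by rw [e]))] at a1 a2
    simp only [insert_union, singleton_union, image_insert] at a2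
    omega
  have ht := card_image_le (s := K) (f := leg)
  obtain ⟨S, hS, hSi, hSe⟩ := exists_subset_injOn_image_eq_of_surjOn (f := P) (G : Set ℕ)
    (G.image P) (by rw [coe_image]; exact Set.surjOn_image _ _)
  have hSG : S ⊆ G := coe_subset.1 hS
  have hSc : 4 ≤ S.card := by rwa [← card_image_of_injOn hSi, hSe]
  obtain ⟨g0, hg0, g1, hg1, h01⟩ := one_lt_card.1 (show 1 < S.card by omega)
  have hKk := (hp g0 (hSG hg0) g1 (hSG hg1) fun h => h01 (hSi hg0 hg1 h)).1
  by_cases hx : (K.image leg).card < K.card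
  · exfalso
    have a1 : ∀ g ∈ S, ∀ g' ∈ S, g ≠ g' → leg g ∉ K.image leg ∧ leg g ≠ leg g' := by
      intro g hg g' hg' h
      have b1 := (hp g (hSG hg) g' (hSG hg') fun e => h (hSi hg hg' e)).2
      have b2 := card_insert_le (leg g') (K.image leg)
      have b3 : leg g ∉ insert (leg g') (K.image leg) := fun h => by
        rw [insert_eq_of_mem h] at b1
        omega
      rw [mem_insert, not_or] at b3
      exact ⟨b3.2, b3.1⟩
    have a2 : ∀ g ∈ S, leg g ∉ K.image leg := fun g hg => by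
      obtain ⟨g', hg', h⟩ := exists_mem_ne (show 1 < S.card by omega) g
      exact (a1 g hg g' hg' h.symm).1
    have a3 : Set.InjOn leg S := fun g hg g' hg' h => by
      by_contra hn
      exact (a1 g hg g' hg' hn).2 h
    have a4 := lu S hSG
    rw [iu S a2, card_image_of_injOn a3] at a4
    have a5 := (hp g0 (hSG hg0) g1 (hSG hg1) fun h => h01 (hSi hg0 hg1 h)).2
    have a6 := card_insert_le (leg g0) (insert (leg g1) (K.image leg))
    have a7 := card_insert_le (leg g1) (K.image leg)
    obtain ⟨T, hT, hTc⟩ := exists_subset_card_eq (show 3 ≤ S.card by omega)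
    have a8 := iu T fun g hg => a2 g (hT hg)
    rw [card_image_of_injOn (a3.mono (coe_subset.2 hT))] at a8
    have a9 := cu T (hT.trans hSG)
    refine h3 T (hT.trans hSG) hTc ⟨su T (hT.trans hSG), by omega, by omega, fun h => ?_⟩
    have := h.card
    omega
  obtain ⟨c, hc⟩ : ∃ c, ∀ g ∈ G, P g ≠ c → leg g ∉ K.image leg := by
    by_cases h : ∃ g ∈ G, leg g ∈ K.image leg
    · obtain ⟨g, hg, h⟩ := h
      refine ⟨P g, fun g' hg' hne h' => ?_⟩
      have := (hp g' hg' g hg hne).2
      rw [insert_eq_of_mem h, insert_eq_of_mem h'] at this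
      omega
    · exact ⟨default, fun g hg _ h' => h ⟨g, hg, h'⟩⟩
  have h6 := h5 c
  set G' := G.filter fun g => P g ≠ c
  have hG' : G' ⊆ G := filter_subset _ _
  have hu : ∀ g ∈ G', leg g ∉ K.image leg := fun g hg =>
    hc g (mem_filter.1 hg).1 (mem_filter.1 hg).2
  have hk : K.card = k := by
    by_contra hlt
    by_cases hi : Set.InjOn leg G'
    · have a4 := lu G' hG'
      rw [iu G' hu, card_image_of_injOn hi] at a4
      obtain ⟨T, hT, hTc⟩ := exists_subset_card_eq (show 3 ≤ G'.card by omega)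
      have a8 := iu T fun g hg => hu g (hT hg)
      rw [card_image_of_injOn (hi.mono (coe_subset.2 hT))] at a8
      have a9 := cu T (hT.trans hG')
      refine h3 T (hT.trans hG') hTc ⟨su T (hT.trans hG'), by omega, by omega, fun h => ?_⟩
      have := h.card
      omega
    · unfold Set.InjOn at hi
      push Not at hi
      obtain ⟨g, hg, g', hg', hl, hne⟩ := hi
      have b1 := card_fib (leg g)
      obtain ⟨g'', hg'', hl'⟩ := exists_mem_notMem_of_card_lt_card
        (show (fib (leg g)).card < G'.card by split_ifs at b1 <;> omega)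
      have b2 : leg g'' ≠ leg g := fun h => hl' (h ▸ mem_fib g'')
      have hT : ({g'', g, g'} : Finset ℕ) ⊆ G' :=
        insert_subset hg'' (insert_subset hg (singleton_subset_iff.2 hg'))
      have hTc : ({g'', g, g'} : Finset ℕ).card = 3 :=
        card_eq_three.2 ⟨_, _, _, fun h => b2 (by rw [h]), fun h => b2 (by rw [h, hl]), hne, rfl⟩
      have a8 := iu _ fun g hg => hu g (hT hg)
      rw [image_insert, image_insert, image_singleton, ← hl, insert_eq_of_mem (mem_singleton_self _),
        card_pair b2] at a8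
      have a9 := cu _ (hT.trans hG')
      refine h3 _ (hT.trans hG') hTc ⟨su _ (hT.trans hG'), by omega, by omega, fun h => ?_⟩
      have := h.card
      omega
  have a4 := lu G' hG'
  rw [iu G' hu] at a4
  have hr : G' ⊆ range 6 := by
    intro g hg
    by_contra h6'
    rw [mem_range] at h6'
    have b1 := card_fib (leg g)
    rw [if_neg (by unfold leg; rw [if_neg h6']; omega)] at b1
    obtain ⟨g', hg', hl'⟩ := exists_mem_notMem_of_card_lt_card
      (show (fib (leg g)).card < G'.card by omega)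
    have b2 := card_fib (leg g')
    have b3 := card_union_le (fib (leg g)) (fib (leg g'))
    obtain ⟨g'', hg'', hl''⟩ := exists_mem_notMem_of_card_lt_card
      (show (fib (leg g) ∪ fib (leg g')).card < G'.card by split_ifs at b2 <;> omega)
    rw [mem_union, not_or] at hl''
    have b4 : ({leg g, leg g', leg g''} : Finset ℕ) ⊆ G'.image leg :=
      insert_subset (mem_image_of_mem _ hg) (insert_subset (mem_image_of_mem _ hg')
        (singleton_subset_iff.2 (mem_image_of_mem _ hg'')))
    have b5 := card_le_card b4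
    have b6 : ({leg g, leg g', leg g''} : Finset ℕ).card = 3 :=
      card_eq_three.2 ⟨leg g, leg g', leg g'', fun h => hl' (h ▸ mem_fib g'),
        fun h => hl''.1 (h ▸ mem_fib g''), fun h => hl''.2 (h ▸ mem_fib g''), rfl⟩
    omega
  have hr' : range 6 ⊆ G := by
    rw [← eq_of_subset_of_card_le hr (by simpa using h6)]
    exact hG'
  refine ⟨⟨fun e he => mem_Ico.2 ⟨?_, mem_range.1 (hK he)⟩, hk, by omega⟩, hr'⟩
  by_contra h
  exact disjoint_left.1 hd (hr' (mem_range.2 (by omega))) he

theorem anaU {K G : Finset ℕ} (hK : K ⊆ range (2 * k + 6)) (hG : G ⊆ range (2 * k + 6))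
    (hd : Disjoint G K) (hc : G.card = 7) (h : ∀ I ⊆ G, OK k (I ∪ K) ↔ I.card ≤ 2) (i : ℕ)
    (hi : i < k) : 2 * i + 7 ∈ K := by
  obtain ⟨hT, hr⟩ := core id hK hG hd
    (fun g hg g' hg' _ => (h _ (insert_subset hg (singleton_subset_iff.2 hg'))).2 card_le_two)
    (fun T hT hc h' => by have := (h T hT).1 h'; omega) (by simp [hc]) (fun c => by
      have := pred_card_le_card_erase (s := G) (a := c)
      rw [← filter_ne'] at this
      simp only [id]
      omega)
  have hodd : ∀ e ∈ K, e % 2 = 1 := by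
    intro e he
    by_contra hne
    have key : ∀ c < 3, ¬ col K c := by
      intro c hc
      have hs : ({c, 3 + c} : Finset ℕ) ⊆ G :=
        insert_subset (hr (mem_range.2 (by omega))) (singleton_subset_iff.2 (hr (mem_range.2
          (by omega))))
      exact ((hT.ok_iff (hs.trans hG) (hd.mono_left hs)).1 ((h _ hs).2 card_le_two)).2.2 c hc rfl
    by_cases hp : (K.filter fun e => e % 2 = 1).card % 2 = 1
    · exact key 2 (by omega) ⟨⟨e, he, by omega⟩, by rw [if_pos hp]⟩
    · exact key 0 (by omega) ⟨⟨e, he, by omega⟩, by rw [if_neg hp]; exact Or.inl rfl⟩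
  have : i + 2 ∈ K.image leg := by
    rw [hT.image, mem_Ico]
    omega
  obtain ⟨e, he, hl⟩ := mem_image.1 this
  have h1 := hT.ge he
  have h2 := hodd e he
  unfold leg at hl
  rw [if_neg (by omega)] at hl
  rwa [show 2 * i + 7 = e by omega]

def G0 : Finset ℕ := {0, 1, 2, 3, 4, 5, 7, 9}

def NI (I : Finset ℕ) : Prop := I.card ≤ 2 ∧ I.card ≤ ((I.filter (· < 6)).image leg).card + 1 ∧
  ∀ c < 2, I ≠ {c, 3 + c}

instance (I : Finset ℕ) : Decidable (NI I) := by
  unfold NI
  infer_instance

def P0 (e : ℕ) : Fin 5 := if e = 0 ∨ e = 3 then 0 else if e = 1 ∨ e = 4 then 1 else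
  if e = 2 then 2 else if e = 5 then 3 else 4

theorem anaN {K G : Finset ℕ} (hK : K ⊆ range (2 * k + 6)) (hG : G ⊆ range (2 * k + 6))
    (hd : Disjoint G K) (f : ℕ → ℕ) (hf : Set.BijOn f G G0)
    (h : ∀ I ⊆ G, OK k (I ∪ K) ↔ NI (I.image f)) : ∀ e ∈ K, e % 2 = 0 := by
  have him : G.image f = G0 := by
    apply coe_injective
    rw [coe_image, hf.image_eq]
  have n2 : ∀ a ∈ G0, ∀ b ∈ G0, P0 a ≠ P0 b → NI {a, b} := by decide
  have h2 : ∀ g ∈ G, ∀ g' ∈ G, P0 (f g) ≠ P0 (f g') → OK k ({g, g'} ∪ K) := fun g hg g' hg' hne =>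
    (h _ (insert_subset hg (singleton_subset_iff.2 hg'))).2 (by
      rw [image_insert, image_singleton]
      exact n2 _ (hf.mapsTo hg) _ (hf.mapsTo hg') hne)
  obtain ⟨hT, -⟩ := core (fun g => P0 (f g)) hK hG hd h2
    (fun T hT hc h' => by
      have := ((h T hT).1 h').1
      rw [card_image_of_injOn (hf.injOn.mono (coe_subset.2 hT))] at this
      omega)
    (by
      rw [show (fun g => P0 (f g)) = P0 ∘ f from rfl, ← image_image, him]
      decide) (fun c => by
      have h1 : ∀ c, 6 ≤ (G0.filter fun g => P0 g ≠ c).card := by decide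
      have := h1 c
      rw [← him, filter_image] at this
      exact this.trans card_image_le)
  have dep : ∀ a ∈ G0, ∀ b ∈ G0, a ≠ b → ¬ NI {a, b} → ∃ g ∈ G, ∃ g' ∈ G, f g = a ∧ f g' = b ∧
      (6 ≤ g ∨ ∃ c, ({g, g'} : Finset ℕ) = {c, 3 + c} ∧ col K c) := by
    intro a ha b hb hab hn
    obtain ⟨g, hg, rfl⟩ := hf.surjOn ha
    obtain ⟨g', hg', rfl⟩ := hf.surjOn hb
    refine ⟨g, hg, g', hg', rfl, rfl, ?_⟩
    have hs : ({g, g'} : Finset ℕ) ⊆ G := insert_subset hg (singleton_subset_iff.2 hg')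
    have h1 := h _ hs
    rw [image_insert, image_singleton, hT.ok_iff (hs.trans hG) (hd.mono_left hs)] at h1
    by_contra hc
    push Not at hc
    refine hn (h1.1 ⟨card_le_two, ?_, fun c _ => hc.2 c⟩)
    have : 0 < ((({g, g'} : Finset ℕ).filter (· < 6)).image leg).card :=
      card_pos.2 ⟨_, mem_image_of_mem _ (mem_filter.2 ⟨mem_insert_self _ _, hc.1⟩)⟩
    have := card_le_two (a := g) (b := g')
    omega
  have big : ∀ g ∈ G, ∀ g' ∈ G, P0 (f g) ≠ P0 (f g') → 6 ≤ g → 6 ≤ g' → False := by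
    intro g hg g' hg' hne a1 a2
    have hs : ({g, g'} : Finset ℕ) ⊆ G := insert_subset hg (singleton_subset_iff.2 hg')
    have := ((hT.ok_iff (hs.trans hG) (hd.mono_left hs)).1 (h2 g hg g' hg' hne)).2.1
    rw [card_pair (fun e => hne (by rw [e])), filter_eq_empty_iff.2 (by
      simp only [mem_insert, mem_singleton]
      rintro x (rfl | rfl) <;> omega)] at this
    simp at this
  have two : ∀ g g' s s' c c' : ℕ, P0 (f g) = P0 (f g') → P0 (f s) = P0 (f s') →
      P0 (f g) ≠ P0 (f s) → ({g, g'} : Finset ℕ) = {c, 3 + c} ∧ col K c →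
      ({s, s'} : Finset ℕ) = {c', 3 + c'} ∧ col K c' → ∀ e ∈ K, e % 2 = 0 := by
    rintro g g' s s' c c' e1 e2 e3 ⟨a1, a2⟩ ⟨b1, b2⟩
    have hcc : c ≠ c' := by
      rintro rfl
      have : g ∈ ({s, s'} : Finset ℕ) := by
        rw [b1, ← a1]
        exact mem_insert_self _ _
      simp only [mem_insert, mem_singleton] at this
      rcases this with rfl | rfl
      · exact e3 rfl
      · exact e3 e2.symm
    have a3 := a2.2
    have b3 := b2.2
    split_ifs at a3 b3
    · omega
    · rcases a3 with a3 | a3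
      · exact (b3.resolve_left (by omega)).2
      · exact a3.2
  obtain ⟨g1, m1, s1, -, e1, f1, d1⟩ := dep 0 (by decide) 3 (by decide) (by decide) (by decide)
  obtain ⟨g2, m2, s2, -, e2, f2, d2⟩ := dep 1 (by decide) 4 (by decide) (by decide) (by decide)
  obtain ⟨g3, m3, s3, -, e3, f3, d3⟩ := dep 7 (by decide) 9 (by decide) (by decide) (by decide)
  rcases d1 with d1 | ⟨c1, d1⟩ <;> rcases d2 with d2 | ⟨c2, d2⟩
  · exact (big g1 m1 g2 m2 (by rw [e1, e2]; decide) d1 d2).elim
  · rcases d3 with d3 | ⟨c3, d3⟩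
    · exact (big g1 m1 g3 m3 (by rw [e1, e3]; decide) d1 d3).elim
    · exact two _ _ _ _ _ _ (by rw [e2, f2]; decide) (by rw [e3, f3]; decide)
        (by rw [e2, e3]; decide) d2 d3
  · rcases d3 with d3 | ⟨c3, d3⟩
    · exact (big g2 m2 g3 m3 (by rw [e2, e3]; decide) d2 d3).elim
    · exact two _ _ _ _ _ _ (by rw [e1, f1]; decide) (by rw [e3, f3]; decide)
        (by rw [e1, e3]; decide) d1 d3
  · exact two _ _ _ _ _ _ (by rw [e1, f1]; decide) (by rw [e2, f2]; decide)
      (by rw [e1, e2]; decide) d1 d2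

end Pool.Agent.H28.Tw
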