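import Pool.Agent.H28.Tw2

set_option autoImplicit false

namespace Pool.Agent.H28.Tw

open Finset

variable {k : ℕ}

theorem bridge {C D : Set ℕ} {K : Finset ℕ} (hK : (sp k).IsBasis' K C) (I : Finset ℕ)
    (hI : (I : Set ℕ) ⊆ (((sp k).contract C).delete D).E) :
    (((sp k).contract C).delete D).Indep I ↔ OK k (I ∪ K) := by
  rw [Matroid.delete_indep_iff, hK.contract_indep_iff, ← sp_indep, coe_union]
  exact ⟨fun h => h.1.1, fun h => ⟨⟨h, Set.disjoint_right.2 fun x hx => (hI hx).1.2⟩,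
    Set.disjoint_left.2 fun x hx => (hI hx).2⟩⟩

/-- One element from each short leg. -/
def TT (k r : ℕ) : Finset ℕ := (range k).image fun i => 2 * i + 6 + r

theorem TT_tr {r : ℕ} (hr : r < 2) : Tr k (TT k r) := by
  refine ⟨fun e he => ?_, ?_, ?_⟩
  · obtain ⟨i, hi, rfl⟩ := mem_image.1 he
    rw [mem_range] at hi
    rw [mem_Ico]
    omega
  · rw [TT, card_image_of_injective _ fun a b h => by simpa using h, card_range]
  · rw [TT, image_image, card_image_of_injective _ fun a b h => ?_, card_range]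
    simp only [Function.comp, leg] at h
    rw [if_neg (by omega), if_neg (by omega)] at h
    omega

theorem TT_mod {r e : ℕ} (hr : r < 2) (he : e ∈ TT k r) : e % 2 = r := by
  obtain ⟨i, -, rfl⟩ := mem_image.1 he
  omega

theorem TT_basis {r : ℕ} (hr : r < 2) : (sp k).IsBasis' (TT k r) (TT k r) := by
  refine (Matroid.Indep.isBasis_self ?_).isBasis'
  rw [sp_indep, ← empty_union (TT k r), (TT_tr hr).ok_iff (by simp) (by simp)]
  refine ⟨by simp, by simp, fun c _ h => ?_⟩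
  exact absurd h.symm (insert_ne_empty _ _)

/-- The minor with ground set `G` obtained by contracting a transversal. -/
noncomputable def mn (k r : ℕ) (G : Finset ℕ) : Matroid ℕ :=
  ((sp k).contract (TT k r)).delete (G : Set ℕ)ᶜ

theorem mn_E {r : ℕ} {G : Finset ℕ} (hG : G ⊆ range (2 * k + 6)) (hd : Disjoint G (TT k r)) :
    (mn k r G).E = G := by
  ext x
  simp only [mn, Matroid.delete_ground, Matroid.contract_ground, sp_E, Set.mem_sdiff, mem_coe,
    Set.mem_compl_iff, not_not]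
  exact ⟨fun h => h.2, fun h => ⟨⟨hG h, disjoint_left.1 hd h⟩, h⟩⟩

theorem G0_sub (hk : 2 ≤ k) : G0 ⊆ range (2 * k + 6) ∧ Disjoint G0 (TT k 0) := by
  refine ⟨fun x hx => ?_, disjoint_left.2 fun x hx h => ?_⟩
  · simp only [G0, mem_insert, mem_singleton] at hx
    rw [mem_range]
    omega
  · have := TT_mod two_pos h
    have := (TT_tr two_pos).ge h
    simp only [G0, mem_insert, mem_singleton] at hx
    omega

theorem mn_N (hk : 2 ≤ k) (I : Finset ℕ) (hI : I ⊆ G0) : (mn k 0 G0).Indep I ↔ NI I := by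
  obtain ⟨h1, h2⟩ := G0_sub hk
  rw [mn, bridge (TT_basis two_pos) I (by
    rw [← mn, mn_E h1 h2]
    exact hI), (TT_tr two_pos).ok_iff (hI.trans h1) (h2.mono_left hI)]
  have hc : ∀ c, col (TT k 0) c ↔ c < 2 := by
    intro c
    have h0 : (TT k 0).filter (fun e => e % 2 = 1) = ∅ :=
      filter_eq_empty_iff.2 fun e he => by have := TT_mod two_pos he; omega
    have h6 : 6 ∈ TT k 0 := mem_image.2 ⟨0, mem_range.2 (by omega), rfl⟩
    unfold col
    rw [h0, if_neg (by simp)]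
    constructor
    · rintro ⟨-, h | h⟩ <;> omega
    · intro h
      refine ⟨⟨6, h6, rfl⟩, ?_⟩
      by_cases h' : c = 0
      · exact Or.inl h'
      · exact Or.inr ⟨by omega, fun e he => TT_mod two_pos he⟩
  simp only [hc, NI]
  exact and_congr_right fun _ => and_congr_right fun _ =>
    ⟨fun h c h1 h2 => h c (by omega) h2 h1, fun h c _ h2 h1 => h c h1 h2⟩

theorem mn_U (hk : 1 ≤ k) : (mn k 1 (range 7)).E = (range 7 : Finset ℕ) ∧
    ∀ I : Finset ℕ, I ⊆ range 7 → ((mn k 1 (range 7)).Indep I ↔ I.card ≤ 2) := by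
  have h1 : range 7 ⊆ range (2 * k + 6) := range_subset_range.2 (by omega)
  have h2 : Disjoint (range 7) (TT k 1) := disjoint_left.2 fun x hx h => by
    have := TT_mod one_lt_two h
    have := (TT_tr one_lt_two).ge h
    rw [mem_range] at hx
    omega
  refine ⟨mn_E h1 h2, fun I hI => ?_⟩
  rw [mn, bridge (TT_basis one_lt_two) I (by
    rw [← mn, mn_E h1 h2]
    exact hI), (TT_tr one_lt_two).ok_iff (hI.trans h1) (h2.mono_left hI)]
  refine ⟨fun h => h.1, fun h => ⟨h, ?_, fun c _ _ hc => ?_⟩⟩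
  · have : ∀ I ∈ (range 7).powerset, I.card ≤ 2 →
        I.card ≤ ((I.filter (· < 6)).image leg).card + 1 := by decide +kernel
    exact this I (mem_powerset.2 hI) h
  · obtain ⟨e, he, h⟩ := hc.1
    have := TT_mod one_lt_two he
    omega

def HasN (N : Matroid ℕ) : Prop := ∃ N₁ : Matroid ℕ, Matroid.IsMinor N₁ N ∧
  ∃ f : ℕ → ℕ, Set.BijOn f N₁.E (mn 2 0 G0).E ∧
    ∀ I ⊆ N₁.E, (N₁.Indep I ↔ (mn 2 0 G0).Indep (f '' I))

def HasU (N : Matroid ℕ) : Prop := ∃ N₂ : Matroid ℕ, Matroid.IsMinor N₂ N ∧ N₂.E.Finite ∧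
  N₂.E.ncard = 7 ∧ ∀ I ⊆ N₂.E, (N₂.Indep I ↔ I.ncard ≤ 2)

theorem N_E : (mn 2 0 G0).E = G0 := mn_E (G0_sub le_rfl).1 (G0_sub le_rfl).2

theorem hasN (hk : 2 ≤ k) : HasN (sp k) := by
  have hE := mn_E (G0_sub hk).1 (G0_sub hk).2
  refine ⟨mn k 0 G0, ⟨_, _, rfl⟩, id, by rw [hE, N_E]; exact Set.bijOn_id _, fun I hI => ?_⟩
  rw [hE] at hI
  lift I to Finset ℕ using (finite_toSet G0).subset hI
  rw [Set.image_id, mn_N hk I hI, mn_N le_rfl I hI]

theorem hasU (hk : 1 ≤ k) : HasU (sp k) := by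
  obtain ⟨hE, h⟩ := mn_U hk
  refine ⟨mn k 1 (range 7), ⟨_, _, rfl⟩, by rw [hE]; exact finite_toSet _, by rw [hE]; simp,
    fun I hI => ?_⟩
  rw [hE] at hI
  lift I to Finset ℕ using (finite_toSet _).subset hI
  rw [h I hI, Set.ncard_coe_finset]

theorem big {N : Matroid ℕ} (hN : N.IsMinor (sp k)) (h1 : HasN N) (h2 : HasU N) (i : ℕ)
    (hi : i < k) : 2 * i + 7 ∈ N.E := by
  obtain ⟨C0, D0, rfl⟩ := hN
  have hy : 2 * i + 7 ∈ (sp k).E := by
    rw [sp_E, mem_coe, mem_range]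
    omega
  have fin : (sp k).E.Finite := finite_toSet _
  have gen : ∀ (C D : Set ℕ) (K G : Finset ℕ), (sp k).IsBasis' K C →
      (G : Set ℕ) = (((sp k).contract C).delete D).E →
      K ⊆ range (2 * k + 6) ∧ G ⊆ range (2 * k + 6) ∧ Disjoint G K := fun C D K G hK hG =>
    ⟨coe_subset.1 hK.indep.subset_ground, fun x hx => (hG ▸ mem_coe.2 hx).1.1,
      disjoint_left.2 fun x hx h => (hG ▸ mem_coe.2 hx).1.2 (hK.subset h)⟩
  have hC : 2 * i + 7 ∉ C0 := by
    intro hC
    obtain ⟨_, ⟨C1, D1, rfl⟩, f, hf, h⟩ := h1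
    rw [Matroid.contract_delete_contract_delete'] at hf h
    have hI : (sp k).Indep {2 * i + 7} := by
      rw [← coe_singleton, sp_indep]
      exact ⟨singleton_subset_iff.2 hy, by simp, by simp, fun h => by
        have := h.card.1
        rw [card_singleton] at this
        omega⟩
    obtain ⟨K, hK, hK'⟩ := hI.subset_isBasis'_of_subset (X := C0 ∪ C1 \ D0)
      (Set.singleton_subset_iff.2 (Or.inl hC))
    lift K to Finset ℕ using fin.subset hK.indep.subset_ground
    obtain ⟨G, hG⟩ := (fin.subset ((sp k).contract_delete_isMinor (C0 ∪ C1 \ D0)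
      (D0 ∪ D1)).subset).exists_finset_coe
    obtain ⟨a1, a2, a3⟩ := gen _ _ K G hK hG
    rw [← hG, N_E] at hf
    have := anaN a1 a2 a3 f hf (fun I hI => by
      have hI' : (I : Set ℕ) ⊆ _ := hG ▸ coe_subset.2 hI
      rw [← bridge hK I hI', h I hI', ← coe_image, mn_N le_rfl]
      exact fun x hx => by
        obtain ⟨y, hy, rfl⟩ := mem_image.1 hx
        exact hf.mapsTo (hI hy)) _ (hK' rfl)
    omega
  have hD : 2 * i + 7 ∉ D0 := by
    intro hD
    obtain ⟨_, ⟨C1, D1, rfl⟩, -, hc, h⟩ := h2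
    rw [Matroid.contract_delete_contract_delete'] at hc h
    obtain ⟨K, hK⟩ := (sp k).exists_isBasis' (C0 ∪ C1 \ D0)
    lift K to Finset ℕ using fin.subset hK.indep.subset_ground
    obtain ⟨G, hG⟩ := (fin.subset ((sp k).contract_delete_isMinor (C0 ∪ C1 \ D0)
      (D0 ∪ D1)).subset).exists_finset_coe
    obtain ⟨a1, a2, a3⟩ := gen _ _ K G hK hG
    rw [← hG, Set.ncard_coe_finset] at hc
    have := anaU a1 a2 a3 hc (fun I hI => by
      have hI' : (I : Set ℕ) ⊆ _ := hG ▸ coe_subset.2 hI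
      rw [← bridge hK I hI', h I hI', Set.ncard_coe_finset]) i hi
    rcases hK.subset this with h | h
    · exact hC h
    · exact h.2 hD
  exact ⟨⟨hy, hC⟩, hD⟩

theorem main (B : ℕ) : ∃ N : Matroid ℕ, N.Finite ∧ HasN N ∧ HasU N ∧
    (∀ N' : Matroid ℕ, N'.IsMinor N → N' ≠ N → ¬ (HasN N' ∧ HasU N')) ∧ B < N.E.ncard := by
  classical
  have hex : ∃ n, ∃ N : Matroid ℕ, N.IsMinor (sp (B + 2)) ∧ HasN N ∧ HasU N ∧ N.E.ncard = n :=
    ⟨_, _, Matroid.IsMinor.refl, hasN (by omega), hasU (by omega), rfl⟩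
  obtain ⟨N, h0, h1, h2, h3⟩ := Nat.find_spec hex
  have fin : N.E.Finite := (finite_toSet _).subset h0.subset
  refine ⟨N, ⟨fin⟩, h1, h2, fun N' hN' hne h => hne ?_, ?_⟩
  · have := Nat.find_min' hex ⟨N', hN'.trans h0, h.1, h.2, rfl⟩
    exact (hN'.eq_of_ground_subset
      (Set.eq_of_subset_of_ncard_le hN'.subset (h3 ▸ this) fin).symm.subset).symm
  · have : ((TT (B + 2) 1 : Finset ℕ) : Set ℕ) ⊆ N.E := fun e he => by
      obtain ⟨i, hi, rfl⟩ := mem_image.1 he
      exact big h0 h1 h2 i (mem_range.1 hi)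
    have := Set.ncard_le_ncard this fin
    rw [Set.ncard_coe_finset, (TT_tr one_lt_two).2.1] at this
    omega

end Pool.Agent.H28.Tw
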