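import Mathlib

/-! Two-way deterministic automata, and a two-way simulation of one guessed mark. -/

namespace Pool.Agent.H28.TwoWay

open Relation

/-- tape symbols: the two endmarkers and ordinary letters -/
inductive Sym (Γ : Type) where
  | lft : Sym Γ
  | rgt : Sym Γ
  | ch : Γ → Sym Γ

/-- cell 0 holds the left endmarker, cells `1..|w|` the input, cell `|w|+1` the right endmarker -/
def tape {Γ : Type} (w : List Γ) : ℕ → Sym Γ
  | 0 => .lft
  | h + 1 => match w[h]? with
    | some x => .ch x
    | none => .rgt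

/-- head move: `true` is one cell to the right, `false` one cell to the left -/
def mv (h : ℕ) (d : Bool) (h' : ℕ) : Prop := if d = true then h' = h + 1 else h = h' + 1

/-- two-way deterministic finite automaton -/
structure TDFA (Γ S : Type) where
  init : S
  fin : S → Prop
  δ : S → Sym Γ → Option (S × Bool)

def TDFA.Step {Γ S : Type} (B : TDFA Γ S) (w : List Γ) (c c' : S × ℕ) : Prop :=
  c.2 ≤ w.length + 1 ∧ ∃ d, B.δ c.1 (tape w c.2) = some (c'.1, d) ∧ mv c.2 d c'.2

def TDFA.Accepts {Γ S : Type} (B : TDFA Γ S) (w : List Γ) : Prop :=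
  ∃ s, B.fin s ∧ ReflTransGen (B.Step w) (B.init, 1) (s, w.length + 2)

section tape
variable {Γ : Type} (w : List Γ)

lemma tape_ne_lft (j : ℕ) : tape w (j + 1) ≠ .lft := by
  simp only [tape]; split <;> simp

lemma tape_ch {j : ℕ} (hj : j < w.length) : tape w (j + 1) = .ch w[j] := by
  unfold tape; simp [List.getElem?_eq_getElem hj]

lemma tape_ne_rgt {j : ℕ} (hj : j < w.length) : tape w (j + 1) ≠ .rgt := by
  rw [tape_ch w hj]; simp

lemma tape_rgt : tape w (w.length + 1) = .rgt := by
  unfold tape; simp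

lemma lt_of_tape_ch {h : ℕ} {x : Γ} (hx : tape w h = .ch x) : 1 ≤ h ∧ h ≤ w.length := by
  cases h with
  | zero => simp [tape] at hx
  | succ j =>
    refine ⟨by omega, ?_⟩
    by_contra hc
    have : w[j]? = none := by simp; omega
    simp [tape, this] at hx

end tape

lemma stepR {Γ S : Type} (B : TDFA Γ S) (w : List Γ) {s s' : S} {h : ℕ} (hh : h ≤ w.length + 1)
    (hd : B.δ s (tape w h) = some (s', true)) : B.Step w (s, h) (s', h + 1) :=
  ⟨hh, true, hd, by simp [mv]⟩

lemma stepL {Γ S : Type} (B : TDFA Γ S) (w : List Γ) {s s' : S} {h : ℕ} (hh : h ≤ w.length)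
    (hd : B.δ s (tape w (h + 1)) = some (s', false)) : B.Step w (s, h + 1) (s', h) :=
  ⟨by simpa using hh, false, hd, by simp [mv]⟩

lemma step_det {Γ S : Type} (B : TDFA Γ S) (w : List Γ) : Relator.RightUnique (B.Step w) := by
  rintro ⟨s, h⟩ ⟨s1, h1⟩ ⟨s2, h2⟩ ⟨-, d1, e1, m1⟩ ⟨-, d2, e2, m2⟩
  simp only at e1 e2 m1 m2
  rw [e1] at e2
  simp only [Option.some.injEq, Prod.mk.injEq] at e2
  obtain ⟨rfl, rfl⟩ := e2
  cases d1 <;> simp [mv] at m1 m2 <;> simp <;> omega

lemma not_acc_of_stuck {Γ S : Type} (B : TDFA Γ S) (w : List Γ) {s : S} {h : ℕ}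
    (hr : ReflTransGen (B.Step w) (B.init, 1) (s, h)) (hh : h ≤ w.length + 1)
    (hs : B.δ s (tape w h) = none) : ¬ B.Accepts w := by
  rintro ⟨s', -, hr'⟩
  rcases ReflTransGen.total_of_right_unique (step_det B w) hr hr' with h1 | h1
  · rcases h1.cases_head with h2 | ⟨c, ⟨-, d, e, -⟩, -⟩
    · simp only [Prod.mk.injEq] at h2; omega
    · simp only at e; rw [hs] at e; simp at e
  · rcases h1.cases_head with h2 | ⟨c, ⟨e, -⟩, -⟩
    · simp only [Prod.mk.injEq] at h2; omega
    · simp only at e; omega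

inductive Tag where
  | ini | main | upM | down | upF | upT | acc
  deriving DecidableEq, Fintype

lemma card_tag : Fintype.card Tag = 7 := rfl

section sim
variable {Γ P : Type} [Fintype P] [LinearOrder P]

open Classical in
noncomputable def least (p : P → Prop) : Option P :=
  if h : (Finset.univ.filter p).Nonempty then some ((Finset.univ.filter p).min' h) else none

lemma least_cases (p : P → Prop) :
    (least p = none ∧ ∀ c, ¬ p c) ∨ ∃ c, least p = some c ∧ p c ∧ ∀ d, p d → c ≤ d := by
  classical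
  unfold least
  split_ifs with h
  · right
    refine ⟨_, rfl, ?_, fun d hd => Finset.min'_le _ _ (by simpa using hd)⟩
    simpa using Finset.min'_mem _ h
  · left
    refine ⟨rfl, fun c hc => h ⟨c, by simpa using hc⟩⟩

variable (D : P → Sym Γ → Bool → P) (p0 : P) (Acc : P → Prop)

abbrev St (P : Type) := P × P × P × Tag

open Classical in
noncomputable def fdone (c r : P) (x : Sym Γ) : Option (St P × Bool) :=
  if D c x true = r then some ((c, c, r, .acc), true) else
    match least (fun r' => D r' x false = r) with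
    | some r' => some ((c, c, r', .main), false)
    | none => some ((D c x false, D c x false, r, .upM), true)

noncomputable def tour (c lb r : P) (x : Sym Γ) : Option (St P × Bool) :=
  match least (fun d => D d x false = D c x false ∧ lb < d) with
  | none => fdone D c r x
  | some d => some ((c, d, r, .down), false)

open Classical in
noncomputable def del : St P → Sym Γ → Option (St P × Bool)
  | (a, b, r, .ini), x =>
    if x = .rgt then
      (if Acc a then some ((a, b, r, .acc), true) else
        match least Acc with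
        | none => none
        | some r' => some ((a, a, r', .main), false))
    else some ((D a x false, b, r, .ini), true)
  | (a, _, r, .main), x =>
    if x = .lft then some ((a, a, r, .upM), true) else
      match least (fun c => D c x false = a) with
      | none => none
      | some c => tour D c c r x
  | (a, _, r, .upM), x =>
    if x = .rgt then
      match least (fun r' => Acc r' ∧ r < r') with
      | none => none
      | some r' => some ((a, a, r', .main), false)
    else
      match least (fun r' => D r' x false = D r x false ∧ r < r') with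
      | some r' => some ((a, a, r', .main), false)
      | none => some ((D a x false, D a x false, D r x false, .upM), true)
  | (a, b, r, .down), x =>
    if x = .lft then some ((a, b, r, if a ≠ p0 then .upT else .upF), true) else
      match least (fun a' => D a' x false = a) with
      | none => some ((a, b, r, .upT), true)
      | some a' =>
        match least (fun b' => D b' x false = b) with
        | none => some ((a, b, r, .upF), true)
        | some b' => some ((a', b', r, .down), false)
  | (a, b, r, .upF), x =>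
    if D a x false = D b x false then tour D a b r x else
      match least (fun b' => D b' x false = D b x false ∧ b < b') with
      | none => some ((D a x false, D b x false, r, .upF), true)
      | some b' => some ((a, b', r, .down), false)
  | (a, b, r, .upT), x =>
    if D a x false = D b x false then tour D b b r x else
      match least (fun a' => D a' x false = D a x false ∧ a < a') with
      | none => some ((D a x false, D b x false, r, .upT), true)
      | some a' =>
        match least (fun b' => D b' x false = D b x false) with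
        | none => none
        | some b' => some ((a', b', r, .down), false)
  | (a, b, r, .acc), _ => some ((a, b, r, .acc), true)

noncomputable def mach : TDFA Γ (St P) where
  init := (p0, p0, p0, .ini)
  fin := fun s => s.2.2.2 = .acc
  δ := del D p0 Acc

variable (w : List Γ)

def tr : ℕ → P
  | 0 => p0
  | j + 1 => D (tr j) (tape w (j + 1)) false

def Le : ℕ → P → P → Prop
  | 0, a, _ => a ≠ p0
  | j + 1, a, b => ∀ a', D a' (tape w (j + 1)) false = a →
      ∃ b', D b' (tape w (j + 1)) false = b ∧ Le j a' b'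

def Found : ℕ → P → Prop
  | 0, _ => False
  | j + 1, r => D (tr D p0 w j) (tape w (j + 1)) true = r ∨
      ∃ r', D r' (tape w (j + 1)) false = r ∧ Found j r'

omit [Fintype P] [LinearOrder P] in
lemma not_le_tr (j : ℕ) : ∀ b, ¬ Le D p0 w j (tr D p0 w j) b := by
  induction j with
  | zero => intro b; simp [Le, tr]
  | succ j ih =>
    intro b h
    obtain ⟨b', -, h2⟩ := h (tr D p0 w j) rfl
    exact ih b' h2

omit [Fintype P] [LinearOrder P] in
lemma le_tr (j : ℕ) : ∀ a, a ≠ tr D p0 w j → Le D p0 w j a (tr D p0 w j) := by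
  induction j with
  | zero => intro a h; exact h
  | succ j ih =>
    intro a h a' ha'
    refine ⟨tr D p0 w j, rfl, ih a' ?_⟩
    rintro rfl
    exact h ha'.symm

/-- reachability in the simulating machine -/
abbrev Rch (c c' : St P × ℕ) : Prop := ReflTransGen ((mach D p0 Acc).Step w) c c'

def Ev (j : ℕ) : Prop := ∀ a b r, a ≠ b →
  (Le D p0 w j a b ∧ Rch D p0 Acc w ((a, b, r, .down), j) ((a, b, r, .upT), j + 1)) ∨
  (¬ Le D p0 w j a b ∧ Rch D p0 Acc w ((a, b, r, .down), j) ((a, b, r, .upF), j + 1))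

lemma loopB {j : ℕ} (hj : j < w.length) (ih : Ev D p0 Acc w j) {a b r a' : P} (hab : a ≠ b)
    (ha' : D a' (tape w (j + 1)) false = a) (b' : P) : D b' (tape w (j + 1)) false = b →
    (∃ b'', D b'' (tape w (j + 1)) false = b ∧ Le D p0 w j a' b'' ∧
      Rch D p0 Acc w ((a', b', r, .down), j) ((a', b'', r, .upT), j + 1)) ∨
    ((∀ b'', D b'' (tape w (j + 1)) false = b → b' ≤ b'' → ¬ Le D p0 w j a' b'') ∧
      Rch D p0 Acc w ((a', b', r, .down), j) ((a, b, r, .upF), j + 2)) := by
  induction b' using WellFoundedGT.induction with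
  | ind b' ihb =>
  intro hb'
  have hne : a' ≠ b' := by rintro rfl; exact hab (ha'.symm.trans hb')
  rcases ih a' b' r hne with ⟨h1, h2⟩ | ⟨h1, h2⟩
  · exact Or.inl ⟨b', hb', h1, h2⟩
  rcases least_cases (fun b'' => D b'' (tape w (j + 1)) false = D b' (tape w (j + 1)) false ∧ b' < b'')
    with ⟨e, he⟩ | ⟨c, e, ⟨hc1, hc2⟩, hc3⟩
  · right
    refine ⟨fun b'' h3 h4 => ?_, h2.tail (stepR _ w (by omega) ?_)⟩
    · rcases h4.eq_or_lt with rfl | h4
      · exact h1
      · exact absurd ⟨h3.trans hb'.symm, h4⟩ (he b'')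
    · simp only [mach, del, e]; simp [ha', hb', hab]
  · have hs : Rch D p0 Acc w ((a', b', r, .down), j) ((a', c, r, .down), j) := by
      refine h2.tail (stepL _ w (by omega) ?_)
      simp only [mach, del, e]; simp [ha', hb', hab]
    rcases ihb c hc2 (hc1.trans hb') with ⟨b'', g1, g2, g3⟩ | ⟨g1, g2⟩
    · exact Or.inl ⟨b'', g1, g2, hs.trans g3⟩
    · refine Or.inr ⟨fun b'' h3 h4 => ?_, hs.trans g2⟩
      rcases h4.eq_or_lt with rfl | h4
      · exact h1
      · exact g1 b'' h3 (hc3 b'' ⟨h3.trans hb'.symm, h4⟩)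

lemma loopA {j : ℕ} (hj : j < w.length) (ih : Ev D p0 Acc w j) {a b r b0 : P} (hab : a ≠ b)
    (e0 : least (fun b' => D b' (tape w (j + 1)) false = b) = some b0)
    (hb0 : D b0 (tape w (j + 1)) false = b)
    (hb0' : ∀ d, D d (tape w (j + 1)) false = b → b0 ≤ d) (a' : P) :
    D a' (tape w (j + 1)) false = a →
    ((∀ a'', D a'' (tape w (j + 1)) false = a → a' ≤ a'' →
        ∃ b'', D b'' (tape w (j + 1)) false = b ∧ Le D p0 w j a'' b'') ∧
      Rch D p0 Acc w ((a', b0, r, .down), j) ((a, b, r, .upT), j + 2)) ∨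
    (¬ Le D p0 w (j + 1) a b ∧
      Rch D p0 Acc w ((a', b0, r, .down), j) ((a, b, r, .upF), j + 2)) := by
  induction a' using WellFoundedGT.induction with
  | ind a' iha =>
  intro ha'
  rcases loopB D p0 Acc w hj ih (r := r) hab ha' b0 hb0 with ⟨b'', g1, g2, g3⟩ | ⟨g1, g2⟩
  swap
  · refine Or.inr ⟨fun h => ?_, g2⟩
    obtain ⟨b', h1, h2⟩ := h a' ha'
    exact g1 b' h1 (hb0' b' h1) h2
  rcases least_cases (fun a'' => D a'' (tape w (j + 1)) false = D a' (tape w (j + 1)) false ∧ a' < a'')
    with ⟨e, he⟩ | ⟨c, e, ⟨hc1, hc2⟩, hc3⟩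
  · left
    refine ⟨fun a'' h3 h4 => ?_, g3.tail (stepR _ w (by omega) ?_)⟩
    · rcases h4.eq_or_lt with rfl | h4
      · exact ⟨b'', g1, g2⟩
      · exact absurd ⟨h3.trans ha'.symm, h4⟩ (he a'')
    · simp only [mach, del, e]; simp [ha', g1, hab]
  · have hs : Rch D p0 Acc w ((a', b0, r, .down), j) ((c, b0, r, .down), j) := by
      refine g3.tail (stepL _ w (by omega) ?_)
      simp only [mach, del, e, g1, e0]; simp [ha', hab]
    rcases iha c hc2 (hc1.trans ha') with ⟨k1, k2⟩ | ⟨k1, k2⟩
    · refine Or.inl ⟨fun a'' h3 h4 => ?_, hs.trans k2⟩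
      rcases h4.eq_or_lt with rfl | h4
      · exact ⟨b'', g1, g2⟩
      · exact k1 a'' h3 (hc3 a'' ⟨h3.trans ha'.symm, h4⟩)
    · exact Or.inr ⟨k1, hs.trans k2⟩

lemma ev (j : ℕ) : j ≤ w.length → Ev D p0 Acc w j := by
  induction j with
  | zero =>
    intro _ a b r hab
    by_cases h : a = p0
    · refine Or.inr ⟨by simp [Le, h], ReflTransGen.single (stepR _ w (by omega) ?_)⟩
      simp [mach, del, tape, h]
    · refine Or.inl ⟨h, ReflTransGen.single (stepR _ w (by omega) ?_)⟩
      simp [mach, del, tape, h]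
  | succ j ih =>
    intro hj a b r hab
    have hl := tape_ne_lft w j
    rcases least_cases (fun a' => D a' (tape w (j + 1)) false = a) with ⟨e, he⟩ | ⟨a0, e, ha0, ha0'⟩
    · refine Or.inl ⟨fun a' h => absurd h (he a'), ReflTransGen.single (stepR _ w (by omega) ?_)⟩
      simp only [mach, del, e]; simp [hl]
    rcases least_cases (fun b' => D b' (tape w (j + 1)) false = b) with ⟨e1, he⟩ | ⟨b0, e1, hb0, hb0'⟩
    · refine Or.inr ⟨fun h => ?_, ReflTransGen.single (stepR _ w (by omega) ?_)⟩
      · obtain ⟨b', h1, -⟩ := h a0 ha0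
        exact he b' h1
      · simp only [mach, del, e, e1]; simp [hl]
    have hs : (mach D p0 Acc).Step w ((a, b, r, .down), j + 1) ((a0, b0, r, .down), j) := by
      refine stepL _ w (by omega) ?_
      simp only [mach, del, e, e1]; simp [hl]
    rcases loopA D p0 Acc w (by omega) (ih (by omega)) (r := r) hab e1 hb0 hb0' a0 ha0 with
      ⟨k1, k2⟩ | ⟨k1, k2⟩
    · exact Or.inl ⟨fun a' h => k1 a' h (ha0' a' h), ReflTransGen.head hs k2⟩
    · exact Or.inr ⟨k1, ReflTransGen.head hs k2⟩

/-- the tournament: from any state whose move is `tour c lb` one reaches a state whose move is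
the final move with the true predecessor -/
lemma tourn {j : ℕ} (hj : j < w.length) (r : P) (lb : P) : ∀ (c : P) (s : St P), c ≤ lb →
    D c (tape w (j + 1)) false = tr D p0 w (j + 1) →
    (c = tr D p0 w j ∨ lb < tr D p0 w j) →
    del D p0 Acc s (tape w (j + 1)) = tour D c lb r (tape w (j + 1)) →
    ∃ s', Rch D p0 Acc w (s, j + 1) (s', j + 1) ∧
      del D p0 Acc s' (tape w (j + 1)) = fdone D (tr D p0 w j) r (tape w (j + 1)) := by
  induction lb using WellFoundedGT.induction with
  | ind lb ih =>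
  intro c s hc1 hc2 hc3 hs
  rcases least_cases (fun d => D d (tape w (j + 1)) false = D c (tape w (j + 1)) false ∧ lb < d)
    with ⟨e, he⟩ | ⟨d, e, ⟨hd1, hd2⟩, hd3⟩
  · refine ⟨s, ReflTransGen.refl, ?_⟩
    have : c = tr D p0 w j := by
      rcases hc3 with h | h
      · exact h
      · exact absurd ⟨hc2.symm, h⟩ (he _)
    rw [hs]; simp only [tour, e]; rw [this]
  · have h1 : (mach D p0 Acc).Step w (s, j + 1) ((c, d, r, .down), j) := by
      refine stepL _ w (by omega) ?_
      simp only [mach]; rw [hs]; simp only [tour, e]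
    have hcd : c ≠ d := (lt_of_le_of_lt hc1 hd2).ne
    have hmin : lb < tr D p0 w j → d ≤ tr D p0 w j := fun h => hd3 _ ⟨hc2.symm, h⟩
    rcases ev D p0 Acc w j hj.le c d r hcd with ⟨g1, g2⟩ | ⟨g1, g2⟩
    · have hct : c ≠ tr D p0 w j := by rintro rfl; exact not_le_tr D p0 w j _ g1
      obtain ⟨s', k1, k2⟩ := ih d hd2 d (c, d, r, .upT) le_rfl (hd1.trans hc2)
        (hmin (hc3.resolve_left hct)).eq_or_lt (by simp [del, hd1])
      exact ⟨s', ReflTransGen.head h1 (g2.trans k1), k2⟩
    · have hdt : d ≠ tr D p0 w j := by rintro rfl; exact g1 (le_tr D p0 w j c hcd)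
      obtain ⟨s', k1, k2⟩ := ih d hd2 c (c, d, r, .upF) (hc1.trans hd2.le) hc2
        (hc3.imp_right fun h => lt_of_le_of_ne (hmin h) hdt) (by simp [del, hd1])
      exact ⟨s', ReflTransGen.head h1 (g2.trans k1), k2⟩

def Win (c : St P × ℕ) : Prop :=
  ∃ a b r h, h ≤ w.length + 2 ∧ Rch D p0 Acc w c ((a, b, r, .acc), h)

def Mn (j : ℕ) : Prop := ∀ r,
  (Found D p0 w j r ∧ Win D p0 Acc w ((tr D p0 w j, tr D p0 w j, r, .main), j)) ∨
  (¬ Found D p0 w j r ∧ Rch D p0 Acc w ((tr D p0 w j, tr D p0 w j, r, .main), j)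
    ((tr D p0 w j, tr D p0 w j, r, .upM), j + 1))

lemma Win.of_rch {c c' : St P × ℕ} (h : Rch D p0 Acc w c c') (h' : Win D p0 Acc w c') :
    Win D p0 Acc w c := by
  obtain ⟨a, b, r, k, h1, h2⟩ := h'
  exact ⟨a, b, r, k, h1, h.trans h2⟩

lemma loopM {j : ℕ} (hj : j < w.length) (ih : Mn D p0 Acc w j) {r : P} (r' : P) :
    D r' (tape w (j + 1)) false = r →
    ((∃ r'', D r'' (tape w (j + 1)) false = r ∧ Found D p0 w j r'') ∧
      Win D p0 Acc w ((tr D p0 w j, tr D p0 w j, r', .main), j)) ∨
    ((∀ r'', D r'' (tape w (j + 1)) false = r → r' ≤ r'' → ¬ Found D p0 w j r'') ∧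
      Rch D p0 Acc w ((tr D p0 w j, tr D p0 w j, r', .main), j)
        ((tr D p0 w (j + 1), tr D p0 w (j + 1), r, .upM), j + 2)) := by
  induction r' using WellFoundedGT.induction with
  | ind r' ihr =>
  intro hr'
  have hl := tape_ne_rgt w hj
  rcases ih r' with ⟨h1, h2⟩ | ⟨h1, h2⟩
  · exact Or.inl ⟨⟨r', hr', h1⟩, h2⟩
  rcases least_cases (fun c => D c (tape w (j + 1)) false = D r' (tape w (j + 1)) false ∧ r' < c)
    with ⟨e, he⟩ | ⟨c, e, ⟨hc1, hc2⟩, hc3⟩
  · right
    refine ⟨fun b'' h3 h4 => ?_, h2.tail (stepR _ w (by omega) ?_)⟩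
    · rcases h4.eq_or_lt with rfl | h4
      · exact h1
      · exact absurd ⟨h3.trans hr'.symm, h4⟩ (he b'')
    · simp only [mach, del, e]; simp [hr', hl, tr]
  · have hs : Rch D p0 Acc w ((tr D p0 w j, tr D p0 w j, r', .main), j)
        ((tr D p0 w j, tr D p0 w j, c, .main), j) := by
      refine h2.tail (stepL _ w (by omega) ?_)
      simp only [mach, del, e]; simp [hl]
    rcases ihr c hc2 (hc1.trans hr') with ⟨g1, g2⟩ | ⟨g1, g2⟩
    · exact Or.inl ⟨g1, g2.of_rch _ _ _ _ hs⟩
    · refine Or.inr ⟨fun b'' h3 h4 => ?_, hs.trans g2⟩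
      rcases h4.eq_or_lt with rfl | h4
      · exact h1
      · exact g1 b'' h3 (hc3 b'' ⟨h3.trans hr'.symm, h4⟩)

lemma mn (j : ℕ) : j ≤ w.length → Mn D p0 Acc w j := by
  induction j with
  | zero =>
    intro _ r
    refine Or.inr ⟨by simp [Found], ReflTransGen.single (stepR _ w (by omega) ?_)⟩
    simp [mach, del, tape]
  | succ j ih =>
    intro hj r
    have hl := tape_ne_lft w j
    rcases least_cases (fun c => D c (tape w (j + 1)) false = tr D p0 w (j + 1)) with
      ⟨e, he⟩ | ⟨c, e, hc, hc'⟩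
    · exact absurd rfl (he (tr D p0 w j))
    obtain ⟨s', k1, k2⟩ := tourn D p0 Acc w (show j < w.length by omega) r c c
      (tr D p0 w (j + 1), tr D p0 w (j + 1), r, .main) le_rfl hc (hc' _ rfl).eq_or_lt
      (by simp only [del, e]; simp [hl])
    by_cases hm : D (tr D p0 w j) (tape w (j + 1)) true = r
    · refine Or.inl ⟨Or.inl hm, tr D p0 w j, tr D p0 w j, r, j + 2, by omega,
        k1.tail (stepR _ w (by omega) ?_)⟩
      simp only [mach]; rw [k2]; simp [fdone, hm]
    rcases least_cases (fun r' => D r' (tape w (j + 1)) false = r) with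
      ⟨e1, he⟩ | ⟨r', e1, hr, hr'⟩
    · refine Or.inr ⟨?_, k1.tail (stepR _ w (by omega) ?_)⟩
      · rintro (h | ⟨r', h, -⟩)
        · exact hm h
        · exact he r' h
      · simp only [mach]; rw [k2]; simp only [fdone, e1]; simp [hm, tr]
    have hs : Rch D p0 Acc w ((tr D p0 w (j + 1), tr D p0 w (j + 1), r, .main), j + 1)
        ((tr D p0 w j, tr D p0 w j, r', .main), j) := by
      refine k1.tail (stepL _ w (by omega) ?_)
      simp only [mach]; rw [k2]; simp only [fdone, e1]; simp [hm]
    rcases loopM D p0 Acc w (show j < w.length by omega) (ih (by omega)) r' hr with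
      ⟨g1, g2⟩ | ⟨g1, g2⟩
    · exact Or.inl ⟨Or.inr g1, g2.of_rch _ _ _ _ hs⟩
    · refine Or.inr ⟨?_, hs.trans g2⟩
      rintro (h | ⟨r'', h, h'⟩)
      · exact hm h
      · exact g1 r'' h (hr' r'' h) h'

lemma acc_run (a b r : P) (d : ℕ) : ∀ h, h + d = w.length + 2 →
    Rch D p0 Acc w ((a, b, r, .acc), h) ((a, b, r, .acc), w.length + 2) := by
  induction d with
  | zero => intro h hh; rw [← hh]; exact ReflTransGen.refl
  | succ d ih =>
    intro h hh
    exact ReflTransGen.head (stepR _ w (by omega) (by simp [mach, del])) (ih (h + 1) (by omega))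

lemma acc_of_win (h : Win D p0 Acc w ((p0, p0, p0, .ini), 1)) : (mach D p0 Acc).Accepts w := by
  obtain ⟨a, b, r, k, h1, h2⟩ := h
  exact ⟨(a, b, r, .acc), rfl, h2.trans (acc_run D p0 Acc w a b r (w.length + 2 - k) k (by omega))⟩

lemma ini_run (j : ℕ) : j ≤ w.length →
    Rch D p0 Acc w ((p0, p0, p0, .ini), 1) ((tr D p0 w j, p0, p0, .ini), j + 1) := by
  induction j with
  | zero => intro _; exact ReflTransGen.refl
  | succ j ih =>
    intro hj
    refine (ih (by omega)).tail (stepR _ w (by omega) ?_)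
    simp [mach, del, tape_ne_rgt w (show j < w.length by omega), tr]

lemma loopT (r : P) : Acc r →
    Rch D p0 Acc w ((p0, p0, p0, .ini), 1)
      ((tr D p0 w w.length, tr D p0 w w.length, r, .main), w.length) →
    ((∃ r', Acc r' ∧ Found D p0 w w.length r') ∧ (mach D p0 Acc).Accepts w) ∨
    ((∀ r', Acc r' → r ≤ r' → ¬ Found D p0 w w.length r') ∧ ¬ (mach D p0 Acc).Accepts w) := by
  induction r using WellFoundedGT.induction with
  | ind r ih =>
  intro hr h0
  rcases mn D p0 Acc w _ le_rfl r with ⟨h1, h2⟩ | ⟨h1, h2⟩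
  · exact Or.inl ⟨⟨r, hr, h1⟩, acc_of_win D p0 Acc w (h2.of_rch _ _ _ _ h0)⟩
  rcases least_cases (fun c => Acc c ∧ r < c) with ⟨e, he⟩ | ⟨c, e, ⟨hc1, hc2⟩, hc3⟩
  · refine Or.inr ⟨fun r' h3 h4 => ?_, not_acc_of_stuck _ w (h0.trans h2) le_rfl ?_⟩
    · rcases h4.eq_or_lt with rfl | h4
      · exact h1
      · exact absurd ⟨h3, h4⟩ (he r')
    · simp only [mach, del, e]; simp [tape_rgt]
  · have hs := (h0.trans h2).tail (stepL (mach D p0 Acc) w (s' := (tr D p0 w w.length,
      tr D p0 w w.length, c, .main)) le_rfl (by simp only [mach, del, e]; simp [tape_rgt]))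
    rcases ih c hc2 hc1 hs with g | ⟨g1, g2⟩
    · exact Or.inl g
    · refine Or.inr ⟨fun r' h3 h4 => ?_, g2⟩
      rcases h4.eq_or_lt with rfl | h4
      · exact h1
      · exact g1 r' h3 (hc3 r' ⟨h3, h4⟩)

theorem mach_accepts : (mach D p0 Acc).Accepts w ↔
    Acc (tr D p0 w w.length) ∨ ∃ r, Acc r ∧ Found D p0 w w.length r := by
  have h0 := ini_run D p0 Acc w _ le_rfl
  by_cases ha : Acc (tr D p0 w w.length)
  · refine ⟨fun _ => Or.inl ha, fun _ => acc_of_win D p0 Acc w
      ⟨tr D p0 w w.length, p0, p0, _, le_rfl, h0.tail (stepR _ w le_rfl ?_)⟩⟩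
    simp [mach, del, tape_rgt, ha]
  rcases least_cases Acc with ⟨e, he⟩ | ⟨c, e, hc1, hc2⟩
  · have : ¬ (mach D p0 Acc).Accepts w := by
      refine not_acc_of_stuck _ w h0 le_rfl ?_
      simp only [mach, del, e]; simp [tape_rgt, ha]
    simp [this, he]
  · have hs := h0.tail (stepL (mach D p0 Acc) w (s' := (tr D p0 w w.length,
      tr D p0 w w.length, c, .main)) le_rfl (by simp only [mach, del, e]; simp [tape_rgt, ha]))
    rcases loopT D p0 Acc w c hc1 hs with ⟨g1, g2⟩ | ⟨g1, g2⟩
    · exact ⟨fun _ => Or.inr g1, fun _ => g2⟩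
    · refine ⟨fun h => absurd h g2, ?_⟩
      rintro (h | ⟨r, h1, h2⟩)
      · exact absurd h ha
      · exact absurd h2 (g1 r h1 (hc2 r h1))

end sim

section run
variable {Γ P : Type} (D : P → Sym Γ → Bool → P) (p0 : P) (w : List Γ)

def run (μ : ℕ → Bool) : ℕ → P
  | 0 => p0
  | j + 1 => D (run μ j) (tape w (j + 1)) (μ (j + 1))

lemma run_eq_tr (μ : ℕ → Bool) (j : ℕ) : (∀ i ≤ j, μ i = false) → run D p0 w μ j = tr D p0 w j := by
  induction j with
  | zero => intro _; rfl
  | succ j ih => intro h; simp only [run, tr]; rw [ih fun i hi => h i (by omega), h _ le_rfl]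

lemma found_of_run (μ : ℕ → Bool) (h0 : μ 0 = false) (hμ : ∀ i k, μ i = true → μ k = true → i = k)
    (j : ℕ) : (∀ i ≤ j, μ i = false) ∨ Found D p0 w j (run D p0 w μ j) := by
  induction j with
  | zero => left; intro i hi; rwa [Nat.le_zero.mp hi]
  | succ j ih =>
    cases hm : μ (j + 1) with
    | false =>
      rcases ih with h | h
      · left; intro i hi
        rcases hi.eq_or_lt with rfl | hi
        · exact hm
        · exact h i (by omega)
      · right; right; exact ⟨_, by simp [run, hm], h⟩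
    | true =>
      right; left
      have : ∀ i ≤ j, μ i = false := by
        intro i hi
        by_contra hc
        have := hμ i (j + 1) (by simpa using hc) hm
        omega
      simp only [run, hm, run_eq_tr D p0 w μ j this]

lemma run_of_found (j : ℕ) : ∀ r, Found D p0 w j r →
    ∃ μ : ℕ → Bool, (∀ i, j < i → μ i = false) ∧ run D p0 w μ j = r := by
  induction j with
  | zero => intro r h; exact h.elim
  | succ j ih =>
    rintro r (h | ⟨r', h, h'⟩)
    · refine ⟨fun i => decide (i = j + 1), fun i hi => by simp; omega, ?_⟩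
      simp only [run, decide_true]
      rw [run_eq_tr D p0 w _ j fun i hi => by simp; omega, h]
    · obtain ⟨μ, h1, h2⟩ := ih r' h'
      exact ⟨μ, fun i hi => h1 i (by omega), by simp only [run]; rw [h2, h1 _ (by omega), h]⟩

end run

end Pool.Agent.H28.TwoWay
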