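import Pool.Agent.H28.TwoWay1

/-! Marking 1-limited automata and their crossing tables. -/

namespace Pool.Agent.H28.TwoWay

open Relation

/-- content of a cell: the letter together with its mark; endmarkers carry no mark -/
def ann {Γ : Type} : Sym Γ → Bool → Sym (Γ × Bool)
  | .lft, _ => .lft
  | .rgt, _ => .rgt
  | .ch x, b => .ch (x, b)

/-- marking 1-limited automaton. `first s x s' b d`: first visit to an input cell holding `x`,
in state `s`; enter `s'`, write the marked copy iff `b`, move `d`.  `later s X s' d`: visit to an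
endmarker or to an input cell visited before, whose content `X` is only read. -/
structure LA (Γ Q : Type) where
  init : Q
  fin : Q → Prop
  first : Q → Γ → Q → Bool → Bool → Prop
  later : Q → Sym (Γ × Bool) → Q → Bool → Prop

/-- configuration: state, head position, `front` = leftmost cell to the right of all cells
visited so far, and the marks written so far -/
structure Cfg (Q : Type) where
  st : Q
  head : ℕ
  front : ℕ
  mark : ℕ → Bool

def LA.Step {Γ Q : Type} (A : LA Γ Q) (w : List Γ) (c c' : Cfg Q) : Prop :=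
  c.head ≤ w.length + 1 ∧ c'.front = max c.front (c.head + 1) ∧ ∃ d, mv c.head d c'.head ∧
    ((∃ x b, tape w c.head = .ch x ∧ c.front ≤ c.head ∧ A.first c.st x c'.st b d ∧
        c'.mark = Function.update c.mark c.head b) ∨
      ((c.head < c.front ∨ tape w c.head = .rgt) ∧
        A.later c.st (ann (tape w c.head) (c.mark c.head)) c'.st d ∧ c'.mark = c.mark))

def LA.Reach {Γ Q : Type} (A : LA Γ Q) (w : List Γ) (c : Cfg Q) : Prop :=
  ReflTransGen (A.Step w) ⟨A.init, 1, 1, fun _ => false⟩ c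

def LA.Accepts {Γ Q : Type} (A : LA Γ Q) (w : List Γ) : Prop :=
  ∃ c, A.Reach w c ∧ A.fin c.st ∧ c.head = w.length + 2

/-- in each computation at most one cell is marked -/
def LA.OnceMarking {Γ Q : Type} (A : LA Γ Q) : Prop :=
  ∀ w c, A.Reach w c → ∀ i j, c.mark i = true → c.mark j = true → i = j

section tables
variable {Γ Q : Type} (A : LA Γ Q)

def ext (R : Set (Q × Q)) (X : Sym (Γ × Bool)) : Set (Q × Q) :=
  {p | ∃ t, ReflTransGen (fun a b => ∃ a1, A.later a X a1 false ∧ (a1, b) ∈ R) p.1 t ∧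
    A.later t X p.2 true}

def dT (p : Set Q × Set (Q × Q)) (x : Sym Γ) (b : Bool) : Set Q × Set (Q × Q) :=
  ({s' | ∃ s ∈ p.1, (∃ y, x = .ch y ∧ (A.first s y s' b true ∨ ∃ s1 s2, A.first s y s1 b false ∧
      (s1, s2) ∈ p.2 ∧ (s2, s') ∈ ext A p.2 (ann x b))) ∨
      (x = .rgt ∧ (s, s') ∈ ext A p.2 (ann x b))}, ext A p.2 (ann x b))

def pT : Set Q × Set (Q × Q) := ({A.init}, ext A ∅ .lft)

def AccT (p : Set Q × Set (Q × Q)) : Prop := ∃ s ∈ (dT A p .rgt false).1, A.fin s

variable (w : List Γ) (ν : ℕ → Bool)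

abbrev rT (j : ℕ) : Set Q × Set (Q × Q) := run (dT A) (pT A) w ν j

lemma rT_succ (j : ℕ) : rT A w ν (j + 1) = dT A (rT A w ν j) (tape w (j + 1)) (ν (j + 1)) := rfl

lemma mem_right {h : ℕ} {s s' : Q} (hs : A.later s (ann (tape w h) (ν h)) s' true) :
    (s, s') ∈ (rT A w ν h).2 := by
  cases h with
  | zero => exact ⟨s, ReflTransGen.refl, hs⟩
  | succ h => exact ⟨s, ReflTransGen.refl, hs⟩

lemma mem_left {h : ℕ} {s s1 t t' : Q} (hs : A.later s (ann (tape w (h + 1)) (ν (h + 1))) s1 false)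
    (h1 : (s1, t) ∈ (rT A w ν h).2) (h2 : (t, t') ∈ (rT A w ν (h + 1)).2) :
    (s, t') ∈ (rT A w ν (h + 1)).2 := by
  obtain ⟨u, k1, k2⟩ := h2
  exact ⟨u, ReflTransGen.head ⟨s1, hs, h1⟩ k1, k2⟩

def J (G : Set Q) : ℕ → ℕ → Q → Prop
  | 0, _, s => s ∈ G
  | d + 1, h, s => ∀ t, (s, t) ∈ (rT A w ν h).2 → J G d (h + 1) t

lemma complete {c : Cfg Q} (hc : A.Reach w c) : c.front ≤ w.length + 2 ∧ c.mark 0 = false ∧
    ∀ ν : ℕ → Bool, (∀ i < c.front, ν i = c.mark i) → ∃ g d, c.front = g + 1 ∧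
      c.head + d = g + 1 ∧ J A w ν (rT A w ν g).1 d c.head c.st := by
  induction hc with
  | refl => exact ⟨by simp, rfl, fun ν _ => ⟨0, 0, rfl, rfl, rfl⟩⟩
  | @tail c c' _ hs ih =>
    obtain ⟨s, h, f, μ⟩ := c
    obtain ⟨s', h', f', μ'⟩ := c'
    obtain ⟨i1, i2, ih⟩ := ih
    obtain ⟨hh, hf, d, hm, hs⟩ := hs
    simp only at i1 i2 ih hh hf hm hs ⊢
    refine ⟨by omega, ?_, fun ν hν => ?_⟩
    · rcases hs with ⟨x, b, e1, e2, e3, rfl⟩ | ⟨-, -, rfl⟩
      · have := lt_of_tape_ch w e1
        rw [Function.update_of_ne (by omega)]; exact i2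
      · exact i2
    rcases hs with ⟨x, b, e1, e2, e3, rfl⟩ | ⟨e1, e2, rfl⟩
    · obtain ⟨g, k, rfl, k1, k2⟩ := ih ν fun i hi => by
        rw [hν i (by omega), Function.update_of_ne (by omega)]
      obtain rfl : k = 0 := by omega
      obtain rfl : h = g + 1 := by omega
      have hb : ν (g + 1) = b := by rw [hν _ (by omega), Function.update_self]
      cases d with
      | true =>
        obtain rfl : h' = g + 1 + 1 := by simpa [mv] using hm
        refine ⟨g + 1, 0, by omega, rfl, s, k2, Or.inl ⟨x, e1, Or.inl (hb ▸ e3)⟩⟩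
      | false =>
        obtain rfl : g = h' := by simpa [mv] using hm
        refine ⟨g + 1, 2, by omega, rfl, fun t ht t' ht' => ?_⟩
        exact ⟨s, k2, Or.inl ⟨x, e1, Or.inr ⟨s', t, hb ▸ e3, ht, ht'⟩⟩⟩
    · obtain ⟨g, k, rfl, k1, k2⟩ := ih ν fun i hi => hν i (by omega)
      have hb : ν h = μ' h := hν _ (by omega)
      rw [← hb] at e2
      cases k with
      | succ k =>
        cases d with
        | true =>
          obtain rfl : h' = h + 1 := by simpa [mv] using hm
          exact ⟨g, k, by omega, by omega, k2 s' (mem_right A w ν e2)⟩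
        | false =>
          obtain rfl : h = h' + 1 := by simpa [mv] using hm
          exact ⟨g, k + 2, by omega, by omega,
            fun t ht t' ht' => k2 t' (mem_left A w ν e2 ht ht')⟩
      | zero =>
        obtain rfl : h = g + 1 := by omega
        have er : tape w (g + 1) = .rgt := e1.resolve_left (by omega)
        cases d with
        | true =>
          obtain rfl : h' = g + 1 + 1 := by simpa [mv] using hm
          exact ⟨g + 1, 0, by omega, rfl, s, k2, Or.inr ⟨er, mem_right A w ν e2⟩⟩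
        | false =>
          obtain rfl : g = h' := by simpa [mv] using hm
          exact ⟨g + 1, 2, by omega, rfl, fun t ht t' ht' =>
            ⟨s, k2, Or.inr ⟨er, mem_left A w ν e2 ht ht'⟩⟩⟩

lemma sound1 (μ : ℕ → Bool) (h : ℕ) : h ≤ w.length + 1 →
    (∀ i ≤ h, ann (tape w i) (μ i) = ann (tape w i) (ν i)) → ∀ s t, (s, t) ∈ (rT A w ν h).2 →
    ∀ f, (h < f ∨ tape w h = .rgt) →
      ReflTransGen (A.Step w) ⟨s, h, f, μ⟩ ⟨t, h + 1, max f (h + 1), μ⟩ := by
  induction h with
  | zero =>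
    rintro hh hμ s t ⟨u, k1, k2⟩ f hf
    have : s = u := by
      rcases k1.cases_head with h | ⟨_, ⟨_, _, h⟩, _⟩
      · exact h
      · exact h.elim
    subst this
    exact ReflTransGen.single ⟨hh, rfl, true, by simp [mv], Or.inr ⟨hf, k2, rfl⟩⟩
  | succ h ih =>
    rintro hh hμ s t ⟨u, k1, k2⟩
    simp only at k1 k2
    induction k1 using ReflTransGen.head_induction_on with
    | refl =>
      intro f hf
      refine ReflTransGen.single ⟨hh, rfl, true, by simp [mv], Or.inr ⟨hf, ?_, rfl⟩⟩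
      simp only; rw [hμ _ le_rfl]; exact k2
    | @head a b hab _ ih2 =>
      intro f hf
      obtain ⟨a1, g1, g2⟩ := hab
      have s1 : A.Step w ⟨a, h + 1, f, μ⟩ ⟨a1, h, max f (h + 1 + 1), μ⟩ := by
        refine ⟨hh, rfl, false, by simp [mv], Or.inr ⟨hf, ?_, rfl⟩⟩
        simp only; rw [hμ _ le_rfl]; exact g1
      have s2 := ih (by omega) (fun i hi => hμ i (by omega)) a1 b g2 (max f (h + 1 + 1))
        (Or.inl (by omega))
      have s3 := ih2 (max f (h + 1 + 1)) (Or.inl (by omega))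
      rw [show max (max f (h + 1 + 1)) (h + 1) = max f (h + 1 + 1) by omega] at s2
      rw [show max (max f (h + 1 + 1)) (h + 1 + 1) = max f (h + 1 + 1) by omega] at s3
      exact ReflTransGen.head s1 (s2.trans s3)

lemma sound2 (g : ℕ) : g ≤ w.length + 1 → ∀ s ∈ (rT A w ν g).1, ∃ μ : ℕ → Bool,
    (∀ i ≤ g, ann (tape w i) (μ i) = ann (tape w i) (ν i)) ∧ A.Reach w ⟨s, g + 1, g + 1, μ⟩ := by
  induction g with
  | zero =>
    rintro - s rfl
    refine ⟨fun _ => false, fun i hi => ?_, ReflTransGen.refl⟩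
    rw [Nat.le_zero.mp hi]; rfl
  | succ g ih =>
    rintro hg s' ⟨s, hs, h⟩
    obtain ⟨μ, h1, h2⟩ := ih (by omega) s hs
    rcases h with ⟨y, e, h⟩ | ⟨e, h⟩
    · have hμ : ∀ i ≤ g + 1, ann (tape w i) (Function.update μ (g + 1) (ν (g + 1)) i) =
          ann (tape w i) (ν i) := by
        intro i hi
        rcases hi.eq_or_lt with rfl | hi
        · rw [Function.update_self]
        · rw [Function.update_of_ne (by omega)]; exact h1 i (by omega)
      refine ⟨_, hμ, ?_⟩
      rcases h with h | ⟨s1, s2, k1, k2, k3⟩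
      · exact h2.tail ⟨hg, by simp, true, by simp [mv], Or.inl ⟨y, _, e, le_rfl, h, rfl⟩⟩
      · have t1 : A.Step w ⟨s, g + 1, g + 1, μ⟩
            ⟨s1, g, g + 1 + 1, Function.update μ (g + 1) (ν (g + 1))⟩ :=
          ⟨hg, by simp, false, by simp [mv], Or.inl ⟨y, _, e, le_rfl, k1, rfl⟩⟩
        have t2 := sound1 A w ν _ g (by omega) (fun i hi => hμ i (by omega)) s1 s2 k2 (g + 1 + 1)
          (Or.inl (by omega))
        have t3 := sound1 A w ν _ (g + 1) hg hμ s2 s' k3 (g + 1 + 1) (Or.inl (by omega))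
        rw [show max (g + 1 + 1) (g + 1) = g + 1 + 1 by omega] at t2
        rw [max_self] at t3
        exact (h2.tail t1).trans (t2.trans t3)
    · have hμ : ∀ i ≤ g + 1, ann (tape w i) (μ i) = ann (tape w i) (ν i) := by
        intro i hi
        rcases hi.eq_or_lt with rfl | hi
        · rw [e]; rfl
        · exact h1 i (by omega)
      have t := sound1 A w ν μ (g + 1) hg hμ s s' h (g + 1) (Or.inr e)
      rw [show max (g + 1) (g + 1 + 1) = g + 1 + 1 by omega] at t
      exact ⟨μ, hμ, h2.trans t⟩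

lemma accT_iff : AccT A (rT A w ν w.length) ↔ ∃ s ∈ (rT A w ν (w.length + 1)).1, A.fin s := by
  rw [rT_succ, tape_rgt]
  cases ν (w.length + 1) <;> simp [AccT, dT, ann]

lemma accepts_of_run (h : AccT A (rT A w ν w.length)) : A.Accepts w := by
  obtain ⟨s, h1, h2⟩ := (accT_iff A w ν).1 h
  obtain ⟨μ, -, h3⟩ := sound2 A w ν _ le_rfl s h1
  exact ⟨_, h3, h2, rfl⟩

theorem accepts_iff (hA : A.OnceMarking) : A.Accepts w ↔
    AccT A (tr (dT A) (pT A) w w.length) ∨
      ∃ r, AccT A r ∧ Found (dT A) (pT A) w w.length r := by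
  constructor
  · rintro ⟨c, h1, h2, h3⟩
    obtain ⟨k1, k2, k3⟩ := complete A w h1
    obtain ⟨g, d, e1, e2, e3⟩ := k3 c.mark fun _ _ => rfl
    obtain rfl : d = 0 := by omega
    obtain rfl : g = w.length + 1 := by omega
    have hacc := (accT_iff A w c.mark).2 ⟨c.st, e3, h2⟩
    rcases found_of_run (dT A) (pT A) w c.mark k2 (hA w c h1) w.length with h | h
    · left; rw [← run_eq_tr _ _ _ _ _ h]; exact hacc
    · exact Or.inr ⟨_, hacc, h⟩
  · rintro (h | ⟨r, h1, h2⟩)
    · rw [← run_eq_tr _ _ _ (fun _ => false) _ fun _ _ => rfl] at h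
      exact accepts_of_run A w _ h
    · obtain ⟨μ, -, rfl⟩ := run_of_found _ _ _ _ r h2
      exact accepts_of_run A w _ h1

end tables

end Pool.Agent.H28.TwoWay
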