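import Pool.Agent.H28.UnitalData

set_option autoImplicit false

/-! The Hermitian unital in `PG(2,9)` as a tangential 1-block. -/

namespace Pool.Agent.H28.Unital

open Set Submodule Module Pool.Agent.H28.VecMat Pool.Agent.H28.TangDefs Pool.Agent.H28.Crit
  Pool.Agent.H28.Explicit
open scoped Matroid

theorem no_onan (a b c d e f : Fin 28) (hab : a ≠ b) (hac : a ≠ c) (hbc : b ≠ c) (heb : e ≠ b)
    (hed : e ≠ d) (hdc : d ≠ c) (hd : d.1 = o1 a b ∨ d.1 = o2 a b) (he : e.1 = o1 a c ∨ e.1 = o2 a c)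
    (hf : f.1 = o1 b c ∨ f.1 = o2 b c) (hf' : f.1 = o1 d e ∨ f.1 = o2 d e) : False := by
  have h := d5
  simp only [chkAll, List.all_eq_true, List.mem_range] at h
  have h1 := h a a.2 b b.2 c c.2
  have h2 : chk b c d e = true := by
    simp only [Bool.or_eq_true, beq_iff_eq, Bool.and_eq_true, Fin.val_inj] at h1
    rcases h1 with ((h1 | h1) | h1) | h1
    · exact absurd h1 hab
    · exact absurd h1 hac
    · exact absurd h1 hbc
    · rcases hd with hd | hd <;> rcases he with he | he <;> rw [hd, he]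
      · exact h1.1.1.1
      · exact h1.1.1.2
      · exact h1.1.2
      · exact h1.2
  simp only [chk, Bool.or_eq_true, beq_iff_eq, Bool.and_eq_true, Fin.val_inj, bne_iff_ne] at h2
  rcases h2 with ((h2 | h2) | h2) | h2
  · exact heb h2
  · exact hed h2
  · exact hdc h2
  · omega

/-- the matroid -/
noncomputable def M : Matroid (Fin 28) := vec F9 phi

theorem rep : Rep F9 M phi := rep_vec phi

theorem simple : IsSimple M := simple_of rep (fun e _ => d0 e) fun e _ f _ => d1 e f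

theorem dot_eq (L : Fin 3 → F9) (e : Fin 28) : dotL L (phi e) = dot L e := by
  rw [dotL_apply, Fin.sum_univ_three]; rfl

theorem block : ¬ CritLE (Fintype.card F9) 1 M :=
  not_critLE_one rep fun L => by
    obtain ⟨e, he⟩ := d2 (L 0) (L 1) (L 2)
    exact ⟨e, trivial, by rw [← dotL_apply, dot_eq]; exact he⟩

theorem tangents : ∀ C ⊆ M.E, C.Nonempty → ∃ L : Fin 1 → Dual F9 (Fin 3 → F9),
    (∀ i, ∀ c ∈ C, L i (phi c) = 0) ∧
      ∀ e ∈ M.E, phi e ∉ span F9 (phi '' C) → ∃ i, L i (phi e) ≠ 0 := by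
  refine tangents_of_small rep simple fun I _ hne hI => ?_
  have h1 := (Set.ncard_pos (toFinite I)).2 hne
  rw [Module.finrank_fin_fun] at hI
  obtain ⟨a, rfl⟩ := Set.ncard_eq_one.1 (by omega : I.ncard = 1)
  obtain ⟨h2, -, h3⟩ := d3 a a
  refine ⟨dotL (lc a a), ?_, fun e _ he => ?_⟩
  · rintro c rfl
    rw [dot_eq]; exact h2
  · rw [dot_eq] at he
    have h4 := h3 e he
    rw [(d4 a).1, (d4 a).2, Fin.val_inj] at h4
    exact subset_span ⟨e, by tauto, rfl⟩

theorem dep_triple {a b c : Fin 28} (hca : c ≠ a) (hcb : c ≠ b) (h : ¬ M.Indep {c, a, b}) :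
    c.1 = o1 a b ∨ c.1 = o2 a b := by
  rw [rep, linearIndepOn_insert (by simp [hca, hcb]), image_pair, mem_span_pair] at h
  have h1 := ((rep _).1 (simple a trivial b trivial)).1
  have h2 : ∃ s t : F9, s • phi a + t • phi b = phi c := by
    by_contra hcon
    exact h ⟨⟨h1, hcon⟩, subset_univ _⟩
  obtain ⟨s, t, hst⟩ := h2
  obtain ⟨h3, h4, h5⟩ := d3 a b
  have h6 := h5 c (by
    rw [← dot_eq] at h3 h4 ⊢
    rw [← hst, map_add, map_smul, map_smul, h3, h4]; simp)
  tauto

end Pool.Agent.H28.Unital
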