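import Pool.Agent.H28.Unital

set_option autoImplicit false
set_option linter.unusedSectionVars false

namespace Pool.Agent.H28.Unital

open Set Submodule Module Pool.Agent.H28.VecMat Pool.Agent.H28.TangDefs Pool.Agent.H28.Crit
  Pool.Agent.H28.Explicit
open scoped Matroid

theorem not_critLE_line {α : Type} [Fintype α] {F : Type} [Field F] [Fintype F] {N : Matroid α}
    {V : Type*} [AddCommGroup V] [Module F V] [FiniteDimensional F V] {ψ : α → V} (h : Rep F N ψ)
    (g : Fin (Fintype.card F + 1) → α) (hg : Function.Injective g) (hE : range g = N.E)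
    (hI : ∀ I : Set (Fin (Fintype.card F + 1)), N.Indep (g '' I) ↔ I.ncard ≤ 2) :
    ¬ CritLE (Fintype.card F) 1 N := by
  rw [critLE_iff h]
  rintro ⟨f, hf⟩
  have hmem : ∀ i, g i ∈ N.E := fun i => hE ▸ mem_range_self i
  have hL : ∀ i, f 0 (ψ (g i)) ≠ 0 := fun i => by
    obtain ⟨t, ht⟩ := hf _ (hmem i)
    rwa [Subsingleton.elim t 0] at ht
  have hq : 1 < Fintype.card F := Fintype.one_lt_card
  let i0 : Fin (Fintype.card F + 1) := ⟨0, by omega⟩
  let i1 : Fin (Fintype.card F + 1) := ⟨1, by omega⟩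
  have h01 : i0 ≠ i1 := by simp [i0, i1]
  have hpair : ∀ i j, N.Indep {g i, g j} := fun i j => by
    rw [← image_pair, hI]
    exact (ncard_insert_le _ _).trans (by simp)
  have hspan : ∀ i, ∃ s t : F, s • ψ (g i0) + t • ψ (g i1) = ψ (g i) := by
    intro i
    by_cases h0 : i = i0
    · exact ⟨1, 0, by simp [h0]⟩
    by_cases h1 : i = i1
    · exact ⟨0, 1, by simp [h1]⟩
    have h2 : ¬ N.Indep {g i, g i0, g i1} := by
      rw [← image_pair, ← image_insert_eq, hI, ncard_insert_of_notMem (by simp [h0, h1]),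
        ncard_pair h01]
      omega
    rw [h, linearIndepOn_insert (by simp [hg.eq_iff, h0, h1]), image_pair, mem_span_pair] at h2
    by_contra hcon
    exact h2 ⟨⟨((h _).1 (hpair i0 i1)).1, hcon⟩, by simp [insert_subset_iff, hmem]⟩
  choose s t hst using hspan
  obtain ⟨i, j, hij, hr⟩ := Fintype.exists_ne_map_eq_of_card_lt
    (fun i => t i / f 0 (ψ (g i))) (by simp)
  have hi := congrArg (f 0) (hst i)
  have hj := congrArg (f 0) (hst j)
  simp only [map_add, map_smul, smul_eq_mul] at hi hj
  refine ((h.pair_indep_iff (hg.ne hij) (hmem i) (hmem j)).1 (hpair i j)).2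
    (f 0 (ψ (g i)) / f 0 (ψ (g j))) ?_
  have h0 := hL i0
  have h1 := hL i
  have h2 := hL j
  have e1 : t i = f 0 (ψ (g i)) / f 0 (ψ (g j)) * t j := by
    rw [div_eq_div_iff h1 h2] at hr
    field_simp
    linear_combination hr
  have e2 : s i = f 0 (ψ (g i)) / f 0 (ψ (g j)) * s j := by
    rw [e1] at hi
    field_simp at hi ⊢
    apply mul_right_cancel₀ h0
    linear_combination hi - (f 0) (ψ (g i)) * hj
  generalize f 0 (ψ (g i)) / f 0 (ψ (g j)) = c at e1 e2 ⊢
  rw [← hst i, ← hst j, e1, e2, smul_add, smul_smul, smul_smul]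

theorem crit_minor (N : Matroid (Fin 28)) (hN : N <m M) (hl : ∀ e ∈ N.E, N.Indep {e}) :
    CritLE (Fintype.card F9) 1 N := critLE_of_tangents' rep simple 1 tangents hN hl

theorem no_line : ¬ ∃ N : Matroid (Fin 28), N ≤m M ∧ ∃ g : Fin (Fintype.card F9 + 1) → Fin 28,
    Function.Injective g ∧ range g = N.E ∧
      ∀ I : Set (Fin (Fintype.card F9 + 1)), N.Indep (g '' I) ↔ I.ncard ≤ 2 := by
  rintro ⟨N, hN, g, hg, hE, hI⟩
  have hne : N ≠ M := by
    rintro rfl
    have := Fintype.card_le_of_surjective g (range_eq_univ.1 hE)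
    simp [card_F9] at this
  have hc := crit_minor N (Matroid.isStrictMinor_iff_isMinor_ne.2 ⟨hN, hne⟩) (by
    intro e he
    rw [← hE] at he
    obtain ⟨i, rfl⟩ := he
    rw [← image_singleton, hI]
    simp)
  obtain ⟨C, D, hC, -, -, rfl⟩ := hN.exists_eq_contract_delete_disjoint
  exact not_critLE_line ((rep.contract (toFinite _) hC).delete D) g hg hE hI hc

theorem star_acyclic :
    (SimpleGraph.fromEdgeSet ({s(0, 1), s(0, 2), s(0, 3)} : Set (Sym2 (Fin 4)))).IsAcyclic := by
  rw [← acyclic_iff (F := ZMod 2) _ (by rintro e (rfl | rfl | rfl) <;> simp),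
    linearIndepOn_insert (by decide), linearIndepOn_insert (by decide), linearIndepOn_singleton_iff,
    image_pair, image_singleton, mem_span_pair, mem_span_singleton]
  decide

theorem tri_cyclic (a b c : Fin 4) (hab : a ≠ b) (hac : a ≠ c) (hbc : b ≠ c) :
    ¬ (SimpleGraph.fromEdgeSet ({s(b, c), s(a, b), s(a, c)} : Set (Sym2 (Fin 4)))).IsAcyclic := by
  intro h
  refine h.cliqueFree le_rfl {a, b, c} ?_
  rw [SimpleGraph.is3Clique_triple_iff]
  simp [SimpleGraph.fromEdgeSet_adj, hab, hac, hbc]

theorem no_K4 : ¬ ∃ N : Matroid (Fin 28), N ≤m M ∧ ∃ g : Sym2 (Fin 4) → Fin 28,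
    InjOn g {e | ¬ e.IsDiag} ∧ g '' {e | ¬ e.IsDiag} = N.E ∧
      ∀ I ⊆ {e : Sym2 (Fin 4) | ¬ e.IsDiag},
        (N.Indep (g '' I) ↔ (SimpleGraph.fromEdgeSet I).IsAcyclic) := by
  rintro ⟨N, hN, g, hg, hE, hI⟩
  obtain ⟨C, D, hC, -, -, rfl⟩ := hN.exists_eq_contract_delete_disjoint
  have hne : ∀ e f : Sym2 (Fin 4), ¬ e.IsDiag → ¬ f.IsDiag → e ≠ f → g e ≠ g f :=
    fun e f he hf hef h => hef (hg he hf h)
  have hCe : C = ∅ := by
    by_contra hcon
    obtain ⟨c, hc⟩ := nonempty_iff_ne_empty.2 hcon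
    have h1 := (hI _ (by rintro e (rfl | rfl | rfl) <;> simp)).2 star_acyclic
    obtain ⟨B, hB, hcB⟩ := (show M.Indep {c} by
      simpa using simple c trivial c trivial).subset_isBasis_of_subset (by simpa using hc) hC
    rw [Matroid.delete_indep_iff, hB.contract_indep_iff] at h1
    have h2 := h1.1.1.eRk_eq_encard
    have h3 := eRk_le rep h1.1.1.subset_ground
    rw [h2, Module.finrank_fin_fun] at h3
    have h4 := (encard_le_encard (union_subset_union_right _ hcB)).trans h3
    rw [union_singleton, encard_insert_of_notMem (disjoint_left.1 h1.1.2 hc),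
      (hg.mono (by rintro e (rfl | rfl | rfl) <;> simp)).encard_image,
      encard_insert_of_notMem (by decide), encard_pair (by decide)] at h4
    norm_cast at h4
  subst hCe
  have hdep : ∀ a b c : Fin 4, a ≠ b → a ≠ c → b ≠ c →
      ¬ M.Indep {g s(b, c), g s(a, b), g s(a, c)} := by
    intro a b c hab hac hbc h
    have hsub : ({s(b, c), s(a, b), s(a, c)} : Set (Sym2 (Fin 4))) ⊆ {e | ¬ e.IsDiag} := by
      rintro e (rfl | rfl | rfl) <;> simpa
    apply tri_cyclic a b c hab hac hbc
    rw [← hI _ hsub, Matroid.contract_empty, Matroid.delete_indep_iff]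
    refine ⟨by simpa [image_insert_eq] using h, ?_⟩
    have := image_mono (f := g) hsub
    rw [hE] at this
    exact (subset_sdiff.1 this).2
  have h4 := hdep 1 2 3 (by decide) (by decide) (by decide)
  exact no_onan (g s(0, 1)) (g s(0, 2)) (g s(0, 3)) (g s(1, 2)) (g s(1, 3)) (g s(2, 3))
    (hne _ _ (by decide) (by decide) (by decide)) (hne _ _ (by decide) (by decide) (by decide))
    (hne _ _ (by decide) (by decide) (by decide)) (hne _ _ (by decide) (by decide) (by decide))
    (hne _ _ (by decide) (by decide) (by decide)) (hne _ _ (by decide) (by decide) (by decide))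
    (dep_triple (hne _ _ (by decide) (by decide) (by decide))
      (hne _ _ (by decide) (by decide) (by decide)) (hdep 0 1 2 (by decide) (by decide) (by decide)))
    (dep_triple (hne _ _ (by decide) (by decide) (by decide))
      (hne _ _ (by decide) (by decide) (by decide)) (hdep 0 1 3 (by decide) (by decide) (by decide)))
    (dep_triple (hne _ _ (by decide) (by decide) (by decide))
      (hne _ _ (by decide) (by decide) (by decide)) (hdep 0 2 3 (by decide) (by decide) (by decide)))
    (dep_triple (hne _ _ (by decide) (by decide) (by decide))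
      (hne _ _ (by decide) (by decide) (by decide)) h4)

end Pool.Agent.H28.Unital
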