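import Mathlib

set_option autoImplicit false

/-! A zero-free region for the characteristic polynomial of a represented matroid in which
every nonzero vector of the span is detected by a functional of small support. -/

namespace Pool.Agent.H28.ZeroFree

open Submodule Module Finset

set_option linter.unusedSectionVars false

variable {E K V : Type*} [DecidableEq E] [Field K] [DecidableEq K] [AddCommGroup V] [Module K V]
  [FiniteDimensional K V]

/-- The normalised characteristic sum of the contraction by `W`, restricted to `T`. -/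
noncomputable def Z (χ : E → V) (u : ℂ) (W : Submodule K V) (T : Finset E) : ℂ :=
  ∑ X ∈ T.powerset, (-1 : ℂ) ^ X.card *
    u ^ (finrank K (W ⊔ span K (χ '' (X : Set E)) : Submodule K V) - finrank K W)

theorem sup_insert (χ : E → V) (W : Submodule K V) (x : E) (X : Finset E) :
    W ⊔ span K (χ '' ((insert x X : Finset E) : Set E))
      = (W ⊔ span K {χ x}) ⊔ span K (χ '' (X : Set E)) := by
  rw [Finset.coe_insert, Set.image_insert_eq, span_insert, sup_assoc]

theorem Z_insert_mem (χ : E → V) (u : ℂ) (W : Submodule K V) {T : Finset E} {x : E}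
    (hx : x ∉ T) (hW : χ x ∈ W) : Z χ u W (insert x T) = 0 := by
  unfold Z
  rw [Finset.sum_powerset_insert hx, ← Finset.sum_add_distrib]
  refine Finset.sum_eq_zero fun X hX => ?_
  have hxX : x ∉ X := fun h => hx (Finset.mem_powerset.1 hX h)
  have : W ⊔ span K {χ x} = W := sup_eq_left.2 ((span_singleton_le_iff_mem _ _).2 hW)
  rw [sup_insert, this, Finset.card_insert_of_notMem hxX]
  ring

theorem Z_insert_notMem (χ : E → V) (u : ℂ) (W : Submodule K V) {T : Finset E} {x : E}
    (hx : x ∉ T) (hW : χ x ∉ W) :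
    Z χ u W (insert x T) = Z χ u W T - u * Z χ u (W ⊔ span K {χ x}) T := by
  unfold Z
  rw [Finset.sum_powerset_insert hx, Finset.mul_sum, sub_eq_add_neg, ← Finset.sum_neg_distrib]
  congr 1
  refine Finset.sum_congr rfl fun X hX => ?_
  have hxX : x ∉ X := fun h => hx (Finset.mem_powerset.1 hX h)
  have h0 : χ x ≠ 0 := fun h => hW (h ▸ W.zero_mem)
  have hdim : finrank K (W ⊔ span K {χ x} : Submodule K V) = finrank K W + 1 := by
    have h1 := Submodule.finrank_sup_add_finrank_inf_eq W (span K {χ x})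
    have h2 : W ⊓ span K {χ x} = ⊥ :=
      disjoint_iff.1 ((Submodule.disjoint_span_singleton' h0).2 hW)
    rw [h2, finrank_bot, finrank_span_singleton h0] at h1
    omega
  have hle : finrank K (W ⊔ span K {χ x} : Submodule K V) ≤
      finrank K ((W ⊔ span K {χ x}) ⊔ span K (χ '' (X : Set E)) : Submodule K V) :=
    Submodule.finrank_mono le_sup_left
  rw [sup_insert, Finset.card_insert_of_notMem hxX]
  have : finrank K ((W ⊔ span K {χ x}) ⊔ span K (χ '' (X : Set E)) : Submodule K V) - finrank K W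
      = (finrank K ((W ⊔ span K {χ x}) ⊔ span K (χ '' (X : Set E)) : Submodule K V) -
        finrank K (W ⊔ span K {χ x} : Submodule K V)) + 1 := by omega
  rw [this]
  ring

theorem Z_of_disjoint (χ : E → V) (u : ℂ) (W : Submodule K V) {T : Finset E}
    (h : Disjoint W (span K (χ '' (T : Set E)))) : Z χ u W T = Z χ u (⊥ : Submodule K V) T := by
  unfold Z
  refine Finset.sum_congr rfl fun X hX => ?_
  have hd : W ⊓ span K (χ '' (X : Set E)) = ⊥ :=
    disjoint_iff.1 (h.mono_right (span_mono (Set.image_mono (Finset.mem_powerset.1 hX))))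
  have h1 := Submodule.finrank_sup_add_finrank_inf_eq W (span K (χ '' (X : Set E)))
  rw [hd, finrank_bot] at h1
  rw [bot_sup_eq, finrank_bot]
  congr 2
  omega

/-- After adding one vector to `W`, disjointness is restored by removing at most `L` elements. -/
theorem restore [Fintype E] (χ : E → V) (L : ℕ)
    (hL : ∀ w ∈ span K (Set.range χ), w ≠ 0 → ∃ φ : V →ₗ[K] K, φ w ≠ 0 ∧
      (Finset.univ.filter fun e => φ (χ e) ≠ 0).card ≤ L)
    (W : Submodule K V) (U : Finset E) (h : Disjoint W (span K (χ '' (U : Set E)))) (v : V) :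
    ∃ D : Finset E, D.card ≤ L ∧
      Disjoint (W ⊔ span K {v}) (span K (χ '' ((U \ D : Finset E) : Set E))) := by
  classical
  by_cases hex : ∃ w ∈ W ⊔ span K {v}, w ∈ span K (χ '' (U : Set E)) ∧ w ≠ 0
  · obtain ⟨w, hwW, hwU, hw0⟩ := hex
    obtain ⟨φ, hφ, hcard⟩ := hL w (span_mono (Set.image_subset_range _ _) hwU) hw0
    refine ⟨_, hcard, ?_⟩
    rw [Submodule.disjoint_def]
    intro a haW haU
    have haU' : a ∈ span K (χ '' (U : Set E)) :=
      span_mono (Set.image_mono (Finset.coe_subset.2 Finset.sdiff_subset)) haU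
    have hφa : φ a = 0 := by
      have : span K (χ '' ((U \ Finset.univ.filter fun e => φ (χ e) ≠ 0 : Finset E) : Set E))
          ≤ LinearMap.ker φ := by
        rw [span_le]
        rintro _ ⟨e, he, rfl⟩
        simp only [Finset.coe_sdiff, Set.mem_sdiff, Finset.mem_coe, Finset.mem_filter,
          Finset.mem_univ, true_and, not_not] at he
        exact he.2
      exact this haU
    obtain ⟨w1, hw1, y1, hy1, rfl⟩ := Submodule.mem_sup.1 haW
    obtain ⟨c1, rfl⟩ := Submodule.mem_span_singleton.1 hy1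
    obtain ⟨w2, hw2, y2, hy2, rfl⟩ := Submodule.mem_sup.1 hwW
    obtain ⟨c2, rfl⟩ := Submodule.mem_span_singleton.1 hy2
    have hd := Submodule.disjoint_def.1 h
    have hc2 : c2 ≠ 0 := by
      rintro rfl
      rw [zero_smul, add_zero] at hwU hw0
      exact hw0 (hd _ hw2 hwU)
    have hz : c2 • (w1 + c1 • v) - c1 • (w2 + c2 • v) = 0 := by
      apply hd
      · have : c2 • (w1 + c1 • v) - c1 • (w2 + c2 • v) = c2 • w1 - c1 • w2 := by
          simp only [smul_add, smul_smul, mul_comm c1 c2]; abel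
        rw [this]
        exact W.sub_mem (W.smul_mem _ hw1) (W.smul_mem _ hw2)
      · exact Submodule.sub_mem _ (Submodule.smul_mem _ _ haU') (Submodule.smul_mem _ _ hwU)
    have hz' := congrArg φ hz
    rw [map_sub, map_smul, map_smul, hφa, map_zero, smul_zero, zero_sub, neg_eq_zero,
      smul_eq_mul, mul_eq_zero] at hz'
    have hc1 : c1 = 0 := hz'.resolve_right hφ
    rw [hc1, zero_smul, zero_smul, sub_zero, smul_eq_zero] at hz
    rw [hc1, zero_smul]
    exact hz.resolve_left hc2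
  · push Not at hex
    refine ⟨∅, Nat.zero_le _, ?_⟩
    rw [Finset.sdiff_empty, Submodule.disjoint_def]
    exact fun a h1 h2 => hex a h1 h2

theorem bound [Fintype E] (χ : E → V) (L : ℕ)
    (hL : ∀ w ∈ span K (Set.range χ), w ≠ 0 → ∃ φ : V →ₗ[K] K, φ w ≠ 0 ∧
      (Finset.univ.filter fun e => φ (χ e) ≠ 0).card ≤ L)
    (u : ℂ) (hu : ‖u‖ * 4 ^ L ≤ 1) (n : ℕ)
    (H : ∀ (S : Finset E) (e : E), e ∉ S → S.card < n →
      ‖Z χ u (⊥ : Submodule K V) S‖ ≤ 2 * ‖Z χ u (⊥ : Submodule K V) (insert e S)‖) :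
    ∀ (m : ℕ) (T : Finset E), T.card = m → m ≤ n → ∀ (W : Submodule K V) (P : Finset E),
      Disjoint W (span K (χ '' ((T \ P : Finset E) : Set E))) →
      ‖Z χ u W T‖ ≤ 4 ^ P.card * ‖Z χ u (⊥ : Submodule K V) T‖ := by
  intro m
  induction m with
  | zero =>
    intro T hT _ W P _
    rw [Finset.card_eq_zero] at hT
    subst hT
    rw [Z_of_disjoint χ u W (by simp)]
    exact le_mul_of_one_le_left (norm_nonneg _) (one_le_pow₀ (by norm_num))
  | succ m ih =>
    intro T hT hm W P hd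
    by_cases hP : ∃ x ∈ T, x ∈ P
    · obtain ⟨x, hxT, hxP⟩ := hP
      obtain ⟨T', hx, rfl⟩ : ∃ T', x ∉ T' ∧ T = insert x T' :=
        ⟨T.erase x, Finset.notMem_erase _ _, (Finset.insert_erase hxT).symm⟩
      have hT' : T'.card = m := by
        rw [Finset.card_insert_of_notMem hx] at hT; omega
      by_cases hW : χ x ∈ W
      · rw [Z_insert_mem χ u W hx hW, norm_zero]; positivity
      have hsub : T' \ P.erase x = insert x T' \ P := by
        ext y
        simp only [Finset.mem_sdiff, Finset.mem_erase, Finset.mem_insert]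
        constructor
        · rintro ⟨h1, h2⟩
          exact ⟨Or.inr h1, fun h => h2 ⟨fun h' => hx (h' ▸ h1), h⟩⟩
        · rintro ⟨h1 | h1, h2⟩
          · exact absurd (h1 ▸ hxP) h2
          · exact ⟨h1, fun h => h2 h.2⟩
      obtain ⟨p, hp⟩ : ∃ p, P.card = p + 1 :=
        ⟨P.card - 1, by have := Finset.card_pos.2 ⟨x, hxP⟩; omega⟩
      have hpe : (P.erase x).card = p := by rw [Finset.card_erase_of_mem hxP]; omega
      have h1 := ih T' hT' (by omega) W (P.erase x) (by rw [hsub]; exact hd)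
      obtain ⟨D, hD, hd'⟩ := restore χ L hL W _ hd (χ x)
      have h2 := ih T' hT' (by omega) (W ⊔ span K {χ x}) (P.erase x ∪ D)
        (by rw [← Finset.sup_eq_union, ← sdiff_sdiff_left, hsub]; exact hd')
      have h3 := H T' x hx (by omega)
      have h4 : (4 : ℝ) ^ (P.erase x ∪ D).card ≤ 4 ^ p * 4 ^ L := by
        rw [← pow_add]
        refine pow_le_pow_right₀ (by norm_num) ?_
        have := Finset.card_union_le (P.erase x) D
        omega
      rw [Z_insert_notMem χ u W hx hW, hp]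
      rw [hpe] at h1
      have h5 : ‖u * Z χ u (W ⊔ span K {χ x}) T'‖ ≤ 4 ^ p * ‖Z χ u (⊥ : Submodule K V) T'‖ := by
        rw [norm_mul]
        calc ‖u‖ * ‖Z χ u (W ⊔ span K {χ x}) T'‖
            ≤ ‖u‖ * (4 ^ p * 4 ^ L * ‖Z χ u (⊥ : Submodule K V) T'‖) := by
              refine mul_le_mul_of_nonneg_left (h2.trans ?_) (norm_nonneg _)
              exact mul_le_mul_of_nonneg_right h4 (norm_nonneg _)
          _ = (‖u‖ * 4 ^ L) * (4 ^ p * ‖Z χ u (⊥ : Submodule K V) T'‖) := by ring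
          _ ≤ 1 * (4 ^ p * ‖Z χ u (⊥ : Submodule K V) T'‖) :=
              mul_le_mul_of_nonneg_right hu (by positivity)
          _ = _ := one_mul _
      calc ‖Z χ u W T' - u * Z χ u (W ⊔ span K {χ x}) T'‖
          ≤ ‖Z χ u W T'‖ + ‖u * Z χ u (W ⊔ span K {χ x}) T'‖ := norm_sub_le _ _
        _ ≤ 4 ^ p * (2 * ‖Z χ u (⊥ : Submodule K V) T'‖) := by linarith
        _ ≤ 4 ^ p * (2 * (2 * ‖Z χ u (⊥ : Submodule K V) (insert x T')‖)) := by gcongr
        _ = _ := by ring
    · push Not at hP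
      have : T \ P = T := Finset.sdiff_eq_self_of_disjoint (Finset.disjoint_left.2 hP)
      rw [this] at hd
      rw [Z_of_disjoint χ u W hd]
      exact le_mul_of_one_le_left (norm_nonneg _) (one_le_pow₀ (by norm_num))

theorem ratio [Fintype E] (χ : E → V) (h0 : ∀ e, χ e ≠ 0) (L : ℕ)
    (hL : ∀ w ∈ span K (Set.range χ), w ≠ 0 → ∃ φ : V →ₗ[K] K, φ w ≠ 0 ∧
      (Finset.univ.filter fun e => φ (χ e) ≠ 0).card ≤ L)
    (u : ℂ) (hu : ‖u‖ * 4 ^ L ≤ 1 / 2) (n : ℕ) :
    ∀ (S : Finset E) (e : E), e ∉ S → S.card < n →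
      ‖Z χ u (⊥ : Submodule K V) S‖ ≤ 2 * ‖Z χ u (⊥ : Submodule K V) (insert e S)‖ := by
  induction n with
  | zero => intro S e _ h; omega
  | succ n ih =>
    intro S e he hS
    obtain ⟨D, hD, hd⟩ := restore χ L hL ⊥ S disjoint_bot_left (χ e)
    have h1 := bound χ L hL u (by linarith) n ih S.card S rfl (by omega) _ D hd
    rw [Z_insert_notMem χ u ⊥ he (by simpa using h0 e)]
    have h4 : (4 : ℝ) ^ D.card ≤ 4 ^ L := pow_le_pow_right₀ (by norm_num) hD
    have h5 : ‖u * Z χ u ((⊥ : Submodule K V) ⊔ span K {χ e}) S‖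
        ≤ 1 / 2 * ‖Z χ u (⊥ : Submodule K V) S‖ := by
      rw [norm_mul]
      calc ‖u‖ * ‖Z χ u ((⊥ : Submodule K V) ⊔ span K {χ e}) S‖
          ≤ ‖u‖ * (4 ^ L * ‖Z χ u (⊥ : Submodule K V) S‖) := by
            refine mul_le_mul_of_nonneg_left (h1.trans ?_) (norm_nonneg _)
            exact mul_le_mul_of_nonneg_right h4 (norm_nonneg _)
        _ = (‖u‖ * 4 ^ L) * ‖Z χ u (⊥ : Submodule K V) S‖ := by ring
        _ ≤ _ := mul_le_mul_of_nonneg_right hu (norm_nonneg _)
    have h6 := norm_sub_norm_le (Z χ u (⊥ : Submodule K V) S)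
      (u * Z χ u ((⊥ : Submodule K V) ⊔ span K {χ e}) S)
    linarith

/-- Main theorem: no zeros when `‖u‖ 4^L ≤ 1/2`. -/
theorem Z_ne_zero [Fintype E] (χ : E → V) (h0 : ∀ e, χ e ≠ 0) (L : ℕ)
    (hL : ∀ w ∈ span K (Set.range χ), w ≠ 0 → ∃ φ : V →ₗ[K] K, φ w ≠ 0 ∧
      (Finset.univ.filter fun e => φ (χ e) ≠ 0).card ≤ L)
    (u : ℂ) (hu : ‖u‖ * 4 ^ L ≤ 1 / 2) (S : Finset E) : Z χ u (⊥ : Submodule K V) S ≠ 0 := by
  induction S using Finset.induction_on with
  | empty => simp [Z]
  | insert e S he ih =>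
    intro h
    have := ratio χ h0 L hL u hu (S.card + 1) S e he (by omega)
    rw [h, norm_zero, mul_zero] at this
    exact ih (norm_le_zero_iff.1 this)

/-- Polynomial form: if `r` bounds the rank, all roots of `∑ (-1)^|X| q^(r - rank X)` have modulus
at most `2 * 4^L`. -/
theorem root_bound [Fintype E] (χ : E → V) (h0 : ∀ e, χ e ≠ 0) (L : ℕ)
    (hL : ∀ w ∈ span K (Set.range χ), w ≠ 0 → ∃ φ : V →ₗ[K] K, φ w ≠ 0 ∧
      (Finset.univ.filter fun e => φ (χ e) ≠ 0).card ≤ L)
    (r : ℕ) (hr : finrank K (span K (Set.range χ)) ≤ r) (q : ℂ)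
    (hq : ∑ X : Finset E, (-1 : ℂ) ^ X.card * q ^ (r - finrank K (span K (χ '' (X : Set E)))) = 0) :
    ‖q‖ ≤ 2 * 4 ^ L := by
  by_contra hcon
  push Not at hcon
  have hpos : (0 : ℝ) < 2 * 4 ^ L := by positivity
  have hq0 : q ≠ 0 := by
    rintro rfl
    rw [norm_zero] at hcon
    linarith
  have hu : ‖q⁻¹‖ * 4 ^ L ≤ 1 / 2 := by
    rw [norm_inv, inv_mul_le_iff₀ (by linarith)]
    linarith
  apply Z_ne_zero χ h0 L hL q⁻¹ hu Finset.univ
  have : Z χ q⁻¹ (⊥ : Submodule K V) Finset.univ = (q⁻¹) ^ r *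
      ∑ X : Finset E, (-1 : ℂ) ^ X.card * q ^ (r - finrank K (span K (χ '' (X : Set E)))) := by
    unfold Z
    rw [Finset.powerset_univ, Finset.mul_sum]
    refine Finset.sum_congr rfl fun X _ => ?_
    have hle : finrank K (span K (χ '' (X : Set E))) ≤ r :=
      (Submodule.finrank_mono (span_mono (Set.image_subset_range _ _))).trans hr
    rw [bot_sup_eq, finrank_bot, Nat.sub_zero, pow_sub₀ _ hq0 hle, inv_pow, inv_pow]
    field_simp
  rw [this, hq, mul_zero]

end Pool.Agent.H28.ZeroFree
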